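import Pool.Agent.Lib.MP_1a953e_ag.Defs

/-!
# Module GP2: Hensel lemma
-/

namespace MP1a953e

open Polynomial Filter Topology

variable {Ω : Type*} [NormedField Ω] [IsUltrametricDist Ω]

/-- the unit ball as a subring -/
private def OO (Ω : Type*) [NormedField Ω] [IsUltrametricDist Ω] : Subring Ω where
  carrier := {z | ‖z‖ ≤ 1}
  mul_mem' := by
    intro a b ha hb
    simp only [Set.mem_ofPred_eq] at *
    rw [norm_mul]
    exact mul_le_one₀ ha (norm_nonneg _) hb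
  one_mem' := by simp
  add_mem' := by
    intro a b ha hb
    exact (IsUltrametricDist.norm_add_le_max a b).trans (max_le ha hb)
  zero_mem' := by simp
  neg_mem' := by
    intro a ha
    simpa using ha

private lemma lift_OO {f : Polynomial Ω} (hf1 : ∀ i, ‖f.coeff i‖ ≤ 1) :
    ∃ F : Polynomial (OO Ω), F.map (OO Ω).subtype = f := by
  have h : (↑f.coeffs : Set Ω) ⊆ (OO Ω : Set Ω) := by
    intro z hz
    have hz' : z ∈ f.coeffs := hz
    rw [Polynomial.mem_coeffs_iff] at hz'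
    obtain ⟨n, _, rfl⟩ := hz'
    exact hf1 n
  exact ⟨f.toSubring (OO Ω) h, Polynomial.map_toSubring f (OO Ω) h⟩

private lemma eval_OO (F : Polynomial (OO Ω)) (z : OO Ω) :
    (F.map (OO Ω).subtype).eval (z : Ω) = ((F.eval z : OO Ω) : Ω) := by
  rw [Polynomial.eval_map]
  exact Polynomial.eval₂_at_apply (OO Ω).subtype z

private lemma deriv_OO {f : Polynomial Ω} (hf1 : ∀ i, ‖f.coeff i‖ ≤ 1) :
    ∀ i, ‖f.derivative.coeff i‖ ≤ 1 := by
  intro i
  rw [Polynomial.coeff_derivative, norm_mul]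
  refine mul_le_one₀ (hf1 _) (norm_nonneg _) ?_
  have := IsUltrametricDist.norm_natCast_le_one Ω (i + 1)
  simpa using this

private lemma taylor2 {f : Polynomial Ω} (hf1 : ∀ i, ‖f.coeff i‖ ≤ 1) {y h : Ω} (hy : ‖y‖ ≤ 1)
    (hh : ‖h‖ ≤ 1) :
    ∃ k : Ω, ‖k‖ ≤ 1 ∧ f.eval (y + h) = f.eval y + f.derivative.eval y * h + k * h ^ 2 := by
  obtain ⟨F, hF⟩ := lift_OO hf1
  let y' : OO Ω := ⟨y, hy⟩
  let h' : OO Ω := ⟨h, hh⟩
  obtain ⟨k, hk⟩ := Polynomial.binomExpansion F y' h'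
  refine ⟨k, k.2, ?_⟩
  have h1 := eval_OO F (y' + h')
  have h2 := eval_OO F y'
  have h3 := eval_OO (derivative F) y'
  rw [← Polynomial.derivative_map] at h3
  rw [hF] at h1 h2 h3
  have e1 : ((y' + h' : OO Ω) : Ω) = y + h := rfl
  have e2 : ((y' : OO Ω) : Ω) = y := rfl
  rw [e1] at h1
  rw [e2] at h2 h3
  rw [h1, h2, h3, hk]
  rfl

private lemma taylor1 {f : Polynomial Ω} (hf1 : ∀ i, ‖f.coeff i‖ ≤ 1) {y h : Ω} (hy : ‖y‖ ≤ 1)
    (hh : ‖h‖ ≤ 1) : ‖f.eval (y + h) - f.eval y‖ ≤ ‖h‖ := by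
  obtain ⟨F, hF⟩ := lift_OO hf1
  let y' : OO Ω := ⟨y, hy⟩
  let h' : OO Ω := ⟨h, hh⟩
  obtain ⟨k, hk⟩ := Polynomial.evalSubFactor F (y' + h') y'
  have h1 := eval_OO F (y' + h')
  have h2 := eval_OO F y'
  rw [hF] at h1 h2
  have e1 : ((y' + h' : OO Ω) : Ω) = y + h := rfl
  have e2 : ((y' : OO Ω) : Ω) = y := rfl
  rw [e1] at h1
  rw [e2] at h2
  have h4 : f.eval (y + h) - f.eval y = k * h := by
    rw [h1, h2]
    have := congrArg (fun z : OO Ω => (z : Ω)) hk
    simp only [add_sub_cancel_left] at this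
    exact this
  rw [h4, norm_mul]
  calc ‖(k : Ω)‖ * ‖h‖ ≤ 1 * ‖h‖ := mul_le_mul_of_nonneg_right k.2 (norm_nonneg _)
    _ = ‖h‖ := one_mul _

/-- GP2 (Hensel's lemma, Newton iteration `x ↦ x - f x / f' x`). -/
theorem hensel {Q : Subfield Ω} (hQ : IsComplete (Q : Set Ω)) {f : Polynomial Ω}
    (hf : Coeffs Q f) (hf1 : ∀ i, ‖f.coeff i‖ ≤ 1) {x : Ω} (hx : x ∈ Q) (hx1 : ‖x‖ ≤ 1)
    (hfx : ‖f.eval x‖ < 1) (hf' : ‖f.derivative.eval x‖ = 1) :
    ∃ c ∈ Q, f.eval c = 0 ∧ ‖x - c‖ < 1 := by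
  set δ := ‖f.eval x‖ with hδ
  have hδ0 : 0 ≤ δ := norm_nonneg _
  have evQ : ∀ g : Polynomial Ω, Coeffs Q g → ∀ z ∈ Q, g.eval z ∈ Q := by
    intro g hg z hz
    rw [Polynomial.eval_eq_sum_range]
    exact Subfield.sum_mem _ fun i _ => Q.mul_mem (hg i) (Q.pow_mem hz i)
  have hfd : Coeffs Q f.derivative := by
    intro i
    rw [Polynomial.coeff_derivative]
    refine Q.mul_mem (hf _) ?_
    have : ((i : Ω) + 1) = ((i + 1 : ℕ) : Ω) := by push_cast; ring
    rw [this]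
    exact natCast_mem Q (i + 1)
  let s : ℕ → Ω := fun n => Nat.rec x (fun _ y => y + -(f.eval y / f.derivative.eval y)) n
  have s0 : s 0 = x := rfl
  have s1 : ∀ n, s (n + 1) = s n + -(f.eval (s n) / f.derivative.eval (s n)) := fun n => rfl
  have key : ∀ n, s n ∈ Q ∧ ‖s n‖ ≤ 1 ∧ ‖f.eval (s n)‖ ≤ δ ^ (n + 1) ∧
      ‖f.derivative.eval (s n)‖ = 1 ∧ ‖s n - x‖ ≤ δ := by
    intro n
    induction n with
    | zero =>
      refine ⟨hx, hx1, ?_, hf', ?_⟩
      · rw [s0, zero_add, pow_one]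
      · rw [s0, sub_self, norm_zero]; exact hδ0
    | succ n ih =>
      obtain ⟨i1, i2, i3, i4, i5⟩ := ih
      set h := -(f.eval (s n) / f.derivative.eval (s n)) with hh
      have hn : ‖h‖ = ‖f.eval (s n)‖ := by rw [hh, norm_neg, norm_div, i4, div_one]
      have hpow : δ ^ (n + 1) ≤ δ := by
        calc δ ^ (n + 1) ≤ δ ^ 1 := pow_le_pow_of_le_one hδ0 hfx.le (by omega)
          _ = δ := pow_one _
      have hh1 : ‖h‖ ≤ δ := by rw [hn]; exact i3.trans hpow
      have hh2 : ‖h‖ ≤ 1 := hh1.trans hfx.le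
      have hne : f.derivative.eval (s n) ≠ 0 := by
        intro h0; rw [h0, norm_zero] at i4; exact zero_ne_one i4
      rw [s1 n, ← hh]
      refine ⟨Q.add_mem i1 ?_, ?_, ?_, ?_, ?_⟩
      · exact Q.neg_mem (Q.div_mem (evQ f hf _ i1) (evQ _ hfd _ i1))
      · exact (IsUltrametricDist.norm_add_le_max _ _).trans (max_le i2 hh2)
      · obtain ⟨k, hk1, hk⟩ := taylor2 hf1 i2 hh2
        have e : f.eval (s n) + f.derivative.eval (s n) * h = 0 := by
          rw [hh]
          field_simp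
          ring
        rw [hk, e, zero_add, norm_mul, norm_pow]
        calc ‖k‖ * ‖h‖ ^ 2 ≤ 1 * (δ ^ (n + 1)) ^ 2 := by
              apply mul_le_mul hk1 _ (by positivity) zero_le_one
              rw [hn]
              exact pow_le_pow_left₀ (norm_nonneg _) i3 2
          _ = δ ^ (2 * (n + 1)) := by rw [one_mul, ← pow_mul, mul_comm]
          _ ≤ δ ^ (n + 1 + 1) := pow_le_pow_of_le_one hδ0 hfx.le (by omega)
      · have h1 := taylor1 (deriv_OO hf1) i2 hh2
        have h2 : ‖f.derivative.eval (s n + h) - f.derivative.eval (s n)‖ < 1 :=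
          lt_of_le_of_lt (h1.trans hh1) hfx
        have h3 := IsUltrametricDist.norm_add_eq_max_of_norm_ne_norm
          (x := f.derivative.eval (s n + h) - f.derivative.eval (s n))
          (y := f.derivative.eval (s n)) (by rw [i4]; exact h2.ne)
        rw [sub_add_cancel, i4] at h3
        rw [h3]
        exact max_eq_right h2.le
      · have : s n + h - x = (s n - x) + h := by ring
        rw [this]
        exact (IsUltrametricDist.norm_add_le_max _ _).trans (max_le i5 hh1)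
  have hcau : CauchySeq s := by
    refine cauchySeq_of_le_geometric δ δ hfx fun n => ?_
    rw [dist_eq_norm, s1 n, sub_add_cancel_left, neg_neg, norm_div, (key n).2.2.2.1, div_one]
    calc _ ≤ δ ^ (n + 1) := (key n).2.2.1
      _ = δ * δ ^ n := by rw [pow_succ, mul_comm]
  obtain ⟨c, hc, hlim⟩ := cauchySeq_tendsto_of_isComplete hQ (fun n => (key n).1) hcau
  refine ⟨c, hc, ?_, ?_⟩
  · have h1 : Tendsto (fun n => f.eval (s n)) atTop (𝓝 (f.eval c)) :=
      (f.continuous.tendsto c).comp hlim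
    have h2 : Tendsto (fun n => f.eval (s n)) atTop (𝓝 0) := by
      rw [tendsto_zero_iff_norm_tendsto_zero]
      refine squeeze_zero (fun n => norm_nonneg _) (fun n => (key n).2.2.1) ?_
      exact (tendsto_pow_atTop_nhds_zero_of_lt_one hδ0 hfx).comp (tendsto_add_atTop_nat 1)
    exact tendsto_nhds_unique h1 h2
  · have h1 : Tendsto (fun n => ‖s n - x‖) atTop (𝓝 ‖c - x‖) := (hlim.sub_const x).norm
    have h2 : ‖c - x‖ ≤ δ := le_of_tendsto' h1 fun n => (key n).2.2.2.2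
    rw [norm_sub_rev]
    exact lt_of_le_of_lt h2 hfx

end MP1a953e
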