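import Mathlib

/-!
# Definitions for the local uniformization theorem

`O K` is the unit ball (valuation ring) of the normed field `K`; its residue field is
`IsLocalRing.ResidueField (O K)`.
-/

namespace MP1a953e

open Polynomial

/-- the valuation ring (closed unit ball) of a nonarchimedean normed field -/
noncomputable def O (K : Type*) [NormedField K] [IsUltrametricDist K] : Subring K :=
  (NormedField.valuation (K := K)).integer

theorem mem_O {K : Type*} [NormedField K] [IsUltrametricDist K] {x : K} : x ∈ O K ↔ ‖x‖ ≤ 1 := by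
  simp [O, Valuation.mem_integer_iff, ← NNReal.coe_le_coe]

theorem isUnit_O_iff {K : Type*} [NormedField K] [IsUltrametricDist K] {x : O K} :
    IsUnit x ↔ ‖(x : K)‖ = 1 := by
  constructor
  · intro h
    obtain ⟨y, hy⟩ := h.exists_right_inv
    have h1 : (x : K) * (y : K) = 1 := by exact_mod_cast congrArg Subtype.val hy
    have hx := mem_O.1 x.2
    have hy' := mem_O.1 y.2
    have h2 : ‖(x : K)‖ * ‖(y : K)‖ = 1 := by rw [← norm_mul, h1, norm_one]
    nlinarith [norm_nonneg (x : K), norm_nonneg (y : K)]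
  · intro h
    have hx0 : (x : K) ≠ 0 := by
      intro h0
      rw [h0, norm_zero] at h
      exact zero_ne_one h
    refine IsUnit.of_mul_eq_one (⟨(x : K)⁻¹, mem_O.2 (by rw [norm_inv, h, inv_one])⟩ : O K) ?_
    exact Subtype.ext (mul_inv_cancel₀ hx0)

instance {K : Type*} [NormedField K] [IsUltrametricDist K] : IsLocalRing (O K) :=
  IsLocalRing.of_nonunits_add (by
    intro a b ha hb
    rw [mem_nonunits_iff, isUnit_O_iff] at *
    have ha1 : ‖(a : K)‖ < 1 := lt_of_le_of_ne (mem_O.1 a.2) ha
    have hb1 : ‖(b : K)‖ < 1 := lt_of_le_of_ne (mem_O.1 b.2) hb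
    have h := IsUltrametricDist.norm_add_le_max (a : K) (b : K)
    have : ‖((a + b : O K) : K)‖ < 1 := by
      push_cast
      exact lt_of_le_of_lt h (max_lt ha1 hb1)
    exact this.ne)

section

variable (k L : Type*) [NormedField k] [IsUltrametricDist k] [NormedField L]
  [IsUltrametricDist L] [NormedAlgebra k L]

/-- the inclusion of the valuation rings -/
noncomputable def OMap : O k →+* O L :=
  ((algebraMap k L).comp (O k).subtype).codRestrict (O L) (by
    intro x
    rw [mem_O]
    simp only [RingHom.coe_comp, Function.comp_apply, Subring.subtype_apply, norm_algebraMap']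
    exact mem_O.1 x.2)

noncomputable instance : Algebra (O k) (O L) := (OMap k L).toAlgebra

theorem coe_algebraMap_O (x : O k) :
    ((algebraMap (O k) (O L) x : O L) : L) = algebraMap k L (x : k) := rfl

instance : IsLocalHom (algebraMap (O k) (O L)) := ⟨by
  intro x hx
  rw [isUnit_O_iff] at *
  rwa [coe_algebraMap_O, norm_algebraMap'] at hx⟩

end

/-- Coefficients of a polynomial in an intermediate field. -/
def CoeffsIn {k L : Type*} [Field k] [Field L] [Algebra k L] (M : IntermediateField k L)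
    (g : Polynomial L) : Prop := ∀ i, g.coeff i ∈ M

/-- `Good`: the `h`-adic expansion of `G` is dominated at `α` by its constant term -/
def Good {k L : Type*} [NormedField k] [NormedField L] [NormedAlgebra k L]
    (M : IntermediateField k L) (d : ℕ) (α : L) (G h : Polynomial L) : Prop :=
  ∃ (N : ℕ) (g : ℕ → Polynomial L), (∀ i, CoeffsIn M (g i)) ∧ (∀ i, (g i).degree < d) ∧
    G = ∑ i ∈ Finset.range (N + 1), g i * h ^ i ∧
    ∀ i, 1 ≤ i → i ≤ N → ‖(g i).eval α‖ * ‖h.eval α‖ ^ i < ‖(g 0).eval α‖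

/-- The data produced by henselian rationality, from which local uniformization is deduced. `M` is the
field `k(u)`. -/
structure LUData (k : Type*) {L : Type*} [NormedField k] [NormedField L] [NormedAlgebra k L] {m : ℕ}
    (d : ℕ) (u : Fin m → L) (α : L) : Prop where
  gauss : ∀ (P : MvPolynomial (Fin m) k) (s : Fin m →₀ ℕ), ‖P.coeff s‖ ≤ ‖MvPolynomial.aeval u P‖
  norm_u : ∀ i, ‖u i‖ ≤ 1
  norm_α : ‖α‖ ≤ 1
  dpos : 0 < d
  orth : ∀ c : Fin d → L, (∀ i, c i ∈ IntermediateField.adjoin k (Set.range u)) →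
    ∀ i, ‖c i‖ ≤ ‖∑ j, c j * α ^ (j : ℕ)‖
  trans : Transcendental (IntermediateField.adjoin k (Set.range u)) α
  sep : Algebra.IsSeparable (IntermediateField.adjoin k (Set.range u ∪ {α})) L
  fin : FiniteDimensional (IntermediateField.adjoin k (Set.range u ∪ {α})) L
  dense : ∀ x : L, ∀ ε : ℝ, 0 < ε →
    ∃ y ∈ IntermediateField.adjoin k (Set.range u ∪ {α}), ‖x - y‖ < ε
  approx : ∀ S : Finset (Polynomial L),
    (∀ G ∈ S, G ≠ 0 ∧ CoeffsIn (IntermediateField.adjoin k (Set.range u)) G) →
    ∃ h : Polynomial L, CoeffsIn (IntermediateField.adjoin k (Set.range u)) h ∧ h.Monic ∧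
      h.natDegree = d ∧ (∀ i, ‖h.coeff i‖ ≤ 1) ∧ ‖h.derivative.eval α‖ = 1 ∧
      ‖h.eval α‖ < 1 ∧ ∀ G ∈ S, Good (IntermediateField.adjoin k (Set.range u)) d α G h

/-- `z` is a nonzero constant times a unit of `B` -/
def UnitUpTo (k : Type*) {L : Type*} [NormedField k] [IsUltrametricDist k] [NormedField L]
    [NormedAlgebra k L] (B : Subalgebra (O k) L) (z : L) : Prop :=
  ∃ c : k, c ≠ 0 ∧ ∃ w ∈ B, w ≠ 0 ∧ w⁻¹ ∈ B ∧ z = algebraMap k L c * w

end MP1a953e
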