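import Pool.Agent.Lib.MP_1a953e_ag.Defs
import Pool.Agent.Lib.MP_1a953e_ag.LUDefs

/-!
# Definitions for the embedding of `L` in `Ω`
-/

namespace MP1a953e

universe v w

/-- `ι : L → Ω` is isometric, `K` is complete and contains `ι L` as a dense subfield. -/
structure Emb {L : Type v} {Ω : Type w} [NormedField L] [NormedField Ω] (ι : L →+* Ω)
    (K : Subfield Ω) : Prop where
  norm : ∀ x, ‖ι x‖ = ‖x‖
  complete : IsComplete (K : Set Ω)
  mem : ∀ x, ι x ∈ K
  dense : ∀ y ∈ K, ∀ ε : ℝ, 0 < ε → ∃ x : L, ‖y - ι x‖ < ε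

/-- the image of the ground field in `Ω` -/
def kO (k : Type*) {L Ω : Type*} [NormedField k] [NormedField L] [NormedAlgebra k L]
    [NormedField Ω] (ι : L →+* Ω) : Subfield Ω :=
  (ι.comp (algebraMap k L)).fieldRange

end MP1a953e
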