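import Mathlib

/-!
# Henselian rationality of corank one points, equal characteristic p: definitions

`Ω` is an (ultrametric) normed field of characteristic `p`, all other fields are subfields of `Ω`.
-/

namespace MP1a953e

open Polynomial

variable {Ω : Type*} [NormedField Ω]

/-- the field generated by `F` and `x` -/
def adj (F : Subfield Ω) (x : Ω) : Subfield Ω := F ⊔ Subfield.closure {x}

/-- `K` is an immediate extension of `F` -/
def Imm (F K : Subfield Ω) : Prop :=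
  F ≤ K ∧ ∀ x ∈ K, x ≠ 0 → ∃ f ∈ F, ‖x - f‖ < ‖x‖

/-- `A` is a dense subfield of `K` -/
def DenseIn (A K : Subfield Ω) : Prop :=
  A ≤ K ∧ ∀ x ∈ K, ∀ ε : ℝ, 0 < ε → ∃ a ∈ A, ‖x - a‖ < ε

/-- `θ` is an orthogonal basis of `F'` over `F`, with `θ 0 = 1` -/
structure OrthBasis (F F' : Subfield Ω) {d : ℕ} (θ : Fin (d + 1) → Ω) : Prop where
  le : F ≤ F'
  zero : θ 0 = 1
  mem : ∀ i, θ i ∈ F'
  ne : ∀ i, θ i ≠ 0
  span : ∀ x ∈ F', ∃ c : Fin (d + 1) → Ω, (∀ i, c i ∈ F) ∧ x = ∑ i, c i * θ i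
  orth : ∀ c : Fin (d + 1) → Ω, (∀ i, c i ∈ F) → ∀ i, ‖c i * θ i‖ ≤ ‖∑ j, c j * θ j‖

/-- the field of `p ^ H`-th powers of elements of `A` -/
def powField (p H : ℕ) [ExpChar Ω p] (A : Subfield Ω) : Subfield Ω :=
  A.map (iterateFrobenius Ω p H)

/-- the field of all `x` with `x ^ (p ^ H)` in `A` -/
def rootField (p H : ℕ) [ExpChar Ω p] (A : Subfield Ω) : Subfield Ω :=
  A.comap (iterateFrobenius Ω p H)

/-- algebraically closed nontrivially valued ground field `k` with coefficient field `k0` -/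
structure Ground (k0 k : Subfield Ω) : Prop where
  le : k0 ≤ k
  closed : IsAlgClosed k
  nontriv : ∃ x ∈ k, 1 < ‖x‖
  triv : ∀ x ∈ k0, x ≠ 0 → ‖x‖ = 1
  res : ∀ x ∈ k, ‖x‖ ≤ 1 → ∃ c ∈ k0, ‖x - c‖ < 1

/-- `F` is a complete field of Abhyankar type over `k`: the completion of the subfield generated by
`k` and the finitely generated extension `A` of `k0`. -/
structure Ab (p : ℕ) [ExpChar Ω p] (k0 k A F : Subfield Ω) : Prop where
  ground : Ground k0 k
  k0_le : k0 ≤ A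
  fg : ∃ s : Finset Ω, A = k0 ⊔ Subfield.closure (s : Set Ω)
  k_le : k ≤ F
  A_le : A ≤ F
  dense : ∀ x ∈ F, ∀ ε : ℝ, 0 < ε → ∃ g ∈ Subring.closure ((k : Set Ω) ∪ A), ‖x - g‖ < ε
  complete : IsComplete (F : Set Ω)
  res : ∀ x ∈ F, ‖x‖ ≤ 1 → ∃ a ∈ A, ‖a‖ ≤ 1 ∧ ‖x - a‖ < 1
  frob : ∀ H : ℕ, ∃ (d : ℕ) (θ : Fin (d + 1) → Ω),
    OrthBasis (powField p H A) A θ ∧ OrthBasis (powField p H F) F θ

/-- finite extensions of pairs `(A, F)` -/
def Ext (A F A' F' : Subfield Ω) : Prop :=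
  ∃ (d : ℕ) (θ : Fin (d + 1) → Ω), OrthBasis A A' θ ∧ OrthBasis F F' θ

/-- `T` has positive distance to `F` and this distance is not attained by any element which is
algebraic over `F` -/
structure TT (F : Subfield Ω) (T : Ω) : Prop where
  pos : 0 < Metric.infDist T (F : Set Ω)
  nb : ∀ b : Ω, IsAlgebraic F b → Metric.infDist T (F : Set Ω) < ‖T - b‖

/-- polynomial with coefficients in the subfield `F` -/
def Coeffs (F : Subfield Ω) (g : Polynomial Ω) : Prop := ∀ i, g.coeff i ∈ F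

/-- A class of pairs `(A, F)` with the closure properties used in the proof. -/
structure GoodClass (p : ℕ) [ExpChar Ω p] (k0 k : Subfield Ω)
    (Cl : Subfield Ω → Subfield Ω → Prop) : Prop where
  ab : ∀ A F, Cl A F → Ab p k0 k A F
  root : ∀ A F, Cl A F → ∀ m : ℕ, Cl (rootField p m A) (rootField p m F)
  prime : ∀ A F, Cl A F → ∀ Q : Subfield Ω, Imm F Q → IsComplete (Q : Set Ω) →
    ∀ E : IntermediateField Q Ω, FiniteDimensional Q E → Algebra.IsSeparable Q E →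
      ¬ p ∣ Module.finrank Q E →
      ∃ A1 F1, Cl A1 F1 ∧ Ext A F A1 F1 ∧ E.toSubfield = Q ⊔ F1
  value : ∀ A F, Cl A F → ∀ ρ : ℝ, 0 < ρ → ∀ N : ℕ, 0 < N → ¬ p ∣ N →
    (∃ x ∈ F, ρ ^ N = ‖x‖) → ∃ A1 F1, Cl A1 F1 ∧ Ext A F A1 F1 ∧ ∃ y ∈ F1, ‖y‖ = ρ

theorem Imm.mono {F K K' : Subfield Ω} (hI : Imm F K) (h1 : F ≤ K') (h2 : K' ≤ K) : Imm F K' :=
  ⟨h1, fun x hx hx0 => hI.2 x (h2 hx) hx0⟩

theorem Imm.refl (F : Subfield Ω) : Imm F F :=
  ⟨le_rfl, fun x hx hx0 => ⟨x, hx, by simpa using hx0⟩⟩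

theorem mem_adj_self (F : Subfield Ω) (x : Ω) : x ∈ adj F x :=
  (le_sup_right : Subfield.closure {x} ≤ adj F x) (Subfield.subset_closure rfl)

theorem le_adj (F : Subfield Ω) (x : Ω) : F ≤ adj F x := le_sup_left

theorem adj_le {F K : Subfield Ω} {x : Ω} (h : F ≤ K) (hx : x ∈ K) : adj F x ≤ K :=
  sup_le h (Subfield.closure_le.2 (by simpa using hx))

theorem mem_powField {p : ℕ} [ExpChar Ω p] {H : ℕ} {A : Subfield Ω} {x : Ω} :
    x ∈ powField p H A ↔ ∃ y ∈ A, y ^ p ^ H = x := by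
  simp [powField, Subfield.mem_map, iterateFrobenius_def]

theorem mem_rootField {p : ℕ} [ExpChar Ω p] {H : ℕ} {A : Subfield Ω} {x : Ω} :
    x ∈ rootField p H A ↔ x ^ p ^ H ∈ A := by
  simp [rootField, Subfield.mem_comap, iterateFrobenius_def]

open Classical in
/-- the `p ^ t`-th root (`0` if there is none) -/
noncomputable def rt (p : ℕ) (t : ℕ) (x : Ω) : Ω :=
  if h : ∃ y : Ω, y ^ p ^ t = x then h.choose else 0

/-- the coefficient functional `λ_j` of the normal form: sum of the `p ^ t`-th roots of the coefficients of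
index `j * p ^ t`, `t < m` -/
noncomputable def lam (p m j : ℕ) (G : Polynomial Ω) : Ω :=
  ∑ t ∈ Finset.range m, rt p t (G.coeff (j * p ^ t))

/-- the index set of the normal form: all `j < p ^ m` prime to `p` -/
def J (p m : ℕ) : Finset ℕ := (Finset.range (p ^ m)).filter fun j => ¬ p ∣ j

/-- Fields of Gauss type: `κ` is a trivially normed finitely generated field over `k0`, and `F` is the
completion of the field generated by `k` and `κ`. -/
structure Gs (k0 k κ F : Subfield Ω) : Prop where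
  ground : Ground k0 k
  k0_le : k0 ≤ κ
  triv : ∀ x ∈ κ, x ≠ 0 → ‖x‖ = 1
  fg : ∃ s : Finset Ω, κ = k0 ⊔ Subfield.closure (s : Set Ω)
  k_le : k ≤ F
  κ_le : κ ≤ F
  dense : ∀ x ∈ F, ∀ ε : ℝ, 0 < ε → ∃ g ∈ Subring.closure ((k : Set Ω) ∪ κ), ‖x - g‖ < ε
  complete : IsComplete (F : Set Ω)

end MP1a953e
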