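import Pool.Agent.Lib.MP_1a953e_ag.EmbDefs

/-!
# Module Em7: separating element
-/

namespace MP1a953e

open Polynomial IsLocalRing

universe v w

/-- Every element of `k(u)` (`k` perfect of characteristic `p`) is a sum of monomials of the box
`[0, p)^m` times `p`-th powers. -/
theorem em7_decomp {k L : Type v} [Field k] [IsAlgClosed k] [Field L] [Algebra k L] {p : ℕ}
    [Fact p.Prime] [CharP k p] {m : ℕ} (u : Fin m → L)
    (x : L) (hx : x ∈ IntermediateField.adjoin k (Set.range u)) :
    ∃ c : (Fin m → Fin p) → IntermediateField.adjoin k (Set.range u),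
      x = ∑ s, (∏ i, u i ^ (s i : ℕ)) * (c s : L) ^ p := by
  classical
  have hp0 : 0 < p := (Fact.out : p.Prime).pos
  have : CharP L p := charP_of_injective_algebraMap (algebraMap k L).injective p
  have : ExpChar L p := .prime Fact.out
  set M := IntermediateField.adjoin k (Set.range u) with hM
  have huM : ∀ i, u i ∈ M := fun i => IntermediateField.subset_adjoin _ _ ⟨i, rfl⟩
  -- closed under addition
  let Q : L → Prop := fun x => ∃ c : (Fin m → Fin p) → M,
      x = ∑ s, (∏ i, u i ^ (s i : ℕ)) * (c s : L) ^ p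
  have hadd : ∀ x y, Q x → Q y → Q (x + y) := by
    rintro x y ⟨c, rfl⟩ ⟨d, rfl⟩
    refine ⟨fun s => c s + d s, ?_⟩
    rw [← Finset.sum_add_distrib]
    refine Finset.sum_congr rfl fun s _ => ?_
    push_cast
    rw [add_pow_expChar]
    ring
  have hzero : Q 0 := ⟨fun _ => 0, by simp [hp0.ne']⟩
  have hmono : ∀ (t : Fin m → ℕ) (y : M), Q ((∏ i, u i ^ t i) * (y : L) ^ p) := by
    intro t y
    let s0 : Fin m → Fin p := fun i => ⟨t i % p, Nat.mod_lt _ hp0⟩
    refine ⟨fun s => if s = s0 then (∏ i, (⟨u i, huM i⟩ : M) ^ (t i / p)) * y else 0, ?_⟩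
    rw [Finset.sum_eq_single s0]
    · simp only [if_true]
      push_cast
      rw [mul_pow, ← mul_assoc, ← Finset.prod_pow, ← Finset.prod_mul_distrib]
      congr 1
      refine Finset.prod_congr rfl fun i _ => ?_
      rw [← pow_mul, ← pow_add]
      congr 1
      simp only [s0]
      rw [mul_comm, Nat.mod_add_div]
    · intro s _ hs
      simp only [if_neg hs]
      simp [hp0.ne']
    · intro h
      exact absurd (Finset.mem_univ _) h
  have hsum : ∀ {ι : Type} (f : ι → L) (S : Finset ι), (∀ i ∈ S, Q (f i)) → Q (∑ i ∈ S, f i) := by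
    intro ι f S
    refine Finset.induction_on S (fun _ => by simpa using hzero) ?_
    intro a S ha ih h
    rw [Finset.sum_insert ha]
    exact hadd _ _ (h a (Finset.mem_insert_self _ _))
      (ih fun i hi => h i (Finset.mem_insert_of_mem hi))
  have hmul : ∀ (P : MvPolynomial (Fin m) k) (y : M), Q (MvPolynomial.aeval u P * (y : L) ^ p) := by
    intro P y
    rw [MvPolynomial.aeval_def, MvPolynomial.eval₂_eq', Finset.sum_mul]
    refine hsum _ _ fun t _ => ?_
    obtain ⟨r, hr⟩ := IsAlgClosed.exists_pow_nat_eq (MvPolynomial.coeff t P) hp0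
    have h1 := hmono t (algebraMap k M r * y)
    convert h1 using 1
    have : (((algebraMap k M r * y : M)) : L) = algebraMap k L r * (y : L) := rfl
    rw [this, ← hr, map_pow]
    ring
  obtain ⟨r, s, hrs⟩ := (IntermediateField.mem_adjoin_range_iff k u x).1 hx
  have hs' : (MvPolynomial.aeval u s : L) ∈ M := by
    refine IntermediateField.algebra_adjoin_le_adjoin _ _ ?_
    rw [Algebra.adjoin_range_eq_range_aeval]
    exact ⟨s, rfl⟩
  by_cases h0 : (MvPolynomial.aeval u s : L) = 0
  · rw [h0, div_zero] at hrs
    rw [hrs]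
    exact hzero
  · have h1 := hmul (r * s ^ (p - 1)) (⟨_, hs'⟩⁻¹)
    have h2 : MvPolynomial.aeval u (r * s ^ (p - 1)) *
        (((⟨_, hs'⟩ : M)⁻¹ : M) : L) ^ p = x := by
      rw [hrs]
      push_cast
      rw [map_mul, map_pow]
      obtain ⟨q, hq⟩ : ∃ q, p = q + 1 := ⟨p - 1, by omega⟩
      have hq1 : p - 1 = q := by omega
      rw [hq1]
      have : ((MvPolynomial.aeval u s : L))⁻¹ ^ p =
          (MvPolynomial.aeval u s : L)⁻¹ ^ q * (MvPolynomial.aeval u s : L)⁻¹ := by
        rw [hq, pow_succ]
      rw [this, div_eq_mul_inv, inv_pow]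
      field_simp
    rw [h2] at h1
    exact h1

/-- EM7 (separating element).  Proof.  Let `M = k(u)`. `L/M` satisfies: if `x j ∈ L` are linearly
independent over `M`, so are the `x j ^ p`: let `∑ c j x j ^ p = 0`, `c j ∈ M`; since `k` is perfect,
`c j = ∑_s u^s m j s ^ p` with `m j s ∈ M`, so `∑_s u^s (∑_j m j s x j) ^ p = 0` and by `hp` all
`∑_j m j s x j = 0`. By
`exists_isTranscendenceBasis_and_isSeparable_of_linearIndepOn_pow_of_essFiniteType` `L/M` has a
separating transcendence basis; it has one element, as `trdeg (L/k) = m + 1` and `u` is algebraically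
independent (`hgauss`). -/
theorem exists_T {k L : Type v} [NontriviallyNormedField k] [IsAlgClosed k] [NormedField L]
    [IsUltrametricDist L] [NormedAlgebra k L] {p : ℕ} [Fact p.Prime] [CharP k p] {m : ℕ}
    (u : Fin m → L)
    (hgauss : ∀ (P : MvPolynomial (Fin m) k) (s), ‖P.coeff s‖ ≤ ‖MvPolynomial.aeval u P‖)
    (hp : ∀ (c : (Fin m → Fin p) → L) (s), ‖c s‖ ^ p ≤ ‖∑ s, (∏ i, u i ^ (s i : ℕ)) * c s ^ p‖)
    (hfg : (⊤ : IntermediateField k L).FG) (htr : Algebra.trdeg k L = m + 1) :
    ∃ T : L, Algebra.IsSeparable (IntermediateField.adjoin k (Set.range u ∪ {T})) L := by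
  classical
  have hpp : p.Prime := Fact.out
  have : CharP L p := charP_of_injective_algebraMap (algebraMap k L).injective p
  have : ExpChar L p := .prime Fact.out
  set M := IntermediateField.adjoin k (Set.range u) with hM
  have : ExpChar M p := by
    have : CharP M p := charP_of_injective_algebraMap (algebraMap k M).injective p
    exact .prime Fact.out
  have : Algebra.EssFiniteType k L := IntermediateField.fg_top_iff.1 hfg
  have : Algebra.EssFiniteType M L := Algebra.EssFiniteType.of_comp k M L
  have H : ∀ s : Finset L, LinearIndepOn M _root_.id (s : Set L) →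
      LinearIndepOn M (· ^ p) (s : Set L) := by
    intro s hs
    rw [LinearIndepOn, Fintype.linearIndependent_iff] at hs ⊢
    intro g hg
    have hdec : ∀ j, ∃ c : (Fin m → Fin p) → M,
        ((g j : M) : L) = ∑ s, (∏ i, u i ^ (s i : ℕ)) * (c s : L) ^ p := fun j =>
      em7_decomp u _ (g j).2
    choose c hc using hdec
    have h1 : ∑ t, (∏ i, u i ^ (t i : ℕ)) * (∑ j : (s : Set L), (c j t : L) * (j : L)) ^ p = 0 := by
      rw [← hg]
      have : ∀ t, (∏ i, u i ^ (t i : ℕ)) * (∑ j : (s : Set L), (c j t : L) * (j : L)) ^ p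
          = ∑ j : (s : Set L), ((∏ i, u i ^ (t i : ℕ)) * (c j t : L) ^ p) * (j : L) ^ p := by
        intro t
        rw [sum_pow_char, Finset.mul_sum]
        refine Finset.sum_congr rfl fun j _ => ?_
        rw [mul_pow]
        ring
      rw [Finset.sum_congr rfl fun t _ => this t, Finset.sum_comm]
      refine Finset.sum_congr rfl fun j _ => ?_
      rw [← Finset.sum_mul, ← hc j]
      rfl
    have h2 : ∀ t, ∑ j : (s : Set L), (c j t : L) * (j : L) = 0 := by
      intro t
      have := hp (fun t => ∑ j : (s : Set L), (c j t : L) * (j : L)) t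
      rw [h1, norm_zero] at this
      have h3 : ‖∑ j : (s : Set L), (c j t : L) * (j : L)‖ ^ p = 0 :=
        le_antisymm this (by positivity)
      exact norm_eq_zero.1 (pow_eq_zero_iff hpp.ne_zero |>.1 h3)
    have h3 : ∀ t j, c j t = 0 := by
      intro t
      refine hs (fun j => c j t) ?_
      exact h2 t
    intro j
    have := hc j
    simp only [h3] at this
    apply Subtype.ext
    rw [this]
    simp [hpp.ne_zero]
  obtain ⟨s, hs, hsep⟩ :=
    exists_isTranscendenceBasis_and_isSeparable_of_linearIndepOn_pow_of_essFiniteType p hpp H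
  -- `u` is algebraically independent
  have hu : AlgebraicIndependent k u := by
    rw [algebraicIndependent_iff]
    intro P hP
    ext t
    have := hgauss P t
    rw [hP, norm_zero] at this
    simpa using norm_le_zero_iff.1 this
  have huM : ∀ i, u i ∈ M := fun i => IntermediateField.subset_adjoin _ _ ⟨i, rfl⟩
  have hu' : AlgebraicIndependent k (fun i => (⟨u i, huM i⟩ : M)) := by
    refine AlgebraicIndependent.of_comp M.val ?_
    exact hu
  have hsum := hu'.sumElim_comp hs.1
  have hcard := hsum.lift_cardinalMk_le_trdeg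
  rw [htr] at hcard
  have hs1 : s.card ≤ 1 := by
    simp only [Cardinal.mk_sum, Cardinal.mk_fintype, Fintype.card_fin, Fintype.card_coe,
      Cardinal.lift_natCast, Cardinal.lift_add, Cardinal.lift_one] at hcard
    have : ((s.card + m : ℕ) : Cardinal.{v}) ≤ ((m + 1 : ℕ) : Cardinal.{v}) := by
      push_cast
      simpa using hcard
    have := Nat.cast_le.1 this
    omega
  obtain ⟨T, hT⟩ : ∃ T : L, (s : Set L) ⊆ {T} := by
    rcases Finset.card_le_one_iff_subset_singleton.1 hs1 with ⟨T, hT⟩
    exact ⟨T, fun x hx => Finset.mem_singleton.1 (hT hx)⟩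
  refine ⟨T, ?_⟩
  have hle : (IntermediateField.adjoin M (s : Set L)).restrictScalars k ≤
      IntermediateField.adjoin k (Set.range u ∪ {T}) := by
    rw [hM, IntermediateField.adjoin_adjoin_left]
    exact IntermediateField.adjoin.mono _ _ _ (Set.union_subset_union_right _ hT)
  let : Algebra ((IntermediateField.adjoin M (s : Set L)).restrictScalars k)
      (IntermediateField.adjoin k (Set.range u ∪ {T})) :=
    (IntermediateField.inclusion hle).toRingHom.toAlgebra
  have : IsScalarTower ((IntermediateField.adjoin M (s : Set L)).restrictScalars k)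
      (IntermediateField.adjoin k (Set.range u ∪ {T})) L := IsScalarTower.of_algebraMap_eq fun x => rfl
  have : Algebra.IsSeparable ((IntermediateField.adjoin M (s : Set L)).restrictScalars k) L := hsep
  exact Algebra.isSeparable_tower_top_of_isSeparable
    ((IntermediateField.adjoin M (s : Set L)).restrictScalars k) _ _

end MP1a953e
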