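import Pool.Agent.Lib.MP_1a953e_ag.UDefs

/-!
# Module WB1: weighted Gauss bounds
-/

namespace MP1a953e

open MvPolynomial

variable {Ω : Type*} [NormedField Ω]

private theorem mc_iff {k : Subfield Ω} {n : ℕ} {P : MvPolynomial (Fin n) Ω} :
    MC k P ↔ P ∈ (MvPolynomial.map (σ := Fin n) k.subtype).range := by
  constructor
  · intro h
    have h1 : P = MvPolynomial.map k.subtype
        (∑ a ∈ P.support, monomial a (⟨P.coeff a, h a⟩ : k)) := by
      rw [map_sum]
      conv_lhs => rw [P.as_sum]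
      refine Finset.sum_congr rfl fun a _ => ?_
      rw [map_monomial]
      rfl
    rw [h1]
    exact ⟨_, rfl⟩
  · rintro ⟨Q, rfl⟩ a
    rw [coeff_map]
    exact (Q.coeff a).2

/-- WB1a.  `MC k P` is closed under ring operations (`MC k P` iff `P` is in the range of
`MvPolynomial.map k.subtype`). -/
theorem MC.mul {k : Subfield Ω} {n : ℕ} {P Q : MvPolynomial (Fin n) Ω} (hP : MC k P)
    (hQ : MC k Q) : MC k (P * Q) := by
  rw [mc_iff] at *
  exact mul_mem hP hQ

theorem MC.add {k : Subfield Ω} {n : ℕ} {P Q : MvPolynomial (Fin n) Ω} (hP : MC k P)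
    (hQ : MC k Q) : MC k (P + Q) := by
  rw [mc_iff] at *
  exact add_mem hP hQ

theorem MC.C {k : Subfield Ω} {n : ℕ} {c : Ω} (hc : c ∈ k) :
    MC k (MvPolynomial.C c : MvPolynomial (Fin n) Ω) := by
  rw [mc_iff]
  exact ⟨MvPolynomial.C ⟨c, hc⟩, by simp⟩

theorem MC.X {k : Subfield Ω} {n : ℕ} (i : Fin n) :
    MC k (MvPolynomial.X i : MvPolynomial (Fin n) Ω) := by
  rw [mc_iff]
  exact ⟨MvPolynomial.X i, by simp⟩

theorem MC.pow {k : Subfield Ω} {n : ℕ} {P : MvPolynomial (Fin n) Ω} (hP : MC k P) (N : ℕ) :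
    MC k (P ^ N) := by
  rw [mc_iff] at *
  exact pow_mem hP N

theorem MC.sum {k : Subfield Ω} {n : ℕ} {ι : Type*} (S : Finset ι)
    {P : ι → MvPolynomial (Fin n) Ω} (hP : ∀ i ∈ S, MC k (P i)) : MC k (∑ i ∈ S, P i) := by
  rw [mc_iff]
  exact sum_mem fun i hi => mc_iff.1 (hP i hi)

theorem MC.prod {k : Subfield Ω} {n : ℕ} {ι : Type*} (S : Finset ι)
    {P : ι → MvPolynomial (Fin n) Ω} (hP : ∀ i ∈ S, MC k (P i)) : MC k (∏ i ∈ S, P i) := by
  rw [mc_iff]
  exact prod_mem fun i hi => mc_iff.1 (hP i hi)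

theorem MC.eval_mem {k F : Subfield Ω} (hk : k ≤ F) {n : ℕ} {s : Fin n → Ω} (hs : ∀ i, s i ∈ F)
    {P : MvPolynomial (Fin n) Ω} (hP : MC k P) : eval s P ∈ F := by
  rw [eval_eq]
  exact sum_mem fun a _ => mul_mem (hk (hP a)) (prod_mem fun i _ => pow_mem (hs i) _)

/-- WB1b.  The weighted Gauss norm is submultiplicative (coefficient of `P * Q` = sum over the
antidiagonal, ultrametric inequality, `∏ ‖s i‖ ^ (a i + b i)` splits). -/
theorem WB.mul [IsUltrametricDist Ω] {n : ℕ} {s : Fin n → Ω} {P Q : MvPolynomial (Fin n) Ω}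
    {A B : ℝ} (hA : 0 ≤ A) (hP : WB s P A) (hQ : WB s Q B) : WB s (P * Q) (A * B) := by
  classical
  have hB : 0 ≤ B := le_trans (mul_nonneg (norm_nonneg _)
    (Finset.prod_nonneg fun i _ => pow_nonneg (norm_nonneg _) _)) (hQ 0)
  intro a
  have hw : 0 ≤ ∏ i, ‖s i‖ ^ a i := Finset.prod_nonneg fun i _ => pow_nonneg (norm_nonneg _) _
  rw [coeff_mul]
  obtain ⟨x, hx, hxle⟩ := IsUltrametricDist.exists_norm_finsetSum_le (Finset.HasAntidiagonal.antidiagonal a)
    (fun x => P.coeff x.1 * Q.coeff x.2)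
  have hx' : x ∈ Finset.HasAntidiagonal.antidiagonal a := hx ⟨(0, a), by simp⟩
  rw [Finset.HasAntidiagonal.mem_antidiagonal] at hx'
  calc ‖∑ x ∈ Finset.HasAntidiagonal.antidiagonal a, P.coeff x.1 * Q.coeff x.2‖ * ∏ i, ‖s i‖ ^ a i
      ≤ ‖P.coeff x.1 * Q.coeff x.2‖ * ∏ i, ‖s i‖ ^ a i := mul_le_mul_of_nonneg_right hxle hw
    _ = (‖P.coeff x.1‖ * ∏ i, ‖s i‖ ^ x.1 i) * (‖Q.coeff x.2‖ * ∏ i, ‖s i‖ ^ x.2 i) := by
        rw [← hx', norm_mul]
        simp only [Finsupp.add_apply, pow_add, Finset.prod_mul_distrib]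
        ring
    _ ≤ A * B := mul_le_mul (hP _) (hQ _) (mul_nonneg (norm_nonneg _)
        (Finset.prod_nonneg fun i _ => pow_nonneg (norm_nonneg _) _)) hA

theorem WB.add [IsUltrametricDist Ω] {n : ℕ} {s : Fin n → Ω} {P Q : MvPolynomial (Fin n) Ω}
    {A : ℝ} (hP : WB s P A) (hQ : WB s Q A) : WB s (P + Q) A := by
  intro a
  have hw : 0 ≤ ∏ i, ‖s i‖ ^ a i := Finset.prod_nonneg fun i _ => pow_nonneg (norm_nonneg _) _
  rw [coeff_add]
  refine (mul_le_mul_of_nonneg_right (IsUltrametricDist.norm_add_le_max _ _) hw).trans ?_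
  rcases le_total ‖P.coeff a‖ ‖Q.coeff a‖ with h | h
  · rw [max_eq_right h]
    exact hQ a
  · rw [max_eq_left h]
    exact hP a

theorem WB.sum [IsUltrametricDist Ω] {n : ℕ} {s : Fin n → Ω} {ι : Type*} (S : Finset ι)
    {P : ι → MvPolynomial (Fin n) Ω} {A : ℝ} (hA : 0 ≤ A) (hP : ∀ i ∈ S, WB s (P i) A) :
    WB s (∑ i ∈ S, P i) A := by
  classical
  induction S using Finset.induction_on with
  | empty =>
    intro a
    simpa using hA
  | insert i S hi ih =>
    rw [Finset.sum_insert hi]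
    exact (hP i (Finset.mem_insert_self i S)).add
      (ih fun j hj => hP j (Finset.mem_insert_of_mem hj))

private theorem wb_one {n : ℕ} {s : Fin n → Ω} : WB s (1 : MvPolynomial (Fin n) Ω) 1 := by
  classical
  intro a
  rw [coeff_one]
  split_ifs with h
  · subst h
    simp
  · simp

theorem WB.pow_one [IsUltrametricDist Ω] {n : ℕ} {s : Fin n → Ω} {P : MvPolynomial (Fin n) Ω}
    (hP : WB s P 1) (N : ℕ) : WB s (P ^ N) 1 := by
  induction N with
  | zero =>
    rw [pow_zero]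
    exact wb_one
  | succ N ih =>
    rw [pow_succ]
    have := WB.mul zero_le_one ih hP
    rwa [one_mul] at this

theorem WB.prod_one [IsUltrametricDist Ω] {n : ℕ} {s : Fin n → Ω} {ι : Type*} (S : Finset ι)
    {P : ι → MvPolynomial (Fin n) Ω} (hP : ∀ i ∈ S, WB s (P i) 1) :
    WB s (∏ i ∈ S, P i) 1 := by
  classical
  induction S using Finset.induction_on with
  | empty =>
    rw [Finset.prod_empty]
    exact wb_one
  | insert i S hi ih =>
    rw [Finset.prod_insert hi]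
    have := WB.mul zero_le_one (hP i (Finset.mem_insert_self i S))
      (ih fun j hj => hP j (Finset.mem_insert_of_mem hj))
    rwa [one_mul] at this

/-- WB1c.  Evaluation. -/
theorem WB.eval_le [IsUltrametricDist Ω] {n : ℕ} {s : Fin n → Ω} {P : MvPolynomial (Fin n) Ω}
    {A : ℝ} (hA : 0 ≤ A) (hP : WB s P A) : ‖eval s P‖ ≤ A := by
  rw [eval_eq']
  refine IsUltrametricDist.norm_sum_le_of_forall_le_of_nonneg hA fun a _ => ?_
  rw [norm_mul, norm_prod]
  simp only [norm_pow]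
  exact hP a

end MP1a953e
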