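import Pool.Agent.Lib.MP_1a953e_ag.RDefs
import Pool.Agent.Lib.MP_1a953e_ag.WB1

/-!
# Module Tr6: the field F is topologically of finite type
-/

namespace MP1a953e

open Polynomial

variable {Ω : Type*} [NormedField Ω]

private theorem tr6_weight_le {n : ℕ} {s : Fin n → Ω} (hs : ∀ i, ‖s i‖ ≤ 1) (b : Fin n →₀ ℕ) :
    ∏ i, ‖s i‖ ^ b i ≤ 1 :=
  Finset.prod_le_one (fun _ _ => pow_nonneg (norm_nonneg _) _)
    (fun i _ => pow_le_one₀ (norm_nonneg _) (hs i))

private theorem tr6_wb_of_coeff {n : ℕ} {s : Fin n → Ω} (hs : ∀ i, ‖s i‖ ≤ 1)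
    {P : MvPolynomial (Fin n) Ω} {A : ℝ} (hP : ∀ b, ‖P.coeff b‖ ≤ A) : WB s P A := by
  intro b
  calc ‖P.coeff b‖ * ∏ i, ‖s i‖ ^ b i ≤ ‖P.coeff b‖ * 1 :=
        mul_le_mul_of_nonneg_left (tr6_weight_le hs b) (norm_nonneg _)
    _ ≤ A := by rw [mul_one]; exact hP b

private theorem tr6_rename_coeff {m n : ℕ} {e : Fin m → Fin n} (he : Function.Injective e)
    (P : MvPolynomial (Fin m) Ω) (b : Fin n →₀ ℕ) :
    (MvPolynomial.rename e P).coeff b = 0 ∨
      ∃ u, (MvPolynomial.rename e P).coeff b = P.coeff u := by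
  by_cases h : ∃ u : Fin m →₀ ℕ, u.mapDomain e = b
  · obtain ⟨u, rfl⟩ := h
    exact Or.inr ⟨u, MvPolynomial.coeff_rename_mapDomain e he P u⟩
  · left
    refine MvPolynomial.coeff_rename_eq_zero e P b fun u hu => ?_
    exact absurd ⟨u, hu⟩ h

private theorem tr6_frac {k' : Subfield Ω} {m : ℕ} {U : Fin m → Ω} {x : Ω} (hx : x ∈ kU k' U) :
    ∃ P Q : MvPolynomial (Fin m) Ω, MC k' P ∧ MC k' Q ∧ MvPolynomial.eval U Q ≠ 0 ∧
      x = MvPolynomial.eval U P / MvPolynomial.eval U Q := by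
  have key : ∀ y ∈ Subring.closure ((k' : Set Ω) ∪ Set.range U),
      ∃ P : MvPolynomial (Fin m) Ω, MC k' P ∧ MvPolynomial.eval U P = y := by
    intro y hy
    induction hy using Subring.closure_induction with
    | mem y hy =>
      rcases hy with hy | ⟨i, rfl⟩
      · exact ⟨MvPolynomial.C y, MC.C hy, MvPolynomial.eval_C y⟩
      · exact ⟨MvPolynomial.X i, MC.X i, MvPolynomial.eval_X i⟩
    | zero => exact ⟨MvPolynomial.C 0, MC.C k'.zero_mem, MvPolynomial.eval_C 0⟩
    | one => exact ⟨MvPolynomial.C 1, MC.C k'.one_mem, MvPolynomial.eval_C 1⟩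
    | add y z _ _ ihy ihz =>
      obtain ⟨P, hP, rfl⟩ := ihy
      obtain ⟨Q, hQ, rfl⟩ := ihz
      exact ⟨P + Q, hP.add hQ, map_add _ _ _⟩
    | neg y _ ihy =>
      obtain ⟨P, hP, rfl⟩ := ihy
      refine ⟨MvPolynomial.C (-1) * P, (MC.C (k'.neg_mem k'.one_mem)).mul hP, ?_⟩
      rw [map_mul, MvPolynomial.eval_C]
      ring
    | mul y z _ _ ihy ihz =>
      obtain ⟨P, hP, rfl⟩ := ihy
      obtain ⟨Q, hQ, rfl⟩ := ihz
      exact ⟨P * Q, hP.mul hQ, map_mul _ _ _⟩
  have hle : kU k' U ≤ Subfield.closure ((k' : Set Ω) ∪ Set.range U) := by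
    unfold kU
    refine sup_le ?_ ?_
    · intro y hy
      exact Subfield.subset_closure (Or.inl hy)
    · rw [Subfield.closure_le]
      exact fun y hy => Subfield.subset_closure (Or.inr hy)
  obtain ⟨y, hy, z, hz, hyz⟩ := Subfield.mem_closure_iff.1 (hle hx)
  by_cases h0 : z = 0
  · refine ⟨MvPolynomial.C 0, MvPolynomial.C 1, MC.C k'.zero_mem, MC.C k'.one_mem, ?_, ?_⟩
    · rw [MvPolynomial.eval_C]
      exact one_ne_zero
    · rw [MvPolynomial.eval_C, zero_div, ← hyz, h0, div_zero]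
  · obtain ⟨P, hP, rfl⟩ := key y hy
    obtain ⟨Q, hQ, rfl⟩ := key z hz
    exact ⟨P, Q, hP, hQ, h0, hyz.symm⟩

/-- TR6a.  Elements of `k'(U)` are fractions `P(U) / Q(U)` with `‖Q(U)‖ = 1`, and the coefficients of `P` have
norm `≤ ‖x‖`, those of `Q` norm `≤ 1` (divide by a coefficient of `Q` of maximal norm, use `gauss`). -/
theorem RD.exists_frac [IsUltrametricDist Ω] {k' : Subfield Ω} {m : ℕ} {U : Fin m → Ω} {d : ℕ}
    {a : Ω} {f : Polynomial Ω} (h : RD k' U d a f) {x : Ω} (hx : x ∈ kU k' U) :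
    ∃ P Q : MvPolynomial (Fin m) Ω, MC k' P ∧ MC k' Q ∧ (∀ s, ‖P.coeff s‖ ≤ ‖x‖) ∧
      (∀ s, ‖Q.coeff s‖ ≤ 1) ∧ ‖MvPolynomial.eval U Q‖ = 1 ∧
      x = MvPolynomial.eval U P / MvPolynomial.eval U Q := by
  obtain ⟨P, Q, hP, hQ, hQ0, hxe⟩ := tr6_frac hx
  have hQne : Q ≠ 0 := by
    rintro rfl
    exact hQ0 (map_zero _)
  have hsupp : Q.support.Nonempty := by
    rw [Finset.nonempty_iff_ne_empty]
    exact fun h1 => hQne (MvPolynomial.support_eq_empty.1 h1)
  obtain ⟨t, ht, htmax⟩ := Finset.exists_max_image Q.support (fun s => ‖Q.coeff s‖) hsupp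
  have htne : Q.coeff t ≠ 0 := MvPolynomial.mem_support_iff.1 ht
  have htpos : 0 < ‖Q.coeff t‖ := norm_pos_iff.2 htne
  have hall : ∀ s, ‖Q.coeff s‖ ≤ ‖Q.coeff t‖ := by
    intro s
    by_cases hs : s ∈ Q.support
    · exact htmax s hs
    · rw [MvPolynomial.notMem_support_iff.1 hs, norm_zero]
      exact htpos.le
  have hnorm : ‖MvPolynomial.eval U Q‖ = ‖Q.coeff t‖ :=
    le_antisymm (WB.eval_le htpos.le (tr6_wb_of_coeff h.norm_U hall)) (h.gauss Q hQ t)
  set c : Ω := (Q.coeff t)⁻¹ with hc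
  have hck : c ∈ k' := k'.inv_mem (hQ t)
  have hcn : ‖c‖ * ‖Q.coeff t‖ = 1 := by
    rw [hc, norm_inv, inv_mul_cancel₀ htpos.ne']
  have hcne : c ≠ 0 := inv_ne_zero htne
  have hQ'1 : ‖MvPolynomial.eval U (MvPolynomial.C c * Q)‖ = 1 := by
    rw [map_mul, MvPolynomial.eval_C, norm_mul, hnorm, hcn]
  have hxe' : x = MvPolynomial.eval U (MvPolynomial.C c * P) /
      MvPolynomial.eval U (MvPolynomial.C c * Q) := by
    rw [map_mul, map_mul, MvPolynomial.eval_C, mul_div_mul_left _ _ hcne]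
    exact hxe
  refine ⟨MvPolynomial.C c * P, MvPolynomial.C c * Q, (MC.C hck).mul hP, (MC.C hck).mul hQ,
    ?_, ?_, hQ'1, hxe'⟩
  · intro s
    refine (h.gauss _ ((MC.C hck).mul hP) s).trans (le_of_eq ?_)
    have h1 := congrArg norm hxe'
    rw [norm_div, hQ'1, div_one] at h1
    exact h1.symm
  · intro s
    rw [MvPolynomial.coeff_C_mul, norm_mul]
    calc ‖c‖ * ‖Q.coeff s‖ ≤ ‖c‖ * ‖Q.coeff t‖ :=
          mul_le_mul_of_nonneg_left (hall s) (norm_nonneg _)
      _ = 1 := hcn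

/-- TR6b.  `adj (kU k' U) a` consists of the combinations of `1, …, a ^ (d-1)` (it is generated by `a`, a
root of the monic polynomial `f` of degree `d`). -/
theorem RD.exists_comb [IsUltrametricDist Ω] {k' : Subfield Ω} {m : ℕ} {U : Fin m → Ω} {d : ℕ}
    {a : Ω} {f : Polynomial Ω} (h : RD k' U d a f) {x : Ω} (hx : x ∈ adj (kU k' U) a) :
    ∃ c : Fin d → Ω, (∀ i, c i ∈ kU k' U) ∧ x = ∑ i, c i * a ^ (i : ℕ) := by
  set M : Subfield Ω := kU k' U with hM
  obtain ⟨pM, hpM⟩ : ∃ pM : Polynomial M, pM.map M.subtype = f := by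
    have h1 : f ∈ lifts M.subtype := by
      rw [lifts_iff_coeff_lifts]
      intro i
      exact ⟨⟨f.coeff i, h.coeffs i⟩, rfl⟩
    exact (mem_lifts f).1 h1
  have hpMm : pM.Monic := (monic_map_iff).1 (by rw [hpM]; exact h.monic)
  have hpMd : pM.natDegree = d := by rw [← h.deg, ← hpM, natDegree_map]
  have hpM0 : aeval a pM = 0 := by
    rw [← eval_map_algebraMap]
    have h1 : pM.map (algebraMap M Ω) = f := hpM
    rw [h1]
    exact h.root
  have hintM : IsIntegral M a := ⟨pM, hpMm, hpM0⟩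
  have hxE : x ∈ IntermediateField.adjoin M {a} := by
    have hle : adj M a ≤ (IntermediateField.adjoin M {a}).toSubfield := by
      refine adj_le ?_ ?_
      · intro x hx
        exact (IntermediateField.adjoin M {a}).algebraMap_mem ⟨x, hx⟩
      · exact IntermediateField.mem_adjoin_simple_self M a
    exact hle hx
  have hxA : x ∈ Algebra.adjoin M {a} := by
    rw [← IntermediateField.adjoin_simple_toSubalgebra_of_isAlgebraic hintM.isAlgebraic]
    exact hxE
  rw [Algebra.adjoin_singleton_eq_range_aeval] at hxA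
  obtain ⟨q, hq⟩ := hxA
  have hr : x = aeval a (q %ₘ pM) := by
    have h1 : aeval a (q %ₘ pM + pM * (q /ₘ pM)) = x := by
      rw [modByMonic_add_div]
      exact hq
    rw [map_add, map_mul, hpM0, zero_mul, add_zero] at h1
    exact h1.symm
  refine ⟨fun i => (((q %ₘ pM).coeff (i : ℕ) : M) : Ω), fun i => ((q %ₘ pM).coeff (i : ℕ)).2, ?_⟩
  have hdeg : (q %ₘ pM).natDegree < d := by
    by_cases h0 : q %ₘ pM = 0
    · rw [h0, natDegree_zero]
      exact h.dpos
    · have h1 := degree_modByMonic_lt q hpMm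
      rw [degree_eq_natDegree hpMm.ne_zero, hpMd] at h1
      exact (natDegree_lt_iff_degree_lt h0).2 h1
  rw [hr, aeval_eq_sum_range' hdeg]
  rw [Finset.sum_range]
  refine Finset.sum_congr rfl fun i _ => ?_
  rw [Algebra.smul_def]
  rfl

/-- TR6.  Proof.  `F` = closure of `adj (kU k' U) a` in `Ω` (contained in the complete field `K`, so complete). `approx`: let `x ∈ F`, `x ≠ 0`,
WLOG `δ < 1`; choose `x' ∈ adj (kU k' U) a` with `‖x - x'‖ ≤ δ * ‖x‖`, so `‖x'‖ = ‖x‖`;
`x' = ∑ c i * a ^ i`, `‖c i‖ ≤ ‖x‖` (`orth`), `c i = P i (U) / Q i (U)` (TR6a); common denominator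
`Q = ∏ Q i`, and in the variables `Fin.append U (fun _ => a)`: `P = ∑ P' i * X_last ^ i`; the weights
`‖U i‖`, `‖a‖` are `≤ 1`, so the bounds on coefficients give `WB`. -/
theorem RD.exists_tf [IsUltrametricDist Ω] {k' K : Subfield Ω} {m : ℕ} {U : Fin m → Ω} {d : ℕ}
    {a : Ω} {f : Polynomial Ω} (h : RD k' U d a f) (hk : IsAlgClosed k')
    (hK : IsComplete (K : Set Ω)) (hkK : k' ≤ K) (hU : ∀ i, U i ∈ K) (ha : a ∈ K) :
    ∃ F : Subfield Ω, F ≤ K ∧ DenseIn (adj (kU k' U) a) F ∧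
      TF k' F (Fin.append U (fun _ : Fin 1 => a)) := by
  classical
  set A : Subfield Ω := adj (kU k' U) a with hA
  have hkA : k' ≤ A := (le_sup_left : k' ≤ kU k' U).trans (le_adj _ _)
  have hUA : ∀ i, U i ∈ A := fun i =>
    le_adj _ _ ((le_sup_right : Subfield.closure (Set.range U) ≤ kU k' U)
      (Subfield.subset_closure ⟨i, rfl⟩))
  have haA : a ∈ A := mem_adj_self _ _
  have hAK : A ≤ K := by
    refine adj_le (sup_le hkK ?_) ha
    rw [Subfield.closure_le]
    rintro _ ⟨i, rfl⟩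
    exact hU i
  set F : Subfield Ω := A.topologicalClosure with hF
  have hAF : A ≤ F := A.le_topologicalClosure
  have hFcl : IsClosed (F : Set Ω) := A.isClosed_topologicalClosure
  have hFK : F ≤ K := A.topologicalClosure_minimal hAK hK.isClosed
  have hFcomp : IsComplete (F : Set Ω) := by
    intro l hl hle
    obtain ⟨z, -, hz⟩ := hK l hl (hle.trans (Filter.principal_mono.2 hFK))
    refine ⟨z, ?_, hz⟩
    have := hl.1
    have h1 : ClusterPt z (Filter.principal (F : Set Ω)) :=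
      (ClusterPt.of_le_nhds hz).mono hle
    rw [← mem_closure_iff_clusterPt, hFcl.closure_eq] at h1
    exact h1
  have hdense : ∀ x ∈ F, ∀ ε : ℝ, 0 < ε → ∃ y ∈ A, ‖x - y‖ < ε := by
    intro x hx ε hε
    have hx' : x ∈ closure (A : Set Ω) := hx
    obtain ⟨y, hy, hxy⟩ := Metric.mem_closure_iff.1 hx' ε hε
    exact ⟨y, hy, by rwa [dist_eq_norm] at hxy⟩
  refine ⟨F, hFK, ⟨hAF, hdense⟩, ?_⟩
  set s : Fin (m + 1) → Ω := Fin.append U (fun _ : Fin 1 => a) with hs
  have hsU : ∀ i, s (Fin.castAdd 1 i) = U i := fun i => by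
    rw [hs, Fin.append_left]
  have hsa : s (Fin.natAdd m 0) = a := by
    rw [hs, Fin.append_right]
  have hs1 : ∀ i, ‖s i‖ ≤ 1 := by
    intro i
    refine Fin.addCases (fun j => ?_) (fun j => ?_) i
    · rw [hsU]; exact h.norm_U j
    · rw [hs, Fin.append_right]; exact h.norm_a
  have hinj : Function.Injective (Fin.castAdd 1 : Fin m → Fin (m + 1)) :=
    Fin.castAdd_injective m 1
  -- renamed polynomials
  have hren : ∀ P : MvPolynomial (Fin m) Ω,
      MvPolynomial.eval s (MvPolynomial.rename (Fin.castAdd 1) P) = MvPolynomial.eval U P := by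
    intro P
    rw [MvPolynomial.eval_rename]
    congr 2
    funext i
    exact hsU i
  have hMCr : ∀ P : MvPolynomial (Fin m) Ω, MC k' P →
      MC k' (MvPolynomial.rename (Fin.castAdd 1) P) := by
    intro P hP b
    rcases tr6_rename_coeff hinj P b with h1 | ⟨u, h1⟩
    · rw [h1]; exact k'.zero_mem
    · rw [h1]; exact hP u
  have hWBr : ∀ (P : MvPolynomial (Fin m) Ω) (R : ℝ), 0 ≤ R → (∀ b, ‖P.coeff b‖ ≤ R) →
      WB s (MvPolynomial.rename (Fin.castAdd 1) P) R := by
    intro P R hR hP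
    refine tr6_wb_of_coeff hs1 fun b => ?_
    rcases tr6_rename_coeff hinj P b with h1 | ⟨u, h1⟩
    · rw [h1, norm_zero]; exact hR
    · rw [h1]; exact hP u
  have hWBX : WB s (MvPolynomial.X (Fin.natAdd m 0) : MvPolynomial (Fin (m + 1)) Ω) 1 := by
    refine tr6_wb_of_coeff hs1 fun b => ?_
    rw [MvPolynomial.coeff_X]
    split_ifs
    · rw [norm_one]
    · rw [norm_zero]; exact zero_le_one
  refine ⟨hk, hkA.trans hAF, ?_, hFcomp, ?_⟩
  · intro i
    refine Fin.addCases (fun j => ?_) (fun j => ?_) i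
    · rw [hsU j]
      exact hAF (hUA j)
    · rw [hs, Fin.append_right]
      exact hAF haA
  · intro x hx δ hδ
    by_cases hx0 : x = 0
    · refine ⟨MvPolynomial.C 0, MvPolynomial.C 1, MC.C k'.zero_mem, MC.C k'.one_mem, ?_, ?_, ?_, ?_⟩
      · refine tr6_wb_of_coeff hs1 fun b => ?_
        rw [map_zero, MvPolynomial.coeff_zero, norm_zero]
        exact norm_nonneg _
      · refine tr6_wb_of_coeff hs1 fun b => ?_
        rw [MvPolynomial.coeff_C]
        split_ifs
        · rw [norm_one]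
        · rw [norm_zero]; exact zero_le_one
      · rw [MvPolynomial.eval_C, norm_one]
      · rw [MvPolynomial.eval_C, hx0, zero_div, sub_zero, norm_zero, mul_zero]
    · have hxpos : 0 < ‖x‖ := norm_pos_iff.2 hx0
      have hε : 0 < min δ 1 * ‖x‖ := mul_pos (lt_min hδ one_pos) hxpos
      obtain ⟨y, hy, hxy⟩ := hdense x hx _ hε
      have hxy1 : ‖x - y‖ < ‖x‖ := by
        refine hxy.trans_le ?_
        calc min δ 1 * ‖x‖ ≤ 1 * ‖x‖ :=
              mul_le_mul_of_nonneg_right (min_le_right _ _) hxpos.le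
          _ = ‖x‖ := one_mul _
      have hyx : ‖y‖ ≤ ‖x‖ := by
        have e : y = x + -(x - y) := by ring
        rw [e]
        refine (IsUltrametricDist.norm_add_le_max _ _).trans (max_le le_rfl ?_)
        rw [norm_neg]
        exact hxy1.le
      obtain ⟨c, hc, hyc⟩ := h.exists_comb hy
      have hcn : ∀ i, ‖c i‖ ≤ ‖x‖ := by
        intro i
        refine (h.orth c hc i).trans ?_
        rw [← hyc]
        exact hyx
      choose P Q hPk hQk hPn hQn hQe hcPQ using fun i => h.exists_frac (hc i)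
      set r := fun p : MvPolynomial (Fin m) Ω =>
        (MvPolynomial.rename (Fin.castAdd 1) p : MvPolynomial (Fin (m + 1)) Ω) with hr
      set Y : MvPolynomial (Fin (m + 1)) Ω := MvPolynomial.X (Fin.natAdd m 0) with hY
      refine ⟨∑ i : Fin d, (r (P i) * ∏ j ∈ Finset.univ.erase i, r (Q j)) * Y ^ (i : ℕ),
        ∏ j : Fin d, r (Q j), ?_, ?_, ?_, ?_, ?_, ?_⟩
      · exact MC.sum _ fun i _ => ((hMCr _ (hPk i)).mul
          (MC.prod _ fun j _ => hMCr _ (hQk j))).mul ((MC.X _).pow _)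
      · exact MC.prod _ fun j _ => hMCr _ (hQk j)
      · refine WB.sum _ (norm_nonneg _) fun i _ => ?_
        have h1 : WB s (r (P i)) ‖x‖ :=
          hWBr _ _ (norm_nonneg _) fun b => (hPn i b).trans (hcn i)
        have h2 : WB s (∏ j ∈ Finset.univ.erase i, r (Q j)) 1 :=
          WB.prod_one _ fun j _ => hWBr _ _ zero_le_one (hQn j)
        have h3 : WB s (Y ^ (i : ℕ)) 1 := WB.pow_one hWBX _
        have h4 := WB.mul (norm_nonneg x) h1 h2
        rw [mul_one] at h4
        have h5 := WB.mul (norm_nonneg x) h4 h3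
        rwa [mul_one] at h5
      · exact WB.prod_one _ fun j _ => hWBr _ _ zero_le_one (hQn j)
      · rw [map_prod, norm_prod]
        refine Finset.prod_eq_one fun j _ => ?_
        rw [hr]
        dsimp only
        rw [hren]
        exact hQe j
      · have hQne : ∀ j, MvPolynomial.eval U (Q j) ≠ 0 := by
          intro j h0
          have h1 := hQe j
          rw [h0, norm_zero] at h1
          exact zero_ne_one h1
        have hev : MvPolynomial.eval s (∑ i : Fin d,
            (r (P i) * ∏ j ∈ Finset.univ.erase i, r (Q j)) * Y ^ (i : ℕ)) =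
            y * ∏ j : Fin d, MvPolynomial.eval U (Q j) := by
          rw [map_sum, hyc, Finset.sum_mul]
          refine Finset.sum_congr rfl fun i _ => ?_
          rw [map_mul, map_mul, map_prod, map_pow, hY, MvPolynomial.eval_X, hsa, hr]
          dsimp only
          rw [hren]
          have h1 : ∏ j ∈ Finset.univ.erase i, MvPolynomial.eval s
              (MvPolynomial.rename (Fin.castAdd 1) (Q j)) =
              ∏ j ∈ Finset.univ.erase i, MvPolynomial.eval U (Q j) :=
            Finset.prod_congr rfl fun j _ => hren _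
          rw [h1, ← Finset.mul_prod_erase Finset.univ (fun j => MvPolynomial.eval U (Q j))
            (Finset.mem_univ i), hcPQ i]
          have h2 := hQne i
          field_simp
        have hg : MvPolynomial.eval s (∏ j : Fin d, r (Q j)) =
            ∏ j : Fin d, MvPolynomial.eval U (Q j) := by
          rw [map_prod]
          exact Finset.prod_congr rfl fun j _ => hren _
        rw [hev, hg, mul_div_cancel_right₀ _ (Finset.prod_ne_zero_iff.2 fun j _ => hQne j)]
        refine hxy.le.trans ?_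
        exact mul_le_mul_of_nonneg_right (min_le_left _ _) hxpos.le

end MP1a953e
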