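import Pool.Agent.Lib.MP_1a953e_ag.Defs

/-!
# Module Lin1: compositum of an immediate extension and a finite orthogonal extension
-/

namespace MP1a953e

open Polynomial

variable {Ω : Type*} [NormedField Ω]

/-- the algebra of `K`-linear combinations of an orthogonal basis -/
private def combAlg {F K F' : Subfield Ω} {d : ℕ} {θ : Fin (d + 1) → Ω} (hFK : F ≤ K)
    (h : OrthBasis F F' θ) : Subalgebra K Ω where
  carrier := {x | ∃ c : Fin (d + 1) → Ω, (∀ i, c i ∈ K) ∧ x = ∑ i, c i * θ i}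
  add_mem' := by
    rintro x y ⟨c, hc, rfl⟩ ⟨e, he, rfl⟩
    refine ⟨fun i => c i + e i, fun i => K.add_mem (hc i) (he i), ?_⟩
    rw [← Finset.sum_add_distrib]
    exact Finset.sum_congr rfl fun i _ => (add_mul _ _ _).symm
  mul_mem' := by
    rintro x y ⟨c, hc, rfl⟩ ⟨e, he, rfl⟩
    have h1 : ∀ i j : Fin (d + 1), ∃ g : Fin (d + 1) → Ω, (∀ l, g l ∈ F) ∧
        θ i * θ j = ∑ l, g l * θ l := fun i j => h.span _ (F'.mul_mem (h.mem i) (h.mem j))
    choose g hg hg2 using h1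
    refine ⟨fun l => ∑ i, ∑ j, c i * e j * g i j l, fun l => K.sum_mem fun i _ =>
      K.sum_mem fun j _ => K.mul_mem (K.mul_mem (hc i) (he j)) (hFK (hg i j l)), ?_⟩
    rw [Finset.sum_mul_sum]
    have h2 : ∀ i j : Fin (d + 1), c i * θ i * (e j * θ j) =
        ∑ l, c i * e j * g i j l * θ l := by
      intro i j
      have h3 : c i * θ i * (e j * θ j) = c i * e j * (θ i * θ j) := by ring
      rw [h3, hg2 i j, Finset.mul_sum]
      exact Finset.sum_congr rfl fun l _ => by ring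
    simp_rw [h2, Finset.sum_mul]
    have h4 : ∀ i : Fin (d + 1), (∑ j, ∑ l, c i * e j * g i j l * θ l) =
        ∑ l, ∑ j, c i * e j * g i j l * θ l := fun i => Finset.sum_comm
    simp_rw [h4]
    exact Finset.sum_comm
  algebraMap_mem' := by
    intro r
    refine ⟨fun i => if i = 0 then (r : Ω) else 0, fun i => ?_, ?_⟩
    · show (if i = 0 then (r : Ω) else 0) ∈ K
      split_ifs
      · exact r.2
      · exact K.zero_mem
    · show algebraMap K Ω r = ∑ i, (if i = 0 then (r : Ω) else 0) * θ i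
      rw [Finset.sum_eq_single (0 : Fin (d + 1))]
      · rw [if_pos rfl, h.zero, mul_one]
        rfl
      · intro i _ hi
        rw [if_neg hi, zero_mul]
      · intro hh
        exact absurd (Finset.mem_univ _) hh

private theorem mem_combAlg {F K F' : Subfield Ω} {d : ℕ} {θ : Fin (d + 1) → Ω} (hFK : F ≤ K)
    (h : OrthBasis F F' θ) (x : Ω) : x ∈ combAlg hFK h ↔
      ∃ c : Fin (d + 1) → Ω, (∀ i, c i ∈ K) ∧ x = ∑ i, c i * θ i := Iff.rfl

private theorem combAlg_integral {F K F' : Subfield Ω} {d : ℕ} {θ : Fin (d + 1) → Ω}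
    (hFK : F ≤ K) (h : OrthBasis F F' θ) (x : Ω) (hx : x ∈ combAlg hFK h) :
    IsIntegral K x := by
  have h1 : Subalgebra.toSubmodule (combAlg hFK h) = Submodule.span K (Set.range θ) := by
    apply le_antisymm
    · rintro y ⟨c, hc, rfl⟩
      refine Submodule.sum_mem _ fun i _ => ?_
      have h2 : c i * θ i = (⟨c i, hc i⟩ : K) • θ i := rfl
      rw [h2]
      exact Submodule.smul_mem _ _ (Submodule.subset_span ⟨i, rfl⟩)
    · rw [Submodule.span_le]
      rintro _ ⟨i, rfl⟩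
      refine ⟨fun j => if j = i then 1 else 0, fun j => ?_, ?_⟩
      · show (if j = i then (1 : Ω) else 0) ∈ K
        split_ifs
        · exact K.one_mem
        · exact K.zero_mem
      · show θ i = ∑ j, (if j = i then (1 : Ω) else 0) * θ j
        rw [Finset.sum_eq_single i]
        · rw [if_pos rfl, one_mul]
        · intro j _ hj
          rw [if_neg hj, zero_mul]
        · intro hh
          exact absurd (Finset.mem_univ _) hh
  refine IsIntegral.of_mem_of_fg (combAlg hFK h) ?_ x hx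
  rw [h1]
  exact Submodule.fg_span (Set.finite_range θ)

/-- LIN1.  The compositum `K ⊔ F'` consists of the `K`-linear combinations of `θ`.
Proof: the set `M` of these combinations contains `K` (as `θ 0 = 1`) and `F'` (by `span`, as `F ≤ K`); it is
a ring because `θ i * θ j ∈ F'` is a combination with coefficients in `F ≤ K`; it is a finite
dimensional `K`-algebra without zero divisors, hence a field (an injective linear endomorphism of a
finite dimensional space is surjective), so `K ⊔ F' ≤ M`; the other inclusion is clear. -/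
theorem mem_sup_iff {F K F' : Subfield Ω} {d : ℕ} {θ : Fin (d + 1) → Ω} (hFK : F ≤ K)
    (h : OrthBasis F F' θ) (x : Ω) :
    x ∈ K ⊔ F' ↔ ∃ c : Fin (d + 1) → Ω, (∀ i, c i ∈ K) ∧ x = ∑ i, c i * θ i := by
  constructor
  · intro hx
    let N : Subfield Ω :=
      { (combAlg hFK h).toSubring with
        inv_mem' := fun y hy =>
          Subalgebra.inv_mem_of_algebraic (combAlg hFK h) (x := ⟨y, hy⟩)
            (combAlg_integral hFK h y hy).isAlgebraic }
    have h1 : K ⊔ F' ≤ N := by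
      refine sup_le ?_ ?_
      · intro y hy
        exact (combAlg hFK h).algebraMap_mem ⟨y, hy⟩
      · intro y hy
        obtain ⟨c, hc, rfl⟩ := h.span y hy
        exact ⟨c, fun i => hFK (hc i), rfl⟩
    exact h1 hx
  · rintro ⟨c, hc, rfl⟩
    exact Subfield.sum_mem _ fun i _ => Subfield.mul_mem _
      ((le_sup_left : K ≤ K ⊔ F') (hc i)) ((le_sup_right : F' ≤ K ⊔ F') (h.mem i))

/-- simultaneous approximation of the dominant terms -/
private theorem exists_approx [IsUltrametricDist Ω] {F K F' : Subfield Ω} {d : ℕ}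
    {θ : Fin (d + 1) → Ω} (hI : Imm F K) (h : OrthBasis F F' θ) (c : Fin (d + 1) → Ω)
    (hc : ∀ i, c i ∈ K) (M : ℝ) (hM : 0 < M) (hle : ∀ i, ‖c i * θ i‖ ≤ M) :
    ∃ f : Fin (d + 1) → Ω, (∀ i, f i ∈ F) ∧ (∀ i, ‖c i * θ i‖ = M → ‖f i * θ i‖ = M) ∧
      ‖∑ i, c i * θ i - ∑ i, f i * θ i‖ < M := by
  have h1 : ∀ i, ∃ f ∈ F, (‖c i * θ i‖ = M → ‖f * θ i‖ = M) ∧ ‖(c i - f) * θ i‖ < M := by
    intro i
    by_cases hi : ‖c i * θ i‖ = M
    · have hc0 : c i ≠ 0 := by
        rintro h0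
        rw [h0, zero_mul, norm_zero] at hi
        exact hM.ne hi
      obtain ⟨f, hf, hlt⟩ := hI.2 (c i) (hc i) hc0
      have h2 : ‖f‖ = ‖c i‖ := by
        have h3 : ‖c i - f‖ < ‖c i‖ := hlt
        have h4 : ‖f - c i‖ < ‖c i‖ := by rwa [norm_sub_rev]
        have h5 := IsUltrametricDist.norm_add_eq_max_of_norm_ne_norm (x := f - c i) (y := c i)
          h4.ne
        rw [sub_add_cancel, max_eq_right h4.le] at h5
        exact h5
      refine ⟨f, hf, fun _ => ?_, ?_⟩
      · rw [norm_mul, h2, ← norm_mul, hi]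
      · rw [norm_mul]
        calc ‖c i - f‖ * ‖θ i‖ < ‖c i‖ * ‖θ i‖ :=
              mul_lt_mul_of_pos_right hlt (norm_pos_iff.2 (h.ne i))
          _ = M := by rw [← norm_mul, hi]
    · refine ⟨0, F.zero_mem, fun h2 => absurd h2 hi, ?_⟩
      rw [sub_zero]
      exact lt_of_le_of_ne (hle i) hi
  choose f hf h2 h3 using h1
  refine ⟨f, hf, h2, ?_⟩
  rw [← Finset.sum_sub_distrib]
  have h4 : ∀ i, c i * θ i - f i * θ i = (c i - f i) * θ i := fun i => (sub_mul _ _ _).symm
  simp_rw [h4]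
  obtain ⟨j, -, hj⟩ := IsUltrametricDist.exists_norm_finsetSum_le_of_nonempty
    (t := (Finset.univ : Finset (Fin (d + 1)))) Finset.univ_nonempty
    (fun i => (c i - f i) * θ i)
  exact lt_of_le_of_lt hj (h3 j)

private theorem norm_sum_eq [IsUltrametricDist Ω] {F K F' : Subfield Ω} {d : ℕ}
    {θ : Fin (d + 1) → Ω} (hI : Imm F K) (h : OrthBasis F F' θ) (c : Fin (d + 1) → Ω)
    (hc : ∀ i, c i ∈ K) (i : Fin (d + 1)) : ‖c i * θ i‖ ≤ ‖∑ j, c j * θ j‖ := by
  obtain ⟨m, -, hm⟩ := Finset.exists_max_image (Finset.univ : Finset (Fin (d + 1)))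
    (fun j => ‖c j * θ j‖) Finset.univ_nonempty
  have hle : ∀ j, ‖c j * θ j‖ ≤ ‖c m * θ m‖ := fun j => hm j (Finset.mem_univ _)
  refine (hle i).trans ?_
  rcases (norm_nonneg (c m * θ m)).eq_or_lt with h0 | h0
  · rw [← h0]
    exact norm_nonneg _
  obtain ⟨f, hf, h2, h3⟩ := exists_approx hI h c hc _ h0 hle
  have h4 : ‖c m * θ m‖ ≤ ‖∑ j, f j * θ j‖ := by
    calc ‖c m * θ m‖ = ‖f m * θ m‖ := (h2 m rfl).symm
      _ ≤ _ := h.orth f hf m
  by_contra hcon
  push Not at hcon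
  have h5 : ‖∑ j, f j * θ j‖ ≤ max ‖∑ j, c j * θ j - ∑ j, f j * θ j‖ ‖∑ j, c j * θ j‖ := by
    have h6 : ∑ j, f j * θ j = -(∑ j, c j * θ j - ∑ j, f j * θ j) + ∑ j, c j * θ j := by ring
    calc ‖∑ j, f j * θ j‖ = ‖-(∑ j, c j * θ j - ∑ j, f j * θ j) + ∑ j, c j * θ j‖ := by
          rw [← h6]
      _ ≤ max ‖-(∑ j, c j * θ j - ∑ j, f j * θ j)‖ ‖∑ j, c j * θ j‖ :=
          IsUltrametricDist.norm_add_le_max _ _
      _ = _ := by rw [norm_neg]
  exact absurd (h4.trans h5) (not_le.2 (max_lt h3 hcon))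

/-- LIN2.  An orthogonal basis of `F'/F` stays orthogonal over an immediate extension `K` of `F`.
Proof: let `c i ∈ K`, `M = max ‖c i * θ i‖ > 0`. For the `i` with `‖c i * θ i‖ = M` choose
`f i ∈ F` with `‖c i - f i‖ < ‖c i‖` (immediacy), for the others put `f i = 0`. Then
`‖∑ f i * θ i‖ ≥ M` by orthogonality over `F` and `‖∑ (c i - f i) * θ i‖ < M`, so
`‖∑ c i * θ i‖ ≥ M`. Use `mem_sup_iff` for `span`. -/
theorem OrthBasis.sup [IsUltrametricDist Ω] {F K F' : Subfield Ω} {d : ℕ} {θ : Fin (d + 1) → Ω}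
    (hI : Imm F K) (h : OrthBasis F F' θ) : OrthBasis K (K ⊔ F') θ where
  le := le_sup_left
  zero := h.zero
  mem := fun i => (le_sup_right : F' ≤ K ⊔ F') (h.mem i)
  ne := h.ne
  span := fun x hx => (mem_sup_iff hI.1 h x).1 hx
  orth := fun c hc i => norm_sum_eq hI h c hc i

/-- LIN3.  `K ⊔ F'` is immediate over `F'`. Proof: `x = ∑ c i * θ i` with `c i ∈ K` (LIN1),
`‖x‖ = max ‖c i * θ i‖ = M` (LIN2 and the ultrametric inequality); with `f i` as in LIN2,
`∑ f i * θ i ∈ F'` and `‖x - ∑ f i * θ i‖ < M`. -/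
theorem Imm.sup [IsUltrametricDist Ω] {F K F' : Subfield Ω} {d : ℕ} {θ : Fin (d + 1) → Ω}
    (hI : Imm F K) (h : OrthBasis F F' θ) : Imm F' (K ⊔ F') := by
  refine ⟨le_sup_right, fun x hx hx0 => ?_⟩
  obtain ⟨c, hc, rfl⟩ := (mem_sup_iff hI.1 h x).1 hx
  obtain ⟨f, hf, -, h3⟩ := exists_approx hI h c hc _ (norm_pos_iff.2 hx0)
    (norm_sum_eq hI h c hc)
  exact ⟨∑ i, f i * θ i, F'.sum_mem fun i _ => F'.mul_mem (h.le (hf i)) (h.mem i), h3⟩

end MP1a953e
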