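import Pool.Agent.Lib.MP_1a953e_ag.Lin1

/-!
# Module Lin3: distances and density
-/

namespace MP1a953e

open Polynomial

variable {Ω : Type*} [NormedField Ω]

/-- The `0`-th coordinate of `x - s` for `x ∈ K` and `s` a combination with coefficients in `K`. -/
theorem coord_zero_le [IsUltrametricDist Ω] {F K F' : Subfield Ω} {d : ℕ} {θ : Fin (d + 1) → Ω}
    (hI : Imm F K) (h : OrthBasis F F' θ) {x : Ω} (hx : x ∈ K) {s : Fin (d + 1) → Ω}
    (hs : ∀ i, s i ∈ K) : ‖x - s 0‖ ≤ ‖x - ∑ i, s i * θ i‖ := by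
  have hc : ∀ i : Fin (d + 1), (if i = 0 then x else 0) - s i ∈ K := by
    intro i
    refine K.sub_mem ?_ (hs i)
    split_ifs
    · exact hx
    · exact K.zero_mem
  have h1 := (h.sup hI).orth (fun i => (if i = 0 then x else 0) - s i) hc 0
  have h2 : ∑ j, ((if j = 0 then x else 0) - s j) * θ j = x - ∑ i, s i * θ i := by
    have h3 : ∀ j : Fin (d + 1), ((if j = 0 then x else 0) - s j) * θ j =
        (if j = 0 then x * θ j else 0) - s j * θ j := by
      intro j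
      split_ifs
      · rw [sub_mul]
      · rw [sub_mul, zero_mul]
    rw [Finset.sum_congr rfl fun j _ => h3 j, Finset.sum_sub_distrib,
      Finset.sum_ite_eq' Finset.univ (0 : Fin (d + 1)), if_pos (Finset.mem_univ _), h.zero,
      mul_one]
  rw [h2] at h1
  have h4 : ((if (0 : Fin (d + 1)) = 0 then x else 0) - s 0) * θ 0 = x - s 0 := by
    rw [if_pos rfl, h.zero, mul_one]
  have h5 : ‖((if (0 : Fin (d + 1)) = 0 then x else 0) - s 0) * θ 0‖ ≤
      ‖x - ∑ i, s i * θ i‖ := h1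
  rwa [h4] at h5

/-- LIN7.  For `T ∈ K` the distances to `F` and to `F'` agree: for `S = ∑ s i * θ i ∈ F'` (with
`s i ∈ F`) the `0`-th coordinate of `T - S` is `T - s 0`, so `‖T - s 0‖ ≤ ‖T - S‖` by LIN2. -/
theorem infDist_sup [IsUltrametricDist Ω] {F K F' : Subfield Ω} {d : ℕ} {θ : Fin (d + 1) → Ω}
    (hI : Imm F K) (h : OrthBasis F F' θ) {T : Ω} (hT : T ∈ K) :
    Metric.infDist T (F' : Set Ω) = Metric.infDist T (F : Set Ω) := by
  have hne : (F : Set Ω).Nonempty := ⟨0, F.zero_mem⟩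
  have hne' : (F' : Set Ω).Nonempty := ⟨0, F'.zero_mem⟩
  refine le_antisymm (Metric.infDist_le_infDist_of_subset (fun x hx => h.le hx) hne) ?_
  rw [Metric.le_infDist hne']
  intro S hS
  obtain ⟨s, hs, rfl⟩ := h.span S hS
  refine (Metric.infDist_le_dist_of_mem (hs 0)).trans ?_
  rw [dist_eq_norm, dist_eq_norm]
  exact coord_zero_le hI h hT fun i => hI.1 (hs i)

/-- LIN8.  Density passes to the compositum: approximate the coordinates. -/
theorem DenseIn.sup {F K F' : Subfield Ω} {d : ℕ} {θ : Fin (d + 1) → Ω} {T : Ω}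
    (hd : DenseIn (adj F T) K) (h : OrthBasis F F' θ) :
    DenseIn (adj F' T) (K ⊔ F') := by
  have hFK : F ≤ K := (le_adj F T).trans hd.1
  have hTK : T ∈ K := hd.1 (mem_adj_self F T)
  refine ⟨adj_le le_sup_right ((le_sup_left : K ≤ K ⊔ F') hTK), fun x hx ε hε => ?_⟩
  obtain ⟨c, hc, rfl⟩ := (mem_sup_iff hFK h x).1 hx
  set M : ℝ := ∑ i, ‖θ i‖ with hM
  have hM0 : 0 ≤ M := Finset.sum_nonneg fun i _ => norm_nonneg _
  have hδ : 0 < ε / (M + 1) := by positivity
  choose a ha hca using fun i => hd.2 (c i) (hc i) (ε / (M + 1)) hδ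
  have hle : adj F T ≤ adj F' T := sup_le_sup_right h.le _
  refine ⟨∑ i, a i * θ i, ?_, ?_⟩
  · exact (adj F' T).sum_mem fun i _ =>
      (adj F' T).mul_mem (hle (ha i)) (le_adj F' T (h.mem i))
  · have h1 : ∑ i, c i * θ i - ∑ i, a i * θ i = ∑ i, (c i - a i) * θ i := by
      rw [← Finset.sum_sub_distrib]
      exact Finset.sum_congr rfl fun i _ => (sub_mul _ _ _).symm
    rw [h1]
    calc ‖∑ i, (c i - a i) * θ i‖ ≤ ∑ i, ‖(c i - a i) * θ i‖ := norm_sum_le _ _
      _ ≤ ∑ i, ε / (M + 1) * ‖θ i‖ := by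
          refine Finset.sum_le_sum fun i _ => ?_
          rw [norm_mul]
          exact mul_le_mul_of_nonneg_right (hca i).le (norm_nonneg _)
      _ = ε / (M + 1) * M := by rw [← Finset.mul_sum]
      _ < ε := by
          rw [div_mul_eq_mul_div, div_lt_iff₀ (by positivity)]
          nlinarith

/-- LIN9.  `K ⊓ F' = F`: for `x ∈ K`, `x = ∑ c i * θ i` with `c i ∈ F`, compare the coordinates
over `K` (LIN2). -/
theorem mem_of_sup [IsUltrametricDist Ω] {F K F' : Subfield Ω} {d : ℕ} {θ : Fin (d + 1) → Ω}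
    (hI : Imm F K) (h : OrthBasis F F' θ) {x : Ω} (hx : x ∈ K) (hx' : x ∈ F') : x ∈ F := by
  obtain ⟨c, hc, hxc⟩ := h.span x hx'
  have h1 := coord_zero_le hI h hx fun i => hI.1 (hc i)
  rw [← hxc, sub_self, norm_zero] at h1
  have h2 : x - c 0 = 0 := norm_eq_zero.1 (le_antisymm h1 (norm_nonneg _))
  rw [sub_eq_zero.1 h2]
  exact hc 0

/-- LIN10.  Descent of density. `adj F' y = adj F y ⊔ F'` consists of the combinations of `θ` with
coefficients in `adj F y` (LIN1); if `x ∈ K` and `‖x - ∑ w i * θ i‖ < ε`, `w i ∈ adj F y ≤ K`,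
then `‖x - w 0‖ < ε` by LIN2. -/
theorem dense_descend [IsUltrametricDist Ω] {F K F' : Subfield Ω} {d : ℕ} {θ : Fin (d + 1) → Ω}
    (hI : Imm F K) (h : OrthBasis F F' θ) {y : Ω} (hy : y ∈ K)
    (hd : DenseIn (adj F' y) (K ⊔ F')) : DenseIn (adj F y) K := by
  have hyK : adj F y ≤ K := adj_le hI.1 hy
  refine ⟨hyK, fun x hx ε hε => ?_⟩
  obtain ⟨a, ha, hxa⟩ := hd.2 x ((le_sup_left : K ≤ K ⊔ F') hx) ε hε
  have hle : adj F' y ≤ adj F y ⊔ F' :=
    adj_le le_sup_right ((le_sup_left : adj F y ≤ adj F y ⊔ F') (mem_adj_self F y))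
  obtain ⟨w, hw, rfl⟩ := (mem_sup_iff (le_adj F y) h a).1 (hle ha)
  exact ⟨w 0, hw 0, (coord_zero_le hI h hx fun i => hyK (hw i)).trans_lt hxa⟩

end MP1a953e
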