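import Pool.Agent.Lib.MP_1a953e_ag.Defs

/-!
# Module GP1: conjugates have the same norm
-/

namespace MP1a953e

open Polynomial

variable {Ω : Type*} [NormedField Ω] [IsUltrametricDist Ω]

private theorem gp1_key {Q : Subfield Ω} (hQ : IsComplete (Q : Set Ω))
    (hnt : ∃ x ∈ Q, 1 < ‖x‖) (z : Ω) (hz : IsAlgebraic Q z) :
    ‖z‖ = spectralValue (minpoly Q z) := by
  letI : NontriviallyNormedField Q :=
    { (inferInstance : NormedField Q) with
      non_trivial := by
        obtain ⟨w, hw, h⟩ := hnt
        exact ⟨⟨w, hw⟩, h⟩ }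
  haveI : CompleteSpace Q := hQ.completeSpace_coe
  haveI : IsUltrametricDist Q :=
    ⟨fun a b c => IsUltrametricDist.dist_triangle_max (a : Ω) (b : Ω) (c : Ω)⟩
  haveI : Algebra.IsAlgebraic Q (IntermediateField.adjoin Q {z}) :=
    IntermediateField.isAlgebraic_adjoin_simple hz.isIntegral
  let f : AbsoluteValue (IntermediateField.adjoin Q {z}) ℝ :=
    { toFun := fun w => ‖(w : Ω)‖
      map_mul' := fun a b => by
        change ‖((a * b : IntermediateField.adjoin Q {z}) : Ω)‖ = _
        rw [IntermediateField.coe_mul, norm_mul]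
      nonneg' := fun a => norm_nonneg _
      eq_zero' := fun a => by
        rw [norm_eq_zero]
        exact ⟨fun h => Subtype.ext h, fun h => by rw [h]; rfl⟩
      add_le' := fun a b => by
        change ‖((a + b : IntermediateField.adjoin Q {z}) : Ω)‖ ≤ _
        rw [IntermediateField.coe_add]
        exact norm_add_le _ _ }
  have h1 := spectralNorm_unique_field_norm_ext (K := Q)
    (L := IntermediateField.adjoin Q {z}) (f := f) (fun _ => rfl)
    ⟨z, IntermediateField.mem_adjoin_simple_self Q z⟩
  have h2 : minpoly Q (⟨z, IntermediateField.mem_adjoin_simple_self Q z⟩ :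
      IntermediateField.adjoin Q {z}) = minpoly Q z :=
    (minpoly.algebraMap_eq (algebraMap (IntermediateField.adjoin Q {z}) Ω).injective
      (⟨z, IntermediateField.mem_adjoin_simple_self Q z⟩ :
      IntermediateField.adjoin Q {z})).symm
  rw [← h2]
  exact h1

/-- GP1.  Conjugate elements over a complete subfield have the same norm.  Proof: restrict to the algebraic
closure of `Q` in `Ω` (or to the normal closure of `Q⟮x⟯`); the norm of `Ω` is the spectral norm
(`NormedAlgebra.norm_eq_spectralNorm`, `spectralNorm_unique_field_norm_ext`), and the spectral norm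
depends only on the minimal polynomial. -/
theorem norm_eq_of_minpoly_eq {Q : Subfield Ω} (hQ : IsComplete (Q : Set Ω))
    (hnt : ∃ x ∈ Q, 1 < ‖x‖) {x y : Ω} (hx : IsAlgebraic Q x) (hxy : minpoly Q x = minpoly Q y) :
    ‖x‖ = ‖y‖ := by
  have hy : IsAlgebraic Q y := by
    have h1 : minpoly Q x ≠ 0 := minpoly.ne_zero hx.isIntegral
    rw [hxy] at h1
    exact (minpoly.ne_zero_iff.1 h1).isAlgebraic
  rw [gp1_key hQ hnt x hx, gp1_key hQ hnt y hy, hxy]

end MP1a953e
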