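import Pool.Agent.Lib.MP_1a953e_ag.Defs

/-!
# Module Calc2: dominating terms
-/

namespace MP1a953e

open Polynomial

variable {Ω : Type*} [NormedField Ω] [IsUltrametricDist Ω]

/-- CAL5.  For finitely many monomials there is a dominating one on an interval `(r, ρ)`: choose
`n ∈ I` maximizing `γ n * r ^ n`, and among these the largest one. -/
theorem unique_dom (I : Finset ℕ) (γ : ℕ → ℝ) (hγ : ∀ i, 0 ≤ γ i) (r : ℝ) (hr : 0 < r)
    (hne : ∃ i ∈ I, 0 < γ i) :
    ∃ n ∈ I, 0 < γ n ∧ ∃ ρ > r, ∀ σ, r < σ → σ < ρ → ∀ i ∈ I, i ≠ n →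
      γ i * σ ^ i < γ n * σ ^ n := by
  obtain ⟨i₀, hi₀, hpos₀⟩ := hne
  obtain ⟨n, hn, hmax⟩ := Finset.exists_max_image I
    (fun i => toLex (γ i * r ^ i, i)) ⟨i₀, hi₀⟩
  have hcase : ∀ i ∈ I, γ i * r ^ i < γ n * r ^ n ∨ (γ i * r ^ i = γ n * r ^ n ∧ i ≤ n) := by
    intro i hi
    have h := hmax i hi
    rw [Prod.Lex.toLex_le_toLex] at h
    exact h
  have hle : ∀ i ∈ I, γ i * r ^ i ≤ γ n * r ^ n := by
    intro i hi
    rcases hcase i hi with h | h
    · exact h.le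
    · exact h.1.le
  have hnpos' : 0 < γ n * r ^ n :=
    lt_of_lt_of_le (mul_pos hpos₀ (pow_pos hr _)) (hle i₀ hi₀)
  have hnpos : 0 < γ n := by
    rcases (hγ n).lt_or_eq with h | h
    · exact h
    · rw [← h, zero_mul] at hnpos'
      exact absurd hnpos' (lt_irrefl _)
  have hev : ∀ i ∈ I, ∀ᶠ σ in nhdsWithin r (Set.Ioi r), i ≠ n → γ i * σ ^ i < γ n * σ ^ n := by
    intro i hi
    rcases hcase i hi with h | ⟨h, hin⟩
    · have hc1 : Continuous fun σ : ℝ => γ i * σ ^ i := by fun_prop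
      have hc2 : Continuous fun σ : ℝ => γ n * σ ^ n := by fun_prop
      have h1 : ∀ᶠ σ in nhds r, γ i * σ ^ i < γ n * σ ^ n :=
        hc1.continuousAt.eventually_lt hc2.continuousAt h
      filter_upwards [h1.filter_mono nhdsWithin_le_nhds] with σ hσ _
      exact hσ
    · filter_upwards [self_mem_nhdsWithin] with σ hσ hne
      have hσr : r < σ := hσ
      have hlt : i < n := lt_of_le_of_ne hin hne
      have hσ0 : 0 < σ := hr.trans hσr
      have e1 : γ i * r ^ i = γ n * r ^ (n - i) * r ^ i := by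
        rw [h, mul_assoc, ← pow_add, Nat.sub_add_cancel hin]
      have e2 : γ i = γ n * r ^ (n - i) := mul_right_cancel₀ (pow_ne_zero i hr.ne') e1
      have e3 : γ n * σ ^ n = γ n * σ ^ (n - i) * σ ^ i := by
        rw [mul_assoc, ← pow_add, Nat.sub_add_cancel hin]
      rw [e2, e3]
      refine mul_lt_mul_of_pos_right ?_ (pow_pos hσ0 _)
      exact mul_lt_mul_of_pos_left (pow_lt_pow_left₀ hσr hr.le (by omega)) hnpos
  have hall : ∀ᶠ σ in nhdsWithin r (Set.Ioi r), ∀ i ∈ I, i ≠ n → γ i * σ ^ i < γ n * σ ^ n := by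
    rw [Filter.eventually_all_finset]
    exact hev
  obtain ⟨ρ, hρ, hsub⟩ := mem_nhdsGT_iff_exists_Ioo_subset.1 hall
  exact ⟨n, hn, hnpos, ρ, hρ, fun σ h1 h2 => hsub ⟨h1, h2⟩⟩

private theorem norm_add_eq_left {x y : Ω} (h : ‖y‖ < ‖x‖) : ‖x + y‖ = ‖x‖ := by
  rw [IsUltrametricDist.norm_add_eq_max_of_norm_ne_norm (ne_of_gt h)]
  exact max_eq_left h.le

private theorem norm_sum_lt {ι : Type*} (s : Finset ι) (f : ι → Ω) {c : ℝ} (hc : 0 < c)
    (h : ∀ i ∈ s, ‖f i‖ < c) : ‖∑ i ∈ s, f i‖ < c := by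
  refine Finset.sum_induction f (fun x => ‖x‖ < c) ?_ ?_ h
  · intro a b ha hb
    exact lt_of_le_of_lt (IsUltrametricDist.norm_add_le_max _ _) (max_lt ha hb)
  · simpa using hc

/-- CAL6.  Taylor expansion at `T`: `g a - g T = ∑_{i ≥ 1} (hasseDeriv i g) T * (a - T) ^ i`; by
`unique_dom` there is a unique dominating term for `‖T - a‖` in an interval `(r, ρ)`, so the norm of
the sum is the maximum of the norms of the terms. (True for every polynomial `g` over `Ω`, if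
`0 < r`.) -/
theorem taylor_dom (g : Polynomial Ω) (T : Ω) (r : ℝ) (hr : 0 < r) :
    ∃ ρ > r, ∀ a : Ω, r < ‖T - a‖ → ‖T - a‖ < ρ → ∀ i, 1 ≤ i →
      ‖(hasseDeriv i g).eval T‖ * ‖T - a‖ ^ i ≤ ‖g.eval T - g.eval a‖ := by
  set N := g.natDegree with hN
  have hbig : ∀ i, N < i → (hasseDeriv i g).eval T = 0 := by
    intro i hi
    rw [← taylor_coeff]
    exact coeff_eq_zero_of_natDegree_lt (by rw [natDegree_taylor]; exact hi)
  by_cases hne : ∃ i ∈ Finset.Icc 1 N, 0 < ‖(hasseDeriv i g).eval T‖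
  · obtain ⟨n, hn, hnpos, ρ, hρ, hdom⟩ := unique_dom (Finset.Icc 1 N)
      (fun i => ‖(hasseDeriv i g).eval T‖) (fun i => norm_nonneg _) r hr hne
    refine ⟨ρ, hρ, fun a h1 h2 => ?_⟩
    have hσ0 : 0 < ‖T - a‖ := hr.trans h1
    have hTa : ‖a - T‖ = ‖T - a‖ := norm_sub_rev _ _
    have hexp : g.eval a - g.eval T =
        ∑ i ∈ Finset.Icc 1 N, (hasseDeriv i g).eval T * (a - T) ^ i := by
      have e1 : g.eval a = (taylor T g).eval (a - T) := by rw [taylor_eval_sub]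
      rw [e1, eval_eq_sum_range, natDegree_taylor]
      have e2 : Finset.range (g.natDegree + 1) = insert 0 (Finset.Icc 1 N) := by
        ext j
        simp only [Finset.mem_range, Finset.mem_insert, Finset.mem_Icc]
        omega
      rw [e2, Finset.sum_insert (by simp)]
      simp only [taylor_coeff, pow_zero, mul_one, hasseDeriv_zero, LinearMap.id_coe, id_eq]
      ring
    have hn1 : 1 ≤ n := (Finset.mem_Icc.1 hn).1
    have hterm : ∀ i, ‖(hasseDeriv i g).eval T * (a - T) ^ i‖ =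
        ‖(hasseDeriv i g).eval T‖ * ‖T - a‖ ^ i := by
      intro i
      rw [norm_mul, norm_pow, hTa]
    have hpos : 0 < ‖(hasseDeriv n g).eval T‖ * ‖T - a‖ ^ n := mul_pos hnpos (pow_pos hσ0 _)
    have hnorm : ‖g.eval T - g.eval a‖ = ‖(hasseDeriv n g).eval T‖ * ‖T - a‖ ^ n := by
      rw [norm_sub_rev, hexp, ← Finset.add_sum_erase _ _ hn, norm_add_eq_left, hterm]
      rw [hterm]
      refine norm_sum_lt _ _ hpos fun i hi => ?_
      rw [hterm]
      exact hdom _ h1 h2 i (Finset.mem_of_mem_erase hi) (Finset.ne_of_mem_erase hi)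
    intro i hi
    rw [hnorm]
    by_cases hiN : i ≤ N
    · by_cases hin : i = n
      · rw [hin]
      · exact (hdom _ h1 h2 i (Finset.mem_Icc.2 ⟨hi, hiN⟩) hin).le
    · rw [hbig i (by omega), norm_zero, zero_mul]
      exact hpos.le
  · refine ⟨r + 1, by simp, fun a _ _ i hi => ?_⟩
    have h0 : ‖(hasseDeriv i g).eval T‖ = 0 := by
      by_cases hiN : i ≤ N
      · by_contra hcon
        exact hne ⟨i, Finset.mem_Icc.2 ⟨hi, hiN⟩, lt_of_le_of_ne (norm_nonneg _) (Ne.symm hcon)⟩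
      · rw [hbig i (by omega), norm_zero]
    rw [h0, zero_mul]
    exact norm_nonneg _

end MP1a953e
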