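import Pool.Agent.Lib.MP_1a953e_ag.Calc1
import Pool.Agent.Lib.MP_1a953e_ag.Calc2

/-!
# Module Calc3: Kaplansky inequality, distance, density
-/

namespace MP1a953e

open Polynomial

variable {Ω : Type*} [NormedField Ω] [IsUltrametricDist Ω]

private theorem coeffs_hasseDeriv {F : Subfield Ω} {g : Polynomial Ω} (hg : Coeffs F g) (q : ℕ) :
    Coeffs F (hasseDeriv q g) := by
  intro i
  rw [hasseDeriv_coeff]
  exact F.mul_mem (natCast_mem F _) (hg _)

private theorem norm_sub_le_max' (x y : Ω) : ‖x - y‖ ≤ max ‖x‖ ‖y‖ := by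
  have h := IsUltrametricDist.norm_add_le_max x (-y)
  rw [norm_neg, ← sub_eq_add_neg] at h
  exact h

/-- CAL7 (Kaplansky).  Apply `taylor_dom` to `hasseDeriv q g`
(`hasseDeriv (i - q) (hasseDeriv q g) = (i.choose q) • hasseDeriv i g`; a natural number which is not
zero in `Ω` has norm `1` in an ultrametric field of characteristic `p`, and here we only use
`‖(i.choose q : Ω)‖ = 1`) and to `a ∈ F` close to `T`, and `TT.ec`:
`γ i * ‖T - a‖ ^ (i - q) ≤ ‖(hasseDeriv q g) T - (hasseDeriv q g) a‖ ≤ γ q`, and `r < ‖T - a‖`. -/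
theorem TT.kaplansky [IsAlgClosed Ω] {F : Subfield Ω} {T : Ω} (hT : TT F T) {g : Polynomial Ω}
    (hg : Coeffs F g) {q i : ℕ} (hqi : q < i) (hch : ‖((i.choose q : ℕ) : Ω)‖ = 1)
    (hi : (hasseDeriv i g).eval T ≠ 0) :
    ‖(hasseDeriv i g).eval T‖ * Metric.infDist T (F : Set Ω) ^ (i - q) <
      ‖(hasseDeriv q g).eval T‖ := by
  set r := Metric.infDist T (F : Set Ω) with hr
  have hr0 : 0 < r := hT.pos
  obtain ⟨ρ₁, hρ₁, h1⟩ := taylor_dom (hasseDeriv q g) T r hr0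
  obtain ⟨ρ₂, hρ₂, h2⟩ := hT.ec (coeffs_hasseDeriv hg q)
  obtain ⟨a, haF, ha1, ha2⟩ := hT.exists_near (lt_min hρ₁ hρ₂)
  have h3 := h1 a ha2 (lt_of_lt_of_le ha1 (min_le_left _ _)) (i - q) (by omega)
  have h4 := h2 a (lt_of_lt_of_le ha1 (min_le_right _ _))
  have hcomp : hasseDeriv (i - q) (hasseDeriv q g) = (i.choose q : ℕ) • hasseDeriv i g := by
    have h := congrArg (fun L : Polynomial Ω →ₗ[Ω] Polynomial Ω => L g)
      (hasseDeriv_comp (R := Ω) (i - q) q)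
    simp only [LinearMap.comp_apply, LinearMap.smul_apply] at h
    rw [h, Nat.sub_add_cancel hqi.le, Nat.choose_symm hqi.le]
  have h5 : ‖(hasseDeriv (i - q) (hasseDeriv q g)).eval T‖ = ‖(hasseDeriv i g).eval T‖ := by
    rw [hcomp, eval_smul, nsmul_eq_mul, norm_mul, hch, one_mul]
  rw [h5] at h3
  have hpos : 0 < ‖(hasseDeriv i g).eval T‖ := norm_pos_iff.2 hi
  calc ‖(hasseDeriv i g).eval T‖ * r ^ (i - q)
      < ‖(hasseDeriv i g).eval T‖ * ‖T - a‖ ^ (i - q) :=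
        mul_lt_mul_of_pos_left (pow_lt_pow_left₀ ha2 hr0.le (by omega)) hpos
    _ ≤ ‖(hasseDeriv q g).eval T - (hasseDeriv q g).eval a‖ := h3
    _ ≤ max ‖(hasseDeriv q g).eval T‖ ‖(hasseDeriv q g).eval a‖ := norm_sub_le_max' _ _
    _ = ‖(hasseDeriv q g).eval T‖ := by rw [h4, max_self]

/-- CAL8.  Lower bound for the distance of `g T` to `F`: for `a ∈ F` close to `T`,
`γ i * r ^ i ≤ γ i * ‖T - a‖ ^ i ≤ ‖g T - g a‖ ≤ max ‖g T - b‖ ‖g a - b‖ = ‖g T - b‖` (`TT.ec` for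
`g - b`). -/
theorem TT.dist_le [IsAlgClosed Ω] {F : Subfield Ω} {T : Ω} (hT : TT F T) {g : Polynomial Ω}
    (hg : Coeffs F g) {b : Ω} (hb : b ∈ F) {i : ℕ} (hi : 1 ≤ i) :
    ‖(hasseDeriv i g).eval T‖ * Metric.infDist T (F : Set Ω) ^ i ≤ ‖g.eval T - b‖ := by
  set r := Metric.infDist T (F : Set Ω) with hr
  have hr0 : 0 < r := hT.pos
  have hgb : Coeffs F (g - C b) := by
    intro j
    rw [coeff_sub, coeff_C]
    refine F.sub_mem (hg j) ?_
    split_ifs
    · exact hb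
    · exact F.zero_mem
  obtain ⟨ρ₁, hρ₁, h1⟩ := taylor_dom g T r hr0
  obtain ⟨ρ₂, hρ₂, h2⟩ := hT.ec hgb
  obtain ⟨a, haF, ha1, ha2⟩ := hT.exists_near (lt_min hρ₁ hρ₂)
  have h3 := h1 a ha2 (lt_of_lt_of_le ha1 (min_le_left _ _)) i hi
  have h4 := h2 a (lt_of_lt_of_le ha1 (min_le_right _ _))
  simp only [eval_sub, eval_C] at h4
  calc ‖(hasseDeriv i g).eval T‖ * r ^ i
      ≤ ‖(hasseDeriv i g).eval T‖ * ‖T - a‖ ^ i :=
        mul_le_mul_of_nonneg_left (pow_le_pow_left₀ hr0.le ha2.le _) (norm_nonneg _)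
    _ ≤ ‖g.eval T - g.eval a‖ := h3
    _ = ‖(g.eval T - b) - (g.eval a - b)‖ := by congr 1; ring
    _ ≤ max ‖g.eval T - b‖ ‖g.eval a - b‖ := norm_sub_le_max' _ _
    _ = ‖g.eval T - b‖ := by rw [h4, max_self]

/-- the ring of values at `T` of the polynomials over `F` -/
private def polyRing (F : Subfield Ω) (T : Ω) : Subring Ω where
  carrier := {x | ∃ g : Polynomial Ω, Coeffs F g ∧ x = g.eval T}
  mul_mem' := by
    rintro x y ⟨g, hg, rfl⟩ ⟨h, hh, rfl⟩
    refine ⟨g * h, fun i => ?_, by rw [eval_mul]⟩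
    rw [coeff_mul]
    exact F.sum_mem fun c _ => F.mul_mem (hg _) (hh _)
  one_mem' := by
    refine ⟨1, fun i => ?_, by simp⟩
    rw [coeff_one]
    split_ifs
    · exact F.one_mem
    · exact F.zero_mem
  add_mem' := by
    rintro x y ⟨g, hg, rfl⟩ ⟨h, hh, rfl⟩
    refine ⟨g + h, fun i => ?_, by rw [eval_add]⟩
    rw [coeff_add]
    exact F.add_mem (hg _) (hh _)
  zero_mem' := ⟨0, fun i => by rw [coeff_zero]; exact F.zero_mem, by simp⟩
  neg_mem' := by
    rintro x ⟨g, hg, rfl⟩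
    refine ⟨-g, fun i => ?_, by rw [eval_neg]⟩
    rw [coeff_neg]
    exact F.neg_mem (hg _)

omit [IsUltrametricDist Ω] in
private theorem mem_polyRing {F : Subfield Ω} {T x : Ω} :
    x ∈ polyRing F T ↔ ∃ g : Polynomial Ω, Coeffs F g ∧ x = g.eval T := Iff.rfl

omit [IsUltrametricDist Ω] in
private theorem const_mem_polyRing {F : Subfield Ω} {T b : Ω} (hb : b ∈ F) : b ∈ polyRing F T := by
  refine ⟨C b, fun i => ?_, by simp⟩
  rw [coeff_C]
  split_ifs
  · exact hb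
  · exact F.zero_mem

omit [IsUltrametricDist Ω] in
private theorem eval_mem {F : Subfield Ω} {g : Polynomial Ω} (hg : Coeffs F g) {a : Ω}
    (ha : a ∈ F) : g.eval a ∈ F := by
  rw [eval_eq_sum_range]
  exact F.sum_mem fun i _ => F.mul_mem (hg i) (F.pow_mem ha _)

private theorem inv_mem_closure [IsAlgClosed Ω] {F : Subfield Ω} {T : Ω} (hT : TT F T) {x : Ω}
    (hx : x ∈ polyRing F T) : x⁻¹ ∈ (polyRing F T).topologicalClosure := by
  by_cases hx0 : x = 0
  · rw [hx0, inv_zero]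
    exact Subring.zero_mem _
  obtain ⟨Q, hQ, rfl⟩ := hx
  have hQ0 : Q ≠ 0 := by
    rintro rfl
    exact hx0 (by simp)
  obtain ⟨ρ, hρ, h1⟩ := hT.ec_strict hQ hQ0
  obtain ⟨a, haF, ha1, ha2⟩ := hT.exists_near hρ
  have h2 := h1 a ha1
  have hQa : 0 < ‖Q.eval a‖ := lt_of_le_of_lt (norm_nonneg _) h2
  have hQa0 : Q.eval a ≠ 0 := norm_pos_iff.1 hQa
  set u : Ω := (Q.eval a)⁻¹ * (Q.eval a - Q.eval T) with hu
  have hu1 : ‖u‖ < 1 := by
    rw [hu, norm_mul, norm_inv, norm_sub_rev, inv_mul_eq_div, div_lt_one hQa]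
    exact h2
  have hinvF : (Q.eval a)⁻¹ ∈ polyRing F T := const_mem_polyRing (F.inv_mem (eval_mem hQ haF))
  have huS : u ∈ polyRing F T :=
    (polyRing F T).mul_mem hinvF
      ((polyRing F T).sub_mem (const_mem_polyRing (eval_mem hQ haF)) ⟨Q, hQ, rfl⟩)
  have h1u : 1 - u = (Q.eval a)⁻¹ * Q.eval T := by
    rw [hu, mul_sub, inv_mul_cancel₀ hQa0]
    ring
  have h1u0 : 1 - u ≠ 0 := by
    rw [h1u]
    exact mul_ne_zero (inv_ne_zero hQa0) hx0
  have hlim : Filter.Tendsto (fun n : ℕ => (Q.eval a)⁻¹ * ∑ k ∈ Finset.range n, u ^ k)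
      Filter.atTop (nhds (Q.eval T)⁻¹) := by
    have e : ∀ n : ℕ, (Q.eval a)⁻¹ * ∑ k ∈ Finset.range n, u ^ k =
        (Q.eval a)⁻¹ * ((1 - u ^ n) * (1 - u)⁻¹) := by
      intro n
      congr 1
      rw [eq_mul_inv_iff_mul_eq₀ h1u0]
      exact geom_sum_mul_neg u n
    have h3 : Filter.Tendsto (fun n : ℕ => u ^ n) Filter.atTop (nhds 0) :=
      tendsto_pow_atTop_nhds_zero_of_norm_lt_one hu1
    have h4 : Filter.Tendsto (fun n : ℕ => (Q.eval a)⁻¹ * ((1 - u ^ n) * (1 - u)⁻¹)) Filter.atTop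
        (nhds ((Q.eval a)⁻¹ * ((1 - 0) * (1 - u)⁻¹))) :=
      ((h3.const_sub 1).mul_const _).const_mul _
    have e2 : (Q.eval a)⁻¹ * ((1 - 0) * (1 - u)⁻¹) = (Q.eval T)⁻¹ := by
      rw [sub_zero, one_mul, h1u, mul_inv, inv_inv, ← mul_assoc, inv_mul_cancel₀ hQa0, one_mul]
    rw [e2] at h4
    exact h4.congr fun n => (e n).symm
  refine mem_closure_of_tendsto hlim (Filter.Eventually.of_forall fun n => ?_)
  exact (polyRing F T).mul_mem hinvF
    ((polyRing F T).sum_mem fun k _ => (polyRing F T).pow_mem huS k)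

private theorem inv_mem_closure' [IsAlgClosed Ω] {F : Subfield Ω} {T : Ω} (hT : TT F T) {x : Ω}
    (hx : x ∈ (polyRing F T).topologicalClosure) : x⁻¹ ∈ (polyRing F T).topologicalClosure := by
  by_cases hx0 : x = 0
  · rw [hx0, inv_zero]
    exact Subring.zero_mem _
  have hx' : x ∈ closure (polyRing F T : Set Ω) := hx
  obtain ⟨s, hs, hlim⟩ := mem_closure_iff_seq_limit.1 hx'
  have h1 : Filter.Tendsto (fun n => (s n)⁻¹) Filter.atTop (nhds x⁻¹) := hlim.inv₀ hx0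
  have hcl : IsClosed ((polyRing F T).topologicalClosure : Set Ω) :=
    Subring.isClosed_topologicalClosure _
  exact hcl.mem_of_tendsto h1 (Filter.Eventually.of_forall fun n => inv_mem_closure hT (hs n))

/-- CAL9.  Polynomials are dense in the field `adj F T`. Proof: an element is `P T / Q T`; choose
`a ∈ F` with `‖Q T - Q a‖ < ‖Q a‖` (`TT.ec_strict`); `1 / Q T = (Q a)⁻¹ ∑ (1 - Q T / Q a) ^ n`, a
convergent geometric series of polynomials in `T`; partial sums approximate. -/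
theorem TT.poly_dense [IsAlgClosed Ω] {F : Subfield Ω} {T : Ω} (hT : TT F T) {x : Ω}
    (hx : x ∈ adj F T) {ε : ℝ} (hε : 0 < ε) :
    ∃ g : Polynomial Ω, Coeffs F g ∧ ‖x - g.eval T‖ < ε := by
  let D : Subfield Ω :=
    { (polyRing F T).topologicalClosure with
      inv_mem' := fun x hx => inv_mem_closure' hT hx }
  have hsub : (polyRing F T : Set Ω) ⊆ D := subset_closure
  have hFD : F ≤ D := fun b hb => hsub (const_mem_polyRing hb)
  have hTD : T ∈ D := by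
    refine hsub ⟨X, fun i => ?_, by simp⟩
    rw [coeff_X]
    split_ifs
    · exact F.one_mem
    · exact F.zero_mem
  have hxD : x ∈ closure (polyRing F T : Set Ω) := adj_le hFD hTD hx
  obtain ⟨y, ⟨g, hg, rfl⟩, hy⟩ := Metric.mem_closure_iff.1 hxD ε hε
  refine ⟨g, hg, ?_⟩
  rw [← dist_eq_norm]
  exact hy

/-- CAL12.  Scaling and translation. -/
theorem TT.smul_add {F : Subfield Ω} {T : Ω} (hT : TT F T) {x b : Ω} (hx : x ∈ F) (hx0 : x ≠ 0)
    (hb : b ∈ F) :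
    TT F (x * T + b) ∧
      Metric.infDist (x * T + b) (F : Set Ω) = ‖x‖ * Metric.infDist T (F : Set Ω) := by
  have hne : (F : Set Ω).Nonempty := ⟨0, F.zero_mem⟩
  have hxpos : 0 < ‖x‖ := norm_pos_iff.2 hx0
  have hkey : ∀ c : Ω, ‖x * T + b - c‖ = ‖x‖ * ‖T - x⁻¹ * (c - b)‖ := by
    intro c
    rw [← norm_mul]
    congr 1
    field_simp
    ring
  have hdist : Metric.infDist (x * T + b) (F : Set Ω) = ‖x‖ * Metric.infDist T (F : Set Ω) := by
    apply le_antisymm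
    · rw [← div_le_iff₀' hxpos, Metric.le_infDist hne]
      intro f hf
      rw [div_le_iff₀ hxpos]
      have hf' : x * f + b ∈ (F : Set Ω) := F.add_mem (F.mul_mem hx hf) hb
      refine (Metric.infDist_le_dist_of_mem hf').trans (le_of_eq ?_)
      rw [dist_eq_norm, dist_eq_norm, mul_comm, ← norm_mul]
      congr 1
      ring
    · rw [Metric.le_infDist hne]
      intro f hf
      rw [dist_eq_norm, hkey]
      refine mul_le_mul_of_nonneg_left ?_ (norm_nonneg _)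
      have hf' : x⁻¹ * (f - b) ∈ (F : Set Ω) := F.mul_mem (F.inv_mem hx) (F.sub_mem hf hb)
      rw [← dist_eq_norm]
      exact Metric.infDist_le_dist_of_mem hf'
  refine ⟨⟨?_, fun β hβ => ?_⟩, hdist⟩
  · rw [hdist]
    exact mul_pos hxpos hT.pos
  · rw [hdist, hkey]
    refine mul_lt_mul_of_pos_left (hT.nb _ ?_) hxpos
    exact (isAlgebraic_algebraMap (⟨x⁻¹, F.inv_mem hx⟩ : F)).mul
      (hβ.sub (isAlgebraic_algebraMap (⟨b, hb⟩ : F)))

end MP1a953e
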