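import Pool.Agent.Lib.MP_1a953e_ag.Calc3

/-!
# Module Calc5: additive approximation
-/

namespace MP1a953e

open Polynomial

variable {Ω : Type*} [NormedField Ω] [IsUltrametricDist Ω]

private lemma norm_natCast_eq_one {p : ℕ} [Fact p.Prime] [CharP Ω p] {n : ℕ} (h : ¬ p ∣ n) :
    ‖(n : Ω)‖ = 1 := by
  have hp : p.Prime := Fact.out
  have h1 : ((n : ZMod p)) ≠ 0 := fun h0 => h ((ZMod.natCast_eq_zero_iff n p).1 h0)
  have h2 : (n : ZMod p) ^ (p - 1) = 1 := ZMod.pow_card_sub_one_eq_one h1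
  have h3 : (n : Ω) ^ (p - 1) = 1 := by
    have := congrArg (ZMod.castHom (dvd_refl p) Ω) h2
    simpa using this
  have h4 : ‖(n : Ω)‖ ^ (p - 1) = 1 := by rw [← norm_pow, h3, norm_one]
  exact (pow_eq_one_iff_of_nonneg (norm_nonneg _) (by have := hp.two_le; omega)).1 h4

private lemma choose_not_dvd {p : ℕ} [Fact p.Prime] {j : ℕ} (hj : ¬ p ∣ j) (v : ℕ) :
    ¬ p ∣ (p ^ v * j).choose (p ^ v) := by
  have hp : p.Prime := Fact.out
  induction v with
  | zero => simpa using hj
  | succ v ih =>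
    have h1 := Choose.choose_modEq_choose_mod_mul_choose_div_nat (p := p) (n := p ^ (v + 1) * j)
      (k := p ^ (v + 1))
    have h2 : p ^ (v + 1) * j % p = 0 := by
      rw [pow_succ', mul_assoc]
      exact Nat.mul_mod_right _ _
    have h3 : p ^ (v + 1) % p = 0 := by
      rw [pow_succ']
      exact Nat.mul_mod_right _ _
    have h4 : p ^ (v + 1) * j / p = p ^ v * j := by
      rw [pow_succ', mul_assoc]
      exact Nat.mul_div_cancel_left _ hp.pos
    have h5 : p ^ (v + 1) / p = p ^ v := by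
      rw [pow_succ']
      exact Nat.mul_div_cancel_left _ hp.pos
    rw [h2, h3, h4, h5, Nat.choose_self, one_mul] at h1
    intro h6
    exact ih ((h1.dvd_iff (dvd_refl p)).1 h6)

private lemma sum_lt {ι : Type*} (s : Finset ι) (f : ι → Ω) {C : ℝ} (hC : 0 < C)
    (h : ∀ i ∈ s, ‖f i‖ < C) : ‖∑ i ∈ s, f i‖ < C := by
  classical
  induction s using Finset.induction_on with
  | empty => simpa using hC
  | insert a s ha ih =>
    rw [Finset.sum_insert ha]
    refine (IsUltrametricDist.norm_add_le_max _ _).trans_lt (max_lt ?_ ?_)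
    · exact h a (Finset.mem_insert_self _ _)
    · exact ih (fun i hi => h i (Finset.mem_insert_of_mem hi))

/-- CAL11.  Additive approximation (`Ω` of characteristic `p`).  Proof: choose a polynomial `g` over `F`
with `‖y - g T‖ < r` (`TT.poly_dense`). By `TT.dist_le`, `γ i * r ^ i ≤ ‖g T - b‖ ≤ max (‖g T - y‖)
(‖y - b‖)` for all `b ∈ F`, `i ≥ 1`, so `γ i * r ^ i ≤ r`. If `i ≥ 1` is not a power of `p`, write
`i = q * j`, `q = p ^ v`, `p ∤ j`, `j > 1`; then `i.choose q` is prime to `p` (Lucas), so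
`TT.kaplansky` gives `γ i * r ^ i < r` (or `γ i = 0`). Choose `a ∈ F` so close to `T` that
`γ i * ‖T - a‖ ^ i < r` for these finitely many `i ≤ deg g` and `‖(hasseDeriv i g) a‖ = γ i` for
all `i` (`TT.ec`). Then `c h = (hasseDeriv (p ^ h) g) a`, and
`g T = g a + ∑_{i ≥ 1} (hasseDeriv i g) a * (T - a) ^ i`,
`(T - a) ^ (p ^ h) = T ^ (p ^ h) - a ^ (p ^ h)`, `e = g a - ∑ c h * a ^ (p ^ h)`. -/
theorem TT.kl [IsAlgClosed Ω] {p : ℕ} [Fact p.Prime] [CharP Ω p] {F K : Subfield Ω} {T : Ω}
    (hT : TT F T) (hd : DenseIn (adj F T) K) {y : Ω} (hy : y ∈ K)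
    (hyr : Metric.infDist y (F : Set Ω) ≤ Metric.infDist T (F : Set Ω)) :
    ∃ e ∈ F, ∃ (H : ℕ) (c : ℕ → Ω), (∀ h, c h ∈ F) ∧
      (∀ h, ‖c h‖ * Metric.infDist T (F : Set Ω) ^ p ^ h ≤ Metric.infDist T (F : Set Ω)) ∧
      ‖y - e - ∑ h ∈ Finset.range (H + 1), c h * T ^ p ^ h‖ < Metric.infDist T (F : Set Ω) := by
  classical
  have hp : p.Prime := Fact.out
  set r := Metric.infDist T (F : Set Ω) with hr
  have hr0 : 0 < r := hT.pos
  have hFne : (F : Set Ω).Nonempty := ⟨0, F.zero_mem⟩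
  -- the polynomial `g`
  obtain ⟨x, hx, hyx⟩ := hd.2 y hy r hr0
  obtain ⟨g, hg, hxg⟩ := hT.poly_dense hx hr0
  have hyg : ‖y - g.eval T‖ < r := by
    have : y - g.eval T = (y - x) + (x - g.eval T) := by ring
    rw [this]
    exact (IsUltrametricDist.norm_add_le_max _ _).trans_lt (max_lt hyx hxg)
  -- coefficients
  have hcoef : ∀ i, Coeffs F (hasseDeriv i g) := by
    intro i n
    rw [hasseDeriv_coeff]
    exact F.mul_mem (natCast_mem F _) (hg _)
  have hevalF : ∀ G : Polynomial Ω, Coeffs F G → ∀ a ∈ F, G.eval a ∈ F := by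
    intro G hG a ha
    rw [eval_eq_sum_range]
    exact F.sum_mem (fun i _ => F.mul_mem (hG i) (F.pow_mem ha i))
  -- step 2
  have hle : ∀ i, 1 ≤ i → ‖(hasseDeriv i g).eval T‖ * r ^ i ≤ r := by
    intro i hi
    by_contra hcon
    rw [not_le] at hcon
    obtain ⟨b, hb, hyb⟩ := (Metric.infDist_lt_iff hFne).1 (hyr.trans_lt hcon)
    rw [dist_eq_norm] at hyb
    have h1 := hT.dist_le hg hb hi
    rw [← hr] at h1
    have h2 : g.eval T - b = (y - b) - (y - g.eval T) := by ring
    have h3 : ‖g.eval T - b‖ ≤ max ‖y - b‖ ‖y - g.eval T‖ := by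
      rw [h2, sub_eq_add_neg]
      refine (IsUltrametricDist.norm_add_le_max _ _).trans ?_
      rw [norm_neg]
    rcases le_max_iff.1 (h1.trans h3) with h4 | h4
    · exact absurd h4 (not_le.2 hyb)
    · linarith
  -- step 3
  have hlt : ∀ i, 1 ≤ i → (∀ h, i ≠ p ^ h) → ‖(hasseDeriv i g).eval T‖ * r ^ i < r := by
    intro i hi hnp
    by_cases h0 : (hasseDeriv i g).eval T = 0
    · rw [h0, norm_zero, zero_mul]
      exact hr0
    obtain ⟨v, j, hj, hij⟩ := Nat.exists_eq_pow_mul_and_not_dvd (by omega : i ≠ 0) p hp.ne_one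
    have hj0 : j ≠ 0 := by
      rintro rfl
      exact hj (dvd_zero p)
    have hj1 : j ≠ 1 := by
      rintro rfl
      exact hnp v (by rw [hij, mul_one])
    have hq0 : 1 ≤ p ^ v := Nat.one_le_pow _ _ hp.pos
    have hqi : p ^ v < i := by
      rw [hij]
      calc p ^ v = p ^ v * 1 := (mul_one _).symm
        _ < p ^ v * j := Nat.mul_lt_mul_of_pos_left (by omega) hq0
    have h1 := hT.kaplansky hg hqi (by
      have := norm_natCast_eq_one (Ω := Ω) (choose_not_dvd (p := p) hj v)
      rw [hij]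
      exact this) h0
    rw [← hr] at h1
    have h2 := hle (p ^ v) hq0
    calc ‖(hasseDeriv i g).eval T‖ * r ^ i
        = (‖(hasseDeriv i g).eval T‖ * r ^ (i - p ^ v)) * r ^ (p ^ v) := by
          rw [mul_assoc, ← pow_add, Nat.sub_add_cancel hqi.le]
      _ < ‖(hasseDeriv (p ^ v) g).eval T‖ * r ^ (p ^ v) :=
          mul_lt_mul_of_pos_right h1 (pow_pos hr0 _)
      _ ≤ r := h2
  -- choice of `a`
  set N := g.natDegree with hN
  have hρ : ∃ ρ > r, ∀ i ∈ Finset.range (N + 1), (∀ a : Ω, ‖T - a‖ < ρ →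
      ‖(hasseDeriv i g).eval a‖ = ‖(hasseDeriv i g).eval T‖) ∧
      (1 ≤ i → (∀ h, i ≠ p ^ h) → ∀ σ : ℝ, 0 ≤ σ → σ < ρ →
        ‖(hasseDeriv i g).eval T‖ * σ ^ i < r) := by
    have hone : ∀ i, ∃ ρ > r, (∀ a : Ω, ‖T - a‖ < ρ →
      ‖(hasseDeriv i g).eval a‖ = ‖(hasseDeriv i g).eval T‖) ∧
      (1 ≤ i → (∀ h, i ≠ p ^ h) → ∀ σ : ℝ, 0 ≤ σ → σ < ρ →
        ‖(hasseDeriv i g).eval T‖ * σ ^ i < r) := by
      intro i
      obtain ⟨ρ1, h1, h2⟩ := hT.ec (hcoef i)
      by_cases h3 : 1 ≤ i ∧ ∀ h, i ≠ p ^ h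
      · have h4 := hlt i h3.1 h3.2
        have hcont : Filter.Tendsto (fun σ : ℝ => ‖(hasseDeriv i g).eval T‖ * σ ^ i)
            (nhds r) (nhds (‖(hasseDeriv i g).eval T‖ * r ^ i)) := by
          apply Continuous.tendsto
          fun_prop
        have h5 := hcont.eventually (gt_mem_nhds h4)
        rw [Metric.eventually_nhds_iff] at h5
        obtain ⟨ε, hε, h6⟩ := h5
        refine ⟨min ρ1 (r + ε), lt_min h1 (by linarith), ?_, ?_⟩
        · intro a ha
          exact h2 a (ha.trans_le (min_le_left _ _))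
        · intro _ _ σ hσ0 hσ
          have h7 : σ < r + ε := hσ.trans_le (min_le_right _ _)
          rcases le_or_gt r σ with h8 | h8
          · apply h6
            rw [Real.dist_eq, abs_of_nonneg (by linarith)]
            linarith
          · refine lt_of_le_of_lt ?_ h4
            gcongr
      · refine ⟨ρ1, h1, h2, fun h5 h6 => absurd ⟨h5, h6⟩ h3⟩
    choose ρ h1 h2 using hone
    have hne : (Finset.range (N + 1)).Nonempty := ⟨0, Finset.mem_range.2 (Nat.succ_pos N)⟩
    refine ⟨(Finset.range (N + 1)).inf' hne ρ, ?_, ?_⟩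
    · rw [gt_iff_lt, Finset.lt_inf'_iff]
      intro i _
      exact h1 i
    · intro i hi
      have h3 : (Finset.range (N + 1)).inf' hne ρ ≤ ρ i := Finset.inf'_le _ hi
      refine ⟨fun a ha => (h2 i).1 a (ha.trans_le h3), fun h4 h5 σ hσ0 hσ => ?_⟩
      exact (h2 i).2 h4 h5 σ hσ0 (hσ.trans_le h3)
  obtain ⟨ρ, hρr, hρ⟩ := hρ
  obtain ⟨a, haF, haρ, har⟩ := hT.exists_near hρr
  have hbig : ∀ i, N < i → hasseDeriv i g = 0 := fun i hi => hasseDeriv_eq_zero_of_lt_natDegree g i hi
  have heq : ∀ i, ‖(hasseDeriv i g).eval a‖ = ‖(hasseDeriv i g).eval T‖ := by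
    intro i
    rcases le_or_gt i N with h | h
    · exact (hρ i (Finset.mem_range.2 (by omega))).1 a haρ
    · rw [hbig i h]
      simp
  have hsmall : ∀ i, 1 ≤ i → (∀ h, i ≠ p ^ h) →
      ‖(hasseDeriv i g).eval a * (T - a) ^ i‖ < r := by
    intro i hi hnp
    rw [norm_mul, norm_pow, heq]
    rcases le_or_gt i N with h | h
    · exact (hρ i (Finset.mem_range.2 (by omega))).2 hi hnp _ (norm_nonneg _) haρ
    · rw [hbig i h]
      simpa using hr0
  -- the Taylor expansion at `a`
  have hNH : N < p ^ N := Nat.lt_pow_self hp.one_lt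
  have htay : g.eval T = ∑ i ∈ Finset.range (p ^ N + 1), (hasseDeriv i g).eval a * (T - a) ^ i := by
    have h1 : g.eval T = (taylor a g).eval (T - a) := by rw [taylor_eval, sub_add_cancel]
    rw [h1, eval_eq_sum_range' (n := p ^ N + 1) (by rw [natDegree_taylor]; omega)]
    refine Finset.sum_congr rfl (fun i _ => ?_)
    rw [taylor_coeff]
  have hinj : Set.InjOn (fun h : ℕ => p ^ h) (Finset.range (N + 1) : Set ℕ) :=
    fun x _ y _ hxy => Nat.pow_right_injective hp.two_le hxy
  refine ⟨g.eval a - ∑ h ∈ Finset.range (N + 1), (hasseDeriv (p ^ h) g).eval a * a ^ p ^ h, ?_, N,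
    fun h => (hasseDeriv (p ^ h) g).eval a, ?_, ?_, ?_⟩
  · exact F.sub_mem (hevalF g hg a haF) (F.sum_mem (fun h _ =>
      F.mul_mem (hevalF _ (hcoef _) a haF) (F.pow_mem haF _)))
  · intro h
    exact hevalF _ (hcoef _) a haF
  · intro h
    rw [heq]
    exact hle _ (Nat.one_le_pow _ _ hp.pos)
  · have hsplit : g.eval T = g.eval a +
        ∑ h ∈ Finset.range (N + 1), (hasseDeriv (p ^ h) g).eval a * (T - a) ^ p ^ h +
        ∑ i ∈ (Finset.range (p ^ N + 1)).filter (fun i => 1 ≤ i ∧ ∀ h, i ≠ p ^ h),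
          (hasseDeriv i g).eval a * (T - a) ^ i := by
      rw [htay]
      have h1 : Finset.range (p ^ N + 1) =
          insert 0 ((Finset.range (N + 1)).image (fun h => p ^ h) ∪
            (Finset.range (p ^ N + 1)).filter (fun i => 1 ≤ i ∧ ∀ h, i ≠ p ^ h)) := by
        ext i
        simp only [Finset.mem_insert, Finset.mem_union, Finset.mem_image, Finset.mem_range,
          Finset.mem_filter]
        constructor
        · intro hi
          by_cases hi0 : i = 0
          · exact Or.inl hi0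
          right
          by_cases hip : ∃ h, i = p ^ h
          · obtain ⟨h, rfl⟩ := hip
            left
            refine ⟨h, ?_, rfl⟩
            have h2 : p ^ h ≤ p ^ N := by omega
            have h3 := (Nat.pow_le_pow_iff_right hp.one_lt).1 h2
            omega
          · right
            push Not at hip
            exact ⟨hi, by omega, hip⟩
        · rintro (h0 | ⟨h, hh, rfl⟩ | ⟨h, -⟩)
          · omega
          · have h3 : p ^ h ≤ p ^ N := Nat.pow_le_pow_right hp.pos (by omega)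
            omega
          · exact h
      rw [h1, Finset.sum_insert, Finset.sum_union, Finset.sum_image hinj]
      · rw [← h1]
        simp only [hasseDeriv_zero, LinearMap.id_coe, id_eq, pow_zero, mul_one]
        ring
      · rw [Finset.disjoint_left]
        intro i hi hi2
        simp only [Finset.mem_image, Finset.mem_filter] at hi hi2
        obtain ⟨h, -, rfl⟩ := hi
        exact hi2.2.2 h rfl
      · simp only [Finset.mem_union, Finset.mem_image, Finset.mem_filter, not_or]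
        refine ⟨?_, ?_⟩
        · rintro ⟨h, -, h2⟩
          exact (pow_ne_zero h hp.ne_zero) h2
        · rintro ⟨-, h2, -⟩
          omega
    have hfin : y - (g.eval a - ∑ h ∈ Finset.range (N + 1),
        (hasseDeriv (p ^ h) g).eval a * a ^ p ^ h) -
        ∑ h ∈ Finset.range (N + 1), (hasseDeriv (p ^ h) g).eval a * T ^ p ^ h =
        (y - g.eval T) + ∑ i ∈ (Finset.range (p ^ N + 1)).filter (fun i => 1 ≤ i ∧ ∀ h, i ≠ p ^ h),
          (hasseDeriv i g).eval a * (T - a) ^ i := by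
      have h1 : ∑ h ∈ Finset.range (N + 1), (hasseDeriv (p ^ h) g).eval a * (T - a) ^ p ^ h =
          ∑ h ∈ Finset.range (N + 1), (hasseDeriv (p ^ h) g).eval a * T ^ p ^ h -
          ∑ h ∈ Finset.range (N + 1), (hasseDeriv (p ^ h) g).eval a * a ^ p ^ h := by
        rw [← Finset.sum_sub_distrib]
        refine Finset.sum_congr rfl (fun h _ => ?_)
        rw [sub_pow_char_pow, mul_sub]
      rw [h1] at hsplit
      linear_combination hsplit
    rw [hfin]
    refine (IsUltrametricDist.norm_add_le_max _ _).trans_lt (max_lt hyg ?_)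
    refine sum_lt _ _ hr0 (fun i hi => ?_)
    rw [Finset.mem_filter] at hi
    exact hsmall i hi.2.1 hi.2.2

end MP1a953e
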