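import Pool.Agent.Lib.MP_1a953e_ag.Defs

/-!
# Module Lin2: completeness, transitivity
-/

namespace MP1a953e

open Polynomial

variable {Ω : Type*} [NormedField Ω]

/-- LIN4.  A finite orthogonal extension of a complete field is complete (coordinates of a Cauchy
sequence are Cauchy sequences). -/
theorem OrthBasis.complete {F F' : Subfield Ω} {d : ℕ} {θ : Fin (d + 1) → Ω}
    (h : OrthBasis F F' θ) (hF : IsComplete (F : Set Ω)) : IsComplete (F' : Set Ω) := by
  rw [← completeSpace_coe_iff_isComplete]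
  have hFc : CompleteSpace (F : Set Ω) := completeSpace_coe_iff_isComplete.2 hF
  refine Metric.complete_of_cauchySeq_tendsto fun u hu => ?_
  choose c hc hcu using fun n => h.span (u n).1 (u n).2
  have hcau : ∀ i, CauchySeq fun n => (⟨c n i, hc n i⟩ : (F : Set Ω)) := by
    intro i
    have hθ : 0 < ‖θ i‖ := norm_pos_iff.2 (h.ne i)
    rw [Metric.cauchySeq_iff] at hu ⊢
    intro ε hε
    obtain ⟨N, hN⟩ := hu (ε * ‖θ i‖) (mul_pos hε hθ)
    refine ⟨N, fun m hm n hn => ?_⟩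
    have h1 := hN m hm n hn
    rw [Subtype.dist_eq, dist_eq_norm] at h1 ⊢
    have h2 := h.orth (fun j => c m j - c n j) (fun j => F.sub_mem (hc m j) (hc n j)) i
    have h3 : ∑ j, (c m j - c n j) * θ j = (u m).1 - (u n).1 := by
      rw [hcu m, hcu n, ← Finset.sum_sub_distrib]
      exact Finset.sum_congr rfl fun j _ => sub_mul _ _ _
    rw [h3, norm_mul] at h2
    exact lt_of_mul_lt_mul_right (h2.trans_lt h1) hθ.le
  choose L hL using fun i => cauchySeq_tendsto_of_complete (hcau i)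
  have hmem : ∑ i, (L i).1 * θ i ∈ F' :=
    F'.sum_mem fun i _ => F'.mul_mem (h.le (L i).2) (h.mem i)
  refine ⟨⟨∑ i, (L i).1 * θ i, hmem⟩, ?_⟩
  rw [tendsto_subtype_rng]
  have h4 : Filter.Tendsto (fun n => ∑ i, c n i * θ i) Filter.atTop
      (nhds (∑ i, (L i).1 * θ i)) := by
    refine tendsto_finsetSum _ fun i _ => ?_
    have h5 : Filter.Tendsto (fun n => c n i) Filter.atTop (nhds (L i).1) :=
      (tendsto_subtype_rng.1 (hL i))
    exact h5.mul_const _
  refine h4.congr fun n => (hcu n).symm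

/-- LIN5. -/
theorem Ext.refl (A F : Subfield Ω) : Ext A F A F := by
  have h : ∀ B : Subfield Ω, OrthBasis B B (fun _ : Fin (0 + 1) => (1 : Ω)) := by
    intro B
    refine ⟨le_rfl, rfl, fun _ => B.one_mem, fun _ => one_ne_zero, fun x hx => ?_,
      fun c hc i => ?_⟩
    · exact ⟨fun _ => x, fun _ => hx, by simp⟩
    · have hi : i = 0 := Fin.ext (Nat.lt_one_iff.1 i.2)
      subst hi
      simp
  exact ⟨0, fun _ => 1, h A, h F⟩

private theorem OrthBasis.prod {F F' F'' : Subfield Ω} {d e D : ℕ} {θ : Fin (d + 1) → Ω}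
    {η : Fin (e + 1) → Ω} (h : OrthBasis F F' θ) (h' : OrthBasis F' F'' η)
    (σ : Fin (D + 1) ≃ Fin (d + 1) × Fin (e + 1)) (hσ : σ 0 = (0, 0)) :
    OrthBasis F F'' fun k => θ (σ k).1 * η (σ k).2 := by
  have hsum : ∀ c : Fin (D + 1) → Ω, ∑ k, c k * (θ (σ k).1 * η (σ k).2) =
      ∑ j, (∑ i, c (σ.symm (i, j)) * θ i) * η j := by
    intro c
    have h1 : ∑ k, c k * (θ (σ k).1 * η (σ k).2) =
        ∑ q : Fin (d + 1) × Fin (e + 1), c (σ.symm q) * (θ q.1 * η q.2) := by
      refine Fintype.sum_equiv σ _ _ fun k => ?_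
      rw [Equiv.symm_apply_apply]
    rw [h1, Fintype.sum_prod_type, Finset.sum_comm]
    refine Finset.sum_congr rfl fun j _ => ?_
    rw [Finset.sum_mul]
    exact Finset.sum_congr rfl fun i _ => (mul_assoc _ _ _).symm
  refine ⟨h.le.trans h'.le, ?_, fun k => ?_, fun k => mul_ne_zero (h.ne _) (h'.ne _),
    fun x hx => ?_, fun c hc k => ?_⟩
  · rw [hσ]
    change θ 0 * η 0 = 1
    rw [h.zero, h'.zero, mul_one]
  · exact F''.mul_mem (h'.le (h.mem _)) (h'.mem _)
  · obtain ⟨c', hc', hx'⟩ := h'.span x hx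
    choose c hc hcs using fun j => h.span (c' j) (hc' j)
    refine ⟨fun k => c (σ k).2 (σ k).1, fun k => hc _ _, ?_⟩
    rw [hsum, hx']
    refine Finset.sum_congr rfl fun j _ => ?_
    rw [hcs j]
    congr 1
    refine Finset.sum_congr rfl fun i _ => ?_
    rw [Equiv.apply_symm_apply]
  · have h1 := h'.orth (fun j => ∑ i, c (σ.symm (i, j)) * θ i)
      (fun j => F'.sum_mem fun i _ => F'.mul_mem (h.le (hc _)) (h.mem i)) (σ k).2
    rw [← hsum] at h1
    have h2 := h.orth (fun i => c (σ.symm (i, (σ k).2))) (fun i => hc _) (σ k).1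
    have h3 : σ.symm ((σ k).1, (σ k).2) = k := σ.symm_apply_apply k
    rw [h3] at h2
    refine le_trans ?_ h1
    rw [norm_mul, norm_mul, ← mul_assoc, ← norm_mul (c k), norm_mul (∑ i, _)]
    exact mul_le_mul_of_nonneg_right h2 (norm_nonneg _)

/-- LIN6.  Products `θ i * η j`, indexed by `Fin (d+1) × Fin (e+1) ≃ Fin ((d+1)*(e+1)-1+1)` with
`(0,0) ↦ 0`. -/
theorem Ext.trans {A F A' F' A'' F'' : Subfield Ω} (h : Ext A F A' F') (h' : Ext A' F' A'' F'') :
    Ext A F A'' F'' := by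
  obtain ⟨d, θ, h1, h2⟩ := h
  obtain ⟨e, η, h3, h4⟩ := h'
  have hD : (d + 1) * (e + 1) - 1 + 1 = (d + 1) * (e + 1) :=
    Nat.sub_add_cancel (Nat.mul_pos (Nat.succ_pos _) (Nat.succ_pos _))
  let σ : Fin ((d + 1) * (e + 1) - 1 + 1) ≃ Fin (d + 1) × Fin (e + 1) :=
    (finCongr hD).trans finProdFinEquiv.symm
  have hσ : σ 0 = (0, 0) := by
    rw [← Equiv.eq_symm_apply]
    apply Fin.ext
    change 0 = 0 + (e + 1) * 0
    simp
  exact ⟨_, fun k => θ (σ k).1 * η (σ k).2, h1.prod h3 σ hσ, h2.prod h4 σ hσ⟩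

end MP1a953e
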