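import Pool.Agent.Lib.MP_1a953e_ag.Calc3

/-!
# Module Calc4: generator criterion
-/

namespace MP1a953e

open Polynomial

variable {Ω : Type*} [NormedField Ω] [IsUltrametricDist Ω]

/-- `g T` and `g q` are close -/
private theorem eval_close [IsAlgClosed Ω] {F : Subfield Ω} {T q : Ω} (hT : TT F T)
    {θ : ℝ} (h0 : 0 ≤ θ) (h1 : θ < 1) (hTq : ‖T - q‖ ≤ θ * Metric.infDist T (F : Set Ω))
    {g : Polynomial Ω} (hg : Coeffs F g) : ‖g.eval T - g.eval q‖ ≤ θ * ‖g.eval T‖ := by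
  have hr := hT.pos
  have e1 : g.eval q = ∑ i ∈ Finset.range ((taylor T g).natDegree + 1),
      (hasseDeriv i g).eval T * (q - T) ^ i := by
    have h2 : (taylor T g).eval (q - T) = g.eval q := by
      rw [taylor_eval]
      congr 1
      ring
    rw [← h2, eval_eq_sum_range]
    refine Finset.sum_congr rfl fun i _ => ?_
    rw [taylor_coeff]
  rw [Finset.sum_range_succ'] at e1
  have e2 : g.eval T - g.eval q =
      -∑ i ∈ Finset.range (taylor T g).natDegree,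
        (hasseDeriv (i + 1) g).eval T * (q - T) ^ (i + 1) := by
    rw [e1, hasseDeriv_zero]
    simp
  rw [e2, norm_neg]
  refine IsUltrametricDist.norm_sum_le_of_forall_le_of_nonneg (by positivity) fun i _ => ?_
  rw [norm_mul, norm_pow, norm_sub_rev]
  have h3 := hT.dist_le hg F.zero_mem (i := i + 1) (by omega)
  rw [sub_zero] at h3
  have h4 : ‖T - q‖ ^ (i + 1) ≤ θ ^ (i + 1) * Metric.infDist T (F : Set Ω) ^ (i + 1) := by
    rw [← mul_pow]
    exact pow_le_pow_left₀ (norm_nonneg _) hTq _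
  have h5 : θ ^ (i + 1) ≤ θ := by
    calc θ ^ (i + 1) ≤ θ ^ 1 := pow_le_pow_of_le_one h0 h1.le (by omega)
      _ = θ := pow_one θ
  calc ‖(hasseDeriv (i + 1) g).eval T‖ * ‖T - q‖ ^ (i + 1)
      ≤ ‖(hasseDeriv (i + 1) g).eval T‖ *
        (θ ^ (i + 1) * Metric.infDist T (F : Set Ω) ^ (i + 1)) :=
        mul_le_mul_of_nonneg_left h4 (norm_nonneg _)
    _ = θ ^ (i + 1) * (‖(hasseDeriv (i + 1) g).eval T‖ *
        Metric.infDist T (F : Set Ω) ^ (i + 1)) := by ring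
    _ ≤ θ ^ (i + 1) * ‖g.eval T‖ := mul_le_mul_of_nonneg_left h3 (pow_nonneg h0 _)
    _ ≤ θ * ‖g.eval T‖ := mul_le_mul_of_nonneg_right h5 (norm_nonneg _)

/-- CAL10 (generator criterion).  If `q ∈ K` and `‖T - q‖ < r`, then `F(q)` is dense in `K`, if `F(T)`
is.  Proof: let `θ = max (‖T - q‖ / r) (1/2) < 1`. For `0 ≠ x ∈ K` there is a polynomial `g` over `F`
with `‖x - g T‖ < θ * ‖x‖` (density and `TT.poly_dense`), so `‖g T‖ = ‖x‖` and
`‖g T - g q‖ = ‖∑_{i ≥ 1} (hasseDeriv i g) T * (q - T) ^ i‖ ≤ max γ i * r ^ i * θ ^ i ≤ θ * ‖g T‖` by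
`TT.dist_le` with `b = 0`. So `x` is approximated by `g q ∈ adj F q` up to `θ * ‖x‖`; iterate
with `x - g q ∈ K`. -/
theorem TT.gc [IsAlgClosed Ω] {F K : Subfield Ω} {T q : Ω} (hT : TT F T)
    (hd : DenseIn (adj F T) K) (hq : q ∈ K) (hTq : ‖T - q‖ < Metric.infDist T (F : Set Ω)) :
    DenseIn (adj F q) K := by
  have hr := hT.pos
  have hFK : F ≤ K := (le_adj F T).trans hd.1
  have hqK : adj F q ≤ K := adj_le hFK hq
  set r := Metric.infDist T (F : Set Ω) with hrdef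
  set θ : ℝ := max (‖T - q‖ / r) (1 / 2) with hθ
  have hθ1 : θ < 1 := by
    rw [hθ, max_lt_iff]
    exact ⟨(div_lt_one hr).2 hTq, by norm_num⟩
  have hθ2 : 1 / 2 ≤ θ := le_max_right _ _
  have hθ0 : 0 < θ := by linarith
  have hTq' : ‖T - q‖ ≤ θ * r := by
    have h := le_max_left (‖T - q‖ / r) (1 / 2)
    rw [← hθ, div_le_iff₀ hr] at h
    exact h
  have step : ∀ x ∈ K, ∃ a ∈ adj F q, ‖x - a‖ ≤ θ * ‖x‖ := by
    intro x hx
    by_cases hx0 : x = 0
    · exact ⟨0, (adj F q).zero_mem, by simp [hx0]⟩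
    have hxp : 0 < ‖x‖ := norm_pos_iff.2 hx0
    obtain ⟨y, hy, hxy⟩ := hd.2 x hx (θ * ‖x‖) (by positivity)
    obtain ⟨g, hg, hyg⟩ := hT.poly_dense hy (ε := θ * ‖x‖) (by positivity)
    have h1 : ‖x - g.eval T‖ < θ * ‖x‖ := by
      have h2 : x - g.eval T = (x - y) + (y - g.eval T) := by ring
      rw [h2]
      exact (IsUltrametricDist.norm_add_le_max _ _).trans_lt (max_lt hxy hyg)
    have h3 : ‖g.eval T‖ ≤ ‖x‖ := by
      have h4 : g.eval T = x - (x - g.eval T) := by ring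
      rw [h4]
      rw [sub_eq_add_neg]
      refine (IsUltrametricDist.norm_add_le_max _ _).trans (max_le le_rfl ?_)
      rw [norm_neg]
      refine h1.le.trans ?_
      have := mul_le_mul_of_nonneg_right hθ1.le hxp.le
      linarith
    refine ⟨g.eval q, ?_, ?_⟩
    · rw [eval_eq_sum_range]
      exact (adj F q).sum_mem fun i _ => (adj F q).mul_mem (le_adj F q (hg i))
        ((adj F q).pow_mem (mem_adj_self F q) i)
    · have h5 := eval_close hT hθ0.le hθ1 hTq' hg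
      have h6 : x - g.eval q = (x - g.eval T) + (g.eval T - g.eval q) := by ring
      rw [h6]
      refine (IsUltrametricDist.norm_add_le_max _ _).trans (max_le h1.le (h5.trans ?_))
      exact mul_le_mul_of_nonneg_left h3 hθ0.le
  have iter : ∀ n : ℕ, ∀ x ∈ K, ∃ a ∈ adj F q, ‖x - a‖ ≤ θ ^ n * ‖x‖ := by
    intro n
    induction n with
    | zero => exact fun x _ => ⟨0, (adj F q).zero_mem, by simp⟩
    | succ n ih =>
      intro x hx
      obtain ⟨a, ha, hxa⟩ := ih x hx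
      obtain ⟨b, hb, hxb⟩ := step (x - a) (K.sub_mem hx (hqK ha))
      refine ⟨a + b, (adj F q).add_mem ha hb, ?_⟩
      have h7 : x - (a + b) = x - a - b := by ring
      rw [h7]
      refine hxb.trans ?_
      calc θ * ‖x - a‖ ≤ θ * (θ ^ n * ‖x‖) := mul_le_mul_of_nonneg_left hxa hθ0.le
        _ = θ ^ (n + 1) * ‖x‖ := by ring
  refine ⟨hqK, fun x hx ε hε => ?_⟩
  obtain ⟨n, hn⟩ : ∃ n : ℕ, θ ^ n * ‖x‖ < ε := by
    obtain ⟨n, hn⟩ := exists_pow_lt_of_lt_one (show 0 < ε / (‖x‖ + 1) by positivity) hθ1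
    refine ⟨n, ?_⟩
    rw [lt_div_iff₀ (by positivity)] at hn
    have : 0 ≤ θ ^ n := by positivity
    nlinarith
  obtain ⟨a, ha, hxa⟩ := iter n x hx
  exact ⟨a, ha, hxa.trans_lt hn⟩

end MP1a953e
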