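import Pool.Agent.Lib.MP_1a953e_ag.Defs

/-!
# Module Lin4: finite extensions of complete fields are complete
-/

namespace MP1a953e

open Polynomial

variable {Ω : Type*} [NormedField Ω]

theorem mem_adj_iff (K : Subfield Ω) (z x : Ω) :
    x ∈ adj K z ↔ x ∈ IntermediateField.adjoin K ({z} : Set Ω) := by
  constructor
  · intro hx
    have hle : adj K z ≤ (IntermediateField.adjoin K ({z} : Set Ω)).toSubfield := by
      refine adj_le ?_ ?_
      · intro y hy
        exact (IntermediateField.adjoin K ({z} : Set Ω)).algebraMap_mem ⟨y, hy⟩
      · exact IntermediateField.subset_adjoin K ({z} : Set Ω) rfl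
    exact hle hx
  · intro hx
    have hx' : x ∈ (IntermediateField.adjoin K ({z} : Set Ω)).toSubfield := hx
    rw [IntermediateField.adjoin_toSubfield] at hx'
    refine (Subfield.closure_le.2 ?_) hx'
    rintro y (⟨a, rfl⟩ | hy)
    · exact le_adj K z a.2
    · rw [Set.mem_singleton_iff.1 hy]
      exact mem_adj_self K z

/-- LIN12.  A finite extension of a complete field (nontrivially normed) is complete.
Mathlib: `FiniteDimensional.complete`, for `K⟮z⟯` with the norm induced from `Ω`. -/
theorem complete_adj [IsUltrametricDist Ω] {K : Subfield Ω} (hK : IsComplete (K : Set Ω))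
    (hnt : ∃ x ∈ K, 1 < ‖x‖) {z : Ω} (hz : IsAlgebraic K z) : IsComplete (adj K z : Set Ω) := by
  let _ : NontriviallyNormedField K :=
    { (inferInstance : NormedField K) with
      non_trivial := by
        obtain ⟨x, hx, h1⟩ := hnt
        exact ⟨⟨x, hx⟩, h1⟩ }
  have : CompleteSpace K := hK.completeSpace_coe
  have : FiniteDimensional K (IntermediateField.adjoin K ({z} : Set Ω)) :=
    IntermediateField.adjoin.finiteDimensional hz.isIntegral
  have h := Submodule.complete_of_finiteDimensional
    (Subalgebra.toSubmodule (IntermediateField.adjoin K ({z} : Set Ω)).toSubalgebra)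
  have h2 : (adj K z : Set Ω) =
      (Subalgebra.toSubmodule (IntermediateField.adjoin K ({z} : Set Ω)).toSubalgebra :
        Set Ω) := by
    ext x
    exact mem_adj_iff K z x
  rw [h2]
  exact h

end MP1a953e
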