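import Pool.Agent.Lib.MP_1a953e_ag.EmbDefs
import Pool.Agent.Lib.MP_1a953e_ag.Lin4

/-!
# Module Em9: the field P0
-/

namespace MP1a953e

open Polynomial IsLocalRing

universe v w

private lemma em9_complete {Ω : Type*} [UniformSpace Ω] {K P : Set Ω} (hK : IsComplete K)
    (hP : IsClosed P) (h : P ⊆ K) : IsComplete P := by
  intro f hf hfP
  obtain ⟨x, -, hx⟩ := hK f hf (hfP.trans (Filter.principal_mono.2 h))
  refine ⟨x, ?_, hx⟩
  rw [← hP.closure_eq, mem_closure_iff_clusterPt]
  have := hf.1
  exact Filter.NeBot.mono this (le_inf hx hfP)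

/-- EM9 (the field `P₀`).  `P₀` is the closure of `F(ι T)` in `K`. `L` is finite separable over
`k(u, T)`, so `E = P₀(ι l₁, …, ι l_s)` is finite separable over `P₀`, hence complete and closed
(`FiniteDimensional.complete`); it contains `ι L`, so `E = K`. -/
theorem exists_P₀ {k L Ω : Type*} [NontriviallyNormedField k]
    [IsUltrametricDist k] [NormedField L] [IsUltrametricDist L] [NormedAlgebra k L]
    [NormedField Ω] [IsUltrametricDist Ω] {ι : L →+* Ω} {K F : Subfield Ω} (hE : Emb ι K)
    (hkF : kO k ι ≤ F) (hFK : F ≤ K) {m : ℕ} (u : Fin m → L) (hu : ∀ i, ι (u i) ∈ F) (T : L)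
    (hT : Algebra.IsSeparable (IntermediateField.adjoin k (Set.range u ∪ {T})) L)
    (hfg : (⊤ : IntermediateField k L).FG) :
    ∃ P₀ : Subfield Ω, IsComplete (P₀ : Set Ω) ∧ DenseIn (adj F (ι T)) P₀ ∧ P₀ ≤ K ∧
      ∃ E : IntermediateField P₀ Ω, FiniteDimensional P₀ E ∧ Algebra.IsSeparable P₀ E ∧
        E.toSubfield = K := by
  classical
  have hKc : IsClosed (K : Set Ω) := hE.complete.isClosed
  have hadjK : adj F (ι T) ≤ K := adj_le hFK (hE.mem T)
  set P₀ : Subfield Ω := (adj F (ι T)).topologicalClosure with hP₀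
  have hP₀K : P₀ ≤ K := Subfield.topologicalClosure_minimal _ hadjK hKc
  have hP₀c : IsComplete (P₀ : Set Ω) :=
    em9_complete hE.complete (Subfield.isClosed_topologicalClosure _) hP₀K
  have hle : adj F (ι T) ≤ P₀ := Subfield.le_topologicalClosure _
  have hdense : DenseIn (adj F (ι T)) P₀ := by
    refine ⟨hle, fun x hx ε hε => ?_⟩
    have hx' : x ∈ closure (adj F (ι T) : Set Ω) := hx
    obtain ⟨a, ha, hda⟩ := Metric.mem_closure_iff.1 hx' ε hε
    exact ⟨a, ha, by rwa [dist_eq_norm] at hda⟩
  have hkP : ∀ c : k, ι (algebraMap k L c) ∈ P₀ := by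
    intro c
    apply hle
    apply le_adj
    apply hkF
    exact ⟨c, rfl⟩
  -- the subfield of elements mapping into `P₀`
  set M : IntermediateField k L := IntermediateField.adjoin k (Set.range u ∪ {T}) with hM
  have hMP : ∀ x ∈ M, ι x ∈ P₀ := by
    let Q : IntermediateField k L :=
      { P₀.comap ι with
        algebraMap_mem' := fun c => hkP c }
    have hMQ : M ≤ Q := by
      rw [hM, IntermediateField.adjoin_le_iff]
      rintro x (⟨i, rfl⟩ | hx)
      · exact hle (le_adj _ _ (hu i))
      · rw [Set.mem_singleton_iff.1 hx]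
        exact hle (mem_adj_self _ _)
    intro x hx
    exact hMQ hx
  let ιM : M →+* P₀ := (ι.comp (algebraMap M L)).codRestrict P₀ (fun x => hMP x.1 x.2)
  have hcomp : (algebraMap P₀ Ω).comp ιM = ι.comp (algebraMap M L) := by
    ext x
    rfl
  have hsep : ∀ l : L, IsSeparable P₀ (ι l) := by
    intro l
    have h1 : IsSeparable M l := Algebra.IsSeparable.isSeparable M l
    have h2 : ((minpoly M l).map ιM).Separable := Polynomial.Separable.map h1
    have h3 : Polynomial.aeval (ι l) ((minpoly M l).map ιM) = 0 := by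
      rw [Polynomial.aeval_def, Polynomial.eval₂_map, hcomp, ← Polynomial.hom_eval₂,
        ← Polynomial.aeval_def, minpoly.aeval, map_zero]
    exact Polynomial.Separable.of_dvd h2 (minpoly.dvd P₀ (ι l) h3)
  obtain ⟨s, hsfin, hs⟩ := IntermediateField.fg_def.1 hfg
  set E : IntermediateField P₀ Ω := IntermediateField.adjoin P₀ (ι '' s) with hEdef
  have hfinS : Finite ↑(ι '' s) := (hsfin.image ι).to_subtype
  have hEfin : FiniteDimensional P₀ E := by
    apply IntermediateField.finiteDimensional_adjoin
    rintro x ⟨l, -, rfl⟩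
    exact (hsep l).isIntegral
  have hEsep : Algebra.IsSeparable P₀ E := by
    rw [hEdef, IntermediateField.isSeparable_adjoin_iff_isSeparable]
    rintro x ⟨l, -, rfl⟩
    exact hsep l
  refine ⟨P₀, hP₀c, hdense, hP₀K, E, hEfin, hEsep, ?_⟩
  -- `E` is closed
  have hEc : IsClosed (E.toSubfield : Set Ω) := by
    obtain ⟨c, hc⟩ := NontriviallyNormedField.non_trivial (α := k)
    let _ : NontriviallyNormedField P₀ :=
      { (inferInstance : NormedField P₀) with
        non_trivial := by
          refine ⟨⟨ι (algebraMap k L c), hkP c⟩, ?_⟩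
          change 1 < ‖ι (algebraMap k L c)‖
          rw [hE.norm, norm_algebraMap']
          exact hc }
    have : CompleteSpace P₀ := hP₀c.completeSpace_coe
    have h := Submodule.complete_of_finiteDimensional
      (Subalgebra.toSubmodule E.toSubalgebra)
    exact h.isClosed
  have hιE : ∀ x : L, ι x ∈ E.toSubfield := by
    let Q : IntermediateField k L :=
      { E.toSubfield.comap ι with
        algebraMap_mem' := fun c => by
          have : ι (algebraMap k L c) = algebraMap P₀ Ω ⟨_, hkP c⟩ := rfl
          change ι (algebraMap k L c) ∈ E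
          rw [this]
          exact E.algebraMap_mem _ }
    have hsQ : (⊤ : IntermediateField k L) ≤ Q := by
      rw [← hs, IntermediateField.adjoin_le_iff]
      intro l hl
      exact IntermediateField.subset_adjoin P₀ (ι '' s) ⟨l, hl, rfl⟩
    intro x
    exact hsQ (IntermediateField.mem_top (x := x))
  apply le_antisymm
  · intro x hx
    have hKE : E.toSubfield ≤ K := by
      rw [hEdef, IntermediateField.adjoin_toSubfield, Subfield.closure_le]
      rintro y (⟨a, rfl⟩ | ⟨l, -, rfl⟩)
      · exact hP₀K a.2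
      · exact hE.mem l
    exact hKE hx
  · intro y hy
    have hcl : y ∈ closure (E.toSubfield : Set Ω) := by
      rw [Metric.mem_closure_iff]
      intro ε hε
      obtain ⟨x, hx⟩ := hE.dense y hy ε hε
      exact ⟨ι x, hιE x, by rwa [dist_eq_norm]⟩
    rw [hEc.closure_eq] at hcl
    exact hcl

end MP1a953e
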