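import Pool.Agent.Lib.MP_1a953e_ag.DImmA

/-!
# Module DImmB: immediacy over the constants
-/

namespace MP1a953e

open Polynomial

variable {Ω : Type*} [NormedField Ω] [IsUltrametricDist Ω]

/-- coefficients of a monic polynomial all of whose roots have norm `≤ B` -/
private theorem immb_coeff_prod_le {B : ℝ} (hB : 0 ≤ B) (s : Multiset Ω) (hs : ∀ c ∈ s, ‖c‖ ≤ B) :
    ∀ i : ℕ, ‖((s.map fun c => (X - C c : Polynomial Ω)).prod).coeff i‖ * B ^ i ≤
      B ^ Multiset.card s := by
  induction s using Multiset.induction with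
  | empty =>
    intro i
    simp only [Multiset.map_zero, Multiset.prod_zero, Multiset.card_zero, pow_zero]
    rw [coeff_one]
    by_cases hi : i = 0
    · simp [hi]
    · simp [hi]
  | cons c s ih =>
    have ih' := ih (fun c hc => hs c (Multiset.mem_cons_of_mem hc))
    have hc : ‖c‖ ≤ B := hs c (Multiset.mem_cons_self c s)
    intro i
    simp only [Multiset.map_cons, Multiset.prod_cons, Multiset.card_cons]
    set P : Polynomial Ω := (s.map fun c => (X - C c : Polynomial Ω)).prod with hP
    have key : ‖((X - C c) * P).coeff i‖ ≤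
        max (if i = 0 then 0 else ‖P.coeff (i - 1)‖) (‖c‖ * ‖P.coeff i‖) := by
      rw [sub_mul, coeff_sub, coeff_C_mul, sub_eq_add_neg]
      refine (IsUltrametricDist.norm_add_le_max _ _).trans (max_le_max ?_ ?_)
      · rcases i with _ | i
        · simp
        · simp [coeff_X_mul]
      · rw [norm_neg, norm_mul]
    refine (mul_le_mul_of_nonneg_right key (pow_nonneg hB i)).trans ?_
    rw [max_mul_of_nonneg _ _ (pow_nonneg hB i)]
    refine max_le ?_ ?_
    · rcases i with _ | i
      · simp only [if_true, zero_mul]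
        positivity
      · simp only [Nat.succ_ne_zero, if_false, Nat.add_sub_cancel]
        calc ‖P.coeff i‖ * B ^ (i + 1) = (‖P.coeff i‖ * B ^ i) * B := by ring
          _ ≤ B ^ Multiset.card s * B := mul_le_mul_of_nonneg_right (ih' i) hB
          _ = B ^ (Multiset.card s + 1) := by ring
    · calc ‖c‖ * ‖P.coeff i‖ * B ^ i = ‖c‖ * (‖P.coeff i‖ * B ^ i) := by ring
        _ ≤ B * B ^ Multiset.card s := mul_le_mul hc (ih' i) (by positivity) hB
        _ = B ^ (Multiset.card s + 1) := by ring

/-- IM8.  Let `K` be a complete immediate extension of `F ≤ C`, `Ω` algebraic over `K`, `C`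
algebraically closed. Then `Ω` is immediate over `C`.
Proof: let `x ≠ 0` in `Ω`, `P = X ^ n + ∑_{i < n} a i * X ^ i` the minimal polynomial of `x` over `K`.
Its roots in `Ω` all have norm `‖x‖` (`norm_eq_of_minpoly_eq`), so `‖a i‖ * ‖x‖ ^ i ≤ ‖x‖ ^ n`. Choose
`b i ∈ F` with `‖a i - b i‖ < ‖a i‖` if `a i ≠ 0` and `b i = 0` otherwise. For
`Q = X ^ n + ∑ b i * X ^ i`, `Q x = Q x - P x = ∑ (b i - a i) * x ^ i` has norm `< ‖x‖ ^ n`
(`n ≥ 1`, `x ≠ 0`). `Q` splits with roots `c ∈ C` (`mem_of_eval_eq_zero`) and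
`‖Q x‖ = ∏ ‖x - c‖ < ‖x‖ ^ n`, so some root satisfies `‖x - c‖ < ‖x‖`. -/
theorem immAll_of_alg [IsAlgClosed Ω] {F K C : Subfield Ω} (hI : Imm F K)
    (hK : IsComplete (K : Set Ω)) (hnt : ∃ x ∈ K, 1 < ‖x‖) (halg : ∀ x : Ω, IsAlgebraic K x)
    (hFC : F ≤ C) (hC : IsAlgClosed C) : ImmAll C := by
  classical
  intro x hx
  have hxpos : 0 < ‖x‖ := norm_pos_iff.2 hx
  have hint : IsIntegral K x := (halg x).isIntegral
  set P : Polynomial Ω := (minpoly K x).map (algebraMap K Ω) with hP
  have hPmonic : P.Monic := (minpoly.monic hint).map _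
  set n := P.natDegree with hn
  have hPK : Coeffs K P := fun i => by
    rw [hP, coeff_map]
    exact ((minpoly K x).coeff i).2
  have hPx : P.eval x = 0 := by
    rw [hP, eval_map_algebraMap]
    exact minpoly.aeval K x
  have hroots : ∀ c ∈ P.roots, ‖c‖ ≤ ‖x‖ := by
    intro c hc
    have h1 : P.eval c = 0 := (mem_roots hPmonic.ne_zero).1 hc
    rw [hP, eval_map_algebraMap] at h1
    have h2 : minpoly K x = minpoly K c :=
      minpoly.eq_of_irreducible_of_monic (minpoly.irreducible hint) h1 (minpoly.monic hint)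
    exact (norm_eq_of_minpoly_eq hK hnt (halg x) h2).symm.le
  have hcard : Multiset.card P.roots = n :=
    (IsAlgClosed.splits P).natDegree_eq_card_roots.symm
  have hfac : P = (P.roots.map fun c => (X - Polynomial.C c : Polynomial Ω)).prod := by
    have h1 := (IsAlgClosed.splits P).eq_prod_roots
    rw [hPmonic.leadingCoeff, Polynomial.C_1, one_mul] at h1
    exact h1
  have hcoef : ∀ i, ‖P.coeff i‖ * ‖x‖ ^ i ≤ ‖x‖ ^ n := by
    intro i
    have h1 := immb_coeff_prod_le (norm_nonneg x) P.roots hroots i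
    rw [← hfac, hcard] at h1
    exact h1
  have hn1 : 1 ≤ n := by
    rw [hn, hP, natDegree_map]
    exact minpoly.natDegree_pos hint
  have happ : ∀ i : ℕ, ∃ c ∈ F, P.coeff i ≠ 0 → ‖P.coeff i - c‖ < ‖P.coeff i‖ := by
    intro i
    by_cases h0 : P.coeff i = 0
    · exact ⟨0, F.zero_mem, fun h => absurd h0 h⟩
    · obtain ⟨c, hc, h1⟩ := hI.2 (P.coeff i) (hPK i) h0
      exact ⟨c, hc, fun _ => h1⟩
  choose b hbF hb using happ
  set R : Polynomial Ω := ∑ i ∈ Finset.range n,
    Polynomial.C (if P.coeff i = 0 then 0 else b i) * X ^ i with hR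
  have hRdeg : R.degree < (n : WithBot ℕ) := by
    rw [degree_lt_iff_coeff_zero]
    intro m hm
    rw [hR, finset_sum_coeff]
    refine Finset.sum_eq_zero fun i hi => ?_
    rw [coeff_C_mul_X_pow, if_neg]
    have h1 := Finset.mem_range.1 hi
    omega
  set Q : Polynomial Ω := X ^ n + R with hQ
  have hQmonic : Q.Monic := monic_X_pow_add hRdeg
  have hQdeg : Q.natDegree = n := by
    rw [hQ, natDegree_add_eq_left_of_degree_lt, natDegree_X_pow]
    rwa [degree_X_pow]
  have hRC : Coeffs C R := by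
    intro k
    rw [hR, finset_sum_coeff]
    refine C.sum_mem fun i _ => ?_
    rw [coeff_C_mul_X_pow]
    split_ifs
    · exact C.zero_mem
    · exact hFC (hbF i)
    · exact C.zero_mem
  have hQC : Coeffs C Q := by
    intro k
    rw [hQ, coeff_add, coeff_X_pow]
    refine C.add_mem ?_ (hRC k)
    split_ifs
    · exact C.one_mem
    · exact C.zero_mem
  have hPx2 : P.eval x = x ^ n + ∑ i ∈ Finset.range n, P.coeff i * x ^ i := by
    rw [eval_eq_sum_range, Finset.sum_range_succ, ← hn, hPmonic.coeff_natDegree, one_mul, add_comm]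
  have hQx : Q.eval x = ∑ i ∈ Finset.range n,
      ((if P.coeff i = 0 then 0 else b i) - P.coeff i) * x ^ i := by
    have h1 : Q.eval x = Q.eval x - P.eval x := by rw [hPx, sub_zero]
    rw [h1, hPx2, hQ, hR, eval_add, eval_pow, eval_X, eval_finset_sum, add_sub_add_left_eq_sub,
      ← Finset.sum_sub_distrib]
    refine Finset.sum_congr rfl fun i _ => ?_
    rw [eval_mul, eval_C, eval_pow, eval_X]
    ring
  have hQlt : ‖Q.eval x‖ < ‖x‖ ^ n := by
    rw [hQx]
    refine Finset.sum_induction _ (fun y => ‖y‖ < ‖x‖ ^ n) ?_ ?_ ?_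
    · intro a c ha hc
      exact lt_of_le_of_lt (IsUltrametricDist.norm_add_le_max _ _) (max_lt ha hc)
    · rw [norm_zero]
      positivity
    · intro i _
      by_cases h0 : P.coeff i = 0
      · rw [if_pos h0, h0, sub_zero, zero_mul, norm_zero]
        positivity
      · rw [if_neg h0, norm_mul, norm_pow, norm_sub_rev]
        exact lt_of_lt_of_le (mul_lt_mul_of_pos_right (hb i h0) (pow_pos hxpos i)) (hcoef i)
  have hQfac : Q.eval x = (Q.roots.map fun c => x - c).prod := by
    have h1 := (IsAlgClosed.splits Q).eq_prod_roots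
    rw [hQmonic.leadingCoeff, Polynomial.C_1, one_mul] at h1
    conv_lhs => rw [h1]
    rw [eval_multiset_prod, Multiset.map_map]
    congr 1
    refine Multiset.map_congr rfl fun c _ => ?_
    simp
  have hQcard : Multiset.card Q.roots = n := by
    rw [← hQdeg]
    exact (IsAlgClosed.splits Q).natDegree_eq_card_roots.symm
  by_contra hcon
  push Not at hcon
  have hall : ∀ c ∈ Q.roots, ‖x‖ ≤ ‖x - c‖ := by
    intro c hc
    refine hcon c (mem_of_eval_eq_zero hC hQC hQmonic.ne_zero ((mem_roots hQmonic.ne_zero).1 hc))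
  have hprod : ∀ s : Multiset Ω, (∀ c ∈ s, ‖x‖ ≤ ‖x - c‖) →
      ‖x‖ ^ Multiset.card s ≤ ‖(s.map fun c => x - c).prod‖ := by
    intro s
    induction s using Multiset.induction with
    | empty => intro _; simp
    | cons c s ih =>
      intro hs
      rw [Multiset.map_cons, Multiset.prod_cons, norm_mul, Multiset.card_cons, pow_succ, mul_comm]
      exact mul_le_mul (hs c (Multiset.mem_cons_self c s))
        (ih fun c hc => hs c (Multiset.mem_cons_of_mem hc)) (by positivity) (norm_nonneg _)
  have h2 := hprod Q.roots hall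
  rw [hQcard, ← hQfac] at h2
  exact absurd hQlt (not_lt.2 h2)

end MP1a953e
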