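import Pool.Agent.Lib.MP_1a953e_ag.DCalc

/-!
# Module DDense: the new generator
-/

namespace MP1a953e

open Polynomial

variable {Ω : Type*} [NormedField Ω] [IsUltrametricDist Ω]

omit [IsUltrametricDist Ω] in
private theorem ddense_coeffs_iff {F : Subfield Ω} {g : Polynomial Ω} :
    Coeffs F g ↔ ∃ g0 : Polynomial F, g0.map F.subtype = g := by
  constructor
  · intro hg
    have hl : g ∈ lifts F.subtype := by
      rw [lifts_iff_coeff_lifts]
      intro n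
      exact ⟨⟨g.coeff n, hg n⟩, rfl⟩
    obtain ⟨q, hq⟩ := (mem_lifts g).1 hl
    exact ⟨q, hq⟩
  · rintro ⟨g0, rfl⟩ i
    rw [coeff_map]
    exact (g0.coeff i).2

omit [IsUltrametricDist Ω] in
private theorem ddense_coeffs_zero {F : Subfield Ω} : Coeffs F (0 : Polynomial Ω) := fun i => by
  rw [coeff_zero]
  exact F.zero_mem

omit [IsUltrametricDist Ω] in
private theorem ddense_coeffs_add {F : Subfield Ω} {g h : Polynomial Ω} (hg : Coeffs F g)
    (hh : Coeffs F h) : Coeffs F (g + h) := fun i => by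
  rw [coeff_add]
  exact F.add_mem (hg i) (hh i)

omit [IsUltrametricDist Ω] in
private theorem ddense_coeffs_comp_mul {F : Subfield Ω} {g h : Polynomial Ω} (hg : Coeffs F g)
    (hh : Coeffs F h) (i : ℕ) : Coeffs F (g.comp h * X ^ i) := by
  obtain ⟨g0, rfl⟩ := ddense_coeffs_iff.1 hg
  obtain ⟨h0, rfl⟩ := ddense_coeffs_iff.1 hh
  refine ddense_coeffs_iff.2 ⟨g0.comp h0 * X ^ i, ?_⟩
  rw [Polynomial.map_mul, Polynomial.map_comp, Polynomial.map_pow, map_X]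

omit [IsUltrametricDist Ω] in
private theorem ddense_coeffs_sum {F : Subfield Ω} {ι : Type*} (s : Finset ι)
    (g : ι → Polynomial Ω) (hg : ∀ i ∈ s, Coeffs F (g i)) : Coeffs F (∑ i ∈ s, g i) := by
  intro j
  rw [finsetSum_coeff]
  exact F.sum_mem fun i hi => hg i hi j

omit [IsUltrametricDist Ω] in
private theorem ddense_eval_mem {F E : Subfield Ω} (hFE : F ≤ E) {g : Polynomial Ω}
    (hg : Coeffs F g) {a : Ω} (ha : a ∈ E) : g.eval a ∈ E := by
  rw [eval_eq_sum_range]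
  exact E.sum_mem fun i _ => E.mul_mem (hFE (hg i)) (E.pow_mem ha _)

/-- DE1.  Let `κ = (ρ / ‖f‖) ^ (p - 1)`, `0 ≤ θ < κ`, `t' = G f` with `‖t - t'‖ ≤ θ * r`. If polynomials
in `t` over `C` are dense in `E` and the powers `f ^ i`, `i < p`, generate `E'` over `E` and are almost
orthogonal with constant `κ`, then polynomials in `f` over `C` are dense in `E'`.
Proof: put `θ' = max (θ / κ) (1 / 2) < 1`. It is enough to find for every `x ∈ E'` a polynomial `q` over `C`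
with `‖x - q f‖ ≤ θ' * ‖x‖`; then iterate with `x - q f ∈ E'` (`‖x‖ * θ' ^ n → 0`). Let
`x = g f`, `g = ∑_{i < p} x i * X ^ i` over `E`, and `M = max ‖x i‖ * ‖f‖ ^ i ≤ ‖x‖ / κ`. Choose
polynomials `u i` over `C` with `‖x i - u i (t)‖ ≤ κ * θ' * ‖x i‖` (if `x i = 0` take `u i = 0`), so
`‖u i (t)‖ ≤ ‖x i‖` (`κ ≤ 1`). By `TT.lip` (`‖t - t'‖ ≤ θ * r ≤ r`)
`‖u i (t) - u i (t')‖ ≤ θ * ‖x i‖ ≤ κ * θ' * ‖x i‖`. With `q = ∑ (u i).comp G * X ^ i`:
`‖x - q f‖ ≤ max ‖x i - u i (t')‖ * ‖f‖ ^ i ≤ κ * θ' * M ≤ θ' * ‖x‖`. -/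
theorem dense_gen [IsAlgClosed Ω] {C E E' : Subfield Ω} {t f : Ω} {p : ℕ} {ρ θ : ℝ}
    {G : Polynomial Ω} (hCE : C ≤ E') (hf : f ∈ E')
    (hspan : ∀ x ∈ E', ∃ g : Polynomial Ω, Coeffs E g ∧ g.natDegree < p ∧ x = g.eval f)
    (horth : ∀ g : Polynomial Ω, Coeffs E g → g.natDegree < p →
      ∀ i, ‖g.coeff i‖ * ‖f‖ ^ i * (ρ / ‖f‖) ^ (p - 1) ≤ ‖g.eval f‖)
    (hρ : 0 < ρ) (hρf : ρ ≤ ‖f‖) (hT : TT C t) (hPD : PD C t E) (hG : Coeffs C G)
    (hθ : 0 ≤ θ) (hθ1 : θ < (ρ / ‖f‖) ^ (p - 1))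
    (hGt : ‖t - G.eval f‖ ≤ θ * Metric.infDist t (C : Set Ω)) : PD C f E' := by
  set r := Metric.infDist t (C : Set Ω) with hr
  have hr0 : 0 < r := hT.pos
  have hf0 : 0 < ‖f‖ := hρ.trans_le hρf
  set κ : ℝ := (ρ / ‖f‖) ^ (p - 1) with hκ
  have hκ0 : 0 < κ := pow_pos (div_pos hρ hf0) _
  have hκ1 : κ ≤ 1 := pow_le_one₀ (div_pos hρ hf0).le ((div_le_one hf0).2 hρf)
  set θ' : ℝ := max (θ / κ) (1 / 2) with hθ'
  have hθ'1 : θ' < 1 := by
    rw [hθ', max_lt_iff]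
    exact ⟨(div_lt_one hκ0).2 hθ1, by norm_num⟩
  have hθ'2 : 1 / 2 ≤ θ' := le_max_right _ _
  have hθ'0 : 0 < θ' := by linarith
  have hθκ : θ ≤ κ * θ' := by
    have h := le_max_left (θ / κ) (1 / 2)
    rw [← hθ', div_le_iff₀ hκ0] at h
    linarith
  have hκθ'1 : κ * θ' ≤ 1 := by nlinarith
  have hκθ'0 : 0 < κ * θ' := mul_pos hκ0 hθ'0
  have htt' : ‖t - G.eval f‖ ≤ r := by
    refine hGt.trans ?_
    have : θ ≤ 1 := hθ1.le.trans hκ1
    nlinarith
  have hratio : ‖t - G.eval f‖ / r ≤ θ := (div_le_iff₀ hr0).2 hGt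
  -- approximation of one coefficient
  have happ : ∀ y ∈ E, ∃ u : Polynomial Ω, Coeffs C u ∧
      ‖y - u.eval (G.eval f)‖ ≤ κ * θ' * ‖y‖ := by
    intro y hy
    by_cases hy0 : y = 0
    · exact ⟨0, ddense_coeffs_zero, by simp [hy0]⟩
    have hyp : 0 < ‖y‖ := norm_pos_iff.2 hy0
    obtain ⟨u, hu, hyu⟩ := hPD y hy (κ * θ' * ‖y‖) (by positivity)
    refine ⟨u, hu, ?_⟩
    have h1 : ‖u.eval t‖ ≤ ‖y‖ := by
      have h4 : u.eval t = y + -(y - u.eval t) := by ring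
      rw [h4]
      refine (IsUltrametricDist.norm_add_le_max _ _).trans (max_le le_rfl ?_)
      rw [norm_neg]
      refine hyu.le.trans ?_
      have := mul_le_mul_of_nonneg_right hκθ'1 hyp.le
      linarith
    have h2 : ‖u.eval t - u.eval (G.eval f)‖ ≤ κ * θ' * ‖y‖ := by
      calc ‖u.eval t - u.eval (G.eval f)‖ ≤ ‖u.eval t‖ * (‖t - G.eval f‖ / r) := hT.lip hu htt'
        _ ≤ ‖y‖ * θ := mul_le_mul h1 hratio (by positivity) hyp.le
        _ ≤ ‖y‖ * (κ * θ') := mul_le_mul_of_nonneg_left hθκ hyp.le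
        _ = κ * θ' * ‖y‖ := by ring
    have h3 : y - u.eval (G.eval f) = (y - u.eval t) + (u.eval t - u.eval (G.eval f)) := by ring
    rw [h3]
    exact (IsUltrametricDist.norm_add_le_max _ _).trans (max_le hyu.le h2)
  have step : ∀ x ∈ E', ∃ q : Polynomial Ω, Coeffs C q ∧ ‖x - q.eval f‖ ≤ θ' * ‖x‖ := by
    intro x hx
    obtain ⟨g, hg, hgd, hxg⟩ := hspan x hx
    choose u hu1 hu2 using fun i => happ (g.coeff i) (hg i)
    refine ⟨∑ i ∈ Finset.range p, (u i).comp G * X ^ i,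
      ddense_coeffs_sum _ _ fun i _ => ddense_coeffs_comp_mul (hu1 i) hG i, ?_⟩
    have h1 : x = ∑ i ∈ Finset.range p, g.coeff i * f ^ i := by
      rw [hxg, eval_eq_sum_range' hgd]
    have h2 : (∑ i ∈ Finset.range p, (u i).comp G * X ^ i).eval f =
        ∑ i ∈ Finset.range p, (u i).eval (G.eval f) * f ^ i := by
      rw [eval_finsetSum]
      refine Finset.sum_congr rfl fun i _ => ?_
      rw [eval_mul, eval_comp, eval_pow, eval_X]
    have h3 : x - (∑ i ∈ Finset.range p, (u i).comp G * X ^ i).eval f =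
        ∑ i ∈ Finset.range p, (g.coeff i - (u i).eval (G.eval f)) * f ^ i := by
      rw [h2]
      conv_lhs => rw [h1]
      rw [← Finset.sum_sub_distrib]
      refine Finset.sum_congr rfl fun i _ => ?_
      ring
    rw [h3]
    refine IsUltrametricDist.norm_sum_le_of_forall_le_of_nonneg (by positivity) fun i _ => ?_
    rw [norm_mul, norm_pow]
    calc ‖g.coeff i - (u i).eval (G.eval f)‖ * ‖f‖ ^ i
        ≤ κ * θ' * ‖g.coeff i‖ * ‖f‖ ^ i := mul_le_mul_of_nonneg_right (hu2 i) (by positivity)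
      _ = θ' * (‖g.coeff i‖ * ‖f‖ ^ i * κ) := by ring
      _ ≤ θ' * ‖x‖ := by
        refine mul_le_mul_of_nonneg_left ?_ hθ'0.le
        rw [hxg]
        exact horth g hg hgd i
  have iter : ∀ n : ℕ, ∀ x ∈ E', ∃ q : Polynomial Ω, Coeffs C q ∧
      ‖x - q.eval f‖ ≤ θ' ^ n * ‖x‖ := by
    intro n
    induction n with
    | zero => exact fun x _ => ⟨0, ddense_coeffs_zero, by simp⟩
    | succ n ih =>
      intro x hx
      obtain ⟨a, ha, hxa⟩ := ih x hx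
      obtain ⟨b, hb, hxb⟩ := step (x - a.eval f) (E'.sub_mem hx (ddense_eval_mem hCE ha hf))
      refine ⟨a + b, ddense_coeffs_add ha hb, ?_⟩
      have h7 : x - (a + b).eval f = x - a.eval f - b.eval f := by
        rw [eval_add]
        ring
      rw [h7]
      refine hxb.trans ?_
      calc θ' * ‖x - a.eval f‖ ≤ θ' * (θ' ^ n * ‖x‖) := mul_le_mul_of_nonneg_left hxa hθ'0.le
        _ = θ' ^ (n + 1) * ‖x‖ := by ring
  intro x hx ε hε
  obtain ⟨n, hn⟩ : ∃ n : ℕ, θ' ^ n * ‖x‖ < ε := by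
    obtain ⟨n, hn⟩ := exists_pow_lt_of_lt_one (show 0 < ε / (‖x‖ + 1) by positivity) hθ'1
    refine ⟨n, ?_⟩
    rw [lt_div_iff₀ (by positivity)] at hn
    have : 0 ≤ θ' ^ n := by positivity
    nlinarith
  obtain ⟨q, hq, hxq⟩ := iter n x hx
  exact ⟨q, hq, hxq.trans_lt hn⟩

end MP1a953e
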