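import Pool.Agent.Lib.MP_1a953e_ag.DGrpA

/-!
# Module DGrpB: steps of degree `p`
-/

namespace MP1a953e

open Polynomial

/-- the separable case -/
private theorem exists_pstep_sep {Ω : Type*} [Field Ω] [IsAlgClosed Ω] {p : ℕ} [Fact p.Prime]
    (E : Subfield Ω)
    (htriv : ∀ L : IntermediateField E Ω, FiniteDimensional E L → Algebra.IsSeparable E L →
      ¬ p ∣ Module.finrank E L → L = ⊥)
    (S : IntermediateField E Ω) [FiniteDimensional E S] [Algebra.IsSeparable E S] (hS : S ≠ ⊥) :
    ∃ E' : IntermediateField E Ω, E' ≤ S ∧ Module.finrank E E' = p ∧ IsGalois E E' := by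
  classical
  -- the splitting field
  obtain ⟨α, hα⟩ := Field.exists_primitive_element E S
  set f : E[X] := minpoly E α with hf
  have hsep : f.Separable := Algebra.IsSeparable.isSeparable E α
  set N : IntermediateField E Ω := IntermediateField.adjoin E (f.rootSet Ω) with hN
  have hspl : f.IsSplittingField E N :=
    IntermediateField.adjoin_rootSet_isSplittingField (IsAlgClosed.splits _)
  have : FiniteDimensional E N := Polynomial.IsSplittingField.finiteDimensional N f
  have : IsGalois E N := IsGalois.of_separable_splitting_field hsep
  have hEN : S ≤ N := by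
    have h1 : S = IntermediateField.adjoin E {(α : Ω)} := by
      have h2 : (⊤ : IntermediateField E S).map S.val = S := by
        rw [← AlgHom.fieldRange_eq_map, IntermediateField.fieldRange_val]
      rw [← hα, IntermediateField.adjoin_map, Set.image_singleton] at h2
      exact h2.symm
    rw [h1, IntermediateField.adjoin_le_iff, Set.singleton_subset_iff]
    apply IntermediateField.subset_adjoin
    rw [Polynomial.mem_rootSet]
    refine ⟨minpoly.ne_zero (Algebra.IsIntegral.isIntegral α), ?_⟩
    have h3 : aeval ((S.val) α) f = 0 := by
      rw [aeval_algHom_apply, hf, minpoly.aeval, map_zero]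
    exact h3
  obtain ⟨P⟩ : Nonempty (Sylow p Gal(N/E)) := inferInstance
  let F : Subgroup Gal(N/E) → IntermediateField E Ω := fun U =>
    IntermediateField.lift (IntermediateField.fixedField U)
  have hFN : ∀ U, F U ≤ N := fun U => IntermediateField.lift_le _
  have hmemF : ∀ (U : Subgroup Gal(N/E)) (x : N),
      (x : Ω) ∈ F U ↔ x ∈ IntermediateField.fixedField U := fun U x =>
    IntermediateField.mem_lift x
  have hfin : ∀ U, FiniteDimensional E (F U) := fun U =>
    Module.Finite.equiv
      (IntermediateField.liftAlgEquiv (IntermediateField.fixedField U)).toLinearEquiv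
  have hrank : ∀ U : Subgroup Gal(N/E), Module.finrank E (F U) = U.index := by
    intro U
    have h1 : Module.finrank E (F U) = Module.finrank E (IntermediateField.fixedField U) :=
      (IntermediateField.liftAlgEquiv (IntermediateField.fixedField U)).toLinearEquiv.finrank_eq.symm
    have h2 := Module.finrank_mul_finrank E (IntermediateField.fixedField U) N
    rw [IntermediateField.finrank_fixedField_eq_card, ← IsGalois.card_aut_eq_finrank E N,
      ← Subgroup.index_mul_card U] at h2
    rw [h1]
    exact Nat.eq_of_mul_eq_mul_right Nat.card_pos h2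
  -- the Galois group is a p-group
  have hbot : F (P : Subgroup Gal(N/E)) = ⊥ := by
    apply htriv _ (hfin _)
    · exact Algebra.IsSeparable.of_algHom E N (IntermediateField.inclusion (hFN P))
    · rw [hrank]
      exact P.not_dvd_index
  have htop : (P : Subgroup Gal(N/E)) = ⊤ := by
    rw [← Subgroup.index_eq_one, ← hrank, hbot, IntermediateField.finrank_bot]
  have hpg : IsPGroup p Gal(N/E) := by
    have h := P.isPGroup'
    rw [htop] at h
    exact h.of_surjective (Subgroup.subtype ⊤) (fun x => ⟨⟨x, trivial⟩, rfl⟩)
  set H : Subgroup Gal(N/E) := (IntermediateField.restrict hEN).fixingSubgroup with hH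
  have hHF : F H = S := by
    show IntermediateField.lift (IntermediateField.fixedField H) = _
    rw [hH, IsGalois.fixedField_fixingSubgroup, IntermediateField.lift_restrict]
  have hHtop : H ≠ ⊤ := by
    intro h
    apply hS
    rw [← hHF, ← IntermediateField.finrank_eq_one_iff, hrank, h, Subgroup.index_top]
  obtain ⟨M, hHM, hMn, hMi⟩ := exists_normal_index hpg H hHtop
  refine ⟨F M, ?_, ?_, ?_⟩
  · rw [← hHF]
    intro x hx
    have hxN := hFN _ hx
    exact (hmemF H ⟨x, hxN⟩).2 (IntermediateField.fixedField_le hHM ((hmemF M ⟨x, hxN⟩).1 hx))
  · rw [hrank, hMi]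
  · have h : IsGalois E (IntermediateField.fixedField M) := inferInstance
    exact IsGalois.of_algEquiv (IntermediateField.liftAlgEquiv (IntermediateField.fixedField M))

/-- GR2.  If `E` has no nontrivial finite separable extension of degree prime to `p` inside `Ω`, every
proper finite extension `K/E` contains an extension `E'/E` of degree `p` which is Galois or
consists of elements whose `p`-th power is in `E`.
Proof. Case 1: some element of `K` outside `E` is separable over `E`. Let `S` be the separable closure of
`E` in `K` (finite separable over `E`, `S ≠ ⊥`) and `N` the normal closure of `S/E` in `Ω`, a finite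
Galois extension of `E` with group `G`. If `Q` is a Sylow `p`-subgroup of `G`, its fixed field has
degree `[G : Q]` prime to `p` over `E`, so it is `⊥` by `htriv` and `G = Q` is a `p`-group. Let `H` be
the subgroup fixing `S`; `H ≠ ⊤` since `S ≠ ⊥`. By GR1 there is a normal `M ≥ H` of index `p`; its
fixed field `E'` is contained in the fixed field `S` of `H`, has degree `p` over `E` and is Galois over
`E`. (Compare the proof of `galois_devissage` in Gal2.)
Case 2: all elements of `K` which are separable over `E` are in `E` (`K/E` purely inseparable); then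
`Ω` has characteristic `p` by `hchar` (in characteristic `0` everything is separable and `K = ⊥`).
Choose `y ∈ K`, `y ∉ E`; `y ^ (p ^ n) ∈ E` for some `n` (`IsPurelyInseparable.pow_mem`); take `n ≥ 1`
minimal, `x = y ^ (p ^ (n - 1))`, `x ∉ E`, `x ^ p ∈ E`, and `E' = E(x)`: its degree is `p` (the minimal
polynomial of `x` divides `X ^ p - x ^ p`, which is irreducible over `E`:
`X_pow_sub_C_irreducible_of_prime` or so), and the elements `w` with `w ^ p ∈ E` form a field
containing `E` and `x` (Frobenius), so it contains `E'`. -/
theorem exists_pstep {Ω : Type*} [Field Ω] [IsAlgClosed Ω] {p : ℕ} [Fact p.Prime] (E : Subfield Ω)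
    (hchar : CharP Ω p ∨ CharZero Ω)
    (htriv : ∀ L : IntermediateField E Ω, FiniteDimensional E L → Algebra.IsSeparable E L →
      ¬ p ∣ Module.finrank E L → L = ⊥)
    (K : IntermediateField E Ω) [FiniteDimensional E K] (hK : K ≠ ⊥) :
    ∃ E' : IntermediateField E Ω, E' ≤ K ∧ Module.finrank E E' = p ∧
      (IsGalois E E' ∨ ∀ x ∈ E', x ^ p ∈ E) := by
  classical
  have hp : p.Prime := Fact.out
  by_cases hsc : separableClosure E K = ⊥
  · -- purely inseparable
    have hpi : IsPurelyInseparable E K := separableClosure.eq_bot_iff.1 hsc
    rcases hchar with hchar | hchar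
    swap
    · exfalso
      apply hK
      have : CharZero E := ⟨fun a b h => by
        have h1 : ((a : E) : Ω) = ((b : E) : Ω) := by rw [h]
        have h2 : (a : Ω) = (b : Ω) := by simpa using h1
        exact Nat.cast_injective h2⟩
      have : Algebra.IsSeparable E K := inferInstance
      exact IntermediateField.eq_bot_of_isPurelyInseparable_of_isSeparable K
    · have : CharP E p := RingHom.charP (algebraMap E Ω) (algebraMap E Ω).injective p
      have : ExpChar E p := ExpChar.prime hp
      obtain ⟨y, hyK, hyE⟩ : ∃ y ∈ K, y ∉ (⊥ : IntermediateField E Ω) := by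
        by_contra h
        push Not at h
        exact hK (le_bot_iff.1 h)
      have hex : ∃ n : ℕ, y ^ p ^ n ∈ E := by
        obtain ⟨n, b, hb⟩ := IsPurelyInseparable.pow_mem E p (⟨y, hyK⟩ : K)
        refine ⟨n, ?_⟩
        have h1 := congrArg (algebraMap K Ω) hb
        have h2 : y ^ p ^ n = (b : Ω) := by
          rw [map_pow] at h1
          exact h1.symm
        rw [h2]
        exact b.2
      have hn0 : Nat.find hex ≠ 0 := by
        intro h
        have h1 := Nat.find_spec hex
        rw [h, pow_zero, pow_one] at h1
        exact hyE (IntermediateField.mem_bot.2 ⟨⟨y, h1⟩, rfl⟩)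
      obtain ⟨m, hm⟩ := Nat.exists_eq_succ_of_ne_zero hn0
      set x : Ω := y ^ p ^ m with hx
      have hxK : x ∈ K := pow_mem hyK _
      have hxE : x ∉ E := Nat.find_min hex (by rw [hm]; exact Nat.lt_succ_self m)
      have hxp : x ^ p ∈ E := by
        have h1 := Nat.find_spec hex
        rw [hm, Nat.succ_eq_add_one, pow_succ, pow_mul] at h1
        exact h1
      set a : E := ⟨x ^ p, hxp⟩ with ha
      have hirr : Irreducible (X ^ p - C a : E[X]) := by
        apply X_pow_sub_C_irreducible_of_prime hp
        intro b hb
        apply hxE
        have h1 : (b : Ω) ^ p = x ^ p := by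
          have := congrArg (algebraMap E Ω) hb
          rw [map_pow] at this
          exact this
        have h2 : (b : Ω) = x := frobenius_inj Ω p h1
        rw [← h2]
        exact b.2
      have hmin : minpoly E x = X ^ p - C a := by
        symm
        apply minpoly.eq_of_irreducible_of_monic hirr
        · rw [map_sub, map_pow, aeval_X, aeval_C]
          exact sub_self _
        · exact monic_X_pow_sub_C a hp.ne_zero
      have hint : IsIntegral E x := by
        refine ⟨X ^ p - C a, monic_X_pow_sub_C a hp.ne_zero, ?_⟩
        rw [eval₂_sub, eval₂_pow, eval₂_X, eval₂_C]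
        exact sub_self _
      refine ⟨IntermediateField.adjoin E {x}, ?_, ?_, Or.inr ?_⟩
      · rw [IntermediateField.adjoin_le_iff, Set.singleton_subset_iff]
        exact hxK
      · rw [IntermediateField.adjoin.finrank hint, hmin, natDegree_X_pow_sub_C]
      · intro w hw
        have h1 : (IntermediateField.adjoin E {x}).toSubfield ≤ E.comap (frobenius Ω p) := by
          rw [IntermediateField.adjoin_toSubfield, Subfield.closure_le]
          rintro v (⟨b, rfl⟩ | hv)
          · show frobenius Ω p (b : Ω) ∈ E
            rw [frobenius_def]
            exact pow_mem b.2 p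
          · rw [Set.mem_singleton_iff] at hv
            rw [hv]
            exact hxp
        exact h1 hw
  · -- separable
    set S : IntermediateField E Ω := IntermediateField.lift (separableClosure E K) with hS
    have hSK : S ≤ K := IntermediateField.lift_le _
    have : FiniteDimensional E S := Module.Finite.equiv
      (IntermediateField.liftAlgEquiv (separableClosure E K)).toLinearEquiv
    have : Algebra.IsSeparable E S := Algebra.IsSeparable.of_algHom E (separableClosure E K)
      (IntermediateField.liftAlgEquiv (separableClosure E K)).symm.toAlgHom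
    have hSb : S ≠ ⊥ := by
      intro h
      apply hsc
      rw [eq_bot_iff]
      intro z hz
      have h1 : (z : Ω) ∈ S := (IntermediateField.mem_lift z).2 hz
      rw [h, IntermediateField.mem_bot] at h1
      obtain ⟨b, hb⟩ := h1
      rw [IntermediateField.mem_bot]
      exact ⟨b, Subtype.ext hb⟩
    obtain ⟨E', h1, h2, h3⟩ := exists_pstep_sep E htriv S hSb
    exact ⟨E', h1.trans hSK, h2, Or.inl h3⟩

end MP1a953e
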