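import Pool.Agent.Lib.MP_1a953e_ag.DCalc

/-!
# Module DDer: the derivative bound
-/

namespace MP1a953e

open Polynomial

variable {Ω : Type*} [NormedField Ω] [IsUltrametricDist Ω]

omit [IsUltrametricDist Ω] in
private theorem dder_coeffs_iff {F : Subfield Ω} {g : Polynomial Ω} :
    Coeffs F g ↔ ∃ g0 : Polynomial F, g0.map F.subtype = g := by
  constructor
  · intro hg
    have hl : g ∈ lifts F.subtype := by
      rw [lifts_iff_coeff_lifts]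
      intro n
      exact ⟨⟨g.coeff n, hg n⟩, rfl⟩
    obtain ⟨q, hq⟩ := (mem_lifts g).1 hl
    exact ⟨q, hq⟩
  · rintro ⟨g0, rfl⟩ i
    rw [coeff_map]
    exact (g0.coeff i).2

private theorem dder_norm_sub_le (x y : Ω) : ‖x - y‖ ≤ max ‖x‖ ‖y‖ := by
  have h := IsUltrametricDist.norm_add_le_max x (-y)
  rw [norm_neg, ← sub_eq_add_neg] at h
  exact h

/-- the bound for one `v` -/
private theorem dder_bound_v [IsAlgClosed Ω] {p : ℕ} (hp : p.Prime)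
    {C E : Subfield Ω} {t z c₀ : Ω} {ρ δ : ℝ} (hT : TT C t) (hPD : PD C t E)
    (hS : StepData C E p z ρ c₀ δ) {f₁ : Ω} (hf : f₁ - z ∈ E) {P : Polynomial Ω}
    (hP : Coeffs C P) (h1 : ‖f₁ ^ p - c₀ ^ (p - 1) * f₁ - P.eval t‖ ≤ ρ ^ p)
    (h2 : ‖(p : Ω)‖ * ‖f₁‖ ^ p ≤ ρ ^ p) {v : ℝ} (hv : ρ < v) (hvf : v ≤ ‖f₁‖) :
    ‖P.derivative.eval t‖ * Metric.infDist t (C : Set Ω) ≤
      max (v ^ p) (‖c₀‖ ^ (p - 1) * ‖f₁‖) := by
  set r := Metric.infDist t (C : Set Ω) with hr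
  have hr0 : 0 < r := hT.pos
  have hρ0 : 0 < ρ := hS.pos
  have hv0 : 0 < v := hρ0.trans hv
  have hp1 : 1 ≤ p := hp.one_lt.le
  have hρv : ρ ^ p ≤ v ^ p := pow_le_pow_left₀ hρ0.le hv.le _
  have hc₀ρ : ‖c₀‖ ≤ ρ := by
    rcases hS.c₀_norm with h | h
    · rw [h, norm_zero]
      exact hρ0.le
    · exact h.le
  -- the approximation
  obtain ⟨g', hg', hzg⟩ := hS.near v hv
  obtain ⟨U, hU, hgU⟩ := hPD (g' + (f₁ - z)) (E.add_mem hg' hf) v hv0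
  set y : Ω := f₁ - U.eval t with hy
  have hyv : ‖y‖ < v := by
    have e1 : y = (z - g') + (g' + (f₁ - z) - U.eval t) := by
      rw [hy]
      ring
    rw [e1]
    exact (IsUltrametricDist.norm_add_le_max _ _).trans_lt (max_lt hzg hgU)
  have hUf : ‖U.eval t‖ ≤ ‖f₁‖ := by
    have e1 : U.eval t = f₁ - y := by
      rw [hy]
      ring
    rw [e1]
    exact (dder_norm_sub_le _ _).trans (max_le le_rfl (hyv.le.trans hvf))
  -- the polynomial `Q`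
  set Q : Polynomial Ω := P - U ^ p + Polynomial.C (c₀ ^ (p - 1)) * U with hQ
  have hQC : Coeffs C Q := by
    obtain ⟨P0, rfl⟩ := dder_coeffs_iff.1 hP
    obtain ⟨U0, rfl⟩ := dder_coeffs_iff.1 hU
    refine dder_coeffs_iff.2 ⟨P0 - U0 ^ p +
      Polynomial.C ((⟨c₀, hS.c₀_mem⟩ : C) ^ (p - 1)) * U0, ?_⟩
    rw [hQ]
    simp
  have hpow : ‖f₁ ^ p - (U.eval t) ^ p‖ ≤ v ^ p := by
    have h := norm_sub_pow_sub_le hp 1 (x := f₁) (y := U.eval t) (B := ‖f₁‖ ^ p)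
      (by rw [pow_one]) (by
        rw [pow_one]
        exact pow_le_pow_left₀ (norm_nonneg _) hUf _)
    rw [pow_one, ← hy] at h
    have e1 : f₁ ^ p - (U.eval t) ^ p = y ^ p - (y ^ p - (f₁ ^ p - (U.eval t) ^ p)) := by ring
    rw [e1]
    refine (dder_norm_sub_le _ _).trans (max_le ?_ ?_)
    · rw [norm_pow]
      exact pow_le_pow_left₀ (norm_nonneg _) hyv.le _
    · exact h.trans (h2.trans hρv)
  have hcy : ‖c₀ ^ (p - 1) * y‖ ≤ v ^ p := by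
    rw [norm_mul, norm_pow]
    calc ‖c₀‖ ^ (p - 1) * ‖y‖ ≤ v ^ (p - 1) * v :=
          mul_le_mul (pow_le_pow_left₀ (norm_nonneg _) (hc₀ρ.trans hv.le) _) hyv.le
            (norm_nonneg _) (pow_nonneg hv0.le _)
      _ = v ^ p := by rw [← pow_succ, Nat.sub_add_cancel hp1]
  have hQt : ‖Q.eval t‖ ≤ v ^ p := by
    have e1 : Q.eval t = (-(f₁ ^ p - c₀ ^ (p - 1) * f₁ - P.eval t) +
        (f₁ ^ p - (U.eval t) ^ p)) - c₀ ^ (p - 1) * y := by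
      rw [hQ, hy, eval_add, eval_sub, eval_pow, eval_mul, eval_C]
      ring
    rw [e1]
    refine (dder_norm_sub_le _ _).trans (max_le ?_ hcy)
    refine (IsUltrametricDist.norm_add_le_max _ _).trans (max_le ?_ hpow)
    rw [norm_neg]
    exact h1.trans hρv
  have hQ' : ‖Q.derivative.eval t‖ * r ≤ v ^ p := (hT.deriv_le hQC).trans hQt
  have hU' : ‖U.derivative.eval t‖ * r ≤ ‖f₁‖ := (hT.deriv_le hU).trans hUf
  have hder : P.derivative.eval t = (Q.derivative.eval t +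
      (p : Ω) * (U.eval t) ^ (p - 1) * U.derivative.eval t) -
        c₀ ^ (p - 1) * U.derivative.eval t := by
    rw [hQ, derivative_add, derivative_sub, derivative_pow, derivative_C_mul]
    simp only [eval_add, eval_sub, eval_mul, eval_pow, eval_C]
    ring
  have hmul : ∀ x y : Ω, ‖x - y‖ * r ≤ max (‖x‖ * r) (‖y‖ * r) := by
    intro x y
    rw [← max_mul_of_nonneg _ _ hr0.le]
    exact mul_le_mul_of_nonneg_right (dder_norm_sub_le _ _) hr0.le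
  have hmul' : ∀ x y : Ω, ‖x + y‖ * r ≤ max (‖x‖ * r) (‖y‖ * r) := by
    intro x y
    rw [← max_mul_of_nonneg _ _ hr0.le]
    exact mul_le_mul_of_nonneg_right (IsUltrametricDist.norm_add_le_max _ _) hr0.le
  rw [hder]
  refine (hmul _ _).trans (max_le ?_ ?_)
  · refine le_trans ?_ (le_max_left _ _)
    refine (hmul' _ _).trans (max_le hQ' ?_)
    rw [norm_mul, norm_mul, norm_pow]
    calc ‖(p : Ω)‖ * ‖U.eval t‖ ^ (p - 1) * ‖U.derivative.eval t‖ * r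
        = ‖(p : Ω)‖ * (‖U.eval t‖ ^ (p - 1) * (‖U.derivative.eval t‖ * r)) := by ring
      _ ≤ ‖(p : Ω)‖ * (‖f₁‖ ^ (p - 1) * ‖f₁‖) := by
          refine mul_le_mul_of_nonneg_left ?_ (norm_nonneg _)
          exact mul_le_mul (pow_le_pow_left₀ (norm_nonneg _) hUf _) hU' (by positivity)
            (by positivity)
      _ = ‖(p : Ω)‖ * ‖f₁‖ ^ p := by rw [← pow_succ, Nat.sub_add_cancel hp1]
      _ ≤ v ^ p := h2.trans hρv
  · refine le_trans ?_ (le_max_right _ _)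
    rw [norm_mul, norm_pow, mul_assoc]
    exact mul_le_mul_of_nonneg_left hU' (by positivity)

/-- DB1.  Let `f₁ ∈ z + E` and `P` a polynomial over `C` with `f₁ ^ p - c₀ ^ (p - 1) * f₁` close to `P t`.
Then `‖P' t‖ * r ≤ max (ρ ^ p) (‖c₀‖ ^ (p - 1) * ‖f₁‖)`.
Proof: it is enough to show `‖P' t‖ * r ≤ max (v ^ p) (‖c₀‖ ^ (p - 1) * ‖f₁‖)` for every `v > ρ`,
`v ≤ ‖f₁‖` (`ρ < ‖f₁‖` by `hS.lt`). Choose `g ∈ E` with `‖f₁ - g‖ < v` (`hS.near`). By `hPD` there is a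
polynomial `U` over `C` with `U t` so close to `g` that `y = f₁ - U t` has norm `≤ v` too. Then
`‖U t‖ ≤ ‖f₁‖`. Let `Q = P - U ^ p + C (c₀ ^ (p - 1)) * U`, a polynomial over `C`. By
`norm_sub_pow_sub_le` (with `k = 1`), `y ^ p = f₁ ^ p - (U t) ^ p` up to
`‖p‖ * ‖f₁‖ ^ p ≤ ρ ^ p ≤ v ^ p`, and `‖c₀ ^ (p - 1) * y‖ ≤ ρ ^ (p - 1) * v ≤ v ^ p` (`‖c₀‖ ≤ ρ`), so
`‖Q t‖ ≤ v ^ p`: indeed `Q t = P t - f₁ ^ p + c₀ ^ (p - 1) * f₁ + (f₁ ^ p - (U t) ^ p) - c₀ ^ (p - 1) * y`.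
By `TT.deriv_le`, `‖Q' t‖ * r ≤ v ^ p`. And `P' = Q' + p * U ^ (p - 1) * U' - c₀ ^ (p - 1) * U'` with
`‖U' t‖ * r ≤ ‖U t‖ ≤ ‖f₁‖`, `‖p‖ * ‖f₁‖ ^ p ≤ ρ ^ p`. -/
theorem deriv_bound [IsAlgClosed Ω] {p : ℕ} (hp : p.Prime) (hpn : ‖(p : Ω)‖ < 1)
    {C E : Subfield Ω} (hCE : C ≤ E) {t z c₀ : Ω} {ρ δ : ℝ} (hT : TT C t) (hPD : PD C t E)
    (hS : StepData C E p z ρ c₀ δ) {f₁ : Ω} (hf : f₁ - z ∈ E) {P : Polynomial Ω}
    (hP : Coeffs C P) (h1 : ‖f₁ ^ p - c₀ ^ (p - 1) * f₁ - P.eval t‖ ≤ ρ ^ p)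
    (h2 : ‖(p : Ω)‖ * ‖f₁‖ ^ p ≤ ρ ^ p) :
    ‖P.derivative.eval t‖ * Metric.infDist t (C : Set Ω) ≤
      max (ρ ^ p) (‖c₀‖ ^ (p - 1) * ‖f₁‖) := by
  have hρf : ρ < ‖f₁‖ := by
    have h1 := hS.lt (z - f₁) (by
      have : z - f₁ = -(f₁ - z) := by ring
      rw [this]
      exact E.neg_mem hf)
    rwa [sub_sub_cancel] at h1
  by_contra hcon
  rw [not_le, max_lt_iff] at hcon
  obtain ⟨hc1, hc2⟩ := hcon
  have hev1 : ∀ᶠ v in nhdsWithin ρ (Set.Ioi ρ), v ^ p <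
      ‖P.derivative.eval t‖ * Metric.infDist t (C : Set Ω) :=
    (((continuous_pow p).tendsto ρ).eventually_lt_const hc1).filter_mono nhdsWithin_le_nhds
  have hev2 : ∀ᶠ v in nhdsWithin ρ (Set.Ioi ρ), v < ‖f₁‖ :=
    (eventually_lt_nhds hρf).filter_mono nhdsWithin_le_nhds
  obtain ⟨v, hv1, hv2, hv3⟩ := (hev1.and (hev2.and self_mem_nhdsWithin)).exists
  have hv3' : ρ < v := hv3
  have h3 := dder_bound_v hp hT hPD hS hf hP h1 h2 hv3' hv2.le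
  exact absurd h3 (not_le.2 (max_lt hv1 hc2))

end MP1a953e
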