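import Pool.Agent.Lib.MP_1a953e_ag.DCalc

/-!
# Module DFin: from a linear leading term to `LinC`
-/

namespace MP1a953e

open Polynomial

variable {Ω : Type*} [NormedField Ω] [IsUltrametricDist Ω]

omit [IsUltrametricDist Ω] in
private theorem dfin_coeffs_iff {F : Subfield Ω} {g : Polynomial Ω} :
    Coeffs F g ↔ ∃ g0 : Polynomial F, g0.map F.subtype = g := by
  constructor
  · intro hg
    have hl : g ∈ lifts F.subtype := by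
      rw [lifts_iff_coeff_lifts]
      intro n
      exact ⟨⟨g.coeff n, hg n⟩, rfl⟩
    obtain ⟨q, hq⟩ := (mem_lifts g).1 hl
    exact ⟨q, hq⟩
  · rintro ⟨g0, rfl⟩ i
    rw [coeff_map]
    exact (g0.coeff i).2

/-- FN1.  Suppose `A * r ≤ ρ ^ p`, `θ < 1`, and arbitrarily close to `t` (in the sense `‖t - a‖ → r`) there
are `a, c₁ ∈ C`, `‖c₁‖ = A`, and `f ∈ z + E` with `f ^ p - c₀ ^ (p - 1) * f = c₁ * (t - a)` up to
`θ * A * ‖t - a‖`, `‖f‖ ^ p ≤ A * ‖t - a‖`. Then `LinC` holds.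
Proof: `A > 0` because `0 < ρ ^ p < ‖f‖ ^ p ≤ A * ‖t - a‖` (`hS.lt` gives `ρ < ‖f‖`). Let
`ρ₁ > r` be such that `θ * (ρ₁ / r) ^ 2 < 1`, and take `a, c₁, f` as in `h` for `ρ₁`, `σ = ‖t - a‖`,
`G = C a + C c₁⁻¹ * (X ^ p - C (c₀ ^ (p - 1)) * X)`. Then
`‖t - G f‖ = ‖c₁⁻¹ * (c₁ * (t - a) - (f ^ p - c₀ ^ (p - 1) * f))‖ ≤ θ * σ = (θ * σ / r) * r`, and
`(ρ / ‖f‖) ^ (p - 1) ≥ (ρ / ‖f‖) ^ p ≥ A * r / (A * σ) = r / σ > θ * σ / r`. -/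
theorem fin_lin {p : ℕ} (hp : p.Prime) {C E : Subfield Ω} {t z c₀ : Ω} {ρ δ : ℝ} (hT : TT C t)
    (hS : StepData C E p z ρ c₀ δ) {A θ : ℝ} (hA : A * Metric.infDist t (C : Set Ω) ≤ ρ ^ p)
    (hθ0 : 0 ≤ θ) (hθ1 : θ < 1)
    (h : ∀ ρ₁ > Metric.infDist t (C : Set Ω), ∃ a ∈ C, ∃ c₁ ∈ C, ‖t - a‖ < ρ₁ ∧ ‖c₁‖ = A ∧
      ∃ f : Ω, f - z ∈ E ∧
        ‖f ^ p - c₀ ^ (p - 1) * f - c₁ * (t - a)‖ ≤ θ * (A * ‖t - a‖) ∧
        ‖f‖ ^ p ≤ A * ‖t - a‖) : LinC C E p t z ρ := by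
  set r := Metric.infDist t (C : Set Ω) with hr
  have hr0 : 0 < r := hT.pos
  -- the radius
  set c : ℝ := √(2 / (1 + θ)) with hc
  have hc2 : c ^ 2 = 2 / (1 + θ) := Real.sq_sqrt (by positivity)
  have hc0 : 0 ≤ c := Real.sqrt_nonneg _
  have hc1 : 1 < c := by
    rw [hc, Real.lt_sqrt (by norm_num), one_pow, lt_div_iff₀ (by positivity)]
    linarith
  obtain ⟨a, ha, c₁, hc₁, hta, hcA, f, hfz, hf1, hf2⟩ := h (c * r) (by nlinarith)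
  set σ := ‖t - a‖ with hσ
  have hrσ : r < σ := hT.nb a (isAlgebraic_algebraMap (⟨a, ha⟩ : C))
  have hσ0 : 0 < σ := hr0.trans hrσ
  have hρf : ρ < ‖f‖ := by
    have h1 := hS.lt (z - f) (by
      have : z - f = -(f - z) := by ring
      rw [this]
      exact E.neg_mem hfz)
    rwa [sub_sub_cancel] at h1
  have hρ0 : 0 < ρ := hS.pos
  have hf0 : 0 < ‖f‖ := hρ0.trans hρf
  have hA0 : 0 < A := by
    have h1 : 0 < A * σ := lt_of_lt_of_le (pow_pos hf0 p) hf2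
    exact (pos_iff_pos_of_mul_pos h1).2 hσ0
  have hc₁0 : c₁ ≠ 0 := by
    rw [← norm_pos_iff, hcA]
    exact hA0
  refine ⟨f, hfz, Polynomial.C a + Polynomial.C c₁⁻¹ * (X ^ p - Polynomial.C (c₀ ^ (p - 1)) * X),
    θ * σ / r, ?_, by positivity, ?_, ?_⟩
  · refine dfin_coeffs_iff.2 ⟨Polynomial.C (⟨a, ha⟩ : C) +
      Polynomial.C (⟨c₁, hc₁⟩ : C)⁻¹ *
        (X ^ p - Polynomial.C ((⟨c₀, hS.c₀_mem⟩ : C) ^ (p - 1)) * X), ?_⟩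
    simp
  · have h1 : r / σ ≤ (ρ / ‖f‖) ^ (p - 1) := by
      calc r / σ = (A * r) / (A * σ) := by
            rw [mul_div_mul_left _ _ hA0.ne']
        _ ≤ ρ ^ p / ‖f‖ ^ p :=
            div_le_div₀ (by positivity) hA (pow_pos hf0 p) hf2
        _ = (ρ / ‖f‖) ^ p := (div_pow _ _ _).symm
        _ ≤ (ρ / ‖f‖) ^ (p - 1) :=
            pow_le_pow_of_le_one (by positivity) ((div_le_one hf0).2 hρf.le) (Nat.sub_le _ _)
    refine lt_of_lt_of_le ?_ h1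
    rw [div_lt_div_iff₀ hr0 hσ0]
    have h2 : σ * σ ≤ (c * r) * (c * r) :=
      mul_le_mul hta.le hta.le hσ0.le (by positivity)
    have h3 : θ * (c ^ 2) < 1 := by
      rw [hc2, mul_div_assoc', div_lt_one (by positivity)]
      linarith
    calc θ * σ * σ = θ * (σ * σ) := by ring
      _ ≤ θ * ((c * r) * (c * r)) := mul_le_mul_of_nonneg_left h2 hθ0
      _ = (θ * c ^ 2) * (r * r) := by ring
      _ < 1 * (r * r) := mul_lt_mul_of_pos_right h3 (by positivity)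
      _ = r * r := one_mul _
  · have e1 : t - (Polynomial.C a +
        Polynomial.C c₁⁻¹ * (X ^ p - Polynomial.C (c₀ ^ (p - 1)) * X)).eval f =
        -(c₁⁻¹ * (f ^ p - c₀ ^ (p - 1) * f - c₁ * (t - a))) := by
      simp only [eval_add, eval_mul, eval_sub, eval_C, eval_pow, eval_X]
      field_simp
      ring
    rw [e1, norm_neg, norm_mul, norm_inv, hcA, div_mul_cancel₀ _ hr0.ne']
    calc A⁻¹ * ‖f ^ p - c₀ ^ (p - 1) * f - c₁ * (t - a)‖ ≤ A⁻¹ * (θ * (A * σ)) :=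
          mul_le_mul_of_nonneg_left hf1 (inv_nonneg.2 hA0.le)
      _ = θ * σ := by field_simp

/-- FN2.  Scaling: with `c₀ ≠ 0`, `z / c₀` has `StepData` with `ρ = 1`, `c₀ = 1`, the same `δ`. Proof:
divide everything by `c₀ ∈ C ≤ E`, `‖c₀‖ = ρ`: for `f - z / c₀ ∈ E` use `hS.approx` for `c₀ * f` and
divide by `c₀ ^ p`. -/
theorem stepData_scale {p : ℕ} (hp : p.Prime) {C E : Subfield Ω} (hCE : C ≤ E) {z c₀ : Ω}
    {ρ δ : ℝ} (hc : c₀ ≠ 0) (hS : StepData C E p z ρ c₀ δ) :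
    StepData C E p (c₀⁻¹ * z) 1 1 δ := by
  have hρ : ‖c₀‖ = ρ := hS.c₀_norm.resolve_left hc
  have hρ0 : 0 < ρ := hS.pos
  have hcE : c₀ ∈ E := hCE hS.c₀_mem
  have hp1 : 1 ≤ p := hp.one_lt.le
  have hpow : ∀ x : ℝ, x * x ^ (p - 1) = x ^ p := by
    intro x
    rw [← pow_succ', Nat.sub_add_cancel hp1]
  refine ⟨one_pos, ?_, ?_, C.one_mem, Or.inr norm_one, hS.δ0, hS.δ1, ?_⟩
  · intro g hg
    have h1 := hS.lt (c₀ * g) (E.mul_mem hcE hg)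
    have e1 : z - c₀ * g = c₀ * (c₀⁻¹ * z - g) := by
      rw [mul_sub, mul_inv_cancel_left₀ hc]
    rw [e1, norm_mul, hρ] at h1
    by_contra hcon
    have h2 := mul_le_mul_of_nonneg_left (not_lt.1 hcon) hρ0.le
    linarith
  · intro ε hε
    obtain ⟨g, hg, hgz⟩ := hS.near (ρ * ε) (by nlinarith)
    refine ⟨c₀⁻¹ * g, E.mul_mem (E.inv_mem hcE) hg, ?_⟩
    rw [← mul_sub, norm_mul, norm_inv, hρ, inv_mul_lt_iff₀ hρ0]
    exact hgz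
  · intro f hf
    have e0 : c₀ * f - z = c₀ * (f - c₀⁻¹ * z) := by
      rw [mul_sub, mul_inv_cancel_left₀ hc]
    obtain ⟨n, hn, h1⟩ := hS.approx (c₀ * f) (by rw [e0]; exact E.mul_mem hcE hf)
    refine ⟨(c₀ ^ p)⁻¹ * n, E.mul_mem (E.inv_mem (E.pow_mem hcE _)) hn, ?_⟩
    have hcp : c₀ ^ p ≠ 0 := pow_ne_zero _ hc
    have hcc : c₀ ^ (p - 1) * c₀ = c₀ ^ p := by
      rw [← pow_succ, Nat.sub_add_cancel hp1]
    have e1 : (c₀ * f) ^ p - c₀ ^ (p - 1) * (c₀ * f) - n =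
        c₀ ^ p * (f ^ p - 1 ^ (p - 1) * f - (c₀ ^ p)⁻¹ * n) := by
      rw [mul_sub, mul_inv_cancel_left₀ hcp, mul_sub, mul_pow, one_pow, one_mul, ← mul_assoc, hcc]
    rw [e1, norm_mul, norm_pow, hρ] at h1
    have e2 : max (δ * ρ * ‖c₀ * f‖ ^ (p - 1)) (‖(p : Ω)‖ * ‖c₀ * f‖ ^ p) =
        ρ ^ p * max (δ * 1 * ‖f‖ ^ (p - 1)) (‖(p : Ω)‖ * ‖f‖ ^ p) := by
      rw [mul_max_of_nonneg _ _ (pow_pos hρ0 p).le, norm_mul, hρ, mul_pow, mul_pow, ← hpow ρ]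
      congr 1 <;> ring
    rw [e2] at h1
    exact le_of_mul_le_mul_left h1 (pow_pos hρ0 p)

/-- FN3.  Scaling back: if `f - c₀⁻¹ * z ∈ E` and `G, θ` are as in `LinC` for `ρ = 1`, take `c₀ * f`,
`G.comp (C c₀⁻¹ * X)` and the same `θ`: `ρ / ‖c₀ * f‖ = 1 / ‖f‖`. -/
theorem linC_scale {p : ℕ} {C E : Subfield Ω} (hCE : C ≤ E) {t z c₀ : Ω} {ρ : ℝ}
    (hcC : c₀ ∈ C) (hc : c₀ ≠ 0) (hcρ : ‖c₀‖ = ρ) (h : LinC C E p t (c₀⁻¹ * z) 1) :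
    LinC C E p t z ρ := by
  obtain ⟨f, hf, G, θ, hG, hθ0, hθ1, hGt⟩ := h
  have hρ0 : 0 < ρ := by
    rw [← hcρ]
    exact norm_pos_iff.2 hc
  have e0 : c₀ * f - z = c₀ * (f - c₀⁻¹ * z) := by
    rw [mul_sub, mul_inv_cancel_left₀ hc]
  refine ⟨c₀ * f, by rw [e0]; exact E.mul_mem (hCE hcC) hf, G.comp (Polynomial.C c₀⁻¹ * X), θ, ?_,
    hθ0, ?_, ?_⟩
  · obtain ⟨G0, rfl⟩ := dfin_coeffs_iff.1 hG
    refine dfin_coeffs_iff.2 ⟨G0.comp (Polynomial.C (⟨c₀, hcC⟩ : C)⁻¹ * X), ?_⟩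
    rw [Polynomial.map_comp]
    simp
  · rw [norm_mul, hcρ]
    have e1 : ρ / (ρ * ‖f‖) = 1 / ‖f‖ := by
      rw [← div_div, div_self hρ0.ne']
    rw [e1]
    exact hθ1
  · have e1 : (G.comp (Polynomial.C c₀⁻¹ * X)).eval (c₀ * f) = G.eval f := by
      rw [eval_comp, eval_mul, eval_C, eval_X, inv_mul_cancel_left₀ hc]
    rw [e1]
    exact hGt

end MP1a953e
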