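import Pool.Agent.Lib.MP_1a953e_ag.DDefs

/-!
# Module DPow: powers with exponent `p ^ k` modulo `p`
-/

namespace MP1a953e

variable {Ω : Type*} [NormedField Ω] [IsUltrametricDist Ω]

/-- P1.  Integers prime to `p` have norm one: `1 = a * l + b * p` with integers `a, b`, all integers have
norm `≤ 1` (Mathlib: `IsUltrametricDist.norm_natCast_le_one`, `IsUltrametricDist.norm_intCast_le_one`),
so `1 ≤ max ‖a * l‖ ‖b * p‖` and `‖b * p‖ < 1`. -/
theorem norm_natCast_eq_one {p : ℕ} (hp : p.Prime) (hpn : ‖(p : Ω)‖ < 1) {l : ℕ} (hl : ¬ p ∣ l) :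
    ‖(l : Ω)‖ = 1 := by
  have hcop : Nat.Coprime l p := (hp.coprime_iff_not_dvd.2 hl).symm
  refine le_antisymm (IsUltrametricDist.norm_natCast_le_one Ω l) ?_
  by_contra hlt
  rw [not_le] at hlt
  have hbez : (1 : ℤ) = l * Nat.gcdA l p + p * Nat.gcdB l p := by
    have h := Nat.gcd_eq_gcd_ab l p
    rw [hcop] at h
    exact_mod_cast h
  have hbez' : (1 : Ω) = l * (Nat.gcdA l p : ℤ) + p * (Nat.gcdB l p : ℤ) := by
    have h := congrArg (fun z : ℤ => (z : Ω)) hbez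
    push_cast at h
    exact h
  have h1 : ‖(1 : Ω)‖ < 1 := by
    rw [hbez']
    refine (IsUltrametricDist.norm_add_le_max _ _).trans_lt (max_lt ?_ ?_)
    · rw [norm_mul]
      calc ‖(l : Ω)‖ * ‖((Nat.gcdA l p : ℤ) : Ω)‖ ≤ ‖(l : Ω)‖ * 1 :=
            mul_le_mul_of_nonneg_left (IsUltrametricDist.norm_intCast_le_one Ω _) (norm_nonneg _)
        _ < 1 := by rw [mul_one]; exact hlt
    · rw [norm_mul]
      calc ‖(p : Ω)‖ * ‖((Nat.gcdB l p : ℤ) : Ω)‖ ≤ ‖(p : Ω)‖ * 1 :=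
            mul_le_mul_of_nonneg_left (IsUltrametricDist.norm_intCast_le_one Ω _) (norm_nonneg _)
        _ < 1 := by rw [mul_one]; exact hpn
  rw [norm_one] at h1
  exact lt_irrefl _ h1

/-- P2.  If `p ∣ n` then `‖(n : Ω)‖ ≤ ‖(p : Ω)‖`; in particular for the binomial coefficients
`(p ^ k).choose i`, `0 < i < p ^ k` (`Nat.Prime.dvd_choose_pow`). -/
theorem norm_natCast_le_of_dvd {p n : ℕ} (h : p ∣ n) : ‖(n : Ω)‖ ≤ ‖(p : Ω)‖ := by
  obtain ⟨m, rfl⟩ := h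
  rw [Nat.cast_mul, norm_mul]
  exact mul_le_of_le_one_right (norm_nonneg _) (IsUltrametricDist.norm_natCast_le_one Ω m)

private theorem mul_pow_le {a b B : ℝ} (ha : 0 ≤ a) (hb : 0 ≤ b) {n i j : ℕ} (hij : i + j = n)
    (hA : a ^ n ≤ B) (hB : b ^ n ≤ B) : a ^ i * b ^ j ≤ B := by
  rcases le_total a b with h | h
  · calc a ^ i * b ^ j ≤ b ^ i * b ^ j :=
          mul_le_mul_of_nonneg_right (pow_le_pow_left₀ ha h _) (pow_nonneg hb _)
      _ = b ^ n := by rw [← pow_add, hij]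
      _ ≤ B := hB
  · calc a ^ i * b ^ j ≤ a ^ i * a ^ j :=
          mul_le_mul_of_nonneg_left (pow_le_pow_left₀ hb h _) (pow_nonneg ha _)
      _ = a ^ n := by rw [← pow_add, hij]
      _ ≤ B := hA

private theorem norm_add_pow_sub_le {p : ℕ} (hp : p.Prime) (k : ℕ) {x y : Ω} {B : ℝ}
    (hx : ‖x‖ ^ p ^ k ≤ B) (hy : ‖y‖ ^ p ^ k ≤ B) :
    ‖(x + y) ^ p ^ k - (x ^ p ^ k + y ^ p ^ k)‖ ≤ ‖(p : Ω)‖ * B := by
  have hB : 0 ≤ B := le_trans (by positivity) hx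
  have hq : 0 < p ^ k := pow_pos hp.pos k
  obtain ⟨q, hqe⟩ : ∃ q, p ^ k = q + 1 := ⟨p ^ k - 1, by omega⟩
  have hsum : (x + y) ^ p ^ k - (x ^ p ^ k + y ^ p ^ k) =
      ∑ i ∈ Finset.Ico 1 (p ^ k), x ^ i * y ^ (p ^ k - i) * ((p ^ k).choose i : Ω) := by
    rw [add_pow, Finset.sum_range_succ, Finset.range_eq_Ico, Finset.sum_eq_sum_Ico_succ_bot hq]
    simp only [pow_zero, Nat.sub_zero, one_mul, Nat.choose_zero_right, Nat.cast_one, mul_one,
      Nat.sub_self, Nat.choose_self, zero_add]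
    ring
  rw [hsum]
  refine IsUltrametricDist.norm_sum_le_of_forall_le_of_nonneg (by positivity) fun i hi => ?_
  rw [Finset.mem_Ico] at hi
  rw [norm_mul, norm_mul, norm_pow, norm_pow, mul_comm]
  have h1 : p ∣ (p ^ k).choose i := hp.dvd_choose_pow (by omega) (by omega)
  exact mul_le_mul (norm_natCast_le_of_dvd h1)
    (mul_pow_le (norm_nonneg _) (norm_nonneg _) (by omega) hx hy) (by positivity) (norm_nonneg _)

/-- P3.  The power `p ^ k` is additive modulo `p`. Proof: two summands by the binomial theorem and P2,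
`‖x‖ ^ (p ^ k) ≤ B`, `‖y‖ ^ (p ^ k) ≤ B` give `‖x ^ i * y ^ (p ^ k - i)‖ ≤ B`; the general case by
induction on `s` (partial sums also have `p ^ k`-th power of norm `≤ B`, by the ultrametric
inequality; `‖(p : Ω)‖ ≤ 1`). -/
theorem norm_sum_pow_sub_le {p : ℕ} (hp : p.Prime) (k : ℕ) {ι : Type*} (s : Finset ι) (x : ι → Ω)
    {B : ℝ} (hB0 : 0 ≤ B) (hB : ∀ i ∈ s, ‖x i‖ ^ p ^ k ≤ B) :
    ‖(∑ i ∈ s, x i) ^ p ^ k - ∑ i ∈ s, x i ^ p ^ k‖ ≤ ‖(p : Ω)‖ * B := by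
  classical
  have hq : p ^ k ≠ 0 := (pow_pos hp.pos k).ne'
  have key : ‖∑ i ∈ s, x i‖ ^ p ^ k ≤ B ∧
      ‖(∑ i ∈ s, x i) ^ p ^ k - ∑ i ∈ s, x i ^ p ^ k‖ ≤ ‖(p : Ω)‖ * B := by
    induction s using Finset.induction_on with
    | empty =>
      constructor
      · rw [Finset.sum_empty, norm_zero, zero_pow hq]
        exact hB0
      · simp only [Finset.sum_empty, zero_pow hq, sub_zero, norm_zero]
        positivity
    | insert a s ha ih =>
      obtain ⟨ih1, ih2⟩ := ih fun i hi => hB i (Finset.mem_insert_of_mem hi)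
      have hxa := hB a (Finset.mem_insert_self a s)
      rw [Finset.sum_insert ha, Finset.sum_insert ha]
      constructor
      · rcases le_total ‖x a‖ ‖∑ i ∈ s, x i‖ with h | h
        · refine le_trans (pow_le_pow_left₀ (norm_nonneg _) ?_ _) ih1
          exact (IsUltrametricDist.norm_add_le_max _ _).trans (max_le h le_rfl)
        · refine le_trans (pow_le_pow_left₀ (norm_nonneg _) ?_ _) hxa
          exact (IsUltrametricDist.norm_add_le_max _ _).trans (max_le le_rfl h)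
      · have e : (x a + ∑ i ∈ s, x i) ^ p ^ k - (x a ^ p ^ k + ∑ i ∈ s, x i ^ p ^ k) =
            ((x a + ∑ i ∈ s, x i) ^ p ^ k - (x a ^ p ^ k + (∑ i ∈ s, x i) ^ p ^ k)) +
              ((∑ i ∈ s, x i) ^ p ^ k - ∑ i ∈ s, x i ^ p ^ k) := by ring
        rw [e]
        exact (IsUltrametricDist.norm_add_le_max _ _).trans
          (max_le (norm_add_pow_sub_le hp k hxa ih1) ih2)
  exact key.2

/-- P4.  The version for a difference. Proof: P3 for `x + (-y)`; `(-y) ^ (p ^ k) = - y ^ (p ^ k)` if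
`p ^ k` is odd; if it is even then `p = 2`, and `(-y) ^ (p ^ k) + y ^ (p ^ k) = 2 * y ^ (p ^ k)`. -/
theorem norm_sub_pow_sub_le {p : ℕ} (hp : p.Prime) (k : ℕ) {x y : Ω} {B : ℝ}
    (hx : ‖x‖ ^ p ^ k ≤ B) (hy : ‖y‖ ^ p ^ k ≤ B) :
    ‖(x - y) ^ p ^ k - (x ^ p ^ k - y ^ p ^ k)‖ ≤ ‖(p : Ω)‖ * B := by
  have hy' : ‖-y‖ ^ p ^ k ≤ B := by rwa [norm_neg]
  have h1 := norm_add_pow_sub_le hp k hx hy'
  have e : (x - y) ^ p ^ k - (x ^ p ^ k - y ^ p ^ k) =
      ((x + -y) ^ p ^ k - (x ^ p ^ k + (-y) ^ p ^ k)) + ((-y) ^ p ^ k + y ^ p ^ k) := by ring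
  rw [e]
  refine (IsUltrametricDist.norm_add_le_max _ _).trans (max_le h1 ?_)
  rcases Nat.even_or_odd (p ^ k) with h | h
  · rw [h.neg_pow, ← two_mul, norm_mul, norm_pow]
    have hpe : Even p := by
      by_contra hodd
      rw [Nat.not_even_iff_odd] at hodd
      exact (Nat.not_even_iff_odd.2 (hodd.pow)) h
    have hp2 : p = 2 := (hp.even_iff).1 hpe
    have h2 : ‖(2 : Ω)‖ = ‖(p : Ω)‖ := by
      rw [hp2]
      norm_num
    rw [h2]
    exact mul_le_mul_of_nonneg_left hy (norm_nonneg _)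
  · rw [h.neg_pow, neg_add_cancel, norm_zero]
    have hB : 0 ≤ B := le_trans (by positivity) hx
    positivity

/-- P5.  Roots of close elements are close (from P4). -/
theorem norm_sub_pow_le {p : ℕ} (hp : p.Prime) (k : ℕ) {x y : Ω} {B e : ℝ}
    (hx : ‖x‖ ^ p ^ k ≤ B) (hy : ‖y‖ ^ p ^ k ≤ B) (he : ‖x ^ p ^ k - y ^ p ^ k‖ ≤ e)
    (hpB : ‖(p : Ω)‖ * B ≤ e) : ‖x - y‖ ^ p ^ k ≤ e := by
  have h1 := norm_sub_pow_sub_le hp k hx hy
  rw [← norm_pow]
  have e1 : (x - y) ^ p ^ k =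
      ((x - y) ^ p ^ k - (x ^ p ^ k - y ^ p ^ k)) + (x ^ p ^ k - y ^ p ^ k) := by ring
  rw [e1]
  exact (IsUltrametricDist.norm_add_le_max _ _).trans (max_le (h1.trans hpB) he)

end MP1a953e
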