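import Pool.Agent.Lib.MP_1a953e_ag.Calc3
import Pool.Agent.Lib.MP_1a953e_ag.DPow

/-!
# Module DCalc: uniform values of the Hasse derivatives near `T`
-/

namespace MP1a953e

open Polynomial

variable {Ω : Type*} [NormedField Ω] [IsUltrametricDist Ω]

omit [IsUltrametricDist Ω] in
private theorem dcalc_coeffs_hasseDeriv {F : Subfield Ω} {g : Polynomial Ω} (hg : Coeffs F g)
    (q : ℕ) : Coeffs F (hasseDeriv q g) := by
  intro i
  rw [hasseDeriv_coeff]
  exact F.mul_mem (natCast_mem F _) (hg _)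

private theorem dcalc_coeff_prod_le {ρ : ℝ} (hρ0 : 0 < ρ) (s : Multiset Ω)
    (hs : ∀ c ∈ s, ρ ≤ ‖c‖) :
    ∀ i : ℕ, ‖((s.map fun c => (X + C c : Polynomial Ω)).prod).coeff i‖ * ρ ^ i ≤ ‖s.prod‖ := by
  induction s using Multiset.induction with
  | empty =>
    intro i
    simp only [Multiset.map_zero, Multiset.prod_zero, norm_one]
    rw [coeff_one]
    by_cases hi : i = 0
    · simp [hi]
    · simp [hi]
  | cons c s ih =>
    have ih' := ih (fun c hc => hs c (Multiset.mem_cons_of_mem hc))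
    have hc : ρ ≤ ‖c‖ := hs c (Multiset.mem_cons_self c s)
    intro i
    simp only [Multiset.map_cons, Multiset.prod_cons, norm_mul]
    set P : Polynomial Ω := (s.map fun c => (X + C c : Polynomial Ω)).prod with hP
    have key : ‖((X + C c) * P).coeff i‖ ≤
        max (if i = 0 then 0 else ‖P.coeff (i - 1)‖) (‖c‖ * ‖P.coeff i‖) := by
      rw [add_mul, coeff_add, coeff_C_mul]
      refine (IsUltrametricDist.norm_add_le_max _ _).trans (max_le_max ?_ (norm_mul _ _).le)
      rcases i with _ | i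
      · simp
      · simp [coeff_X_mul]
    refine (mul_le_mul_of_nonneg_right key (pow_nonneg hρ0.le i)).trans ?_
    rw [max_mul_of_nonneg _ _ (pow_nonneg hρ0.le i)]
    refine max_le ?_ ?_
    · rcases i with _ | i
      · simp only [if_true, zero_mul]
        positivity
      · simp only [Nat.succ_ne_zero, if_false, Nat.add_sub_cancel]
        calc ‖P.coeff i‖ * ρ ^ (i + 1) = (‖P.coeff i‖ * ρ ^ i) * ρ := by ring
          _ ≤ ‖s.prod‖ * ‖c‖ := mul_le_mul (ih' i) hc hρ0.le (norm_nonneg _)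
          _ = ‖c‖ * ‖s.prod‖ := mul_comm _ _
    · calc ‖c‖ * ‖P.coeff i‖ * ρ ^ i = ‖c‖ * (‖P.coeff i‖ * ρ ^ i) := by ring
        _ ≤ ‖c‖ * ‖s.prod‖ := mul_le_mul_of_nonneg_left (ih' i) (norm_nonneg _)

private theorem dcalc_exists_gap {ι : Type*} (s : Multiset ι) (f : ι → ℝ) (r : ℝ)
    (h : ∀ x ∈ s, r < f x) : ∃ ρ > r, ∀ x ∈ s, ρ ≤ f x := by
  induction s using Multiset.induction with
  | empty => exact ⟨r + 1, by simp, by simp⟩
  | cons c s ih =>
    obtain ⟨ρ, hρ, h1⟩ := ih fun x hx => h x (Multiset.mem_cons_of_mem hx)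
    refine ⟨min ρ (f c), lt_min hρ (h c (Multiset.mem_cons_self c s)), ?_⟩
    intro x hx
    rcases Multiset.mem_cons.1 hx with rfl | hx
    · exact min_le_right _ _
    · exact (min_le_left _ _).trans (h1 x hx)

omit [IsUltrametricDist Ω] in
private theorem dcalc_root_algebraic {F : Subfield Ω} {g : Polynomial Ω} (hg : Coeffs F g)
    (hg0 : g ≠ 0) {β : Ω} (hβ : g.eval β = 0) : IsAlgebraic F β := by
  have hl : g ∈ lifts (algebraMap F Ω) := by
    rw [lifts_iff_coeff_lifts]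
    intro n
    exact ⟨⟨g.coeff n, hg n⟩, rfl⟩
  obtain ⟨q, hq⟩ := (mem_lifts g).1 hl
  refine ⟨q, ?_, ?_⟩
  · rintro rfl
    rw [Polynomial.map_zero] at hq
    exact hg0 hq.symm
  · rw [← eval_map_algebraMap, hq]
    exact hβ

private theorem dcalc_taylor_le [IsAlgClosed Ω] {G : Polynomial Ω} {b : Ω} {ρ : ℝ} (hρ0 : 0 < ρ)
    (hρ : ∀ β ∈ G.roots, ρ ≤ ‖b - β‖) (i : ℕ) :
    ‖(hasseDeriv i G).eval b‖ * ρ ^ i ≤ ‖G.eval b‖ := by
  have hfac : G = C G.leadingCoeff * (G.roots.map fun β => X - C β).prod :=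
    (IsAlgClosed.splits G).eq_prod_roots
  have htay : taylor b G =
      C G.leadingCoeff * ((G.roots.map fun β => b - β).map fun c => (X + C c : Polynomial Ω)).prod := by
    conv_lhs => rw [hfac]
    rw [taylor_mul, taylor_C]
    congr 1
    rw [Multiset.map_map]
    have : ∀ s : Multiset Ω, taylor b ((s.map fun β => X - C β).prod) =
        (s.map ((fun c => (X + C c : Polynomial Ω)) ∘ fun β => b - β)).prod := by
      intro s
      induction s using Multiset.induction with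
      | empty => simp
      | cons c s ih =>
        rw [Multiset.map_cons, Multiset.prod_cons, taylor_mul, ih, Multiset.map_cons,
          Multiset.prod_cons]
        congr 1
        simp only [map_sub, taylor_X, taylor_C, Function.comp_apply]
        ring
    exact this _
  have hev : G.eval b = G.leadingCoeff * (G.roots.map fun β => b - β).prod := by
    conv_lhs => rw [hfac]
    rw [eval_mul, eval_C, eval_multiset_prod, Multiset.map_map]
    congr 2
    refine Multiset.map_congr rfl fun β _ => ?_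
    simp
  rw [← taylor_coeff, htay, coeff_C_mul, norm_mul, hev, norm_mul, mul_assoc]
  refine mul_le_mul_of_nonneg_left (dcalc_coeff_prod_le hρ0 _ ?_ i) (norm_nonneg _)
  intro c hc
  obtain ⟨β, hβ, rfl⟩ := Multiset.mem_map.1 hc
  exact hρ β hβ

/-- UN1.  The Taylor coefficients at `T` of a polynomial over `F`: uniform radius `R > r`.
Proof: if `g = 0` take `R = r + 1`. Otherwise factor `g = C lc * ∏ (X - β)` over `Ω`; the roots `β` are
algebraic over `F`, so `r < ‖T - β‖`; let `R > r` be a lower bound of the finitely many numbers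
`‖T - β‖`. The `j`-th Taylor coefficient at `T` is `lc` times the sum of all products of all but `j` of
the factors `T - β`, each of norm `≤ ∏ ‖T - β‖ / R ^ j`. (Compare the private lemmas
`coeff_prod_le`, `exists_gap`, `root_algebraic` and the proof of `taylor_lt` in Calc1.) -/
theorem TT.unif [IsAlgClosed Ω] {F : Subfield Ω} {T : Ω} (hT : TT F T) {g : Polynomial Ω}
    (hg : Coeffs F g) :
    ∃ R > Metric.infDist T (F : Set Ω), ∀ j,
      ‖(hasseDeriv j g).eval T‖ * R ^ j ≤ ‖g.eval T‖ := by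
  by_cases hg0 : g = 0
  · refine ⟨Metric.infDist T (F : Set Ω) + 1, by simp, fun j => ?_⟩
    simp [hg0]
  · obtain ⟨R, hR, h1⟩ := dcalc_exists_gap g.roots (fun β => ‖T - β‖)
      (Metric.infDist T (F : Set Ω))
      (fun β hβ => hT.nb β (dcalc_root_algebraic hg hg0 ((mem_roots hg0).1 hβ)))
    exact ⟨R, hR, fun j => dcalc_taylor_le (hT.pos.trans hR) h1 j⟩

/-- UN2.  The same for all Hasse derivatives of `g`, which moreover have constant norm near `T`. Proof:
`TT.unif` and `TT.ec` for the finitely many nonzero polynomials `hasseDeriv k (hasseDeriv i g)`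
(`i, k ≤ g.natDegree`; the others are `0`); take the minimum of the radii. (`hasseDeriv 0 g = g`.) The
second item is the case `i = 0` of the first item of UN2, the third one is the case `i = 1`:
`hasseDeriv (l - 1) (hasseDeriv 1 g) = l • hasseDeriv l g` (`hasseDeriv_comp`) and
`‖(l : Ω)‖ = 1` (`norm_natCast_eq_one`). -/
theorem TT.unif_all [IsAlgClosed Ω] {p : ℕ} (hp : p.Prime) (hpn : ‖(p : Ω)‖ < 1)
    {F : Subfield Ω} {T : Ω} (hT : TT F T) {g : Polynomial Ω} (hg : Coeffs F g) :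
    ∃ R > Metric.infDist T (F : Set Ω),
      (∀ i k, ‖(hasseDeriv k (hasseDeriv i g)).eval T‖ * R ^ k ≤ ‖(hasseDeriv i g).eval T‖) ∧
      (∀ l, ‖(hasseDeriv l g).eval T‖ * R ^ l ≤ ‖g.eval T‖) ∧
      (∀ l, 1 ≤ l → ¬ p ∣ l →
        ‖(hasseDeriv l g).eval T‖ * R ^ (l - 1) ≤ ‖(hasseDeriv 1 g).eval T‖) ∧
      (∀ a : Ω, ‖T - a‖ < R → ∀ i k,
        ‖(hasseDeriv k (hasseDeriv i g)).eval a‖ = ‖(hasseDeriv k (hasseDeriv i g)).eval T‖) ∧
      (∀ a : Ω, ‖T - a‖ < R → ∀ l, ‖(hasseDeriv l g).eval a‖ = ‖(hasseDeriv l g).eval T‖) := by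
  set r := Metric.infDist T (F : Set Ω) with hr
  have hr0 : 0 < r := hT.pos
  -- the radii
  have hex : ∀ q : ℕ × ℕ, ∃ R > r,
      (‖(hasseDeriv q.2 (hasseDeriv q.1 g)).eval T‖ * R ^ q.2 ≤ ‖(hasseDeriv q.1 g).eval T‖) ∧
      (∀ a : Ω, ‖T - a‖ < R → ‖(hasseDeriv q.2 (hasseDeriv q.1 g)).eval a‖ =
        ‖(hasseDeriv q.2 (hasseDeriv q.1 g)).eval T‖) := by
    intro q
    obtain ⟨R₁, hR₁, h1⟩ := hT.unif (dcalc_coeffs_hasseDeriv hg q.1)
    obtain ⟨R₂, hR₂, h2⟩ := hT.ec (dcalc_coeffs_hasseDeriv (dcalc_coeffs_hasseDeriv hg q.1) q.2)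
    refine ⟨min R₁ R₂, lt_min hR₁ hR₂, ?_, fun a ha => h2 a (lt_of_lt_of_le ha (min_le_right _ _))⟩
    refine le_trans ?_ (h1 q.2)
    refine mul_le_mul_of_nonneg_left ?_ (norm_nonneg _)
    exact pow_le_pow_left₀ (le_min (hr0.trans hR₁).le (hr0.trans hR₂).le) (min_le_left _ _) _
  choose Rf hRf hRf1 hRf2 using hex
  set N := g.natDegree with hN
  obtain ⟨R, hR, hmin⟩ := dcalc_exists_gap
    ((Finset.range (N + 1) ×ˢ Finset.range (N + 1)).val) Rf r (fun q _ => hRf q)
  have hR0 : 0 < R := hr0.trans hR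
  have hmin' : ∀ i k, i ≤ N → k ≤ N → R ≤ Rf (i, k) := by
    intro i k hi hk
    refine hmin (i, k) ?_
    rw [Finset.mem_val, Finset.mem_product, Finset.mem_range, Finset.mem_range]
    exact ⟨by simpa using Nat.lt_succ_of_le hi, by simpa using Nat.lt_succ_of_le hk⟩
  have hzero : ∀ i k, ¬ (i ≤ N ∧ k ≤ N) → hasseDeriv k (hasseDeriv i g) = 0 := by
    intro i k hik
    by_cases hi : i ≤ N
    · have hk : N < k := by
        by_contra hcon
        exact hik ⟨hi, not_lt.1 hcon⟩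
      refine hasseDeriv_eq_zero_of_lt_natDegree _ _ (lt_of_le_of_lt ?_ hk)
      exact (natDegree_hasseDeriv_le g i).trans (Nat.sub_le _ _)
    · rw [hasseDeriv_eq_zero_of_lt_natDegree g i (not_le.1 hi), map_zero]
  have h1 : ∀ i k, ‖(hasseDeriv k (hasseDeriv i g)).eval T‖ * R ^ k ≤
      ‖(hasseDeriv i g).eval T‖ := by
    intro i k
    by_cases hik : i ≤ N ∧ k ≤ N
    · refine le_trans ?_ (hRf1 (i, k))
      refine mul_le_mul_of_nonneg_left ?_ (norm_nonneg _)
      exact pow_le_pow_left₀ hR0.le (hmin' i k hik.1 hik.2) _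
    · rw [hzero i k hik, eval_zero, norm_zero, zero_mul]
      exact norm_nonneg _
  have h4 : ∀ a : Ω, ‖T - a‖ < R → ∀ i k,
        ‖(hasseDeriv k (hasseDeriv i g)).eval a‖ = ‖(hasseDeriv k (hasseDeriv i g)).eval T‖ := by
    intro a ha i k
    by_cases hik : i ≤ N ∧ k ≤ N
    · exact hRf2 (i, k) a (lt_of_lt_of_le ha (hmin' i k hik.1 hik.2))
    · rw [hzero i k hik, eval_zero, eval_zero]
  refine ⟨R, hR, h1, fun l => ?_, fun l hl hpl => ?_, h4, fun a ha l => ?_⟩
  · have h := h1 0 l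
    rw [hasseDeriv_zero'] at h
    exact h
  · have h := h1 1 (l - 1)
    have hcomp : hasseDeriv (l - 1) (hasseDeriv 1 g) = (l : ℕ) • hasseDeriv l g := by
      have h := congrArg (fun L : Polynomial Ω →ₗ[Ω] Polynomial Ω => L g)
        (hasseDeriv_comp (R := Ω) (l - 1) 1)
      simp only [LinearMap.comp_apply, LinearMap.smul_apply] at h
      rw [h, Nat.sub_add_cancel hl, Nat.choose_symm hl, Nat.choose_one_right]
    rw [hcomp, eval_smul, nsmul_eq_mul, norm_mul, norm_natCast_eq_one hp hpn hpl, one_mul] at h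
    exact h
  · have h := h4 a ha 0 l
    rw [hasseDeriv_zero'] at h
    exact h

/-- UN3.  Derivative: `TT.dist_le` with `b = 0`, `i = 1`; `hasseDeriv_one`. -/
theorem TT.deriv_le [IsAlgClosed Ω] {F : Subfield Ω} {T : Ω} (hT : TT F T) {g : Polynomial Ω}
    (hg : Coeffs F g) :
    ‖g.derivative.eval T‖ * Metric.infDist T (F : Set Ω) ≤ ‖g.eval T‖ := by
  have h := hT.dist_le hg F.zero_mem (i := 1) le_rfl
  rw [hasseDeriv_one', pow_one, sub_zero] at h
  exact h

/-- UN4.  Lipschitz estimate: `g s - g T = ∑_{j ≥ 1} (hasseDeriv j g) T * (s - T) ^ j` and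
`‖(hasseDeriv j g) T‖ * r ^ j ≤ ‖g T‖` (`TT.dist_le` with `b = 0`), `(‖T - s‖ / r) ^ j ≤ ‖T - s‖ / r`
for `j ≥ 1`. (Compare the private lemma `eval_close` of Calc4.) -/
theorem TT.lip [IsAlgClosed Ω] {F : Subfield Ω} {T : Ω} (hT : TT F T) {g : Polynomial Ω}
    (hg : Coeffs F g) {s : Ω} (hs : ‖T - s‖ ≤ Metric.infDist T (F : Set Ω)) :
    ‖g.eval T - g.eval s‖ ≤ ‖g.eval T‖ * (‖T - s‖ / Metric.infDist T (F : Set Ω)) := by
  set r := Metric.infDist T (F : Set Ω) with hr
  have hr0 : 0 < r := hT.pos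
  have hTs : ‖s - T‖ = ‖T - s‖ := norm_sub_rev _ _
  have hexp : g.eval s - g.eval T =
      ∑ i ∈ Finset.Icc 1 g.natDegree, (hasseDeriv i g).eval T * (s - T) ^ i := by
    have e1 : g.eval s = (taylor T g).eval (s - T) := by rw [taylor_eval_sub]
    rw [e1, eval_eq_sum_range, natDegree_taylor]
    have e2 : Finset.range (g.natDegree + 1) = insert 0 (Finset.Icc 1 g.natDegree) := by
      ext j
      simp only [Finset.mem_range, Finset.mem_insert, Finset.mem_Icc]
      omega
    rw [e2, Finset.sum_insert (by simp)]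
    simp only [taylor_coeff, pow_zero, mul_one, hasseDeriv_zero, LinearMap.id_coe, id_eq]
    ring
  rw [norm_sub_rev, hexp]
  refine IsUltrametricDist.norm_sum_le_of_forall_le_of_nonneg (by positivity) fun i hi => ?_
  have hi1 : 1 ≤ i := (Finset.mem_Icc.1 hi).1
  have h1 := hT.dist_le hg F.zero_mem (i := i) hi1
  rw [sub_zero, ← hr] at h1
  have hq0 : 0 ≤ ‖T - s‖ / r := by positivity
  have hq1 : ‖T - s‖ / r ≤ 1 := (div_le_one hr0).2 hs
  rw [norm_mul, norm_pow, hTs]
  calc ‖(hasseDeriv i g).eval T‖ * ‖T - s‖ ^ i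
      = (‖(hasseDeriv i g).eval T‖ * r ^ i) * (‖T - s‖ / r) ^ i := by
        rw [div_pow]
        field_simp
    _ ≤ ‖g.eval T‖ * (‖T - s‖ / r) ^ i := mul_le_mul_of_nonneg_right h1 (pow_nonneg hq0 _)
    _ ≤ ‖g.eval T‖ * (‖T - s‖ / r) := by
        refine mul_le_mul_of_nonneg_left ?_ (norm_nonneg _)
        exact pow_le_of_le_one hq0 hq1 (by omega)

end MP1a953e
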