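import Pool.Agent.Lib.MP_1a953e_ag.Defs

/-!
# Module Calc1: values of polynomials near T
-/

namespace MP1a953e

open Polynomial

variable {Ω : Type*} [NormedField Ω] [IsUltrametricDist Ω]

private theorem norm_sub_eq_left {x y : Ω} (h : ‖y‖ < ‖x‖) : ‖x - y‖ = ‖x‖ := by
  have h1 : ‖x‖ ≠ ‖-y‖ := by rw [norm_neg]; exact ne_of_gt h
  rw [sub_eq_add_neg, IsUltrametricDist.norm_add_eq_max_of_norm_ne_norm h1, norm_neg]
  exact max_eq_left h.le

private theorem norm_shift {α b β : Ω} (h : ‖α - b‖ < ‖α - β‖) : ‖b - β‖ = ‖α - β‖ := by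
  have h1 := norm_sub_eq_left h
  have h2 : α - β - (α - b) = b - β := by ring
  rw [h2] at h1
  exact h1

private theorem coeff_prod_le {ρ : ℝ} (hρ0 : 0 < ρ) (s : Multiset Ω) (hs : ∀ c ∈ s, ρ ≤ ‖c‖) :
    ∀ i : ℕ, ‖((s.map fun c => (X + C c : Polynomial Ω)).prod).coeff i‖ * ρ ^ i ≤ ‖s.prod‖ := by
  induction s using Multiset.induction with
  | empty =>
    intro i
    simp only [Multiset.map_zero, Multiset.prod_zero, norm_one]
    rw [coeff_one]
    by_cases hi : i = 0
    · simp [hi]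
    · simp [hi]
  | cons c s ih =>
    have ih' := ih (fun c hc => hs c (Multiset.mem_cons_of_mem hc))
    have hc : ρ ≤ ‖c‖ := hs c (Multiset.mem_cons_self c s)
    intro i
    simp only [Multiset.map_cons, Multiset.prod_cons, norm_mul]
    set P : Polynomial Ω := (s.map fun c => (X + C c : Polynomial Ω)).prod with hP
    have key : ‖((X + C c) * P).coeff i‖ ≤
        max (if i = 0 then 0 else ‖P.coeff (i - 1)‖) (‖c‖ * ‖P.coeff i‖) := by
      rw [add_mul, coeff_add, coeff_C_mul]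
      refine (IsUltrametricDist.norm_add_le_max _ _).trans (max_le_max ?_ (norm_mul _ _).le)
      rcases i with _ | i
      · simp
      · simp [coeff_X_mul]
    refine (mul_le_mul_of_nonneg_right key (pow_nonneg hρ0.le i)).trans ?_
    rw [max_mul_of_nonneg _ _ (pow_nonneg hρ0.le i)]
    refine max_le ?_ ?_
    · rcases i with _ | i
      · simp only [if_true, zero_mul]
        positivity
      · simp only [Nat.succ_ne_zero, if_false, Nat.add_sub_cancel]
        calc ‖P.coeff i‖ * ρ ^ (i + 1) = (‖P.coeff i‖ * ρ ^ i) * ρ := by ring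
          _ ≤ ‖s.prod‖ * ‖c‖ := mul_le_mul (ih' i) hc hρ0.le (norm_nonneg _)
          _ = ‖c‖ * ‖s.prod‖ := mul_comm _ _
    · calc ‖c‖ * ‖P.coeff i‖ * ρ ^ i = ‖c‖ * (‖P.coeff i‖ * ρ ^ i) := by ring
        _ ≤ ‖c‖ * ‖s.prod‖ := mul_le_mul_of_nonneg_left (ih' i) (norm_nonneg _)

/-- CAL1.  Taylor coefficients away from the roots. If `‖α - b‖ < ρ ≤ ‖α - β‖` for all roots `β` of
`G`, then `‖b - β‖ = ‖α - β‖`, and the `i`-th Taylor coefficient at `b`, a sum of products of all but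
`i` of the factors `b - β`, has norm `≤ ‖G b‖ / ρ ^ i`; hence the strict inequality. -/
theorem taylor_lt [IsAlgClosed Ω] {G : Polynomial Ω} (hG : G ≠ 0) {α b : Ω} {ρ : ℝ}
    (hρ : ∀ β ∈ G.roots, ρ ≤ ‖α - β‖) (hb : ‖α - b‖ < ρ) (i : ℕ) (hi : 1 ≤ i) :
    ‖(hasseDeriv i G).eval b‖ * ‖α - b‖ ^ i < ‖G.eval b‖ := by
  have hρ0 : 0 < ρ := lt_of_le_of_lt (norm_nonneg _) hb
  have hfac : G = C G.leadingCoeff * (G.roots.map fun β => X - C β).prod :=
    (IsAlgClosed.splits G).eq_prod_roots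
  have hbβ : ∀ β ∈ G.roots, ρ ≤ ‖b - β‖ := by
    intro β hβ
    rw [norm_shift (lt_of_lt_of_le hb (hρ β hβ))]
    exact hρ β hβ
  have htay : taylor b G =
      C G.leadingCoeff * ((G.roots.map fun β => b - β).map fun c => (X + C c : Polynomial Ω)).prod := by
    conv_lhs => rw [hfac]
    rw [taylor_mul, taylor_C]
    congr 1
    rw [Multiset.map_map]
    have : ∀ s : Multiset Ω, taylor b ((s.map fun β => X - C β).prod) =
        (s.map ((fun c => (X + C c : Polynomial Ω)) ∘ fun β => b - β)).prod := by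
      intro s
      induction s using Multiset.induction with
      | empty => simp
      | cons c s ih =>
        rw [Multiset.map_cons, Multiset.prod_cons, taylor_mul, ih, Multiset.map_cons,
          Multiset.prod_cons]
        congr 1
        simp only [map_sub, taylor_X, taylor_C, Function.comp_apply]
        ring
    exact this _
  have hev : G.eval b = G.leadingCoeff * (G.roots.map fun β => b - β).prod := by
    conv_lhs => rw [hfac]
    rw [eval_mul, eval_C, eval_multiset_prod, Multiset.map_map]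
    congr 2
    refine Multiset.map_congr rfl fun β _ => ?_
    simp
  have hle : ‖(hasseDeriv i G).eval b‖ * ρ ^ i ≤ ‖G.eval b‖ := by
    rw [← taylor_coeff, htay, coeff_C_mul, norm_mul, hev, norm_mul, mul_assoc]
    refine mul_le_mul_of_nonneg_left (coeff_prod_le hρ0 _ ?_ i) (norm_nonneg _)
    intro c hc
    obtain ⟨β, hβ, rfl⟩ := Multiset.mem_map.1 hc
    exact hbβ β hβ
  have hpos : 0 < ‖G.eval b‖ := by
    rw [norm_pos_iff]
    intro h0
    have hroot : b ∈ G.roots := by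
      rw [mem_roots hG]
      exact h0
    have h1 := hbβ b hroot
    rw [sub_self, norm_zero] at h1
    linarith
  by_cases h0 : ‖(hasseDeriv i G).eval b‖ = 0
  · rw [h0, zero_mul]
    exact hpos
  · have h1 : 0 < ‖(hasseDeriv i G).eval b‖ := lt_of_le_of_ne (norm_nonneg _) (Ne.symm h0)
    have h2 : ‖α - b‖ ^ i < ρ ^ i := pow_lt_pow_left₀ hb (norm_nonneg _) (by omega)
    exact lt_of_lt_of_le (mul_lt_mul_of_pos_left h2 h1) hle

private theorem exists_gap {ι : Type*} (s : Multiset ι) (f : ι → ℝ) (r : ℝ) (h : ∀ x ∈ s, r < f x) :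
    ∃ ρ > r, ∀ x ∈ s, ρ ≤ f x := by
  induction s using Multiset.induction with
  | empty => exact ⟨r + 1, by simp, by simp⟩
  | cons c s ih =>
    obtain ⟨ρ, hρ, h1⟩ := ih fun x hx => h x (Multiset.mem_cons_of_mem hx)
    refine ⟨min ρ (f c), lt_min hρ (h c (Multiset.mem_cons_self c s)), ?_⟩
    intro x hx
    rcases Multiset.mem_cons.1 hx with rfl | hx
    · exact min_le_right _ _
    · exact (min_le_left _ _).trans (h1 x hx)

private theorem root_algebraic {F : Subfield Ω} {g : Polynomial Ω} (hg : Coeffs F g) (hg0 : g ≠ 0)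
    {β : Ω} (hβ : g.eval β = 0) : IsAlgebraic F β := by
  have hl : g ∈ lifts (algebraMap F Ω) := by
    rw [lifts_iff_coeff_lifts]
    intro n
    exact ⟨⟨g.coeff n, hg n⟩, rfl⟩
  obtain ⟨q, hq⟩ := (mem_lifts g).1 hl
  refine ⟨q, ?_, ?_⟩
  · rintro rfl
    rw [Polynomial.map_zero] at hq
    exact hg0 hq.symm
  · rw [← eval_map_algebraMap, hq]
    exact hβ

private theorem prod_strict {T a : Ω} (s : Multiset Ω) (hs : ∀ β ∈ s, ‖T - a‖ < ‖T - β‖) :
    ‖(s.map fun β => T - β).prod - (s.map fun β => a - β).prod‖ < ‖(s.map fun β => a - β).prod‖ := by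
  induction s using Multiset.induction with
  | empty => simp
  | cons c s ih =>
    have ih' := ih fun x hx => hs x (Multiset.mem_cons_of_mem hx)
    have hc : ‖T - a‖ < ‖T - c‖ := hs c (Multiset.mem_cons_self c s)
    have hac : ‖a - c‖ = ‖T - c‖ := norm_shift hc
    simp only [Multiset.map_cons, Multiset.prod_cons]
    set P := (s.map fun β => T - β).prod
    set Q := (s.map fun β => a - β).prod
    have hQ : 0 < ‖Q‖ := lt_of_le_of_lt (norm_nonneg _) ih'
    have e : (T - c) * P - (a - c) * Q = (T - c) * (P - Q) + (T - a) * Q := by ring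
    rw [e]
    refine lt_of_le_of_lt (IsUltrametricDist.norm_add_le_max _ _) (max_lt ?_ ?_)
    · rw [norm_mul, norm_mul, hac]
      exact mul_lt_mul_of_pos_left ih' (lt_of_le_of_lt (norm_nonneg _) hc)
    · rw [norm_mul, norm_mul, hac]
      exact mul_lt_mul_of_pos_right hc hQ

/-- CAL3.  Strict version: `‖g T - g a‖ < ‖g a‖` for `a` close to `T` (each quotient
`(T - β) / (a - β) - 1` has norm `< 1`). -/
theorem TT.ec_strict [IsAlgClosed Ω] {F : Subfield Ω} {T : Ω} (hT : TT F T) {g : Polynomial Ω}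
    (hg : Coeffs F g) (hg0 : g ≠ 0) :
    ∃ ρ > Metric.infDist T (F : Set Ω), ∀ a : Ω, ‖T - a‖ < ρ →
      ‖g.eval T - g.eval a‖ < ‖g.eval a‖ := by
  obtain ⟨ρ, hρ, h1⟩ := exists_gap g.roots (fun β => ‖T - β‖) (Metric.infDist T (F : Set Ω))
    (fun β hβ => hT.nb β (root_algebraic hg hg0 ((mem_roots hg0).1 hβ)))
  refine ⟨ρ, hρ, fun a ha => ?_⟩
  have hev : ∀ b : Ω, g.eval b = g.leadingCoeff * (g.roots.map fun β => b - β).prod := by
    intro b
    conv_lhs => rw [(IsAlgClosed.splits g).eq_prod_roots]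
    rw [eval_mul, eval_C, eval_multiset_prod, Multiset.map_map]
    congr 2
    refine Multiset.map_congr rfl fun β _ => ?_
    simp
  rw [hev T, hev a, ← mul_sub, norm_mul, norm_mul]
  refine mul_lt_mul_of_pos_left (prod_strict _ fun β hβ => lt_of_lt_of_le ha (h1 β hβ)) ?_
  rw [norm_pos_iff]
  exact leadingCoeff_ne_zero.2 hg0

/-- CAL2.  `‖g a‖ = ‖g T‖` for `a` close to `T`. Proof: factor `g` over `Ω`; its roots `β` are
algebraic over `F` (if `g ≠ 0`), so `r < ‖T - β‖`; take `ρ` the minimum of these norms (and `r + 1`);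
for `‖T - a‖ < ρ` we have `‖a - β‖ = ‖T - β‖`. -/
theorem TT.ec [IsAlgClosed Ω] {F : Subfield Ω} {T : Ω} (hT : TT F T) {g : Polynomial Ω}
    (hg : Coeffs F g) :
    ∃ ρ > Metric.infDist T (F : Set Ω), ∀ a : Ω, ‖T - a‖ < ρ → ‖g.eval a‖ = ‖g.eval T‖ := by
  by_cases hg0 : g = 0
  · refine ⟨Metric.infDist T (F : Set Ω) + 1, by simp, fun a _ => ?_⟩
    simp [hg0]
  · obtain ⟨ρ, hρ, h1⟩ := hT.ec_strict hg hg0
    refine ⟨ρ, hρ, fun a ha => ?_⟩
    have h2 := h1 a ha
    rw [norm_sub_rev] at h2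
    have h3 := norm_sub_eq_left h2
    rw [sub_sub_cancel] at h3
    exact h3.symm

/-- CAL4.  Points of `F` close to `T`: they exist, and all have distance `> r` from `T`. -/
theorem TT.exists_near {F : Subfield Ω} {T : Ω} (hT : TT F T) {ρ : ℝ}
    (hρ : Metric.infDist T (F : Set Ω) < ρ) :
    ∃ a ∈ F, ‖T - a‖ < ρ ∧ Metric.infDist T (F : Set Ω) < ‖T - a‖ := by
  have hne : (F : Set Ω).Nonempty := ⟨0, F.zero_mem⟩
  obtain ⟨a, ha, h1⟩ := (Metric.infDist_lt_iff hne).1 hρ
  refine ⟨a, ha, ?_, hT.nb a (isAlgebraic_algebraMap (⟨a, ha⟩ : F))⟩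
  rw [← dist_eq_norm]
  exact h1

end MP1a953e
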