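import Pool.Agent.Lib.MP_1a953e_ag.DImmA
import Pool.Agent.Lib.MP_1a953e_ag.Calc1
import Pool.Agent.Lib.MP_1a953e_ag.DPow

/-!
# Module DRoot: a root of `t - a₀`
-/

namespace MP1a953e

open Polynomial

variable {Ω : Type*} [NormedField Ω] [IsUltrametricDist Ω]

private theorem norm_sub_le_max' (x y : Ω) : ‖x - y‖ ≤ max ‖x‖ ‖y‖ := by
  rw [sub_eq_add_neg, ← norm_neg y]
  exact IsUltrametricDist.norm_add_le_max x (-y)

/-- RO1.  Let `w ^ (p ^ M) = t - a₀`, `v ^ (p ^ M) = a - a₀` with `a ∈ C`, `‖t - a‖ ≤ ‖t - a₀‖`. Then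
`‖w - v‖ ^ (p ^ M) ≤ ‖t - a‖`: `norm_sub_pow_le` with `B = ‖t - a₀‖`, `e = ‖t - a‖`,
`‖p‖ * ‖t - a₀‖ ≤ r < ‖t - a‖`. -/
theorem root_close {p : ℕ} (hp : p.Prime) {C : Subfield Ω} {t : Ω} (hT : TT C t) (M : ℕ)
    {a₀ : Ω} (hpr : ‖(p : Ω)‖ * ‖t - a₀‖ ≤ Metric.infDist t (C : Set Ω)) {w : Ω}
    (hw : w ^ p ^ M = t - a₀) {a : Ω} (ha : a ∈ C) (haa : ‖t - a‖ ≤ ‖t - a₀‖) {v : Ω}
    (hv : v ^ p ^ M = a - a₀) : ‖w - v‖ ^ p ^ M ≤ ‖t - a‖ := by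
  have hta : Metric.infDist t (C : Set Ω) < ‖t - a‖ :=
    hT.nb a (isAlgebraic_algebraMap (⟨a, ha⟩ : C))
  refine norm_sub_pow_le hp M (B := ‖t - a₀‖) ?_ ?_ ?_ (hpr.trans hta.le)
  · rw [← norm_pow, hw]
  · rw [← norm_pow, hv]
    have h1 : a - a₀ = (t - a₀) - (t - a) := by ring
    rw [h1]
    exact (norm_sub_le_max' _ _).trans (max_le le_rfl haa)
  · rw [hw, hv]
    have h1 : t - a₀ - (a - a₀) = t - a := by ring
    rw [h1]

/-- RO2.  For `v ∈ C`: `r < ‖w - v‖ ^ (p ^ M)`. Proof: if `‖w‖ ≤ ‖w - v‖` then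
`‖w - v‖ ^ (p ^ M) ≥ ‖w‖ ^ (p ^ M) = ‖t - a₀‖ > r`. Otherwise `‖v‖ = ‖w‖`, by `norm_sub_pow_sub_le` with
`B = ‖t - a₀‖` the elements `(w - v) ^ (p ^ M)` and `w ^ (p ^ M) - v ^ (p ^ M) = t - (a₀ + v ^ (p ^ M))`
differ by at most `‖p‖ * ‖t - a₀‖ ≤ r`, and the latter has norm `> r` (`a₀ + v ^ (p ^ M) ∈ C`). -/
theorem root_far {p : ℕ} (hp : p.Prime) {C : Subfield Ω} {t : Ω} (hT : TT C t) (M : ℕ)
    {a₀ : Ω} (ha₀ : a₀ ∈ C)
    (hpr : ‖(p : Ω)‖ * ‖t - a₀‖ ≤ Metric.infDist t (C : Set Ω)) {w : Ω}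
    (hw : w ^ p ^ M = t - a₀) {v : Ω} (hv : v ∈ C) :
    Metric.infDist t (C : Set Ω) < ‖w - v‖ ^ p ^ M := by
  have hta : Metric.infDist t (C : Set Ω) < ‖t - a₀‖ :=
    hT.nb a₀ (isAlgebraic_algebraMap (⟨a₀, ha₀⟩ : C))
  rcases le_or_gt ‖w‖ ‖w - v‖ with h | h
  · calc Metric.infDist t (C : Set Ω) < ‖t - a₀‖ := hta
      _ = ‖w‖ ^ p ^ M := by rw [← norm_pow, hw]
      _ ≤ ‖w - v‖ ^ p ^ M := pow_le_pow_left₀ (norm_nonneg _) h _
  · have hvw : ‖v‖ ≤ ‖w‖ := by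
      have h1 : v = w - (w - v) := by ring
      calc ‖v‖ = ‖w - (w - v)‖ := by rw [← h1]
        _ ≤ max ‖w‖ ‖w - v‖ := norm_sub_le_max' _ _
        _ = ‖w‖ := max_eq_left h.le
    have h1 := norm_sub_pow_sub_le (B := ‖t - a₀‖) hp M (x := w) (y := v)
      (by rw [← norm_pow, hw])
      (by
        refine (pow_le_pow_left₀ (norm_nonneg _) hvw _).trans ?_
        rw [← norm_pow, hw])
    by_contra hcon
    push Not at hcon
    have hmem : a₀ + v ^ p ^ M ∈ C := C.add_mem ha₀ (C.pow_mem hv _)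
    have h2 : Metric.infDist t (C : Set Ω) < ‖t - (a₀ + v ^ p ^ M)‖ :=
      hT.nb _ (isAlgebraic_algebraMap (⟨_, hmem⟩ : C))
    have h3 : t - (a₀ + v ^ p ^ M) = (w - v) ^ p ^ M - ((w - v) ^ p ^ M - (w ^ p ^ M - v ^ p ^ M)) := by
      rw [hw]
      ring
    rw [h3] at h2
    have h4 := norm_sub_le_max' ((w - v) ^ p ^ M)
      ((w - v) ^ p ^ M - (w ^ p ^ M - v ^ p ^ M))
    have h5 : max ‖(w - v) ^ p ^ M‖ ‖(w - v) ^ p ^ M - (w ^ p ^ M - v ^ p ^ M)‖ ≤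
        Metric.infDist t (C : Set Ω) := max_le (by rw [norm_pow]; exact hcon) (h1.trans hpr)
    exact absurd h2 (not_lt.2 (h4.trans h5))

/-- RO3.  `TT C w` with `dist(w, C) ^ (p ^ M) = r`. Proof: `dist(w, C) ^ (p ^ M) ≥ r` by RO2 and `≤ r` by RO1
and the existence of `a ∈ C` with `‖t - a‖` close to `r` (`TT.exists_near`) and of
`v ∈ C` with `v ^ (p ^ M) = a - a₀` (`rt_mem_pow`); elements algebraic over `C` are in `C`
(`mem_of_algebraic`). -/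
theorem root_tt [IsAlgClosed Ω] {p : ℕ} (hp : p.Prime) {C : Subfield Ω} (hC : IsAlgClosed C)
    {t : Ω} (hT : TT C t) (M : ℕ) {a₀ : Ω} (ha₀ : a₀ ∈ C)
    (hpr : ‖(p : Ω)‖ * ‖t - a₀‖ ≤ Metric.infDist t (C : Set Ω)) {w : Ω}
    (hw : w ^ p ^ M = t - a₀) :
    TT C w ∧ Metric.infDist w (C : Set Ω) ^ p ^ M = Metric.infDist t (C : Set Ω) := by
  have hne : (C : Set Ω).Nonempty := ⟨0, C.zero_mem⟩
  have hM : p ^ M ≠ 0 := pow_ne_zero _ hp.ne_zero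
  set r : ℝ := Metric.infDist t (C : Set Ω) with hr
  set d : ℝ := Metric.infDist w (C : Set Ω) with hd
  have hr0 : 0 < r := hT.pos
  have hd0 : 0 ≤ d := Metric.infDist_nonneg
  have hta : r < ‖t - a₀‖ := hT.nb a₀ (isAlgebraic_algebraMap (⟨a₀, ha₀⟩ : C))
  have h1 : r ≤ d ^ p ^ M := by
    by_contra hcon
    push Not at hcon
    have h2 : d < r ^ ((p ^ M : ℕ) : ℝ)⁻¹ := by
      have h3 : (d ^ p ^ M) ^ ((p ^ M : ℕ) : ℝ)⁻¹ = d := Real.pow_rpow_inv_natCast hd0 hM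
      rw [← h3]
      exact Real.rpow_lt_rpow (by positivity) hcon (by positivity)
    obtain ⟨v, hv, h3⟩ := (Metric.infDist_lt_iff hne).1 h2
    rw [dist_eq_norm] at h3
    have h4 := root_far hp hT M ha₀ hpr hw hv
    have h5 : ‖w - v‖ ^ p ^ M < r := by
      calc ‖w - v‖ ^ p ^ M < (r ^ ((p ^ M : ℕ) : ℝ)⁻¹) ^ p ^ M :=
            pow_lt_pow_left₀ h3 (norm_nonneg _) hM
        _ = r := Real.rpow_inv_natCast_pow hr0.le hM
    exact absurd h4 (not_lt.2 h5.le)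
  have h2 : d ^ p ^ M ≤ r := by
    by_contra hcon
    push Not at hcon
    obtain ⟨a, ha, h3, h4⟩ := hT.exists_near (lt_min hcon hta)
    obtain ⟨h5, h6⟩ := rt_mem_pow hC hp M (C.sub_mem ha ha₀)
    have h7 := root_close hp hT M hpr hw ha (h3.le.trans (min_le_right _ _)) h6
    have h8 : d ≤ ‖w - rt p M (a - a₀)‖ := by
      rw [← dist_eq_norm]
      exact Metric.infDist_le_dist_of_mem h5
    have h9 : d ^ p ^ M ≤ ‖t - a‖ := (pow_le_pow_left₀ hd0 h8 _).trans h7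
    exact absurd (h3.trans_le (min_le_left _ _)) (not_lt.2 h9)
  have h3 : d ^ p ^ M = r := le_antisymm h2 h1
  refine ⟨⟨?_, ?_⟩, h3⟩
  · rcases hd0.lt_or_eq with h | h
    · exact h
    · rw [← h, zero_pow hM] at h3
      linarith
  · intro b hb
    have hbC := mem_of_algebraic hC hb
    have h4 := root_far hp hT M ha₀ hpr hw hbC
    have h5 : d ^ p ^ M < ‖w - b‖ ^ p ^ M := by rw [h3]; exact h4
    exact lt_of_pow_lt_pow_left₀ _ (norm_nonneg _) h5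

end MP1a953e
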