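import Pool.Agent.Lib.MP_1a953e_ag.DLamA
import Pool.Agent.Lib.MP_1a953e_ag.DRoot
import Pool.Agent.Lib.MP_1a953e_ag.DCalc

/-!
# Module DLamB: the norm of `lam` near `t`
-/

namespace MP1a953e

open Polynomial

variable {Ω : Type*} [NormedField Ω] [IsUltrametricDist Ω]

private theorem lamb_coeffs_psi [IsAlgClosed Ω] {p : ℕ} (hp : p.Prime) {C : Subfield Ω}
    (hC : IsAlgClosed C) (M u : ℕ) {a₀ : Ω} (ha₀ : a₀ ∈ C) {n : Polynomial Ω} (hn : Coeffs C n) :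
    Coeffs C (Psi p M u a₀ n) := by
  have hev : ∀ g : Polynomial Ω, Coeffs C g → g.eval a₀ ∈ C := by
    intro g hg
    rw [eval_eq_sum_range]
    exact C.sum_mem fun i _ => C.mul_mem (hg i) (C.pow_mem ha₀ _)
  have hhd : ∀ g : Polynomial Ω, Coeffs C g → ∀ k, Coeffs C (hasseDeriv k g) := by
    intro g hg k i
    rw [hasseDeriv_coeff]
    exact C.mul_mem (natCast_mem C _) (hg _)
  intro m
  unfold Psi
  rw [finset_sum_coeff]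
  refine C.sum_mem fun i _ => ?_
  rw [finset_sum_coeff]
  refine C.sum_mem fun k _ => ?_
  rw [coeff_C_mul_X_pow]
  split_ifs
  · exact (rt_mem_pow hC hp i (hev _ (hhd _ (hhd _ hn _) _))).1
  · exact C.zero_mem

/-- LA3.  For `a ∈ C` near `t` the norm of `lam p M u (taylor a n)` is constant and positive, or
`‖lam p M u (taylor a n)‖ * ‖t - a‖ ^ u ≤ η`.
Proof: choose `a₀ ∈ C` with `r < ‖t - a₀‖ < min R (2 * r / (1 + ‖p‖))` (`R` from `TT.unif_all`), so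
`‖p‖ * ‖t - a₀‖ ≤ r`; `w ∈ Ω` with `w ^ (p ^ M) = t - a₀`. `TT C w` by `root_tt`, and
`Ψ = Psi p M u a₀ n` has coefficients in `C` (`rt_mem_pow`, `a₀ ∈ C`). By `TT.ec` there is `ρ' > dist(w, C)` with
`‖Ψ v‖ = ‖Ψ w‖` for `‖w - v‖ < ρ'`. If `‖t - a‖ < min (ρ' ^ (p ^ M)) ‖t - a₀‖` (both are `> r`), `a ∈ C`,
choose `v` with `v ^ (p ^ M) = a - a₀`; `root_close` gives `‖w - v‖ ^ (p ^ M) ≤ ‖t - a‖ < ρ' ^ (p ^ M)`.
So `‖Ψ v‖ = ‖Ψ w‖ =: A`, and LA2 gives `‖lam - Ψ v‖ * ‖t - a₀‖ ^ u ≤ η`. If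
`η < A * ‖t - a₀‖ ^ u`, then `‖lam‖ = A` (and `A > 0`); otherwise
`‖lam‖ * ‖t - a‖ ^ u ≤ ‖lam‖ * ‖t - a₀‖ ^ u ≤ η`. -/
theorem lam_ec [IsAlgClosed Ω] {p : ℕ} (hp : p.Prime) (hpn : ‖(p : Ω)‖ < 1) {C : Subfield Ω}
    (hC : IsAlgClosed C) {t : Ω} (hT : TT C t) {n : Polynomial Ω} (hn : Coeffs C n) (M u : ℕ)
    {η : ℝ} (hη0 : 0 ≤ η) (hη1 : η ≤ 1) (hη : ‖(p : Ω)‖ * ‖n.eval t‖ ≤ η ^ p ^ M) :
    ∃ ρ' > Metric.infDist t (C : Set Ω),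
      (∃ A : ℝ, 0 < A ∧ ∀ a ∈ C, ‖t - a‖ < ρ' → ‖lam p M u (taylor a n)‖ = A) ∨
      (∀ a ∈ C, ‖t - a‖ < ρ' → ‖lam p M u (taylor a n)‖ * ‖t - a‖ ^ u ≤ η) := by
  set r := Metric.infDist t (C : Set Ω) with hr
  have hr0 : 0 < r := hT.pos
  have hpn0 : 0 ≤ ‖(p : Ω)‖ := norm_nonneg _
  have hq : p ^ M ≠ 0 := (pow_pos hp.pos M).ne'
  obtain ⟨R, hR, hR1, hR2, -, hR3, -⟩ := hT.unif_all hp hpn hn
  have hden : 0 < 1 + ‖(p : Ω)‖ := by linarith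
  have hlt2 : r < 2 * r / (1 + ‖(p : Ω)‖) := by
    rw [lt_div_iff₀ hden]
    nlinarith
  obtain ⟨a₀, ha₀, h1, h2⟩ := hT.exists_near (lt_min hR hlt2)
  have ha₀R : ‖t - a₀‖ < R := lt_of_lt_of_le h1 (min_le_left _ _)
  have hpr : ‖(p : Ω)‖ * ‖t - a₀‖ ≤ r := by
    have h3 : ‖t - a₀‖ ≤ 2 * r / (1 + ‖(p : Ω)‖) := (lt_of_lt_of_le h1 (min_le_right _ _)).le
    calc ‖(p : Ω)‖ * ‖t - a₀‖ ≤ ‖(p : Ω)‖ * (2 * r / (1 + ‖(p : Ω)‖)) :=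
          mul_le_mul_of_nonneg_left h3 hpn0
      _ = (‖(p : Ω)‖ * (2 * r)) / (1 + ‖(p : Ω)‖) := by ring
      _ ≤ r := by
          rw [div_le_iff₀ hden]
          nlinarith
  obtain ⟨w, hw⟩ := IsAlgClosed.exists_pow_nat_eq (t - a₀) (pow_pos hp.pos M)
  obtain ⟨hTw, hrw⟩ := root_tt hp hC hT M ha₀ hpr hw
  have hΨ : Coeffs C (Psi p M u a₀ n) := lamb_coeffs_psi hp hC M u ha₀ hn
  obtain ⟨ρ₁, hρ₁, hec⟩ := hTw.ec hΨ
  have hρ₁0 : 0 < ρ₁ := lt_trans hTw.pos hρ₁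
  have hρ₁r : r < ρ₁ ^ p ^ M := by
    calc r = Metric.infDist w (C : Set Ω) ^ p ^ M := hrw.symm
      _ < ρ₁ ^ p ^ M := pow_lt_pow_left₀ hρ₁ Metric.infDist_nonneg hq
  set A := ‖(Psi p M u a₀ n).eval w‖ with hA
  have hmain : ∀ a ∈ C, ‖t - a‖ < min (ρ₁ ^ p ^ M) ‖t - a₀‖ → ∃ v : Ω,
      ‖(Psi p M u a₀ n).eval v‖ = A ∧
      ‖lam p M u (taylor a n) - (Psi p M u a₀ n).eval v‖ * ‖t - a₀‖ ^ u ≤ η := by
    intro a ha hta
    have haa : ‖t - a‖ ≤ ‖t - a₀‖ := (lt_of_lt_of_le hta (min_le_right _ _)).le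
    obtain ⟨v, hv⟩ := IsAlgClosed.exists_pow_nat_eq (a - a₀) (pow_pos hp.pos M)
    have h3 := root_close hp hT M hpr hw ha haa hv
    have h4 : ‖w - v‖ < ρ₁ :=
      lt_of_pow_lt_pow_left₀ (p ^ M) hρ₁0.le
        (h3.trans_lt (lt_of_lt_of_le hta (min_le_left _ _)))
    exact ⟨v, hec v h4, lam_close hp ha₀R haa hv hR1 hR2 (hR3 a₀ ha₀R) hη0 hη1 hη⟩
  refine ⟨min (ρ₁ ^ p ^ M) ‖t - a₀‖, lt_min hρ₁r h2, ?_⟩
  have ht0 : 0 < ‖t - a₀‖ ^ u := pow_pos (hr0.trans h2) u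
  by_cases hcase : η < A * ‖t - a₀‖ ^ u
  · left
    refine ⟨A, ?_, fun a ha hta => ?_⟩
    · by_contra hA0
      rw [not_lt] at hA0
      have h5 : A * ‖t - a₀‖ ^ u ≤ 0 := mul_nonpos_of_nonpos_of_nonneg hA0 ht0.le
      linarith
    · obtain ⟨v, hv1, hv2⟩ := hmain a ha hta
      have h6 : ‖lam p M u (taylor a n) - (Psi p M u a₀ n).eval v‖ < ‖(Psi p M u a₀ n).eval v‖ := by
        rw [hv1]
        exact lt_of_mul_lt_mul_right (hv2.trans_lt hcase) ht0.le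
      have h7 : lam p M u (taylor a n) = (Psi p M u a₀ n).eval v +
          (lam p M u (taylor a n) - (Psi p M u a₀ n).eval v) := by ring
      rw [h7, IsUltrametricDist.norm_add_eq_max_of_norm_ne_norm (ne_of_gt h6), max_eq_left h6.le,
        hv1]
  · right
    rw [not_lt] at hcase
    intro a ha hta
    obtain ⟨v, hv1, hv2⟩ := hmain a ha hta
    have haa : ‖t - a‖ ≤ ‖t - a₀‖ := (lt_of_lt_of_le hta (min_le_right _ _)).le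
    have h6 : ‖lam p M u (taylor a n)‖ ≤
        max ‖(Psi p M u a₀ n).eval v‖ ‖lam p M u (taylor a n) - (Psi p M u a₀ n).eval v‖ := by
      have h7 : lam p M u (taylor a n) = (Psi p M u a₀ n).eval v +
          (lam p M u (taylor a n) - (Psi p M u a₀ n).eval v) := by ring
      calc ‖lam p M u (taylor a n)‖ = ‖(Psi p M u a₀ n).eval v +
          (lam p M u (taylor a n) - (Psi p M u a₀ n).eval v)‖ := by rw [← h7]
        _ ≤ _ := IsUltrametricDist.norm_add_le_max _ _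
    calc ‖lam p M u (taylor a n)‖ * ‖t - a‖ ^ u ≤ ‖lam p M u (taylor a n)‖ * ‖t - a₀‖ ^ u :=
          mul_le_mul_of_nonneg_left (pow_le_pow_left₀ (norm_nonneg _) haa u) (norm_nonneg _)
      _ ≤ max ‖(Psi p M u a₀ n).eval v‖ ‖lam p M u (taylor a n) - (Psi p M u a₀ n).eval v‖ *
          ‖t - a₀‖ ^ u := mul_le_mul_of_nonneg_right h6 ht0.le
      _ ≤ η := by
          rw [max_mul_of_nonneg _ _ ht0.le]
          refine max_le ?_ hv2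
          rw [hv1]
          exact hcase

end MP1a953e
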