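import Pool.Agent.Lib.MP_1a953e_ag.DDefs
import Pool.Agent.Lib.MP_1a953e_ag.Calc1
import Pool.Agent.Lib.MP_1a953e_ag.Calc2

/-!
# Module DOneB: a dominating index; real numbers
-/

namespace MP1a953e

open Polynomial

variable {Ω : Type*} [NormedField Ω] [IsUltrametricDist Ω]

private theorem doneb_gap (s : Finset ℕ) (f : ℕ → ℝ) (r : ℝ) (h : ∀ x ∈ s, r < f x) :
    ∃ ρ > r, ∀ x ∈ s, ρ ≤ f x := by
  induction s using Finset.induction_on with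
  | empty => exact ⟨r + 1, by simp, by simp⟩
  | insert c s _ ih =>
    obtain ⟨ρ, hρ, h1⟩ := ih fun x hx => h x (Finset.mem_insert_of_mem hx)
    refine ⟨min ρ (f c), lt_min hρ (h c (Finset.mem_insert_self c s)), ?_⟩
    intro x hx
    rcases Finset.mem_insert.1 hx with rfl | hx
    · exact min_le_right _ _
    · exact (min_le_left _ _).trans (h1 x hx)

private theorem doneb_sup (s : Finset ℕ) (f : ℕ → ℝ) (η : ℝ) (hη : η < 1) (h : ∀ x ∈ s, f x < 1) :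
    ∃ θ, η ≤ θ ∧ θ < 1 ∧ ∀ x ∈ s, f x ≤ θ := by
  induction s using Finset.induction_on with
  | empty => exact ⟨η, le_rfl, hη, by simp⟩
  | insert c s _ ih =>
    obtain ⟨θ, h1, h2, h3⟩ := ih fun x hx => h x (Finset.mem_insert_of_mem hx)
    refine ⟨max θ (f c), h1.trans (le_max_left _ _),
      max_lt h2 (h c (Finset.mem_insert_self c s)), ?_⟩
    intro x hx
    rcases Finset.mem_insert.1 hx with rfl | hx
    · exact le_max_right _ _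
    · exact (h3 x hx).trans (le_max_left _ _)

private theorem doneb_norm_sum (s : Finset ℕ) (f : ℕ → Ω) {c : ℝ} (hc : 0 ≤ c)
    (h : ∀ i ∈ s, ‖f i‖ ≤ c) : ‖∑ i ∈ s, f i‖ ≤ c := by
  refine Finset.sum_induction f (fun x => ‖x‖ ≤ c) ?_ ?_ h
  · intro a b ha hb
    exact (IsUltrametricDist.norm_add_le_max _ _).trans (max_le ha hb)
  · simpa using hc

private theorem doneb_near (S : Set ℝ) {r c : ℝ} (hS : ∀ σ ∈ S, r < σ)
    (hinf : ∀ ρ' > r, ∃ σ ∈ S, σ < ρ') (f : ℝ → ℝ) (hf : ContinuousAt f r) (h : f r < c) :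
    ∃ σ ∈ S, f σ < c := by
  have h1 : ∀ᶠ σ in nhds r, f σ < c := hf.eventually_lt continuousAt_const h
  obtain ⟨e, he, h2⟩ := Metric.eventually_nhds_iff.1 h1
  obtain ⟨σ, hσ, hσ1⟩ := hinf (r + e) (by linarith)
  refine ⟨σ, hσ, h2 ?_⟩
  rw [Real.dist_eq, abs_of_pos (by have := hS σ hσ; linarith)]
  linarith

/-- ON3.  A dominating index.  Abstract statement: `v u a` (`u ∈ s`, `a ∈ C`) are elements of `Ω` such that
for every `u ∈ s`, near `t`, `‖v u a‖` is a positive constant or `‖v u a‖ * ‖t - a‖ ^ u ≤ η < 1`, and near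
`t` the sum `∑ v u a * (t - a) ^ u` has norm `> 1`. Then there is `U ∈ s`, `A > 0`, `θ < 1` such that near
`t` (for `a ∈ C`, `‖t - a‖ < ρ'`) `‖v U a‖ = A`, `1 < A * ‖t - a‖ ^ U`,
`‖v u a‖ * ‖t - a‖ ^ u < A * ‖t - a‖ ^ U` for `u ≠ U`, and, in the case `U = 1`, even
`‖v u a‖ * ‖t - a‖ ^ u ≤ θ * (A * ‖t - a‖ ^ U)` for `u ≠ U`.
Proof: let `I` be the set of `u ∈ s` of the first kind, with constants `A u`, `ρ₁ > r` the minimum of all
radii. `I` is not empty: otherwise (some `a ∈ C` near `t` exists, `TT.exists_near`) the sum has norm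
`≤ η < 1`. Take `U` and `ρ₂` from `unique_dom I A r`. For `a ∈ C` with `σ = ‖t - a‖ < min ρ₁ ρ₂` (and
`r < σ` by `TT.nb`) the terms `u ∈ I`, `u ≠ U` are `< A U * σ ^ U`, those of `u ∉ I` are `≤ η < 1`; as
the sum has norm `> 1`, `1 < A U * σ ^ U`, and all other terms are `< A U * σ ^ U`.
For the last item fix `σ₁` with `r < σ₁ < min ρ₁ ρ₂`, let
`θ = max η (max over 1 ≠ u ∈ I of A u * σ₁ ^ (u - 1) / A U) < 1` and take `ρ' = σ₁`: if `U = 1`, then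
`u ≥ 2` for `1 ≠ u ∈ s`, and `A u * σ ^ u = (A u * σ ^ (u - 1)) * σ ≤ θ * (A U * σ)` for `σ < σ₁`; the terms
with `u ∉ I` are `≤ η ≤ η * (A U * σ)`. -/
theorem one_dom {C : Subfield Ω} {t : Ω} (hT : TT C t) (s : Finset ℕ) (hs : ∀ u ∈ s, 1 ≤ u)
    (v : ℕ → Ω → Ω) {η : ℝ} (hη0 : 0 ≤ η) (hη1 : η < 1)
    (hv : ∀ u ∈ s, ∃ ρ' > Metric.infDist t (C : Set Ω),
      (∃ A : ℝ, 0 < A ∧ ∀ a ∈ C, ‖t - a‖ < ρ' → ‖v u a‖ = A) ∨
      (∀ a ∈ C, ‖t - a‖ < ρ' → ‖v u a‖ * ‖t - a‖ ^ u ≤ η))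
    (hsum : ∃ ρ' > Metric.infDist t (C : Set Ω), ∀ a ∈ C, ‖t - a‖ < ρ' →
      1 < ‖∑ u ∈ s, v u a * (t - a) ^ u‖) :
    ∃ U ∈ s, ∃ A : ℝ, 0 < A ∧ ∃ θ : ℝ, 0 ≤ θ ∧ θ < 1 ∧
      ∃ ρ' > Metric.infDist t (C : Set Ω),
      ∀ a ∈ C, ‖t - a‖ < ρ' → ‖v U a‖ = A ∧ 1 < A * ‖t - a‖ ^ U ∧
        (∀ u ∈ s, u ≠ U → ‖v u a‖ * ‖t - a‖ ^ u < A * ‖t - a‖ ^ U) ∧
        (U = 1 → ∀ u ∈ s, u ≠ U → ‖v u a‖ * ‖t - a‖ ^ u ≤ θ * (A * ‖t - a‖ ^ U)) := by
  classical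
  set r := Metric.infDist t (C : Set Ω) with hr
  have hr0 : 0 < r := hT.pos
  set I : Finset ℕ := s.filter (fun u => ∃ A : ℝ, 0 < A ∧ ∃ ρ' > r, ∀ a ∈ C, ‖t - a‖ < ρ' →
    ‖v u a‖ = A) with hI
  have hch : ∀ u : ℕ, ∃ A : ℝ, 0 ≤ A ∧ (u ∈ I → 0 < A ∧ ∃ ρ' > r, ∀ a ∈ C, ‖t - a‖ < ρ' →
      ‖v u a‖ = A) := by
    intro u
    by_cases hu : u ∈ I
    · obtain ⟨A, hA, h⟩ := (Finset.mem_filter.1 hu).2
      exact ⟨A, hA.le, fun _ => ⟨hA, h⟩⟩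
    · exact ⟨0, le_rfl, fun h => absurd h hu⟩
  choose A hA0 hA using hch
  have hrad : ∀ u : ℕ, ∃ ρ' : ℝ, u ∈ s → r < ρ' ∧
      (u ∈ I → ∀ a ∈ C, ‖t - a‖ < ρ' → ‖v u a‖ = A u) ∧
      (u ∉ I → ∀ a ∈ C, ‖t - a‖ < ρ' → ‖v u a‖ * ‖t - a‖ ^ u ≤ η) := by
    intro u
    by_cases hu : u ∈ I
    · obtain ⟨ρ', hρ', h⟩ := (hA u hu).2
      exact ⟨ρ', fun _ => ⟨hρ', fun _ => h, fun h => absurd hu h⟩⟩
    · by_cases hus : u ∈ s
      · obtain ⟨ρ', hρ', h⟩ := hv u hus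
        refine ⟨ρ', fun _ => ⟨hρ', fun h => absurd h hu, fun _ => ?_⟩⟩
        rcases h with ⟨B, hB, h⟩ | h
        · exact absurd (Finset.mem_filter.2 ⟨hus, B, hB, ρ', hρ', h⟩) hu
        · exact h
      · exact ⟨0, fun h => absurd h hus⟩
  choose R hR using hrad
  obtain ⟨ρ₁, hρ₁, hR1⟩ := doneb_gap s R r (fun u hu => (hR u hu).1)
  obtain ⟨ρ₀, hρ₀, hs0⟩ := hsum
  have hnb : ∀ a ∈ C, r < ‖t - a‖ := fun a ha =>
    hT.nb a (isAlgebraic_algebraMap (⟨a, ha⟩ : C))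
  have hIne : ∃ i ∈ I, 0 < A i := by
    by_contra hcon
    push Not at hcon
    have hIe : ∀ u, u ∉ I := fun u hu => absurd (hA u hu).1 (not_lt.2 (hcon u hu))
    obtain ⟨a, haC, ha1, ha2⟩ := hT.exists_near (lt_min hρ₁ hρ₀)
    have h1 := hs0 a haC (lt_of_lt_of_le ha1 (min_le_right _ _))
    have h2 : ‖∑ u ∈ s, v u a * (t - a) ^ u‖ ≤ η := by
      refine doneb_norm_sum s _ hη0 (fun u hu => ?_)
      rw [norm_mul, norm_pow]
      exact (hR u hu).2.2 (hIe u) a haC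
        (lt_of_lt_of_le ha1 ((min_le_left _ _).trans (hR1 u hu)))
    linarith
  obtain ⟨U, hU, hAU, ρ₂, hρ₂, hdom⟩ := unique_dom I A hA0 r hr0 hIne
  have hUs : U ∈ s := (Finset.mem_filter.1 hU).1
  set ρ₃ := min (min ρ₁ ρ₂) ρ₀ with hρ₃
  have hρ₃r : r < ρ₃ := lt_min (lt_min hρ₁ hρ₂) hρ₀
  have hmain : ∀ a ∈ C, ‖t - a‖ < ρ₃ → ‖v U a‖ = A U ∧ 1 < A U * ‖t - a‖ ^ U ∧
      (∀ u ∈ I, u ≠ U → ‖v u a‖ * ‖t - a‖ ^ u < A U * ‖t - a‖ ^ U) ∧
      (∀ u ∈ I, ‖v u a‖ = A u) ∧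
      (∀ u ∈ s, u ∉ I → ‖v u a‖ * ‖t - a‖ ^ u ≤ η) := by
    intro a ha h
    have g1 : ‖t - a‖ < ρ₁ := lt_of_lt_of_le h ((min_le_left _ _).trans (min_le_left _ _))
    have g2 : ‖t - a‖ < ρ₂ := lt_of_lt_of_le h ((min_le_left _ _).trans (min_le_right _ _))
    have g0 : ‖t - a‖ < ρ₀ := lt_of_lt_of_le h (min_le_right _ _)
    have k1 : ∀ u ∈ I, ‖v u a‖ = A u := fun u hu =>
      (hR u (Finset.mem_filter.1 hu).1).2.1 hu a ha
        (lt_of_lt_of_le g1 (hR1 u (Finset.mem_filter.1 hu).1))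
    have k2 : ∀ u ∈ s, u ∉ I → ‖v u a‖ * ‖t - a‖ ^ u ≤ η := fun u hu hn =>
      (hR u hu).2.2 hn a ha (lt_of_lt_of_le g1 (hR1 u hu))
    have k3 : ∀ u ∈ I, u ≠ U → ‖v u a‖ * ‖t - a‖ ^ u < A U * ‖t - a‖ ^ U := by
      intro u hu hne
      rw [k1 u hu]
      exact hdom _ (hnb a ha) g2 u hu hne
    refine ⟨k1 U hU, ?_, k3, k1, k2⟩
    by_contra hcon
    push Not at hcon
    have h1 := hs0 a ha g0
    have h2 : ‖∑ u ∈ s, v u a * (t - a) ^ u‖ ≤ 1 := by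
      refine doneb_norm_sum s _ zero_le_one (fun u hu => ?_)
      rw [norm_mul, norm_pow]
      by_cases huI : u ∈ I
      · by_cases hue : u = U
        · rw [hue, k1 U hU]
          exact hcon
        · exact ((k3 u huI hue).le).trans hcon
      · exact (k2 u hu huI).trans hη1.le
    linarith
  have hall : ∀ a ∈ C, ‖t - a‖ < ρ₃ → ∀ u ∈ s, u ≠ U →
      ‖v u a‖ * ‖t - a‖ ^ u < A U * ‖t - a‖ ^ U := by
    intro a ha h u hu hne
    obtain ⟨m1, m2, m3, m4, m5⟩ := hmain a ha h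
    by_cases huI : u ∈ I
    · exact m3 u huI hne
    · have := m5 u hu huI
      linarith
  by_cases hU1 : U = 1
  · -- the refined bound
    set σ₁ := (r + ρ₃) / 2 with hσ₁
    have s1 : r < σ₁ := by rw [hσ₁]; linarith
    have s2 : σ₁ < ρ₃ := by rw [hσ₁]; linarith
    have s3 : σ₁ < ρ₂ := lt_of_lt_of_le s2 ((min_le_left _ _).trans (min_le_right _ _))
    have s0 : 0 < σ₁ := hr0.trans s1
    have hlt : ∀ u ∈ I.erase U, A u * σ₁ ^ (u - 1) / A U < 1 := by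
      intro u hu
      rw [Finset.mem_erase] at hu
      have h1 := hdom σ₁ s1 s3 u hu.2 hu.1
      have hu1 : 1 ≤ u := hs u (Finset.mem_filter.1 hu.2).1
      rw [div_lt_one hAU]
      have e : σ₁ ^ u = σ₁ ^ (u - 1) * σ₁ := by
        rw [← pow_succ]
        congr 1
        omega
      rw [e, hU1, pow_one, ← mul_assoc] at h1
      rw [hU1]
      exact lt_of_mul_lt_mul_right h1 s0.le
    obtain ⟨θ, hθ1, hθ2, hθ3⟩ := doneb_sup (I.erase U) (fun u => A u * σ₁ ^ (u - 1) / A U) η hη1 hlt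
    refine ⟨U, hUs, A U, hAU, θ, hη0.trans hθ1, hθ2, σ₁, s1, fun a ha h => ?_⟩
    have h' : ‖t - a‖ < ρ₃ := h.trans s2
    obtain ⟨m1, m2, m3, m4, m5⟩ := hmain a ha h'
    refine ⟨m1, m2, hall a ha h', fun _ u hu hne => ?_⟩
    by_cases huI : u ∈ I
    · have h2 := hθ3 u (Finset.mem_erase.2 ⟨hne, huI⟩)
      rw [div_le_iff₀ hAU] at h2
      have hu1 : 1 ≤ u := hs u hu
      have e : ‖t - a‖ ^ u = ‖t - a‖ ^ (u - 1) * ‖t - a‖ := by
        rw [← pow_succ]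
        congr 1
        omega
      rw [m4 u huI, e, hU1, pow_one, ← mul_assoc, ← mul_assoc]
      refine mul_le_mul_of_nonneg_right ?_ (norm_nonneg _)
      rw [hU1] at h2
      refine le_trans (mul_le_mul_of_nonneg_left ?_ (hA0 u)) h2
      exact pow_le_pow_left₀ (norm_nonneg _) h.le _
    · have h2 := m5 u hu huI
      have h3 : η * 1 ≤ θ * (A U * ‖t - a‖ ^ U) :=
        mul_le_mul hθ1 m2.le zero_le_one (hη0.trans hθ1)
      linarith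
  · refine ⟨U, hUs, A U, hAU, η, hη0, hη1, ρ₃, hρ₃r, fun a ha h => ?_⟩
    obtain ⟨m1, m2, m3, m4, m5⟩ := hmain a ha h
    exact ⟨m1, m2, hall a ha h, fun h1 => absurd h1 hU1⟩

/-- ON4.  Real numbers.  If `1 ≤ U`, `¬ p ∣ U`, and for all `σ ∈ S`, a set of numbers `> r > 0` with infimum
`r`, `1 < A * σ ^ U` and `(A * σ ^ U * (r / σ)) ^ p ≤ A * σ ^ U`, then `U = 1` and `A * r ≤ 1`.
Proof: with `y = A * σ ^ U > 1`: `y ^ (p - 1) ≤ (σ / r) ^ p`. Letting `σ → r` we get, with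
`K = A * r ^ U`, `K ^ (p - 1) ≤ 1` and `K ≥ 1`; so `K = 1` (`p ≥ 2`) and `y = (σ / r) ^ U`. Taking one
`σ ∈ S`, `(σ / r) ^ (U * (p - 1)) ≤ (σ / r) ^ p` gives `U * (p - 1) ≤ p`; if `U ≥ 2` then `p = 2 = U`,
contradicting `¬ p ∣ U`. -/
theorem one_real {p U : ℕ} (hp : p.Prime) (hU1 : 1 ≤ U) (hU : ¬ p ∣ U) {r A : ℝ} (hr : 0 < r)
    (hA : 0 < A) (S : Set ℝ) (hS : ∀ σ ∈ S, r < σ) (hinf : ∀ ρ' > r, ∃ σ ∈ S, σ < ρ')
    (h1 : ∀ σ ∈ S, 1 < A * σ ^ U)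
    (h2 : ∀ σ ∈ S, (A * σ ^ U * (r / σ)) ^ p ≤ A * σ ^ U) : U = 1 ∧ A * r ≤ 1 := by
  have hp2 := hp.two_le
  have hpow : ∀ σ ∈ S, (A * σ ^ U) ^ (p - 1) ≤ (σ / r) ^ p := by
    intro σ hσ
    have hσ0 : 0 < σ := hr.trans (hS σ hσ)
    have hy : 0 < A * σ ^ U := by positivity
    have h := h2 σ hσ
    have e1 : (A * σ ^ U * (r / σ)) ^ p = (A * σ ^ U) ^ (p - 1) * (r / σ) ^ p * (A * σ ^ U) := by
      rw [mul_pow]
      have e : (A * σ ^ U) ^ p = (A * σ ^ U) ^ (p - 1) * (A * σ ^ U) := by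
        rw [← pow_succ]
        congr 1
        omega
      rw [e]
      ring
    rw [e1] at h
    have h3 : (A * σ ^ U) ^ (p - 1) * (r / σ) ^ p ≤ 1 := by
      by_contra hcon
      push Not at hcon
      have := mul_lt_mul_of_pos_right hcon hy
      linarith
    have e2 : (σ / r) ^ p * (r / σ) ^ p = 1 := by
      rw [← mul_pow, div_mul_div_cancel₀ hr.ne', div_self hσ0.ne', one_pow]
    have h4 : 0 < (r / σ) ^ p := by positivity
    by_contra hcon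
    push Not at hcon
    have := mul_lt_mul_of_pos_right hcon h4
    linarith
  set K : ℝ := A * r ^ U with hK
  have hK0 : 0 < K := by positivity
  have hK1 : 1 ≤ K := by
    by_contra hcon
    push Not at hcon
    obtain ⟨σ, hσ, h⟩ := doneb_near S hS hinf (fun σ => A * σ ^ U)
      (by fun_prop) (show A * r ^ U < 1 from hcon)
    have := h1 σ hσ
    linarith
  have hK2 : K ^ (p - 1) ≤ 1 := by
    by_contra hcon
    push Not at hcon
    obtain ⟨σ, hσ, h⟩ := doneb_near S hS hinf (fun σ => (σ / r) ^ p)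
      (by fun_prop) (show (r / r) ^ p < K ^ (p - 1) by rw [div_self hr.ne', one_pow]; exact hcon)
    have h3 := hpow σ hσ
    have h4 : K ^ (p - 1) ≤ (A * σ ^ U) ^ (p - 1) := by
      refine pow_le_pow_left₀ hK0.le ?_ _
      exact mul_le_mul_of_nonneg_left (pow_le_pow_left₀ hr.le (hS σ hσ).le _) hA.le
    linarith
  have hK3 : K = 1 := by
    refine le_antisymm ?_ hK1
    by_contra hcon
    push Not at hcon
    have := one_lt_pow₀ hcon (show p - 1 ≠ 0 by omega)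
    linarith
  obtain ⟨σ, hσ, -⟩ := hinf (r + 1) (by linarith)
  have hσr : 1 < σ / r := by
    rw [one_lt_div hr]
    exact hS σ hσ
  have hy : A * σ ^ U = (σ / r) ^ U := by
    have hAr : A = (r ^ U)⁻¹ := by
      rw [hK] at hK3
      exact eq_inv_of_mul_eq_one_left hK3
    rw [hAr, div_pow]
    field_simp
  have h5 := hpow σ hσ
  rw [hy, ← pow_mul] at h5
  have h6 : U * (p - 1) ≤ p := (pow_le_pow_iff_right₀ hσr).1 h5
  have hUone : U = 1 := by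
    by_contra hcon
    have hU2 : 2 ≤ U := by omega
    obtain ⟨m, hm⟩ : ∃ m, p = m + 2 := ⟨p - 2, by omega⟩
    have h7 : 2 * (p - 1) ≤ U * (p - 1) := Nat.mul_le_mul_right _ hU2
    have h8 : p = 2 := by omega
    have h9 : U = 2 := by
      rw [h8] at h6
      omega
    exact hU (by rw [h8, h9])
  refine ⟨hUone, ?_⟩
  rw [hUone, pow_one] at hK
  rw [← hK, hK3]

end MP1a953e
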