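import Pool.Agent.Lib.MP_1a953e_ag.DOneA
import Pool.Agent.Lib.MP_1a953e_ag.DOneB
import Pool.Agent.Lib.MP_1a953e_ag.DLamB
import Pool.Agent.Lib.MP_1a953e_ag.DDer
import Pool.Agent.Lib.MP_1a953e_ag.DFin

/-!
# Module DOneC: the case `c₀ = 1`, `ρ = 1`
-/

namespace MP1a953e

open Polynomial

variable {Ω : Type*} [NormedField Ω] [IsUltrametricDist Ω]

private theorem doc_sub_le (x y : Ω) : ‖x - y‖ ≤ max ‖x‖ ‖y‖ := by
  rw [sub_eq_add_neg, ← norm_neg y]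
  exact IsUltrametricDist.norm_add_le_max x (-y)

private theorem doc_eq_of_close {x y : Ω} (h : ‖x - y‖ < ‖x‖) : ‖y‖ = ‖x‖ := by
  have h1 : y = x + -(x - y) := by ring
  have h2 : ‖x‖ ≠ ‖-(x - y)‖ := by rw [norm_neg]; exact ne_of_gt h
  rw [h1, IsUltrametricDist.norm_add_eq_max_of_norm_ne_norm h2, norm_neg, max_eq_left h.le]

/-- a strictly dominating term -/
private theorem doc_dom {ι : Type*} [DecidableEq ι] (s : Finset ι) (x : ι → Ω) {i : ι} (hi : i ∈ s)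
    (h : ∀ j ∈ s, j ≠ i → ‖x j‖ < ‖x i‖) (hx : 0 < ‖x i‖) : ‖∑ j ∈ s, x j‖ = ‖x i‖ := by
  have h1 : ‖∑ j ∈ s.erase i, x j‖ < ‖x i‖ := by
    rcases (s.erase i).eq_empty_or_nonempty with h0 | h0
    · rw [h0, Finset.sum_empty, norm_zero]
      exact hx
    · obtain ⟨j, hj, hle⟩ := IsUltrametricDist.exists_norm_finsetSum_le_of_nonempty h0 x
      exact hle.trans_lt (h j (Finset.mem_of_mem_erase hj) (Finset.ne_of_mem_erase hj))
  rw [← Finset.add_sum_erase s x hi]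
  have h2 : ‖x i‖ ≠ ‖∑ j ∈ s.erase i, x j‖ := ne_of_gt h1
  rw [IsUltrametricDist.norm_add_eq_max_of_norm_ne_norm h2, max_eq_left h1.le]

private theorem doc_lam_mem [IsAlgClosed Ω] {p : ℕ} (hp : p.Prime) {C : Subfield Ω}
    (hC : IsAlgClosed C) {n : Polynomial Ω} (hn : Coeffs C n) (M u : ℕ) {a : Ω} (ha : a ∈ C) :
    lam p M u (taylor a n) ∈ C := by
  unfold lam
  refine C.sum_mem fun k _ => ?_
  refine (rt_mem_pow hC hp k ?_).1
  rw [taylor_coeff, eval_eq_sum_range]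
  refine C.sum_mem fun i _ => C.mul_mem ?_ (C.pow_mem ha _)
  rw [hasseDeriv_coeff]
  exact C.mul_mem (natCast_mem C _) (hn _)

/-- ON5.  The case `ρ = c₀ = 1`.  Proof. Take `f₁, n, M, η` from ON1, `R` from `TT.unif_all` for `n`. For
`a ∈ C` with `‖t - a‖ < R` ON2 gives `f`, `‖f‖ > 1` (`hS.lt`), so `‖f ^ p - f‖ = ‖f‖ ^ p > 1` and
`S a = ∑_{u ∈ J p M} v u a * (t - a) ^ u`, `v u a = lam p M u (taylor a n)`, has norm `‖f‖ ^ p > 1`
(the error is `≤ η < 1`). With `lam_ec` (for `u ∈ J p M`) ON3 applies and gives `U`, `A`, `θ`, `ρ'`; so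
`‖f‖ ^ p = A * ‖t - a‖ ^ U` near `t`.
`deriv_bound` for `f` and `P = ∑ C (v u a) * (X - C a) ^ u` (`‖p‖ * ‖f‖ ^ p ≤ ‖p‖ * ‖n t‖ ≤ 1`):
`‖P' t‖ * r ≤ max 1 ‖f‖ = ‖f‖`, and `P' t = ∑ u * v u a * (t - a) ^ (u - 1)` has norm
`A * ‖t - a‖ ^ (U - 1)` (`‖(U : Ω)‖ = 1` as `p ∤ U`; strict domination). So with `σ = ‖t - a‖`:
`(A * σ ^ U * (r / σ)) ^ p ≤ ‖f‖ ^ p = A * σ ^ U`. ON4 with the set of all such `σ` gives `U = 1`,
`A * r ≤ 1`. Apply `fin_lin` with `max η θ` and `c₁ = v 1 a`: `f ^ p - f - c₁ * (t - a)` is the sum of the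
error of ON2, `≤ η ≤ η * (A * σ)`, and of the terms `u ≠ 1`, `≤ θ * (A * σ)`. -/
theorem lin_one [IsAlgClosed Ω] {p : ℕ} (hp : p.Prime) (hpn : ‖(p : Ω)‖ < 1)
    {C E : Subfield Ω} (hC : IsAlgClosed C) (hCE : C ≤ E) {t z : Ω} (htE : t ∈ E)
    (hT : TT C t) (hPD : PD C t E) {δ : ℝ} (hS : StepData C E p z 1 1 δ) :
    LinC C E p t z 1 := by
  classical
  set r : ℝ := Metric.infDist t (C : Set Ω) with hr
  have hr0 : 0 < r := hT.pos
  obtain ⟨f₁, n, M, η, hf₁, hn, hdeg, hη0, hη1, e1, e2, e3, e4⟩ := one_start hp hpn hPD hS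
  obtain ⟨R, hR, -, hR2, -, -, hR5⟩ := hT.unif_all hp hpn hn
  set v : ℕ → Ω → Ω := fun u a => lam p M u (taylor a n) with hv
  set S : Ω → Ω := fun a => ∑ u ∈ J p M, v u a * (t - a) ^ u with hSdef
  have hJ : ∀ u ∈ J p M, ¬ p ∣ u := fun u hu => (Finset.mem_filter.1 hu).2
  have hJ1 : ∀ u ∈ J p M, 1 ≤ u := by
    intro u hu
    rcases Nat.eq_zero_or_pos u with h | h
    · exact absurd (h ▸ dvd_zero p) (hJ u hu)
    · exact h
  have hη1' : η ^ p ^ M ≤ 1 := pow_le_one₀ hη0.le hη1.le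
  have hpf : ∀ f : Ω, ‖f‖ ^ p ≤ ‖n.eval t‖ → ‖(p : Ω)‖ * ‖f‖ ^ p ≤ 1 := fun f hf =>
    (mul_le_mul_of_nonneg_left hf (norm_nonneg _)).trans (e4.trans hη1')
  -- the elements f
  have hform : ∀ a ∈ C, ‖t - a‖ < R → ∃ f : Ω, f - z ∈ E ∧ ‖f‖ ^ p ≤ ‖n.eval t‖ ∧
      ‖f ^ p - f - S a‖ ≤ η ∧ 1 < ‖f‖ ∧ ‖S a‖ = ‖f‖ ^ p ∧ 1 < ‖S a‖ := by
    intro a ha haR
    obtain ⟨f, g1, g2, g3⟩ := one_form hp hpn hC hCE htE hf₁ hn hdeg hη0 hη1 e1 e2 e3 e4 ha haR
      hR2 (hR5 a haR)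
    have g4 : 1 < ‖f‖ := by
      have h1 := hS.lt (-(f - z)) (E.neg_mem g1)
      have h2 : z - -(f - z) = f := by ring
      rwa [h2] at h1
    have g5 : ‖f‖ < ‖f‖ ^ p := by
      have := pow_lt_pow_right₀ g4 hp.one_lt
      rwa [pow_one] at this
    have g6 : ‖f ^ p - f‖ = ‖f‖ ^ p := by
      have h1 : ‖f ^ p - (f ^ p - f)‖ < ‖f ^ p‖ := by
        have h2 : f ^ p - (f ^ p - f) = f := by ring
        rw [h2, norm_pow]
        exact g5
      rw [doc_eq_of_close h1, norm_pow]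
    have g7 : 1 < ‖f‖ ^ p := g4.trans g5
    have g8 : ‖S a‖ = ‖f‖ ^ p := by
      rw [← g6]
      apply doc_eq_of_close
      rw [g6]
      exact g3.trans_lt (hη1.trans g7)
    exact ⟨f, g1, g2, g3, g4, g8, by rw [g8]; exact g7⟩
  obtain ⟨U, hU, A, hA0, θ, hθ0, hθ1, ρ', hρ', hdom⟩ := one_dom hT (J p M) hJ1 v hη0.le hη1
    (fun u _ => lam_ec hp hpn hC hT hn M u hη0.le hη1.le e4)
    ⟨R, hR, fun a ha haR => (hform a ha haR).choose_spec.2.2.2.2.2⟩
  have hbr : ∀ a ∈ C, r < ‖t - a‖ := fun a ha => hT.nb a (isAlgebraic_algebraMap (⟨a, ha⟩ : C))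
  -- norm of S near t
  have hSA : ∀ a ∈ C, ‖t - a‖ < ρ' → ‖S a‖ = A * ‖t - a‖ ^ U := by
    intro a ha haρ
    obtain ⟨d1, d2, d3, -⟩ := hdom a ha haρ
    have h1 : ‖v U a * (t - a) ^ U‖ = A * ‖t - a‖ ^ U := by rw [norm_mul, norm_pow, d1]
    simp only [hSdef]
    rw [doc_dom (J p M) (fun u => v u a * (t - a) ^ u) hU, h1]
    · intro u hu huU
      rw [h1, norm_mul, norm_pow]
      exact d3 u hu huU
    · rw [h1]
      linarith
  -- derivative bound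
  have hder : ∀ a ∈ C, ‖t - a‖ < min R ρ' →
      (A * ‖t - a‖ ^ U * (r / ‖t - a‖)) ^ p ≤ A * ‖t - a‖ ^ U := by
    intro a ha haσ
    obtain ⟨f, g1, g2, g3, g4, g5, g6⟩ := hform a ha (haσ.trans_le (min_le_left _ _))
    obtain ⟨d1, d2, d3, -⟩ := hdom a ha (haσ.trans_le (min_le_right _ _))
    have hσ0 : 0 < ‖t - a‖ := hr0.trans (hbr a ha)
    set P : Polynomial Ω := ∑ u ∈ J p M, Polynomial.C (v u a) * (X - Polynomial.C a) ^ u with hP
    have hPC : Coeffs C P := by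
      intro i
      rw [hP, finsetSum_coeff]
      refine C.sum_mem fun u _ => ?_
      rw [coeff_C_mul]
      refine C.mul_mem (doc_lam_mem hp hC hn M u ha) ?_
      have h1 : (X - Polynomial.C a : Polynomial Ω) = X + Polynomial.C (-a) := by
        rw [map_neg, sub_eq_add_neg]
      rw [h1, coeff_X_add_C_pow]
      exact C.mul_mem (C.pow_mem (C.neg_mem ha) _) (natCast_mem C _)
    have hPt : P.eval t = S a := by
      rw [hP, eval_finsetSum]
      simp only [eval_mul, eval_C, eval_pow, eval_sub, eval_X, hSdef]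
    have hb := deriv_bound hp hpn hCE hT hPD hS g1 hPC
      (by rw [one_pow, one_mul, one_pow, hPt]; exact g3.trans hη1.le)
      (by rw [one_pow]; exact hpf f g2)
    rw [one_pow, norm_one, one_pow, one_mul, max_eq_right g4.le] at hb
    have hP' : P.derivative.eval t = ∑ u ∈ J p M, v u a * ((u : Ω) * (t - a) ^ (u - 1)) := by
      rw [hP, derivative_sum, eval_finsetSum]
      refine Finset.sum_congr rfl fun u _ => ?_
      rw [derivative_C_mul, derivative_X_sub_C_pow, eval_mul, eval_C, eval_mul, eval_C,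
        eval_pow, eval_sub, eval_X, eval_C]
    have hUn : ‖(U : Ω)‖ = 1 := norm_natCast_eq_one hp hpn (hJ U hU)
    have hU1 := hJ1 U hU
    have hterm : ‖v U a * ((U : Ω) * (t - a) ^ (U - 1))‖ = A * ‖t - a‖ ^ (U - 1) := by
      rw [norm_mul, norm_mul, hUn, one_mul, norm_pow, d1]
    have hnorm : ‖P.derivative.eval t‖ = A * ‖t - a‖ ^ (U - 1) := by
      rw [hP', doc_dom (J p M) (fun u => v u a * ((u : Ω) * (t - a) ^ (u - 1))) hU, hterm]
      · intro u hu huU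
        rw [hterm]
        have hu1 := hJ1 u hu
        have k1 := d3 u hu huU
        have k2 : ‖v u a * ((u : Ω) * (t - a) ^ (u - 1))‖ ≤ ‖v u a‖ * ‖t - a‖ ^ (u - 1) := by
          rw [norm_mul, norm_mul, norm_pow]
          apply mul_le_mul_of_nonneg_left _ (norm_nonneg _)
          calc ‖(u : Ω)‖ * ‖t - a‖ ^ (u - 1) ≤ 1 * ‖t - a‖ ^ (u - 1) :=
                mul_le_mul_of_nonneg_right (IsUltrametricDist.norm_natCast_le_one Ω u)
                  (by positivity)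
            _ = _ := one_mul _
        refine k2.trans_lt ?_
        have k3 : ∀ w : ℕ, 1 ≤ w → ‖t - a‖ ^ w = ‖t - a‖ ^ (w - 1) * ‖t - a‖ := by
          intro w hw
          rw [← pow_succ, Nat.sub_add_cancel hw]
        rw [k3 u hu1, k3 U hU1, ← mul_assoc, ← mul_assoc] at k1
        exact lt_of_mul_lt_mul_right k1 hσ0.le
      · rw [hterm]
        positivity
    rw [hnorm] at hb
    have h1 : A * ‖t - a‖ ^ U * (r / ‖t - a‖) = A * ‖t - a‖ ^ (U - 1) * r := by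
      have h2 : ‖t - a‖ ^ U = ‖t - a‖ ^ (U - 1) * ‖t - a‖ := by
        rw [← pow_succ, Nat.sub_add_cancel hU1]
      rw [h2]
      field_simp
    rw [h1, ← hSA a ha (haσ.trans_le (min_le_right _ _)), g5]
    exact pow_le_pow_left₀ (by positivity) hb p
  -- U = 1
  obtain ⟨hU1, hAr⟩ := one_real hp (hJ1 U hU) (hJ U hU) hr0 hA0
    {σ : ℝ | ∃ a ∈ C, ‖t - a‖ = σ ∧ ‖t - a‖ < min R ρ'}
    (by
      rintro σ ⟨a, ha, rfl, -⟩
      exact hbr a ha)
    (by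
      intro ρ'' hρ''
      obtain ⟨a, ha, h1, -⟩ := hT.exists_near (lt_min hρ'' (lt_min hR hρ'))
      exact ⟨‖t - a‖, ⟨a, ha, rfl, h1.trans_le (min_le_right _ _)⟩,
        h1.trans_le (min_le_left _ _)⟩)
    (by
      rintro σ ⟨a, ha, rfl, h1⟩
      exact (hdom a ha (h1.trans_le (min_le_right _ _))).2.1)
    (by
      rintro σ ⟨a, ha, rfl, h1⟩
      exact hder a ha h1)
  subst hU1
  refine fin_lin hp hT hS (A := A) (θ := max η θ) (by rw [one_pow]; exact hAr)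
    (le_max_of_le_right hθ0) (max_lt hη1 hθ1) ?_
  intro ρ₁ hρ₁
  obtain ⟨a, ha, h1, -⟩ := hT.exists_near (lt_min hρ₁ (lt_min hR hρ'))
  have haR : ‖t - a‖ < R := (h1.trans_le (min_le_right _ _)).trans_le (min_le_left _ _)
  have haρ : ‖t - a‖ < ρ' := (h1.trans_le (min_le_right _ _)).trans_le (min_le_right _ _)
  obtain ⟨f, g1, g2, g3, g4, g5, g6⟩ := hform a ha haR
  obtain ⟨d1, d2, d3, d4⟩ := hdom a ha haρ
  have hSa := hSA a ha haρ
  rw [pow_one] at d2 hSa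
  refine ⟨a, ha, v 1 a, doc_lam_mem hp hC hn M 1 ha, h1.trans_le (min_le_left _ _), d1, f, g1,
    ?_, by rw [← hSa, g5]⟩
  have hpos : 0 ≤ A * ‖t - a‖ := by positivity
  have hsplit : f ^ p - 1 ^ (p - 1) * f - v 1 a * (t - a) =
      (f ^ p - f - S a) + ∑ u ∈ (J p M).erase 1, v u a * (t - a) ^ u := by
    have h2 : S a = v 1 a * (t - a) ^ 1 + ∑ u ∈ (J p M).erase 1, v u a * (t - a) ^ u := by
      simp only [hSdef]
      rw [Finset.add_sum_erase (J p M) (fun u => v u a * (t - a) ^ u) hU]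
    rw [h2]
    ring
  rw [hsplit]
  refine (IsUltrametricDist.norm_add_le_max _ _).trans (max_le ?_ ?_)
  · calc ‖f ^ p - f - S a‖ ≤ η := g3
      _ ≤ max η θ * 1 := by rw [mul_one]; exact le_max_left _ _
      _ ≤ max η θ * (A * ‖t - a‖) := mul_le_mul_of_nonneg_left d2.le (le_max_of_le_right hθ0)
  · refine IsUltrametricDist.norm_sum_le_of_forall_le_of_nonneg
      (mul_nonneg (le_max_of_le_right hθ0) hpos) fun u hu => ?_
    have k1 := d4 rfl u (Finset.mem_of_mem_erase hu) (Finset.ne_of_mem_erase hu)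
    rw [norm_mul, norm_pow]
    rw [pow_one] at k1
    exact k1.trans (mul_le_mul_of_nonneg_right (le_max_right _ _) hpos)

end MP1a953e
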