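import Pool.Agent.Lib.MP_1a953e_ag.DDefs

/-!
# Module DOrth: the powers of `f` are almost orthogonal over `E`
-/

namespace MP1a953e

open Polynomial

variable {Ω : Type*} [NormedField Ω] [IsUltrametricDist Ω]

private theorem dorth_dist {f β : Ω} {ρ : ℝ} (hf0 : 0 < ‖f‖) (hρf : ρ ≤ ‖f‖)
    (h : ρ ≤ ‖f - β‖) : max ‖f‖ ‖β‖ * (ρ / ‖f‖) ≤ ‖f - β‖ := by
  by_cases hβ : ‖β‖ = ‖f‖
  · rw [hβ, max_self, mul_div_cancel₀ _ hf0.ne']
    exact h
  · have h1 : ‖f‖ ≠ ‖-β‖ := by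
      rw [norm_neg]
      exact fun h => hβ h.symm
    rw [sub_eq_add_neg, IsUltrametricDist.norm_add_eq_max_of_norm_ne_norm h1, norm_neg]
    have h2 : ρ / ‖f‖ ≤ 1 := (div_le_one hf0).2 hρf
    have h3 : 0 ≤ max ‖f‖ ‖β‖ := hf0.le.trans (le_max_left _ _)
    exact mul_le_of_le_one_right h3 h2

private theorem dorth_coeff (f : Ω) (s : Multiset Ω) :
    ∀ i : ℕ, ‖((s.map fun β => (X - C β : Polynomial Ω)).prod).coeff i‖ * ‖f‖ ^ i ≤
      (s.map fun β => max ‖f‖ ‖β‖).prod := by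
  induction s using Multiset.induction with
  | empty =>
    intro i
    simp only [Multiset.map_zero, Multiset.prod_zero]
    rw [coeff_one]
    by_cases hi : i = 0
    · simp [hi]
    · simp [hi]
  | cons c s ih =>
    intro i
    simp only [Multiset.map_cons, Multiset.prod_cons]
    set P : Polynomial Ω := (s.map fun β => (X - C β : Polynomial Ω)).prod with hP
    set B : ℝ := (s.map fun β => max ‖f‖ ‖β‖).prod with hB
    have key : ‖((X - C c) * P).coeff i‖ ≤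
        max (if i = 0 then 0 else ‖P.coeff (i - 1)‖) (‖c‖ * ‖P.coeff i‖) := by
      rw [sub_mul, coeff_sub, coeff_C_mul, sub_eq_add_neg]
      refine (IsUltrametricDist.norm_add_le_max _ _).trans (max_le_max ?_ ?_)
      · rcases i with _ | i
        · simp
        · simp [coeff_X_mul]
      · rw [norm_neg, norm_mul]
    refine (mul_le_mul_of_nonneg_right key (pow_nonneg (norm_nonneg f) i)).trans ?_
    rw [max_mul_of_nonneg _ _ (pow_nonneg (norm_nonneg f) i)]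
    have hB0 : 0 ≤ B := le_trans (by positivity) (ih 0)
    refine max_le ?_ ?_
    · rcases i with _ | i
      · simp only [if_true, zero_mul]
        exact mul_nonneg ((norm_nonneg f).trans (le_max_left _ _)) hB0
      · simp only [Nat.succ_ne_zero, if_false, Nat.add_sub_cancel]
        calc ‖P.coeff i‖ * ‖f‖ ^ (i + 1) = ‖f‖ * (‖P.coeff i‖ * ‖f‖ ^ i) := by ring
          _ ≤ max ‖f‖ ‖c‖ * B :=
            mul_le_mul (le_max_left _ _) (ih i) (by positivity)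
              ((norm_nonneg f).trans (le_max_left _ _))
    · calc ‖c‖ * ‖P.coeff i‖ * ‖f‖ ^ i = ‖c‖ * (‖P.coeff i‖ * ‖f‖ ^ i) := by ring
        _ ≤ max ‖f‖ ‖c‖ * B :=
            mul_le_mul (le_max_right _ _) (ih i) (by positivity)
              ((norm_nonneg f).trans (le_max_left _ _))

omit [IsUltrametricDist Ω] in
private theorem dorth_prod {f : Ω} {q : ℝ} (hq : 0 ≤ q) (s : Multiset Ω)
    (hs : ∀ β ∈ s, max ‖f‖ ‖β‖ * q ≤ ‖f - β‖) :
    (s.map fun β => max ‖f‖ ‖β‖).prod * q ^ s.card ≤ ‖(s.map fun β => f - β).prod‖ := by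
  induction s using Multiset.induction with
  | empty => simp
  | cons c s ih =>
    have ih' := ih fun x hx => hs x (Multiset.mem_cons_of_mem hx)
    have hc := hs c (Multiset.mem_cons_self c s)
    simp only [Multiset.map_cons, Multiset.prod_cons, Multiset.card_cons, norm_mul]
    have hB0 : 0 ≤ (s.map fun β => max ‖f‖ ‖β‖).prod := by
      refine Multiset.prod_nonneg ?_
      intro a ha
      obtain ⟨b, _, rfl⟩ := Multiset.mem_map.1 ha
      exact (norm_nonneg f).trans (le_max_left _ _)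
    calc max ‖f‖ ‖c‖ * (s.map fun β => max ‖f‖ ‖β‖).prod * q ^ (s.card + 1)
        = (max ‖f‖ ‖c‖ * q) * ((s.map fun β => max ‖f‖ ‖β‖).prod * q ^ s.card) := by ring
      _ ≤ ‖f - c‖ * ‖(s.map fun β => f - β).prod‖ :=
        mul_le_mul hc ih' (mul_nonneg hB0 (pow_nonneg hq _)) (norm_nonneg _)

/-- OR1.  If all roots of polynomials of degree `< p` over `E` are in `E` and `‖f - g‖ ≥ ρ` for all
`g ∈ E`, then for `g = ∑_{i < p} x i * X ^ i` over `E`:
`‖x i‖ * ‖f‖ ^ i * (ρ / ‖f‖) ^ (p - 1) ≤ ‖g f‖`.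
Proof: if `g = 0` clear. Factor `g = C lc * ∏ (X - β)` over `Ω`, `d = g.natDegree` factors, all `β ∈ E`.
Note `ρ ≤ ‖f‖` (as `0 ∈ E`). `‖f - β‖ ≥ max ‖f‖ ‖β‖ * (ρ / ‖f‖)`: if `‖β‖ ≠ ‖f‖` then
`‖f - β‖ = max ‖f‖ ‖β‖`; if `‖β‖ = ‖f‖` it is the hypothesis. So
`‖g f‖ ≥ ‖lc‖ * ∏ max ‖f‖ ‖β‖ * (ρ / ‖f‖) ^ d` and `(ρ / ‖f‖) ^ (p - 1) ≤ (ρ / ‖f‖) ^ d`. Finally
`‖x i‖ * ‖f‖ ^ i ≤ ‖lc‖ * ∏ max ‖f‖ ‖β‖`, because `x i` is `lc` times a sum of products of `d - i` of the
`- β` (induction over the multiset of roots: multiplying a polynomial `h` with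
`‖h.coeff i‖ * ‖f‖ ^ i ≤ B` for all `i` by `X - β` gives the bound `B * max ‖f‖ ‖β‖`). -/
theorem orth_powers [IsAlgClosed Ω] {p : ℕ} {E : Subfield Ω}
    (hroots : ∀ g : Polynomial Ω, Coeffs E g → g ≠ 0 → g.natDegree < p →
      ∀ β : Ω, g.eval β = 0 → β ∈ E)
    {f : Ω} {ρ : ℝ} (hρ : 0 < ρ) (hf : ∀ g ∈ E, ρ ≤ ‖f - g‖) {g : Polynomial Ω}
    (hg : Coeffs E g) (hdeg : g.natDegree < p) (i : ℕ) :
    ‖g.coeff i‖ * ‖f‖ ^ i * (ρ / ‖f‖) ^ (p - 1) ≤ ‖g.eval f‖ := by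
  by_cases hg0 : g = 0
  · simp [hg0]
  have hρf : ρ ≤ ‖f‖ := by
    have h := hf 0 E.zero_mem
    rwa [sub_zero] at h
  have hf0 : 0 < ‖f‖ := hρ.trans_le hρf
  set q : ℝ := ρ / ‖f‖ with hq
  have hq0 : 0 ≤ q := (div_pos hρ hf0).le
  have hq1 : q ≤ 1 := (div_le_one hf0).2 hρf
  have hfac : g = C g.leadingCoeff * (g.roots.map fun β => X - C β).prod :=
    (IsAlgClosed.splits g).eq_prod_roots
  have hev : g.eval f = g.leadingCoeff * (g.roots.map fun β => f - β).prod := by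
    conv_lhs => rw [hfac]
    rw [eval_mul, eval_C, eval_multiset_prod, Multiset.map_map]
    congr 2
    refine Multiset.map_congr rfl fun β _ => ?_
    simp
  have hcoeff : g.coeff i =
      g.leadingCoeff * ((g.roots.map fun β => (X - C β : Polynomial Ω)).prod).coeff i := by
    conv_lhs => rw [hfac]
    rw [coeff_C_mul]
  have hcard : g.roots.card ≤ p - 1 := by
    have := g.card_roots'
    omega
  have h1 := dorth_coeff f g.roots i
  have h2 := dorth_prod (f := f) hq0 g.roots fun β hβ =>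
    dorth_dist hf0 hρf (hf β (hroots g hg hg0 hdeg β ((mem_roots hg0).1 hβ)))
  set B : ℝ := (g.roots.map fun β => max ‖f‖ ‖β‖).prod with hB
  have hB0 : 0 ≤ B := le_trans (by positivity) h1
  rw [hcoeff, hev, norm_mul, norm_mul]
  calc ‖g.leadingCoeff‖ * ‖((g.roots.map fun β => (X - C β : Polynomial Ω)).prod).coeff i‖ *
        ‖f‖ ^ i * q ^ (p - 1)
      = ‖g.leadingCoeff‖ * ((‖((g.roots.map fun β => (X - C β : Polynomial Ω)).prod).coeff i‖ *
        ‖f‖ ^ i) * q ^ (p - 1)) := by ring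
    _ ≤ ‖g.leadingCoeff‖ * (B * q ^ g.roots.card) := by
      refine mul_le_mul_of_nonneg_left ?_ (norm_nonneg _)
      exact mul_le_mul h1 (pow_le_pow_of_le_one hq0 hq1 hcard) (pow_nonneg hq0 _) hB0
    _ ≤ ‖g.leadingCoeff‖ * ‖(g.roots.map fun β => f - β).prod‖ :=
      mul_le_mul_of_nonneg_left h2 (norm_nonneg _)

end MP1a953e
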