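import Pool.Agent.Lib.MP_1a953e_ag.DStepA

/-!
# Module DStepB: the norm form of a step of degree `p`
-/

namespace MP1a953e

open Polynomial

variable {Ω : Type*} [NormedField Ω] [IsUltrametricDist Ω]

private theorem dsb_sub_le (x y : Ω) : ‖x - y‖ ≤ max ‖x‖ ‖y‖ := by
  rw [sub_eq_add_neg, ← norm_neg y]
  exact IsUltrametricDist.norm_add_le_max x (-y)

/-- the norm of an element of a cyclic extension, as a product over the powers of the generator -/
private theorem dsb_norm [IsAlgClosed Ω] {p : ℕ} [Fact p.Prime] {E : Subfield Ω} (hE : Cj E)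
    (E' : IntermediateField E Ω) (hdeg : Module.finrank E E' = p) (hE' : IsGalois E E') :
    ∃ τ : Ω ≃ₐ[E] Ω, ∀ f ∈ E', ∏ i ∈ Finset.range p, (τ ^ i) f ∈ E := by
  classical
  have hp : p.Prime := Fact.out
  have : FiniteDimensional E E' := Module.finite_of_finrank_pos (by rw [hdeg]; exact hp.pos)
  have : Algebra.IsAlgebraic E Ω := ⟨hE.alg⟩
  have : IsAlgClosure E Ω := ⟨inferInstance, inferInstance⟩
  have : Normal E Ω := IsAlgClosure.normal E Ω
  have hcard : Nat.card (E' ≃ₐ[E] E') = p := by rw [IsGalois.card_aut_eq_finrank, hdeg]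
  have hcyc : IsCyclic (E' ≃ₐ[E] E') := isCyclic_of_prime_card hcard
  obtain ⟨σ, hσ⟩ := hcyc.exists_generator
  refine ⟨σ.liftNormal Ω, fun f hf => ?_⟩
  have hpow : ∀ (i : ℕ) (x : E'), ((σ.liftNormal Ω) ^ i) (x : Ω) = (((σ ^ i) x : E') : Ω) := by
    intro i
    induction i with
    | zero => intro x; simp
    | succ i ih =>
      intro x
      rw [pow_succ, pow_succ, AlgEquiv.mul_apply, AlgEquiv.mul_apply]
      have h1 : (σ.liftNormal Ω) (x : Ω) = ((σ x : E') : Ω) := σ.liftNormal_commutes Ω x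
      rw [h1]
      exact ih (σ x)
  have hnorm := Algebra.norm_eq_prod_automorphisms E (⟨f, hf⟩ : E')
  have h1 : ∏ g : (E' ≃ₐ[E] E'), g (⟨f, hf⟩ : E') =
      ∏ i ∈ Finset.range p, (σ ^ i) (⟨f, hf⟩ : E') := by
    have h2 := IsCyclic.image_range_card hσ
    rw [hcard] at h2
    rw [← h2, Finset.prod_image]
    intro i hi j hj hij
    have ho : orderOf σ = p := by rw [orderOf_eq_card_of_forall_mem_zpowers hσ, hcard]
    have hi' := Finset.mem_range.1 hi
    have hj' := Finset.mem_range.1 hj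
    exact pow_injOn_Iio_orderOf (by rw [Set.mem_Iio, ho]; exact hi')
      (by rw [Set.mem_Iio, ho]; exact hj') hij
  rw [h1] at hnorm
  have h3 := congrArg (algebraMap E' Ω) hnorm
  rw [map_prod] at h3
  have h4 : ∏ i ∈ Finset.range p, ((σ.liftNormal Ω) ^ i) f =
      ∏ i ∈ Finset.range p, (((σ ^ i) (⟨f, hf⟩ : E') : E') : Ω) :=
    Finset.prod_congr rfl fun i _ => hpow i ⟨f, hf⟩
  have h5 : ∏ i ∈ Finset.range p, (((σ ^ i) (⟨f, hf⟩ : E') : E') : Ω) =
      ((Algebra.norm E (⟨f, hf⟩ : E') : E) : Ω) := h3.symm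
  rw [h4, h5]
  exact (Algebra.norm E (⟨f, hf⟩ : E')).2

/-- ST3.  Existence of `StepData`.
Proof. `ρ = infDist z E`; `ρ < ‖z - g‖` for `g ∈ E`: otherwise by immediacy of `Ω` over `C` applied to
`z - g ≠ 0` there is `c ∈ C` with `‖z - g - c‖ < ‖z - g‖ ≤ ρ`, a contradiction.
Case 1: `x ^ p ∈ E` for all `x ∈ E'`: take `c₀ = 0`, `δ = 0`, `n = f ^ p` (`f = z + (f - z) ∈ E'`,
`0 ^ (p - 1) = 0`).
Case 2: `E'/E` is Galois of degree `p`, with generator `σ` of order `p`; extend `σ` to an automorphism of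
`Ω` over `E` (so it is isometric, also all its powers). Let `D i = σ ^ i z - z` for `i < p` and
`D = D 1`. `‖D‖ ≤ ‖z - g‖` for all `g ∈ E` as `D = σ (z - g) - (z - g)`, so `‖D‖ ≤ ρ`. If `‖D‖ < ρ` put
`c₀ = 0`, `δ = ‖D‖ / ρ`; if `‖D‖ = ρ` choose `c₀ ∈ C` with `‖D - c₀‖ < ‖D‖`, so `‖c₀‖ = ρ`, and
`δ = ‖D - c₀‖ / ρ`. As `D i = ∑_{k < i} σ ^ k D` and `σ` fixes `c₀`, `‖D i - i * c₀‖ ≤ δ * ρ` in both
cases. For `f ∈ z + E` let `n = ∏_{i < p} σ ^ i f = ∏ (f + D i)`, the norm of `f`, an element of `E`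
(it is in `E'` and fixed by `σ`). `‖f‖ ≥ ρ`, so all factors `f + D i`, `f + i * c₀` have norm
`≤ ‖f‖`, and `‖n - ∏ (f + i * c₀)‖ ≤ δ * ρ * ‖f‖ ^ (p - 1)` by ST2; then ST1. -/
theorem exists_stepData [IsAlgClosed Ω] {p : ℕ} [Fact p.Prime] (hpn : ‖(p : Ω)‖ < 1)
    {C E : Subfield Ω} (him : ImmAll C) (hCE : C ≤ E) (hE : Cj E) (E' : IntermediateField E Ω)
    (hdeg : Module.finrank E E' = p) (hE' : IsGalois E E' ∨ ∀ x ∈ E', x ^ p ∈ E) {z : Ω}
    (hz : z ∈ E') (hpos : 0 < Metric.infDist z (E : Set Ω)) :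
    ∃ c₀ δ, StepData C E p z (Metric.infDist z (E : Set Ω)) c₀ δ := by
  have hp : p.Prime := Fact.out
  have hne : (E : Set Ω).Nonempty := ⟨0, E.zero_mem⟩
  set ρ : ℝ := Metric.infDist z (E : Set Ω) with hρ
  have hlt : ∀ g ∈ E, ρ < ‖z - g‖ := by
    intro g hg
    by_contra hcon
    push Not at hcon
    have hle : ∀ g' ∈ E, ρ ≤ ‖z - g'‖ := by
      intro g' hg'
      rw [← dist_eq_norm]
      exact Metric.infDist_le_dist_of_mem hg'
    have h0 : z - g ≠ 0 := by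
      intro h0
      have h1 := hle g hg
      rw [h0, norm_zero] at h1
      linarith
    obtain ⟨c, hc, h1⟩ := him _ h0
    have h2 := hle (g + c) (E.add_mem hg (hCE hc))
    have h3 : z - (g + c) = z - g - c := by ring
    rw [h3] at h2
    linarith
  have hnear : ∀ ε : ℝ, ρ < ε → ∃ g ∈ E, ‖z - g‖ < ε := by
    intro ε hε
    obtain ⟨g, hg, h1⟩ := (Metric.infDist_lt_iff hne).1 hε
    exact ⟨g, hg, by rwa [dist_eq_norm] at h1⟩
  have hmemE' : ∀ x ∈ E, x ∈ E' := fun x hx => E'.algebraMap_mem ⟨x, hx⟩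
  have hfE' : ∀ f : Ω, f - z ∈ E → f ∈ E' := by
    intro f hf
    have h1 : f = z + (f - z) := by ring
    rw [h1]
    exact E'.add_mem hz (hmemE' _ hf)
  rcases hE' with hgal | hins
  · obtain ⟨τ, hτ⟩ := dsb_norm hE E' hdeg hgal
    have hτE : ∀ (i : ℕ) (x : Ω), x ∈ E → (τ ^ i) x = x := fun i x hx =>
      (τ ^ i).commutes (⟨x, hx⟩ : E)
    have hτC : ∀ (i : ℕ) (x : Ω), x ∈ C → (τ ^ i) x = x := fun i x hx => hτE i x (hCE hx)
    have hD : ‖τ z - z‖ ≤ ρ := by
      rw [hρ]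
      by_contra hcon
      push Not at hcon
      obtain ⟨g, hg, h1⟩ := hnear _ hcon
      have h2 : τ z - z = τ (z - g) - (z - g) := by
        have h3 : τ g = g := by simpa using hτE 1 g hg
        rw [map_sub, h3]
        ring
      have h4 : ‖τ z - z‖ ≤ ‖z - g‖ := by
        rw [h2]
        refine (dsb_sub_le _ _).trans (max_le ?_ le_rfl)
        rw [hE.iso]
      exact absurd h1 (not_lt.2 h4)
    obtain ⟨c₀, hc₀C, hc₀n, hc₀d⟩ : ∃ c₀ ∈ C, (c₀ = 0 ∨ ‖c₀‖ = ρ) ∧ ‖τ z - z - c₀‖ < ρ := by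
      rcases hD.lt_or_eq with h | h
      · exact ⟨0, C.zero_mem, Or.inl rfl, by rwa [sub_zero]⟩
      · have h0 : τ z - z ≠ 0 := by
          intro h0
          rw [h0, norm_zero] at h
          linarith
        obtain ⟨c, hc, h1⟩ := him _ h0
        refine ⟨c, hc, Or.inr ?_, h1.trans_eq h⟩
        have h2 : c = (τ z - z) - (τ z - z - c) := by ring
        have h3 : ‖c‖ ≤ ρ := by
          rw [h2]
          exact (dsb_sub_le _ _).trans (max_le h.le (h1.le.trans h.le))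
        have h4 : ρ ≤ ‖c‖ := by
          by_contra hcon
          push Not at hcon
          have h5 : τ z - z = (τ z - z - c) + c := by ring
          have h6 : ‖τ z - z‖ < ρ := by
            rw [h5]
            exact (IsUltrametricDist.norm_add_le_max _ _).trans_lt
              (max_lt (h1.trans_eq h) hcon)
          linarith
        exact le_antisymm h3 h4
    have hρ0 : 0 < ρ := hpos
    set δ : ℝ := ‖τ z - z - c₀‖ / ρ with hδ
    have hδρ : δ * ρ = ‖τ z - z - c₀‖ := by rw [hδ]; field_simp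
    have hc₀ρ : ‖c₀‖ ≤ ρ := by
      rcases hc₀n with h | h
      · rw [h, norm_zero]; exact hρ0.le
      · exact h.le
    have hDi : ∀ i : ℕ, ‖(τ ^ i) z - z - (i : Ω) * c₀‖ ≤ δ * ρ := by
      intro i
      induction i with
      | zero =>
        simp only [pow_zero, AlgEquiv.one_apply, sub_self, Nat.cast_zero, zero_mul, norm_zero]
        rw [hδρ]
        exact norm_nonneg _
      | succ i ih =>
        have h1 : (τ ^ (i + 1)) z - z - ((i + 1 : ℕ) : Ω) * c₀ =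
            (τ ^ i) (τ z - z - c₀) + ((τ ^ i) z - z - (i : Ω) * c₀) := by
          rw [pow_succ, AlgEquiv.mul_apply, map_sub, map_sub, hτC i c₀ hc₀C]
          push_cast
          ring
        rw [h1]
        refine (IsUltrametricDist.norm_add_le_max _ _).trans (max_le ?_ ih)
        rw [hE.iso, hδρ]
    refine ⟨c₀, δ, ⟨hpos, hlt, hnear, hc₀C, hc₀n, div_nonneg (norm_nonneg _) hρ0.le,
      (div_lt_one hρ0).2 hc₀d, fun f hf => ?_⟩⟩
    have hfρ : ρ ≤ ‖f‖ := by
      have h1 := hlt (-(f - z)) (E.neg_mem hf)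
      have h2 : z - -(f - z) = f := by ring
      rw [h2] at h1
      exact h1.le
    refine ⟨∏ i ∈ Finset.range p, (τ ^ i) f, hτ f (hfE' f hf), ?_⟩
    have hx : ∀ i < p, ‖(τ ^ i) f‖ ≤ ‖f‖ := fun i _ => by rw [hE.iso]
    have hy : ∀ i < p, ‖f + (i : Ω) * c₀‖ ≤ ‖f‖ := by
      intro i _
      refine (IsUltrametricDist.norm_add_le_max _ _).trans (max_le le_rfl ?_)
      rw [norm_mul]
      calc ‖(i : Ω)‖ * ‖c₀‖ ≤ 1 * ‖c₀‖ :=
            mul_le_mul_of_nonneg_right (IsUltrametricDist.norm_natCast_le_one Ω i) (norm_nonneg _)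
        _ ≤ ‖f‖ := by rw [one_mul]; exact hc₀ρ.trans hfρ
    have hxy : ∀ i < p, ‖(τ ^ i) f - (f + (i : Ω) * c₀)‖ ≤ δ * ρ := by
      intro i _
      have h1 : (τ ^ i) f - (f + (i : Ω) * c₀) = (τ ^ i) z - z - (i : Ω) * c₀ := by
        have h2 : (τ ^ i) f = (τ ^ i) z + (f - z) := by
          have h3 : f = z + (f - z) := by ring
          conv_lhs => rw [h3]
          rw [map_add, hτE i _ hf]
        rw [h2]
        ring
      rw [h1]
      exact hDi i
    have hδρ0 : 0 ≤ δ * ρ := by rw [hδρ]; exact norm_nonneg _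
    have k1 := prod_sub_prod_le p (fun i => (τ ^ i) f) (fun i => f + (i : Ω) * c₀) hδρ0 hx hy hxy
    have k2 := prod_add_mul_sub_le hp f c₀ (B := ‖f‖) le_rfl (hc₀ρ.trans hfρ)
    have h1 : f ^ p - c₀ ^ (p - 1) * f - ∏ i ∈ Finset.range p, (τ ^ i) f =
        -((∏ i ∈ Finset.range p, (τ ^ i) f - ∏ i ∈ Finset.range p, (f + (i : Ω) * c₀)) +
          (∏ i ∈ Finset.range p, (f + (i : Ω) * c₀) - (f ^ p - c₀ ^ (p - 1) * f))) := by ring
    rw [h1, norm_neg]
    exact (IsUltrametricDist.norm_add_le_max _ _).trans (max_le_max k1 k2)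
  · refine ⟨0, 0, ⟨hpos, hlt, hnear, C.zero_mem, Or.inl rfl, le_rfl, one_pos, fun f hf => ?_⟩⟩
    refine ⟨f ^ p, hins f (hfE' f hf), ?_⟩
    have h0 : (0 : Ω) ^ (p - 1) = 0 := zero_pow (Nat.sub_ne_zero_of_lt hp.one_lt)
    rw [h0, zero_mul, sub_zero, sub_self, norm_zero]
    exact le_max_of_le_right (by positivity)

end MP1a953e
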