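import Pool.Agent.Lib.MP_1a953e_ag.DZeroA
import Pool.Agent.Lib.MP_1a953e_ag.DDer
import Pool.Agent.Lib.MP_1a953e_ag.DFin

/-!
# Module DZeroB: the case `c₀ = 0`
-/

namespace MP1a953e

open Polynomial

variable {Ω : Type*} [NormedField Ω] [IsUltrametricDist Ω]

private theorem dzeroB_norm_sub_le (x y : Ω) : ‖x - y‖ ≤ max ‖x‖ ‖y‖ := by
  have h := IsUltrametricDist.norm_add_le_max x (-y)
  rw [norm_neg, ← sub_eq_add_neg] at h
  exact h

omit [IsUltrametricDist Ω] in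
private theorem dzeroB_eval_mem {F : Subfield Ω} {g : Polynomial Ω} (hg : Coeffs F g) {a : Ω}
    (ha : a ∈ F) : g.eval a ∈ F := by
  rw [eval_eq_sum_range]
  exact F.sum_mem fun i _ => F.mul_mem (hg i) (F.pow_mem ha _)

omit [IsUltrametricDist Ω] in
private theorem dzeroB_coeffs_hasseDeriv {F : Subfield Ω} {g : Polynomial Ω} (hg : Coeffs F g)
    (q : ℕ) : Coeffs F (hasseDeriv q g) := by
  intro i
  rw [hasseDeriv_coeff]
  exact F.mul_mem (natCast_mem F _) (hg _)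

omit [IsUltrametricDist Ω] in
private theorem dzeroB_taylor (n : Polynomial Ω) (t a : Ω) :
    n.eval t = ∑ l ∈ Finset.range (n.natDegree + 1), (hasseDeriv l n).eval a * (t - a) ^ l := by
  have e1 : n.eval t = (taylor a n).eval (t - a) := by rw [taylor_eval_sub]
  rw [e1, eval_eq_sum_range, natDegree_taylor]
  refine Finset.sum_congr rfl fun l _ => ?_
  rw [taylor_coeff]

/-- the Taylor terms with index prime to `p` -/
private theorem dzeroB_terms {p : ℕ} (hp : p.Prime) {n : Polynomial Ω} {t a : Ω} {A R R₁ : ℝ}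
    (hR0 : 0 < R) (hR₁ : R₁ ≤ R) (hσ : ‖t - a‖ ≤ R₁) (hA0 : 0 ≤ A)
    (h3 : ∀ l, 1 ≤ l → ¬ p ∣ l → ‖(hasseDeriv l n).eval t‖ * R ^ (l - 1) ≤ A)
    (h5 : ∀ l, ‖(hasseDeriv l n).eval a‖ = ‖(hasseDeriv l n).eval t‖) :
    ‖(∑ l ∈ (Finset.range (n.natDegree + 1)).filter (fun l => ¬ p ∣ l),
        (hasseDeriv l n).eval a * (t - a) ^ l) - (hasseDeriv 1 n).eval a * (t - a)‖ ≤
      (R₁ / R) * (A * ‖t - a‖) := by
  set S : Finset ℕ := (Finset.range (n.natDegree + 1)).filter (fun l => ¬ p ∣ l) with hS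
  set σ := ‖t - a‖ with hσdef
  have hσ0 : 0 ≤ σ := norm_nonneg _
  have hR₁0 : 0 ≤ R₁ := hσ0.trans hσ
  have e1 : (∑ l ∈ S, (hasseDeriv l n).eval a * (t - a) ^ l) - (hasseDeriv 1 n).eval a * (t - a) =
      ∑ l ∈ S.erase 1, (hasseDeriv l n).eval a * (t - a) ^ l := by
    by_cases h1 : 1 ∈ S
    · rw [← Finset.add_sum_erase S _ h1, pow_one]
      ring
    · have h2 : n.natDegree < 1 := by
        by_contra hcon
        apply h1
        rw [hS, Finset.mem_filter, Finset.mem_range]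
        refine ⟨by omega, ?_⟩
        rw [Nat.dvd_one]
        exact hp.ne_one
      rw [hasseDeriv_eq_zero_of_lt_natDegree n 1 h2, eval_zero, zero_mul, sub_zero,
        Finset.erase_eq_of_notMem h1]
  rw [e1]
  refine IsUltrametricDist.norm_sum_le_of_forall_le_of_nonneg (by positivity) fun l hl => ?_
  obtain ⟨hl1, hlS⟩ := Finset.mem_erase.1 hl
  have hpl : ¬ p ∣ l := (Finset.mem_filter.1 hlS).2
  have hl0 : l ≠ 0 := by
    rintro rfl
    exact hpl (dvd_zero p)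
  obtain ⟨m, rfl⟩ : ∃ m, l = m + 2 := ⟨l - 2, by omega⟩
  have h4 := h3 (m + 2) (by omega) hpl
  have hq0 : 0 ≤ σ / R := by positivity
  have hq1 : σ / R ≤ R₁ / R := div_le_div_of_nonneg_right hσ hR0.le
  have hq2 : σ / R ≤ 1 := (div_le_one hR0).2 (hσ.trans hR₁)
  rw [norm_mul, norm_pow, h5]
  have e2 : m + 2 - 1 = m + 1 := by omega
  rw [e2] at h4
  calc ‖(hasseDeriv (m + 2) n).eval t‖ * σ ^ (m + 2)
      = (‖(hasseDeriv (m + 2) n).eval t‖ * R ^ (m + 1)) * ((σ / R) ^ (m + 1) * σ) := by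
        rw [div_pow]
        field_simp
        ring
    _ ≤ A * ((R₁ / R) * σ) := by
        refine mul_le_mul h4 ?_ (by positivity) hA0
        refine mul_le_mul_of_nonneg_right ?_ hσ0
        refine le_trans ?_ hq1
        exact pow_le_of_le_one hq0 hq2 (by omega)
    _ = (R₁ / R) * (A * σ) := by ring

/-- ZE3.  The case `c₀ = 0`. Proof: take `θ₀, f₁, n` from ZE1, `R` from `TT.unif_all` for `n`,
`A = ‖(hasseDeriv 1 n) t‖`, `r < R₁ < R`, `θ = max θ₀ (R₁ / R)`. `A * r ≤ ρ ^ p` by `deriv_bound`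
(`P = n`, `c₀ = 0`, `0 ^ (p - 1) = 0`). By FN1 it is enough to find for every `ρ₁ > r` the
`a, c₁, f`. Choose `a ∈ C` with `r < ‖t - a‖ < min ρ₁ R₁` (`TT.exists_near`), `h` from ZE2,
`f = f₁ - h`, `c₁ = (hasseDeriv 1 n) a`. Note `‖n t‖ ≤ ‖f₁‖ ^ p` because
`‖f₁ ^ p - n t‖ ≤ θ₀ * ρ ^ p < ‖f₁‖ ^ p`. By `norm_sub_pow_sub_le`,
`f ^ p = f₁ ^ p - h ^ p = n t - h ^ p = ∑_{p ∤ l} (hasseDeriv l n) a * (t - a) ^ l` up to `θ₀ * ρ ^ p`
(Taylor expansion of `n t` at `a`). The terms with `l ≥ 2` prime to `p` have norm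
`‖(hasseDeriv l n) t‖ * ‖t - a‖ ^ l ≤ A * ‖t - a‖ * (‖t - a‖ / R) ^ (l - 1) ≤ A * ‖t - a‖ * (R₁ / R)`
(third item of `unif_all`). Since `ρ < ‖f‖`, `ρ ^ p < ‖f‖ ^ p ≤ max (A * ‖t - a‖) (θ₀ * ρ ^ p)`,
so `ρ ^ p < A * ‖t - a‖`, `‖f‖ ^ p ≤ A * ‖t - a‖` and the total error is
`≤ max (θ₀ * ρ ^ p) ((R₁ / R) * (A * ‖t - a‖)) ≤ θ * (A * ‖t - a‖)`. -/
theorem lin_zero [IsAlgClosed Ω] {p : ℕ} (hp : p.Prime) (hpn : ‖(p : Ω)‖ < 1)
    {C E : Subfield Ω} (hC : IsAlgClosed C) (hCE : C ≤ E) {t z : Ω} (htE : t ∈ E)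
    (hT : TT C t) (hPD : PD C t E) {ρ δ : ℝ} (hS : StepData C E p z ρ 0 δ) :
    LinC C E p t z ρ := by
  set r := Metric.infDist t (C : Set Ω) with hr
  have hr0 : 0 < r := hT.pos
  have hρ0 : 0 < ρ := hS.pos
  have hρp : 0 < ρ ^ p := pow_pos hρ0 p
  have hp1' : p - 1 ≠ 0 := by
    have := hp.two_le
    omega
  obtain ⟨θ₀, hθ₀0, hθ₀1, f₁, hf₁z, n, hn, hfn, hpf⟩ := zero_start hp hpn hPD hS
  obtain ⟨R, hR, _, hR2, hR3, _, hR5⟩ := hT.unif_all hp hpn hn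
  have hR0 : 0 < R := hr0.trans hR
  set A : ℝ := ‖(hasseDeriv 1 n).eval t‖ with hA
  have hA0 : 0 ≤ A := norm_nonneg _
  have hθρ : θ₀ * ρ ^ p < ρ ^ p := by nlinarith
  have hAr : A * r ≤ ρ ^ p := by
    have h := deriv_bound hp hpn hCE hT hPD hS hf₁z hn
      (by rw [zero_pow hp1', zero_mul, sub_zero]; exact hfn.trans hθρ.le) (hpf.trans hθρ.le)
    rw [norm_zero, zero_pow hp1', zero_mul, max_eq_left hρp.le, ← hasseDeriv_one'] at h
    exact h
  have hρf₁ : ρ < ‖f₁‖ := by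
    have h1 := hS.lt (z - f₁) (by
      have : z - f₁ = -(f₁ - z) := by ring
      rw [this]
      exact E.neg_mem hf₁z)
    rwa [sub_sub_cancel] at h1
  have hρf₁p : ρ ^ p < ‖f₁‖ ^ p := pow_lt_pow_left₀ hρf₁ hρ0.le hp.ne_zero
  have hnf₁ : ‖n.eval t‖ ≤ ‖f₁‖ ^ p := by
    have e1 : n.eval t = f₁ ^ p - (f₁ ^ p - n.eval t) := by ring
    rw [e1]
    refine (dzeroB_norm_sub_le _ _).trans (max_le (norm_pow _ _).le ?_)
    exact hfn.trans (hθρ.le.trans hρf₁p.le)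
  set R₁ : ℝ := (r + R) / 2 with hR₁
  have hrR₁ : r < R₁ := by
    rw [hR₁]
    linarith
  have hR₁R : R₁ < R := by
    rw [hR₁]
    linarith
  have hR₁0 : 0 < R₁ := hr0.trans hrR₁
  have hqR : R₁ / R < 1 := (div_lt_one hR0).2 hR₁R
  refine fin_lin hp hT hS (A := A) (θ := max θ₀ (R₁ / R)) hAr (hθ₀0.le.trans (le_max_left _ _))
    (max_lt hθ₀1 hqR) ?_
  intro ρ₁ hρ₁
  obtain ⟨a, haC, ha1, ha2⟩ := hT.exists_near (lt_min hρ₁ hrR₁)
  have haR₁ : ‖t - a‖ < R₁ := lt_of_lt_of_le ha1 (min_le_right _ _)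
  have haR : ‖t - a‖ < R := haR₁.trans hR₁R
  have h5 := hR5 a haR
  obtain ⟨h, hhE, hh1, hh2⟩ := zero_remove hp hC hCE htE hn haC haR hR2 h5
  refine ⟨a, haC, (hasseDeriv 1 n).eval a,
    dzeroB_eval_mem (dzeroB_coeffs_hasseDeriv hn 1) haC, lt_of_lt_of_le ha1 (min_le_left _ _),
    h5 1, f₁ - h, ?_, ?_⟩
  · have : f₁ - h - z = (f₁ - z) - h := by ring
    rw [this]
    exact E.sub_mem hf₁z hhE
  set σ := ‖t - a‖ with hσ
  have hσ0 : 0 < σ := hr0.trans ha2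
  set c₁ := (hasseDeriv 1 n).eval a with hc₁
  have hc₁A : ‖c₁‖ = A := h5 1
  have hterms := dzeroB_terms hp (n := n) (t := t) (a := a) (A := A) hR0 hR₁R.le haR₁.le hA0
    hR3 h5
  rw [← hσ, ← hc₁] at hterms
  -- the error
  have hD : ‖(f₁ - h) ^ p - c₁ * (t - a)‖ ≤ max (θ₀ * ρ ^ p) ((R₁ / R) * (A * σ)) := by
    have h1 := norm_sub_pow_sub_le hp 1 (x := f₁) (y := h) (B := ‖f₁‖ ^ p)
      (by rw [pow_one]) (by
        rw [pow_one]
        exact hh1.trans hnf₁)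
    rw [pow_one] at h1
    have hsplit := Finset.sum_filter_add_sum_filter_not (Finset.range (n.natDegree + 1))
      (fun l => p ∣ l) (fun l => (hasseDeriv l n).eval a * (t - a) ^ l)
    rw [← dzeroB_taylor] at hsplit
    set S1 := ∑ l ∈ (Finset.range (n.natDegree + 1)).filter (fun l => p ∣ l),
        (hasseDeriv l n).eval a * (t - a) ^ l with hS1
    set S2 := ∑ l ∈ (Finset.range (n.natDegree + 1)).filter (fun l => ¬ p ∣ l),
        (hasseDeriv l n).eval a * (t - a) ^ l with hS2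
    have e1 : (f₁ - h) ^ p - c₁ * (t - a) = (((f₁ - h) ^ p - (f₁ ^ p - h ^ p)) +
        (f₁ ^ p - n.eval t)) + (-(h ^ p - S1) + (S2 - c₁ * (t - a))) := by
      rw [← hsplit]
      ring
    rw [e1]
    refine (IsUltrametricDist.norm_add_le_max _ _).trans (max_le ?_ ?_)
    · refine (IsUltrametricDist.norm_add_le_max _ _).trans (max_le ?_ ?_)
      · exact (h1.trans hpf).trans (le_max_left _ _)
      · exact hfn.trans (le_max_left _ _)
    · refine (IsUltrametricDist.norm_add_le_max _ _).trans (max_le ?_ ?_)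
      · rw [norm_neg]
        refine le_trans (hh2.trans ?_) (le_max_left _ _)
        exact (mul_le_mul_of_nonneg_left hnf₁ (norm_nonneg _)).trans hpf
      · exact hterms.trans (le_max_right _ _)
  have hAσ0 : 0 ≤ A * σ := by positivity
  have hDA : ‖(f₁ - h) ^ p - c₁ * (t - a)‖ ≤ max (θ₀ * ρ ^ p) (A * σ) := by
    refine hD.trans (max_le_max le_rfl ?_)
    have := mul_le_mul_of_nonneg_right hqR.le hAσ0
    linarith
  have hfp : ‖f₁ - h‖ ^ p ≤ max (θ₀ * ρ ^ p) (A * σ) := by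
    rw [← norm_pow]
    have e1 : (f₁ - h) ^ p = ((f₁ - h) ^ p - c₁ * (t - a)) + c₁ * (t - a) := by ring
    rw [e1]
    refine (IsUltrametricDist.norm_add_le_max _ _).trans (max_le hDA ?_)
    rw [norm_mul, hc₁A]
    exact le_max_right _ _
  have hρf : ρ < ‖f₁ - h‖ := by
    have h1 := hS.lt (z - f₁ + h) (by
      have : z - f₁ + h = -(f₁ - z) + h := by ring
      rw [this]
      exact E.add_mem (E.neg_mem hf₁z) hhE)
    have e1 : z - (z - f₁ + h) = f₁ - h := by ring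
    rwa [e1] at h1
  have hρfp : ρ ^ p < ‖f₁ - h‖ ^ p := pow_lt_pow_left₀ hρf hρ0.le hp.ne_zero
  have hρA : ρ ^ p < A * σ := by
    rcases le_max_iff.1 hfp with h1 | h1
    · exact absurd (hρfp.trans_le h1) (not_lt.2 hθρ.le)
    · exact hρfp.trans_le h1
  have hθA : θ₀ * ρ ^ p ≤ A * σ := hθρ.le.trans hρA.le
  refine ⟨?_, hfp.trans (max_le hθA le_rfl)⟩
  rw [zero_pow hp1', zero_mul, sub_zero]
  refine hD.trans (max_le ?_ ?_)
  · calc θ₀ * ρ ^ p ≤ θ₀ * (A * σ) := mul_le_mul_of_nonneg_left hρA.le hθ₀0.le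
      _ ≤ max θ₀ (R₁ / R) * (A * σ) := mul_le_mul_of_nonneg_right (le_max_left _ _) hAσ0
  · exact mul_le_mul_of_nonneg_right (le_max_right _ _) hAσ0

end MP1a953e
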