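import Pool.Agent.Lib.MP_1a953e_ag.DTrace
import Pool.Agent.Lib.MP_1a953e_ag.DGrpB
import Pool.Agent.Lib.MP_1a953e_ag.DOrth
import Pool.Agent.Lib.MP_1a953e_ag.DDense
import Pool.Agent.Lib.MP_1a953e_ag.DStepB
import Pool.Agent.Lib.MP_1a953e_ag.DZeroB
import Pool.Agent.Lib.MP_1a953e_ag.DOneC
import Pool.Agent.Lib.MP_1a953e_ag.DImmB

/-!
# Module DTop: extensions of one-dimensional fields over an algebraically closed field of constants
-/

namespace MP1a953e

open Polynomial

variable {Ω : Type*} [NormedField Ω] [IsUltrametricDist Ω]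

omit [IsUltrametricDist Ω] in
/-- an element outside the base generates an extension of prime degree -/
private theorem span_prime {p : ℕ} [Fact p.Prime] {E : Subfield Ω} (E' : IntermediateField E Ω)
    (hdeg : Module.finrank E E' = p) {f : Ω} (hf : f ∈ E') (hfE : f ∉ E) :
    ∀ x ∈ E'.toSubfield, ∃ g : Polynomial Ω, Coeffs E g ∧ g.natDegree < p ∧ x = g.eval f := by
  have hp : p.Prime := Fact.out
  haveI : FiniteDimensional E E' := Module.finite_of_finrank_pos (by rw [hdeg]; exact hp.pos)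
  have hfalg : IsIntegral E f := by
    have h1 : IsIntegral E (⟨f, hf⟩ : E') := IsIntegral.of_finite E _
    exact h1.map (IntermediateField.val E')
  have hle : IntermediateField.adjoin E ({f} : Set Ω) ≤ E' :=
    IntermediateField.adjoin_le_iff.2 (by simpa using hf)
  haveI : FiniteDimensional E (IntermediateField.adjoin E ({f} : Set Ω)) :=
    IntermediateField.adjoin.finiteDimensional hfalg
  have hne : Module.finrank E (IntermediateField.adjoin E ({f} : Set Ω)) ≠ 1 := by
    intro h1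
    have h2 := IntermediateField.finrank_eq_one_iff.1 h1
    have h3 : f ∈ IntermediateField.adjoin E ({f} : Set Ω) :=
      IntermediateField.mem_adjoin_simple_self E f
    rw [h2, IntermediateField.mem_bot] at h3
    obtain ⟨y, hy⟩ := h3
    exact hfE (hy ▸ y.2)
  have hdvd : Module.finrank E (IntermediateField.adjoin E ({f} : Set Ω)) ∣ p := by
    rw [← hdeg]
    have h4 := IntermediateField.finrank_bot_mul_relfinrank hle
    exact Dvd.intro _ h4
  have hfin : Module.finrank E (IntermediateField.adjoin E ({f} : Set Ω)) = p :=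
    (hp.eq_one_or_self_of_dvd _ hdvd).resolve_left hne
  have heq : IntermediateField.adjoin E ({f} : Set Ω) = E' :=
    IntermediateField.eq_of_le_of_finrank_eq hle (by rw [hfin, hdeg])
  intro x hx
  have hx1 : x ∈ IntermediateField.adjoin E ({f} : Set Ω) := by
    rw [heq]
    exact hx
  have hx2 : x ∈ (IntermediateField.adjoin E ({f} : Set Ω)).toSubalgebra := hx1
  rw [IntermediateField.adjoin_simple_toSubalgebra_of_isAlgebraic hfalg.isAlgebraic,
    Algebra.adjoin_singleton_eq_range_aeval] at hx2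
  obtain ⟨q, hq⟩ := hx2
  have hmon : (minpoly E f).Monic := minpoly.monic hfalg
  have hmd : (minpoly E f).natDegree = p := by
    rw [← IntermediateField.adjoin.finrank hfalg, hfin]
  refine ⟨(q %ₘ minpoly E f).map (algebraMap E Ω), ?_, ?_, ?_⟩
  · intro i
    rw [coeff_map]
    exact ((q %ₘ minpoly E f).coeff i).2
  · refine lt_of_le_of_lt natDegree_map_le ?_
    have h5 := natDegree_modByMonic_lt q hmon (by
      intro h6
      rw [h6, natDegree_one] at hmd
      exact hp.pos.ne hmd)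
    rw [hmd] at h5
    exact h5
  · rw [eval_map_algebraMap]
    have h7 : aeval f q = aeval f (q %ₘ minpoly E f) := by
      conv_lhs => rw [← modByMonic_add_div q (minpoly E f)]
      rw [map_add, map_mul, minpoly.aeval, zero_mul, add_zero]
    rw [← h7]
    exact hq.symm

/-- TO1.  A step of degree `p`. -/
theorem step_p [IsAlgClosed Ω] {p : ℕ} [Fact p.Prime] (hpn : ‖(p : Ω)‖ < 1) {C E : Subfield Ω}
    (hC : IsAlgClosed C) (him : ImmAll C) (hCE : C ≤ E) (hE : Cj E) {t : Ω} (htE : t ∈ E)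
    (hT : TT C t) (hPD : PD C t E) (E' : IntermediateField E Ω)
    (hdeg : Module.finrank E E' = p) (hE' : IsGalois E E' ∨ ∀ x ∈ E', x ^ p ∈ E)
    {z : Ω} (hz : z ∈ E') (hpos : 0 < Metric.infDist z (E : Set Ω)) :
    ∃ f ∈ E', TT C f ∧ PD C f E'.toSubfield := by
  have hp : p.Prime := Fact.out
  obtain ⟨c₀, δ, hS⟩ := exists_stepData hpn him hCE hE E' hdeg hE' hz hpos
  set ρ := Metric.infDist z (E : Set Ω) with hρ
  have hlin : LinC C E p t z ρ := by
    by_cases hc : c₀ = 0
    · subst hc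
      exact lin_zero hp hpn hC hCE htE hT hPD hS
    · exact linC_scale hCE hS.c₀_mem hc (hS.c₀_norm.resolve_left hc)
        (lin_one hp hpn hC hCE htE hT hPD (stepData_scale hp hCE hc hS))
  obtain ⟨f, hfz, G, θ, hG, hθ0, hθ1, hGt⟩ := hlin
  have hEE' : ∀ x ∈ E, x ∈ E' := fun x hx => E'.algebraMap_mem ⟨x, hx⟩
  have hfE' : f ∈ E' := by
    have h1 : f = (f - z) + z := by ring
    rw [h1]
    exact E'.add_mem (hEE' _ hfz) hz
  have hfar : ∀ g ∈ E, ρ < ‖f - g‖ := by
    intro g hg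
    have h1 := hS.lt (g - (f - z)) (E.sub_mem hg hfz)
    have h2 : z - (g - (f - z)) = f - g := by ring
    rwa [h2] at h1
  have hfE : f ∉ E := by
    intro h1
    have h2 := hfar f h1
    rw [sub_self, norm_zero] at h2
    exact absurd hS.pos (not_lt.2 h2.le)
  have hρf : ρ ≤ ‖f‖ := by
    have h1 := hfar 0 E.zero_mem
    rw [sub_zero] at h1
    exact h1.le
  refine ⟨f, hfE', ?_, ?_⟩
  · refine tt_of_immAll hC him (lt_of_lt_of_le hS.pos ?_)
    rw [Metric.le_infDist ⟨0, C.zero_mem⟩]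
    intro c hc
    rw [dist_eq_norm]
    exact (hfar c (hCE hc)).le
  · exact dense_gen (E := E) (fun x hx => hEE' x (hCE hx)) hfE' (span_prime E' hdeg hfE' hfE)
      (fun g hg hgd i => orth_powers
        (fun g hg hg0 hgd β hβ => mem_of_root_lt hp hpn him hCE hE hg hg0 hgd hβ)
        hS.pos (fun g hg => (hfar g hg).le) hg hgd i)
      hS.pos hρf hT hPD hG hθ0 hθ1 hGt

private theorem char_cases {p : ℕ} (hp : p.Prime) (hpn : ‖(p : Ω)‖ < 1) :
    CharP Ω p ∨ CharZero Ω := by
  obtain ⟨q, hq⟩ := CharP.exists Ω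
  rcases CharP.char_is_prime_or_zero Ω q with h | h
  · left
    by_cases hpq : p = q
    · rw [hpq]
      exact hq
    · exfalso
      have h1 : ¬ p ∣ q := fun h2 => hpq ((Nat.prime_dvd_prime_iff_eq hp h).1 h2)
      have h3 := norm_natCast_eq_one (Ω := Ω) hp hpn h1
      rw [CharP.cast_eq_zero, norm_zero] at h3
      exact zero_ne_one h3
  · right
    subst h
    exact CharP.charP_to_charZero Ω

/-- the closure of `C(t)` in `Ω` -/
private noncomputable def clo (C : Subfield Ω) (t : Ω) : Subfield Ω :=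
  (adj C t).topologicalClosure

private theorem mem_clo {C : Subfield Ω} {t x : Ω} :
    x ∈ clo C t ↔ ∀ ε : ℝ, 0 < ε → ∃ y ∈ adj C t, ‖x - y‖ < ε := by
  have h1 : x ∈ clo C t ↔ x ∈ closure (adj C t : Set Ω) := Iff.rfl
  rw [h1, Metric.mem_closure_iff]
  simp only [dist_eq_norm, SetLike.mem_coe]

private theorem adj_le_clo (C : Subfield Ω) (t : Ω) : adj C t ≤ clo C t :=
  Subfield.le_topologicalClosure _

private theorem isClosed_clo (C : Subfield Ω) (t : Ω) : IsClosed (clo C t : Set Ω) :=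
  Subfield.isClosed_topologicalClosure _

private theorem le_clo_of_pd {C E : Subfield Ω} {t : Ω} (h : PD C t E) : E ≤ clo C t := by
  intro x hx
  rw [mem_clo]
  intro ε hε
  obtain ⟨g, hg, h1⟩ := h x hx ε hε
  refine ⟨g.eval t, ?_, h1⟩
  rw [eval_eq_sum_range]
  exact (adj C t).sum_mem fun i _ => (adj C t).mul_mem (le_adj C t (hg i))
    ((adj C t).pow_mem (mem_adj_self C t) i)

private theorem pd_of_le_clo [IsAlgClosed Ω] {C E : Subfield Ω} {t : Ω} (hT : TT C t)
    (h : E ≤ clo C t) : PD C t E := by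
  intro x hx ε hε
  obtain ⟨y, hy, h1⟩ := mem_clo.1 (h hx) ε hε
  obtain ⟨g, hg, h2⟩ := hT.poly_dense hy hε
  refine ⟨g, hg, ?_⟩
  have h3 : x - g.eval t = (x - y) + (y - g.eval t) := by ring
  rw [h3]
  exact (IsUltrametricDist.norm_add_le_max _ _).trans_lt (max_lt h1 h2)

/-- the intermediate field `clo C t ⊓ K` over `K₀` -/
private noncomputable def rel (K₀ K : Subfield Ω) (C : Subfield Ω) (t : Ω) (h0 : K₀ ≤ K)
    (h : K₀ ≤ clo C t) : IntermediateField K₀ Ω :=
  { (clo C t ⊓ K : Subfield Ω) with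
    algebraMap_mem' := fun x => ⟨h x.2, h0 x.2⟩ }

private theorem mem_rel {K₀ K C : Subfield Ω} {t : Ω} {h0 : K₀ ≤ K} {h : K₀ ≤ clo C t} {x : Ω} :
    x ∈ rel K₀ K C t h0 h ↔ x ∈ clo C t ∧ x ∈ K := Iff.rfl

/-- `K` as an intermediate field over a larger base -/
private noncomputable def ovr (E₁ K : Subfield Ω) (h : E₁ ≤ K) : IntermediateField E₁ Ω :=
  { K with
    algebraMap_mem' := fun x => h x.2 }

private theorem mem_ovr {E₁ K : Subfield Ω} {h : E₁ ≤ K} {x : Ω} :
    x ∈ ovr E₁ K h ↔ x ∈ K := Iff.rfl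

private theorem finite_ovr {K₀ : Subfield Ω} (E : IntermediateField K₀ Ω)
    [FiniteDimensional K₀ E] {E₁ : Subfield Ω} (h01 : K₀ ≤ E₁) (h1 : E₁ ≤ E.toSubfield) :
    FiniteDimensional E₁ (ovr E₁ E.toSubfield h1) := by
  classical
  obtain ⟨s, hs⟩ := (Module.finite_def (R := K₀) (M := E)).1 inferInstance
  refine Module.finite_def.2 ⟨s.image (fun x : E => (⟨(x : Ω), x.2⟩ : ovr E₁ E.toSubfield h1)), ?_⟩
  rw [eq_top_iff]
  rintro ⟨x, hx⟩ -
  have hxE : (⟨x, hx⟩ : E) ∈ Submodule.span K₀ (s : Set E) := by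
    rw [hs]
    exact Submodule.mem_top
  have key : ∀ y : E, y ∈ Submodule.span K₀ (s : Set E) →
      (⟨(y : Ω), y.2⟩ : ovr E₁ E.toSubfield h1) ∈ Submodule.span E₁
        ((s.image (fun x : E => (⟨(x : Ω), x.2⟩ : ovr E₁ E.toSubfield h1)) : Finset _) :
          Set (ovr E₁ E.toSubfield h1)) := by
    intro y hy
    induction hy using Submodule.span_induction with
    | mem y hy =>
      exact Submodule.subset_span (Finset.mem_coe.2 (Finset.mem_image_of_mem _ hy))
    | zero => exact Submodule.zero_mem _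
    | add a b _ _ ha hb => exact Submodule.add_mem _ ha hb
    | smul c a _ ha => exact Submodule.smul_mem _ (⟨(c : Ω), h01 c.2⟩ : E₁) ha
  exact key _ hxE

private theorem dim_one_aux [IsAlgClosed Ω] {p : ℕ} [Fact p.Prime] (hpn : ‖(p : Ω)‖ < 1)
    {C P₀ K₀ : Subfield Ω} (hC : IsAlgClosed C) (him : ImmAll C)
    (hP : IsComplete (P₀ : Set Ω)) (hnt : ∃ x ∈ P₀, 1 < ‖x‖) (halg : ∀ x : Ω, IsAlgebraic P₀ x)
    (hPK₀ : P₀ ≤ K₀) (hCK₀ : C ≤ K₀) (E : IntermediateField K₀ Ω) [hfinE : FiniteDimensional K₀ E]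
    {T : Ω} (hTK : T ∈ E) (hT : TT C T) (hT0 : K₀ ≤ clo C T) :
    ∃ y ∈ E, TT C y ∧ DenseIn (adj C y) E.toSubfield := by
  classical
  have hp : p.Prime := Fact.out
  set K : Subfield Ω := E.toSubfield with hK
  have h0 : K₀ ≤ K := fun x hx => E.algebraMap_mem ⟨x, hx⟩
  have hmK : ∀ x, x ∈ K ↔ x ∈ E := fun x => Iff.rfl
  have hrelle : ∀ t (h : K₀ ≤ clo C t), rel K₀ K C t h0 h ≤ E := fun t h x hx => hx.2
  have hEfin : FiniteDimensional K₀ (Subalgebra.toSubmodule E.toSubalgebra) :=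
    inferInstanceAs (FiniteDimensional K₀ E)
  have hrelfin : ∀ t (h : K₀ ≤ clo C t), FiniteDimensional K₀ (rel K₀ K C t h0 h) := fun t h =>
    Submodule.finiteDimensional_of_le
      (S₁ := Subalgebra.toSubmodule (rel K₀ K C t h0 h).toSubalgebra)
      (S₂ := Subalgebra.toSubmodule E.toSubalgebra) (hrelle t h)
  have main : ∀ d : ℕ, ∀ t : Ω, t ∈ K → TT C t → ∀ h : K₀ ≤ clo C t,
      Module.finrank K₀ E ≤ Module.finrank K₀ (rel K₀ K C t h0 h) + d →
      ∃ y ∈ E, TT C y ∧ DenseIn (adj C y) K := by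
    intro d
    induction d with
    | zero =>
      intro t htK hTt h hd
      have heq : rel K₀ K C t h0 h = E := by
        haveI := hrelfin t h
        exact IntermediateField.eq_of_le_of_finrank_le (hrelle t h) (by simpa using hd)
      refine ⟨t, htK, hTt, adj_le (hCK₀.trans h0) htK, fun x hx ε hε => ?_⟩
      have hx1 : x ∈ rel K₀ K C t h0 h := by
        rw [heq]
        exact hx
      exact mem_clo.1 hx1.1 ε hε
    | succ d ih =>
      intro t htK hTt h hd
      by_cases hall : K ≤ clo C t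
      · exact ⟨t, htK, hTt, adj_le (hCK₀.trans h0) htK, fun x hx ε hε => mem_clo.1 (hall hx) ε hε⟩
      obtain ⟨z₀, hz₀K, hz₀⟩ := SetLike.not_le_iff_exists.1 hall
      set E₁ : Subfield Ω := clo C t ⊓ K with hE₁
      have hE₁K : E₁ ≤ K := inf_le_right
      have h01 : K₀ ≤ E₁ := le_inf h h0
      have hCE₁ : C ≤ E₁ := hCK₀.trans h01
      have htE₁ : t ∈ E₁ := ⟨adj_le_clo C t (mem_adj_self C t), htK⟩
      have hCj : Cj E₁ := cj_of_complete hP hnt halg (hPK₀.trans h01)
      have hPD : PD C t E₁ := pd_of_le_clo hTt inf_le_left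
      haveI : FiniteDimensional E₁ (ovr E₁ K hE₁K) := finite_ovr E h01 hE₁K
      have hne : ovr E₁ K hE₁K ≠ ⊥ := by
        intro hbot
        have h1 : z₀ ∈ ovr E₁ K hE₁K := hz₀K
        rw [hbot, IntermediateField.mem_bot] at h1
        obtain ⟨y, hy⟩ := h1
        exact hz₀ (hy ▸ y.2.1)
      obtain ⟨E', hE'K, hdeg, hE'⟩ := exists_pstep (p := p) E₁ (char_cases hp hpn)
        (fun L hL1 hL2 hL3 => by
          haveI := hL1
          haveI := hL2
          exact trace_bot hp hpn him hCE₁ hCj L hL3) (ovr E₁ K hE₁K) hne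
      have hE'ne : E' ≠ ⊥ := by
        intro hbot
        rw [hbot, IntermediateField.finrank_bot] at hdeg
        exact hp.one_lt.ne hdeg
      obtain ⟨z, hzE', hz⟩ : ∃ z ∈ E', z ∉ E₁ := by
        by_contra hcon
        push Not at hcon
        refine hE'ne (le_antisymm (fun x hx => ?_) bot_le)
        rw [IntermediateField.mem_bot]
        exact ⟨⟨x, hcon x hx⟩, rfl⟩
      have hzK : z ∈ K := hE'K hzE'
      have hzclo : z ∉ clo C t := fun h1 => hz ⟨h1, hzK⟩
      have hpos : 0 < Metric.infDist z (E₁ : Set Ω) := by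
        have h1 : 0 < Metric.infDist z (clo C t : Set Ω) :=
          ((isClosed_clo C t).notMem_iff_infDist_pos ⟨0, (clo C t).zero_mem⟩).1 hzclo
        exact h1.trans_le (Metric.infDist_le_infDist_of_subset (fun x hx => hx.1)
          ⟨0, E₁.zero_mem⟩)
      obtain ⟨f, hfE', hTf, hPDf⟩ := step_p hpn hC him hCE₁ hCj htE₁ hTt hPD E' hdeg hE' hzE' hpos
      have hfK : f ∈ K := hE'K hfE'
      have hE₁E' : ∀ x ∈ E₁, x ∈ E' := fun x hx => E'.algebraMap_mem ⟨x, hx⟩
      have hE'clo : ∀ x ∈ E', x ∈ clo C f := fun x hx => le_clo_of_pd hPDf hx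
      have hf : K₀ ≤ clo C f := fun x hx => hE'clo x (hE₁E' x (h01 hx))
      refine ih f hfK hTf hf ?_
      have hlt : Module.finrank K₀ (rel K₀ K C t h0 h) < Module.finrank K₀ (rel K₀ K C f h0 hf) := by
        haveI := hrelfin f hf
        have h1 : Subalgebra.toSubmodule (rel K₀ K C t h0 h).toSubalgebra <
            Subalgebra.toSubmodule (rel K₀ K C f h0 hf).toSubalgebra := by
          refine lt_of_le_of_ne (fun x hx => ?_) fun heq => ?_
          · exact ⟨hE'clo x (hE₁E' x hx), hx.2⟩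
          · have h2 : z ∈ Subalgebra.toSubmodule (rel K₀ K C f h0 hf).toSubalgebra :=
              ⟨hE'clo z hzE', hzK⟩
            rw [← heq] at h2
            exact hzclo h2.1
        haveI : FiniteDimensional K₀
            (Subalgebra.toSubmodule (rel K₀ K C f h0 hf).toSubalgebra) := hrelfin f hf
        exact Submodule.finrank_lt_finrank_of_lt h1
      omega
  exact main (Module.finrank K₀ E) T hTK hT hT0 (by omega)

/-- TO2.  Finite extensions are generated, up to density, by one element. -/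
theorem dim_one [IsAlgClosed Ω] {p : ℕ} [Fact p.Prime] (hpn : ‖(p : Ω)‖ < 1) {C P₀ : Subfield Ω}
    (hC : IsAlgClosed C) (him : ImmAll C) {T : Ω} (hT : TT C T)
    (hP : IsComplete (P₀ : Set Ω)) (hnt : ∃ x ∈ P₀, 1 < ‖x‖) (halg : ∀ x : Ω, IsAlgebraic P₀ x)
    (hTP : T ∈ P₀) (hPd : ∀ x ∈ P₀, ∀ ε : ℝ, 0 < ε → ∃ y ∈ adj C T, ‖x - y‖ < ε)
    (E : IntermediateField ↥(P₀ ⊔ C) Ω) [FiniteDimensional ↥(P₀ ⊔ C) E] :
    ∃ y ∈ E, TT C y ∧ DenseIn (adj C y) E.toSubfield := by
  refine dim_one_aux hpn hC him hP hnt halg le_sup_left le_sup_right E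
    (E.algebraMap_mem ⟨T, (le_sup_left : P₀ ≤ P₀ ⊔ C) hTP⟩) hT ?_
  refine sup_le (fun x hx => ?_) ((le_adj C T).trans (adj_le_clo C T))
  rw [mem_clo]
  exact hPd x hx

end MP1a953e
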