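import Pool.Agent.Lib.MP_1a953e_ag.Lin3
import Pool.Agent.Lib.MP_1a953e_ag.Calc4

/-!
# Module Desc1: linear case and projections
-/

namespace MP1a953e

open Polynomial

variable {Ω : Type*} [NormedField Ω] [IsUltrametricDist Ω] [IsAlgClosed Ω]
variable {p : ℕ} [Fact p.Prime] [CharP Ω p] {k0 k : Subfield Ω}

omit [IsAlgClosed Ω] in
private theorem norm_sum_lt' {d : ℕ} {f : Fin (d + 1) → Ω} {r : ℝ} (h : ∀ i, ‖f i‖ < r) :
    ‖∑ i, f i‖ < r := by
  obtain ⟨i, _, hi⟩ := IsUltrametricDist.exists_norm_finsetSum_le_of_nonempty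
    (t := (Finset.univ : Finset (Fin (d + 1)))) Finset.univ_nonempty f
  exact hi.trans_lt (h i)

/-- DES1 (linear case).  Proof: `∑ i, y i * θ i = Y`. If all `‖c i‖ < 1`, then
`u = 1 - ∑ c i` has norm `1` and `‖u * Y - ∑ e i‖ < r`, so `‖Y - u⁻¹ * ∑ e i‖ < r = infDist Y F'`,
impossible. So some `‖c i‖ = 1`; `q = (y i * θ i - e i) / c i ∈ adj F' (y i)` has
`‖Y - q‖ < r`; by `TT.gc` `adj F' q` is dense in `K ⊔ F'`, hence so is `adj F' (y i)`; conclude by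
`dense_descend`. -/
theorem desc_linear {F K F' : Subfield Ω} {d : ℕ} {θ : Fin (d + 1) → Ω} (hI : Imm F K)
    (hθ : OrthBasis F F' θ) {Y : Ω} (hT : TT F' Y) (hd : DenseIn (adj F' Y) (K ⊔ F'))
    (y : Fin (d + 1) → Ω) (hy : ∀ i, y i ∈ K) (hY : Y = ∑ i, y i * θ i)
    (hlin : ∀ i, ∃ e ∈ F', ∃ c ∈ F', ‖c‖ ≤ 1 ∧
      ‖y i * θ i - e - c * Y‖ < Metric.infDist Y (F' : Set Ω)) :
    ∃ i, DenseIn (adj F (y i)) K := by
  have hr := hT.pos
  choose e he c hc hc1 hlt using hlin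
  have hex : ∃ i, ‖c i‖ = 1 := by
    by_contra hcon
    push Not at hcon
    have hc2 : ∀ i, ‖c i‖ < 1 := fun i => lt_of_le_of_ne (hc1 i) (hcon i)
    have hs : ‖∑ i, c i‖ < 1 := norm_sum_lt' hc2
    set u : Ω := 1 - ∑ i, c i with hu
    have hu1 : ‖u‖ = 1 := by
      rw [hu, ← norm_one (α := Ω), norm_sub_rev]
      have h1 : ‖∑ i, c i‖ ≠ ‖(1 : Ω)‖ := by rw [norm_one]; exact hs.ne
      have h2 := IsUltrametricDist.norm_add_eq_max_of_norm_ne_norm
        (x := ∑ i, c i) (y := -(1 : Ω)) (by rw [norm_neg]; exact h1)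
      rw [← sub_eq_add_neg, norm_neg, norm_one, max_eq_right hs.le] at h2
      rw [h2, norm_one]
    have hu0 : u ≠ 0 := by
      intro h0
      rw [h0, norm_zero] at hu1
      exact zero_ne_one hu1
    have huF : u ∈ F' := F'.sub_mem F'.one_mem (F'.sum_mem fun i _ => hc i)
    have h3 : ‖u * Y - ∑ i, e i‖ < Metric.infDist Y (F' : Set Ω) := by
      have h4 : u * Y - ∑ i, e i = ∑ i, (y i * θ i - e i - c i * Y) := by
        rw [Finset.sum_sub_distrib, Finset.sum_sub_distrib, ← Finset.sum_mul, ← hY, hu]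
        ring
      rw [h4]
      exact norm_sum_lt' hlt
    have h5 : Metric.infDist Y (F' : Set Ω) ≤ ‖Y - u⁻¹ * ∑ i, e i‖ := by
      rw [← dist_eq_norm]
      exact Metric.infDist_le_dist_of_mem
        (F'.mul_mem (F'.inv_mem huF) (F'.sum_mem fun i _ => he i))
    have h6 : Y - u⁻¹ * ∑ i, e i = u⁻¹ * (u * Y - ∑ i, e i) := by
      field_simp
    rw [h6, norm_mul, norm_inv, hu1, inv_one, one_mul] at h5
    linarith
  obtain ⟨i, hi⟩ := hex
  have hci : c i ≠ 0 := by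
    intro h0
    rw [h0, norm_zero] at hi
    exact zero_ne_one hi
  refine ⟨i, dense_descend hI hθ (hy i) ?_⟩
  set q : Ω := (y i * θ i - e i) / c i with hq
  have hqm : q ∈ adj F' (y i) := by
    refine (adj F' (y i)).div_mem ((adj F' (y i)).sub_mem ((adj F' (y i)).mul_mem
      (mem_adj_self F' (y i)) (le_adj F' (y i) (hθ.mem i))) (le_adj F' (y i) (he i)))
      (le_adj F' (y i) (hc i))
  have hyK : adj F' (y i) ≤ K ⊔ F' := adj_le le_sup_right ((le_sup_left : K ≤ K ⊔ F') (hy i))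
  have hdist : ‖Y - q‖ < Metric.infDist Y (F' : Set Ω) := by
    have h7 : Y - q = -((c i)⁻¹ * (y i * θ i - e i - c i * Y)) := by
      rw [hq]
      field_simp
      ring
    rw [h7, norm_neg, norm_mul, norm_inv, hi, inv_one, one_mul]
    exact hlt i
  have hdense := hT.gc hd (hyK hqm) hdist
  refine ⟨hyK, fun x hx ε hε => ?_⟩
  obtain ⟨a, ha, hxa⟩ := hdense.2 x hx ε hε
  exact ⟨a, adj_le (le_adj F' (y i)) hqm ha, hxa⟩

omit [IsAlgClosed Ω] in
/-- coordinates over `K` are unique -/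
private theorem coord_unique {F K F' : Subfield Ω} {d : ℕ} {θ : Fin (d + 1) → Ω} (hI : Imm F K)
    (hθ : OrthBasis F F' θ) {c c' : Fin (d + 1) → Ω} (hc : ∀ i, c i ∈ K) (hc' : ∀ i, c' i ∈ K)
    (h : ∑ j, c j * θ j = ∑ j, c' j * θ j) (i : Fin (d + 1)) : c i = c' i := by
  have h1 := (hθ.sup hI).orth (fun j => c j - c' j) (fun j => K.sub_mem (hc j) (hc' j)) i
  have h2 : ∑ j, (c j - c' j) * θ j = 0 := by
    rw [Finset.sum_congr rfl fun j _ => sub_mul (c j) (c' j) (θ j), Finset.sum_sub_distrib, h,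
      sub_self]
  rw [h2, norm_zero] at h1
  have h3 : (c i - c' i) * θ i = 0 := norm_eq_zero.1 (le_antisymm h1 (norm_nonneg _))
  rcases mul_eq_zero.1 h3 with h4 | h4
  · exact sub_eq_zero.1 h4
  · exact absurd h4 (hθ.ne i)

/-- DES2.  The projection of `K ⊔ F'` to `K * θ i`, its properties.  `C x = (i-th coordinate of x) * θ i`
for `x ∈ K ⊔ F'` (coordinates by LIN1, unique by LIN2), `0` elsewhere. -/
theorem exists_proj {A F A' F' K : Subfield Ω} {d : ℕ} {θ : Fin (d + 1) → Ω} (hI : Imm F K)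
    (hAF : A ≤ F) (hθA : OrthBasis A A' θ) (hθ : OrthBasis F F' θ) (i : Fin (d + 1)) :
    ∃ C : Ω → Ω, (∀ x ∈ K ⊔ F', C x ∈ K ⊔ F') ∧ (∀ x ∈ F', C x ∈ F') ∧ (∀ x ∈ A', C x ∈ A') ∧
      (∀ x ∈ K ⊔ F', ∀ y ∈ K ⊔ F', C (x + y) = C x + C y) ∧
      (∀ y ∈ K, ∀ x ∈ K ⊔ F', C (y * x) = y * C x) ∧ (∀ x ∈ K ⊔ F', ‖C x‖ ≤ ‖x‖) ∧
      ∀ y : Fin (d + 1) → Ω, (∀ j, y j ∈ K) → C (∑ j, y j * θ j) = y i * θ i := by
  classical
  let C : Ω → Ω := fun x =>
    if h : ∃ c : Fin (d + 1) → Ω, (∀ j, c j ∈ K) ∧ x = ∑ j, c j * θ j then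
      h.choose i * θ i else 0
  have key : ∀ y : Fin (d + 1) → Ω, (∀ j, y j ∈ K) → C (∑ j, y j * θ j) = y i * θ i := by
    intro y hy
    have h : ∃ c : Fin (d + 1) → Ω, (∀ j, c j ∈ K) ∧ ∑ j, y j * θ j = ∑ j, c j * θ j :=
      ⟨y, hy, rfl⟩
    have h1 : C (∑ j, y j * θ j) = h.choose i * θ i := dif_pos h
    rw [h1, coord_unique hI hθ h.choose_spec.1 hy h.choose_spec.2.symm i]
  have hmem : ∀ x ∈ K ⊔ F', ∃ c : Fin (d + 1) → Ω, (∀ j, c j ∈ K) ∧ x = ∑ j, c j * θ j :=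
    fun x hx => (mem_sup_iff hI.1 hθ x).1 hx
  refine ⟨C, ?_, ?_, ?_, ?_, ?_, ?_, key⟩
  · intro x hx
    obtain ⟨c, hc, rfl⟩ := hmem x hx
    rw [key c hc]
    exact (K ⊔ F').mul_mem ((le_sup_left : K ≤ K ⊔ F') (hc i))
      ((le_sup_right : F' ≤ K ⊔ F') (hθ.mem i))
  · intro x hx
    obtain ⟨c, hc, rfl⟩ := hθ.span x hx
    rw [key c fun j => hI.1 (hc j)]
    exact F'.mul_mem (hθ.le (hc i)) (hθ.mem i)
  · intro x hx
    obtain ⟨c, hc, rfl⟩ := hθA.span x hx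
    rw [key c fun j => hI.1 (hAF (hc j))]
    exact A'.mul_mem (hθA.le (hc i)) (hθA.mem i)
  · intro x hx y hy
    obtain ⟨c, hc, rfl⟩ := hmem x hx
    obtain ⟨c', hc', rfl⟩ := hmem y hy
    have h1 : ∑ j, c j * θ j + ∑ j, c' j * θ j = ∑ j, (c j + c' j) * θ j := by
      rw [← Finset.sum_add_distrib]
      exact Finset.sum_congr rfl fun j _ => (add_mul _ _ _).symm
    rw [h1, key _ fun j => K.add_mem (hc j) (hc' j), key c hc, key c' hc', add_mul]
  · intro y hy x hx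
    obtain ⟨c, hc, rfl⟩ := hmem x hx
    have h1 : y * ∑ j, c j * θ j = ∑ j, (y * c j) * θ j := by
      rw [Finset.mul_sum]
      exact Finset.sum_congr rfl fun j _ => (mul_assoc _ _ _).symm
    rw [h1, key _ fun j => K.mul_mem hy (hc j), key c hc, mul_assoc]
  · intro x hx
    obtain ⟨c, hc, rfl⟩ := hmem x hx
    rw [key c hc]
    exact (hθ.sup hI).orth c hc i

omit [IsAlgClosed Ω] in
/-- DES3.  The projection does not increase the distance to `F'`. -/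
theorem infDist_proj {F K F' : Subfield Ω} {d : ℕ} {θ : Fin (d + 1) → Ω} (hI : Imm F K)
    (hθ : OrthBasis F F' θ) (y : Fin (d + 1) → Ω) (hy : ∀ i, y i ∈ K) (i : Fin (d + 1)) :
    Metric.infDist (y i * θ i) (F' : Set Ω) ≤ Metric.infDist (∑ j, y j * θ j) (F' : Set Ω) := by
  have hne : (F' : Set Ω).Nonempty := ⟨0, F'.zero_mem⟩
  rw [Metric.le_infDist hne]
  intro S hS
  obtain ⟨s, hs, rfl⟩ := hθ.span S hS
  refine (Metric.infDist_le_dist_of_mem (s := (F' : Set Ω)) (y := s i * θ i)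
    (F'.mul_mem (hθ.le (hs i)) (hθ.mem i))).trans ?_
  rw [dist_eq_norm, dist_eq_norm, ← sub_mul]
  have h1 := (hθ.sup hI).orth (fun j => y j - s j) (fun j => K.sub_mem (hy j) (hI.1 (hs j))) i
  have h2 : ∑ j, (y j - s j) * θ j = ∑ j, y j * θ j - ∑ j, s j * θ j := by
    rw [← Finset.sum_sub_distrib]
    exact Finset.sum_congr rfl fun j _ => sub_mul _ _ _
  rw [← h2]
  exact h1

end MP1a953e
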