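import Pool.Agent.Lib.MP_1a953e_ag.PW4
import Pool.Agent.Lib.MP_1a953e_ag.Lin3

/-!
# Module Dsc2: no higher additive terms
-/

namespace MP1a953e

open Polynomial

variable {Ω : Type*} [NormedField Ω]

private theorem dsc2_sum_le [IsUltrametricDist Ω] {p H : ℕ} (hp : 1 ≤ p) {c : ℕ → Ω}
    (hc1 : ∀ h ≤ H, ‖c h‖ ≤ 1) {u : ℕ → Ω} {R : ℝ} (hR : 0 ≤ R) (hu : ∀ h ≤ H, ‖u h‖ ≤ R) :
    ‖∑ h ∈ Finset.range (H + 1), c h * u h‖ ≤ R := by
  have _ := hp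
  refine IsUltrametricDist.norm_sum_le_of_forall_le_of_nonneg hR fun h hh => ?_
  have hh' : h ≤ H := Nat.lt_succ_iff.1 (Finset.mem_range.1 hh)
  rw [norm_mul]
  calc ‖c h‖ * ‖u h‖ ≤ 1 * R := mul_le_mul (hc1 h hh') (hu h hh') (norm_nonneg _) zero_le_one
    _ = R := one_mul R

/-- DSC2.  The additive approximation of `C Y`, `C` a projection, has no higher terms.  Proof.  `pw` (for
`F`, `F'`, `θ`, `C`, `H`, `c`) gives `R₀`. Choose `B > 1` with `B < ρ`, `B ^ (p^H) ≤ R₀`,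
`‖p‖ * B ^ (p^H) ≤ 1`, and `a ∈ F'` with `‖Y - a‖ < B`; `Y' = Y - a ∈ K ⊔ F'`, `‖Y'‖ < B`,
`infDist Y' F' = 1`, `‖Y' - b‖ > 1` for all `b ∈ F'`. With `e` from `happ` and `e' = e - C a ∈ F'`:
`‖C Y' - ∑ c h * Y' ^ (p^h) - e'‖ < 1`, so `‖e'‖ ≤ B ^ (p^H) ≤ R₀`. Let `S₀ ∈ F'` be as in `pw`. For
`S ∈ F'` with `‖S‖ ≤ B`, `C S - ∑ c h * S ^ (p^h) - e'` is, up to norm `≤ 1`,
`-(C (Y' - S) - ∑ c h * (Y' - S) ^ (p^h))` (`norm_sub_pow_sub`), of norm `≤ ‖Y' - S‖ ^ (p^H)` (as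
`‖Y' - S‖ > 1`). So `‖S - S₀‖ ≤ ‖Y' - S‖` and `‖Y' - S₀‖ ≤ ‖Y' - S‖`. Taking `S` with `‖Y' - S‖`
close to `1` (then `‖S‖ ≤ B`) gives `‖Y' - S₀‖ ≤ 1`, a contradiction. -/
theorem no_high2 [IsUltrametricDist Ω] [IsAlgClosed Ω] {p : ℕ} [Fact p.Prime]
    (hp : ‖(p : Ω)‖ < 1) {k F F' K : Subfield Ω} {n : ℕ} {s : Fin n → Ω} (hF : TF k F s)
    {d : ℕ} {θ : Fin (d + 1) → Ω} (hθ : OrthBasis F F' θ) (hFK : F ≤ K) {Y : Ω}
    (hYK : Y ∈ K ⊔ F') (hT : TT F' Y) (hr : Metric.infDist Y (F' : Set Ω) = 1) (C : Ω → Ω)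
    (hCF : ∀ x ∈ F', C x ∈ F')
    (hCadd : ∀ x ∈ K ⊔ F', ∀ y ∈ K ⊔ F', C (x + y) = C x + C y)
    (hClin : ∀ y ∈ K, ∀ x ∈ K ⊔ F', C (y * x) = y * C x) (hCn : ∀ x ∈ K ⊔ F', ‖C x‖ ≤ ‖x‖)
    {H : ℕ} (hH : 1 ≤ H) (c : ℕ → Ω) (hc : ∀ h ≤ H, c h ∈ F') (hc1 : ∀ h ≤ H, ‖c h‖ ≤ 1)
    (hcH : ‖c H‖ = 1) {ρ : ℝ} (hρ : 1 < ρ)
    (happ : ∀ a ∈ F', ‖Y - a‖ < ρ → ∃ e ∈ F',
      ‖C Y - e - ∑ h ∈ Finset.range (H + 1), c h * (Y - a) ^ p ^ h‖ < 1) : False := by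
  have hpp : p.Prime := Fact.out
  have hF'K : F' ≤ K ⊔ F' := le_sup_right
  obtain ⟨R₀, hR₀, hpw⟩ := pw hp hF hθ C hCF
    (fun x hx y hy => hCadd x (hF'K hx) y (hF'K hy))
    (fun y hy x hx => hClin y (hFK hy) x (hF'K hx))
    (fun x hx => hCn x (hF'K hx)) hH c hc hc1 hcH
  set q : ℕ := p ^ H with hq
  have hq0 : q ≠ 0 := pow_ne_zero _ hpp.ne_zero
  -- choice of `B`
  obtain ⟨B, hB1, hBρ, hBR, hBp⟩ : ∃ B : ℝ, 1 < B ∧ B < ρ ∧ B ^ q < R₀ ∧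
      ‖(p : Ω)‖ * B ^ q < 1 := by
    have h1 : ∀ᶠ B : ℝ in nhds 1, B < ρ := (continuous_id.tendsto 1).eventually_lt_const hρ
    have h2 : ∀ᶠ B : ℝ in nhds 1, B ^ q < R₀ := by
      refine ((continuous_pow q).tendsto 1).eventually_lt_const ?_
      rw [one_pow]; exact hR₀
    have h3 : ∀ᶠ B : ℝ in nhds 1, ‖(p : Ω)‖ * B ^ q < 1 := by
      have hcont : Continuous (fun B : ℝ => ‖(p : Ω)‖ * B ^ q) :=
        continuous_const.mul (continuous_pow q)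
      have hlt : (fun B : ℝ => ‖(p : Ω)‖ * B ^ q) 1 < 1 := by
        show ‖(p : Ω)‖ * (1 : ℝ) ^ q < 1
        rw [one_pow, mul_one]; exact hp
      exact (hcont.tendsto 1).eventually_lt_const hlt
    have h4 := ((h1.and (h2.and h3)).filter_mono
      (nhdsWithin_le_nhds (s := Set.Ioi (1 : ℝ)))).and self_mem_nhdsWithin
    obtain ⟨B, ⟨h5, h6, h7⟩, h8⟩ := h4.exists
    exact ⟨B, h8, h5, h6, h7⟩
  have hB0 : 0 ≤ B := by linarith
  have hpowB : ∀ h ≤ H, B ^ p ^ h ≤ B ^ q := fun h hh =>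
    pow_le_pow_right₀ hB1.le (Nat.pow_le_pow_right hpp.pos hh)
  have hBq : B ≤ B ^ q := le_self_pow₀ hB1.le hq0
  have h1Bq : 1 ≤ B ^ q := one_le_pow₀ hB1.le
  have hne : (F' : Set Ω).Nonempty := ⟨0, F'.zero_mem⟩
  have hY1 : ∀ b ∈ F', 1 < ‖Y - b‖ := by
    intro b hb
    have h1 := hT.nb b (isAlgebraic_algebraMap (R := F') (A := Ω) ⟨b, hb⟩)
    rwa [hr] at h1
  obtain ⟨a, ha, haB⟩ := (Metric.infDist_lt_iff (x := Y) hne).1 (by rw [hr]; exact hB1)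
  rw [dist_eq_norm] at haB
  set Y' : Ω := Y - a with hY'
  have hY'K : Y' ∈ K ⊔ F' := Subfield.sub_mem _ hYK (hF'K ha)
  have hY'1 : ∀ b ∈ F', 1 < ‖Y' - b‖ := by
    intro b hb
    have h1 := hY1 (a + b) (F'.add_mem ha hb)
    have h2 : Y' - b = Y - (a + b) := by rw [hY']; ring
    rw [h2]; exact h1
  obtain ⟨e, he, hee⟩ := happ a ha (haB.trans hBρ)
  have hCY : C Y = C Y' + C a := by
    rw [← hCadd Y' hY'K a (hF'K ha), hY', sub_add_cancel]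
  set e' : Ω := e - C a with he'
  have he'F : e' ∈ F' := F'.sub_mem he (hCF a ha)
  set W : Ω := C Y' - ∑ h ∈ Finset.range (H + 1), c h * Y' ^ p ^ h - e' with hW
  have hW1 : ‖W‖ < 1 := by
    have h1 : W = C Y - e - ∑ h ∈ Finset.range (H + 1), c h * (Y - a) ^ p ^ h := by
      rw [hW, hCY, he']; ring
    rw [h1]; exact hee
  have hsumY : ‖∑ h ∈ Finset.range (H + 1), c h * Y' ^ p ^ h‖ ≤ B ^ q := by
    refine dsc2_sum_le hpp.one_lt.le hc1 (by positivity) fun h hh => ?_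
    rw [norm_pow]
    exact (pow_le_pow_left₀ (norm_nonneg _) haB.le _).trans (hpowB h hh)
  have hsub : ∀ x y : Ω, ‖x - y‖ ≤ max ‖x‖ ‖y‖ := by
    intro x y
    have := IsUltrametricDist.norm_add_le_max x (-y)
    rwa [norm_neg, ← sub_eq_add_neg] at this
  have he'n : ‖e'‖ ≤ R₀ := by
    have h1 : e' = C Y' - ∑ h ∈ Finset.range (H + 1), c h * Y' ^ p ^ h - W := by
      rw [hW]; ring
    rw [h1]
    refine (hsub _ _).trans (max_le ((hsub _ _).trans (max_le ?_ ?_)) ?_)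
    · exact (((hCn Y' hY'K).trans haB.le).trans hBq).trans hBR.le
    · exact hsumY.trans hBR.le
    · exact (hW1.le).trans hR₀.le
  obtain ⟨S₀, hS₀, hS₀R, hS₀p⟩ := hpw e' he'F he'n
  -- the main estimate
  have hmain : ∀ S ∈ F', ‖S‖ ≤ B → ‖Y' - S₀‖ ≤ ‖Y' - S‖ := by
    intro S hS hSB
    set D : Ω := Y' - S with hD
    have hDK : D ∈ K ⊔ F' := Subfield.sub_mem _ hY'K (hF'K hS)
    have hD1 : 1 < ‖D‖ := hY'1 S hS
    have hDB : ‖D‖ ≤ B := (hsub _ _).trans (max_le haB.le hSB)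
    have hCD : C Y' = C D + C S := by
      rw [← hCadd D hDK S (hF'K hS), hD, sub_add_cancel]
    have hG : C S - ∑ h ∈ Finset.range (H + 1), c h * S ^ p ^ h - e' =
        W - (C D - ∑ h ∈ Finset.range (H + 1), c h * D ^ p ^ h) -
          ∑ h ∈ Finset.range (H + 1), c h * (S ^ p ^ h - (Y' ^ p ^ h - D ^ p ^ h)) := by
      have h1 : ∑ h ∈ Finset.range (H + 1), c h * (S ^ p ^ h - (Y' ^ p ^ h - D ^ p ^ h)) =
          ∑ h ∈ Finset.range (H + 1), c h * S ^ p ^ h -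
            ∑ h ∈ Finset.range (H + 1), c h * Y' ^ p ^ h +
            ∑ h ∈ Finset.range (H + 1), c h * D ^ p ^ h := by
        rw [← Finset.sum_sub_distrib, ← Finset.sum_add_distrib]
        exact Finset.sum_congr rfl fun h _ => by ring
      rw [h1, hW, hCD]; ring
    have hDq : 1 ≤ ‖D‖ ^ q := one_le_pow₀ hD1.le
    have hGn : ‖C S - ∑ h ∈ Finset.range (H + 1), c h * S ^ p ^ h - e'‖ ≤ ‖D‖ ^ q := by
      rw [hG]
      refine (hsub _ _).trans (max_le ((hsub _ _).trans (max_le ?_ ((hsub _ _).trans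
        (max_le ?_ ?_)))) ?_)
      · exact hW1.le.trans hDq
      · exact (hCn D hDK).trans (le_self_pow₀ hD1.le hq0)
      · refine dsc2_sum_le hpp.one_lt.le hc1 (by positivity) fun h hh => ?_
        rw [norm_pow]
        exact pow_le_pow_right₀ hD1.le (Nat.pow_le_pow_right hpp.pos hh)
      · refine (dsc2_sum_le hpp.one_lt.le hc1 zero_le_one fun h hh => ?_).trans hDq
        have h2 := norm_sub_pow_sub (p := p) hp.le (x := Y') (y := D) haB.le hDB h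
        have h3 : Y' - D = S := by rw [hD]; ring
        rw [h3] at h2
        refine h2.trans (le_trans ?_ hBp.le)
        exact mul_le_mul_of_nonneg_left (hpowB h hh) (norm_nonneg _)
    have h4 := hS₀p S hS ((hSB.trans hBq).trans hBR.le)
    have h5 : ‖S - S₀‖ ^ q ≤ ‖D‖ ^ q := h4.trans (max_le hDq hGn)
    have h6 : ‖S - S₀‖ ≤ ‖D‖ := le_of_pow_le_pow_left₀ hq0 (norm_nonneg _) h5
    have h7 := IsUltrametricDist.norm_add_le_max (Y' - S) (S - S₀)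
    rw [sub_add_sub_cancel] at h7
    exact h7.trans (max_le le_rfl h6)
  have hS₀1 : 1 < ‖Y' - S₀‖ := hY'1 S₀ hS₀
  obtain ⟨b, hb, hbB⟩ := (Metric.infDist_lt_iff (x := Y) hne).1
    (show Metric.infDist Y (F' : Set Ω) < min ‖Y' - S₀‖ B by
      rw [hr]; exact lt_min hS₀1 hB1)
  rw [dist_eq_norm] at hbB
  have hYb : Y' - (b - a) = Y - b := by rw [hY']; ring
  have hbaB : ‖b - a‖ ≤ B := by
    have h1 : b - a = Y' - (Y - b) := by rw [hY']; ring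
    rw [h1]
    exact (hsub _ _).trans (max_le haB.le (hbB.le.trans (min_le_right _ _)))
  have h8 := hmain (b - a) (F'.sub_mem hb ha) hbaB
  rw [hYb] at h8
  exact absurd (hbB.trans_le (min_le_left _ _)) (not_lt.2 h8)

end MP1a953e
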