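import Pool.Agent.Lib.MP_1a953e_ag.Sta10
import Pool.Agent.Lib.MP_1a953e_ag.Lin3

/-!
# Module Sta11: distances to algebraic elements
-/

namespace MP1a953e

open Polynomial

variable {Ω : Type*} [NormedField Ω]

/-- STA11a.  Proof.  `0 < r = infDist T F`, as `F` is closed. Suppose `b` is algebraic over `F` and
`‖T - b‖ ≤ r`. Let `F' ∋ b` be as in `stable`. `T ∉ F'` (`mem_of_sup`), `T - b ∈ K ⊔ F'`, which is
immediate over `F'` (`Imm.sup`): there is `c ∈ F'` with `‖T - b - c‖ < ‖T - b‖ ≤ r = infDist T F'`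
(`infDist_sup`), a contradiction. -/
theorem tt_of_stable [IsUltrametricDist Ω] [IsAlgClosed Ω] [CharZero Ω] {p : ℕ} [Fact p.Prime]
    (hp : ‖(p : Ω)‖ < 1) {k F K : Subfield Ω} {n : ℕ} {s : Fin n → Ω} (hF : TF k F s)
    (hv : DenseVal F) (hI : Imm F K) {T : Ω} (hT : T ∈ K) (hTF : T ∉ F) : TT F T := by
  have hne : (F : Set Ω).Nonempty := ⟨0, F.zero_mem⟩
  have hcl : IsClosed (F : Set Ω) := hF.complete.isClosed
  refine ⟨(hcl.notMem_iff_infDist_pos hne).1 (fun h => hTF h), ?_⟩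
  intro b hb
  obtain ⟨F', d, θ, hθ, hX⟩ := stable hp hF hv {b} (by
    intro x hx
    rw [Finset.mem_singleton] at hx
    rw [hx]
    exact hb)
  have hbF' : b ∈ F' := hX b (Finset.mem_singleton_self b)
  have hTF' : T ∉ F' := fun h => hTF (mem_of_sup hI hθ hT h)
  have hTb : T - b ≠ 0 := by
    intro h0
    rw [sub_eq_zero] at h0
    exact hTF' (h0 ▸ hbF')
  have hTb' : T - b ∈ K ⊔ F' :=
    (K ⊔ F').sub_mem ((le_sup_left : K ≤ K ⊔ F') hT) ((le_sup_right : F' ≤ K ⊔ F') hbF')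
  obtain ⟨c, hc, hlt⟩ := (hI.sup hθ).2 (T - b) hTb' hTb
  rw [← infDist_sup hI hθ hT]
  have hbc : b + c ∈ F' := F'.add_mem hbF' hc
  refine (Metric.infDist_le_dist_of_mem (show b + c ∈ (F' : Set Ω) from hbc)).trans_lt ?_
  rw [dist_eq_norm]
  have e : T - (b + c) = T - b - c := by ring
  rw [e]
  exact hlt

/-- STA11b.  `C` the algebraic closure of `F` in `Ω`: `infDist T C = infDist T F` (by `stable` and
`infDist_sup`), and elements algebraic over `C` are in `C`. -/
theorem tt_algClosure [IsUltrametricDist Ω] [IsAlgClosed Ω] [CharZero Ω] {p : ℕ} [Fact p.Prime]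
    (hp : ‖(p : Ω)‖ < 1) {k F K C : Subfield Ω} {n : ℕ} {s : Fin n → Ω} (hF : TF k F s)
    (hv : DenseVal F) (hI : Imm F K) (hC : ∀ x, x ∈ C ↔ IsAlgebraic F x) {T : Ω} (hT : T ∈ K)
    (hTF : T ∉ F) :
    TT C T ∧ Metric.infDist T (C : Set Ω) = Metric.infDist T (F : Set Ω) := by
  have hTT := tt_of_stable hp hF hv hI hT hTF
  have hFC : F ≤ C := by
    intro x hx
    rw [hC]
    exact isAlgebraic_algebraMap (R := F) (A := Ω) ⟨x, hx⟩
  have hne : (F : Set Ω).Nonempty := ⟨0, F.zero_mem⟩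
  have hne' : (C : Set Ω).Nonempty := ⟨0, C.zero_mem⟩
  have hd : Metric.infDist T (C : Set Ω) = Metric.infDist T (F : Set Ω) := by
    refine le_antisymm (Metric.infDist_le_infDist_of_subset (fun x hx => hFC hx) hne) ?_
    rw [Metric.le_infDist hne']
    intro b hb
    rw [dist_eq_norm]
    exact (hTT.nb b ((hC b).1 hb)).le
  refine ⟨⟨?_, ?_⟩, hd⟩
  · rw [hd]
    exact hTT.pos
  · intro b hb
    rw [hd]
    apply hTT.nb
    let _ : Algebra F C := (Subfield.inclusion hFC).toAlgebra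
    have _ : IsScalarTower F C Ω := IsScalarTower.of_algebraMap_eq (fun x => rfl)
    have _ : Algebra.IsAlgebraic F C := ⟨fun x =>
      (isAlgebraic_algebraMap_iff (algebraMap C Ω).injective).1 ((hC x).1 x.2)⟩
    exact hb.restrictScalars F

end MP1a953e
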