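import Pool.Agent.Lib.MP_1a953e_ag.Dsc1
import Pool.Agent.Lib.MP_1a953e_ag.Dsc2
import Pool.Agent.Lib.MP_1a953e_ag.Desc1
import Pool.Agent.Lib.MP_1a953e_ag.Sta11

/-!
# Module Dsc3: descent of a generator
-/

namespace MP1a953e

open Polynomial

variable {Ω : Type*} [NormedField Ω]

/-- DSC3a (radius `1`, or irrational radius).  Proof.  `Y = ∑ y i * θ i`, `y i ∈ K` (`mem_sup_iff`). For every
`i` apply `TT.kl2` to `y i * θ i` (`infDist_proj`), with `H`, `c`, `ρ`. If `H ≥ 1`: in the irrational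
case `‖c H‖ * r ^ p^H = r` is excluded by `hrad`; for `r = 1` use the projection `C` of `exists_proj`
(with `A = F`, `A' = F'`), `C Y = y i * θ i`, and `no_high2`. So `H = 0`, and with any `a ∈ F'`, `‖Y - a‖ < ρ`, the element
`e - c 0 * a` gives the hypothesis of `desc_linear` (`‖c 0‖ ≤ 1`). -/
theorem descent_radius [IsUltrametricDist Ω] [IsAlgClosed Ω] {p : ℕ} [Fact p.Prime]
    (hp : ‖(p : Ω)‖ < 1) {k F F' K : Subfield Ω} {n : ℕ} {s : Fin n → Ω} (hF : TF k F s)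
    (hI : Imm F K) {d : ℕ} {θ : Fin (d + 1) → Ω} (hθ : OrthBasis F F' θ) {Y : Ω}
    (hY : Y ∈ K ⊔ F') (hT : TT F' Y) (hd : DenseIn (adj F' Y) (K ⊔ F'))
    (hrad : Metric.infDist Y (F' : Set Ω) = 1 ∨
      ∀ h : ℕ, 1 ≤ h → ∀ x ∈ F', ‖x‖ * Metric.infDist Y (F' : Set Ω) ^ p ^ h ≠
        Metric.infDist Y (F' : Set Ω)) :
    ∃ y ∈ K, DenseIn (adj F y) K := by
  classical
  obtain ⟨y, hyK, hYy⟩ := (mem_sup_iff hI.1 hθ Y).1 hY
  have hr := hT.pos
  have hlin : ∀ i, ∃ e ∈ F', ∃ c ∈ F', ‖c‖ ≤ 1 ∧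
      ‖y i * θ i - e - c * Y‖ < Metric.infDist Y (F' : Set Ω) := by
    intro i
    have hyi : y i * θ i ∈ K ⊔ F' :=
      mul_mem ((le_sup_left : K ≤ K ⊔ F') (hyK i)) ((le_sup_right : F' ≤ K ⊔ F') (hθ.mem i))
    have hle : Metric.infDist (y i * θ i) (F' : Set Ω) ≤ Metric.infDist Y (F' : Set Ω) := by
      rw [hYy]
      exact infDist_proj hI hθ y hyK i
    obtain ⟨H, c, ρ, hρ, hcF, hcr, hcH, happ⟩ := TT.kl2 hp hT hd hyi hle
    rcases Nat.eq_zero_or_pos H with h0 | hpos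
    · subst h0
      obtain ⟨a, ha, haρ, -⟩ := hT.exists_near hρ
      obtain ⟨e, he, hea⟩ := happ a ha haρ
      have hc0 := hcF 0 le_rfl
      refine ⟨e - c 0 * a, sub_mem he (mul_mem hc0 ha), c 0, hc0, ?_, ?_⟩
      · have h1 := hcr 0 le_rfl
        rw [pow_zero, pow_one] at h1
        by_contra hcon
        push Not at hcon
        nlinarith
      · have h2 : y i * θ i - (e - c 0 * a) - c 0 * Y =
            y i * θ i - e - ∑ h ∈ Finset.range (0 + 1), c h * (Y - a) ^ p ^ h := by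
          rw [zero_add, Finset.sum_range_one, pow_zero, pow_one]
          ring
        rw [h2]
        exact hea
    · exfalso
      rcases hrad with h1 | h1
      · obtain ⟨C, hCK, hCF, -, hCadd, hClin, hCn, hCy⟩ := exists_proj hI le_rfl hθ hθ i
        rw [h1] at hρ hcr hcH happ
        have hCY : C Y = y i * θ i := by
          rw [hYy]
          exact hCy y hyK
        refine no_high2 hp hF hθ hI.1 hY hT h1 C hCF hCadd hClin hCn hpos c hcF ?_ ?_ hρ ?_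
        · intro h hh
          have h2 := hcr h hh
          rwa [one_pow, mul_one] at h2
        · have h2 := hcH hpos
          rwa [one_pow, mul_one] at h2
        · rw [hCY]
          exact happ
      · exact h1 H hpos (c H) (hcF H le_rfl) (hcH hpos)
  obtain ⟨i, hi⟩ := desc_linear hI hθ hT hd y hyK hYy hlin
  exact ⟨y i, hyK i, hi⟩

/-- DSC3b (descent of a generator).  Proof.  `TT F' Y` by `tt_of_stable` (for `F'`: `TF.ext`,
`DenseVal.mono`, `Imm.sup`). Let `r = infDist Y F' > 0`. If `‖x‖ * r ^ p^h ≠ r` for all `h ≥ 1`, `x ∈ F'`, use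
`descent_radius`. Otherwise `r ^ N = ‖x⁻¹‖`, `N = p ^ h - 1 ≥ 1`; let `x₁ ∈ Ω`, `x₁ ^ N = x⁻¹`, so
`‖x₁‖ = r`; `stable` for `F'` gives `F'' ∋ x₁` with an orthogonal basis over `F'`, and
`OrthBasis.trans` one over `F`. `K ⊔ F'' = (K ⊔ F') ⊔ F''`, `adj F'' Y` is dense in it
(`DenseIn.sup`), `infDist Y F'' = r` (`infDist_sup`), `Y ∉ F''` (`mem_of_sup`). Replace `Y` by
`Y / x₁` (`TT.smul_add`, `adj F'' (Y / x₁) = adj F'' Y`) and apply `descent_radius` to `F''`. -/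
theorem descent2 [IsUltrametricDist Ω] [IsAlgClosed Ω] [CharZero Ω] {p : ℕ} [Fact p.Prime]
    (hp : ‖(p : Ω)‖ < 1) {k F F' K : Subfield Ω} {n : ℕ} {s : Fin n → Ω} (hF : TF k F s)
    (hv : DenseVal F) (hI : Imm F K) {d : ℕ} {θ : Fin (d + 1) → Ω} (hθ : OrthBasis F F' θ)
    {Y : Ω} (hY : Y ∈ K ⊔ F') (hYF : Y ∉ F') (hd : DenseIn (adj F' Y) (K ⊔ F')) :
    ∃ y ∈ K, DenseIn (adj F y) K := by
  classical
  have hpp : p.Prime := Fact.out
  have hF' := hF.ext hθ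
  have hv' := hv.mono hθ.le
  have hI' : Imm F' (K ⊔ F') := hI.sup hθ
  have hT : TT F' Y := tt_of_stable hp hF' hv' hI' hY hYF
  set r := Metric.infDist Y (F' : Set Ω) with hr
  have hr0 : 0 < r := hT.pos
  by_cases hirr : ∀ h : ℕ, 1 ≤ h → ∀ x ∈ F', ‖x‖ * r ^ p ^ h ≠ r
  · exact descent_radius hp hF hI hθ hY hT hd (Or.inr hirr)
  push Not at hirr
  obtain ⟨h, hh, x, hx, hxr⟩ := hirr
  set N := p ^ h - 1 with hN
  have hph : 1 < p ^ h := Nat.one_lt_pow (by omega) hpp.one_lt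
  have hN0 : 0 < N := by omega
  have hNp : p ^ h = N + 1 := by omega
  have hx0 : x ≠ 0 := by
    rintro rfl
    rw [norm_zero, zero_mul] at hxr
    linarith
  have hxn : 0 < ‖x‖ := norm_pos_iff.2 hx0
  have hxN : ‖x‖ * r ^ N = 1 := by
    rw [hNp, pow_succ, ← mul_assoc] at hxr
    have h1 : (‖x‖ * r ^ N) * r = 1 * r := by rw [hxr, one_mul]
    exact mul_right_cancel₀ hr0.ne' h1
  obtain ⟨x₁, hx₁⟩ := IsAlgClosed.exists_pow_nat_eq (x⁻¹) hN0
  have hx₁n : ‖x₁‖ = r := by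
    have h1 : ‖x₁‖ ^ N = r ^ N := by
      rw [← norm_pow, hx₁, norm_inv]
      field_simp
      linarith
    exact (pow_left_inj₀ (norm_nonneg _) hr0.le (by omega)).1 h1
  have hx₁0 : x₁ ≠ 0 := by
    rintro rfl
    rw [norm_zero] at hx₁n
    linarith
  have hx₁alg : IsAlgebraic F' x₁ := by
    have h1 : IsAlgebraic F' (x₁ ^ N) := by
      rw [hx₁]
      exact isAlgebraic_algebraMap (R := F') (A := Ω) ⟨x⁻¹, inv_mem hx⟩
    exact h1.of_pow hN0
  obtain ⟨F'', d'', θ'', hθ'', hX⟩ := stable hp hF' hv' {x₁} (by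
    intro z hz
    rw [Finset.mem_singleton] at hz
    rw [hz]
    exact hx₁alg)
  have hx₁F : x₁ ∈ F'' := hX x₁ (Finset.mem_singleton_self _)
  obtain ⟨d₂, θ₂, hθ₂⟩ := hθ.trans hθ''
  have hsup : (K ⊔ F') ⊔ F'' = K ⊔ F'' := by
    rw [sup_assoc, sup_eq_right.2 hθ''.le]
  have hd'' : DenseIn (adj F'' Y) (K ⊔ F'') := by
    have h1 := hd.sup hθ''
    rwa [hsup] at h1
  have hY'' : Y ∈ K ⊔ F'' := by
    rw [← hsup]
    exact (le_sup_left : K ⊔ F' ≤ (K ⊔ F') ⊔ F'') hY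
  have hYF'' : Y ∉ F'' := fun h0 => hYF (mem_of_sup hI' hθ'' hY h0)
  have hr'' : Metric.infDist Y (F'' : Set Ω) = r := infDist_sup hI' hθ'' hY
  have hT'' : TT F'' Y := by
    have hF'' := hF'.ext hθ''
    have hv'' := hv'.mono hθ''.le
    have hI'' : Imm F'' ((K ⊔ F') ⊔ F'') := hI'.sup hθ''
    exact tt_of_stable hp hF'' hv'' hI'' ((le_sup_left : K ⊔ F' ≤ (K ⊔ F') ⊔ F'') hY) hYF''
  obtain ⟨hT₂, hr₂⟩ := hT''.smul_add (inv_mem hx₁F) (inv_ne_zero hx₁0) (zero_mem F'')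
  have hr₂' : Metric.infDist (x₁⁻¹ * Y + 0) (F'' : Set Ω) = 1 := by
    rw [hr₂, hr'', norm_inv, hx₁n]
    exact inv_mul_cancel₀ hr0.ne'
  have hadj : adj F'' (x₁⁻¹ * Y + 0) = adj F'' Y := by
    rw [add_zero]
    apply le_antisymm
    · exact adj_le (le_adj _ _) (mul_mem (le_adj _ _ (inv_mem hx₁F)) (mem_adj_self _ _))
    · refine adj_le (le_adj _ _) ?_
      have h1 : Y = x₁ * (x₁⁻¹ * Y) := by rw [mul_inv_cancel_left₀ hx₁0]
      have h2 : x₁ * (x₁⁻¹ * Y) ∈ adj F'' (x₁⁻¹ * Y) :=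
        mul_mem (le_adj _ _ hx₁F) (mem_adj_self _ _)
      rwa [← h1] at h2
  refine descent_radius hp hF hI hθ₂ (Y := x₁⁻¹ * Y + 0) ?_ hT₂ (by rw [hadj]; exact hd'')
    (Or.inl hr₂')
  rw [add_zero]
  exact mul_mem ((le_sup_right : F'' ≤ K ⊔ F'') (inv_mem hx₁F)) hY''

end MP1a953e
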