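import Pool.Agent.Lib.MP_1a953e_ag.Kr4
import Pool.Agent.Lib.MP_1a953e_ag.Dsc3
import Pool.Agent.Lib.MP_1a953e_ag.DTop
import Pool.Agent.Lib.MP_1a953e_ag.DImmB

/-!
# Module HR2: henselian rationality for fields which are topologically of finite type
-/

namespace MP1a953e

open Polynomial

variable {Ω : Type*} [NormedField Ω]

private theorem hr2_mono {A B : Subfield Ω} (h : A ≤ B) {x : Ω} (hx : IsAlgebraic A x) :
    IsAlgebraic B x := by
  obtain ⟨P, hP0, hP⟩ := hx
  refine ⟨P.map (Subfield.inclusion h), ?_, ?_⟩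
  · exact (Polynomial.map_ne_zero_iff (Subfield.inclusion h).injective).2 hP0
  · rw [aeval_def, eval₂_map]
    exact hP

private theorem hr2_sup_closure (K : Subfield Ω) (s : Set Ω) :
    K ⊔ Subfield.closure s = (IntermediateField.adjoin K s).toSubfield := by
  rw [IntermediateField.adjoin_toSubfield, Subfield.closure_union]
  congr 1
  have : Set.range (algebraMap K Ω) = (K : Set Ω) := by
    ext x
    constructor
    · rintro ⟨a, rfl⟩
      exact a.2
    · intro hx
      exact ⟨⟨x, hx⟩, rfl⟩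
  rw [this, Subfield.closure_eq]

/-- HR2 (henselian rationality).  Proof.  Let `C` be the algebraic closure of `F` in `Ω`
(`algebraicClosure F Ω` as a subfield), algebraically closed. `tt_algClosure`: `TT C T`.
`immAll_of_alg`: `ImmAll C`. Apply `dim_one` with `P₀` (nontrivially normed by `DenseVal`; `Ω` is
algebraic over `K`, and `K = E` over `P₀`, so `Ω` is algebraic over `P₀`; elements of `P₀` are limits
of elements of `adj F T ≤ adj C T`) and the intermediate field of `Ω / (P₀ ⊔ C)` with underlying field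
`K ⊔ C` (generated by the finitely many generators of `E` over `P₀`, all algebraic, so finite
dimensional). This gives `y ∈ K ⊔ C` with `TT C y`, `adj C y` dense in `K ⊔ C`. `krasner_step`, then
`descent2` give `y' ∈ K` with `adj F y'` dense in `K`; `y' ∉ F`, otherwise `F` would be dense in
`K ∋ T`, but `F` is closed. -/
theorem hr_tf [IsUltrametricDist Ω] [IsAlgClosed Ω] [CharZero Ω] {p : ℕ} [Fact p.Prime]
    (hp : ‖(p : Ω)‖ < 1) {k F K P₀ : Subfield Ω} {n : ℕ} {s : Fin n → Ω} (hF : TF k F s)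
    (hv : DenseVal F) (hI : Imm F K) (hK : IsComplete (K : Set Ω))
    (halg : ∀ x : Ω, IsAlgebraic K x) {T : Ω} (hT : T ∈ K)
    (hTF : T ∉ F) (hP : IsComplete (P₀ : Set Ω)) (hPd : DenseIn (adj F T) P₀)
    (E : IntermediateField P₀ Ω) [FiniteDimensional P₀ E] (hE : E.toSubfield = K)
    (hL : ∀ x ∈ K, ∀ ε : ℝ, 0 < ε → ∃ x' ∈ K, IsAlgebraic (adj F T) x' ∧ ‖x - x'‖ < ε) :
    ∃ y ∈ K, y ∉ F ∧ DenseIn (adj F y) K := by
  classical
  have hC : ∀ x, x ∈ (algebraicClosure F Ω).toSubfield ↔ IsAlgebraic F x := fun x =>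
    mem_algebraicClosure_iff
  have hCcl : IsAlgClosed (algebraicClosure F Ω).toSubfield :=
    (inferInstance : IsAlgClosure F (algebraicClosure F Ω)).isAlgClosed
  set C : Subfield Ω := (algebraicClosure F Ω).toSubfield with hCdef
  have hFC : F ≤ C := by
    intro x hx
    rw [hC]
    exact isAlgebraic_algebraMap (R := F) (A := Ω) ⟨x, hx⟩
  have hTT : TT C T := (tt_algClosure hp hF hv hI hC hT hTF).1
  have hFP : F ≤ P₀ := (le_adj F T).trans hPd.1
  obtain ⟨x0, hx0F, hx0, -⟩ := hv 1 2 one_pos one_lt_two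
  have him : ImmAll C := immAll_of_alg hI hK ⟨x0, hI.1 hx0F, hx0⟩ halg hFC hCcl
  have hfin1 : Algebra.IsAlgebraic P₀ E := inferInstance
  have halgP : ∀ x : Ω, IsAlgebraic P₀ x := by
    intro x
    have h1 : IsAlgebraic E x := by
      have h2 := halg x
      subst hE
      obtain ⟨P, hP0, hP⟩ := h2
      exact ⟨P, hP0, hP⟩
    exact h1.restrictScalars P₀
  have hTP : T ∈ P₀ := hPd.1 (mem_adj_self F T)
  have hPC : ∀ x ∈ P₀, ∀ ε : ℝ, 0 < ε → ∃ y ∈ adj C T, ‖x - y‖ < ε := by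
    intro x hx ε hε
    obtain ⟨y, hy, h1⟩ := hPd.2 x hx ε hε
    exact ⟨y, (sup_le_sup_right hFC _ : adj F T ≤ adj C T) hy, h1⟩
  obtain ⟨S, hS⟩ : E.FG := by
    apply IntermediateField.fg_of_fg_toSubalgebra
    rw [← Subalgebra.fg_top]
    have h0 : Module.Finite P₀ E.toSubalgebra := inferInstanceAs (Module.Finite P₀ E)
    have h1 : Algebra.FiniteType P₀ E.toSubalgebra := inferInstance
    exact h1.out
  have hEs : K = P₀ ⊔ Subfield.closure (S : Set Ω) := by
    rw [hr2_sup_closure, hS, hE]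
  set E2 : IntermediateField ↥(P₀ ⊔ C) Ω :=
    IntermediateField.adjoin ↥(P₀ ⊔ C) (S : Set Ω) with hE2
  have hE2s : E2.toSubfield = K ⊔ C := by
    rw [hE2, ← hr2_sup_closure, hEs, sup_right_comm]
  have hfin2 : FiniteDimensional ↥(P₀ ⊔ C) E2 :=
    IntermediateField.finiteDimensional_adjoin fun x _ =>
      (hr2_mono (le_sup_left : P₀ ≤ P₀ ⊔ C) (halgP x)).isIntegral
  obtain ⟨y, hyE, hyTT, hyd⟩ := dim_one hp hCcl him hTT hP ⟨x0, hFP hx0F, hx0⟩ halgP hTP hPC E2
  have hyKC : y ∈ K ⊔ C := by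
    rw [← hE2s]
    exact hyE
  rw [hE2s] at hyd
  obtain ⟨F', d, θ, hθ, Y, hY, hYF, hYd⟩ :=
    krasner_step hp hF hv hI hK hT hTF hPd E hE hC hL hyKC hyTT hyd
  obtain ⟨y', hy', hy'd⟩ := descent2 hp hF hv hI hθ hY hYF hYd
  refine ⟨y', hy', ?_, hy'd⟩
  intro hy'F
  apply hTF
  have hcl : IsClosed (F : Set Ω) := hF.complete.isClosed
  have h1 : T ∈ closure (F : Set Ω) := by
    rw [Metric.mem_closure_iff]
    intro ε hε
    obtain ⟨a, ha, hxa⟩ := hy'd.2 T hT ε hε
    exact ⟨a, (adj_le le_rfl hy'F : adj F y' ≤ F) ha, by rw [dist_eq_norm]; exact hxa⟩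
  rwa [hcl.closure_eq] at h1

end MP1a953e
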