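import Pool.Agent.Lib.MP_1a953e_ag.RDefs
import Pool.Agent.Lib.MP_1a953e_ag.GP2
import Pool.Agent.Lib.MP_1a953e_ag.Calc4

/-!
# Module Tr7: immediacy, density
-/

namespace MP1a953e

open Polynomial

variable {Ω : Type*} [NormedField Ω]

section

variable {Ω : Type*} [NormedField Ω] [IsUltrametricDist Ω]

/-- the unit ball as a subring -/
private def OO (Ω : Type*) [NormedField Ω] [IsUltrametricDist Ω] : Subring Ω where
  carrier := {z | ‖z‖ ≤ 1}
  mul_mem' := by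
    intro a b ha hb
    simp only [Set.mem_ofPred_eq] at *
    rw [norm_mul]
    exact mul_le_one₀ ha (norm_nonneg _) hb
  one_mem' := by simp
  add_mem' := by
    intro a b ha hb
    exact (IsUltrametricDist.norm_add_le_max a b).trans (max_le ha hb)
  zero_mem' := by simp
  neg_mem' := by
    intro a ha
    simpa using ha

private lemma lift_OO {f : Polynomial Ω} (hf1 : ∀ i, ‖f.coeff i‖ ≤ 1) :
    ∃ F : Polynomial (OO Ω), F.map (OO Ω).subtype = f := by
  have h : (↑f.coeffs : Set Ω) ⊆ (OO Ω : Set Ω) := by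
    intro z hz
    have hz' : z ∈ f.coeffs := hz
    rw [Polynomial.mem_coeffs_iff] at hz'
    obtain ⟨n, _, rfl⟩ := hz'
    exact hf1 n
  exact ⟨f.toSubring (OO Ω) h, Polynomial.map_toSubring f (OO Ω) h⟩

private lemma eval_OO (F : Polynomial (OO Ω)) (z : OO Ω) :
    (F.map (OO Ω).subtype).eval (z : Ω) = ((F.eval z : OO Ω) : Ω) := by
  rw [Polynomial.eval_map]
  exact Polynomial.eval₂_at_apply (OO Ω).subtype z

private lemma deriv_OO {f : Polynomial Ω} (hf1 : ∀ i, ‖f.coeff i‖ ≤ 1) :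
    ∀ i, ‖f.derivative.coeff i‖ ≤ 1 := by
  intro i
  rw [Polynomial.coeff_derivative, norm_mul]
  refine mul_le_one₀ (hf1 _) (norm_nonneg _) ?_
  have := IsUltrametricDist.norm_natCast_le_one Ω (i + 1)
  simpa using this

private lemma taylor2 {f : Polynomial Ω} (hf1 : ∀ i, ‖f.coeff i‖ ≤ 1) {y h : Ω} (hy : ‖y‖ ≤ 1)
    (hh : ‖h‖ ≤ 1) :
    ∃ k : Ω, ‖k‖ ≤ 1 ∧ f.eval (y + h) = f.eval y + f.derivative.eval y * h + k * h ^ 2 := by
  obtain ⟨F, hF⟩ := lift_OO hf1
  let y' : OO Ω := ⟨y, hy⟩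
  let h' : OO Ω := ⟨h, hh⟩
  obtain ⟨k, hk⟩ := Polynomial.binomExpansion F y' h'
  refine ⟨k, k.2, ?_⟩
  have h1 := eval_OO F (y' + h')
  have h2 := eval_OO F y'
  have h3 := eval_OO (derivative F) y'
  rw [← Polynomial.derivative_map] at h3
  rw [hF] at h1 h2 h3
  have e1 : ((y' + h' : OO Ω) : Ω) = y + h := rfl
  have e2 : ((y' : OO Ω) : Ω) = y := rfl
  rw [e1] at h1
  rw [e2] at h2 h3
  rw [h1, h2, h3, hk]
  rfl

private lemma taylor1 {f : Polynomial Ω} (hf1 : ∀ i, ‖f.coeff i‖ ≤ 1) {y h : Ω} (hy : ‖y‖ ≤ 1)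
    (hh : ‖h‖ ≤ 1) : ‖f.eval (y + h) - f.eval y‖ ≤ ‖h‖ := by
  obtain ⟨F, hF⟩ := lift_OO hf1
  let y' : OO Ω := ⟨y, hy⟩
  let h' : OO Ω := ⟨h, hh⟩
  obtain ⟨k, hk⟩ := Polynomial.evalSubFactor F (y' + h') y'
  have h1 := eval_OO F (y' + h')
  have h2 := eval_OO F y'
  rw [hF] at h1 h2
  have e1 : ((y' + h' : OO Ω) : Ω) = y + h := rfl
  have e2 : ((y' : OO Ω) : Ω) = y := rfl
  rw [e1] at h1
  rw [e2] at h2
  have h4 : f.eval (y + h) - f.eval y = k * h := by
    rw [h1, h2]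
    have := congrArg (fun z : OO Ω => (z : Ω)) hk
    simp only [add_sub_cancel_left] at this
    exact this
  rw [h4, norm_mul]
  calc ‖(k : Ω)‖ * ‖h‖ ≤ 1 * ‖h‖ := mul_le_mul_of_nonneg_right k.2 (norm_nonneg _)
    _ = ‖h‖ := one_mul _

end

/-- TR7a.  Scale by an element of `k'`. -/
theorem imm_of_res {k' F K : Subfield Ω} (hFK : F ≤ K) (hkF : k' ≤ F)
    (hval : ∀ x ∈ K, ∃ c ∈ k', ‖c‖ = ‖x‖) (hres : ∀ x ∈ K, ‖x‖ ≤ 1 → ∃ e ∈ F, ‖x - e‖ < 1) :
    Imm F K := by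
  refine ⟨hFK, fun x hx hx0 => ?_⟩
  obtain ⟨c, hc, hcx⟩ := hval x hx
  have hxpos : 0 < ‖x‖ := norm_pos_iff.2 hx0
  have hc0 : c ≠ 0 := by
    intro h
    rw [h, norm_zero] at hcx
    exact hxpos.ne hcx
  have hcK : c ∈ K := hFK (hkF hc)
  have h1 : ‖x / c‖ = 1 := by rw [norm_div, hcx, div_self hxpos.ne']
  obtain ⟨e, he, hxe⟩ := hres (x / c) (K.div_mem hx hcK) h1.le
  refine ⟨c * e, F.mul_mem (hkF hc) he, ?_⟩
  have h2 : x - c * e = c * (x / c - e) := by
    field_simp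
  rw [h2, norm_mul, hcx]
  calc ‖x‖ * ‖x / c - e‖ < ‖x‖ * 1 := mul_lt_mul_of_pos_left hxe hxpos
    _ = ‖x‖ := mul_one _

/-- TR7b.  The value group of a nontrivially normed algebraically closed field is dense: take `n`-th roots of
an element of norm `> 1` and their powers. -/
theorem denseVal_of_closed {k' : Subfield Ω} (hk : IsAlgClosed k') (hnt : ∃ x ∈ k', 1 < ‖x‖) :
    DenseVal k' := by
  intro a b ha hab
  obtain ⟨x, hx, hx1⟩ := hnt
  have hba : 1 < b / a := by rwa [one_lt_div ha]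
  obtain ⟨n, hn⟩ := pow_unbounded_of_one_lt ‖x‖ hba
  have hn0 : 0 < n := by
    rcases Nat.eq_zero_or_pos n with h | h
    · rw [h, pow_zero] at hn
      exact absurd hn (not_lt.2 hx1.le)
    · exact h
  obtain ⟨z, hz⟩ := IsAlgClosed.exists_pow_nat_eq (⟨x, hx⟩ : k') hn0
  have hz' : (z : Ω) ^ n = x := congrArg Subtype.val hz
  have hzn : ‖(z : Ω)‖ ^ n = ‖x‖ := by rw [← norm_pow, hz']
  have hz1 : 1 < ‖(z : Ω)‖ := by
    by_contra h
    have h2 : ‖(z : Ω)‖ ^ n ≤ 1 := pow_le_one₀ (norm_nonneg _) (not_lt.1 h)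
    rw [hzn] at h2
    exact absurd hx1 (not_lt.2 h2)
  have hzb : ‖(z : Ω)‖ < b / a := by
    rw [← hzn] at hn
    exact lt_of_pow_lt_pow_left₀ n (by positivity) hn
  obtain ⟨j, hj1, hj2⟩ := exists_mem_Ico_zpow ha hz1
  refine ⟨(z : Ω) ^ (j + 1), k'.zpow_mem z.2 _, ?_, ?_⟩
  · rw [norm_zpow]
    exact hj2
  · rw [norm_zpow, zpow_add_one₀ (by positivity)]
    calc ‖(z : Ω)‖ ^ j * ‖(z : Ω)‖ ≤ a * ‖(z : Ω)‖ :=
          mul_le_mul_of_nonneg_right hj1 (by positivity)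
      _ < a * (b / a) := mul_lt_mul_of_pos_left hzb ha
      _ = b := by field_simp

/-- TR7c (density of `k(u, α)`).  As in module Em10.  Proof: let `Q` be the closure of
`adj (kU k' U) α` in the complete field `K`. `‖f α‖ = ‖f α - f a‖ < 1`, `‖f' α‖ = 1`, so by `hensel` `Q` contains a
root `b` of `f` with `‖α - b‖ < 1`, `‖b - a‖ < 1`. If `b ≠ a`, then `f = (X - a)(X - b) g` with `g` over the
integral elements (division by monic polynomials), so `‖f' a‖ = ‖(a - b) * g a‖ < 1`, a contradiction.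
So `a ∈ Q`, `adj (kU k' U) a ≤ Q`, `F ≤ Q` (`Q` closed). First case: `K ≤ F ≤ Q`. Second case: `q = (α - a) / c ∈ Q`,
`‖Y - q‖ < infDist Y F`, so `TT.gc` gives the density of `adj F q` in `K`, and `K ≤ Q`. -/
theorem RD.dense_of_close [IsUltrametricDist Ω] [IsAlgClosed Ω] {k' F K : Subfield Ω} {m : ℕ}
    {U : Fin m → Ω} {d : ℕ} {a : Ω} {f : Polynomial Ω} (h : RD k' U d a f)
    (hFd : DenseIn (adj (kU k' U) a) F) (hFK : F ≤ K)
    (hK : IsComplete (K : Set Ω)) {Y c α : Ω} (hα : α ∈ K)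
    (hcase : (c = 0 ∧ K ≤ F ∧ ‖α - a‖ < 1) ∨
      (TT F Y ∧ DenseIn (adj F Y) K ∧ c ∈ k' ∧ c ≠ 0 ∧ ‖c * Y‖ < 1 ∧ ‖α - a‖ < 1 ∧
        ‖α - (a + c * Y)‖ < ‖c‖ * Metric.infDist Y (F : Set Ω))) :
    DenseIn (adj (kU k' U) α) K := by
  have hUF : kU k' U ≤ F := (le_adj _ a).trans hFd.1
  have hαa : ‖α - a‖ < 1 := by
    rcases hcase with h | h
    · exact h.2.2
    · exact h.2.2.2.2.2.1
  set A : Subfield Ω := adj (kU k' U) α with hA
  have hUA : kU k' U ≤ A := le_adj _ _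
  have hkA : k' ≤ A := le_sup_left.trans hUA
  have hαA : α ∈ A := mem_adj_self _ _
  have hAK : A ≤ K := adj_le (hUF.trans hFK) hα
  have hKc : IsClosed (K : Set Ω) := hK.isClosed
  set Q : Subfield Ω := A.topologicalClosure with hQ
  have hAQ : A ≤ Q := Subfield.le_topologicalClosure A
  have hQK : Q ≤ K := Subfield.topologicalClosure_minimal A hAK hKc
  have hQc : IsClosed (Q : Set Ω) := Subfield.isClosed_topologicalClosure A
  have hQcomp : IsComplete (Q : Set Ω) := by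
    intro g hg hgQ
    obtain ⟨x, -, hx⟩ := hK g hg (hgQ.trans (Filter.principal_mono.2 hQK))
    exact ⟨x, isClosed_iff_clusterPt.1 hQc x (hg.1.mono (le_inf hx hgQ)), hx⟩
  have hf1 : ∀ i, ‖f.coeff i‖ ≤ 1 := h.norm_f
  have hfa : f.eval a = 0 := h.root
  have hfda : ‖f.derivative.eval a‖ = 1 := h.deriv
  have ha1 : ‖a‖ ≤ 1 := h.norm_a
  have hα1 : ‖α‖ ≤ 1 := by
    have : α = (α - a) + a := by ring
    rw [this]
    exact (IsUltrametricDist.norm_add_le_max _ _).trans (max_le hαa.le ha1)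
  have hfα : ‖f.eval α‖ < 1 := by
    have h := taylor1 hf1 ha1 hαa.le
    have e : a + (α - a) = α := by ring
    rw [e, hfa, sub_zero] at h
    exact h.trans_lt hαa
  have hfdα : ‖f.derivative.eval α‖ = 1 := by
    have h := taylor1 (deriv_OO hf1) ha1 hαa.le
    have e : a + (α - a) = α := by ring
    rw [e] at h
    have h2 : ‖f.derivative.eval α - f.derivative.eval a‖ < ‖f.derivative.eval a‖ := by
      rw [hfda]
      exact h.trans_lt hαa
    have e2 : f.derivative.eval α =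
        f.derivative.eval a + (f.derivative.eval α - f.derivative.eval a) := by ring
    rw [e2, IsUltrametricDist.norm_add_eq_max_of_norm_ne_norm h2.ne', max_eq_left h2.le, hfda]
  obtain ⟨b, hbQ, hfb, hαb⟩ := hensel hQcomp (fun i => hAQ (hUA (h.coeffs i))) hf1 (hAQ hαA) hα1 hfα hfdα
  have hba : b = a := by
    by_contra hne
    have hd : ‖b - a‖ < 1 := by
      have : b - a = -(α - b) + (α - a) := by ring
      rw [this]
      refine (IsUltrametricDist.norm_add_le_max _ _).trans_lt (max_lt ?_ hαa)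
      rwa [norm_neg]
    obtain ⟨k, hk1, hk⟩ := taylor2 hf1 ha1 hd.le
    have e : a + (b - a) = b := by ring
    rw [e, hfb, hfa, zero_add] at hk
    have h1 : (b - a) * (f.derivative.eval a + k * (b - a)) = 0 := by
      linear_combination -hk
    have h2 : f.derivative.eval a = -(k * (b - a)) := by
      rcases mul_eq_zero.1 h1 with h | h
      · exact absurd (sub_eq_zero.1 h) hne
      · exact eq_neg_of_add_eq_zero_left h
    have h3 : ‖f.derivative.eval a‖ < 1 := by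
      rw [h2, norm_neg, norm_mul]
      calc ‖k‖ * ‖b - a‖ ≤ 1 * ‖b - a‖ := mul_le_mul_of_nonneg_right hk1 (norm_nonneg _)
        _ < 1 := by rwa [one_mul]
    exact absurd hfda h3.ne
  have haQ : a ∈ Q := hba ▸ hbQ
  have hadj : adj (kU k' U) a ≤ Q := adj_le (hUA.trans hAQ) haQ
  have hFQ : F ≤ Q := by
    intro x hx
    have hx' : x ∈ closure (Q : Set Ω) := by
      rw [Metric.mem_closure_iff]
      intro ε hε
      obtain ⟨g, hg, hxg⟩ := hFd.2 x hx ε hε
      exact ⟨g, hadj hg, by rwa [dist_eq_norm]⟩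
    rwa [hQc.closure_eq] at hx'
  have hKQ : K ≤ Q := by
    rcases hcase with h | ⟨hT, hD, hck, hc0, hcY, -, hlt⟩
    · exact h.2.1.trans hFQ
    · set q : Ω := (α - a) / c with hq
      have hcQ : c ∈ Q := hAQ (hkA hck)
      have hqQ : q ∈ Q := Q.div_mem (Q.sub_mem (hAQ hαA) haQ) hcQ
      have hYq : ‖Y - q‖ < Metric.infDist Y (F : Set Ω) := by
        have hcpos : 0 < ‖c‖ := norm_pos_iff.2 hc0
        have e : α - (a + c * Y) = -(c * (Y - q)) := by
          rw [hq]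
          field_simp
          ring
        rw [e, norm_neg, norm_mul] at hlt
        exact lt_of_mul_lt_mul_left hlt hcpos.le
      have hD2 := hT.gc hD (hQK hqQ) hYq
      have hle : adj F q ≤ Q := adj_le hFQ hqQ
      intro x hx
      have hx' : x ∈ closure (Q : Set Ω) := by
        rw [Metric.mem_closure_iff]
        intro ε hε
        obtain ⟨y, hy, hxy⟩ := hD2.2 x hx ε hε
        exact ⟨y, hle hy, by rwa [dist_eq_norm]⟩
      rwa [hQc.closure_eq] at hx'
  refine ⟨hAK, fun x hx ε hε => ?_⟩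
  have hx' : x ∈ closure (A : Set Ω) := hKQ hx
  rw [Metric.mem_closure_iff] at hx'
  obtain ⟨y, hy, hxy⟩ := hx' ε hε
  exact ⟨y, hy, by rwa [dist_eq_norm] at hxy⟩

end MP1a953e
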