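import Pool.Agent.Lib.MP_1a953e_ag.EmbDefs

/-!
# Module Tr8: separating element, algebraic elements are dense
-/

namespace MP1a953e

open Polynomial IsLocalRing

universe v

/-- TR8a.  Characteristic `0`: `u` is algebraically independent (`hgauss`), `trdeg (L/k) = m + 1`, so there is
`T ∈ L` such that `u, T` is a transcendence basis; `L` is algebraic, hence separable, over `k(u, T)`. -/
theorem exists_T2 {k L : Type v} [NontriviallyNormedField k] [NormedField L]
    [NormedAlgebra k L] [CharZero k] {m : ℕ} (u : Fin m → L)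
    (hgauss : ∀ (P : MvPolynomial (Fin m) k) (s), ‖P.coeff s‖ ≤ ‖MvPolynomial.aeval u P‖)
    (htr : Algebra.trdeg k L = m + 1) :
    ∃ T : L, Algebra.IsSeparable (IntermediateField.adjoin k (Set.range u ∪ {T})) L := by
  classical
  have : CharZero L := charZero_of_injective_algebraMap (algebraMap k L).injective
  have hu : AlgebraicIndependent k u := by
    rw [algebraicIndependent_iff]
    intro P hP
    ext t
    have := hgauss P t
    rw [hP, norm_zero] at this
    simpa using norm_le_zero_iff.1 this
  obtain ⟨t, hut, ht⟩ := exists_isTranscendenceBasis_superset (R := k) (s := Set.range u)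
    hu.coe_range
  have hcard : Cardinal.mk t = ((m + 1 : ℕ) : Cardinal.{v}) := by
    rw [ht.cardinalMk_eq_trdeg, htr]
    push_cast
    rfl
  have hfin : Finite t := by
    rw [← Cardinal.mk_lt_aleph0_iff, hcard]
    exact Cardinal.natCast_lt_aleph0
  have hncard : t.ncard = m + 1 := by
    rw [← Nat.card_coe_set_eq, Nat.card, hcard, Cardinal.toNat_natCast]
  have hnu : (Set.range u).ncard = m := by
    rw [← Nat.card_coe_set_eq, Nat.card_congr (Equiv.ofInjective u hu.injective).symm, Nat.card_fin]
  have hd : (t \ Set.range u).ncard = 1 := by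
    rw [Set.ncard_sdiff hut, hncard, hnu]
    omega
  obtain ⟨T, hT⟩ := Set.ncard_eq_one.1 hd
  have htT : t = Set.range u ∪ {T} := by
    rw [← hT, Set.union_sdiff_cancel hut]
  refine ⟨T, ?_⟩
  have h1 := ht.isAlgebraic_field
  rw [Subtype.range_coe, htT] at h1
  have : CharZero (IntermediateField.adjoin k (Set.range u ∪ {T})) :=
    charZero_of_injective_algebraMap
      (algebraMap k (IntermediateField.adjoin k (Set.range u ∪ {T}))).injective
  infer_instance

/-- TR8b.  Take `x' = ι l`, `l ∈ L` algebraic over `k(u, T)`, whose image lies in `adj F (ι T)`. -/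
theorem algebraic_dense {k L Ω : Type*} [NontriviallyNormedField k]
    [IsUltrametricDist k] [NormedField L] [IsUltrametricDist L] [NormedAlgebra k L]
    [NormedField Ω] [IsUltrametricDist Ω] {ι : L →+* Ω} {K F : Subfield Ω} (hE : Emb ι K)
    (hkF : kO k ι ≤ F) {m : ℕ} (u : Fin m → L) (hu : ∀ i, ι (u i) ∈ F) (T : L)
    (hT : Algebra.IsSeparable (IntermediateField.adjoin k (Set.range u ∪ {T})) L) :
    ∀ x ∈ K, ∀ ε : ℝ, 0 < ε → ∃ x' ∈ K, IsAlgebraic (adj F (ι T)) x' ∧ ‖x - x'‖ < ε := by
  intro x hx ε hε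
  obtain ⟨l, hl⟩ := hE.dense x hx ε hε
  refine ⟨ι l, hE.mem l, ?_, hl⟩
  set A := IntermediateField.adjoin k (Set.range u ∪ {T}) with hA
  have hmem : ∀ y ∈ A, ι y ∈ adj F (ι T) := by
    intro y hy
    refine IntermediateField.adjoin_induction k (p := fun z _ => ι z ∈ adj F (ι T))
      ?_ ?_ ?_ ?_ ?_ hy
    · rintro z (⟨i, rfl⟩ | hz)
      · exact le_adj _ _ (hu i)
      · rw [Set.mem_singleton_iff.1 hz]
        exact mem_adj_self _ _
    · intro c
      exact le_adj _ _ (hkF ⟨c, rfl⟩)
    · intro z w _ _ hz hw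
      rw [map_add]
      exact add_mem hz hw
    · intro z _ hz
      rw [map_inv₀]
      exact inv_mem hz
    · intro z w _ _ hz hw
      rw [map_mul]
      exact mul_mem hz hw
  have hl : IsIntegral A l := (hT.isSeparable' l).isIntegral
  let φ : A →+* adj F (ι T) := (ι.comp A.val.toRingHom).codRestrict (adj F (ι T)) fun y => hmem y y.2
  refine ⟨(minpoly A l).map φ, (Polynomial.map_ne_zero_iff φ.injective).2 (minpoly.ne_zero hl), ?_⟩
  have h1 : (algebraMap (adj F (ι T)) Ω).comp φ = ι.comp (algebraMap A L) := rfl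
  rw [aeval_def, eval₂_map, h1, ← hom_eval₂, ← aeval_def, minpoly.aeval, map_zero]

end MP1a953e
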