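import Pool.Agent.Lib.MP_1a953e_ag.EmbDefs

/-!
# Module Em8: moving the separating element
-/

namespace MP1a953e

open Polynomial IsLocalRing

universe v w

private theorem sep_crit {E L : Type*} [Field E] [Field L] [Algebra E L] (x : L) (P : Polynomial L)
    (hc : ∀ i, P.coeff i ∈ Set.range (algebraMap E L)) (h0 : P.eval x = 0)
    (h1 : P.derivative.eval x ≠ 0) : IsSeparable E x := by
  obtain ⟨Q, hQ⟩ := (Polynomial.mem_lifts _).1 ((Polynomial.lifts_iff_coeff_lifts P).2 hc)
  have hQ0 : aeval x Q = 0 := by
    rw [aeval_def, ← eval_map, hQ, h0]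
  have hQ1 : aeval x Q.derivative ≠ 0 := by
    rw [aeval_def, ← eval_map, ← derivative_map, hQ]
    exact h1
  have hQne : Q ≠ 0 := by
    rintro rfl
    simp at hQ1
  have hint : IsIntegral E x := IsAlgebraic.isIntegral ⟨Q, hQne, hQ0⟩
  obtain ⟨R, hR⟩ := minpoly.dvd E x hQ0
  have hd : (minpoly E x).derivative ≠ 0 := by
    intro h
    apply hQ1
    rw [hR, derivative_mul, h, zero_mul, zero_add, map_mul, minpoly.aeval, zero_mul]
  exact (separable_iff_derivative_ne_zero (minpoly.irreducible hint)).2 hd

/-- EM8 (moving the separating element).  Proof.  Let `M = k(u)`, `g` the minimal polynomial of `α₀` over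
`M(T)`, `g = g(T, X)`, `g_X (T, α₀) ≠ 0` (separability). For `ε ∈ k` put `α = α₀ + ε T`; `T` is a root of
`g(Z, α - ε Z)` over `M(α)` with derivative `g_T(T, α₀) - ε g_X(T, α₀)`, nonzero for all but at most
one `ε`; so `T` is separable algebraic over `M(α)`; `L` is separable over `M(T) ≤ M(α)(T)`. Take `ε`
small, nonzero. (`T` is transcendental over `M`, because `trdeg (L/k) = m + 1`.) -/
theorem exists_alpha_sep {k L : Type v} [NontriviallyNormedField k] [IsAlgClosed k]
    [NormedField L] [IsUltrametricDist L] [NormedAlgebra k L] {m : ℕ} (u : Fin m → L)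
    (htr : Algebra.trdeg k L = m + 1) (T : L)
    (hT : Algebra.IsSeparable (IntermediateField.adjoin k (Set.range u ∪ {T})) L) (α₀ : L)
    {δ : ℝ} (hδ : 0 < δ) :
    ∃ α : L, ‖α - α₀‖ < δ ∧
      Algebra.IsSeparable (IntermediateField.adjoin k (Set.range u ∪ {α})) L := by
  set M := IntermediateField.adjoin k (Set.range u) with hM
  set ET := IntermediateField.adjoin k (Set.range u ∪ {T}) with hET
  have hmem : ∀ x ∈ ET, ∃ r s : Polynomial M, x * aeval T s = aeval T r ∧ aeval T s ≠ 0 := by
    intro x hx
    rw [hET, ← IntermediateField.adjoin_adjoin_left, IntermediateField.mem_restrictScalars,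
      IntermediateField.mem_adjoin_simple_iff] at hx
    obtain ⟨r, s, hrs⟩ := hx
    by_cases hs : aeval T s = 0
    · refine ⟨0, 1, ?_, ?_⟩
      · rw [hrs, hs]; simp
      · simp
    · exact ⟨r, s, by rw [hrs, div_mul_cancel₀ _ hs], hs⟩
  -- the separable polynomial of an element over `ET`
  have hsep : ∀ x : L, ∃ P : Polynomial L, (∀ i, P.coeff i ∈ ET) ∧ P.eval x = 0 ∧
      P.derivative.eval x ≠ 0 := by
    intro x
    have hx : IsSeparable ET x := Algebra.IsSeparable.isSeparable ET x
    refine ⟨(minpoly ET x).map (algebraMap ET L), fun i => ?_, ?_, ?_⟩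
    · rw [coeff_map]
      exact ((minpoly ET x).coeff i).2
    · rw [eval_map, ← aeval_def, minpoly.aeval]
    · rw [derivative_map, eval_map, ← aeval_def]
      exact Polynomial.Separable.aeval_derivative_ne_zero hx (minpoly.aeval _ _)
  obtain ⟨P0, hP0c, hP00, hP01⟩ := hsep α₀
  choose r s hrs hs0 using fun i => hmem _ (hP0c i)
  set n := P0.natDegree with hn
  set b : L := ∏ j ∈ Finset.range (n + 1), aeval T (s j) with hb
  have hb0 : b ≠ 0 := Finset.prod_ne_zero_iff.2 fun j _ => hs0 j
  set R : ℕ → Polynomial M := fun i => r i * ∏ j ∈ (Finset.range (n + 1)).erase i, s j with hR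
  have hRT : ∀ i ∈ Finset.range (n + 1), aeval T (R i) = b * P0.coeff i := by
    intro i hi
    rw [hR]
    simp only [map_mul, map_prod]
    rw [← hrs i, hb, ← Finset.mul_prod_erase _ _ hi]
    ring
  -- polynomial in `Z`
  set w : L := ∑ i ∈ Finset.range (n + 1), aeval T (R i).derivative * α₀ ^ i with hw
  set v : L := b * P0.derivative.eval α₀ with hv
  have hv0 : v ≠ 0 := mul_ne_zero hb0 hP01
  -- choice of `ε`
  obtain ⟨ε, hε, hεv⟩ : ∃ ε : k, ‖ε‖ * ‖T‖ < δ ∧ w - algebraMap k L ε * v ≠ 0 := by
    by_cases hw0 : w = 0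
    · obtain ⟨ε, hε0, hε⟩ := NormedField.exists_norm_lt k (show 0 < δ / (‖T‖ + 1) by positivity)
      refine ⟨ε, ?_, ?_⟩
      · rw [lt_div_iff₀ (by positivity)] at hε
        nlinarith [norm_nonneg T]
      · rw [hw0, zero_sub, neg_ne_zero]
        refine mul_ne_zero ?_ hv0
        rw [Ne, FaithfulSMul.algebraMap_eq_zero_iff]
        exact norm_pos_iff.1 hε0
    · exact ⟨0, by simpa using hδ, by simpa using hw0⟩
  set α : L := α₀ + algebraMap k L ε * T with hα
  refine ⟨α, ?_, ?_⟩
  · rw [hα, add_sub_cancel_left, norm_mul, norm_algebraMap']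
    exact hε
  set Eα := IntermediateField.adjoin k (Set.range u ∪ {α}) with hEα
  have hMα : M ≤ Eα := IntermediateField.adjoin.mono _ _ _ Set.subset_union_left
  have hαmem : α ∈ Eα := IntermediateField.subset_adjoin _ _ (Or.inr rfl)
  have hTsep : IsSeparable Eα T := by
    set ε' := algebraMap k L ε with hε'
    set P : Polynomial L := ∑ i ∈ Finset.range (n + 1),
      (R i).map (algebraMap M L) * (C α - C ε' * X) ^ i with hP
    have hkey : (C α - C ε' * X : Polynomial L).eval T = α₀ := by
      simp only [eval_sub, eval_mul, eval_C, eval_X]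
      rw [hα]; ring
    refine sep_crit T P ?_ ?_ ?_
    · have : P ∈ Polynomial.lifts (algebraMap Eα L) := by
        rw [hP]
        have hsub : (C α - C ε' * X : Polynomial L) = C α + C (-ε') * X := by
          rw [C_neg]; ring
        rw [hsub]
        refine sum_mem fun i _ => mul_mem ?_ (pow_mem (add_mem ?_ (mul_mem ?_ ?_)) i)
        · rw [Polynomial.lifts_iff_coeff_lifts]
          intro j
          rw [coeff_map]
          exact ⟨⟨((R i).coeff j : L), hMα ((R i).coeff j).2⟩, rfl⟩
        · exact Polynomial.C_mem_lifts (algebraMap Eα L) ⟨α, hαmem⟩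
        · exact Polynomial.C_mem_lifts (algebraMap Eα L)
            (-⟨ε', Eα.algebraMap_mem ε⟩)
        · exact Polynomial.X_mem_lifts _
      exact (Polynomial.lifts_iff_coeff_lifts P).1 this
    · rw [hP, eval_finsetSum]
      have : ∀ i ∈ Finset.range (n + 1), ((R i).map (algebraMap M L) * (C α - C ε' * X) ^ i).eval T
          = b * (P0.coeff i * α₀ ^ i) := by
        intro i hi
        rw [eval_mul, eval_pow, hkey, eval_map, ← aeval_def, hRT i hi]
        ring
      rw [Finset.sum_congr rfl this, ← Finset.mul_sum, ← Polynomial.eval_eq_sum_range, hP00, mul_zero]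
    · have hder : P.derivative.eval T = w - ε' * v := by
        rw [hP, derivative_sum, eval_finsetSum]
        have : ∀ i ∈ Finset.range (n + 1),
            (((R i).map (algebraMap M L) * (C α - C ε' * X) ^ i).derivative).eval T
            = aeval T (R i).derivative * α₀ ^ i
              - ε' * (b * (P0.coeff i * (i * α₀ ^ (i - 1)))) := by
          intro i hi
          rw [derivative_mul, derivative_pow, eval_add, eval_mul, eval_mul, eval_pow, hkey,
            eval_map, ← aeval_def, hRT i hi, derivative_map, eval_map, ← aeval_def, eval_mul,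
            eval_mul, eval_pow, hkey]
          simp only [derivative_sub, derivative_mul, derivative_C, derivative_X, eval_sub, eval_add,
            eval_mul, eval_C, eval_X, eval_zero, eval_one]
          ring
        rw [Finset.sum_congr rfl this, Finset.sum_sub_distrib, ← Finset.mul_sum, ← Finset.mul_sum,
          hw, hv]
        congr 3
        rw [derivative_eval, Polynomial.sum_over_range]
        · refine Finset.sum_congr rfl fun i _ => ?_
          ring
        · intro i; simp
      rw [hder]
      exact hεv
  -- tower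
  set N := IntermediateField.adjoin Eα {T} with hN
  have h1 : Algebra.IsSeparable Eα N :=
    (IntermediateField.isSeparable_adjoin_simple_iff_isSeparable _ _).2 hTsep
  have h2 : Algebra.IsSeparable N L := by
    constructor
    intro x
    obtain ⟨P, hPc, hP0, hP1⟩ := hsep x
    refine sep_crit x P (fun i => ?_) hP0 hP1
    have hle : ET ≤ N.restrictScalars k := by
      rw [hET, IntermediateField.adjoin_le_iff]
      rintro y (hy | hy)
      · rw [SetLike.mem_coe, IntermediateField.mem_restrictScalars]
        have hyE : y ∈ Eα := hMα (IntermediateField.subset_adjoin _ _ hy)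
        exact N.algebraMap_mem ⟨y, hyE⟩
      · rw [SetLike.mem_coe, IntermediateField.mem_restrictScalars]
        exact IntermediateField.subset_adjoin _ _ hy
    exact ⟨⟨P.coeff i, hle (hPc i)⟩, rfl⟩
  exact Algebra.IsSeparable.trans Eα N L

end MP1a953e
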