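import Pool.Agent.Lib.MP_1a953e_ag.EmbDefs

/-!
# Module Tr1: construction of Omega, algebraic over K
-/

namespace MP1a953e

open Polynomial IsLocalRing

universe v

private theorem tr1_ultra (L : Type v) [NormedField L] [IsUltrametricDist L] :
    IsUltrametricDist (UniformSpace.Completion L) := by
  apply IsUltrametricDist.isUltrametricDist_of_isNonarchimedean_norm
  intro x y
  induction x, y using UniformSpace.Completion.induction_on₂ with
  | hp =>
    exact isClosed_le (by fun_prop) (by fun_prop)
  | ih a b =>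
    rw [← UniformSpace.Completion.coe_add]
    simp only [UniformSpace.Completion.norm_coe]
    exact IsUltrametricDist.norm_add_le_max a b

private theorem tr1_aux (C : Type v) [NontriviallyNormedField C] [CompleteSpace C]
    [IsUltrametricDist C] :
    ∃ (Ω : Type v) (_ : NormedField Ω), IsUltrametricDist Ω ∧ IsAlgClosed Ω ∧
      ∃ (ι : C →+* Ω), (∀ x, ‖ι x‖ = ‖x‖) ∧ ∀ x : Ω, ∃ p : C[X], p ≠ 0 ∧ p.eval₂ ι x = 0 := by
  let Ω := AlgebraicClosure C
  let nf : NormedField Ω := spectralNorm.normedField C Ω
  refine ⟨Ω, nf, ?_, AlgebraicClosure.isAlgClosed C, algebraMap C Ω, ?_, ?_⟩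
  · apply IsUltrametricDist.isUltrametricDist_of_isNonarchimedean_norm
    exact isNonarchimedean_spectralNorm (K := C) (L := Ω)
  · intro x
    exact spectralNorm_extends (L := Ω) x
  · intro x
    obtain ⟨p, hp, h⟩ := (AlgebraicClosure.isAlgebraic C).isAlgebraic x
    exact ⟨p, hp, h⟩

/-- TR1.  As `exists_emb` (module Em1: `Ω` = algebraic closure of the completion of `L`, with the
spectral norm; copy and adapt that proof), with the additional information that `Ω` is algebraic
over `K` (`K` is the image of the completion of `L`). -/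
theorem exists_emb2 (L : Type v) [NormedField L] [IsUltrametricDist L]
    (hnt : ∃ x : L, 1 < ‖x‖) :
    ∃ (Ω : Type v) (_ : NormedField Ω), IsUltrametricDist Ω ∧ IsAlgClosed Ω ∧
      ∃ (ι : L →+* Ω) (K : Subfield Ω), Emb ι K ∧ ∀ x : Ω, IsAlgebraic K x := by
  have hu := tr1_ultra L
  let nC : NontriviallyNormedField (UniformSpace.Completion L) :=
    { (inferInstance : NormedField (UniformSpace.Completion L)) with
      non_trivial := by
        obtain ⟨x, hx⟩ := hnt
        refine ⟨(x : UniformSpace.Completion L), ?_⟩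
        rw [UniformSpace.Completion.norm_coe]
        exact hx }
  obtain ⟨Ω, nf, hΩ, hac, φ, hφ, halg⟩ := tr1_aux (UniformSpace.Completion L)
  refine ⟨Ω, nf, hΩ, hac, φ.comp UniformSpace.Completion.coeRingHom, φ.fieldRange,
    ⟨?_, ?_, ?_, ?_⟩, ?_⟩
  · intro x
    have h1 := hφ (x : UniformSpace.Completion L)
    rw [UniformSpace.Completion.norm_coe] at h1
    exact h1
  · have hiso : Isometry φ := AddMonoidHomClass.isometry_of_norm φ hφ
    have h1 : ((φ.fieldRange : Subfield Ω) : Set Ω) = Set.range φ := RingHom.coe_fieldRange φ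
    rw [h1]
    exact hiso.isUniformInducing.isComplete_range
  · intro x
    exact ⟨_, rfl⟩
  · rintro y ⟨c, rfl⟩ ε hε
    obtain ⟨x, hx⟩ := UniformSpace.Completion.denseRange_coe.exists_dist_lt c hε
    refine ⟨x, ?_⟩
    rw [dist_eq_norm] at hx
    have h1 := hφ (c - (x : UniformSpace.Completion L))
    rw [map_sub] at h1
    rw [← h1] at hx
    exact hx
  · intro x
    obtain ⟨p, hp, hpx⟩ := halg x
    refine ⟨p.map φ.rangeRestrictField, ?_, ?_⟩
    · rw [Ne, Polynomial.map_eq_zero_iff φ.rangeRestrictField.injective]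
      exact hp
    · rw [Polynomial.aeval_def, Polynomial.eval₂_map]
      exact hpx

end MP1a953e
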