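import Pool.Agent.Lib.MP_1a953e_ag.EmbDefs

/-!
# Module Tr2: Gauss norm and residues of k(u)
-/

namespace MP1a953e

open Polynomial IsLocalRing

variable {k L : Type*} [NontriviallyNormedField k] [IsUltrametricDist k] [NormedField L]
  [IsUltrametricDist L] [NormedAlgebra k L]

private theorem tr2_coe {m : ℕ} (u : Fin m → O L) (P : MvPolynomial (Fin m) (O k)) :
    ((MvPolynomial.aeval u P : O L) : L) =
      MvPolynomial.aeval (fun i => (u i : L)) (P.map (O k).subtype) := by
  rw [MvPolynomial.aeval_def, MvPolynomial.aeval_def, MvPolynomial.eval₂_map]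
  have h := MvPolynomial.eval₂_comp_left (O L).subtype (algebraMap (O k) (O L)) u P
  exact h

private theorem tr2_res {m : ℕ} (u : Fin m → O L) (P : MvPolynomial (Fin m) (O k)) :
    residue (O L) (MvPolynomial.aeval u P) =
      MvPolynomial.aeval (fun i => residue (O L) (u i)) (P.map (residue (O k))) := by
  rw [MvPolynomial.aeval_def, MvPolynomial.aeval_def, MvPolynomial.eval₂_map]
  have h := MvPolynomial.eval₂_comp_left (residue (O L)) (algebraMap (O k) (O L)) u P
  exact h

private theorem tr2_unit {m : ℕ} (u : Fin m → O L)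
    (hai : AlgebraicIndependent (ResidueField (O k)) (fun i => residue (O L) (u i)))
    (P : MvPolynomial (Fin m) (O k)) (hP : P.map (residue (O k)) ≠ 0) :
    IsUnit (MvPolynomial.aeval u P : O L) := by
  by_contra h
  have h1 : residue (O L) (MvPolynomial.aeval u P) = 0 :=
    (residue_eq_zero_iff _).2 ((mem_maximalIdeal _).2 h)
  rw [tr2_res] at h1
  exact hP ((map_eq_zero_iff _ hai).1 h1)

private theorem tr2_lift {m : ℕ} (P : MvPolynomial (Fin m) k) (hP : ∀ s, ‖P.coeff s‖ ≤ 1) :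
    ∃ P0 : MvPolynomial (Fin m) (O k), P0.map (O k).subtype = P := by
  classical
  refine ⟨∑ s ∈ P.support, MvPolynomial.monomial s (⟨P.coeff s, mem_O.2 (hP s)⟩ : O k), ?_⟩
  rw [map_sum]
  conv_rhs => rw [← MvPolynomial.support_sum_monomial_coeff P]
  refine Finset.sum_congr rfl fun s _ => ?_
  rw [MvPolynomial.map_monomial]
  rfl

/-- a coefficient of maximal norm -/
private theorem tr2_max {m : ℕ} {P : MvPolynomial (Fin m) k} (hP : P ≠ 0) :
    ∃ s₀, P.coeff s₀ ≠ 0 ∧ ∀ s, ‖P.coeff s‖ ≤ ‖P.coeff s₀‖ := by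
  have hne : P.support.Nonempty := by
    rw [Finset.nonempty_iff_ne_empty, Ne, MvPolynomial.support_eq_empty]
    exact hP
  obtain ⟨s₀, hs₀, hmax⟩ := P.support.exists_max_image (fun s => ‖P.coeff s‖) hne
  refine ⟨s₀, MvPolynomial.mem_support_iff.1 hs₀, fun s => ?_⟩
  by_cases hs : s ∈ P.support
  · exact hmax s hs
  · rw [MvPolynomial.notMem_support_iff.1 hs, norm_zero]
    exact norm_nonneg _

/-- normalised lift -/
private theorem tr2_norm {m : ℕ} {P : MvPolynomial (Fin m) k} (hP : P ≠ 0) :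
    ∃ (c : k) (P0 : MvPolynomial (Fin m) (O k)), c ≠ 0 ∧ (∀ s, ‖P.coeff s‖ ≤ ‖c‖) ∧
      P0.map (O k).subtype = MvPolynomial.C c⁻¹ * P ∧ P0.map (residue (O k)) ≠ 0 := by
  obtain ⟨s₀, hs₀, hmax⟩ := tr2_max hP
  have h1 : ∀ s, ‖(MvPolynomial.C (P.coeff s₀)⁻¹ * P).coeff s‖ ≤ 1 := by
    intro s
    rw [MvPolynomial.coeff_C_mul, norm_mul, norm_inv]
    have h2 : 0 < ‖P.coeff s₀‖ := norm_pos_iff.2 hs₀
    rw [inv_mul_le_iff₀ h2, mul_one]
    exact hmax s
  obtain ⟨P0, hP0⟩ := tr2_lift _ h1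
  refine ⟨P.coeff s₀, P0, hs₀, hmax, hP0, ?_⟩
  intro h
  have h3 : (P0.map (residue (O k))).coeff s₀ = 0 := by rw [h, MvPolynomial.coeff_zero]
  rw [MvPolynomial.coeff_map] at h3
  have h4 : (P0.map (O k).subtype).coeff s₀ = 1 := by
    rw [hP0, MvPolynomial.coeff_C_mul, inv_mul_cancel₀ hs₀]
  rw [MvPolynomial.coeff_map] at h4
  have h5 : P0.coeff s₀ = 1 := Subtype.ext h4
  rw [h5, map_one] at h3
  exact one_ne_zero h3

/-- TR2a (Gauss norm).  `P = 0` is clear; otherwise divide by a coefficient of maximal norm; the resulting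
polynomial over `O k` has a nonzero reduction, so its value at `u` has nonzero residue
(algebraic independence of the residues), i.e. norm `1`. -/
theorem gauss_of_residues {m : ℕ} (u : Fin m → O L)
    (hai : AlgebraicIndependent (ResidueField (O k)) (fun i => residue (O L) (u i)))
    (P : MvPolynomial (Fin m) k) (s : Fin m →₀ ℕ) :
    ‖P.coeff s‖ ≤ ‖MvPolynomial.aeval (fun i => (u i : L)) P‖ := by
  by_cases hP : P = 0
  · rw [hP, MvPolynomial.coeff_zero, norm_zero]
    exact norm_nonneg _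
  obtain ⟨c, P0, hc, hmax, hP0, hP1⟩ := tr2_norm hP
  have h1 := isUnit_O_iff.1 (tr2_unit u hai P0 hP1)
  rw [tr2_coe, hP0, map_mul, MvPolynomial.aeval_C, norm_mul, norm_algebraMap', norm_inv] at h1
  have h2 : 0 < ‖c‖ := norm_pos_iff.2 hc
  have h3 : ‖MvPolynomial.aeval (fun i => (u i : L)) P‖ = ‖c‖ := by
    field_simp at h1
    exact h1
  rw [h3]
  exact hmax s

/-- TR2b.  Residues of elements of `k(u)`: `c = P(u)/Q(u)`, where we may scale such that
`‖Q(u)‖ = 1`; by TR2a `P` and `Q` have coefficients in `O k`, the residue is the quotient of the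
reductions. -/
theorem residue_mem_adjoin {m : ℕ} (u : Fin m → O L)
    (hai : AlgebraicIndependent (ResidueField (O k)) (fun i => residue (O L) (u i))) {c : O L}
    (hc : (c : L) ∈ IntermediateField.adjoin k (Set.range fun i => (u i : L))) :
    residue (O L) c ∈ IntermediateField.adjoin (ResidueField (O k))
      (Set.range fun i => residue (O L) (u i)) := by
  rw [IntermediateField.mem_adjoin_range_iff] at hc
  obtain ⟨P, Q, hPQ⟩ := hc
  by_cases hQ : Q = 0
  · rw [hQ, map_zero, div_zero] at hPQ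
    have : c = 0 := Subtype.ext hPQ
    rw [this, map_zero]
    exact zero_mem _
  obtain ⟨q, Q0, hq, -, hQ0, hQ1⟩ := tr2_norm hQ
  have hu := tr2_unit u hai Q0 hQ1
  have h1 := isUnit_O_iff.1 hu
  set Q1 : MvPolynomial (Fin m) k := MvPolynomial.C q⁻¹ * Q with hQ1def
  set P1 : MvPolynomial (Fin m) k := MvPolynomial.C q⁻¹ * P with hP1def
  have hQu : MvPolynomial.aeval (fun i => (u i : L)) Q1 ≠ 0 := by
    intro h0
    rw [tr2_coe, hQ0, h0, norm_zero] at h1
    exact zero_ne_one h1
  have h2 : (c : L) * MvPolynomial.aeval (fun i => (u i : L)) Q1 =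
      MvPolynomial.aeval (fun i => (u i : L)) P1 := by
    rw [hQ1def, hP1def, map_mul, map_mul] at *
    have h3 : MvPolynomial.aeval (fun i => (u i : L)) Q ≠ 0 := right_ne_zero_of_mul hQu
    rw [hPQ]
    field_simp
  have h4 : ∀ s, ‖P1.coeff s‖ ≤ 1 := by
    intro s
    refine (gauss_of_residues u hai P1 s).trans ?_
    rw [← h2, norm_mul]
    rw [tr2_coe, hQ0] at h1
    rw [h1, mul_one]
    exact mem_O.1 c.2
  obtain ⟨P0, hP0⟩ := tr2_lift P1 h4
  have h5 : c * MvPolynomial.aeval u Q0 = MvPolynomial.aeval u P0 := by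
    apply Subtype.ext
    push_cast
    rw [tr2_coe, tr2_coe, hQ0, hP0]
    exact h2
  have h6 := congrArg (residue (O L)) h5
  rw [map_mul, tr2_res, tr2_res] at h6
  have h7 : MvPolynomial.aeval (fun i => residue (O L) (u i)) (Q0.map (residue (O k))) ≠ 0 :=
    fun h => hQ1 ((map_eq_zero_iff _ hai).1 h)
  rw [IntermediateField.mem_adjoin_range_iff]
  exact ⟨P0.map (residue (O k)), Q0.map (residue (O k)), (eq_div_iff h7).2 h6⟩

/-- TR2c.  Lifting: `e = P(ũ)/Q(ũ)`, lift the coefficients of `P`, `Q`; `Q(u)` has norm `1`. -/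
theorem exists_lift_adjoin {m : ℕ} (u : Fin m → O L) {e : ResidueField (O L)}
    (he : e ∈ IntermediateField.adjoin (ResidueField (O k))
      (Set.range fun i => residue (O L) (u i))) :
    ∃ c : O L, (c : L) ∈ IntermediateField.adjoin k (Set.range fun i => (u i : L)) ∧
      residue (O L) c = e := by
  rw [IntermediateField.mem_adjoin_range_iff] at he
  obtain ⟨P, Q, hPQ⟩ := he
  obtain ⟨P0, rfl⟩ := MvPolynomial.map_surjective _ (residue_surjective (R := O k)) P
  obtain ⟨Q0, rfl⟩ := MvPolynomial.map_surjective _ (residue_surjective (R := O k)) Q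
  rw [← tr2_res, ← tr2_res] at hPQ
  by_cases hQ : residue (O L) (MvPolynomial.aeval u Q0) = 0
  · refine ⟨0, ?_, ?_⟩
    · push_cast
      exact zero_mem _
    · rw [hPQ, hQ, div_zero, map_zero]
  have hu : IsUnit (MvPolynomial.aeval u Q0 : O L) := by
    by_contra h
    exact hQ ((residue_eq_zero_iff _).2 ((mem_maximalIdeal _).2 h))
  obtain ⟨v, hv⟩ := hu.exists_right_inv
  refine ⟨MvPolynomial.aeval u P0 * v, ?_, ?_⟩
  · rw [IntermediateField.mem_adjoin_range_iff]
    refine ⟨P0.map (O k).subtype, Q0.map (O k).subtype, ?_⟩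
    rw [← tr2_coe, ← tr2_coe]
    have h1 : ((MvPolynomial.aeval u Q0 : O L) : L) * (v : L) = 1 := by
      exact_mod_cast congrArg Subtype.val hv
    have h2 : ((MvPolynomial.aeval u Q0 : O L) : L) ≠ 0 := left_ne_zero_of_mul_eq_one h1
    rw [eq_div_iff h2]
    push_cast
    rw [mul_assoc, mul_comm (v : L), h1, mul_one]
  · rw [map_mul, hPQ, eq_div_iff hQ, mul_assoc, ← map_mul, mul_comm v, hv, map_one, mul_one]

end MP1a953e
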