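import Mathlib

/-!
# Module Tr4: generators of a finitely generated extension of a perfect field
-/

namespace MP1a953e

/-- TR4.  A finitely generated extension `S` of a perfect field `R`, of transcendence degree `m`, has a
separating transcendence basis `u` (`exists_isTranscendenceBasis_and_isSeparable_of_perfectField`),
and `S` is finite separable over `R(u)`, generated by one element `a` (primitive element theorem). -/
theorem exists_residue_gens {R S : Type*} [Field R] [Field S] [Algebra R S] [PerfectField R]
    (hess : Algebra.EssFiniteType R S) {m : ℕ} (htr : Algebra.trdeg R S = m) :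
    ∃ (u : Fin m → S) (a : S), AlgebraicIndependent R u ∧
      IsSeparable (IntermediateField.adjoin R (Set.range u)) a ∧
      IntermediateField.adjoin (IntermediateField.adjoin R (Set.range u)) {a} = ⊤ := by
  classical
  obtain ⟨s, hs, hsep⟩ := exists_isTranscendenceBasis_and_isSeparable_of_perfectField R S
  have hcard : s.card = m := by
    have h1 := hs.cardinalMk_eq_trdeg
    rw [htr, Cardinal.mk_fintype, Fintype.card_coe] at h1
    exact_mod_cast h1
  let e : Fin m ≃ s := (Finset.equivFinOfCardEq hcard).symm
  let u : Fin m → S := fun i => (e i : S)
  have hrange : Set.range u = (s : Set S) := by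
    ext x
    constructor
    · rintro ⟨i, rfl⟩
      exact (e i).2
    · intro hx
      exact ⟨e.symm ⟨x, hx⟩, by simp [u]⟩
  have hind : AlgebraicIndependent R u := hs.1.comp e e.injective
  rw [← hrange] at hsep
  have hess2 : Algebra.EssFiniteType (IntermediateField.adjoin R (Set.range u)) S :=
    Algebra.EssFiniteType.of_comp R _ S
  have halg : Algebra.IsAlgebraic (IntermediateField.adjoin R (Set.range u)) S := inferInstance
  have hfin : FiniteDimensional (IntermediateField.adjoin R (Set.range u)) S := by
    exact Algebra.finite_of_essFiniteType_of_isAlgebraic
  obtain ⟨a, ha⟩ := Field.exists_primitive_element (IntermediateField.adjoin R (Set.range u)) S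
  exact ⟨u, a, hind, Algebra.IsSeparable.isSeparable _ a, ha⟩

end MP1a953e
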