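import Pool.Agent.Lib.MP_1a953e_ag.Defs

/-!
# Extensions of one-dimensional fields over an algebraically closed field of constants: definitions

`Ω` is an algebraically closed ultrametric normed field with `‖(p : Ω)‖ < 1` for a prime `p`
(characteristic `p` or mixed characteristic); all other fields are subfields of `Ω`. `C` is an
algebraically closed subfield, `t ∈ Ω` has positive, not attained distance `r` to `C` (`TT C t`).
-/

namespace MP1a953e

open Polynomial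

variable {Ω : Type*} [NormedField Ω]

/-- `Ω` is immediate over `C` -/
def ImmAll (C : Subfield Ω) : Prop := ∀ x : Ω, x ≠ 0 → ∃ f ∈ C, ‖x - f‖ < ‖x‖

/-- `Ω` is algebraic over `E` and all automorphisms of `Ω` over `E` are isometric -/
structure Cj (E : Subfield Ω) : Prop where
  alg : ∀ x : Ω, IsAlgebraic E x
  iso : ∀ (σ : Ω ≃ₐ[E] Ω) (x : Ω), ‖σ x‖ = ‖x‖

/-- polynomials in `t` over `C` approximate all elements of `E` -/
def PD (C : Subfield Ω) (t : Ω) (E : Subfield Ω) : Prop :=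
  ∀ x ∈ E, ∀ ε : ℝ, 0 < ε → ∃ g : Polynomial Ω, Coeffs C g ∧ ‖x - g.eval t‖ < ε

/-- The data of a step of degree `p` over `E`, generated by `z`: `ρ` is the distance of `z` to `E`, not
attained, and for every `f ∈ z + E` the element `f ^ p - c₀ ^ (p - 1) * f` is close to an element of `E` -/
structure StepData (C E : Subfield Ω) (p : ℕ) (z : Ω) (ρ : ℝ) (c₀ : Ω) (δ : ℝ) : Prop where
  pos : 0 < ρ
  lt : ∀ g ∈ E, ρ < ‖z - g‖
  near : ∀ ε : ℝ, ρ < ε → ∃ g ∈ E, ‖z - g‖ < ε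
  c₀_mem : c₀ ∈ C
  c₀_norm : c₀ = 0 ∨ ‖c₀‖ = ρ
  δ0 : 0 ≤ δ
  δ1 : δ < 1
  approx : ∀ f : Ω, f - z ∈ E → ∃ n ∈ E,
    ‖f ^ p - c₀ ^ (p - 1) * f - n‖ ≤ max (δ * ρ * ‖f‖ ^ (p - 1)) (‖(p : Ω)‖ * ‖f‖ ^ p)

/-- there is `f ∈ z + E` such that `t` is well approximated by a polynomial in `f` over `C` -/
def LinC (C E : Subfield Ω) (p : ℕ) (t z : Ω) (ρ : ℝ) : Prop :=
  ∃ f : Ω, f - z ∈ E ∧ ∃ (G : Polynomial Ω) (θ : ℝ), Coeffs C G ∧ 0 ≤ θ ∧
    θ < (ρ / ‖f‖) ^ (p - 1) ∧ ‖t - G.eval f‖ ≤ θ * Metric.infDist t (C : Set Ω)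

end MP1a953e
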