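import Pool.Agent.Lib.MP_1a953e_ag.Defs

/-!
# Stage 2 (all characteristics): definitions

`Ω` is an ultrametric normed field with `‖p‖ < 1` (characteristic `0` or `p`); all fields are subfields
of `Ω`.
-/

namespace MP1a953e

variable {Ω : Type*} [NormedField Ω]

/-- the coefficients of the polynomial `P` are in the subfield `k` -/
def MC (k : Subfield Ω) {n : ℕ} (P : MvPolynomial (Fin n) Ω) : Prop :=
  ∀ a : Fin n →₀ ℕ, P.coeff a ∈ k

/-- all monomials of `P` have norm `≤ R` at the point `s` -/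
def WB {n : ℕ} (s : Fin n → Ω) (P : MvPolynomial (Fin n) Ω) (R : ℝ) : Prop :=
  ∀ a : Fin n →₀ ℕ, ‖P.coeff a‖ * ∏ i, ‖s i‖ ^ a i ≤ R

/-- `F` is a complete field which is topologically of finite type over the algebraically closed field
`k`: every element `x` of `F` is a limit of fractions `P(s) / g(s)`, where the monomials of `P` have
norm `≤ ‖x‖`, the monomials of `g` have norm `≤ 1`, and `‖g(s)‖ = 1`. -/
structure TF (k F : Subfield Ω) {n : ℕ} (s : Fin n → Ω) : Prop where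
  closed : IsAlgClosed k
  le : k ≤ F
  mem : ∀ i, s i ∈ F
  complete : IsComplete (F : Set Ω)
  approx : ∀ x ∈ F, ∀ δ : ℝ, 0 < δ → ∃ P g : MvPolynomial (Fin n) Ω, MC k P ∧ MC k g ∧
    WB s P ‖x‖ ∧ WB s g 1 ∧ ‖MvPolynomial.eval s g‖ = 1 ∧
    ‖x - MvPolynomial.eval s P / MvPolynomial.eval s g‖ ≤ δ * ‖x‖

/-- `T` maps `F'` to itself, is contracting, additive and `p ^ t`-semilinear over `F`, up to a relative
error `δ`. -/
structure SemiOp (p : ℕ) (F F' : Subfield Ω) (t : ℕ) (δ : ℝ) (T : Ω → Ω) : Prop where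
  map : ∀ x ∈ F', T x ∈ F'
  norm : ∀ x ∈ F', ‖T x‖ ^ p ^ t ≤ ‖x‖
  add : ∀ x ∈ F', ∀ y ∈ F', ‖T (x + y) - T x - T y‖ ^ p ^ t ≤ δ * max ‖x‖ ‖y‖
  lin : ∀ y ∈ F, ∀ x ∈ F', ‖T (y ^ p ^ t * x) - y * T x‖ ^ p ^ t ≤ δ * ‖y ^ p ^ t * x‖

/-- `e 0, …, e r` is orthogonal over the `q`-th powers of elements of `F` -/
def QOrth (q : ℕ) (F : Subfield Ω) {r : ℕ} (e : Fin (r + 1) → Ω) : Prop :=
  ∀ y : Fin (r + 1) → Ω, (∀ i, y i ∈ F) → ∀ i, ‖y i ^ q * e i‖ ≤ ‖∑ j, y j ^ q * e j‖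

/-- `x` is a combination of the `e i` with coefficients `q`-th powers of elements of `F`, up to a
relative error `δ` -/
def QGen (q : ℕ) (F : Subfield Ω) {r : ℕ} (e : Fin (r + 1) → Ω) (δ : ℝ) (x : Ω) : Prop :=
  ∃ y : Fin (r + 1) → Ω, (∀ i, y i ∈ F) ∧ (∀ i, ‖y i ^ q * e i‖ ≤ ‖x‖) ∧
    ‖x - ∑ i, y i ^ q * e i‖ ≤ δ * ‖x‖

/-- `E` is a directed union of finite extensions of `F` with an orthogonal basis -/
def Dir (F E : Subfield Ω) : Prop :=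
  F ≤ E ∧ ∀ X : Finset Ω, (X : Set Ω) ⊆ E →
    ∃ (K' : Subfield Ω) (d : ℕ) (θ : Fin (d + 1) → Ω), K' ≤ E ∧ (X : Set Ω) ⊆ K' ∧
      OrthBasis F K' θ

/-- the norms of the elements of `F` are dense in `(0, ∞)` -/
def DenseVal (F : Subfield Ω) : Prop :=
  ∀ a b : ℝ, 0 < a → a < b → ∃ x ∈ F, a < ‖x‖ ∧ ‖x‖ < b

end MP1a953e
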