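import Pool.Agent.Lib.MP_1a953e_ag.EmbDefs
import Pool.Agent.Lib.MP_1a953e_ag.UDefs

/-!
# Stage 2: residual data
-/

namespace MP1a953e

open Polynomial

variable {Ω : Type*} [NormedField Ω]

/-- the field `k'(U)` -/
def kU (k' : Subfield Ω) {m : ℕ} (U : Fin m → Ω) : Subfield Ω :=
  k' ⊔ Subfield.closure (Set.range U)

/-- Residual data: the norm on `k'[U]` is the Gauss norm, and `a` is a root of the monic polynomial `f` of
degree `d` over `k'(U)` with integral coefficients, `‖f' a‖ = 1`, and `1, a, …, a ^ (d-1)` is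
orthonormal over `k'(U)`. -/
structure RD (k' : Subfield Ω) {m : ℕ} (U : Fin m → Ω) (d : ℕ) (a : Ω) (f : Polynomial Ω) :
    Prop where
  gauss : ∀ P : MvPolynomial (Fin m) Ω, MC k' P → ∀ s, ‖P.coeff s‖ ≤ ‖MvPolynomial.eval U P‖
  norm_U : ∀ i, ‖U i‖ ≤ 1
  norm_a : ‖a‖ ≤ 1
  dpos : 0 < d
  orth : ∀ c : Fin d → Ω, (∀ i, c i ∈ kU k' U) → ∀ i, ‖c i‖ ≤ ‖∑ j, c j * a ^ (j : ℕ)‖
  coeffs : Coeffs (kU k' U) f
  monic : f.Monic
  deg : f.natDegree = d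
  norm_f : ∀ i, ‖f.coeff i‖ ≤ 1
  root : f.eval a = 0
  deriv : ‖f.derivative.eval a‖ = 1

end MP1a953e
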