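import Pool.Agent.Lib.MP_1a953e_ag.Tr3
import Pool.Agent.Lib.MP_1a953e_ag.Tr4
import Pool.Agent.Lib.MP_1a953e_ag.RDefs
import Pool.Agent.Lib.MP_1a953e_ag.GP2

/-!
# Module Tr5: existence of residual data
-/

namespace MP1a953e

open Polynomial IsLocalRing

universe v

/-- the residue field of the valuation ring of an algebraically closed field is algebraically closed -/
private theorem tr5_closed (k : Type v) [NormedField k] [IsUltrametricDist k] [IsAlgClosed k] :
    IsAlgClosed (ResidueField (O k)) := by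
  refine IsAlgClosed.of_exists_root _ fun p hp hirr => ?_
  obtain ⟨P, hP, hdeg, hmonic⟩ := lifts_and_natDegree_eq_and_monic
    ((mem_lifts p).2 (map_surjective _ (residue_surjective (R := O k)) p)) hp
  have hdeg0 : (P.map (O k).subtype).degree ≠ 0 := by
    have h1 : (P.map (O k).subtype).Monic := hmonic.map _
    rw [degree_eq_natDegree h1.ne_zero, hmonic.natDegree_map, hdeg]
    have := hirr.natDegree_pos
    exact_mod_cast this.ne'
  obtain ⟨x, hx⟩ := IsAlgClosed.exists_root (P.map (O k).subtype) hdeg0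
  have hx0 : P.eval₂ (O k).subtype x = 0 := by
    rw [← eval_map]
    exact hx
  have hxn : ‖x‖ ≤ 1 := by
    by_contra hlt
    rw [not_le] at hlt
    have hx1 : (0 : ℝ) < ‖x‖ := lt_trans zero_lt_one hlt
    rw [eval₂_eq_sum_range, Finset.sum_range_succ] at hx0
    have h1 : P.coeff P.natDegree = 1 := hmonic
    rw [h1, map_one, one_mul] at hx0
    have h2 : ‖x ^ P.natDegree‖ = ‖∑ i ∈ Finset.range P.natDegree,
        (O k).subtype (P.coeff i) * x ^ i‖ := by
      rw [eq_neg_of_add_eq_zero_right hx0, norm_neg]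
    have h3 : ‖∑ i ∈ Finset.range P.natDegree, (O k).subtype (P.coeff i) * x ^ i‖ <
        ‖x‖ ^ P.natDegree := by
      refine lt_of_le_of_lt (b := ‖x‖ ^ (P.natDegree - 1)) ?_ ?_
      · refine IsUltrametricDist.norm_sum_le_of_forall_le_of_nonneg (pow_nonneg hx1.le _) ?_
        intro i hi
        rw [norm_mul, norm_pow]
        calc ‖(O k).subtype (P.coeff i)‖ * ‖x‖ ^ i ≤ 1 * ‖x‖ ^ (P.natDegree - 1) := by
              refine mul_le_mul (mem_O.1 (P.coeff i).2) ?_ (pow_nonneg hx1.le _) zero_le_one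
              refine pow_le_pow_right₀ hlt.le ?_
              have := Finset.mem_range.1 hi
              omega
          _ = _ := one_mul _
      · refine pow_lt_pow_right₀ hlt ?_
        have : 0 < P.natDegree := by
          rw [hdeg]
          exact hirr.natDegree_pos
        omega
    rw [← h2, norm_pow] at h3
    exact lt_irrefl _ h3
  refine ⟨residue (O k) ⟨x, mem_O.2 hxn⟩, ?_⟩
  rw [← hP, eval_map, eval₂_hom]
  have h4 : P.eval (⟨x, mem_O.2 hxn⟩ : O k) = 0 := by
    apply Subtype.ext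
    have h5 := hom_eval₂ P (RingHom.id (O k)) (O k).subtype (⟨x, mem_O.2 hxn⟩ : O k)
    rw [RingHom.comp_id] at h5
    exact h5.trans hx0
  rw [h4, map_zero]

private theorem tr5_sub_le {Ω : Type*} [NormedField Ω] [IsUltrametricDist Ω] (x y : Ω) :
    ‖x - y‖ ≤ max ‖x‖ ‖y‖ := by
  have h := IsUltrametricDist.norm_add_le_max x (-y)
  rwa [norm_neg, ← sub_eq_add_neg] at h

private theorem tr5_pow_sub {Ω : Type*} [NormedField Ω] [IsUltrametricDist Ω] {x y : Ω}
    (hx : ‖x‖ ≤ 1) (hy : ‖y‖ ≤ 1) (n : ℕ) : ‖x ^ n - y ^ n‖ ≤ ‖x - y‖ := by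
  induction n with
  | zero => simp
  | succ n ih =>
    have h1 : x ^ (n + 1) - y ^ (n + 1) = x ^ n * (x - y) + (x ^ n - y ^ n) * y := by ring
    rw [h1]
    refine (IsUltrametricDist.norm_add_le_max _ _).trans (max_le ?_ ?_)
    · rw [norm_mul, norm_pow]
      calc ‖x‖ ^ n * ‖x - y‖ ≤ 1 * ‖x - y‖ :=
            mul_le_mul_of_nonneg_right (pow_le_one₀ (norm_nonneg _) hx) (norm_nonneg _)
        _ = _ := one_mul _
    · rw [norm_mul]
      calc ‖x ^ n - y ^ n‖ * ‖y‖ ≤ ‖x ^ n - y ^ n‖ * 1 :=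
            mul_le_mul_of_nonneg_left hy (norm_nonneg _)
        _ ≤ _ := by rw [mul_one]; exact ih

private theorem tr5_kU {k L Ω : Type v} [NontriviallyNormedField k] [NormedField L]
    [NormedAlgebra k L] [NormedField Ω] (ι : L →+* Ω) {m : ℕ} (u : Fin m → L) {x : Ω} :
    x ∈ kU (kO k ι) (fun i => ι (u i)) ↔
      ∃ c ∈ IntermediateField.adjoin k (Set.range u), ι c = x := by
  constructor
  · intro hx
    have h1 : kU (kO k ι) (fun i => ι (u i)) ≤
        (IntermediateField.adjoin k (Set.range u)).toSubfield.map ι := by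
      refine sup_le ?_ (Subfield.closure_le.2 ?_)
      · rintro _ ⟨c, rfl⟩
        exact ⟨algebraMap k L c, IntermediateField.algebraMap_mem _ c, rfl⟩
      · rintro _ ⟨i, rfl⟩
        exact ⟨u i, IntermediateField.subset_adjoin k _ ⟨i, rfl⟩, rfl⟩
    obtain ⟨c, hc, hcx⟩ := h1 hx
    exact ⟨c, hc, hcx⟩
  · rintro ⟨c, hc, rfl⟩
    have h1 : Subfield.closure (Set.range (algebraMap k L) ∪ Set.range u) ≤
        (kU (kO k ι) (fun i => ι (u i))).comap ι := by
      refine Subfield.closure_le.2 ?_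
      rintro _ (⟨c, rfl⟩ | ⟨i, rfl⟩)
      · exact (le_sup_left : kO k ι ≤ kU (kO k ι) (fun i => ι (u i))) ⟨c, rfl⟩
      · exact (le_sup_right : Subfield.closure (Set.range fun i => ι (u i)) ≤
          kU (kO k ι) (fun i => ι (u i))) (Subfield.subset_closure ⟨i, rfl⟩)
    exact h1 hc

/-- TR5 (existence of residual data).  Proof.  `ResidueField (O k)` is algebraically closed (lift a monic
polynomial to `O k`, it has a root in `k`, of norm `≤ 1`), hence perfect. Take `ũ, ã` from
`exists_residue_gens`, lifts `u : Fin m → O L`, `a₁ : O L`. Let `f̃` be the minimal polynomial of `ã`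
over `R_k(ũ)`, of degree `d`; lift its coefficients (`exists_lift_adjoin`) to get a monic `f₁` over
`k(u)` with coefficients in `O L`; `‖f₁ a₁‖ < 1`, `‖f₁' a₁‖ = 1` (separable). Let `f` be the image of `f₁` under `ι`;
`hensel` in `K` gives the root `a ∈ K` with `‖ι a₁ - a‖ < 1`, so `‖f' a‖ = 1`, `‖a‖ ≤ 1`.
`ι` maps `k(u)` onto `kU (kO k ι) (ι ∘ u)`. `gauss`: `gauss_of_residues`. `orth`: `orth_of_residues`
for `a₁`, and `‖∑ c j * (a ^ j - (ι a₁) ^ j)‖ < max ‖c j‖`. Approximation of `x ∈ K`, `‖x‖ ≤ 1`: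
`‖x - ι l‖ < 1` with `l ∈ O L` (density); the residue of `l` is in `R_k(ũ)(ã)`, i.e. a combination
`∑_{j<d} c̃ j * ã ^ j`; lift the `c̃ j`: `‖l - ∑ c j * a₁ ^ j‖ < 1`, and replace `a₁` by `a`. -/
theorem exists_rd {k L Ω : Type v} [NontriviallyNormedField k] [IsUltrametricDist k]
    [IsAlgClosed k] [NormedField L] [IsUltrametricDist L] [NormedAlgebra k L]
    [NormedField Ω] [IsUltrametricDist Ω] {ι : L →+* Ω} {K : Subfield Ω} (hE : Emb ι K) {m : ℕ}
    (htr : Algebra.trdeg (ResidueField (O k)) (ResidueField (O L)) = m)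
    (hess : Algebra.EssFiniteType (ResidueField (O k)) (ResidueField (O L))) :
    ∃ (u : Fin m → L) (a : Ω) (d : ℕ) (f : Polynomial Ω), a ∈ K ∧
      (∀ (P : MvPolynomial (Fin m) k) (s), ‖P.coeff s‖ ≤ ‖MvPolynomial.aeval u P‖) ∧
      RD (kO k ι) (fun i => ι (u i)) d a f ∧
      ∀ x ∈ K, ‖x‖ ≤ 1 →
        ∃ e ∈ adj (kU (kO k ι) (fun i => ι (u i))) a, ‖x - e‖ < 1 := by
  classical
  have hclosed : IsAlgClosed (ResidueField (O k)) := tr5_closed k
  obtain ⟨u', a', hai', hsep, htop⟩ := exists_residue_gens hess htr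
  choose u hu using fun i => residue_surjective (R := O L) (u' i)
  obtain ⟨a₁, ha₁⟩ := residue_surjective (R := O L) a'
  have hu' : u' = fun i => residue (O L) (u i) := funext fun i => (hu i).symm
  subst hu'
  subst ha₁
  set F := IntermediateField.adjoin (ResidueField (O k)) (Set.range fun i => residue (O L) (u i))
    with hF
  have hint : IsIntegral F (residue (O L) a₁) := hsep.isIntegral
  set g := minpoly F (residue (O L) a₁) with hg
  set d := g.natDegree with hd
  have hgm : g.Monic := minpoly.monic hint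
  -- lift of the coefficients
  have hlift : ∀ e : F, ∃ c : O L,
      (c : L) ∈ IntermediateField.adjoin k (Set.range fun i => (u i : L)) ∧
      residue (O L) c = (e : ResidueField (O L)) := fun e => exists_lift_adjoin u e.2
  choose lf hlf1 hlf2 using hlift
  -- the polynomial
  let f₁ : (O L)[X] := X ^ d + ∑ i ∈ Finset.range d, C (lf (g.coeff i)) * X ^ i
  have hdegsum : (∑ i ∈ Finset.range d, C (lf (g.coeff i)) * X ^ i : (O L)[X]).degree < d := by
    rw [degree_lt_iff_coeff_zero]
    intro n hn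
    simp only [finsetSum_coeff, coeff_C_mul_X_pow]
    refine Finset.sum_eq_zero fun j hj => ?_
    rw [if_neg]
    have := Finset.mem_range.1 hj
    omega
  have hf₁m : f₁.Monic := monic_X_pow_add hdegsum
  have hf₁d : f₁.natDegree = d := by
    refine natDegree_eq_of_degree_eq_some ?_
    have h1 : (∑ i ∈ Finset.range d, C (lf (g.coeff i)) * X ^ i : (O L)[X]).degree <
        (X ^ d : (O L)[X]).degree := by
      rw [degree_X_pow]
      exact hdegsum
    rw [degree_add_eq_left_of_degree_lt h1, degree_X_pow]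
  have hf₁c : ∀ i, ((f₁.coeff i : O L) : L) ∈
      IntermediateField.adjoin k (Set.range fun i => (u i : L)) := by
    intro i
    simp only [f₁, coeff_add, coeff_X_pow, finsetSum_coeff, coeff_C_mul_X_pow]
    push_cast
    refine add_mem ?_ (sum_mem fun j _ => ?_)
    · split_ifs
      · exact one_mem _
      · exact zero_mem _
    · split_ifs
      · exact hlf1 _
      · exact zero_mem _
  have hf₁r : f₁.map (residue (O L)) = g.map (algebraMap F (ResidueField (O L))) := by
    have h1 : g = X ^ d + ∑ i ∈ Finset.range d, C (g.coeff i) * X ^ i := by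
      conv_lhs => rw [hgm.as_sum]
    rw [h1]
    simp only [f₁, Polynomial.map_add, Polynomial.map_pow, map_X, Polynomial.map_sum,
      Polynomial.map_mul, map_C]
    congr 1
    refine Finset.sum_congr rfl fun i _ => ?_
    rw [hlf2]
    rfl
  have hres0 : residue (O L) (f₁.eval a₁) = 0 := by
    rw [← eval₂_hom, ← eval_map, hf₁r, eval_map, ← aeval_def]
    exact minpoly.aeval F _
  have hres1 : residue (O L) (f₁.derivative.eval a₁) ≠ 0 := by
    rw [← eval₂_hom, ← eval_map, ← derivative_map, hf₁r, derivative_map, eval_map, ← aeval_def]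
    exact (hsep : (minpoly F (residue (O L) a₁)).Separable).aeval_derivative_ne_zero
      (minpoly.aeval F _)
  -- the image of the polynomial in `Ω`
  let j : O L →+* Ω := ι.comp (O L).subtype
  have hjn : ∀ z : O L, ‖j z‖ = ‖(z : L)‖ := fun z => hE.norm _
  have hjn1 : ∀ z : O L, ‖j z‖ ≤ 1 := fun z => (hjn z).le.trans (mem_O.1 z.2)
  have hjlt : ∀ z : O L, residue (O L) z = 0 → ‖j z‖ < 1 := by
    intro z hz
    rw [hjn]
    refine lt_of_le_of_ne (mem_O.1 z.2) fun h => ?_
    rw [residue_eq_zero_iff, mem_maximalIdeal, mem_nonunits_iff, isUnit_O_iff] at hz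
    exact hz h
  have hj1 : ∀ z : O L, residue (O L) z ≠ 0 → ‖j z‖ = 1 := by
    intro z hz
    rw [hjn]
    by_contra h
    exact hz ((residue_eq_zero_iff _).2 (by
      rw [mem_maximalIdeal, mem_nonunits_iff, isUnit_O_iff]
      exact h))
  set f : Polynomial Ω := f₁.map j with hf
  have hfm : f.Monic := hf₁m.map _
  have hfd : f.natDegree = d := by rw [hf, hf₁m.natDegree_map, hf₁d]
  have hfn : ∀ i, ‖f.coeff i‖ ≤ 1 := fun i => by
    rw [hf, coeff_map]
    exact hjn1 _
  have hfc : Coeffs (kU (kO k ι) (fun i => ι (u i))) f := fun i => by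
    rw [hf, coeff_map]
    exact (tr5_kU ι (fun i => (u i : L))).2 ⟨_, hf₁c i, rfl⟩
  have hkUK : kU (kO k ι) (fun i => ι (u i)) ≤ K := by
    intro x hx
    obtain ⟨c, -, rfl⟩ := (tr5_kU ι (fun i => (u i : L))).1 hx
    exact hE.mem c
  have hfe : ‖f.eval (j a₁)‖ < 1 := by
    rw [hf, eval_map, eval₂_hom]
    exact hjlt _ hres0
  have hfe1 : ‖f.derivative.eval (j a₁)‖ = 1 := by
    rw [hf, derivative_map, eval_map, eval₂_hom]
    exact hj1 _ hres1
  obtain ⟨a, haK, hroot, haa⟩ := hensel hE.complete (fun i => hkUK (hfc i)) hfn (hE.mem a₁)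
    (hjn1 a₁) hfe hfe1
  have haa : ‖j a₁ - a‖ < 1 := haa
  have hn1 : ‖j a₁‖ ≤ 1 := hjn1 a₁
  have hna : ‖a‖ ≤ 1 := by
    have h1 : a = j a₁ - (j a₁ - a) := by ring
    rw [h1]
    exact (tr5_sub_le _ _).trans (max_le hn1 haa.le)
  have hpow : ∀ n : ℕ, ‖(j a₁) ^ n - a ^ n‖ < 1 := fun n =>
    lt_of_le_of_lt (tr5_pow_sub hn1 hna n) haa
  have hderiv : ‖f.derivative.eval a‖ = 1 := by
    have h1 : ‖f.derivative.eval (j a₁) - f.derivative.eval a‖ < 1 := by
      rw [eval_eq_sum_range, eval_eq_sum_range, ← Finset.sum_sub_distrib]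
      refine lt_of_le_of_lt (b := ‖j a₁ - a‖) ?_ haa
      refine IsUltrametricDist.norm_sum_le_of_forall_le_of_nonneg (norm_nonneg _) ?_
      intro i _
      rw [← mul_sub, norm_mul]
      have h2 : ‖f.derivative.coeff i‖ ≤ 1 := by
        rw [coeff_derivative, norm_mul]
        refine mul_le_one₀ (hfn _) (norm_nonneg _) ?_
        have := IsUltrametricDist.norm_natCast_le_one Ω (i + 1)
        simpa using this
      calc ‖f.derivative.coeff i‖ * ‖(j a₁) ^ i - a ^ i‖ ≤ 1 * ‖j a₁ - a‖ :=
            mul_le_mul h2 (tr5_pow_sub hn1 hna i) (norm_nonneg _) zero_le_one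
        _ = _ := one_mul _
    have h3 : f.derivative.eval a = f.derivative.eval (j a₁) -
        (f.derivative.eval (j a₁) - f.derivative.eval a) := by ring
    refine le_antisymm ?_ ?_
    · rw [h3]
      exact (tr5_sub_le _ _).trans (max_le hfe1.le h1.le)
    · by_contra hlt
      rw [not_le] at hlt
      have h4 : f.derivative.eval (j a₁) = f.derivative.eval a +
        (f.derivative.eval (j a₁) - f.derivative.eval a) := by ring
      have h5 := IsUltrametricDist.norm_add_le_max (f.derivative.eval a)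
        (f.derivative.eval (j a₁) - f.derivative.eval a)
      rw [← h4, hfe1] at h5
      exact absurd (lt_of_le_of_lt h5 (max_lt hlt h1)) (lt_irrefl _)
  have hdpos : 0 < d := minpoly.natDegree_pos hint
  refine ⟨fun i => (u i : L), a, d, f, haK, gauss_of_residues u hai', ?_, ?_⟩
  · refine ⟨?_, fun i => hjn1 (u i), hna, hdpos, ?_, hfc, hfm, hfd, hfn, hroot, hderiv⟩
    · -- Gauss norm
      intro P hP s
      have h1 : ∃ P0 : MvPolynomial (Fin m) k, P0.map (ι.comp (algebraMap k L)) = P := by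
        choose c hc using fun s => (hP s : P.coeff s ∈ kO k ι)
        refine ⟨∑ s ∈ P.support, MvPolynomial.monomial s (c s), ?_⟩
        rw [map_sum]
        conv_rhs => rw [← MvPolynomial.support_sum_monomial_coeff P]
        refine Finset.sum_congr rfl fun s _ => ?_
        rw [MvPolynomial.map_monomial, hc]
      obtain ⟨P0, rfl⟩ := h1
      have h2 := gauss_of_residues u hai' P0 s
      rw [MvPolynomial.coeff_map, MvPolynomial.eval_map]
      have h3 : MvPolynomial.eval₂ (ι.comp (algebraMap k L)) (fun i => ι (u i)) P0 =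
          ι (MvPolynomial.aeval (fun i => (u i : L)) P0) := by
        rw [MvPolynomial.aeval_def, MvPolynomial.eval₂_comp_left]
        rfl
      rw [h3, hE.norm, RingHom.comp_apply, hE.norm, norm_algebraMap']
      exact h2
    · -- orthonormality
      intro c hc i
      choose c' hc' hcc using fun i => (tr5_kU ι (fun i => (u i : L))).1 (hc i)
      have hne : (Finset.univ : Finset (Fin d)).Nonempty := ⟨i, Finset.mem_univ i⟩
      obtain ⟨i₀, -, hi₀⟩ := Finset.exists_max_image Finset.univ (fun j => ‖c j‖) hne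
      have hmax : ∀ j, ‖c j‖ ≤ ‖c i₀‖ := fun j => hi₀ j (Finset.mem_univ j)
      refine (hmax i).trans ?_
      by_contra hlt
      rw [not_le] at hlt
      have hpos : 0 < ‖c i₀‖ := lt_of_le_of_lt (norm_nonneg _) hlt
      have h1 := orth_of_residues u hai' a₁ hint rfl c' hc' i₀
      have h2 : ι (∑ n, c' n * (a₁ : L) ^ (n : ℕ)) = ∑ n : Fin d, c n * (j a₁) ^ (n : ℕ) := by
        rw [map_sum]
        refine Finset.sum_congr rfl fun n _ => ?_
        rw [map_mul, map_pow, hcc]
        rfl
      rw [← hE.norm, hcc, ← hE.norm, h2] at h1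
      have h3 : ∑ n : Fin d, c n * (j a₁) ^ (n : ℕ) = ∑ n : Fin d, c n * a ^ (n : ℕ) +
          ∑ n : Fin d, c n * ((j a₁) ^ (n : ℕ) - a ^ (n : ℕ)) := by
        rw [← Finset.sum_add_distrib]
        refine Finset.sum_congr rfl fun n _ => ?_
        ring
      have h4 : ‖∑ n : Fin d, c n * ((j a₁) ^ (n : ℕ) - a ^ (n : ℕ))‖ < ‖c i₀‖ := by
        refine lt_of_le_of_lt (b := ‖c i₀‖ * ‖j a₁ - a‖) ?_ ?_
        · refine IsUltrametricDist.norm_sum_le_of_forall_le_of_nonneg
            (mul_nonneg hpos.le (norm_nonneg _)) ?_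
          intro n _
          rw [norm_mul]
          exact mul_le_mul (hmax n) (tr5_pow_sub hn1 hna n) (norm_nonneg _) hpos.le
        · calc ‖c i₀‖ * ‖j a₁ - a‖ < ‖c i₀‖ * 1 := mul_lt_mul_of_pos_left haa hpos
            _ = _ := mul_one _
      rw [h3] at h1
      exact absurd (lt_of_le_of_lt (h1.trans (IsUltrametricDist.norm_add_le_max _ _))
        (max_lt hlt h4)) (lt_irrefl _)
  · -- approximation
    intro x hx hx1
    obtain ⟨l, hl⟩ := hE.dense x hx 1 one_pos
    have hl1 : ‖l‖ ≤ 1 := by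
      rw [← hE.norm]
      have h1 : ι l = x - (x - ι l) := by ring
      rw [h1]
      exact (tr5_sub_le _ _).trans (max_le hx1 hl.le)
    obtain ⟨q, hq⟩ : ∃ q : F[X], aeval (residue (O L) a₁) q =
        residue (O L) (⟨l, mem_O.2 hl1⟩ : O L) := by
      have h1 : residue (O L) (⟨l, mem_O.2 hl1⟩ : O L) ∈
          (IntermediateField.adjoin F {residue (O L) a₁}).toSubalgebra := by
        rw [htop]
        exact Algebra.mem_top
      rw [IntermediateField.adjoin_simple_toSubalgebra_of_isAlgebraic hint.isAlgebraic,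
        Algebra.adjoin_singleton_eq_range_aeval] at h1
      exact h1
    set e : Ω := ∑ n ∈ Finset.range (q.natDegree + 1), j (lf (q.coeff n)) * a ^ n with he
    have hkUa : kU (kO k ι) (fun i => ι (u i)) ≤ adj (kU (kO k ι) (fun i => ι (u i))) a :=
      le_adj _ _
    have hmem : e ∈ adj (kU (kO k ι) (fun i => ι (u i))) a := by
      refine sum_mem fun n _ => mul_mem (hkUa ?_) (pow_mem (mem_adj_self _ _) _)
      exact (tr5_kU ι (fun i => (u i : L))).2 ⟨_, hlf1 _, rfl⟩
    refine ⟨e, hmem, ?_⟩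
    set w : O L := (⟨l, mem_O.2 hl1⟩ : O L) -
      ∑ n ∈ Finset.range (q.natDegree + 1), lf (q.coeff n) * a₁ ^ n with hw
    have hwr : residue (O L) w = 0 := by
      rw [hw, map_sub, ← hq, sub_eq_zero, aeval_eq_sum_range, map_sum]
      refine Finset.sum_congr rfl fun n _ => ?_
      rw [map_mul, map_pow, hlf2, Algebra.smul_def]
      rfl
    have h2 : x - e = (x - ι l) + (j w +
        ∑ n ∈ Finset.range (q.natDegree + 1), j (lf (q.coeff n)) * ((j a₁) ^ n - a ^ n)) := by
      have h3 : j w = ι l -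
          ∑ n ∈ Finset.range (q.natDegree + 1), j (lf (q.coeff n)) * (j a₁) ^ n := by
        rw [hw, map_sub, map_sum]
        congr 1
        refine Finset.sum_congr rfl fun n _ => ?_
        rw [map_mul, map_pow]
      have h4 : ∑ n ∈ Finset.range (q.natDegree + 1), j (lf (q.coeff n)) * ((j a₁) ^ n - a ^ n) =
          ∑ n ∈ Finset.range (q.natDegree + 1), j (lf (q.coeff n)) * (j a₁) ^ n - e := by
        rw [he, ← Finset.sum_sub_distrib]
        refine Finset.sum_congr rfl fun n _ => ?_
        ring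
      rw [h3, h4]
      ring
    rw [h2]
    refine lt_of_le_of_lt (IsUltrametricDist.norm_add_le_max _ _) (max_lt hl ?_)
    refine lt_of_le_of_lt (IsUltrametricDist.norm_add_le_max _ _) (max_lt (hjlt w hwr) ?_)
    refine lt_of_le_of_lt (b := ‖j a₁ - a‖) ?_ haa
    refine IsUltrametricDist.norm_sum_le_of_forall_le_of_nonneg (norm_nonneg _) ?_
    intro n _
    rw [norm_mul]
    calc ‖j (lf (q.coeff n))‖ * ‖(j a₁) ^ n - a ^ n‖ ≤ 1 * ‖j a₁ - a‖ :=
          mul_le_mul (hjn1 _) (tr5_pow_sub hn1 hna n) (norm_nonneg _) zero_le_one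
      _ = _ := one_mul _

end MP1a953e
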