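import Pool.Agent.Lib.MP_1a953e_ag.UDefs
import Pool.Agent.Lib.MP_1a953e_ag.Lin2
import Pool.Agent.Lib.MP_1a953e_ag.Lin3
import Pool.Agent.Lib.MP_1a953e_ag.Lin4

/-!
# Module Kr2: finiteness over the closure of F(y)
-/

namespace MP1a953e

open Polynomial

variable {Ω : Type*} [NormedField Ω]

private theorem kr2_adj_eq (K : Subfield Ω) (z : Ω) :
    adj K z = (IntermediateField.adjoin K ({z} : Set Ω)).toSubfield := by
  ext x
  exact mem_adj_iff K z x

open scoped IntermediateField.algebraAdjoinAdjoin in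
private theorem kr2_isAlg_iff (K : Subfield Ω) (x z : Ω) :
    IsAlgebraic (adj K x) z ↔ IsAlgebraic (Algebra.adjoin K ({x} : Set Ω)) z := by
  rw [IsFractionRing.isAlgebraic_iff (Algebra.adjoin K ({x} : Set Ω))
    (IntermediateField.adjoin K ({x} : Set Ω)) Ω, kr2_adj_eq]
  exact Iff.rfl

/-- KR2a (exchange).  If `y` is algebraic over `F(T)` and transcendental over `F`, then `T` is algebraic over
`F(y)`. -/
theorem isAlgebraic_exchange {F : Subfield Ω} {T y : Ω} (h : IsAlgebraic (adj F T) y)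
    (hy : ¬ IsAlgebraic F y) : IsAlgebraic (adj F y) T := by
  by_contra hT
  rw [kr2_isAlg_iff] at hT h
  have h2 : AlgebraicIndependent F (fun _ : Unit => y) :=
    algebraicIndependent_unique_type_iff.mpr hy
  have h3 := (h2.option_iff_transcendental T).mpr (by
    rw [Set.range_const]
    exact hT)
  have h4 := h3.transcendental_adjoin (s := {none}) (i := some ()) (by simp)
  apply h4
  rw [Set.image_singleton]
  exact h

private theorem kr2_alg_mono {A B : Subfield Ω} (h : A ≤ B) {x : Ω} (hx : IsAlgebraic A x) :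
    IsAlgebraic B x := by
  obtain ⟨P, hP0, hP⟩ := hx
  refine ⟨P.map (Subfield.inclusion h), ?_, ?_⟩
  · exact (Polynomial.map_ne_zero_iff (Subfield.inclusion h).injective).2 hP0
  · rw [aeval_def, eval₂_map]
    exact hP

private theorem kr2_sup_closure (K : Subfield Ω) (s : Set Ω) :
    K ⊔ Subfield.closure s = (IntermediateField.adjoin K s).toSubfield := by
  rw [IntermediateField.adjoin_toSubfield, Subfield.closure_union]
  congr 1
  have : Set.range (algebraMap K Ω) = (K : Set Ω) := by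
    ext x
    constructor
    · rintro ⟨a, rfl⟩
      exact a.2
    · intro hx
      exact ⟨⟨x, hx⟩, rfl⟩
  rw [this, Subfield.closure_eq]

private theorem kr2_prim [CharZero Ω] {M : Subfield Ω} (s : Finset Ω)
    (hs : ∀ x ∈ s, IsAlgebraic M x) :
    ∃ w : Ω, IsAlgebraic M w ∧ adj M w = M ⊔ Subfield.closure (s : Set Ω) := by
  set G := IntermediateField.adjoin M (s : Set Ω) with hG
  have hfin : FiniteDimensional M G :=
    IntermediateField.finiteDimensional_adjoin fun x hx => (hs x hx).isIntegral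
  have h0 : CharZero M := ⟨fun a b hab => by
    apply (Nat.cast_injective (R := Ω))
    have := congrArg (algebraMap M Ω) hab
    simpa using this⟩
  obtain ⟨α, hα⟩ := Field.exists_primitive_element M G
  refine ⟨α, ?_, ?_⟩
  · have h1 : IsAlgebraic M α := Algebra.IsAlgebraic.isAlgebraic α
    exact h1.algebraMap
  · rw [kr2_sup_closure, kr2_adj_eq, ← hG]
    congr 1
    have h2 : (IntermediateField.adjoin M {α}).map G.val =
        IntermediateField.adjoin M {(α : Ω)} := by
      rw [IntermediateField.adjoin_map, Set.image_singleton]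
      rfl
    rw [← h2, hα]
    ext x
    constructor
    · rintro ⟨a, -, rfl⟩
      exact a.2
    · intro hx
      exact ⟨⟨x, hx⟩, trivial, rfl⟩

private theorem kr2_le_of_dense {A B C : Subfield Ω} (hd : DenseIn A B) (hAC : A ≤ C)
    (hC : IsComplete (C : Set Ω)) : B ≤ C := by
  intro x hx
  have hcl : IsClosed (C : Set Ω) := hC.isClosed
  have h1 : x ∈ closure (C : Set Ω) := by
    rw [Metric.mem_closure_iff]
    intro ε hε
    obtain ⟨a, ha, hxa⟩ := hd.2 x hx ε hε
    exact ⟨a, hAC ha, by rw [dist_eq_norm]; exact hxa⟩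
  rwa [hcl.closure_eq] at h1

/-- KR2b (finiteness).  `M₁` complete, `adj F₁ y` dense in `M₁`. Proof.  `M₁ ≤ K ⊔ F₁` (which is
complete, by `OrthBasis.sup`, `OrthBasis.complete`, hence closed). `N = adj M₁ T` is complete (`complete_adj`; `T` is algebraic over
`adj F₁ y ≤ M₁`), it contains `adj F T`, so `P₀ ≤ N` (`N` is closed). `E` is generated over `P₀` by
finitely many elements `l i`, algebraic over `P₀ ≤ N`. So `K ⊔ F₁` is generated over `M₁` by the
algebraic elements `T, l i` (all in `K`): it is a finite extension of `M₁`, and it has a primitive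
element `w` (characteristic `0`). -/
theorem exists_primitive_over_closure [IsUltrametricDist Ω] [CharZero Ω]
    {F K P₀ F₁ M₁ : Subfield Ω} (hI : Imm F K) (hK : IsComplete (K : Set Ω))
    (hnt : ∃ x ∈ F, 1 < ‖x‖) {T : Ω} (hT : T ∈ K)
    (hPd : DenseIn (adj F T) P₀) (E : IntermediateField P₀ Ω) [FiniteDimensional P₀ E]
    (hE : E.toSubfield = K) {d : ℕ} {θ : Fin (d + 1) → Ω} (hθ : OrthBasis F F₁ θ) {y : Ω}
    (hy : y ∈ K ⊔ F₁) (hTy : IsAlgebraic (adj F₁ y) T) (hM : IsComplete (M₁ : Set Ω))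
    (hMd : DenseIn (adj F₁ y) M₁) :
    M₁ ≤ K ⊔ F₁ ∧ ∃ w : Ω, IsAlgebraic M₁ w ∧ adj M₁ w = K ⊔ F₁ := by
  classical
  have hKF : OrthBasis K (K ⊔ F₁) θ := OrthBasis.sup hI hθ
  have hcomp : IsComplete ((K ⊔ F₁ : Subfield Ω) : Set Ω) := hKF.complete hK
  have hle : M₁ ≤ K ⊔ F₁ := kr2_le_of_dense hMd (adj_le le_sup_right hy) hcomp
  refine ⟨hle, ?_⟩
  have hyM : adj F₁ y ≤ M₁ := hMd.1
  have hF₁M : F₁ ≤ M₁ := (le_adj F₁ y).trans hyM
  have hFM : F ≤ M₁ := hθ.le.trans hF₁M
  have hTM : IsAlgebraic M₁ T := kr2_alg_mono hyM hTy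
  have hntM : ∃ x ∈ M₁, 1 < ‖x‖ := by
    obtain ⟨x, hx, h1⟩ := hnt
    exact ⟨x, hFM hx, h1⟩
  have hN : IsComplete (adj M₁ T : Set Ω) := complete_adj hM hntM hTM
  have hP₀N : P₀ ≤ adj M₁ T :=
    kr2_le_of_dense hPd (adj_le (hFM.trans (le_adj _ _)) (mem_adj_self _ _)) hN
  obtain ⟨s, hs⟩ : E.FG := by
    apply IntermediateField.fg_of_fg_toSubalgebra
    rw [← Subalgebra.fg_top]
    have h0 : Module.Finite P₀ E.toSubalgebra := inferInstanceAs (Module.Finite P₀ E)
    have h1 : Algebra.FiniteType P₀ E.toSubalgebra := inferInstance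
    exact h1.out
  have hEs : K = P₀ ⊔ Subfield.closure (s : Set Ω) := by
    rw [kr2_sup_closure, hs, hE]
  have hsK : ∀ x ∈ s, x ∈ K := by
    intro x hx
    rw [hEs]
    exact (le_sup_right : Subfield.closure (s : Set Ω) ≤ _) (Subfield.subset_closure hx)
  have hsalg : ∀ x ∈ s, IsAlgebraic M₁ x := by
    intro x hx
    have hxE : x ∈ E := by
      have h1 : x ∈ E.toSubfield := by rw [hE]; exact hsK x hx
      exact h1
    have h2 : IsAlgebraic P₀ (⟨x, hxE⟩ : E) := Algebra.IsAlgebraic.isAlgebraic _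
    have h3 : IsAlgebraic P₀ x := h2.algebraMap (A := Ω)
    have h4 : IsAlgebraic (adj M₁ T) x := kr2_alg_mono hP₀N h3
    have h5 : Algebra.IsAlgebraic M₁ (IntermediateField.adjoin M₁ ({T} : Set Ω)) :=
      IntermediateField.isAlgebraic_adjoin_simple hTM.isIntegral
    have h6 : IsAlgebraic (IntermediateField.adjoin M₁ ({T} : Set Ω)) x := by
      rw [kr2_adj_eq] at h4
      exact h4
    exact h6.restrictScalars M₁
  obtain ⟨w, hw, hwe⟩ := kr2_prim (M := M₁) (insert T s) (by
    intro x hx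
    rw [Finset.mem_insert] at hx
    rcases hx with rfl | hx
    · exact hTM
    · exact hsalg x hx)
  refine ⟨w, hw, ?_⟩
  rw [hwe, Finset.coe_insert]
  apply le_antisymm
  · refine sup_le hle (Subfield.closure_le.2 ?_)
    rintro x (rfl | hx)
    · exact (le_sup_left : K ≤ K ⊔ F₁) hT
    · exact (le_sup_left : K ≤ K ⊔ F₁) (hsK x hx)
  · refine sup_le ?_ (hF₁M.trans le_sup_left)
    conv_lhs => rw [hEs]
    refine sup_le ?_ ?_
    · refine hP₀N.trans (adj_le le_sup_left ?_)
      exact (le_sup_right : Subfield.closure (insert T (s : Set Ω)) ≤ _)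
        (Subfield.subset_closure (Set.mem_insert _ _))
    · refine (Subfield.closure_mono ?_).trans le_sup_right
      exact Set.subset_insert _ _

end MP1a953e
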