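import Pool.Agent.Lib.MP_1a953e_ag.DDefs
import Pool.Agent.Lib.MP_1a953e_ag.GP1

/-!
# Module DImmA: constants, distances and isometry
-/

namespace MP1a953e

open Polynomial

variable {Ω : Type*} [NormedField Ω] [IsUltrametricDist Ω]

omit [IsUltrametricDist Ω] in
/-- IM1.  An element of `Ω` which is algebraic over the algebraically closed subfield `C` is in `C`. -/
theorem mem_of_algebraic {C : Subfield Ω} (hC : IsAlgClosed C) {b : Ω} (hb : IsAlgebraic C b) :
    b ∈ C := by
  have h1 : (minpoly C b).degree = 1 :=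
    IsAlgClosed.degree_eq_one_of_irreducible C (minpoly.irreducible hb.isIntegral)
  obtain ⟨y, hy⟩ := minpoly.mem_range_of_degree_eq_one C b h1
  rw [← hy]
  exact y.2

omit [IsUltrametricDist Ω] in
private theorem algebraic_of_root {F : Subfield Ω} {g : Polynomial Ω} (hg : Coeffs F g)
    (hg0 : g ≠ 0) {β : Ω} (hβ : g.eval β = 0) : IsAlgebraic F β := by
  have hl : g ∈ lifts (algebraMap F Ω) := by
    rw [lifts_iff_coeff_lifts]
    intro n
    exact ⟨⟨g.coeff n, hg n⟩, rfl⟩
  obtain ⟨q, hq⟩ := (mem_lifts g).1 hl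
  refine ⟨q, ?_, ?_⟩
  · rintro rfl
    rw [Polynomial.map_zero] at hq
    exact hg0 hq.symm
  · rw [← eval_map_algebraMap, hq]
    exact hβ

omit [IsUltrametricDist Ω] in
/-- IM2.  Roots of polynomials over `C`. -/
theorem mem_of_eval_eq_zero {C : Subfield Ω} (hC : IsAlgClosed C) {g : Polynomial Ω}
    (hg : Coeffs C g) (hg0 : g ≠ 0) {b : Ω} (hb : g.eval b = 0) : b ∈ C :=
  mem_of_algebraic hC (algebraic_of_root hg hg0 hb)

omit [IsUltrametricDist Ω] in
/-- IM3.  Roots of elements of `C` (all roots in `Ω` are in `C` by IM2; `Ω` has such roots). -/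
theorem rt_mem_pow [IsAlgClosed Ω] {C : Subfield Ω} (hC : IsAlgClosed C) {p : ℕ} (hp : p.Prime)
    (t : ℕ) {x : Ω} (hx : x ∈ C) : rt p t x ∈ C ∧ (rt p t x) ^ p ^ t = x := by
  have hq : 0 < p ^ t := pow_pos hp.pos t
  have hex : ∃ y : Ω, y ^ p ^ t = x := IsAlgClosed.exists_pow_nat_eq x hq
  have h1 : (rt p t x) ^ p ^ t = x := by
    unfold rt
    rw [dif_pos hex]
    exact hex.choose_spec
  refine ⟨?_, h1⟩
  refine mem_of_eval_eq_zero (g := X ^ (p ^ t) - Polynomial.C x) hC ?_
    (X_pow_sub_C_ne_zero hq x) ?_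
  · intro i
    rw [coeff_sub, coeff_X_pow, coeff_C]
    refine C.sub_mem ?_ ?_
    · split_ifs
      · exact C.one_mem
      · exact C.zero_mem
    · split_ifs
      · exact hx
      · exact C.zero_mem
  · rw [eval_sub, eval_pow, eval_X, eval_C, h1, sub_self]

omit [IsUltrametricDist Ω] in
/-- IM4.  Artin-Schreier roots. -/
theorem exists_as_root [IsAlgClosed Ω] {C : Subfield Ω} (hC : IsAlgClosed C) {p : ℕ}
    (hp : p.Prime) {x : Ω} (hx : x ∈ C) : ∃ y ∈ C, y ^ p - y = x := by
  set g : Polynomial Ω := X ^ p - (X + Polynomial.C x) with hg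
  have hdeg : g.degree = p := by
    rw [hg, degree_sub_eq_left_of_degree_lt, degree_X_pow]
    rw [degree_X_pow]
    rw [degree_X_add_C]
    exact_mod_cast hp.one_lt
  have hg0 : g ≠ 0 := by
    intro h
    rw [h, degree_zero] at hdeg
    exact absurd hdeg (by simp)
  obtain ⟨y, hy⟩ := IsAlgClosed.exists_root g (by
    rw [hdeg]
    exact_mod_cast hp.pos.ne')
  have hy' : g.eval y = 0 := hy
  refine ⟨y, mem_of_eval_eq_zero hC ?_ hg0 hy', ?_⟩
  · intro i
    rw [hg, coeff_sub, coeff_add, coeff_X_pow, coeff_C, coeff_X]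
    refine C.sub_mem ?_ (C.add_mem ?_ ?_)
    · split_ifs
      · exact C.one_mem
      · exact C.zero_mem
    · split_ifs
      · exact C.one_mem
      · exact C.zero_mem
    · split_ifs
      · exact hx
      · exact C.zero_mem
  · rw [hg, eval_sub, eval_add, eval_pow, eval_X, eval_C] at hy'
    linear_combination hy'

/-- IM5.  `TT C x` means positive distance, if `Ω` is immediate over `C`: if `‖x - b‖ ≤ dist(x, C)` with
`b` algebraic over `C`, then `b ∈ C` (IM1), `x - b ≠ 0` and there is `c ∈ C` with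
`‖x - b - c‖ < ‖x - b‖ ≤ dist(x, C)`, a contradiction. -/
theorem tt_of_immAll {C : Subfield Ω} (hC : IsAlgClosed C) (him : ImmAll C) {x : Ω}
    (hx : 0 < Metric.infDist x (C : Set Ω)) : TT C x := by
  refine ⟨hx, fun b hb => ?_⟩
  have hbC : b ∈ C := mem_of_algebraic hC hb
  by_contra hle
  rw [not_lt] at hle
  have hne : x - b ≠ 0 := by
    intro h
    have h1 : Metric.infDist x (C : Set Ω) ≤ dist x b := Metric.infDist_le_dist_of_mem hbC
    rw [dist_eq_norm, h, norm_zero] at h1
    exact absurd hx (not_lt.2 h1)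
  obtain ⟨c, hc, h1⟩ := him (x - b) hne
  have h2 : Metric.infDist x (C : Set Ω) ≤ dist x (b + c) :=
    Metric.infDist_le_dist_of_mem (C.add_mem hbC hc)
  rw [dist_eq_norm, ← sub_sub] at h2
  exact absurd (h2.trans_lt h1) (not_lt.2 hle)

/-- IM6.  Distances to fields `E ⊇ C` are not attained: if `0 < dist(x, E)` then
`dist(x, E) < ‖x - g‖` for all `g ∈ E` (apply immediacy to `x - g`). -/
theorem infDist_lt_of_immAll {C E : Subfield Ω} (him : ImmAll C) (hCE : C ≤ E) {x : Ω}
    (hx : 0 < Metric.infDist x (E : Set Ω)) {g : Ω} (hg : g ∈ E) :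
    Metric.infDist x (E : Set Ω) < ‖x - g‖ := by
  by_contra hle
  rw [not_lt] at hle
  have hne : x - g ≠ 0 := by
    intro h
    have h1 : Metric.infDist x (E : Set Ω) ≤ dist x g := Metric.infDist_le_dist_of_mem hg
    rw [dist_eq_norm, h, norm_zero] at h1
    exact absurd hx (not_lt.2 h1)
  obtain ⟨c, hc, h1⟩ := him (x - g) hne
  have h2 : Metric.infDist x (E : Set Ω) ≤ dist x (g + c) :=
    Metric.infDist_le_dist_of_mem (E.add_mem hg (hCE hc))
  rw [dist_eq_norm, ← sub_sub] at h2
  exact absurd (h2.trans_lt h1) (not_lt.2 hle)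

/-- IM7.  Isometry: over a field `E` containing a complete nontrivially normed field `P` over which
`Ω` is algebraic, all automorphisms of `Ω` are isometric. Proof: `σ` fixes `P`, so `x` and `σ x` have
the same minimal polynomial over `P`; `norm_eq_of_minpoly_eq`. -/
theorem cj_of_complete {P E : Subfield Ω} (hP : IsComplete (P : Set Ω))
    (hnt : ∃ x ∈ P, 1 < ‖x‖) (halg : ∀ x : Ω, IsAlgebraic P x) (hPE : P ≤ E) : Cj E := by
  constructor
  · intro x
    obtain ⟨q, hq0, hq⟩ := halg x
    refine algebraic_of_root (g := q.map (algebraMap P Ω)) ?_ ?_ ?_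
    · intro i
      rw [coeff_map]
      exact hPE (q.coeff i).2
    · rwa [Ne, Polynomial.map_eq_zero]
    · rw [eval_map_algebraMap]
      exact hq
  · intro σ x
    let τ : Ω ≃ₐ[P] Ω :=
      AlgEquiv.ofRingEquiv (f := σ.toRingEquiv) (fun y => σ.commutes (⟨(y : Ω), hPE y.2⟩ : E))
    have h1 : minpoly P (τ x) = minpoly P x := minpoly.algEquiv_eq τ x
    have h2 : τ x = σ x := rfl
    rw [← h2]
    exact (norm_eq_of_minpoly_eq hP hnt (halg x) h1.symm).symm

end MP1a953e
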