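import Pool.Agent.Lib.MP_1a953e_ag.Gal1

/-!
# Module Gal2: devissage by Sylow
-/

namespace MP1a953e

open Polynomial

/-- one step: index `p` in a group of order `p ^ (n + 1)` -/
private theorem gal2_step {Q N : Type*} [Field Q] [Field N] [Algebra Q N] {p : ℕ} [Fact p.Prime]
    [CharP Q p] [FiniteDimensional Q N] [IsGalois Q N] (U U1 : Subgroup Gal(N/Q)) (hle : U ≤ U1)
    (n : ℕ) (hU : Nat.card U = p ^ n) (hU1 : Nat.card U1 = p ^ (n + 1)) :
    ∃ z : N, z ∈ IntermediateField.fixedField U ∧ z ^ p - z ∈ IntermediateField.fixedField U1 ∧
      ∀ T : Subfield N, (∀ x ∈ IntermediateField.fixedField U1, x ∈ T) → z ∈ T →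
        ∀ x ∈ IntermediateField.fixedField U, x ∈ T := by
  classical
  have hp : p.Prime := Fact.out
  have hKL : IntermediateField.fixedField U1 ≤ IntermediateField.fixedField U :=
    IntermediateField.fixedField_le hle
  set K1 := IntermediateField.fixedField U1 with hK1
  set L1 : IntermediateField K1 N := IntermediateField.extendScalars hKL with hL1
  have hf1 : Module.finrank K1 N = p ^ (n + 1) := by
    rw [hK1, IntermediateField.finrank_fixedField_eq_card, hU1]
  have hf2 : Module.finrank L1 N = p ^ n := by
    have h := IntermediateField.finrank_fixedField_eq_card (F := Q) (E := N) U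
    rw [hU] at h
    exact h
  have hmul : Module.finrank K1 L1 * Module.finrank L1 N = Module.finrank K1 N :=
    Module.finrank_mul_finrank K1 L1 N
  have hdeg : Module.finrank K1 L1 = p := by
    rw [hf1, hf2, pow_succ'] at hmul
    exact Nat.eq_of_mul_eq_mul_right (pow_pos hp.pos n) hmul
  have hcH : Nat.card L1.fixingSubgroup = p ^ n := by
    rw [IsGalois.card_fixingSubgroup_eq_finrank, hf2]
  have hcG : Nat.card Gal(N/K1) = p ^ (n + 1) := by
    rw [IsGalois.card_aut_eq_finrank, hf1]
  have hidx : L1.fixingSubgroup.index = p := by
    have h := Subgroup.card_mul_index L1.fixingSubgroup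
    rw [hcH, hcG, pow_succ] at h
    exact Nat.eq_of_mul_eq_mul_left (pow_pos hp.pos n) h
  have : L1.fixingSubgroup.Normal := by
    apply Subgroup.normal_of_index_eq_minFac_card
    rw [hidx, hcG, hp.pow_minFac (by omega)]
  have hgal : IsGalois K1 L1 := by
    have h : IsGalois K1 (IntermediateField.fixedField L1.fixingSubgroup) := inferInstance
    rwa [IsGalois.fixedField_fixingSubgroup] at h
  have : CharP K1 p := charP_of_injective_algebraMap (algebraMap Q K1).injective p
  obtain ⟨z, hz1, a, ha⟩ := artin_schreier (K := K1) (L := L1) (p := p) hdeg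
  refine ⟨(z : N), z.2, ?_, ?_⟩
  · have h := congrArg (algebraMap L1 N) ha
    have h2 : (z : N) ^ p - z = (a : N) := by
      simpa using h
    rw [h2]
    exact a.2
  · intro T hT hzT x hx
    have hx' : (⟨x, hx⟩ : L1) ∈ (IntermediateField.adjoin K1 ({z} : Set L1)).toSubfield := by
      rw [hz1]
      exact (IntermediateField.mem_top : (⟨x, hx⟩ : L1) ∈ (⊤ : IntermediateField K1 L1))
    have hcl : (IntermediateField.adjoin K1 ({z} : Set L1)).toSubfield ≤
        T.comap (algebraMap L1 N) := by
      rw [IntermediateField.adjoin_toSubfield, Subfield.closure_le]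
      rintro w (⟨b, rfl⟩ | hw)
      · exact hT (b : N) b.2
      · rw [Set.mem_singleton_iff] at hw
        rw [hw]
        exact hzT
    exact hcl hx'

/-- GAL2 (dévissage).  `E/Q` finite separable inside the algebraically closed field `Ω` of characteristic
`p`. There is a finite separable `E0/Q` of degree prime to `p` such that `E ⊔ E0` is obtained from
`E0` by successive Artin-Schreier extensions (stated as an induction principle).

Proof: let `N` be the normal closure of `E` in `Ω` (finite Galois over `Q`), `G` its group, `S` a
Sylow `p`-subgroup, `E0` the fixed field of `S`: `[E0 : Q] = [G : S]` is prime to `p`. The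
intermediate fields of `N/E0` correspond to the subgroups of the `p`-group `S`; let `S'` correspond
to `E ⊔ E0`. Prove `P` for the fixed field of every `U` with `S' ≤ U ≤ S`, by induction on the index
of `U` in `S`: for `U = S` it is given; if `U < S`, there is `U < U₁ ≤ S` with `U` normal of
index `p` in `U₁` (`p`-groups satisfy the normalizer condition: take a subgroup of order `p` of
`N_S(U)/U`), and the fixed field of `U` is Galois of degree `p` over the fixed field of `U₁`; use
`artin_schreier`. -/
theorem galois_devissage {Ω : Type*} [Field Ω] [IsAlgClosed Ω] {p : ℕ} [Fact p.Prime] [CharP Ω p]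
    (Q : Subfield Ω) (E : IntermediateField Q Ω) [FiniteDimensional Q E]
    [Algebra.IsSeparable Q E] :
    ∃ E0 : IntermediateField Q Ω, FiniteDimensional Q E0 ∧ Algebra.IsSeparable Q E0 ∧
      ¬ p ∣ Module.finrank Q E0 ∧
      ∀ P : Subfield Ω → Prop, P E0.toSubfield →
        (∀ (E' : Subfield Ω) (z : Ω), E0.toSubfield ≤ E' → E' ≤ (E ⊔ E0).toSubfield →
          z ∈ (E ⊔ E0).toSubfield → z ^ p - z ∈ E' → P E' →
          P (E' ⊔ Subfield.closure {z})) →
        P (E ⊔ E0).toSubfield := by
  classical
  have hp : p.Prime := Fact.out
  have hcharQ : CharP Q p := RingHom.charP (algebraMap Q Ω) (algebraMap Q Ω).injective p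
  -- the splitting field
  obtain ⟨α, hα⟩ := Field.exists_primitive_element Q E
  set f : Q[X] := minpoly Q α with hf
  have hsep : f.Separable := Algebra.IsSeparable.isSeparable Q α
  set N : IntermediateField Q Ω := IntermediateField.adjoin Q (f.rootSet Ω) with hN
  have hspl : f.IsSplittingField Q N :=
    IntermediateField.adjoin_rootSet_isSplittingField (IsAlgClosed.splits _)
  have : FiniteDimensional Q N := Polynomial.IsSplittingField.finiteDimensional N f
  have : IsGalois Q N := IsGalois.of_separable_splitting_field hsep
  have hEN : E ≤ N := by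
    have h1 : E = IntermediateField.adjoin Q {(α : Ω)} := by
      have h2 : (⊤ : IntermediateField Q E).map E.val = E := by
        rw [← AlgHom.fieldRange_eq_map, IntermediateField.fieldRange_val]
      rw [← hα, IntermediateField.adjoin_map, Set.image_singleton] at h2
      exact h2.symm
    rw [h1, IntermediateField.adjoin_le_iff, Set.singleton_subset_iff]
    apply IntermediateField.subset_adjoin
    rw [Polynomial.mem_rootSet]
    refine ⟨minpoly.ne_zero (Algebra.IsIntegral.isIntegral α), ?_⟩
    have h3 : aeval ((E.val) α) f = 0 := by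
      rw [aeval_algHom_apply, hf, minpoly.aeval, map_zero]
    exact h3
  obtain ⟨S⟩ : Nonempty (Sylow p Gal(N/Q)) := inferInstance
  obtain ⟨s, hs⟩ := IsPGroup.iff_card.mp S.isPGroup'
  let F : Subgroup Gal(N/Q) → IntermediateField Q Ω := fun U =>
    IntermediateField.lift (IntermediateField.fixedField U)
  have hFN : ∀ U, F U ≤ N := fun U => IntermediateField.lift_le _
  have hmemF : ∀ (U : Subgroup Gal(N/Q)) (x : N),
      (x : Ω) ∈ F U ↔ x ∈ IntermediateField.fixedField U := fun U x =>
    IntermediateField.mem_lift x
  have hFanti : ∀ U U', U ≤ U' → F U' ≤ F U := by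
    intro U U' h x hx
    have hxN := hFN _ hx
    exact (hmemF U ⟨x, hxN⟩).2 (IntermediateField.fixedField_le h ((hmemF U' ⟨x, hxN⟩).1 hx))
  have hfin : ∀ U, FiniteDimensional Q (F U) := fun U =>
    Module.Finite.equiv (IntermediateField.liftAlgEquiv (IntermediateField.fixedField U)).toLinearEquiv
  refine ⟨F S, hfin _, ?_, ?_, ?_⟩
  · exact Algebra.IsSeparable.of_algHom Q N (IntermediateField.inclusion (hFN S))
  · have h1 : Module.finrank Q (F S) = Module.finrank Q (IntermediateField.fixedField (S : Subgroup Gal(N/Q))) :=
      (IntermediateField.liftAlgEquiv (IntermediateField.fixedField (S : Subgroup Gal(N/Q)))).toLinearEquiv.finrank_eq.symm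
    have h2 := Module.finrank_mul_finrank Q (IntermediateField.fixedField (S : Subgroup Gal(N/Q))) N
    rw [IntermediateField.finrank_fixedField_eq_card, ← IsGalois.card_aut_eq_finrank Q N,
      ← Subgroup.index_mul_card (S : Subgroup Gal(N/Q))] at h2
    have h3 : Module.finrank Q (IntermediateField.fixedField (S : Subgroup Gal(N/Q))) =
        (S : Subgroup Gal(N/Q)).index := Nat.eq_of_mul_eq_mul_right Nat.card_pos h2
    rw [h1, h3]
    exact S.not_dvd_index
  · intro P hP0 hstep
    set S' : Subgroup Gal(N/Q) := (IntermediateField.restrict hEN).fixingSubgroup ⊓ S with hS'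
    have hS'F : F S' = E ⊔ F S := by
      have h1 : IntermediateField.fixedField S' =
          IntermediateField.restrict hEN ⊔ IntermediateField.fixedField (S : Subgroup Gal(N/Q)) := by
        rw [← IsGalois.fixedField_fixingSubgroup (IntermediateField.restrict hEN ⊔
          IntermediateField.fixedField (S : Subgroup Gal(N/Q))),
          IntermediateField.fixingSubgroup_sup, IntermediateField.fixingSubgroup_fixedField]
      show IntermediateField.lift (IntermediateField.fixedField S') = _
      rw [h1, IntermediateField.lift_sup, IntermediateField.lift_restrict]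
    rw [← hS'F] at hstep ⊢
    have key : ∀ k : ℕ, ∀ U : Subgroup Gal(N/Q), S' ≤ U → U ≤ S →
        Nat.card S = p ^ k * Nat.card U → P (F U).toSubfield := by
      intro k
      induction k with
      | zero =>
        intro U _ hUS hcard
        rw [pow_zero, one_mul] at hcard
        have : U = S := Subgroup.eq_of_le_of_card_ge hUS hcard.le
        rw [this]
        exact hP0
      | succ k ih =>
        intro U hS'U hUS hcard
        -- card U is a power of p
        obtain ⟨n, hn⟩ := IsPGroup.iff_card.mp (S.isPGroup'.to_le hUS)
        have hsn : Nat.card S = p ^ (k + 1 + n) := by rw [hcard, hn, ← pow_add]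
        have hdvd : p ^ (n + 1) ∣ Nat.card S := by
          rw [hsn]
          exact pow_dvd_pow p (by omega)
        have hUc : Nat.card (U.subgroupOf (S : Subgroup Gal(N/Q))) = p ^ n := by
          rw [← hn]
          exact Nat.card_congr (Subgroup.subgroupOfEquivOfLe hUS).toEquiv
        obtain ⟨V, hV, hUV⟩ := Sylow.exists_subgroup_card_pow_succ (G := (S : Subgroup Gal(N/Q)))
          hdvd hUc
        set U1 : Subgroup Gal(N/Q) := V.map (S : Subgroup Gal(N/Q)).subtype with hU1
        have hU1S : U1 ≤ S := Subgroup.map_subtype_le V
        have hUU1 : U ≤ U1 := by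
          intro g hg
          refine ⟨⟨g, hUS hg⟩, hUV ?_, rfl⟩
          exact hg
        have hU1c : Nat.card U1 = p ^ (n + 1) := by
          rw [← hV]
          exact Nat.card_congr
            (Subgroup.equivMapOfInjective V _ (Subgroup.subtype_injective _)).symm.toEquiv
        have hPU1 : P (F U1).toSubfield := by
          apply ih U1 (hS'U.trans hUU1) hU1S
          rw [hsn, hU1c, ← pow_add]
          congr 1
          omega
        obtain ⟨z, hz1, hz2, hz3⟩ := gal2_step U U1 hUU1 n hn hU1c
        have h := hstep (F U1).toSubfield (z : Ω) (hFanti _ _ hU1S)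
          (hFanti _ _ (hS'U.trans hUU1)) (hFanti _ _ hS'U ((hmemF U z).2 hz1))
          ((hmemF U1 (z ^ p - z)).2 hz2) hPU1
        have heq : (F U).toSubfield = (F U1).toSubfield ⊔ Subfield.closure {(z : Ω)} := by
          apply le_antisymm
          · intro x hx
            have hxN := hFN U hx
            have h1 := hz3 (((F U1).toSubfield ⊔ Subfield.closure {(z : Ω)}).comap
              (algebraMap N Ω)) ?_ ?_ ⟨x, hxN⟩ ((hmemF U ⟨x, hxN⟩).1 hx)
            · exact h1
            · intro y hy
              exact (le_sup_left : (F U1).toSubfield ≤ _) ((hmemF U1 y).2 hy)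
            · exact (le_sup_right : Subfield.closure {(z : Ω)} ≤ _)
                (Subfield.subset_closure (Set.mem_singleton _))
          · refine sup_le (hFanti _ _ hUU1) ?_
            rw [Subfield.closure_le, Set.singleton_subset_iff]
            exact (hmemF U z).2 hz1
        rw [heq]
        exact h
    obtain ⟨n, hn⟩ := IsPGroup.iff_card.mp (S.isPGroup'.to_le (inf_le_right : S' ≤ S))
    have hle : n ≤ s := by
      have h1 : Nat.card S' ≤ Nat.card S := Subgroup.card_le_of_le inf_le_right
      have h2 : p ^ n ≤ p ^ s := by
        rw [← hn, ← hs]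
        exact h1
      exact (Nat.pow_le_pow_iff_right hp.one_lt).1 h2
    refine key (s - n) S' le_rfl inf_le_right ?_
    have hs' : Nat.card (S : Subgroup Gal(N/Q)) = p ^ s := hs
    rw [hn, ← pow_add, show s - n + n = s by omega]
    exact hs'

end MP1a953e
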