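import Pool.Agent.Lib.MP_1a953e_ag.UDefs
import Pool.Agent.Lib.MP_1a953e_ag.GP1

/-!
# Module Sta6: no extensions of degree prime to p
-/

namespace MP1a953e

open Polynomial

variable {Ω : Type*} [NormedField Ω]

/-- STA6 (trace).  `E` algebraic over the complete field `F`, every nonzero element of `Ω` algebraic over `E`
can be approximated by elements of `E`. Then `E` has no finite extension of degree `> 1` prime to `p`
(characteristic `0`).  Proof.  Let `x ∈ M`, `x ∉ E`, `m = [M : E]`, `y = x - Tr x / m ≠ 0`, `Tr y = 0`.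
Choose `c ∈ E` with `‖y - c‖ < ‖y‖`, so `‖c‖ = ‖y‖`. `Tr (y - c) = - m * c` has norm `‖c‖`
(`‖m‖ = 1` since `p ∤ m`, `‖p‖ < 1`), and it is the sum of the `τ (y - c)` over the `E`-embeddings
`τ : M → Ω` (`trace_eq_sum_embeddings`), each of norm `‖y - c‖` (`norm_eq_of_minpoly_eq` over
`F`: `τ u` and `u` have the same minimal polynomial over `F`, and `u` is algebraic over `F`), so of
norm `< ‖c‖`, a contradiction. -/
theorem eq_bot_of_prime_to_p [IsUltrametricDist Ω] [IsAlgClosed Ω] [CharZero Ω] {p : ℕ}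
    [Fact p.Prime] (hp : ‖(p : Ω)‖ < 1) {F E : Subfield Ω} (hF : IsComplete (F : Set Ω))
    (hnt : ∃ x ∈ F, 1 < ‖x‖) (hFE : F ≤ E) (halg : ∀ x ∈ E, IsAlgebraic F x)
    (happ : ∀ x : Ω, IsAlgebraic E x → x ≠ 0 → ∃ c ∈ E, ‖x - c‖ < ‖x‖)
    (M : IntermediateField E Ω) [FiniteDimensional E M] (hdeg : ¬ p ∣ Module.finrank E M) :
    M = ⊥ := by
  classical
  have hpp : p.Prime := Fact.out
  have hchE : CharZero E := (algebraMap E Ω).charZero
  have hsep : Algebra.IsSeparable E M := inferInstance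
  -- norms of conjugates
  have hconj : ∀ (τ : M →ₐ[E] Ω) (x : M) (c : Ω), c ∈ E → ‖τ x - c‖ = ‖(x : Ω) - c‖ := by
    intro τ x c hc
    have halgx : IsAlgebraic E (x : Ω) :=
      (Algebra.IsAlgebraic.isAlgebraic (R := E) x).algebraMap (A := Ω)
    have h1 : minpoly E ((x : Ω) - c) = minpoly E (τ x - c) := by
      have h2 : minpoly E (x - algebraMap E M ⟨c, hc⟩) = minpoly E ((x : Ω) - c) :=
        (minpoly.algHom_eq M.val M.val.injective (x - algebraMap E M ⟨c, hc⟩)).symm
      have h3 : minpoly E (τ (x - algebraMap E M ⟨c, hc⟩)) =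
          minpoly E (x - algebraMap E M ⟨c, hc⟩) := minpoly.algHom_eq τ τ.injective _
      rw [map_sub, AlgHom.commutes] at h3
      rw [← h2, ← h3]
      rfl
    let _ : Algebra F E := (Subfield.inclusion hFE).toAlgebra
    have hst : IsScalarTower F E Ω := IsScalarTower.of_algebraMap_eq (fun _ => rfl)
    have halgFE : Algebra.IsAlgebraic F E := by
      constructor
      intro z
      have h4 := halg (z : Ω) z.2
      exact (isAlgebraic_algHom_iff (IsScalarTower.toAlgHom F E Ω)
        (algebraMap E Ω).injective).1 h4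
    have halgF : IsAlgebraic F ((x : Ω) - c) := by
      have h5 : IsAlgebraic E ((x : Ω) - c) :=
        halgx.sub (isAlgebraic_algebraMap (⟨c, hc⟩ : E))
      exact h5.restrictScalars F
    have h6 : minpoly F ((x : Ω) - c) = minpoly F (τ x - c) := by
      have h7 : Polynomial.aeval (τ x - c) (minpoly F ((x : Ω) - c)) = 0 := by
        have h8 : Polynomial.aeval ((x : Ω) - c)
            ((minpoly F ((x : Ω) - c)).map (algebraMap F E)) = 0 := by
          rw [Polynomial.aeval_map_algebraMap, minpoly.aeval]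
        have h9 := minpoly.dvd E ((x : Ω) - c) h8
        rw [h1] at h9
        have h10 := Polynomial.aeval_eq_zero_of_dvd_aeval_eq_zero h9 (minpoly.aeval E (τ x - c))
        rwa [Polynomial.aeval_map_algebraMap] at h10
      exact minpoly.eq_of_irreducible_of_monic (minpoly.irreducible halgF.isIntegral) h7
        (minpoly.monic halgF.isIntegral)
    exact (norm_eq_of_minpoly_eq hF hnt halgF h6).symm
  -- the degree has norm one
  have hm1 : ‖((Module.finrank E M : ℕ) : Ω)‖ = 1 := by
    obtain ⟨a, b, hab⟩ : IsCoprime ((Module.finrank E M : ℕ) : ℤ) (p : ℤ) :=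
      Nat.isCoprime_iff_coprime.2 ((Nat.Prime.coprime_iff_not_dvd hpp).2 hdeg).symm
    refine le_antisymm (IsUltrametricDist.norm_natCast_le_one Ω _) ?_
    by_contra hlt
    push Not at hlt
    have h1 : (1 : Ω) = (a : Ω) * ((Module.finrank E M : ℕ) : Ω) + (b : Ω) * (p : Ω) := by
      have h2 := congrArg (fun z : ℤ => (z : Ω)) hab
      simp only [Int.cast_add, Int.cast_mul, Int.cast_natCast, Int.cast_one] at h2
      exact h2.symm
    have h3 : ‖(a : Ω) * ((Module.finrank E M : ℕ) : Ω)‖ < 1 := by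
      rw [norm_mul]
      calc ‖(a : Ω)‖ * ‖((Module.finrank E M : ℕ) : Ω)‖
          ≤ 1 * ‖((Module.finrank E M : ℕ) : Ω)‖ :=
            mul_le_mul_of_nonneg_right (IsUltrametricDist.norm_intCast_le_one Ω a) (norm_nonneg _)
        _ < 1 := by rwa [one_mul]
    have h4 : ‖(b : Ω) * (p : Ω)‖ < 1 := by
      rw [norm_mul]
      calc ‖(b : Ω)‖ * ‖(p : Ω)‖ ≤ 1 * ‖(p : Ω)‖ :=
            mul_le_mul_of_nonneg_right (IsUltrametricDist.norm_intCast_le_one Ω b) (norm_nonneg _)
        _ < 1 := by rwa [one_mul]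
    have h5 : ‖(1 : Ω)‖ < 1 := by
      rw [h1]
      exact lt_of_le_of_lt (IsUltrametricDist.norm_add_le_max _ _) (max_lt h3 h4)
    rw [norm_one] at h5
    exact lt_irrefl _ h5
  have htr : ∀ x : M, x ≠ 0 → Algebra.trace E M x ≠ 0 := by
    intro x hx htr0
    have hx0 : (x : Ω) ≠ 0 := fun h => hx (Subtype.ext h)
    have halgx : IsAlgebraic E (x : Ω) :=
      (Algebra.IsAlgebraic.isAlgebraic (R := E) x).algebraMap (A := Ω)
    obtain ⟨c, hc, hxc⟩ := happ (x : Ω) halgx hx0
    have hcn : ‖c‖ = ‖(x : Ω)‖ := by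
      have h1 : c = (x : Ω) + -((x : Ω) - c) := by ring
      rw [h1, IsUltrametricDist.norm_add_eq_max_of_norm_ne_norm (by rw [norm_neg]; exact hxc.ne'),
        norm_neg, max_eq_left hxc.le]
    have h1 := trace_eq_sum_embeddings Ω (K := E) (L := M) (x := x)
    rw [htr0, map_zero] at h1
    have h2 : ∑ τ : M →ₐ[E] Ω, τ x = ∑ τ : M →ₐ[E] Ω, (τ x - c) +
        ((Module.finrank E M : ℕ) : Ω) * c := by
      rw [Finset.sum_sub_distrib, Finset.sum_const, Finset.card_univ, AlgHom.card, nsmul_eq_mul,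
        sub_add_cancel]
    have h3 : ‖∑ τ : M →ₐ[E] Ω, (τ x - c)‖ < ‖(x : Ω)‖ := by
      refine Finset.sum_induction _ (fun z => ‖z‖ < ‖(x : Ω)‖) ?_ ?_ ?_
      · intro a b ha hb
        exact lt_of_le_of_lt (IsUltrametricDist.norm_add_le_max a b) (max_lt ha hb)
      · rw [norm_zero]
        exact norm_pos_iff.2 hx0
      · intro τ _
        rw [hconj τ x c hc]
        exact hxc
    have h4 : ‖((Module.finrank E M : ℕ) : Ω) * c‖ = ‖(x : Ω)‖ := by
      rw [norm_mul, hm1, one_mul, hcn]
    have h5 : ((Module.finrank E M : ℕ) : Ω) * c = -∑ τ : M →ₐ[E] Ω, (τ x - c) := by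
      rw [← h1] at h2
      exact eq_neg_of_add_eq_zero_right h2.symm
    rw [h5, norm_neg] at h4
    exact h3.ne h4
  have hinj : Function.Injective (Algebra.trace E M) := by
    rw [injective_iff_map_eq_zero]
    intro x hx
    by_contra hne
    exact htr x hne hx
  have hfr : Module.finrank E M ≤ 1 := by
    have h1 := LinearMap.finrank_le_finrank_of_injective hinj
    rwa [Module.finrank_self] at h1
  have hfr1 : Module.finrank E M = 1 := le_antisymm hfr Module.finrank_pos
  exact IntermediateField.finrank_eq_one_iff.1 hfr1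

end MP1a953e
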