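import Pool.Agent.Lib.MP_1a953e_ag.Defs

/-!
# Module DGrpA: maximal subgroups of p-groups
-/

namespace MP1a953e

/-- GR1.  A proper subgroup of a finite `p`-group is contained in a normal subgroup of index `p`: take a
maximal proper subgroup containing `H`; `p`-groups are nilpotent
(`IsPGroup.isNilpotent`), in nilpotent groups the normalizer condition holds, so maximal subgroups
are normal (`Subgroup.NormalizerCondition.normal_of_coatom`), and the quotient is a `p`-group
without proper nontrivial subgroups, so it has order `p`. -/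
theorem exists_normal_index {G : Type*} [Group G] [Finite G] {p : ℕ} [Fact p.Prime]
    (hG : IsPGroup p G) (H : Subgroup G) (hH : H ≠ ⊤) :
    ∃ M : Subgroup G, H ≤ M ∧ M.Normal ∧ M.index = p := by
  obtain ⟨M, hM, hHM⟩ := (eq_top_or_exists_le_coatom H).resolve_left hH
  have := hG.isNilpotent
  have hn : M.Normal := by
    refine Subgroup.NormalizerCondition.normal_of_coatom M ?_ hM
    exact Group.normalizerCondition_of_isNilpotent
  refine ⟨M, hHM, hn, ?_⟩
  have hQ : IsPGroup p (G ⧸ M) := hG.to_quotient M
  obtain ⟨n, hcard⟩ := IsPGroup.iff_card.1 hQ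
  have hn0 : n ≠ 0 := by
    rintro rfl
    apply hM.1
    have h1 : M.index = 1 := by
      rw [Subgroup.index, hcard, pow_zero]
    exact Subgroup.index_eq_one.1 h1
  have hdvd : p ^ 1 ∣ Nat.card (G ⧸ M) := by
    rw [hcard]
    exact pow_dvd_pow p (Nat.one_le_iff_ne_zero.2 hn0)
  obtain ⟨K, hK⟩ := Sylow.exists_subgroup_card_pow_prime p hdvd
  rw [pow_one] at hK
  have hle : M ≤ K.comap (QuotientGroup.mk' M) := by
    intro x hx
    rw [Subgroup.mem_comap]
    have : (QuotientGroup.mk' M) x = 1 := (QuotientGroup.eq_one_iff x).2 hx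
    rw [this]
    exact K.one_mem
  have hp1 : 1 < p := (Fact.out : p.Prime).one_lt
  have hKtop : K = ⊤ := by
    rcases hle.eq_or_lt with h | h
    · exfalso
      have hbot : K = ⊥ := by
        rw [eq_bot_iff]
        intro y hy
        obtain ⟨x, rfl⟩ := QuotientGroup.mk'_surjective M y
        have hx : x ∈ M := by
          rw [h]
          exact hy
        exact Subgroup.mem_bot.2 ((QuotientGroup.eq_one_iff x).2 hx)
      rw [hbot, Subgroup.card_bot] at hK
      omega
    · have h2 := hM.2 _ h
      rw [eq_top_iff]
      intro y _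
      obtain ⟨x, rfl⟩ := QuotientGroup.mk'_surjective M y
      have : x ∈ K.comap (QuotientGroup.mk' M) := by
        rw [h2]
        trivial
      exact this
  rw [hKtop, Subgroup.card_top] at hK
  exact hK

end MP1a953e
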