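import Mathlib
import Pool.Agent.Lib.MP_1a953e_ag.DGrpA

/-!
# Module Sta7: a Galois extension of degree p
-/

namespace MP1a953e

open Polynomial

/-- the separable case -/
private theorem sta7_aux {E Ω : Type*} [Field E] [Field Ω] [Algebra E Ω] [IsAlgClosed Ω] {p : ℕ}
    [Fact p.Prime]
    (htriv : ∀ L : IntermediateField E Ω, FiniteDimensional E L → Algebra.IsSeparable E L →
      ¬ p ∣ Module.finrank E L → L = ⊥)
    (S : IntermediateField E Ω) [FiniteDimensional E S] [Algebra.IsSeparable E S] (hS : S ≠ ⊥) :
    ∃ E' : IntermediateField E Ω, E' ≤ S ∧ Module.finrank E E' = p ∧ IsGalois E E' := by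
  classical
  -- the splitting field
  obtain ⟨α, hα⟩ := Field.exists_primitive_element E S
  set f : E[X] := minpoly E α with hf
  have hsep : f.Separable := Algebra.IsSeparable.isSeparable E α
  set N : IntermediateField E Ω := IntermediateField.adjoin E (f.rootSet Ω) with hN
  have hspl : f.IsSplittingField E N :=
    IntermediateField.adjoin_rootSet_isSplittingField (IsAlgClosed.splits _)
  have : FiniteDimensional E N := Polynomial.IsSplittingField.finiteDimensional N f
  have : IsGalois E N := IsGalois.of_separable_splitting_field hsep
  have hEN : S ≤ N := by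
    have h1 : S = IntermediateField.adjoin E {(α : Ω)} := by
      have h2 : (⊤ : IntermediateField E S).map S.val = S := by
        rw [← AlgHom.fieldRange_eq_map, IntermediateField.fieldRange_val]
      rw [← hα, IntermediateField.adjoin_map, Set.image_singleton] at h2
      exact h2.symm
    rw [h1, IntermediateField.adjoin_le_iff, Set.singleton_subset_iff]
    apply IntermediateField.subset_adjoin
    rw [Polynomial.mem_rootSet]
    refine ⟨minpoly.ne_zero (Algebra.IsIntegral.isIntegral α), ?_⟩
    have h3 : aeval ((S.val) α) f = 0 := by
      rw [aeval_algHom_apply, hf, minpoly.aeval, map_zero]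
    exact h3
  obtain ⟨P⟩ : Nonempty (Sylow p Gal(N/E)) := inferInstance
  let F : Subgroup Gal(N/E) → IntermediateField E Ω := fun U =>
    IntermediateField.lift (IntermediateField.fixedField U)
  have hFN : ∀ U, F U ≤ N := fun U => IntermediateField.lift_le _
  have hmemF : ∀ (U : Subgroup Gal(N/E)) (x : N),
      (x : Ω) ∈ F U ↔ x ∈ IntermediateField.fixedField U := fun U x =>
    IntermediateField.mem_lift x
  have hfin : ∀ U, FiniteDimensional E (F U) := fun U =>
    Module.Finite.equiv
      (IntermediateField.liftAlgEquiv (IntermediateField.fixedField U)).toLinearEquiv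
  have hrank : ∀ U : Subgroup Gal(N/E), Module.finrank E (F U) = U.index := by
    intro U
    have h1 : Module.finrank E (F U) = Module.finrank E (IntermediateField.fixedField U) :=
      (IntermediateField.liftAlgEquiv (IntermediateField.fixedField U)).toLinearEquiv.finrank_eq.symm
    have h2 := Module.finrank_mul_finrank E (IntermediateField.fixedField U) N
    rw [IntermediateField.finrank_fixedField_eq_card, ← IsGalois.card_aut_eq_finrank E N,
      ← Subgroup.index_mul_card U] at h2
    rw [h1]
    exact Nat.eq_of_mul_eq_mul_right Nat.card_pos h2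
  -- the Galois group is a p-group
  have hbot : F (P : Subgroup Gal(N/E)) = ⊥ := by
    apply htriv _ (hfin _)
    · exact Algebra.IsSeparable.of_algHom E N (IntermediateField.inclusion (hFN P))
    · rw [hrank]
      exact P.not_dvd_index
  have htop : (P : Subgroup Gal(N/E)) = ⊤ := by
    rw [← Subgroup.index_eq_one, ← hrank, hbot, IntermediateField.finrank_bot]
  have hpg : IsPGroup p Gal(N/E) := by
    have h := P.isPGroup'
    rw [htop] at h
    exact h.of_surjective (Subgroup.subtype ⊤) (fun x => ⟨⟨x, trivial⟩, rfl⟩)
  set H : Subgroup Gal(N/E) := (IntermediateField.restrict hEN).fixingSubgroup with hH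
  have hHF : F H = S := by
    show IntermediateField.lift (IntermediateField.fixedField H) = _
    rw [hH, IsGalois.fixedField_fixingSubgroup, IntermediateField.lift_restrict]
  have hHtop : H ≠ ⊤ := by
    intro h
    apply hS
    rw [← hHF, ← IntermediateField.finrank_eq_one_iff, hrank, h, Subgroup.index_top]
  obtain ⟨M, hHM, hMn, hMi⟩ := exists_normal_index hpg H hHtop
  refine ⟨F M, ?_, ?_, ?_⟩
  · rw [← hHF]
    intro x hx
    have hxN := hFN _ hx
    exact (hmemF H ⟨x, hxN⟩).2 (IntermediateField.fixedField_le hHM ((hmemF M ⟨x, hxN⟩).1 hx))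
  · rw [hrank, hMi]
  · have h : IsGalois E (IntermediateField.fixedField M) := inferInstance
    exact IsGalois.of_algEquiv (IntermediateField.liftAlgEquiv (IntermediateField.fixedField M))

/-- STA7 (pure algebra).  `K` of characteristic `0` (here: a field with perfect base), without nontrivial
finite extensions of degree prime to `p` inside the algebraically closed field `Ω`, and not all
algebraic elements are in `K`. Then there is a Galois extension of degree `p`.
Proof.  Let `N` be the normal closure of `K⟮z⟯` in `Ω`, `G = Gal(N/K)`, `S` a Sylow `p`-subgroup, `N^S` has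
degree `[G : S]` prime to `p` over `K`, so it is `K` and `S = G` is a nontrivial `p`-group (`z ∉ K`). It
has a subgroup of index `p`, which is normal (`Sylow.exists_subgroup_card_pow_prime`, a subgroup of
index `p` of a `p`-group is normal); its fixed field has degree `p` and is Galois. -/
theorem exists_galois_p {K Ω : Type*} [Field K] [Field Ω] [Algebra K Ω] [IsAlgClosed Ω]
    [CharZero K] {p : ℕ} [Fact p.Prime]
    (hnone : ∀ M : IntermediateField K Ω, FiniteDimensional K M →
      ¬ p ∣ Module.finrank K M → M = ⊥)
    {z : Ω} (hz : IsAlgebraic K z) (hzK : z ∉ (⊥ : IntermediateField K Ω)) :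
    ∃ M : IntermediateField K Ω, FiniteDimensional K M ∧ IsGalois K M ∧
      Module.finrank K M = p := by
  have hfd : FiniteDimensional K (IntermediateField.adjoin K ({z} : Set Ω)) :=
    IntermediateField.adjoin.finiteDimensional hz.isIntegral
  have hsep : Algebra.IsSeparable K (IntermediateField.adjoin K ({z} : Set Ω)) := inferInstance
  have hne : IntermediateField.adjoin K ({z} : Set Ω) ≠ ⊥ := by
    intro h
    apply hzK
    rw [← h]
    exact IntermediateField.mem_adjoin_simple_self K z
  obtain ⟨M, hM1, hM2, hM3⟩ := sta7_aux (p := p) (fun L h1 _ h3 => hnone L h1 h3)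
    (IntermediateField.adjoin K ({z} : Set Ω)) hne
  refine ⟨M, ?_, hM3, hM2⟩
  exact FiniteDimensional.of_finrank_pos (by rw [hM2]; exact (Fact.out : p.Prime).pos)

end MP1a953e
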