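import Pool.Agent.Lib.MP_1a953e_ag.UDefs
import Pool.Agent.Lib.MP_1a953e_ag.Lin2
import Pool.Agent.Lib.MP_1a953e_ag.Lin4

/-!
# Module Sta8: directed unions of finite extensions with orthogonal bases
-/

namespace MP1a953e

open Polynomial

variable {Ω : Type*} [NormedField Ω]

/-- STA8a.  Transitivity (`Ext.trans` with `A = F`). -/
theorem OrthBasis.trans {F F' F'' : Subfield Ω} {d d' : ℕ} {θ : Fin (d + 1) → Ω}
    {θ' : Fin (d' + 1) → Ω} (h : OrthBasis F F' θ) (h' : OrthBasis F' F'' θ') :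
    ∃ (e : ℕ) (ω : Fin (e + 1) → Ω), OrthBasis F F'' ω := by
  have h1 : Ext F F F' F' := ⟨d, θ, h, h⟩
  have h2 : Ext F' F' F'' F'' := ⟨d', θ', h', h'⟩
  obtain ⟨e, ω, h3, -⟩ := h1.trans h2
  exact ⟨e, ω, h3⟩

/-- STA8b.  The elements of a finite extension are algebraic (they lie in a finite dimensional
`F`-algebra). -/
theorem OrthBasis.isAlgebraic {F F' : Subfield Ω} {d : ℕ} {θ : Fin (d + 1) → Ω}
    (h : OrthBasis F F' θ) {x : Ω} (hx : x ∈ F') : IsAlgebraic F x := by
  classical
  set S : Subalgebra F Ω := (Subfield.extendScalars h.le).toSubalgebra with hS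
  have hmem : ∀ y : Ω, y ∈ S ↔ y ∈ F' := fun y => Iff.rfl
  have hfg : (Subalgebra.toSubmodule S).FG := by
    refine ⟨Finset.univ.image θ, ?_⟩
    apply le_antisymm
    · rw [Submodule.span_le]
      intro y hy
      rw [Finset.coe_image] at hy
      obtain ⟨i, -, rfl⟩ := hy
      exact h.mem i
    · intro y hy
      have hy' : y ∈ F' := hy
      obtain ⟨c, hc, rfl⟩ := h.span y hy'
      refine Submodule.sum_mem _ fun i _ => ?_
      have h1 : c i * θ i = (⟨c i, hc i⟩ : F) • θ i := by
        rw [Algebra.smul_def]; rfl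
      rw [h1]
      refine Submodule.smul_mem _ _ (Submodule.subset_span ?_)
      rw [Finset.coe_image]
      exact ⟨i, by simp, rfl⟩
  exact (IsIntegral.of_mem_of_fg S hfg x ((hmem x).2 hx)).isAlgebraic

/-- STA8c.  The trivial extension. -/
theorem Dir.refl (F : Subfield Ω) : Dir F F := by
  refine ⟨le_rfl, fun X hX => ?_⟩
  obtain ⟨d, θ, h, -⟩ := Ext.refl F F
  exact ⟨F, d, θ, le_rfl, hX, h⟩

/-- STA8d.  Zorn's lemma: there is a maximal `E` with `Dir F E` (the union of a chain of such fields is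
such a field: a finite subset of the union lies in one member). -/
theorem exists_maximal_dir (F : Subfield Ω) :
    ∃ E : Subfield Ω, Dir F E ∧ ∀ E' : Subfield Ω, Dir F E' → E ≤ E' → E' = E := by
  obtain ⟨m, -, hm⟩ := zorn_le_nonempty₀ {E : Subfield Ω | Dir F E} (by
    intro c hc hchain y hy
    have hdir : DirectedOn (· ≤ ·) c := hchain.directedOn
    refine ⟨sSup c, ⟨(hc hy).1.trans (le_sSup hy), fun s hs => ?_⟩, fun z hz => le_sSup hz⟩
    rw [Subfield.coe_sSup_of_directedOn ⟨y, hy⟩ hdir] at hs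
    obtain ⟨E, hE, hsE⟩ := DirectedOn.exists_mem_subset_of_finset_subset_biUnion
      (f := fun E : Subfield Ω => (E : Set Ω)) ⟨y, hy⟩ hdir hs
    obtain ⟨K', d, θ, h1, h2, h3⟩ := (hc hE).2 s hsE
    exact ⟨K', d, θ, h1.trans (le_sSup hE), h2, h3⟩) F (Dir.refl F)
  exact ⟨m, hm.prop, fun E' hE' hle => (hm.eq_of_le hE' hle).symm⟩

private theorem sta8_powers {E K' : Subfield Ω} (hK : K' ≤ E) {y : Ω} {d : ℕ}
    (hb : OrthBasis E (MP1a953e.adj E y) (fun i : Fin (d + 1) => y ^ (i : ℕ)))
    {a : Fin (d + 1) → Ω} (ha : ∀ i, a i ∈ K') (hy : y ^ (d + 1) = ∑ i, a i * y ^ (i : ℕ)) :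
    OrthBasis K' (MP1a953e.adj K' y) (fun i : Fin (d + 1) => y ^ (i : ℕ)) where
  le := le_adj K' y
  zero := hb.zero
  mem := fun i => (MP1a953e.adj K' y).pow_mem (mem_adj_self K' y) _
  ne := hb.ne
  span := by
    intro x hx
    rw [mem_adj_iff] at hx
    set R : Polynomial K' := ∑ i : Fin (d + 1), C (⟨a i, ha i⟩ : K') * X ^ (i : ℕ) with hR
    have hRd : R.degree < ((d + 1 : ℕ) : WithBot ℕ) := by
      rw [hR]; exact degree_sum_fin_lt _
    set Q : Polynomial K' := X ^ (d + 1) - R with hQ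
    have hQm : Q.Monic := monic_X_pow_sub hRd
    have hQd : Q.natDegree = d + 1 := by
      rw [hQ]
      rcases eq_or_ne R 0 with h0 | h0
      · rw [h0, sub_zero, natDegree_X_pow]
      · rw [natDegree_sub_eq_left_of_natDegree_lt]
        · exact natDegree_X_pow _
        · rw [natDegree_X_pow]
          exact (natDegree_lt_iff_degree_lt h0).2 hRd
    have hQ0 : aeval y Q = 0 := by
      rw [hQ, map_sub, map_pow, aeval_X, hy, hR, map_sum, sub_eq_zero]
      refine Finset.sum_congr rfl fun i _ => ?_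
      rw [map_mul, map_pow, aeval_X, aeval_C]
      rfl
    have hint : IsIntegral K' y := ⟨Q, hQm, hQ0⟩
    have h3 : x ∈ (IntermediateField.adjoin K' {y}).toSubalgebra := hx
    rw [IntermediateField.adjoin_simple_toSubalgebra_of_isAlgebraic hint.isAlgebraic,
      Algebra.adjoin_singleton_eq_range_aeval] at h3
    obtain ⟨P, hP⟩ := h3
    have hP' : aeval y P = x := hP
    have hdeg : (P %ₘ Q).natDegree < d + 1 := by
      rw [← hQd]
      refine natDegree_modByMonic_lt P hQm ?_
      intro h1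
      rw [h1, natDegree_one] at hQd
      omega
    have hPe : aeval y (P %ₘ Q) = x := by
      have h4 := congrArg (aeval y) (modByMonic_add_div P Q)
      rw [map_add, map_mul, hQ0, zero_mul, add_zero, hP'] at h4
      exact h4
    refine ⟨fun i => ((P %ₘ Q).coeff i : Ω), fun i => ((P %ₘ Q).coeff i).2, ?_⟩
    rw [← hPe, aeval_eq_sum_range' hdeg, Finset.sum_range]
    rfl
  orth := fun c hc i => hb.orth c (fun j => hK (hc j)) i

/-- STA8e.  Adjoining an element `y` whose powers `1, …, y ^ d` are an orthogonal basis of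
`adj E y / E`.  Proof.  Let `X ⊆ adj E y` be finite. Its elements are combinations of the `y ^ i` with
coefficients in `E`, and `y` is a root of the monic minimal polynomial over `E` of degree `d + 1`. Choose
`K' ≤ E` with an orthogonal basis over `F` containing all these coefficients. Then
`1, …, y ^ d` is an orthogonal basis of `adj K' y` over `K'` (`orth`: restriction; `span`: the
combinations of these powers over `K'` form a ring which is finite dimensional over `K'`, hence a
field), and `OrthBasis.trans`. -/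
theorem Dir.adj {F E : Subfield Ω} (h : Dir F E) {y : Ω} (hy : IsAlgebraic E y) {d : ℕ}
    (hd : (minpoly E y).natDegree = d + 1)
    (hb : OrthBasis E (adj E y) (fun i : Fin (d + 1) => y ^ (i : ℕ))) : Dir F (adj E y) := by
  classical
  refine ⟨h.1.trans (le_adj E y), fun X hX => ?_⟩
  have hspan : ∀ x : Ω, ∃ c : Fin (d + 1) → Ω, (∀ i, c i ∈ E) ∧
      (x ∈ X → x = ∑ i, c i * y ^ (i : ℕ)) := by
    intro x
    by_cases hx : x ∈ X
    · obtain ⟨c, hc, hcx⟩ := hb.span x (hX hx)
      exact ⟨c, hc, fun _ => hcx⟩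
    · exact ⟨fun _ => 0, fun _ => E.zero_mem, fun h => absurd h hx⟩
  choose c hc hcx using hspan
  obtain ⟨a, ha, hay⟩ := hb.span (y ^ (d + 1))
    ((MP1a953e.adj E y).pow_mem (mem_adj_self E y) _)
  set T : Finset Ω := (X.biUnion fun x => Finset.univ.image (c x)) ∪ Finset.univ.image a with hT
  have hTE : (T : Set Ω) ⊆ E := by
    intro w hw
    rw [hT, Finset.mem_coe, Finset.mem_union, Finset.mem_biUnion, Finset.mem_image] at hw
    rcases hw with ⟨x, -, hx⟩ | ⟨i, -, rfl⟩
    · rw [Finset.mem_image] at hx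
      obtain ⟨i, -, rfl⟩ := hx
      exact hc x i
    · exact ha i
  obtain ⟨K', e, θ, hK'E, hTK', hθ⟩ := h.2 T hTE
  have haK : ∀ i, a i ∈ K' := fun i => hTK' (by
    rw [hT, Finset.mem_coe, Finset.mem_union]
    exact Or.inr (Finset.mem_image_of_mem _ (Finset.mem_univ i)))
  have hcK : ∀ x ∈ X, ∀ i, c x i ∈ K' := fun x hx i => hTK' (by
    rw [hT, Finset.mem_coe, Finset.mem_union, Finset.mem_biUnion]
    exact Or.inl ⟨x, hx, Finset.mem_image_of_mem _ (Finset.mem_univ i)⟩)
  obtain ⟨e', ω, hω⟩ := hθ.trans (sta8_powers hK'E hb haK hay)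
  refine ⟨MP1a953e.adj K' y, e', ω, ?_, ?_, hω⟩
  · exact adj_le (hK'E.trans (le_adj E y)) (mem_adj_self E y)
  · intro x hx
    rw [hcx x hx]
    refine (MP1a953e.adj K' y).sum_mem fun i _ => ?_
    exact (MP1a953e.adj K' y).mul_mem (le_adj K' y (hcK x hx i))
      ((MP1a953e.adj K' y).pow_mem (mem_adj_self K' y) _)

end MP1a953e
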