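import Pool.Agent.Lib.MP_1a953e_ag.Sta5
import Pool.Agent.Lib.MP_1a953e_ag.Sta8

/-!
# Module Sta9: Galois steps of degree p for directed unions
-/

namespace MP1a953e

open Polynomial

variable {Ω : Type*} [NormedField Ω]

/-- STA9a.  Norms stay dense in extensions; the class `TF` is nontrivially normed. -/
theorem DenseVal.mono {F F' : Subfield Ω} (h : DenseVal F) (hle : F ≤ F') : DenseVal F' := by
  intro a b ha hab
  obtain ⟨x, hx, h1, h2⟩ := h a b ha hab
  exact ⟨x, hle hx, h1, h2⟩

/-- a polynomial with coefficients in a smaller field -/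
private theorem sta9_lift {E K' : Subfield Ω} (g : Polynomial E)
    (hg : ∀ i, (g.coeff i : Ω) ∈ K') :
    ∃ g' : Polynomial K', g'.map (algebraMap K' Ω) = g.map (algebraMap E Ω) := by
  have h1 : g.map (algebraMap E Ω) ∈ Polynomial.lifts (algebraMap K' Ω) := by
    rw [Polynomial.lifts_iff_coeff_lifts]
    intro n
    rw [Polynomial.coeff_map]
    exact ⟨⟨(g.coeff n : Ω), hg n⟩, rfl⟩
  exact (Polynomial.mem_lifts _).1 h1

private theorem aeval_mem_adj' {K' : Subfield Ω} (z : Ω) (q : Polynomial K') :
    Polynomial.aeval z q ∈ IntermediateField.adjoin K' {z} := by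
  rw [Polynomial.aeval_eq_sum_range]
  exact sum_mem fun i _ => IntermediateField.smul_mem _
    (pow_mem (IntermediateField.mem_adjoin_simple_self K' z) i)

/-- STA9.  Proof.  Let `M = E⟮z⟯` (primitive element), `f` the minimal polynomial of `z` over `E`, of degree `p`,
with roots `z j = h j (z)`, `h j` polynomials over `E`. Let `X ⊆ M` be finite, its elements are
polynomials in `z` over `E`. Choose `K' ≤ E` with an orthogonal basis over `F` and containing all
coefficients of `f`, of the `h j` and of these polynomials (`Dir`). Then `f` is irreducible over `K'`, `K'(z)` contains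
all its roots, so it is Galois of degree `p` over `K'`, and `orthBasis_galois_p` (for `K'`: `TF.ext`,
`DenseVal.mono`) and `OrthBasis.trans` give the orthogonal basis over `F`; `K'(z) ≤ M`. -/
theorem Dir.galois_p [IsUltrametricDist Ω] [IsAlgClosed Ω] [CharZero Ω] {p : ℕ} [Fact p.Prime]
    (hp : ‖(p : Ω)‖ < 1) {k F : Subfield Ω} {n : ℕ} {s : Fin n → Ω} (hF : TF k F s)
    (hv : DenseVal F) {E : Subfield Ω} (h : Dir F E) (M : IntermediateField E Ω)
    [FiniteDimensional E M] [IsGalois E M] (hdeg : Module.finrank E M = p) :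
    Dir F M.toSubfield := by
  classical
  have hpp : p.Prime := Fact.out
  have hEM : ∀ x : Ω, x ∈ E → x ∈ M := fun x hx => M.algebraMap_mem ⟨x, hx⟩
  refine ⟨fun x hx => hEM x (h.1 hx), ?_⟩
  intro X hX
  -- a primitive element
  obtain ⟨α, hα⟩ := Field.exists_primitive_element E M
  obtain ⟨z, hz⟩ : ∃ z : Ω, z = (α : Ω) := ⟨_, rfl⟩
  have hzM : z ∈ M := by
    rw [hz]
    exact α.2
  have hMz : ∀ w : Ω, w ∈ M → w ∈ IntermediateField.adjoin E {z} := by
    intro w hw
    have h1 : (⟨w, hw⟩ : M) ∈ IntermediateField.adjoin E {α} := by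
      rw [hα]
      exact IntermediateField.mem_top
    have h2 : (M.val ⟨w, hw⟩) ∈ (IntermediateField.adjoin E {α}).map M.val :=
      (IntermediateField.mem_map _).2 ⟨_, h1, rfl⟩
    rw [IntermediateField.adjoin_map, Set.image_singleton] at h2
    rw [hz]
    exact h2
  have halgα : IsAlgebraic E α := Algebra.IsAlgebraic.isAlgebraic α
  have halgz : IsAlgebraic E z := by
    rw [hz]
    exact halgα.algebraMap (A := Ω)
  have hintz : IsIntegral E z := halgz.isIntegral
  have hpoly : ∀ w : Ω, ∃ g : Polynomial E, w ∈ M → Polynomial.aeval z g = w := by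
    intro w
    by_cases hw : w ∈ M
    · have h1 := hMz w hw
      rw [← IntermediateField.mem_toSubalgebra,
        IntermediateField.adjoin_simple_toSubalgebra_of_isAlgebraic halgz,
        Algebra.adjoin_singleton_eq_range_aeval] at h1
      obtain ⟨g, hg⟩ := h1
      exact ⟨g, fun _ => hg⟩
    · exact ⟨0, fun h => absurd h hw⟩
  choose g hg using hpoly
  obtain ⟨f, hf⟩ : ∃ f, f = minpoly E z := ⟨_, rfl⟩
  have hminα : minpoly E z = minpoly E α := by
    rw [hz]
    exact minpoly.algHom_eq M.val M.val.injective α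
  have hfdeg : f.natDegree = p := by
    rw [hf, hminα, ← IntermediateField.adjoin.finrank halgα.isIntegral, hα,
      IntermediateField.finrank_top', hdeg]
  have hfmonic : f.Monic := by
    rw [hf]
    exact minpoly.monic hintz
  -- the roots are in `M`
  have hrootM : ∀ ρ ∈ f.rootSet Ω, ρ ∈ M := by
    intro ρ hρ
    rw [Polynomial.mem_rootSet] at hρ
    have h1 : (f.map (algebraMap E M)).Splits := by
      rw [hf, hminα]
      exact (IsGalois.splits E α)
    have h2 : (f.map (algebraMap E M)).map (algebraMap M Ω) = f.map (algebraMap E Ω) := by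
      rw [Polynomial.map_map]
      rfl
    have h3 : ((f.map (algebraMap E M)).map (algebraMap M Ω)).IsRoot ρ := by
      rw [h2, Polynomial.IsRoot.def, Polynomial.eval_map]
      exact hρ.2
    obtain ⟨y, hy⟩ := (Polynomial.Splits.mem_range_of_isRoot h1
      ((Polynomial.map_ne_zero_iff (algebraMap E M).injective).2 hfmonic.ne_zero) h3)
    rw [← hy]
    exact y.2
  -- coefficients
  let cf : Polynomial E → Finset Ω := fun q =>
    (Finset.range (q.natDegree + 1)).image (fun i => (q.coeff i : Ω))
  have hcfE : ∀ q, ((cf q : Finset Ω) : Set Ω) ⊆ E := by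
    intro q w hw
    have hw' : w ∈ cf q := hw
    rw [Finset.mem_image] at hw'
    obtain ⟨i, -, rfl⟩ := hw'
    exact (q.coeff i).2
  let t : Finset Ω := cf f ∪ ((f.rootSet Ω).toFinset ∪ X).biUnion (fun w => cf (g w))
  have ht : (t : Set Ω) ⊆ E := by
    intro w hw
    have hw' : w ∈ t := hw
    rw [Finset.mem_union, Finset.mem_biUnion] at hw'
    rcases hw' with hw' | ⟨x, -, hw'⟩
    · exact hcfE f hw'
    · exact hcfE (g x) hw'
  obtain ⟨K', d, θ, hK'E, htK', hθ⟩ := h.2 t ht
  have hcoef : ∀ q : Polynomial E, (∀ w ∈ cf q, w ∈ t) → ∀ i, (q.coeff i : Ω) ∈ K' := by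
    intro q hq i
    by_cases hi : i < q.natDegree + 1
    · exact htK' (hq _ (Finset.mem_image_of_mem _ (Finset.mem_range.2 hi)))
    · rw [Polynomial.coeff_eq_zero_of_natDegree_lt (by omega)]
      exact K'.zero_mem
  obtain ⟨f', hf'⟩ := sta9_lift f (hcoef f fun w hw => Finset.mem_union_left _ hw)
  have hg' : ∀ w : Ω, w ∈ (f.rootSet Ω).toFinset ∪ X → w ∈ M →
      w ∈ IntermediateField.adjoin K' {z} := by
    intro w hw hwM
    obtain ⟨g', hg'⟩ := sta9_lift (g w) (hcoef (g w) fun v hv =>
      Finset.mem_union_right _ (Finset.mem_biUnion.2 ⟨w, hw, hv⟩))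
    have h1 : Polynomial.aeval z g' = w := by
      have h2 := hg w hwM
      rw [Polynomial.aeval_def, ← Polynomial.eval_map] at h2 ⊢
      rw [hg', h2]
    rw [← h1]
    exact aeval_mem_adj' z g'
  have hzf' : Polynomial.aeval z f' = 0 := by
    rw [Polynomial.aeval_def, ← Polynomial.eval_map, hf', Polynomial.eval_map,
      ← Polynomial.aeval_def, hf, minpoly.aeval]
  have hf'monic : f'.Monic := by
    apply Polynomial.monic_of_injective (algebraMap K' Ω).injective
    rw [hf']
    exact hfmonic.map _
  have hf'deg : f'.natDegree = p := by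
    rw [← hfdeg, ← Polynomial.natDegree_map (algebraMap K' Ω) (p := f'), hf',
      Polynomial.natDegree_map]
  have hintz' : IsIntegral K' z := ⟨f', hf'monic, hzf'⟩
  have hmindeg : (minpoly K' z).natDegree = p := by
    apply le_antisymm
    · rw [← hf'deg]
      exact Polynomial.natDegree_le_of_dvd (minpoly.dvd K' z hzf') hf'monic.ne_zero
    · have h1 : f ∣ (minpoly K' z).map (Subfield.inclusion hK'E) := by
        rw [hf]
        apply minpoly.dvd
        rw [Polynomial.aeval_def, Polynomial.eval₂_map]
        exact minpoly.aeval K' z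
      have h2 : (minpoly K' z).map (Subfield.inclusion hK'E) ≠ 0 :=
        (Polynomial.map_ne_zero_iff (Subfield.inclusion hK'E).injective).2
          (minpoly.ne_zero hintz')
      have h3 := Polynomial.natDegree_le_of_dvd h1 h2
      rwa [Polynomial.natDegree_map, hfdeg] at h3
  -- the field generated by `z` over `K'`
  have hadj : IntermediateField.adjoin K' (f'.rootSet Ω) = IntermediateField.adjoin K' {z} := by
    apply le_antisymm
    · rw [IntermediateField.adjoin_le_iff]
      intro ρ hρ
      have hρ' : ρ ∈ f.rootSet Ω := by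
        rw [Polynomial.mem_rootSet] at hρ ⊢
        refine ⟨hfmonic.ne_zero, ?_⟩
        have h1 := hρ.2
        rw [Polynomial.aeval_def, ← Polynomial.eval_map] at h1 ⊢
        rw [← hf', h1]
      exact hg' ρ (Finset.mem_union_left _ (Set.mem_toFinset.2 hρ')) (hrootM ρ hρ')
    · rw [IntermediateField.adjoin_le_iff]
      intro w hw
      rw [Set.mem_singleton_iff] at hw
      rw [hw]
      apply IntermediateField.subset_adjoin
      rw [Polynomial.mem_rootSet]
      exact ⟨hf'monic.ne_zero, hzf'⟩
  have hnorm : Normal K' (IntermediateField.adjoin K' {z}) := by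
    rw [← hadj]
    have h1 : Polynomial.IsSplittingField K'
        (IntermediateField.adjoin K' (f'.rootSet Ω)) f' :=
      IntermediateField.adjoin_rootSet_isSplittingField (IsAlgClosed.splits _)
    exact Normal.of_isSplittingField f'
  have hfd : FiniteDimensional K' (IntermediateField.adjoin K' {z}) :=
    IntermediateField.adjoin.finiteDimensional hintz'
  have hch : CharZero K' := (algebraMap K' Ω).charZero
  have hgal : IsGalois K' (IntermediateField.adjoin K' {z}) := ⟨⟩
  obtain ⟨d', θ', hθ'⟩ := orthBasis_galois_p hp (hF.ext hθ) (hv.mono hθ.le)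
    (IntermediateField.adjoin K' {z}) (by rw [IntermediateField.adjoin.finrank hintz', hmindeg])
  obtain ⟨e, ω, hω⟩ := hθ.trans hθ'
  refine ⟨(IntermediateField.adjoin K' {z}).toSubfield, e, ω, ?_, ?_, hω⟩
  · let _ : Algebra K' E := (Subfield.inclusion hK'E).toAlgebra
    have hst : IsScalarTower K' E Ω := IsScalarTower.of_algebraMap_eq (fun _ => rfl)
    have h1 : IntermediateField.adjoin K' {z} ≤ M.restrictScalars K' := by
      rw [IntermediateField.adjoin_le_iff]
      intro w hw
      rw [Set.mem_singleton_iff] at hw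
      rw [hw]
      exact hzM
    exact h1
  · intro w hw
    exact hg' w (Finset.mem_union_right _ hw) (hX hw)

end MP1a953e
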