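import Pool.Agent.Lib.MP_1a953e_ag.Sta1
import Pool.Agent.Lib.MP_1a953e_ag.Sta6
import Pool.Agent.Lib.MP_1a953e_ag.Sta7
import Pool.Agent.Lib.MP_1a953e_ag.Sta9

/-!
# Module Sta10: stability
-/

namespace MP1a953e

open Polynomial

variable {Ω : Type*} [NormedField Ω]

/-- STA10 (stability).  Every finite set of algebraic elements lies in a finite extension with an orthogonal
basis.  Proof.  Let `E` be maximal with `Dir F E` (`exists_maximal_dir`); `E` is algebraic over `F`.
(1) Every nonzero `x` algebraic over `E` has `c ∈ E` with `‖x - c‖ < ‖x‖`: otherwise choose such a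
counterexample `y` (`‖y‖ ≤ ‖y - c‖` for all `c ∈ E`) of minimal degree `d + 1` over `E`; by
`orthBasis_of_min` and `Dir.adj`, `Dir F (adj E y)`, so `adj E y = E`, `y ∈ E`, and `c = y` is a
contradiction (`y ≠ 0`). (2) By `eq_bot_of_prime_to_p`, `E` has no finite extension of degree
`> 1` prime to `p`. (3) If some `z` algebraic over `E` is not in `E`, `exists_galois_p` gives `M/E` Galois
of degree `p`, `Dir.galois_p` gives `Dir F M`, so `M = E`, a contradiction. So all elements
algebraic over `F` are in `E`. -/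
theorem stable [IsUltrametricDist Ω] [IsAlgClosed Ω] [CharZero Ω] {p : ℕ} [Fact p.Prime]
    (hp : ‖(p : Ω)‖ < 1) {k F : Subfield Ω} {n : ℕ} {s : Fin n → Ω} (hF : TF k F s)
    (hv : DenseVal F) (X : Finset Ω) (hX : ∀ x ∈ X, IsAlgebraic F x) :
    ∃ (F' : Subfield Ω) (d : ℕ) (θ : Fin (d + 1) → Ω), OrthBasis F F' θ ∧
      ∀ x ∈ X, x ∈ F' := by
  have hpp : p.Prime := Fact.out
  obtain ⟨E, hE, hmax⟩ := exists_maximal_dir F
  have halg : ∀ x ∈ E, IsAlgebraic F x := by
    intro x hx
    obtain ⟨K', d, θ, -, hxK, hθ⟩ := hE.2 {x} (by simpa using hx)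
    exact hθ.isAlgebraic (hxK (by simp))
  -- (1) approximation
  have happ' : ∀ (m : ℕ) (y : Ω), (minpoly E y).natDegree = m → IsAlgebraic E y → y ≠ 0 →
      ∃ c ∈ E, ‖y - c‖ < ‖y‖ := by
    intro m
    induction m using Nat.strong_induction_on with
    | _ m ih =>
      intro y hm hy hy0
      by_contra hcon
      push Not at hcon
      have hpos : 0 < (minpoly E y).natDegree := minpoly.natDegree_pos hy.isIntegral
      obtain ⟨d, hd⟩ : ∃ d, (minpoly E y).natDegree = d + 1 :=
        ⟨(minpoly E y).natDegree - 1, by omega⟩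
      have hb := orthBasis_of_min hy hcon hd (fun β hβ hβd hβ0 =>
        ih (minpoly E β).natDegree (by omega) β rfl hβ hβ0)
      have hD := hE.adj hy hd hb
      have heq := hmax _ hD (le_adj E y)
      have hyE : y ∈ E := by
        have h1 := mem_adj_self E y
        rwa [heq] at h1
      have h2 := hcon y hyE
      rw [sub_self, norm_zero] at h2
      exact hy0 (norm_le_zero_iff.1 h2)
  have happ : ∀ x : Ω, IsAlgebraic E x → x ≠ 0 → ∃ c ∈ E, ‖x - c‖ < ‖x‖ :=
    fun x hx hx0 => happ' _ x rfl hx hx0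
  -- (2) no extensions of degree prime to `p`
  have hnt : ∃ x ∈ F, 1 < ‖x‖ := by
    obtain ⟨x, hx, h1, -⟩ := hv 1 2 one_pos one_lt_two
    exact ⟨x, hx, h1⟩
  have hnone : ∀ M : IntermediateField E Ω, FiniteDimensional E M →
      ¬ p ∣ Module.finrank E M → M = ⊥ := by
    intro M hM hdeg
    exact eq_bot_of_prime_to_p hp hF.complete hnt hE.1 halg happ M hdeg
  -- (3) `E` is algebraically closed
  have hclosed : ∀ z : Ω, IsAlgebraic E z → z ∈ E := by
    intro z hz
    by_contra hzE
    have hch : CharZero E := (algebraMap E Ω).charZero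
    have hzb : z ∉ (⊥ : IntermediateField E Ω) := by
      intro h
      rw [IntermediateField.mem_bot] at h
      obtain ⟨y, hy⟩ := h
      apply hzE
      rw [← hy]
      exact y.2
    obtain ⟨M, hM1, hM2, hM3⟩ := exists_galois_p hnone hz hzb
    have hD := Dir.galois_p hp hF hv hE M hM3
    have heq := hmax _ hD (fun x hx => M.algebraMap_mem ⟨x, hx⟩)
    have hMbot : M = ⊥ := by
      rw [eq_bot_iff]
      intro x hx
      rw [IntermediateField.mem_bot]
      have h1 : x ∈ M.toSubfield := hx
      rw [heq] at h1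
      exact ⟨⟨x, h1⟩, rfl⟩
    rw [hMbot, IntermediateField.finrank_bot] at hM3
    exact hpp.one_lt.ne hM3
  -- (4) conclusion
  have hXE : ∀ x ∈ X, x ∈ E := by
    intro x hx
    apply hclosed
    let _ : Algebra F E := (Subfield.inclusion hE.1).toAlgebra
    have hst : IsScalarTower F E Ω := IsScalarTower.of_algebraMap_eq (fun _ => rfl)
    exact (hX x hx).tower_top E
  obtain ⟨K', d, θ, -, hXK, hθ⟩ := hE.2 X (fun x hx => hXE x hx)
  exact ⟨K', d, θ, hθ, fun x hx => hXK hx⟩

end MP1a953e
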