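import Pool.Agent.Lib.MP_1a953e_ag.LUDefs

/-!
# Module Sm2: etale step
-/

namespace MP1a953e

open Polynomial

variable {R L : Type*} [CommRing R] [Field L] [Algebra R L]

/-- the standard étale pair `(H, H')` -/
private noncomputable def pairOf {B : Type*} [CommRing B] (H : Polynomial B) (hH : H.Monic) :
    StandardEtalePair B where
  f := H
  monic_f := hH
  g := derivative H
  cond := ⟨1, 0, 1, by ring⟩

/-- elements of the standard étale algebra are fractions -/
private theorem pair_surj {B : Type*} [CommRing B] (P : StandardEtalePair B) (x : P.Ring) :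
    ∃ (n : ℕ) (G : Polynomial B), x * (aeval P.X P.g) ^ n = aeval P.X G := by
  obtain ⟨n, a, ha⟩ := IsLocalization.Away.surj (AdjoinRoot.mk P.f P.g) (P.equivAwayAdjoinRoot x)
  obtain ⟨G, rfl⟩ := AdjoinRoot.mk_surjective a
  refine ⟨n, G, ?_⟩
  apply P.equivAwayAdjoinRoot.injective
  have h1 : ∀ Q : Polynomial B, P.equivAwayAdjoinRoot (aeval P.X Q) =
      algebraMap (AdjoinRoot P.f) (Localization.Away (AdjoinRoot.mk P.f P.g))
        (AdjoinRoot.mk P.f Q) := by
    intro Q
    have h2 : P.equivAwayAdjoinRoot.toAlgHom P.X =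
        algebraMap (AdjoinRoot P.f) (Localization.Away (AdjoinRoot.mk P.f P.g))
          (AdjoinRoot.root P.f) := by
      simp only [StandardEtalePair.equivAwayAdjoinRoot]
      refine P.lift_X _ ⟨?_, ?_⟩
      · rw [aeval_algebraMap_apply, AdjoinRoot.aeval_eq, AdjoinRoot.mk_self, map_zero]
      · rw [aeval_algebraMap_apply, AdjoinRoot.aeval_eq]
        exact IsLocalization.Away.algebraMap_isUnit ..
    have h3 := aeval_algHom_apply P.equivAwayAdjoinRoot.toAlgHom P.X Q
    rw [h2, aeval_algebraMap_apply, AdjoinRoot.aeval_eq] at h3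
    exact h3.symm
  rw [map_mul, map_pow, h1, h1, ha]

/-- SM3.  Standard étale extension.  `B[ζ] ≃ B[X]/(H)` by `hmin` and division by the monic polynomial `H`;
`B ⊔ adjoin R {ζ, H'(ζ)⁻¹}` is the localization of `B[ζ]` at `H'(ζ)`, i.e. the ring of the
`StandardEtalePair` with `f = H`, `g = H'` (Mathlib: `StandardEtalePair.equivAwayAdjoinRoot`, it is étale
over `B`, hence smooth). -/
theorem smooth_adjoin_etale (B : Subalgebra R L) (hB : Algebra.Smooth R B) {ζ : L}
    (H : Polynomial B) (hH : H.Monic) (hζ : aeval ζ H = 0)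
    (hmin : ∀ G : Polynomial B, aeval ζ G = 0 → H ∣ G) (hder : aeval ζ (derivative H) ≠ 0) :
    Algebra.Smooth R ↥(B ⊔ Algebra.adjoin R {ζ, (aeval ζ (derivative H))⁻¹}) := by
  set P : StandardEtalePair B := pairOf H hH with hP
  have hPf : P.f = H := rfl
  have hPg : P.g = derivative H := rfl
  have hmap : P.HasMap ζ := ⟨hζ, by rw [hPg]; exact IsUnit.mk0 _ hder⟩
  let _ : Algebra R P.Ring := ((algebraMap B P.Ring).comp (algebraMap R B)).toAlgebra
  have : IsScalarTower R B P.Ring := IsScalarTower.of_algebraMap_eq fun x => rfl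
  have : Algebra.Smooth R P.Ring := Algebra.Smooth.comp R B P.Ring
  set φ : P.Ring →ₐ[B] L := P.lift ζ hmap with hφ
  have hφX : φ P.X = ζ := P.lift_X ζ hmap
  have hφG : ∀ G : Polynomial B, φ (aeval P.X G) = aeval ζ G := by
    intro G
    rw [← aeval_algHom_apply, hφX]
  set u : P.Ring := aeval P.X P.g with hu
  have huu : IsUnit u := P.hasMap_X.2
  have hφu : φ u = aeval ζ (derivative H) := hφG _
  have hinj : Function.Injective φ := by
    rw [injective_iff_map_eq_zero]
    intro x hx
    obtain ⟨n, G, hG⟩ := pair_surj P x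
    have h1 : aeval ζ G = 0 := by
      rw [← hφG, ← hG, map_mul, hx, zero_mul]
    obtain ⟨Q, rfl⟩ := hmin G h1
    have h2 : aeval P.X H = 0 := P.hasMap_X.1
    rw [map_mul, h2, zero_mul] at hG
    exact (huu.pow n).mul_left_eq_zero.1 hG
  set ψ : P.Ring →ₐ[R] L := φ.restrictScalars R with hψ
  have hψφ : ∀ x, ψ x = φ x := fun x => rfl
  have hrange : ψ.range = B ⊔ Algebra.adjoin R {ζ, (aeval ζ (derivative H))⁻¹} := by
    apply le_antisymm
    · rintro _ ⟨x, rfl⟩
      obtain ⟨n, G, hG⟩ := pair_surj P x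
      have h1 : φ x * (aeval ζ (derivative H)) ^ n = aeval ζ G := by
        rw [← hφu, ← map_pow, ← map_mul, ← hφG]
        exact congrArg φ hG
      have h2 : φ x = aeval ζ G * ((aeval ζ (derivative H))⁻¹) ^ n := by
        rw [← h1, mul_assoc, ← mul_pow, mul_inv_cancel₀ hder, one_pow, mul_one]
      show φ x ∈ B ⊔ Algebra.adjoin R {ζ, (aeval ζ (derivative H))⁻¹}
      rw [h2]
      refine Subalgebra.mul_mem _ ?_ (Subalgebra.pow_mem _ ?_ n)
      · have h4 : aeval ζ G = ∑ i ∈ Finset.range (G.natDegree + 1), G.coeff i • ζ ^ i :=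
          aeval_eq_sum_range ζ
        rw [h4]
        refine Subalgebra.sum_mem (B ⊔ Algebra.adjoin R {ζ, (aeval ζ (derivative H))⁻¹})
          fun i _ => ?_
        rw [Algebra.smul_def]
        refine Subalgebra.mul_mem _ ?_ (Subalgebra.pow_mem _ ?_ i)
        · exact (le_sup_left : B ≤ B ⊔ Algebra.adjoin R {ζ, (aeval ζ (derivative H))⁻¹})
            (G.coeff i).2
        · exact (le_sup_right : Algebra.adjoin R {ζ, (aeval ζ (derivative H))⁻¹} ≤
              B ⊔ Algebra.adjoin R {ζ, (aeval ζ (derivative H))⁻¹})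
            (Algebra.subset_adjoin (by simp))
      · exact (le_sup_right : Algebra.adjoin R {ζ, (aeval ζ (derivative H))⁻¹} ≤
            B ⊔ Algebra.adjoin R {ζ, (aeval ζ (derivative H))⁻¹})
          (Algebra.subset_adjoin (by simp))
    · refine sup_le ?_ (Algebra.adjoin_le ?_)
      · intro b hb
        exact ⟨algebraMap B P.Ring ⟨b, hb⟩, by
          show φ (algebraMap B P.Ring ⟨b, hb⟩) = b
          rw [φ.commutes]
          rfl⟩
      · intro y hy
        rcases hy with rfl | hy
        · exact ⟨P.X, hφX⟩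
        · rw [Set.mem_singleton_iff] at hy
          obtain ⟨v, hv⟩ := huu.exists_right_inv
          refine ⟨v, ?_⟩
          show φ v = y
          rw [hy]
          have h3 : φ u * φ v = 1 := by rw [← map_mul, hv, map_one]
          rw [hφu] at h3
          exact eq_inv_of_mul_eq_one_right h3
  have hψinj : Function.Injective ψ := hinj
  exact Algebra.Smooth.of_equiv
    ((AlgEquiv.ofInjective ψ hψinj).trans (Subalgebra.equivOfEq _ _ hrange))

end MP1a953e
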