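import Pool.Agent.Lib.MP_1a953e_ag.LUDefs

/-!
# Module Sm3: h-adic expansions
-/

namespace MP1a953e

open Polynomial

/-- SM4.  `h`-adic expansions are unique: if `h` is monic of degree `d ≥ 1`, `ϖ ≠ 0`, and
`∑_{i < d} R i (h / ϖ) * X ^ i = 0`, then all `R i = 0`.  Proof: the nonzero terms have degree
`d * deg (R i) + i`, which are distinct modulo `d`, so no cancellation is possible. -/
theorem hadic_unique {M : Type*} [Field M] {h : Polynomial M} (hh : h.Monic) {d : ℕ} (hd : 0 < d)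
    (hdeg : h.natDegree = d) {ϖ : M} (hϖ : ϖ ≠ 0) (R : Fin d → Polynomial M)
    (hR : ∑ i, (R i).comp (C ϖ⁻¹ * h) * X ^ (i : ℕ) = 0) : ∀ i, R i = 0 := by
  classical
  by_contra hcon
  push Not at hcon
  set S : Finset (Fin d) := Finset.univ.filter fun i => R i ≠ 0 with hS
  have hSne : S.Nonempty := by
    obtain ⟨i, hi⟩ := hcon
    exact ⟨i, by simp [hS, hi]⟩
  have hϖ' : ϖ⁻¹ ≠ 0 := inv_ne_zero hϖ
  have hh0 : h ≠ 0 := hh.ne_zero
  have hgd : (C ϖ⁻¹ * h).natDegree = d := by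
    rw [natDegree_C_mul hϖ', hdeg]
  have hcomp : ∀ i, R i ≠ 0 → (R i).comp (C ϖ⁻¹ * h) ≠ 0 := by
    intro i hi h0
    rw [comp_eq_zero_iff] at h0
    rcases h0 with h1 | ⟨_, h2⟩
    · exact hi h1
    · have h3 := congrArg natDegree h2
      rw [hgd, natDegree_C] at h3
      omega
  have hterm : ∀ i, R i ≠ 0 →
      ((R i).comp (C ϖ⁻¹ * h) * X ^ (i : ℕ)).natDegree = (R i).natDegree * d + i := by
    intro i hi
    rw [natDegree_mul (hcomp i hi) (pow_ne_zero _ X_ne_zero), natDegree_comp, hgd, natDegree_X_pow]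
  obtain ⟨i0, hi0, hmax⟩ := S.exists_max_image (fun i => (R i).natDegree * d + (i : ℕ)) hSne
  have hi0' : R i0 ≠ 0 := (Finset.mem_filter.1 hi0).2
  have hlt : ∀ i ∈ S, i ≠ i0 → (R i).natDegree * d + (i : ℕ) < (R i0).natDegree * d + (i0 : ℕ) := by
    intro i hi hne
    refine lt_of_le_of_ne (hmax i hi) fun heq => hne ?_
    have h1 : ((R i).natDegree * d + (i : ℕ)) % d = ((R i0).natDegree * d + (i0 : ℕ)) % d := by
      rw [heq]
    rw [Nat.mul_add_mod_self_right, Nat.mul_add_mod_self_right, Nat.mod_eq_of_lt i.2,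
      Nat.mod_eq_of_lt i0.2] at h1
    exact Fin.ext h1
  have h4 : (∑ i, (R i).comp (C ϖ⁻¹ * h) * X ^ (i : ℕ)).coeff
      ((R i0).natDegree * d + (i0 : ℕ)) ≠ 0 := by
    rw [finsetSum_coeff, Finset.sum_eq_single i0]
    · rw [← hterm i0 hi0']
      exact leadingCoeff_ne_zero.2 (mul_ne_zero (hcomp i0 hi0') (pow_ne_zero _ X_ne_zero))
    · intro i _ hne
      by_cases hi : R i = 0
      · rw [hi, zero_comp, zero_mul, coeff_zero]
      · refine coeff_eq_zero_of_natDegree_lt ?_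
        rw [hterm i hi]
        exact hlt i (Finset.mem_filter.2 ⟨Finset.mem_univ _, hi⟩) hne
    · intro h5
      exact absurd (Finset.mem_univ _) h5
  rw [hR, coeff_zero] at h4
  exact h4 rfl

end MP1a953e
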