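import Pool.Agent.Lib.MP_1a953e_ag.Sm1
import Pool.Agent.Lib.MP_1a953e_ag.Sm2
import Pool.Agent.Lib.MP_1a953e_ag.Sm3

/-!
# Module LU1: charts
-/

set_option linter.unusedSectionVars false

namespace MP1a953e

open Polynomial

section gen

variable {k L : Type*} [NontriviallyNormedField k] [IsUltrametricDist k]
variable [NormedField L] [IsUltrametricDist L] [NormedAlgebra k L]

theorem lu1_norm_add {x y : L} {r : ℝ} (hx : ‖x‖ ≤ r) (hy : ‖y‖ ≤ r) : ‖x + y‖ ≤ r :=
  (IsUltrametricDist.norm_add_le_max x y).trans (max_le hx hy)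

theorem lu1_norm_sum {ι : Type*} (s : Finset ι) (f : ι → L) {r : ℝ} (hr : 0 ≤ r)
    (h : ∀ i ∈ s, ‖f i‖ ≤ r) : ‖∑ i ∈ s, f i‖ ≤ r := by
  classical
  induction s using Finset.induction_on with
  | empty => simpa using hr
  | insert a s ha ih =>
    rw [Finset.sum_insert ha]
    exact lu1_norm_add (h a (Finset.mem_insert_self a s))
      (ih (fun i hi => h i (Finset.mem_insert_of_mem hi)))

theorem lu1_norm_sum_lt {ι : Type*} (s : Finset ι) (f : ι → L) {r : ℝ} (hr : 0 < r)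
    (h : ∀ i ∈ s, ‖f i‖ < r) : ‖∑ i ∈ s, f i‖ < r := by
  classical
  induction s using Finset.induction_on with
  | empty => simpa using hr
  | insert a s ha ih =>
    rw [Finset.sum_insert ha]
    exact (IsUltrametricDist.norm_add_le_max _ _).trans_lt
      (max_lt (h a (Finset.mem_insert_self a s))
      (ih (fun i hi => h i (Finset.mem_insert_of_mem hi))))

theorem lu1_norm_add_lt {x y : L} (h : ‖y‖ < ‖x‖) : ‖x + y‖ = ‖x‖ := by
  have := IsUltrametricDist.norm_add_eq_max_of_norm_ne_norm (x := x) (y := y) (ne_of_gt h)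
  rw [this, max_eq_left h.le]

theorem lu1_algebraMap_O (x : O k) : algebraMap (O k) L x = algebraMap k L (x : k) := rfl

variable (k L) in
/-- the unit ball of `L`, an algebra over the unit ball of `k` -/
noncomputable def lu1Ball : Subalgebra (O k) L where
  carrier := {x | ‖x‖ ≤ 1}
  mul_mem' := by
    intro a b ha hb
    simp only [Set.mem_ofPred_eq] at *
    rw [norm_mul]
    exact mul_le_one₀ ha (norm_nonneg b) hb
  add_mem' := by
    intro a b ha hb
    exact lu1_norm_add ha hb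
  algebraMap_mem' := by
    intro r
    simp only [Set.mem_ofPred_eq]
    rw [lu1_algebraMap_O, norm_algebraMap']
    exact mem_O.1 r.2

theorem mem_lu1Ball {x : L} : x ∈ lu1Ball k L ↔ ‖x‖ ≤ 1 := Iff.rfl

/-- the localization `A[1/D]` inside `L` -/
noncomputable def lu1Loc (A : Subalgebra k L) (D : L) (hD : D ∈ A) : Subalgebra k L where
  carrier := {x | ∃ N : ℕ, x * D ^ N ∈ A}
  mul_mem' := by
    rintro a b ⟨N, hN⟩ ⟨M, hM⟩
    refine ⟨N + M, ?_⟩
    have h := A.mul_mem hN hM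
    rw [show a * b * D ^ (N + M) = a * D ^ N * (b * D ^ M) by ring]
    exact h
  add_mem' := by
    rintro a b ⟨N, hN⟩ ⟨M, hM⟩
    refine ⟨N + M, ?_⟩
    have h1 := A.mul_mem hN (A.pow_mem hD M)
    have h2 := A.mul_mem hM (A.pow_mem hD N)
    rw [show (a + b) * D ^ (N + M) = a * D ^ N * D ^ M + b * D ^ M * D ^ N by ring]
    exact A.add_mem h1 h2
  algebraMap_mem' := fun r => ⟨0, by simp⟩

theorem mem_lu1Loc {A : Subalgebra k L} {D : L} {hD : D ∈ A} {x : L} :
    x ∈ lu1Loc A D hD ↔ ∃ N : ℕ, x * D ^ N ∈ A := Iff.rfl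

theorem le_lu1Loc {A : Subalgebra k L} {D : L} (hD : D ∈ A) : A ≤ lu1Loc A D hD :=
  fun x hx => ⟨0, by simpa using hx⟩

theorem lu1Loc_mono {A : Subalgebra k L} {D e : L} (hD : D ∈ A) (he : e ∈ A) :
    lu1Loc A D hD ≤ lu1Loc A (D * e) (A.mul_mem hD he) := by
  rintro x ⟨N, hN⟩
  refine ⟨N, ?_⟩
  rw [mul_pow, ← mul_assoc]
  exact A.mul_mem hN (A.pow_mem he N)

theorem unitUpTo_mono {B B' : Subalgebra (O k) L} (h : B ≤ B') {z : L} (hz : UnitUpTo k B z) :
    UnitUpTo k B' z := by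
  obtain ⟨c, hc, w, hw, hw0, hw', hz⟩ := hz
  exact ⟨c, hc, w, h hw, hw0, h hw', hz⟩

theorem unitUpTo_mul {B : Subalgebra (O k) L} {y z : L} (hy : UnitUpTo k B y)
    (hz : UnitUpTo k B z) : UnitUpTo k B (y * z) := by
  obtain ⟨c, hc, w, hw, hw0, hw', rfl⟩ := hy
  obtain ⟨c', hc', v, hv, hv0, hv', rfl⟩ := hz
  refine ⟨c * c', mul_ne_zero hc hc', w * v, B.mul_mem hw hv, mul_ne_zero hw0 hv0, ?_, ?_⟩
  · rw [mul_inv]
    exact B.mul_mem hw' hv'
  · rw [map_mul]; ring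

theorem unitUpTo_pow {B : Subalgebra (O k) L} {y : L} (hy : UnitUpTo k B y) (n : ℕ) :
    UnitUpTo k B (y ^ n) := by
  induction n with
  | zero => exact ⟨1, one_ne_zero, 1, B.one_mem, one_ne_zero, by simp, by simp⟩
  | succ n ih => rw [pow_succ]; exact unitUpTo_mul ih hy

theorem unitUpTo_of_mem {B : Subalgebra (O k) L} {y : L} (hy : y ∈ B) (h0 : y ≠ 0)
    (hy' : y⁻¹ ∈ B) : UnitUpTo k B y :=
  ⟨1, one_ne_zero, y, hy, h0, hy', by simp⟩

/-- elements of `B[t]` are polynomials in `t` -/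
theorem exists_poly_of_mem_sup {R : Type*} [CommRing R] [Algebra R L] (B : Subalgebra R L) (t : L)
    {x : L} (hx : x ∈ B ⊔ Algebra.adjoin R {t}) : ∃ P : Polynomial B, aeval t P = x := by
  have : B ⊔ Algebra.adjoin R {t} ≤
      ((aeval t : Polynomial B →ₐ[B] L).restrictScalars R).range := by
    refine sup_le ?_ (Algebra.adjoin_le ?_)
    · intro b hb
      exact ⟨C ⟨b, hb⟩, by simp⟩
    · intro y hy
      rw [Set.mem_singleton_iff] at hy
      subst hy
      exact ⟨X, by simp⟩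
  obtain ⟨P, hP⟩ := this hx
  exact ⟨P, hP⟩

end gen

section chart

variable {k L : Type*} [NontriviallyNormedField k] [IsUltrametricDist k]
variable [NormedField L] [IsUltrametricDist L] [NormedAlgebra k L]
variable {m : ℕ} {u : Fin m → L}

theorem lu1_aeval_inj
    (hg : ∀ (P : MvPolynomial (Fin m) k) (s : Fin m →₀ ℕ), ‖P.coeff s‖ ≤ ‖MvPolynomial.aeval u P‖) :
    Function.Injective (MvPolynomial.aeval u : MvPolynomial (Fin m) k →ₐ[k] L) := by
  rw [injective_iff_map_eq_zero]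
  intro P hP
  ext s
  have := hg P s
  rw [hP, norm_zero] at this
  simpa using this

theorem lu1_aeval_map (P : MvPolynomial (Fin m) (O k)) :
    (MvPolynomial.aeval u (MvPolynomial.map (algebraMap (O k) k) P) : L) =
      MvPolynomial.aeval u P := by
  rw [MvPolynomial.aeval_map_algebraMap]

theorem lu1_aeval_inj_O
    (hg : ∀ (P : MvPolynomial (Fin m) k) (s : Fin m →₀ ℕ), ‖P.coeff s‖ ≤ ‖MvPolynomial.aeval u P‖) :
    Function.Injective (MvPolynomial.aeval u : MvPolynomial (Fin m) (O k) →ₐ[O k] L) := by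
  rw [injective_iff_map_eq_zero]
  intro P hP
  have h1 : MvPolynomial.aeval u (MvPolynomial.map (algebraMap (O k) k) P) = 0 := by
    rw [lu1_aeval_map, hP]
  have h2 := (injective_iff_map_eq_zero _).1 (lu1_aeval_inj hg) _ h1
  have h3 : Function.Injective (algebraMap (O k) k) := Subtype.coe_injective
  exact (injective_iff_map_eq_zero _).1 (MvPolynomial.map_injective _ h3) _ h2

variable (k u) in
/-- the polynomial ring `O k [u]` -/
noncomputable def lu1B : Subalgebra (O k) L :=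
  (MvPolynomial.aeval u : MvPolynomial (Fin m) (O k) →ₐ[O k] L).range

theorem lu1B_smooth
    (hg : ∀ (P : MvPolynomial (Fin m) k) (s : Fin m →₀ ℕ), ‖P.coeff s‖ ≤ ‖MvPolynomial.aeval u P‖) :
    Algebra.Smooth (O k) (lu1B k u) := by
  have : Algebra.Smooth (O k) (MvPolynomial (Fin m) (O k)) := ⟨inferInstance, inferInstance⟩
  exact Algebra.Smooth.of_equiv (AlgEquiv.ofInjective _ (lu1_aeval_inj_O hg))

theorem u_mem_lu1B (i : Fin m) : u i ∈ lu1B k u := ⟨MvPolynomial.X i, by simp⟩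

theorem aeval_mem_lu1B (P : MvPolynomial (Fin m) k) (hP : ∀ s, ‖P.coeff s‖ ≤ 1) :
    MvPolynomial.aeval u P ∈ lu1B k u := by
  rw [MvPolynomial.as_sum P, map_sum]
  refine Subalgebra.sum_mem _ (fun s _ => ?_)
  rw [MvPolynomial.aeval_monomial]
  refine Subalgebra.mul_mem _ ?_ ?_
  · exact (lu1B k u).algebraMap_mem (⟨P.coeff s, mem_O.2 (hP s)⟩ : O k)
  · exact Subalgebra.prod_mem _ (fun i _ => Subalgebra.pow_mem _ (u_mem_lu1B i) _)

theorem lu1B_le_ball (hu : ∀ i, ‖u i‖ ≤ 1) : lu1B k u ≤ lu1Ball k L := by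
  rintro x ⟨P, rfl⟩
  rw [MvPolynomial.as_sum P]
  simp only [RingHom.coe_coe, AlgHom.toRingHom_eq_coe, map_sum]
  refine Subalgebra.sum_mem _ (fun s _ => ?_)
  rw [MvPolynomial.aeval_monomial]
  refine Subalgebra.mul_mem _ ?_ ?_
  · exact (lu1Ball k L).algebraMap_mem _
  · exact Subalgebra.prod_mem _ (fun i _ => Subalgebra.pow_mem _ (mem_lu1Ball.2 (hu i)) _)

theorem lu1B_mem_adjoin {x : L} (hx : x ∈ lu1B k u) : x ∈ Algebra.adjoin k (Set.range u) := by
  obtain ⟨P, rfl⟩ := hx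
  simp only [RingHom.coe_coe, AlgHom.toRingHom_eq_coe]
  rw [← lu1_aeval_map, Algebra.adjoin_range_eq_range_aeval]
  exact ⟨_, rfl⟩

theorem lu1_fraction
    (hg : ∀ (P : MvPolynomial (Fin m) k) (s : Fin m →₀ ℕ), ‖P.coeff s‖ ≤ ‖MvPolynomial.aeval u P‖)
    (hval : ∀ x : L, ∃ c : k, ‖c‖ = ‖x‖) {x : L}
    (hx : x ∈ IntermediateField.adjoin k (Set.range u)) (hx1 : ‖x‖ ≤ 1) :
    ∃ q ∈ lu1B k u, ‖q‖ = 1 ∧ x * q ∈ lu1B k u := by
  rw [IntermediateField.mem_adjoin_range_iff] at hx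
  obtain ⟨r, s, hx⟩ := hx
  by_cases hs : MvPolynomial.aeval u s = (0 : L)
  · refine ⟨1, Subalgebra.one_mem _, norm_one, ?_⟩
    rw [hx, hs, div_zero, zero_mul]
    exact Subalgebra.zero_mem _
  obtain ⟨c, hc⟩ := hval (MvPolynomial.aeval u s)
  have hc0 : c ≠ 0 := by
    rintro rfl
    rw [norm_zero] at hc
    exact hs (norm_eq_zero.1 hc.symm)
  have hcn : ‖c‖ ≠ 0 := norm_ne_zero_iff.2 hc0
  have key : ∀ P : MvPolynomial (Fin m) k, ‖(MvPolynomial.aeval u P : L)‖ ≤ 1 →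
      MvPolynomial.aeval u P ∈ lu1B k u := fun P hP =>
    aeval_mem_lu1B P (fun s => (hg P s).trans hP)
  have h1 : ‖(MvPolynomial.aeval u (c⁻¹ • s) : L)‖ = 1 := by
    rw [map_smul, norm_smul, norm_inv, ← hc, inv_mul_cancel₀ hcn]
  refine ⟨MvPolynomial.aeval u (c⁻¹ • s), key _ h1.le, h1, ?_⟩
  have h2 : x * MvPolynomial.aeval u (c⁻¹ • s) = MvPolynomial.aeval u (c⁻¹ • r) := by
    rw [hx, map_smul, map_smul, Algebra.smul_def, Algebra.smul_def]
    field_simp
  rw [h2]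
  refine key _ ?_
  rw [← h2, norm_mul, h1, mul_one]
  exact hx1

theorem lu1_common
    (hg : ∀ (P : MvPolynomial (Fin m) k) (s : Fin m →₀ ℕ), ‖P.coeff s‖ ≤ ‖MvPolynomial.aeval u P‖)
    (hval : ∀ x : L, ∃ c : k, ‖c‖ = ‖x‖) (Z : Finset L)
    (hZ : ∀ x ∈ Z, x ∈ IntermediateField.adjoin k (Set.range u) ∧ ‖x‖ ≤ 1) :
    ∃ q ∈ lu1B k u, ‖q‖ = 1 ∧ ∀ x ∈ Z, x * q ∈ lu1B k u := by
  classical
  induction Z using Finset.induction_on with
  | empty => exact ⟨1, Subalgebra.one_mem _, norm_one, by simp⟩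
  | insert a s ha ih =>
    obtain ⟨q, hq, hq1, hqs⟩ := ih (fun x hx => hZ x (Finset.mem_insert_of_mem hx))
    obtain ⟨hM, h1⟩ := hZ a (Finset.mem_insert_self a s)
    obtain ⟨q', hq', hq1', hqa⟩ := lu1_fraction hg hval hM h1
    refine ⟨q * q', Subalgebra.mul_mem _ hq hq', by rw [norm_mul, hq1, hq1', one_mul], ?_⟩
    intro x hx
    rcases Finset.mem_insert.1 hx with rfl | hx
    · rw [show x * (q * q') = q * (x * q') by ring]
      exact Subalgebra.mul_mem _ hq hqa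
    · rw [← mul_assoc]
      exact Subalgebra.mul_mem _ (hqs x hx) hq'

end chart

section gen2

variable {k L : Type*} [NontriviallyNormedField k] [IsUltrametricDist k]
variable [NormedField L] [IsUltrametricDist L] [NormedAlgebra k L]

/-- values at a transcendental element -/
theorem lu1_lift {M : IntermediateField k L} {G : Polynomial L} (hG : CoeffsIn M G) :
    ∃ G' : Polynomial M, G'.map (algebraMap M L) = G := by
  have : G ∈ Polynomial.lifts (algebraMap M L) := by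
    rw [Polynomial.lifts_iff_coeff_lifts]
    intro n
    exact ⟨⟨G.coeff n, hG n⟩, rfl⟩
  exact (Polynomial.mem_lifts G).1 this

theorem lu1_eval_ne_zero {M : IntermediateField k L} {α : L} (ht : Transcendental M α)
    {G : Polynomial L} (hG : CoeffsIn M G) (hG0 : G ≠ 0) : G.eval α ≠ 0 := by
  obtain ⟨G', hG'⟩ := lu1_lift hG
  intro h0
  apply hG0
  rw [← hG', Polynomial.eval_map_algebraMap] at h0
  rw [← hG', (transcendental_iff.1 ht) G' h0, Polynomial.map_zero]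

theorem lu1_eval_sum {d : ℕ} (α : L) {g : Polynomial L} (hg : g.degree < d) :
    g.eval α = ∑ j : Fin d, g.coeff j * α ^ (j : ℕ) := by
  by_cases h0 : g = 0
  · subst h0; simp
  have hd : g.natDegree < d := (Polynomial.natDegree_lt_iff_degree_lt h0).2 hg
  rw [Polynomial.eval_eq_sum_range' hd, Finset.sum_range]

theorem lu1_good {M : IntermediateField k L} {d : ℕ} {α : L}
    (hval : ∀ x : L, ∃ c : k, ‖c‖ = ‖x‖)
    (horth : ∀ c : Fin d → L, (∀ i, c i ∈ M) → ∀ i, ‖c i‖ ≤ ‖∑ j, c j * α ^ (j : ℕ)‖)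
    {G h : Polynomial L} (hG : Good M d α G h) (hG0 : G.eval α ≠ 0)
    {ϖ : k} (hϖ0 : ϖ ≠ 0) (hϖ : ‖ϖ‖ = ‖h.eval α‖) :
    ∃ X : Finset L, (∀ x ∈ X, x ∈ M ∧ ‖x‖ ≤ 1) ∧ ∃ c : k, c ≠ 0 ∧ ‖c‖ = ‖G.eval α‖ ∧
      ∀ B : Subalgebra (O k) L, (∀ x ∈ X, x ∈ B) → α ∈ B →
        (algebraMap k L ϖ)⁻¹ * h.eval α ∈ B → (algebraMap k L c)⁻¹ * G.eval α ∈ B := by
  classical
  obtain ⟨N, g, hgM, hgd, hGs, hlt⟩ := hG
  obtain ⟨c, hc⟩ := hval (G.eval α)
  have hGe : G.eval α = ∑ i ∈ Finset.range (N + 1), (g i).eval α * (h.eval α) ^ i := by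
    conv_lhs => rw [hGs]
    rw [Polynomial.eval_finsetSum]
    refine Finset.sum_congr rfl (fun i _ => ?_)
    rw [Polynomial.eval_mul, Polynomial.eval_pow]
  -- the constant term dominates
  have h0 : (g 0).eval α ≠ 0 := by
    intro h0
    rcases Nat.eq_zero_or_pos N with hN | hN
    · apply hG0
      rw [hGe, hN]
      simp [h0]
    · have := hlt 1 le_rfl hN
      rw [h0, norm_zero] at this
      exact absurd this (not_lt.2 (by positivity))
  have hG1 : ‖G.eval α‖ = ‖(g 0).eval α‖ := by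
    rw [hGe, Finset.sum_range_succ', pow_zero, mul_one, add_comm]
    apply lu1_norm_add_lt
    refine lu1_norm_sum_lt _ _ (norm_pos_iff.2 h0) (fun i hi => ?_)
    rw [norm_mul, norm_pow]
    exact hlt (i + 1) (by omega) (by have := Finset.mem_range.1 hi; omega)
  have hle : ∀ i ∈ Finset.range (N + 1), ‖(g i).eval α‖ * ‖h.eval α‖ ^ i ≤ ‖(g 0).eval α‖ := by
    intro i hi
    rcases Nat.eq_zero_or_pos i with hi0 | hi0
    · rw [hi0, pow_zero, mul_one]
    · exact (hlt i hi0 (by have := Finset.mem_range.1 hi; omega)).le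
  have hc0 : c ≠ 0 := by
    rintro rfl
    rw [norm_zero] at hc
    exact hG0 (norm_eq_zero.1 hc.symm)
  have hcL : algebraMap k L c ≠ 0 := (_root_.map_ne_zero _).2 hc0
  have hϖL : algebraMap k L ϖ ≠ 0 := (_root_.map_ne_zero _).2 hϖ0
  set X : Finset L := (Finset.range (N + 1) ×ˢ (Finset.univ : Finset (Fin d))).image
    (fun p => (algebraMap k L c)⁻¹ * (algebraMap k L ϖ) ^ p.1 * (g p.1).coeff (p.2 : ℕ)) with hX
  refine ⟨X, ?_, c, hc0, hc, ?_⟩
  · intro x hx
    rw [hX, Finset.mem_image] at hx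
    obtain ⟨⟨i, j⟩, hp, rfl⟩ := hx
    rw [Finset.mem_product] at hp
    refine ⟨M.mul_mem (M.mul_mem (M.inv_mem (M.algebraMap_mem c))
      (_root_.pow_mem (M.algebraMap_mem ϖ) _)) (hgM _ _), ?_⟩
    rw [norm_mul, norm_mul, norm_inv, norm_pow, norm_algebraMap', norm_algebraMap', hc, hϖ, hG1]
    have h1 : ‖(g i).coeff (j : ℕ)‖ ≤ ‖(g i).eval α‖ := by
      rw [lu1_eval_sum α (hgd i)]
      exact horth (fun j => (g i).coeff (j : ℕ)) (fun j => hgM i j) j
    have h2 := hle i hp.1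
    have h3 : 0 < ‖(g 0).eval α‖ := norm_pos_iff.2 h0
    rw [mul_assoc, inv_mul_le_iff₀ h3, mul_one]
    calc ‖h.eval α‖ ^ i * ‖(g i).coeff (j : ℕ)‖ ≤ ‖h.eval α‖ ^ i * ‖(g i).eval α‖ := by gcongr
      _ = ‖(g i).eval α‖ * ‖h.eval α‖ ^ i := mul_comm _ _
      _ ≤ _ := h2
  · intro B hB hαB htB
    rw [hGe, Finset.mul_sum]
    refine Subalgebra.sum_mem _ (fun i hi => ?_)
    have h1 : (algebraMap k L c)⁻¹ * ((g i).eval α * (h.eval α) ^ i) =
        ∑ j : Fin d, ((algebraMap k L c)⁻¹ * (algebraMap k L ϖ) ^ i * (g i).coeff (j : ℕ)) *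
          α ^ (j : ℕ) * ((algebraMap k L ϖ)⁻¹ * h.eval α) ^ i := by
      rw [lu1_eval_sum α (hgd i), Finset.sum_mul, Finset.mul_sum]
      refine Finset.sum_congr rfl (fun j _ => ?_)
      rw [mul_pow, inv_pow]
      field_simp
    rw [h1]
    refine Subalgebra.sum_mem _ (fun j _ => ?_)
    refine Subalgebra.mul_mem _ (Subalgebra.mul_mem _ ?_ (Subalgebra.pow_mem _ hαB _))
      (Subalgebra.pow_mem _ htB _)
    apply hB
    rw [hX, Finset.mem_image]
    exact ⟨(i, j), Finset.mem_product.2 ⟨hi, Finset.mem_univ _⟩, rfl⟩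

theorem lu1_good_all {M : IntermediateField k L} {d : ℕ} {α : L}
    (hval : ∀ x : L, ∃ c : k, ‖c‖ = ‖x‖)
    (horth : ∀ c : Fin d → L, (∀ i, c i ∈ M) → ∀ i, ‖c i‖ ≤ ‖∑ j, c j * α ^ (j : ℕ)‖)
    {h : Polynomial L} (S : Finset (Polynomial L))
    (hG : ∀ G ∈ S, Good M d α G h ∧ G.eval α ≠ 0)
    {ϖ : k} (hϖ0 : ϖ ≠ 0) (hϖ : ‖ϖ‖ = ‖h.eval α‖) :
    ∃ X : Finset L, (∀ x ∈ X, x ∈ M ∧ ‖x‖ ≤ 1) ∧ ∀ G ∈ S, ∃ c : k, c ≠ 0 ∧ ‖c‖ = ‖G.eval α‖ ∧
      ∀ B : Subalgebra (O k) L, (∀ x ∈ X, x ∈ B) → α ∈ B →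
        (algebraMap k L ϖ)⁻¹ * h.eval α ∈ B → (algebraMap k L c)⁻¹ * G.eval α ∈ B := by
  classical
  induction S using Finset.induction_on with
  | empty => exact ⟨∅, by simp, by simp⟩
  | insert a s ha ih =>
    obtain ⟨X, hX, hXs⟩ := ih (fun G hGs => hG G (Finset.mem_insert_of_mem hGs))
    obtain ⟨h1, h2⟩ := hG a (Finset.mem_insert_self a s)
    obtain ⟨Y, hY, c, hc⟩ := lu1_good hval horth h1 h2 hϖ0 hϖ
    refine ⟨X ∪ Y, ?_, ?_⟩
    · intro x hx
      rcases Finset.mem_union.1 hx with hx | hx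
      · exact hX x hx
      · exact hY x hx
    · intro G hGi
      rcases Finset.mem_insert.1 hGi with rfl | hGs
      · exact ⟨c, hc.1, hc.2.1, fun B hB => hc.2.2 B
          (fun x hx => hB x (Finset.mem_union_right _ hx))⟩
      · obtain ⟨c', hc'⟩ := hXs G hGs
        exact ⟨c', hc'.1, hc'.2.1, fun B hB => hc'.2.2 B
          (fun x hx => hB x (Finset.mem_union_left _ hx))⟩

end gen2

section minimal

variable {k L R : Type*} [Field k] [Field L] [Algebra k L] [CommRing R] [Algebra R L]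

/-- inclusion of a subalgebra in an intermediate field -/
noncomputable def lu1Incl (C : Subalgebra R L) (M : IntermediateField k L)
    (h : ∀ x ∈ C, x ∈ M) : C →+* M :=
  (C.val : C →+* L).codRestrict M (fun x => h x x.2)

theorem coe_lu1Incl (C : Subalgebra R L) (M : IntermediateField k L)
    (h : ∀ x ∈ C, x ∈ M) (x : C) : ((lu1Incl C M h x : M) : L) = x := rfl

theorem lu1Incl_injective (C : Subalgebra R L) (M : IntermediateField k L)
    (h : ∀ x ∈ C, x ∈ M) : Function.Injective (lu1Incl C M h) := by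
  intro x y hxy
  apply Subtype.ext
  have := congrArg (fun z : M => (z : L)) hxy
  exact this

theorem aeval_map_lu1Incl (C : Subalgebra R L) (M : IntermediateField k L)
    (h : ∀ x ∈ C, x ∈ M) (t : L) (P : Polynomial C) :
    aeval t (P.map (lu1Incl C M h)) = aeval t P := by
  rw [aeval_def, aeval_def, eval₂_map]
  congr 1

theorem lu1_transcendental (C : Subalgebra R L) (M : IntermediateField k L)
    (h : ∀ x ∈ C, x ∈ M) {t : L} (ht : Transcendental M t) : Transcendental C t := by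
  rw [transcendental_iff] at *
  intro P hP
  have h1 := ht (P.map (lu1Incl C M h)) (by rw [aeval_map_lu1Incl, hP])
  exact (Polynomial.map_eq_zero_iff (lu1Incl_injective C M h)).1 h1

theorem lu1_min (M : IntermediateField k L) {α : L} (hα : Transcendental M α) {d : ℕ} (hd : 0 < d)
    {hM : Polynomial M} (hmon : hM.Monic) (hdeg : hM.natDegree = d) {ϖ : M} (hϖ : ϖ ≠ 0)
    (C₁ C₂ : Subalgebra R L) (hC₁ : ∀ x ∈ C₁, x ∈ M) {t : L}
    (ht : t = (ϖ : L)⁻¹ * aeval α hM)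
    (hC₂ : ∀ x ∈ C₂, ∃ P : Polynomial C₁, aeval t P = x)
    (H : Polynomial C₂) (hH : H.Monic) (hHd : H.natDegree = d) (hH0 : aeval α H = 0)
    (G : Polynomial C₂) (hG : aeval α G = 0) : H ∣ G := by
  rw [← Polynomial.modByMonic_eq_zero_iff_dvd hH]
  set r := G %ₘ H with hr
  have hr0 : aeval α r = 0 := by
    have h1 := Polynomial.modByMonic_add_div G H
    have h2 := congrArg (aeval α) h1
    rw [map_add, map_mul, hH0, zero_mul, add_zero, hG] at h2
    exact h2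
  have hrd : r.degree < d := by
    have h1 := Polynomial.degree_modByMonic_lt G hH
    rw [Polynomial.degree_eq_natDegree hH.ne_zero, hHd] at h1
    exact h1
  choose P hP using (fun i : Fin d => hC₂ (r.coeff i) (r.coeff i).2)
  have haev : ∀ Q : Polynomial M, aeval α (Q.comp (C ϖ⁻¹ * hM)) = aeval t Q := by
    intro Q
    rw [Polynomial.aeval_comp, ht]
    congr 2
    rw [map_mul, aeval_C]
    rfl
  have key : ∀ i, (fun i : Fin d => (P i).map (lu1Incl C₁ M hC₁)) i = 0 := by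
    refine hadic_unique hmon hd hdeg hϖ _ ?_
    apply (transcendental_iff.1 hα)
    rw [map_sum]
    have h1 : ∀ i : Fin d, aeval α (((P i).map (lu1Incl C₁ M hC₁)).comp (C ϖ⁻¹ * hM) *
        X ^ (i : ℕ)) = (r.coeff i : L) * α ^ (i : ℕ) := by
      intro i
      rw [map_mul, haev, aeval_map_lu1Incl, hP, map_pow, aeval_X]
    rw [Finset.sum_congr rfl (fun i _ => h1 i)]
    have h2 : aeval α r = ∑ i : Fin d, (r.coeff i : L) * α ^ (i : ℕ) := by
      by_cases h0 : r = 0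
      · rw [h0]; simp
      have hd' : r.natDegree < d := (Polynomial.natDegree_lt_iff_degree_lt h0).2 hrd
      rw [Polynomial.aeval_eq_sum_range' hd', Finset.sum_range]
      refine Finset.sum_congr rfl (fun i _ => ?_)
      rw [Algebra.smul_def]
      rfl
    rw [← h2, hr0]
  ext i
  by_cases hi : i < d
  · have h1 := key ⟨i, hi⟩
    simp only at h1
    have h2 := (Polynomial.map_eq_zero_iff (lu1Incl_injective C₁ M hC₁)).1 h1
    have h3 := hP ⟨i, hi⟩
    rw [h2, map_zero] at h3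
    simp only at h3
    rw [← h3]
    simp
  · rw [Polynomial.coeff_eq_zero_of_degree_lt (lt_of_lt_of_le hrd (by exact_mod_cast not_lt.1 hi))]
    simp

end minimal


section asm

variable {k L : Type*} [NontriviallyNormedField k] [IsUltrametricDist k]
variable [NormedField L] [IsUltrametricDist L] [NormedAlgebra k L]

/-- `C` lies in a localization of `A` at a constant times a unit of `C` -/
def lu1LocK (A : Subalgebra k L) (C : Subalgebra (O k) L) : Prop :=
  ∃ D, ∃ hD : D ∈ A, UnitUpTo k C D ∧ ∀ b ∈ C, b ∈ lu1Loc A D hD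

theorem lu1LocK_base {A : Subalgebra k L} {C : Subalgebra (O k) L} (h : ∀ b ∈ C, b ∈ A) :
    lu1LocK A C :=
  ⟨1, A.one_mem, unitUpTo_of_mem C.one_mem one_ne_zero (by simp), fun b hb => le_lu1Loc _ (h b hb)⟩

theorem lu1LocK_adjoin {A : Subalgebra k L} {C : Subalgebra (O k) L} (h : lu1LocK A C) {x : L}
    (hx : x ∈ Algebra.adjoin k ((C : Set L) ∪ (A : Set L))) :
    lu1LocK A (C ⊔ Algebra.adjoin (O k) {x}) := by
  obtain ⟨D, hD, hu, hC⟩ := h
  refine ⟨D, hD, unitUpTo_mono le_sup_left hu, ?_⟩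
  have h1 : Algebra.adjoin k ((C : Set L) ∪ (A : Set L)) ≤ lu1Loc A D hD := by
    refine Algebra.adjoin_le ?_
    rintro y (hy | hy)
    · exact hC y hy
    · exact le_lu1Loc _ hy
  have h2 : C ⊔ Algebra.adjoin (O k) {x} ≤ (lu1Loc A D hD).restrictScalars (O k) := by
    refine sup_le hC (Algebra.adjoin_le ?_)
    intro y hy
    rw [Set.mem_singleton_iff] at hy
    subst hy
    exact h1 hx
  exact fun b hb => h2 hb

theorem lu1LocK_inv {A : Subalgebra k L} {C : Subalgebra (O k) L} (h : lu1LocK A C) {s : L}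
    (hs : s ∈ C) (hs0 : s ≠ 0) : lu1LocK A (C ⊔ Algebra.adjoin (O k) {s⁻¹}) := by
  obtain ⟨D, hD, hu, hC⟩ := h
  obtain ⟨N, hN⟩ := hC s hs
  have hsu : UnitUpTo k (C ⊔ Algebra.adjoin (O k) {s⁻¹}) s := by
    refine unitUpTo_of_mem ?_ hs0 ?_
    · exact (le_sup_left : C ≤ _) hs
    · exact (le_sup_right : Algebra.adjoin (O k) {s⁻¹} ≤ _)
        (Algebra.subset_adjoin (Set.mem_singleton _))
  have hu' := unitUpTo_mono (le_sup_left : C ≤ C ⊔ Algebra.adjoin (O k) {s⁻¹}) hu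
  refine ⟨D * (s * D ^ N), A.mul_mem hD hN,
    unitUpTo_mul hu' (unitUpTo_mul hsu (unitUpTo_pow hu' N)), ?_⟩
  have h2 : C ⊔ Algebra.adjoin (O k) {s⁻¹} ≤
      (lu1Loc A (D * (s * D ^ N)) (A.mul_mem hD hN)).restrictScalars (O k) := by
    refine sup_le (fun b hb => lu1Loc_mono hD hN (hC b hb)) (Algebra.adjoin_le ?_)
    intro y hy
    rw [Set.mem_singleton_iff] at hy
    subst hy
    refine ⟨1, ?_⟩
    rw [pow_one, show s⁻¹ * (D * (s * D ^ N)) = (s⁻¹ * s) * (D * D ^ N) by ring,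
      inv_mul_cancel₀ hs0, one_mul]
    exact A.mul_mem hD (A.pow_mem hD N)
  exact fun b hb => h2 hb

theorem lu1_unitUpTo_ne_zero {B : Subalgebra (O k) L} {z : L} (hz : UnitUpTo k B z) : z ≠ 0 := by
  obtain ⟨c, hc, w, hw, hw0, hw', rfl⟩ := hz
  exact mul_ne_zero ((_root_.map_ne_zero _).2 hc) hw0

theorem lu1_adjoin_le_ball {C : Subalgebra (O k) L} (hC : C ≤ lu1Ball k L) {s : Set L}
    (hs : ∀ x ∈ s, ‖x‖ ≤ 1) : C ⊔ Algebra.adjoin (O k) s ≤ lu1Ball k L :=
  sup_le hC (Algebra.adjoin_le (fun x hx => hs x hx))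

/-- LU1 (charts).  Write `M = k(u)`, `E0 = k(u, α)`.  Proof.
Let `h` be as in `approx` for `S`; `ϖ ∈ k` with `‖ϖ‖ = ‖h α‖` (`hval`; `h α ≠ 0` since `α` is
transcendental over `M`), `t = h α / ϖ`, `‖t‖ = 1`. For `G ∈ S`, `G = ∑ g i * h ^ i` as in
`Good`; `λ_G ∈ k` with `‖λ_G‖ = ‖(g 0) α‖ ≠ 0`. The coefficients of `h` and of
`g i * ϖ ^ i / λ_G` (norms `≤ 1` by `orth`) are elements of `M` of norm `≤ 1`; each is `P u / Q u` with
`P, Q` polynomials over `k`, and by scaling `‖Q u‖ = 1`, so by `gauss` `P` and `Q` have coefficients in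
`O k`. Let `q` be the product of all these `Q u`.
`C₁ = O k [u] [1/q]` (SM1 `m` times, the `u i` are algebraically independent by `gauss`; SM2),
`C₂ = C₁[t]` (`t` is transcendental over `M ⊇ C₁`), `C₃ = C₂[α][1/h'(α)]` by SM3 with
`H = h - ϖ t ∈ C₂[X]`, `H' = h'`: minimality of `H`: divide by the monic `H`, a remainder
`∑_{i<d} R i (t) X ^ i`, `R i ∈ C₁[T]`, vanishing at `α` is zero by transcendence of `α` and
`hadic_unique`. `w_G = G α / λ_G = ∑ (g i (α) ϖ ^ i / λ_G) t ^ i ∈ C₃` has norm `1`. `C = C₃[1/w_G : G ∈ S]`.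
All generators have norm `≤ 1`. `D` = product of `q`, `h' α`, the `G α` and a
power of them: all generators of `C` are in `k[u, α][1/D]`, and `D ∈ k[u, α]` (the `G` may have
denominators in `k[u]`: multiply by `q`, or include the denominators) is a constant times a unit of
`C`. -/
theorem exists_chart {m d : ℕ} {u : Fin m → L} {α : L} (hD : LUData k d u α)
    (hval : ∀ x : L, ∃ c : k, ‖c‖ = ‖x‖) (S : Finset (Polynomial L))
    (hS : ∀ G ∈ S, G ≠ 0 ∧ CoeffsIn (IntermediateField.adjoin k (Set.range u)) G) :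
    ∃ B : Subalgebra (O k) L, Algebra.Smooth (O k) B ∧ (∀ b ∈ B, ‖b‖ ≤ 1) ∧
      (∀ b ∈ B, b ∈ IntermediateField.adjoin k (Set.range u ∪ {α})) ∧ (∀ i, u i ∈ B) ∧ α ∈ B ∧
      (∀ G ∈ S, UnitUpTo k B (G.eval α)) ∧
      ∃ D ∈ Algebra.adjoin k (Set.range u ∪ {α}), UnitUpTo k B D ∧
        ∀ b ∈ B, ∃ N : ℕ, b * D ^ N ∈ Algebra.adjoin k (Set.range u ∪ {α}) := by
  classical
  obtain ⟨h, hhM, hmon, hdeg, hhn, hh', hh1, hgood⟩ := hD.approx S hS
  set M := IntermediateField.adjoin k (Set.range u) with hMdef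
  set A0 := Algebra.adjoin k (Set.range u ∪ {α}) with hA0
  have htr := hD.trans
  have hdpos := hD.dpos
  have hαh : h.eval α ≠ 0 := lu1_eval_ne_zero htr hhM hmon.ne_zero
  obtain ⟨ϖ, hϖ⟩ := hval (h.eval α)
  have hϖ0 : ϖ ≠ 0 := by
    rintro rfl
    rw [norm_zero] at hϖ
    exact hαh (norm_eq_zero.1 hϖ.symm)
  have hϖL : algebraMap k L ϖ ≠ 0 := (_root_.map_ne_zero _).2 hϖ0
  obtain ⟨t, ht⟩ : ∃ t, t = (algebraMap k L ϖ)⁻¹ * h.eval α := ⟨_, rfl⟩
  have htn : ‖t‖ = 1 := by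
    rw [ht, norm_mul, norm_inv, norm_algebraMap', hϖ, inv_mul_cancel₀ (norm_ne_zero_iff.2 hαh)]
  obtain ⟨X, hX, hXS⟩ := lu1_good_all (M := M) hval hD.orth S
    (fun G hG => ⟨hgood G hG, lu1_eval_ne_zero htr (hS G hG).2 (hS G hG).1⟩) hϖ0 hϖ
  rw [← ht] at hXS
  -- denominators
  obtain ⟨q, hqB, hq1, hqZ⟩ := lu1_common hD.gauss hval
    (X ∪ (Finset.range (d + 1)).image (fun i => h.coeff i)) (by
      intro x hx
      rcases Finset.mem_union.1 hx with hx | hx
      · exact hX x hx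
      · obtain ⟨i, _, rfl⟩ := Finset.mem_image.1 hx
        exact ⟨hhM i, hhn i⟩)
  have hq0 : q ≠ 0 := by
    rintro rfl
    rw [norm_zero] at hq1
    exact zero_ne_one hq1
  have hBA : ∀ b ∈ lu1B k u, b ∈ A0 := fun b hb =>
    Algebra.adjoin_mono Set.subset_union_left (lu1B_mem_adjoin hb)
  have hBM : ∀ b ∈ lu1B k u, b ∈ M := fun b hb =>
    IntermediateField.algebra_adjoin_le_adjoin k _ (lu1B_mem_adjoin hb)
  have hαA : α ∈ A0 := Algebra.subset_adjoin (Set.mem_union_right _ (Set.mem_singleton α))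
  -- first step
  obtain ⟨C₁, hC₁⟩ : ∃ C₁, C₁ = lu1B k u ⊔ Algebra.adjoin (O k) {q⁻¹} := ⟨_, rfl⟩
  have sm1 : Algebra.Smooth (O k) C₁ := by
    rw [hC₁]
    exact smooth_adjoin_inv _ (lu1B_smooth hD.gauss) hqB hq0
  have ball1 : C₁ ≤ lu1Ball k L := by
    rw [hC₁]
    refine lu1_adjoin_le_ball (lu1B_le_ball hD.norm_u) ?_
    intro x hx
    rw [Set.mem_singleton_iff] at hx
    rw [hx, norm_inv, hq1, inv_one]
  have loc1 : lu1LocK A0 C₁ := by
    rw [hC₁]
    exact lu1LocK_inv (lu1LocK_base hBA) hqB hq0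
  have hB1 : lu1B k u ≤ C₁ := by rw [hC₁]; exact le_sup_left
  have hq'1 : q⁻¹ ∈ C₁ := by
    rw [hC₁]
    exact (le_sup_right : Algebra.adjoin (O k) {q⁻¹} ≤ _)
        (Algebra.subset_adjoin (Set.mem_singleton _))
  have hC₁M : ∀ x ∈ C₁, x ∈ M := by
    have : C₁ ≤ M.toSubalgebra.restrictScalars (O k) := by
      rw [hC₁]
      refine sup_le (fun b hb => hBM b hb) (Algebra.adjoin_le ?_)
      intro y hy
      rw [Set.mem_singleton_iff] at hy
      subst hy
      exact M.inv_mem (hBM q hqB)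
    exact fun x hx => this hx
  have hZ1 : ∀ x ∈ X ∪ (Finset.range (d + 1)).image (fun i => h.coeff i), x ∈ C₁ := by
    intro x hx
    have h1 := C₁.mul_mem (hB1 (hqZ x hx)) hq'1
    rwa [mul_assoc, mul_inv_cancel₀ hq0, mul_one] at h1
  have hXC : ∀ x ∈ X, x ∈ C₁ := fun x hx => hZ1 x (Finset.mem_union_left _ hx)
  have hcC : ∀ i, h.coeff i ∈ C₁ := by
    intro i
    by_cases hi : i < d + 1
    · exact hZ1 _ (Finset.mem_union_right _
        (Finset.mem_image.2 ⟨i, Finset.mem_range.2 hi, rfl⟩))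
    · rw [Polynomial.coeff_eq_zero_of_natDegree_lt (by omega)]
      exact C₁.zero_mem
  -- second step
  obtain ⟨hM, hhMeq⟩ := lu1_lift hhM
  have hMmon : hM.Monic := by
    apply Polynomial.monic_of_injective (algebraMap M L).injective
    rw [hhMeq]; exact hmon
  have hMdeg : hM.natDegree = d := by
    rw [← hdeg, ← hhMeq, Polynomial.natDegree_map]
  have haeM : aeval α hM = h.eval α := by
    rw [← hhMeq, Polynomial.eval_map_algebraMap]
  obtain ⟨ϖM, hϖM⟩ : ∃ ϖM : M, (ϖM : L) = algebraMap k L ϖ := ⟨algebraMap k M ϖ, rfl⟩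
  have hϖM0 : ϖM ≠ 0 := by
    rintro rfl
    apply hϖL
    rw [← hϖM]; rfl
  have htM : t = (ϖM : L)⁻¹ * aeval α hM := by rw [ht, hϖM, haeM]
  have httr : Transcendental M t := by
    have h1 : t = aeval α (C ϖM⁻¹ * hM) := by
      rw [htM, map_mul, aeval_C]
      rfl
    rw [h1]
    refine htr.aeval _ ?_ ?_
    · rw [Polynomial.natDegree_C_mul (inv_ne_zero hϖM0), hMdeg]
      exact hdpos.ne'
    · apply mem_nonZeroDivisors_of_ne_zero
      rw [Ne, Polynomial.leadingCoeff_eq_zero]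
      exact mul_ne_zero (Polynomial.C_ne_zero.2 (inv_ne_zero hϖM0)) hMmon.ne_zero
  obtain ⟨C₂, hC₂⟩ : ∃ C₂, C₂ = C₁ ⊔ Algebra.adjoin (O k) {t} := ⟨_, rfl⟩
  have sm2 : Algebra.Smooth (O k) C₂ := by
    rw [hC₂]
    exact smooth_adjoin_transcendental C₁ sm1 (lu1_transcendental C₁ M hC₁M httr)
  have ball2 : C₂ ≤ lu1Ball k L := by
    rw [hC₂]
    refine lu1_adjoin_le_ball ball1 ?_
    intro x hx
    rw [Set.mem_singleton_iff] at hx
    rw [hx, htn]
  have htC : t ∈ C₂ := by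
    rw [hC₂]
    exact (le_sup_right : Algebra.adjoin (O k) {t} ≤ _)
        (Algebra.subset_adjoin (Set.mem_singleton _))
  have h12 : C₁ ≤ C₂ := by rw [hC₂]; exact le_sup_left
  have hadj : ∀ g : Polynomial L, (∀ i, g.coeff i ∈ C₁) →
      g.eval α ∈ Algebra.adjoin k ((C₁ : Set L) ∪ (A0 : Set L)) := by
    intro g hg
    rw [Polynomial.eval_eq_sum_range]
    refine Subalgebra.sum_mem _ (fun i _ => Subalgebra.mul_mem _ ?_ (Subalgebra.pow_mem _ ?_ _))
    · exact Algebra.subset_adjoin (Set.mem_union_left _ (hg i))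
    · exact Algebra.subset_adjoin (Set.mem_union_right _ hαA)
  have loc2 : lu1LocK A0 C₂ := by
    rw [hC₂]
    refine lu1LocK_adjoin loc1 ?_
    rw [ht]
    refine Subalgebra.mul_mem _ ?_ (hadj h hcC)
    rw [← map_inv₀]
    exact Subalgebra.algebraMap_mem _ _
  -- third step
  have hev2 : h.eval α ∈ C₂ := by
    have h1 : h.eval α = algebraMap k L ϖ * t := by
      rw [ht, mul_inv_cancel_left₀ hϖL]
    rw [h1]
    exact C₂.mul_mem (C₂.algebraMap_mem (⟨ϖ, mem_O.2 (by rw [hϖ]; exact hh1.le)⟩ : O k)) htC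
  have hlift : h - C (h.eval α) ∈ Polynomial.lifts (algebraMap C₂ L) := by
    rw [Polynomial.lifts_iff_coeff_lifts]
    intro n
    refine ⟨⟨(h - C (h.eval α)).coeff n, ?_⟩, rfl⟩
    rw [Polynomial.coeff_sub, Polynomial.coeff_C]
    refine C₂.sub_mem (h12 (hcC n)) ?_
    split_ifs
    · exact hev2
    · exact C₂.zero_mem
  have hmon' : (h - C (h.eval α)).Monic := by
    apply Polynomial.Monic.sub_of_left hmon
    refine lt_of_le_of_lt Polynomial.degree_C_le ?_
    rw [Polynomial.degree_eq_natDegree hmon.ne_zero, hdeg]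
    exact_mod_cast hdpos
  obtain ⟨H, hHmap, hHdeg, hHmon⟩ := Polynomial.lifts_and_natDegree_eq_and_monic hlift hmon'
  have hHdeg' : H.natDegree = d := by
    rw [hHdeg, Polynomial.natDegree_sub_C, hdeg]
  have hH0 : aeval α H = 0 := by
    rw [← Polynomial.eval_map_algebraMap, hHmap, Polynomial.eval_sub, Polynomial.eval_C, sub_self]
  have hHder : aeval α (derivative H) = h.derivative.eval α := by
    rw [← Polynomial.eval_map_algebraMap, ← Polynomial.derivative_map, hHmap,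
      Polynomial.derivative_sub, Polynomial.derivative_C, sub_zero]
  have hh'0 : h.derivative.eval α ≠ 0 := by
    intro h0
    rw [h0, norm_zero] at hh'
    exact zero_ne_one hh'
  have hmin : ∀ G : Polynomial C₂, aeval α G = 0 → H ∣ G := by
    intro G hG
    refine lu1_min M htr hdpos hMmon hMdeg hϖM0 C₁ C₂ hC₁M htM ?_ H hHmon hHdeg' hH0 G hG
    intro x hx
    rw [hC₂] at hx
    exact exists_poly_of_mem_sup C₁ t hx
  obtain ⟨C₃, hC₃⟩ : ∃ C₃, C₃ = C₂ ⊔ Algebra.adjoin (O k) {α, (h.derivative.eval α)⁻¹} := ⟨_, rfl⟩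
  have sm3 : Algebra.Smooth (O k) C₃ := by
    rw [hC₃, ← hHder]
    exact smooth_adjoin_etale C₂ sm2 H hHmon hH0 hmin (by rw [hHder]; exact hh'0)
  have ball3 : C₃ ≤ lu1Ball k L := by
    rw [hC₃]
    refine lu1_adjoin_le_ball ball2 ?_
    rintro x (rfl | hx)
    · exact hD.norm_α
    · rw [Set.mem_singleton_iff] at hx
      rw [hx, norm_inv, hh', inv_one]
  have hC₃' : C₃ = (C₂ ⊔ Algebra.adjoin (O k) {α}) ⊔
      Algebra.adjoin (O k) {(h.derivative.eval α)⁻¹} := by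
    rw [hC₃, sup_assoc, ← Algebra.adjoin_union, Set.singleton_union]
  have h23 : C₂ ≤ C₃ := by rw [hC₃]; exact le_sup_left
  have hαC : α ∈ C₃ := by
    rw [hC₃]
    exact (le_sup_right : Algebra.adjoin (O k) {α, (h.derivative.eval α)⁻¹} ≤ _)
        (Algebra.subset_adjoin (Set.mem_insert _ _))
  have hder2 : h.derivative.eval α ∈ C₂ ⊔ Algebra.adjoin (O k) {α} := by
    rw [← hHder, Polynomial.aeval_eq_sum_range]
    refine Subalgebra.sum_mem _ (fun i _ => ?_)
    rw [Algebra.smul_def]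
    refine Subalgebra.mul_mem _ ?_ (Subalgebra.pow_mem _ ?_ _)
    · exact (le_sup_left : C₂ ≤ _) ((derivative H).coeff i).2
    · exact (le_sup_right : Algebra.adjoin (O k) {α} ≤ _)
        (Algebra.subset_adjoin (Set.mem_singleton _))
  have loc3 : lu1LocK A0 C₃ := by
    rw [hC₃']
    refine lu1LocK_inv (lu1LocK_adjoin loc2 ?_) hder2 hh'0
    exact Algebra.subset_adjoin (Set.mem_union_right _ hαA)
  -- the elements w
  choose! lam hlam0 hlamn hlamB using hXS
  obtain ⟨w, hw⟩ : ∃ w : Polynomial L → L, ∀ G, w G = (algebraMap k L (lam G))⁻¹ * G.eval α :=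
    ⟨_, fun G => rfl⟩
  have hwC : ∀ G ∈ S, w G ∈ C₃ := by
    intro G hG
    rw [hw]
    exact hlamB G hG C₃ (fun x hx => h23 (h12 (hXC x hx))) hαC (h23 htC)
  have hwn : ∀ G ∈ S, ‖w G‖ = 1 := by
    intro G hG
    rw [hw, norm_mul, norm_inv, norm_algebraMap', hlamn G hG]
    exact inv_mul_cancel₀ (norm_ne_zero_iff.2 (lu1_eval_ne_zero htr (hS G hG).2 (hS G hG).1))
  have hw0 : ∀ G ∈ S, w G ≠ 0 := by
    intro G hG h0
    have := hwn G hG
    rw [h0, norm_zero] at this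
    exact zero_ne_one this
  obtain ⟨s, hs⟩ : ∃ s, s = ∏ G ∈ S, w G := ⟨_, rfl⟩
  have hsC : s ∈ C₃ := by rw [hs]; exact Subalgebra.prod_mem _ hwC
  have hsn : ‖s‖ = 1 := by
    rw [hs, norm_prod]
    exact Finset.prod_eq_one hwn
  have hs0 : s ≠ 0 := by
    intro h0
    rw [h0, norm_zero] at hsn
    exact zero_ne_one hsn
  obtain ⟨C₄, hC₄⟩ : ∃ C₄, C₄ = C₃ ⊔ Algebra.adjoin (O k) {s⁻¹} := ⟨_, rfl⟩
  have sm4 : Algebra.Smooth (O k) C₄ := by
    rw [hC₄]
    exact smooth_adjoin_inv C₃ sm3 hsC hs0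
  have ball4 : C₄ ≤ lu1Ball k L := by
    rw [hC₄]
    refine lu1_adjoin_le_ball ball3 ?_
    intro x hx
    rw [Set.mem_singleton_iff] at hx
    rw [hx, norm_inv, hsn, inv_one]
  have loc4 : lu1LocK A0 C₄ := by
    rw [hC₄]
    exact lu1LocK_inv loc3 hsC hs0
  have h34 : C₃ ≤ C₄ := by rw [hC₄]; exact le_sup_left
  have hs'C : s⁻¹ ∈ C₄ := by
    rw [hC₄]
    exact (le_sup_right : Algebra.adjoin (O k) {s⁻¹} ≤ _)
        (Algebra.subset_adjoin (Set.mem_singleton _))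
  obtain ⟨D, hDA, hDu, hDloc⟩ := loc4
  have hD0 : D ≠ 0 := lu1_unitUpTo_ne_zero hDu
  have hA0E : ∀ x ∈ A0, x ∈ IntermediateField.adjoin k (Set.range u ∪ {α}) := fun x hx =>
    IntermediateField.algebra_adjoin_le_adjoin k _ hx
  refine ⟨C₄, sm4, fun b hb => ball4 hb, ?_, ?_, h34 hαC, ?_, D, hDA, hDu, hDloc⟩
  · intro b hb
    obtain ⟨N, hN⟩ := hDloc b hb
    have h1 : b = (b * D ^ N) * (D ^ N)⁻¹ := by
      rw [mul_assoc, mul_inv_cancel₀ (pow_ne_zero N hD0), mul_one]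
    rw [h1]
    exact mul_mem (hA0E _ hN) (inv_mem (pow_mem (hA0E _ hDA) N))
  · intro i
    exact h34 (h23 (h12 (hB1 (u_mem_lu1B i))))
  · intro G hG
    refine ⟨lam G, hlam0 G hG, w G, h34 (hwC G hG), hw0 G hG, ?_, ?_⟩
    · have h1 : (w G)⁻¹ = (∏ G' ∈ S.erase G, w G') * s⁻¹ := by
        have h2 : w G * ∏ G' ∈ S.erase G, w G' = s := by
          rw [hs]; exact Finset.mul_prod_erase S w hG
        have h3 : ∏ G' ∈ S.erase G, w G' ≠ 0 := by
          rw [Finset.prod_ne_zero_iff]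
          exact fun a ha => hw0 a (Finset.mem_of_mem_erase ha)
        rw [← h2, mul_inv, mul_comm (w G)⁻¹, mul_inv_cancel_left₀ h3]
      rw [h1]
      refine C₄.mul_mem (Subalgebra.prod_mem _ (fun a ha => h34 (hwC a ?_))) hs'C
      exact Finset.mem_of_mem_erase ha
    · rw [hw, mul_inv_cancel_left₀]
      exact (_root_.map_ne_zero _).2 (hlam0 G hG)

end asm

end MP1a953e
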