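import Pool.Agent.Lib.MP_1a953e_ag.PlDefs
import Pool.Agent.Lib.MP_1a953e_ag.LU1

/-!
# Module PlChart: charts from good coordinates
-/

set_option linter.unusedSectionVars false

namespace MP1a953e

open Polynomial

variable {k L : Type*} [NontriviallyNormedField k] [IsUltrametricDist k] [NormedField L]
  [IsUltrametricDist L] [NormedAlgebra k L]

private theorem plc_norm_aeval_lt {u : Fin 2 → L} (hu : ∀ i, ‖u i‖ ≤ 1)
    (Q : MvPolynomial (Fin 2) k) (hQ : ∀ m, ‖Q.coeff m‖ < 1) : ‖MvPolynomial.aeval u Q‖ < 1 := by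
  rw [MvPolynomial.as_sum Q, map_sum]
  refine lu1_norm_sum_lt _ _ one_pos (fun s _ => ?_)
  rw [MvPolynomial.aeval_monomial, norm_mul, norm_algebraMap']
  have h1 : ‖s.prod fun i e => u i ^ e‖ ≤ 1 := by
    rw [Finsupp.prod, norm_prod]
    refine Finset.prod_le_one (fun i _ => norm_nonneg _) (fun i _ => ?_)
    rw [norm_pow]
    exact pow_le_one₀ (norm_nonneg _) (hu i)
  exact mul_lt_one_of_nonneg_of_lt_one_left (norm_nonneg _) (hQ s) h1

private theorem plc_inj_O {u : Fin 2 → L}
    (hg : Function.Injective (MvPolynomial.aeval u : MvPolynomial (Fin 2) k →ₐ[k] L)) :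
    Function.Injective (MvPolynomial.aeval u : MvPolynomial (Fin 2) (O k) →ₐ[O k] L) := by
  rw [injective_iff_map_eq_zero]
  intro P hP
  have h1 : MvPolynomial.aeval u (MvPolynomial.map (algebraMap (O k) k) P) = 0 := by
    rw [lu1_aeval_map, hP]
  have h2 := (injective_iff_map_eq_zero _).1 hg _ h1
  have h3 : Function.Injective (algebraMap (O k) k) := Subtype.coe_injective
  exact (injective_iff_map_eq_zero _).1 (MvPolynomial.map_injective _ h3) _ h2

private theorem plc_smooth {u : Fin 2 → L}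
    (hg : Function.Injective (MvPolynomial.aeval u : MvPolynomial (Fin 2) k →ₐ[k] L)) :
    Algebra.Smooth (O k) (lu1B k u) := by
  have : Algebra.Smooth (O k) (MvPolynomial (Fin 2) (O k)) := ⟨inferInstance, inferInstance⟩
  exact Algebra.Smooth.of_equiv (AlgEquiv.ofInjective _ (plc_inj_O hg))

/-- the affine substitution is injective -/
private theorem plc_affine {a c₁ c₂ : k} (h₁ : c₁ ≠ 0) (h₂ : c₂ ≠ 0) :
    Function.Injective (MvPolynomial.aeval
      ![MvPolynomial.C c₁⁻¹ * (MvPolynomial.X 0 - MvPolynomial.C a),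
        MvPolynomial.C c₂⁻¹ * MvPolynomial.X 1] :
      MvPolynomial (Fin 2) k →ₐ[k] MvPolynomial (Fin 2) k) := by
  set A : MvPolynomial (Fin 2) k →ₐ[k] MvPolynomial (Fin 2) k := MvPolynomial.aeval
      ![MvPolynomial.C c₁⁻¹ * (MvPolynomial.X 0 - MvPolynomial.C a),
        MvPolynomial.C c₂⁻¹ * MvPolynomial.X 1] with hA
  set A' : MvPolynomial (Fin 2) k →ₐ[k] MvPolynomial (Fin 2) k := MvPolynomial.aeval
      ![MvPolynomial.C c₁ * MvPolynomial.X 0 + MvPolynomial.C a,
        MvPolynomial.C c₂ * MvPolynomial.X 1] with hA'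
  have hC : ∀ c : k, A' (MvPolynomial.C c) = MvPolynomial.C c := fun c => by
    rw [← MvPolynomial.algebraMap_eq, AlgHom.commutes]
  have hcomp : A'.comp A = AlgHom.id k _ := by
    apply MvPolynomial.algHom_ext
    intro i
    fin_cases i
    · simp only [AlgHom.comp_apply, hA, MvPolynomial.aeval_X, AlgHom.id_apply, Fin.zero_eta,
        Matrix.cons_val_zero, map_mul, map_sub]
      rw [hC, hC, hA', MvPolynomial.aeval_X, Matrix.cons_val_zero, add_sub_cancel_right,
        ← mul_assoc, ← MvPolynomial.C_mul, inv_mul_cancel₀ h₁, MvPolynomial.C_1, one_mul]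
    · simp only [AlgHom.comp_apply, hA, MvPolynomial.aeval_X, AlgHom.id_apply, Fin.mk_one,
        Matrix.cons_val_one, Matrix.cons_val_fin_one, map_mul]
      rw [hC, hA', MvPolynomial.aeval_X, Matrix.cons_val_one, Matrix.cons_val_fin_one,
        ← mul_assoc, ← MvPolynomial.C_mul, inv_mul_cancel₀ h₂, MvPolynomial.C_1, one_mul]
  intro P P' h
  have h1 := congrArg A' h
  rw [← AlgHom.comp_apply, ← AlgHom.comp_apply, hcomp] at h1
  exact h1

/-- CH1.  Proof.  Every element of `Algebra.adjoin k {y, z}` is `ev2 k y z g`, `g ∈ k[Y, Z]`. For the given `S` choose finitely many nonzero polynomials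
`g`; `Coord` gives `φ, a, c₁, c₂`. Let `U' = c₁⁻¹ (φ (X 0) (y, z) - a)`, `T' = c₂⁻¹ φ (X 1) (y, z)`, elements
of `Algebra.adjoin k {y, z}` of norm `≤ 1`, algebraically independent over `k` (`φ` and the affine
substitution are automorphisms; `AlgebraicIndependent k ![y, z]` means that `ev2 k y z` is injective),
hence also over `O k`. `B₀ = O k [U', T']` is isomorphic to `MvPolynomial (Fin 2) (O k)`, smooth (compare
`lu1B`, `lu1B_smooth` in LU1). For `g ∈ S`, `ev2 k y z g = c * (1 + Q (U', T'))` where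
`w_g = 1 + Q (U', T') ∈ B₀` has norm `1` (`‖Q (U', T')‖ < 1`). `B = B₀[1 / ∏ w_g]` is smooth
(`smooth_adjoin_inv` of Sm2), in the unit ball. `D = ∏ w_g ∈ Algebra.adjoin k {y, z}` is a unit of `B`, and
`b * D ^ N ∈ B₀ ⊆ Algebra.adjoin k {y, z}` (compare `lu1LocK_inv` in LU1). -/
theorem hasCharts_of_coord {y z : L} (hyz : AlgebraicIndependent k ![y, z]) (h : Coord k y z) :
    HasCharts k ({y, z} : Set L) := by
  classical
  intro S hS
  have hrange : Set.range ![y, z] = ({y, z} : Set L) := by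
    rw [Matrix.range_cons, Matrix.range_cons, Matrix.range_empty, Set.union_empty]
    rfl
  have hadj : ∀ x : L, x ∈ Algebra.adjoin k ({y, z} : Set L) ↔ ∃ P, ev2 k y z P = x := by
    intro x
    rw [← hrange, Algebra.adjoin_range_eq_range_aeval]
    rfl
  have hinj : Function.Injective (ev2 k y z) := hyz
  have hch : ∀ g : L, g ∈ S → ∃ P, ev2 k y z P = g := fun g hg => (hadj g).1 (hS g hg).2
  choose! P hP using hch
  obtain ⟨φ, a, c₁, c₂, hc₁, hc₂, hn₁, hn₂, hCo⟩ := h (S.image P) (by
    intro G hG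
    obtain ⟨g, hg, rfl⟩ := Finset.mem_image.1 hG
    intro h0
    have := hP g hg
    rw [h0, map_zero] at this
    exact (hS g hg).1 this.symm)
  set u : Fin 2 → L := ![algebraMap k L c₁⁻¹ * (ev2 k y z (φ (MvPolynomial.X 0)) - algebraMap k L a),
    algebraMap k L c₂⁻¹ * ev2 k y z (φ (MvPolynomial.X 1))] with hu
  set Af : MvPolynomial (Fin 2) k →ₐ[k] MvPolynomial (Fin 2) k := MvPolynomial.aeval
      ![MvPolynomial.C c₁⁻¹ * (MvPolynomial.X 0 - MvPolynomial.C a),
        MvPolynomial.C c₂⁻¹ * MvPolynomial.X 1] with hAf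
  have hCc : ∀ (f : MvPolynomial (Fin 2) k →ₐ[k] MvPolynomial (Fin 2) k) (c : k),
      f (MvPolynomial.C c) = MvPolynomial.C c := fun f c => by
    rw [← MvPolynomial.algebraMap_eq, AlgHom.commutes]
  have hev : ∀ c : k, ev2 k y z (MvPolynomial.C c) = algebraMap k L c := fun c => by
    rw [← MvPolynomial.algebraMap_eq, AlgHom.commutes]
  have hcompu : ∀ Q : MvPolynomial (Fin 2) k,
      ev2 k y z (φ (Af Q)) = MvPolynomial.aeval u Q := by
    intro Q
    have h1 : ((ev2 k y z).comp (φ : MvPolynomial (Fin 2) k →ₐ[k] MvPolynomial (Fin 2) k)).comp Af =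
        MvPolynomial.aeval u := by
      apply MvPolynomial.algHom_ext
      intro i
      fin_cases i
      · simp only [AlgHom.comp_apply, hAf, MvPolynomial.aeval_X, Fin.zero_eta,
          Matrix.cons_val_zero, map_mul, map_sub]
        rw [hCc, hCc, hev, hev, hu, Matrix.cons_val_zero]
        rfl
      · simp only [AlgHom.comp_apply, hAf, MvPolynomial.aeval_X, Fin.mk_one,
          Matrix.cons_val_one, Matrix.cons_val_fin_one, map_mul]
        rw [hCc, hev, hu, Matrix.cons_val_one, Matrix.cons_val_fin_one]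
        rfl
    exact DFunLike.congr_fun h1 Q
  have hinju : Function.Injective (MvPolynomial.aeval u : MvPolynomial (Fin 2) k →ₐ[k] L) := by
    intro Q Q' hQ
    rw [← hcompu, ← hcompu] at hQ
    exact plc_affine hc₁ hc₂ (φ.injective (hinj hQ))
  have hu1 : ∀ i, ‖u i‖ ≤ 1 := by
    intro i
    fin_cases i
    · simp only [hu, Fin.zero_eta, Matrix.cons_val_zero]
      rw [norm_mul, norm_algebraMap', norm_inv, inv_mul_le_iff₀ (norm_pos_iff.2 hc₁), mul_one]
      exact hn₁
    · simp only [hu, Fin.mk_one, Matrix.cons_val_one, Matrix.cons_val_fin_one]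
      rw [norm_mul, norm_algebraMap', norm_inv, inv_mul_le_iff₀ (norm_pos_iff.2 hc₂), mul_one]
      exact hn₂
  -- the units
  have hw : ∀ g ∈ S, ∃ (c : k) (w : L), c ≠ 0 ∧ w ∈ lu1B k u ∧ ‖w‖ = 1 ∧
      g = algebraMap k L c * w := by
    intro g hg
    obtain ⟨c, hc, Q, hQ, hQe⟩ := hCo (P g) (Finset.mem_image_of_mem P hg)
    have hlt := plc_norm_aeval_lt hu1 Q hQ
    refine ⟨c, 1 + MvPolynomial.aeval u Q, hc, ?_, ?_, ?_⟩
    · exact add_mem (one_mem _) (aeval_mem_lu1B Q (fun s => (hQ s).le))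
    · rw [lu1_norm_add_lt (by rw [norm_one]; exact hlt), norm_one]
    · have h1 : P g = φ (MvPolynomial.C c * (1 + Af Q)) := by
        rw [← hQe, AlgEquiv.apply_symm_apply]
      have e1 : φ (MvPolynomial.C c) = MvPolynomial.C c := hCc (φ : _ →ₐ[k] _) c
      rw [← hP g hg, h1, map_mul, map_mul, e1, hev, map_add, map_add, map_one, map_one, hcompu]
  choose! cc w hcc hwB hw1 hgw using hw
  have hw0 : ∀ g ∈ S, w g ≠ 0 := by
    intro g hg
    rw [← norm_ne_zero_iff, hw1 g hg]
    exact one_ne_zero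
  set D : L := ∏ g ∈ S, w g with hD
  have hDB : D ∈ lu1B k u := prod_mem fun g hg => hwB g hg
  have hD1 : ‖D‖ = 1 := by
    rw [hD, norm_prod]
    exact Finset.prod_eq_one fun g hg => hw1 g hg
  have hD0 : D ≠ 0 := by
    rw [← norm_ne_zero_iff, hD1]; exact one_ne_zero
  set B : Subalgebra (O k) L := lu1B k u ⊔ Algebra.adjoin (O k) {D⁻¹} with hB
  have hsm : Algebra.Smooth (O k) B := smooth_adjoin_inv (lu1B k u) (plc_smooth hinju) hDB hD0
  have hB0 : lu1B k u ≤ B := le_sup_left
  have hDi : D⁻¹ ∈ B := (le_sup_right : _ ≤ B) (Algebra.subset_adjoin (by simp))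
  have huad : ∀ i, u i ∈ Algebra.adjoin k ({y, z} : Set L) := by
    intro i
    rw [hadj]
    refine ⟨φ (Af (MvPolynomial.X i)), ?_⟩
    rw [hcompu, MvPolynomial.aeval_X]
  have hB0ad : ∀ x ∈ lu1B k u, x ∈ Algebra.adjoin k ({y, z} : Set L) := by
    intro x hx
    have h1 : Algebra.adjoin k (Set.range u) ≤ Algebra.adjoin k ({y, z} : Set L) := by
      refine Algebra.adjoin_le ?_
      rintro _ ⟨i, rfl⟩
      exact huad i
    exact h1 (lu1B_mem_adjoin hx)
  have hDad : D ∈ Algebra.adjoin k ({y, z} : Set L) := hB0ad D hDB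
  refine ⟨B, hsm, ?_, ?_, ?_, D, hDad, unitUpTo_of_mem (hB0 hDB) hD0 hDi, ?_⟩
  · have hle : B ≤ lu1Ball k L := by
      refine sup_le (lu1B_le_ball hu1) (Algebra.adjoin_le ?_)
      intro x hx
      rw [Set.mem_singleton_iff] at hx
      rw [hx]
      change ‖D⁻¹‖ ≤ 1
      rw [norm_inv, hD1, inv_one]
    exact fun b hb => hle hb
  · have hle : B ≤ ((IntermediateField.adjoin k ({y, z} : Set L)).toSubalgebra).restrictScalars
        (O k) := by
      refine sup_le ?_ (Algebra.adjoin_le ?_)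
      · intro x hx
        exact IntermediateField.algebra_adjoin_le_adjoin k _ (hB0ad x hx)
      · intro x hx
        rw [Set.mem_singleton_iff] at hx
        rw [hx]
        have h1 : D ∈ IntermediateField.adjoin k ({y, z} : Set L) :=
          IntermediateField.algebra_adjoin_le_adjoin k _ hDad
        exact (IntermediateField.adjoin k ({y, z} : Set L)).inv_mem h1
    exact fun b hb => hle hb
  · intro g hg
    have h1 : D = w g * ∏ x ∈ S.erase g, w x := by
      rw [hD, Finset.mul_prod_erase S w hg]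
    set R := ∏ x ∈ S.erase g, w x with hR
    have hRB : R ∈ B := hB0 (prod_mem fun x hx => hwB x (Finset.mem_of_mem_erase hx))
    have hR0 : R ≠ 0 := by
      intro h0
      apply hD0
      rw [h1, h0, mul_zero]
    have hw0g := hw0 g hg
    refine ⟨cc g, hcc g hg, w g, hB0 (hwB g hg), hw0g, ?_, hgw g hg⟩
    have h2 : (w g)⁻¹ = D⁻¹ * R := by
      rw [h1]; field_simp
    rw [h2]
    exact mul_mem hDi hRB
  · intro b hb
    have hle : B ≤ ((lu1Loc (Algebra.adjoin k ({y, z} : Set L)) D hDad).restrictScalars (O k)) := by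
      refine sup_le ?_ (Algebra.adjoin_le ?_)
      · intro x hx
        exact le_lu1Loc hDad (hB0ad x hx)
      · intro x hx
        rw [Set.mem_singleton_iff] at hx
        rw [hx]
        refine ⟨1, ?_⟩
        rw [pow_one, inv_mul_cancel₀ hD0]
        exact one_mem _
    exact hle hb

end MP1a953e
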