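import Pool.Agent.Lib.MP_1a953e_ag.PlDefs
import Pool.Agent.Lib.MP_1a953e_ag.Em1
import Pool.Agent.Lib.MP_1a953e_ag.DImmB

/-!
# Module PlEmb: the big field
-/

namespace MP1a953e

open Polynomial

universe v

private theorem ple_ultra (L : Type v) [NormedField L] [IsUltrametricDist L] :
    IsUltrametricDist (UniformSpace.Completion L) := by
  apply IsUltrametricDist.isUltrametricDist_of_isNonarchimedean_norm
  intro x y
  induction x, y using UniformSpace.Completion.induction_on₂ with
  | hp =>
    exact isClosed_le (by fun_prop) (by fun_prop)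
  | ih a b =>
    rw [← UniformSpace.Completion.coe_add]
    simp only [UniformSpace.Completion.norm_coe]
    exact IsUltrametricDist.norm_add_le_max a b

private theorem ple_aux (C : Type v) [NontriviallyNormedField C] [CompleteSpace C]
    [IsUltrametricDist C] :
    ∃ (Ω : Type v) (_ : NormedField Ω), IsUltrametricDist Ω ∧ IsAlgClosed Ω ∧
      ∃ (ι : C →+* Ω), (∀ x, ‖ι x‖ = ‖x‖) ∧ ∀ x : Ω, IsAlgebraic ι.fieldRange x := by
  let Ω := AlgebraicClosure C
  let nf : NormedField Ω := spectralNorm.normedField C Ω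
  refine ⟨Ω, nf, ?_, AlgebraicClosure.isAlgClosed C, algebraMap C Ω, ?_, ?_⟩
  · apply IsUltrametricDist.isUltrametricDist_of_isNonarchimedean_norm
    exact isNonarchimedean_spectralNorm (K := C) (L := Ω)
  · intro x
    exact spectralNorm_extends (L := Ω) x
  · intro x
    obtain ⟨P, hP, hPx⟩ := (Algebra.IsAlgebraic.isAlgebraic x : IsAlgebraic C x)
    refine ⟨P.map (algebraMap C Ω).rangeRestrictField, ?_, ?_⟩
    · exact (Polynomial.map_ne_zero_iff (RingHom.injective _)).2 hP
    · rw [aeval_def, eval₂_map]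
      exact hPx

/-- EB1.  Proof.  Let `K` be the completion of `L` and `Ω` the algebraic closure of `K` with the spectral
norm, as in Em1 (private lemmas `em1_ultra`, `em1_aux`; `spectralNorm.normedField`; the type
`AlgebraicClosure (UniformSpace.Completion L)`), a normed algebra over `k` through `L`. `L` is nontrivially
normed since `k` is. `Imk k Ω`: `immAll_of_alg` (DImmB) with `F = C = ` image of `k` in `Ω`, `K = ` image
of the completion (`Imm F K` from `himm` and density: approximate `x ∈ K`, `x ≠ 0`, by `x' ∈ L` with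
`‖x - x'‖ < ‖x‖`), `halg`: `Ω` is algebraic over `K`. -/
theorem exists_imk_emb {k L : Type v} [NontriviallyNormedField k] [IsAlgClosed k] [NormedField L]
    [IsUltrametricDist L] [NormedAlgebra k L]
    (himm : ∀ x : L, x ≠ 0 → ∃ c : k, ‖x - algebraMap k L c‖ < ‖x‖) :
    ∃ (Ω : Type v) (_ : NormedField Ω) (_ : NormedAlgebra k Ω), IsUltrametricDist Ω ∧
      IsAlgClosed Ω ∧ Imk k Ω ∧ ∃ (ι : L →ₐ[k] Ω) (K : Subfield Ω), (∀ x, ‖ι x‖ = ‖x‖) ∧
        IsComplete (K : Set Ω) ∧ ∀ x, ι x ∈ K := by
  obtain ⟨c₁, hc₁⟩ := NormedField.exists_one_lt_norm k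
  have hnt : ∃ x : L, 1 < ‖x‖ := ⟨algebraMap k L c₁, by rwa [norm_algebraMap']⟩
  have hu := ple_ultra L
  let nC : NontriviallyNormedField (UniformSpace.Completion L) :=
    { (inferInstance : NormedField (UniformSpace.Completion L)) with
      non_trivial := by
        obtain ⟨x, hx⟩ := hnt
        refine ⟨(x : UniformSpace.Completion L), ?_⟩
        rw [UniformSpace.Completion.norm_coe]
        exact hx }
  obtain ⟨Ω, nf, hΩ, hac, φ, hφ, halg⟩ := ple_aux (UniformSpace.Completion L)
  set ι : L →+* Ω := φ.comp UniformSpace.Completion.coeRingHom with hι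
  have hιn : ∀ x, ‖ι x‖ = ‖x‖ := by
    intro x
    have h1 := hφ (x : UniformSpace.Completion L)
    rw [UniformSpace.Completion.norm_coe] at h1
    exact h1
  set j : k →+* Ω := ι.comp (algebraMap k L) with hj
  have hjn : ∀ c, ‖j c‖ = ‖c‖ := by
    intro c
    rw [hj, RingHom.comp_apply, hιn, norm_algebraMap']
  let alg : Algebra k Ω := j.toAlgebra
  let nalg : NormedAlgebra k Ω :=
    { alg with
      norm_smul_le := by
        intro c x
        have h1 : c • x = j c * x := rfl
        rw [h1, norm_mul, hjn] }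
  have hcomplete : IsComplete ((φ.fieldRange : Subfield Ω) : Set Ω) := by
    have hiso : Isometry φ := AddMonoidHomClass.isometry_of_norm φ hφ
    have h1 : ((φ.fieldRange : Subfield Ω) : Set Ω) = Set.range φ := RingHom.coe_fieldRange φ
    rw [h1]
    exact hiso.isUniformInducing.isComplete_range
  have hImm : Imm j.fieldRange φ.fieldRange := by
    refine ⟨?_, ?_⟩
    · rintro _ ⟨c, rfl⟩
      exact ⟨_, rfl⟩
    · rintro _ ⟨x, rfl⟩ hx
      have hx0 : 0 < ‖φ x‖ := norm_pos_iff.2 hx
      obtain ⟨x', hx'⟩ := UniformSpace.Completion.denseRange_coe.exists_dist_lt x hx0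
      rw [dist_eq_norm, ← hφ, map_sub] at hx'
      have h1 : ‖φ (x' : UniformSpace.Completion L)‖ = ‖φ x‖ := by
        have h2 := IsUltrametricDist.norm_add_eq_max_of_norm_ne_norm (x := φ x)
          (y := -(φ x - φ (x' : UniformSpace.Completion L))) (by
            rw [norm_neg]; exact ne_of_gt hx')
        rw [norm_neg, max_eq_left hx'.le] at h2
        rw [← h2]
        congr 1
        ring
      have h3 : ‖x'‖ = ‖φ x‖ := by
        rw [← h1]
        exact (hιn x').symm
      have hx'0 : x' ≠ 0 := by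
        rw [← norm_pos_iff, h3]; exact hx0
      obtain ⟨c, hc⟩ := himm x' hx'0
      refine ⟨j c, ⟨c, rfl⟩, ?_⟩
      have h4 : φ x - j c = (φ x - φ (x' : UniformSpace.Completion L)) +
          ι (x' - algebraMap k L c) := by
        rw [map_sub]
        change φ x - ι (algebraMap k L c) = (φ x - ι x') + (ι x' - ι (algebraMap k L c))
        ring
      rw [h4]
      refine (IsUltrametricDist.norm_add_le_max _ _).trans_lt (max_lt hx' ?_)
      rw [hιn, ← h3]
      exact hc
  have hCclosed : IsAlgClosed j.fieldRange :=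
    IsAlgClosed.of_ringEquiv k j.fieldRange (RingEquiv.ofBijective j.rangeRestrictField
      ⟨RingHom.injective _, by
        rintro ⟨_, c, rfl⟩
        exact ⟨c, rfl⟩⟩)
  have hall : ImmAll j.fieldRange := by
    refine immAll_of_alg hImm hcomplete ?_ halg le_rfl hCclosed
    refine ⟨j c₁, ?_, ?_⟩
    · exact hImm.1 ⟨c₁, rfl⟩
    · rw [hjn]; exact hc₁
  refine ⟨Ω, nf, nalg, hΩ, hac, ?_, { ι with commutes' := fun _ => rfl }, φ.fieldRange, hιn,
    hcomplete, fun x => ⟨_, rfl⟩⟩
  intro x hx
  obtain ⟨f, ⟨c, rfl⟩, hf⟩ := hall x hx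
  exact ⟨c, hf⟩

end MP1a953e
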