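import Pool.Agent.Lib.MP_1a953e_ag.PlLocA

/-!
# Module PlLocB: good coordinates of the plane near a point
-/

namespace MP1a953e

open Polynomial

section aux

variable {k Ω : Type*} [NontriviallyNormedField k] [NormedField Ω]
  [IsUltrametricDist Ω] [NormedAlgebra k Ω]

omit [IsUltrametricDist Ω] in
private theorem locb_ev2_C (a b : Ω) (c : k) :
    ev2 k a b (MvPolynomial.C c) = algebraMap k Ω c := by
  rw [ev2, MvPolynomial.aeval_C]

omit [IsUltrametricDist Ω] in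
private theorem locb_ev2_X0 (a b : Ω) : ev2 k a b (MvPolynomial.X 0) = a := by
  simp [ev2]

omit [IsUltrametricDist Ω] in
private theorem locb_ev2_X1 (a b : Ω) : ev2 k a b (MvPolynomial.X 1) = b := by
  simp [ev2]

omit [IsUltrametricDist Ω] in
private theorem locb_vpol_C (a b : Ω) (c : k) :
    vpol k a b (MvPolynomial.C c) = Polynomial.C (algebraMap k Ω c) := by
  rw [vpol, MvPolynomial.aeval_C]
  rfl

private theorem locb_coeff_zero (a b : Ω) (P : MvPolynomial (Fin 2) k) :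
    (vpol k a b P).coeff 0 = ev2 k a b P := by
  rw [coeff_zero_eq_eval_zero, eval_vpol, add_zero]

omit [IsUltrametricDist Ω] in
private theorem locb_vpol_X0 (a b : Ω) (p : Polynomial k) :
    vpol k a b (aeval (MvPolynomial.X 0 : MvPolynomial (Fin 2) k) p) =
      Polynomial.C (aeval a p) := by
  have h1 : vpol k a b (aeval (MvPolynomial.X 0 : MvPolynomial (Fin 2) k) p) =
      aeval (vpol k a b (MvPolynomial.X 0)) p := by
    rw [aeval_algHom_apply]
  have h2 : vpol k a b (MvPolynomial.X 0) = Polynomial.C a := by simp [vpol]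
  rw [h1, h2]
  have h3 : aeval (Polynomial.C a) p = (Polynomial.CAlgHom (R := k) (A := Ω)) (aeval a p) := by
    rw [← aeval_algHom_apply]
    rfl
  rw [h3]
  rfl

omit [IsUltrametricDist Ω] in
private theorem locb_vpol_X1 (a : Ω) (l : ℕ) :
    vpol k a 0 ((MvPolynomial.X 1 : MvPolynomial (Fin 2) k) ^ l) = Polynomial.X ^ l := by
  rw [map_pow]
  simp [vpol]

omit [IsUltrametricDist Ω] in
private theorem locb_vpol_expand (u : Ω) (N : ℕ) (p : ℕ → Polynomial k) {l : ℕ}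
    (hl : l ∈ Finset.range (N + 1)) :
    (vpol k u 0 (∑ l ∈ Finset.range (N + 1),
      aeval (MvPolynomial.X 0 : MvPolynomial (Fin 2) k) (p l) * MvPolynomial.X 1 ^ l)).coeff l =
      aeval u (p l) := by
  rw [map_sum, finsetSum_coeff]
  rw [Finset.sum_eq_single l]
  · rw [map_mul, locb_vpol_X0, locb_vpol_X1, coeff_C_mul_X_pow, if_pos rfl]
  · intro b _ hb
    rw [map_mul, locb_vpol_X0, locb_vpol_X1, coeff_C_mul_X_pow, if_neg (Ne.symm hb)]
  · intro h
    exact absurd hl h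

private theorem locb_taylor {k : Type*} [Field k] (a : k) (p : Polynomial k) :
    aeval (MvPolynomial.X 0 : MvPolynomial (Fin 2) k) p =
      ∑ j ∈ Finset.range (p.natDegree + 1), MvPolynomial.C ((hasseDeriv j p).eval a) *
        (MvPolynomial.X 0 - MvPolynomial.C a) ^ j := by
  have h := sum_taylor_eq p a
  rw [Polynomial.sum_over_range' _ (by simp) (p.natDegree + 1)
    (by rw [natDegree_taylor]; omega)] at h
  conv_lhs => rw [← h]
  rw [map_sum]
  refine Finset.sum_congr rfl fun j _ => ?_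
  rw [map_mul, map_pow, map_sub, aeval_C, aeval_X, aeval_C, taylor_coeff]
  rfl

/-- a common radius -/
private theorem locb_min {ι : Type*} (S : Finset ι) (r : ℝ) (F : ι → ℝ → Prop)
    (hF : ∀ i R R', R' ≤ R → F i R → F i R') (h : ∀ i ∈ S, ∃ R > r, F i R) :
    ∃ R > r, ∀ i ∈ S, F i R := by
  classical
  induction S using Finset.induction_on with
  | empty => exact ⟨r + 1, by simp, by simp⟩
  | insert a S _ ih =>
    obtain ⟨R1, h1, h2⟩ := ih (fun i hi => h i (Finset.mem_insert_of_mem hi))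
    obtain ⟨R2, h3, h4⟩ := h a (Finset.mem_insert_self _ _)
    refine ⟨min R1 R2, lt_min h1 h3, fun i hi => ?_⟩
    rcases Finset.mem_insert.1 hi with rfl | hi
    · exact hF _ _ _ (min_le_right _ _) h4
    · exact hF _ _ _ (min_le_left _ _) (h2 i hi)

/-- elements of `k` of given norm -/
private theorem locb_norm (him : Imk k Ω) {x : Ω} (hx : x ≠ 0) :
    ∃ c : k, c ≠ 0 ∧ ‖c‖ = ‖x‖ ∧ ‖x - algebraMap k Ω c‖ < ‖x‖ := by
  obtain ⟨c, hc⟩ := him x hx
  have h1 : ‖algebraMap k Ω c‖ = ‖x‖ := by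
    have h2 : algebraMap k Ω c = x + -(x - algebraMap k Ω c) := by ring
    have h3 : ‖-(x - algebraMap k Ω c)‖ < ‖x‖ := by rwa [norm_neg]
    rw [h2, IsUltrametricDist.norm_add_eq_max_of_norm_ne_norm h3.ne', max_eq_left h3.le]
  rw [norm_algebraMap'] at h1
  refine ⟨c, ?_, h1, hc⟩
  intro h0
  rw [h0, norm_zero] at h1
  exact hx (norm_eq_zero.1 h1.symm)

omit [IsUltrametricDist Ω] in
/-- coefficients of sums -/
private theorem locb_coeff_sum [IsUltrametricDist k] {ι : Type*} (s : Finset ι)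
    (f : ι → MvPolynomial (Fin 2) k) {M : ℝ} (hM : 0 ≤ M)
    (h : ∀ i ∈ s, ∀ m, ‖(f i).coeff m‖ ≤ M) (m : Fin 2 →₀ ℕ) :
    ‖(∑ i ∈ s, f i).coeff m‖ ≤ M := by
  rw [MvPolynomial.coeff_sum]
  exact IsUltrametricDist.norm_sum_le_of_forall_le_of_nonneg hM fun i hi => h i hi m

omit [IsUltrametricDist Ω] in
private theorem locb_bound (H : Polynomial Ω) {s c : ℝ} (hs : 0 ≤ s)
    (h : ∀ j, ‖H.coeff j‖ * s ^ j < c) : ∃ M < c, ∀ j, ‖H.coeff j‖ * s ^ j ≤ M := by
  obtain ⟨i, -, hi⟩ := Finset.exists_max_image (Finset.range (H.natDegree + 1))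
    (fun j => ‖H.coeff j‖ * s ^ j) ⟨0, Finset.mem_range.2 (Nat.succ_pos _)⟩
  refine ⟨‖H.coeff i‖ * s ^ i, h i, fun j => ?_⟩
  by_cases hj : j < H.natDegree + 1
  · exact hi j (Finset.mem_range.2 hj)
  · rw [coeff_eq_zero_of_natDegree_lt (by omega), norm_zero, zero_mul]
    positivity

private theorem locb_poly [IsAlgClosed k] [IsAlgClosed Ω] (him : Imk k Ω) {u w' : Ω}
    (hu : 0 < rr k u) (hw' : w' ≠ 0) {M : ℝ} (P : MvPolynomial (Fin 2) k)
    (hVB : VB k u 0 ‖w'‖ M P) :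
    ∃ R > rr k u, ∀ a c₁ c₂ : k, ‖u - algebraMap k Ω a‖ < R → ‖c₁‖ = ‖u - algebraMap k Ω a‖ →
      ‖c₂‖ = ‖w'‖ → c₁ ≠ 0 → c₂ ≠ 0 → ∃ Q : MvPolynomial (Fin 2) k, (∀ m, ‖Q.coeff m‖ ≤ M) ∧
        P = MvPolynomial.aeval ![MvPolynomial.C c₁⁻¹ * (MvPolynomial.X 0 - MvPolynomial.C a),
            MvPolynomial.C c₂⁻¹ * MvPolynomial.X 1] Q := by
  obtain ⟨N, p, hp⟩ := exists_expand P
  have hM0 : 0 ≤ M := (norm_nonneg _).trans (hVB 0 (by simp))
  have hco : ∀ l ∈ Finset.range (N + 1), ‖aeval u (p l)‖ * ‖w'‖ ^ l ≤ M := by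
    intro l hl
    have h := (vb_iff hw' P).1 hVB l
    rw [hp, locb_vpol_expand u N p hl] at h
    exact h
  obtain ⟨R, hR, hR'⟩ := locb_min (Finset.range (N + 1)) (rr k u)
    (fun l R => ∀ a : k, ‖u - algebraMap k Ω a‖ < R → ∀ j,
      ‖(hasseDeriv j (p l)).eval a‖ * ‖u - algebraMap k Ω a‖ ^ j ≤ ‖aeval u (p l)‖)
    (fun i R R' h1 h2 a ha => h2 a (ha.trans_le h1)) (fun l _ => exists_near_unif him hu (p l))
  refine ⟨R, hR, fun a c₁ c₂ ha h1 h2 hc1 hc2 => ?_⟩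
  have : IsUltrametricDist k := IsUltrametricDist.of_normedAlgebra' Ω
  refine ⟨∑ l ∈ Finset.range (N + 1), ∑ j ∈ Finset.range ((p l).natDegree + 1),
    MvPolynomial.C ((hasseDeriv j (p l)).eval a * c₁ ^ j * c₂ ^ l) * MvPolynomial.X 0 ^ j *
      MvPolynomial.X 1 ^ l, ?_, ?_⟩
  · refine locb_coeff_sum _ _ hM0 (fun l hl => locb_coeff_sum _ _ hM0 (fun j hj m => ?_))
    have h3 := hR' l hl a ha j
    have h4 := hco l hl
    have h5 : ‖(hasseDeriv j (p l)).eval a * c₁ ^ j * c₂ ^ l‖ ≤ M := by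
      rw [norm_mul, norm_mul, norm_pow, norm_pow, h1, h2]
      exact (mul_le_mul_of_nonneg_right h3 (by positivity)).trans h4
    have h6 : (MvPolynomial.C ((hasseDeriv j (p l)).eval a * c₁ ^ j * c₂ ^ l) *
        MvPolynomial.X 0 ^ j * MvPolynomial.X 1 ^ l : MvPolynomial (Fin 2) k) =
        MvPolynomial.monomial (Finsupp.single 0 j + Finsupp.single 1 l)
          ((hasseDeriv j (p l)).eval a * c₁ ^ j * c₂ ^ l) := by
      rw [MvPolynomial.X_pow_eq_monomial, MvPolynomial.X_pow_eq_monomial,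
        MvPolynomial.C_mul_monomial, MvPolynomial.monomial_mul]
      simp
    rw [h6, MvPolynomial.coeff_monomial]
    split_ifs
    · exact h5
    · simpa using hM0
  · rw [map_sum]
    conv_lhs => rw [hp]
    refine Finset.sum_congr rfl fun l _ => ?_
    rw [locb_taylor a (p l), Finset.sum_mul, map_sum]
    refine Finset.sum_congr rfl fun j _ => ?_
    have e1 : ∀ c : k, MvPolynomial.aeval
        ![MvPolynomial.C c₁⁻¹ * (MvPolynomial.X 0 - MvPolynomial.C a),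
            MvPolynomial.C c₂⁻¹ * MvPolynomial.X 1] (MvPolynomial.C c : MvPolynomial (Fin 2) k) =
        (MvPolynomial.C c : MvPolynomial (Fin 2) k) := by
      intro c
      rw [MvPolynomial.aeval_C]
      rfl
    rw [map_mul, map_mul, e1, map_pow, map_pow, MvPolynomial.aeval_X, MvPolynomial.aeval_X]
    simp only [Matrix.cons_val_zero, Matrix.cons_val_one, mul_pow, map_mul, map_pow]
    have e2 : (MvPolynomial.C c₁ : MvPolynomial (Fin 2) k) ^ j * MvPolynomial.C c₁⁻¹ ^ j = 1 := by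
      rw [← mul_pow, ← map_mul, mul_inv_cancel₀ hc1, map_one, one_pow]
    have e3 : (MvPolynomial.C c₂ : MvPolynomial (Fin 2) k) ^ l * MvPolynomial.C c₂⁻¹ ^ l = 1 := by
      rw [← mul_pow, ← map_mul, mul_inv_cancel₀ hc2, map_one, one_pow]
    linear_combination (-(MvPolynomial.C ((hasseDeriv j (p l)).eval a) *
      (MvPolynomial.X 0 - MvPolynomial.C a) ^ j * MvPolynomial.X 1 ^ l *
        ((MvPolynomial.C c₂ : MvPolynomial (Fin 2) k) ^ l * MvPolynomial.C c₂⁻¹ ^ l))) * e2 -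
      (MvPolynomial.C ((hasseDeriv j (p l)).eval a) *
      (MvPolynomial.X 0 - MvPolynomial.C a) ^ j * MvPolynomial.X 1 ^ l) * e3

end aux

variable {k Ω : Type*} [NontriviallyNormedField k] [IsAlgClosed k] [NormedField Ω]
  [IsUltrametricDist Ω] [NormedAlgebra k Ω] [IsAlgClosed Ω]

/-- the constant part of `g` on the vertical disc -/
private theorem locb_const (him : Imk k Ω) {y ρ w : Ω} (hw : w ≠ 0)
    (g : MvPolynomial (Fin 2) k) (h0 : ev2 k y ρ g ≠ 0)
    (h : ∀ j, 1 ≤ j → ‖(vpol k y ρ g).coeff j‖ * ‖w‖ ^ j < ‖ev2 k y ρ g‖) :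
    ∃ c : k, c ≠ 0 ∧ ∃ M < ‖c‖, VB k y ρ ‖w‖ M (g - MvPolynomial.C c) := by
  obtain ⟨c, hc0, hc, hlt⟩ := locb_norm him h0
  have hall : ∀ j, ‖(vpol k y ρ (g - MvPolynomial.C c)).coeff j‖ * ‖w‖ ^ j < ‖c‖ := by
    intro j
    rcases Nat.eq_zero_or_pos j with rfl | hj
    · rw [locb_coeff_zero, map_sub, locb_ev2_C, pow_zero, mul_one, hc]
      exact hlt
    · rw [map_sub, coeff_sub, locb_vpol_C, coeff_C, if_neg (by omega), sub_zero, hc]
      exact h j hj
  obtain ⟨M, hM, hle⟩ := locb_bound (vpol k y ρ (g - MvPolynomial.C c)) (norm_nonneg w) hall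
  exact ⟨c, hc0, M, hM, (vb_iff hw _).2 hle⟩

/-- LC2.  Good coordinates of the plane near a point, from the straightening of the vertical
discs. -/
theorem coord_of_str (him : Imk k Ω) {y z : Ω} (hyz : AlgebraicIndependent k ![y, z])
    (hstr : ∀ ρ w : Ω, IsAlgebraic (adj (kr k Ω) y) ρ → w ≠ 0 → Str k y ρ w) : Coord k y z := by
  intro S hS
  obtain ⟨ρ, hρ, hne, hcen⟩ := exists_center him hyz S hS
  obtain ⟨φ, u, w', hw', hu, hVB⟩ := hstr ρ (z - ρ) hρ hne
  obtain ⟨R, hR, hR'⟩ := locb_min S (rr k u) (fun g R => ∀ a c₁ c₂ : k,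
      ‖u - algebraMap k Ω a‖ < R → ‖c₁‖ = ‖u - algebraMap k Ω a‖ →
      ‖c₂‖ = ‖w'‖ → c₁ ≠ 0 → c₂ ≠ 0 → ∃ c : k, c ≠ 0 ∧
        ∃ Q : MvPolynomial (Fin 2) k, (∀ m, ‖Q.coeff m‖ < 1) ∧
        φ.symm g = MvPolynomial.C c * (1 + MvPolynomial.aeval
          ![MvPolynomial.C c₁⁻¹ * (MvPolynomial.X 0 - MvPolynomial.C a),
            MvPolynomial.C c₂⁻¹ * MvPolynomial.X 1] Q))
    (fun g R R' h1 h2 a c₁ c₂ ha => h2 a c₁ c₂ (ha.trans_le h1)) (by
      intro g hg
      obtain ⟨h0, h1⟩ := hcen g hg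
      obtain ⟨c, hc0, M, hM, hV⟩ := locb_const him hne g h0 h1
      have hV' : VB k u 0 ‖w'‖ M (φ.symm g - MvPolynomial.C c) := by
        rw [← hVB]
        have e : φ (φ.symm g - MvPolynomial.C c) = g - MvPolynomial.C c := by
          rw [map_sub, AlgEquiv.apply_symm_apply]
          congr 1
          exact φ.commutes c
        rw [e]
        exact hV
      obtain ⟨R, hR, hR'⟩ := locb_poly him hu hw' _ hV'
      refine ⟨R, hR, fun a c₁ c₂ ha e1 e2 n1 n2 => ?_⟩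
      obtain ⟨Q, hQ, hP⟩ := hR' a c₁ c₂ ha e1 e2 n1 n2
      refine ⟨c, hc0, MvPolynomial.C c⁻¹ * Q, fun m => ?_, ?_⟩
      · rw [MvPolynomial.coeff_C_mul, norm_mul, norm_inv]
        have hcp : 0 < ‖c‖ := norm_pos_iff.2 hc0
        rw [inv_mul_lt_iff₀ hcp, mul_one]
        exact (hQ m).trans_lt hM
      · rw [map_mul, MvPolynomial.aeval_C]
        have e3 : (algebraMap k (MvPolynomial (Fin 2) k) c⁻¹) = MvPolynomial.C c⁻¹ := rfl
        rw [e3, mul_add, ← mul_assoc, ← map_mul, mul_inv_cancel₀ hc0, map_one, one_mul, ← hP]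
        ring)
  obtain ⟨a, ha⟩ := exists_lt_of_rr_lt (k := k) hR
  have hlt := rr_lt him hu a
  have hua : u - algebraMap k Ω a ≠ 0 := by
    rw [← norm_pos_iff]
    exact (hu.trans hlt)
  obtain ⟨c₁, hc1, e1, -⟩ := locb_norm him hua
  obtain ⟨c₂, hc2, e2, -⟩ := locb_norm him hw'
  refine ⟨φ, a, c₁, c₂, hc1, hc2, ?_, ?_, fun g hg => hR' g hg a c₁ c₂ ha e1 e2 hc1 hc2⟩
  · have h1 : VB k u 0 ‖w'‖ ‖u - algebraMap k Ω a‖ (MvPolynomial.X 0 - MvPolynomial.C a) := by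
      intro t _
      rw [map_sub, locb_ev2_X0, locb_ev2_C]
    have h2 := (hVB _ _).2 h1 (z - ρ) le_rfl
    rw [add_sub_cancel, map_sub, map_sub] at h2
    have e : φ (MvPolynomial.C a) = MvPolynomial.C a := φ.commutes a
    rw [e, locb_ev2_C] at h2
    rw [e1]
    exact h2
  · have h1 : VB k u 0 ‖w'‖ ‖w'‖ (MvPolynomial.X 1) := by
      intro t ht
      rw [zero_add, locb_ev2_X1]
      exact ht
    have h2 := (hVB _ _).2 h1 (z - ρ) le_rfl
    rw [add_sub_cancel] at h2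
    rw [e2]
    exact h2

end MP1a953e
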