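import Pool.Agent.Lib.MP_1a953e_ag.LUDefs

/-!
# Module LU2: a good integral generator
-/

namespace MP1a953e

open Polynomial

variable {k L : Type*} [NontriviallyNormedField k] [IsUltrametricDist k]
variable [NormedField L] [IsUltrametricDist L] [NormedAlgebra k L]

private theorem lu2_norm_sum_lt {ι : Type*} (s : Finset ι) (f : ι → L) {C : ℝ} (hC : 0 < C)
    (h : ∀ i ∈ s, ‖f i‖ < C) : ‖∑ i ∈ s, f i‖ < C := by
  classical
  induction s using Finset.induction_on with
  | empty => simpa using hC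
  | insert a s ha ih =>
    rw [Finset.sum_insert ha]
    refine lt_of_le_of_lt (IsUltrametricDist.norm_add_le_max _ _) (max_lt (h a (by simp)) ?_)
    exact ih fun i hi => h i (by simp [hi])

private theorem lu2_eval_lt (P : Polynomial L) {x : L} (hx : ‖x‖ ≤ 1)
    (h : ∀ i, ‖P.coeff i‖ < 1) : ‖P.eval x‖ < 1 := by
  rw [Polynomial.eval_eq_sum_range]
  refine lu2_norm_sum_lt _ _ one_pos fun i _ => ?_
  rw [norm_mul, norm_pow]
  calc ‖P.coeff i‖ * ‖x‖ ^ i ≤ ‖P.coeff i‖ * 1 :=
        mul_le_mul_of_nonneg_left (pow_le_one₀ (norm_nonneg _) hx) (norm_nonneg _)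
    _ < 1 := by rw [mul_one]; exact h i

private theorem lu2_norm_nat_le (n : ℕ) : ‖(n : L)‖ ≤ 1 := by
  induction n with
  | zero => simp
  | succ n ih =>
    push_cast
    exact (IsUltrametricDist.norm_add_le_max _ _).trans (max_le ih (by simp))

private theorem lu2_deriv_coeff_lt (P : Polynomial L) (h : ∀ i, ‖P.coeff i‖ < 1) (i : ℕ) :
    ‖(derivative P).coeff i‖ < 1 := by
  rw [Polynomial.coeff_derivative, norm_mul]
  calc ‖P.coeff (i + 1)‖ * ‖((i : L) + 1)‖ ≤ ‖P.coeff (i + 1)‖ * 1 := by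
        refine mul_le_mul_of_nonneg_left ?_ (norm_nonneg _)
        have := lu2_norm_nat_le (L := L) (i + 1)
        push_cast at this
        exact this
    _ < 1 := by rw [mul_one]; exact h _

/-- a polynomial close to `X ^ N + X ^ (N-1)` has unit derivative at a point close to `-1` -/
private theorem lu2_deriv_norm {N : ℕ} (hN : 1 ≤ N) (H : Polynomial L) {ζ : L}
    (hH : ∀ i, ‖(H - (X ^ N + X ^ (N - 1))).coeff i‖ < 1) (hζ : ‖ζ + 1‖ < 1) :
    ‖(derivative H).eval ζ‖ = 1 := by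
  have hζ1 : ‖ζ‖ = 1 := by
    have h1 : ζ = (ζ + 1) + (-1) := by ring
    have h2 : ‖(ζ + 1) + (-1 : L)‖ = max ‖ζ + 1‖ ‖(-1 : L)‖ := by
      apply IsUltrametricDist.norm_add_eq_max_of_norm_ne_norm
      rw [norm_neg, norm_one]
      exact hζ.ne
    rw [← h1, norm_neg, norm_one] at h2
    rw [h2]
    exact max_eq_right hζ.le
  have h3 : (derivative H).eval ζ =
      (derivative (H - (X ^ N + X ^ (N - 1)))).eval ζ +
        (((N - 1 : ℕ) : L) * ζ ^ (N - 1 - 1) * (ζ + 1) + ζ ^ (N - 1)) := by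
    have h4 : (X ^ N + X ^ (N - 1) : Polynomial L) = X ^ (N - 1) * (X + 1) := by
      obtain ⟨n, rfl⟩ : ∃ n, N = n + 1 := ⟨N - 1, by omega⟩
      simp only [Nat.add_sub_cancel]
      ring
    rw [h4]
    simp only [derivative_sub, derivative_mul, derivative_X_pow, derivative_add, derivative_X,
      derivative_one, eval_sub, eval_add, eval_mul, eval_pow, eval_X, eval_one,
      eval_C, add_zero, mul_one]
    ring
  rw [h3]
  have h5 : ‖(derivative (H - (X ^ N + X ^ (N - 1)))).eval ζ‖ < 1 :=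
    lu2_eval_lt _ hζ1.le (lu2_deriv_coeff_lt _ hH)
  have h6 : ‖((N - 1 : ℕ) : L) * ζ ^ (N - 1 - 1) * (ζ + 1)‖ < 1 := by
    rw [norm_mul, norm_mul, norm_pow, hζ1, one_pow, mul_one]
    calc ‖((N - 1 : ℕ) : L)‖ * ‖ζ + 1‖ ≤ 1 * ‖ζ + 1‖ :=
          mul_le_mul_of_nonneg_right (lu2_norm_nat_le _) (norm_nonneg _)
      _ < 1 := by rw [one_mul]; exact hζ
  have h7 : ‖ζ ^ (N - 1)‖ = 1 := by rw [norm_pow, hζ1, one_pow]
  rw [← add_assoc]
  have h8 : ‖(derivative (H - (X ^ N + X ^ (N - 1)))).eval ζ +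
      ((N - 1 : ℕ) : L) * ζ ^ (N - 1 - 1) * (ζ + 1)‖ < 1 :=
    lt_of_le_of_lt (IsUltrametricDist.norm_add_le_max _ _) (max_lt h5 h6)
  rw [IsUltrametricDist.norm_add_eq_max_of_norm_ne_norm (by rw [h7]; exact h8.ne), h7]
  exact max_eq_right h8.le

/-- LU2 (a good integral generator).  Proof.  Let `θ` be a primitive element of `L/E0`, `F` its minimal
polynomial, of degree `N`, `F'(θ) ≠ 0`. For `s ∈ E0` and `0 ≠ δ ∈ k` with `‖θ - s‖ ≤ ‖δ‖` small,
`η = (θ - s) / δ` is a root of `F (s + δ X) / (δ F'(s)) = a₀ + X + ∑_{i≥2} a i X ^ i` with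
`‖a i‖ < 1` for `i ≥ 2` and `‖a₀‖ ≤ 1`. Then `η₁ = η + a₀` is a root of a polynomial
`b₀ + b₁ X + ... + b_N X ^ N` over `E0` with `‖b₀‖ < 1`, `‖b₁ - 1‖ < 1`, `‖b i‖ < 1` for
`i ≥ 2`. If `b₀ = 0`, then `N = 1` (irreducibility) and `ζ = 1` works. Otherwise
`ζ = b₀ / η₁` satisfies the monic equation `ζ ^ N + b₁ ζ ^ (N-1) + ∑_{i ≥ 2} b i b₀ ^ (i-1) ζ ^ (N-i) = 0`
of degree `N` (its minimal polynomial, as `E0(ζ) = L`), `ζ = - b₁ - ∑_{i≥2} b i η₁ ^ (i-1)` is close to
`-1`, and the derivative at `ζ` is close to `N ζ ^ (N-1) + (N-1) ζ ^ (N-2)`, of norm `1`. -/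
theorem exists_zeta (E0 : IntermediateField k L) [Algebra.IsSeparable E0 L]
    [FiniteDimensional E0 L] (hdense : ∀ x : L, ∀ ε : ℝ, 0 < ε → ∃ y ∈ E0, ‖x - y‖ < ε)
    (hval : ∀ x : L, ∃ c : k, ‖c‖ = ‖x‖) :
    ∃ ζ : L, ‖ζ‖ ≤ 1 ∧ IntermediateField.adjoin E0 {ζ} = ⊤ ∧
      (∀ i, ‖((minpoly E0 ζ).coeff i : L)‖ ≤ 1) ∧
      ‖aeval ζ (derivative (minpoly E0 ζ))‖ = 1 := by
  classical
  obtain ⟨θ, hθ⟩ := Field.exists_primitive_element E0 L
  set F := minpoly E0 θ with hF
  have hint : IsIntegral E0 θ := Algebra.IsIntegral.isIntegral θ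
  have hsep : F.Separable := Algebra.IsSeparable.isSeparable E0 θ
  have hder : aeval θ (derivative F) ≠ 0 :=
    hsep.aeval_derivative_ne_zero (minpoly.aeval E0 θ)
  set N := F.natDegree with hN
  have hN1 : 1 ≤ N := minpoly.natDegree_pos hint
  set FL := F.map (algebraMap E0 L) with hFL
  have hFLθ : FL.eval θ = 0 := by
    rw [hFL, eval_map_algebraMap]; exact minpoly.aeval E0 θ
  have hFLd : FL.derivative.eval θ ≠ 0 := by
    rw [hFL, derivative_map, eval_map_algebraMap]; exact hder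
  -- continuity
  have hcd : Filter.Tendsto (fun s => FL.derivative.eval s) (nhds θ) (nhds (FL.derivative.eval θ)) :=
    (FL.derivative.continuous.tendsto θ)
  have e1 : ∀ᶠ s in nhds θ, FL.derivative.eval s ≠ 0 := hcd.eventually_ne hFLd
  have e2 : ∀ᶠ s in nhds θ, ∀ i ∈ Finset.Icc 2 N,
      ‖(hasseDeriv i FL).eval s * (FL.eval s) ^ (i - 1) / (FL.derivative.eval s) ^ i‖ < 1 := by
    rw [Filter.eventually_all_finset]
    intro i hi
    have hi2 : 2 ≤ i := (Finset.mem_Icc.1 hi).1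
    have h1 : Filter.Tendsto (fun s => (hasseDeriv i FL).eval s * (FL.eval s) ^ (i - 1) /
        (FL.derivative.eval s) ^ i) (nhds θ) (nhds ((hasseDeriv i FL).eval θ *
          (FL.eval θ) ^ (i - 1) / (FL.derivative.eval θ) ^ i)) := by
      refine Filter.Tendsto.div ?_ (hcd.pow i) (pow_ne_zero _ hFLd)
      exact ((hasseDeriv i FL).continuous.tendsto θ).mul ((FL.continuous.tendsto θ).pow _)
    rw [hFLθ, zero_pow (by omega), mul_zero, zero_div] at h1
    have h2 := h1.norm
    rw [norm_zero] at h2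
    exact h2.eventually (gt_mem_nhds one_pos)
  have e3 : ∀ᶠ s in nhds θ, ‖∑ i ∈ Finset.Icc 2 N,
      (hasseDeriv i FL).eval s * (θ - s) ^ (i - 1) / FL.derivative.eval s‖ < 1 := by
    have h1 : Filter.Tendsto (fun s => ∑ i ∈ Finset.Icc 2 N,
        (hasseDeriv i FL).eval s * (θ - s) ^ (i - 1) / FL.derivative.eval s) (nhds θ)
        (nhds (∑ i ∈ Finset.Icc 2 N,
          (hasseDeriv i FL).eval θ * (θ - θ) ^ (i - 1) / FL.derivative.eval θ)) := by
      refine tendsto_finsetSum _ fun i _ => ?_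
      refine Filter.Tendsto.div ?_ hcd hFLd
      refine ((hasseDeriv i FL).continuous.tendsto θ).mul ?_
      exact (tendsto_const_nhds.sub Filter.tendsto_id).pow _
    have h3 : (∑ i ∈ Finset.Icc 2 N,
        (hasseDeriv i FL).eval θ * (θ - θ) ^ (i - 1) / FL.derivative.eval θ) = 0 := by
      refine Finset.sum_eq_zero fun i hi => ?_
      have hi2 : 2 ≤ i := (Finset.mem_Icc.1 hi).1
      rw [sub_self, zero_pow (by omega), mul_zero, zero_div]
    rw [h3] at h1
    have h2 := h1.norm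
    rw [norm_zero] at h2
    exact h2.eventually (gt_mem_nhds one_pos)
  obtain ⟨ε, hε, hball⟩ := Metric.eventually_nhds_iff.1 (e1.and (e2.and e3))
  obtain ⟨s, hsE, hs⟩ := hdense θ ε hε
  obtain ⟨c1, c2, c3⟩ := hball (y := s) (by rw [dist_eq_norm, norm_sub_rev]; exact hs)
  by_cases hsθ : s = θ
  · -- `L = E0`
    have hbot : IntermediateField.adjoin E0 {(1 : L)} = ⊤ := by
      rw [← hθ]
      have h1 : IntermediateField.adjoin E0 {(1 : L)} = ⊥ := by
        rw [IntermediateField.adjoin_simple_eq_bot_iff]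
        exact one_mem _
      have h2 : IntermediateField.adjoin E0 {θ} = ⊥ := by
        rw [IntermediateField.adjoin_simple_eq_bot_iff, IntermediateField.mem_bot]
        exact ⟨⟨θ, hsθ ▸ hsE⟩, rfl⟩
      rw [h1, h2]
    refine ⟨1, by simp, hbot, ?_, ?_⟩
    · intro i
      rw [minpoly.one, coeff_sub, coeff_X, coeff_one]
      split_ifs <;> simp
    · rw [minpoly.one]
      simp
  -- the element `ζ`
  set s' : E0 := ⟨s, hsE⟩ with hs'
  set f : ℕ → E0 := fun i => (hasseDeriv i F).eval s' with hf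
  have hfL : ∀ i, ((f i : E0) : L) = (hasseDeriv i FL).eval s := by
    intro i
    have h1 : hasseDeriv i FL = (hasseDeriv i F).map (algebraMap E0 L) := by
      ext n
      simp only [hFL, hasseDeriv_coeff, coeff_map, map_mul, map_natCast]
    rw [h1]
    change algebraMap E0 L ((hasseDeriv i F).eval s') = _
    rw [← eval_map_apply]
    rfl
  have hf0L : ((f 0 : E0) : L) = FL.eval s := by rw [hfL]; simp
  have hf1L : ((f 1 : E0) : L) = FL.derivative.eval s := by rw [hfL]; simp [hasseDeriv_one]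
  have hf1 : f 1 ≠ 0 := by
    intro h0
    apply c1
    rw [← hf1L, h0]; rfl
  have hf0 : f 0 ≠ 0 := by
    intro h0
    apply hsθ
    have h1 : IsRoot F s' := by
      have : f 0 = F.eval s' := by simp [hf]
      rw [IsRoot, ← this, h0]
    exact minpoly.root hint h1
  -- Taylor formula
  have htay : (f 0 : L) + (f 1 : L) * (θ - s) +
      ∑ i ∈ Finset.Icc 2 N, (f i : L) * (θ - s) ^ i = 0 := by
    have h1 : FL.eval θ = ∑ i ∈ Finset.range (N + 1), (hasseDeriv i FL).eval s * (θ - s) ^ i := by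
      have h2 : (taylor s FL).eval (θ - s) = FL.eval θ := by
        rw [taylor_eval_sub]
      rw [← h2, eval_eq_sum_range' (n := N + 1)]
      · refine Finset.sum_congr rfl fun i _ => ?_
        rw [taylor_coeff]
      · rw [natDegree_taylor, hFL, natDegree_map]
        omega
    rw [hFLθ] at h1
    have h4 : Finset.range (N + 1) = insert 0 (insert 1 (Finset.Icc 2 N)) := by
      ext i
      simp only [Finset.mem_range, Finset.mem_insert, Finset.mem_Icc]
      omega
    rw [h4, Finset.sum_insert (by simp), Finset.sum_insert (by simp)] at h1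
    rw [h1]
    simp only [hfL, pow_zero, mul_one, pow_one]
    ring
  have hθs : θ - s ≠ 0 := sub_ne_zero.2 (Ne.symm hsθ)
  have hf0' : (f 0 : L) ≠ 0 := by
    intro h0
    exact hf0 (Subtype.ext h0)
  have hf1' : (f 1 : L) ≠ 0 := by
    intro h0
    exact hf1 (Subtype.ext h0)
  set ζ : L := (f 0 : L) / ((f 1 : L) * (θ - s)) with hζ
  have hζ0 : ζ ≠ 0 := div_ne_zero hf0' (mul_ne_zero hf1' hθs)
  have hζ1 : ζ + 1 = - ∑ i ∈ Finset.Icc 2 N,
      (f i : L) * (θ - s) ^ (i - 1) / (f 1 : L) := by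
    have h1 : (f 0 : L) = - ((f 1 : L) * (θ - s)) -
        ∑ i ∈ Finset.Icc 2 N, (f i : L) * (θ - s) ^ i := by
      linear_combination htay
    have h2 : ∑ i ∈ Finset.Icc 2 N, (f i : L) * (θ - s) ^ i =
        (∑ i ∈ Finset.Icc 2 N, (f i : L) * (θ - s) ^ (i - 1) / (f 1 : L)) *
          ((f 1 : L) * (θ - s)) := by
      rw [Finset.sum_mul]
      refine Finset.sum_congr rfl fun i hi => ?_
      have hi2 : 2 ≤ i := (Finset.mem_Icc.1 hi).1
      obtain ⟨j, rfl⟩ : ∃ j, i = j + 1 := ⟨i - 1, by omega⟩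
      rw [Nat.add_sub_cancel, pow_succ]
      field_simp
    rw [hζ, h1, h2]
    field_simp
    ring
  have hζn : ‖ζ + 1‖ < 1 := by
    rw [hζ1, norm_neg]
    simp only [hfL]
    simp only [hasseDeriv_one]
    exact c3
  have hζle : ‖ζ‖ ≤ 1 := by
    have h1 : ζ = (ζ + 1) + (-1) := by ring
    rw [h1]
    exact (IsUltrametricDist.norm_add_le_max _ _).trans (max_le hζn.le (by simp))
  -- its polynomial
  set c : ℕ → E0 := fun i => f i * f 0 ^ (i - 1) / f 1 ^ i with hc
  set H : Polynomial E0 := X ^ N + ∑ i ∈ Finset.Icc 1 N, C (c i) * X ^ (N - i) with hH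
  have hdeg : (∑ i ∈ Finset.Icc 1 N, C (c i) * X ^ (N - i) : Polynomial E0).degree < N := by
    refine lt_of_le_of_lt (degree_sum_le _ _) ?_
    rw [Finset.sup_lt_iff (WithBot.bot_lt_coe _)]
    intro i hi
    refine lt_of_le_of_lt (degree_C_mul_X_pow_le _ _) ?_
    have := Finset.mem_Icc.1 hi
    exact_mod_cast (by omega : N - i < N)
  have hHm : H.Monic := monic_X_pow_add hdeg
  have hHd : H.natDegree = N := by
    have h1 : H.degree = N := by
      rw [hH, degree_add_eq_left_of_degree_lt]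
      · simp
      · simpa using hdeg
    exact natDegree_eq_of_degree_eq_some h1
  have hHζ : aeval ζ H = 0 := by
    have h1 : aeval ζ H = ζ ^ N + ∑ i ∈ Finset.Icc 1 N, (c i : L) * ζ ^ (N - i) := by
      rw [hH]
      simp only [map_add, map_sum, map_mul, map_pow, aeval_X, aeval_C]
      rfl
    have h2 : ∀ i ∈ Finset.Icc 1 N, (c i : L) * ζ ^ (N - i) =
        ((f i : L) * (θ - s) ^ i / (f 0 : L)) * ζ ^ N := by
      intro i hi
      have hi1 := Finset.mem_Icc.1 hi
      have h3 : ζ ^ N = ζ ^ (N - i) * ζ ^ i := by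
        rw [← pow_add]; congr 1; omega
      have h4 : (c i : L) = (f i : L) * (f 0 : L) ^ (i - 1) / (f 1 : L) ^ i := by
        simp only [hc]; push_cast; rfl
      have h5 : (f 0 : L) ^ i = (f 0 : L) ^ (i - 1) * (f 0 : L) := by
        rw [← pow_succ]; congr 1; omega
      rw [h3, h4]
      have h6 : ζ ^ i = (f 0 : L) ^ (i - 1) * (f 0 : L) / ((f 1 : L) ^ i * (θ - s) ^ i) := by
        rw [hζ, div_pow, mul_pow, h5]
      rw [h6]
      field_simp
    rw [h1, Finset.sum_congr rfl h2, ← Finset.sum_mul, ← Finset.sum_div]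
    have h7 : ∑ i ∈ Finset.Icc 1 N, (f i : L) * (θ - s) ^ i = - (f 0 : L) := by
      have h8 : Finset.Icc 1 N = insert 1 (Finset.Icc 2 N) := by
        ext i
        simp only [Finset.mem_insert, Finset.mem_Icc]
        omega
      rw [h8, Finset.sum_insert (by simp), pow_one]
      linear_combination htay
    rw [h7, neg_div, div_self hf0']
    ring
  have hgen : IntermediateField.adjoin E0 {ζ} = ⊤ := by
    rw [eq_top_iff, ← hθ, IntermediateField.adjoin_simple_le_iff]
    have h1 : θ = algebraMap E0 L s' + algebraMap E0 L (f 0 / f 1) * ζ⁻¹ := by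
      have h2 : algebraMap E0 L s' = s := rfl
      have h3 : algebraMap E0 L (f 0 / f 1) = (f 0 : L) / (f 1 : L) := by
        push_cast; rfl
      rw [h2, h3, hζ]
      field_simp
      ring
    rw [h1]
    refine add_mem (IntermediateField.algebraMap_mem _ _) (mul_mem (IntermediateField.algebraMap_mem _ _) ?_)
    exact inv_mem (IntermediateField.mem_adjoin_simple_self E0 ζ)
  have hmin : minpoly E0 ζ = H := by
    have hζint : IsIntegral E0 ζ := Algebra.IsIntegral.isIntegral ζ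
    refine (eq_of_monic_of_dvd_of_natDegree_le (minpoly.monic hζint) hHm
      (minpoly.dvd E0 ζ hHζ) ?_).symm
    rw [hHd, hN, hF, (Field.primitive_element_iff_minpoly_natDegree_eq E0 θ).1 hθ,
      (Field.primitive_element_iff_minpoly_natDegree_eq E0 ζ).1 hgen]
  -- coefficients
  have hcn : ∀ i ∈ Finset.Icc 2 N, ‖(c i : L)‖ < 1 := by
    intro i hi
    have := c2 i hi
    have h4 : (c i : L) = (f i : L) * (f 0 : L) ^ (i - 1) / (f 1 : L) ^ i := by
      simp only [hc]; push_cast; rfl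
    rw [h4, hf1L, hf0L, hfL]
    exact this
  have hcoef : ∀ i, ‖(H.map (algebraMap E0 L) - (X ^ N + X ^ (N - 1))).coeff i‖ < 1 := by
    intro i
    have h1 : (H.map (algebraMap E0 L) - (X ^ N + X ^ (N - 1))) =
        ∑ j ∈ Finset.Icc 2 N, C (c j : L) * X ^ (N - j) := by
      have h8 : Finset.Icc 1 N = insert 1 (Finset.Icc 2 N) := by
        ext i
        simp only [Finset.mem_insert, Finset.mem_Icc]
        omega
      have h9 : c 1 = 1 := by
        simp only [hc, pow_one]
        simp [hf1]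
      rw [hH, h8, Finset.sum_insert (by simp), h9]
      simp only [Polynomial.map_add, Polynomial.map_pow, map_X, Polynomial.map_mul, map_C, map_one,
        one_mul, Polynomial.map_sum]
      have h10 : ∀ j, algebraMap E0 L (c j) = (c j : L) := fun _ => rfl
      simp only [h10]
      ring
    rw [h1, finsetSum_coeff]
    refine lu2_norm_sum_lt _ _ one_pos fun j hj => ?_
    rw [coeff_C_mul_X_pow]
    split_ifs
    · exact hcn j hj
    · simp
  refine ⟨ζ, hζle, hgen, ?_, ?_⟩
  · intro i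
    rw [hmin]
    have h1 : ((H.coeff i : E0) : L) = (H.map (algebraMap E0 L) - (X ^ N + X ^ (N - 1))).coeff i +
        ((X ^ N + X ^ (N - 1) : Polynomial L)).coeff i := by
      rw [coeff_sub, coeff_map, sub_add_cancel]
      rfl
    rw [h1]
    refine (IsUltrametricDist.norm_add_le_max _ _).trans (max_le (hcoef i).le ?_)
    rw [coeff_add, coeff_X_pow, coeff_X_pow]
    refine (IsUltrametricDist.norm_add_le_max _ _).trans (max_le ?_ ?_)
    · split_ifs <;> simp
    · split_ifs <;> simp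
  · rw [hmin, ← eval_map_algebraMap, ← derivative_map]
    exact lu2_deriv_norm hN1 _ hcoef hζn

end MP1a953e
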