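import Pool.Agent.Lib.MP_1a953e_ag.LUDefs

/-!
# Module LU3: fractions
-/

namespace MP1a953e

open Polynomial

variable {k L : Type*} [NontriviallyNormedField k] [IsUltrametricDist k]
variable [NormedField L] [IsUltrametricDist L] [NormedAlgebra k L]

/-- all coefficients have norm at most `M` -/
private def LU3Cf (E0 : IntermediateField k L) (M : ℝ) (P : Polynomial E0) : Prop :=
  ∀ i, ‖((P.coeff i : E0) : L)‖ ≤ M

omit [IsUltrametricDist k] in
private theorem LU3Cf_add {E0 : IntermediateField k L} {M : ℝ} {P Q : Polynomial E0}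
    (hP : LU3Cf E0 M P) (hQ : LU3Cf E0 M Q) : LU3Cf E0 M (P + Q) := by
  intro i
  rw [coeff_add]
  exact (IsUltrametricDist.norm_add_le_max _ _).trans (max_le (hP i) (hQ i))

omit [IsUltrametricDist k] [IsUltrametricDist L] in
private theorem LU3Cf_C {E0 : IntermediateField k L} {M : ℝ} (hM : 0 ≤ M) {a : E0}
    (ha : ‖(a : L)‖ ≤ M) : LU3Cf E0 M (C a) := by
  intro i
  rw [coeff_C]
  split_ifs
  · exact ha
  · simpa using hM

omit [IsUltrametricDist k] in
private theorem LU3Cf_mul {E0 : IntermediateField k L} {M N : ℝ} (hM : 0 ≤ M) (hN : 0 ≤ N)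
    {P Q : Polynomial E0} (hP : LU3Cf E0 M P) (hQ : LU3Cf E0 N Q) : LU3Cf E0 (M * N) (P * Q) := by
  intro i
  have h0 : (((P * Q).coeff i : E0) : L) = ∑ x ∈ Finset.HasAntidiagonal.antidiagonal i,
      ((P.coeff x.1 * Q.coeff x.2 : E0) : L) := by
    rw [coeff_mul]
    exact map_sum (algebraMap E0 L) _ _
  rw [h0]
  refine IsUltrametricDist.norm_sum_le_of_forall_le_of_nonneg (mul_nonneg hM hN) ?_
  intro x _
  have : (((P.coeff x.1 * Q.coeff x.2 : E0)) : L) = (P.coeff x.1 : L) * (Q.coeff x.2 : L) := rfl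
  rw [this, norm_mul]
  exact mul_le_mul (hP _) (hQ _) (norm_nonneg _) hM

omit [IsUltrametricDist k] in
private theorem LU3Cf_pow {E0 : IntermediateField k L} {P : Polynomial E0}
    (hP : LU3Cf E0 1 P) (n : ℕ) : LU3Cf E0 1 (P ^ n) := by
  induction n with
  | zero =>
    rw [pow_zero, ← C_1]
    exact LU3Cf_C zero_le_one (by simp)
  | succ n ih =>
    rw [pow_succ]
    simpa using LU3Cf_mul zero_le_one zero_le_one ih hP

omit [IsUltrametricDist k] in
private theorem LU3Cf_sum {E0 : IntermediateField k L} {M : ℝ} (hM : 0 ≤ M) {ι : Type*}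
    (s : Finset ι) (P : ι → Polynomial E0) (hP : ∀ i ∈ s, LU3Cf E0 M (P i)) :
    LU3Cf E0 M (∑ i ∈ s, P i) := by
  intro n
  have h0 : (((∑ i ∈ s, P i).coeff n : E0) : L) = ∑ i ∈ s, (((P i).coeff n : E0) : L) := by
    rw [finsetSum_coeff]
    exact map_sum (algebraMap E0 L) _ _
  rw [h0]
  exact IsUltrametricDist.norm_sum_le_of_forall_le_of_nonneg hM fun i hi => hP i hi n

omit [IsUltrametricDist k] in
private theorem LU3Cf_eval {E0 : IntermediateField k L} {M : ℝ} (hM : 0 ≤ M) {P : Polynomial E0}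
    (hP : LU3Cf E0 M P) {x : L} (hx : ‖x‖ ≤ 1) : ‖aeval x P‖ ≤ M := by
  rw [aeval_eq_sum_range]
  refine IsUltrametricDist.norm_sum_le_of_forall_le_of_nonneg hM ?_
  intro i _
  have : P.coeff i • x ^ i = (P.coeff i : L) * x ^ i := rfl
  rw [this, norm_mul, norm_pow]
  exact (mul_le_of_le_one_right (norm_nonneg _) (pow_le_one₀ (norm_nonneg _) hx)).trans (hP i)

omit [IsUltrametricDist k] in
private theorem LU3Cf_comp {E0 : IntermediateField k L} {M : ℝ} (hM : 0 ≤ M)
    {P Q : Polynomial E0} (hP : LU3Cf E0 M P) (hQ : LU3Cf E0 1 Q) : LU3Cf E0 M (P.comp Q) := by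
  rw [comp_eq_sum_left, sum_over_range' _ _ _ (Nat.lt_succ_self _)]
  · refine LU3Cf_sum hM _ _ ?_
    intro i _
    have h1 : LU3Cf E0 M (C (P.coeff i)) := LU3Cf_C hM (hP i)
    simpa using LU3Cf_mul hM zero_le_one h1 (LU3Cf_pow hQ i)
  · intro n
    simp

omit [IsUltrametricDist k] [IsUltrametricDist L] in
private theorem LU3Cf_divX {E0 : IntermediateField k L} {M : ℝ}
    {P : Polynomial E0} (hP : LU3Cf E0 M P) : LU3Cf E0 M (divX P) := by
  intro i
  rw [coeff_divX]
  exact hP _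

omit [IsUltrametricDist k] [IsUltrametricDist L] in
private theorem LU3_shift {E0 : IntermediateField k L} (P : Polynomial E0) (ζ : L) (s : E0) :
    aeval (ζ - s) (P.comp (X + C s)) = aeval ζ P := by
  rw [aeval_comp]
  congr 1
  have : aeval (ζ - (s : L)) (X + C s : Polynomial E0) = ζ := by
    simp only [map_add, aeval_X, aeval_C]
    exact sub_add_cancel ζ (s : L)
  rw [this]

omit [IsUltrametricDist k] [IsUltrametricDist L] in
private theorem LU3_shift' {E0 : IntermediateField k L} (P : Polynomial E0) (ζ : L) (s : E0) :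
    aeval ζ (P.comp (X - C s)) = aeval (ζ - s) P := by
  rw [aeval_comp]
  congr 1
  have : aeval ζ (X - C s : Polynomial E0) = ζ - s := by
    simp only [map_sub, aeval_X, aeval_C]
    rfl
  rw [this]

omit [IsUltrametricDist k] [IsUltrametricDist L] in
private theorem LU3_split {E0 : IntermediateField k L} (P : Polynomial E0) (x : L) :
    aeval x P = aeval x (divX P) * x + (P.coeff 0 : L) := by
  conv_lhs => rw [← divX_mul_X_add P]
  simp only [map_add, map_mul, aeval_X, aeval_C]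
  rfl

/-- LU3 (fractions).  Proof.  Let `H = minpoly E0 ζ`, `N` its degree. `z = G ζ` with `G` over `E0` of
degree `< N`. Choose `s ∈ E0` and `π ∈ k` with `‖ζ - s‖ ≤ ‖π‖` so small that `‖G s‖ = ‖z‖` and
`‖(hasseDeriv i G) s * π ^ i‖ ≤ ‖z‖` for `i ≥ 1`, `‖π‖ < 1`, `‖H' s‖ = 1`. With
`v = H s / π` (norm `≤ 1`, as `‖H s‖ = ‖ζ - s‖`) and `U = ∑_{i ≥ 1} (hasseDeriv i H) s * (ζ - s) ^ (i-1)`
(norm `1`, a polynomial in `ζ` over `E0` with coefficients of norm `≤ 1`) we have
`(ζ - s) / π = - v / U`. So with `c ∈ k`, `‖c‖ = ‖z‖`,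
`z / c = ∑_i ((hasseDeriv i G) s * π ^ i / c) * (- v / U) ^ i = P ζ / U ^ N`. -/
theorem exists_fraction (E0 : IntermediateField k L) [Algebra.IsSeparable E0 L]
    [FiniteDimensional E0 L] (hdense : ∀ x : L, ∀ ε : ℝ, 0 < ε → ∃ y ∈ E0, ‖x - y‖ < ε)
    (hval : ∀ x : L, ∃ c : k, ‖c‖ = ‖x‖) {ζ : L} (hζ : ‖ζ‖ ≤ 1)
    (hgen : IntermediateField.adjoin E0 {ζ} = ⊤)
    (hc : ∀ i, ‖((minpoly E0 ζ).coeff i : L)‖ ≤ 1)
    (hder : ‖aeval ζ (derivative (minpoly E0 ζ))‖ = 1) {z : L} (hz : z ≠ 0) :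
    ∃ (c : k) (P Q : Polynomial E0), c ≠ 0 ∧ (∀ i, ‖(P.coeff i : L)‖ ≤ 1) ∧
      (∀ i, ‖(Q.coeff i : L)‖ ≤ 1) ∧ ‖aeval ζ P‖ = 1 ∧ ‖aeval ζ Q‖ = 1 ∧
      z = algebraMap k L c * (aeval ζ P / aeval ζ Q) := by
  classical
  obtain ⟨c, hcz⟩ := hval z
  have hzn : 0 < ‖z‖ := norm_pos_iff.2 hz
  have hc0 : c ≠ 0 := by
    intro h
    rw [h, norm_zero] at hcz
    exact hzn.ne hcz
  have hcL : (algebraMap k L c) ≠ 0 := by
    intro h
    exact hc0 ((map_eq_zero _).1 h)
  have hcn : ‖algebraMap k L c‖ = ‖z‖ := by rw [norm_algebraMap', hcz]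
  have hint : IsIntegral E0 ζ := Algebra.IsIntegral.isIntegral ζ
  -- `z` is a polynomial in `ζ`
  obtain ⟨G, hG⟩ : ∃ G : Polynomial E0, aeval ζ G = z := by
    have h1 : z ∈ IntermediateField.adjoin E0 {ζ} := by
      rw [hgen]
      exact IntermediateField.mem_top
    rw [← IntermediateField.mem_toSubalgebra,
      IntermediateField.adjoin_simple_toSubalgebra_of_isAlgebraic hint.isAlgebraic,
      Algebra.adjoin_singleton_eq_range_aeval] at h1
    exact h1
  set H := minpoly E0 ζ with hH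
  have hHc : LU3Cf E0 1 H := hc
  have hH0 : aeval ζ H = 0 := minpoly.aeval E0 ζ
  -- a bound for the coefficients of `G`
  obtain ⟨M, hM0, hGM⟩ : ∃ M : ℝ, 0 < M ∧ LU3Cf E0 M G := by
    refine ⟨∑ i ∈ G.support, ‖(G.coeff i : L)‖ + 1, by positivity, ?_⟩
    intro i
    by_cases hi : i ∈ G.support
    · have := Finset.single_le_sum (f := fun i => ‖(G.coeff i : L)‖)
        (fun i _ => norm_nonneg _) hi
      linarith
    · rw [notMem_support_iff.1 hi]
      have : (((0 : E0)) : L) = 0 := rfl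
      rw [this, norm_zero]
      positivity
  -- approximation
  set ε : ℝ := min (‖z‖ / M) 1 with hε
  have hε0 : 0 < ε := lt_min (by positivity) one_pos
  obtain ⟨s, hsE, hs⟩ := hdense ζ ε hε0
  have hs1 : ‖ζ - s‖ < 1 := hs.trans_le (min_le_right _ _)
  have hsM : M * ‖ζ - s‖ < ‖z‖ := by
    have := hs.trans_le (min_le_left _ _)
    rw [lt_div_iff₀ hM0] at this
    linarith
  have hsn : ‖s‖ ≤ 1 := by
    have h1 : s = ζ + -(ζ - s) := by ring
    rw [h1]
    refine (IsUltrametricDist.norm_add_le_max _ _).trans (max_le hζ ?_)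
    rw [norm_neg]
    exact hs1.le
  set s' : E0 := ⟨s, hsE⟩ with hs'
  have hXs : LU3Cf E0 1 (X + C s' : Polynomial E0) := by
    refine LU3Cf_add ?_ (LU3Cf_C zero_le_one hsn)
    intro i
    rw [coeff_X]
    split_ifs
    · have : (((1 : E0)) : L) = 1 := rfl
      rw [this, norm_one]
    · have : (((0 : E0)) : L) = 0 := rfl
      rw [this, norm_zero]
      exact zero_le_one
  have hXs' : LU3Cf E0 1 (X - C s' : Polynomial E0) := by
    rw [sub_eq_add_neg, ← C_neg]
    refine LU3Cf_add ?_ (LU3Cf_C zero_le_one ?_)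
    · intro i
      rw [coeff_X]
      split_ifs
      · have : (((1 : E0)) : L) = 1 := rfl
        rw [this, norm_one]
      · have : (((0 : E0)) : L) = 0 := rfl
        rw [this, norm_zero]
        exact zero_le_one
    · have : (((-s' : E0)) : L) = -s := rfl
      rw [this, norm_neg]
      exact hsn
  -- the polynomial `G`, expanded at `s`
  set T : Polynomial E0 := G.comp (X + C s') with hT
  have hTM : LU3Cf E0 M T := LU3Cf_comp hM0.le hGM hXs
  have hTz : aeval (ζ - s) T = z := by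
    rw [hT, show (s : L) = ((s' : E0) : L) from rfl, LU3_shift, hG]
  -- the polynomial `H`, expanded at `s`
  set R : Polynomial E0 := H.comp (X + C s') with hR
  have hR1 : LU3Cf E0 1 R := LU3Cf_comp zero_le_one hHc hXs
  have hR0 : aeval (ζ - s) R = 0 := by
    rw [hR, show (s : L) = ((s' : E0) : L) from rfl, LU3_shift, hH0]
  have hdH : LU3Cf E0 1 (derivative H) := by
    intro i
    rw [coeff_derivative]
    have h1 : (((H.coeff (i + 1) * ((i : E0) + 1) : E0)) : L) =
        (H.coeff (i + 1) : L) * ((i + 1 : ℕ) : L) := by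
      push_cast
      rfl
    rw [h1, norm_mul]
    exact mul_le_one₀ (hHc _) (norm_nonneg _) (IsUltrametricDist.norm_natCast_le_one L _)
  have hRc : ((R.coeff 1 : E0) : L) = (((derivative H).comp (X + C s')).coeff 0 : E0) := by
    have h1 : R.coeff 1 = ((derivative H).comp (X + C s')).coeff 0 := by
      have h2 : R = taylor s' H := rfl
      rw [h2, taylor_coeff_one, coeff_zero_eq_eval_zero, eval_comp]
      simp
    rw [h1]
  have hRn : ‖((R.coeff 1 : E0) : L)‖ = 1 := by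
    have h1 := LU3_split ((derivative H).comp (X + C s')) (ζ - s)
    rw [show (s : L) = ((s' : E0) : L) from rfl, LU3_shift] at h1
    rw [hRc]
    have h2 : ((((derivative H).comp (X + C s')).coeff 0 : E0) : L) =
        aeval ζ (derivative H) +
          -(aeval (ζ - s) (divX ((derivative H).comp (X + C s'))) * (ζ - s)) := by
      rw [h1]
      change _ = _ * (ζ - s) + _ + -(_ * (ζ - s))
      ring
    rw [h2]
    have h3 : ‖-(aeval (ζ - s) (divX ((derivative H).comp (X + C s'))) * (ζ - s))‖ <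
        ‖aeval ζ (derivative H)‖ := by
      rw [hder, norm_neg, norm_mul]
      have h4 : ‖aeval (ζ - s) (divX ((derivative H).comp (X + C s')))‖ ≤ 1 :=
        LU3Cf_eval zero_le_one (LU3Cf_divX (LU3Cf_comp zero_le_one hdH hXs)) hs1.le
      exact (mul_le_of_le_one_left (norm_nonneg _) h4).trans_lt hs1
    rw [IsUltrametricDist.norm_add_eq_max_of_norm_ne_norm h3.ne', max_eq_left h3.le, hder]
  -- the unit `U`
  set U : Polynomial E0 := (divX R).comp (X - C s') with hU
  have hU1 : LU3Cf E0 1 U := LU3Cf_comp zero_le_one (LU3Cf_divX hR1) hXs'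
  have hUe : aeval ζ U = aeval (ζ - s) (divX R) := by
    rw [hU, LU3_shift']
  have hUn : ‖aeval ζ U‖ = 1 := by
    rw [hUe, LU3_split (divX R) (ζ - s)]
    have h1 : ((divX R).coeff 0 : E0) = R.coeff 1 := by rw [coeff_divX]
    rw [h1]
    have h3 : ‖aeval (ζ - s) (divX (divX R)) * (ζ - s)‖ < ‖((R.coeff 1 : E0) : L)‖ := by
      rw [hRn, norm_mul]
      have h4 : ‖aeval (ζ - s) (divX (divX R))‖ ≤ 1 :=
        LU3Cf_eval zero_le_one (LU3Cf_divX (LU3Cf_divX hR1)) hs1.le
      exact (mul_le_of_le_one_left (norm_nonneg _) h4).trans_lt hs1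
    rw [IsUltrametricDist.norm_add_eq_max_of_norm_ne_norm h3.ne, max_eq_right h3.le, hRn]
  have hU0 : aeval ζ U ≠ 0 := by
    intro h
    rw [h, norm_zero] at hUn
    exact zero_ne_one hUn
  -- `(ζ - s) * U = - H s`
  have hkey : aeval ζ U * (ζ - s) = -((R.coeff 0 : E0) : L) := by
    have h1 := LU3_split R (ζ - s)
    rw [hR0] at h1
    rw [hUe]
    exact (eq_neg_of_add_eq_zero_left h1.symm)
  -- scaling
  obtain ⟨π, hπ, hπv⟩ : ∃ π : k, ‖π‖ = ‖ζ - s‖ ∧ ∃ v : E0, ‖(v : L)‖ ≤ 1 ∧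
      ((R.coeff 0 : E0) : L) = algebraMap k L π * v := by
    obtain ⟨π, hπ⟩ := hval (ζ - s)
    refine ⟨π, hπ, ?_⟩
    have hn : ‖((R.coeff 0 : E0) : L)‖ = ‖ζ - s‖ := by
      rw [← norm_neg, ← hkey, norm_mul, hUn, one_mul]
    by_cases h0 : π = 0
    · refine ⟨0, by simp, ?_⟩
      rw [h0, norm_zero] at hπ
      rw [← hπ, norm_eq_zero] at hn
      rw [hn, h0]
      simp
    · have hπL : (algebraMap k L π) ≠ 0 := fun h => h0 ((map_eq_zero _).1 h)
      refine ⟨(algebraMap k E0 π)⁻¹ * R.coeff 0, ?_, ?_⟩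
      · have h1 : ((((algebraMap k E0 π)⁻¹ * R.coeff 0 : E0)) : L) =
            (algebraMap k L π)⁻¹ * (R.coeff 0 : E0) := rfl
        rw [h1, norm_mul, norm_inv, norm_algebraMap', hπ, hn]
        exact inv_mul_le_one
      · have h1 : ((((algebraMap k E0 π)⁻¹ * R.coeff 0 : E0)) : L) =
            (algebraMap k L π)⁻¹ * (R.coeff 0 : E0) := rfl
        rw [h1, mul_inv_cancel_left₀ hπL]
  obtain ⟨v, hv1, hv⟩ := hπv
  have hζs : ζ - s = algebraMap k L π * (-(v : L)) / aeval ζ U := by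
    rw [eq_div_iff hU0, mul_comm, hkey, hv]
    ring
  set D := T.natDegree with hD
  -- the fraction
  set P : Polynomial E0 := ∑ i ∈ Finset.range (D + 1),
    C ((algebraMap k E0 c)⁻¹ * T.coeff i * (algebraMap k E0 π) ^ i * (-v) ^ i) * U ^ (D - i)
    with hP
  have hPz : aeval ζ P = (algebraMap k L c)⁻¹ * z * aeval ζ U ^ D := by
    have h1 : z = ∑ i ∈ Finset.range (D + 1), (T.coeff i : L) * (ζ - s) ^ i := by
      conv_lhs => rw [← hTz, aeval_eq_sum_range]
      rfl
    rw [hP, map_sum]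
    conv_rhs => rw [h1, Finset.mul_sum, Finset.sum_mul]
    refine Finset.sum_congr rfl ?_
    intro i hi
    have hiD : i ≤ D := Nat.lt_succ_iff.1 (Finset.mem_range.1 hi)
    rw [map_mul, aeval_C, map_pow, hζs, div_pow, mul_pow]
    have h2 : algebraMap E0 L
        ((algebraMap k E0 c)⁻¹ * T.coeff i * (algebraMap k E0 π) ^ i * (-v) ^ i) =
        (algebraMap k L c)⁻¹ * (T.coeff i : L) * (algebraMap k L π) ^ i * (-(v : L)) ^ i := by
      simp only [map_mul, map_inv₀, map_pow, map_neg]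
      rfl
    rw [h2]
    have h3 : aeval ζ U ^ D = aeval ζ U ^ (D - i) * aeval ζ U ^ i := by
      rw [← pow_add, Nat.sub_add_cancel hiD]
    rw [h3]
    field_simp
  refine ⟨c, P, U ^ D, hc0, ?_, LU3Cf_pow hU1 D, ?_, ?_, ?_⟩
  · refine LU3Cf_sum zero_le_one _ _ ?_
    intro i hi
    have h1 : LU3Cf E0 1
        (C ((algebraMap k E0 c)⁻¹ * T.coeff i * (algebraMap k E0 π) ^ i * (-v) ^ i)) := by
      refine LU3Cf_C zero_le_one ?_
      have h2 : ((((algebraMap k E0 c)⁻¹ * T.coeff i * (algebraMap k E0 π) ^ i * (-v) ^ i : E0)) :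
          L) = (algebraMap k L c)⁻¹ * (T.coeff i : L) * (algebraMap k L π) ^ i *
            (-(v : L)) ^ i := by
        have h3 : algebraMap E0 L
            ((algebraMap k E0 c)⁻¹ * T.coeff i * (algebraMap k E0 π) ^ i * (-v) ^ i) =
            (algebraMap k L c)⁻¹ * (T.coeff i : L) * (algebraMap k L π) ^ i *
              (-(v : L)) ^ i := by
          simp only [map_mul, map_inv₀, map_pow, map_neg]
          rfl
        exact h3
      rw [h2, norm_mul, norm_mul, norm_mul, norm_inv, norm_pow, norm_pow, norm_neg, hcn,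
        norm_algebraMap', hπ]
      have hvi : ‖(v : L)‖ ^ i ≤ 1 := pow_le_one₀ (norm_nonneg _) hv1
      have hnn : 0 ≤ ‖z‖⁻¹ * ‖(T.coeff i : L)‖ * ‖ζ - s‖ ^ i := by positivity
      refine (mul_le_of_le_one_right hnn hvi).trans ?_
      rw [mul_assoc, inv_mul_le_iff₀ hzn, mul_one]
      rcases Nat.eq_zero_or_pos i with hi0 | hi0
      · subst hi0
        rw [pow_zero, mul_one]
        have h5 := LU3_split T (ζ - s)
        rw [hTz] at h5
        have h6 : ((T.coeff 0 : E0) : L) = z + -(aeval (ζ - s) (divX T) * (ζ - s)) := by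
          rw [h5]
          ring
        rw [h6]
        refine (IsUltrametricDist.norm_add_le_max _ _).trans (max_le le_rfl ?_)
        rw [norm_neg, norm_mul]
        have h7 : ‖aeval (ζ - s) (divX T)‖ ≤ M := LU3Cf_eval hM0.le (LU3Cf_divX hTM) hs1.le
        exact (mul_le_mul_of_nonneg_right h7 (norm_nonneg _)).trans hsM.le
      · have h5 : ‖ζ - s‖ ^ i ≤ ‖ζ - s‖ := pow_le_of_le_one (norm_nonneg _) hs1.le hi0.ne'
        exact (mul_le_mul (hTM i) h5 (by positivity) hM0.le).trans hsM.le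
    simpa using LU3Cf_mul zero_le_one zero_le_one h1 (LU3Cf_pow hU1 (D - i))
  · rw [hPz, norm_mul, norm_mul, norm_pow, hUn, one_pow, mul_one, norm_inv, hcn]
    exact inv_mul_cancel₀ hzn.ne'
  · rw [map_pow, norm_pow, hUn, one_pow]
  · rw [hPz, map_pow, mul_div_assoc, div_self (pow_ne_zero _ hU0), mul_one,
      mul_inv_cancel_left₀ hcL]

end MP1a953e
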