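import Pool.Agent.Lib.MP_1a953e_ag.LU1
import Pool.Agent.Lib.MP_1a953e_ag.LU2
import Pool.Agent.Lib.MP_1a953e_ag.LU3

/-!
# Module LU4: local uniformization with units
-/

namespace MP1a953e

open Polynomial

variable {k L : Type*} [NontriviallyNormedField k] [IsUltrametricDist k]
variable [NormedField L] [IsUltrametricDist L] [NormedAlgebra k L]

/-- the unit ball as a subalgebra -/
private noncomputable def lu4Ball (k L : Type*) [NontriviallyNormedField k] [IsUltrametricDist k]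
    [NormedField L] [IsUltrametricDist L] [NormedAlgebra k L] : Subalgebra (O k) L where
  carrier := {x | ‖x‖ ≤ 1}
  mul_mem' := by
    intro a b ha hb
    change ‖a * b‖ ≤ 1
    rw [norm_mul]
    exact mul_le_one₀ ha (norm_nonneg _) hb
  add_mem' := by
    intro a b ha hb
    exact (IsUltrametricDist.norm_add_le_max _ _).trans (max_le ha hb)
  algebraMap_mem' := by
    intro c
    change ‖algebraMap k L (c : k)‖ ≤ 1
    rw [norm_algebraMap']
    exact mem_O.1 c.2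

private theorem lu4_mem_ball {x : L} : x ∈ lu4Ball k L ↔ ‖x‖ ≤ 1 := Iff.rfl

/-- the localization `A[1/D]` as a subalgebra -/
private def lu4Loc (A : Subalgebra k L) (D : L) (hD : D ∈ A) : Subalgebra k L where
  carrier := {b | ∃ N : ℕ, b * D ^ N ∈ A}
  mul_mem' := by
    rintro a b ⟨N, hN⟩ ⟨M, hM⟩
    refine ⟨N + M, ?_⟩
    have : a * b * D ^ (N + M) = (a * D ^ N) * (b * D ^ M) := by rw [pow_add]; ring
    rw [this]
    exact mul_mem hN hM
  add_mem' := by
    rintro a b ⟨N, hN⟩ ⟨M, hM⟩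
    refine ⟨N + M, ?_⟩
    have : (a + b) * D ^ (N + M) = (a * D ^ N) * D ^ M + (b * D ^ M) * D ^ N := by
      rw [pow_add]; ring
    rw [this]
    exact add_mem (mul_mem hN (pow_mem hD _)) (mul_mem hM (pow_mem hD _))
  algebraMap_mem' := by
    intro c
    exact ⟨0, by rw [pow_zero, mul_one]; exact A.algebraMap_mem c⟩

private theorem lu4_mem_loc {A : Subalgebra k L} {D : L} {hD : D ∈ A} {b : L} :
    b ∈ lu4Loc A D hD ↔ ∃ N : ℕ, b * D ^ N ∈ A := Iff.rfl

private theorem lu4_le_loc (A : Subalgebra k L) (D : L) (hD : D ∈ A) : A ≤ lu4Loc A D hD :=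
  fun b hb => ⟨0, by rw [pow_zero, mul_one]; exact hb⟩

private theorem lu4_unit_mono {B B' : Subalgebra (O k) L} (h : B ≤ B') {z : L}
    (hz : UnitUpTo k B z) : UnitUpTo k B' z := by
  obtain ⟨c, hc, w, hw, hw0, hw', he⟩ := hz
  exact ⟨c, hc, w, h hw, hw0, h hw', he⟩

private theorem lu4_unit_mul {B : Subalgebra (O k) L} {z z' : L}
    (hz : UnitUpTo k B z) (hz' : UnitUpTo k B z') : UnitUpTo k B (z * z') := by
  obtain ⟨c, hc, w, hw, hw0, hwi, he⟩ := hz
  obtain ⟨c', hc', w', hw', hw0', hwi', he'⟩ := hz'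
  refine ⟨c * c', mul_ne_zero hc hc', w * w', mul_mem hw hw', mul_ne_zero hw0 hw0', ?_, ?_⟩
  · rw [mul_inv]; exact mul_mem hwi hwi'
  · rw [he, he', map_mul]; ring

private theorem lu4_unit_of {B : Subalgebra (O k) L} {w : L} (hw : w ∈ B) (hw0 : w ≠ 0)
    (hwi : w⁻¹ ∈ B) : UnitUpTo k B w :=
  ⟨1, one_ne_zero, w, hw, hw0, hwi, by simp⟩

private theorem lu4_unit_pow {B : Subalgebra (O k) L} {z : L}
    (hz : UnitUpTo k B z) (n : ℕ) : UnitUpTo k B (z ^ n) := by
  induction n with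
  | zero =>
    rw [pow_zero]
    exact lu4_unit_of (one_mem _) one_ne_zero (by rw [inv_one]; exact one_mem B)
  | succ n ih => rw [pow_succ]; exact lu4_unit_mul ih hz

/-- elements of `k(u, α)` are quotients of values of polynomials over `k(u)` -/
private theorem lu4_quot {m : ℕ} {u : Fin m → L} {α : L} (e : L)
    (he : e ∈ IntermediateField.adjoin k (Set.range u ∪ {α})) (he0 : e ≠ 0) :
    ∃ G₁ G₂ : Polynomial L,
      (G₁ ≠ 0 ∧ CoeffsIn (IntermediateField.adjoin k (Set.range u)) G₁) ∧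
      (G₂ ≠ 0 ∧ CoeffsIn (IntermediateField.adjoin k (Set.range u)) G₂) ∧
      G₁.eval α ≠ 0 ∧ G₂.eval α ≠ 0 ∧ e = G₁.eval α / G₂.eval α := by
  rw [← IntermediateField.adjoin_adjoin_left, IntermediateField.mem_restrictScalars,
    IntermediateField.mem_adjoin_simple_iff] at he
  generalize IntermediateField.adjoin k (Set.range u) = M at he ⊢
  obtain ⟨r, s, hrs⟩ := he
  have h1 : ∀ q : Polynomial M, (q.map (algebraMap M L)).eval α = aeval α q := fun q =>
    eval_map_algebraMap _ _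
  have hr : aeval α r ≠ 0 := by
    intro h0
    apply he0
    rw [hrs, h0, zero_div]
  have hs : aeval α s ≠ 0 := by
    intro h0
    apply he0
    rw [hrs, h0, div_zero]
  have hco : ∀ q : Polynomial M, CoeffsIn M (q.map (algebraMap M L)) := by
    intro q i
    rw [coeff_map]
    exact (q.coeff i).2
  have hne : ∀ q : Polynomial M, aeval α q ≠ 0 → q.map (algebraMap M L) ≠ 0 := by
    intro q hq h0
    apply hq
    rw [← h1, h0, eval_zero]
  exact ⟨r.map (algebraMap M L), s.map (algebraMap M L), ⟨hne r hr, hco r⟩, ⟨hne s hs, hco s⟩,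
    by rwa [h1], by rwa [h1], by rw [h1, h1]; exact hrs⟩

/-- `z` up to a constant a unit of `C`, of norm at most `1`, all of `C` in the unit ball: then `z ∈ C`. -/
private theorem lu4_mem_of_unit {C : Subalgebra (O k) L} (hC : ∀ b ∈ C, ‖b‖ ≤ 1) {z : L}
    (hz : UnitUpTo k C z) (hz1 : ‖z‖ ≤ 1) : z ∈ C := by
  obtain ⟨c, hc, w, hw, hw0, hwi, he⟩ := hz
  have h1 : ‖w‖ = 1 := by
    refine le_antisymm (hC w hw) ?_
    have h2 := hC _ hwi
    rw [norm_inv] at h2
    have h3 : 0 < ‖w‖ := norm_pos_iff.2 hw0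
    exact (inv_le_one₀ h3).1 h2
  have h4 : ‖c‖ ≤ 1 := by
    rw [he, norm_mul, norm_algebraMap', h1, mul_one] at hz1
    exact hz1
  rw [he]
  exact mul_mem (C.algebraMap_mem (⟨c, mem_O.2 h4⟩ : O k)) hw

private theorem lu4_unit_div {B : Subalgebra (O k) L} {z z' : L}
    (hz : UnitUpTo k B z) (hz' : UnitUpTo k B z') : UnitUpTo k B (z / z') := by
  obtain ⟨c, hc, w, hw, hw0, hwi, he⟩ := hz
  obtain ⟨c', hc', w', hw', hw0', hwi', he'⟩ := hz'
  refine ⟨c / c', div_ne_zero hc hc', w * w'⁻¹, mul_mem hw hwi', mul_ne_zero hw0 (inv_ne_zero hw0'),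
    ?_, ?_⟩
  · rw [mul_inv, inv_inv]; exact mul_mem hwi hw'
  · rw [he, he', map_div₀]
    field_simp

private theorem lu4_aeval_mem {E0 : IntermediateField k L} {B : Subalgebra (O k) L} {ζ : L}
    (hζ : ζ ∈ B) (P : Polynomial E0) (hP : ∀ i, (P.coeff i : L) ∈ B) : aeval ζ P ∈ B := by
  rw [aeval_eq_sum_range]
  refine sum_mem fun i _ => ?_
  rw [Algebra.smul_def]
  exact mul_mem (hP i) (pow_mem hζ i)

private theorem lu4_aeval_mem' {E0 : IntermediateField k L} {B : Subalgebra k L} {ζ : L}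
    (hζ : ζ ∈ B) (P : Polynomial E0) (hP : ∀ i, (P.coeff i : L) ∈ B) : aeval ζ P ∈ B := by
  rw [aeval_eq_sum_range]
  refine sum_mem fun i _ => ?_
  rw [Algebra.smul_def]
  exact mul_mem (hP i) (pow_mem hζ i)

/-- the fraction field of `B` -/
private theorem lu4_frac {E0 : IntermediateField k L} {B : Subalgebra (O k) L} {ζ : L}
    {S : Set L} (hE0 : E0 = IntermediateField.adjoin k S) (hS : S ⊆ B) (hζ : ζ ∈ B)
    (hgen : IntermediateField.adjoin E0 {ζ} = ⊤) : IsFractionRing B L := by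
  have hk : ∀ c : k, algebraMap k L c ∈ Subfield.closure (B : Set L) := by
    intro c
    by_cases hc : ‖c‖ ≤ 1
    · exact Subfield.subset_closure (B.algebraMap_mem (⟨c, mem_O.2 hc⟩ : O k))
    · have h1 : ‖c⁻¹‖ ≤ 1 := by
        rw [norm_inv]
        exact inv_le_one_of_one_le₀ (le_of_not_ge hc)
      have h2 : algebraMap k L c⁻¹ ∈ Subfield.closure (B : Set L) :=
        Subfield.subset_closure (B.algebraMap_mem (⟨c⁻¹, mem_O.2 h1⟩ : O k))
      have h3 := inv_mem h2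
      rwa [map_inv₀, inv_inv] at h3
  set E : IntermediateField k L := (Subfield.closure (B : Set L)).toIntermediateField hk with hE
  have hSE : S ⊆ E := fun x hx => Subfield.subset_closure (hS hx)
  have hle : E0 ≤ E := by
    rw [hE0]
    exact IntermediateField.adjoin_le_iff.2 hSE
  have htop : (⊤ : IntermediateField E0 L) ≤ IntermediateField.extendScalars hle := by
    rw [← hgen, IntermediateField.adjoin_simple_le_iff]
    exact Subfield.subset_closure hζ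
  have : FaithfulSMul B L := by
    rw [faithfulSMul_iff_algebraMap_injective]
    exact Subtype.val_injective
  refine IsFractionRing.of_field B L fun z => ?_
  have hz : z ∈ Subfield.closure (B : Set L) := htop (IntermediateField.mem_top (x := z))
  rw [Subfield.mem_closure_iff] at hz
  obtain ⟨y, hy, w, hw, he⟩ := hz
  have hcl : Subring.closure (B : Set L) = B.toSubring := by
    have : (B : Set L) = (B.toSubring : Set L) := rfl
    rw [this, Subring.closure_eq]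
  rw [hcl] at hy hw
  exact ⟨⟨y, hy⟩, ⟨w, hw⟩, he.symm⟩

/-- LU4 (local uniformization, with units).  Proof.  `E0 = k(u, α)`, `ζ` from `exists_zeta`. For `z ∈ Z`
choose `c, P, Q` by `exists_fraction`. All coefficients of the `P`, `Q` and of the minimal polynomial of `ζ`
are elements of `E0` of norm `≤ 1`; each nonzero one is `G₁ α / G₂ α` with nonzero polynomials
`G₁, G₂` over `M = k(u)`. Apply `exists_chart` to the set `S` of all these polynomials: a coefficient is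
then a constant times a unit of `C`, the constant has norm `≤ 1` (the unit has norm `1`), so the
coefficient is in `C`. `B = C[ζ][1/H'(ζ)]` by SM3 (`minpoly` is minimal over `C ⊆ E0`), then invert
all `P ζ`, `Q ζ` (norm `1`). `C₀ = k[u, α, ζ]` and `D_B = D * H'(ζ) * ∏ P ζ * Q ζ` times a
power of `D` (the coefficients of `P`, `Q`, `H` are in `C`, so a power of `D` times `P ζ` is in `C₀`). The
fraction field of `B` is `L`, since `B` contains `O k`, `u`, `α`, `ζ`. -/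
theorem lu_units {m d : ℕ} {u : Fin m → L} {α : L} (hD : LUData k d u α)
    (hval : ∀ x : L, ∃ c : k, ‖c‖ = ‖x‖) :
    ∃ C₀ : Subalgebra k L, C₀.FG ∧ ∀ Z : Finset L, (∀ z ∈ Z, z ≠ 0) →
      ∃ B : Subalgebra (O k) L, Algebra.Smooth (O k) B ∧ (∀ b ∈ B, ‖b‖ ≤ 1) ∧
        IsFractionRing B L ∧ (∀ z ∈ Z, UnitUpTo k B z) ∧
        ∃ D ∈ C₀, UnitUpTo k B D ∧ ∀ b ∈ B, ∃ N : ℕ, b * D ^ N ∈ C₀ := by
  classical
  set E0 : IntermediateField k L := IntermediateField.adjoin k (Set.range u ∪ {α}) with hE0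
  have : Algebra.IsSeparable E0 L := hD.sep
  have : FiniteDimensional E0 L := hD.fin
  obtain ⟨ζ, hζ1, hgen, hHc, hder⟩ := exists_zeta E0 hD.dense hval
  set H := minpoly E0 ζ with hH
  have hint : IsIntegral E0 ζ := Algebra.IsIntegral.isIntegral ζ
  have hHm : H.Monic := minpoly.monic hint
  refine ⟨Algebra.adjoin k ((Set.range u ∪ {α}) ∪ {ζ}), ?_, ?_⟩
  · exact Subalgebra.fg_def.2 ⟨_, ((Set.finite_range u).union (Set.finite_singleton α)).union
      (Set.finite_singleton ζ), rfl⟩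
  intro Z hZ
  set C₀ : Subalgebra k L := Algebra.adjoin k ((Set.range u ∪ {α}) ∪ {ζ}) with hC₀
  have hfr : ∀ z : L, z ≠ 0 → ∃ (c : k) (P Q : Polynomial E0), c ≠ 0 ∧
      (∀ i, ‖(P.coeff i : L)‖ ≤ 1) ∧ (∀ i, ‖(Q.coeff i : L)‖ ≤ 1) ∧ ‖aeval ζ P‖ = 1 ∧
      ‖aeval ζ Q‖ = 1 ∧ z = algebraMap k L c * (aeval ζ P / aeval ζ Q) := fun z hz =>
    exists_fraction E0 hD.dense hval hζ1 hgen hHc hder hz
  choose! c P Q hc0 hPc hQc hP1 hQ1 hzPQ using hfr
  have hq := fun (e : L) (he : e ∈ E0) (he0 : e ≠ 0) => lu4_quot (u := u) (α := α) e he he0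
  choose! G₁ G₂ hG₁ hG₂ hG₁α hG₂α heG using hq
  set T : Finset E0 := (H.coeffs ∪ Z.biUnion fun z => (P z).coeffs ∪ (Q z).coeffs).filter
    (fun e => e ≠ 0) with hT
  set S : Finset (Polynomial L) :=
    (T.image fun e : E0 => G₁ (e : L)) ∪ (T.image fun e : E0 => G₂ (e : L)) with hS
  have hSS : ∀ G ∈ S, G ≠ 0 ∧ CoeffsIn (IntermediateField.adjoin k (Set.range u)) G := by
    intro G hG
    rw [hS, Finset.mem_union, Finset.mem_image, Finset.mem_image] at hG
    rcases hG with ⟨e, he, rfl⟩ | ⟨e, he, rfl⟩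
    · exact hG₁ e e.2 (fun h0 => (Finset.mem_filter.1 he).2 (Subtype.ext h0))
    · exact hG₂ e e.2 (fun h0 => (Finset.mem_filter.1 he).2 (Subtype.ext h0))
  obtain ⟨C, hCs, hC1, hCE, huC, hαC, hSC, D₁, hD₁, hD₁u, hD₁loc⟩ := exists_chart hD hval S hSS
  have hTC : ∀ e ∈ T, ‖(e : L)‖ ≤ 1 → (e : L) ∈ C := by
    intro e he he1
    have he0 : (e : L) ≠ 0 := fun h0 => (Finset.mem_filter.1 he).2 (Subtype.ext h0)
    refine lu4_mem_of_unit hC1 ?_ he1
    rw [heG e e.2 he0]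
    refine lu4_unit_div (hSC _ ?_) (hSC _ ?_)
    · rw [hS, Finset.mem_union]
      exact Or.inl (Finset.mem_image.2 ⟨e, he, rfl⟩)
    · rw [hS, Finset.mem_union]
      exact Or.inr (Finset.mem_image.2 ⟨e, he, rfl⟩)
  have hcoef : ∀ R : Polynomial E0, (R.coeffs ⊆ H.coeffs ∪ Z.biUnion fun z =>
      (P z).coeffs ∪ (Q z).coeffs) → (∀ i, ‖(R.coeff i : L)‖ ≤ 1) → ∀ i, (R.coeff i : L) ∈ C := by
    intro R hR hR1 i
    by_cases h0 : R.coeff i = 0
    · rw [h0]; exact zero_mem C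
    · refine hTC _ ?_ (hR1 i)
      rw [hT, Finset.mem_filter]
      exact ⟨hR (coeff_mem_coeffs h0), h0⟩
  have hHC : ∀ i, (H.coeff i : L) ∈ C := hcoef H Finset.subset_union_left hHc
  have hPC : ∀ z ∈ Z, ∀ i, ((P z).coeff i : L) ∈ C := by
    intro z hz
    refine hcoef _ ?_ (hPc z (hZ z hz))
    intro e he
    rw [Finset.mem_union, Finset.mem_biUnion]
    exact Or.inr ⟨z, hz, Finset.mem_union_left _ he⟩
  have hQC : ∀ z ∈ Z, ∀ i, ((Q z).coeff i : L) ∈ C := by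
    intro z hz
    refine hcoef _ ?_ (hQc z (hZ z hz))
    intro e he
    rw [Finset.mem_union, Finset.mem_biUnion]
    exact Or.inr ⟨z, hz, Finset.mem_union_right _ he⟩
  -- the polynomial over `C`
  set ι : C →+* E0 :=
    (C.val.toRingHom).codRestrict E0.toSubring (fun x => hCE x x.2) with hι
  have hιinj : Function.Injective ι := by
    intro x y hxy
    have : ((ι x : E0) : L) = ((ι y : E0) : L) := congrArg _ hxy
    exact Subtype.ext this
  have hιL : (algebraMap E0 L).comp ι = algebraMap C L := by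
    ext x; rfl
  have hlift : H ∈ Polynomial.lifts ι := by
    rw [Polynomial.lifts_iff_coeff_lifts]
    intro i
    exact ⟨⟨_, hHC i⟩, Subtype.ext rfl⟩
  obtain ⟨HC, hHCmap, hHCdeg, hHCm⟩ := Polynomial.lifts_and_degree_eq_and_monic hlift hHm
  have haev : ∀ G : Polynomial C, aeval ζ G = aeval ζ (G.map ι) := by
    intro G
    rw [aeval_def, aeval_def, eval₂_map, hιL]
  have hmin : ∀ G : Polynomial C, aeval ζ G = 0 → HC ∣ G := by
    intro G hG
    rw [← Polynomial.map_dvd_map ι hιinj hHCm, hHCmap]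
    rw [haev] at hG
    exact minpoly.dvd E0 ζ hG
  have hder' : aeval ζ (derivative HC) = aeval ζ (derivative H) := by
    rw [haev, ← derivative_map, hHCmap]
  have hder0 : aeval ζ (derivative H) ≠ 0 := by
    rw [← norm_ne_zero_iff, hder]; exact one_ne_zero
  have hζHC : aeval ζ HC = 0 := by
    rw [haev, hHCmap]; exact minpoly.aeval E0 ζ
  have hsm1 := smooth_adjoin_etale C hCs HC hHCm hζHC hmin (by rw [hder']; exact hder0)
  rw [hder'] at hsm1
  set δ := aeval ζ (derivative H) with hδ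
  set B₁ := C ⊔ Algebra.adjoin (O k) {ζ, δ⁻¹} with hB₁
  have hCB₁ : C ≤ B₁ := le_sup_left
  have hζB₁ : ζ ∈ B₁ := (le_sup_right : _ ≤ B₁) (Algebra.subset_adjoin (by simp))
  have hδB₁ : δ⁻¹ ∈ B₁ := (le_sup_right : _ ≤ B₁) (Algebra.subset_adjoin (by simp))
  -- the product
  set ϖ : L := ∏ z ∈ Z, (aeval ζ (P z) * aeval ζ (Q z)) with hϖ
  have hPB₁ : ∀ z ∈ Z, aeval ζ (P z) ∈ B₁ := fun z hz =>
    lu4_aeval_mem hζB₁ _ fun i => hCB₁ (hPC z hz i)
  have hQB₁ : ∀ z ∈ Z, aeval ζ (Q z) ∈ B₁ := fun z hz =>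
    lu4_aeval_mem hζB₁ _ fun i => hCB₁ (hQC z hz i)
  have hϖB₁ : ϖ ∈ B₁ := prod_mem fun z hz => mul_mem (hPB₁ z hz) (hQB₁ z hz)
  have hϖ1 : ‖ϖ‖ = 1 := by
    rw [hϖ, norm_prod]
    refine Finset.prod_eq_one fun z hz => ?_
    rw [norm_mul, hP1 z (hZ z hz), hQ1 z (hZ z hz), mul_one]
  have hϖ0 : ϖ ≠ 0 := by
    rw [← norm_ne_zero_iff, hϖ1]; exact one_ne_zero
  set B := B₁ ⊔ Algebra.adjoin (O k) {ϖ⁻¹} with hB
  have hsm2 : Algebra.Smooth (O k) B := smooth_adjoin_inv B₁ hsm1 hϖB₁ hϖ0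
  have hB₁B : B₁ ≤ B := le_sup_left
  have hϖB : ϖ⁻¹ ∈ B := (le_sup_right : _ ≤ B) (Algebra.subset_adjoin (by simp))
  have hBball : B ≤ lu4Ball k L := by
    refine sup_le (sup_le (fun x hx => hC1 x hx) ?_) ?_
    · refine Algebra.adjoin_le ?_
      rintro x (rfl | rfl)
      · exact hζ1
      · change ‖δ⁻¹‖ ≤ 1
        rw [norm_inv, hder, inv_one]
    · refine Algebra.adjoin_le ?_
      rintro x rfl
      change ‖ϖ⁻¹‖ ≤ 1
      rw [norm_inv, hϖ1, inv_one]
  -- units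
  have hunits : ∀ z ∈ Z, (aeval ζ (P z))⁻¹ ∈ B ∧ (aeval ζ (Q z))⁻¹ ∈ B := by
    intro z hz
    have h1 : ϖ = (aeval ζ (P z) * aeval ζ (Q z)) *
        ∏ y ∈ Z.erase z, (aeval ζ (P y) * aeval ζ (Q y)) := by
      rw [hϖ, Finset.mul_prod_erase Z (fun z => aeval ζ (P z) * aeval ζ (Q z)) hz]
    set R := ∏ y ∈ Z.erase z, (aeval ζ (P y) * aeval ζ (Q y)) with hR
    have hRB : R ∈ B := hB₁B (prod_mem fun y hy =>
      mul_mem (hPB₁ y (Finset.mem_of_mem_erase hy)) (hQB₁ y (Finset.mem_of_mem_erase hy)))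
    have hP0 : aeval ζ (P z) ≠ 0 := by
      rw [← norm_ne_zero_iff, hP1 z (hZ z hz)]; exact one_ne_zero
    have hQ0 : aeval ζ (Q z) ≠ 0 := by
      rw [← norm_ne_zero_iff, hQ1 z (hZ z hz)]; exact one_ne_zero
    have hR0 : R ≠ 0 := by
      intro h0
      apply hϖ0
      rw [h1, h0, mul_zero]
    constructor
    · have h2 : (aeval ζ (P z))⁻¹ = ϖ⁻¹ * (aeval ζ (Q z) * R) := by
        rw [h1]; field_simp
      rw [h2]
      exact mul_mem hϖB (mul_mem (hB₁B (hQB₁ z hz)) hRB)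
    · have h2 : (aeval ζ (Q z))⁻¹ = ϖ⁻¹ * (aeval ζ (P z) * R) := by
        rw [h1]; field_simp
      rw [h2]
      exact mul_mem hϖB (mul_mem (hB₁B (hPB₁ z hz)) hRB)
  refine ⟨B, hsm2, fun b hb => hBball hb, ?_, ?_, ?_⟩
  · refine lu4_frac (S := Set.range u ∪ {α}) hE0 ?_ (hB₁B hζB₁) hgen
    rintro x (⟨i, rfl⟩ | rfl)
    · exact hB₁B (hCB₁ (huC i))
    · exact hB₁B (hCB₁ hαC)
  · intro z hz
    obtain ⟨h1, h2⟩ := hunits z hz
    have hP0 : aeval ζ (P z) ≠ 0 := by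
      rw [← norm_ne_zero_iff, hP1 z (hZ z hz)]; exact one_ne_zero
    have hQ0 : aeval ζ (Q z) ≠ 0 := by
      rw [← norm_ne_zero_iff, hQ1 z (hZ z hz)]; exact one_ne_zero
    refine ⟨c z, hc0 z (hZ z hz), aeval ζ (P z) / aeval ζ (Q z), ?_, div_ne_zero hP0 hQ0, ?_,
      hzPQ z (hZ z hz)⟩
    · rw [div_eq_mul_inv]
      exact mul_mem (hB₁B (hPB₁ z hz)) h2
    · rw [inv_div, div_eq_mul_inv]
      exact mul_mem (hB₁B (hQB₁ z hz)) h1
  · -- the denominator
    have hC₁C₀ : Algebra.adjoin k (Set.range u ∪ {α}) ≤ C₀ :=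
      Algebra.adjoin_mono Set.subset_union_left
    have hζC₀ : ζ ∈ C₀ := Algebra.subset_adjoin (by simp)
    have hD₁C₀ : D₁ ∈ C₀ := hC₁C₀ hD₁
    have hCloc : ∀ b ∈ C, b ∈ lu4Loc C₀ D₁ hD₁C₀ := by
      intro b hb
      obtain ⟨N, hN⟩ := hD₁loc b hb
      exact ⟨N, hC₁C₀ hN⟩
    have hζloc : ζ ∈ lu4Loc C₀ D₁ hD₁C₀ := lu4_le_loc _ _ _ hζC₀
    have hδloc : δ ∈ lu4Loc C₀ D₁ hD₁C₀ := by
      refine lu4_aeval_mem' hζloc _ fun i => hCloc _ ?_
      rw [coeff_derivative]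
      push_cast
      exact mul_mem (hHC _) (add_mem (natCast_mem C i) (one_mem C))
    have hϖloc : ϖ ∈ lu4Loc C₀ D₁ hD₁C₀ := by
      refine prod_mem fun z hz => mul_mem ?_ ?_
      · exact lu4_aeval_mem' hζloc _ fun i => hCloc _ (hPC z hz i)
      · exact lu4_aeval_mem' hζloc _ fun i => hCloc _ (hQC z hz i)
    obtain ⟨N₁, hN₁⟩ := hδloc
    obtain ⟨N₂, hN₂⟩ := hϖloc
    have hδ0 : δ ≠ 0 := hder0
    set D : L := D₁ * (δ * D₁ ^ N₁) * (ϖ * D₁ ^ N₂) with hDdef
    have hDC₀ : D ∈ C₀ := mul_mem (mul_mem hD₁C₀ hN₁) hN₂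
    have hδB : δ ∈ B := by
      refine lu4_aeval_mem (hB₁B hζB₁) _ fun i => hB₁B (hCB₁ ?_)
      rw [coeff_derivative]
      push_cast
      exact mul_mem (hHC _) (add_mem (natCast_mem C i) (one_mem C))
    have hD₁B : UnitUpTo k B D₁ := lu4_unit_mono (hCB₁.trans hB₁B) hD₁u
    refine ⟨D, hDC₀, ?_, ?_⟩
    · refine lu4_unit_mul (lu4_unit_mul hD₁B (lu4_unit_mul ?_ (lu4_unit_pow hD₁B _)))
        (lu4_unit_mul ?_ (lu4_unit_pow hD₁B _))
      · exact lu4_unit_of hδB hδ0 (hB₁B hδB₁)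
      · exact lu4_unit_of (hB₁B hϖB₁) hϖ0 hϖB
    · intro b hb
      have hle : B ≤ ((lu4Loc C₀ D hDC₀).restrictScalars (O k)) := by
        refine sup_le (sup_le ?_ ?_) ?_
        · intro x hx
          obtain ⟨N, hN⟩ := hD₁loc x hx
          refine ⟨N, ?_⟩
          have h1 : x * D ^ N = (x * D₁ ^ N) * ((δ * D₁ ^ N₁) * (ϖ * D₁ ^ N₂)) ^ N := by
            rw [hDdef]; ring
          rw [h1]
          exact mul_mem (hC₁C₀ hN) (pow_mem (mul_mem hN₁ hN₂) _)
        · refine Algebra.adjoin_le ?_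
          rintro x (rfl | rfl)
          · exact lu4_le_loc C₀ D hDC₀ hζC₀
          · refine ⟨1, ?_⟩
            have h1 : δ⁻¹ * D ^ 1 = D₁ * D₁ ^ N₁ * (ϖ * D₁ ^ N₂) := by
              rw [hDdef]; field_simp
            rw [h1]
            exact mul_mem (mul_mem hD₁C₀ (pow_mem hD₁C₀ _)) hN₂
        · refine Algebra.adjoin_le ?_
          rintro x rfl
          refine ⟨1, ?_⟩
          have h1 : ϖ⁻¹ * D ^ 1 = D₁ * (δ * D₁ ^ N₁) * D₁ ^ N₂ := by
            rw [hDdef]; field_simp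
          rw [h1]
          exact mul_mem (mul_mem hD₁C₀ hN₁) (pow_mem hD₁C₀ _)
      exact hle hb

end MP1a953e
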