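import Pool.Agent.Lib.MP_1a953e_ag.PlStrB
import Pool.Agent.Lib.MP_1a953e_ag.PlLocB
import Pool.Agent.Lib.MP_1a953e_ag.PlChart
import Pool.Agent.Lib.MP_1a953e_ag.PlUnits
import Pool.Agent.Lib.MP_1a953e_ag.PlBlow
import Pool.Agent.Lib.MP_1a953e_ag.PlEmb

/-!
# Module PlMain: totally immediate points which look like points of the plane
-/

namespace MP1a953e

open Polynomial

universe v

private theorem plmain_isComplete {X : Type*} [UniformSpace X] {s t : Set X} (hs : IsComplete s)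
    (ht : IsClosed t) (hts : t ⊆ s) : IsComplete t := by
  intro f hf hft
  obtain ⟨x, hx, hfx⟩ := hs f hf (hft.trans (Filter.principal_mono.2 hts))
  refine ⟨x, ?_, hfx⟩
  have hne := hf.1
  exact ht.mem_of_nhdsWithin_neBot (by
    rw [nhdsWithin]
    exact Filter.NeBot.mono hne (le_inf hfx hft))

/-- Main theorem.  Proof.  `exists_imk_emb` gives `Ω`, `ι`, `K`.
`rr k (ι y) > 0`: `k` is complete, so its image is closed, and `y ∉ k` (`y` is transcendental). `P₀` = closure of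
`adj (kr k Ω) (ι y)` in `Ω` (`Subfield.topologicalClosure`), contained in `K` (closed), so complete.
`str_of_algebraic` (an element algebraic over `adj (kr k Ω) y` is algebraic over `P₀`) gives the
hypothesis of `coord_of_str`, so `Coord k (ι y) (ι z)`, hence `Coord k y z` in `L` (`ev2` commutes with
`ι`, norms agree). Then `hasCharts_of_coord`, `units_of_charts` with `W = {y, z}`
(`‖y‖, ‖z‖ ≤ 1`; `hval` from `himm`: `‖x - c‖ < ‖x‖` gives `‖c‖ = ‖x‖`), `blowup_of_units`. -/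
theorem pl_main {p : ℕ} [Fact p.Prime] {k L : Type v} [NontriviallyNormedField k] [CompleteSpace k]
    [IsUltrametricDist k] [IsAlgClosed k] (hp : ‖(p : k)‖ < 1) [NormedField L]
    [IsUltrametricDist L] [NormedAlgebra k L]
    (himm : ∀ x : L, x ≠ 0 → ∃ c : k, ‖x - algebraMap k L c‖ < ‖x‖)
    {y z : L} (hy : ‖y‖ ≤ 1) (hz : ‖z‖ ≤ 1) (hyz : AlgebraicIndependent k ![y, z])
    (hfin : FiniteDimensional (IntermediateField.adjoin k ({y, z} : Set L)) L)
    (hsep : Algebra.IsSeparable (IntermediateField.adjoin k ({y, z} : Set L)) L)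
    (hdense : ∀ x : L, ∀ ε : ℝ, 0 < ε →
      ∃ w ∈ IntermediateField.adjoin k ({y, z} : Set L), ‖x - w‖ < ε)
    (A : Subalgebra (O k) L) (hA : A.FG) (hA1 : ∀ a ∈ A, ‖a‖ ≤ 1) (hAf : IsFractionRing A L) :
    ∃ (n : ℕ) (f : Fin (n + 1) → L), (∀ i, f i ∈ A) ∧ f 0 ≠ 0 ∧
      (∃ i, ∃ c : O k, c ≠ 0 ∧ f i = algebraMap (O k) L c) ∧
      (∀ b ∈ A ⊔ Algebra.adjoin (O k) (Set.range fun i => f i / f 0), ‖b‖ ≤ 1) ∧
      Algebra.Smooth (O k) ↥(A ⊔ Algebra.adjoin (O k) (Set.range fun i => f i / f 0)) := by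
  obtain ⟨Ω, iΩ, iA, hU, hAC, him, ι, K, hι, hKc, hKι⟩ := exists_imk_emb himm
  have hpΩ : ‖(p : Ω)‖ < 1 := by
    have h1 : (p : Ω) = algebraMap k Ω (p : k) := by simp
    rw [h1, norm_algebraMap']
    exact hp
  have hcommc : ∀ c : k, ι (algebraMap k L c) = algebraMap k Ω c := fun c => ι.commutes c
  have hinj : Function.Injective ι := ι.injective
  have hyzΩ : AlgebraicIndependent k ![ι y, ι z] := by
    have h1 := hyz.map' (f := ι) hinj
    have h2 : (ι ∘ ![y, z] : Fin 2 → Ω) = ![ι y, ι z] := by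
      funext i
      fin_cases i <;> rfl
    rwa [h2] at h1
  have hkrclosed : IsClosed (kr k Ω : Set Ω) := by
    have h1 : (kr k Ω : Set Ω) = Set.range (algebraMap k Ω) := by
      ext x
      exact mem_kr
    rw [h1]
    exact (algebraMap_isometry k Ω).isClosedEmbedding.isClosed_range
  have hrr : 0 < rr k (ι y) := by
    rw [rr]
    refine (hkrclosed.notMem_iff_infDist_pos ⟨0, (kr k Ω).zero_mem⟩).1 ?_
    intro hmem
    obtain ⟨c, hc⟩ := mem_kr.1 hmem
    have h1 : Transcendental k (ι y) := by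
      have := hyzΩ.transcendental 0
      simpa using this
    exact h1 (hc ▸ isAlgebraic_algebraMap c)
  have hkrK : kr k Ω ≤ K := by
    intro x hx
    obtain ⟨c, rfl⟩ := mem_kr.1 hx
    rw [← hcommc]
    exact hKι _
  have hadjK : adj (kr k Ω) (ι y) ≤ K := adj_le hkrK (hKι y)
  set P₀ : Subfield Ω := (adj (kr k Ω) (ι y)).topologicalClosure with hP₀
  have hle : adj (kr k Ω) (ι y) ≤ P₀ := Subfield.le_topologicalClosure _
  have hPcl : IsClosed (P₀ : Set Ω) := Subfield.isClosed_topologicalClosure _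
  have hPK : (P₀ : Set Ω) ⊆ K := by
    have h1 : P₀ ≤ K := Subfield.topologicalClosure_minimal _ hadjK hKc.isClosed
    exact h1
  have hPc : IsComplete (P₀ : Set Ω) := plmain_isComplete hKc hPcl hPK
  have hPd : DenseIn (adj (kr k Ω) (ι y)) P₀ := by
    refine ⟨hle, fun x hx ε hε => ?_⟩
    have h1 : x ∈ closure (adj (kr k Ω) (ι y) : Set Ω) := hx
    obtain ⟨a, ha, h2⟩ := Metric.mem_closure_iff.1 h1 ε hε
    exact ⟨a, ha, by rwa [← dist_eq_norm]⟩
  have hstr : ∀ ρ w : Ω, IsAlgebraic (adj (kr k Ω) (ι y)) ρ → w ≠ 0 → Str k (ι y) ρ w := by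
    intro ρ w hρ hw
    refine str_of_algebraic hpΩ him hrr hw hPc hPd ?_
    obtain ⟨q, hq0, hq⟩ := hρ
    refine ⟨q.map (Subfield.inclusion hle), ?_, ?_⟩
    · rwa [Ne, Polynomial.map_eq_zero]
    · rw [aeval_def, eval₂_map]
      rw [aeval_def] at hq
      exact hq
  have hcΩ : Coord k (ι y) (ι z) := coord_of_str him hyzΩ hstr
  have hev : ∀ P : MvPolynomial (Fin 2) k, ι (ev2 k y z P) = ev2 k (ι y) (ι z) P := by
    intro P
    have h1 : (ι.comp (ev2 k y z)) = ev2 k (ι y) (ι z) := by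
      refine MvPolynomial.algHom_ext fun i => ?_
      fin_cases i <;> simp [ev2]
    rw [← h1]
    rfl
  have hco : Coord k y z := by
    intro S hS
    obtain ⟨φ, a, c₁, c₂, h1, h2, h3, h4, h5⟩ := hcΩ S hS
    refine ⟨φ, a, c₁, c₂, h1, h2, ?_, ?_, h5⟩
    · rw [← hι, map_sub, hev, hcommc]
      exact h3
    · rw [← hι, hev]
      exact h4
  have hval : ∀ x : L, ∃ c : k, ‖c‖ = ‖x‖ := by
    intro x
    by_cases hx : x = 0
    · exact ⟨0, by rw [hx, norm_zero, norm_zero]⟩
    · obtain ⟨c, hc⟩ := himm x hx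
      refine ⟨c, ?_⟩
      have h2 : algebraMap k L c = x + -(x - algebraMap k L c) := by ring
      have h3 : ‖-(x - algebraMap k L c)‖ < ‖x‖ := by rwa [norm_neg]
      rw [← norm_algebraMap' L c, h2,
        IsUltrametricDist.norm_add_eq_max_of_norm_ne_norm h3.ne', max_eq_left h3.le]
  refine blowup_of_units hval (units_of_charts (W := {y, z}) (Set.toFinite _) ?_ hsep hfin hdense
    hval (hasCharts_of_coord hyz hco)) A hA hA1 hAf
  intro x hx
  rcases hx with rfl | hx
  · exact hy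
  · rw [Set.mem_singleton_iff] at hx
    rw [hx]
    exact hz

end MP1a953e
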