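import Pool.Agent.Lib.MP_1a953e_ag.Defs

/-!
# Module Frob1: k0 is perfect; small Artin-Schreier equations
-/

namespace MP1a953e

open Polynomial

variable {Ω : Type*} [NormedField Ω] {p : ℕ} [Fact p.Prime] [CharP Ω p]

/-- FRO5.  `k0` is perfect (see the proof of `Ab.root`). -/
theorem Ground.perfect [IsUltrametricDist Ω] {k0 k : Subfield Ω} (h : Ground k0 k) :
    ∀ x ∈ k0, ∃ y ∈ k0, y ^ p = x := by
  intro x hx
  have hp : 0 < p := (Fact.out : p.Prime).pos
  have := h.closed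
  obtain ⟨z, hz⟩ := IsAlgClosed.exists_pow_nat_eq (⟨x, h.le hx⟩ : k) hp
  have hz' : (z : Ω) ^ p = x := congrArg Subtype.val hz
  have hx1 : ‖x‖ ≤ 1 := by
    by_cases h0 : x = 0
    · rw [h0, norm_zero]
      exact zero_le_one
    · exact (h.triv x hx h0).le
  have hz1 : ‖(z : Ω)‖ ≤ 1 := by
    have h1 : ‖(z : Ω)‖ ^ p ≤ 1 := by rw [← norm_pow, hz']; exact hx1
    exact (pow_le_one_iff_of_nonneg (norm_nonneg _) hp.ne').1 h1
  obtain ⟨c, hc, hzc⟩ := h.res z z.2 hz1
  refine ⟨c, hc, ?_⟩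
  have h2 : ‖x - c ^ p‖ < 1 := by
    rw [← hz', ← sub_pow_char (p := p) (z : Ω) c, norm_pow]
    exact pow_lt_one₀ (norm_nonneg _) hzc hp.ne'
  by_contra hne
  have h3 := h.triv (x - c ^ p) (k0.sub_mem hx (k0.pow_mem hc p))
    (sub_ne_zero.2 fun h4 => hne h4.symm)
  rw [h3] at h2
  exact lt_irrefl _ h2

/-- FRO6.  Artin-Schreier equations with small right hand side are solvable in a complete field:
`h = - ∑ w ^ (p ^ i)`. -/
theorem as_small [IsUltrametricDist Ω] {K : Subfield Ω} (hK : IsComplete (K : Set Ω)) {w : Ω}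
    (hw : w ∈ K) (hw1 : ‖w‖ < 1) : ∃ h ∈ K, ‖h‖ < 1 ∧ h ^ p - h = w := by
  have hp : p.Prime := Fact.out
  have : CompleteSpace K := hK.completeSpace_coe
  have hsum : Summable fun i : ℕ => (⟨w, hw⟩ : K) ^ p ^ i := by
    refine Summable.of_norm_bounded (g := fun i => ‖w‖ ^ i)
      (summable_geometric_of_lt_one (norm_nonneg _) hw1) fun i => ?_
    rw [norm_pow]
    exact pow_le_pow_of_le_one (norm_nonneg _) hw1.le (Nat.lt_pow_self hp.one_lt).le
  obtain ⟨S, hS⟩ := hsum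
  have hS' : HasSum (fun i : ℕ => w ^ p ^ i) (S : Ω) :=
    hS.map K.subtype continuous_subtype_val
  have hfr : HasSum (fun i : ℕ => (w ^ p ^ i) ^ p) ((S : Ω) ^ p) :=
    hS'.map (frobenius Ω p) (continuous_pow p)
  have hsh : HasSum (fun i : ℕ => w ^ p ^ (i + 1)) ((S : Ω) - w) := by
    have h1 := (hasSum_nat_add_iff' (f := fun i : ℕ => w ^ p ^ i) 1).2 hS'
    rw [Finset.sum_range_one, pow_zero, pow_one] at h1
    exact h1
  have heq : (S : Ω) ^ p = (S : Ω) - w := by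
    refine hfr.unique ?_
    have h2 : (fun i : ℕ => (w ^ p ^ i) ^ p) = fun i : ℕ => w ^ p ^ (i + 1) := by
      funext i
      rw [← pow_mul, pow_succ]
    rw [h2]
    exact hsh
  have hneg : (-(S : Ω)) ^ p = -((S : Ω) ^ p) := by
    have h3 := map_neg (frobenius Ω p) (S : Ω)
    rwa [frobenius_def, frobenius_def] at h3
  refine ⟨-(S : Ω), K.neg_mem S.2, ?_, ?_⟩
  · rw [norm_neg]
    refine lt_of_le_of_lt ?_ hw1
    have hcl : IsClosed {x : Ω | ‖x‖ ≤ ‖w‖} := isClosed_le continuous_norm continuous_const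
    refine hcl.mem_of_tendsto hS' (Filter.Eventually.of_forall fun s => ?_)
    refine IsUltrametricDist.norm_sum_le_of_forall_le_of_nonneg (norm_nonneg _) fun i _ => ?_
    rw [norm_pow]
    exact pow_le_of_le_one (norm_nonneg _) hw1.le (pow_pos hp.pos i).ne'
  · rw [hneg, heq]
    ring

end MP1a953e
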