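import Pool.Agent.Lib.MP_1a953e_ag.Frob1

/-!
# Module Frob3: fields of p^m-th roots
-/

namespace MP1a953e

open Polynomial

variable {Ω : Type*} [NormedField Ω] {p : ℕ} [Fact p.Prime] [CharP Ω p]

private lemma q_ne (m : ℕ) : p ^ m ≠ 0 := pow_ne_zero _ (Fact.out : p.Prime).ne_zero

private lemma pow_inj (m : ℕ) {x y : Ω} (h : x ^ p ^ m = y ^ p ^ m) : x = y := by
  have h1 : (x - y) ^ p ^ m = 0 := by rw [sub_pow_char_pow, h, sub_self]
  exact sub_eq_zero.1 ((pow_eq_zero_iff (q_ne m)).1 h1)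

private lemma norm_sub_pow (m : ℕ) (x y : Ω) : ‖x ^ p ^ m - y ^ p ^ m‖ = ‖x - y‖ ^ p ^ m := by
  rw [← sub_pow_char_pow, norm_pow]

private lemma exists_root [IsAlgClosed Ω] (m : ℕ) (x : Ω) : ∃ y : Ω, y ^ p ^ m = x :=
  IsAlgClosed.exists_pow_nat_eq x (Nat.pos_of_ne_zero (q_ne m))

private lemma ground_perfect [IsUltrametricDist Ω] {k0 k : Subfield Ω} (h : Ground k0 k) (m : ℕ) :
    ∀ x ∈ k0, ∃ y ∈ k0, y ^ p ^ m = x := by
  induction m with
  | zero => intro x hx; exact ⟨x, hx, by simp⟩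
  | succ m ih =>
    intro x hx
    obtain ⟨y, hy, hyx⟩ := ih x hx
    obtain ⟨z, hz, hzy⟩ := Ground.perfect (p := p) h y hy
    refine ⟨z, hz, ?_⟩
    rw [pow_succ', pow_mul, hzy, hyx]

private lemma k_perfect {k0 k : Subfield Ω} (h : Ground k0 k) (m : ℕ) :
    ∀ x ∈ k, ∃ y ∈ k, y ^ p ^ m = x := by
  intro x hx
  haveI := h.closed
  obtain ⟨z, hz⟩ := IsAlgClosed.exists_pow_nat_eq (⟨x, hx⟩ : k)
    (Nat.pos_of_ne_zero (q_ne (p := p) m))
  exact ⟨z, z.2, by simpa using congrArg Subtype.val hz⟩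

private lemma root_orth {B B' : Subfield Ω} (m : ℕ) {d : ℕ} {θ θ' : Fin (d + 1) → Ω}
    [IsAlgClosed Ω] (h : OrthBasis B B' θ) (hθ : ∀ i, θ' i ^ p ^ m = θ i) :
    OrthBasis (rootField p m B) (rootField p m B') θ' where
  le := fun x hx => mem_rootField.2 (h.le (mem_rootField.1 hx))
  zero := by
    apply pow_inj (p := p) m
    rw [hθ, h.zero, one_pow]
  mem := fun i => mem_rootField.2 (by rw [hθ]; exact h.mem i)
  ne := fun i h0 => by
    have := hθ i
    rw [h0, zero_pow (q_ne m)] at this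
    exact h.ne i this.symm
  span := by
    intro x hx
    obtain ⟨c, hc, hxc⟩ := h.span _ (mem_rootField.1 hx)
    choose c' hc' using fun i => exists_root (p := p) m (c i)
    refine ⟨c', fun i => mem_rootField.2 (by rw [hc']; exact hc i), ?_⟩
    apply pow_inj (p := p) m
    rw [hxc, sum_pow_char_pow]
    refine Finset.sum_congr rfl (fun i _ => ?_)
    rw [mul_pow, hc', hθ]
  orth := by
    intro c hc i
    have h1 := h.orth (fun i => c i ^ p ^ m) (fun i => mem_rootField.1 (hc i)) i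
    have h2 : ∑ j, c j ^ p ^ m * θ j = (∑ j, c j * θ' j) ^ p ^ m := by
      rw [sum_pow_char_pow]
      refine Finset.sum_congr rfl (fun i _ => ?_)
      rw [mul_pow, hθ]
    rw [h2, ← hθ, ← mul_pow, norm_pow, norm_pow] at h1
    exact (pow_le_pow_iff_left₀ (norm_nonneg _) (norm_nonneg _) (q_ne m)).1 h1

private lemma rootField_powField_comm [IsAlgClosed Ω] (m H : ℕ) (A : Subfield Ω) :
    rootField p m (powField p H A) = powField p H (rootField p m A) := by
  ext x
  rw [mem_rootField, mem_powField, mem_powField]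
  constructor
  · rintro ⟨y, hy, hyx⟩
    obtain ⟨z, hz⟩ := exists_root (p := p) m y
    refine ⟨z, mem_rootField.2 (by rw [hz]; exact hy), ?_⟩
    apply pow_inj (p := p) m
    rw [← hyx, ← hz, ← pow_mul, ← pow_mul, mul_comm]
  · rintro ⟨z, hz, rfl⟩
    refine ⟨z ^ p ^ m, mem_rootField.1 hz, ?_⟩
    rw [← pow_mul, ← pow_mul, mul_comm]

private lemma rootField_powField_self [IsAlgClosed Ω] (m : ℕ) (A : Subfield Ω) :
    rootField p m (powField p m A) = A := by
  ext x
  rw [mem_rootField, mem_powField]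
  constructor
  · rintro ⟨y, hy, hyx⟩
    rw [← pow_inj m hyx]
    exact hy
  · intro hx
    exact ⟨x, hx, rfl⟩

private lemma root_fg [IsUltrametricDist Ω] [IsAlgClosed Ω] {k0 k A : Subfield Ω}
    (hg : Ground k0 k) (hA : ∃ s : Finset Ω, A = k0 ⊔ Subfield.closure (s : Set Ω)) (m : ℕ) :
    ∃ s : Finset Ω, rootField p m A = k0 ⊔ Subfield.closure (s : Set Ω) := by
  classical
  obtain ⟨s, hs⟩ := hA
  choose r hr using exists_root (Ω := Ω) (p := p) m
  have hk0A : k0 ≤ A := by rw [hs]; exact le_sup_left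
  refine ⟨s.image r, le_antisymm ?_ ?_⟩
  · have h1 : A ≤ powField p m (k0 ⊔ Subfield.closure ((s.image r : Finset Ω) : Set Ω)) := by
      rw [hs]
      refine sup_le ?_ (Subfield.closure_le.2 ?_)
      · intro x hx
        obtain ⟨y, hy, hyx⟩ := ground_perfect (p := p) hg m x hx
        exact mem_powField.2 ⟨y, (le_sup_left : k0 ≤ _) hy, hyx⟩
      · intro x hx
        refine mem_powField.2 ⟨r x, ?_, hr x⟩
        refine (le_sup_right : Subfield.closure ((s.image r : Finset Ω) : Set Ω) ≤ _)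
          (Subfield.subset_closure ?_)
        rw [Finset.coe_image]
        exact ⟨x, hx, rfl⟩
    intro x hx
    obtain ⟨y, hy, hyx⟩ := mem_powField.1 (h1 (mem_rootField.1 hx))
    rw [← pow_inj m hyx]
    exact hy
  · refine sup_le ?_ (Subfield.closure_le.2 ?_)
    · intro x hx
      exact mem_rootField.2 (A.pow_mem (hk0A hx) _)
    · intro x hx
      rw [Finset.coe_image] at hx
      obtain ⟨y, hy, rfl⟩ := hx
      refine mem_rootField.2 ?_
      rw [hr, hs]
      exact (le_sup_right : Subfield.closure (s : Set Ω) ≤ _) (Subfield.subset_closure hy)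

private lemma root_complete [IsAlgClosed Ω] {F : Subfield Ω} (hF : IsComplete (F : Set Ω))
    (m : ℕ) : IsComplete (rootField p m F : Set Ω) := by
  have hu : IsUniformInducing (fun x : Ω => x ^ p ^ m) := by
    rw [Metric.isUniformInducing_iff]
    have hq := q_ne (p := p) m
    constructor
    · rw [Metric.uniformContinuous_iff]
      intro ε hε
      refine ⟨ε ^ ((p ^ m : ℕ) : ℝ)⁻¹, by positivity, fun {a b} hab => ?_⟩
      rw [dist_eq_norm, norm_sub_pow]
      rw [dist_eq_norm] at hab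
      calc ‖a - b‖ ^ p ^ m < (ε ^ ((p ^ m : ℕ) : ℝ)⁻¹) ^ p ^ m :=
            pow_lt_pow_left₀ hab (norm_nonneg _) hq
        _ = ε := Real.rpow_inv_natCast_pow hε.le hq
    · intro δ hδ
      refine ⟨δ ^ p ^ m, by positivity, fun {a b} hab => ?_⟩
      rw [dist_eq_norm, norm_sub_pow] at hab
      rw [dist_eq_norm]
      exact lt_of_pow_lt_pow_left₀ _ hδ.le hab
  rw [← hu.isComplete_iff]
  convert hF using 1
  ext x
  constructor
  · rintro ⟨y, hy, rfl⟩
    exact mem_rootField.1 hy
  · intro hx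
    obtain ⟨y, hy⟩ := exists_root (p := p) m x
    exact ⟨y, mem_rootField.2 (by rw [hy]; exact hx), hy⟩

private lemma root_dense [IsUltrametricDist Ω] [IsAlgClosed Ω] {k0 k A F : Subfield Ω}
    (hA : Ab p k0 k A F) (m : ℕ) :
    ∀ x ∈ rootField p m F, ∀ ε : ℝ, 0 < ε →
      ∃ g ∈ Subring.closure ((k : Set Ω) ∪ (rootField p m A : Set Ω)), ‖x - g‖ < ε := by
  intro x hx ε hε
  obtain ⟨g, hg, hxg⟩ := hA.dense _ (mem_rootField.1 hx) (ε ^ p ^ m) (by positivity)
  have h1 : Subring.closure ((k : Set Ω) ∪ A) ≤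
      (Subring.closure ((k : Set Ω) ∪ (rootField p m A : Set Ω))).map
        (iterateFrobenius Ω p m) := by
    rw [Subring.closure_le]
    rintro y (hy | hy)
    · obtain ⟨z, hz, hzy⟩ := k_perfect (p := p) hA.ground m y hy
      exact Subring.mem_map.2 ⟨z, Subring.subset_closure (Or.inl hz), by
        rw [iterateFrobenius_def]; exact hzy⟩
    · obtain ⟨z, hz⟩ := exists_root (p := p) m y
      exact Subring.mem_map.2 ⟨z, Subring.subset_closure (Or.inr (mem_rootField.2 (by
        rw [hz]; exact hy))), by rw [iterateFrobenius_def]; exact hz⟩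
  obtain ⟨z, hz, hzg⟩ := Subring.mem_map.1 (h1 hg)
  rw [iterateFrobenius_def] at hzg
  refine ⟨z, hz, ?_⟩
  rw [← hzg, norm_sub_pow] at hxg
  exact lt_of_pow_lt_pow_left₀ _ hε.le hxg

/-- FRO3.  The pair of fields of `p ^ m`-th roots.  All statements are transported by the field
automorphism `x ↦ x ^ (p ^ m)` of `Ω` (surjective as `Ω` is algebraically closed), which satisfies
`‖x ^ (p ^ m)‖ = ‖x‖ ^ (p ^ m)`. `k0` and `k` are perfect: `k` is algebraically closed and for
`x ∈ k0` the `p`-th root `y ∈ k` has `‖y‖ ≤ 1`, so `‖y - c‖ < 1` with `c ∈ k0` (`Ground.res`),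
`x - c ^ p ∈ k0` has norm `< 1`, so it is `0` (`Ground.triv`).  `Ext`: take `p ^ m`-th roots of the
basis in `hA.frob m`. -/
theorem Ab.root [IsUltrametricDist Ω] [IsAlgClosed Ω] {k0 k A F : Subfield Ω}
    (hA : Ab p k0 k A F) (m : ℕ) :
    Ab p k0 k (rootField p m A) (rootField p m F) where
  ground := hA.ground
  k0_le := fun x hx => mem_rootField.2 (A.pow_mem (hA.k0_le hx) _)
  fg := root_fg hA.ground hA.fg m
  k_le := fun x hx => mem_rootField.2 (F.pow_mem (hA.k_le hx) _)
  A_le := fun x hx => mem_rootField.2 (hA.A_le (mem_rootField.1 hx))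
  dense := root_dense hA m
  complete := root_complete hA.complete m
  res := by
    intro x hx hx1
    obtain ⟨a, ha, ha1, hxa⟩ := hA.res _ (mem_rootField.1 hx) (by
      rw [norm_pow]; exact pow_le_one₀ (norm_nonneg _) hx1)
    obtain ⟨b, hb⟩ := exists_root (p := p) m a
    refine ⟨b, mem_rootField.2 (by rw [hb]; exact ha), ?_, ?_⟩
    · rw [← hb, norm_pow] at ha1
      exact (pow_le_one_iff_of_nonneg (norm_nonneg _) (q_ne m)).1 ha1
    · rw [← hb, norm_sub_pow] at hxa
      exact (pow_lt_one_iff_of_nonneg (norm_nonneg _) (q_ne m)).1 hxa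
  frob := by
    intro H
    obtain ⟨d, θ, h1, h2⟩ := hA.frob H
    choose θ' hθ' using fun i => exists_root (p := p) m (θ i)
    refine ⟨d, θ', ?_, ?_⟩
    · have := root_orth m h1 hθ'
      rwa [rootField_powField_comm] at this
    · have := root_orth m h2 hθ'
      rwa [rootField_powField_comm] at this

/-- FRO4. -/
theorem Ab.root_ext [IsUltrametricDist Ω] [IsAlgClosed Ω] {k0 k A F : Subfield Ω}
    (hA : Ab p k0 k A F) (m : ℕ) :
    Ext A F (rootField p m A) (rootField p m F) := by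
  obtain ⟨d, θ, h1, h2⟩ := hA.frob m
  choose θ' hθ' using fun i => exists_root (p := p) m (θ i)
  refine ⟨d, θ', ?_, ?_⟩
  · have := root_orth m h1 hθ'
    rwa [rootField_powField_self] at this
  · have := root_orth m h2 hθ'
    rwa [rootField_powField_self] at this

end MP1a953e
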