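import Pool.Agent.Lib.MP_1a953e_ag.NF2
import Pool.Agent.Lib.MP_1a953e_ag.Calc4
import Pool.Agent.Lib.MP_1a953e_ag.Lin3
import Pool.Agent.Lib.MP_1a953e_ag.Frob3

/-!
# Module AS1: Artin-Schreier step, case 2
-/

namespace MP1a953e

open Polynomial

variable {Ω : Type*} [NormedField Ω] [IsUltrametricDist Ω] [IsAlgClosed Ω]
variable {p : ℕ} [Fact p.Prime] [CharP Ω p]

omit [IsUltrametricDist Ω] [IsAlgClosed Ω] in
/-- elements of a simple algebraic extension are polynomials in the generator -/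
private theorem mem_adj_poly {E : Subfield Ω} {Y : Ω} (hY : IsIntegral E Y) {x : Ω}
    (hx : x ∈ adj E Y) : ∃ P : Polynomial Ω, Coeffs E P ∧ x = P.eval Y := by
  have h1 : adj E Y ≤ (IntermediateField.adjoin E {Y}).toSubfield := by
    refine adj_le (fun e he => ?_) ?_
    · exact (IntermediateField.adjoin E {Y}).algebraMap_mem ⟨e, he⟩
    · exact IntermediateField.mem_adjoin_simple_self E Y
  have h2 : x ∈ IntermediateField.adjoin E {Y} := h1 hx
  have h3 : x ∈ (IntermediateField.adjoin E {Y}).toSubalgebra := h2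
  rw [IntermediateField.adjoin_simple_toSubalgebra_of_isAlgebraic hY.isAlgebraic,
    Algebra.adjoin_singleton_eq_range_aeval] at h3
  obtain ⟨P, hP⟩ := h3
  refine ⟨P.map (algebraMap E Ω), fun i => ?_, ?_⟩
  · rw [coeff_map]
    exact (P.coeff i).2
  · rw [eval_map_algebraMap]
    exact hP.symm

omit [IsUltrametricDist Ω] [IsAlgClosed Ω] in
private theorem eval_mem {E : Subfield Ω} {g : Polynomial Ω} (hg : Coeffs E g) {a : Ω}
    (ha : a ∈ E) : g.eval a ∈ E := by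
  rw [eval_eq_sum_range]
  exact E.sum_mem fun i _ => E.mul_mem (hg i) (E.pow_mem ha i)

omit [IsUltrametricDist Ω] [IsAlgClosed Ω] in
private theorem coeffs_taylor {E : Subfield Ω} {g : Polynomial Ω} (hg : Coeffs E g) {a : Ω}
    (ha : a ∈ E) : Coeffs E (taylor a g) := by
  intro i
  rw [taylor_coeff]
  refine eval_mem (fun n => ?_) ha
  rw [hasseDeriv_coeff]
  exact E.mul_mem (natCast_mem E _) (hg _)

omit [IsAlgClosed Ω] in
private theorem norm_sum_lt'' {ι : Type*} {s : Finset ι} {f : ι → Ω} {r : ℝ} (hr : 0 < r)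
    (h : ∀ i ∈ s, ‖f i‖ < r) : ‖∑ i ∈ s, f i‖ < r := by
  rcases s.eq_empty_or_nonempty with rfl | hs
  · simpa using hr
  · obtain ⟨i, hi, hle⟩ := IsUltrametricDist.exists_norm_finsetSum_le_of_nonempty hs f
    exact hle.trans_lt (h i hi)

/-- AS1.  Case of the second alternative.  `K' ⊇ F` with `F(T)` dense in `K'`, `z₁ ^ p - z₁ = g T`.
Write `F' = rootField p m F`. By `nf` for `taylor a g` (evaluated at `T - a`), with
`c j = lam j (taylor a g)`, `g T = g a + ∑_{j ∈ J} c j (T - a) ^ j + (w ^ p - w)`,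
`w = h (T - a) ∈ K' ⊔ F'`. Put `Y = z₁ - w`, so `Y ^ p - Y = g a + ∑ c j (T - a) ^ j`, and
`q = (Y ^ p - Y - g a) / c 1 + a ∈ adj F' Y` has `‖T - q‖ < r`. `F'(T)` is dense in `K' ⊔ F'`
(`DenseIn.sup` with the basis from `Ab.root_ext`), `TT F' T` with the same `r`
(`infDist_sup`); by `TT.gc` `F'(q)` is dense in `K' ⊔ F'`. Since
`adj K' z₁ ⊔ F' = adj (K' ⊔ F') Y` and `Y` is algebraic over `K' ⊔ F'`
(`Y ^ p - Y ∈ K' ⊔ F'`), the elements of this field are `∑_{i<p} b i Y ^ i`, `b i ∈ K' ⊔ F'`;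
approximate the `b i` by elements of `adj F' q ≤ adj F' Y`.
`Y ∉ F'`: otherwise `q ∈ F'` and `‖T - q‖ < r = infDist T F'`. -/
theorem as_case_two {k0 k A F K' : Subfield Ω} (hA : Ab p k0 k A F) (hI : Imm F K') {T : Ω}
    (hT : TT F T) (m : ℕ) (hTm : TT (rootField p m F) T) (hd : DenseIn (adj F T) K')
    {g : Polynomial Ω} (hg : Coeffs F g) (hm : 1 ≤ m) (hdeg : g.natDegree < p ^ m) {z₁ : Ω}
    (hz : z₁ ^ p - z₁ = g.eval T) {a : Ω} (ha : a ∈ F) (hc1 : lam p m 1 (taylor a g) ≠ 0)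
    (hlt : ∀ j ∈ J p m, j ≠ 1 → ‖lam p m j (taylor a g)‖ * ‖T - a‖ ^ j <
      ‖lam p m 1 (taylor a g)‖ * Metric.infDist T (F : Set Ω)) :
    ∃ Y ∈ adj K' z₁ ⊔ rootField p m F, Y ∉ rootField p m F ∧
      DenseIn (adj (rootField p m F) Y) (adj K' z₁ ⊔ rootField p m F) := by
  have hp : p.Prime := Fact.out
  obtain ⟨d, θ, -, hθ⟩ := hA.root_ext m
  set F' := rootField p m F with hF'
  have hr := hT.pos
  have hTK : T ∈ K' := hd.1 (mem_adj_self F T)
  have hFF' : F ≤ F' := hθ.le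
  have hr' : Metric.infDist T (F' : Set Ω) = Metric.infDist T (F : Set Ω) := infDist_sup hI hθ hTK
  have hdE : DenseIn (adj F' T) (K' ⊔ F') := hd.sup hθ
  have hKE : K' ≤ K' ⊔ F' := le_sup_left
  have hFE : F' ≤ K' ⊔ F' := le_sup_right
  have hcG : Coeffs F (taylor a g) := coeffs_taylor hg ha
  obtain ⟨h, hh, -, hnf⟩ := nf (p := p) m hm hcG (by rwa [natDegree_taylor])
  set c : ℕ → Ω := fun j => lam p m j (taylor a g) with hc
  have hcF' : ∀ j, c j ∈ F' := fun j => lam_mem m j hcG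
  have hTa : T - a ∈ K' := K'.sub_mem hTK (hI.1 ha)
  set w : Ω := h.eval (T - a) with hw
  have hwE : w ∈ K' ⊔ F' := eval_mem (fun i => hFE (hh i)) (hKE hTa)
  have hgT : g.eval T = g.eval a + ∑ j ∈ J p m, c j * (T - a) ^ j + (w ^ p - w) := by
    have h1 : (taylor a g).eval (T - a) = g.eval T := by
      rw [taylor_eval]
      congr 1
      ring
    rw [← h1, hnf]
    have h2 : (taylor a g).coeff 0 = g.eval a := by rw [taylor_coeff_zero]
    simp only [eval_add, eval_sub, eval_pow, eval_C, eval_finsetSum, eval_mul, eval_X, h2]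
    rfl
  set Y : Ω := z₁ - w with hY
  have hYp : Y ^ p - Y = g.eval a + ∑ j ∈ J p m, c j * (T - a) ^ j := by
    rw [hY, sub_pow_char]
    have h1 : z₁ ^ p - w ^ p - (z₁ - w) = (z₁ ^ p - z₁) - (w ^ p - w) := by ring
    rw [h1, hz, hgT]
    ring
  have h1J : 1 ∈ J p m := by
    refine Finset.mem_filter.2 ⟨Finset.mem_range.2 ?_, ?_⟩
    · exact Nat.one_lt_pow (by omega) hp.one_lt
    · intro h1
      exact hp.one_lt.ne' (Nat.dvd_one.1 h1)
  have hc1' : c 1 ≠ 0 := hc1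
  have hsplit : ∑ j ∈ J p m, c j * (T - a) ^ j =
      c 1 * (T - a) + ∑ j ∈ (J p m).erase 1, c j * (T - a) ^ j := by
    rw [← Finset.add_sum_erase _ _ h1J, pow_one]
  set q : Ω := (Y ^ p - Y - g.eval a) / c 1 + a with hq
  have hqT : q - T = ∑ j ∈ (J p m).erase 1, c j * (T - a) ^ j / c 1 := by
    rw [hq, hYp, hsplit, ← Finset.sum_div]
    field_simp
    ring
  have hTq : ‖T - q‖ < Metric.infDist T (F : Set Ω) := by
    rw [norm_sub_rev, hqT]
    refine norm_sum_lt'' hr fun j hj => ?_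
    rw [Finset.mem_erase] at hj
    have h1 := hlt j hj.2 hj.1
    rw [norm_div, norm_mul, norm_pow, div_lt_iff₀ (norm_pos_iff.2 hc1')]
    rw [mul_comm (Metric.infDist T (F : Set Ω))]
    exact h1
  have hga : g.eval a ∈ F := eval_mem hg ha
  have hqY : q ∈ adj F' Y := by
    refine (adj F' Y).add_mem ((adj F' Y).div_mem ((adj F' Y).sub_mem ((adj F' Y).sub_mem
      ((adj F' Y).pow_mem (mem_adj_self F' Y) p) (mem_adj_self F' Y)) ?_) ?_) ?_
    · exact le_adj F' Y (hFF' hga)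
    · exact le_adj F' Y (hcF' 1)
    · exact le_adj F' Y (hFF' ha)
  have hqE : q ∈ K' ⊔ F' := by
    have h1 : q = T + ∑ j ∈ (J p m).erase 1, c j * (T - a) ^ j / c 1 := by
      rw [← hqT]
      ring
    rw [h1]
    refine (K' ⊔ F').add_mem (hKE hTK) ((K' ⊔ F').sum_mem fun j _ => ?_)
    exact (K' ⊔ F').div_mem ((K' ⊔ F').mul_mem (hFE (hcF' j))
      ((K' ⊔ F').pow_mem (hKE hTa) j)) (hFE (hcF' 1))
  have hdense : DenseIn (adj F' q) (K' ⊔ F') := hTm.gc hdE hqE (by rw [hr']; exact hTq)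
  have hYM : Y ∈ adj K' z₁ ⊔ F' := by
    refine (adj K' z₁ ⊔ F').sub_mem ?_ ?_
    · exact (le_sup_left : adj K' z₁ ≤ adj K' z₁ ⊔ F') (mem_adj_self K' z₁)
    · exact (sup_le_sup_right (le_adj K' z₁) F' : K' ⊔ F' ≤ adj K' z₁ ⊔ F') hwE
  refine ⟨Y, hYM, ?_, adj_le le_sup_right hYM, ?_⟩
  · intro hYF
    have h1 : q ∈ F' := adj_le le_rfl hYF hqY
    have h2 := Metric.infDist_le_dist_of_mem (x := T) (s := (F' : Set Ω)) h1
    rw [dist_eq_norm, hr'] at h2
    linarith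
  · intro x hx ε hε
    have h1 : adj K' z₁ ⊔ F' ≤ adj (K' ⊔ F') Y := by
      refine sup_le (adj_le (hKE.trans (le_adj _ Y)) ?_) (hFE.trans (le_adj _ Y))
      have h2 : z₁ = Y + w := by rw [hY]; ring
      rw [h2]
      exact (adj (K' ⊔ F') Y).add_mem (mem_adj_self _ Y) (le_adj _ Y hwE)
    have he : Y ^ p - Y ∈ K' ⊔ F' := by
      rw [hYp]
      refine (K' ⊔ F').add_mem (hKE (hI.1 hga)) ((K' ⊔ F').sum_mem fun j _ => ?_)
      exact (K' ⊔ F').mul_mem (hFE (hcF' j)) ((K' ⊔ F').pow_mem (hKE hTa) j)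
    have hint : IsIntegral (K' ⊔ F' : Subfield Ω) Y := by
      refine ⟨X ^ p - (X + C ⟨Y ^ p - Y, he⟩), ?_, ?_⟩
      · refine (monic_X_pow p).sub_of_left ?_
        rw [degree_X_add_C, degree_X_pow]
        exact_mod_cast hp.one_lt
      · rw [← aeval_def]
        simp only [map_sub, map_add, map_pow, aeval_X, aeval_C]
        have h3 : algebraMap (K' ⊔ F' : Subfield Ω) Ω ⟨Y ^ p - Y, he⟩ = Y ^ p - Y := rfl
        rw [h3]
        ring
    obtain ⟨P, hP, hxP⟩ := mem_adj_poly hint (h1 hx)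
    have happ : ∀ i, ∃ b ∈ adj F' q, ‖P.coeff i - b‖ < ε / (‖Y‖ ^ i + 1) :=
      fun i => hdense.2 _ (hP i) _ (by positivity)
    choose b hb hPb using happ
    refine ⟨∑ i ∈ Finset.range (P.natDegree + 1), b i * Y ^ i, ?_, ?_⟩
    · refine (adj F' Y).sum_mem fun i _ => (adj F' Y).mul_mem ?_
        ((adj F' Y).pow_mem (mem_adj_self F' Y) i)
      exact adj_le (le_adj F' Y) hqY (hb i)
    · rw [hxP, eval_eq_sum_range, ← Finset.sum_sub_distrib]
      refine norm_sum_lt'' hε fun i _ => ?_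
      rw [← sub_mul, norm_mul, norm_pow]
      have h4 := hPb i
      rw [lt_div_iff₀ (by positivity)] at h4
      have h5 : 0 ≤ ‖P.coeff i - b i‖ := norm_nonneg _
      nlinarith

end MP1a953e
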