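import Pool.Agent.Lib.MP_1a953e_ag.Lin1

/-!
# Module Frob2: the operator Lambda, orthogonality over p-th powers
-/

namespace MP1a953e

open Polynomial

variable {Ω : Type*} [NormedField Ω] {p : ℕ} [Fact p.Prime] [CharP Ω p]

private lemma pow_coord_unique {F : Subfield Ω} {H d : ℕ} {θ : Fin (d + 1) → Ω} {B : Subfield Ω}
    (h : OrthBasis (powField p H F) B θ) {y z : Fin (d + 1) → Ω} (hy : ∀ i, y i ∈ F)
    (hz : ∀ i, z i ∈ F) (he : ∑ i, y i ^ p ^ H * θ i = ∑ i, z i ^ p ^ H * θ i) : y = z := by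
  funext i
  have h1 := h.orth (fun i => (y i - z i) ^ p ^ H)
    (fun i => mem_powField.2 ⟨_, F.sub_mem (hy i) (hz i), rfl⟩) i
  have h2 : ∑ j, (y j - z j) ^ p ^ H * θ j = 0 := by
    have h3 : ∀ j, (y j - z j) ^ p ^ H * θ j = y j ^ p ^ H * θ j - z j ^ p ^ H * θ j := by
      intro j
      rw [sub_pow_char_pow, sub_mul]
    rw [Finset.sum_congr rfl (fun j _ => h3 j), Finset.sum_sub_distrib, he, sub_self]
  rw [h2, norm_zero] at h1
  have h4 : (y i - z i) ^ p ^ H * θ i = 0 := norm_le_zero_iff.1 h1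
  have h5 : (y i - z i) ^ p ^ H = 0 := (mul_eq_zero.1 h4).resolve_right (h.ne i)
  exact sub_eq_zero.1 (pow_eq_zero_iff (pow_ne_zero _ (Fact.out : p.Prime).ne_zero) |>.1 h5)

private lemma pow_coord_exists {F : Subfield Ω} {H d : ℕ} {θ : Fin (d + 1) → Ω} {B : Subfield Ω}
    (h : OrthBasis (powField p H F) B θ) {x : Ω} (hx : x ∈ B) :
    ∃ y : Fin (d + 1) → Ω, (∀ i, y i ∈ F) ∧ x = ∑ i, y i ^ p ^ H * θ i := by
  obtain ⟨c, hc, hxc⟩ := h.span x hx
  choose y hy hyc using fun i => mem_powField.1 (hc i)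
  exact ⟨y, hy, by rw [hxc]; exact Finset.sum_congr rfl (fun i _ => by rw [hyc])⟩

/-- FRO1.  The operator `Λ` (coordinate at `c` with respect to an orthogonal basis over the
`p ^ H`-th powers).  Proof: take `θ` from `hA.frob H`. For `x ∈ F` write
`x / c = ∑ y i ^ (p ^ H) * θ i` with `y i ∈ F` (unique by `orth`) and put `Λ x = y 0`. For `x ∈ A`
the coordinates over `powField p H A` are also coordinates over `powField p H F`, so `Λ x ∈ A`.
Norm: `‖y 0 ^ (p ^ H) * θ 0‖ ≤ ‖x / c‖ = ‖x‖`. -/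
theorem exists_Lambda {k0 k A F : Subfield Ω} (hA : Ab p k0 k A F) (H : ℕ) {c : Ω} (hc : c ∈ A)
    (hc1 : ‖c‖ = 1) :
    ∃ Λ : Ω → Ω, (∀ x ∈ F, Λ x ∈ F) ∧ (∀ x ∈ A, Λ x ∈ A) ∧
      (∀ x ∈ F, ∀ y ∈ F, Λ (x + y) = Λ x + Λ y) ∧
      (∀ x ∈ F, ∀ y ∈ F, Λ (y ^ p ^ H * x) = y * Λ x) ∧ Λ c = 1 ∧
      ∀ x ∈ F, ‖Λ x‖ ^ p ^ H ≤ ‖x‖ := by
  classical
  obtain ⟨d, θ, hθA, hθF⟩ := hA.frob H
  have hc0 : c ≠ 0 := by
    intro h
    rw [h, norm_zero] at hc1
    exact zero_ne_one hc1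
  have hcF : c ∈ F := hA.A_le hc
  have hex : ∀ x : Ω, ∃ y : Fin (d + 1) → Ω, (x ∈ F →
      (∀ i, y i ∈ F) ∧ x / c = ∑ i, y i ^ p ^ H * θ i) := by
    intro x
    by_cases hx : x ∈ F
    · obtain ⟨y, hy, hxy⟩ := pow_coord_exists hθF (F.div_mem hx hcF)
      exact ⟨y, fun _ => ⟨hy, hxy⟩⟩
    · exact ⟨0, fun h => absurd h hx⟩
  choose Y hY using hex
  have huniq : ∀ x ∈ F, ∀ z : Fin (d + 1) → Ω, (∀ i, z i ∈ F) →
      x / c = ∑ i, z i ^ p ^ H * θ i → Y x = z := by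
    intro x hx z hz hxz
    exact pow_coord_unique hθF (hY x hx).1 hz ((hY x hx).2.symm.trans hxz)
  refine ⟨fun x => Y x 0, ?_, ?_, ?_, ?_, ?_, ?_⟩
  · intro x hx
    exact (hY x hx).1 0
  · intro x hx
    obtain ⟨y, hy, hxy⟩ := pow_coord_exists hθA (A.div_mem hx hc)
    have h1 := huniq x (hA.A_le hx) y (fun i => hA.A_le (hy i)) hxy
    simp only [h1]
    exact hy 0
  · intro x hx y hy
    have h1 := huniq (x + y) (F.add_mem hx hy) (fun i => Y x i + Y y i)
      (fun i => F.add_mem ((hY x hx).1 i) ((hY y hy).1 i)) (by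
        rw [add_div, (hY x hx).2, (hY y hy).2, ← Finset.sum_add_distrib]
        refine Finset.sum_congr rfl (fun i _ => ?_)
        rw [add_pow_char_pow, add_mul])
    simp only [h1]
  · intro x hx y hy
    have h1 := huniq (y ^ p ^ H * x) (F.mul_mem (F.pow_mem hy _) hx) (fun i => y * Y x i)
      (fun i => F.mul_mem hy ((hY x hx).1 i)) (by
        rw [mul_div_assoc, (hY x hx).2, Finset.mul_sum]
        refine Finset.sum_congr rfl (fun i _ => ?_)
        rw [mul_pow, mul_assoc])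
    simp only [h1]
  · have h1 := huniq c hcF (fun i => if i = 0 then 1 else 0)
      (fun i => by
        split_ifs
        · exact F.one_mem
        · exact F.zero_mem) (by
        rw [div_self hc0, Finset.sum_eq_single 0]
        · simp [hθF.zero]
        · intro i _ hi
          simp [hi, (Fact.out : p.Prime).ne_zero]
        · intro h
          exact absurd (Finset.mem_univ _) h)
    simp only [h1, if_true]
  · intro x hx
    have h1 := hθF.orth (fun i => Y x i ^ p ^ H)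
      (fun i => mem_powField.2 ⟨_, (hY x hx).1 i, rfl⟩) 0
    rw [← (hY x hx).2, hθF.zero, mul_one, norm_div, hc1, div_one, norm_pow] at h1
    exact h1

/-- FRO2.  Orthogonality of the basis over the `p ^ H`-th powers of an immediate extension `K`.
Proof: `Imm (powField p H F) (powField p H K)` (apply Frobenius) and `OrthBasis.sup`. -/
theorem frob_orth [IsUltrametricDist Ω] {k0 k A F K : Subfield Ω} (hA : Ab p k0 k A F)
    (hI : Imm F K) (H : ℕ) :
    ∃ (d : ℕ) (θ : Fin (d + 1) → Ω), θ 0 = 1 ∧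
      (∀ x ∈ F, ∃ y : Fin (d + 1) → Ω, (∀ i, y i ∈ F) ∧ x = ∑ i, y i ^ p ^ H * θ i) ∧
      (∀ y : Fin (d + 1) → Ω, (∀ i, y i ∈ K) →
        ∀ i, ‖y i ^ p ^ H * θ i‖ ≤ ‖∑ j, y j ^ p ^ H * θ j‖) := by
  obtain ⟨d, θ, -, hθF⟩ := hA.frob H
  have hIp : Imm (powField p H F) (powField p H K) := by
    refine ⟨?_, ?_⟩
    · intro x hx
      obtain ⟨y, hy, rfl⟩ := mem_powField.1 hx
      exact mem_powField.2 ⟨y, hI.1 hy, rfl⟩
    · intro x hx hx0
      obtain ⟨y, hy, rfl⟩ := mem_powField.1 hx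
      have hy0 : y ≠ 0 := by
        rintro rfl
        exact hx0 (zero_pow (pow_ne_zero _ (Fact.out : p.Prime).ne_zero))
      obtain ⟨f, hf, hyf⟩ := hI.2 y hy hy0
      refine ⟨f ^ p ^ H, mem_powField.2 ⟨f, hf, rfl⟩, ?_⟩
      rw [← sub_pow_char_pow, norm_pow, norm_pow]
      exact pow_lt_pow_left₀ hyf (norm_nonneg _) (pow_ne_zero _ (Fact.out : p.Prime).ne_zero)
  have hs := OrthBasis.sup hIp hθF
  refine ⟨d, θ, hθF.zero, fun x hx => pow_coord_exists hθF hx, ?_⟩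
  intro y hy i
  exact hs.orth (fun i => y i ^ p ^ H) (fun i => mem_powField.2 ⟨y i, hy i, rfl⟩) i

/-- FRO7.  Purely inseparable immediate extensions of degree `p` are trivial.  Proof: `frob_orth` with
`H = 1`, `K = adj F y`: `y ^ p = ∑ y i ^ p * θ i`, `y i ∈ F`, so
`(y - y 0) ^ p * θ 0 + ∑_{i ≠ 0} (- y i) ^ p * θ i = 0` and by orthogonality `y = y 0`. -/
theorem am_insep [IsUltrametricDist Ω] {k0 k A F : Subfield Ω} (hA : Ab p k0 k A F) {y : Ω}
    (hy : y ^ p ∈ F) (hI : Imm F (adj F y)) : y ∈ F := by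
  obtain ⟨d, θ, h0, hspan, horth⟩ := frob_orth hA hI 1
  obtain ⟨z, hz, hyz⟩ := hspan _ hy
  rw [pow_one] at *
  have hyK : y ∈ adj F y := mem_adj_self F y
  have hzK : ∀ i, z i ∈ adj F y := fun i => le_adj F y (hz i)
  have h1 := horth (fun i => if i = 0 then y - z 0 else - z i) (fun i => by
    split_ifs
    · exact Subfield.sub_mem _ hyK (hzK 0)
    · exact Subfield.neg_mem _ (hzK i)) 0
  have h2 : ∑ j, (if j = 0 then y - z 0 else - z j) ^ p * θ j = 0 := by
    have h3 : ∀ j, (if j = 0 then y - z 0 else - z j) ^ p * θ j =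
        (if j = 0 then y ^ p else 0) - z j ^ p * θ j := by
      intro j
      split_ifs with hj
      · rw [hj, h0, mul_one, mul_one, sub_pow_char]
      · rw [← zero_sub (z j), sub_pow_char, zero_pow (Fact.out : p.Prime).ne_zero, sub_mul,
          zero_mul]
    rw [Finset.sum_congr rfl (fun j _ => h3 j), Finset.sum_sub_distrib, ← hyz]
    simp
  simp only [if_true] at h1
  rw [h2, norm_zero, h0, mul_one] at h1
  have h4 : (y - z 0) ^ p = 0 := norm_le_zero_iff.1 h1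
  have h5 : y - z 0 = 0 := (pow_eq_zero_iff (Fact.out : p.Prime).ne_zero).1 h4
  rw [sub_eq_zero.1 h5]
  exact hz 0

end MP1a953e
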