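import Mathlib

/-!
# Module Solve1: additive systems over an algebraically closed field
-/

namespace MP1a953e

open Polynomial

section Semilinear

variable {k : Type*} [Field k] {V : Type*} [AddCommGroup V] [Module k V]

/-- A semilinear operator on a nonzero finite dimensional space has a relation. -/
private theorem s1_exists_rel [FiniteDimensional k V] {Ψ : V → V} {v : V} (hv : v ≠ 0) :
    ∃ d : ℕ, ∃ v : V, v ≠ 0 ∧ ∃ c : ℕ → k, c d ≠ 0 ∧
      ∑ i ∈ Finset.range (d + 1), c i • Ψ^[i] v = 0 := by
  classical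
  set n := Module.finrank k V with hn
  have hnot : ¬ LinearIndependent k (fun i : Fin (n + 1) => Ψ^[(i : ℕ)] v) := by
    intro h
    have := h.fintype_card_le_finrank
    simp at this
    omega
  rw [Fintype.not_linearIndependent_iff] at hnot
  obtain ⟨g, hg, i₀, hi₀⟩ := hnot
  set c : ℕ → k := fun i => if h : i < n + 1 then g ⟨i, h⟩ else 0 with hc
  have hcs : ∑ i ∈ Finset.range (n + 1), c i • Ψ^[i] v = 0 := by
    rw [← Fin.sum_univ_eq_sum_range (fun i => c i • Ψ^[i] v) (n + 1), ← hg]
    refine Finset.sum_congr rfl (fun i _ => ?_)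
    simp only [hc, dif_pos i.2]
  have hci : c (i₀ : ℕ) ≠ 0 := by
    simp only [hc, dif_pos i₀.2]
    exact hi₀
  set d := Nat.findGreatest (fun i => c i ≠ 0) n with hd
  have hdn : d ≤ n := Nat.findGreatest_le n
  have hcd : c d ≠ 0 := by
    have h1 : (i₀ : ℕ) ≤ n := by omega
    exact Nat.findGreatest_spec (P := fun i => c i ≠ 0) h1 hci
  refine ⟨d, v, hv, c, hcd, ?_⟩
  rw [← hcs]
  apply Finset.sum_subset
  · intro i hi
    rw [Finset.mem_range] at hi ⊢
    omega
  · intro i hi hi'
    rw [Finset.mem_range] at hi hi'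
    have h1 : ¬ c i ≠ 0 := Nat.findGreatest_is_greatest (P := fun i => c i ≠ 0) (n := n)
      (k := i) (by omega) (by omega)
    rw [not_not] at h1
    rw [h1, zero_smul]

variable [IsAlgClosed k] {p : ℕ} {σ : k →+* k}

/-- A stable line. -/
private theorem s1_exists_line [FiniteDimensional k V] (hσ : ∀ a, σ (a ^ p) = a)
    (Ψ : V →ₛₗ[σ] V) {v : V} (hv : v ≠ 0) : ∃ x : V, x ≠ 0 ∧ ∃ μ : k, Ψ x = μ • x := by
  classical
  have hex : ∃ d : ℕ, ∃ v : V, v ≠ 0 ∧ ∃ c : ℕ → k, c d ≠ 0 ∧
      ∑ i ∈ Finset.range (d + 1), c i • Ψ^[i] v = 0 := s1_exists_rel hv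
  obtain ⟨w, hw, c, hcd, hrel⟩ := Nat.find_spec hex
  have hmin := fun m (hm : m < Nat.find hex) => Nat.find_min hex hm
  generalize Nat.find hex = d at hcd hrel hmin
  obtain ⟨m, rfl⟩ : ∃ m, d = m + 1 := by
    rcases d with _ | m
    · exfalso
      simp only [zero_add, Finset.range_one, Finset.sum_singleton, Function.iterate_zero,
        id_eq, smul_eq_zero] at hrel
      rcases hrel with h | h
      · exact hcd h
      · exact hw h
    · exact ⟨m, rfl⟩
  set P : ℕ → k := fun i => (c (m + 1))⁻¹ * c i with hP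
  have htop : Ψ^[m + 1] w = - ∑ i ∈ Finset.range (m + 1), P i • Ψ^[i] w := by
    have h1 : (c (m + 1))⁻¹ • ∑ i ∈ Finset.range (m + 1 + 1), c i • Ψ^[i] w = 0 := by
      rw [hrel, smul_zero]
    rw [Finset.sum_range_succ, smul_add, smul_smul, inv_mul_cancel₀ hcd, one_smul,
      Finset.smul_sum] at h1
    have h2 : ∑ i ∈ Finset.range (m + 1), (c (m + 1))⁻¹ • c i • Ψ^[i] w =
        ∑ i ∈ Finset.range (m + 1), P i • Ψ^[i] w :=
      Finset.sum_congr rfl (fun i _ => by rw [smul_smul])
    rw [h2] at h1
    rw [add_comm] at h1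
    exact eq_neg_of_add_eq_zero_left h1
  -- the polynomials
  let r : ℕ → k[X] := fun j => Nat.rec (motive := fun _ => k[X]) 1
    (fun j q => (C (P (m - j)) + X * q) ^ p) j
  have r0 : r 0 = 1 := rfl
  have rs : ∀ j, r (j + 1) = (C (P (m - j)) + X * r j) ^ p := fun j => rfl
  have hdeg : ∀ (a : k) (q : k[X]), q ≠ 0 → 0 < (C a + X * q).natDegree := by
    intro a q hq
    have h1 : (X * q).natDegree = q.natDegree + 1 := by
      rw [natDegree_mul X_ne_zero hq, natDegree_X, add_comm]
    rw [natDegree_C_add, h1]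
    omega
  have rne : ∀ j, r j ≠ 0 := by
    intro j
    induction j with
    | zero => rw [r0]; exact one_ne_zero
    | succ j ih =>
      rw [rs]
      apply pow_ne_zero
      intro h
      have := hdeg (P (m - j)) (r j) ih
      rw [h] at this
      simp at this
  obtain ⟨μ, hμ⟩ : ∃ μ : k, IsRoot (C (P 0) + X * r m) μ := by
    apply IsAlgClosed.exists_root
    intro h
    have h1 := hdeg (P 0) (r m) (rne m)
    rw [natDegree_eq_of_degree_eq_some (n := 0) (by rw [h]; rfl)] at h1
    exact lt_irrefl _ h1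
  have hμ' : P 0 + μ * (r m).eval μ = 0 := by
    have := hμ
    rw [IsRoot.def] at this
    simpa using this
  set ρ : ℕ → k := fun i => (r (m - i)).eval μ with hρ
  have hρm : ρ m = 1 := by simp [hρ, r0]
  have hρ0 : P 0 = - (μ * ρ 0) := by
    rw [hρ]
    simp only [Nat.sub_zero]
    exact eq_neg_of_add_eq_zero_left hμ'
  have hρs : ∀ i, i < m → σ (ρ i) = P (i + 1) + μ * ρ (i + 1) := by
    intro i hi
    have e1 : m - i = (m - (i + 1)) + 1 := by omega
    have e2 : m - (m - (i + 1)) = i + 1 := by omega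
    rw [hρ]
    simp only
    rw [e1, rs, e2, eval_pow, hσ]
    simp
  set x : V := ∑ i ∈ Finset.range (m + 1), ρ i • Ψ^[i] w with hx
  refine ⟨x, ?_, μ, ?_⟩
  · intro h0
    apply hmin m (Nat.lt_succ_self m)
    exact ⟨w, hw, ρ, by rw [hρm]; exact one_ne_zero, h0⟩
  · rw [hx, map_sum]
    have h1 : ∀ i ∈ Finset.range (m + 1), Ψ (ρ i • Ψ^[i] w) = σ (ρ i) • Ψ^[i + 1] w := by
      intro i _
      rw [LinearMap.map_smulₛₗ, Function.iterate_succ_apply']
    rw [Finset.sum_congr rfl h1, Finset.sum_range_succ, hρm, map_one, one_smul, htop]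
    rw [Finset.sum_congr rfl (g := fun i => P (i + 1) • Ψ^[i + 1] w +
      (μ * ρ (i + 1)) • Ψ^[i + 1] w) (fun i hi => by
        rw [hρs i (Finset.mem_range.1 hi), add_smul])]
    rw [Finset.sum_add_distrib, Finset.sum_range_succ' (fun i => P i • Ψ^[i] w), hρ0,
      Finset.smul_sum, Finset.sum_range_succ' (fun i => μ • ρ i • Ψ^[i] w)]
    simp only [smul_smul, neg_smul]
    abel

/-- `1 - Ψ` is surjective. -/
private theorem s1_surj [Fact p.Prime] (hσ : ∀ a, σ (a ^ p) = a) (n : ℕ) :
    ∀ (V : Type _) [AddCommGroup V] [Module k V] [FiniteDimensional k V],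
      Module.finrank k V = n → ∀ (Ψ : V →ₛₗ[σ] V) (v : V), ∃ u : V, u - Ψ u = v := by
  induction n with
  | zero =>
    intro V _ _ _ hV Ψ v
    have : Subsingleton V := Module.finrank_zero_iff.1 hV
    exact ⟨0, Subsingleton.elim _ _⟩
  | succ n ih =>
    intro V _ _ _ hV Ψ v
    have hnt : Nontrivial V := Module.nontrivial_of_finrank_pos (R := k) (by omega)
    obtain ⟨v₀, hv₀⟩ := exists_ne (0 : V)
    obtain ⟨x, hx, μ, hμ⟩ := s1_exists_line hσ Ψ hv₀
    set W : Submodule k V := Submodule.span k {x} with hW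
    have hWst : W ≤ W.comap Ψ := by
      intro y hy
      rw [hW, Submodule.mem_span_singleton] at hy
      obtain ⟨a, rfl⟩ := hy
      rw [Submodule.mem_comap, LinearMap.map_smulₛₗ, hμ]
      exact Submodule.smul_mem _ _ (Submodule.smul_mem _ _ (Submodule.mem_span_singleton_self x))
    have hfr : Module.finrank k (V ⧸ W) = n := by
      have h1 := Submodule.finrank_quotient_add_finrank W
      rw [hW, finrank_span_singleton hx, ← hW] at h1
      omega
    obtain ⟨ub, hub⟩ := ih (V ⧸ W) hfr (W.mapQ W Ψ hWst) (Submodule.Quotient.mk v)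
    obtain ⟨u, rfl⟩ := Submodule.Quotient.mk_surjective W ub
    rw [Submodule.mapQ_apply, ← Submodule.Quotient.mk_sub] at hub
    have hmem : v - (u - Ψ u) ∈ W := by
      rw [← Submodule.Quotient.mk_eq_zero, Submodule.Quotient.mk_sub, hub, sub_self]
    rw [hW, Submodule.mem_span_singleton] at hmem
    obtain ⟨c, hc⟩ := hmem
    have hp : 1 < p := (Fact.out : p.Prime).one_lt
    obtain ⟨a, ha⟩ : ∃ a : k, a ^ p - μ * a = c := by
      obtain ⟨a, ha⟩ : ∃ a : k, IsRoot (X ^ p - (C μ * X + C c)) a := by
        apply IsAlgClosed.exists_root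
        have h1 : (C μ * X + C c : k[X]).degree < (p : ℕ) :=
          lt_of_le_of_lt degree_linear_le (by exact_mod_cast hp)
        rw [degree_sub_eq_left_of_degree_lt (by rw [degree_X_pow]; exact h1), degree_X_pow]
        intro h
        have : p = 0 := by exact_mod_cast h
        omega
      refine ⟨a, ?_⟩
      rw [IsRoot.def] at ha
      simp only [eval_sub, eval_pow, eval_X, eval_add, eval_mul, eval_C] at ha
      linear_combination ha
    refine ⟨u + a ^ p • x, ?_⟩
    rw [map_add, LinearMap.map_smulₛₗ, hσ, hμ]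
    have h2 : a ^ p • x - a • μ • x = c • x := by
      rw [smul_smul, ← sub_smul, ← ha, mul_comm a μ]
    calc u + a ^ p • x - (Ψ u + a • μ • x) = (u - Ψ u) + (a ^ p • x - a • μ • x) := by abel
      _ = (u - Ψ u) + (v - (u - Ψ u)) := by rw [h2, hc]
      _ = v := by abel

end Semilinear

/-- SOL1.  Over an algebraically closed field of characteristic `p` a system of `N` additive
equations in `N` unknowns with leading terms `z j ^ (p ^ T)` has a solution.

Proof. With the new unknowns `w j s = z j ^ (p ^ s)` the system becomes `w ^ (p) = B w + c`, that is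
`w - Ψ w = c'` with an inverse Frobenius semilinear operator `Ψ` on a finite dimensional space. Such
an operator has a stable line (the skew polynomial of a shortest relation has a left linear factor,
because the field is algebraically closed), and `1 - Ψ` is surjective by induction. -/
theorem solve_system {k : Type*} [Field k] [IsAlgClosed k] {p : ℕ} [Fact p.Prime] [CharP k p]
    (T N : ℕ) (θ : ℕ → Fin N → Fin N → k) (ε : Fin N → k) :
    ∃ z : Fin N → k, ∀ j, z j ^ p ^ T =
      (∑ s ∈ Finset.range T, ∑ i, θ s i j * z i ^ p ^ s) + ε j := by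
  classical
  rcases T with _ | T
  · exact ⟨ε, fun j => by simp⟩
  have hperf : PerfectRing k p := inferInstance
  set σ : k →+* k := (frobeniusEquiv k p).symm.toRingHom with hσdef
  have hσ : ∀ a, σ (a ^ p) = a := by
    intro a
    show (frobeniusEquiv k p).symm (a ^ p) = a
    rw [← frobenius_def, ← frobeniusEquiv_apply, RingEquiv.symm_apply_apply]
  have hσ' : ∀ a, (σ a) ^ p = a := by
    intro a
    show (frobeniusEquiv k p).symm a ^ p = a
    rw [← frobenius_def, ← frobeniusEquiv_apply, RingEquiv.apply_symm_apply]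
  -- the linear operator
  let B : (Fin N → Fin (T + 1) → k) → (Fin N → Fin (T + 1) → k) := fun w j s =>
    if h : (s : ℕ) + 1 < T + 1 then w j ⟨s + 1, h⟩ else ∑ s' : Fin (T + 1), ∑ i, θ s' i j * w i s'
  let c : Fin N → Fin (T + 1) → k := fun j s => if (s : ℕ) + 1 < T + 1 then 0 else ε j
  have hBadd : ∀ w w', B (w + w') = B w + B w' := by
    intro w w'
    funext j s
    simp only [B, Pi.add_apply]
    split_ifs with h
    · rfl
    · simp only [mul_add, Finset.sum_add_distrib]
  have hBsmul : ∀ (a : k) w, B (a • w) = a • B w := by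
    intro a w
    funext j s
    simp only [B, Pi.smul_apply, smul_eq_mul]
    split_ifs with h
    · rfl
    · simp only [Finset.mul_sum]
      exact Finset.sum_congr rfl (fun _ _ => Finset.sum_congr rfl (fun _ _ => by ring))
  let Ψ : (Fin N → Fin (T + 1) → k) →ₛₗ[σ] (Fin N → Fin (T + 1) → k) :=
    { toFun := fun w j s => σ (B w j s)
      map_add' := by
        intro w w'
        funext j s
        rw [hBadd]
        exact map_add σ _ _
      map_smul' := by
        intro a w
        funext j s
        rw [hBsmul]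
        exact map_mul σ _ _ }
  obtain ⟨w, hw⟩ := s1_surj (p := p) hσ _ (Fin N → Fin (T + 1) → k) rfl Ψ (fun j s => σ (c j s))
  have hw' : ∀ j s, w j s ^ p = B w j s + c j s := by
    intro j s
    have h1 : w j s - σ (B w j s) = σ (c j s) := congrFun (congrFun hw j) s
    have h2 : w j s = σ (B w j s + c j s) := by
      rw [map_add]
      linear_combination h1
    rw [h2, hσ']
  refine ⟨fun j => w j 0, ?_⟩
  have hpow : ∀ (j : Fin N) (s : ℕ) (hs : s < T + 1), w j ⟨s, hs⟩ = w j 0 ^ p ^ s := by
    intro j s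
    induction s with
    | zero => intro hs; simp
    | succ s ih =>
      intro hs
      have h1 := hw' j ⟨s, by omega⟩
      simp only [B, c, hs, dif_pos, if_pos, add_zero] at h1
      rw [← h1, ih (by omega), ← pow_mul, ← pow_succ]
  intro j
  have h1 := hw' j ⟨T, by omega⟩
  simp only [B, c, lt_irrefl, dif_neg, not_false_eq_true, if_neg] at h1
  rw [hpow j T (by omega), ← pow_mul, ← pow_succ] at h1
  rw [h1]
  congr 1
  rw [← Fin.sum_univ_eq_sum_range (fun s => ∑ i, θ s i j * w i 0 ^ p ^ s) (T + 1)]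
  refine Finset.sum_congr rfl (fun s _ => Finset.sum_congr rfl (fun i _ => ?_))
  rw [← hpow i s s.2]

end MP1a953e
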