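import Mathlib

/-!
# Module Solve2: finite dimensional stable subspaces
-/

namespace MP1a953e

open Polynomial

section Monomials

variable {Ω : Type*} [Field Ω] (k0 : Subfield Ω) (s : Finset Ω)

/-- monomials in the elements of `s` -/
private def s2mon (α : s → ℕ) : Ω := ∏ j : s, (j : Ω) ^ α j

/-- polynomials of degree at most `c` in the elements of `s` -/
private def s2P (c : ℕ) : Submodule k0 Ω := Submodule.span k0 (s2mon s '' {α | ∑ j, α j ≤ c})

private theorem s2mon_mul (α β : s → ℕ) : s2mon s α * s2mon s β = s2mon s (α + β) := by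
  simp only [s2mon, Pi.add_apply, pow_add, Finset.prod_mul_distrib]

private theorem s2mon_pow (α : s → ℕ) (q : ℕ) : s2mon s α ^ q = s2mon s (fun j => q * α j) := by
  simp only [s2mon, ← Finset.prod_pow, ← pow_mul, mul_comm q]

private theorem s2P_mono {c c' : ℕ} (h : c ≤ c') : s2P k0 s c ≤ s2P k0 s c' := by
  apply Submodule.span_mono
  apply Set.image_mono
  intro α hα
  exact le_trans hα h

private theorem s2mon_mem {α : s → ℕ} {c : ℕ} (h : ∑ j, α j ≤ c) : s2mon s α ∈ s2P k0 s c :=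
  Submodule.subset_span ⟨α, h, rfl⟩

private theorem s2one_mem (c : ℕ) : (1 : Ω) ∈ s2P k0 s c := by
  have h := s2mon_mem k0 s (α := 0) (c := c) (by simp)
  have e : s2mon s (0 : s → ℕ) = 1 := by simp [s2mon]
  rwa [e] at h

private theorem s2P_mul {c c' : ℕ} {x y : Ω} (hx : x ∈ s2P k0 s c) (hy : y ∈ s2P k0 s c') :
    x * y ∈ s2P k0 s (c + c') := by
  have h := Submodule.mul_mem_mul hx hy
  rw [s2P, s2P, Submodule.span_mul_span] at h
  refine Submodule.span_mono ?_ h
  rintro _ ⟨_, ⟨α, hα, rfl⟩, _, ⟨β, hβ, rfl⟩, rfl⟩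
  refine ⟨α + β, ?_, (s2mon_mul s α β).symm⟩
  have h1 : ∑ j, α j ≤ c := hα
  have h2 : ∑ j, β j ≤ c' := hβ
  show ∑ j, (α + β) j ≤ c + c'
  simp only [Pi.add_apply, Finset.sum_add_distrib]
  omega

private theorem s2P_pow {c : ℕ} {x : Ω} (hx : x ∈ s2P k0 s c) (n : ℕ) :
    x ^ n ∈ s2P k0 s (n * c) := by
  induction n with
  | zero => simpa using s2one_mem k0 s 0
  | succ n ih =>
    rw [pow_succ, Nat.succ_mul]
    exact s2P_mul k0 s ih hx

private theorem s2P_fg (c : ℕ) : (s2P k0 s c).FG := by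
  apply Submodule.fg_span
  apply Set.Finite.image
  have : {α : s → ℕ | ∑ j, α j ≤ c} ⊆ Set.pi Set.univ (fun _ => Set.Iic c) := by
    intro α hα j _
    have h1 : ∑ j, α j ≤ c := hα
    exact (Finset.single_le_sum (f := α) (fun _ _ => Nat.zero_le _) (Finset.mem_univ j)).trans h1
  exact (Set.Finite.pi' (fun _ => Set.finite_Iic c)).subset (fun α hα j => this hα j trivial)

private theorem s2P_adjoin {x : Ω} (hx : x ∈ Algebra.adjoin k0 (s : Set Ω)) :
    ∃ c, x ∈ s2P k0 s c := by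
  classical
  induction hx using Algebra.adjoin_induction with
  | mem x hx =>
    refine ⟨1, ?_⟩
    have h := s2mon_mem k0 s (α := Pi.single ⟨x, hx⟩ 1) (c := 1) (by simp)
    have e : s2mon s (Pi.single ⟨x, hx⟩ 1) = x := by
      rw [s2mon, Finset.prod_eq_single (⟨x, hx⟩ : s)]
      · simp
      · intro b _ hb
        rw [Pi.single_eq_of_ne hb, pow_zero]
      · simp
    rwa [e] at h
  | algebraMap r =>
    refine ⟨0, ?_⟩
    have h := Submodule.smul_mem (s2P k0 s 0) r (s2one_mem k0 s 0)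
    rwa [Algebra.smul_def, mul_one] at h
  | add x y _ _ ihx ihy =>
    obtain ⟨c, hc⟩ := ihx
    obtain ⟨c', hc'⟩ := ihy
    exact ⟨max c c', Submodule.add_mem _ (s2P_mono k0 s (le_max_left _ _) hc)
      (s2P_mono k0 s (le_max_right _ _) hc')⟩
  | mul x y _ _ ihx ihy =>
    obtain ⟨c, hc⟩ := ihx
    obtain ⟨c', hc'⟩ := ihy
    exact ⟨c + c', s2P_mul k0 s hc hc'⟩

/-- denominators -/
private theorem s2_den {x : Ω} (hx : x ∈ k0 ⊔ Subfield.closure (s : Set Ω)) :
    ∃ b ∈ Algebra.adjoin k0 (s : Set Ω), b ≠ 0 ∧ b * x ∈ Algebra.adjoin k0 (s : Set Ω) := by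
  have hcl : k0 ⊔ Subfield.closure (s : Set Ω) = Subfield.closure ((k0 : Set Ω) ∪ s) := by
    rw [Subfield.closure_union, Subfield.closure_eq]
  rw [hcl] at hx
  induction hx using Subfield.closure_induction with
  | mem x hx =>
    refine ⟨1, one_mem _, one_ne_zero, ?_⟩
    rw [one_mul]
    rcases hx with hx | hx
    · exact Subalgebra.algebraMap_mem _ (⟨x, hx⟩ : k0)
    · exact Algebra.subset_adjoin hx
  | one => exact ⟨1, one_mem _, one_ne_zero, by rw [one_mul]; exact one_mem _⟩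
  | add x y _ _ ihx ihy =>
    obtain ⟨b, hb, hb0, hbx⟩ := ihx
    obtain ⟨c, hc, hc0, hcy⟩ := ihy
    refine ⟨b * c, mul_mem hb hc, mul_ne_zero hb0 hc0, ?_⟩
    have e : b * c * (x + y) = c * (b * x) + b * (c * y) := by ring
    rw [e]
    exact add_mem (mul_mem hc hbx) (mul_mem hb hcy)
  | neg x _ ih =>
    obtain ⟨b, hb, hb0, hbx⟩ := ih
    exact ⟨b, hb, hb0, by rw [mul_neg]; exact neg_mem hbx⟩
  | inv x _ ih =>
    obtain ⟨b, hb, hb0, hbx⟩ := ih
    rcases eq_or_ne x 0 with h0 | h0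
    · subst h0
      exact ⟨1, one_mem _, one_ne_zero, by simp⟩
    · refine ⟨b * x, hbx, mul_ne_zero hb0 h0, ?_⟩
      rw [mul_assoc, mul_inv_cancel₀ h0, mul_one]
      exact hb
  | mul x y _ _ ihx ihy =>
    obtain ⟨b, hb, hb0, hbx⟩ := ihx
    obtain ⟨c, hc, hc0, hcy⟩ := ihy
    refine ⟨b * c, mul_mem hb hc, mul_ne_zero hb0 hc0, ?_⟩
    have e : b * c * (x * y) = (b * x) * (c * y) := by ring
    rw [e]
    exact mul_mem hbx hcy

/-- roots of elements of a perfect subfield -/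
private theorem s2_root {p : ℕ} (hperf : ∀ x ∈ k0, ∃ y ∈ k0, y ^ p = x) (t : ℕ) :
    ∀ x ∈ k0, ∃ y ∈ k0, y ^ p ^ t = x := by
  induction t with
  | zero => exact fun x hx => ⟨x, hx, by simp⟩
  | succ t ih =>
    intro x hx
    obtain ⟨y, hy, rfl⟩ := hperf x hx
    obtain ⟨z, hz, rfl⟩ := ih y hy
    exact ⟨z, hz, by rw [pow_succ, pow_mul]⟩

end Monomials

/-- SOL2.  Finite dimensional stable subspaces.  `k0 ≤ κ ≤ κ'` are subfields of a field `Ω` of
characteristic `p`, `k0` is perfect, `κ` is a finitely generated field over `k0`, `κ'` is spanned by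
the finitely many `θ i` over `κ`; `τ i : κ' → κ'` are additive and satisfy
`τ i (y ^ (p ^ t i) * x) = y * τ i x` for `y ∈ κ` (`t i ≥ 1`). Then every finite subset of `κ'` is
contained in the `k0`-span of a finite family `v` whose span is stable under all `τ i`.

Proof: let `κ = k0(s_1, …, s_m)`. For `δ ∈ [0, p ^ t i)^m` and `l` write
`τ i (s ^ δ * θ l) = ∑ j, λ j * θ j` with `λ j ∈ κ`; write the elements of `E` also as
`∑ j, λ j * θ j`. All these finitely many elements of `κ` are fractions of polynomials in `s` over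
`k0`; let `g ≠ 0` (a polynomial in `s` of degree `≤ D`) be a common denominator, so all `λ` are
`P(s) / g` with `deg P ≤ c`. For `N` large take `v` = all `s ^ α * θ l / g ^ 2` with `|α| ≤ N`.
Stability: let `x = s ^ α * θ l / g ^ 2` and `q = p ^ t i ≥ 2`. Then
`x = (s ^ α * g ^ (q - 2)) * θ l / g ^ q`, so `τ i x = g⁻¹ * τ i (s ^ α g ^ (q-2) * θ l)`; expand
`s ^ α g ^ (q-2)` in monomials `b * s ^ β`, `b ∈ k0`, `|β| ≤ N + (q-2) D`; `b = b' ^ q` (perfect),
`β = q β' + δ` with `δ ∈ [0,q)^m`, so `τ i (b s ^ β θ l) = b' s ^ β' τ i (s ^ δ θ l)`, which is a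
combination of `θ j` with coefficients `b' s ^ β' P(s) / g`, `|β'| + c ≤ N/2 + D + c ≤ N` if
`N ≥ 2 (D + c)`. The elements of `E` are `∑ P_j(s) g / g ^ 2 * θ j`, in the span if
`N ≥ c + D`. -/
theorem stable_tuple {Ω : Type*} [Field Ω] {p : ℕ} [Fact p.Prime] [CharP Ω p]
    {k0 κ κ' : Subfield Ω} (hperf : ∀ x ∈ k0, ∃ y ∈ k0, y ^ p = x) (hle : k0 ≤ κ)
    (hfg : ∃ s : Finset Ω, κ = k0 ⊔ Subfield.closure (s : Set Ω)) (hle' : κ ≤ κ') {d : ℕ}
    {θ : Fin d → Ω} (hmem : ∀ i, θ i ∈ κ')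
    (hspan : ∀ x ∈ κ', ∃ c : Fin d → Ω, (∀ i, c i ∈ κ) ∧ x = ∑ i, c i * θ i)
    {ι : Type} [Fintype ι] (t : ι → ℕ) (ht : ∀ i, 1 ≤ t i) (τ : ι → Ω → Ω)
    (hmap : ∀ i, ∀ x ∈ κ', τ i x ∈ κ')
    (hadd : ∀ i, ∀ x ∈ κ', ∀ y ∈ κ', τ i (x + y) = τ i x + τ i y)
    (hlin : ∀ i, ∀ y ∈ κ, ∀ x ∈ κ', τ i (y ^ p ^ t i * x) = y * τ i x)
    (E : Finset Ω) (hE : ∀ x ∈ E, x ∈ κ') :
    ∃ (N : ℕ) (v : Fin N → Ω), (∀ j, v j ∈ κ') ∧
      (∀ x ∈ E, ∃ c : Fin N → Ω, (∀ j, c j ∈ k0) ∧ x = ∑ j, c j * v j) ∧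
      (∀ i j, ∃ c : Fin N → Ω, (∀ l, c l ∈ k0) ∧ τ i (v j) = ∑ l, c l * v l) := by
  classical
  obtain ⟨s, rfl⟩ := hfg
  have hk0κ' : k0 ≤ κ' := hle.trans hle'
  -- the modules
  set T : Submodule k0 Ω := Submodule.span k0 (Set.range θ) with hT
  let R : ℕ → Submodule k0 Ω := fun c => s2P k0 s c * T
  have hRmono : ∀ {c c' : ℕ}, c ≤ c' → R c ≤ R c' := fun h =>
    mul_le_mul' (s2P_mono k0 s h) le_rfl
  have hRmul : ∀ {a b : ℕ} {x y : Ω}, x ∈ s2P k0 s a → y ∈ R b → x * y ∈ R (a + b) := by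
    intro a b x y hx hy
    have hy' : y ∈ s2P k0 s b * T := hy
    clear hy
    induction hy' using Submodule.mul_induction_on' with
    | mem_mul_mem m hm n hn =>
      rw [← mul_assoc]
      exact Submodule.mul_mem_mul (s2P_mul k0 s hx hm) hn
    | add y₁ _ y₂ _ h₁ h₂ => rw [mul_add]; exact Submodule.add_mem _ h₁ h₂
  have hsub : ∀ {V : Submodule k0 Ω} {F : Subfield Ω} {S : Set Ω}, k0 ≤ F → (∀ x ∈ S, x ∈ F) →
      V = Submodule.span k0 S → ∀ x ∈ V, x ∈ F := by
    intro V F S hF hS hV x hx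
    rw [hV] at hx
    induction hx using Submodule.span_induction with
    | mem x hx => exact hS x hx
    | zero => exact zero_mem _
    | add x y _ _ hx hy => exact add_mem hx hy
    | smul a x _ hx =>
      rw [Subfield.smul_def, smul_eq_mul]
      exact mul_mem (hF a.2) hx
  have hsκ : ∀ x ∈ s, x ∈ k0 ⊔ Subfield.closure (s : Set Ω) := fun x hx =>
    (le_sup_right : Subfield.closure (s : Set Ω) ≤ _) (Subfield.subset_closure hx)
  have hmonκ : ∀ α : s → ℕ, s2mon s α ∈ k0 ⊔ Subfield.closure (s : Set Ω) := fun α =>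
    prod_mem (fun j _ => pow_mem (hsκ j j.2) _)
  have hPκ : ∀ c, ∀ x ∈ s2P k0 s c, x ∈ k0 ⊔ Subfield.closure (s : Set Ω) := by
    intro c
    apply hsub hle _ rfl
    rintro _ ⟨α, _, rfl⟩
    exact hmonκ α
  have hTκ' : ∀ x ∈ T, x ∈ κ' := by
    apply hsub hk0κ' _ rfl
    rintro _ ⟨i, rfl⟩
    exact hmem i
  have hRκ' : ∀ c, ∀ x ∈ R c, x ∈ κ' := by
    intro c x hx
    have hx' : x ∈ s2P k0 s c * T := hx
    clear hx
    induction hx' using Submodule.mul_induction_on' with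
    | mem_mul_mem m hm n hn => exact mul_mem (hle' (hPκ c m hm)) (hTκ' n hn)
    | add y₁ _ y₂ _ h₁ h₂ => exact add_mem h₁ h₂
  -- common denominators
  have hden1 : ∀ y ∈ κ', ∃ g ∈ Algebra.adjoin k0 (s : Set Ω), g ≠ 0 ∧ ∃ c, g * y ∈ R c := by
    intro y hy
    obtain ⟨c, hc, rfl⟩ := hspan y hy
    have hfin : ∀ S : Finset (Fin d), ∃ g ∈ Algebra.adjoin k0 (s : Set Ω), g ≠ 0 ∧
        ∃ n, g * ∑ i ∈ S, c i * θ i ∈ R n := by
      intro S
      induction S using Finset.induction_on with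
      | empty => exact ⟨1, one_mem _, one_ne_zero, 0, by simp⟩
      | insert i S hi ih =>
        obtain ⟨g, hg, hg0, n, hn⟩ := ih
        obtain ⟨b, hb, hb0, hbc⟩ := s2_den k0 s (hc i)
        obtain ⟨m₁, hm₁⟩ := s2P_adjoin k0 s hg
        obtain ⟨m₂, hm₂⟩ := s2P_adjoin k0 s hb
        obtain ⟨m₃, hm₃⟩ := s2P_adjoin k0 s hbc
        refine ⟨b * g, mul_mem hb hg, mul_ne_zero hb0 hg0, max (m₁ + m₃) (m₂ + n), ?_⟩
        rw [Finset.sum_insert hi, mul_add]
        apply Submodule.add_mem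
        · have e : b * g * (c i * θ i) = (g * (b * c i)) * θ i := by ring
          rw [e]
          exact hRmono (le_max_left _ _) (Submodule.mul_mem_mul (s2P_mul k0 s hm₁ hm₃)
            (Submodule.subset_span ⟨i, rfl⟩))
        · rw [mul_assoc]
          exact hRmono (le_max_right _ _) (hRmul hm₂ hn)
    exact hfin Finset.univ
  have hdenS : ∀ Y : Set Ω, Y.Finite → (∀ y ∈ Y, y ∈ κ') →
      ∃ g ∈ Algebra.adjoin k0 (s : Set Ω), g ≠ 0 ∧ ∃ c, ∀ y ∈ Y, g * y ∈ R c := by
    intro Y hY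
    induction Y, hY using Set.Finite.induction_on with
    | empty => exact fun _ => ⟨1, one_mem _, one_ne_zero, 0, by simp⟩
    | insert _ _ ih =>
      rename_i y Y _ _
      intro hmemY
      obtain ⟨g, hg, hg0, n, hn⟩ := ih (fun z hz => hmemY z (Set.mem_insert_of_mem _ hz))
      obtain ⟨b, hb, hb0, m, hm⟩ := hden1 y (hmemY y (Set.mem_insert _ _))
      obtain ⟨m₁, hm₁⟩ := s2P_adjoin k0 s hg
      obtain ⟨m₂, hm₂⟩ := s2P_adjoin k0 s hb
      refine ⟨b * g, mul_mem hb hg, mul_ne_zero hb0 hg0, max (m₁ + m) (m₂ + n), ?_⟩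
      rintro z (rfl | hz)
      · have e : b * g * z = g * (b * z) := by ring
        rw [e]
        exact hRmono (le_max_left _ _) (hRmul hm₁ hm)
      · rw [mul_assoc]
        exact hRmono (le_max_right _ _) (hRmul hm₂ (hn z hz))
  -- the finite set of data
  set Y : Set Ω := (⋃ i : ι, Set.range (fun z : (s → Fin (p ^ t i)) × Fin d =>
    τ i (s2mon s (fun j => (z.1 j : ℕ)) * θ z.2))) ∪ (E : Set Ω) with hYdef
  have hYfin : Y.Finite :=
    (Set.finite_iUnion (fun i => Set.finite_range _)).union E.finite_toSet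
  have hYκ' : ∀ y ∈ Y, y ∈ κ' := by
    rintro y (hy | hy)
    · rw [Set.mem_iUnion] at hy
      obtain ⟨i, z, rfl⟩ := hy
      exact hmap i _ (mul_mem (hle' (hmonκ _)) (hmem _))
    · exact hE y hy
  obtain ⟨g, hg, hg0, c, hc⟩ := hdenS Y hYfin hYκ'
  obtain ⟨D, hD⟩ := s2P_adjoin k0 s hg
  have hgκ : g ∈ k0 ⊔ Subfield.closure (s : Set Ω) := hPκ D g hD
  have hgκ' : g ∈ κ' := hle' hgκ
  have hp : 2 ≤ p := (Fact.out : p.Prime).two_le
  have hzero : ∀ i, τ i 0 = 0 := by
    intro i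
    have h := hadd i 0 (zero_mem _) 0 (zero_mem _)
    rw [add_zero] at h
    exact left_eq_add.mp h
  -- first claim
  have claim1 : ∀ (i : ι) (n : ℕ) (l : Fin d), ∀ x ∈ s2P k0 s n,
      g ^ 2 * τ i ((g⁻¹) ^ p ^ t i * x * θ l) ∈ R (n / p ^ t i + c) := by
    intro i n l x hx
    have hq0 : 0 < p ^ t i := by positivity
    have hx' : x ∈ Submodule.span k0 (s2mon s '' {α | ∑ j, α j ≤ n}) := hx
    clear hx
    have hgi : (g⁻¹) ^ p ^ t i ∈ κ' := pow_mem (inv_mem hgκ') _
    have hmemP : ∀ y ∈ Submodule.span k0 (s2mon s '' {α | ∑ j, α j ≤ n}),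
        (g⁻¹) ^ p ^ t i * y * θ l ∈ κ' := fun y hy =>
      mul_mem (mul_mem hgi (hle' (hPκ n y hy))) (hmem l)
    induction hx' using Submodule.span_induction with
    | mem x hx =>
      obtain ⟨α, hα, rfl⟩ := hx
      have hα' : ∑ j, α j ≤ n := hα
      set β : s → ℕ := fun j => α j / p ^ t i with hβ
      set δ : s → Fin (p ^ t i) := fun j => ⟨α j % p ^ t i, Nat.mod_lt _ hq0⟩ with hδ
      have hmonα : s2mon s α = s2mon s β ^ p ^ t i * s2mon s (fun j => (δ j : ℕ)) := by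
        rw [s2mon_pow, s2mon_mul]
        congr 1
        funext j
        simp only [Pi.add_apply, hβ, hδ]
        exact (Nat.div_add_mod _ _).symm
      have e : (g⁻¹) ^ p ^ t i * s2mon s α * θ l =
          (g⁻¹ * s2mon s β) ^ p ^ t i * (s2mon s (fun j => (δ j : ℕ)) * θ l) := by
        rw [hmonα, mul_pow]; ring
      rw [e, hlin i _ (mul_mem (inv_mem hgκ) (hmonκ β)) _ (mul_mem (hle' (hmonκ _)) (hmem l))]
      have e2 : g ^ 2 * (g⁻¹ * s2mon s β * τ i (s2mon s (fun j => (δ j : ℕ)) * θ l)) =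
          s2mon s β * (g * τ i (s2mon s (fun j => (δ j : ℕ)) * θ l)) := by
        field_simp
      rw [e2]
      refine hRmono (Nat.le_refl _) (hRmul (s2mon_mem k0 s ?_) (hc _ (Or.inl ?_)))
      · rw [Nat.le_div_iff_mul_le hq0, Finset.sum_mul]
        refine le_trans (Finset.sum_le_sum (fun j _ => ?_)) hα'
        exact Nat.div_mul_le_self _ _
      · rw [Set.mem_iUnion]
        exact ⟨i, (δ, l), rfl⟩
    | zero =>
      rw [mul_zero, zero_mul, hzero, mul_zero]
      exact Submodule.zero_mem _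
    | add x y hx hy ihx ihy =>
      have e : (g⁻¹) ^ p ^ t i * (x + y) * θ l =
          (g⁻¹) ^ p ^ t i * x * θ l + (g⁻¹) ^ p ^ t i * y * θ l := by ring
      rw [e, hadd i _ (hmemP x hx) _ (hmemP y hy), mul_add]
      exact Submodule.add_mem _ ihx ihy
    | smul a x hx ih =>
      obtain ⟨b, hb, hba⟩ := s2_root k0 hperf (t i) (a : Ω) a.2
      have e : (g⁻¹) ^ p ^ t i * (a • x) * θ l = b ^ p ^ t i * ((g⁻¹) ^ p ^ t i * x * θ l) := by
        rw [Subfield.smul_def, smul_eq_mul, ← hba]; ring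
      rw [e, hlin i b (hle hb) _ (hmemP x hx)]
      have e2 : g ^ 2 * (b * τ i ((g⁻¹) ^ p ^ t i * x * θ l)) =
          (⟨b, hb⟩ : k0) • (g ^ 2 * τ i ((g⁻¹) ^ p ^ t i * x * θ l)) := by
        rw [Subfield.smul_def, smul_eq_mul]; ring
      rw [e2]
      exact Submodule.smul_mem _ _ ih
  -- second claim
  set N : ℕ := 2 * (D + c) with hN
  have claim2 : ∀ (i : ι), ∀ z ∈ R N, g ^ 2 * τ i ((g⁻¹) ^ 2 * z) ∈ R N := by
    intro i z hz
    have hg2 : (g⁻¹) ^ 2 ∈ κ' := pow_mem (inv_mem hgκ') _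
    have hz' : z ∈ s2P k0 s N * T := hz
    clear hz
    induction hz' using Submodule.mul_induction_on' with
    | mem_mul_mem a ha b hb =>
      have hb' : b ∈ Submodule.span k0 (Set.range θ) := hb
      clear hb
      have key : ∀ b ∈ Submodule.span k0 (Set.range θ), ∀ a ∈ s2P k0 s N,
          g ^ 2 * τ i ((g⁻¹) ^ 2 * (a * b)) ∈ R N := by
        intro b hb
        induction hb using Submodule.span_induction with
        | mem b hb =>
          obtain ⟨l, rfl⟩ := hb
          intro a ha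
          have hq2 : 2 ≤ p ^ t i :=
            le_trans hp (Nat.le_self_pow (by have := ht i; omega) p)
          obtain ⟨r, hr⟩ : ∃ r, p ^ t i = r + 2 := ⟨p ^ t i - 2, by omega⟩
          have h1 := claim1 i (r * D + N) l (g ^ r * a) (s2P_mul k0 s (s2P_pow k0 s hD r) ha)
          have e : (g⁻¹) ^ p ^ t i * (g ^ r * a) * θ l = (g⁻¹) ^ 2 * (a * θ l) := by
            rw [hr, pow_add]
            have : (g⁻¹) ^ r * g ^ r = 1 := by
              rw [← mul_pow, inv_mul_cancel₀ hg0, one_pow]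
            linear_combination ((g⁻¹) ^ 2 * a * θ l) * this
          rw [e] at h1
          refine hRmono ?_ h1
          have h2 : (r * D + N) / p ^ t i ≤ D + N / 2 := by
            calc (r * D + N) / p ^ t i ≤ (p ^ t i * D + N) / p ^ t i := by
                  apply Nat.div_le_div_right
                  have : r * D ≤ p ^ t i * D := Nat.mul_le_mul_right D (by omega)
                  omega
              _ = D + N / p ^ t i := by
                  rw [Nat.mul_add_div (by omega)]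
              _ ≤ D + N / 2 := by
                  have := Nat.div_le_div_left (a := N) hq2 (by norm_num)
                  omega
          omega
        | zero =>
          intro a _
          rw [mul_zero, mul_zero, hzero, mul_zero]
          exact Submodule.zero_mem _
        | add x y hx hy ihx ihy =>
          intro a ha
          have e : (g⁻¹) ^ 2 * (a * (x + y)) = (g⁻¹) ^ 2 * (a * x) + (g⁻¹) ^ 2 * (a * y) := by ring
          rw [e, hadd i _ (mul_mem hg2 (mul_mem (hle' (hPκ _ _ ha)) (hTκ' _ hx))) _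
            (mul_mem hg2 (mul_mem (hle' (hPκ _ _ ha)) (hTκ' _ hy))), mul_add]
          exact Submodule.add_mem _ (ihx a ha) (ihy a ha)
        | smul r x _ ih =>
          intro a ha
          have e : a * (r • x) = (r • a) * x := by
            rw [mul_smul_comm, smul_mul_assoc]
          rw [e]
          exact ih _ (Submodule.smul_mem _ _ ha)
      exact key b hb' a ha
    | add z₁ hz₁ z₂ hz₂ h₁ h₂ =>
      rw [mul_add, hadd i _ (mul_mem hg2 (hRκ' N _ hz₁)) _ (mul_mem hg2 (hRκ' N _ hz₂)), mul_add]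
      exact Submodule.add_mem _ h₁ h₂
  -- the stable lattice
  set L : Submodule k0 Ω := (R N).map (LinearMap.mulLeft k0 ((g⁻¹) ^ 2)) with hL
  have hLmem : ∀ x : Ω, x ∈ L ↔ g ^ 2 * x ∈ R N := by
    intro x
    have hgg : (g⁻¹) ^ 2 * g ^ 2 = 1 := by
      rw [← mul_pow, inv_mul_cancel₀ hg0, one_pow]
    constructor
    · rintro ⟨z, hz, rfl⟩
      have e : g ^ 2 * (LinearMap.mulLeft k0 ((g⁻¹) ^ 2)) z = z := by
        rw [LinearMap.mulLeft_apply]
        linear_combination z * hgg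
      rw [e]
      exact hz
    · intro h
      refine ⟨_, h, ?_⟩
      rw [LinearMap.mulLeft_apply]
      linear_combination x * hgg
  have hTfg : T.FG := Submodule.fg_span (Set.finite_range θ)
  have hLfg : L.FG := ((s2P_fg k0 s N).mul hTfg).map _
  obtain ⟨n, v, hv⟩ := Submodule.fg_iff_exists_fin_generating_family.1 hLfg
  have hvL : ∀ j, v j ∈ L := fun j => by rw [← hv]; exact Submodule.subset_span ⟨j, rfl⟩
  have hcomb : ∀ x ∈ L, ∃ c : Fin n → Ω, (∀ j, c j ∈ k0) ∧ x = ∑ j, c j * v j := by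
    intro x hx
    rw [← hv, Submodule.mem_span_range_iff_exists_fun] at hx
    obtain ⟨c, hc⟩ := hx
    refine ⟨fun j => (c j : Ω), fun j => (c j).2, ?_⟩
    rw [← hc]
    exact Finset.sum_congr rfl (fun j _ => by rw [Subfield.smul_def, smul_eq_mul])
  refine ⟨n, v, ?_, ?_, ?_⟩
  · intro j
    have h1 := hRκ' N _ ((hLmem _).1 (hvL j))
    have e : v j = (g⁻¹) ^ 2 * (g ^ 2 * v j) := by
      rw [← mul_assoc, ← mul_pow, inv_mul_cancel₀ hg0, one_pow, one_mul]
    rw [e]
    exact mul_mem (pow_mem (inv_mem hgκ') _) h1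
  · intro x hx
    apply hcomb
    rw [hLmem]
    have h1 := hRmul hD (hc x (Or.inr hx))
    have e : g ^ 2 * x = g * (g * x) := by ring
    rw [e]
    exact hRmono (by omega) h1
  · intro i j
    apply hcomb
    rw [hLmem]
    have h1 := claim2 i _ ((hLmem _).1 (hvL j))
    have e : (g⁻¹) ^ 2 * (g ^ 2 * v j) = v j := by
      rw [← mul_assoc, ← mul_pow, inv_mul_cancel₀ hg0, one_pow, one_mul]
    rwa [e] at h1

end MP1a953e
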