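import Pool.Agent.Lib.MP_1a953e_ag.Frob1
import Pool.Agent.Lib.MP_1a953e_ag.Solve1
import Pool.Agent.Lib.MP_1a953e_ag.Solve2

/-!
# Module PW1: surjectivity of 1 - Theta
-/

namespace MP1a953e

open Polynomial

variable {Ω : Type*} [NormedField Ω] [IsUltrametricDist Ω] {p : ℕ} [Fact p.Prime] [CharP Ω p]

/-- elements of the ring generated by two subfields are combinations -/
private theorem pw1_mem_span {k A : Subfield Ω} {g : Ω}
    (hg : g ∈ Subring.closure ((k : Set Ω) ∪ A)) : g ∈ Submodule.span k (A : Set Ω) := by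
  induction hg using Subring.closure_induction with
  | mem x hx =>
    rcases hx with hx | hx
    · have h := Submodule.smul_mem (Submodule.span k (A : Set Ω)) (⟨x, hx⟩ : k)
        (Submodule.subset_span (one_mem A))
      rwa [Subfield.smul_def, smul_eq_mul, mul_one] at h
    · exact Submodule.subset_span hx
  | zero => exact Submodule.zero_mem _
  | one => exact Submodule.subset_span (one_mem A)
  | add x y _ _ hx hy => exact Submodule.add_mem _ hx hy
  | neg x _ hx => exact Submodule.neg_mem _ hx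
  | mul x y _ _ hx hy =>
    have h := Submodule.mul_mem_mul hx hy
    rw [Submodule.span_mul_span] at h
    refine Submodule.span_mono ?_ h
    rintro _ ⟨a, ha, b, hb, rfl⟩
    exact mul_mem (S := Subfield Ω) ha hb

/-- PW1.  `1 - Θ` is surjective modulo norm `≤ 1` for contracting operators `Θ = ∑ τ i`.

Proof: by density (`hA'.dense`) there is `ε₁` in the ring generated by `k` and `A'` with
`‖ε - ε₁‖ ≤ 1`; `ε₁ = ∑ ε j * x j` with `ε j ∈ k`, `x j ∈ A'`. Apply `stable_tuple` with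
`κ = A`, `κ' = A'`, `E = {x j}`, `k0` perfect by `Ground.perfect`, and get `v : Fin N → Ω`;
`ε₁ = ∑ e l * v l` with `e l ∈ k`, `τ i (v j) = ∑ l, θ i j l * v l` with `θ i j l ∈ k0`.
Let `T = max t i`. By `solve_system` in `k` there are `z l ∈ k` with
`z l ^ (p ^ T) = ∑ i j, θ i j l * z j ^ (p ^ (T - t i)) + e l`. Put `S = ∑ z l ^ (p ^ T) * v l`. Since
`z j ^ (p ^ T) = (z j ^ (p ^ (T - t i))) ^ (p ^ t i)` and `z j ∈ k ≤ F`,
`τ i S = ∑ j, z j ^ (p ^ (T - t i)) * τ i (v j)`, so `S - ∑ τ i S = ε₁`. -/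
theorem solve_theta {k0 k A F A' F' : Subfield Ω} (hA : Ab p k0 k A F) (hA' : Ab p k0 k A' F')
    {d : ℕ} {θ : Fin (d + 1) → Ω} (hθ : OrthBasis A A' θ) (hFF : F ≤ F')
    {ι : Type} [Fintype ι] (t : ι → ℕ) (ht : ∀ i, 1 ≤ t i) (τ : ι → Ω → Ω)
    (hmapF : ∀ i, ∀ x ∈ F', τ i x ∈ F') (hmapA : ∀ i, ∀ x ∈ A', τ i x ∈ A')
    (hadd : ∀ i, ∀ x ∈ F', ∀ y ∈ F', τ i (x + y) = τ i x + τ i y)
    (hlin : ∀ i, ∀ y ∈ F, ∀ x ∈ F', τ i (y ^ p ^ t i * x) = y * τ i x)
    {ε : Ω} (hε : ε ∈ F') :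
    ∃ S ∈ F', ‖S - ∑ i, τ i S - ε‖ ≤ 1 := by
  classical
  obtain ⟨g, hg, hgε⟩ := hA'.dense ε hε 1 one_pos
  have hgs := pw1_mem_span hg
  rw [Submodule.mem_span_set'] at hgs
  obtain ⟨n, a, x, hax⟩ := hgs
  have hAF : A ≤ F := hA.A_le
  have hAF' : A' ≤ F' := hA'.A_le
  obtain ⟨N, v, hvA, hvE, hvτ⟩ := stable_tuple (p := p) (k0 := k0) (κ := A) (κ' := A')
    (Ground.perfect hA.ground) hA.k0_le hA.fg hθ.le hθ.mem hθ.span t ht τ hmapA
    (fun i x hx y hy => hadd i x (hAF' hx) y (hAF' hy))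
    (fun i y hy x hx => hlin i y (hAF hy) x (hAF' hx))
    (Finset.univ.image (fun j : Fin n => (x j : Ω))) (by
      intro y hy
      rw [Finset.mem_image] at hy
      obtain ⟨j, _, rfl⟩ := hy
      exact (x j).2)
  -- `g` as a combination of the `v l`
  have hgv : g ∈ Submodule.span k (Set.range v) := by
    rw [← hax]
    refine Submodule.sum_mem _ (fun j _ => Submodule.smul_mem _ _ ?_)
    obtain ⟨c, hc, hxc⟩ := hvE (x j) (Finset.mem_image_of_mem _ (Finset.mem_univ j))
    rw [hxc]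
    refine Submodule.sum_mem _ (fun l _ => ?_)
    have h := Submodule.smul_mem (Submodule.span k (Set.range v))
      (⟨c l, hA.ground.le (hc l)⟩ : k) (Submodule.subset_span (Set.mem_range_self l))
    rwa [Subfield.smul_def, smul_eq_mul] at h
  rw [Submodule.mem_span_range_iff_exists_fun] at hgv
  obtain ⟨e, he⟩ := hgv
  choose th hth0 hth using hvτ
  have hcl : IsAlgClosed k := hA.ground.closed
  have hchar : CharP k p := RingHom.charP k.subtype k.subtype.injective p
  set T : ℕ := Finset.univ.sup t with hT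
  have htT : ∀ i, t i ≤ T := fun i => Finset.le_sup (Finset.mem_univ i)
  obtain ⟨z, hz⟩ := solve_system (k := k) (p := p) T N
    (fun s j l => ∑ i ∈ Finset.univ.filter (fun i => T - t i = s),
      (⟨th i j l, hA.ground.le (hth0 i j l)⟩ : k)) e
  have hkF' : k ≤ F' := hA'.k_le
  have hvF' : ∀ l, v l ∈ F' := fun l => hAF' (hvA l)
  set S : Ω := ∑ l, (z l : Ω) ^ p ^ T * v l with hS
  have hSF : S ∈ F' := sum_mem (fun l _ => mul_mem (pow_mem (hkF' (z l).2) _) (hvF' l))
  have hzero : ∀ i, τ i 0 = 0 := by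
    intro i
    have h := hadd i 0 (zero_mem _) 0 (zero_mem _)
    rw [add_zero] at h
    exact left_eq_add.mp h
  have hsum : ∀ (i : ι) (s : Finset (Fin N)) (f : Fin N → Ω), (∀ l, f l ∈ F') →
      τ i (∑ l ∈ s, f l) = ∑ l ∈ s, τ i (f l) := by
    intro i s f hf
    induction s using Finset.induction_on with
    | empty => simp [hzero]
    | insert a s ha ih =>
      rw [Finset.sum_insert ha, Finset.sum_insert ha,
        hadd i _ (hf a) _ (sum_mem (fun l _ => hf l)), ih]
  have hτS : ∀ i, τ i S = ∑ l, (∑ j, (z j : Ω) ^ p ^ (T - t i) * th i j l) * v l := by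
    intro i
    rw [hS, hsum i _ _ (fun l => mul_mem (pow_mem (hkF' (z l).2) _) (hvF' l))]
    have h1 : ∀ j, τ i ((z j : Ω) ^ p ^ T * v j) =
        ∑ l, (z j : Ω) ^ p ^ (T - t i) * th i j l * v l := by
      intro j
      have e1 : (z j : Ω) ^ p ^ T = ((z j : Ω) ^ p ^ (T - t i)) ^ p ^ t i := by
        rw [← pow_mul, ← pow_add, Nat.sub_add_cancel (htT i)]
      rw [e1, hlin i _ (hA.k_le (pow_mem (z j).2 _)) _ (hvF' j), hth i j, Finset.mul_sum]
      exact Finset.sum_congr rfl (fun l _ => by ring)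
    rw [Finset.sum_congr rfl (fun j _ => h1 j), Finset.sum_comm]
    exact Finset.sum_congr rfl (fun l _ => by rw [Finset.sum_mul])
  have hz' : ∀ l, (z l : Ω) ^ p ^ T =
      (∑ i, ∑ j, (z j : Ω) ^ p ^ (T - t i) * th i j l) + (e l : Ω) := by
    intro l
    have h1 := congrArg (fun y : k => (y : Ω)) (hz l)
    simp only [SubmonoidClass.coe_pow, AddMemClass.coe_add, AddSubmonoidClass.coe_finsetSum,
      MulMemClass.coe_mul] at h1
    rw [h1]
    congr 1
    have h2 : ∀ s ∈ Finset.range T, ∑ j, (∑ i ∈ Finset.univ.filter (fun i => T - t i = s),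
        th i j l) * (z j : Ω) ^ p ^ s =
        ∑ i ∈ Finset.univ.filter (fun i => T - t i = s),
          ∑ j, (z j : Ω) ^ p ^ (T - t i) * th i j l := by
      intro s _
      rw [Finset.sum_comm]
      refine Finset.sum_congr rfl (fun j _ => ?_)
      rw [Finset.sum_mul]
      refine Finset.sum_congr rfl (fun i hi => ?_)
      rw [(Finset.mem_filter.1 hi).2, mul_comm]
    rw [Finset.sum_congr rfl h2]
    rw [Finset.sum_fiberwise_of_maps_to (fun i _ => ?_)]
    rw [Finset.mem_range]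
    have h3 := ht i
    have h4 := htT i
    omega
  refine ⟨S, hSF, ?_⟩
  have hmain : S - ∑ i, τ i S = g := by
    rw [Finset.sum_congr rfl (fun i _ => hτS i), Finset.sum_comm, hS, ← Finset.sum_sub_distrib,
      ← he]
    refine Finset.sum_congr rfl (fun l _ => ?_)
    rw [← Finset.sum_mul, ← sub_mul, hz' l, add_sub_cancel_left, Subfield.smul_def, smul_eq_mul]
  rw [hmain, ← norm_neg, neg_sub]
  exact hgε.le

end MP1a953e
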