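import Pool.Agent.Lib.MP_1a953e_ag.Frob2
import Pool.Agent.Lib.MP_1a953e_ag.PW1

/-!
# Module PW2: approximate solutions imply solutions
-/

namespace MP1a953e

open Polynomial

variable {Ω : Type*} [NormedField Ω] [IsUltrametricDist Ω] {p : ℕ} [Fact p.Prime] [CharP Ω p]

omit [IsUltrametricDist Ω] in
private theorem pw2_zero {F : Subfield Ω} {f : Ω → Ω}
    (h : ∀ x ∈ F, ∀ y ∈ F, f (x + y) = f x + f y) : f 0 = 0 := by
  have h1 := h 0 F.zero_mem 0 F.zero_mem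
  rw [add_zero] at h1
  exact left_eq_add.1 h1

omit [IsUltrametricDist Ω] in
private theorem pw2_neg {F : Subfield Ω} {f : Ω → Ω}
    (h : ∀ x ∈ F, ∀ y ∈ F, f (x + y) = f x + f y) {x : Ω} (hx : x ∈ F) : f (-x) = - f x := by
  have h1 := h x hx (-x) (F.neg_mem hx)
  rw [add_neg_cancel, pw2_zero h] at h1
  exact (neg_eq_of_add_eq_zero_right h1.symm).symm

omit [IsUltrametricDist Ω] in
private theorem pw2_sub {F : Subfield Ω} {f : Ω → Ω}
    (h : ∀ x ∈ F, ∀ y ∈ F, f (x + y) = f x + f y) {x y : Ω} (hx : x ∈ F) (hy : y ∈ F) :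
    f (x - y) = f x - f y := by
  rw [sub_eq_add_neg, h x hx (-y) (F.neg_mem hy), pw2_neg h hy, ← sub_eq_add_neg]

omit [IsUltrametricDist Ω] in
private theorem pw2_sum {F : Subfield Ω} {f : Ω → Ω}
    (h : ∀ x ∈ F, ∀ y ∈ F, f (x + y) = f x + f y) {κ : Type} (s : Finset κ) (g : κ → Ω)
    (hg : ∀ i ∈ s, g i ∈ F) : f (∑ i ∈ s, g i) = ∑ i ∈ s, f (g i) := by
  classical
  induction s using Finset.induction_on with
  | empty => simpa using pw2_zero h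
  | insert a s ha ih =>
    rw [Finset.sum_insert ha, Finset.sum_insert ha,
      h _ (hg a (Finset.mem_insert_self a s)) _
        (F.sum_mem fun i hi => hg i (Finset.mem_insert_of_mem hi)),
      ih fun i hi => hg i (Finset.mem_insert_of_mem hi)]

private theorem pw2_max (x y : Ω) : ‖x - y‖ ≤ max ‖x‖ ‖y‖ := by
  have h := IsUltrametricDist.norm_add_le_max x (-y)
  rw [norm_neg, ← sub_eq_add_neg] at h
  exact h

/-- PW2.  If the additive equation `C S - ∑ c h * S ^ (p ^ h) = e` is solvable in `F'` up to an error of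
norm `≤ R` for every `R > 1`, then it is solvable up to an error of norm `≤ 1`.

Proof. Write `P S = ∑_{h ≤ H} c h * S ^ (p ^ h)`, `G S = C S - P S - e`. Let `Λ` be the
operator of `exists_Lambda` for `(A', F')`, `H` and `c H` (norm `1`). Put `τ none x = Λ (C x)`
(`t = H`), `τ (some h) x = - Λ (c h * x ^ (p ^ h))` for `h < H` (`t = H - h ≥ 1`), `Θ = ∑ τ`,
`ε = - Λ e`. Since `Λ (c H * S ^ (p ^ H)) = S`, `Λ (G S) = Θ S - S + ε`.
By `solve_theta` there is `S₀ ∈ F'` with `‖S₀ - Θ S₀ - ε‖ ≤ 1`. Claim: `‖G S₀‖ ≤ R` for every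
`R > 1`. Take `S ∈ F'` with `‖G S‖ ≤ R` and `D = S - S₀`. Then
`Θ D - D = Λ (G S) - (Θ S₀ - S₀ + ε)` has norm `≤ R ^ (1 / p ^ H)`
(`‖Λ x‖ ^ (p ^ H) ≤ ‖x‖`). If `‖D‖ > 1`, then `‖Θ D‖ < ‖D‖`, because
`‖Λ (C D)‖ ^ (p ^ H) ≤ ‖D‖ < ‖D‖ ^ (p ^ H)` and
`‖Λ (c h * D ^ (p ^ h))‖ ^ (p ^ H) ≤ ‖D‖ ^ (p ^ h) < ‖D‖ ^ (p ^ H)`, hence `‖D‖ = ‖Θ D - D‖`.
In all cases `‖D‖ ^ (p ^ H) ≤ R`. Therefore `‖P D‖ ≤ R`, `‖C D‖ ≤ R` and
`‖G S₀‖ = ‖G S - (C D - P D)‖ ≤ R`. -/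
theorem propW {k0 k A F A' F' : Subfield Ω} (hA : Ab p k0 k A F) (hA' : Ab p k0 k A' F')
    {d : ℕ} {θ : Fin (d + 1) → Ω} (hθ : OrthBasis A A' θ) (hFF : F ≤ F')
    (C : Ω → Ω) (hCF : ∀ x ∈ F', C x ∈ F') (hCA : ∀ x ∈ A', C x ∈ A')
    (hCadd : ∀ x ∈ F', ∀ y ∈ F', C (x + y) = C x + C y)
    (hClin : ∀ y ∈ F, ∀ x ∈ F', C (y * x) = y * C x) (hCnorm : ∀ x ∈ F', ‖C x‖ ≤ ‖x‖)
    (H : ℕ) (hH : 1 ≤ H) (c : ℕ → Ω) (hc : ∀ h ≤ H, c h ∈ A') (hc1 : ∀ h ≤ H, ‖c h‖ ≤ 1)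
    (hcH : ‖c H‖ = 1) (e : Ω) (he : e ∈ F')
    (happ : ∀ R : ℝ, 1 < R →
      ∃ S ∈ F', ‖C S - ∑ h ∈ Finset.range (H + 1), c h * S ^ p ^ h - e‖ ≤ R) :
    ∃ S ∈ F', ‖C S - ∑ h ∈ Finset.range (H + 1), c h * S ^ p ^ h - e‖ ≤ 1 := by
  classical
  have hp : p.Prime := Fact.out
  have hpH : p ^ H ≠ 0 := pow_ne_zero _ hp.ne_zero
  have hAF' : A' ≤ F' := hA'.A_le
  obtain ⟨Λ, hΛF, hΛA, hΛadd, hΛlin, hΛc, hΛn⟩ := exists_Lambda hA' H (hc H le_rfl) hcH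
  have hcF : ∀ h ≤ H, c h ∈ F' := fun h hh => hAF' (hc h hh)
  -- the operators
  let t : Option (Fin H) → ℕ := fun o => o.elim H (fun h => H - (h : ℕ))
  let τ : Option (Fin H) → Ω → Ω := fun o x =>
    o.elim (Λ (C x)) (fun h => - Λ (c (h : ℕ) * x ^ p ^ (h : ℕ)))
  have hτn : ∀ x, τ none x = Λ (C x) := fun x => rfl
  have hτs : ∀ (h : Fin H) x, τ (some h) x = - Λ (c (h : ℕ) * x ^ p ^ (h : ℕ)) := fun h x => rfl
  have hmem1 : ∀ h ≤ H, ∀ x ∈ F', c h * x ^ p ^ h ∈ F' := fun h hh x hx =>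
    F'.mul_mem (hcF h hh) (F'.pow_mem hx _)
  obtain ⟨S₀, hS₀, hS₀n⟩ := solve_theta (p := p) hA hA' hθ hFF t
    (by
      rintro (_ | h)
      · exact hH
      · change 1 ≤ H - (h : ℕ)
        have := h.2
        omega)
    τ
    (by
      rintro (_ | h) x hx
      · exact hΛF _ (hCF x hx)
      · exact F'.neg_mem (hΛF _ (hmem1 _ h.2.le x hx)))
    (by
      rintro (_ | h) x hx
      · exact hΛA _ (hCA x hx)
      · exact A'.neg_mem (hΛA _ (A'.mul_mem (hc _ h.2.le) (A'.pow_mem hx _))))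
    (by
      rintro (_ | h) x hx y hy
      · rw [hτn, hτn, hτn, hCadd x hx y hy, hΛadd _ (hCF x hx) _ (hCF y hy)]
      · rw [hτs, hτs, hτs, add_pow_char_pow, mul_add,
          hΛadd _ (hmem1 _ h.2.le x hx) _ (hmem1 _ h.2.le y hy), neg_add])
    (by
      rintro (_ | h) y hy x hx
      · change τ none (y ^ p ^ H * x) = y * τ none x
        rw [hτn, hτn, hClin _ (F.pow_mem hy _) x hx, hΛlin _ (hCF x hx) _ (hFF hy)]
      · change τ (some h) (y ^ p ^ (H - (h : ℕ)) * x) = y * τ (some h) x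
        have e1 : c (h : ℕ) * (y ^ p ^ (H - (h : ℕ)) * x) ^ p ^ (h : ℕ) =
            y ^ p ^ H * (c (h : ℕ) * x ^ p ^ (h : ℕ)) := by
          rw [mul_pow, ← pow_mul, ← pow_add, Nat.sub_add_cancel h.2.le]
          ring
        rw [hτs, hτs, e1, hΛlin _ (hmem1 _ h.2.le x hx) _ (hFF hy)]
        ring)
    (ε := - Λ e) (F'.neg_mem (hΛF e he))
  refine ⟨S₀, hS₀, ?_⟩
  -- abbreviations
  set P : Ω → Ω := fun S => ∑ h ∈ Finset.range (H + 1), c h * S ^ p ^ h with hPdef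
  set Θ : Ω → Ω := fun S => ∑ i, τ i S with hΘdef
  have hPF : ∀ x ∈ F', P x ∈ F' := fun x hx =>
    F'.sum_mem fun h hh => hmem1 h (Nat.lt_succ_iff.1 (Finset.mem_range.1 hh)) x hx
  have hPadd : ∀ x y : Ω, P (x + y) = P x + P y := by
    intro x y
    simp only [hPdef]
    rw [← Finset.sum_add_distrib]
    refine Finset.sum_congr rfl fun h _ => ?_
    rw [add_pow_char_pow, mul_add]
  have hΛP : ∀ x ∈ F', Λ (P x) = (∑ h ∈ Finset.range H, Λ (c h * x ^ p ^ h)) + x := by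
    intro x hx
    simp only [hPdef]
    rw [pw2_sum hΛadd _ _ fun h hh => hmem1 h (Nat.lt_succ_iff.1 (Finset.mem_range.1 hh)) x hx,
      Finset.sum_range_succ]
    congr 1
    rw [mul_comm, hΛlin _ (hcF H le_rfl) _ hx, hΛc, mul_one]
  have hΘ : ∀ x, Θ x = Λ (C x) - ∑ h ∈ Finset.range H, Λ (c h * x ^ p ^ h) := by
    intro x
    simp only [hΘdef]
    rw [Fintype.sum_option, hτn, Finset.sum_congr rfl fun h _ => hτs h x, Finset.sum_neg_distrib,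
      ← sub_eq_add_neg, Finset.sum_range]
  have hΘadd : ∀ x ∈ F', ∀ y ∈ F', Θ (x + y) = Θ x + Θ y := by
    intro x hx y hy
    have e1 := hΛP x hx
    have e2 := hΛP y hy
    have e3 := hΛP (x + y) (F'.add_mem hx hy)
    rw [hPadd, hΛadd _ (hPF x hx) _ (hPF y hy), e1, e2] at e3
    rw [hΘ, hΘ, hΘ, hCadd x hx y hy, hΛadd _ (hCF x hx) _ (hCF y hy)]
    linear_combination e3
  have hL : ∀ x ∈ F', Λ (C x - P x - e) = Θ x - x + - Λ e := by
    intro x hx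
    rw [pw2_sub hΛadd (F'.sub_mem (hCF x hx) (hPF x hx)) he,
      pw2_sub hΛadd (hCF x hx) (hPF x hx), hΛP x hx, hΘ]
    ring
  change ‖C S₀ - P S₀ - e‖ ≤ 1
  refine le_of_forall_gt_imp_ge_of_dense fun R hR => ?_
  obtain ⟨S, hS, hSn⟩ := happ R hR
  change ‖C S - P S - e‖ ≤ R at hSn
  set D : Ω := S - S₀ with hD
  have hDF : D ∈ F' := F'.sub_mem hS hS₀
  have hSD : S = S₀ + D := by rw [hD]; ring
  have hR0 : (0 : ℝ) ≤ R := zero_le_one.trans hR.le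
  -- the difference
  have hdiff : Θ D - D = Λ (C S - P S - e) - Λ (C S₀ - P S₀ - e) := by
    rw [hL S hS, hL S₀ hS₀, hSD, hΘadd S₀ hS₀ D hDF]
    ring
  have hb1 : ‖Λ (C S - P S - e)‖ ^ p ^ H ≤ R :=
    (hΛn _ (F'.sub_mem (F'.sub_mem (hCF S hS) (hPF S hS)) he)).trans hSn
  have hb2 : ‖Λ (C S₀ - P S₀ - e)‖ ^ p ^ H ≤ R := by
    have h1 : ‖Λ (C S₀ - P S₀ - e)‖ ≤ 1 := by
      rw [hL S₀ hS₀]
      have h2 : Θ S₀ - S₀ + - Λ e = -(S₀ - Θ S₀ - - Λ e) := by ring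
      rw [h2, norm_neg]
      exact hS₀n
    exact (pow_le_one₀ (norm_nonneg _) h1).trans hR.le
  have hb3 : ‖Θ D - D‖ ^ p ^ H ≤ R := by
    rw [hdiff]
    have h1 := pw2_max (Λ (C S - P S - e)) (Λ (C S₀ - P S₀ - e))
    rcases le_max_iff.1 h1 with h2 | h2
    · exact (pow_le_pow_left₀ (norm_nonneg _) h2 _).trans hb1
    · exact (pow_le_pow_left₀ (norm_nonneg _) h2 _).trans hb2
  have hD1 : ‖D‖ ^ p ^ H ≤ R := by
    rcases le_or_gt ‖D‖ 1 with h1 | h1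
    · exact (pow_le_one₀ (norm_nonneg _) h1).trans hR.le
    · have hlt : ‖Θ D‖ < ‖D‖ := by
        have key : ∀ z ∈ F', ‖z‖ < ‖D‖ ^ p ^ H → ‖Λ z‖ < ‖D‖ := by
          intro z hz hzn
          exact lt_of_pow_lt_pow_left₀ (p ^ H) (norm_nonneg _) ((hΛn z hz).trans_lt hzn)
        have h1H : 1 < p ^ H := Nat.one_lt_pow (by omega) hp.one_lt
        have k0' : ‖Λ (C D)‖ < ‖D‖ := by
          refine key _ (hCF D hDF) ((hCnorm D hDF).trans_lt ?_)
          calc ‖D‖ = ‖D‖ ^ 1 := (pow_one _).symm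
            _ < ‖D‖ ^ p ^ H := pow_lt_pow_right₀ h1 h1H
        have k1 : ∀ h ∈ Finset.range H, ‖Λ (c h * D ^ p ^ h)‖ < ‖D‖ := by
          intro h hh
          have hh' := Finset.mem_range.1 hh
          refine key _ (hmem1 h hh'.le D hDF) ?_
          rw [norm_mul, norm_pow]
          calc ‖c h‖ * ‖D‖ ^ p ^ h ≤ 1 * ‖D‖ ^ p ^ h :=
                mul_le_mul_of_nonneg_right (hc1 h hh'.le) (pow_nonneg (norm_nonneg _) _)
            _ = ‖D‖ ^ p ^ h := one_mul _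
            _ < ‖D‖ ^ p ^ H := pow_lt_pow_right₀ h1 (Nat.pow_lt_pow_right hp.one_lt hh')
        rw [hΘ]
        refine (pw2_max _ _).trans_lt (max_lt k0' ?_)
        have hDpos : 0 < ‖D‖ := zero_lt_one.trans h1
        rcases (Finset.range H).eq_empty_or_nonempty with hemp | hne
        · rw [hemp, Finset.sum_empty, norm_zero]
          exact hDpos
        · obtain ⟨h, hh, hle⟩ := IsUltrametricDist.exists_norm_finsetSum_le_of_nonempty hne
            (fun h => Λ (c h * D ^ p ^ h))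
          exact hle.trans_lt (k1 h hh)
      have heq : ‖Θ D - D‖ = ‖D‖ := by
        have h2 : ‖D - Θ D‖ = ‖D‖ := by
          have h3 := pw2_max D (Θ D)
          have h4 := IsUltrametricDist.norm_add_le_max (D - Θ D) (Θ D)
          rw [sub_add_cancel] at h4
          rw [max_eq_left hlt.le] at h3
          rcases le_max_iff.1 h4 with h5 | h5
          · exact le_antisymm h3 h5
          · exact absurd h5 (not_le.2 hlt)
        rw [norm_sub_rev]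
        exact h2
      rw [← heq]
      exact hb3
  -- final estimates
  have hsmall : ∀ h ≤ H, ‖D‖ ^ p ^ h ≤ R := by
    intro h hh
    rcases le_or_gt ‖D‖ 1 with h1 | h1
    · exact (pow_le_one₀ (norm_nonneg _) h1).trans hR.le
    · exact (pow_le_pow_right₀ h1.le (Nat.pow_le_pow_right hp.pos hh)).trans hD1
  have hCD : ‖C D‖ ≤ R := by
    have h1 := hsmall 0 (Nat.zero_le H)
    rw [pow_zero, pow_one] at h1
    exact (hCnorm D hDF).trans h1
  have hPD : ‖P D‖ ≤ R := by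
    refine IsUltrametricDist.norm_sum_le_of_forall_le_of_nonneg hR0 fun h hh => ?_
    have hh' := Nat.lt_succ_iff.1 (Finset.mem_range.1 hh)
    rw [norm_mul, norm_pow]
    calc ‖c h‖ * ‖D‖ ^ p ^ h ≤ 1 * ‖D‖ ^ p ^ h :=
          mul_le_mul_of_nonneg_right (hc1 h hh') (pow_nonneg (norm_nonneg _) _)
      _ = ‖D‖ ^ p ^ h := one_mul _
      _ ≤ R := hsmall h hh'
  have hfin : C S₀ - P S₀ - e = (C S - P S - e) - (C D - P D) := by
    rw [hSD, hCadd S₀ hS₀ D hDF, hPadd]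
    ring
  rw [hfin]
  refine (pw2_max _ _).trans (max_le hSn ?_)
  exact (pw2_max _ _).trans (max_le hCD hPD)

end MP1a953e
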