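import Pool.Agent.Lib.MP_1a953e_ag.Frob1
import Pool.Agent.Lib.MP_1a953e_ag.Frob2
import Pool.Agent.Lib.MP_1a953e_ag.PW2

/-!
# Module PW3: no immediate Artin-Schreier extension
-/

namespace MP1a953e

open Polynomial

variable {Ω : Type*} [NormedField Ω] [IsUltrametricDist Ω] {p : ℕ} [Fact p.Prime] [CharP Ω p]

omit [IsUltrametricDist Ω] in
/-- the trivial orthogonal basis -/
private theorem orthBasis_self (A : Subfield Ω) :
    OrthBasis A A (fun _ : Fin (0 + 1) => (1 : Ω)) where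
  le := le_rfl
  zero := rfl
  mem _ := A.one_mem
  ne _ := one_ne_zero
  span x hx := ⟨fun _ => x, fun _ => hx, by simp⟩
  orth c _ i := by
    have hi : i = 0 := Fin.fin_one_eq_zero i
    subst hi
    simp

private theorem sub_le_max (x y : Ω) : ‖x - y‖ ≤ max ‖x‖ ‖y‖ := by
  rw [sub_eq_add_neg, ← norm_neg y]
  exact IsUltrametricDist.norm_add_le_max _ _

omit [CharP Ω p] in
/-- `w ^ p - w` for large `w` -/
private theorem norm_as_of_one_lt {w : Ω} (hw : 1 < ‖w‖) : ‖w ^ p - w‖ = ‖w‖ ^ p := by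
  have hp : p.Prime := Fact.out
  have h1 : ‖w‖ < ‖w ^ p‖ := by
    rw [norm_pow]
    exact lt_self_pow₀ hw hp.one_lt
  rw [sub_eq_add_neg, IsUltrametricDist.norm_add_eq_max_of_norm_ne_norm
    (by rw [norm_neg]; exact h1.ne'), norm_neg, max_eq_left h1.le, norm_pow]

omit [IsUltrametricDist Ω] in
private theorem as_sub (z b : Ω) : (z - b) ^ p - (z - b) = z ^ p - z - (b ^ p - b) := by
  rw [sub_pow_char (p := p) z b]
  ring

/-- PW3.  `F` has no immediate Artin-Schreier extension.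

Proof. Suppose `z ∉ F`; let `K = adj F z`, `f = z ^ p - z ∈ F`.
(1) `‖z - b‖ > 1` for all `b ∈ F`: otherwise by immediacy there is `b ∈ F` with `‖z - b‖ < 1`;
`w = z - b` has `w ^ p - w ∈ F` of norm `‖w‖ < 1`, so by `as_small` `w ^ p - w = h ^ p - h` with
`h ∈ F`, `‖h‖ < 1`; `(w - h) ^ p = w - h` and `‖w - h‖ < 1` give `w = h ∈ F`.
(2) Let `r = infDist z F ≥ 1`. Then `r = 1`: suppose `r > 1` and choose `b ∈ F` with
`‖z - b‖ < r ^ p`. `f' = (z - b) ^ p - (z - b) ∈ F`; by `frob_orth` (`H = 1`)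
`f' = ∑ y i ^ p * θ i`, `y i ∈ F`, and
`(z - b - y 0) ^ p * θ 0 + ∑_{i ≠ 0} (- y i) ^ p * θ i = z - b`, so by orthogonality over `K`
`r ^ p ≤ ‖z - b - y 0‖ ^ p ≤ ‖z - b‖ < r ^ p`, a contradiction.
(3) For `R > 1` there is `b ∈ F` with `‖z - b‖ ^ p ≤ R`, and then
`‖f - (b ^ p - b)‖ = ‖(z - b) ^ p - (z - b)‖ = ‖z - b‖ ^ p ≤ R`. `propW` (with `A' = A`,
`F' = F`, `C = 0`, `H = 1`, `c 0 = -1`, `c 1 = 1`, `e = -f`) gives `S ∈ F` with
`‖f - (S ^ p - S)‖ ≤ 1`, so `‖z - S‖ ≤ 1`, contradicting (1). -/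
theorem as_stable {k0 k A F : Subfield Ω} (hA : Ab p k0 k A F) {z : Ω} (hz : z ^ p - z ∈ F)
    (hI : Imm F (adj F z)) : z ∈ F := by
  by_contra hzF
  have hp : p.Prime := Fact.out
  have hzK : z ∈ adj F z := mem_adj_self F z
  have hFK : F ≤ adj F z := le_adj F z
  -- (1)
  have h1 : ∀ b ∈ F, 1 < ‖z - b‖ := by
    intro b hb
    by_contra hle
    have hle' : ‖z - b‖ ≤ 1 := not_lt.1 hle
    have hne : z - b ≠ 0 := fun h => hzF (by rw [sub_eq_zero.1 h]; exact hb)
    obtain ⟨f, hf, hlt⟩ := hI.2 (z - b) ((adj F z).sub_mem hzK (hFK hb)) hne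
    obtain ⟨w, hwdef⟩ : ∃ w : Ω, w = z - (b + f) := ⟨_, rfl⟩
    have hw1 : ‖w‖ < 1 := by
      rw [hwdef, ← sub_sub]
      exact hlt.trans_le hle'
    have hbf : b + f ∈ F := F.add_mem hb hf
    have hwF : w ^ p - w ∈ F := by
      rw [hwdef, as_sub]
      exact F.sub_mem hz (F.sub_mem (F.pow_mem hbf p) hbf)
    have hwn : ‖w ^ p - w‖ < 1 := by
      refine lt_of_le_of_lt (sub_le_max _ _) (max_lt ?_ hw1)
      rw [norm_pow]
      exact pow_lt_one₀ (norm_nonneg _) hw1 hp.ne_zero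
    obtain ⟨h, hhF, hh1, hh⟩ := as_small hA.complete hwF hwn
    have hu1 : ‖w - h‖ < 1 := lt_of_le_of_lt (sub_le_max _ _) (max_lt hw1 hh1)
    have hu : (w - h) ^ p = w - h := by
      have h2 := as_sub (p := p) w h
      rw [← hh, sub_self] at h2
      exact sub_eq_zero.1 h2
    have hu0 : w - h = 0 := by
      by_contra hne0
      have h3 : ‖w - h‖ ^ p = ‖w - h‖ := by rw [← norm_pow, hu]
      have h4 : ‖w - h‖ ^ p < ‖w - h‖ :=
        pow_lt_self_of_lt_one₀ (norm_pos_iff.2 hne0) hu1 hp.one_lt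
      exact h4.ne h3
    apply hzF
    have h5 : z = h + (b + f) := by
      have h6 : w = h := sub_eq_zero.1 hu0
      rw [← h6, hwdef]
      ring
    rw [h5]
    exact F.add_mem hhF hbf
  -- (2)
  have hne : (F : Set Ω).Nonempty := ⟨0, F.zero_mem⟩
  have hr : Metric.infDist z (F : Set Ω) ≤ 1 := by
    by_contra hlt
    have hlt' : 1 < Metric.infDist z (F : Set Ω) := not_le.1 hlt
    obtain ⟨r, hrdef⟩ : ∃ r : ℝ, r = Metric.infDist z (F : Set Ω) := ⟨_, rfl⟩
    rw [← hrdef] at hlt'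
    have hrp : r < r ^ p := lt_self_pow₀ hlt' hp.one_lt
    obtain ⟨b, hb, hbr⟩ := (Metric.infDist_lt_iff hne).1 (hrdef ▸ hrp)
    rw [dist_eq_norm] at hbr
    have hbF : b ∈ F := hb
    have hf' : (z - b) ^ p - (z - b) ∈ F := by
      rw [as_sub]
      exact F.sub_mem hz (F.sub_mem (F.pow_mem hbF p) hbF)
    obtain ⟨d, θ, hθ0, hspan, horth⟩ := frob_orth hA hI 1
    obtain ⟨y, hy, hyf⟩ := hspan _ hf'
    rw [pow_one] at horth hyf
    have key : ∑ j, ((if j = 0 then (z - b) else 0) - y j) ^ p * θ j = z - b := by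
      have e1 : ∀ j, ((if j = 0 then (z - b) else 0) - y j) ^ p * θ j =
          (if j = 0 then (z - b) ^ p * θ 0 else 0) - y j ^ p * θ j := by
        intro j
        rw [sub_pow_char (p := p)]
        by_cases hj : j = 0
        · subst hj
          simp only [if_true]
          ring
        · simp only [if_neg hj]
          rw [zero_pow hp.ne_zero]
          ring
      rw [Finset.sum_congr rfl fun j _ => e1 j, Finset.sum_sub_distrib, ← hyf,
        Finset.sum_ite_eq' Finset.univ (0 : Fin (d + 1))]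
      simp only [Finset.mem_univ, if_true]
      rw [hθ0]
      ring
    have h2 := horth (fun j => (if j = 0 then (z - b) else 0) - y j) (by
      intro j
      refine (adj F z).sub_mem ?_ (hFK (hy j))
      by_cases hj : j = 0
      · rw [if_pos hj]
        exact (adj F z).sub_mem hzK (hFK hbF)
      · rw [if_neg hj]
        exact (adj F z).zero_mem) 0
    rw [key, hθ0, mul_one, norm_pow] at h2
    simp only [if_true] at h2
    have h3 : r ≤ ‖z - b - y 0‖ := by
      rw [hrdef, sub_sub, ← dist_eq_norm]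
      exact Metric.infDist_le_dist_of_mem (F.add_mem hbF (hy 0))
    have h4 : r ^ p ≤ ‖z - b - y 0‖ ^ p := pow_le_pow_left₀ (by linarith) h3 p
    have h5 : ‖z - b‖ < r ^ p := by rw [hrdef]; exact hbr
    linarith
  -- (3)
  have happ : ∀ R : ℝ, 1 < R →
      ∃ S ∈ F, ‖(0 : Ω) - ∑ h ∈ Finset.range (1 + 1), (if h = 0 then (-1 : Ω) else 1) *
        S ^ p ^ h - (-(z ^ p - z))‖ ≤ R := by
    intro R hR
    have hδ : 1 < R ^ ((p : ℝ)⁻¹) := Real.one_lt_rpow hR (by
      have := hp.pos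
      positivity)
    obtain ⟨b, hb, hbr⟩ := (Metric.infDist_lt_iff hne).1 (lt_of_le_of_lt hr hδ)
    rw [dist_eq_norm] at hbr
    have hbF : b ∈ F := hb
    refine ⟨b, hbF, ?_⟩
    have e1 : (0 : Ω) - ∑ h ∈ Finset.range (1 + 1), (if h = 0 then (-1 : Ω) else 1) *
        b ^ p ^ h - (-(z ^ p - z)) = (z - b) ^ p - (z - b) := by
      rw [as_sub, Finset.sum_range_succ, Finset.sum_range_one]
      simp
      ring
    rw [e1, norm_as_of_one_lt (h1 b hbF)]
    calc ‖z - b‖ ^ p ≤ (R ^ ((p : ℝ)⁻¹)) ^ p := pow_le_pow_left₀ (norm_nonneg _) hbr.le p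
      _ = R := Real.rpow_inv_natCast_pow (by linarith) hp.ne_zero
  obtain ⟨S, hS, hSn⟩ := propW hA hA (orthBasis_self A) le_rfl (fun _ => 0)
    (fun _ _ => F.zero_mem) (fun _ _ => A.zero_mem) (fun _ _ _ _ => by rw [add_zero])
    (fun _ _ _ _ => by rw [mul_zero]) (fun _ _ => by rw [norm_zero]; exact norm_nonneg _) 1 le_rfl
    (fun h => if h = 0 then (-1 : Ω) else 1)
    (fun h _ => by
      by_cases h0 : h = 0
      · simp only [if_pos h0]; exact A.neg_mem A.one_mem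
      · simp only [if_neg h0]; exact A.one_mem)
    (fun h _ => by
      by_cases h0 : h = 0
      · simp only [if_pos h0]; rw [norm_neg, norm_one]
      · simp only [if_neg h0]; rw [norm_one])
    (by simp) (-(z ^ p - z)) (F.neg_mem hz) happ
  have e1 : (0 : Ω) - ∑ h ∈ Finset.range (1 + 1), (if h = 0 then (-1 : Ω) else 1) *
      S ^ p ^ h - (-(z ^ p - z)) = (z - S) ^ p - (z - S) := by
    rw [as_sub, Finset.sum_range_succ, Finset.sum_range_one]
    simp
    ring
  rw [e1, norm_as_of_one_lt (h1 S hS)] at hSn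
  have h2 : 1 < ‖z - S‖ ^ p := one_lt_pow₀ (h1 S hS) hp.ne_zero
  linarith

end MP1a953e
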