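import Pool.Agent.Lib.MP_1a953e_ag.NF2
import Pool.Agent.Lib.MP_1a953e_ag.Lin1
import Pool.Agent.Lib.MP_1a953e_ag.Lin2
import Pool.Agent.Lib.MP_1a953e_ag.Frob3
import Pool.Agent.Lib.MP_1a953e_ag.PW3

/-!
# Module AS2: Artin-Schreier step, case 1
-/

namespace MP1a953e

open Polynomial

variable {Ω : Type*} [NormedField Ω] [IsUltrametricDist Ω] [IsAlgClosed Ω]
variable {p : ℕ} [Fact p.Prime] [CharP Ω p]

omit [IsUltrametricDist Ω] [IsAlgClosed Ω] in
/-- Values of polynomials with coefficients in a subfield. -/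
private theorem as2_eval_mem {F L : Subfield Ω} (hFL : F ≤ L) {h : Polynomial Ω}
    (hh : Coeffs F h) {x : Ω} (hx : x ∈ L) : h.eval x ∈ L := by
  rw [Polynomial.eval_eq_sum_range]
  exact L.sum_mem fun i _ => L.mul_mem (hFL (hh i)) (L.pow_mem hx i)

omit [IsUltrametricDist Ω] [IsAlgClosed Ω] in
private theorem as2_taylor_coeffs {F : Subfield Ω} {g : Polynomial Ω} (hg : Coeffs F g) {a : Ω}
    (ha : a ∈ F) : Coeffs F (taylor a g) := by
  intro n
  rw [Polynomial.taylor_coeff]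
  refine as2_eval_mem le_rfl (fun i => ?_) ha
  rw [Polynomial.hasseDeriv_coeff]
  exact F.mul_mem (natCast_mem F _) (hg _)

/-- AS2.  Case of the first alternative: here `z₁` is in `K' ⊔ F'`, `F' = rootField p m F`.
As in AS1, `z₂ = z₁ - w`, `w ∈ K' ⊔ F'`, satisfies `z₂ ^ p - z₂ = g a + u`,
`u = ∑ c j (T - a) ^ j ∈ K' ⊔ F'`, `‖u‖ ≤ 1`. As `K' ⊔ F'` is immediate over `F'` (`Imm.sup`),
there is `u₀ ∈ F'` with `‖u - u₀‖ < 1` (or `u = 0`); `K' ⊔ F'` is complete (`OrthBasis.sup`,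
`OrthBasis.complete`), so `u - u₀ = h ^ p - h` with `h ∈ K' ⊔ F'` (`as_small`). Then
`z₃ = z₂ - h` satisfies `z₃ ^ p - z₃ = g a + u₀ ∈ F'`, and `adj F' z₃ ≤ adj K' z₁ ⊔ F'` is immediate over
`F'`; `as_stable` for `F'` (`Ab.root`) gives `z₃ ∈ F'`. -/
theorem as_case_one {k0 k A F K' : Subfield Ω} (hA : Ab p k0 k A F)
    (hK' : IsComplete (K' : Set Ω)) {T : Ω} (m : ℕ)
    (hd : DenseIn (adj F T) K') {g : Polynomial Ω} (hg : Coeffs F g) (hm : 1 ≤ m)
    (hdeg : g.natDegree < p ^ m) {z₁ : Ω}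
    (hz : z₁ ^ p - z₁ = g.eval T) (hI : Imm F (adj K' z₁)) {a : Ω} (ha : a ∈ F)
    (hle : ∀ j ∈ J p m, ‖lam p m j (taylor a g)‖ * ‖T - a‖ ^ j ≤ 1) :
    z₁ ∈ K' ⊔ rootField p m F := by
  obtain ⟨d, θ, -, hθ⟩ := hA.root_ext m
  have hFK : F ≤ K' := (le_adj F T).trans hd.1
  have hTK : T ∈ K' := hd.1 (mem_adj_self F T)
  have hI' : Imm F K' := hI.mono hFK (le_adj K' z₁)
  have hFF' : F ≤ rootField p m F := hθ.le
  have hKL : K' ≤ K' ⊔ rootField p m F := le_sup_left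
  have hFL : rootField p m F ≤ K' ⊔ rootField p m F := le_sup_right
  have hLc : IsComplete ((K' ⊔ rootField p m F : Subfield Ω) : Set Ω) :=
    (OrthBasis.sup hI' hθ).complete hK'
  have hG := as2_taylor_coeffs hg ha
  obtain ⟨h, hh, -, hGe⟩ := nf m hm hG (by rwa [Polynomial.natDegree_taylor])
  have hTa : T - a ∈ K' := K'.sub_mem hTK (hFK ha)
  -- the element `w`
  obtain ⟨w, hw⟩ : ∃ w, w = h.eval (T - a) := ⟨_, rfl⟩
  have hwL : w ∈ K' ⊔ rootField p m F := by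
    rw [hw]
    exact as2_eval_mem hFL hh (hKL hTa)
  obtain ⟨u, hu⟩ : ∃ u, u = ∑ j ∈ J p m, lam p m j (taylor a g) * (T - a) ^ j := ⟨_, rfl⟩
  have huL : u ∈ K' ⊔ rootField p m F := by
    rw [hu]
    exact (K' ⊔ rootField p m F).sum_mem fun j _ =>
      (K' ⊔ rootField p m F).mul_mem (hFL (lam_mem m j hG)) (hKL (K'.pow_mem hTa j))
  have hu1 : ‖u‖ ≤ 1 := by
    rw [hu]
    refine IsUltrametricDist.norm_sum_le_of_forall_le_of_nonneg zero_le_one fun j hj => ?_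
    rw [norm_mul, norm_pow]
    exact hle j hj
  have hgT : g.eval T = g.eval a + u + (w ^ p - w) := by
    have h1 := congrArg (fun P : Polynomial Ω => P.eval (T - a)) hGe
    simp only [Polynomial.taylor_eval, sub_add_cancel, Polynomial.eval_add,
      Polynomial.eval_sub, Polynomial.eval_pow, Polynomial.eval_C, Polynomial.eval_finsetSum,
      Polynomial.eval_mul, Polynomial.eval_X, Polynomial.taylor_coeff_zero] at h1
    rw [h1, ← hw, ← hu]
  -- the approximation of `u`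
  have hIL : Imm (rootField p m F) (K' ⊔ rootField p m F) := Imm.sup hI' hθ
  obtain ⟨u₀, hu₀, huu⟩ : ∃ u₀ ∈ rootField p m F, ‖u - u₀‖ < 1 := by
    by_cases h0 : u = 0
    · refine ⟨0, Subfield.zero_mem _, ?_⟩
      rw [h0, sub_zero, norm_zero]
      exact zero_lt_one
    · obtain ⟨f, hf, hlt⟩ := hIL.2 u huL h0
      exact ⟨f, hf, hlt.trans_le hu1⟩
  obtain ⟨h', hh'L, -, hh'⟩ := as_small (p := p) hLc
    ((K' ⊔ rootField p m F).sub_mem huL (hFL hu₀)) huu
  have hz3 : (z₁ - w - h') ^ p - (z₁ - w - h') = g.eval a + u₀ := by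
    rw [sub_pow_char (p := p), sub_pow_char (p := p)]
    have h1 : z₁ ^ p = z₁ + (g.eval a + u + (w ^ p - w)) := by
      rw [← hgT, ← hz]
      ring
    have h2 : h' ^ p = h' + (u - u₀) := by
      rw [← hh']
      ring
    rw [h1, h2]
    ring
  have hM : ∀ x ∈ K' ⊔ rootField p m F, x ∈ adj K' z₁ ⊔ rootField p m F := fun x hx =>
    (sup_le_sup_right (le_adj K' z₁) (rootField p m F)) hx
  have hz3M : z₁ - w - h' ∈ adj K' z₁ ⊔ rootField p m F :=
    Subfield.sub_mem _ (Subfield.sub_mem _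
      ((le_sup_left : adj K' z₁ ≤ adj K' z₁ ⊔ rootField p m F) (mem_adj_self K' z₁))
      (hM w hwL)) (hM h' hh'L)
  have hI3 : Imm (rootField p m F) (adj (rootField p m F) (z₁ - w - h')) :=
    (Imm.sup hI hθ).mono (le_adj _ _) (adj_le le_sup_right hz3M)
  have hmem : z₁ - w - h' ∈ rootField p m F := by
    refine as_stable (hA.root m) ?_ hI3
    rw [hz3]
    exact Subfield.add_mem _ (hFF' (as2_eval_mem le_rfl hg ha)) hu₀
  have h4 : z₁ = (z₁ - w - h') + w + h' := by ring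
  rw [h4]
  exact Subfield.add_mem _ (Subfield.add_mem _ (hFL hmem) hwL) hh'L

end MP1a953e
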