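import Pool.Agent.Lib.MP_1a953e_ag.NF4
import Pool.Agent.Lib.MP_1a953e_ag.AS1
import Pool.Agent.Lib.MP_1a953e_ag.AS2
import Pool.Agent.Lib.MP_1a953e_ag.Calc3

/-!
# Module AS3: Artin-Schreier step
-/

namespace MP1a953e

open Polynomial

variable {Ω : Type*} [NormedField Ω] [IsUltrametricDist Ω] [IsAlgClosed Ω]
variable {p : ℕ} [Fact p.Prime] [CharP Ω p]

omit [IsUltrametricDist Ω] [IsAlgClosed Ω] in
private theorem as3_adj_sub (K : Subfield Ω) (z : Ω) {h : Ω} (hh : h ∈ K) :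
    adj K (z - h) = adj K z := by
  refine le_antisymm (adj_le (le_adj K z) ?_) (adj_le (le_adj K (z - h)) ?_)
  · exact (adj K z).sub_mem (mem_adj_self K z) (le_adj K z hh)
  · have h1 := (adj K (z - h)).add_mem (mem_adj_self K (z - h)) (le_adj K (z - h) hh)
    rwa [sub_add_cancel] at h1

/-- AS3 (Artin-Schreier step).  Proof: `f = z ^ p - z ∈ K'`; by density and `TT.poly_dense` there is a
polynomial `g` over `F` with `‖f - g T‖ < 1`; by `as_small` `f - g T = h ^ p - h`, `h ∈ K'`,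
`z₁ = z - h`, `adj K' z₁ = adj K' z`. Choose `m ≥ 1` with `deg g < p ^ m` and apply `key_est` and
`as_case_one` (then `adj K' z ⊔ F' = K' ⊔ F'`, and `Y = T` works, by `DenseIn.sup`), or
`as_case_two`. -/
theorem as_step {k0 k A F K' : Subfield Ω} (hA : Ab p k0 k A F) (hK' : IsComplete (K' : Set Ω))
    {T z : Ω} (hT : TT F T) (hTm : ∀ m, TT (rootField p m F) T) (hd : DenseIn (adj F T) K')
    (hz : z ^ p - z ∈ K') (hI : Imm F (adj K' z)) :
    ∃ m : ℕ, ∃ Y ∈ adj K' z ⊔ rootField p m F, Y ∉ rootField p m F ∧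
      DenseIn (adj (rootField p m F) Y) (adj K' z ⊔ rootField p m F) := by
  have hFK : F ≤ K' := (le_adj F T).trans hd.1
  have hTK : T ∈ K' := hd.1 (mem_adj_self F T)
  obtain ⟨x, hx, hx1⟩ := hd.2 _ hz 1 one_pos
  obtain ⟨g, hg, hg1⟩ := hT.poly_dense hx one_pos
  have hgK : g.eval T ∈ K' := by
    rw [Polynomial.eval_eq_sum_range]
    exact K'.sum_mem fun i _ => K'.mul_mem (hFK (hg i)) (K'.pow_mem hTK i)
  have hw1 : ‖z ^ p - z - g.eval T‖ < 1 := by
    have h1 : z ^ p - z - g.eval T = (z ^ p - z - x) + (x - g.eval T) := by ring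
    rw [h1]
    exact (IsUltrametricDist.norm_add_le_max _ _).trans_lt (max_lt hx1 hg1)
  obtain ⟨h, hh, -, hhw⟩ := as_small (p := p) hK' (K'.sub_mem hz hgK) hw1
  have hz1 : (z - h) ^ p - (z - h) = g.eval T := by
    rw [sub_pow_char (p := p)]
    have h2 : h ^ p = h + (z ^ p - z - g.eval T) := by
      rw [← hhw]
      ring
    rw [h2]
    ring
  have hadj : adj K' (z - h) = adj K' z := as3_adj_sub K' z hh
  obtain ⟨m, hm⟩ : ∃ m, m = g.natDegree + 1 := ⟨_, rfl⟩
  have hm1 : 1 ≤ m := by omega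
  have hdeg : g.natDegree < p ^ m := by
    have h3 := Nat.lt_pow_self (n := m) (Fact.out : p.Prime).one_lt
    omega
  obtain ⟨d, θ, -, hθ⟩ := hA.root_ext m
  rcases key_est hT hg m hm1 hdeg with ⟨a, ha, hle⟩ | ⟨a, ha, hc1, hlt⟩
  · have h1 := as_case_one hA hK' m hd hg hm1 hdeg hz1 (by rwa [hadj]) ha hle
    have h2 : adj K' z ⊔ rootField p m F = K' ⊔ rootField p m F := by
      refine le_antisymm (sup_le ?_ le_sup_right) (sup_le_sup_right (le_adj K' z) _)
      rw [← hadj]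
      exact adj_le le_sup_left h1
    refine ⟨m, T, ?_, ?_, ?_⟩
    · exact (le_sup_left : adj K' z ≤ adj K' z ⊔ rootField p m F) (le_adj K' z hTK)
    · intro hmem
      have h3 := (hTm m).pos
      rw [Metric.infDist_zero_of_mem hmem] at h3
      exact lt_irrefl _ h3
    · rw [h2]
      exact DenseIn.sup hd hθ
  · obtain ⟨Y, hY1, hY2, hY3⟩ := as_case_two hA (hI.mono hFK (le_adj K' z)) hT m (hTm m) hd hg hm1
      hdeg hz1 ha hc1 hlt
    rw [hadj] at hY1 hY3
    exact ⟨m, Y, hY1, hY2, hY3⟩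

end MP1a953e
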