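import Pool.Agent.Lib.MP_1a953e_ag.DPow

/-!
# Module DLamA: approximation of `lam` by a polynomial in a root
-/

namespace MP1a953e

open Polynomial

variable {Ω : Type*} [NormedField Ω] [IsUltrametricDist Ω]

/-- The polynomial `Ψ u` over `C` with `lam p M u (taylor a n) ≈ Ψ u (v)` if `v ^ (p ^ M) = a - a₀`. -/
noncomputable def Psi (p M u : ℕ) (a₀ : Ω) (n : Polynomial Ω) : Polynomial Ω :=
  ∑ i ∈ Finset.range M, ∑ k ∈ Finset.range (n.natDegree + 1),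
    C (rt p i ((hasseDeriv k (hasseDeriv (u * p ^ i) n)).eval a₀)) * X ^ (k * p ^ (M - i))

omit [IsUltrametricDist Ω] in
private theorem rt_pow_spec [IsAlgClosed Ω] {p : ℕ} (hp : p.Prime) (i : ℕ) (x : Ω) :
    rt p i x ^ p ^ i = x := by
  have h : ∃ y : Ω, y ^ p ^ i = x := IsAlgClosed.exists_pow_nat_eq x (pow_pos hp.pos i)
  unfold rt
  rw [dif_pos h]
  exact h.choose_spec

/-- LA1.  One summand.  Let `v ^ (p ^ M) = a - a₀`, `i < M`, `g` a polynomial of degree `≤ N` with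
`‖(hasseDeriv k g) a₀‖ * ‖a - a₀‖ ^ k ≤ B` for all `k`. Then
`‖rt p i (g a) - ∑_{k ≤ N} rt p i ((hasseDeriv k g) a₀) * v ^ (k * p ^ (M - i))‖ ^ (p ^ i) ≤ ‖p‖ * B`.
Proof: let `y k` be the summands: `y k ^ (p ^ i) = (hasseDeriv k g) a₀ * (a - a₀) ^ k`, of norm `≤ B`, and
their sum is `g a` (Taylor expansion), so `‖g a‖ ≤ B`. By `norm_sum_pow_sub_le`,
`(∑ y k) ^ (p ^ i) = g a` up to `‖p‖ * B`, and `(rt p i (g a)) ^ (p ^ i) = g a`; apply
`norm_sub_pow_le` with `e = ‖p‖ * B`. -/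
theorem rt_eval_close [IsAlgClosed Ω] {p : ℕ} (hp : p.Prime) {M i : ℕ} (hi : i < M)
    {g : Polynomial Ω} {N : ℕ} (hN : g.natDegree ≤ N) {a₀ a v : Ω} (hv : v ^ p ^ M = a - a₀)
    {B : ℝ} (hB : ∀ k, ‖(hasseDeriv k g).eval a₀‖ * ‖a - a₀‖ ^ k ≤ B) :
    ‖rt p i (g.eval a) - ∑ k ∈ Finset.range (N + 1),
      rt p i ((hasseDeriv k g).eval a₀) * v ^ (k * p ^ (M - i))‖ ^ p ^ i ≤ ‖(p : Ω)‖ * B := by
  classical
  have hq : 0 < p ^ i := pow_pos hp.pos i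
  have hB0 : 0 ≤ B := le_trans (by positivity) (hB 0)
  have hrt : ∀ x : Ω, rt p i x ^ p ^ i = x := rt_pow_spec hp i
  set y : ℕ → Ω := fun k => rt p i ((hasseDeriv k g).eval a₀) * v ^ (k * p ^ (M - i)) with hy
  have hpow : ∀ k, y k ^ p ^ i = (hasseDeriv k g).eval a₀ * (a - a₀) ^ k := by
    intro k
    simp only [hy]
    rw [mul_pow, hrt, ← pow_mul, mul_assoc, ← pow_add, Nat.sub_add_cancel hi.le, mul_comm k,
      pow_mul, hv]
  have hyB : ∀ k ∈ Finset.range (N + 1), ‖y k‖ ^ p ^ i ≤ B := by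
    intro k _
    rw [← norm_pow, hpow, norm_mul, norm_pow]
    exact hB k
  have hsum : ∑ k ∈ Finset.range (N + 1), y k ^ p ^ i = g.eval a := by
    have h1 : g.eval a = (taylor a₀ g).eval (a - a₀) := by
      rw [taylor_eval, sub_add_cancel]
    rw [h1, eval_eq_sum_range' (n := N + 1) (by rw [natDegree_taylor]; omega)]
    refine Finset.sum_congr rfl fun k _ => ?_
    rw [hpow, taylor_coeff]
  have hga : ‖g.eval a‖ ≤ B := by
    rw [← hsum]
    refine IsUltrametricDist.norm_sum_le_of_forall_le_of_nonneg hB0 fun k hk => ?_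
    rw [norm_pow]
    exact hyB k hk
  have hps : ‖(∑ k ∈ Finset.range (N + 1), y k) ^ p ^ i - g.eval a‖ ≤ ‖(p : Ω)‖ * B := by
    have h := norm_sum_pow_sub_le hp i (Finset.range (N + 1)) y hB0 hyB
    rwa [hsum] at h
  have hp1 : ‖(p : Ω)‖ ≤ 1 := IsUltrametricDist.norm_natCast_le_one Ω p
  have hpB : ‖(p : Ω)‖ * B ≤ B := mul_le_of_le_one_left hB0 hp1
  have hyS : ‖∑ k ∈ Finset.range (N + 1), y k‖ ^ p ^ i ≤ B := by
    rw [← norm_pow]
    have e : (∑ k ∈ Finset.range (N + 1), y k) ^ p ^ i =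
        ((∑ k ∈ Finset.range (N + 1), y k) ^ p ^ i - g.eval a) + g.eval a := by ring
    rw [e]
    exact (IsUltrametricDist.norm_add_le_max _ _).trans (max_le (hps.trans hpB) hga)
  refine norm_sub_pow_le hp i (B := B) ?_ hyS ?_ le_rfl
  · rw [← norm_pow, hrt]
    exact hga
  · rw [hrt, norm_sub_rev]
    exact hps

/-- LA2.  Let `R` be as in `TT.unif_all` for `n` and `t`, `‖t - a‖ ≤ ‖t - a₀‖ < R`,
`v ^ (p ^ M) = a - a₀`, `‖p‖ * ‖n t‖ ≤ η ^ (p ^ M)`. Then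
`‖lam p M u (taylor a n) - Ψ u (v)‖ * ‖t - a₀‖ ^ u ≤ η`.
Proof: it is enough to treat each `i < M`, with `g = hasseDeriv (u * p ^ i) n`
(`taylor_coeff`: `(taylor a n).coeff l = (hasseDeriv l n) a`). Let `B = ‖g t‖`,
`‖a - a₀‖ ≤ ‖t - a₀‖ < R`, so LA1 applies and
`(‖difference‖ * ‖t - a₀‖ ^ u) ^ (p ^ i) ≤ ‖p‖ * ‖g t‖ * ‖t - a₀‖ ^ (u * p ^ i) ≤ ‖p‖ * ‖n t‖ ≤
η ^ (p ^ M) ≤ η ^ (p ^ i)`. -/
theorem lam_close [IsAlgClosed Ω] {p : ℕ} (hp : p.Prime) {M u : ℕ} {t a₀ a v : Ω}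
    {n : Polynomial Ω} {R η : ℝ} (haR : ‖t - a₀‖ < R) (haa : ‖t - a‖ ≤ ‖t - a₀‖)
    (hv : v ^ p ^ M = a - a₀)
    (hR1 : ∀ i k, ‖(hasseDeriv k (hasseDeriv i n)).eval t‖ * R ^ k ≤ ‖(hasseDeriv i n).eval t‖)
    (hR2 : ∀ l, ‖(hasseDeriv l n).eval t‖ * R ^ l ≤ ‖n.eval t‖)
    (hR3 : ∀ i k, ‖(hasseDeriv k (hasseDeriv i n)).eval a₀‖ =
      ‖(hasseDeriv k (hasseDeriv i n)).eval t‖)
    (hη0 : 0 ≤ η) (hη1 : η ≤ 1) (hη : ‖(p : Ω)‖ * ‖n.eval t‖ ≤ η ^ p ^ M) :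
    ‖lam p M u (taylor a n) - (Psi p M u a₀ n).eval v‖ * ‖t - a₀‖ ^ u ≤ η := by
  classical
  set X : ℝ := ‖t - a₀‖ ^ u with hX
  have hX0 : 0 ≤ X := by positivity
  have hta : 0 ≤ ‖t - a₀‖ := norm_nonneg _
  have haa0 : ‖a - a₀‖ ≤ ‖t - a₀‖ := by
    have e : a - a₀ = (t - a₀) + (a - t) := by ring
    rw [e]
    refine (IsUltrametricDist.norm_add_le_max _ _).trans (max_le le_rfl ?_)
    rw [norm_sub_rev]
    exact haa
  have hdiff : lam p M u (taylor a n) - (Psi p M u a₀ n).eval v =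
      ∑ i ∈ Finset.range M, (rt p i ((hasseDeriv (u * p ^ i) n).eval a) -
        ∑ k ∈ Finset.range (n.natDegree + 1),
          rt p i ((hasseDeriv k (hasseDeriv (u * p ^ i) n)).eval a₀) * v ^ (k * p ^ (M - i))) := by
    rw [Finset.sum_sub_distrib]
    unfold lam Psi
    congr 1
    · refine Finset.sum_congr rfl fun i _ => ?_
      rw [taylor_coeff]
    · rw [eval_finsetSum]
      refine Finset.sum_congr rfl fun i _ => ?_
      rw [eval_finsetSum]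
      refine Finset.sum_congr rfl fun k _ => ?_
      rw [eval_mul, eval_C, eval_pow, eval_X]
  have hterm : ∀ i ∈ Finset.range M, ‖rt p i ((hasseDeriv (u * p ^ i) n).eval a) -
        ∑ k ∈ Finset.range (n.natDegree + 1),
          rt p i ((hasseDeriv k (hasseDeriv (u * p ^ i) n)).eval a₀) *
            v ^ (k * p ^ (M - i))‖ * X ≤ η := by
    intro i hi
    rw [Finset.mem_range] at hi
    have hq : 0 < p ^ i := pow_pos hp.pos i
    have h1 := rt_eval_close hp hi (g := hasseDeriv (u * p ^ i) n) (N := n.natDegree)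
      ((natDegree_hasseDeriv_le n _).trans (Nat.sub_le _ _)) hv
      (B := ‖(hasseDeriv (u * p ^ i) n).eval t‖) (fun k => by
        rw [hR3]
        refine le_trans (mul_le_mul_of_nonneg_left ?_ (norm_nonneg _)) (hR1 (u * p ^ i) k)
        exact pow_le_pow_left₀ (norm_nonneg _) (haa0.trans haR.le) k)
    set D : ℝ := ‖rt p i ((hasseDeriv (u * p ^ i) n).eval a) -
        ∑ k ∈ Finset.range (n.natDegree + 1),
          rt p i ((hasseDeriv k (hasseDeriv (u * p ^ i) n)).eval a₀) * v ^ (k * p ^ (M - i))‖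
      with hD
    have hD0 : 0 ≤ D := norm_nonneg _
    have h2 : (D * X) ^ p ^ i ≤ η ^ p ^ i := by
      rw [mul_pow, hX, ← pow_mul]
      calc D ^ p ^ i * ‖t - a₀‖ ^ (u * p ^ i) ≤
          (‖(p : Ω)‖ * ‖(hasseDeriv (u * p ^ i) n).eval t‖) * R ^ (u * p ^ i) :=
            mul_le_mul h1 (pow_le_pow_left₀ hta haR.le _) (by positivity) (by positivity)
        _ = ‖(p : Ω)‖ * (‖(hasseDeriv (u * p ^ i) n).eval t‖ * R ^ (u * p ^ i)) := by ring
        _ ≤ ‖(p : Ω)‖ * ‖n.eval t‖ := mul_le_mul_of_nonneg_left (hR2 _) (norm_nonneg _)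
        _ ≤ η ^ p ^ M := hη
        _ ≤ η ^ p ^ i := pow_le_pow_of_le_one hη0 hη1
            (Nat.pow_le_pow_right hp.pos hi.le)
    exact (pow_le_pow_iff_left₀ (mul_nonneg hD0 hX0) hη0 hq.ne').1 h2
  rw [hdiff]
  rcases hX0.eq_or_lt with h0 | h0
  · rw [← h0, mul_zero]
    exact hη0
  · rw [← le_div_iff₀ h0]
    refine IsUltrametricDist.norm_sum_le_of_forall_le_of_nonneg (by positivity) fun i hi => ?_
    rw [le_div_iff₀ h0]
    exact hterm i hi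

end MP1a953e
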