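import Pool.Agent.Lib.MP_1a953e_ag.DPow

/-!
# Module DNFA: one step of the normal form
-/

namespace MP1a953e

open Polynomial

variable {Ω : Type*} [NormedField Ω] [IsUltrametricDist Ω]

/-- NO1.  The `p ^ i`-th root of an element and the `p`-th power of its `p ^ (i + 1)`-st root agree
approximately: `u = (rt p (i+1) g) ^ p * x ^ (l * p)`, `v = rt p i g * x ^ (l * p)` satisfy
`u ^ (p ^ i) = v ^ (p ^ i) = g * x ^ (l * p ^ (i + 1))`, of norm `≤ B`, so by `norm_sub_pow_le` (with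
`e = ‖p‖ * B`) `‖u - v‖ ^ (p ^ i) ≤ ‖p‖ * B ≤ η ^ (p ^ M)`, hence `‖u - v‖ ≤ η`
(`i ≤ M`, `0 ≤ η ≤ 1`). -/
theorem rt_step [IsAlgClosed Ω] {p : ℕ} (hp : p.Prime) {M i l : ℕ} (hi : i ≤ M) {g x : Ω}
    {B η : ℝ} (hB : ‖g‖ * ‖x‖ ^ (l * p ^ (i + 1)) ≤ B) (hη0 : 0 ≤ η) (hη1 : η ≤ 1)
    (hη : ‖(p : Ω)‖ * B ≤ η ^ p ^ M) :
    ‖(rt p (i + 1) g * x ^ l) ^ p - rt p i g * x ^ (l * p)‖ ≤ η := by
  have hrt : ∀ t, rt p t g ^ p ^ t = g := by
    intro t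
    have hex : ∃ y : Ω, y ^ p ^ t = g := IsAlgClosed.exists_pow_nat_eq g (pow_pos hp.pos t)
    unfold rt
    rw [dif_pos hex]
    exact hex.choose_spec
  have h1 : ((rt p (i + 1) g * x ^ l) ^ p) ^ p ^ i = g * x ^ (l * p ^ (i + 1)) := by
    rw [← pow_mul, ← pow_succ', mul_pow, hrt, ← pow_mul]
  have h2 : (rt p i g * x ^ (l * p)) ^ p ^ i = g * x ^ (l * p ^ (i + 1)) := by
    rw [mul_pow, hrt, ← pow_mul]
    congr 2
    rw [pow_succ']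
    ring
  have hn : ‖g * x ^ (l * p ^ (i + 1))‖ ≤ B := by
    rw [norm_mul, norm_pow]
    exact hB
  have h3 := norm_sub_pow_le (Ω := Ω) hp i (x := (rt p (i + 1) g * x ^ l) ^ p)
    (y := rt p i g * x ^ (l * p)) (B := B) (e := ‖(p : Ω)‖ * B)
    (by rw [← norm_pow, h1]; exact hn) (by rw [← norm_pow, h2]; exact hn)
    (by
      rw [h1, h2, sub_self, norm_zero]
      exact mul_nonneg (norm_nonneg _) (le_trans (norm_nonneg _) hn)) le_rfl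
  have h4 : ‖(rt p (i + 1) g * x ^ l) ^ p - rt p i g * x ^ (l * p)‖ ^ p ^ i ≤ η ^ p ^ i :=
    (h3.trans hη).trans (pow_le_pow_of_le_one hη0 hη1 (Nat.pow_le_pow_right hp.pos hi))
  exact (pow_le_pow_iff_left₀ (norm_nonneg _) hη0 (pow_pos hp.pos i).ne').1 h4

end MP1a953e
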