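import Pool.Agent.Lib.MP_1a953e_ag.DNFA
import Pool.Agent.Lib.MP_1a953e_ag.DImmA

/-!
# Module DNFB: approximate normal form modulo `h ^ p - h`
-/

namespace MP1a953e

open Polynomial

variable {Ω : Type*} [NormedField Ω] [IsUltrametricDist Ω]

private theorem nfb_sum_pow_le {ι : Type*} (s : Finset ι) (x : ι → Ω) {n : ℕ} (hn : n ≠ 0) {B : ℝ}
    (hB0 : 0 ≤ B) (hB : ∀ i ∈ s, ‖x i‖ ^ n ≤ B) : ‖∑ i ∈ s, x i‖ ^ n ≤ B := by
  classical
  induction s using Finset.induction_on with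
  | empty =>
    rw [Finset.sum_empty, norm_zero, zero_pow hn]
    exact hB0
  | insert a s ha ih =>
    have ih1 := ih fun i hi => hB i (Finset.mem_insert_of_mem hi)
    have hxa := hB a (Finset.mem_insert_self a s)
    rw [Finset.sum_insert ha]
    rcases le_total ‖x a‖ ‖∑ i ∈ s, x i‖ with h | h
    · refine le_trans (pow_le_pow_left₀ (norm_nonneg _) ?_ _) ih1
      exact (IsUltrametricDist.norm_add_le_max _ _).trans (max_le h le_rfl)
    · refine le_trans (pow_le_pow_left₀ (norm_nonneg _) ?_ _) hxa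
      exact (IsUltrametricDist.norm_add_le_max _ _).trans (max_le le_rfl h)

private theorem nfb_sub_le {x y : Ω} {e : ℝ} (hx : ‖x‖ ≤ e) (hy : ‖y‖ ≤ e) : ‖x - y‖ ≤ e := by
  rw [sub_eq_add_neg]
  refine (IsUltrametricDist.norm_add_le_max _ _).trans (max_le hx ?_)
  rwa [norm_neg]

private theorem nfb_pow_le {b B : ℝ} (hb : 0 ≤ b) (hB : 1 ≤ B) {m n : ℕ} (hmn : m ≤ n)
    (h : b ^ n ≤ B) : b ^ m ≤ B := by
  rcases le_total b 1 with h1 | h1
  · exact (pow_le_one₀ hb h1).trans hB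
  · exact (pow_le_pow_right₀ h1 hmn).trans h

/-- NO2.  Approximate normal form.  Proof. For `l ≥ 1`, `i ≥ 0` let
`b l i = rt p i (G.coeff (l * p ^ i)) * x ^ l`; it is `0` if `l * p ^ i ≥ p ^ M` (`rt p i 0 = 0`).
Choose `H₀ ∈ C` with `H₀ ^ p - H₀ = G.coeff 0` (`exists_as_root`); `‖H₀‖ ^ p ≤ B` as `B ≥ 1`. Let
`h = C H₀ + ∑_{l = 1}^{p ^ M} C (∑_{i = 1}^{M} rt p i (G.coeff (l * p ^ i))) * X ^ l`, a polynomial over
`C` (`rt_mem_pow`), `h x = H₀ + ∑ b l i` (`l ≥ 1`, `1 ≤ i ≤ M`). Each term satisfies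
`‖b l i‖ ^ (p ^ i) = ‖G.coeff (l * p ^ i)‖ * ‖x‖ ^ (l * p ^ i) ≤ B`, hence `‖b l i‖ ^ p ≤ B`
(`B ≥ 1`), so `‖h x‖ ^ p ≤ B` and by `norm_sum_pow_sub_le`
`(h x) ^ p = H₀ ^ p + ∑ (b l i) ^ p` up to `‖p‖ * B ≤ η`. By NO1 `(b l i) ^ p = b (l * p) (i - 1)` up
to `η`. Hence up to `η`, `(h x) ^ p - h x = G.coeff 0 + ∑_{l ≥ 1, i ≥ 1} (b (l * p) (i - 1) - b l i)`,
`G x = G.coeff 0 + ∑_{l ≥ 1} b l 0`, and
`G x - ((h x) ^ p - h x) = ∑_{l ≥ 1, i ≥ 0} b l i - ∑_{p ∣ l, i ≥ 0} b l i = ∑_{p ∤ l, i ≥ 0} b l i`,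
which is `∑_{u ∈ J p M} lam p M u G * x ^ u`. -/
theorem normal_form [IsAlgClosed Ω] {p : ℕ} (hp : p.Prime) (hpn : ‖(p : Ω)‖ < 1)
    {C : Subfield Ω} (hC : IsAlgClosed C) {G : Polynomial Ω} (hG : Coeffs C G) {M : ℕ}
    (hdeg : G.natDegree < p ^ M) {x : Ω} {B η : ℝ} (hB1 : 1 ≤ B)
    (hB : ∀ l, ‖G.coeff l‖ * ‖x‖ ^ l ≤ B) (hη0 : 0 ≤ η) (hη1 : η < 1)
    (hη : ‖(p : Ω)‖ * B ≤ η ^ p ^ M) :
    ∃ h : Polynomial Ω, Coeffs C h ∧ ‖h.eval x‖ ^ p ≤ B ∧
      ‖G.eval x - ((h.eval x) ^ p - h.eval x) - ∑ u ∈ J p M, lam p M u G * x ^ u‖ ≤ η := by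
  classical
  have hB0 : 0 ≤ B := zero_le_one.trans hB1
  have hpM : 0 < p ^ M := pow_pos hp.pos M
  have hηpow : η ^ p ^ M ≤ η := by
    calc η ^ p ^ M ≤ η ^ 1 := pow_le_pow_of_le_one hη0 hη1.le hpM
      _ = η := pow_one η
  set b : ℕ → ℕ → Ω := fun l i => rt p i (G.coeff (l * p ^ i)) * x ^ l with hb
  have hrt : ∀ i l, (rt p i (G.coeff l)) ^ p ^ i = G.coeff l := fun i l =>
    (rt_mem_pow hC hp i (hG l)).2
  have hbpow : ∀ l i, ‖b l i‖ ^ p ^ i ≤ B := by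
    intro l i
    rw [hb, norm_mul, mul_pow, ← norm_pow, hrt, norm_pow, ← pow_mul]
    exact hB _
  have hb0 : ∀ l i, p ^ M ≤ l * p ^ i → b l i = 0 := by
    intro l i hli
    have h1 : G.coeff (l * p ^ i) = 0 := coeff_eq_zero_of_natDegree_lt (hdeg.trans_le hli)
    have h2 := hrt i (l * p ^ i)
    rw [h1] at h2
    have h3 : rt p i (0 : Ω) = 0 := eq_zero_of_pow_eq_zero h2
    simp only [hb, h1, h3, zero_mul]
  have hbstep : ∀ l i, i < M → ‖(b l (i + 1)) ^ p - b (l * p) i‖ ≤ η := by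
    intro l i hi
    have h1 := rt_step (Ω := Ω) hp (M := M) (i := i) (l := l) hi.le
      (g := G.coeff (l * p ^ (i + 1))) (x := x) (B := B) (η := η) (hB _) hη0 hη1.le hη
    have h2 : l * p ^ (i + 1) = l * p * p ^ i := by ring
    simp only [hb]
    rw [← h2]
    exact h1
  obtain ⟨H₀, hH₀C, hH₀⟩ := exists_as_root hC hp (hG 0)
  have hH₀B : ‖H₀‖ ^ p ≤ B := by
    rcases le_or_gt ‖H₀‖ 1 with h1 | h1
    · exact (pow_le_one₀ (norm_nonneg _) h1).trans hB1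
    · have h2 : ‖H₀‖ < ‖H₀ ^ p‖ := by
        rw [norm_pow]
        exact lt_self_pow₀ h1 hp.one_lt
      have h3 : ‖H₀ ^ p - H₀‖ = ‖H₀ ^ p‖ := by
        rw [sub_eq_add_neg, IsUltrametricDist.norm_add_eq_max_of_norm_ne_norm
          (by rw [norm_neg]; exact ne_of_gt h2), norm_neg]
        exact max_eq_left h2.le
      have h4 := hB 0
      rw [pow_zero, mul_one, ← hH₀, h3, norm_pow] at h4
      exact h4
  set s : Finset (ℕ × ℕ) := (Finset.Ico 1 (p ^ M)) ×ˢ (Finset.range M) with hs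
  set h : Polynomial Ω := Polynomial.C H₀ +
    ∑ q ∈ s, Polynomial.C (rt p (q.2 + 1) (G.coeff (q.1 * p ^ (q.2 + 1)))) * X ^ q.1 with hh
  have hhC : Coeffs C h := by
    intro n
    rw [hh, coeff_add, finset_sum_coeff]
    refine C.add_mem ?_ (C.sum_mem fun q _ => ?_)
    · rw [coeff_C]
      split_ifs
      · exact hH₀C
      · exact C.zero_mem
    · rw [coeff_C_mul_X_pow]
      split_ifs
      · exact (rt_mem_pow hC hp _ (hG _)).1
      · exact C.zero_mem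
  set A : Ω := ∑ q ∈ s, b q.1 (q.2 + 1) with hA
  have hhx : h.eval x = H₀ + A := by
    rw [hh, eval_add, eval_C, eval_finset_sum]
    simp only [eval_mul, eval_C, eval_pow, eval_X, hA, hb]
  have hterm : ∀ q : ℕ × ℕ, ‖b q.1 (q.2 + 1)‖ ^ p ≤ B := fun q =>
    nfb_pow_le (norm_nonneg _) hB1 (by
      calc p = p ^ 1 := (pow_one p).symm
        _ ≤ p ^ (q.2 + 1) := Nat.pow_le_pow_right hp.pos (by omega)) (hbpow q.1 (q.2 + 1))
  let F : Option (ℕ × ℕ) → Ω := fun o => o.elim H₀ fun q => b q.1 (q.2 + 1)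
  have hF : ∀ o, ‖F o‖ ^ p ≤ B := by
    rintro (_ | q)
    · exact hH₀B
    · exact hterm q
  have hFsum : ∑ o ∈ Finset.insertNone s, F o = H₀ + A := by
    rw [Finset.sum_insertNone]
    rfl
  have hFsum2 : ∑ o ∈ Finset.insertNone s, F o ^ p = H₀ ^ p + ∑ q ∈ s, (b q.1 (q.2 + 1)) ^ p := by
    rw [Finset.sum_insertNone]
    rfl
  have hhB : ‖h.eval x‖ ^ p ≤ B := by
    rw [hhx, ← hFsum]
    exact nfb_sum_pow_le _ F hp.ne_zero hB0 fun o _ => hF o
  have e1 : ‖(h.eval x) ^ p - (H₀ ^ p + ∑ q ∈ s, (b q.1 (q.2 + 1)) ^ p)‖ ≤ η := by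
    have h1 := norm_sum_pow_sub_le hp 1 (Finset.insertNone s) F hB0 (fun o _ => by
      rw [pow_one]
      exact hF o)
    rw [pow_one, hFsum, hFsum2, ← hhx] at h1
    exact h1.trans (hη.trans hηpow)
  have e2 : ‖∑ q ∈ s, (b q.1 (q.2 + 1)) ^ p - ∑ q ∈ s, b (q.1 * p) q.2‖ ≤ η := by
    rw [← Finset.sum_sub_distrib]
    refine IsUltrametricDist.norm_sum_le_of_forall_le_of_nonneg hη0 fun q hq => ?_
    rw [hs, Finset.mem_product, Finset.mem_range] at hq
    exact hbstep q.1 q.2 hq.2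
  -- the exact identity
  have hGx : G.eval x = G.coeff 0 + ∑ l ∈ Finset.Ico 1 (p ^ M), b l 0 := by
    rw [eval_eq_sum_range' hdeg x, Finset.range_eq_Ico, Finset.sum_eq_sum_Ico_succ_bot hpM]
    simp only [pow_zero, mul_one, zero_add]
    congr 1
    refine Finset.sum_congr rfl fun l _ => ?_
    have h1 := hrt 0 l
    simp only [pow_zero, pow_one] at h1
    simp only [hb, pow_zero, mul_one, h1]
  have hid : ∑ l ∈ Finset.Ico 1 (p ^ M), b l 0 + A - ∑ q ∈ s, b (q.1 * p) q.2 =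
      ∑ u ∈ J p M, lam p M u G * x ^ u := by
    -- the full sum
    have h1 : ∑ l ∈ Finset.Ico 1 (p ^ M), b l 0 + A =
        ∑ l ∈ Finset.Ico 1 (p ^ M), ∑ i ∈ Finset.range M, b l i := by
      rw [hA, hs, Finset.sum_product, ← Finset.sum_add_distrib]
      refine Finset.sum_congr rfl fun l hl => ?_
      have h2 : ∑ i ∈ Finset.range (M + 1), b l i = b l 0 + ∑ i ∈ Finset.range M, b l (i + 1) := by
        rw [Finset.sum_range_succ', add_comm]
      rw [← h2, Finset.sum_range_succ, hb0 l M, add_zero]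
      have h3 : 1 ≤ l := (Finset.mem_Ico.1 hl).1
      exact Nat.le_mul_of_pos_left _ h3
    have h2 : ∑ q ∈ s, b (q.1 * p) q.2 =
        ∑ l ∈ (Finset.Ico 1 (p ^ M)).filter (fun l => p ∣ l), ∑ i ∈ Finset.range M, b l i := by
      rw [hs, Finset.sum_product]
      have hinj : Set.InjOn (fun l : ℕ => l * p) (Finset.Ico 1 (p ^ M) : Finset ℕ) := by
        intro a _ c _ hac
        exact Nat.eq_of_mul_eq_mul_right hp.pos hac
      rw [← Finset.sum_image (s := Finset.Ico 1 (p ^ M)) (g := fun l : ℕ => l * p)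
        (f := fun l => ∑ i ∈ Finset.range M, b l i) hinj]
      symm
      apply Finset.sum_subset
      · intro l hl
        rw [Finset.mem_filter, Finset.mem_Ico] at hl
        obtain ⟨⟨hl1, hl2⟩, c, rfl⟩ := hl
        rw [Finset.mem_image]
        refine ⟨c, ?_, by ring⟩
        rw [Finset.mem_Ico]
        constructor
        · by_contra hc
          have : c = 0 := by omega
          rw [this, mul_zero] at hl1
          omega
        · exact lt_of_le_of_lt (Nat.le_mul_of_pos_left c hp.pos) hl2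
      · intro l hl hl'
        rw [Finset.mem_image] at hl
        obtain ⟨c, hc, rfl⟩ := hl
        rw [Finset.mem_Ico] at hc
        refine Finset.sum_eq_zero fun i _ => hb0 _ _ ?_
        have h3 : p ^ M ≤ c * p := by
          by_contra hlt
          rw [not_le] at hlt
          refine hl' ?_
          rw [Finset.mem_filter, Finset.mem_Ico]
          exact ⟨⟨Nat.mul_pos hc.1 hp.pos, hlt⟩, Dvd.intro_left c rfl⟩
        exact h3.trans (Nat.le_mul_of_pos_right _ (pow_pos hp.pos i))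
    have h3 : J p M = (Finset.Ico 1 (p ^ M)).filter (fun l => ¬ p ∣ l) := by
      ext l
      simp only [J, Finset.mem_filter, Finset.mem_range, Finset.mem_Ico]
      constructor
      · rintro ⟨ha, hc⟩
        refine ⟨⟨?_, ha⟩, hc⟩
        by_contra hl
        have : l = 0 := by omega
        rw [this] at hc
        exact hc (dvd_zero p)
      · rintro ⟨⟨_, ha⟩, hc⟩
        exact ⟨ha, hc⟩
    rw [h1, h2, h3, ← Finset.sum_filter_add_sum_filter_not (Finset.Ico 1 (p ^ M)) (fun l => p ∣ l),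
      add_sub_cancel_left]
    refine Finset.sum_congr rfl fun l _ => ?_
    simp only [lam, hb]
    rw [Finset.sum_mul]
  refine ⟨h, hhC, hhB, ?_⟩
  have e3 : G.eval x - ((h.eval x) ^ p - h.eval x) - ∑ u ∈ J p M, lam p M u G * x ^ u =
      -((h.eval x) ^ p - (H₀ ^ p + ∑ q ∈ s, (b q.1 (q.2 + 1)) ^ p)) -
        (∑ q ∈ s, (b q.1 (q.2 + 1)) ^ p - ∑ q ∈ s, b (q.1 * p) q.2) := by
    rw [← hid, hGx, ← hH₀]
    have h4 := hhx
    linear_combination h4
  rw [e3]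
  refine nfb_sub_le ?_ e2
  rw [norm_neg]
  exact e1

end MP1a953e
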