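import Pool.Agent.Lib.MP_1a953e_ag.DNFB
import Pool.Agent.Lib.MP_1a953e_ag.DCalc

/-!
# Module DOneA: the case `c₀ = 1`, `ρ = 1`: normal form
-/

namespace MP1a953e

open Polynomial

variable {Ω : Type*} [NormedField Ω] [IsUltrametricDist Ω]

omit [IsUltrametricDist Ω] in
private theorem donea_eval_mem {F : Subfield Ω} {g : Polynomial Ω} (hg : ∀ i, g.coeff i ∈ F)
    {a : Ω} (ha : a ∈ F) : g.eval a ∈ F := by
  rw [eval_eq_sum_range]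
  exact F.sum_mem fun i _ => F.mul_mem (hg i) (F.pow_mem ha i)

/-- ON1.  Starting point.  Proof: choose `v > 1` with `δ * v ^ (p - 1) < 1` and `‖p‖ * v ^ p < 1`, `g ∈ E` with
`‖z - g‖ < v`, `f₁ = z - g`, `1 < ‖f₁‖ < v`. By `hS.approx` there is `n₀ ∈ E` with
`‖f₁ ^ p - f₁ - n₀‖ < 1`, and by `hPD` a polynomial `n` over `C` with `‖f₁ ^ p - f₁ - n t‖ ≤ θ₀ < 1`.
`‖f₁ ^ p - f₁‖ = ‖f₁‖ ^ p > 1`, so `‖n t‖ = ‖f₁‖ ^ p`. Choose `M` with `n.natDegree < p ^ M` and then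
`η < 1` with `θ₀ ≤ η` and `‖p‖ * ‖f₁‖ ^ p ≤ η ^ (p ^ M)`, `0 < η`. -/
theorem one_start {p : ℕ} (hp : p.Prime) (hpn : ‖(p : Ω)‖ < 1) {C E : Subfield Ω} {t z : Ω}
    {δ : ℝ} (hPD : PD C t E) (hS : StepData C E p z 1 1 δ) :
    ∃ (f₁ : Ω) (n : Polynomial Ω) (M : ℕ) (η : ℝ), f₁ - z ∈ E ∧ Coeffs C n ∧
      n.natDegree < p ^ M ∧ 0 < η ∧ η < 1 ∧ ‖f₁ ^ p - f₁ - n.eval t‖ ≤ η ∧
      ‖n.eval t‖ = ‖f₁‖ ^ p ∧ 1 ≤ ‖n.eval t‖ ∧ ‖(p : Ω)‖ * ‖n.eval t‖ ≤ η ^ p ^ M := by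
  have hp1 : 1 < p := hp.one_lt
  -- the number v
  obtain ⟨v, hv1, hva, hvb⟩ : ∃ v : ℝ, 1 < v ∧ δ * v ^ (p - 1) < 1 ∧ ‖(p : Ω)‖ * v ^ p < 1 := by
    have c1 : Filter.Tendsto (fun v : ℝ => δ * v ^ (p - 1)) (nhdsWithin 1 (Set.Ioi 1))
        (nhds (δ * 1 ^ (p - 1))) :=
      ((continuous_const.mul (continuous_pow (p - 1))).tendsto (1 : ℝ)).mono_left
        nhdsWithin_le_nhds
    have c2 : Filter.Tendsto (fun v : ℝ => ‖(p : Ω)‖ * v ^ p) (nhdsWithin 1 (Set.Ioi 1))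
        (nhds (‖(p : Ω)‖ * 1 ^ p)) :=
      ((continuous_const.mul (continuous_pow p)).tendsto (1 : ℝ)).mono_left nhdsWithin_le_nhds
    rw [one_pow, mul_one] at c1 c2
    obtain ⟨v, h1, h2, h3⟩ := ((c1.eventually (gt_mem_nhds hS.δ1)).and
      ((c2.eventually (gt_mem_nhds hpn)).and self_mem_nhdsWithin)).exists
    exact ⟨v, h3, h1, h2⟩
  have hv0 : 0 ≤ v := by linarith
  obtain ⟨g, hgE, hgv⟩ := hS.near v hv1
  have hf1 : 1 < ‖z - g‖ := hS.lt g hgE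
  have hf0 : 0 ≤ ‖z - g‖ := norm_nonneg _
  have hsub : z - g - z ∈ E := by
    have e : z - g - z = -g := by ring
    rw [e]
    exact E.neg_mem hgE
  obtain ⟨n₀, hn₀E, hn₀⟩ := hS.approx (z - g) hsub
  rw [one_pow, one_mul, mul_one] at hn₀
  have hm1 : max (δ * ‖z - g‖ ^ (p - 1)) (‖(p : Ω)‖ * ‖z - g‖ ^ p) < 1 := by
    refine max_lt ?_ ?_
    · exact lt_of_le_of_lt (mul_le_mul_of_nonneg_left (pow_le_pow_left₀ hf0 hgv.le _) hS.δ0) hva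
    · exact lt_of_le_of_lt (mul_le_mul_of_nonneg_left (pow_le_pow_left₀ hf0 hgv.le _)
        (norm_nonneg _)) hvb
  obtain ⟨n, hnC, hn⟩ := hPD n₀ hn₀E (1 / 2) (by norm_num)
  set f₁ := z - g with hf₁
  have hθ : ‖f₁ ^ p - f₁ - n.eval t‖ ≤
      max (max (δ * ‖f₁‖ ^ (p - 1)) (‖(p : Ω)‖ * ‖f₁‖ ^ p)) (1 / 2) := by
    have e : f₁ ^ p - f₁ - n.eval t = (f₁ ^ p - f₁ - n₀) + (n₀ - n.eval t) := by ring
    rw [e]
    exact (IsUltrametricDist.norm_add_le_max _ _).trans (max_le_max hn₀ hn.le)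
  set θ₀ := max (max (δ * ‖f₁‖ ^ (p - 1)) (‖(p : Ω)‖ * ‖f₁‖ ^ p)) (1 / 2) with hθ₀
  have hθ1 : θ₀ < 1 := max_lt hm1 (by norm_num)
  have hθ0 : 0 < θ₀ := lt_of_lt_of_le (by norm_num) (le_max_right _ _)
  -- the norm of n t
  have hfp : ‖f₁‖ < ‖f₁‖ ^ p := by
    calc ‖f₁‖ = ‖f₁‖ ^ 1 := (pow_one _).symm
      _ < ‖f₁‖ ^ p := pow_lt_pow_right₀ hf1 hp1
  have hfp1 : 1 < ‖f₁‖ ^ p := hf1.trans hfp
  have hn1 : ‖n.eval t‖ = ‖f₁‖ ^ p := by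
    have e : n.eval t = f₁ ^ p + (-(f₁ + (f₁ ^ p - f₁ - n.eval t))) := by ring
    have hlt : ‖-(f₁ + (f₁ ^ p - f₁ - n.eval t))‖ < ‖f₁ ^ p‖ := by
      rw [norm_neg, norm_pow]
      refine (IsUltrametricDist.norm_add_le_max _ _).trans_lt (max_lt hfp ?_)
      exact hθ.trans_lt (hθ1.trans hfp1)
    rw [e]
    have h := IsUltrametricDist.norm_add_eq_max_of_norm_ne_norm (ne_of_gt hlt)
    rw [h, max_eq_left hlt.le, norm_pow]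
  -- the number η
  have hκ : ‖(p : Ω)‖ * ‖f₁‖ ^ p < 1 := lt_of_le_of_lt (le_max_right _ _) hm1
  obtain ⟨η, hη1, hη2⟩ : ∃ η ∈ Set.Ioo θ₀ 1,
      ‖(p : Ω)‖ * ‖f₁‖ ^ p < η ^ p ^ n.natDegree := by
    have c1 : Filter.Tendsto (fun η : ℝ => η ^ p ^ n.natDegree) (nhdsWithin 1 (Set.Iio 1))
        (nhds (1 ^ p ^ n.natDegree)) :=
      ((continuous_pow (p ^ n.natDegree)).tendsto (1 : ℝ)).mono_left nhdsWithin_le_nhds
    rw [one_pow] at c1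
    obtain ⟨η, h1, h2⟩ := ((c1.eventually (lt_mem_nhds hκ)).and (Ioo_mem_nhdsLT hθ1)).exists
    exact ⟨η, h2, h1⟩
  refine ⟨f₁, n, n.natDegree, η, hsub, hnC, Nat.lt_pow_self hp1, hθ0.trans hη1.1, hη1.2,
    hθ.trans hη1.1.le, hn1, ?_, ?_⟩
  · rw [hn1]
    exact hfp1.le
  · rw [hn1]
    exact hη2.le

/-- ON2.  Normal form at `a`.  Let `R` be as in `TT.unif_all`, `a ∈ C`, `‖t - a‖ < R`. Proof: `normal_form` for
`G = taylor a n`, `x = t - a`, `B = ‖n t‖` (`(taylor a n).coeff l = (hasseDeriv l n) a` has the norm of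
`(hasseDeriv l n) t`, `‖t - a‖ ^ l ≤ R ^ l`; `G x = n t`; `natDegree_taylor`) gives `h`;
`f = f₁ - h (t - a)`, which is in `z + E` since `t ∈ E`, `C ≤ E`; `f ^ p = f₁ ^ p - (h x) ^ p` up to
`‖p‖ * B ≤ η ^ (p ^ M) ≤ η` by `norm_sub_pow_sub_le`; `‖f‖ ^ p ≤ B`. -/
theorem one_form [IsAlgClosed Ω] {p : ℕ} (hp : p.Prime) (hpn : ‖(p : Ω)‖ < 1)
    {C E : Subfield Ω} (hC : IsAlgClosed C) (hCE : C ≤ E) {t z : Ω} (htE : t ∈ E)
    {f₁ : Ω} {n : Polynomial Ω} {M : ℕ} {η R : ℝ} (hf₁ : f₁ - z ∈ E) (hn : Coeffs C n)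
    (hdeg : n.natDegree < p ^ M) (hη0 : 0 < η) (hη1 : η < 1)
    (h1 : ‖f₁ ^ p - f₁ - n.eval t‖ ≤ η) (h2 : ‖n.eval t‖ = ‖f₁‖ ^ p) (h3 : 1 ≤ ‖n.eval t‖)
    (h4 : ‖(p : Ω)‖ * ‖n.eval t‖ ≤ η ^ p ^ M) {a : Ω} (ha : a ∈ C) (haR : ‖t - a‖ < R)
    (hR1 : ∀ l, ‖(hasseDeriv l n).eval t‖ * R ^ l ≤ ‖n.eval t‖)
    (hR2 : ∀ l, ‖(hasseDeriv l n).eval a‖ = ‖(hasseDeriv l n).eval t‖) :
    ∃ f : Ω, f - z ∈ E ∧ ‖f‖ ^ p ≤ ‖n.eval t‖ ∧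
      ‖f ^ p - f - ∑ u ∈ J p M, lam p M u (taylor a n) * (t - a) ^ u‖ ≤ η := by
  have hcoeff : ∀ l, (taylor a n).coeff l = (hasseDeriv l n).eval a := fun l => taylor_coeff a n l
  have hG : Coeffs C (taylor a n) := by
    intro l
    rw [hcoeff]
    refine donea_eval_mem (fun i => ?_) ha
    rw [hasseDeriv_coeff]
    exact C.mul_mem (natCast_mem C _) (hn _)
  have hB : ∀ l, ‖(taylor a n).coeff l‖ * ‖t - a‖ ^ l ≤ ‖n.eval t‖ := by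
    intro l
    rw [hcoeff, hR2 l]
    exact (mul_le_mul_of_nonneg_left (pow_le_pow_left₀ (norm_nonneg _) haR.le _)
      (norm_nonneg _)).trans (hR1 l)
  obtain ⟨h, hh, hhB, hhη⟩ := normal_form hp hpn hC hG (M := M) (x := t - a) (B := ‖n.eval t‖)
    (η := η) (by rw [natDegree_taylor]; exact hdeg) h3 hB hη0.le hη1 h4
  rw [taylor_eval_sub] at hhη
  have hf₁B : ‖f₁‖ ^ p ≤ ‖n.eval t‖ := h2.ge
  refine ⟨f₁ - h.eval (t - a), ?_, ?_, ?_⟩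
  · have e : f₁ - h.eval (t - a) - z = (f₁ - z) - h.eval (t - a) := by ring
    rw [e]
    exact E.sub_mem hf₁ (donea_eval_mem (fun i => hCE (hh i)) (E.sub_mem htE (hCE ha)))
  · have h5 : ‖f₁ - h.eval (t - a)‖ ≤ max ‖f₁‖ ‖h.eval (t - a)‖ := by
      rw [sub_eq_add_neg]
      refine (IsUltrametricDist.norm_add_le_max _ _).trans ?_
      rw [norm_neg]
    refine (pow_le_pow_left₀ (norm_nonneg _) h5 p).trans ?_
    rcases le_total ‖f₁‖ ‖h.eval (t - a)‖ with h6 | h6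
    · rw [max_eq_right h6]
      exact hhB
    · rw [max_eq_left h6]
      exact hf₁B
  · have e : (f₁ - h.eval (t - a)) ^ p - (f₁ - h.eval (t - a)) -
        ∑ u ∈ J p M, lam p M u (taylor a n) * (t - a) ^ u =
        ((f₁ - h.eval (t - a)) ^ p - (f₁ ^ p - (h.eval (t - a)) ^ p)) +
        ((f₁ ^ p - f₁ - n.eval t) + (n.eval t - ((h.eval (t - a)) ^ p - h.eval (t - a)) -
        ∑ u ∈ J p M, lam p M u (taylor a n) * (t - a) ^ u)) := by ring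
    rw [e]
    refine (IsUltrametricDist.norm_add_le_max _ _).trans (max_le ?_
      ((IsUltrametricDist.norm_add_le_max _ _).trans (max_le h1 hhη)))
    have h7 := norm_sub_pow_sub_le hp 1 (x := f₁) (y := h.eval (t - a)) (B := ‖n.eval t‖)
      (by rw [pow_one]; exact hf₁B) (by rw [pow_one]; exact hhB)
    rw [pow_one] at h7
    refine h7.trans (h4.trans ?_)
    exact pow_le_of_le_one hη0.le hη1.le (pow_pos hp.pos M).ne'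

end MP1a953e
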