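import Pool.Agent.Lib.MP_1a953e_ag.DPow

/-!
# Module DStepA: products modulo `p`
-/

namespace MP1a953e

open Polynomial

variable {Ω : Type*} [NormedField Ω] [IsUltrametricDist Ω]

private theorem dst_zmod {p : ℕ} [Fact p.Prime] :
    ∏ i ∈ Finset.range p, (X + C (i : ZMod p)) = (X ^ p - X : (ZMod p)[X]) := by
  have h1 : (X ^ p - X : (ZMod p)[X]).roots = Finset.univ.val := by
    have := FiniteField.roots_X_pow_card_sub_X (K := ZMod p)
    rwa [ZMod.card] at this
  have hdeg : (X ^ p - X : (ZMod p)[X]).natDegree = p :=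
    FiniteField.X_pow_card_sub_X_natDegree_eq (ZMod p) (Fact.out : p.Prime).one_lt
  have hmon : (X ^ p - X : (ZMod p)[X]).Monic := by
    apply monic_X_pow_sub
    rw [degree_X]
    exact_mod_cast (Fact.out : p.Prime).one_lt
  have h2 := prod_multiset_X_sub_C_of_monic_of_roots_card_eq hmon (by
    rw [h1, hdeg]
    simp [ZMod.card])
  rw [← h2, h1]
  change _ = ∏ a : ZMod p, (X - C a)
  refine Finset.prod_nbij' (fun i : ℕ => -(i : ZMod p)) (fun a : ZMod p => (-a).val) ?_ ?_ ?_ ?_ ?_
  · intro i _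
    exact Finset.mem_univ _
  · intro a _
    exact Finset.mem_range.2 (ZMod.val_lt _)
  · intro i hi
    simp only [neg_neg]
    exact ZMod.val_natCast_of_lt (Finset.mem_range.1 hi)
  · intro a _
    simp
  · intro i _
    simp

private theorem dst_int {p : ℕ} (hp : p.Prime) (j : ℕ) :
    (p : ℤ) ∣ (∏ i ∈ Finset.range p, (X + C (i : ℤ)) - (X ^ p - X) : ℤ[X]).coeff j := by
  have : Fact p.Prime := ⟨hp⟩
  rw [← ZMod.intCast_zmod_eq_zero_iff_dvd]
  have h0 : (∏ i ∈ Finset.range p, (X + C (i : ℤ)) : ℤ[X]).map (Int.castRingHom (ZMod p)) =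
      ∏ i ∈ Finset.range p, (X + C (i : ZMod p)) := by
    rw [Polynomial.map_prod]
    refine Finset.prod_congr rfl fun i _ => ?_
    rw [Polynomial.map_add, map_X, map_C]
    simp
  have h1 : (∏ i ∈ Finset.range p, (X + C (i : ℤ)) - (X ^ p - X) : ℤ[X]).map
      (Int.castRingHom (ZMod p)) = 0 := by
    rw [Polynomial.map_sub, h0, dst_zmod, Polynomial.map_sub, Polynomial.map_pow, map_X, sub_self]
  have h2 : ((∏ i ∈ Finset.range p, (X + C (i : ℤ)) - (X ^ p - X) : ℤ[X]).map
      (Int.castRingHom (ZMod p))).coeff j = 0 := by rw [h1, coeff_zero]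
  rw [coeff_map, eq_intCast] at h2
  exact h2

private theorem dst_deg (p : ℕ) (hp : 1 ≤ p) :
    (∏ i ∈ Finset.range p, (X + C (i : ℤ)) - (X ^ p - X) : ℤ[X]).natDegree ≤ p := by
  refine (natDegree_sub_le _ _).trans (max_le ?_ ?_)
  · refine (natDegree_prod_le _ _).trans ?_
    have h1 : ∀ i ∈ Finset.range p, (X + C (i : ℤ) : ℤ[X]).natDegree ≤ 1 :=
      fun i _ => (natDegree_X_add_C (i : ℤ)).le
    refine (Finset.sum_le_sum h1).trans ?_
    simp
  · refine (natDegree_sub_le _ _).trans (max_le (natDegree_X_pow_le p) ?_)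
    exact natDegree_X_le.trans hp

/-- ST1.  `∏_{i < p} (x + i * c) ≡ x ^ p - c ^ (p - 1) * x` modulo `p`. Proof: `∏_{i < p} (X + i) - (X ^ p - X)`
is a polynomial over `ℤ` of degree `≤ p` all of whose coefficients are divisible by `p` (reduce to
`ZMod p`: `∏_{a : ZMod p} (X - C a) = X ^ p - X`, see `FiniteField.prod_X_sub_C_eq` or
`FiniteField.X_pow_card_sub_X...`); if `c ≠ 0` evaluate at `x / c` and multiply by `c ^ p`: each term is
an integer divisible by `p` times `x ^ j * c ^ (p - j)`, `j ≤ p`. If `c = 0` both sides are `x ^ p`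
(`p ≥ 2`). -/
theorem prod_add_mul_sub_le {p : ℕ} (hp : p.Prime) (x c : Ω) {B : ℝ} (hx : ‖x‖ ≤ B)
    (hc : ‖c‖ ≤ B) :
    ‖∏ i ∈ Finset.range p, (x + (i : Ω) * c) - (x ^ p - c ^ (p - 1) * x)‖ ≤
      ‖(p : Ω)‖ * B ^ p := by
  have hB : 0 ≤ B := (norm_nonneg x).trans hx
  by_cases hc0 : c = 0
  · subst hc0
    have h0 : (0 : Ω) ^ (p - 1) = 0 := zero_pow (Nat.sub_ne_zero_of_lt hp.one_lt)
    simp only [mul_zero, add_zero, Finset.prod_const, Finset.card_range, h0, zero_mul, sub_zero,
      sub_self, norm_zero]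
    positivity
  · set P : ℤ[X] := ∏ i ∈ Finset.range p, (X + C (i : ℤ)) - (X ^ p - X) with hP
    have h1 : ∏ i ∈ Finset.range p, (x + (i : Ω) * c) - (x ^ p - c ^ (p - 1) * x) =
        c ^ p * (P.map (Int.castRingHom Ω)).eval (x / c) := by
      have h0 : (∏ i ∈ Finset.range p, (X + C (i : ℤ)) : ℤ[X]).map (Int.castRingHom Ω) =
          ∏ i ∈ Finset.range p, (X + C (i : Ω)) := by
        rw [Polynomial.map_prod]
        refine Finset.prod_congr rfl fun i _ => ?_
        rw [Polynomial.map_add, map_X, map_C]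
        simp
      rw [hP, Polynomial.map_sub, h0, Polynomial.map_sub, Polynomial.map_pow, map_X, eval_sub,
        eval_prod, mul_sub, eval_sub, eval_pow, eval_X]
      simp only [eval_add, eval_X, eval_C]
      congr 1
      · have h2 : c ^ p = ∏ _i ∈ Finset.range p, c := by
          rw [Finset.prod_const, Finset.card_range]
        rw [h2, ← Finset.prod_mul_distrib]
        refine Finset.prod_congr rfl fun i _ => ?_
        field_simp
      · have h2 : c ^ p = c ^ (p - 1) * c := by
          rw [← pow_succ, Nat.sub_add_cancel hp.one_lt.le]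
        rw [mul_sub, div_pow, mul_div_cancel₀ _ (pow_ne_zero p hc0), h2]
        field_simp
    rw [h1, eval_eq_sum_range' (n := p + 1), Finset.mul_sum]
    · refine IsUltrametricDist.norm_sum_le_of_forall_le_of_nonneg (by positivity) fun j hj => ?_
      rw [Finset.mem_range, Nat.lt_succ_iff] at hj
      rw [coeff_map]
      obtain ⟨m, hm⟩ := dst_int hp j
      rw [← hP] at hm
      rw [hm]
      have h3 : c ^ p * ((Int.castRingHom Ω) (↑p * m) * (x / c) ^ j) =
          (p : Ω) * ((m : Ω) * (x ^ j * c ^ (p - j))) := by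
        have h4 : c ^ p = c ^ (p - j) * c ^ j := by rw [← pow_add, Nat.sub_add_cancel hj]
        rw [h4, div_pow]
        simp only [map_mul, map_natCast, eq_intCast]
        field_simp
      rw [h3, norm_mul, norm_mul, norm_mul, norm_pow, norm_pow]
      apply mul_le_mul_of_nonneg_left _ (norm_nonneg _)
      have h5 : ‖x‖ ^ j * ‖c‖ ^ (p - j) ≤ B ^ p := by
        calc ‖x‖ ^ j * ‖c‖ ^ (p - j) ≤ B ^ j * B ^ (p - j) :=
              mul_le_mul (pow_le_pow_left₀ (norm_nonneg _) hx _)
                (pow_le_pow_left₀ (norm_nonneg _) hc _) (by positivity) (by positivity)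
          _ = B ^ p := by rw [← pow_add, Nat.add_sub_cancel' hj]
      calc ‖(m : Ω)‖ * (‖x‖ ^ j * ‖c‖ ^ (p - j)) ≤ 1 * B ^ p :=
            mul_le_mul (IsUltrametricDist.norm_intCast_le_one Ω m) h5 (by positivity) zero_le_one
        _ = B ^ p := one_mul _
    · exact Nat.lt_succ_of_le (natDegree_map_le.trans (dst_deg p hp.one_lt.le))

/-- ST2.  Comparison of two products of `n` factors (induction over the number of factors). -/
theorem prod_sub_prod_le (n : ℕ) (x y : ℕ → Ω) {B e : ℝ} (he : 0 ≤ e)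
    (hx : ∀ i < n, ‖x i‖ ≤ B) (hy : ∀ i < n, ‖y i‖ ≤ B) (hxy : ∀ i < n, ‖x i - y i‖ ≤ e) :
    ‖∏ i ∈ Finset.range n, x i - ∏ i ∈ Finset.range n, y i‖ ≤ e * B ^ (n - 1) := by
  induction n with
  | zero => simpa using he
  | succ n ih =>
    have ih' := ih (fun i hi => hx i (by omega)) (fun i hi => hy i (by omega))
      (fun i hi => hxy i (by omega))
    have hxn := hx n (by omega)
    have hB : 0 ≤ B := (norm_nonneg _).trans hxn
    rw [Finset.prod_range_succ, Finset.prod_range_succ, Nat.add_sub_cancel]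
    have h1 : (∏ i ∈ Finset.range n, x i) * x n - (∏ i ∈ Finset.range n, y i) * y n =
        (∏ i ∈ Finset.range n, x i - ∏ i ∈ Finset.range n, y i) * x n +
          (∏ i ∈ Finset.range n, y i) * (x n - y n) := by ring
    rw [h1]
    refine (IsUltrametricDist.norm_add_le_max _ _).trans (max_le ?_ ?_)
    · rcases Nat.eq_zero_or_pos n with h0 | h0
      · subst h0
        simpa using he
      · rw [norm_mul]
        calc ‖∏ i ∈ Finset.range n, x i - ∏ i ∈ Finset.range n, y i‖ * ‖x n‖
            ≤ (e * B ^ (n - 1)) * B := mul_le_mul ih' hxn (norm_nonneg _) (by positivity)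
          _ = e * B ^ n := by
              rw [mul_assoc, ← pow_succ, Nat.sub_add_cancel h0]
    · rw [norm_mul, mul_comm, norm_prod]
      apply mul_le_mul (hxy n (by omega)) _ (Finset.prod_nonneg fun _ _ => norm_nonneg _) he
      calc ∏ i ∈ Finset.range n, ‖y i‖ ≤ ∏ _i ∈ Finset.range n, B :=
            Finset.prod_le_prod (fun _ _ => norm_nonneg _)
              (fun i hi => hy i (by have := Finset.mem_range.1 hi; omega))
        _ = B ^ n := by rw [Finset.prod_const, Finset.card_range]

end MP1a953e
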