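import Pool.Agent.Lib.MP_1a953e_ag.DPow

/-!
# Module DTrace: no extensions of degree prime to `p`
-/

namespace MP1a953e

open Polynomial

variable {Ω : Type*} [NormedField Ω] [IsUltrametricDist Ω]

/-- TR1.  A finite separable extension `L/E` of degree `n` prime to `p` is trivial.
Proof: let `x ∈ L`, `x ≠ 0`, choose `c ∈ C` with `‖x - c‖ < ‖x‖` (so `‖c‖ = ‖x‖`). Every `E`-embedding
`σ : L → Ω` extends to an automorphism of `Ω` over `E` (`Ω` is algebraic over `E` and algebraically
closed), so `‖σ x - c‖ = ‖x - c‖ < ‖x‖`. The trace of `x` is the sum of the `n` elements `σ x`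
(`trace_eq_sum_embeddings`), so it differs from `n * c` by an element of norm `< ‖x‖`, and
`‖n * c‖ = ‖x‖` (`norm_natCast_eq_one`): the trace is not zero. So the `E`-linear map
`Algebra.trace E L : L → E` is injective and `[L : E] = 1`. (Compare GP6.) -/
theorem trace_bot [IsAlgClosed Ω] {p : ℕ} (hp : p.Prime) (hpn : ‖(p : Ω)‖ < 1) {C E : Subfield Ω}
    (him : ImmAll C) (hCE : C ≤ E) (hE : Cj E) (L : IntermediateField E Ω)
    [FiniteDimensional E L] [Algebra.IsSeparable E L] (hdeg : ¬ p ∣ Module.finrank E L) :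
    L = ⊥ := by
  classical
  have halgE : Algebra.IsAlgebraic E Ω := ⟨hE.alg⟩
  have hclE : IsAlgClosure E Ω := ⟨inferInstance, halgE⟩
  have hnormal : Normal E Ω := IsAlgClosure.normal E Ω
  have hconj : ∀ (τ : L →ₐ[E] Ω) (x : L) (c : Ω), c ∈ E → ‖τ x - c‖ = ‖(x : Ω) - c‖ := by
    intro τ x c hc
    have h1 : IsConjRoot E (x : Ω) (τ x) := by
      show minpoly E (x : Ω) = minpoly E (τ x)
      rw [minpoly.algHom_eq τ τ.injective x]
      exact minpoly.algHom_eq L.val L.val.injective x
    obtain ⟨σ, hσ⟩ := isConjRoot_iff_exists_algEquiv.1 h1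
    have h2 : σ c = c := σ.commutes ⟨c, hc⟩
    have h3 : σ (τ x) = (x : Ω) := hσ
    rw [← hE.iso σ (τ x - c), map_sub, h2, h3]
  have hm1 : ‖((Module.finrank E L : ℕ) : Ω)‖ = 1 := norm_natCast_eq_one hp hpn hdeg
  have htr : ∀ x : L, x ≠ 0 → Algebra.trace E L x ≠ 0 := by
    intro x hx htr0
    have hx0 : (x : Ω) ≠ 0 := fun h => hx (Subtype.ext h)
    obtain ⟨c, hc, hxc⟩ := him (x : Ω) hx0
    have hcn : ‖c‖ = ‖(x : Ω)‖ := by
      have h1 : c = (x : Ω) + -((x : Ω) - c) := by ring
      rw [h1, IsUltrametricDist.norm_add_eq_max_of_norm_ne_norm (by rw [norm_neg]; exact hxc.ne'),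
        norm_neg, max_eq_left hxc.le]
    have h1 := trace_eq_sum_embeddings Ω (K := E) (L := L) (x := x)
    rw [htr0, map_zero] at h1
    have h2 : ∑ τ : L →ₐ[E] Ω, τ x = ∑ τ : L →ₐ[E] Ω, (τ x - c) +
        ((Module.finrank E L : ℕ) : Ω) * c := by
      rw [Finset.sum_sub_distrib, Finset.sum_const, Finset.card_univ, AlgHom.card, nsmul_eq_mul,
        sub_add_cancel]
    have h3 : ‖∑ τ : L →ₐ[E] Ω, (τ x - c)‖ < ‖(x : Ω)‖ := by
      refine Finset.sum_induction _ (fun z => ‖z‖ < ‖(x : Ω)‖) ?_ ?_ ?_
      · intro a b ha hb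
        exact lt_of_le_of_lt (IsUltrametricDist.norm_add_le_max a b) (max_lt ha hb)
      · rw [norm_zero]
        exact norm_pos_iff.2 hx0
      · intro τ _
        rw [hconj τ x c (hCE hc)]
        exact hxc
    have h4 : ‖((Module.finrank E L : ℕ) : Ω) * c‖ = ‖(x : Ω)‖ := by
      rw [norm_mul, hm1, one_mul, hcn]
    have h5 : ((Module.finrank E L : ℕ) : Ω) * c = -∑ τ : L →ₐ[E] Ω, (τ x - c) := by
      rw [← h1] at h2
      exact eq_neg_of_add_eq_zero_right h2.symm
    rw [h5, norm_neg] at h4
    exact h3.ne h4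
  have hinj : Function.Injective (Algebra.trace E L) := by
    rw [injective_iff_map_eq_zero]
    intro x hx
    by_contra hne
    exact htr x hne hx
  have hfr : Module.finrank E L ≤ 1 := by
    have h1 := LinearMap.finrank_le_finrank_of_injective hinj
    rwa [Module.finrank_self] at h1
  have hfr1 : Module.finrank E L = 1 := le_antisymm hfr Module.finrank_pos
  exact IntermediateField.finrank_eq_one_iff.1 hfr1

/-- TR2.  Roots of polynomials of degree `< p` over `E` are in `E`. Proof: let `d` be the degree of the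
minimal polynomial `m` of `β` over `E`, `1 ≤ d < p`. It is separable: its derivative has leading
coefficient `d`, of norm `1` by `norm_natCast_eq_one`, so it is not zero
(`Polynomial.separable_iff_derivative_ne_zero`). Apply TR1 to `IntermediateField.adjoin E {β}`,
separable of degree `d`. -/
theorem mem_of_root_lt [IsAlgClosed Ω] {p : ℕ} (hp : p.Prime) (hpn : ‖(p : Ω)‖ < 1)
    {C E : Subfield Ω} (him : ImmAll C) (hCE : C ≤ E) (hE : Cj E) {g : Polynomial Ω}
    (hg : Coeffs E g) (hg0 : g ≠ 0) (hdeg : g.natDegree < p) {β : Ω} (hβ : g.eval β = 0) :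
    β ∈ E := by
  have halg := hE.alg β
  have hint : IsIntegral E β := halg.isIntegral
  -- the polynomial over `E`
  obtain ⟨g', hg'⟩ : ∃ g' : Polynomial E, g'.map (algebraMap E Ω) = g := by
    have h1 : g ∈ Polynomial.lifts (algebraMap E Ω) := by
      rw [Polynomial.lifts_iff_coeff_lifts]
      intro n
      exact ⟨⟨g.coeff n, hg n⟩, rfl⟩
    exact (Polynomial.mem_lifts g).1 h1
  have hg'0 : g' ≠ 0 := by
    intro h
    apply hg0
    rw [← hg', h, Polynomial.map_zero]
  have hd : (minpoly E β).natDegree < p := by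
    have h1 : Polynomial.aeval β g' = 0 := by
      rw [Polynomial.aeval_def, ← Polynomial.eval_map, hg', hβ]
    have h2 := Polynomial.natDegree_le_of_dvd (minpoly.dvd E β h1) hg'0
    have h3 : g'.natDegree = g.natDegree := by
      rw [← hg', Polynomial.natDegree_map]
    omega
  have hd0 : 0 < (minpoly E β).natDegree := minpoly.natDegree_pos hint
  have hndvd : ¬ p ∣ (minpoly E β).natDegree := fun h => by
    have := Nat.le_of_dvd hd0 h
    omega
  have hsep : IsSeparable E β := by
    have hirr := minpoly.irreducible hint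
    rw [IsSeparable, Polynomial.separable_iff_derivative_ne_zero hirr]
    intro hder
    have h1 : (Polynomial.derivative (minpoly E β)).coeff ((minpoly E β).natDegree - 1) = 0 := by
      rw [hder, Polynomial.coeff_zero]
    rw [Polynomial.coeff_derivative] at h1
    have h2 : (minpoly E β).natDegree - 1 + 1 = (minpoly E β).natDegree := by omega
    rw [h2] at h1
    have h3 : (minpoly E β).coeff (minpoly E β).natDegree = 1 := minpoly.monic hint
    rw [h3, one_mul] at h1
    have h4 : ((((minpoly E β).natDegree - 1 : ℕ) : E) + 1) =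
        (((minpoly E β).natDegree : ℕ) : E) := by
      rw [← Nat.cast_one (R := E), ← Nat.cast_add, h2]
    rw [h4] at h1
    have h5 := norm_natCast_eq_one (Ω := Ω) hp hpn hndvd
    have h6 : (((minpoly E β).natDegree : ℕ) : Ω) = 0 := by
      have h7 := congrArg (algebraMap E Ω) h1
      rwa [map_natCast, map_zero] at h7
    rw [h6, norm_zero] at h5
    exact zero_ne_one h5
  have hfd : FiniteDimensional E (IntermediateField.adjoin E {β}) :=
    IntermediateField.adjoin.finiteDimensional hint
  have hsep' : Algebra.IsSeparable E (IntermediateField.adjoin E {β}) :=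
    (IntermediateField.isSeparable_adjoin_simple_iff_isSeparable E Ω).2 hsep
  have hbot := trace_bot hp hpn him hCE hE (IntermediateField.adjoin E {β}) (by
    rw [IntermediateField.adjoin.finrank hint]
    exact hndvd)
  have hmem := IntermediateField.mem_adjoin_simple_self E β
  rw [hbot, IntermediateField.mem_bot] at hmem
  obtain ⟨y, hy⟩ := hmem
  rw [← hy]
  exact y.2

end MP1a953e
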