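import Pool.Agent.Lib.MP_1a953e_ag.DCalc
import Pool.Agent.Lib.MP_1a953e_ag.DImmA

/-!
# Module DZeroA: the case `c₀ = 0`, preparation
-/

namespace MP1a953e

open Polynomial

variable {Ω : Type*} [NormedField Ω] [IsUltrametricDist Ω]

omit [IsUltrametricDist Ω] in
private theorem dzeroA_eval_mem {F : Subfield Ω} {g : Polynomial Ω} (hg : Coeffs F g) {a : Ω}
    (ha : a ∈ F) : g.eval a ∈ F := by
  rw [eval_eq_sum_range]
  exact F.sum_mem fun i _ => F.mul_mem (hg i) (F.pow_mem ha _)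

omit [IsUltrametricDist Ω] in
private theorem dzeroA_coeffs_hasseDeriv {F : Subfield Ω} {g : Polynomial Ω} (hg : Coeffs F g)
    (q : ℕ) : Coeffs F (hasseDeriv q g) := by
  intro i
  rw [hasseDeriv_coeff]
  exact F.mul_mem (natCast_mem F _) (hg _)

/-- ZE1.  Starting point: there are `θ₀ < 1`, `f₁ ∈ z + E` and a polynomial `n` over `C` with
`‖f₁ ^ p - n t‖ ≤ θ₀ * ρ ^ p`, `‖p‖ * ‖f₁‖ ^ p ≤ θ₀ * ρ ^ p`.
Proof: the functions `δ * ρ * v ^ (p - 1)` and `‖p‖ * v ^ p` of `v` are continuous and have values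
`< ρ ^ p` at `v = ρ`; so for suitable `θ₀ < 1` and `v > ρ` both are `≤ θ₀ * ρ ^ p` on `[ρ, v]` (e.g. let
`θ₁ = max δ ‖p‖ < 1`, `θ₀ = (1 + θ₁) / 2` and `v = ρ * s` with `s > 1`, `θ₁ * s ^ p ≤ θ₀`). Take
`f₁ = z - g` with `‖f₁‖ < v` (`hS.near`), `n₀ ∈ E` from `hS.approx` (`0 ^ (p - 1) = 0`), and a
polynomial value `n t` close to `n₀` (`hPD`). -/
theorem zero_start {p : ℕ} (hp : p.Prime) (hpn : ‖(p : Ω)‖ < 1) {C E : Subfield Ω} {t z : Ω}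
    {ρ δ : ℝ} (hPD : PD C t E) (hS : StepData C E p z ρ 0 δ) :
    ∃ θ₀ : ℝ, 0 < θ₀ ∧ θ₀ < 1 ∧ ∃ f₁ : Ω, f₁ - z ∈ E ∧ ∃ n : Polynomial Ω, Coeffs C n ∧
      ‖f₁ ^ p - n.eval t‖ ≤ θ₀ * ρ ^ p ∧ ‖(p : Ω)‖ * ‖f₁‖ ^ p ≤ θ₀ * ρ ^ p := by
  have hρ0 : 0 < ρ := hS.pos
  have hp1 : 1 ≤ p := hp.one_lt.le
  have hp1' : p - 1 ≠ 0 := by
    have := hp.two_le
    omega
  set θ₁ : ℝ := max δ ‖(p : Ω)‖ with hθ₁
  have hθ₁1 : θ₁ < 1 := max_lt hS.δ1 hpn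
  have hθ₁0 : 0 ≤ θ₁ := hS.δ0.trans (le_max_left _ _)
  set θ₀ : ℝ := (1 + θ₁) / 2 with hθ₀
  have hθ₀0 : 0 < θ₀ := by
    rw [hθ₀]
    linarith
  have hθ₀1 : θ₀ < 1 := by
    rw [hθ₀]
    linarith
  have hθ₁₀ : θ₁ < θ₀ := by
    rw [hθ₀]
    linarith
  have hρp : 0 < ρ ^ p := pow_pos hρ0 p
  have hcont : Continuous fun v : ℝ => θ₁ * v ^ p := by fun_prop
  have hev1 : ∀ᶠ v in nhdsWithin ρ (Set.Ioi ρ), θ₁ * v ^ p < θ₀ * ρ ^ p :=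
    ((hcont.tendsto ρ).eventually_lt_const
      (mul_lt_mul_of_pos_right hθ₁₀ hρp)).filter_mono nhdsWithin_le_nhds
  obtain ⟨v, hv1, hv2⟩ := (hev1.and self_mem_nhdsWithin).exists
  have hv2' : ρ < v := hv2
  obtain ⟨g, hg, hzg⟩ := hS.near v hv2'
  have hρf : ρ < ‖z - g‖ := hS.lt g hg
  have hfz : z - g - z ∈ E := by
    have : z - g - z = -g := by ring
    rw [this]
    exact E.neg_mem hg
  obtain ⟨n₀, hn₀, h1⟩ := hS.approx (z - g) hfz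
  have hfv : ‖z - g‖ ^ p ≤ v ^ p := pow_le_pow_left₀ (norm_nonneg _) hzg.le _
  have hb1 : δ * ρ * ‖z - g‖ ^ (p - 1) ≤ θ₀ * ρ ^ p := by
    calc δ * ρ * ‖z - g‖ ^ (p - 1) = δ * (‖z - g‖ ^ (p - 1) * ρ) := by ring
      _ ≤ θ₁ * (‖z - g‖ ^ (p - 1) * ‖z - g‖) := by
          refine mul_le_mul (le_max_left _ _) ?_ (by positivity) hθ₁0
          exact mul_le_mul_of_nonneg_left hρf.le (by positivity)
      _ = θ₁ * ‖z - g‖ ^ p := by rw [← pow_succ, Nat.sub_add_cancel hp1]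
      _ ≤ θ₁ * v ^ p := mul_le_mul_of_nonneg_left hfv hθ₁0
      _ ≤ θ₀ * ρ ^ p := hv1.le
  have hb2 : ‖(p : Ω)‖ * ‖z - g‖ ^ p ≤ θ₀ * ρ ^ p := by
    calc ‖(p : Ω)‖ * ‖z - g‖ ^ p ≤ θ₁ * v ^ p :=
          mul_le_mul (le_max_right _ _) hfv (by positivity) hθ₁0
      _ ≤ θ₀ * ρ ^ p := hv1.le
  obtain ⟨n, hn, h2⟩ := hPD n₀ hn₀ (θ₀ * ρ ^ p) (by positivity)
  refine ⟨θ₀, hθ₀0, hθ₀1, z - g, hfz, n, hn, ?_, hb2⟩
  rw [zero_pow hp1', zero_mul, sub_zero] at h1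
  have e1 : (z - g) ^ p - n.eval t = ((z - g) ^ p - n₀) + (n₀ - n.eval t) := by ring
  rw [e1]
  exact (IsUltrametricDist.norm_add_le_max _ _).trans
    (max_le (h1.trans (max_le hb1 hb2)) h2.le)

/-- ZE2.  Removing the `p`-th powers. Let `n` be a polynomial over `C`, `R` as in `TT.unif_all`, `a ∈ C` with
`‖t - a‖ < R`. There is `h ∈ E` (the value at `t` of a polynomial over `C`) with `‖h‖ ^ p ≤ ‖n t‖` and
`‖h ^ p - ∑_{p ∣ l} (hasseDeriv l n) a * (t - a) ^ l‖ ≤ ‖p‖ * ‖n t‖`. Proof: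
`h = ∑_k rt p 1 ((hasseDeriv (p * k) n) a) * (t - a) ^ k`, the `p`-th power of each term is
`(hasseDeriv (p * k) n) a * (t - a) ^ (p * k)` (`rt_mem_pow`), of norm `≤ ‖n t‖` by the assumptions
`hR1`, `hR2`; use `norm_sum_pow_sub_le` with exponent `p ^ 1`. -/
theorem zero_remove [IsAlgClosed Ω] {p : ℕ} (hp : p.Prime) {C E : Subfield Ω}
    (hC : IsAlgClosed C) (hCE : C ≤ E) {t : Ω} (htE : t ∈ E) {n : Polynomial Ω}
    (hn : Coeffs C n) {R : ℝ} {a : Ω} (ha : a ∈ C) (haR : ‖t - a‖ < R)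
    (hR1 : ∀ l, ‖(hasseDeriv l n).eval t‖ * R ^ l ≤ ‖n.eval t‖)
    (hR2 : ∀ l, ‖(hasseDeriv l n).eval a‖ = ‖(hasseDeriv l n).eval t‖) :
    ∃ h ∈ E, ‖h‖ ^ p ≤ ‖n.eval t‖ ∧
      ‖h ^ p - ∑ l ∈ (Finset.range (n.natDegree + 1)).filter (fun l => p ∣ l),
        (hasseDeriv l n).eval a * (t - a) ^ l‖ ≤ ‖(p : Ω)‖ * ‖n.eval t‖ := by
  have hb : ∀ l, (hasseDeriv l n).eval a ∈ C := fun l =>
    dzeroA_eval_mem (dzeroA_coeffs_hasseDeriv hn l) ha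
  set S : Finset ℕ := (Finset.range (n.natDegree + 1)).filter (fun l => p ∣ l) with hS
  set x : ℕ → Ω := fun l => rt p 1 ((hasseDeriv l n).eval a) * (t - a) ^ (l / p) with hx
  have hxp : ∀ l ∈ S, x l ^ p = (hasseDeriv l n).eval a * (t - a) ^ l := by
    intro l hl
    have hpl : p ∣ l := (Finset.mem_filter.1 hl).2
    have h1 := (rt_mem_pow hC hp 1 (hb l)).2
    rw [pow_one] at h1
    rw [hx]
    simp only
    rw [mul_pow, h1, ← pow_mul, Nat.div_mul_cancel hpl]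
  have hxB : ∀ l ∈ S, ‖x l‖ ^ p ≤ ‖n.eval t‖ := by
    intro l hl
    rw [← norm_pow, hxp l hl, norm_mul, norm_pow, hR2 l]
    refine le_trans ?_ (hR1 l)
    exact mul_le_mul_of_nonneg_left (pow_le_pow_left₀ (norm_nonneg _) haR.le _) (norm_nonneg _)
  refine ⟨∑ l ∈ S, x l, ?_, ?_, ?_⟩
  · refine E.sum_mem fun l _ => E.mul_mem (hCE (rt_mem_pow hC hp 1 (hb l)).1) ?_
    exact E.pow_mem (E.sub_mem htE (hCE ha)) _
  · refine Finset.sum_induction x (fun y => ‖y‖ ^ p ≤ ‖n.eval t‖) ?_ ?_ hxB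
    · intro y z hy hz
      refine (pow_le_pow_left₀ (norm_nonneg _) (IsUltrametricDist.norm_add_le_max y z) p).trans ?_
      rcases le_total ‖y‖ ‖z‖ with h | h
      · rw [max_eq_right h]
        exact hz
      · rw [max_eq_left h]
        exact hy
    · rw [norm_zero, zero_pow hp.ne_zero]
      exact norm_nonneg _
  · have h1 := norm_sum_pow_sub_le hp 1 S x (norm_nonneg (n.eval t)) (by
      intro l hl
      rw [pow_one]
      exact hxB l hl)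
    rw [pow_one] at h1
    rw [Finset.sum_congr rfl hxp] at h1
    exact h1

end MP1a953e
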