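import Pool.Agent.Lib.MP_1a953e_ag.Calc5

/-!
# Module Desc2: additive approximation, normalized
-/

namespace MP1a953e

open Polynomial

variable {Ω : Type*} [NormedField Ω] [IsUltrametricDist Ω] [IsAlgClosed Ω]
variable {p : ℕ} [Fact p.Prime] [CharP Ω p] {k0 k : Subfield Ω}

omit [IsUltrametricDist Ω] [IsAlgClosed Ω] [CharP Ω p] [Fact p.Prime] in
private lemma desc2_close {F' : Subfield Ω} {Y : Ω} (S : Finset ℕ) (d : ℕ → Ω)
    (h : ∀ i ∈ S, ‖d i‖ * Metric.infDist Y (F' : Set Ω) ^ p ^ i < Metric.infDist Y (F' : Set Ω)) :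
    ∃ s ∈ F', ∀ i ∈ S, ‖d i * (Y - s) ^ p ^ i‖ < Metric.infDist Y (F' : Set Ω) := by
  set r := Metric.infDist Y (F' : Set Ω) with hr
  have hev : ∀ᶠ t in nhds r, ∀ i ∈ S, ‖d i‖ * t ^ p ^ i < r := by
    rw [Filter.eventually_all_finset]
    intro i hi
    have hc : Continuous (fun t : ℝ => ‖d i‖ * t ^ p ^ i) := by fun_prop
    exact (hc.tendsto r).eventually (gt_mem_nhds (h i hi))
  obtain ⟨ε, hε, hball⟩ := Metric.eventually_nhds_iff.1 hev
  have hne : (F' : Set Ω).Nonempty := ⟨0, F'.zero_mem⟩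
  obtain ⟨s, hs, hds⟩ := (Metric.infDist_lt_iff hne).1 (show Metric.infDist Y (F' : Set Ω) < r + ε by
    rw [← hr]; linarith)
  refine ⟨s, hs, fun i hi => ?_⟩
  have h1 : r ≤ ‖Y - s‖ := by
    rw [← dist_eq_norm]; exact Metric.infDist_le_dist_of_mem hs
  rw [dist_eq_norm] at hds
  have h2 : dist ‖Y - s‖ r < ε := by
    rw [Real.dist_eq, abs_lt]
    constructor <;> linarith
  rw [norm_mul, norm_pow]
  exact hball h2 i hi

omit [IsAlgClosed Ω] in
private lemma desc2_sum_lt (S : Finset ℕ) (f : ℕ → Ω) (r : ℝ) (hr : 0 < r)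
    (h : ∀ i ∈ S, ‖f i‖ < r) : ‖∑ i ∈ S, f i‖ < r := by
  rcases S.eq_empty_or_nonempty with rfl | hS
  · simpa using hr
  · obtain ⟨i, hi, hle⟩ := IsUltrametricDist.exists_norm_finsetSum_le_of_nonempty hS f
    exact lt_of_le_of_lt hle (h i hi)

/-- DES4.  Additive approximation at radius `1`.  Proof: `TT.kl` gives `e`, `H`, `c h ∈ F'` with
`‖c h‖ ≤ 1`; by `hA'.res` choose `a h ∈ A'`, `‖a h‖ ≤ 1`, `‖c h - a h‖ < 1`, and for `h` with
`‖c h‖ < 1` choose `a h = 0` instead. For `s ∈ F'` close to `Y` (`‖Y - s‖ > 1` close to `1`)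
`‖(c h - a h) * (Y - s) ^ (p ^ h)‖ < 1`, so `(c h - a h) * Y ^ (p ^ h)` can be absorbed in `e`. Let
`H` be the largest `h` with `a h ≠ 0` (then `‖a H‖ = 1`); if there is none or `H = 0` we are in the
first alternative. -/
theorem kl_one {A' F' K' : Subfield Ω} (hA' : Ab p k0 k A' F') {Y y : Ω} (hT : TT F' Y)
    (hr : Metric.infDist Y (F' : Set Ω) = 1) (hd : DenseIn (adj F' Y) K') (hy : y ∈ K')
    (hyr : Metric.infDist y (F' : Set Ω) ≤ 1) :
    ∃ e ∈ F', (∃ c ∈ F', ‖c‖ ≤ 1 ∧ ‖y - e - c * Y‖ < 1) ∨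
      ∃ (H : ℕ) (a : ℕ → Ω), 1 ≤ H ∧ (∀ h ≤ H, a h ∈ A' ∧ ‖a h‖ ≤ 1) ∧ ‖a H‖ = 1 ∧
        ‖y - e - ∑ h ∈ Finset.range (H + 1), a h * Y ^ p ^ h‖ < 1 := by
  classical
  obtain ⟨e, he, H, c, hcF, hcr, hke⟩ := TT.kl (p := p) hT hd hy (by rw [hr]; exact hyr)
  rw [hr] at hke
  have hc1 : ∀ h, ‖c h‖ ≤ 1 := by
    intro h
    have := hcr h
    rw [hr] at this
    simpa using this
  have hex : ∀ h, ∃ a : Ω, a ∈ A' ∧ ‖a‖ ≤ 1 ∧ ‖c h - a‖ < 1 ∧ (a = 0 ∨ ‖a‖ = 1) := by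
    intro h
    by_cases hlt : ‖c h‖ < 1
    · exact ⟨0, A'.zero_mem, by simp, by simpa using hlt, Or.inl rfl⟩
    · obtain ⟨a, ha, ha1, ha2⟩ := hA'.res (c h) (hcF h) (hc1 h)
      refine ⟨a, ha, ha1, ha2, Or.inr (le_antisymm ha1 ?_)⟩
      by_contra hcon
      push Not at hcon
      have : ‖c h‖ < 1 := by
        have e1 : c h = (c h - a) + a := by ring
        rw [e1]
        exact lt_of_le_of_lt (IsUltrametricDist.norm_add_le_max _ _) (max_lt ha2 hcon)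
      exact hlt this
  choose a haA ha1 hca ha0 using hex
  obtain ⟨s, hs, hsS⟩ := desc2_close (p := p) (F' := F') (Y := Y) (Finset.range (H + 1))
    (fun i => c i - a i) (by
      intro i _
      rw [hr]
      simpa using hca i)
  rw [hr] at hsS
  have hsub : ∀ i : ℕ, (Y - s) ^ p ^ i = Y ^ p ^ i - s ^ p ^ i := fun i => sub_pow_char_pow Y s i
  set e' : Ω := e + ∑ i ∈ Finset.range (H + 1), (c i - a i) * s ^ p ^ i with he'
  have he'F : e' ∈ F' := by
    apply F'.add_mem he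
    apply F'.sum_mem
    intro i _
    exact F'.mul_mem (F'.sub_mem (hcF i) (hA'.A_le (haA i))) (F'.pow_mem hs _)
  have hkey : ‖y - e' - ∑ h ∈ Finset.range (H + 1), a h * Y ^ p ^ h‖ < 1 := by
    have e1 : y - e' - ∑ h ∈ Finset.range (H + 1), a h * Y ^ p ^ h =
        (y - e - ∑ h ∈ Finset.range (H + 1), c h * Y ^ p ^ h) +
          ∑ i ∈ Finset.range (H + 1), (c i - a i) * (Y - s) ^ p ^ i := by
      have e2 : ∑ i ∈ Finset.range (H + 1), (c i - a i) * (Y - s) ^ p ^ i =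
          ∑ h ∈ Finset.range (H + 1), c h * Y ^ p ^ h -
          ∑ h ∈ Finset.range (H + 1), a h * Y ^ p ^ h -
          ∑ i ∈ Finset.range (H + 1), (c i - a i) * s ^ p ^ i := by
        rw [← Finset.sum_sub_distrib, ← Finset.sum_sub_distrib]
        refine Finset.sum_congr rfl fun i _ => ?_
        rw [hsub]; ring
      rw [e2, he']; ring
    rw [e1]
    refine lt_of_le_of_lt (IsUltrametricDist.norm_add_le_max _ _) (max_lt hke ?_)
    exact desc2_sum_lt _ _ 1 one_pos hsS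
  by_cases hall : ∃ h, 1 ≤ h ∧ h ≤ H ∧ a h ≠ 0
  · -- the largest one
    set S := (Finset.Icc 1 H).filter (fun h => a h ≠ 0) with hS
    have hSne : S.Nonempty := by
      obtain ⟨h, h1, h2, h3⟩ := hall
      exact ⟨h, Finset.mem_filter.2 ⟨Finset.mem_Icc.2 ⟨h1, h2⟩, h3⟩⟩
    set M := S.max' hSne with hM
    have hMS : M ∈ S := S.max'_mem hSne
    obtain ⟨hM1, hM2⟩ := Finset.mem_filter.1 hMS
    rw [Finset.mem_Icc] at hM1
    refine ⟨e', he'F, Or.inr ⟨M, a, hM1.1, fun h _ => ⟨haA h, ha1 h⟩, ?_, ?_⟩⟩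
    · rcases ha0 M with h | h
      · exact absurd h hM2
      · exact h
    · have e3 : ∑ h ∈ Finset.range (H + 1), a h * Y ^ p ^ h =
          ∑ h ∈ Finset.range (M + 1), a h * Y ^ p ^ h := by
        symm
        apply Finset.sum_subset
        · intro i hi
          rw [Finset.mem_range] at hi ⊢
          omega
        · intro i hi hni
          rw [Finset.mem_range] at hi hni
          have : a i = 0 := by
            by_contra hne
            have : i ∈ S := Finset.mem_filter.2 ⟨Finset.mem_Icc.2 ⟨by omega, by omega⟩, hne⟩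
            have := S.le_max' i this
            omega
          rw [this, zero_mul]
      rw [e3] at hkey
      exact hkey
  · push Not at hall
    refine ⟨e', he'F, Or.inl ⟨a 0, hA'.A_le (haA 0), ha1 0, ?_⟩⟩
    have e3 : ∑ h ∈ Finset.range (H + 1), a h * Y ^ p ^ h = a 0 * Y := by
      rw [Finset.sum_eq_single 0]
      · rw [pow_zero, pow_one]
      · intro i hi hi0
        rw [Finset.mem_range] at hi
        rw [hall i (by omega) (by omega), zero_mul]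
      · intro h
        exact absurd (Finset.mem_range.2 (by omega)) h
    rw [e3] at hkey
    exact hkey

/-- DES6 (irrational radius).  If no `‖x‖ * r ^ (p ^ h)` (`x ∈ F'`, `h ≥ 1`) is equal to `r`, then the
approximation of `TT.kl` is linear: `‖c h‖ * r ^ (p ^ h) < r` for `h ≥ 1`, so for `s ∈ F'` close to
`Y` `‖c h * (Y - s) ^ (p ^ h)‖ < r` and `c h * Y ^ (p ^ h)` can be absorbed in `e`. -/
theorem kl_irr {F' K' : Subfield Ω} {Y y : Ω} (hT : TT F' Y)
    (hirr : ∀ h : ℕ, 1 ≤ h → ∀ x ∈ F', ‖x‖ * Metric.infDist Y (F' : Set Ω) ^ p ^ h ≠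
      Metric.infDist Y (F' : Set Ω))
    (hd : DenseIn (adj F' Y) K') (hy : y ∈ K')
    (hyr : Metric.infDist y (F' : Set Ω) ≤ Metric.infDist Y (F' : Set Ω)) :
    ∃ e ∈ F', ∃ c ∈ F', ‖c‖ ≤ 1 ∧ ‖y - e - c * Y‖ < Metric.infDist Y (F' : Set Ω) := by
  classical
  obtain ⟨e, he, H, c, hcF, hcr, hke⟩ := TT.kl (p := p) hT hd hy hyr
  have hrpos := hT.pos
  obtain ⟨s, hs, hsS⟩ := desc2_close (p := p) (F' := F') (Y := Y) (Finset.Icc 1 H)
    c (fun i hi => lt_of_le_of_ne (hcr i) (hirr i (Finset.mem_Icc.1 hi).1 (c i) (hcF i)))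
  have hsub : ∀ i : ℕ, (Y - s) ^ p ^ i = Y ^ p ^ i - s ^ p ^ i := fun i => sub_pow_char_pow Y s i
  have hc0 : ‖c 0‖ ≤ 1 := by
    have := hcr 0
    rw [pow_zero, pow_one] at this
    by_contra hcon
    push Not at hcon
    nlinarith
  refine ⟨e + ∑ i ∈ Finset.Icc 1 H, c i * s ^ p ^ i, F'.add_mem he (F'.sum_mem fun i _ =>
    F'.mul_mem (hcF i) (F'.pow_mem hs _)), c 0, hcF 0, hc0, ?_⟩
  have e0 : ∑ h ∈ Finset.range (H + 1), c h * Y ^ p ^ h =
      c 0 * Y + ∑ h ∈ Finset.Icc 1 H, c h * Y ^ p ^ h := by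
    rw [Finset.range_eq_Ico, Finset.sum_eq_sum_Ico_succ_bot (by omega), pow_zero, pow_one]
    rfl
  have e1 : y - (e + ∑ i ∈ Finset.Icc 1 H, c i * s ^ p ^ i) - c 0 * Y =
      (y - e - ∑ h ∈ Finset.range (H + 1), c h * Y ^ p ^ h) +
        ∑ i ∈ Finset.Icc 1 H, c i * (Y - s) ^ p ^ i := by
    have e2 : ∑ i ∈ Finset.Icc 1 H, c i * (Y - s) ^ p ^ i =
        ∑ h ∈ Finset.Icc 1 H, c h * Y ^ p ^ h - ∑ i ∈ Finset.Icc 1 H, c i * s ^ p ^ i := by
      rw [← Finset.sum_sub_distrib]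
      refine Finset.sum_congr rfl fun i _ => ?_
      rw [hsub]; ring
    rw [e2, e0]; ring
  rw [e1]
  refine lt_of_le_of_lt (IsUltrametricDist.norm_add_le_max _ _) (max_lt hke ?_)
  exact desc2_sum_lt _ _ _ hrpos hsS

end MP1a953e
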