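import Pool.Agent.Lib.MP_1a953e_ag.PW2
import Pool.Agent.Lib.MP_1a953e_ag.Calc1

/-!
# Module Desc3: no higher additive terms
-/

namespace MP1a953e

open Polynomial

variable {Ω : Type*} [NormedField Ω] [IsUltrametricDist Ω] [IsAlgClosed Ω]
variable {p : ℕ} [Fact p.Prime] [CharP Ω p] {k0 k : Subfield Ω}

omit [IsAlgClosed Ω] [Fact p.Prime] [CharP Ω p] in
private theorem sub_le_max (x y : Ω) : ‖x - y‖ ≤ max ‖x‖ ‖y‖ := by
  rw [sub_eq_add_neg, ← norm_neg y]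
  exact IsUltrametricDist.norm_add_le_max _ _

omit [IsAlgClosed Ω] in
/-- additivity of an additive polynomial -/
private theorem addPoly_sub (H : ℕ) (a : ℕ → Ω) (x y : Ω) :
    ∑ h ∈ Finset.range (H + 1), a h * (x - y) ^ p ^ h =
      ∑ h ∈ Finset.range (H + 1), a h * x ^ p ^ h - ∑ h ∈ Finset.range (H + 1), a h * y ^ p ^ h := by
  rw [← Finset.sum_sub_distrib]
  refine Finset.sum_congr rfl fun h _ => ?_
  rw [sub_pow_char_pow (p := p) x y h, mul_sub]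

omit [IsAlgClosed Ω] in
/-- upper bound for an additive polynomial -/
private theorem addPoly_le (H : ℕ) (a : ℕ → Ω) (ha : ∀ h ≤ H, ‖a h‖ ≤ 1) {D : Ω} (hD : 1 < ‖D‖) :
    ‖∑ h ∈ Finset.range (H + 1), a h * D ^ p ^ h‖ ≤ ‖D‖ ^ p ^ H := by
  have hp : p.Prime := Fact.out
  refine IsUltrametricDist.norm_sum_le_of_forall_le_of_nonneg (by positivity) fun h hh => ?_
  have hhH : h ≤ H := Nat.lt_succ_iff.1 (Finset.mem_range.1 hh)
  rw [norm_mul, norm_pow]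
  calc ‖a h‖ * ‖D‖ ^ p ^ h ≤ 1 * ‖D‖ ^ p ^ h :=
        mul_le_mul_of_nonneg_right (ha h hhH) (by positivity)
    _ = ‖D‖ ^ p ^ h := one_mul _
    _ ≤ ‖D‖ ^ p ^ H := pow_le_pow_right₀ hD.le (Nat.pow_le_pow_right hp.pos hhH)

omit [IsAlgClosed Ω] in
/-- exact norm of an additive polynomial -/
private theorem addPoly_eq (H : ℕ) (hH : 1 ≤ H) (a : ℕ → Ω) (ha : ∀ h ≤ H, ‖a h‖ ≤ 1)
    (haH : ‖a H‖ = 1) {D : Ω} (hD : 1 < ‖D‖) :
    ‖∑ h ∈ Finset.range (H + 1), a h * D ^ p ^ h‖ = ‖D‖ ^ p ^ H := by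
  have hp : p.Prime := Fact.out
  obtain ⟨m, rfl⟩ : ∃ m, H = m + 1 := ⟨H - 1, by omega⟩
  have h1 := addPoly_le (p := p) m a (fun h hh => ha h (by omega)) hD
  have h2 : ‖a (m + 1) * D ^ p ^ (m + 1)‖ = ‖D‖ ^ p ^ (m + 1) := by
    rw [norm_mul, norm_pow, haH, one_mul]
  have h3 : ‖D‖ ^ p ^ m < ‖D‖ ^ p ^ (m + 1) :=
    pow_lt_pow_right₀ hD (Nat.pow_lt_pow_right hp.one_lt (Nat.lt_succ_self m))
  rw [Finset.sum_range_succ, IsUltrametricDist.norm_add_eq_max_of_norm_ne_norm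
    (by rw [h2]; exact (h1.trans_lt h3).ne), h2]
  exact max_eq_right (h1.trans h3.le)

/-- DES5.  The second alternative of `kl_one` is impossible for `y = C Y`, `C` a projection.  Proof:
write `P x = ∑ a h * x ^ (p ^ h)` (additive). Let `R > 1`; choose `S ∈ F'` with
`‖Y - S‖ ^ (p ^ H) ≤ R` (`‖Y - S‖ > 1` always, by `TT.nb`). Then
`C S - P S - e = (C Y - P Y - e) - (C (Y - S) - P (Y - S))` has norm `≤ R`. By `propW` there is
`S ∈ F'` with `‖C S - P S - e‖ ≤ 1`, so `‖C (Y - S) - P (Y - S)‖ ≤ 1`. But `τ = ‖Y - S‖ > 1`,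
`‖P (Y - S)‖ = τ ^ (p ^ H) > τ ≥ ‖C (Y - S)‖`: contradiction. -/
theorem no_high {A F A' F' K : Subfield Ω} (hA : Ab p k0 k A F) (hA' : Ab p k0 k A' F') {d : ℕ}
    {θ : Fin (d + 1) → Ω} (hθA : OrthBasis A A' θ) (hFF : F ≤ F') (hKF : F ≤ K) {Y : Ω}
    (hYK : Y ∈ K ⊔ F') (hT : TT F' Y)
    (hr : Metric.infDist Y (F' : Set Ω) = 1) (C : Ω → Ω)
    (hCF : ∀ x ∈ F', C x ∈ F') (hCA : ∀ x ∈ A', C x ∈ A')
    (hCadd : ∀ x ∈ K ⊔ F', ∀ y ∈ K ⊔ F', C (x + y) = C x + C y)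
    (hClin : ∀ y ∈ K, ∀ x ∈ K ⊔ F', C (y * x) = y * C x) (hCn : ∀ x ∈ K ⊔ F', ‖C x‖ ≤ ‖x‖)
    {e : Ω} (he : e ∈ F') (H : ℕ) (hH : 1 ≤ H) (a : ℕ → Ω) (ha : ∀ h ≤ H, a h ∈ A' ∧ ‖a h‖ ≤ 1)
    (haH : ‖a H‖ = 1)
    (hlt : ‖C Y - e - ∑ h ∈ Finset.range (H + 1), a h * Y ^ p ^ h‖ < 1) : False := by
  have hp : p.Prime := Fact.out
  have hne : (F' : Set Ω).Nonempty := ⟨0, F'.zero_mem⟩
  have hF'K : F' ≤ K ⊔ F' := le_sup_right
  have hFK : K ≤ K ⊔ F' := le_sup_left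
  have hpH : 1 < p ^ H := Nat.one_lt_pow (by omega) hp.one_lt
  have ha1 : ∀ h ≤ H, ‖a h‖ ≤ 1 := fun h hh => (ha h hh).2
  -- elements of `F'` are far from `Y`
  have hfar : ∀ S ∈ F', 1 < ‖Y - S‖ := by
    intro S hS
    rw [← hr]
    exact hT.nb S (isAlgebraic_algebraMap (⟨S, hS⟩ : F'))
  have hCsub : ∀ S ∈ F', C (Y - S) = C Y - C S := by
    intro S hS
    have h1 := hCadd (Y - S) ((K ⊔ F').sub_mem hYK (hF'K hS)) S (hF'K hS)
    rw [sub_add_cancel] at h1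
    rw [h1, add_sub_cancel_right]
  have hid : ∀ S ∈ F', C S - ∑ h ∈ Finset.range (H + 1), a h * S ^ p ^ h - e =
      (C Y - e - ∑ h ∈ Finset.range (H + 1), a h * Y ^ p ^ h) -
        (C (Y - S) - ∑ h ∈ Finset.range (H + 1), a h * (Y - S) ^ p ^ h) := by
    intro S hS
    rw [hCsub S hS, addPoly_sub]
    ring
  have hCD : ∀ S ∈ F', ‖C (Y - S)‖ ≤ ‖Y - S‖ := fun S hS =>
    hCn _ ((K ⊔ F').sub_mem hYK (hF'K hS))
  have hlow : ∀ S ∈ F', ‖Y - S‖ < ‖Y - S‖ ^ p ^ H := fun S hS => by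
    have h1 := pow_lt_pow_right₀ (hfar S hS) hpH
    rwa [pow_one] at h1
  have happ : ∀ R : ℝ, 1 < R →
      ∃ S ∈ F', ‖C S - ∑ h ∈ Finset.range (H + 1), a h * S ^ p ^ h - e‖ ≤ R := by
    intro R hR
    have hδ : 1 < R ^ (((p ^ H : ℕ) : ℝ)⁻¹) := Real.one_lt_rpow hR (by
      have : (0 : ℝ) < ((p ^ H : ℕ) : ℝ) := by exact_mod_cast hpH.trans' one_pos
      positivity)
    obtain ⟨S, hS, hSr⟩ := (Metric.infDist_lt_iff hne).1 (hr.trans_lt hδ)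
    rw [dist_eq_norm] at hSr
    have hSF : S ∈ F' := hS
    have hDR : ‖Y - S‖ ^ p ^ H ≤ R := by
      calc ‖Y - S‖ ^ p ^ H ≤ (R ^ (((p ^ H : ℕ) : ℝ)⁻¹)) ^ (p ^ H) :=
            pow_le_pow_left₀ (norm_nonneg _) hSr.le _
        _ = R := Real.rpow_inv_natCast_pow (by linarith) (by omega)
    refine ⟨S, hSF, ?_⟩
    rw [hid S hSF]
    refine (sub_le_max _ _).trans (max_le (hlt.le.trans hR.le) ?_)
    refine (sub_le_max _ _).trans (max_le ?_ ?_)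
    · exact (hCD S hSF).trans ((hlow S hSF).le.trans hDR)
    · exact (addPoly_le H a ha1 (hfar S hSF)).trans hDR
  obtain ⟨S, hS, hSn⟩ := propW hA hA' hθA hFF C hCF hCA
    (fun x hx y hy => hCadd x (hF'K hx) y (hF'K hy))
    (fun y hy x hx => hClin y (hKF hy) x (hF'K hx)) (fun x hx => hCn x (hF'K hx)) H hH a
    (fun h hh => (ha h hh).1) ha1 haH e he happ
  have h1 : C (Y - S) - ∑ h ∈ Finset.range (H + 1), a h * (Y - S) ^ p ^ h =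
      (C Y - e - ∑ h ∈ Finset.range (H + 1), a h * Y ^ p ^ h) -
        (C S - ∑ h ∈ Finset.range (H + 1), a h * S ^ p ^ h - e) := by
    rw [hid S hS]
    ring
  have h2 : ‖C (Y - S) - ∑ h ∈ Finset.range (H + 1), a h * (Y - S) ^ p ^ h‖ ≤ 1 := by
    rw [h1]
    exact (sub_le_max _ _).trans (max_le hlt.le hSn)
  have h3 := addPoly_eq (p := p) H hH a ha1 haH (hfar S hS)
  have h4 : ‖C (Y - S)‖ < ‖Y - S‖ ^ p ^ H := (hCD S hS).trans_lt (hlow S hS)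
  have h5 : ‖C (Y - S) - ∑ h ∈ Finset.range (H + 1), a h * (Y - S) ^ p ^ h‖ =
      ‖Y - S‖ ^ p ^ H := by
    rw [sub_eq_add_neg, IsUltrametricDist.norm_add_eq_max_of_norm_ne_norm
      (by rw [norm_neg, h3]; exact h4.ne), norm_neg, h3]
    exact max_eq_right h4.le
  have h6 : 1 < ‖Y - S‖ ^ p ^ H := (hfar S hS).trans (hlow S hS)
  rw [h5] at h2
  linarith

end MP1a953e
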