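import Pool.Agent.Lib.MP_1a953e_ag.Tow3
import Pool.Agent.Lib.MP_1a953e_ag.Desc1
import Pool.Agent.Lib.MP_1a953e_ag.Desc2
import Pool.Agent.Lib.MP_1a953e_ag.Desc3

/-!
# Module Desc4: descent of a generator, henselian rationality
-/

namespace MP1a953e

open Polynomial

variable {Ω : Type*} [NormedField Ω] [IsUltrametricDist Ω] [IsAlgClosed Ω]
variable {p : ℕ} [Fact p.Prime] [CharP Ω p] {k0 k : Subfield Ω}

/-- descent of a generator at distance one -/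
private theorem descent_one {Cl : Subfield Ω → Subfield Ω → Prop} (hC : GoodClass p k0 k Cl)
    {A F K A' F' : Subfield Ω} (hA : Cl A F) (hI : Imm F K) (hA' : Cl A' F')
    (hE : Ext A F A' F') {Y : Ω} (hY : Y ∈ K ⊔ F') (hT : TT F' Y)
    (hr : Metric.infDist Y (F' : Set Ω) = 1) (hd : DenseIn (adj F' Y) (K ⊔ F')) :
    ∃ y ∈ K, DenseIn (adj F y) K := by
  obtain ⟨d, θ, hθA, hθ⟩ := hE
  obtain ⟨y, hy, hYy⟩ := (mem_sup_iff hI.1 hθ Y).1 hY
  have hyK : ∀ i, y i * θ i ∈ K ⊔ F' := fun i =>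
    (K ⊔ F').mul_mem ((le_sup_left : K ≤ K ⊔ F') (hy i)) ((le_sup_right : F' ≤ K ⊔ F') (hθ.mem i))
  have hlin : ∀ i, ∃ e ∈ F', ∃ c ∈ F', ‖c‖ ≤ 1 ∧
      ‖y i * θ i - e - c * Y‖ < Metric.infDist Y (F' : Set Ω) := by
    intro i
    have h1 : Metric.infDist (y i * θ i) (F' : Set Ω) ≤ 1 := by
      rw [← hr, hYy]
      exact infDist_proj hI hθ y hy i
    obtain ⟨e, he, h2 | h2⟩ := kl_one (hC.ab _ _ hA') hT hr hd (hyK i) h1
    · obtain ⟨c, hc, hc1, hc2⟩ := h2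
      rw [hr]
      exact ⟨e, he, c, hc, hc1, hc2⟩
    · exfalso
      obtain ⟨H, a, hH, ha, haH, hlt⟩ := h2
      obtain ⟨C, -, hCF, hCA, hCadd, hClin, hCn, hCy⟩ :=
        exists_proj hI (hC.ab _ _ hA).A_le hθA hθ i
      have h3 : C Y = y i * θ i := by rw [hYy]; exact hCy y hy
      rw [← h3] at hlt
      exact no_high (hC.ab _ _ hA) (hC.ab _ _ hA') hθA hθ.le hI.1 hY hT hr C hCF hCA hCadd hClin
        hCn he H hH a ha haH hlt
  obtain ⟨i, hi⟩ := desc_linear hI hθ hT hd y hy hYy hlin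
  exact ⟨y i, hy i, hi⟩

/-- DES7 (descent of a generator).  Proof: let `r = infDist Y F'`. If `‖x‖ * r ^ (p ^ h) = r` for some
`x ∈ F'`, `h ≥ 1`, then `r ^ (p ^ h - 1) = ‖x⁻¹‖` and `GoodClass.value` (with `N = p ^ h - 1`) gives
an extension `(A'', F'')` of `(A', F')` with `y ∈ F''`, `‖y‖ = r`; replace `F'` by `F''`
(`Y` remains a generator by `DenseIn.sup`; `infDist Y F'' = r` by `infDist_sup`; `Y ∉ F''` by
`mem_of_sup`) and `Y` by `Y / y` (`TT.smul_add`), so `r = 1`. Write `Y = ∑ y i * θ i` (LIN1) and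
apply `kl_one` with `y = y i * θ i` (`infDist_proj`), `exists_proj`, `no_high`, `desc_linear`. In the
other case use `kl_irr` and `desc_linear`. `TT` holds by `tt_of_class` (`K ⊔ F'` is immediate over
`F'`). -/
theorem descent {Cl : Subfield Ω → Subfield Ω → Prop} (hC : GoodClass p k0 k Cl)
    {A F K A' F' : Subfield Ω} (hA : Cl A F) (hI : Imm F K) (hA' : Cl A' F')
    (hE : Ext A F A' F') {Y : Ω} (hY : Y ∈ K ⊔ F') (hYF : Y ∉ F')
    (hd : DenseIn (adj F' Y) (K ⊔ F')) :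
    ∃ y ∈ K, DenseIn (adj F y) K := by
  have hp : p.Prime := Fact.out
  obtain ⟨d, θ, hθA, hθ⟩ := id hE
  have hI' : Imm F' (K ⊔ F') := hI.sup hθ
  have hT : TT F' Y := tt_of_class hC hA' hI' hY hYF
  have hr0 := hT.pos
  by_cases hirr : ∀ h : ℕ, 1 ≤ h → ∀ x ∈ F', ‖x‖ * Metric.infDist Y (F' : Set Ω) ^ p ^ h ≠
      Metric.infDist Y (F' : Set Ω)
  · obtain ⟨y, hy, hYy⟩ := (mem_sup_iff hI.1 hθ Y).1 hY
    have hyK : ∀ i, y i * θ i ∈ K ⊔ F' := fun i =>
      (K ⊔ F').mul_mem ((le_sup_left : K ≤ K ⊔ F') (hy i))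
        ((le_sup_right : F' ≤ K ⊔ F') (hθ.mem i))
    have hlin : ∀ i, ∃ e ∈ F', ∃ c ∈ F', ‖c‖ ≤ 1 ∧
        ‖y i * θ i - e - c * Y‖ < Metric.infDist Y (F' : Set Ω) := by
      intro i
      refine kl_irr (p := p) hT hirr hd (hyK i) ?_
      have h1 := infDist_proj hI hθ y hy i
      rw [← hYy] at h1
      exact h1
    obtain ⟨i, hi⟩ := desc_linear hI hθ hT hd y hy hYy hlin
    exact ⟨y i, hy i, hi⟩
  · push Not at hirr
    obtain ⟨h, hh, x, hx, hxr⟩ := hirr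
    set r := Metric.infDist Y (F' : Set Ω) with hrdef
    have hph : 2 ≤ p ^ h := by
      calc 2 ≤ p := hp.two_le
        _ = p ^ 1 := (pow_one p).symm
        _ ≤ p ^ h := Nat.pow_le_pow_right hp.pos hh
    have hx0 : x ≠ 0 := by
      rintro rfl
      rw [norm_zero, zero_mul] at hxr
      exact hr0.ne hxr
    have hxpos : 0 < ‖x‖ := norm_pos_iff.2 hx0
    have hN : r ^ (p ^ h - 1) = ‖x⁻¹‖ := by
      have h1 : r ^ p ^ h = r ^ (p ^ h - 1) * r := by
        rw [← pow_succ]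
        congr 1
        omega
      rw [h1] at hxr
      rw [norm_inv]
      have h2 : ‖x‖ * r ^ (p ^ h - 1) = 1 := by
        have h3 : (‖x‖ * r ^ (p ^ h - 1)) * r = 1 * r := by rw [one_mul, mul_assoc]; exact hxr
        exact mul_right_cancel₀ hr0.ne' h3
      exact eq_inv_of_mul_eq_one_right h2
    have hpN : ¬ p ∣ p ^ h - 1 := by
      intro h1
      have h2 : p ∣ p ^ h := dvd_pow_self p (by omega)
      have h3 : p ∣ p ^ h - (p ^ h - 1) := Nat.dvd_sub h2 h1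
      rw [Nat.sub_sub_self (by omega)] at h3
      exact hp.one_lt.ne' (Nat.dvd_one.1 h3)
    obtain ⟨A2, F2, hA2, hE2, y, hy, hyr⟩ := hC.value _ _ hA' r hr0 (p ^ h - 1) (by omega) hpN
      ⟨x⁻¹, F'.inv_mem hx, hN⟩
    obtain ⟨d2, η, hηA, hη⟩ := id hE2
    have hE3 : Ext A F A2 F2 := hE.trans hE2
    have hle : F' ≤ F2 := hη.le
    have hsup : (K ⊔ F') ⊔ F2 = K ⊔ F2 := by rw [sup_assoc, sup_eq_right.2 hle]
    have hd2 : DenseIn (adj F2 Y) (K ⊔ F2) := by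
      rw [← hsup]
      exact hd.sup hη
    have hYF2 : Y ∉ F2 := fun h1 => hYF (mem_of_sup hI' hη hY h1)
    have hY2 : Y ∈ K ⊔ F2 := by
      rw [← hsup]
      exact (le_sup_left : K ⊔ F' ≤ (K ⊔ F') ⊔ F2) hY
    obtain ⟨d3, ζ, -, hζ⟩ := id hE3
    have hT2 : TT F2 Y := tt_of_class hC hA2 (hI.sup hζ) hY2 hYF2
    have hr2 : Metric.infDist Y (F2 : Set Ω) = r := infDist_sup hI' hη hY
    have hy0 : y ≠ 0 := by
      intro h1
      rw [h1, norm_zero] at hyr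
      exact hr0.ne hyr
    obtain ⟨hT3, hr3⟩ := hT2.smul_add (F2.inv_mem hy) (inv_ne_zero hy0) F2.zero_mem
    rw [add_zero] at hT3 hr3
    have hadj : adj F2 (y⁻¹ * Y) = adj F2 Y := by
      apply le_antisymm
      · exact adj_le (le_adj F2 Y) ((adj F2 Y).mul_mem (le_adj F2 Y (F2.inv_mem hy))
          (mem_adj_self F2 Y))
      · refine adj_le (le_adj F2 _) ?_
        have h1 : Y = y * (y⁻¹ * Y) := by field_simp
        rw [h1]
        refine (adj F2 (y⁻¹ * (y * (y⁻¹ * Y)))).mul_mem (le_adj F2 _ hy) ?_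
        rw [← h1]
        exact mem_adj_self F2 _
    refine descent_one hC hA hI hA2 hE3 (Y := y⁻¹ * Y) ?_ hT3 ?_ ?_
    · exact (K ⊔ F2).mul_mem ((le_sup_right : F2 ≤ K ⊔ F2) (F2.inv_mem hy)) hY2
    · rw [hr3, hr2, norm_inv, hyr]
      exact inv_mul_cancel₀ hr0.ne'
    · rw [hadj]
      exact hd2

/-- DES8 (henselian rationality).  `tower` and `descent`; `y ∉ F`, because otherwise `F` would be dense
in `K ∋ T`, but `F` is closed. -/
theorem hr_class {Cl : Subfield Ω → Subfield Ω → Prop} (hC : GoodClass p k0 k Cl)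
    {A F K P₀ : Subfield Ω} (hA : Cl A F) (hI : Imm F K)
    (hK : IsComplete (K : Set Ω)) {T : Ω} (hT : T ∈ K) (hTF : T ∉ F)
    (hP : IsComplete (P₀ : Set Ω)) (hPd : DenseIn (adj F T) P₀) (E : IntermediateField P₀ Ω)
    [FiniteDimensional P₀ E] [Algebra.IsSeparable P₀ E] (hE : E.toSubfield = K) :
    ∃ y ∈ K, y ∉ F ∧ DenseIn (adj F y) K := by
  obtain ⟨A', F', hA', hE', Y, hY, hYF, hd⟩ := tower hC hA hI hK hT hTF hP hPd E hE
  obtain ⟨y, hy, hyd⟩ := descent hC hA hI hA' hE' hY hYF hd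
  refine ⟨y, hy, fun hyF => ?_, hyd⟩
  have h1 : adj F y = F := le_antisymm (adj_le le_rfl hyF) (le_adj F y)
  rw [h1] at hyd
  have hcl : IsClosed (F : Set Ω) := (hC.ab A F hA).complete.isClosed
  have h2 : T ∈ closure (F : Set Ω) := by
    rw [Metric.mem_closure_iff]
    intro ε hε
    obtain ⟨a, ha, h3⟩ := hyd.2 T hT ε hε
    exact ⟨a, ha, by rw [dist_eq_norm]; exact h3⟩
  rw [hcl.closure_eq] at h2
  exact hTF h2

end MP1a953e
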