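import Pool.Agent.Lib.MP_1a953e_ag.UDefs
import Pool.Agent.Lib.MP_1a953e_ag.Calc3

/-!
# Module Dsc1: additive approximation in all characteristics
-/

namespace MP1a953e

open Polynomial

variable {Ω : Type*} [NormedField Ω]

private lemma dsc1_norm_int_le [IsUltrametricDist Ω] (n : ℤ) : ‖(n : Ω)‖ ≤ 1 :=
  IsUltrametricDist.norm_intCast_le_one Ω n

private lemma dsc1_norm_natCast [IsUltrametricDist Ω] {p : ℕ} [Fact p.Prime]
    (hp : ‖(p : Ω)‖ < 1) {n : ℕ} (h : ¬ p ∣ n) : ‖(n : Ω)‖ = 1 := by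
  have hpp : p.Prime := Fact.out
  have hco : IsCoprime (n : ℤ) (p : ℤ) := by
    rw [Nat.isCoprime_iff_coprime]
    exact ((Nat.Prime.coprime_iff_not_dvd hpp).2 h).symm
  obtain ⟨u, v, huv⟩ := hco
  have h1 : (u : Ω) * (n : Ω) + (v : Ω) * (p : Ω) = 1 := by
    have := congrArg (fun z : ℤ => (z : Ω)) huv
    push_cast at this
    exact this
  have hle : ‖(n : Ω)‖ ≤ 1 := by
    have := dsc1_norm_int_le (Ω := Ω) (n : ℤ)
    simpa using this
  apply le_antisymm hle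
  by_contra hcon
  push Not at hcon
  have h2 : ‖(u : Ω) * (n : Ω) + (v : Ω) * (p : Ω)‖ < 1 := by
    refine (IsUltrametricDist.norm_add_le_max _ _).trans_lt (max_lt ?_ ?_)
    · rw [norm_mul]
      exact (mul_le_of_le_one_left (norm_nonneg _) (dsc1_norm_int_le u)).trans_lt hcon
    · rw [norm_mul]
      exact (mul_le_of_le_one_left (norm_nonneg _) (dsc1_norm_int_le v)).trans_lt hp
  rw [h1, norm_one] at h2
  exact lt_irrefl _ h2

private lemma dsc1_choose_not_dvd {p : ℕ} [Fact p.Prime] {j : ℕ} (hj : ¬ p ∣ j) (v : ℕ) :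
    ¬ p ∣ (p ^ v * j).choose (p ^ v) := by
  have hp : p.Prime := Fact.out
  induction v with
  | zero => simpa using hj
  | succ v ih =>
    have h1 := Choose.choose_modEq_choose_mod_mul_choose_div_nat (p := p) (n := p ^ (v + 1) * j)
      (k := p ^ (v + 1))
    have h2 : p ^ (v + 1) * j % p = 0 := by
      rw [pow_succ', mul_assoc]
      exact Nat.mul_mod_right _ _
    have h3 : p ^ (v + 1) % p = 0 := by
      rw [pow_succ']
      exact Nat.mul_mod_right _ _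
    have h4 : p ^ (v + 1) * j / p = p ^ v * j := by
      rw [pow_succ', mul_assoc]
      exact Nat.mul_div_cancel_left _ hp.pos
    have h5 : p ^ (v + 1) / p = p ^ v := by
      rw [pow_succ']
      exact Nat.mul_div_cancel_left _ hp.pos
    rw [h2, h3, h4, h5, Nat.choose_self, one_mul] at h1
    intro h6
    exact ih ((h1.dvd_iff (dvd_refl p)).1 h6)

private lemma dsc1_sum_lt [IsUltrametricDist Ω] {ι : Type*} (s : Finset ι) (f : ι → Ω) {C : ℝ}
    (hC : 0 < C) (h : ∀ i ∈ s, ‖f i‖ < C) : ‖∑ i ∈ s, f i‖ < C := by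
  classical
  induction s using Finset.induction_on with
  | empty => simpa using hC
  | insert a s ha ih =>
    rw [Finset.sum_insert ha]
    refine (IsUltrametricDist.norm_add_le_max _ _).trans_lt (max_lt ?_ ?_)
    · exact h a (Finset.mem_insert_self _ _)
    · exact ih (fun i hi => h i (Finset.mem_insert_of_mem hi))

private lemma dsc1_sum_le [IsUltrametricDist Ω] {ι : Type*} (s : Finset ι) (f : ι → Ω) {C : ℝ}
    (hC : 0 ≤ C) (h : ∀ i ∈ s, ‖f i‖ ≤ C) : ‖∑ i ∈ s, f i‖ ≤ C := by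
  classical
  induction s using Finset.induction_on with
  | empty => simpa using hC
  | insert a s ha ih =>
    rw [Finset.sum_insert ha]
    refine (IsUltrametricDist.norm_add_le_max _ _).trans (max_le ?_ ?_)
    · exact h a (Finset.mem_insert_self _ _)
    · exact ih (fun i hi => h i (Finset.mem_insert_of_mem hi))

/-- Taylor formula with the term of index zero separated -/
private lemma dsc1_taylor (G : Polynomial Ω) (Y a : Ω) {M : ℕ} (hM : G.natDegree < M) :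
    G.eval a - G.eval Y =
      ∑ i ∈ (Finset.range M).filter (fun i => 1 ≤ i), (hasseDeriv i G).eval Y * (a - Y) ^ i := by
  have h1 : G.eval a = (taylor Y G).eval (a - Y) := by rw [taylor_eval, sub_add_cancel]
  have h2 : G.eval a = ∑ i ∈ Finset.range M, (hasseDeriv i G).eval Y * (a - Y) ^ i := by
    rw [h1, eval_eq_sum_range' (n := M) (by rw [natDegree_taylor]; omega)]
    exact Finset.sum_congr rfl (fun i _ => by rw [taylor_coeff])
  have h3 : Finset.range M = insert 0 ((Finset.range M).filter (fun i => 1 ≤ i)) := by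
    ext i
    simp only [Finset.mem_insert, Finset.mem_filter, Finset.mem_range]
    omega
  rw [h2]
  conv_lhs => rw [h3]
  rw [Finset.sum_insert (by simp)]
  simp

/-- local behaviour of a polynomial near `Y` -/
private lemma dsc1_loc [IsUltrametricDist Ω] [IsAlgClosed Ω] {F : Subfield Ω} {Y : Ω}
    (hT : TT F Y) {G : Polynomial Ω} (hG : Coeffs F G) :
    ∃ ρ > Metric.infDist Y (F : Set Ω), ∀ a₀ : Ω, Metric.infDist Y (F : Set Ω) < ‖Y - a₀‖ →
      ‖Y - a₀‖ < ρ → ∃ μ : ℝ, 0 ≤ μ ∧ (μ < ‖G.eval Y‖ ∨ μ = 0) ∧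
        ∀ a : Ω, ‖Y - a‖ ≤ ‖Y - a₀‖ → ‖G.eval a - G.eval a₀‖ ≤ μ := by
  by_cases h0 : G = 0
  · refine ⟨Metric.infDist Y (F : Set Ω) + 1, by linarith, fun a₀ _ _ =>
      ⟨0, le_rfl, Or.inr rfl, fun a _ => ?_⟩⟩
    rw [h0]
    simp
  · obtain ⟨ρ1, h1, h2⟩ := hT.ec_strict hG h0
    obtain ⟨ρ2, h3, h4⟩ := taylor_dom G Y _ hT.pos
    refine ⟨min ρ1 ρ2, lt_min h1 h3, fun a₀ ha₀ ha₀' => ?_⟩
    have h5 := h2 a₀ (ha₀'.trans_le (min_le_left _ _))
    have h6 := h4 a₀ ha₀ (ha₀'.trans_le (min_le_right _ _))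
    refine ⟨‖G.eval Y - G.eval a₀‖, norm_nonneg _, Or.inl ?_, fun a ha => ?_⟩
    · have h7 : ‖G.eval Y‖ = ‖G.eval a₀‖ := by
        have h8 : G.eval Y = (G.eval Y - G.eval a₀) + G.eval a₀ := by ring
        rw [h8, IsUltrametricDist.norm_add_eq_max_of_norm_ne_norm h5.ne, max_eq_right h5.le]
      rw [h7]
      exact h5
    · have h9 : ‖G.eval a - G.eval Y‖ ≤ ‖G.eval Y - G.eval a₀‖ := by
        rw [dsc1_taylor G Y a (Nat.lt_succ_self _)]
        refine dsc1_sum_le _ _ (norm_nonneg _) fun i hi => ?_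
        rw [Finset.mem_filter] at hi
        rw [norm_mul, norm_pow, norm_sub_rev a Y]
        refine le_trans ?_ (h6 i hi.2)
        exact mul_le_mul_of_nonneg_left (pow_le_pow_left₀ (norm_nonneg _) ha _) (norm_nonneg _)
      have h10 : G.eval a - G.eval a₀ = (G.eval a - G.eval Y) + (G.eval Y - G.eval a₀) := by ring
      rw [h10]
      exact (IsUltrametricDist.norm_add_le_max _ _).trans (max_le h9 le_rfl)

open Filter Topology in
private lemma dsc1_ev {γ r : ℝ} {i : ℕ} (h : γ * r ^ i < r) :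
    ∀ᶠ ρ in 𝓝[>] r, γ * ρ ^ i < r := by
  have hcont : Tendsto (fun σ : ℝ => γ * σ ^ i) (𝓝 r) (𝓝 (γ * r ^ i)) := by
    apply Continuous.tendsto
    fun_prop
  exact (hcont.mono_left nhdsWithin_le_nhds).eventually (gt_mem_nhds h)

open Filter Topology in
/-- DSC1 (additive approximation, all characteristics).  Let `r = infDist Y F'`. Proof.  Choose a polynomial
`g` over `F'` with `‖y - g Y‖ < r` (density and `TT.poly_dense`), `γ i = ‖(hasseDeriv i g) Y‖`. By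
`TT.dist_le`, `γ i * r ^ i ≤ ‖g Y - b‖ ≤ max ‖g Y - y‖ ‖y - b‖` for all `b ∈ F'`, so
`γ i * r ^ i ≤ r` for `i ≥ 1`. If `i ≥ 1` is not a power of `p`, write `i = q * j`, `q = p ^ v`, `p ∤ j`,
`j > 1`; `i.choose q` is prime to `p` (Lucas), so its norm is `1` (`‖p‖ < 1`), and `TT.kaplansky`
gives `γ i * r ^ i < γ q * r ^ q ≤ r` (or `γ i = 0`). Let `H ≥ 1` be maximal with `γ (p^H) * r ^ p^H = r`, or `H = 0`
if there is none. Choose `a₀ ∈ F'` close to `Y` and put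
`c h = (hasseDeriv (p^h) g) a₀` for `h ≤ H`: `‖c h‖ = γ (p^h)` (`TT.ec`). Let `G = hasseDeriv (p^h) g ≠ 0`;
for `a₀` closer to `Y` than all roots of `G` are, `taylor_lt` (with centre `Y` and the
point `a₀`) gives `‖(hasseDeriv j G) Y‖ * ‖Y - a₀‖ ^ j < ‖G Y‖`, `j ≥ 1`; so for all `a` with
`‖Y - a‖ ≤ ‖Y - a₀‖`, `‖G a - G a₀‖ ≤ μ h := max_j ‖(hasseDeriv j G) Y‖ * ‖Y - a₀‖ ^ j < γ (p^h)`.
Choose `ρ > r`, `ρ ≤ ‖Y - a₀‖`, such that `γ i * ρ ^ i < r` for the finitely many `i ≥ 1` with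
`γ i * r ^ i < r`, `μ h * ρ ^ p^h < r` for `h ≤ H` (possible as `μ h * r ^ p^h < γ (p^h) * r ^ p^h ≤ r`),
and `‖(hasseDeriv i g) a‖ = γ i` for all `i` and `‖Y - a‖ < ρ`. For `a ∈ F'` with `‖Y - a‖ < ρ`
take `e = g a` in the Taylor formula
`g Y = g a + ∑_{i ≥ 1} (hasseDeriv i g) a * (Y - a) ^ i`. -/
theorem TT.kl2 [IsUltrametricDist Ω] [IsAlgClosed Ω] {p : ℕ} [Fact p.Prime]
    (hp : ‖(p : Ω)‖ < 1) {F' K' : Subfield Ω} {Y y : Ω} (hT : TT F' Y)
    (hd : DenseIn (adj F' Y) K') (hy : y ∈ K')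
    (hyr : Metric.infDist y (F' : Set Ω) ≤ Metric.infDist Y (F' : Set Ω)) :
    ∃ (H : ℕ) (c : ℕ → Ω) (ρ : ℝ), Metric.infDist Y (F' : Set Ω) < ρ ∧ (∀ h ≤ H, c h ∈ F') ∧
      (∀ h ≤ H, ‖c h‖ * Metric.infDist Y (F' : Set Ω) ^ p ^ h ≤
        Metric.infDist Y (F' : Set Ω)) ∧
      (1 ≤ H → ‖c H‖ * Metric.infDist Y (F' : Set Ω) ^ p ^ H =
        Metric.infDist Y (F' : Set Ω)) ∧
      ∀ a ∈ F', ‖Y - a‖ < ρ → ∃ e ∈ F',
        ‖y - e - ∑ h ∈ Finset.range (H + 1), c h * (Y - a) ^ p ^ h‖ <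
          Metric.infDist Y (F' : Set Ω) := by
  classical
  have hpp : p.Prime := Fact.out
  set r := Metric.infDist Y (F' : Set Ω) with hr
  have hr0 : 0 < r := hT.pos
  have hFne : (F' : Set Ω).Nonempty := ⟨0, F'.zero_mem⟩
  -- the polynomial `g`
  obtain ⟨x, hx, hyx⟩ := hd.2 y hy r hr0
  obtain ⟨g, hg, hxg⟩ := hT.poly_dense hx hr0
  have hyg : ‖y - g.eval Y‖ < r := by
    have : y - g.eval Y = (y - x) + (x - g.eval Y) := by ring
    rw [this]
    exact (IsUltrametricDist.norm_add_le_max _ _).trans_lt (max_lt hyx hxg)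
  -- coefficients
  have hcoef : ∀ i, Coeffs F' (hasseDeriv i g) := by
    intro i n
    rw [hasseDeriv_coeff]
    exact F'.mul_mem (natCast_mem F' _) (hg _)
  have hevalF : ∀ G : Polynomial Ω, Coeffs F' G → ∀ a ∈ F', G.eval a ∈ F' := by
    intro G hG a ha
    rw [eval_eq_sum_range]
    exact F'.sum_mem (fun i _ => F'.mul_mem (hG i) (F'.pow_mem ha i))
  set γ : ℕ → ℝ := fun i => ‖(hasseDeriv i g).eval Y‖ with hγ
  have hγ0 : ∀ i, 0 ≤ γ i := fun i => norm_nonneg _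
  -- step 2
  have hle : ∀ i, 1 ≤ i → γ i * r ^ i ≤ r := by
    intro i hi
    by_contra hcon
    rw [not_le] at hcon
    obtain ⟨b, hb, hyb⟩ := (Metric.infDist_lt_iff hFne).1 (hyr.trans_lt hcon)
    rw [dist_eq_norm] at hyb
    have h1 := hT.dist_le hg hb hi
    rw [← hr] at h1
    have h2 : g.eval Y - b = (y - b) - (y - g.eval Y) := by ring
    have h3 : ‖g.eval Y - b‖ ≤ max ‖y - b‖ ‖y - g.eval Y‖ := by
      rw [h2, sub_eq_add_neg]
      refine (IsUltrametricDist.norm_add_le_max _ _).trans ?_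
      rw [norm_neg]
    rcases le_max_iff.1 (h1.trans h3) with h4 | h4
    · exact absurd h4 (not_le.2 hyb)
    · have h5 : γ i * r ^ i ≤ ‖y - g.eval Y‖ := h4
      linarith
  -- step 3
  have hlt : ∀ i, 1 ≤ i → (∀ h, i ≠ p ^ h) → γ i * r ^ i < r := by
    intro i hi hnp
    by_cases h0 : (hasseDeriv i g).eval Y = 0
    · simp only [hγ]
      rw [h0, norm_zero, zero_mul]
      exact hr0
    obtain ⟨v, j, hj, hij⟩ := Nat.exists_eq_pow_mul_and_not_dvd (by omega : i ≠ 0) p hpp.ne_one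
    have hj0 : j ≠ 0 := by
      rintro rfl
      exact hj (dvd_zero p)
    have hj1 : j ≠ 1 := by
      rintro rfl
      exact hnp v (by rw [hij, mul_one])
    have hq0 : 1 ≤ p ^ v := Nat.one_le_pow _ _ hpp.pos
    have hqi : p ^ v < i := by
      rw [hij]
      calc p ^ v = p ^ v * 1 := (mul_one _).symm
        _ < p ^ v * j := Nat.mul_lt_mul_of_pos_left (by omega) hq0
    have h1 := hT.kaplansky hg hqi (by
      have := dsc1_norm_natCast (Ω := Ω) hp (dsc1_choose_not_dvd (p := p) hj v)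
      rw [hij]
      exact this) h0
    rw [← hr] at h1
    have h2 := hle (p ^ v) hq0
    calc γ i * r ^ i
        = (γ i * r ^ (i - p ^ v)) * r ^ (p ^ v) := by
          rw [mul_assoc, ← pow_add, Nat.sub_add_cancel hqi.le]
      _ < γ (p ^ v) * r ^ (p ^ v) :=
          mul_lt_mul_of_pos_right h1 (pow_pos hr0 _)
      _ ≤ r := h2
  set N := g.natDegree with hN
  have hbig : ∀ i, N < i → hasseDeriv i g = 0 :=
    fun i hi => hasseDeriv_eq_zero_of_lt_natDegree g i hi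
  have hNp : ∀ h, N ≤ h → N < p ^ h := fun h hh =>
    lt_of_le_of_lt hh (Nat.lt_pow_self hpp.one_lt)
  -- the index `H`
  set H := Nat.findGreatest (fun h => h = 0 ∨ γ (p ^ h) * r ^ p ^ h = r) N with hHdef
  have hH : H = 0 ∨ γ (p ^ H) * r ^ p ^ H = r :=
    Nat.findGreatest_spec (P := fun h => h = 0 ∨ γ (p ^ h) * r ^ p ^ h = r) (m := 0)
      (Nat.zero_le _) (Or.inl rfl)
  have hHmax : ∀ h, H < h → γ (p ^ h) * r ^ p ^ h < r := by
    intro h hh
    rcases le_or_gt h N with h1 | h1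
    · have h2 := Nat.findGreatest_is_greatest hh h1
      push Not at h2
      exact lt_of_le_of_ne (hle _ (Nat.one_le_pow _ _ hpp.pos)) h2.2
    · have h2 : hasseDeriv (p ^ h) g = 0 := hbig _ (hNp h h1.le)
      simp only [hγ]
      rw [h2, eval_zero, norm_zero, zero_mul]
      exact hr0
  have hgood : ∀ i, 1 ≤ i → (∀ h ≤ H, i ≠ p ^ h) → γ i * r ^ i < r := by
    intro i hi hnp
    by_cases h1 : ∃ h, i = p ^ h
    · obtain ⟨h, rfl⟩ := h1
      apply hHmax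
      by_contra h2
      exact hnp h (not_lt.1 h2) rfl
    · push Not at h1
      exact hlt i hi h1
  -- choice of `a₀`
  have evloc : ∀ h, ∀ᶠ ρ in 𝓝[>] r, ∀ a₀ : Ω, r < ‖Y - a₀‖ → ‖Y - a₀‖ < ρ → ∃ μ : ℝ, 0 ≤ μ ∧
      (μ < γ (p ^ h) ∨ μ = 0) ∧ ∀ a : Ω, ‖Y - a‖ ≤ ‖Y - a₀‖ →
        ‖(hasseDeriv (p ^ h) g).eval a - (hasseDeriv (p ^ h) g).eval a₀‖ ≤ μ := by
    intro h
    obtain ⟨ρ1, h1, h2⟩ := dsc1_loc hT (hcoef (p ^ h))
    filter_upwards [Ioo_mem_nhdsGT h1] with ρ hρ a₀ ha₀ ha₀'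
    exact h2 a₀ ha₀ (ha₀'.trans hρ.2)
  have evec : ∀ i, ∀ᶠ ρ in 𝓝[>] r, ∀ a : Ω, ‖Y - a‖ < ρ →
      ‖(hasseDeriv i g).eval a‖ = γ i := by
    intro i
    obtain ⟨ρ1, h1, h2⟩ := hT.ec (hcoef i)
    filter_upwards [Ioo_mem_nhdsGT h1] with ρ hρ a ha
    exact h2 a (ha.trans hρ.2)
  have evA : ∀ᶠ ρ in 𝓝[>] r, ∀ h ∈ Finset.range (H + 1), (∀ a₀ : Ω, r < ‖Y - a₀‖ →
      ‖Y - a₀‖ < ρ → ∃ μ : ℝ, 0 ≤ μ ∧
      (μ < γ (p ^ h) ∨ μ = 0) ∧ ∀ a : Ω, ‖Y - a‖ ≤ ‖Y - a₀‖ →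
        ‖(hasseDeriv (p ^ h) g).eval a - (hasseDeriv (p ^ h) g).eval a₀‖ ≤ μ) ∧
      (∀ a : Ω, ‖Y - a‖ < ρ → ‖(hasseDeriv (p ^ h) g).eval a‖ = γ (p ^ h)) := by
    rw [Filter.eventually_all_finset]
    intro h _
    exact (evloc h).and (evec (p ^ h))
  obtain ⟨ρ₀, hρ₀, hρ₀r⟩ := (evA.and self_mem_nhdsWithin).exists
  obtain ⟨a₀, ha₀F, ha₀ρ, ha₀r⟩ := hT.exists_near hρ₀r
  have hμ : ∀ h, ∃ μ : ℝ, h ≤ H → 0 ≤ μ ∧ (μ < γ (p ^ h) ∨ μ = 0) ∧
      ∀ a : Ω, ‖Y - a‖ ≤ ‖Y - a₀‖ →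
        ‖(hasseDeriv (p ^ h) g).eval a - (hasseDeriv (p ^ h) g).eval a₀‖ ≤ μ := by
    intro h
    by_cases hh : h ≤ H
    · obtain ⟨μ, h1⟩ := (hρ₀ h (Finset.mem_range.2 (by omega))).1 a₀ ha₀r ha₀ρ
      exact ⟨μ, fun _ => h1⟩
    · exact ⟨0, fun h1 => absurd h1 hh⟩
  choose μ hμ using hμ
  have hμr : ∀ h ≤ H, μ h * r ^ p ^ h < r := by
    intro h hh
    obtain ⟨-, h1 | h1, -⟩ := hμ h hh
    · exact (mul_lt_mul_of_pos_right h1 (pow_pos hr0 _)).trans_le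
        (hle _ (Nat.one_le_pow _ _ hpp.pos))
    · rw [h1, zero_mul]
      exact hr0
  -- choice of `ρ`
  have evB : ∀ᶠ ρ in 𝓝[>] r, ρ < ‖Y - a₀‖ := by
    filter_upwards [Ioo_mem_nhdsGT ha₀r] with ρ hρ
    exact hρ.2
  have evC : ∀ᶠ ρ in 𝓝[>] r, ∀ h ∈ Finset.range (H + 1), μ h * ρ ^ p ^ h < r := by
    rw [Filter.eventually_all_finset]
    intro h hh
    exact dsc1_ev (hμr h (by rw [Finset.mem_range] at hh; omega))
  have evD : ∀ᶠ ρ in 𝓝[>] r, ∀ i ∈ Finset.range (N + 1), (∀ a : Ω, ‖Y - a‖ < ρ →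
      ‖(hasseDeriv i g).eval a‖ = γ i) ∧ ((1 ≤ i ∧ ∀ h ≤ H, i ≠ p ^ h) → γ i * ρ ^ i < r) := by
    rw [Filter.eventually_all_finset]
    intro i _
    refine (evec i).and ?_
    by_cases h1 : 1 ≤ i ∧ ∀ h ≤ H, i ≠ p ^ h
    · filter_upwards [dsc1_ev (hgood i h1.1 h1.2)] with ρ hρ _
      exact hρ
    · exact Filter.Eventually.of_forall fun ρ h2 => absurd h2 h1
  obtain ⟨ρ, ⟨⟨hρB, hρC⟩, hρD⟩, hρr⟩ := (((evB.and evC).and evD).and self_mem_nhdsWithin).exists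
  have hρr' : r < ρ := hρr
  have hρ0 : 0 < ρ := hr0.trans hρr'
  have hcn : ∀ h ≤ H, ‖(hasseDeriv (p ^ h) g).eval a₀‖ = γ (p ^ h) := fun h hh =>
    (hρ₀ h (Finset.mem_range.2 (by omega))).2 a₀ ha₀ρ
  refine ⟨H, fun h => (hasseDeriv (p ^ h) g).eval a₀, ρ, hρr', ?_, ?_, ?_, ?_⟩
  · intro h _
    exact hevalF _ (hcoef _) a₀ ha₀F
  · intro h hh
    dsimp only
    rw [hcn h hh]
    exact hle _ (Nat.one_le_pow _ _ hpp.pos)
  · intro h1
    dsimp only
    rw [hcn H le_rfl]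
    rcases hH with h2 | h2
    · omega
    · exact h2
  intro a haF haρ
  refine ⟨g.eval a, hevalF g hg a haF, ?_⟩
  -- the Taylor expansion at `a`
  set M := p ^ (N + H) + 1 with hM
  have hNM : N < M := (hNp (N + H) (by omega)).trans (Nat.lt_succ_self _)
  have htay := dsc1_taylor g a Y (M := M) hNM
  have hinj : Set.InjOn (fun h : ℕ => p ^ h) (Finset.range (H + 1) : Set ℕ) :=
    fun x _ y _ hxy => Nat.pow_right_injective hpp.two_le hxy
  have hsplit : (Finset.range M).filter (fun i => 1 ≤ i) =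
      (Finset.range (H + 1)).image (fun h => p ^ h) ∪
        (Finset.range M).filter (fun i => 1 ≤ i ∧ ∀ h ≤ H, i ≠ p ^ h) := by
    ext i
    simp only [Finset.mem_union, Finset.mem_image, Finset.mem_range, Finset.mem_filter]
    constructor
    · rintro ⟨hi, hi1⟩
      by_cases hip : ∃ h, h ≤ H ∧ i = p ^ h
      · obtain ⟨h, hh, rfl⟩ := hip
        exact Or.inl ⟨h, by omega, rfl⟩
      · right
        push Not at hip
        exact ⟨hi, hi1, hip⟩
    · rintro (⟨h, hh, rfl⟩ | ⟨h1, h2, -⟩)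
      · refine ⟨?_, Nat.one_le_pow _ _ hpp.pos⟩
        have h3 : p ^ h ≤ p ^ (N + H) := Nat.pow_le_pow_right hpp.pos (by omega)
        omega
      · exact ⟨h1, h2⟩
  have hdisj : Disjoint ((Finset.range (H + 1)).image (fun h => p ^ h))
      ((Finset.range M).filter (fun i => 1 ≤ i ∧ ∀ h ≤ H, i ≠ p ^ h)) := by
    rw [Finset.disjoint_left]
    intro i hi hi2
    simp only [Finset.mem_image, Finset.mem_filter, Finset.mem_range] at hi hi2
    obtain ⟨h, hh, rfl⟩ := hi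
    exact hi2.2.2 h (by omega) rfl
  rw [hsplit, Finset.sum_union hdisj, Finset.sum_image hinj] at htay
  have hfin : y - g.eval a - ∑ h ∈ Finset.range (H + 1),
      (hasseDeriv (p ^ h) g).eval a₀ * (Y - a) ^ p ^ h =
      (y - g.eval Y) + (∑ h ∈ Finset.range (H + 1), ((hasseDeriv (p ^ h) g).eval a -
        (hasseDeriv (p ^ h) g).eval a₀) * (Y - a) ^ p ^ h +
      ∑ i ∈ (Finset.range M).filter (fun i => 1 ≤ i ∧ ∀ h ≤ H, i ≠ p ^ h),
        (hasseDeriv i g).eval a * (Y - a) ^ i) := by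
    have h1 : ∑ h ∈ Finset.range (H + 1), ((hasseDeriv (p ^ h) g).eval a -
        (hasseDeriv (p ^ h) g).eval a₀) * (Y - a) ^ p ^ h =
        ∑ h ∈ Finset.range (H + 1), (hasseDeriv (p ^ h) g).eval a * (Y - a) ^ p ^ h -
        ∑ h ∈ Finset.range (H + 1), (hasseDeriv (p ^ h) g).eval a₀ * (Y - a) ^ p ^ h := by
      rw [← Finset.sum_sub_distrib]
      exact Finset.sum_congr rfl (fun h _ => by ring)
    rw [h1]
    linear_combination htay
  rw [hfin]
  refine (IsUltrametricDist.norm_add_le_max _ _).trans_lt (max_lt hyg ?_)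
  refine (IsUltrametricDist.norm_add_le_max _ _).trans_lt (max_lt ?_ ?_)
  · refine dsc1_sum_lt _ _ hr0 fun h hh => ?_
    have hh' : h ≤ H := by rw [Finset.mem_range] at hh; omega
    rw [norm_mul, norm_pow]
    have h1 := (hμ h hh').2.2 a (haρ.le.trans hρB.le)
    calc ‖(hasseDeriv (p ^ h) g).eval a - (hasseDeriv (p ^ h) g).eval a₀‖ * ‖Y - a‖ ^ p ^ h
        ≤ μ h * ρ ^ p ^ h :=
          mul_le_mul h1 (pow_le_pow_left₀ (norm_nonneg _) haρ.le _) (by positivity) (hμ h hh').1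
      _ < r := hρC h hh
  · refine dsc1_sum_lt _ _ hr0 fun i hi => ?_
    rw [Finset.mem_filter] at hi
    rcases le_or_gt i N with h | h
    · obtain ⟨h1, h2⟩ := hρD i (Finset.mem_range.2 (by omega))
      rw [norm_mul, norm_pow, h1 a haρ]
      calc γ i * ‖Y - a‖ ^ i ≤ γ i * ρ ^ i :=
            mul_le_mul_of_nonneg_left (pow_le_pow_left₀ (norm_nonneg _) haρ.le _) (hγ0 i)
        _ < r := h2 hi.2
    · rw [hbig i h]
      simpa using hr0

end MP1a953e
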