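import Pool.Agent.Lib.MP_1a953e_ag.EmbDefs
import Pool.Agent.Lib.MP_1a953e_ag.GP2
import Pool.Agent.Lib.MP_1a953e_ag.Calc4

/-!
# Module Em10: density of k(u, alpha)
-/

namespace MP1a953e

open Polynomial IsLocalRing

universe v w

section

variable {Ω : Type*} [NormedField Ω] [IsUltrametricDist Ω]

/-- the unit ball as a subring -/
private def OO (Ω : Type*) [NormedField Ω] [IsUltrametricDist Ω] : Subring Ω where
  carrier := {z | ‖z‖ ≤ 1}
  mul_mem' := by
    intro a b ha hb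
    simp only [Set.mem_ofPred_eq] at *
    rw [norm_mul]
    exact mul_le_one₀ ha (norm_nonneg _) hb
  one_mem' := by simp
  add_mem' := by
    intro a b ha hb
    exact (IsUltrametricDist.norm_add_le_max a b).trans (max_le ha hb)
  zero_mem' := by simp
  neg_mem' := by
    intro a ha
    simpa using ha

private lemma lift_OO {f : Polynomial Ω} (hf1 : ∀ i, ‖f.coeff i‖ ≤ 1) :
    ∃ F : Polynomial (OO Ω), F.map (OO Ω).subtype = f := by
  have h : (↑f.coeffs : Set Ω) ⊆ (OO Ω : Set Ω) := by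
    intro z hz
    have hz' : z ∈ f.coeffs := hz
    rw [Polynomial.mem_coeffs_iff] at hz'
    obtain ⟨n, _, rfl⟩ := hz'
    exact hf1 n
  exact ⟨f.toSubring (OO Ω) h, Polynomial.map_toSubring f (OO Ω) h⟩

private lemma eval_OO (F : Polynomial (OO Ω)) (z : OO Ω) :
    (F.map (OO Ω).subtype).eval (z : Ω) = ((F.eval z : OO Ω) : Ω) := by
  rw [Polynomial.eval_map]
  exact Polynomial.eval₂_at_apply (OO Ω).subtype z

private lemma deriv_OO {f : Polynomial Ω} (hf1 : ∀ i, ‖f.coeff i‖ ≤ 1) :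
    ∀ i, ‖f.derivative.coeff i‖ ≤ 1 := by
  intro i
  rw [Polynomial.coeff_derivative, norm_mul]
  refine mul_le_one₀ (hf1 _) (norm_nonneg _) ?_
  have := IsUltrametricDist.norm_natCast_le_one Ω (i + 1)
  simpa using this

private lemma taylor2 {f : Polynomial Ω} (hf1 : ∀ i, ‖f.coeff i‖ ≤ 1) {y h : Ω} (hy : ‖y‖ ≤ 1)
    (hh : ‖h‖ ≤ 1) :
    ∃ k : Ω, ‖k‖ ≤ 1 ∧ f.eval (y + h) = f.eval y + f.derivative.eval y * h + k * h ^ 2 := by
  obtain ⟨F, hF⟩ := lift_OO hf1
  let y' : OO Ω := ⟨y, hy⟩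
  let h' : OO Ω := ⟨h, hh⟩
  obtain ⟨k, hk⟩ := Polynomial.binomExpansion F y' h'
  refine ⟨k, k.2, ?_⟩
  have h1 := eval_OO F (y' + h')
  have h2 := eval_OO F y'
  have h3 := eval_OO (derivative F) y'
  rw [← Polynomial.derivative_map] at h3
  rw [hF] at h1 h2 h3
  have e1 : ((y' + h' : OO Ω) : Ω) = y + h := rfl
  have e2 : ((y' : OO Ω) : Ω) = y := rfl
  rw [e1] at h1
  rw [e2] at h2 h3
  rw [h1, h2, h3, hk]
  rfl

private lemma taylor1 {f : Polynomial Ω} (hf1 : ∀ i, ‖f.coeff i‖ ≤ 1) {y h : Ω} (hy : ‖y‖ ≤ 1)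
    (hh : ‖h‖ ≤ 1) : ‖f.eval (y + h) - f.eval y‖ ≤ ‖h‖ := by
  obtain ⟨F, hF⟩ := lift_OO hf1
  let y' : OO Ω := ⟨y, hy⟩
  let h' : OO Ω := ⟨h, hh⟩
  obtain ⟨k, hk⟩ := Polynomial.evalSubFactor F (y' + h') y'
  have h1 := eval_OO F (y' + h')
  have h2 := eval_OO F y'
  rw [hF] at h1 h2
  have e1 : ((y' + h' : OO Ω) : Ω) = y + h := rfl
  have e2 : ((y' : OO Ω) : Ω) = y := rfl
  rw [e1] at h1
  rw [e2] at h2
  have h4 : f.eval (y + h) - f.eval y = k * h := by
    rw [h1, h2]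
    have := congrArg (fun z : OO Ω => (z : Ω)) hk
    simp only [add_sub_cancel_left] at this
    exact this
  rw [h4, norm_mul]
  calc ‖(k : Ω)‖ * ‖h‖ ≤ 1 * ‖h‖ := mul_le_mul_of_nonneg_right k.2 (norm_nonneg _)
    _ = ‖h‖ := one_mul _

end

/-- EM10 (density of `k(u, α)`).  Here `Y`, `c` are either as in the second alternative of `hcase`
(`F(Y)` dense in `K`, `Y ∉ F`, `0 ≠ c ∈ k'`, `‖c * Y‖ < 1`), or `K = F` and `c = 0`. Proof: let
`Q` be the closure of the field generated by `k'`, `κ0` and `α` in `K` (complete). The minimal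
polynomial `f` of `a` over `κ0` has coefficients of norm `≤ 1`, `‖f α‖ < 1`, `‖f' α‖ = 1` (as `‖α - a‖ < 1`
and `f' a` is a nonzero element of `κ`), so by `hensel` `Q` contains a root of `f` at distance `< 1` from
`α`, hence from `a`, and this root is `a` (otherwise `‖f' a‖ < 1`). So `κ ≤ Q`, `F ≤ Q` (closure). In the
second case `q = (α - a) / c ∈ Q` has `‖Y - q‖ < infDist Y F`, and `TT.gc` gives `K ≤ Q`. -/
theorem dense_of_close {Ω : Type*} [NormedField Ω] [IsUltrametricDist Ω] [IsAlgClosed Ω]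
    {k0 k' κ0 κ F K : Subfield Ω} (hG : Gs k0 k' κ F) (hI : Imm F K)
    (hK : IsComplete (K : Set Ω)) (h0 : k0 ≤ κ0) {a Y c α : Ω}
    (hκ : κ = adj κ0 a) (hsep : IsSeparable κ0 a) (hα : α ∈ K)
    (hcase : (c = 0 ∧ K ≤ F ∧ ‖α - a‖ < 1) ∨
      (TT F Y ∧ DenseIn (adj F Y) K ∧ c ∈ k' ∧ c ≠ 0 ∧ ‖c * Y‖ < 1 ∧ ‖α - a‖ < 1 ∧
        ‖α - (a + c * Y)‖ < ‖c‖ * Metric.infDist Y (F : Set Ω))) :
    DenseIn (adj (k' ⊔ κ0) α) K := by
  have hkF : k' ≤ F := hG.k_le
  have hκF : κ ≤ F := hG.κ_le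
  have hFK : F ≤ K := hI.1
  have haκ : a ∈ κ := hκ ▸ mem_adj_self κ0 a
  have hκ0 : κ0 ≤ κ := hκ ▸ le_adj κ0 a
  have hαa : ‖α - a‖ < 1 := by
    rcases hcase with h | h
    · exact h.2.2
    · exact h.2.2.2.2.2.1
  set A : Subfield Ω := adj (k' ⊔ κ0) α with hA
  have hkA : k' ≤ A := le_sup_left.trans (le_adj _ _)
  have hκ0A : κ0 ≤ A := le_sup_right.trans (le_adj _ _)
  have hαA : α ∈ A := mem_adj_self _ _
  have hAK : A ≤ K := adj_le (sup_le (hkF.trans hFK) (hκ0.trans (hκF.trans hFK))) hα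
  have hKc : IsClosed (K : Set Ω) := hK.isClosed
  set Q : Subfield Ω := A.topologicalClosure with hQ
  have hAQ : A ≤ Q := Subfield.le_topologicalClosure A
  have hQK : Q ≤ K := Subfield.topologicalClosure_minimal A hAK hKc
  have hQc : IsClosed (Q : Set Ω) := Subfield.isClosed_topologicalClosure A
  have hQcomp : IsComplete (Q : Set Ω) := by
    intro g hg hgQ
    obtain ⟨x, -, hx⟩ := hK g hg (hgQ.trans (Filter.principal_mono.2 hQK))
    exact ⟨x, isClosed_iff_clusterPt.1 hQc x (hg.1.mono (le_inf hx hgQ)), hx⟩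
  have hnκ : ∀ x ∈ κ, ‖x‖ ≤ 1 := by
    intro x hx
    by_cases h : x = 0
    · simp [h]
    · exact (hG.triv x hx h).le
  -- the polynomial
  set f : Polynomial Ω := (minpoly κ0 a).map (algebraMap κ0 Ω) with hf
  have hfκ0 : ∀ i, f.coeff i ∈ κ0 := by
    intro i
    rw [hf, coeff_map]
    exact ((minpoly κ0 a).coeff i).2
  have hf1 : ∀ i, ‖f.coeff i‖ ≤ 1 := fun i => hnκ _ (hκ0 (hfκ0 i))
  have hfa : f.eval a = 0 := by
    rw [hf, eval_map_algebraMap, minpoly.aeval]
  have hfda : ‖f.derivative.eval a‖ = 1 := by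
    apply hG.triv
    · rw [eval_eq_sum_range]
      refine Subfield.sum_mem _ fun i _ => κ.mul_mem ?_ (κ.pow_mem haκ i)
      rw [coeff_derivative]
      refine κ.mul_mem (hκ0 (hfκ0 _)) ?_
      have : ((i : Ω) + 1) = ((i + 1 : ℕ) : Ω) := by push_cast; ring
      rw [this]
      exact natCast_mem κ (i + 1)
    · rw [hf, derivative_map, eval_map_algebraMap]
      exact hsep.aeval_derivative_ne_zero (minpoly.aeval κ0 a)
  have ha1 : ‖a‖ ≤ 1 := hnκ a haκ
  have hα1 : ‖α‖ ≤ 1 := by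
    have : α = (α - a) + a := by ring
    rw [this]
    exact (IsUltrametricDist.norm_add_le_max _ _).trans (max_le hαa.le ha1)
  have hfα : ‖f.eval α‖ < 1 := by
    have h := taylor1 hf1 ha1 hαa.le
    have e : a + (α - a) = α := by ring
    rw [e, hfa, sub_zero] at h
    exact h.trans_lt hαa
  have hfdα : ‖f.derivative.eval α‖ = 1 := by
    have h := taylor1 (deriv_OO hf1) ha1 hαa.le
    have e : a + (α - a) = α := by ring
    rw [e] at h
    have h2 : ‖f.derivative.eval α - f.derivative.eval a‖ < ‖f.derivative.eval a‖ := by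
      rw [hfda]
      exact h.trans_lt hαa
    have e2 : f.derivative.eval α =
        f.derivative.eval a + (f.derivative.eval α - f.derivative.eval a) := by ring
    rw [e2, IsUltrametricDist.norm_add_eq_max_of_norm_ne_norm h2.ne', max_eq_left h2.le, hfda]
  obtain ⟨b, hbQ, hfb, hαb⟩ := hensel hQcomp (fun i => hAQ (hκ0A (hfκ0 i))) hf1 (hAQ hαA) hα1 hfα hfdα
  have hba : b = a := by
    by_contra hne
    have hd : ‖b - a‖ < 1 := by
      have : b - a = -(α - b) + (α - a) := by ring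
      rw [this]
      refine (IsUltrametricDist.norm_add_le_max _ _).trans_lt (max_lt ?_ hαa)
      rwa [norm_neg]
    obtain ⟨k, hk1, hk⟩ := taylor2 hf1 ha1 hd.le
    have e : a + (b - a) = b := by ring
    rw [e, hfb, hfa, zero_add] at hk
    have h1 : (b - a) * (f.derivative.eval a + k * (b - a)) = 0 := by
      linear_combination -hk
    have h2 : f.derivative.eval a = -(k * (b - a)) := by
      rcases mul_eq_zero.1 h1 with h | h
      · exact absurd (sub_eq_zero.1 h) hne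
      · exact eq_neg_of_add_eq_zero_left h
    have h3 : ‖f.derivative.eval a‖ < 1 := by
      rw [h2, norm_neg, norm_mul]
      calc ‖k‖ * ‖b - a‖ ≤ 1 * ‖b - a‖ := mul_le_mul_of_nonneg_right hk1 (norm_nonneg _)
        _ < 1 := by rwa [one_mul]
    exact absurd hfda h3.ne
  have haQ : a ∈ Q := hba ▸ hbQ
  have hκQ : κ ≤ Q := by
    rw [hκ]
    exact adj_le (hκ0A.trans hAQ) haQ
  have hFQ : F ≤ Q := by
    intro x hx
    have hx' : x ∈ closure (Q : Set Ω) := by
      rw [Metric.mem_closure_iff]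
      intro ε hε
      obtain ⟨g, hg, hxg⟩ := hG.dense x hx ε hε
      refine ⟨g, ?_, by rwa [dist_eq_norm]⟩
      have hle : Subring.closure ((k' : Set Ω) ∪ κ) ≤ Q.toSubring := by
        rw [Subring.closure_le]
        rintro y (hy | hy)
        · exact hAQ (hkA hy)
        · exact hκQ hy
      exact hle hg
    rwa [hQc.closure_eq] at hx'
  have hKQ : K ≤ Q := by
    rcases hcase with h | ⟨hT, hD, hck, hc0, hcY, -, hlt⟩
    · exact h.2.1.trans hFQ
    · set q : Ω := (α - a) / c with hq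
      have hcQ : c ∈ Q := hAQ (hkA hck)
      have hqQ : q ∈ Q := Q.div_mem (Q.sub_mem (hAQ hαA) haQ) hcQ
      have hYq : ‖Y - q‖ < Metric.infDist Y (F : Set Ω) := by
        have hcpos : 0 < ‖c‖ := norm_pos_iff.2 hc0
        have e : α - (a + c * Y) = -(c * (Y - q)) := by
          rw [hq]
          field_simp
          ring
        rw [e, norm_neg, norm_mul] at hlt
        exact lt_of_mul_lt_mul_left hlt hcpos.le
      have hD2 := hT.gc hD (hQK hqQ) hYq
      have hle : adj F q ≤ Q := adj_le hFQ hqQ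
      intro x hx
      have hx' : x ∈ closure (Q : Set Ω) := by
        rw [Metric.mem_closure_iff]
        intro ε hε
        obtain ⟨y, hy, hxy⟩ := hD2.2 x hx ε hε
        exact ⟨y, hle hy, by rwa [dist_eq_norm]⟩
      rwa [hQc.closure_eq] at hx'
  refine ⟨hAK, fun x hx ε hε => ?_⟩
  have hx' : x ∈ closure (A : Set Ω) := hKQ hx
  rw [Metric.mem_closure_iff] at hx'
  obtain ⟨y, hy, hxy⟩ := hx' ε hε
  exact ⟨y, hy, by rwa [dist_eq_norm] at hxy⟩

end MP1a953e
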