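import Pool.Agent.Lib.MP_1a953e_ag.EmbDefs

/-!
# Module Em2: coefficient field of k
-/

namespace MP1a953e

open Polynomial IsLocalRing

universe v w

/-- the norm of a polynomial value is at most `1` over a trivially normed field -/
private theorem em2_norm_aeval_le {Ω : Type w} [NormedField Ω] [IsUltrametricDist Ω]
    (k0 : Subfield Ω) (ht : ∀ x ∈ k0, x ≠ 0 → ‖x‖ = 1) (f : Polynomial k0) (x : Ω) {B : ℝ}
    (hB0 : 0 ≤ B) (hB : ∀ i ∈ f.support, ‖x‖ ^ i ≤ B) : ‖aeval x f‖ ≤ B := by
  rw [aeval_eq_sum_range]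
  refine IsUltrametricDist.norm_sum_le_of_forall_le_of_nonneg hB0 ?_
  intro i _
  rw [Algebra.smul_def, norm_mul, norm_pow]
  by_cases hi : f.coeff i = 0
  · simp [hi, hB0]
  · have h1 : ‖(algebraMap k0 Ω) (f.coeff i)‖ = 1 := by
      apply ht _ (f.coeff i).2
      intro h
      exact hi (Subtype.ext h)
    rw [h1, one_mul]
    exact hB i (mem_support_iff.2 hi)

private theorem em2_eval {Ω : Type w} [NormedField Ω] {k0 k' : Subfield Ω} (hle : k0 ≤ k')
    (f : Polynomial k0) (y : k') :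
    aeval (y : Ω) f = ((eval y (f.map (Subfield.inclusion hle)) : k') : Ω) := by
  rw [eval_map, aeval_def]
  exact (Polynomial.hom_eval₂ f (Subfield.inclusion hle) k'.subtype y).symm

/-- algebraic elements over a trivially normed field have norm at most one -/
private theorem em2_norm_le_one {Ω : Type w} [NormedField Ω] [IsUltrametricDist Ω]
    (k0 : Subfield Ω) (ht : ∀ x ∈ k0, x ≠ 0 → ‖x‖ = 1) (β : Ω) (hβ : IsAlgebraic k0 β) :
    ‖β‖ ≤ 1 := by
  by_contra hlt
  push Not at hlt
  have hint : IsIntegral k0 β := hβ.isIntegral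
  obtain ⟨f, hf, hf0⟩ := hint
  have hf0' : aeval β f = 0 := hf0
  have hnd : 0 < f.natDegree := by
    by_contra h
    have h0 : f.natDegree = 0 := by omega
    have h1 : f = 1 := hf.natDegree_eq_zero.1 h0
    rw [h1] at hf0'
    simp at hf0'
  rw [aeval_eq_sum_range, Finset.sum_range_succ] at hf0'
  have h2 : β ^ f.natDegree = -∑ i ∈ Finset.range f.natDegree, f.coeff i • β ^ i := by
    have h3 : f.coeff f.natDegree = 1 := hf
    rw [h3, one_smul] at hf0'
    rw [eq_neg_iff_add_eq_zero, add_comm]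
    exact hf0'
  have h4 : ‖β ^ f.natDegree‖ ≤ ‖β‖ ^ (f.natDegree - 1) := by
    rw [h2, norm_neg]
    refine IsUltrametricDist.norm_sum_le_of_forall_le_of_nonneg (by positivity) ?_
    intro i hi
    rw [Finset.mem_range] at hi
    rw [Algebra.smul_def, norm_mul, norm_pow]
    have h6 : ‖(algebraMap k0 Ω) (f.coeff i)‖ ≤ 1 := by
      by_cases hc : f.coeff i = 0
      · simp [hc]
      · refine le_of_eq (ht _ (f.coeff i).2 ?_)
        intro h
        exact hc (Subtype.ext h)
    have h7 : ‖β‖ ^ i ≤ ‖β‖ ^ (f.natDegree - 1) := pow_le_pow_right₀ hlt.le (by omega)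
    calc ‖(algebraMap k0 Ω) (f.coeff i)‖ * ‖β‖ ^ i ≤ 1 * ‖β‖ ^ (f.natDegree - 1) := by gcongr
      _ = _ := one_mul _
  rw [norm_pow] at h4
  have h5 : ‖β‖ ^ (f.natDegree - 1) < ‖β‖ ^ f.natDegree := pow_lt_pow_right₀ hlt (by omega)
  linarith

private theorem em2_norm_eq_one {Ω : Type w} [NormedField Ω] [IsUltrametricDist Ω]
    (k0 : Subfield Ω) (ht : ∀ x ∈ k0, x ≠ 0 → ‖x‖ = 1) (β : Ω) (hβ : IsAlgebraic k0 β)
    (h0 : β ≠ 0) : ‖β‖ = 1 := by
  apply le_antisymm (em2_norm_le_one k0 ht β hβ)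
  have h1 := em2_norm_le_one k0 ht β⁻¹ hβ.inv
  rw [norm_inv] at h1
  exact (inv_le_one₀ (norm_pos_iff.2 h0)).1 h1

/-- EM2 (coefficient field of the ground field).  Proof: by Zorn's lemma take a maximal subfield `k0` of `k'` on
which the norm is trivial (the prime field is one). Let `x ∈ k'`, `‖x‖ ≤ 1`. If `‖f x‖ = 1` for all
nonzero polynomials `f` over `k0`, then `k0(x)` is trivially normed, so `x ∈ k0`. Otherwise let `f` be
a nonconstant polynomial over `k0` with `‖f x‖ < 1`; it splits in `k'`, so `‖x - β‖ < 1` for one of its roots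
`β ∈ k'`; `β` is algebraic over `k0`, so `k0(β)` is trivially normed and `β ∈ k0`. -/
theorem exists_ground {Ω : Type w} [NormedField Ω] [IsUltrametricDist Ω] {p : ℕ} [Fact p.Prime]
    [CharP Ω p] (k' : Subfield Ω) (hk : IsAlgClosed k') (hnt : ∃ x ∈ k', 1 < ‖x‖) :
    ∃ k0 : Subfield Ω, Ground k0 k' := by
  classical
  let S : Set (Subfield Ω) := {F | F ≤ k' ∧ ∀ x ∈ F, x ≠ 0 → ‖x‖ = 1}
  have hbot : (⊥ : Subfield Ω) ∈ S := by
    refine ⟨bot_le, ?_⟩
    intro x hx hx0
    have h1 : (⊥ : Subfield Ω) ≤ (ZMod.castHom (dvd_refl p) Ω).fieldRange := bot_le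
    obtain ⟨a, ha⟩ := h1 hx
    have ha0 : a ≠ 0 := by
      rintro rfl
      apply hx0
      rw [← ha, map_zero]
    have h2 : x ^ (p - 1) = 1 := by
      rw [← ha, ← map_pow, ZMod.pow_card_sub_one_eq_one ha0, map_one]
    have h3 : ‖x‖ ^ (p - 1) = 1 := by rw [← norm_pow, h2, norm_one]
    have hp : p - 1 ≠ 0 := by
      have := (Fact.out : p.Prime).two_le
      omega
    exact (pow_eq_one_iff_of_nonneg (norm_nonneg _) hp).1 h3
  have hchain : ∀ c ⊆ S, IsChain (· ≤ ·) c → ∀ y ∈ c, ∃ ub ∈ S, ∀ z ∈ c, z ≤ ub := by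
    intro c hc hch y hy
    refine ⟨sSup c, ⟨sSup_le fun F hF => (hc hF).1, ?_⟩, fun z hz => le_sSup hz⟩
    intro x hx hx0
    rw [Subfield.mem_sSup_of_directedOn ⟨y, hy⟩ hch.directedOn] at hx
    obtain ⟨F, hF, hxF⟩ := hx
    exact (hc hF).2 x hxF hx0
  obtain ⟨k0, _, hk0⟩ := zorn_le_nonempty₀ S hchain ⊥ hbot
  have hS : k0 ∈ S := hk0.1
  have ht := hS.2
  have hle := hS.1
  -- maximality: any element generating a trivially normed extension is in `k0`
  have hmax : ∀ x ∈ k', (∀ y ∈ IntermediateField.adjoin k0 {x}, y ≠ 0 → ‖y‖ = 1) → x ∈ k0 := by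
    intro x hx h
    have h1 : (IntermediateField.adjoin k0 {x}).toSubfield ∈ S := by
      refine ⟨?_, fun y hy hy0 => h y hy hy0⟩
      intro y hy
      have hy' : y ∈ IntermediateField.adjoin k0 {x} := hy
      obtain ⟨r, s, rfl⟩ := IntermediateField.mem_adjoin_simple_iff k0 y |>.1 hy'
      have h2 : ∀ f : Polynomial k0, aeval x f ∈ k' := by
        intro f
        rw [aeval_eq_sum_range]
        refine sum_mem fun i _ => ?_
        rw [Algebra.smul_def]
        exact mul_mem (hle (f.coeff i).2) (pow_mem hx i)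
      exact div_mem (h2 r) (h2 s)
    have h3 : k0 ≤ (IntermediateField.adjoin k0 {x}).toSubfield := by
      intro y hy
      exact (IntermediateField.adjoin k0 {x}).algebraMap_mem ⟨y, hy⟩
    have h4 := hk0.2 h1 h3
    exact h4 (IntermediateField.mem_adjoin_simple_self k0 x)
  have halg : ∀ β ∈ k', IsAlgebraic k0 β → β ∈ k0 := by
    intro β hβ hβa
    apply hmax β hβ
    intro y hy hy0
    have h1 : Algebra.IsAlgebraic k0 (IntermediateField.adjoin k0 {β}) :=
      IntermediateField.isAlgebraic_adjoin_simple hβa.isIntegral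
    have h2 : IsAlgebraic k0 (⟨y, hy⟩ : IntermediateField.adjoin k0 {β}) := h1.isAlgebraic _
    have h3 : IsAlgebraic k0 y := by
      have := h2.algebraMap (A := Ω)
      exact this
    exact em2_norm_eq_one k0 ht y h3 hy0
  refine ⟨k0, hle, hk, hnt, ht, ?_⟩
  intro x hx hx1
  by_cases hall : ∀ f : Polynomial k0, f ≠ 0 → ‖aeval x f‖ = 1
  · refine ⟨x, ?_, by simp⟩
    apply hmax x hx
    intro y hy hy0
    obtain ⟨r, s, rfl⟩ := IntermediateField.mem_adjoin_simple_iff k0 y |>.1 hy
    have hr : r ≠ 0 := by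
      rintro rfl
      simp at hy0
    have hs : s ≠ 0 := by
      rintro rfl
      simp at hy0
    rw [norm_div, hall r hr, hall s hs, div_one]
  · push Not at hall
    obtain ⟨f, hf0, hfx⟩ := hall
    have hfle : ‖aeval x f‖ ≤ 1 :=
      em2_norm_aeval_le k0 ht f x zero_le_one fun i _ => pow_le_one₀ (norm_nonneg _) hx1
    have hflt : ‖aeval x f‖ < 1 := lt_of_le_of_ne hfle hfx
    let ι : k0 →+* k' := Subfield.inclusion hle
    have hι : Function.Injective ι := ι.injective
    set g : Polynomial k' := f.map ι with hg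
    have hg0 : g ≠ 0 := (Polynomial.map_ne_zero_iff hι).2 hf0
    have hsp : g.Splits := IsAlgClosed.splits g
    have hprod := hsp.eq_prod_roots
    have hval : aeval x f = ((eval (⟨x, hx⟩ : k') g : k') : Ω) := em2_eval hle f ⟨x, hx⟩
    have hlead : ‖((g.leadingCoeff : k') : Ω)‖ = 1 := by
      have h1 : g.leadingCoeff = ι f.leadingCoeff := Polynomial.leadingCoeff_map_of_injective hι f
      rw [h1]
      apply ht _ (f.leadingCoeff).2
      intro h
      exact hf0 (leadingCoeff_eq_zero.1 (Subtype.ext h))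
    have hex : ∃ β ∈ g.roots, ‖x - (β : Ω)‖ < 1 := by
      by_contra hcon
      push Not at hcon
      have h1 : (1 : ℝ) ≤ ‖((eval (⟨x, hx⟩ : k') g : k') : Ω)‖ := by
        rw [hprod, eval_mul, eval_C, eval_multiset_prod, Multiset.map_map]
        simp only [Function.comp_def, eval_sub, eval_X, eval_C]
        rw [Subfield.coe_mul, norm_mul, hlead, one_mul]
        have h2 : ∀ m : Multiset k', (∀ β ∈ m, (1 : ℝ) ≤ ‖x - (β : Ω)‖) →
            (1 : ℝ) ≤ ‖(((m.map fun β => (⟨x, hx⟩ : k') - β).prod : k') : Ω)‖ := by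
          intro m
          induction m using Multiset.induction with
          | empty => intro _; simp
          | cons a m ih =>
            intro h
            rw [Multiset.map_cons, Multiset.prod_cons, Subfield.coe_mul, norm_mul]
            have h3 := h a (Multiset.mem_cons_self a m)
            have h4 := ih fun β hβ => h β (Multiset.mem_cons_of_mem hβ)
            have h5 : ‖(((⟨x, hx⟩ : k') - a : k') : Ω)‖ = ‖x - (a : Ω)‖ := rfl
            rw [h5]
            nlinarith
        exact h2 _ hcon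
      rw [← hval] at h1
      linarith
    obtain ⟨β, hβ, hlt⟩ := hex
    refine ⟨β, ?_, hlt⟩
    apply halg β β.2
    refine ⟨f, hf0, ?_⟩
    have h1 : eval β g = 0 := (mem_roots hg0).1 hβ
    have h2 : aeval (β : Ω) f = ((eval β g : k') : Ω) := em2_eval hle f β
    rw [h2, h1]
    rfl

end MP1a953e
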