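import Pool.Agent.Lib.MP_1a953e_ag.Defs

/-!
# Module Gs2: trivially normed extensions
-/

namespace MP1a953e

open Polynomial

variable {Ω : Type*} [NormedField Ω] [IsUltrametricDist Ω]

/-- an element algebraic over a trivially normed field has norm at most one -/
private theorem Gs2_norm_le {κ : Subfield Ω} (htriv : ∀ x ∈ κ, x ≠ 0 → ‖x‖ = 1) {x : Ω}
    (hx : IsAlgebraic κ x) : ‖x‖ ≤ 1 := by
  have hint : IsIntegral κ x := hx.isIntegral
  by_contra hlt
  push Not at hlt
  set P := minpoly κ x with hP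
  have hmon : P.Monic := minpoly.monic hint
  have h0 : aeval x P = 0 := minpoly.aeval κ x
  rw [aeval_eq_sum_range, Finset.sum_range_succ, hmon.coeff_natDegree, one_smul] at h0
  have hn0 : P.natDegree ≠ 0 := (minpoly.natDegree_pos hint).ne'
  have h1 : x ^ P.natDegree = - ∑ i ∈ Finset.range P.natDegree, P.coeff i • x ^ i :=
    eq_neg_of_add_eq_zero_right h0
  have hne : (Finset.range P.natDegree).Nonempty := by
    rw [Finset.nonempty_range_iff]
    exact hn0
  obtain ⟨i, hi, hle⟩ := IsUltrametricDist.exists_norm_finsetSum_le_of_nonempty hne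
    (fun i => P.coeff i • x ^ i)
  have h2 : ‖x‖ ^ P.natDegree ≤ ‖x‖ ^ i := by
    rw [← norm_pow, h1, norm_neg]
    refine hle.trans ?_
    have h3 : ‖((P.coeff i : κ) : Ω)‖ ≤ 1 := by
      by_cases hc : ((P.coeff i : κ) : Ω) = 0
      · rw [hc, norm_zero]
        exact zero_le_one
      · rw [htriv _ (P.coeff i).2 hc]
    have h4 : P.coeff i • x ^ i = ((P.coeff i : κ) : Ω) * x ^ i := rfl
    rw [h4, norm_mul, norm_pow]
    exact mul_le_of_le_one_left (by positivity) h3
  have h5 : ‖x‖ ^ i < ‖x‖ ^ P.natDegree := pow_lt_pow_right₀ hlt (Finset.mem_range.1 hi)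
  exact absurd h2 (not_le.2 h5)

/-- GS5 (finite extensions of trivially normed fields are trivially normed, with a basis containing `1`).
Proof: every element of `κ'` is algebraic over `κ` (`κ' / κ` is finite); a monic equation with
coefficients of norm `≤ 1` gives `‖x‖ ≤ 1`, the same for `x⁻¹`.  The orthogonality inequality for
trivially normed fields is linear independence. -/
theorem exists_orthBasis {κ : Subfield Ω} (htriv : ∀ x ∈ κ, x ≠ 0 → ‖x‖ = 1) (s : Finset Ω)
    (hs : ∀ x ∈ s, IsAlgebraic κ x) :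
    (∀ x ∈ κ ⊔ Subfield.closure (s : Set Ω), x ≠ 0 → ‖x‖ = 1) ∧
      ∃ (d : ℕ) (θ : Fin (d + 1) → Ω), OrthBasis κ (κ ⊔ Subfield.closure (s : Set Ω)) θ := by
  classical
  set E : IntermediateField κ Ω := IntermediateField.adjoin κ (s : Set Ω) with hE
  have hEeq : E.toSubfield = κ ⊔ Subfield.closure (s : Set Ω) := by
    apply le_antisymm
    · intro x hx
      have hx' : x ∈ Subfield.closure (Set.range (algebraMap κ Ω) ∪ (s : Set Ω)) := hx
      refine (Subfield.closure_le.2 ?_) hx'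
      rintro y (⟨z, rfl⟩ | hy)
      · exact (le_sup_left : κ ≤ κ ⊔ Subfield.closure (s : Set Ω)) z.2
      · exact (le_sup_right : Subfield.closure (s : Set Ω) ≤ κ ⊔ Subfield.closure (s : Set Ω))
          (Subfield.subset_closure hy)
    · refine sup_le ?_ (Subfield.closure_le.2 ?_)
      · intro x hx
        exact E.algebraMap_mem ⟨x, hx⟩
      · intro x hx
        exact IntermediateField.subset_adjoin κ _ hx
  have hfin : FiniteDimensional κ E := by
    refine IntermediateField.finiteDimensional_adjoin ?_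
    intro x hx
    exact (hs x hx).isIntegral
  have htriv' : ∀ x ∈ κ ⊔ Subfield.closure (s : Set Ω), x ≠ 0 → ‖x‖ = 1 := by
    intro x hx hx0
    rw [← hEeq] at hx
    have hxa : IsAlgebraic κ x := by
      have h1 : IsAlgebraic κ (⟨x, hx⟩ : E) := Algebra.IsAlgebraic.isAlgebraic _
      exact h1.algHom E.val
    have h1 : ‖x‖ ≤ 1 := Gs2_norm_le htriv hxa
    have h2 : ‖x⁻¹‖ ≤ 1 := Gs2_norm_le htriv hxa.inv
    rw [norm_inv] at h2
    have hpos : 0 < ‖x‖ := norm_pos_iff.2 hx0
    refine le_antisymm h1 ?_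
    by_contra hlt
    push Not at hlt
    have := one_lt_inv_iff₀.2 ⟨hpos, hlt⟩
    exact absurd h2 (not_le.2 this)
  refine ⟨htriv', ?_⟩
  -- a basis containing one
  have hli : LinearIndepOn κ id ({(1 : E)} : Set E) := by
    exact LinearIndepOn.singleton (v := id) (i := (1 : E)) one_ne_zero
  obtain ⟨ι, b, hbv, h1mem⟩ : ∃ (ι : Set E) (b : Module.Basis ι κ E),
      (∀ i, b i = (i : E)) ∧ (1 : E) ∈ ι :=
    ⟨_, Module.Basis.extend hli, Module.Basis.extend_apply_self hli,
      hli.subset_extend _ (Set.mem_singleton _)⟩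
  have : Fintype ι := FiniteDimensional.fintypeBasisIndex b
  have hcard : 0 < Fintype.card ι := Fintype.card_pos_iff.2 ⟨⟨1, h1mem⟩⟩
  obtain ⟨d, hd⟩ : ∃ d, Fintype.card ι = d + 1 := ⟨Fintype.card ι - 1, by omega⟩
  obtain ⟨e⟩ : Nonempty (Fin (d + 1) ≃ ι) := ⟨(Fintype.equivFinOfCardEq hd).symm⟩
  set e' : Fin (d + 1) ≃ ι := (Equiv.swap 0 (e.symm ⟨1, h1mem⟩)).trans e with he'
  have he0 : ((e' 0 : ι) : E) = 1 := by
    simp [he']
  set b' : Module.Basis (Fin (d + 1)) κ E := b.reindex e'.symm with hb'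
  have hb0 : b' 0 = 1 := by
    rw [hb', Module.Basis.reindex_apply, Equiv.symm_symm, hbv]
    exact he0
  refine ⟨d, fun i => ((b' i : E) : Ω), ?_⟩
  have hmem : ∀ i, ((b' i : E) : Ω) ∈ κ ⊔ Subfield.closure (s : Set Ω) := by
    intro i
    rw [← hEeq]
    exact (b' i).2
  have hne : ∀ i, ((b' i : E) : Ω) ≠ 0 := by
    intro i h
    exact b'.ne_zero i (Subtype.ext h)
  refine ⟨le_sup_left, ?_, hmem, hne, ?_, ?_⟩
  · rw [hb0]
    rfl
  · intro x hx
    rw [← hEeq] at hx
    refine ⟨fun i => ((b'.repr ⟨x, hx⟩ i : κ) : Ω), fun i => (b'.repr ⟨x, hx⟩ i).2, ?_⟩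
    have h1 := b'.sum_repr ⟨x, hx⟩
    have h2 := congrArg (fun z : E => (z : Ω)) h1
    simp only at h2
    refine h2.symm.trans ?_
    rw [IntermediateField.coe_sum]
    rfl
  · intro c hc i
    by_cases hci : c i = 0
    · rw [hci, zero_mul, norm_zero]
      exact norm_nonneg _
    have hL : ‖c i * ((b' i : E) : Ω)‖ = 1 := by
      rw [norm_mul, htriv _ (hc i) hci, htriv' _ (hmem i) (hne i), one_mul]
    rw [hL]
    have hsum : (∑ j, c j * ((b' j : E) : Ω)) = ((∑ j, (⟨c j, hc j⟩ : κ) • b' j : E) : Ω) := by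
      rw [IntermediateField.coe_sum]
      rfl
    have hS : (∑ j, (⟨c j, hc j⟩ : κ) • b' j : E) ≠ 0 := by
      intro h0
      have := (Fintype.linearIndependent_iff.1 b'.linearIndependent) (fun j => (⟨c j, hc j⟩ : κ)) h0 i
      exact hci (congrArg Subtype.val this)
    rw [hsum]
    refine le_of_eq (htriv' _ ?_ ?_).symm
    · rw [← hEeq]
      exact (∑ j, (⟨c j, hc j⟩ : κ) • b' j : E).2
    · intro h
      exact hS (Subtype.ext h)

end MP1a953e
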