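import Pool.Agent.Lib.MP_1a953e_ag.EmbDefs
import Pool.Agent.Lib.MP_1a953e_ag.GP2
import Pool.Agent.Lib.MP_1a953e_ag.Gs2

/-!
# Module Em3: coefficient field of K
-/

set_option linter.unusedSectionVars false

namespace MP1a953e

open Polynomial IsLocalRing

universe v w

section res

variable {Ω : Type*} [NormedField Ω] [IsUltrametricDist Ω]

private theorem residue_eq_iff' {x y : O Ω} :
    residue (O Ω) x = residue (O Ω) y ↔ ‖(x : Ω) - y‖ < 1 := by
  rw [← sub_eq_zero, ← map_sub, residue_eq_zero_iff, mem_maximalIdeal, mem_nonunits_iff,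
    isUnit_O_iff]
  have h := mem_O.1 (x - y).2
  push_cast at h ⊢
  constructor
  · exact fun h1 => lt_of_le_of_ne h h1
  · exact fun h1 => h1.ne

private theorem norm_le_one_of_triv {κ : Subfield Ω} (h : ∀ x ∈ κ, x ≠ 0 → ‖x‖ = 1) (x : κ) :
    ‖(x : Ω)‖ ≤ 1 := by
  by_cases h0 : (x : Ω) = 0
  · rw [h0, norm_zero]; exact zero_le_one
  · exact (h x x.2 h0).le

/-- inclusion of a trivially normed subfield in the valuation ring -/
private noncomputable def inc (κ : Subfield Ω) (h : ∀ x ∈ κ, x ≠ 0 → ‖x‖ = 1) : κ →+* O Ω :=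
  κ.subtype.codRestrict (O Ω) (fun x => mem_O.2 (norm_le_one_of_triv h x))

private theorem coe_inc (κ : Subfield Ω) (h : ∀ x ∈ κ, x ≠ 0 → ‖x‖ = 1) (x : κ) :
    ((inc κ h x : O Ω) : Ω) = x := rfl

/-- the residue map of a trivially normed subfield -/
private noncomputable def rs (κ : Subfield Ω) (h : ∀ x ∈ κ, x ≠ 0 → ‖x‖ = 1) :
    κ →+* ResidueField (O Ω) := (residue (O Ω)).comp (inc κ h)

private theorem rs_eq_iff {κ : Subfield Ω} {h : ∀ x ∈ κ, x ≠ 0 → ‖x‖ = 1} {x : κ} {y : O Ω} :
    rs κ h x = residue (O Ω) y ↔ ‖(x : Ω) - y‖ < 1 := by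
  rw [rs, RingHom.comp_apply, residue_eq_iff', coe_inc]

end res

section emb

variable {L : Type*} {Ω : Type*} [NormedField L] [IsUltrametricDist L]
  [NormedField Ω] [IsUltrametricDist Ω]

/-- the map of valuation rings -/
private noncomputable def iO (ι : L →+* Ω) (hι : ∀ x, ‖ι x‖ = ‖x‖) : O L →+* O Ω :=
  (ι.comp (O L).subtype).codRestrict (O Ω) (fun x => by
    rw [mem_O]
    simp only [RingHom.coe_comp, Function.comp_apply, Subring.subtype_apply, hι]
    exact mem_O.1 x.2)

private theorem coe_iO (ι : L →+* Ω) (hι : ∀ x, ‖ι x‖ = ‖x‖) (x : O L) :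
    ((iO ι hι x : O Ω) : Ω) = ι (x : L) := rfl

private theorem isLocalHom_iO (ι : L →+* Ω) (hι : ∀ x, ‖ι x‖ = ‖x‖) : IsLocalHom (iO ι hι) :=
  ⟨fun x hx => by rwa [isUnit_O_iff, coe_iO, hι, ← isUnit_O_iff] at hx⟩

/-- the map of residue fields -/
private noncomputable def jR (ι : L →+* Ω) (hι : ∀ x, ‖ι x‖ = ‖x‖) :
    ResidueField (O L) →+* ResidueField (O Ω) :=
  @ResidueField.map _ _ _ _ _ _ (iO ι hι) (isLocalHom_iO ι hι)

private theorem jR_residue (ι : L →+* Ω) (hι : ∀ x, ‖ι x‖ = ‖x‖) (x : O L) :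
    jR ι hι (residue (O L) x) = residue (O Ω) (iO ι hι x) := rfl

end emb

section base

variable {k : Type*} {L : Type*} {Ω : Type*} [NontriviallyNormedField k]
    [IsUltrametricDist k] [NormedField L] [IsUltrametricDist L] [NormedAlgebra k L]
    [NormedField Ω] [IsUltrametricDist Ω]

/-- the coefficient field as a subfield of `k` -/
private noncomputable def phi (ι : L →+* Ω) (k0 : Subfield Ω) (hle : k0 ≤ kO k ι) : k0 →+* k :=
  (RingHom.rangeRestrictFieldEquiv (ι.comp (algebraMap k L))).symm.toRingHom.comp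
    (Subfield.inclusion hle)

private theorem phi_spec (ι : L →+* Ω) (k0 : Subfield Ω) (hle : k0 ≤ kO k ι) (c : k0) :
    ι (algebraMap k L (phi ι k0 hle c)) = c :=
  RingHom.rangeRestrictFieldEquiv_apply_symm_apply (ι.comp (algebraMap k L))
    (Subfield.inclusion hle c)

private theorem norm_phi {ι : L →+* Ω} (hι : ∀ x, ‖ι x‖ = ‖x‖) {k0 : Subfield Ω}
    (hle : k0 ≤ kO k ι) (h : ∀ x ∈ k0, x ≠ 0 → ‖x‖ = 1) (c : k0) :
    ‖phi ι k0 hle c‖ ≤ 1 := by
  have h1 := congrArg norm (phi_spec ι k0 hle c)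
  rw [hι, norm_algebraMap'] at h1
  rw [h1]
  exact norm_le_one_of_triv h c

/-- the coefficient field in the valuation ring of `k` -/
private noncomputable def psi {ι : L →+* Ω} (hι : ∀ x, ‖ι x‖ = ‖x‖) {k0 : Subfield Ω}
    (hle : k0 ≤ kO k ι) (h : ∀ x ∈ k0, x ≠ 0 → ‖x‖ = 1) : k0 →+* O k :=
  (phi ι k0 hle).codRestrict (O k) (fun c => mem_O.2 (norm_phi hι hle h c))

private theorem psi_spec {ι : L →+* Ω} (hι : ∀ x, ‖ι x‖ = ‖x‖) {k0 : Subfield Ω}
    (hle : k0 ≤ kO k ι) (h : ∀ x ∈ k0, x ≠ 0 → ‖x‖ = 1) (c : k0) :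
    ι ((algebraMap (O k) (O L) (psi hι hle h c) : O L) : L) = c :=
  phi_spec ι k0 hle c

/-- `k` has roots -/
private theorem exists_root_k {ι : L →+* Ω} (hc : IsAlgClosed (kO k ι)) (x : k) {n : ℕ}
    (hn : 0 < n) : ∃ y : k, y ^ n = x := by
  have : IsAlgClosed (ι.comp (algebraMap k L)).fieldRange := hc
  obtain ⟨z, hz⟩ := IsAlgClosed.exists_pow_nat_eq
    ((ι.comp (algebraMap k L)).rangeRestrictFieldEquiv x) hn
  refine ⟨(ι.comp (algebraMap k L)).rangeRestrictFieldEquiv.symm z, ?_⟩
  rw [← map_pow, hz, RingEquiv.symm_apply_apply]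

private theorem perfect_res {ι : L →+* Ω} (hc : IsAlgClosed (kO k ι)) :
    PerfectField (ResidueField (O k)) := by
  rcases CharP.exists' (ResidueField (O k)) with h | ⟨p, hp, hpk⟩
  · exact PerfectField.ofCharZero
  · have : ExpChar (ResidueField (O k)) p := ExpChar.prime hp.out
    have : PerfectRing (ResidueField (O k)) p := by
      refine PerfectRing.ofSurjective _ p ?_
      intro x
      obtain ⟨x, rfl⟩ := residue_surjective x
      obtain ⟨y, hy⟩ := exists_root_k (k := k) (L := L) hc (x : k) hp.out.pos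
      have hy1 : ‖y‖ ≤ 1 := by
        have h1 := congrArg norm hy
        rw [norm_pow] at h1
        by_contra h2
        push Not at h2
        have h3 := one_lt_pow₀ h2 hp.out.ne_zero
        rw [h1] at h3
        exact absurd (mem_O.1 x.2) (not_le.2 h3)
      refine ⟨residue (O k) ⟨y, mem_O.2 hy1⟩, ?_⟩
      rw [frobenius_def, ← map_pow]
      congr 1
      exact Subtype.ext hy
    exact PerfectRing.toPerfectField (ResidueField (O k)) p

/-- values of polynomials over the coefficient field -/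
private theorem norm_aeval_eq_one {ι : L →+* Ω} (hι : ∀ x, ‖ι x‖ = ‖x‖) {k0 : Subfield Ω}
    (hle : k0 ≤ kO k ι) (h : ∀ x ∈ k0, x ≠ 0 → ‖x‖ = 1) {m : ℕ} (u : Fin m → O L)
    (hu : AlgebraicIndependent (ResidueField (O k)) (fun i => residue (O L) (u i)))
    (P : MvPolynomial (Fin m) k0) (hP : P ≠ 0) :
    ‖MvPolynomial.aeval (fun i => ι (u i : L)) P‖ = 1 := by
  set Y : MvPolynomial (Fin m) k0 →+* O L :=
    MvPolynomial.eval₂Hom ((algebraMap (O k) (O L)).comp (psi hι hle h)) u with hY
  have h1 : ((ι.comp (O L).subtype).comp Y) =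
      (MvPolynomial.aeval (fun i => ι (u i : L)) : MvPolynomial (Fin m) k0 →ₐ[k0] Ω).toRingHom := by
    apply MvPolynomial.ringHom_ext
    · intro c
      simp only [hY, RingHom.comp_apply, MvPolynomial.eval₂Hom_C, AlgHom.toRingHom_eq_coe,
        RingHom.coe_coe, MvPolynomial.aeval_C]
      exact psi_spec hι hle h c
    · intro i
      simp [hY]
  have h2 : (residue (O L)).comp Y =
      ((MvPolynomial.aeval (fun i => residue (O L) (u i)) :
        MvPolynomial (Fin m) (ResidueField (O k)) →ₐ[ResidueField (O k)]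
          ResidueField (O L)).toRingHom).comp
        (MvPolynomial.map ((residue (O k)).comp (psi hι hle h))) := by
    apply MvPolynomial.ringHom_ext
    · intro c
      simp only [hY, RingHom.comp_apply, MvPolynomial.eval₂Hom_C, AlgHom.toRingHom_eq_coe,
        RingHom.coe_coe, MvPolynomial.aeval_C, MvPolynomial.map_C]
      rfl
    · intro i
      simp [hY]
  have h3 : MvPolynomial.map ((residue (O k)).comp (psi hι hle h)) P ≠ 0 := by
    intro h0
    apply hP
    apply MvPolynomial.map_injective _ ((residue (O k)).comp (psi hι hle h)).injective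
    rw [h0, map_zero]
  have h4 : residue (O L) (Y P) ≠ 0 := by
    have h5 := RingHom.congr_fun h2 P
    simp only [RingHom.comp_apply] at h5
    rw [h5]
    intro h6
    exact h3 ((algebraicIndependent_iff.1 hu) _ h6)
  have h5 : IsUnit (Y P) := by
    by_contra h6
    exact h4 ((residue_eq_zero_iff _).2 h6)
  rw [isUnit_O_iff] at h5
  have h6 := RingHom.congr_fun h1 P
  simp only [RingHom.comp_apply, Subring.subtype_apply, AlgHom.toRingHom_eq_coe,
    RingHom.coe_coe] at h6
  rw [← h6, hι, h5]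

/-- `k0(u)` is trivially normed -/
private theorem triv_k0u {ι : L →+* Ω} (hι : ∀ x, ‖ι x‖ = ‖x‖) {k0 : Subfield Ω}
    (hle : k0 ≤ kO k ι) (h : ∀ x ∈ k0, x ≠ 0 → ‖x‖ = 1) {m : ℕ} (u : Fin m → O L)
    (hu : AlgebraicIndependent (ResidueField (O k)) (fun i => residue (O L) (u i))) :
    ∀ x ∈ k0 ⊔ Subfield.closure (Set.range fun i => ι (u i : L)), x ≠ 0 → ‖x‖ = 1 := by
  intro x hx hx0
  have h1 : k0 ⊔ Subfield.closure (Set.range fun i => ι (u i : L)) ≤
      (IntermediateField.adjoin k0 (Set.range fun i => ι (u i : L))).toSubfield := by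
    refine sup_le ?_ ?_
    · intro y hy
      exact (IntermediateField.adjoin k0 _).algebraMap_mem ⟨y, hy⟩
    · rw [Subfield.closure_le]
      exact IntermediateField.subset_adjoin _ _
  obtain ⟨r, s, hrs⟩ := (IntermediateField.mem_adjoin_range_iff k0 _ x).1 (h1 hx)
  have hr : r ≠ 0 := by
    rintro rfl
    simp [hrs] at hx0
  have hs : s ≠ 0 := by
    rintro rfl
    simp [hrs] at hx0
  rw [hrs, norm_div, norm_aeval_eq_one hι hle h u hu r hr, norm_aeval_eq_one hι hle h u hu s hs,
    div_one]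

end base

section fields

private theorem mem_of_gen {F E : Type*} [Field F] [Field E] [Algebra F E] {T : Set E}
    (S : Subfield E) (h1 : ∀ x : F, algebraMap F E x ∈ S) (h2 : T ⊆ S) :
    ∀ x ∈ IntermediateField.adjoin F T, x ∈ S := by
  intro x hx
  have h3 : IntermediateField.adjoin F T ≤ S.toIntermediateField h1 :=
    IntermediateField.adjoin_le_iff.2 h2
  exact h3 hx

/-- separating generators -/
private theorem exists_gens {F E : Type v} [Field F] [Field E] [Algebra F E] [PerfectField F]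
    (hess : Algebra.EssFiniteType F E) {m : ℕ} (htr : Algebra.trdeg F E = m) :
    ∃ (u : Fin m → E) (a : E), AlgebraicIndependent F u ∧
      (Algebra.IsSeparable (IntermediateField.adjoin F (Set.range u)) E) ∧
      IntermediateField.adjoin (IntermediateField.adjoin F (Set.range u)) {a} = ⊤ := by
  obtain ⟨s, hs, hsep⟩ := exists_isTranscendenceBasis_and_isSeparable_of_perfectField F E
  have hcard : Fintype.card s = m := by
    have h1 := hs.cardinalMk_eq_trdeg
    rw [htr] at h1
    simpa using h1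
  set e : Fin m ≃ s := (Fintype.equivFinOfCardEq hcard).symm
  have hr : Set.range (((↑) : s → E) ∘ e) = (s : Set E) := by
    rw [EquivLike.range_comp]
    simp
  rw [← hr] at hsep
  have h2 : Algebra.EssFiniteType
      (IntermediateField.adjoin F (Set.range (((↑) : s → E) ∘ e))) E :=
    Algebra.EssFiniteType.of_comp F _ E
  have h3 : FiniteDimensional (IntermediateField.adjoin F (Set.range (((↑) : s → E) ∘ e))) E :=
    Algebra.finite_of_essFiniteType_of_isAlgebraic
  obtain ⟨a, ha⟩ := Field.exists_primitive_element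
    (IntermediateField.adjoin F (Set.range (((↑) : s → E) ∘ e))) E
  exact ⟨((↑) : s → E) ∘ e, a, (hs.comp_equiv e).1, hsep, ha⟩

end fields

section main

variable {k : Type*} {L : Type*} {Ω : Type*} [NontriviallyNormedField k]
    [IsUltrametricDist k] [NormedField L] [IsUltrametricDist L] [NormedAlgebra k L]
    [NormedField Ω] [IsUltrametricDist Ω]

/-- residues of elements of `k0` -/
private theorem alg_mem_range {ι : L →+* Ω} (hι : ∀ x, ‖ι x‖ = ‖x‖) {k0 : Subfield Ω}
    (hg : Ground k0 (kO k ι)) {κ : Subfield Ω} (hκ : ∀ x ∈ κ, x ≠ 0 → ‖x‖ = 1) (hle : k0 ≤ κ)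
    (r : ResidueField (O k)) :
    algebraMap (ResidueField (O k)) (ResidueField (O L)) r ∈
      (rs κ hκ).fieldRange.comap (jR ι hι) := by
  obtain ⟨y, rfl⟩ := residue_surjective r
  have h1 : ι (algebraMap k L y) ∈ kO k ι := ⟨y, rfl⟩
  have h2 : ‖ι (algebraMap k L (y : k))‖ ≤ 1 := by
    rw [hι, norm_algebraMap']
    exact mem_O.1 y.2
  obtain ⟨c, hc, hc1⟩ := hg.res _ h1 h2
  rw [Subfield.mem_comap]
  refine ⟨⟨c, hle hc⟩, ?_⟩
  have h3 : algebraMap (ResidueField (O k)) (ResidueField (O L)) (residue (O k) y) =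
    residue (O L) (algebraMap (O k) (O L) y) := rfl
  rw [h3, jR_residue, rs_eq_iff, norm_sub_rev]
  exact hc1

private theorem res_mem_range {ι : L →+* Ω} (hι : ∀ x, ‖ι x‖ = ‖x‖) {κ : Subfield Ω}
    (hκ : ∀ x ∈ κ, x ≠ 0 → ‖x‖ = 1) (y : O L) {b : Ω} (hb : b ∈ κ) (hy : ‖b - ι (y : L)‖ < 1) :
    residue (O L) y ∈ (rs κ hκ).fieldRange.comap (jR ι hι) := by
  rw [Subfield.mem_comap]
  refine ⟨⟨b, hb⟩, ?_⟩
  rw [jR_residue, rs_eq_iff]
  exact hy

private theorem exists_of_mem_range {ι : L →+* Ω} (hι : ∀ x, ‖ι x‖ = ‖x‖) {κ : Subfield Ω}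
    (hκ : ∀ x ∈ κ, x ≠ 0 → ‖x‖ = 1) (y : O L)
    (h : residue (O L) y ∈ (rs κ hκ).fieldRange.comap (jR ι hι)) :
    ∃ e ∈ κ, ‖ι (y : L) - e‖ < 1 := by
  rw [Subfield.mem_comap] at h
  obtain ⟨e, he⟩ := h
  rw [jR_residue, rs_eq_iff] at he
  exact ⟨e, e.2, by rw [norm_sub_rev]; exact he⟩

/-- lifting the primitive element -/
private theorem exists_a {ι : L →+* Ω} {K : Subfield Ω} (hE : Emb ι K) {κ0 : Subfield Ω}
    (hκ0 : ∀ x ∈ κ0, x ≠ 0 → ‖x‖ = 1) (hle : κ0 ≤ K)
    {M : IntermediateField (ResidueField (O k)) (ResidueField (O L))}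
    (hM : ∀ x ∈ M, x ∈ (rs κ0 hκ0).fieldRange.comap (jR ι hE.norm))
    (a1 : O L) (hsep : IsSeparable M (residue (O L) a1)) :
    ∃ a ∈ K, ‖ι (a1 : L) - a‖ < 1 ∧ IsSeparable κ0 a := by
  set σ := rs κ0 hκ0 with hσ
  set j := jR ι hE.norm with hj
  set q : M[X] := minpoly M (residue (O L) a1) with hq
  have hint : IsIntegral M (residue (O L) a1) := by
    by_contra h
    have h0 := minpoly.eq_zero h
    have h1 : (minpoly M (residue (O L) a1)).Separable := hsep
    rw [h0] at h1
    exact not_separable_zero h1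
  set Q : (ResidueField (O Ω))[X] := q.map (j.comp (algebraMap M (ResidueField (O L)))) with hQ
  have hQm : Q.Monic := (minpoly.monic hint).map _
  have hQl : Q ∈ Polynomial.lifts σ := by
    rw [Polynomial.lifts_iff_coeff_lifts]
    intro n
    rw [hQ, Polynomial.coeff_map]
    obtain ⟨e, he⟩ := hM _ (q.coeff n).2
    exact ⟨e, he⟩
  obtain ⟨g0, hg0, -, hg0m⟩ := Polynomial.lifts_and_natDegree_eq_and_monic hQl hQm
  have hsep1 : Q.Separable := Polynomial.Separable.map hsep
  have hsep0 : g0.Separable := by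
    rw [← hg0] at hsep1
    exact (Polynomial.separable_map σ).1 hsep1
  set x : O Ω := iO ι hE.norm a1 with hx
  -- residues of values
  have hval : ∀ f : κ0[X], residue (O Ω) (f.eval₂ (inc κ0 hκ0) x) =
      (f.map σ).eval (j (residue (O L) a1)) := by
    intro f
    rw [Polynomial.hom_eval₂, Polynomial.eval_map]
    rfl
  have hcoe : ∀ f : κ0[X], (((f.eval₂ (inc κ0 hκ0) x : O Ω)) : Ω) =
      (f.map κ0.subtype).eval (ι (a1 : L)) := by
    intro f
    have := Polynomial.hom_eval₂ f (inc κ0 hκ0) (O Ω).subtype x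
    rw [Subring.subtype_apply] at this
    rw [this, Polynomial.eval_map]
    rfl
  have hQv : ∀ f : M[X], (f.map (j.comp (algebraMap M (ResidueField (O L))))).eval
      (j (residue (O L) a1)) = j (aeval (residue (O L) a1) f) := by
    intro f
    rw [Polynomial.eval_map, Polynomial.aeval_def, Polynomial.hom_eval₂]
  have h1 : ‖(g0.map κ0.subtype).eval (ι (a1 : L))‖ < 1 := by
    rw [← hcoe]
    have h2 := hval g0
    rw [hg0, hQ, hQv, hq, minpoly.aeval, map_zero] at h2
    have h3 := (residue_eq_zero_iff _).1 h2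
    rw [mem_maximalIdeal, mem_nonunits_iff, isUnit_O_iff] at h3
    exact lt_of_le_of_ne (mem_O.1 (Subtype.mem _)) h3
  have h2 : ‖(g0.map κ0.subtype).derivative.eval (ι (a1 : L))‖ = 1 := by
    rw [Polynomial.derivative_map, ← hcoe]
    have h2 := hval g0.derivative
    rw [← Polynomial.derivative_map, hg0, hQ, Polynomial.derivative_map, hQv, hq] at h2
    rw [← isUnit_O_iff]
    by_contra h3
    have h4 := (residue_eq_zero_iff _).2 ((mem_maximalIdeal _).2 h3)
    rw [h4] at h2
    have h5 := Polynomial.Separable.aeval_derivative_ne_zero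
      (hsep : (minpoly M (residue (O L) a1)).Separable) (minpoly.aeval M (residue (O L) a1))
    exact h5 (j.injective (by rw [← h2, map_zero]))
  obtain ⟨a, ha, hga, hxa⟩ := hensel hE.complete (f := g0.map κ0.subtype)
    (fun i => by rw [Polynomial.coeff_map]; exact hle (g0.coeff i).2)
    (fun i => by rw [Polynomial.coeff_map]; exact norm_le_one_of_triv hκ0 _)
    (hE.mem (a1 : L)) (by rw [hE.norm]; exact mem_O.1 a1.2) h1 h2
  refine ⟨a, ha, hxa, ?_⟩
  have h3 : minpoly κ0 a ∣ g0 := by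
    apply minpoly.dvd
    rw [Polynomial.eval_map] at hga
    exact hga
  exact hsep0.of_dvd h3

end main

/-- EM3 (coefficient field of `K`).  Proof.  Residue fields: `R_k = ResidueField (O k)`,
`R_L = ResidueField (O L)`, `R_Ω = ResidueField (O Ω)`; `k0 ≅ R_k` (by `Ground.res` and the trivial
norm), and `R_L → R_Ω`. `R_k` is algebraically closed, hence perfect, so there is a separating
transcendence basis `ũ 1, …, ũ m` of `R_L / R_k`
(`exists_isTranscendenceBasis_and_isSeparable_of_perfectField`), and a primitive element `ã` of the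
finite separable extension `R_L / R_k(ũ)`. Lift `ũ` to `u`, `ã` to `a₁ ∈ O L`. For a nonzero polynomial
`P` over `k0`, `‖P (ι u)‖ = 1` (its reduction is nonzero), so `κ0 = k0(ι u)` is trivially normed and
reduction gives `κ0 ≅ R_k(ũ)`. The minimal polynomial of `ã` lifts to a monic polynomial over `κ0`; by
`hensel` it has a root `a ∈ K` with `‖a - ι a₁‖ < 1`. `κ = κ0(a)` is trivially normed
(`exists_orthBasis`), and its reduction contains that of `O L`, and `ι L` is dense in `K`. -/
theorem exists_kappa {k : Type v} {L : Type v} {Ω : Type v} [NontriviallyNormedField k]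
    [IsUltrametricDist k] [NormedField L] [IsUltrametricDist L] [NormedAlgebra k L]
    [NormedField Ω] [IsUltrametricDist Ω] {ι : L →+* Ω} {K : Subfield Ω} (hE : Emb ι K)
    {k0 : Subfield Ω} (hg : Ground k0 (kO k ι)) {m : ℕ}
    (htr : Algebra.trdeg (ResidueField (O k)) (ResidueField (O L)) = m)
    (hess : Algebra.EssFiniteType (ResidueField (O k)) (ResidueField (O L))) :
    ∃ (u : Fin m → L) (a : Ω), (∀ i, ‖u i‖ ≤ 1) ∧ a ∈ K ∧
      AlgebraicIndependent k0 (fun i => ι (u i)) ∧
      IsSeparable ↥(k0 ⊔ Subfield.closure (Set.range fun i => ι (u i))) a ∧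
      (∀ x ∈ adj (k0 ⊔ Subfield.closure (Set.range fun i => ι (u i))) a, x ≠ 0 → ‖x‖ = 1) ∧
      ∀ x ∈ K, ‖x‖ ≤ 1 →
        ∃ e ∈ adj (k0 ⊔ Subfield.closure (Set.range fun i => ι (u i))) a, ‖x - e‖ < 1 := by
  have hperf : PerfectField (ResidueField (O k)) := perfect_res (L := L) hg.closed
  obtain ⟨ub, ab, hai, hsep, htop⟩ := exists_gens hess htr
  choose u hu using fun i => residue_surjective (ub i)
  obtain ⟨a1, ha1⟩ := residue_surjective ab
  have hu' : ub = fun i => residue (O L) (u i) := funext fun i => (hu i).symm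
  have hai' : AlgebraicIndependent (ResidueField (O k)) (fun i => residue (O L) (u i)) := by
    rw [← hu']; exact hai
  have htriv0 := triv_k0u hE.norm hg.le hg.triv u hai'
  have hk0 : kO k ι ≤ K := by
    rintro _ ⟨y, rfl⟩
    exact hE.mem _
  have hκ0K : k0 ⊔ Subfield.closure (Set.range fun i => ι (u i : L)) ≤ K := by
    refine sup_le (hg.le.trans hk0) (Subfield.closure_le.2 ?_)
    rintro _ ⟨i, rfl⟩
    exact hE.mem _
  have hmu : ∀ (κ : Subfield Ω) (hκ : ∀ x ∈ κ, x ≠ 0 → ‖x‖ = 1)
      (h1 : k0 ⊔ Subfield.closure (Set.range fun i => ι (u i : L)) ≤ κ),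
      ∀ x ∈ IntermediateField.adjoin (ResidueField (O k)) (Set.range ub),
        x ∈ (rs κ hκ).fieldRange.comap (jR ι hE.norm) := by
    intro κ hκ h1
    apply mem_of_gen
    · exact alg_mem_range hE.norm hg hκ (le_sup_left.trans h1)
    · rintro _ ⟨i, rfl⟩
      rw [← hu i]
      refine res_mem_range hE.norm hκ (u i) (b := ι (u i : L)) ?_ (by simp)
      exact h1 ((le_sup_right : Subfield.closure (Set.range fun i => ι (u i : L)) ≤ _)
        (Subfield.subset_closure ⟨i, rfl⟩))
  obtain ⟨a, haK, haa, hasep⟩ := exists_a hE htriv0 hκ0K (hmu _ htriv0 le_rfl) a1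
    (by rw [ha1]; exact Algebra.IsSeparable.isSeparable _ ab)
  have haalg : IsAlgebraic ↥(k0 ⊔ Subfield.closure (Set.range fun i => ι (u i : L))) a :=
    hasep.isIntegral.isAlgebraic
  have htriv : ∀ x ∈ adj (k0 ⊔ Subfield.closure (Set.range fun i => ι (u i : L))) a,
      x ≠ 0 → ‖x‖ = 1 := by
    have h1 := (exists_orthBasis htriv0 {a} (by simpa using haalg)).1
    rw [Finset.coe_singleton] at h1
    exact h1
  refine ⟨fun i => (u i : L), a, fun i => mem_O.1 (u i).2, haK, ?_, hasep, htriv, ?_⟩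
  · rw [algebraicIndependent_iff]
    intro P hP
    by_contra h0
    have h1 := norm_aeval_eq_one hE.norm hg.le hg.triv u hai' P h0
    rw [hP, norm_zero] at h1
    exact zero_ne_one h1
  · intro x hx hx1
    obtain ⟨y, hy⟩ := hE.dense x hx 1 one_pos
    have hy1 : ‖y‖ ≤ 1 := by
      rw [← hE.norm y]
      have h1 := IsUltrametricDist.norm_add_le_max x (-(x - ι y))
      rw [norm_neg, ← sub_eq_add_neg, sub_sub_cancel] at h1
      exact h1.trans (max_le hx1 hy.le)
    have hall : ∀ z : ResidueField (O L),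
        z ∈ (rs _ htriv).fieldRange.comap (jR ι hE.norm) := by
      intro z
      have hz : z ∈ IntermediateField.adjoin
          (IntermediateField.adjoin (ResidueField (O k)) (Set.range ub)) {ab} := by
        rw [htop]; exact IntermediateField.mem_top
      refine mem_of_gen _ ?_ ?_ z hz
      · intro w
        exact hmu _ htriv (le_adj _ _) w w.2
      · rintro _ rfl
        rw [← ha1]
        refine res_mem_range hE.norm htriv a1 (mem_adj_self _ a) ?_
        rw [norm_sub_rev]
        exact haa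
    obtain ⟨e, he, he1⟩ := exists_of_mem_range hE.norm htriv ⟨y, mem_O.2 hy1⟩ (hall _)
    refine ⟨e, he, ?_⟩
    have h1 := IsUltrametricDist.norm_add_le_max (x - ι y) (ι y - e)
    rw [sub_add_sub_cancel] at h1
    exact lt_of_le_of_lt h1 (max_lt hy he1)

end MP1a953e
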