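import Pool.Agent.Lib.MP_1a953e_ag.Defs

/-!
# Module Gs1: Gauss norm
-/

namespace MP1a953e

open Polynomial

variable {Ω : Type*} [NormedField Ω] [IsUltrametricDist Ω]

private lemma sum_lt_of_forall_lt {n : ℕ} (f : Fin n → Ω) {r : ℝ} (hr : 0 < r)
    (h : ∀ i, ‖f i‖ < r) : ‖∑ i, f i‖ < r := by
  rcases isEmpty_or_nonempty (Fin n) with hE | hN
  · rw [Finset.univ_eq_empty, Finset.sum_empty, norm_zero]; exact hr
  · obtain ⟨i, _, hi⟩ := IsUltrametricDist.exists_norm_finsetSum_le_of_nonempty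
      (Finset.univ_nonempty (α := Fin n)) f
    exact hi.trans_lt (h i)

private lemma norm_add_eq_left {a b : Ω} (h : ‖b‖ < ‖a‖) : ‖a + b‖ = ‖a‖ := by
  rw [IsUltrametricDist.norm_add_eq_max_of_norm_ne_norm h.ne', max_eq_left h.le]

private lemma norm_le_one_of_triv {κ : Subfield Ω} (htriv : ∀ x ∈ κ, x ≠ 0 → ‖x‖ = 1) {x : Ω}
    (hx : x ∈ κ) : ‖x‖ ≤ 1 := by
  rcases eq_or_ne x 0 with rfl | h
  · simp
  · exact (htriv x hx h).le

/-- GS1 (Gauss norm).  Proof: suppose `M = max ‖c i‖ > 0`, attained at `i₀`; divide by `c i₀`, so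
`M = 1` and `‖c i - a i‖ < 1` with `a i ∈ k0` (`Ground.res`), `a i₀ ≠ 0`. Then `∑ a i * e i` is a
nonzero element of `κ`, so it has norm `1`, and `‖∑ (c i - a i) * e i‖ < 1`. -/
theorem tensor_norm {k0 k κ : Subfield Ω} (hg : Ground k0 k) (hle : k0 ≤ κ)
    (htriv : ∀ x ∈ κ, x ≠ 0 → ‖x‖ = 1) {n : ℕ} (e : Fin n → Ω) (he : ∀ i, e i ∈ κ)
    (hli : ∀ a : Fin n → Ω, (∀ i, a i ∈ k0) → ∑ i, a i * e i = 0 → ∀ i, a i = 0)
    (c : Fin n → Ω) (hc : ∀ i, c i ∈ k) (i : Fin n) : ‖c i‖ ≤ ‖∑ j, c j * e j‖ := by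
  obtain ⟨i₀, _, hi₀⟩ := Finset.exists_max_image Finset.univ (fun j => ‖c j‖)
    ⟨i, Finset.mem_univ i⟩
  rcases eq_or_ne (c i₀) 0 with h0 | h0
  · have h1 := hi₀ i (Finset.mem_univ i)
    rw [h0, norm_zero] at h1
    exact h1.trans (norm_nonneg _)
  have hM : 0 < ‖c i₀‖ := norm_pos_iff.2 h0
  have hy : ∀ j, ‖c j / c i₀‖ ≤ 1 := fun j => by
    rw [norm_div, div_le_one hM]
    exact hi₀ j (Finset.mem_univ j)
  have hyk : ∀ j, c j / c i₀ ∈ k := fun j => k.div_mem (hc j) (hc i₀)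
  choose a ha hal using fun j => hg.res _ (hyk j) (hy j)
  have ha0 : a i₀ ≠ 0 := by
    intro h
    have h1 := hal i₀
    rw [h, sub_zero, div_self h0, norm_one] at h1
    exact lt_irrefl _ h1
  have hs0 : ∑ j, a j * e j ≠ 0 := fun h => ha0 (hli a ha h i₀)
  have hsκ : ∑ j, a j * e j ∈ κ := sum_mem fun j _ => κ.mul_mem (hle (ha j)) (he j)
  have hs1 : ‖∑ j, a j * e j‖ = 1 := htriv _ hsκ hs0
  have hd : ‖∑ j, (c j / c i₀ - a j) * e j‖ < 1 := by
    refine sum_lt_of_forall_lt _ one_pos fun j => ?_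
    rw [norm_mul]
    exact (mul_le_of_le_one_right (norm_nonneg _) (norm_le_one_of_triv htriv (he j))).trans_lt
      (hal j)
  have hsum : ∑ j, c j * e j = c i₀ * (∑ j, a j * e j + ∑ j, (c j / c i₀ - a j) * e j) := by
    rw [← Finset.sum_add_distrib, Finset.mul_sum]
    refine Finset.sum_congr rfl fun j _ => ?_
    field_simp
    ring
  rw [hsum, norm_mul, norm_add_eq_left (by rw [hs1]; exact hd), hs1, mul_one]
  exact hi₀ i (Finset.mem_univ i)

/-- elements of the ring generated by `k` and `κ` -/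
private lemma exists_rep {k κ : Subfield Ω} {g : Ω}
    (hg : g ∈ Subring.closure ((k : Set Ω) ∪ κ)) :
    ∃ (n : ℕ) (c e : Fin n → Ω), (∀ i, c i ∈ k) ∧ (∀ i, e i ∈ κ) ∧ g = ∑ i, c i * e i := by
  induction hg using Subring.closure_induction with
  | mem x hx =>
    rcases hx with hx | hx
    · exact ⟨1, fun _ => x, fun _ => 1, fun _ => hx, fun _ => κ.one_mem, by simp⟩
    · exact ⟨1, fun _ => 1, fun _ => x, fun _ => k.one_mem, fun _ => hx, by simp⟩
  | zero => exact ⟨0, fun _ => 0, fun _ => 0, fun i => i.elim0, fun i => i.elim0, by simp⟩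
  | one => exact ⟨1, fun _ => 1, fun _ => 1, fun _ => k.one_mem, fun _ => κ.one_mem, by simp⟩
  | add x y _ _ hx hy =>
    obtain ⟨n, c, e, hc, he, rfl⟩ := hx
    obtain ⟨m, c', e', hc', he', rfl⟩ := hy
    refine ⟨n + m, Fin.append c c', Fin.append e e', ?_, ?_, ?_⟩
    · intro i
      refine Fin.addCases (fun j => ?_) (fun j => ?_) i
      · rw [Fin.append_left]; exact hc j
      · rw [Fin.append_right]; exact hc' j
    · intro i
      refine Fin.addCases (fun j => ?_) (fun j => ?_) i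
      · rw [Fin.append_left]; exact he j
      · rw [Fin.append_right]; exact he' j
    · rw [Fin.sum_univ_add]
      simp only [Fin.append_left, Fin.append_right]
  | neg x _ hx =>
    obtain ⟨n, c, e, hc, he, rfl⟩ := hx
    refine ⟨n, fun i => - c i, e, fun i => k.neg_mem (hc i), he, ?_⟩
    simp [neg_mul]
  | mul x y _ _ hx hy =>
    obtain ⟨n, c, e, hc, he, rfl⟩ := hx
    obtain ⟨m, c', e', hc', he', rfl⟩ := hy
    refine ⟨n * m, fun i => c (finProdFinEquiv.symm i).1 * c' (finProdFinEquiv.symm i).2,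
      fun i => e (finProdFinEquiv.symm i).1 * e' (finProdFinEquiv.symm i).2,
      fun i => k.mul_mem (hc _) (hc' _), fun i => κ.mul_mem (he _) (he' _), ?_⟩
    rw [Finset.sum_mul_sum, ← Finset.sum_product', Finset.univ_product_univ,
      ← finProdFinEquiv.symm.sum_comp]
    refine Finset.sum_congr rfl fun i _ => ?_
    ring

/-- a representation with the `e i` linearly independent over `k0` -/
private lemma exists_rep_indep {k0 k κ : Subfield Ω} (h0k : k0 ≤ k) {g : Ω}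
    (hg : g ∈ Subring.closure ((k : Set Ω) ∪ κ)) :
    ∃ (n : ℕ) (c e : Fin n → Ω), (∀ i, c i ∈ k) ∧ (∀ i, e i ∈ κ) ∧ g = ∑ i, c i * e i ∧
      ∀ a : Fin n → Ω, (∀ i, a i ∈ k0) → ∑ i, a i * e i = 0 → ∀ i, a i = 0 := by
  classical
  have hex := exists_rep hg
  obtain ⟨c, e, hc, he, hge⟩ := Nat.find_spec hex
  refine ⟨Nat.find hex, c, e, hc, he, hge, ?_⟩
  intro a ha hsum
  by_contra hcon
  push Not at hcon
  obtain ⟨j, hj⟩ := hcon
  obtain ⟨n, hn⟩ : ∃ n, Nat.find hex = n + 1 := by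
    rcases Nat.eq_zero_or_pos (Nat.find hex) with h | h
    · have := j.2; omega
    · exact ⟨Nat.find hex - 1, by omega⟩
  have hmin : ¬ ∃ (c e : Fin n → Ω), (∀ i, c i ∈ k) ∧ (∀ i, e i ∈ κ) ∧ g = ∑ i, c i * e i :=
    Nat.find_min hex (by omega)
  apply hmin
  clear hmin
  generalize Nat.find hex = N at *
  subst hn
  refine ⟨fun i => c (j.succAbove i) - c j * (a (j.succAbove i) / a j),
    fun i => e (j.succAbove i), fun i => ?_, fun i => he _, ?_⟩
  · exact k.sub_mem (hc _) (k.mul_mem (hc _) (k.div_mem (h0k (ha _)) (h0k (ha _))))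
  · rw [Fin.sum_univ_succAbove _ j] at hsum
    have hej : e j = - ∑ i, (a (j.succAbove i) / a j) * e (j.succAbove i) := by
      have h1 : a j * e j = - ∑ i, a (j.succAbove i) * e (j.succAbove i) :=
        eq_neg_of_add_eq_zero_left hsum
      have h2 : e j = (a j)⁻¹ * (a j * e j) := by
        rw [← mul_assoc, inv_mul_cancel₀ hj, one_mul]
      rw [h2, h1, mul_neg, Finset.mul_sum]
      congr 1
      refine Finset.sum_congr rfl fun i _ => ?_
      rw [div_eq_mul_inv]; ring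
    rw [hge, Fin.sum_univ_succAbove _ j]
    simp only [sub_mul, Finset.sum_sub_distrib]
    have h3 : ∑ x, c j * (a (j.succAbove x) / a j) * e (j.succAbove x) = - (c j * e j) := by
      rw [hej, mul_neg, neg_neg, Finset.mul_sum]
      refine Finset.sum_congr rfl fun i _ => ?_
      ring
    rw [h3]
    ring

/-- GS2.  Proof: an element `≠ 0` of the ring generated by `k` and `κ` is `∑ c i * e i` with `c i ∈ k`,
`e i ∈ κ` linearly independent over `k0`; by `tensor_norm` its norm is `max ‖c i‖`; with `‖c‖`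
this maximum and `a i ∈ k0` close to `c i / c` (`Ground.res`) it is close to `c * ∑ a i * e i`. By
density this passes to `F` and by immediacy to `K`. -/
theorem Gs.approx {k0 k κ F K : Subfield Ω} (hG : Gs k0 k κ F) (hI : Imm F K) {x : Ω}
    (hx : x ∈ K) (hx0 : x ≠ 0) :
    ∃ c ∈ k, ∃ e ∈ κ, ‖c‖ = ‖x‖ ∧ ‖e‖ = 1 ∧ ‖x - c * e‖ < ‖x‖ := by
  have hxpos : 0 < ‖x‖ := norm_pos_iff.2 hx0
  obtain ⟨f, hf, hxf⟩ := hI.2 x hx hx0
  obtain ⟨g, hg, hfg⟩ := hG.dense f hf ‖x‖ hxpos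
  have hxg : ‖x - g‖ < ‖x‖ := by
    have h1 : x - g = (x - f) + (f - g) := by ring
    rw [h1]
    exact (IsUltrametricDist.norm_add_le_max _ _).trans_lt (max_lt hxf hfg)
  have hgx : ‖g‖ = ‖x‖ := by
    have h1 : g = x + (-(x - g)) := by ring
    rw [h1]
    exact norm_add_eq_left (by rw [norm_neg]; exact hxg)
  obtain ⟨n, c, e, hc, he, hge, hli⟩ := exists_rep_indep hG.ground.le hg
  have hcl : ∀ i, ‖c i‖ ≤ ‖x‖ := by
    intro i
    rw [← hgx, hge]
    exact tensor_norm hG.ground hG.k0_le hG.triv e he hli c hc i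
  have hN : Nonempty (Fin n) := by
    by_contra hE
    rw [not_nonempty_iff] at hE
    rw [hge, Finset.univ_eq_empty, Finset.sum_empty, norm_zero] at hgx
    linarith
  obtain ⟨i, _, hi⟩ := IsUltrametricDist.exists_norm_finsetSum_le_of_nonempty
      (Finset.univ_nonempty (α := Fin n)) (fun i => c i * e i)
  have hci : ‖c i‖ = ‖x‖ := by
    apply le_antisymm (hcl i)
    rw [← hgx, hge]
    refine hi.trans ?_
    rw [norm_mul]
    exact mul_le_of_le_one_right (norm_nonneg _) (norm_le_one_of_triv hG.triv (he i))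
  have hci0 : c i ≠ 0 := by
    rw [← norm_pos_iff, hci]; exact hxpos
  have hy : ∀ j, ‖c j / c i‖ ≤ 1 := fun j => by
    rw [norm_div, hci, div_le_one hxpos]
    exact hcl j
  choose a ha hal using fun j => hG.ground.res _ (k.div_mem (hc j) (hc i)) (hy j)
  have heκ : ∑ j, a j * e j ∈ κ := sum_mem fun j _ => κ.mul_mem (hG.k0_le (ha j)) (he j)
  have hd : ‖g - c i * ∑ j, a j * e j‖ < ‖x‖ := by
    have h1 : g - c i * ∑ j, a j * e j = ∑ j, (c j - c i * a j) * e j := by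
      rw [hge, Finset.mul_sum, ← Finset.sum_sub_distrib]
      refine Finset.sum_congr rfl fun j _ => ?_
      ring
    rw [h1]
    refine sum_lt_of_forall_lt _ hxpos fun j => ?_
    rw [norm_mul]
    refine (mul_le_of_le_one_right (norm_nonneg _)
      (norm_le_one_of_triv hG.triv (he j))).trans_lt ?_
    have h2 : c j - c i * a j = c i * (c j / c i - a j) := by
      field_simp
    rw [h2, norm_mul, hci]
    exact mul_lt_of_lt_one_right hxpos (hal j)
  have hfin : ‖x - c i * ∑ j, a j * e j‖ < ‖x‖ := by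
    have h1 : x - c i * ∑ j, a j * e j = (x - g) + (g - c i * ∑ j, a j * e j) := by ring
    rw [h1]
    exact (IsUltrametricDist.norm_add_le_max _ _).trans_lt (max_lt hxg hd)
  refine ⟨c i, hc i, ∑ j, a j * e j, heκ, hci, ?_, hfin⟩
  apply hG.triv _ heκ
  intro h0
  rw [h0, mul_zero, sub_zero] at hfin
  exact lt_irrefl _ hfin

/-- GS3.  Proof: if `x ≠ 0` then `x ≡ c * e` with `‖c‖ ≤ 1`; `c` is close to an element of `k0`. -/
theorem Gs.res {k0 k κ F K : Subfield Ω} (hG : Gs k0 k κ F) (hI : Imm F K) {x : Ω}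
    (hx : x ∈ K) (hx1 : ‖x‖ ≤ 1) : ∃ a ∈ κ, ‖x - a‖ < 1 := by
  rcases eq_or_ne x 0 with rfl | hx0
  · exact ⟨0, κ.zero_mem, by simp⟩
  obtain ⟨c, hc, e, he, hcx, he1, hxce⟩ := hG.approx hI hx hx0
  obtain ⟨a, ha, hca⟩ := hG.ground.res c hc (by rw [hcx]; exact hx1)
  refine ⟨a * e, κ.mul_mem (hG.k0_le ha) he, ?_⟩
  have h1 : x - a * e = (x - c * e) + (c - a) * e := by ring
  rw [h1]
  refine (IsUltrametricDist.norm_add_le_max _ _).trans_lt (max_lt (hxce.trans_le hx1) ?_)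
  rw [norm_mul, he1, mul_one]
  exact hca

end MP1a953e
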