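import Pool.Agent.Lib.MP_1a953e_ag.EmbDefs
import Pool.Agent.Lib.MP_1a953e_ag.Gs1

/-!
# Module Em4: Gauss norm of polynomials in u
-/

namespace MP1a953e

open Polynomial IsLocalRing

universe v w

/-- EM4.  The Gauss norm of polynomials in `u`: apply `tensor_norm` to the monomials in `ι u`, which are
linearly independent over `k0`. -/
theorem gauss_u {k L Ω : Type*} [NontriviallyNormedField k]
    [IsUltrametricDist k] [NormedField L] [IsUltrametricDist L] [NormedAlgebra k L]
    [NormedField Ω] [IsUltrametricDist Ω] {ι : L →+* Ω} {K : Subfield Ω} (hE : Emb ι K)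
    {k0 κ : Subfield Ω} (hg : Ground k0 (kO k ι)) (hle : k0 ≤ κ)
    (htriv : ∀ x ∈ κ, x ≠ 0 → ‖x‖ = 1) {m : ℕ} (u : Fin m → L) (hu : ∀ i, ι (u i) ∈ κ)
    (hai : AlgebraicIndependent k0 (fun i => ι (u i))) (P : MvPolynomial (Fin m) k)
    (s : Fin m →₀ ℕ) : ‖P.coeff s‖ ≤ ‖MvPolynomial.aeval u P‖ := by
  classical
  by_cases hs : s ∈ P.support
  swap
  · rw [MvPolynomial.notMem_support_iff.1 hs, norm_zero]
    exact norm_nonneg _
  have hnorm : ∀ c : k, ‖ι (algebraMap k L c)‖ = ‖c‖ := fun c => by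
    rw [hE.norm, norm_algebraMap']
  let σ : Fin P.support.card ≃ P.support := P.support.equivFin.symm
  let e : Fin P.support.card → Ω := fun i => ∏ j, (ι (u j)) ^ ((σ i : Fin m →₀ ℕ) j)
  let c : Fin P.support.card → Ω := fun i => ι (algebraMap k L (P.coeff (σ i)))
  have he : ∀ i, e i ∈ κ := fun i => κ.prod_mem fun j _ => κ.pow_mem (hu j) _
  have hc : ∀ i, c i ∈ kO k ι := fun i => ⟨P.coeff (σ i), rfl⟩
  have hli : ∀ a : Fin P.support.card → Ω, (∀ i, a i ∈ k0) → ∑ i, a i * e i = 0 →
      ∀ i, a i = 0 := by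
    intro a ha h0 i
    let Q : MvPolynomial (Fin m) k0 := ∑ i, MvPolynomial.monomial (σ i : Fin m →₀ ℕ) ⟨a i, ha i⟩
    have hQ : MvPolynomial.aeval (fun j => ι (u j)) Q = 0 := by
      rw [← h0]
      simp only [Q, map_sum, MvPolynomial.aeval_monomial]
      refine Finset.sum_congr rfl fun i _ => ?_
      rw [Finsupp.prod_fintype _ _ (fun j => pow_zero _)]
      rfl
    have hQ0 : Q = 0 := (injective_iff_map_eq_zero _).1 hai Q hQ
    have h1 : MvPolynomial.coeff (σ i : Fin m →₀ ℕ) Q = ⟨a i, ha i⟩ := by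
      simp only [Q, MvPolynomial.coeff_sum, MvPolynomial.coeff_monomial]
      rw [Finset.sum_eq_single i]
      · rw [if_pos rfl]
      · intro b _ hb
        rw [if_neg]
        intro h
        exact hb (σ.injective (Subtype.ext h))
      · intro h
        exact absurd (Finset.mem_univ _) h
    rw [hQ0, MvPolynomial.coeff_zero] at h1
    exact (congrArg Subtype.val h1).symm
  have hmain := tensor_norm hg hle htriv e he hli c hc (σ.symm ⟨s, hs⟩)
  have hsum : ∑ i, c i * e i = ι (MvPolynomial.aeval u P) := by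
    rw [MvPolynomial.aeval_def, MvPolynomial.eval₂_eq', map_sum]
    rw [← Finset.sum_coe_sort P.support]
    rw [← Equiv.sum_comp σ]
    refine Finset.sum_congr rfl fun i _ => ?_
    rw [map_mul, map_prod]
    congr 1
    refine Finset.prod_congr rfl fun j _ => ?_
    rw [map_pow]
  have hcs : c (σ.symm ⟨s, hs⟩) = ι (algebraMap k L (P.coeff s)) := by
    simp only [c, Equiv.apply_symm_apply]
  rw [hsum, hcs, hnorm, hE.norm] at hmain
  exact hmain

end MP1a953e
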