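import Pool.Agent.Lib.MP_1a953e_ag.EmbDefs

/-!
# Module Em5: p-independence of u
-/

namespace MP1a953e

open Polynomial IsLocalRing

universe v w

private noncomputable def em5mono {m p : ℕ} (s : Fin m → Fin p) : Fin m →₀ ℕ :=
  Finsupp.equivFunOnFinite.symm (fun i => (s i : ℕ))

private theorem em5mono_apply {m p : ℕ} (s : Fin m → Fin p) (i : Fin m) :
    em5mono s i = (s i : ℕ) := rfl

private theorem em5_inj {m p : ℕ} {s s' : Fin m → Fin p} {t t' : Fin m →₀ ℕ}
    (h : em5mono s + p • t = em5mono s' + p • t') : s = s' ∧ t = t' := by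
  have h1 : ∀ i, (s i : ℕ) + p * t i = (s' i : ℕ) + p * t' i := by
    intro i
    have := DFunLike.congr_fun h i
    simpa [em5mono_apply] using this
  have h2 : s = s' := by
    funext i
    ext
    have h3 := congrArg (· % p) (h1 i)
    simp only [Nat.add_mul_mod_self_left, Nat.mod_eq_of_lt (s i).2,
      Nat.mod_eq_of_lt (s' i).2] at h3
    exact h3
  refine ⟨h2, ?_⟩
  ext i
  have h3 := h1 i
  rw [h2] at h3
  have hp : 0 < p := by
    have := (s i).2
    omega
  exact Nat.eq_of_mul_eq_mul_left hp (Nat.add_left_cancel h3)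

private theorem em5_mv {R : Type*} [CommRing R] [IsReduced R] {p : ℕ} [Fact p.Prime] [CharP R p]
    {m : ℕ} (P : (Fin m → Fin p) → MvPolynomial (Fin m) R)
    (h : ∑ s, (∏ i, (MvPolynomial.X i : MvPolynomial (Fin m) R) ^ (s i : ℕ)) * P s ^ p = 0)
    (s₀ : Fin m → Fin p) : P s₀ = 0 := by
  classical
  have hm : ∀ s : Fin m → Fin p, (∏ i, (MvPolynomial.X i : MvPolynomial (Fin m) R) ^ (s i : ℕ)) =
      MvPolynomial.monomial (em5mono s) 1 := by
    intro s
    rw [MvPolynomial.monomial_eq, map_one, one_mul, Finsupp.prod_fintype]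
    · rfl
    · intro i
      rw [pow_zero]
  have hP : ∀ s, P s ^ p = ∑ t ∈ (P s).support,
      MvPolynomial.monomial (p • t) ((P s).coeff t ^ p) := by
    intro s
    conv_lhs => rw [MvPolynomial.as_sum (P s)]
    rw [sum_pow_char]
    exact Finset.sum_congr rfl fun t _ => by rw [MvPolynomial.monomial_pow]
  ext t₀
  rw [MvPolynomial.coeff_zero]
  have h1 := congrArg (MvPolynomial.coeff (em5mono s₀ + p • t₀)) h
  rw [MvPolynomial.coeff_zero, MvPolynomial.coeff_sum, Finset.sum_eq_single s₀] at h1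
  · rw [hm, hP, Finset.mul_sum, MvPolynomial.coeff_sum, Finset.sum_eq_single t₀] at h1
    · rw [MvPolynomial.monomial_mul, one_mul, MvPolynomial.coeff_monomial, if_pos rfl] at h1
      exact pow_eq_zero_iff (Fact.out : p.Prime).ne_zero |>.1 h1
    · intro t _ ht
      rw [MvPolynomial.monomial_mul, MvPolynomial.coeff_monomial, if_neg]
      exact fun h2 => ht (em5_inj h2).2
    · intro ht
      rw [MvPolynomial.notMem_support_iff] at ht
      rw [ht, zero_pow (Fact.out : p.Prime).ne_zero, map_zero, mul_zero,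
        MvPolynomial.coeff_zero]
  · intro s _ hs
    rw [hm, hP, Finset.mul_sum, MvPolynomial.coeff_sum]
    refine Finset.sum_eq_zero fun t _ => ?_
    rw [MvPolynomial.monomial_mul, MvPolynomial.coeff_monomial, if_neg]
    exact fun h2 => hs (em5_inj h2).1
  · intro hs
    exact absurd (Finset.mem_univ _) hs

private theorem em5_base {Ω : Type*} [Field Ω] {p : ℕ} [Fact p.Prime] [CharP Ω p]
    {k0 : Subfield Ω} {m : ℕ} {x : Fin m → Ω} (hai : AlgebraicIndependent k0 x)
    (f : (Fin m → Fin p) → Ω) (hf : ∀ s, f s ∈ k0 ⊔ Subfield.closure (Set.range x))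
    (h : ∑ s, (∏ i, x i ^ (s i : ℕ)) * f s ^ p = 0) (s₀ : Fin m → Fin p) : f s₀ = 0 := by
  classical
  have hchar : CharP k0 p := (algebraMap k0 Ω).charP (algebraMap k0 Ω).injective p
  have hf' : ∀ s, ∃ r q : MvPolynomial (Fin m) k0, MvPolynomial.aeval x q ≠ 0 ∧
      f s * MvPolynomial.aeval x q = MvPolynomial.aeval x r := by
    intro s
    have h1 : f s ∈ IntermediateField.adjoin k0 (Set.range x) := by
      have h2 : k0 ⊔ Subfield.closure (Set.range x) ≤
          (IntermediateField.adjoin k0 (Set.range x)).toSubfield := by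
        refine sup_le ?_ (Subfield.closure_le.2 ?_)
        · intro y hy
          exact (IntermediateField.adjoin k0 (Set.range x)).algebraMap_mem ⟨y, hy⟩
        · exact IntermediateField.subset_adjoin k0 (Set.range x)
      exact h2 (hf s)
    rw [IntermediateField.mem_adjoin_range_iff] at h1
    obtain ⟨r, q, hrq⟩ := h1
    by_cases hq : MvPolynomial.aeval x q = 0
    · refine ⟨0, 1, by rw [map_one]; exact one_ne_zero, ?_⟩
      rw [hrq, hq, div_zero, zero_mul, map_zero]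
    · exact ⟨r, q, hq, by rw [hrq, div_mul_cancel₀ _ hq]⟩
  choose r q hq hrq using hf'
  let P : (Fin m → Fin p) → MvPolynomial (Fin m) k0 := fun s => r s * ∏ s' ∈ Finset.univ.erase s, q s'
  have hQ : MvPolynomial.aeval x (∏ s, q s) ≠ 0 := by
    rw [map_prod]
    exact Finset.prod_ne_zero_iff.2 fun s _ => hq s
  have hP : ∀ s, MvPolynomial.aeval x (P s) = f s * MvPolynomial.aeval x (∏ s, q s) := by
    intro s
    rw [← Finset.mul_prod_erase Finset.univ q (Finset.mem_univ s)]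
    show MvPolynomial.aeval x (r s * ∏ s' ∈ Finset.univ.erase s, q s') = _
    rw [map_mul, map_mul, ← mul_assoc, hrq]
  have h1 : ∑ s, (∏ i, (MvPolynomial.X i : MvPolynomial (Fin m) k0) ^ (s i : ℕ)) * P s ^ p = 0 := by
    apply hai
    rw [map_zero, map_sum]
    have h2 : ∀ s : Fin m → Fin p, MvPolynomial.aeval x
        ((∏ i, (MvPolynomial.X i : MvPolynomial (Fin m) k0) ^ (s i : ℕ)) * P s ^ p) =
        ((∏ i, x i ^ (s i : ℕ)) * f s ^ p) * MvPolynomial.aeval x (∏ s, q s) ^ p := by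
      intro s
      rw [map_mul, map_pow, hP, map_prod, mul_pow, mul_assoc]
      simp only [map_pow, MvPolynomial.aeval_X]
    rw [Finset.sum_congr rfl fun s _ => h2 s, ← Finset.sum_mul, h, zero_mul]
  have h2 := em5_mv P h1 s₀
  have h3 := hP s₀
  rw [h2, map_zero] at h3
  exact (mul_eq_zero.1 h3.symm).resolve_right hQ

private theorem em5_step {Ω : Type*} [Field Ω] {p : ℕ} [Fact p.Prime] [CharP Ω p]
    {k0 : Subfield Ω} {m : ℕ} {x : Fin m → Ω} (hai : AlgebraicIndependent k0 x) {a : Ω}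
    (hsep : IsSeparable ↥(k0 ⊔ Subfield.closure (Set.range x)) a)
    (e : (Fin m → Fin p) → Ω)
    (he : ∀ s, e s ∈ (k0 ⊔ Subfield.closure (Set.range x)) ⊔ Subfield.closure {a})
    (h : ∑ s, (∏ i, x i ^ (s i : ℕ)) * e s ^ p = 0) (s₀ : Fin m → Fin p) : e s₀ = 0 := by
  classical
  set κ₀ : Subfield Ω := k0 ⊔ Subfield.closure (Set.range x) with hκ₀
  let E : IntermediateField κ₀ Ω := IntermediateField.adjoin κ₀ {a}
  have hchar : ExpChar κ₀ p := by
    have : CharP κ₀ p := (algebraMap κ₀ Ω).charP (algebraMap κ₀ Ω).injective p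
    exact ExpChar.prime Fact.out
  have hcharE : ExpChar E p := by
    have : CharP E p := (algebraMap E Ω).charP (algebraMap E Ω).injective p
    exact ExpChar.prime Fact.out
  have hcharE' : CharP E p := (algebraMap E Ω).charP (algebraMap E Ω).injective p
  have hfd : FiniteDimensional κ₀ E := IntermediateField.adjoin.finiteDimensional hsep.isIntegral
  have hse : Algebra.IsSeparable κ₀ E :=
    (IntermediateField.isSeparable_adjoin_simple_iff_isSeparable κ₀ Ω).2 hsep
  have heE : ∀ s, e s ∈ E := by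
    intro s
    have h2 : κ₀ ⊔ Subfield.closure {a} ≤ E.toSubfield := by
      refine sup_le ?_ (Subfield.closure_le.2 ?_)
      · intro y hy
        exact E.algebraMap_mem ⟨y, hy⟩
      · exact IntermediateField.subset_adjoin κ₀ {a}
    exact h2 (he s)
  let b := Module.finBasis κ₀ E
  let b' := b.mapPowExpCharPowOfIsSeparable p 1
  have hb' : ∀ j, b' j = b j ^ p := by
    intro j
    show (Module.Basis.mk _ _) j = _
    rw [Module.Basis.mk_apply, pow_one]
  have hxκ : ∀ s : Fin m → Fin p, (∏ i, x i ^ (s i : ℕ)) ∈ κ₀ := by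
    intro s
    refine Subfield.prod_mem _ fun i _ => Subfield.pow_mem _ ?_ _
    exact (le_sup_right : Subfield.closure (Set.range x) ≤ κ₀) (Subfield.subset_closure ⟨i, rfl⟩)
  have h1 : ∑ j, (∑ s : Fin m → Fin p, (⟨∏ i, x i ^ (s i : ℕ), hxκ s⟩ : κ₀) *
      (b.repr ⟨e s, heE s⟩ j) ^ p) • b' j = 0 := by
    have h2 : ∀ s, (⟨e s, heE s⟩ : E) ^ p = ∑ j, (b.repr ⟨e s, heE s⟩ j) ^ p • b' j := by
      intro s
      conv_lhs => rw [← b.sum_repr ⟨e s, heE s⟩]
      rw [sum_pow_char]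
      exact Finset.sum_congr rfl fun j _ => by rw [_root_.smul_pow, hb']
    have h3 : ∑ s : Fin m → Fin p, (⟨∏ i, x i ^ (s i : ℕ), hxκ s⟩ : κ₀) •
        (⟨e s, heE s⟩ : E) ^ p = 0 := by
      apply Subtype.ext
      refine Eq.trans ?_ h
      push_cast
      rfl
    rw [← h3]
    simp only [h2, Finset.smul_sum, Finset.sum_smul, smul_smul]
    rw [Finset.sum_comm]
  have h2 : ∀ j, ∑ s : Fin m → Fin p, (⟨∏ i, x i ^ (s i : ℕ), hxκ s⟩ : κ₀) *
      (b.repr ⟨e s, heE s⟩ j) ^ p = 0 :=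
    fun j => Fintype.linearIndependent_iff.1 b'.linearIndependent _ h1 j
  have h3 : ∀ j, ((b.repr ⟨e s₀, heE s₀⟩ j : κ₀) : Ω) = 0 := by
    intro j
    refine em5_base hai (fun s => ((b.repr ⟨e s, heE s⟩ j : κ₀) : Ω)) (fun s => Subtype.property _)
      ?_ s₀
    have h4 := congrArg (Subtype.val) (h2 j)
    push_cast at h4
    exact h4
  have h4 : (⟨e s₀, heE s₀⟩ : E) = 0 := by
    rw [← b.sum_repr ⟨e s₀, heE s₀⟩]
    refine Finset.sum_eq_zero fun j _ => ?_
    have h5 : b.repr ⟨e s₀, heE s₀⟩ j = 0 := Subtype.ext (h3 j)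
    rw [h5, zero_smul]
  exact congrArg Subtype.val h4

/-- EM5 (`p`-independence of `u`).  Proof.  Monomials `u ^ s`, `0 ≤ s i < p`, in `κ` are linearly
independent over the field `κ ^ p` of `p`-th powers: `κ/κ0`, `κ0 = k0(ι u)`, is separable algebraic, so
elements `e j ∈ κ` linearly independent over `κ0` have `p`-th powers linearly independent over `κ0`
(`LinearIndependent.map_pow_expChar_pow_of_isSeparable` or similar); write `c s = ∑ j, m s j * e j` with
`m s j ∈ κ0`; `∑_s u^s c s ^ p = ∑_j (∑_s u^s m s j ^ p) e j ^ p`, and the monomials `u ^ s` are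
independent over `κ0 ^ p` (purely transcendental, `k0` perfect). Then for `c s ∈ L`: let
`M = max ‖c s‖ > 0`, `c₀ ∈ k` with `‖c₀‖ = M`, replace `ι (c s) / c₀` by elements of `κ`
(`hres`), the sum is a nonzero element of `κ`, of norm `1`. -/
theorem pindep_u {k L Ω : Type*} [NontriviallyNormedField k]
    [IsUltrametricDist k] [NormedField L] [IsUltrametricDist L] [NormedAlgebra k L]
    [NormedField Ω] [IsUltrametricDist Ω] {p : ℕ} [Fact p.Prime] [CharP Ω p] {ι : L →+* Ω}
    {K : Subfield Ω} (hE : Emb ι K) (hval : ∀ x : L, ∃ c : k, ‖c‖ = ‖x‖)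
    {k0 κ : Subfield Ω} (hg : Ground k0 (kO k ι)) (hle : k0 ≤ κ)
    (htriv : ∀ x ∈ κ, x ≠ 0 → ‖x‖ = 1) {m : ℕ} (u : Fin m → L) {a : Ω}
    (hκ : κ = adj (k0 ⊔ Subfield.closure (Set.range fun i => ι (u i))) a)
    (hsep : IsSeparable ↥(k0 ⊔ Subfield.closure (Set.range fun i => ι (u i))) a)
    (hai : AlgebraicIndependent k0 (fun i => ι (u i)))
    (hres : ∀ x ∈ K, ‖x‖ ≤ 1 → ∃ e ∈ κ, ‖x - e‖ < 1)
    (c : (Fin m → Fin p) → L) (s : Fin m → Fin p) :
    ‖c s‖ ^ p ≤ ‖∑ s, (∏ i, u i ^ (s i : ℕ)) * c s ^ p‖ := by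
  classical
  have hp0 : p ≠ 0 := (Fact.out : p.Prime).ne_zero
  obtain ⟨s₁, -, hs₁⟩ := Finset.exists_max_image Finset.univ (fun s => ‖c s‖)
    ⟨s, Finset.mem_univ s⟩
  refine (pow_le_pow_left₀ (norm_nonneg _) (hs₁ s (Finset.mem_univ s)) p).trans ?_
  by_cases h0 : ‖c s₁‖ = 0
  · rw [h0, zero_pow hp0]
    exact norm_nonneg _
  obtain ⟨c₀, hc₀⟩ := hval (c s₁)
  have hpos : 0 < ‖c₀‖ := by
    rw [hc₀]
    exact lt_of_le_of_ne (norm_nonneg _) (Ne.symm h0)
  set w : Ω := ι (algebraMap k L c₀) with hw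
  have hwn : ‖w‖ = ‖c₀‖ := by rw [hw, hE.norm, norm_algebraMap']
  have hw0 : w ≠ 0 := by
    intro h
    rw [h, norm_zero] at hwn
    exact hpos.ne hwn
  have hd1 : ∀ s, ‖ι (c s) / w‖ ≤ 1 := by
    intro s
    rw [norm_div, hwn, hE.norm, div_le_one hpos, hc₀]
    exact hs₁ s (Finset.mem_univ s)
  have hdK : ∀ s, ι (c s) / w ∈ K := fun s => K.div_mem (hE.mem _) (hE.mem _)
  choose e he hde using fun s => hres _ (hdK s) (hd1 s)
  have hxκ : ∀ i, ι (u i) ∈ κ := by
    intro i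
    rw [hκ]
    exact le_adj _ _ ((le_sup_right : Subfield.closure _ ≤ k0 ⊔ _)
      (Subfield.subset_closure ⟨i, rfl⟩))
  have hx1 : ∀ i, ‖ι (u i)‖ ≤ 1 := by
    intro i
    by_cases h : ι (u i) = 0
    · rw [h, norm_zero]
      exact zero_le_one
    · exact (htriv _ (hxκ i) h).le
  set E : Ω := ∑ s : Fin m → Fin p, (∏ i, ι (u i) ^ (s i : ℕ)) * e s ^ p with hEdef
  have hEκ : E ∈ κ := Subfield.sum_mem _ fun s _ => Subfield.mul_mem _
    (Subfield.prod_mem _ fun i _ => Subfield.pow_mem _ (hxκ i) _) (Subfield.pow_mem _ (he s) _)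
  have hE0 : E ≠ 0 := by
    intro h
    have h1 : e s₁ = 0 := em5_step hai hsep e (fun s => by
      have := he s
      rwa [hκ] at this) h s₁
    have h2 := hde s₁
    rw [h1, sub_zero, norm_div, hwn, hE.norm, hc₀, div_self h0] at h2
    exact lt_irrefl _ h2
  have hE1 : ‖E‖ = 1 := htriv E hEκ hE0
  set D : Ω := ∑ s : Fin m → Fin p, (∏ i, ι (u i) ^ (s i : ℕ)) * (ι (c s) / w) ^ p with hDdef
  have hDE : ‖D - E‖ < 1 := by
    have h1 : D - E = ∑ s : Fin m → Fin p, (∏ i, ι (u i) ^ (s i : ℕ)) *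
        (ι (c s) / w - e s) ^ p := by
      rw [hDdef, hEdef, ← Finset.sum_sub_distrib]
      refine Finset.sum_congr rfl fun s _ => ?_
      rw [sub_pow_char, mul_sub]
    rw [h1]
    obtain ⟨s₂, -, hs₂⟩ := IsUltrametricDist.exists_norm_finsetSum_le
      (Finset.univ : Finset (Fin m → Fin p)) (fun s => (∏ i, ι (u i) ^ (s i : ℕ)) *
        (ι (c s) / w - e s) ^ p)
    refine lt_of_le_of_lt hs₂ ?_
    rw [norm_mul, norm_prod, norm_pow]
    have h2 : ∏ i, ‖ι (u i) ^ (s₂ i : ℕ)‖ ≤ 1 :=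
      Finset.prod_le_one (fun i _ => norm_nonneg _) fun i _ => by
        rw [norm_pow]
        exact pow_le_one₀ (norm_nonneg _) (hx1 i)
    calc (∏ i, ‖ι (u i) ^ (s₂ i : ℕ)‖) * ‖ι (c s₂) / w - e s₂‖ ^ p
        ≤ 1 * ‖ι (c s₂) / w - e s₂‖ ^ p :=
          mul_le_mul_of_nonneg_right h2 (pow_nonneg (norm_nonneg _) _)
      _ < 1 := by
          rw [one_mul]
          exact pow_lt_one₀ (norm_nonneg _) (hde s₂) hp0
  have hD1 : 1 ≤ ‖D‖ := by
    by_contra h
    have h1 : ‖E‖ ≤ max ‖D‖ ‖D - E‖ := by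
      have h2 : E = D + -(D - E) := by ring
      have h3 := IsUltrametricDist.norm_add_le_max D (-(D - E))
      rwa [← h2, norm_neg] at h3
    rw [hE1] at h1
    exact absurd (lt_of_le_of_lt h1 (max_lt (not_le.1 h) hDE)) (lt_irrefl _)
  have hfin : ι (∑ s : Fin m → Fin p, (∏ i, u i ^ (s i : ℕ)) * c s ^ p) = w ^ p * D := by
    rw [map_sum, hDdef, Finset.mul_sum]
    refine Finset.sum_congr rfl fun s _ => ?_
    rw [map_mul, map_prod, map_pow, div_pow]
    simp only [map_pow]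
    field_simp
  rw [← hE.norm (∑ s : Fin m → Fin p, (∏ i, u i ^ (s i : ℕ)) * c s ^ p), hfin, norm_mul,
    norm_pow, hwn, hc₀]
  exact le_mul_of_one_le_right (pow_nonneg (norm_nonneg _) _) hD1

end MP1a953e
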