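import Pool.Agent.Lib.MP_1a953e_ag.EmbDefs
import Pool.Agent.Lib.MP_1a953e_ag.Gs1

/-!
# Module Em6: the field F
-/

namespace MP1a953e

open Polynomial IsLocalRing

universe v w

private theorem repr_of_mem {Ω : Type*} [NormedField Ω] {k0 k' κ : Subfield Ω}
    (hk : k0 ≤ k') {x : Ω} (hx : x ∈ Subring.closure ((k' : Set Ω) ∪ κ)) :
    ∃ (n : ℕ) (c e : Fin n → Ω), (∀ i, c i ∈ k') ∧ (∀ i, e i ∈ κ) ∧ x = ∑ i, c i * e i ∧
      ∀ a : Fin n → Ω, (∀ i, a i ∈ k0) → ∑ i, a i * e i = 0 → ∀ i, a i = 0 := by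
  classical
  have h1 : ∃ (n : ℕ) (c e : Fin n → Ω), (∀ i, c i ∈ k') ∧ (∀ i, e i ∈ κ) ∧
      x = ∑ i, c i * e i := by
    have hA : x ∈ Algebra.adjoin k' (κ : Set Ω) := by
      have hle : Subring.closure ((k' : Set Ω) ∪ κ) ≤ (Algebra.adjoin k' (κ : Set Ω)).toSubring := by
        rw [Subring.closure_le]
        rintro y (hy | hy)
        · exact (Algebra.adjoin k' (κ : Set Ω)).algebraMap_mem ⟨y, hy⟩
        · exact Algebra.subset_adjoin hy
      exact hle hx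
    have hκ : Submonoid.closure (κ : Set Ω) = κ.toSubring.toSubmonoid := by
      apply le_antisymm
      · rw [Submonoid.closure_le]
        intro y hy
        exact hy
      · intro y hy
        exact Submonoid.subset_closure hy
    have hA' : x ∈ Submodule.span k' (κ : Set Ω) := by
      have h2 : x ∈ Subalgebra.toSubmodule (Algebra.adjoin k' (κ : Set Ω)) := hA
      rw [Algebra.adjoin_eq_span, hκ] at h2
      exact h2
    obtain ⟨n, f, g, hfg⟩ := (Submodule.mem_span_set').1 hA'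
    exact ⟨n, fun i => (f i : Ω), fun i => (g i : Ω), fun i => (f i).2, fun i => (g i).2, hfg.symm⟩
  obtain ⟨n, ⟨c, e, hc, he, hx'⟩, hmin⟩ : ∃ n : ℕ, (∃ (c e : Fin n → Ω), (∀ i, c i ∈ k') ∧
      (∀ i, e i ∈ κ) ∧ x = ∑ i, c i * e i) ∧ ∀ m < n, ¬ ∃ (c e : Fin m → Ω), (∀ i, c i ∈ k') ∧
      (∀ i, e i ∈ κ) ∧ x = ∑ i, c i * e i :=
    ⟨Nat.find h1, Nat.find_spec h1, fun m hm => Nat.find_min h1 hm⟩
  refine ⟨n, c, e, hc, he, hx', fun a ha hsum => ?_⟩
  by_contra hne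
  push Not at hne
  obtain ⟨j, hj⟩ := hne
  -- shorter representation
  have hnpos : 0 < n := Fin.pos j
  obtain ⟨n', hn'⟩ : ∃ n', n = n' + 1 := ⟨n - 1, by omega⟩
  refine hmin n' (by omega) ?_
  subst hn'
  have hej : e j = -∑ i : Fin n', a (j.succAbove i) / a j * e (j.succAbove i) := by
    rw [Fin.sum_univ_succAbove _ j] at hsum
    have : a j * (e j + ∑ i : Fin n', a (j.succAbove i) / a j * e (j.succAbove i)) = 0 := by
      rw [mul_add, Finset.mul_sum, ← hsum]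
      congr 1
      refine Finset.sum_congr rfl fun i _ => ?_
      field_simp
    rcases mul_eq_zero.1 this with h | h
    · exact absurd h hj
    · exact eq_neg_of_add_eq_zero_left h
  refine ⟨fun i => c (j.succAbove i) - c j * (a (j.succAbove i) / a j), fun i => e (j.succAbove i),
    fun i => ?_, fun i => he _, ?_⟩
  · exact sub_mem (hc _) (mul_mem (hc _) (div_mem (hk (ha _)) (hk (ha _))))
  · rw [hx', Fin.sum_univ_succAbove _ j, hej, mul_neg, Finset.mul_sum, ← Finset.sum_neg_distrib,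
      ← Finset.sum_add_distrib]
    refine Finset.sum_congr rfl fun i _ => ?_
    ring

private theorem approx_of_mem {Ω : Type*} [NormedField Ω] [IsUltrametricDist Ω]
    {k0 k' κ : Subfield Ω}
    (hg : Ground k0 k') (hle : k0 ≤ κ) (htriv : ∀ x ∈ κ, x ≠ 0 → ‖x‖ = 1) {x : Ω}
    (hx : x ∈ Subring.closure ((k' : Set Ω) ∪ κ)) (hx0 : x ≠ 0) :
    ∃ c ∈ k', ∃ e ∈ κ, ‖c‖ = ‖x‖ ∧ ‖x - c * e‖ < ‖x‖ := by
  classical
  obtain ⟨n, c, e, hc, he, hxe, hli⟩ := repr_of_mem hg.le hx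
  have hnorm := tensor_norm hg hle htriv e he hli c hc
  rw [← hxe] at hnorm
  have he1 : ∀ i, ‖e i‖ ≤ 1 := by
    intro i
    by_cases h : e i = 0
    · rw [h, norm_zero]; exact zero_le_one
    · exact (htriv _ (he i) h).le
  have hn : (Finset.univ : Finset (Fin n)).Nonempty := by
    rw [Finset.univ_nonempty_iff]
    by_contra h
    rw [not_nonempty_iff] at h
    rw [Finset.univ_eq_empty, Finset.sum_empty] at hxe
    exact hx0 hxe
  obtain ⟨i₀, -, hi₀⟩ := Finset.exists_max_image Finset.univ (fun i => ‖c i‖) hn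
  have hxle : ‖x‖ ≤ ‖c i₀‖ := by
    rw [hxe]
    refine IsUltrametricDist.norm_sum_le_of_forall_le_of_nonneg (norm_nonneg _) fun i _ => ?_
    rw [norm_mul]
    exact (mul_le_of_le_one_right (norm_nonneg _) (he1 i)).trans (hi₀ i (Finset.mem_univ i))
  have hxeq : ‖c i₀‖ = ‖x‖ := le_antisymm (hnorm i₀) hxle
  have hc0 : c i₀ ≠ 0 := by
    rw [← norm_pos_iff, hxeq, norm_pos_iff]
    exact hx0
  have hres : ∀ i, ∃ a ∈ k0, ‖c i / c i₀ - a‖ < 1 := by
    intro i
    refine hg.res _ (div_mem (hc i) (hc i₀)) ?_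
    rw [norm_div, hxeq]
    exact div_le_one_of_le₀ (hnorm i) (norm_nonneg _)
  choose a ha hlt using hres
  refine ⟨c i₀, hc i₀, ∑ i, a i * e i, sum_mem fun i _ => mul_mem (hle (ha i)) (he i), hxeq, ?_⟩
  have hdiff : x - c i₀ * ∑ i, a i * e i = ∑ i, (c i / c i₀ - a i) * e i * c i₀ := by
    rw [hxe, Finset.mul_sum, ← Finset.sum_sub_distrib]
    refine Finset.sum_congr rfl fun i _ => ?_
    field_simp
  rw [hdiff]
  obtain ⟨i₁, -, hi₁⟩ := Finset.exists_max_image Finset.univ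
    (fun i => ‖(c i / c i₀ - a i) * e i * c i₀‖) hn
  refine lt_of_le_of_lt (IsUltrametricDist.norm_sum_le_of_forall_le_of_nonneg (norm_nonneg _)
    fun i _ => hi₁ i (Finset.mem_univ i)) ?_
  rw [norm_mul, norm_mul, hxeq]
  have hxpos : 0 < ‖x‖ := norm_pos_iff.2 hx0
  have h1 : ‖c i₁ / c i₀ - a i₁‖ * ‖e i₁‖ < 1 :=
    lt_of_le_of_lt (mul_le_of_le_one_right (norm_nonneg _) (he1 i₁)) (hlt i₁)
  calc ‖c i₁ / c i₀ - a i₁‖ * ‖e i₁‖ * ‖x‖ < 1 * ‖x‖ := mul_lt_mul_of_pos_right h1 hxpos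
    _ = ‖x‖ := one_mul _

private theorem inv_mem_closure {Ω : Type*} [NormedField Ω] [IsUltrametricDist Ω]
    {k0 k' κ : Subfield Ω}
    (hg : Ground k0 k') (hle : k0 ≤ κ) (htriv : ∀ x ∈ κ, x ≠ 0 → ‖x‖ = 1) {x : Ω}
    (hx : x ∈ Subring.closure ((k' : Set Ω) ∪ κ)) :
    x⁻¹ ∈ (Subring.closure ((k' : Set Ω) ∪ κ)).topologicalClosure := by
  set R := Subring.closure ((k' : Set Ω) ∪ κ) with hR
  by_cases hx0 : x = 0
  · rw [hx0, inv_zero]; exact zero_mem _
  obtain ⟨c, hc, e, he, hcx, hlt⟩ := approx_of_mem hg hle htriv hx hx0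
  have hk'R : ∀ y ∈ k', y ∈ R := fun y hy => Subring.subset_closure (Or.inl hy)
  have hκR : ∀ y ∈ κ, y ∈ R := fun y hy => Subring.subset_closure (Or.inr hy)
  have hxpos : 0 < ‖x‖ := norm_pos_iff.2 hx0
  have hc0 : c ≠ 0 := by
    rw [← norm_pos_iff, hcx]; exact hxpos
  have he0 : e ≠ 0 := by
    rintro rfl
    rw [mul_zero, sub_zero] at hlt
    exact lt_irrefl _ hlt
  set z := 1 - x * (c⁻¹ * e⁻¹) with hz
  have hzR : z ∈ R := sub_mem (one_mem _) (mul_mem hx (mul_mem (hk'R _ (inv_mem hc))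
    (hκR _ (inv_mem he))))
  have hce : ‖c * e‖ = ‖x‖ := by
    rw [norm_mul, hcx, htriv e he he0, mul_one]
  have hznorm : ‖z‖ < 1 := by
    have : z = -(x - c * e) * (c * e)⁻¹ := by
      rw [hz]; field_simp; ring
    rw [this, norm_mul, norm_neg, norm_inv, hce]
    exact (mul_inv_lt_iff₀ hxpos).2 (by rwa [one_mul])
  have hsum : (1 - z)⁻¹ ∈ R.topologicalClosure := by
    have hs := (hasSum_geometric_of_norm_lt_one hznorm).tendsto_sum_nat
    refine mem_closure_of_tendsto hs (Filter.Eventually.of_forall fun n => ?_)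
    exact sum_mem fun i _ => pow_mem hzR i
  have hxz : x⁻¹ = c⁻¹ * e⁻¹ * (1 - z)⁻¹ := by
    rw [hz, sub_sub_cancel]
    field_simp
  rw [hxz]
  exact mul_mem (mul_mem (R.le_topologicalClosure (hk'R _ (inv_mem hc)))
    (R.le_topologicalClosure (hκR _ (inv_mem he)))) hsum

/-- EM6a.  `F` is the closure of the field generated by `k'` and `κ` (a subfield of the complete field `K`).
The ring generated by `k'` and `κ` is dense in the field generated by them: a nonzero element is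
`c * e * (1 - y)` with `c ∈ k'`, `e ∈ κ`, `‖y‖ < 1` (`tensor_norm`, see `Gs.approx`), and
`(1 - y)⁻¹ = ∑ y ^ n`. -/
theorem exists_gs {Ω : Type*} [NormedField Ω] [IsUltrametricDist Ω] {k0 k' κ K : Subfield Ω}
    (hg : Ground k0 k') (hle : k0 ≤ κ) (htriv : ∀ x ∈ κ, x ≠ 0 → ‖x‖ = 1)
    (hfg : ∃ s : Finset Ω, κ = k0 ⊔ Subfield.closure (s : Set Ω))
    (hK : IsComplete (K : Set Ω)) (hkK : k' ≤ K) (hκK : κ ≤ K) :
    ∃ F : Subfield Ω, Gs k0 k' κ F ∧ F ≤ K := by
  set R := Subring.closure ((k' : Set Ω) ∪ κ) with hR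
  have hinv : ∀ x ∈ R.topologicalClosure, x⁻¹ ∈ R.topologicalClosure := by
    intro x hx
    by_cases hx0 : x = 0
    · rw [hx0, inv_zero]; exact zero_mem _
    have h1 : x ∈ closure (({0}ᶜ : Set Ω) ∩ (R : Set Ω)) :=
      isOpen_compl_singleton.inter_closure ⟨hx0, hx⟩
    have h2 := mem_closure_image (continuousAt_inv₀ hx0) h1
    refine (closure_minimal ?_ R.isClosed_topologicalClosure) h2
    rintro _ ⟨y, ⟨-, hy⟩, rfl⟩
    exact inv_mem_closure hg hle htriv hy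
  let F : Subfield Ω := { R.topologicalClosure with inv_mem' := hinv }
  have hFK : F ≤ K := by
    intro x hx
    refine (closure_minimal ?_ hK.isClosed) (show x ∈ closure (R : Set Ω) from hx)
    have : R ≤ K.toSubring := by
      rw [hR, Subring.closure_le]
      rintro y (hy | hy)
      · exact hkK hy
      · exact hκK hy
    exact this
  have hRF : ∀ y ∈ R, y ∈ F := fun y hy => R.le_topologicalClosure hy
  have hclosed : IsClosed (F : Set Ω) := R.isClosed_topologicalClosure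
  refine ⟨F, ⟨hg, hle, htriv, hfg, fun y hy => hRF y (Subring.subset_closure (Or.inl hy)),
    fun y hy => hRF y (Subring.subset_closure (Or.inr hy)), ?_, ?_⟩, hFK⟩
  · intro x hx ε hε
    obtain ⟨g, hg, hlt⟩ := Metric.mem_closure_iff.1 (show x ∈ closure (R : Set Ω) from hx) ε hε
    exact ⟨g, hg, by rwa [← dist_eq_norm]⟩
  · intro f hf hfF
    obtain ⟨x, hx, hfx⟩ := hK f hf (hfF.trans (Filter.principal_mono.2 hFK))
    have := hf.1
    refine ⟨x, ?_, hfx⟩
    exact isClosed_iff_clusterPt.1 hclosed x (ClusterPt.mono (ClusterPt.of_le_nhds hfx) hfF)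

/-- EM6b.  Scale by an element of `k'` (`hval`) and use `hres`. -/
theorem imm_of_gs {Ω : Type*} [NormedField Ω] [IsUltrametricDist Ω] {k0 k' κ F K : Subfield Ω}
    (hG : Gs k0 k' κ F) (hFK : F ≤ K)
    (hval : ∀ x ∈ K, ∃ c ∈ k', ‖c‖ = ‖x‖) (hres : ∀ x ∈ K, ‖x‖ ≤ 1 → ∃ e ∈ κ, ‖x - e‖ < 1) :
    Imm F K := by
  refine ⟨hFK, fun x hx hx0 => ?_⟩
  obtain ⟨c, hc, hcx⟩ := hval x hx
  have hxpos : 0 < ‖x‖ := norm_pos_iff.2 hx0
  have hc0 : c ≠ 0 := by
    rw [← norm_pos_iff, hcx]; exact hxpos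
  obtain ⟨e, he, hlt⟩ := hres (x / c) (div_mem hx (hFK (hG.k_le hc))) (by
    rw [norm_div, hcx, div_self hxpos.ne'])
  refine ⟨c * e, mul_mem (hG.k_le hc) (hG.κ_le he), ?_⟩
  have : x - c * e = c * (x / c - e) := by field_simp
  rw [this, norm_mul, hcx]
  calc ‖x‖ * ‖x / c - e‖ < ‖x‖ * 1 := mul_lt_mul_of_pos_left hlt hxpos
    _ = ‖x‖ := mul_one _

end MP1a953e
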