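import Pool.Agent.Lib.MP_1a953e_ag.Gs1

/-!
# Module GP3: residues are algebraic, value group
-/

namespace MP1a953e

open Polynomial

variable {Ω : Type*} [NormedField Ω] [IsUltrametricDist Ω]

private lemma gp3_sum_lt {s : Finset ℕ} (f : ℕ → Ω) {r : ℝ} (hr : 0 < r)
    (h : ∀ i ∈ s, ‖f i‖ < r) : ‖∑ i ∈ s, f i‖ < r := by
  rcases s.eq_empty_or_nonempty with rfl | hN
  · rw [Finset.sum_empty, norm_zero]; exact hr
  · obtain ⟨i, hi, hi'⟩ := IsUltrametricDist.exists_norm_finsetSum_le_of_nonempty hN f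
    exact hi'.trans_lt (h i hi)

private lemma gp3_norm_add {a b : Ω} (h : ‖b‖ < ‖a‖) : ‖a + b‖ = ‖a‖ := by
  rw [IsUltrametricDist.norm_add_eq_max_of_norm_ne_norm h.ne', max_eq_left h.le]

/-- a nontrivial relation -/
private lemma gp3_rel {Q : Subfield Ω} (E : IntermediateField Q Ω) [FiniteDimensional Q E] {x : Ω}
    (hx : x ∈ E) : ∃ (n : ℕ) (q : ℕ → Ω), (∀ i, q i ∈ Q) ∧ (∃ i ∈ Finset.range n, q i ≠ 0) ∧
      ∑ i ∈ Finset.range n, q i * x ^ i = 0 := by
  have hint : IsIntegral Q (⟨x, hx⟩ : E) := Algebra.IsIntegral.isIntegral _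
  obtain ⟨P, hP, hP0⟩ := hint
  have hP1 : Polynomial.aeval (⟨x, hx⟩ : E) P = 0 := hP0
  have hP2 : Polynomial.aeval x P = 0 := by
    have h1 := congrArg (algebraMap E Ω) hP1
    rw [map_zero, ← Polynomial.aeval_algebraMap_apply] at h1
    exact h1
  refine ⟨P.natDegree + 1, fun i => (P.coeff i : Ω), fun i => (P.coeff i).2,
    ⟨P.natDegree, Finset.mem_range.2 (Nat.lt_succ_self _), ?_⟩, ?_⟩
  · have h1 : P.coeff P.natDegree = 1 := hP
    change ((P.coeff P.natDegree : Q) : Ω) ≠ 0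
    rw [h1]
    exact one_ne_zero
  · rw [Polynomial.aeval_eq_sum_range] at hP2
    rw [← hP2]
    refine Finset.sum_congr rfl fun i _ => ?_
    rw [Algebra.smul_def]
    rfl

/-- GP3 (residues are algebraic).  `E/Q` finite, `Q/F` immediate: every `x ∈ E` with `‖x‖ ≤ 1` satisfies
`‖f x‖ < 1` for some monic polynomial `f` over `κ`.  Proof: `1, x, ..., x ^ N` are linearly dependent
over `Q`; scale the relation so that the maximal norm of its coefficients is `1` (the value group of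
`Q` is that of `k`, `Gs.approx`), replace the coefficients by elements of `κ` (`Gs.res`), get a nonzero
polynomial over `κ`, divide by its leading coefficient. -/
theorem exists_residual_poly {k0 k κ F Q : Subfield Ω} (hG : Gs k0 k κ F) (hI : Imm F Q)
    (E : IntermediateField Q Ω) [FiniteDimensional Q E] {x : Ω} (hx : x ∈ E) (hx1 : ‖x‖ ≤ 1) :
    ∃ f : Polynomial Ω, Coeffs κ f ∧ f.Monic ∧ ‖f.eval x‖ < 1 := by
  classical
  obtain ⟨n, q, hq, ⟨i1, hi1, hqi1⟩, hsum⟩ := gp3_rel E hx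
  obtain ⟨i₀, hi₀, hmax⟩ := Finset.exists_max_image (Finset.range n) (fun j => ‖q j‖)
    ⟨i1, hi1⟩
  have hq0 : q i₀ ≠ 0 := by
    intro h
    have h1 := hmax i1 hi1
    rw [h, norm_zero] at h1
    exact hqi1 (norm_le_zero_iff.1 h1)
  have hM : 0 < ‖q i₀‖ := norm_pos_iff.2 hq0
  have hb : ∀ i, ∃ a ∈ κ, i ∈ Finset.range n → ‖q i / q i₀ - a‖ < 1 := by
    intro i
    by_cases hi : i ∈ Finset.range n
    · obtain ⟨a, ha, hal⟩ := hG.res hI (x := q i / q i₀) (Q.div_mem (hq i) (hq i₀)) (by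
        rw [norm_div, div_le_one hM]
        exact hmax i hi)
      exact ⟨a, ha, fun _ => hal⟩
    · exact ⟨0, κ.zero_mem, fun h => absurd h hi⟩
  choose a ha hal using hb
  have ha0 : a i₀ ≠ 0 := by
    intro h
    have h1 := hal i₀ hi₀
    rw [h, sub_zero, div_self hq0, norm_one] at h1
    exact lt_irrefl _ h1
  set g : Polynomial Ω := ∑ i ∈ Finset.range n, C (a i) * X ^ i with hg
  have hgc : ∀ j, g.coeff j = if j ∈ Finset.range n then a j else 0 := by
    intro j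
    rw [hg, Polynomial.finsetSum_coeff]
    simp only [Polynomial.coeff_C_mul_X_pow]
    rw [Finset.sum_ite_eq]
  have hgκ : ∀ j, g.coeff j ∈ κ := by
    intro j
    rw [hgc]
    split_ifs
    · exact ha j
    · exact κ.zero_mem
  have hg0 : g ≠ 0 := by
    intro h
    have h1 := hgc i₀
    rw [h, Polynomial.coeff_zero, if_pos hi₀] at h1
    exact ha0 h1.symm
  have hgx : ‖g.eval x‖ < 1 := by
    have h1 : g.eval x = ∑ i ∈ Finset.range n, (-(q i / q i₀ - a i)) * x ^ i := by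
      have h2 : ∑ i ∈ Finset.range n, (-(q i / q i₀ - a i)) * x ^ i
          = ∑ i ∈ Finset.range n, a i * x ^ i - (∑ i ∈ Finset.range n, q i * x ^ i) / q i₀ := by
        rw [Finset.sum_div, ← Finset.sum_sub_distrib]
        refine Finset.sum_congr rfl fun i _ => ?_
        ring
      rw [h2, hsum, zero_div, sub_zero, hg, Polynomial.eval_finsetSum]
      refine Finset.sum_congr rfl fun i _ => ?_
      rw [Polynomial.eval_mul, Polynomial.eval_C, Polynomial.eval_pow, Polynomial.eval_X]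
    rw [h1]
    refine gp3_sum_lt _ one_pos fun i hi => ?_
    rw [norm_mul, norm_neg, norm_pow]
    exact (mul_le_of_le_one_right (norm_nonneg _) (pow_le_one₀ (norm_nonneg _) hx1)).trans_lt
      (hal i hi)
  have hlc0 : g.leadingCoeff ≠ 0 := Polynomial.leadingCoeff_ne_zero.2 hg0
  have hlcκ : g.leadingCoeff ∈ κ := hgκ _
  have hlc1 : ‖g.leadingCoeff‖ = 1 := hG.triv _ hlcκ hlc0
  refine ⟨C (g.leadingCoeff)⁻¹ * g, fun j => ?_, ?_, ?_⟩
  · rw [Polynomial.coeff_C_mul]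
    exact κ.mul_mem (κ.inv_mem hlcκ) (hgκ j)
  · rw [Polynomial.Monic, Polynomial.leadingCoeff_mul, Polynomial.leadingCoeff_C,
      inv_mul_cancel₀ hlc0]
  · rw [Polynomial.eval_mul, Polynomial.eval_C, norm_mul, norm_inv, hlc1, inv_one, one_mul]
    exact hgx

private lemma gp3_value {k0 k κ F Q : Subfield Ω} (hG : Gs k0 k κ F) (hI : Imm F Q) {x : Ω}
    (hx0 : x ≠ 0) {i j : ℕ} (hij : i < j) {a b : Ω} (ha : a ∈ Q) (hb : b ∈ Q) (ha0 : a ≠ 0)
    (hb0 : b ≠ 0) (h : ‖a * x ^ i‖ = ‖b * x ^ j‖) : ∃ c ∈ k, ‖c‖ = ‖x‖ := by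
  obtain ⟨c, hc, e, he, hcx, he1, hxce⟩ := hG.approx hI (Q.div_mem ha hb) (div_ne_zero ha0 hb0)
  have := hG.ground.closed
  obtain ⟨z, hz⟩ := IsAlgClosed.exists_pow_nat_eq (⟨c, hc⟩ : k) (Nat.sub_pos_of_lt hij)
  refine ⟨z, z.2, ?_⟩
  have hz' : (z : Ω) ^ (j - i) = c := by
    have h1 := congrArg (fun y : k => (y : Ω)) hz
    simpa using h1
  have hb1 : 0 < ‖b‖ := norm_pos_iff.2 hb0
  have hx1 : 0 < ‖x‖ := norm_pos_iff.2 hx0
  have h2 : ‖x‖ ^ (j - i) = ‖a‖ / ‖b‖ := by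
    rw [norm_mul, norm_mul, norm_pow, norm_pow] at h
    have h3 : ‖x‖ ^ j = ‖x‖ ^ (j - i) * ‖x‖ ^ i := by
      rw [← pow_add, Nat.sub_add_cancel hij.le]
    rw [h3] at h
    rw [eq_div_iff hb1.ne']
    have h4 : ‖x‖ ^ i ≠ 0 := (pow_pos hx1 i).ne'
    apply mul_right_cancel₀ h4
    rw [h]
    ring
  have h5 : ‖(z : Ω)‖ ^ (j - i) = ‖x‖ ^ (j - i) := by
    rw [← norm_pow, hz', hcx, norm_div, h2]
  exact (pow_left_inj₀ (norm_nonneg _) (norm_nonneg _) (Nat.sub_pos_of_lt hij).ne').1 h5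

variable {p : ℕ} [Fact p.Prime] [CharP Ω p]

/-- GP5 (value group).  `E/Q` finite: the norms of elements of `E` are norms of elements of `k`.
Proof: for `0 ≠ x ∈ E` the norms `‖x ^ i‖`, `i ≤ N = [E : Q]`, are not independent modulo the value
group: in a nontrivial relation `∑ q i * x ^ i = 0` two terms have the same (maximal) norm, so
`‖x‖ ^ n` is the norm of an element of `Q`, hence of an element of `k`, for some `n ≥ 1`, and `k` is
algebraically closed. -/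
theorem norm_mem_ground {k0 k κ F Q : Subfield Ω} (hG : Gs k0 k κ F) (hI : Imm F Q)
    (E : IntermediateField Q Ω) [FiniteDimensional Q E] {x : Ω} (hx : x ∈ E) (hx0 : x ≠ 0) :
    ∃ c ∈ k, ‖c‖ = ‖x‖ := by
  classical
  obtain ⟨n, q, hq, ⟨i1, hi1, hqi1⟩, hsum⟩ := gp3_rel E hx
  obtain ⟨i₀, hi₀, hmax⟩ := Finset.exists_max_image (Finset.range n) (fun j => ‖q j * x ^ j‖)
    ⟨i1, hi1⟩
  have hpos : 0 < ‖q i₀ * x ^ i₀‖ :=
    (norm_pos_iff.2 (mul_ne_zero hqi1 (pow_ne_zero _ hx0))).trans_le (hmax i1 hi1)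
  have hex : ∃ j ∈ Finset.range n, j ≠ i₀ ∧ ‖q j * x ^ j‖ = ‖q i₀ * x ^ i₀‖ := by
    by_contra hcon
    push Not at hcon
    have h1 : ‖∑ j ∈ (Finset.range n).erase i₀, q j * x ^ j‖ < ‖q i₀ * x ^ i₀‖ := by
      refine gp3_sum_lt _ hpos fun j hj => ?_
      rw [Finset.mem_erase] at hj
      exact lt_of_le_of_ne (hmax j hj.2) (hcon j hj.2 hj.1)
    have h2 : ‖∑ j ∈ Finset.range n, q j * x ^ j‖ = ‖q i₀ * x ^ i₀‖ := by
      rw [← Finset.add_sum_erase _ _ hi₀]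
      exact gp3_norm_add h1
    rw [hsum, norm_zero] at h2
    exact hpos.ne h2
  obtain ⟨j, hj, hji, hnj⟩ := hex
  have hqi0 : q i₀ ≠ 0 := by
    intro h
    rw [h, zero_mul, norm_zero] at hpos
    exact lt_irrefl _ hpos
  have hqj0 : q j ≠ 0 := by
    intro h
    rw [← hnj, h, zero_mul, norm_zero] at hpos
    exact lt_irrefl _ hpos
  rcases lt_or_gt_of_ne hji with h | h
  · exact gp3_value hG hI hx0 h (hq j) (hq i₀) hqj0 hqi0 hnj
  · exact gp3_value hG hI hx0 h (hq i₀) (hq j) hqi0 hqj0 hnj.symm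

end MP1a953e
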