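import Pool.Agent.Lib.MP_1a953e_ag.GP2
import Pool.Agent.Lib.MP_1a953e_ag.GP3
import Pool.Agent.Lib.MP_1a953e_ag.Lin4

/-!
# Module GP4: lifting separable residues
-/

namespace MP1a953e

open Polynomial

variable {Ω : Type*} [NormedField Ω] [IsUltrametricDist Ω] {p : ℕ} [Fact p.Prime] [CharP Ω p]

private theorem gp4_norm_aeval_le {κ : Subfield Ω} (h1 : ∀ x ∈ κ, ‖x‖ ≤ 1) (f : Polynomial κ)
    {y : Ω} (hy : ‖y‖ ≤ 1) : ‖aeval y f‖ ≤ 1 := by
  rw [aeval_eq_sum_range]
  refine IsUltrametricDist.norm_sum_le_of_forall_le_of_nonneg zero_le_one fun i _ => ?_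
  have h2 : (f.coeff i) • y ^ i = (f.coeff i : Ω) * y ^ i := rfl
  rw [h2, norm_mul, norm_pow]
  exact mul_le_one₀ (h1 _ (f.coeff i).2) (by positivity) (pow_le_one₀ (norm_nonneg _) hy)

private theorem gp4_complete {Q : Subfield Ω} (hQ : IsComplete (Q : Set Ω))
    (hnt : ∃ x ∈ Q, 1 < ‖x‖) (E : IntermediateField Q Ω) [FiniteDimensional Q E] :
    IsComplete (E.toSubfield : Set Ω) := by
  let _ : NontriviallyNormedField Q :=
    { (inferInstance : NormedField Q) with
      non_trivial := by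
        obtain ⟨x, hx, h1⟩ := hnt
        exact ⟨⟨x, hx⟩, h1⟩ }
  have : CompleteSpace Q := hQ.completeSpace_coe
  have hfd : FiniteDimensional Q (Subalgebra.toSubmodule E.toSubalgebra) :=
    (inferInstance : FiniteDimensional Q E)
  exact Submodule.complete_of_finiteDimensional (Subalgebra.toSubmodule E.toSubalgebra)

/-- GP4 (lifting separable residues).  For `x ∈ E`, `‖x‖ ≤ 1`, there are `s` and `c ∈ E`, separable
algebraic over `κ`, with `‖x ^ (p ^ s) - c‖ < 1`.  Proof: take a monic `f` over `κ` of minimal degree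
with `‖f x‖ < 1` (GP3). It is irreducible over `κ`, so `f = g (X ^ (p ^ s))` with `g` separable
irreducible over `κ` (`Irreducible.hasSeparableContraction`). `u g + v g' = 1` over `κ` gives
`‖g' (x ^ (p ^ s))‖ = 1` (all these values have norm `≤ 1`); apply `hensel` to `g` in the complete
field `E` (finite over `Q`, `complete_adj` or `FiniteDimensional.complete`). -/
theorem exists_sep_lift {k0 k κ F Q : Subfield Ω} (hG : Gs k0 k κ F) (hI : Imm F Q)
    (hQ : IsComplete (Q : Set Ω)) (E : IntermediateField Q Ω) [FiniteDimensional Q E] {x : Ω}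
    (hx : x ∈ E) (hx1 : ‖x‖ ≤ 1) :
    ∃ (s : ℕ) (c : Ω), c ∈ E ∧ IsSeparable κ c ∧ ‖x ^ p ^ s - c‖ < 1 := by
  have hκ1 : ∀ x ∈ κ, ‖x‖ ≤ 1 := by
    intro x hx
    by_cases h0 : x = 0
    · rw [h0, norm_zero]; exact zero_le_one
    · exact (hG.triv x hx h0).le
  -- a monic polynomial over `κ` of minimal degree
  have hex : ∃ n : ℕ, ∃ f : Polynomial κ, f.Monic ∧ ‖aeval x f‖ < 1 ∧ f.natDegree = n := by
    obtain ⟨f, hf, hfm, hfx⟩ := exists_residual_poly hG hI E hx hx1
    have hl : f ∈ lifts κ.subtype := by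
      rw [lifts_iff_coeff_lifts]
      intro n
      exact ⟨⟨f.coeff n, hf n⟩, rfl⟩
    obtain ⟨q, hq, -, hqm⟩ := lifts_and_degree_eq_and_monic hl hfm
    refine ⟨_, q, hqm, ?_, rfl⟩
    have h3 : aeval x q = f.eval x := by
      rw [← hq, eval_map, aeval_def]
      rfl
    rw [h3]
    exact hfx
  classical
  obtain ⟨f, hfm, hfx, hfn⟩ := Nat.find_spec hex
  have hmin : ∀ g : Polynomial κ, g.Monic → g.natDegree < f.natDegree → 1 ≤ ‖aeval x g‖ := by
    intro g hg hlt
    by_contra hc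
    rw [hfn] at hlt
    exact Nat.find_min hex hlt ⟨g, hg, lt_of_not_ge hc, rfl⟩
  have hf1 : f ≠ 1 := by
    rintro rfl
    rw [map_one, norm_one] at hfx
    exact lt_irrefl _ hfx
  have hirr : Irreducible f := by
    rw [hfm.irreducible_iff_natDegree]
    refine ⟨hf1, ?_⟩
    intro g h hg hh hgh
    by_contra hc
    push Not at hc
    have hdeg : g.natDegree + h.natDegree = f.natDegree := by
      rw [← hgh, hg.natDegree_mul hh]
    have h5 := hmin g hg (by omega)
    have h6 := hmin h hh (by omega)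
    rw [← hgh, map_mul, norm_mul] at hfx
    have := one_le_mul_of_one_le_of_one_le h5 h6
    linarith
  obtain ⟨g, hgs, s, hgf⟩ := hirr.hasSeparableContraction p
  set y : Ω := x ^ p ^ s with hy
  have hy1 : ‖y‖ ≤ 1 := by
    rw [hy, norm_pow]
    exact pow_le_one₀ (norm_nonneg _) hx1
  have hgy : ‖aeval y g‖ < 1 := by
    rw [hy, ← expand_aeval, hgf]
    exact hfx
  have hgy' : ‖aeval y (derivative g)‖ = 1 := by
    apply le_antisymm (gp4_norm_aeval_le hκ1 _ hy1)
    obtain ⟨u, v, huv⟩ := hgs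
    have h7 : aeval y u * aeval y g + aeval y v * aeval y (derivative g) = 1 := by
      rw [← map_mul, ← map_mul, ← map_add, huv, map_one]
    by_contra hc
    have hc' := lt_of_not_ge hc
    have h8 : ‖aeval y u * aeval y g‖ < 1 := by
      rw [norm_mul]
      exact mul_lt_one_of_nonneg_of_lt_one_right (gp4_norm_aeval_le hκ1 _ hy1) (norm_nonneg _) hgy
    have h9 : ‖aeval y v * aeval y (derivative g)‖ < 1 := by
      rw [norm_mul]
      exact mul_lt_one_of_nonneg_of_lt_one_right (gp4_norm_aeval_le hκ1 _ hy1) (norm_nonneg _) hc'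
    have h10 := IsUltrametricDist.norm_add_le_max (aeval y u * aeval y g)
      (aeval y v * aeval y (derivative g))
    rw [h7, norm_one] at h10
    exact absurd (h10.trans_lt (max_lt h8 h9)) (lt_irrefl _)
  have hnt : ∃ x ∈ Q, 1 < ‖x‖ := by
    obtain ⟨z, hz, hz1⟩ := hG.ground.nontriv
    exact ⟨z, hI.1 (hG.k_le hz), hz1⟩
  have hE := gp4_complete hQ hnt E
  have hκE : ∀ z ∈ κ, z ∈ E.toSubfield := by
    intro z hz
    exact E.algebraMap_mem ⟨z, hI.1 (hG.κ_le hz)⟩
  have hmap : ∀ (h : Polynomial κ) (w : Ω), (h.map κ.subtype).eval w = aeval w h := by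
    intro h w
    rw [eval_map, aeval_def]
    rfl
  obtain ⟨c, hc, hc0, hyc⟩ := hensel hE (f := g.map κ.subtype) (x := y)
    (fun i => by
      rw [coeff_map]
      exact hκE _ (g.coeff i).2)
    (fun i => by
      rw [coeff_map]
      exact hκ1 _ (g.coeff i).2)
    (E.toSubfield.pow_mem hx _) hy1
    (by rw [hmap]; exact hgy)
    (by rw [derivative_map, hmap]; exact hgy')
  refine ⟨s, c, hc, ?_, hyc⟩
  rw [hmap] at hc0
  exact Polynomial.Separable.of_dvd hgs (minpoly.dvd κ c hc0)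

end MP1a953e
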