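import Pool.Agent.Lib.MP_1a953e_ag.Gs1
import Pool.Agent.Lib.MP_1a953e_ag.Gs2

/-!
# Module GP5: separable closure of kappa
-/

namespace MP1a953e

open Polynomial

variable {Ω : Type*} [NormedField Ω] [IsUltrametricDist Ω]

/-- an element of `κ ⊔ closure s` lies in `E` -/
private lemma kappa_le_E {k0 k κ F Q : Subfield Ω} (hG : Gs k0 k κ F) (hI : Imm F Q)
    (E : IntermediateField Q Ω) {s : Finset Ω} (hs : ∀ x ∈ s, x ∈ E) {x : Ω}
    (hx : x ∈ κ ⊔ Subfield.closure (s : Set Ω)) : x ∈ E := by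
  have h : κ ⊔ Subfield.closure (s : Set Ω) ≤ E.toSubfield := by
    refine sup_le ?_ (Subfield.closure_le.2 ?_)
    · intro y hy
      exact E.algebraMap_mem ⟨y, hI.1 (hG.κ_le hy)⟩
    · intro y hy
      exact hs y hy
  exact h hx

/-- an orthogonal basis of a trivially normed extension of `κ` is linearly independent over `Q` -/
private lemma indep_Q {k0 k κ F Q κ' : Subfield Ω} (hG : Gs k0 k κ F) (hI : Imm F Q)
    (htr : ∀ x ∈ κ', x ≠ 0 → ‖x‖ = 1) {d : ℕ} {θ : Fin (d + 1) → Ω}
    (hθ : OrthBasis κ κ' θ) (q : Fin (d + 1) → Ω) (hq : ∀ i, q i ∈ Q)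
    (h0 : ∑ i, q i * θ i = 0) : ∀ i, q i = 0 := by
  by_contra hne
  push Not at hne
  obtain ⟨i1, hi1⟩ := hne
  obtain ⟨i0, hi0⟩ := Finite.exists_max (fun i => ‖q i‖)
  have hpos : 0 < ‖q i0‖ := lt_of_lt_of_le (norm_pos_iff.2 hi1) (hi0 i1)
  have hq0 : q i0 ≠ 0 := norm_pos_iff.1 hpos
  have hr : ∀ i, ∃ a ∈ κ, ‖q i / q i0 - a‖ < 1 := by
    intro i
    refine Gs.res hG hI (Q.div_mem (hq i) (hq i0)) ?_
    rw [norm_div, div_le_one hpos]
    exact hi0 i
  choose a ha hqa using hr
  have hθ1 : ∀ i, ‖θ i‖ = 1 := fun i => htr _ (hθ.mem i) (hθ.ne i)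
  have hsum : ∑ i, a i * θ i = ∑ i, (a i - q i / q i0) * θ i := by
    have e1 : ∑ i, q i / q i0 * θ i = 0 := by
      have e2 : ∀ i, q i / q i0 * θ i = (q i0)⁻¹ * (q i * θ i) := fun i => by
        rw [div_eq_mul_inv]; ring
      rw [Finset.sum_congr rfl fun i _ => e2 i, ← Finset.mul_sum, h0, mul_zero]
    have e3 : ∀ i, (a i - q i / q i0) * θ i = a i * θ i - q i / q i0 * θ i := fun i => by ring
    rw [Finset.sum_congr rfl fun i _ => e3 i, Finset.sum_sub_distrib, e1, sub_zero]
  have hlt : ‖∑ i, a i * θ i‖ < 1 := by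
    rw [hsum]
    obtain ⟨i, _, hi⟩ := IsUltrametricDist.exists_norm_finsetSum_le_of_nonempty
      (t := (Finset.univ : Finset (Fin (d + 1)))) Finset.univ_nonempty
      (fun i => (a i - q i / q i0) * θ i)
    refine hi.trans_lt ?_
    rw [norm_mul, hθ1 i, mul_one, norm_sub_rev]
    exact hqa i
  have hmem : ∑ i, a i * θ i ∈ κ' :=
    κ'.sum_mem fun i _ => κ'.mul_mem (hθ.le (ha i)) (hθ.mem i)
  have hz : ∑ i, a i * θ i = 0 := by
    by_contra h
    rw [htr _ hmem h] at hlt
    exact lt_irrefl _ hlt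
  have h1 := hθ.orth a ha i0
  rw [hz, norm_zero, norm_mul, hθ1 i0, mul_one] at h1
  have h2 : a i0 = 0 := norm_eq_zero.1 (le_antisymm h1 (norm_nonneg _))
  have h3 := hqa i0
  rw [h2, sub_zero, div_self hq0, norm_one] at h3
  exact lt_irrefl _ h3

private lemma deg_le {k0 k κ F Q κ' : Subfield Ω} (hG : Gs k0 k κ F) (hI : Imm F Q)
    (E : IntermediateField Q Ω) [FiniteDimensional Q E]
    (htr : ∀ x ∈ κ', x ≠ 0 → ‖x‖ = 1) {d : ℕ} {θ : Fin (d + 1) → Ω}
    (hθ : OrthBasis κ κ' θ) (hE : ∀ i, θ i ∈ E) : d + 1 ≤ Module.finrank Q E := by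
  have hli : LinearIndependent Q (fun i => (⟨θ i, hE i⟩ : E)) := by
    rw [Fintype.linearIndependent_iff]
    intro g hg i
    have h1 : ∑ i, (g i : Ω) * θ i = 0 := by
      have h2 := congrArg (fun x : E => (x : Ω)) hg
      simp only [ZeroMemClass.coe_zero] at h2
      rw [← h2]
      rw [IntermediateField.coe_sum]
      refine Finset.sum_congr rfl fun j _ => ?_
      rfl
    have h3 := indep_Q hG hI htr hθ (fun i => (g i : Ω)) (fun i => (g i).2) h1 i
    exact Subtype.ext h3
  have h := hli.fintype_card_le_finrank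
  rwa [Fintype.card_fin] at h

private lemma li_kappa {κ κ' : Subfield Ω} {d : ℕ} {θ : Fin (d + 1) → Ω}
    (hθ : OrthBasis κ κ' θ) : LinearIndependent κ θ := by
  rw [Fintype.linearIndependent_iff]
  intro g hg i
  have h1 : ∑ i, (g i : Ω) * θ i = 0 := hg
  have h2 := hθ.orth (fun i => (g i : Ω)) (fun i => (g i).2) i
  rw [h1, norm_zero] at h2
  have h3 : (g i : Ω) * θ i = 0 := norm_eq_zero.1 (le_antisymm h2 (norm_nonneg _))
  rcases mul_eq_zero.1 h3 with h | h
  · exact Subtype.ext h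
  · exact absurd h (hθ.ne i)

private lemma mem_span_iff {κ κ' : Subfield Ω} {d : ℕ} {θ : Fin (d + 1) → Ω}
    (hθ : OrthBasis κ κ' θ) (x : Ω) : x ∈ Submodule.span κ (Set.range θ) ↔ x ∈ κ' := by
  constructor
  · intro h
    refine Submodule.span_induction (p := fun y _ => y ∈ κ') ?_ κ'.zero_mem
      (fun y z _ _ hy hz => κ'.add_mem hy hz) (fun c y _ hy => ?_) h
    · rintro _ ⟨i, rfl⟩
      exact hθ.mem i
    · exact κ'.mul_mem (hθ.le c.2) hy
  · intro h
    obtain ⟨c, hc, rfl⟩ := hθ.span x h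
    refine Submodule.sum_mem _ fun i _ => ?_
    exact Submodule.smul_mem _ (⟨c i, hc i⟩ : κ) (Submodule.subset_span ⟨i, rfl⟩)

/-- GP6 (the separable closure of `κ` in `E`).  There is a finite separable `κ1/κ` inside `E` containing
all elements of `E` which are separable algebraic over `κ`.  Proof: elements of the relative separable
closure (a trivially normed field, by `exists_orthBasis` for finite subextensions) which are linearly
independent over `κ` are linearly independent over `Q` (scale a relation over `Q` to maximal norm `1`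
and reduce the coefficients to `κ`), so its degree over `κ` is at most `[E : Q]`. -/
theorem exists_kappa1 {k0 k κ F Q : Subfield Ω} (hG : Gs k0 k κ F) (hI : Imm F Q)
    (E : IntermediateField Q Ω) [FiniteDimensional Q E] :
    ∃ s : Finset Ω, (∀ x ∈ s, x ∈ E ∧ IsSeparable κ x) ∧
      ∀ x ∈ E, IsSeparable κ x → x ∈ κ ⊔ Subfield.closure (s : Set Ω) := by
  classical
  -- the possible degrees
  let P : ℕ → Prop := fun d => ∃ s : Finset Ω, (∀ x ∈ s, x ∈ E ∧ IsSeparable κ x) ∧
    ∃ θ : Fin (d + 1) → Ω, OrthBasis κ (κ ⊔ Subfield.closure (s : Set Ω)) θ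
  have halg : ∀ s : Finset Ω, (∀ x ∈ s, x ∈ E ∧ IsSeparable κ x) → ∀ x ∈ s, IsAlgebraic κ x :=
    fun s hs x hx => ((hs x hx).2.isIntegral).isAlgebraic
  have hbd : ∀ d, P d → d ≤ Module.finrank Q E := by
    rintro d ⟨s, hs, θ, hθ⟩
    have htr := (exists_orthBasis hG.triv s (halg s hs)).1
    have := deg_le hG hI E htr hθ
      (fun i => kappa_le_E hG hI E (fun x hx => (hs x hx).1) (hθ.mem i))
    omega
  have hex : ∃ d, P d := by
    obtain ⟨d, θ, hθ⟩ := (exists_orthBasis hG.triv (∅ : Finset Ω) (by simp)).2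
    exact ⟨d, ∅, by simp, θ, hθ⟩
  obtain ⟨d0, hd0⟩ := hex
  have hP := Nat.findGreatest_spec (P := P) (hbd d0 hd0) hd0
  set D := Nat.findGreatest P (Module.finrank Q E) with hD
  obtain ⟨s, hs, θ, hθ⟩ := hP
  refine ⟨s, hs, fun x hx hsep => ?_⟩
  have hs' : ∀ y ∈ insert x s, y ∈ E ∧ IsSeparable κ y := by
    intro y hy
    rcases Finset.mem_insert.1 hy with rfl | hy
    · exact ⟨hx, hsep⟩
    · exact hs y hy
  obtain ⟨d', θ', hθ'⟩ := (exists_orthBasis hG.triv (insert x s) (halg _ hs')).2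
  have hPd' : P d' := ⟨insert x s, hs', θ', hθ'⟩
  have hle : d' ≤ D := Nat.le_findGreatest (hbd d' hPd') hPd'
  have hmono : κ ⊔ Subfield.closure (s : Set Ω) ≤
      κ ⊔ Subfield.closure ((insert x s : Finset Ω) : Set Ω) := by
    refine sup_le_sup_left (Subfield.closure_mono ?_) _
    intro y hy
    exact Finset.mem_insert_of_mem hy
  have hxm : x ∈ κ ⊔ Subfield.closure ((insert x s : Finset Ω) : Set Ω) :=
    (le_sup_right : Subfield.closure ((insert x s : Finset Ω) : Set Ω) ≤ _)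
      (Subfield.subset_closure (Finset.mem_coe.2 (Finset.mem_insert_self _ _)))
  have hspan : Submodule.span κ (Set.range θ) = Submodule.span κ (Set.range θ') := by
    have hfin : FiniteDimensional κ (Submodule.span κ (Set.range θ')) :=
      FiniteDimensional.span_of_finite κ (Set.finite_range θ')
    refine Submodule.eq_of_le_of_finrank_le ?_ ?_
    · intro y hy
      rw [mem_span_iff hθ] at hy
      rw [mem_span_iff hθ']
      exact hmono hy
    · rw [finrank_span_eq_card (li_kappa hθ), finrank_span_eq_card (li_kappa hθ'),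
        Fintype.card_fin, Fintype.card_fin]
      omega
  rw [← mem_span_iff hθ, hspan, mem_span_iff hθ']
  exact hxm

end MP1a953e
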