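import Pool.Agent.Lib.MP_1a953e_ag.GP1

/-!
# Module GP6: trace argument
-/

namespace MP1a953e

open Polynomial

variable {Ω : Type*} [NormedField Ω] [IsUltrametricDist Ω] {p : ℕ} [Fact p.Prime] [CharP Ω p]

omit [IsUltrametricDist Ω] in
private theorem GP6_norm_natCast {n : ℕ} (hn : ¬ p ∣ n) :
    ‖(n : Ω)‖ = 1 := by
  have hp : p.Prime := Fact.out
  have h1 : ((n ^ (p - 1) : ℕ) : Ω) = ((1 : ℕ) : Ω) := by
    rw [CharP.natCast_eq_natCast Ω p]
    have hz : ((n : ZMod p)) ≠ 0 := by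
      intro h
      exact hn ((ZMod.natCast_eq_zero_iff n p).1 h)
    have h2 : ((n ^ (p - 1) : ℕ) : ZMod p) = ((1 : ℕ) : ZMod p) := by
      push_cast
      exact ZMod.pow_card_sub_one_eq_one hz
    exact (ZMod.natCast_eq_natCast_iff _ _ _).1 h2
  push_cast at h1
  have h3 : ‖(n : Ω)‖ ^ (p - 1) = 1 := by
    rw [← norm_pow, h1, norm_one]
  have hp1 : p - 1 ≠ 0 := by
    have := hp.two_le
    omega
  exact (pow_eq_one_iff_of_nonneg (norm_nonneg _) hp1).1 h3

/-- GP7 (trace argument).  `E/Q₁` finite separable of degree prime to `p`; every `x ∈ E` with `‖x‖ = 1` has a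
power `x ^ (p ^ s)` close to an element of `Q₁`, and all norms of elements of `E` are norms of
elements of `Q₁`: then `E = Q₁`.  Proof: let `x ∈ E`, `x ≠ 0`; scale it to `‖x‖ = 1`. For every
`Q₁`-embedding `σ : E → Ω`, `‖σ y‖ = ‖y‖` (GP1), so `‖σ x ^ (p ^ s) - c‖ < 1`, hence
`‖σ x - x‖ ^ (p ^ s) < 1`. The trace of `x` is the sum of the `σ x` (`n = [E : Q₁]` of them), so
it differs from `n * x` by an element of norm `< 1`, and `‖n * x‖ = 1`; it is not zero. So the trace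
`E → Q₁` is injective, and `[E : Q₁] = 1`. -/
theorem eq_bot_of_trace {Q₁ : Subfield Ω} [IsAlgClosed Ω] (hQ : IsComplete (Q₁ : Set Ω))
    (hnt : ∃ x ∈ Q₁, 1 < ‖x‖)
    (E : IntermediateField Q₁ Ω) [FiniteDimensional Q₁ E] [Algebra.IsSeparable Q₁ E]
    (hdeg : ¬ p ∣ Module.finrank Q₁ E)
    (hval : ∀ x ∈ E, x ≠ 0 → ∃ c ∈ Q₁, ‖c‖ = ‖x‖)
    (hres : ∀ x ∈ E, ‖x‖ = 1 → ∃ (s : ℕ), ∃ c ∈ Q₁, ‖x ^ p ^ s - c‖ < 1) : E = ⊥ := by
  have hp : p.Prime := Fact.out
  -- conjugates have the same norm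
  have hconj : ∀ (σ : E →ₐ[Q₁] Ω) (y : E), ‖σ y‖ = ‖(y : Ω)‖ := by
    intro σ y
    have hy : IsAlgebraic Q₁ y := Algebra.IsAlgebraic.isAlgebraic y
    refine norm_eq_of_minpoly_eq hQ hnt (hy.algHom σ) ?_
    rw [minpoly.algHom_eq σ σ.injective y]
    have := minpoly.algHom_eq E.val E.val.injective y
    exact this.symm
  -- elements of norm one have nonzero trace
  have hone : ∀ x : E, ‖(x : Ω)‖ = 1 → Algebra.trace Q₁ E x ≠ 0 := by
    intro x hx htr
    obtain ⟨s, c, hc, hlt⟩ := hres x x.2 hx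
    have hσ : ∀ σ : E →ₐ[Q₁] Ω, ‖σ x - x‖ < 1 := by
      intro σ
      have h1 : ‖σ (x ^ p ^ s - algebraMap Q₁ E ⟨c, hc⟩)‖ < 1 := by
        rw [hconj]
        exact hlt
      have h2 : σ (x ^ p ^ s - algebraMap Q₁ E ⟨c, hc⟩) = (σ x) ^ p ^ s - c := by
        rw [map_sub, map_pow, AlgHom.commutes]
        rfl
      rw [h2] at h1
      have h3 : (σ x - x) ^ p ^ s = ((σ x) ^ p ^ s - c) - ((x : Ω) ^ p ^ s - c) := by
        rw [sub_pow_char_pow]
        ring
      have h4 : ‖σ x - x‖ ^ p ^ s < 1 := by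
        rw [← norm_pow, h3]
        have h5 := IsUltrametricDist.norm_add_le_max ((σ x) ^ p ^ s - c) (-((x : Ω) ^ p ^ s - c))
        rw [norm_neg, ← sub_eq_add_neg] at h5
        exact lt_of_le_of_lt h5 (max_lt h1 hlt)
      by_contra hge
      push Not at hge
      exact absurd h4 (not_lt.2 (one_le_pow₀ hge))
    have htrace := trace_eq_sum_embeddings (K := Q₁) (L := E) Ω (x := x)
    rw [htr, map_zero] at htrace
    have hcard : Fintype.card (E →ₐ[Q₁] Ω) = Module.finrank Q₁ E := AlgHom.card Q₁ E Ω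
    have hsum : (∑ σ : E →ₐ[Q₁] Ω, σ x) =
        (Module.finrank Q₁ E : Ω) * x + ∑ σ : E →ₐ[Q₁] Ω, (σ x - x) := by
      rw [Finset.sum_sub_distrib, Finset.sum_const, Finset.card_univ, hcard, nsmul_eq_mul]
      ring
    rw [hsum] at htrace
    have h5 : (Module.finrank Q₁ E : Ω) * x = - ∑ σ : E →ₐ[Q₁] Ω, (σ x - x) :=
      eq_neg_of_add_eq_zero_left htrace.symm
    have h6 : ‖(Module.finrank Q₁ E : Ω) * x‖ = 1 := by
      rw [norm_mul, GP6_norm_natCast hdeg, hx, one_mul]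
    have hne : (Finset.univ : Finset (E →ₐ[Q₁] Ω)).Nonempty := by
      rw [← Finset.card_pos, Finset.card_univ, hcard]
      exact Module.finrank_pos
    have h7 : ‖∑ σ : E →ₐ[Q₁] Ω, (σ x - x)‖ < 1 := by
      obtain ⟨σ, -, hσm⟩ := IsUltrametricDist.exists_norm_finsetSum_le_of_nonempty hne
        (fun σ : E →ₐ[Q₁] Ω => σ x - x)
      exact lt_of_le_of_lt hσm (hσ σ)
    rw [h5, norm_neg] at h6
    exact absurd h6 h7.ne
  -- the trace is injective
  have hinj : Function.Injective (Algebra.trace Q₁ E) := by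
    rw [injective_iff_map_eq_zero]
    intro x htr
    by_contra hx0
    have hx0' : (x : Ω) ≠ 0 := fun h => hx0 (Subtype.ext h)
    obtain ⟨c, hc, hcn⟩ := hval x x.2 hx0'
    have hc0 : c ≠ 0 := by
      intro h
      rw [h, norm_zero] at hcn
      exact hx0' (norm_eq_zero.1 hcn.symm)
    refine hone ((⟨c, hc⟩ : Q₁)⁻¹ • x) ?_ ?_
    · have : (((⟨c, hc⟩ : Q₁)⁻¹ • x : E) : Ω) = c⁻¹ * x := rfl
      rw [this, norm_mul, norm_inv, hcn]
      exact inv_mul_cancel₀ (norm_ne_zero_iff.2 hx0')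
    · rw [map_smul, htr, smul_zero]
  have hfr : Module.finrank Q₁ E ≤ 1 := by
    have := LinearMap.finrank_le_finrank_of_injective hinj
    simpa using this
  have hfr1 : Module.finrank Q₁ E = 1 := le_antisymm hfr Module.finrank_pos
  exact IntermediateField.finrank_eq_one_iff.1 hfr1

end MP1a953e
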