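import Pool.Agent.Lib.MP_1a953e_ag.Gs1
import Pool.Agent.Lib.MP_1a953e_ag.Lin1
import Pool.Agent.Lib.MP_1a953e_ag.Lin2

/-!
# Module Gs3: compositum
-/

namespace MP1a953e

open Polynomial

variable {Ω : Type*} [NormedField Ω] [IsUltrametricDist Ω]

private lemma gs3_sum_lt {n : ℕ} (f : Fin n → Ω) {r : ℝ} (hr : 0 < r)
    (h : ∀ i, ‖f i‖ < r) : ‖∑ i, f i‖ < r := by
  rcases isEmpty_or_nonempty (Fin n) with hE | hN
  · rw [Finset.univ_eq_empty, Finset.sum_empty, norm_zero]; exact hr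
  · obtain ⟨i, _, hi⟩ := IsUltrametricDist.exists_norm_finsetSum_le_of_nonempty
      (Finset.univ_nonempty (α := Fin n)) f
    exact hi.trans_lt (h i)

private lemma gs3_norm_add {a b : Ω} (h : ‖b‖ < ‖a‖) : ‖a + b‖ = ‖a‖ := by
  rw [IsUltrametricDist.norm_add_eq_max_of_norm_ne_norm h.ne', max_eq_left h.le]

private lemma gs3_basis {k0 k κ F κ' : Subfield Ω} (hG : Gs k0 k κ F)
    (htriv : ∀ x ∈ κ', x ≠ 0 → ‖x‖ = 1) {d : ℕ} {θ : Fin (d + 1) → Ω} (hθ : OrthBasis κ κ' θ) :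
    OrthBasis F (F ⊔ κ') θ := by
  have hθ1 : ∀ i, ‖θ i‖ = 1 := fun i => htriv _ (hθ.mem i) (hθ.ne i)
  refine ⟨le_sup_left, hθ.zero, fun i => (le_sup_right : κ' ≤ F ⊔ κ') (hθ.mem i), hθ.ne,
    fun x hx => (mem_sup_iff hG.κ_le hθ x).1 hx, fun c hc i => ?_⟩
  obtain ⟨i₀, _, hi₀⟩ := Finset.exists_max_image Finset.univ (fun j => ‖c j‖)
    ⟨i, Finset.mem_univ i⟩
  rw [norm_mul, hθ1, mul_one]
  rcases eq_or_ne (c i₀) 0 with h0 | h0
  · have h1 := hi₀ i (Finset.mem_univ i)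
    rw [h0, norm_zero] at h1
    exact h1.trans (norm_nonneg _)
  have hM : 0 < ‖c i₀‖ := norm_pos_iff.2 h0
  have hy : ∀ j, ‖c j / c i₀‖ ≤ 1 := fun j => by
    rw [norm_div, div_le_one hM]
    exact hi₀ j (Finset.mem_univ j)
  have hyk : ∀ j, c j / c i₀ ∈ F := fun j => F.div_mem (hc j) (hc i₀)
  choose a ha hal using fun j => hG.res (Imm.refl F) (hyk j) (hy j)
  have ha0 : a i₀ ≠ 0 := by
    intro h
    have h1 := hal i₀
    rw [h, sub_zero, div_self h0, norm_one] at h1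
    exact lt_irrefl _ h1
  have hs0 : ∑ j, a j * θ j ≠ 0 := by
    intro h
    have h1 := hθ.orth a ha i₀
    rw [h, norm_zero, norm_le_zero_iff] at h1
    exact (mul_ne_zero ha0 (hθ.ne i₀)) h1
  have hsκ : ∑ j, a j * θ j ∈ κ' := sum_mem fun j _ => κ'.mul_mem (hθ.le (ha j)) (hθ.mem j)
  have hs1 : ‖∑ j, a j * θ j‖ = 1 := htriv _ hsκ hs0
  have hd : ‖∑ j, (c j / c i₀ - a j) * θ j‖ < 1 := by
    refine gs3_sum_lt _ one_pos fun j => ?_
    rw [norm_mul, hθ1, mul_one]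
    exact hal j
  have hsum : ∑ j, c j * θ j = c i₀ * (∑ j, a j * θ j + ∑ j, (c j / c i₀ - a j) * θ j) := by
    rw [← Finset.sum_add_distrib, Finset.mul_sum]
    refine Finset.sum_congr rfl fun j _ => ?_
    field_simp
    ring
  rw [hsum, norm_mul, gs3_norm_add (by rw [hs1]; exact hd), hs1, mul_one]
  exact hi₀ i (Finset.mem_univ i)

/-- GS6 (compositum).  Proof.  Orthogonality of `θ` over `F`: let `c i ∈ F`, `M = max ‖c i‖ > 0`; choose
`c ∈ k`, `‖c‖ = M` (`Gs.approx`) and `a i ∈ κ` with `‖c i / c - a i‖ < 1` (`Gs.res`), not all zero;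
`∑ a i * θ i ≠ 0` (basis over `κ`) is in `κ'`, so it has norm `1`. (`‖θ i‖ = 1`.) Then
`F ⊔ κ' = ∑ F * θ i` (the set of combinations is a field as in LIN1, or apply LIN1 to
`OrthBasis κ κ' θ` and `κ ≤ F`), complete (coordinates), density: approximate the coordinates;
`κ'` is finitely generated over `k0`. -/
theorem Gs.sup {k0 k κ F κ' : Subfield Ω} (hG : Gs k0 k κ F)
    (htriv : ∀ x ∈ κ', x ≠ 0 → ‖x‖ = 1) {d : ℕ} {θ : Fin (d + 1) → Ω} (hθ : OrthBasis κ κ' θ) :
    Gs k0 k κ' (F ⊔ κ') ∧ OrthBasis F (F ⊔ κ') θ := by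
  classical
  have hB := gs3_basis hG htriv hθ
  have hθ1 : ∀ i, ‖θ i‖ = 1 := fun i => htriv _ (hθ.mem i) (hθ.ne i)
  refine ⟨⟨hG.ground, hG.k0_le.trans hθ.le, htriv, ?_, hG.k_le.trans le_sup_left, le_sup_right,
    ?_, hB.complete hG.complete⟩, hB⟩
  · obtain ⟨s, hs⟩ := hG.fg
    refine ⟨s ∪ Finset.univ.image θ, le_antisymm ?_ ?_⟩
    · intro x hx
      obtain ⟨c, hc, rfl⟩ := hθ.span x hx
      refine sum_mem fun i _ => mul_mem ?_ ?_
      · have h1 : κ ≤ k0 ⊔ Subfield.closure ((s ∪ Finset.univ.image θ : Finset Ω) : Set Ω) := by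
          rw [hs]
          refine sup_le_sup le_rfl (Subfield.closure_mono ?_)
          intro y hy
          exact Finset.mem_coe.2 (Finset.mem_union_left _ hy)
        exact h1 (hc i)
      · refine (le_sup_right : Subfield.closure
          ((s ∪ Finset.univ.image θ : Finset Ω) : Set Ω) ≤ k0 ⊔ _) (Subfield.subset_closure ?_)
        exact Finset.mem_coe.2 (Finset.mem_union_right _
          (Finset.mem_image_of_mem θ (Finset.mem_univ i)))
    · refine sup_le (hG.k0_le.trans hθ.le) (Subfield.closure_le.2 ?_)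
      intro y hy
      rcases Finset.mem_union.1 (Finset.mem_coe.1 hy) with h | h
      · apply hθ.le
        rw [hs]
        exact (le_sup_right : Subfield.closure (s : Set Ω) ≤ k0 ⊔ _)
          (Subfield.subset_closure (Finset.mem_coe.2 h))
      · obtain ⟨i, _, rfl⟩ := Finset.mem_image.1 h
        exact hθ.mem i
  · intro x hx ε hε
    obtain ⟨c, hc, rfl⟩ := hB.span x hx
    choose g hg hgc using fun i => hG.dense (c i) (hc i) ε hε
    refine ⟨∑ i, g i * θ i, ?_, ?_⟩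
    · refine sum_mem fun i _ => mul_mem ?_ ?_
      · refine Subring.closure_mono ?_ (hg i)
        exact Set.union_subset_union_right _ hθ.le
      · exact Subring.subset_closure (Or.inr (hθ.mem i))
    · rw [← Finset.sum_sub_distrib]
      refine gs3_sum_lt _ hε fun i => ?_
      rw [← sub_mul, norm_mul, hθ1, mul_one]
      exact hgc i

end MP1a953e
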