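import Pool.Agent.Lib.MP_1a953e_ag.Gs2
import Pool.Agent.Lib.MP_1a953e_ag.Gs3
import Pool.Agent.Lib.MP_1a953e_ag.Frob3

/-!
# Module Gs4: Frobenius for Gauss type
-/

namespace MP1a953e

open Polynomial

variable {Ω : Type*} [NormedField Ω] [IsUltrametricDist Ω] {p : ℕ} [Fact p.Prime] [CharP Ω p]

private theorem gs4_le_of_dense {F F' : Subfield Ω} {S : Set Ω}
    (hd : ∀ x ∈ F, ∀ ε : ℝ, 0 < ε → ∃ g ∈ Subring.closure S, ‖x - g‖ < ε)
    (hS : S ⊆ F') (hc : IsComplete (F' : Set Ω)) : F ≤ F' := by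
  intro x hx
  have hcl : IsClosed (F' : Set Ω) := hc.isClosed
  have hx' : x ∈ closure (F' : Set Ω) := by
    rw [Metric.mem_closure_iff]
    intro ε hε
    obtain ⟨g, hg, hgx⟩ := hd x hx ε hε
    refine ⟨g, ?_, by rw [dist_eq_norm]; exact hgx⟩
    exact (Subring.closure_le (t := F'.toSubring)).2 hS hg
  rw [hcl.closure_eq] at hx'
  exact hx'

/-- GS7.  Both fields are the closure of the ring generated by `k` and `κ`. -/
theorem Gs.unique {k0 k κ F F' : Subfield Ω} (hG : Gs k0 k κ F) (hG' : Gs k0 k κ F') :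
    F = F' := by
  apply le_antisymm
  · exact gs4_le_of_dense hG.dense (Set.union_subset hG'.k_le hG'.κ_le) hG'.complete
  · exact gs4_le_of_dense hG'.dense (Set.union_subset hG.k_le hG.κ_le) hG.complete

variable {p : ℕ} [Fact p.Prime] [CharP Ω p]

private theorem gs4_perfect {k0 k : Subfield Ω} (h : Ground k0 k) (H : ℕ) :
    ∀ x ∈ k0, ∃ y ∈ k0, y ^ p ^ H = x := by
  induction H with
  | zero => exact fun x hx => ⟨x, hx, by simp⟩
  | succ H ih =>
    intro x hx
    obtain ⟨y, hy, hyx⟩ := ih x hx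
    obtain ⟨z, hz, hzy⟩ := Ground.perfect (p := p) h y hy
    exact ⟨z, hz, by rw [pow_succ', pow_mul, hzy, hyx]⟩

private theorem gs4_powField_le {H : ℕ} {A : Subfield Ω} : powField p H A ≤ A := by
  intro x hx
  obtain ⟨y, hy, rfl⟩ := mem_powField.1 hx
  exact pow_mem hy _

private theorem gs4_k0_le {k0 k κ : Subfield Ω} (h : Ground k0 k) (hκ : k0 ≤ κ) (H : ℕ) :
    k0 ≤ powField p H κ := by
  intro x hx
  obtain ⟨y, hy, hyx⟩ := gs4_perfect (p := p) h H x hx
  exact mem_powField.2 ⟨y, hκ hy, hyx⟩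

private theorem gs4_norm_sub_pow (x y : Ω) (H : ℕ) :
    ‖x ^ p ^ H - y ^ p ^ H‖ = ‖x - y‖ ^ p ^ H := by
  have h := map_sub (iterateFrobenius Ω p H) x y
  simp only [iterateFrobenius_def] at h
  rw [← h, norm_pow]

private theorem gs4_inducing (H : ℕ) :
    IsUniformInducing (fun x : Ω => x ^ p ^ H) := by
  have hp : p ^ H ≠ 0 := pow_ne_zero _ (Fact.out : p.Prime).ne_zero
  rw [Metric.isUniformInducing_iff]
  constructor
  · rw [Metric.uniformContinuous_iff]
    intro ε hε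
    refine ⟨min ε 1, lt_min hε one_pos, fun {a b} hab => ?_⟩
    rw [dist_eq_norm] at hab ⊢
    rw [gs4_norm_sub_pow]
    calc ‖a - b‖ ^ p ^ H ≤ ‖a - b‖ :=
          pow_le_of_le_one (norm_nonneg _) (hab.le.trans (min_le_right _ _)) hp
      _ < ε := hab.trans_le (min_le_left _ _)
  · intro δ hδ
    refine ⟨δ ^ p ^ H, pow_pos hδ _, fun {a b} hab => ?_⟩
    rw [dist_eq_norm] at hab ⊢
    rw [gs4_norm_sub_pow] at hab
    exact lt_of_pow_lt_pow_left₀ _ hδ.le hab

/-- GS8.  Transport by Frobenius (`k0`, `k` are perfect). -/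
theorem Gs.pow {k0 k κ F : Subfield Ω} (hG : Gs k0 k κ F) (H : ℕ) :
    Gs k0 k (powField p H κ) (powField p H F) := by
  have hp : p ^ H ≠ 0 := pow_ne_zero _ (Fact.out : p.Prime).ne_zero
  have hk : ∀ x ∈ k, ∃ y ∈ k, y ^ p ^ H = x := by
    intro x hx
    have := hG.ground.closed
    obtain ⟨z, hz⟩ := IsAlgClosed.exists_pow_nat_eq (⟨x, hx⟩ : k) (Nat.pos_of_ne_zero hp)
    exact ⟨z, z.2, by simpa using congrArg Subtype.val hz⟩
  refine ⟨hG.ground, gs4_k0_le hG.ground hG.k0_le H, ?_, ?_, ?_, ?_, ?_, ?_⟩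
  · intro x hx hx0
    obtain ⟨y, hy, rfl⟩ := mem_powField.1 hx
    have hy0 : y ≠ 0 := by
      rintro rfl
      exact hx0 (zero_pow hp)
    rw [norm_pow, hG.triv y hy hy0, one_pow]
  · obtain ⟨s, hs⟩ := hG.fg
    classical
    refine ⟨s.image (iterateFrobenius Ω p H), ?_⟩
    have h1 : powField p H k0 = k0 :=
      le_antisymm gs4_powField_le (gs4_k0_le hG.ground le_rfl H)
    rw [hs, powField, Subfield.map_sup, RingHom.map_field_closure, Finset.coe_image]
    congr 1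
  · intro x hx
    obtain ⟨y, hy, hyx⟩ := hk x hx
    exact mem_powField.2 ⟨y, hG.k_le hy, hyx⟩
  · exact (Subfield.gc_map_comap (iterateFrobenius Ω p H)).monotone_l hG.κ_le
  · intro x hx ε hε
    obtain ⟨y, hy, rfl⟩ := mem_powField.1 hx
    obtain ⟨g, hg, hgy⟩ := hG.dense y hy (min ε 1) (lt_min hε one_pos)
    refine ⟨g ^ p ^ H, ?_, ?_⟩
    · have h1 : iterateFrobenius Ω p H g ∈
          (Subring.closure ((k : Set Ω) ∪ κ)).map (iterateFrobenius Ω p H) :=
        Subring.mem_map.2 ⟨g, hg, rfl⟩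
      rw [RingHom.map_closure] at h1
      rw [iterateFrobenius_def] at h1
      refine Subring.closure_mono ?_ h1
      rintro z ⟨w, hw, rfl⟩
      rw [iterateFrobenius_def]
      rcases hw with hw | hw
      · exact Or.inl (k.pow_mem hw _)
      · exact Or.inr (mem_powField.2 ⟨w, hw, rfl⟩)
    · rw [gs4_norm_sub_pow]
      calc ‖y - g‖ ^ p ^ H ≤ ‖y - g‖ :=
            pow_le_of_le_one (norm_nonneg _) (hgy.le.trans (min_le_right _ _)) hp
        _ < ε := hgy.trans_le (min_le_left _ _)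
  · have h1 : ((powField p H F : Subfield Ω) : Set Ω) = (fun x : Ω => x ^ p ^ H) '' (F : Set Ω) := by
      ext x
      constructor
      · intro hx
        obtain ⟨y, hy, hyx⟩ := mem_powField.1 hx
        exact ⟨y, hy, hyx⟩
      · rintro ⟨y, hy, hyx⟩
        exact mem_powField.2 ⟨y, hy, hyx⟩
    rw [h1]
    exact (gs4_inducing H).isComplete_iff.2 hG.complete

/-- GS9.  `κ` is generated over `powField p H κ` by finitely many algebraic elements
(`exists_orthBasis`), so `Gs.sup` and `Gs.unique` give the two bases. -/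
theorem Gs.frob {k0 k κ F : Subfield Ω} (hG : Gs k0 k κ F) (H : ℕ) :
    ∃ (d : ℕ) (θ : Fin (d + 1) → Ω),
      OrthBasis (powField p H κ) κ θ ∧ OrthBasis (powField p H F) F θ := by
  have hp : p ^ H ≠ 0 := pow_ne_zero _ (Fact.out : p.Prime).ne_zero
  have hP := hG.pow (p := p) H
  obtain ⟨s, hs⟩ := hG.fg
  have hsκ : (s : Set Ω) ⊆ κ := by
    intro x hx
    rw [hs]
    exact (le_sup_right : Subfield.closure (s : Set Ω) ≤ _) (Subfield.subset_closure hx)
  have hκ : powField p H κ ⊔ Subfield.closure (s : Set Ω) = κ := by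
    apply le_antisymm
    · exact sup_le gs4_powField_le (Subfield.closure_le.2 hsκ)
    · calc κ = k0 ⊔ Subfield.closure (s : Set Ω) := hs
        _ ≤ powField p H κ ⊔ Subfield.closure (s : Set Ω) := sup_le_sup_right hP.k0_le _
  have halg : ∀ x ∈ s, IsAlgebraic (powField p H κ) x := by
    intro x hx
    refine IsIntegral.isAlgebraic ?_
    refine IsIntegral.of_pow (Nat.pos_of_ne_zero hp) ?_
    have hm : x ^ p ^ H ∈ powField p H κ := mem_powField.2 ⟨x, hsκ hx, rfl⟩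
    exact isIntegral_algebraMap (x := (⟨x ^ p ^ H, hm⟩ : powField p H κ))
  obtain ⟨-, d, θ, hθ⟩ := exists_orthBasis hP.triv s halg
  rw [hκ] at hθ
  obtain ⟨h1, h2⟩ := Gs.sup hP hG.triv hθ
  have h3 : powField p H F ⊔ κ = F := Gs.unique h1 hG
  rw [h3] at h2
  exact ⟨d, θ, hθ, h2⟩

/-- GS10. -/
theorem Gs.ab {k0 k κ F : Subfield Ω} (hG : Gs k0 k κ F) : Ab p k0 k κ F := by
  refine ⟨hG.ground, hG.k0_le, hG.fg, hG.k_le, hG.κ_le, hG.dense, hG.complete, ?_, hG.frob⟩
  intro x hx hx1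
  obtain ⟨a, ha, hxa⟩ := hG.res (Imm.refl F) hx hx1
  refine ⟨a, ha, ?_, hxa⟩
  by_cases h0 : a = 0
  · rw [h0, norm_zero]; exact zero_le_one
  · exact (hG.triv a ha h0).le

/-- GS11.  The field of `p ^ m`-th roots (transport as in `Ab.root`; or from `Ab.root`). -/
theorem Gs.root [IsAlgClosed Ω] {k0 k κ F : Subfield Ω} (hG : Gs k0 k κ F) (m : ℕ) :
    Gs k0 k (rootField p m κ) (rootField p m F) := by
  have hp : p ^ m ≠ 0 := pow_ne_zero _ (Fact.out : p.Prime).ne_zero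
  have hA := Ab.root (hG.ab (p := p)) m
  refine ⟨hA.ground, hA.k0_le, ?_, hA.fg, hA.k_le, hA.A_le, hA.dense, hA.complete⟩
  intro x hx hx0
  have h1 := hG.triv _ (mem_rootField.1 hx) (pow_ne_zero _ hx0)
  rw [norm_pow] at h1
  exact (pow_eq_one_iff_of_nonneg (norm_nonneg _) hp).1 h1

end MP1a953e
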