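import Pool.Agent.Lib.MP_1a953e_ag.GP4
import Pool.Agent.Lib.MP_1a953e_ag.GP5
import Pool.Agent.Lib.MP_1a953e_ag.GP6
import Pool.Agent.Lib.MP_1a953e_ag.Gs4

/-!
# Module GP7: the class of Gauss type fields is good
-/

namespace MP1a953e

open Polynomial

variable {Ω : Type*} [NormedField Ω] [IsUltrametricDist Ω] {p : ℕ} [Fact p.Prime] [CharP Ω p]

omit [IsUltrametricDist Ω] in
private lemma tower_aux {Q Q₁ : Subfield Ω} (h : Q ≤ Q₁) (E : IntermediateField Q Ω)
    (hle : Q₁ ≤ E.toSubfield) (hfin : FiniteDimensional Q E) (hsep : Algebra.IsSeparable Q E) :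
    FiniteDimensional Q₁ (Subfield.extendScalars hle) ∧
      Algebra.IsSeparable Q₁ (Subfield.extendScalars hle) ∧
      Module.finrank Q₁ (Subfield.extendScalars hle) ∣ Module.finrank Q E := by
  let _ : Algebra Q Q₁ := (Subfield.inclusion h).toAlgebra
  have : IsScalarTower Q Q₁ Ω := IsScalarTower.of_algebraMap_eq fun x => rfl
  set E' : IntermediateField Q₁ Ω := Subfield.extendScalars hle with hE'
  let e : E ≃ₐ[Q] E' :=
    { toFun := fun x => ⟨x.1, x.2⟩
      invFun := fun x => ⟨x.1, x.2⟩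
      left_inv := fun x => rfl
      right_inv := fun x => rfl
      map_mul' := fun x y => rfl
      map_add' := fun x y => rfl
      commutes' := fun x => rfl }
  have h1 : FiniteDimensional Q E' := e.toLinearEquiv.finiteDimensional
  have h2 : Algebra.IsSeparable Q E' := AlgEquiv.Algebra.isSeparable e
  refine ⟨FiniteDimensional.right Q Q₁ E', Algebra.isSeparable_tower_top_of_isSeparable Q Q₁ E', ?_⟩
  have h3 := Module.finrank_mul_finrank Q Q₁ E'
  rw [e.toLinearEquiv.finrank_eq, ← h3]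
  exact Dvd.intro_left _ rfl

/-- GP8.  Proof: `κ1` from `exists_kappa1`, `F1 = F ⊔ κ1` (`exists_orthBasis`, `Gs.sup`),
`Q₁ = Q ⊔ κ1 ≤ E`; `Q₁` is complete (`OrthBasis.sup`, `OrthBasis.complete`); view `E` over `Q₁`
(degree prime to `p`, separable) and apply `eq_bot_of_trace` with `exists_sep_lift` and
`norm_mem_ground`. -/
theorem gs_prime [IsAlgClosed Ω] {k0 k κ F : Subfield Ω} (hG : Gs k0 k κ F) (Q : Subfield Ω)
    (hI : Imm F Q) (hQ : IsComplete (Q : Set Ω)) (E : IntermediateField Q Ω)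
    (hfin : FiniteDimensional Q E) (hsep : Algebra.IsSeparable Q E)
    (hdeg : ¬ p ∣ Module.finrank Q E) :
    ∃ A1 F1, Gs k0 k A1 F1 ∧ Ext κ F A1 F1 ∧ E.toSubfield = Q ⊔ F1 := by
  obtain ⟨s, hsE, hs⟩ := exists_kappa1 hG hI E
  obtain ⟨htriv, d, θ, hθ⟩ := exists_orthBasis hG.triv s fun x hx =>
    (IsSeparable.isIntegral (hsE x hx).2).isAlgebraic
  set κ1 : Subfield Ω := κ ⊔ Subfield.closure (s : Set Ω) with hκ1
  obtain ⟨hG1, hF1⟩ := hG.sup htriv hθ
  refine ⟨κ1, F ⊔ κ1, hG1, ⟨d, θ, hθ, hF1⟩, ?_⟩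
  have hQE : Q ≤ E.toSubfield := fun x hx => E.algebraMap_mem ⟨x, hx⟩
  have hκ1E : κ1 ≤ E.toSubfield := by
    refine sup_le ((hG.κ_le.trans hI.1).trans hQE) (Subfield.closure_le.2 fun x hx => ?_)
    exact (hsE x hx).1
  have hle : Q ⊔ (F ⊔ κ1) ≤ E.toSubfield :=
    sup_le hQE (sup_le (hI.1.trans hQE) hκ1E)
  have hcomp : IsComplete ((Q ⊔ (F ⊔ κ1) : Subfield Ω) : Set Ω) := (hF1.sup hI).complete hQ
  obtain ⟨h1, h2, h3⟩ := tower_aux le_sup_left E hle hfin hsep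
  have := h1
  have := h2
  have := hfin
  have hbot := eq_bot_of_trace (p := p) hcomp (by
      obtain ⟨x, hx, hx1⟩ := hG.ground.nontriv
      exact ⟨x, (hG.k_le.trans (hI.1.trans le_sup_left)) hx, hx1⟩)
    (Subfield.extendScalars hle) (fun h => hdeg (h.trans h3))
    (fun x hx hx0 => by
      obtain ⟨c, hc, hcx⟩ := norm_mem_ground hG hI E (x := x) hx hx0
      exact ⟨c, (hG.k_le.trans (hI.1.trans le_sup_left)) hc, hcx⟩)
    (fun x hx hx1 => by
      obtain ⟨t, c, hcE, hcs, hlt⟩ := exists_sep_lift (p := p) hG hI hQ E (x := x) hx hx1.le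
      exact ⟨t, c, (le_sup_right.trans le_sup_right : κ1 ≤ Q ⊔ (F ⊔ κ1)) (hs c hcE hcs), hlt⟩)
  have h4 := congrArg IntermediateField.toSubfield hbot
  rw [Subfield.extendScalars_toSubfield] at h4
  rw [h4]
  ext x
  change x ∈ (⊥ : IntermediateField (Q ⊔ (F ⊔ κ1) : Subfield Ω) Ω) ↔ _
  rw [IntermediateField.mem_bot]
  constructor
  · rintro ⟨y, rfl⟩
    exact y.2
  · intro hx
    exact ⟨⟨x, hx⟩, rfl⟩

/-- GP9.  The class of fields of Gauss type is good. -/
theorem gs_good [IsAlgClosed Ω] (k0 k : Subfield Ω) : GoodClass p k0 k (Gs k0 k) := by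
  refine ⟨fun A F h => h.ab, fun A F h m => h.root m, ?_, ?_⟩
  · intro A F h Q hI hQ E hfin hsep hdeg
    exact gs_prime h Q hI hQ E hfin hsep hdeg
  · intro A F h ρ hρ N hN _ hx
    obtain ⟨x, hx, hxρ⟩ := hx
    refine ⟨A, F, h, Ext.refl A F, ?_⟩
    have hx0 : x ≠ 0 := by
      rintro rfl
      rw [norm_zero] at hxρ
      exact absurd hxρ (by positivity)
    obtain ⟨c, hc, e, -, hcn, -, -⟩ := h.approx (Imm.refl F) hx hx0
    have := h.ground.closed
    obtain ⟨y, hy⟩ := IsAlgClosed.exists_pow_nat_eq (⟨c, hc⟩ : k) hN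
    refine ⟨y.1, h.k_le y.2, ?_⟩
    have h1 : (y.1 : Ω) ^ N = c := congrArg Subtype.val hy
    have h2 : ‖(y.1 : Ω)‖ ^ N = ρ ^ N := by
      rw [← norm_pow, h1, hcn, hxρ]
    exact (pow_left_inj₀ (norm_nonneg _) hρ.le hN.ne').1 h2

end MP1a953e
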