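import Mathlib

/-!
# Module Gal1: Artin-Schreier generator
-/

namespace MP1a953e

open Polynomial

/-- GAL1 (Artin-Schreier).  A Galois extension of degree `p` in characteristic `p` is generated by a root of
`X ^ p - X - a`.  Proof: let `σ` generate the group; `(σ - 1) ^ p = 0` on `L`, `ker (σ - 1) = K` is
one dimensional, so `σ - 1` is nilpotent with `1` in its image (the last nonzero image of a power of
`σ - 1` is contained in, hence equal to, the kernel `K`): `σ z - z = 1`. Then `z ∉ K` generates
(the degree is prime) and `z ^ p - z` is fixed by `σ`. -/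
theorem artin_schreier {K L : Type*} [Field K] [Field L] [Algebra K L] {p : ℕ} [Fact p.Prime]
    [CharP K p] [FiniteDimensional K L] [IsGalois K L] (hdeg : Module.finrank K L = p) :
    ∃ z : L, IntermediateField.adjoin K {z} = ⊤ ∧ ∃ a : K, z ^ p - z = algebraMap K L a := by
  classical
  have hp : p.Prime := Fact.out
  have : CharP L p := charP_of_injective_algebraMap (algebraMap K L).injective p
  have hcard : Nat.card Gal(L/K) = p := by rw [IsGalois.card_aut_eq_finrank, hdeg]
  have : Finite Gal(L/K) := Nat.finite_of_card_ne_zero (by rw [hcard]; exact hp.ne_zero)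
  -- a generator
  obtain ⟨σ, hσ⟩ : ∃ σ : Gal(L/K), ∀ τ, τ ∈ Subgroup.zpowers σ := by
    have : IsCyclic Gal(L/K) := isCyclic_of_prime_card hcard
    exact IsCyclic.exists_generator
  have hσp : σ ^ p = 1 := by
    have := pow_card_eq_one' (G := Gal(L/K)) (x := σ)
    rwa [hcard] at this
  have hfix : ∀ x : L, σ x = x → ∃ a : K, algebraMap K L a = x := by
    intro x hx
    have h1 : x ∈ Set.range (algebraMap K L) := by
      rw [IsGalois.mem_range_algebraMap_iff_fixed]
      intro τ
      obtain ⟨n, rfl⟩ := Subgroup.mem_zpowers_iff.mp (hσ τ)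
      have h2 : σ ∈ MulAction.stabilizer Gal(L/K) x := by
        rw [MulAction.mem_stabilizer_iff]
        exact hx
      have h3 := Subgroup.zpow_mem _ h2 n
      rw [MulAction.mem_stabilizer_iff] at h3
      exact h3
    exact h1
  -- the operator D
  set S : Module.End K L := (σ : L →ₐ[K] L).toLinearMap with hS
  have hSapp : ∀ x, S x = σ x := fun x => rfl
  have hSpow : ∀ (n : ℕ) x, (S ^ n) x = (σ ^ n) x := by
    intro n
    induction n with
    | zero => intro x; simp
    | succ n ih =>
      intro x
      rw [pow_succ, Module.End.mul_apply, ih, hSapp, pow_succ, AlgEquiv.mul_apply]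
  set D : Module.End K L := S - 1 with hD
  have hDapp : ∀ x, D x = σ x - x := fun x => rfl
  have : Nontrivial (Module.End K L) := inferInstance
  have : CharP (Module.End K L) p :=
    charP_of_injective_algebraMap (algebraMap K (Module.End K L)).injective p
  have hDp : D ^ p = 0 := by
    rw [hD, sub_pow_char_of_commute (p := p) (Commute.one_right S), one_pow, sub_eq_zero]
    ext x
    rw [hSpow, hσp]
    rfl
  have hD0 : D ≠ 0 := by
    intro h0
    have hσ1 : σ = 1 := by
      ext x
      have := congrArg (fun f : Module.End K L => f x) h0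
      simp only [hDapp, LinearMap.zero_apply] at this
      simpa [sub_eq_zero] using this
    have : Nat.card Gal(L/K) = 1 := by
      rw [Nat.card_eq_one_iff_unique]
      refine ⟨⟨fun a b => ?_⟩, ⟨1⟩⟩
      obtain ⟨m, rfl⟩ := Subgroup.mem_zpowers_iff.mp (hσ a)
      obtain ⟨n, rfl⟩ := Subgroup.mem_zpowers_iff.mp (hσ b)
      rw [hσ1, one_zpow, one_zpow]
    rw [hcard] at this
    exact hp.one_lt.ne' this
  -- minimal power
  have hex : ∃ m, D ^ m = 0 := ⟨p, hDp⟩
  set m := Nat.find hex with hm
  have hm0 : D ^ m = 0 := Nat.find_spec hex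
  have hm2 : 2 ≤ m := by
    by_contra hlt
    have : m = 0 ∨ m = 1 := by omega
    rcases this with h | h
    · rw [h, pow_zero] at hm0
      exact one_ne_zero hm0
    · rw [h, pow_one] at hm0
      exact hD0 hm0
  have hm1 : D ^ (m - 1) ≠ 0 := Nat.find_min hex (by omega)
  obtain ⟨w, hw⟩ : ∃ w, (D ^ (m - 1)) w ≠ 0 := by
    by_contra hcon
    push Not at hcon
    exact hm1 (LinearMap.ext hcon)
  have hDy : D ((D ^ (m - 1)) w) = 0 := by
    rw [← Module.End.mul_apply, ← pow_succ', show m - 1 + 1 = m by omega, hm0]
    rfl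
  obtain ⟨c, hc⟩ := hfix ((D ^ (m - 1)) w) (by
    have := hDy
    rw [hDapp, sub_eq_zero] at this
    exact this)
  have hc0 : c ≠ 0 := by
    rintro rfl
    rw [map_zero] at hc
    exact hw hc.symm
  set z : L := c⁻¹ • (D ^ (m - 2)) w with hz
  have hDz : D z = 1 := by
    rw [hz, map_smul, ← Module.End.mul_apply, ← pow_succ', show m - 2 + 1 = m - 1 by omega, ← hc,
      Algebra.smul_def, ← map_mul, inv_mul_cancel₀ hc0, map_one]
  have hσz : σ z = z + 1 := by
    rw [hDapp] at hDz
    linear_combination hDz
  refine ⟨z, ?_, ?_⟩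
  · have : IsSimpleOrder (IntermediateField K L) :=
      IntermediateField.isSimpleOrder_of_finrank_prime K L (by rw [hdeg]; exact hp)
    rcases eq_bot_or_eq_top (IntermediateField.adjoin K {z}) with h | h
    · exfalso
      rw [IntermediateField.adjoin_simple_eq_bot_iff, IntermediateField.mem_bot] at h
      obtain ⟨a, ha⟩ := h
      rw [← ha, AlgEquiv.commutes] at hσz
      have : (1 : L) = 0 := by linear_combination -hσz
      exact one_ne_zero this
    · exact h
  · obtain ⟨a, ha⟩ := hfix (z ^ p - z) (by
      rw [map_sub, map_pow, hσz, add_pow_char, one_pow]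
      ring)
    exact ⟨a, ha.symm⟩

end MP1a953e
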