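import Pool.Agent.Lib.MP_1a953e_ag.UDefs

/-!
# Module Gre1: greedy choice of an orthogonal family over q-th powers
-/

namespace MP1a953e

variable {Ω : Type*} [NormedField Ω]

private theorem gre_mono {q : ℕ} {F : Subfield Ω} {r : ℕ} {e : Fin (r + 1) → Ω} {δ δ' : ℝ} {x : Ω}
    (h : QGen q F e δ x) (hδ : δ ≤ δ') : QGen q F e δ' x := by
  obtain ⟨y, hy, h1, h2⟩ := h
  exact ⟨y, hy, h1, h2.trans (mul_le_mul_of_nonneg_right hδ (norm_nonneg _))⟩

private theorem gre_sum {q : ℕ} {r : ℕ} (e : Fin (r + 1) → Ω) (w : Ω) (y : Fin (r + 1) → Ω)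
    (t : Ω) : ∑ j : Fin (r + 1 + 1), (Fin.snoc y t : Fin (r + 1 + 1) → Ω) j ^ q *
      (Fin.snoc e w : Fin (r + 1 + 1) → Ω) j = ∑ j, y j ^ q * e j + t ^ q * w := by
  rw [Fin.sum_univ_castSucc]
  simp only [Fin.snoc_castSucc, Fin.snoc_last]

private theorem gre_step [IsUltrametricDist Ω] {q : ℕ} (hq : 0 < q) {F : Subfield Ω} {ζ : Ω}
    (hζ : ζ ∈ F) (hζ1 : ζ ^ q = -1) {r : ℕ} {e : Fin (r + 1) → Ω}
    (he : ∀ i, e i ∈ F) (ho : QOrth q F e) {w : Ω} (hw : w ∈ F) :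
    ∃ (r' : ℕ) (e' : Fin (r' + 1) → Ω), e' 0 = e 0 ∧ (∀ i, e' i ∈ F) ∧ QOrth q F e' ∧
      (∃ δ : ℝ, 0 ≤ δ ∧ δ < 1 ∧ QGen q F e' δ w) ∧
      ∀ (x : Ω) (δ : ℝ), QGen q F e δ x → QGen q F e' δ x := by
  by_cases hap : ∃ y : Fin (r + 1) → Ω, (∀ i, y i ∈ F) ∧ ‖w - ∑ i, y i ^ q * e i‖ < ‖w‖
  · obtain ⟨y, hy, hlt⟩ := hap
    have hw0 : 0 < ‖w‖ := lt_of_le_of_lt (norm_nonneg _) hlt
    refine ⟨r, e, rfl, he, ho, ⟨‖w - ∑ i, y i ^ q * e i‖ / ‖w‖, by positivity,
      (div_lt_one hw0).2 hlt, y, hy, ?_, ?_⟩, fun x δ h => h⟩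
    · intro i
      refine (ho y hy i).trans ?_
      have h1 : ∑ j, y j ^ q * e j = w - (w - ∑ i, y i ^ q * e i) := by ring
      rw [h1, sub_eq_add_neg]
      refine (IsUltrametricDist.norm_add_le_max _ _).trans (max_le le_rfl ?_)
      rw [norm_neg]
      exact hlt.le
    · rw [div_mul_cancel₀ _ hw0.ne']
  · push Not at hap
    have h0q : (0 : Ω) ^ q = 0 := zero_pow hq.ne'
    have h0 : (Fin.snoc e w : Fin (r + 1 + 1) → Ω) 0 = e 0 := by
      have h1 : (0 : Fin (r + 1 + 1)) = Fin.castSucc (0 : Fin (r + 1)) := rfl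
      rw [h1]
      exact Fin.snoc_castSucc (α := fun _ => Ω) w e 0
    refine ⟨r + 1, Fin.snoc e w, h0, ?_, ?_, ⟨0, le_rfl, zero_lt_one, Fin.snoc 0 1, ?_, ?_, ?_⟩, ?_⟩
    · intro i
      refine Fin.lastCases ?_ (fun j => ?_) i
      · rw [Fin.snoc_last]; exact hw
      · rw [Fin.snoc_castSucc]; exact he j
    · intro y hy
      have hyF : ∀ i : Fin (r + 1), y (Fin.castSucc i) ∈ F := fun i => hy _
      set t := y (Fin.last (r + 1)) with ht
      set S := ∑ j : Fin (r + 1), y (Fin.castSucc j) ^ q * e j with hS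
      have hsum : ∑ j, y j ^ q * (Fin.snoc e w : Fin (r + 1 + 1) → Ω) j = S + t ^ q * w := by
        rw [Fin.sum_univ_castSucc]
        simp only [Fin.snoc_castSucc, Fin.snoc_last]
        rfl
      have key : ‖t ^ q * w‖ ≤ ‖S + t ^ q * w‖ := by
        by_cases ht0 : t = 0
        · rw [ht0, h0q, zero_mul, norm_zero]; exact norm_nonneg _
        · have h1 := hap (fun i => ζ * y (Fin.castSucc i) / t)
            (fun i => F.div_mem (F.mul_mem hζ (hyF i)) (hy _))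
          have h2 : w - ∑ i : Fin (r + 1), (ζ * y (Fin.castSucc i) / t) ^ q * e i =
              (S + t ^ q * w) / t ^ q := by
            have h3 : ∀ i : Fin (r + 1), (ζ * y (Fin.castSucc i) / t) ^ q * e i =
                -((y (Fin.castSucc i) ^ q * e i) / t ^ q) := by
              intro i
              rw [div_pow, mul_pow, hζ1]
              ring
            rw [Finset.sum_congr rfl fun i _ => h3 i, Finset.sum_neg_distrib, ← Finset.sum_div,
              ← hS]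
            field_simp
            ring
          rw [h2, norm_div, le_div_iff₀ (norm_pos_iff.2 (pow_ne_zero q ht0))] at h1
          rw [norm_mul, mul_comm]
          exact h1
      have key2 : ‖S‖ ≤ ‖S + t ^ q * w‖ := by
        have h1 : S = (S + t ^ q * w) + -(t ^ q * w) := by ring
        calc ‖S‖ = ‖(S + t ^ q * w) + -(t ^ q * w)‖ := by rw [← h1]
          _ ≤ max ‖S + t ^ q * w‖ ‖-(t ^ q * w)‖ := IsUltrametricDist.norm_add_le_max _ _
          _ ≤ ‖S + t ^ q * w‖ := max_le le_rfl (by rw [norm_neg]; exact key)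
      intro i
      rw [hsum]
      refine Fin.lastCases ?_ (fun j => ?_) i
      · rw [Fin.snoc_last]; exact key
      · rw [Fin.snoc_castSucc]
        exact (ho (fun j => y (Fin.castSucc j)) hyF j).trans key2
    · intro i
      refine Fin.lastCases ?_ (fun j => ?_) i
      · rw [Fin.snoc_last]; exact F.one_mem
      · rw [Fin.snoc_castSucc]; exact F.zero_mem
    · intro i
      refine Fin.lastCases ?_ (fun j => ?_) i
      · rw [Fin.snoc_last, Fin.snoc_last, one_pow, one_mul]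
      · rw [Fin.snoc_castSucc, Fin.snoc_castSucc, Pi.zero_apply, h0q, zero_mul, norm_zero]
        exact norm_nonneg _
    · rw [gre_sum]
      simp [h0q]
    · rintro x δ ⟨y, hy, h1, h2⟩
      refine ⟨Fin.snoc y 0, ?_, ?_, ?_⟩
      · intro i
        refine Fin.lastCases ?_ (fun j => ?_) i
        · rw [Fin.snoc_last]; exact F.zero_mem
        · rw [Fin.snoc_castSucc]; exact hy j
      · intro i
        refine Fin.lastCases ?_ (fun j => ?_) i
        · rw [Fin.snoc_last, Fin.snoc_last, h0q, zero_mul, norm_zero]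
          exact norm_nonneg _
        · rw [Fin.snoc_castSucc, Fin.snoc_castSucc]; exact h1 j
      · rw [gre_sum, h0q, zero_mul, add_zero]
        exact h2

/-- GRE1 (greedy).  Proof by induction on `N`. `N = 0`: `r = 0`, `e 0 = c`. Step: let `e` (and `δ`) be as
required for the first `N` elements, `w = w N`. If there are `y i ∈ F` with
`‖w - ∑ y i ^ q * e i‖ < ‖w‖`, keep `e` (the sum has norm `≤ ‖w‖`, so by `QOrth` all
`‖y i ^ q * e i‖ ≤ ‖w‖`) and replace `δ` by the maximum of `δ` and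
`‖w - ∑ y i ^ q * e i‖ / ‖w‖`. Otherwise (and `w ≠ 0`, the case `w = 0` being trivial) append `w`:
orthogonality of the new family: let `Σ = ∑ y i ^ q * e i`, `y ∈ F`; if `y ≠ 0`, then
`‖Σ + y ^ q * w‖ = ‖y‖ ^ q * ‖w - ∑ (ζ * y i / y) ^ q * e i‖ ≥ ‖y ^ q * w‖`, hence
`‖Σ + y ^ q * w‖ = max ‖Σ‖ ‖y ^ q * w‖` (ultrametric). -/
theorem exists_qorth [IsUltrametricDist Ω] {q : ℕ} (hq : 0 < q) {F : Subfield Ω} {ζ : Ω}
    (hζ : ζ ∈ F) (hζ1 : ζ ^ q = -1) {c : Ω} (hc : c ∈ F) (hc0 : c ≠ 0) {N : ℕ} (w : Fin N → Ω)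
    (hw : ∀ j, w j ∈ F) :
    ∃ (r : ℕ) (e : Fin (r + 1) → Ω), e 0 = c ∧ (∀ i, e i ∈ F) ∧ QOrth q F e ∧
      ∃ δ : ℝ, 0 ≤ δ ∧ δ < 1 ∧ ∀ j, QGen q F e δ (w j) := by
  induction N with
  | zero =>
    refine ⟨0, fun _ => c, rfl, fun _ => hc, ?_, 0, le_rfl, zero_lt_one, fun j => j.elim0⟩
    intro y hy i
    have hi : i = 0 := Fin.ext (Nat.lt_one_iff.1 i.2)
    subst hi
    simp
  | succ N ih =>
    obtain ⟨r, e, h0, he, ho, δ, hδ0, hδ1, hgen⟩ := ih (fun j => w (Fin.castSucc j))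
      (fun j => hw _)
    obtain ⟨r', e', h0', he', ho', ⟨δ', hδ0', hδ1', hgen'⟩, hext⟩ :=
      gre_step hq hζ hζ1 he ho (hw (Fin.last N))
    refine ⟨r', e', h0'.trans h0, he', ho', max δ δ', le_max_of_le_left hδ0,
      max_lt hδ1 hδ1', fun j => ?_⟩
    refine Fin.lastCases ?_ (fun j => ?_) j
    · exact gre_mono hgen' (le_max_right _ _)
    · exact gre_mono (hext _ _ (hgen j)) (le_max_left _ _)

end MP1a953e
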