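import Pool.Agent.Lib.MP_1a953e_ag.WB1

/-!
# Module WB2: common denominators
-/

namespace MP1a953e

open MvPolynomial

variable {Ω : Type*} [NormedField Ω]

/-- WB2.  Common denominators: take `P i`, `g i` from `TF.approx` and multiply: `g = ∏ g j`,
`P i * ∏_{j ≠ i} g j` (`WB.mul`, `WB.prod_one`). -/
theorem TF.common [IsUltrametricDist Ω] {k F : Subfield Ω} {n : ℕ} {s : Fin n → Ω}
    (h : TF k F s) {ι : Type*} [Fintype ι] (x : ι → Ω) (hx : ∀ i, x i ∈ F) {δ : ℝ}
    (hδ : 0 < δ) :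
    ∃ (g : MvPolynomial (Fin n) Ω) (P : ι → MvPolynomial (Fin n) Ω), MC k g ∧ WB s g 1 ∧
      ‖eval s g‖ = 1 ∧ ∀ i, MC k (P i) ∧ WB s (P i) ‖x i‖ ∧
        ‖x i - eval s (P i) / eval s g‖ ≤ δ * ‖x i‖ := by
  classical
  choose P g h1 h2 h3 h4 h5 h6 using fun i => h.approx (x i) (hx i) δ hδ
  refine ⟨∏ j, g j, fun i => P i * ∏ j ∈ Finset.univ.erase i, g j,
    MC.prod _ fun j _ => h2 j, WB.prod_one _ fun j _ => h4 j, ?_, fun i => ⟨?_, ?_, ?_⟩⟩
  · rw [map_prod, norm_prod]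
    exact Finset.prod_eq_one fun j _ => h5 j
  · exact MC.mul (h1 i) (MC.prod _ fun j _ => h2 j)
  · have := WB.mul (norm_nonneg _) (h3 i) (WB.prod_one (Finset.univ.erase i) fun j _ => h4 j)
    rwa [mul_one] at this
  · have hne : ∀ j, eval s (g j) ≠ 0 := by
      intro j hj
      have := h5 j
      rw [hj, norm_zero] at this
      exact zero_ne_one this
    have hprod : ∏ j ∈ Finset.univ.erase i, eval s (g j) ≠ 0 :=
      Finset.prod_ne_zero_iff.2 fun j _ => hne j
    have h7 : eval s (P i * ∏ j ∈ Finset.univ.erase i, g j) / eval s (∏ j, g j) =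
        eval s (P i) / eval s (g i) := by
      rw [map_mul, map_prod, map_prod,
        ← Finset.mul_prod_erase Finset.univ (fun j => eval s (g j)) (Finset.mem_univ i)]
      exact mul_div_mul_right _ _ hprod
    show ‖x i - eval s (P i * ∏ j ∈ Finset.univ.erase i, g j) / eval s (∏ j, g j)‖ ≤ _
    rw [h7]
    exact h6 i

end MP1a953e
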