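import Pool.Agent.Lib.MP_1a953e_ag.Gre1
import Pool.Agent.Lib.MP_1a953e_ag.WB2

/-!
# Module Gre2: generation over q-th powers
-/

namespace MP1a953e

open MvPolynomial

variable {Ω : Type*} [NormedField Ω]

private lemma gre_sum_le [IsUltrametricDist Ω] {ι : Type*} (S : Finset ι) (x : ι → Ω) {M : ℝ}
    (hM : 0 ≤ M) (hx : ∀ i ∈ S, ‖x i‖ ≤ M) : ‖∑ i ∈ S, x i‖ ≤ M := by
  classical
  induction S using Finset.induction_on with
  | empty => simpa using hM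
  | insert a S ha ih =>
    rw [Finset.sum_insert ha]
    refine (IsUltrametricDist.norm_add_le_max _ _).trans (max_le ?_ ?_)
    · exact hx a (Finset.mem_insert_self _ _)
    · exact ih fun i hi => hx i (Finset.mem_insert_of_mem hi)

private lemma gre_two [IsUltrametricDist Ω] {p : ℕ} [Fact p.Prime]
    {x y : Ω} {M : ℝ} (hx : ‖x‖ ≤ M) (hy : ‖y‖ ≤ M) (H : ℕ) :
    ‖(x + y) ^ p ^ H - x ^ p ^ H - y ^ p ^ H‖ ≤ ‖(p : Ω)‖ * M ^ p ^ H := by
  have hp := (Fact.out : p.Prime)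
  have hM : 0 ≤ M := (norm_nonneg x).trans hx
  obtain ⟨q, hq⟩ : ∃ q, q = p ^ H := ⟨_, rfl⟩
  have hq1 : 1 ≤ q := by rw [hq]; exact Nat.one_le_pow _ _ hp.pos
  rw [← hq]
  obtain ⟨m, hm⟩ : ∃ m, q = m + 1 := ⟨q - 1, by omega⟩
  have e : (x + y) ^ q - x ^ q - y ^ q =
      ∑ j ∈ (Finset.range m), x ^ (j + 1) * y ^ (q - (j + 1)) * (q.choose (j + 1) : Ω) := by
    rw [add_pow, Finset.sum_range_succ, hm, Finset.sum_range_succ']
    simp only [pow_zero, one_mul, Nat.choose_zero_right, Nat.cast_one, mul_one, Nat.choose_self,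
      Nat.sub_self, Nat.sub_zero]
    ring
  rw [e]
  refine gre_sum_le _ _ (by positivity) fun j hj => ?_
  rw [Finset.mem_range] at hj
  obtain ⟨c, hc⟩ : p ∣ q.choose (j + 1) := by
    rw [hq]
    exact hp.dvd_choose_pow (by omega) (by omega)
  rw [hc, Nat.cast_mul, norm_mul, norm_mul, norm_mul, norm_pow, norm_pow]
  have h1 : ‖(c : Ω)‖ ≤ 1 := IsUltrametricDist.norm_natCast_le_one Ω c
  have h2 : ‖x‖ ^ (j + 1) * ‖y‖ ^ (q - (j + 1)) ≤ M ^ q := by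
    calc ‖x‖ ^ (j + 1) * ‖y‖ ^ (q - (j + 1)) ≤ M ^ (j + 1) * M ^ (q - (j + 1)) := by gcongr
      _ = M ^ q := by rw [← pow_add]; congr 1; omega
  calc ‖x‖ ^ (j + 1) * ‖y‖ ^ (q - (j + 1)) * (‖(p : Ω)‖ * ‖(c : Ω)‖)
      ≤ M ^ q * (‖(p : Ω)‖ * 1) := by gcongr
    _ = _ := by ring

/-- GRE2a.  `(∑ x i) ^ (p ^ H)` and `∑ x i ^ (p ^ H)` differ by at most `‖p‖ * M ^ (p ^ H)`, if all
`‖x i‖ ≤ M` (`(∑ x i) ^ p ^ H - ∑ x i ^ p ^ H` is `p` times an integral polynomial in the `x i`, homogeneous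
of degree `p ^ H`; or induction: `Commute.add_pow`, binomial coefficients divisible by `p`). -/
theorem norm_sum_pow_sub [IsUltrametricDist Ω] {p : ℕ} [Fact p.Prime] (hp : ‖(p : Ω)‖ ≤ 1)
    {ι : Type*} (S : Finset ι) (x : ι → Ω) {M : ℝ} (hM : 0 ≤ M) (hx : ∀ i ∈ S, ‖x i‖ ≤ M)
    (H : ℕ) :
    ‖(∑ i ∈ S, x i) ^ p ^ H - ∑ i ∈ S, x i ^ p ^ H‖ ≤ ‖(p : Ω)‖ * M ^ p ^ H := by
  classical
  have hp0 := (Fact.out : p.Prime).pos
  induction S using Finset.induction_on with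
  | empty =>
    rw [Finset.sum_empty, Finset.sum_empty, zero_pow (pow_pos hp0 H).ne', sub_zero, norm_zero]
    positivity
  | insert a S ha ih =>
    rw [Finset.sum_insert ha, Finset.sum_insert ha]
    have h1 := ih fun i hi => hx i (Finset.mem_insert_of_mem hi)
    have h2 := gre_two (p := p) (hx a (Finset.mem_insert_self _ _))
      (gre_sum_le S x hM fun i hi => hx i (Finset.mem_insert_of_mem hi)) H
    have e : (x a + ∑ i ∈ S, x i) ^ p ^ H - (x a ^ p ^ H + ∑ i ∈ S, x i ^ p ^ H) =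
        ((x a + ∑ i ∈ S, x i) ^ p ^ H - x a ^ p ^ H - (∑ i ∈ S, x i) ^ p ^ H) +
          ((∑ i ∈ S, x i) ^ p ^ H - ∑ i ∈ S, x i ^ p ^ H) := by ring
    rw [e]
    exact (IsUltrametricDist.norm_add_le_max _ _).trans (max_le h2 h1)

/-- GRE2b.  Difference version. -/
theorem norm_sub_pow_sub [IsUltrametricDist Ω] {p : ℕ} [Fact p.Prime] (hp : ‖(p : Ω)‖ ≤ 1)
    {x y : Ω} {M : ℝ} (hx : ‖x‖ ≤ M) (hy : ‖y‖ ≤ M) (H : ℕ) :
    ‖(x - y) ^ p ^ H - (x ^ p ^ H - y ^ p ^ H)‖ ≤ ‖(p : Ω)‖ * M ^ p ^ H := by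
  have hM : 0 ≤ M := (norm_nonneg x).trans hx
  have h1 := gre_two (p := p) hx (y := -y) (by rwa [norm_neg]) H
  have h2 : ‖(-y) ^ p ^ H + y ^ p ^ H‖ ≤ ‖(p : Ω)‖ * M ^ p ^ H := by
    rcases (Fact.out : p.Prime).eq_two_or_odd' with h2 | hodd
    · rcases Nat.eq_zero_or_pos H with rfl | hH
      · simp only [pow_zero, pow_one, neg_add_cancel, norm_zero]
        positivity
      · have hev : Even (p ^ H) := by
          rw [h2]
          exact (Nat.even_pow' hH.ne').2 even_two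
        rw [hev.neg_pow, ← two_mul, norm_mul, norm_pow]
        have h3 : ((p : ℕ) : Ω) = 2 := by rw [h2]; norm_num
        rw [h3]
        gcongr
    · rw [(hodd.pow).neg_pow, neg_add_cancel, norm_zero]
      positivity
  have e : (x - y) ^ p ^ H - (x ^ p ^ H - y ^ p ^ H) =
      ((x + -y) ^ p ^ H - x ^ p ^ H - (-y) ^ p ^ H) + ((-y) ^ p ^ H + y ^ p ^ H) := by ring
  rw [e]
  exact (IsUltrametricDist.norm_add_le_max _ _).trans (max_le h1 h2)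

private lemma gre_mono {n q : ℕ} (s : Fin n → Ω) (b : Fin n →₀ ℕ) :
    ∏ i, s i ^ b i = (∏ i, s i ^ (b i / q)) ^ q * ∏ i, s i ^ (b i % q) := by
  rw [← Finset.prod_pow, ← Finset.prod_mul_distrib]
  refine Finset.prod_congr rfl fun i _ => ?_
  rw [← pow_mul, ← pow_add, Nat.div_add_mod' (b i) q]

/-- the combination step: an element close to `∑ Y b ^ q * u (c b)` is generated -/
private lemma gre_comb [IsUltrametricDist Ω] {p : ℕ} [Fact p.Prime] (hp : ‖(p : Ω)‖ < 1)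
    {F : Subfield Ω} {H : ℕ} {r : ℕ} {e : Fin (r + 1) → Ω} {δ : ℝ} (hδ : ‖(p : Ω)‖ ≤ δ)
    {J B : Type*} (S : Finset B) (Y : B → Ω) (hY : ∀ b, Y b ∈ F) (c : B → J) (u : J → Ω)
    (y : J → Fin (r + 1) → Ω) (hy : ∀ j i, y j i ∈ F)
    (hy1 : ∀ j i, ‖y j i ^ p ^ H * e i‖ ≤ ‖u j‖)
    (hy2 : ∀ j, ‖u j - ∑ i, y j i ^ p ^ H * e i‖ ≤ δ * ‖u j‖) {x : Ω}
    (hb : ∀ b ∈ S, ‖Y b ^ p ^ H * u (c b)‖ ≤ ‖x‖)
    (hx : ‖x - ∑ b ∈ S, Y b ^ p ^ H * u (c b)‖ ≤ δ * ‖x‖) : QGen (p ^ H) F e δ x := by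
  have hδ0 : 0 ≤ δ := (norm_nonneg _).trans hδ
  have hq0 : 0 < p ^ H := pow_pos (Fact.out : p.Prime).pos H
  refine ⟨fun i => ∑ b ∈ S, Y b * y (c b) i, fun i => sum_mem fun b _ => mul_mem (hY b) (hy _ _),
    fun i => ?_, ?_⟩
  · -- the bound of each term
    obtain ⟨M, hM0, hM1, hM2⟩ : ∃ M : ℝ, 0 ≤ M ∧ (∀ b ∈ S, ‖Y b * y (c b) i‖ ≤ M) ∧
        M ^ p ^ H * ‖e i‖ ≤ ‖x‖ := by
      rcases S.eq_empty_or_nonempty with rfl | hne
      · refine ⟨0, le_rfl, fun b hb => absurd hb (Finset.notMem_empty b), ?_⟩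
        rw [zero_pow hq0.ne', zero_mul]
        exact norm_nonneg x
      · obtain ⟨b, hbS, hbm⟩ := S.exists_max_image (fun b => ‖Y b * y (c b) i‖) hne
        refine ⟨‖Y b * y (c b) i‖, norm_nonneg _, hbm, ?_⟩
        rw [← norm_pow, ← norm_mul]
        calc ‖(Y b * y (c b) i) ^ p ^ H * e i‖ = ‖Y b ^ p ^ H‖ * ‖y (c b) i ^ p ^ H * e i‖ := by
              rw [← norm_mul]; congr 1; ring
          _ ≤ ‖Y b ^ p ^ H‖ * ‖u (c b)‖ := by
              gcongr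
              exact hy1 _ _
          _ = ‖Y b ^ p ^ H * u (c b)‖ := (norm_mul _ _).symm
          _ ≤ ‖x‖ := hb b hbS
    have h1 : ‖∑ b ∈ S, Y b * y (c b) i‖ ≤ M := gre_sum_le S _ hM0 hM1
    simp only
    rw [norm_mul, norm_pow]
    exact (mul_le_mul_of_nonneg_right (pow_le_pow_left₀ (norm_nonneg _) h1 _)
      (norm_nonneg _)).trans hM2
  · have hfr : ∀ i, ‖(∑ b ∈ S, (Y b * y (c b) i) ^ p ^ H - (∑ b ∈ S, Y b * y (c b) i) ^ p ^ H) *
        e i‖ ≤ δ * ‖x‖ := by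
      intro i
      obtain ⟨M, hM0, hM1, hM2⟩ : ∃ M : ℝ, 0 ≤ M ∧ (∀ b ∈ S, ‖Y b * y (c b) i‖ ≤ M) ∧
          M ^ p ^ H * ‖e i‖ ≤ ‖x‖ := by
        rcases S.eq_empty_or_nonempty with rfl | hne
        · refine ⟨0, le_rfl, fun b hb => absurd hb (Finset.notMem_empty b), ?_⟩
          rw [zero_pow hq0.ne', zero_mul]
          exact norm_nonneg x
        · obtain ⟨b, hbS, hbm⟩ := S.exists_max_image (fun b => ‖Y b * y (c b) i‖) hne
          refine ⟨‖Y b * y (c b) i‖, norm_nonneg _, hbm, ?_⟩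
          rw [← norm_pow, ← norm_mul]
          calc ‖(Y b * y (c b) i) ^ p ^ H * e i‖ = ‖Y b ^ p ^ H‖ * ‖y (c b) i ^ p ^ H * e i‖ := by
                rw [← norm_mul]; congr 1; ring
            _ ≤ ‖Y b ^ p ^ H‖ * ‖u (c b)‖ := by
                gcongr
                exact hy1 _ _
            _ = ‖Y b ^ p ^ H * u (c b)‖ := (norm_mul _ _).symm
            _ ≤ ‖x‖ := hb b hbS
      have h1 := norm_sum_pow_sub hp.le S (fun b => Y b * y (c b) i) hM0 hM1 H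
      rw [norm_mul, norm_sub_rev]
      calc _ ≤ (‖(p : Ω)‖ * M ^ p ^ H) * ‖e i‖ := mul_le_mul_of_nonneg_right h1 (norm_nonneg _)
        _ = ‖(p : Ω)‖ * (M ^ p ^ H * ‖e i‖) := by ring
        _ ≤ δ * ‖x‖ := mul_le_mul hδ hM2 (by positivity) hδ0
    have hes : ∀ b ∈ S, ‖Y b ^ p ^ H * (u (c b) - ∑ i, y (c b) i ^ p ^ H * e i)‖ ≤ δ * ‖x‖ := by
      intro b hbS
      rw [norm_mul]
      calc ‖Y b ^ p ^ H‖ * ‖u (c b) - ∑ i, y (c b) i ^ p ^ H * e i‖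
          ≤ ‖Y b ^ p ^ H‖ * (δ * ‖u (c b)‖) := by
            gcongr
            exact hy2 _
        _ = δ * ‖Y b ^ p ^ H * u (c b)‖ := by rw [norm_mul]; ring
        _ ≤ δ * ‖x‖ := by
            gcongr
            exact hb b hbS
    have hswap : ∑ b ∈ S, Y b ^ p ^ H * ∑ i, y (c b) i ^ p ^ H * e i =
        ∑ i, (∑ b ∈ S, (Y b * y (c b) i) ^ p ^ H) * e i := by
      simp only [Finset.mul_sum, Finset.sum_mul]
      rw [Finset.sum_comm]
      refine Finset.sum_congr rfl fun i _ => Finset.sum_congr rfl fun b _ => ?_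
      ring
    have hdec : x - ∑ i, (∑ b ∈ S, Y b * y (c b) i) ^ p ^ H * e i =
        (x - ∑ b ∈ S, Y b ^ p ^ H * u (c b)) +
          (∑ b ∈ S, Y b ^ p ^ H * (u (c b) - ∑ i, y (c b) i ^ p ^ H * e i) +
            ∑ i, (∑ b ∈ S, (Y b * y (c b) i) ^ p ^ H -
              (∑ b ∈ S, Y b * y (c b) i) ^ p ^ H) * e i) := by
      simp only [mul_sub, sub_mul, Finset.sum_sub_distrib]
      rw [hswap]
      ring
    rw [hdec]
    have hnn : 0 ≤ δ * ‖x‖ := by positivity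
    refine (IsUltrametricDist.norm_add_le_max _ _).trans (max_le hx ?_)
    refine (IsUltrametricDist.norm_add_le_max _ _).trans (max_le ?_ ?_)
    · exact gre_sum_le S _ hnn hes
    · exact gre_sum_le _ _ hnn fun i _ => hfr i

/-- GRE2c (finite generation over `q`-th powers, `q = p ^ H`).  Proof.  Let `w` be the finite family of
all `s ^ b`, `b ∈ [0, q)^n`, and `e`, `δ₁` from `exists_qorth` (`ζ ∈ k` with `ζ ^ q = -1`). Let
`δ = max δ₁ ‖p‖` (or `1/2` if this is `0`). Let `x ∈ F`. By `TF.approx` (with `δ`) `x` is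
`P(s)/g(s) = (P * g ^ (q-1))(s) / g(s) ^ q` up to `δ * ‖x‖`; `P * g ^ (q-1) = ∑ b, β b * X ^ b` with
`‖β b * s ^ b‖ ≤ ‖x‖`, `β b = β' b ^ q`, `b = q b' + b''`: `x ≈ ∑ b, Y b ^ q * s ^ b''`,
`Y b = β' b * s ^ b' / g(s)`; each `s ^ b'' ≈ ∑ i, y_{b'',i} ^ q * e i` up to `δ₁ * ‖s ^ b''‖`; so
`x ≈ ∑ i, (∑ b, (Y b * y_{b'',i}) ^ q) * e i ≈ ∑ i, (∑ b, Y b * y_{b'',i}) ^ q * e i` by GRE2a
(applied to the family `Y b * y_{b'',i}`, `i` fixed: `‖(Y b * y_{b'',i}) ^ q * e i‖ ≤ ‖x‖`). -/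
theorem exists_frob [IsUltrametricDist Ω] {p : ℕ} [Fact p.Prime] (hp : ‖(p : Ω)‖ < 1)
    {k F : Subfield Ω} {n : ℕ} {s : Fin n → Ω} (hF : TF k F s) (H : ℕ) {c : Ω} (hc : c ∈ F)
    (hc0 : c ≠ 0) :
    ∃ δ : ℝ, 0 < δ ∧ δ < 1 ∧ ‖(p : Ω)‖ ≤ δ ∧ ∃ (r : ℕ) (e : Fin (r + 1) → Ω), e 0 = c ∧
      (∀ i, e i ∈ F) ∧ QOrth (p ^ H) F e ∧ ∀ x ∈ F, QGen (p ^ H) F e δ x := by
  have hq0 : 0 < p ^ H := pow_pos (Fact.out : p.Prime).pos H
  have hcl := hF.closed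
  -- roots in the field of constants
  have hroot : ∀ a ∈ k, ∃ b ∈ k, b ^ p ^ H = a := by
    intro a ha
    obtain ⟨z, hz⟩ := IsAlgClosed.exists_pow_nat_eq (⟨a, ha⟩ : k) hq0
    refine ⟨z, z.2, ?_⟩
    have := congrArg (fun t : k => (t : Ω)) hz
    simpa using this
  obtain ⟨ζ, hζk, hζ⟩ := hroot (-1) (neg_mem (one_mem k))
  obtain ⟨ε⟩ : Nonempty ((Fin n → Fin (p ^ H)) ≃ Fin (Fintype.card (Fin n → Fin (p ^ H)))) :=
    ⟨Fintype.equivFin _⟩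
  obtain ⟨r, e, he0, heF, heO, δ₁, hδ₁0, hδ₁1, hgen⟩ := exists_qorth hq0 (hF.le hζk) hζ hc hc0
    (fun j => ∏ i, s i ^ ((ε.symm j) i : ℕ))
    (fun j => prod_mem fun i _ => pow_mem (hF.mem i) _)
  obtain ⟨δ, hδ⟩ : ∃ δ : ℝ, δ = max (max δ₁ ‖(p : Ω)‖) (1 / 2) := ⟨_, rfl⟩
  have hδhalf : 1 / 2 ≤ δ := by rw [hδ]; exact le_max_right _ _
  have hδ0 : 0 < δ := by linarith
  have hδlt : δ < 1 := by
    rw [hδ]
    exact max_lt (max_lt hδ₁1 hp) (by norm_num)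
  have hδp : ‖(p : Ω)‖ ≤ δ := by
    rw [hδ]
    exact (le_max_right _ _).trans (le_max_left _ _)
  have hδδ₁ : δ₁ ≤ δ := by
    rw [hδ]
    exact (le_max_left _ _).trans (le_max_left _ _)
  refine ⟨δ, hδ0, hδlt, hδp, r, e, he0, heF, heO, fun x hx => ?_⟩
  choose y hy using hgen
  obtain ⟨P, g, hP, hg, hPW, hgW, hg1, happ⟩ := hF.approx x hx δ hδ0
  obtain ⟨T, hT⟩ : ∃ T : MvPolynomial (Fin n) Ω, T = P * g ^ (p ^ H - 1) := ⟨_, rfl⟩
  have hTk : MC k T := by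
    rw [hT]
    exact hP.mul (hg.pow _)
  have hTW : WB s T ‖x‖ := by
    rw [hT]
    have := WB.mul (norm_nonneg x) hPW (hgW.pow_one (p ^ H - 1))
    rwa [mul_one] at this
  have hg0 : eval s g ≠ 0 := by
    intro h
    rw [h, norm_zero] at hg1
    exact zero_ne_one hg1
  have hTe : eval s P / eval s g = eval s T / eval s g ^ p ^ H := by
    rw [hT, map_mul, map_pow, div_eq_div_iff hg0 (pow_ne_zero _ hg0)]
    have : eval s g ^ p ^ H = eval s g ^ (p ^ H - 1) * eval s g := by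
      rw [← pow_succ]
      congr 1
      omega
    rw [this]
    ring
  have hgF : eval s g ∈ F := MC.eval_mem hF.le hF.mem hg
  have hβ : ∀ b : Fin n →₀ ℕ, ∃ β ∈ k, β ^ p ^ H = T.coeff b := fun b => hroot _ (hTk b)
  choose β hβk hβ using hβ
  have hterm : ∀ b : Fin n →₀ ℕ, (β b * (∏ i, s i ^ (b i / p ^ H)) / eval s g) ^ p ^ H *
      ∏ i, s i ^ (b i % p ^ H) = T.coeff b * (∏ i, s i ^ b i) / eval s g ^ p ^ H := by
    intro b
    rw [gre_mono (q := p ^ H) s b, div_pow, mul_pow, hβ b]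
    ring
  have hmain := gre_comb (H := H) (F := F) (e := e) hp hδp T.support
    (fun b => β b * (∏ i, s i ^ (b i / p ^ H)) / eval s g)
    (fun b => div_mem (mul_mem (hF.le (hβk b)) (prod_mem fun i _ => pow_mem (hF.mem i) _)) hgF)
    (fun b i => (⟨b i % p ^ H, Nat.mod_lt _ hq0⟩ : Fin (p ^ H)))
    (fun d : Fin n → Fin (p ^ H) => ∏ i, s i ^ (d i : ℕ))
    (fun d => y (ε d)) (fun d i => (hy (ε d)).1 i)
    (fun d i => by
      have := (hy (ε d)).2.1 i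
      rwa [Equiv.symm_apply_apply] at this)
    (fun d => by
      have := (hy (ε d)).2.2
      rw [Equiv.symm_apply_apply] at this
      exact this.trans (mul_le_mul_of_nonneg_right hδδ₁ (norm_nonneg _)))
    (x := x)
    (fun b _ => by
      simp only
      rw [hterm b, norm_div, norm_pow, hg1, one_pow, div_one, norm_mul, norm_prod]
      simp only [norm_pow]
      exact hTW b)
    (by
      simp only [hterm]
      rw [← Finset.sum_div, ← eval_eq', ← hTe]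
      exact happ)
  exact hmain

end MP1a953e
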