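import Pool.Agent.Lib.MP_1a953e_ag.Sta11
import Pool.Agent.Lib.MP_1a953e_ag.Calc4

/-!
# Module Kr1: algebraic generators over the algebraic closure
-/

namespace MP1a953e

open Polynomial

variable {Ω : Type*} [NormedField Ω]

private theorem kr1_mono {A B : Subfield Ω} (h : A ≤ B) {x : Ω} (hx : IsAlgebraic A x) :
    IsAlgebraic B x := by
  obtain ⟨P, hP0, hP⟩ := hx
  refine ⟨P.map (Subfield.inclusion h), ?_, ?_⟩
  · exact (Polynomial.map_ne_zero_iff (Subfield.inclusion h).injective).2 hP0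
  · rw [aeval_def, eval₂_map]
    exact hP

private theorem kr1_finite {K C : Subfield Ω} {x : Ω} (hx : x ∈ K ⊔ C) :
    ∃ X : Finset Ω, (∀ y ∈ X, y ∈ C) ∧ x ∈ K ⊔ Subfield.closure (X : Set Ω) := by
  classical
  have h0 : K ⊔ C = Subfield.closure ((K : Set Ω) ∪ (C : Set Ω)) := by
    rw [Subfield.closure_union, Subfield.closure_eq, Subfield.closure_eq]
  rw [h0] at hx
  have hmono : ∀ (X Y : Finset Ω), X ⊆ Y → K ⊔ Subfield.closure (X : Set Ω) ≤
      K ⊔ Subfield.closure (Y : Set Ω) := fun X Y hXY =>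
    sup_le_sup_left (Subfield.closure_mono (by exact_mod_cast hXY)) K
  induction hx using Subfield.closure_induction with
  | mem x hx =>
    rcases hx with hx | hx
    · exact ⟨∅, by simp, (le_sup_left : K ≤ _) hx⟩
    · refine ⟨{x}, ?_, ?_⟩
      · intro y hy
        rw [Finset.mem_singleton] at hy
        rw [hy]; exact hx
      · refine (le_sup_right : _ ≤ K ⊔ _) (Subfield.subset_closure ?_)
        simp
  | one => exact ⟨∅, by simp, Subfield.one_mem _⟩
  | add x y _ _ ihx ihy =>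
    obtain ⟨X, hX, hx⟩ := ihx
    obtain ⟨Y, hY, hy⟩ := ihy
    refine ⟨X ∪ Y, ?_, Subfield.add_mem _ (hmono _ _ Finset.subset_union_left hx)
      (hmono _ _ Finset.subset_union_right hy)⟩
    intro z hz
    rcases Finset.mem_union.1 hz with h | h
    · exact hX z h
    · exact hY z h
  | neg x _ ihx =>
    obtain ⟨X, hX, hx⟩ := ihx
    exact ⟨X, hX, Subfield.neg_mem _ hx⟩
  | inv x _ ihx =>
    obtain ⟨X, hX, hx⟩ := ihx
    exact ⟨X, hX, Subfield.inv_mem _ hx⟩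
  | mul x y _ _ ihx ihy =>
    obtain ⟨X, hX, hx⟩ := ihx
    obtain ⟨Y, hY, hy⟩ := ihy
    refine ⟨X ∪ Y, ?_, Subfield.mul_mem _ (hmono _ _ Finset.subset_union_left hx)
      (hmono _ _ Finset.subset_union_right hy)⟩
    intro z hz
    rcases Finset.mem_union.1 hz with h | h
    · exact hX z h
    · exact hY z h

/-- KR1a.  Elements of `K ⊔ C` lie in `K ⊔ F'` for a finite extension `F'` (a finite subset of `C` suffices,
`stable`). `F₁` is a given finite extension, to be contained in `F'`; the statement is used for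
`F₁ = F` too. -/
theorem mem_sup_finite [IsUltrametricDist Ω] [IsAlgClosed Ω] [CharZero Ω] {p : ℕ} [Fact p.Prime]
    (hp : ‖(p : Ω)‖ < 1) {k F K C : Subfield Ω} {n : ℕ} {s : Fin n → Ω} (hF : TF k F s)
    (hv : DenseVal F) (hC : ∀ x, x ∈ C ↔ IsAlgebraic F x) {x : Ω} (hx : x ∈ K ⊔ C) :
    ∃ (F' : Subfield Ω) (d : ℕ) (θ : Fin (d + 1) → Ω), OrthBasis F F' θ ∧ x ∈ K ⊔ F' := by
  obtain ⟨X, hX, hxX⟩ := kr1_finite hx
  obtain ⟨F', d, θ, hθ, hXF⟩ := stable hp hF hv X (fun y hy => (hC y).1 (hX y hy))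
  refine ⟨F', d, θ, hθ, ?_⟩
  refine (sup_le_sup_left (Subfield.closure_le.2 ?_) K) hxX
  intro y hy
  exact hXF y hy

/-- KR1b.  Perturbation of a generator to an element which is algebraic over `F(T)`.  Proof.  Let `F', θ` be
as in KR1a for `x = y`; `y = ∑ c i * θ i`, `c i ∈ K` (`mem_sup_iff`). Choose `c' i ∈ K` algebraic over
`adj F T` with `‖c i - c' i‖ * ‖θ i‖ < infDist y C`, `y' = ∑ c' i * θ i`; `θ i ∈ F'` is algebraic over
`F`. `TT.gc` (over `C`) gives the density of `adj C y'`; for `b ∈ C` we have `‖y' - b‖ = ‖y - b‖`,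
so `TT C y'`. -/
theorem exists_algebraic_gen [IsUltrametricDist Ω] [IsAlgClosed Ω] [CharZero Ω] {p : ℕ}
    [Fact p.Prime] (hp : ‖(p : Ω)‖ < 1) {k F K C : Subfield Ω} {n : ℕ} {s : Fin n → Ω}
    (hF : TF k F s) (hv : DenseVal F) (hI : Imm F K) {T : Ω}
    (hL : ∀ x ∈ K, ∀ ε : ℝ, 0 < ε → ∃ x' ∈ K, IsAlgebraic (adj F T) x' ∧ ‖x - x'‖ < ε)
    (hC : ∀ x, x ∈ C ↔ IsAlgebraic F x) {y : Ω} (hy : y ∈ K ⊔ C) (hyC : TT C y)
    (hyd : DenseIn (adj C y) (K ⊔ C)) :
    ∃ y' ∈ K ⊔ C, IsAlgebraic (adj F T) y' ∧ TT C y' ∧ DenseIn (adj C y') (K ⊔ C) := by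
  obtain ⟨F', d, θ, hθ, hyF⟩ := mem_sup_finite hp hF hv hC hy
  obtain ⟨c, hc, hcy⟩ := (mem_sup_iff hI.1 hθ y).1 hyF
  set r := Metric.infDist y (C : Set Ω) with hr
  have hr0 : 0 < r := hyC.pos
  set M : ℝ := ∑ i, ‖θ i‖ with hM
  have hM0 : 0 ≤ M := Finset.sum_nonneg fun i _ => norm_nonneg _
  have hε : 0 < r / (M + 1) := by positivity
  choose c' hc'K hc'a hc'n using fun i => hL (c i) (hc i) (r / (M + 1)) hε
  have hθC : ∀ i, θ i ∈ C := fun i => (hC _).2 (hθ.isAlgebraic (hθ.mem i))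
  set y' : Ω := ∑ i, c' i * θ i with hy'
  have hy'KC : y' ∈ K ⊔ C := by
    rw [hy']
    refine Subfield.sum_mem _ fun i _ => Subfield.mul_mem _ ?_ ?_
    · exact (le_sup_left : K ≤ K ⊔ C) (hc'K i)
    · exact (le_sup_right : C ≤ K ⊔ C) (hθC i)
  have hclose : ‖y - y'‖ < r := by
    have h1 : y - y' = ∑ i, (c i - c' i) * θ i := by
      rw [hcy, hy', ← Finset.sum_sub_distrib]
      exact Finset.sum_congr rfl fun i _ => (sub_mul _ _ _).symm
    rw [h1]
    calc ‖∑ i, (c i - c' i) * θ i‖ ≤ ∑ i, ‖(c i - c' i) * θ i‖ := norm_sum_le _ _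
      _ ≤ ∑ i, r / (M + 1) * ‖θ i‖ := by
          refine Finset.sum_le_sum fun i _ => ?_
          rw [norm_mul]
          exact mul_le_mul_of_nonneg_right (hc'n i).le (norm_nonneg _)
      _ = r / (M + 1) * M := by rw [← Finset.mul_sum]
      _ < r := by
          rw [div_mul_eq_mul_div, div_lt_iff₀ (by positivity)]
          nlinarith
  have hne : (C : Set Ω).Nonempty := ⟨0, C.zero_mem⟩
  have hnorm : ∀ b : Ω, r ≤ ‖y - b‖ → ‖y' - b‖ = ‖y - b‖ := by
    intro b hb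
    have h1 : ‖y - y'‖ < ‖y - b‖ := hclose.trans_le hb
    have h2 : y' - b = (y - b) + -(y - y') := by ring
    rw [h2, IsUltrametricDist.norm_add_eq_max_of_norm_ne_norm (by rw [norm_neg]; exact h1.ne'),
      norm_neg]
    exact max_eq_left h1.le
  have hrC : ∀ b ∈ C, r ≤ ‖y - b‖ := by
    intro b hb
    have h1 := Metric.infDist_le_dist_of_mem (x := y) (s := (C : Set Ω)) hb
    rw [dist_eq_norm] at h1
    exact h1
  refine ⟨y', hy'KC, ?_, ⟨?_, ?_⟩, hyC.gc hyd hy'KC hclose⟩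
  · refine IsIntegral.isAlgebraic ?_
    rw [hy']
    refine IsIntegral.sum _ fun i _ => ?_
    exact (hc'a i).isIntegral.mul
      (kr1_mono (le_adj F T) (hθ.isAlgebraic (hθ.mem i))).isIntegral
  · refine lt_of_lt_of_le hr0 ?_
    rw [Metric.le_infDist hne]
    intro b hb
    rw [dist_eq_norm, hnorm b (hrC b hb)]
    exact hrC b hb
  · intro b hb
    have h1 : r < ‖y - b‖ := hyC.nb b hb
    rw [hnorm b h1.le]
    refine lt_of_le_of_lt ?_ h1
    rw [hr, Metric.le_infDist hne]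
    intro b' hb'
    rw [dist_eq_norm, ← hnorm b' (hrC b' hb'), ← dist_eq_norm]
    exact Metric.infDist_le_dist_of_mem hb'

end MP1a953e
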