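import Pool.Agent.Lib.MP_1a953e_ag.Kr1

/-!
# Module Kr3: Krasner step
-/

namespace MP1a953e

open Polynomial

variable {Ω : Type*} [NormedField Ω]

private theorem kr3_krasner [IsUltrametricDist Ω] {K : Subfield Ω} (hK : IsComplete (K : Set Ω)) (hnt : ∃ x ∈ K, 1 < ‖x‖)
    {y y' : Ω} (hy : IsSeparable K y) (hy' : IsAlgebraic K y')
    (hs : ((minpoly K y).map (algebraMap K Ω)).Splits)
    (h : ∀ β : Ω, aeval β (minpoly K y) = 0 → β ≠ y → ‖y - y'‖ < ‖y - β‖) : y ∈ adj K y' := by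
  by_contra hcon
  have hcomp : IsComplete (adj K y' : Set Ω) := complete_adj hK hnt hy'
  have hnt' : ∃ x ∈ adj K y', 1 < ‖x‖ := by
    obtain ⟨x, hx, hx1⟩ := hnt
    exact ⟨x, le_adj K y' hx, hx1⟩
  have hKle : K ≤ adj K y' := le_adj K y'
  have hmem : y' ∈ adj K y' := mem_adj_self K y'
  generalize adj K y' = K' at *
  let _ : Algebra K K' := (Subfield.inclusion hKle).toAlgebra
  have : IsScalarTower K K' Ω := IsScalarTower.of_algebraMap_eq' rfl
  have hyint : IsIntegral K y := hy.isIntegral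
  have hyint' : IsIntegral K' y := hyint.tower_top
  have hdvd := minpoly.dvd_map_of_isScalarTower K K' y
  have hdvdΩ : (minpoly K' y).map (algebraMap K' Ω) ∣ (minpoly K y).map (algebraMap K Ω) := by
    have h1 := Polynomial.map_dvd (algebraMap K' Ω) hdvd
    rwa [Polynomial.map_map, ← IsScalarTower.algebraMap_eq] at h1
  have hne : (minpoly K y).map (algebraMap K Ω) ≠ 0 :=
    (Polynomial.map_ne_zero_iff (algebraMap K Ω).injective).2 (minpoly.ne_zero hyint)
  have hspl := hs.of_dvd hne hdvdΩ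
  have hsep : ((minpoly K' y).map (algebraMap K' Ω)).Separable :=
    (Polynomial.Separable.map (f := algebraMap K Ω) hy).of_dvd hdvdΩ
  have hdeg : 2 ≤ (minpoly K' y).natDegree := by
    refine (minpoly.two_le_natDegree_iff hyint').2 ?_
    rintro ⟨z, hz⟩
    refine hcon ?_
    rw [← hz]
    exact z.2
  obtain ⟨β, hβ, hβy⟩ : ∃ β ∈ ((minpoly K' y).map (algebraMap K' Ω)).roots, β ≠ y := by
    by_contra hno
    push Not at hno
    have hcard := hspl.natDegree_eq_card_roots
    have hle : ((minpoly K' y).map (algebraMap K' Ω)).roots ≤ {y} :=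
      (Multiset.le_iff_subset (nodup_roots hsep)).2 fun β hβ => by
        rw [hno β hβ]
        exact Multiset.mem_singleton_self y
    have h2 := Multiset.card_le_card hle
    rw [← hcard, natDegree_map, Multiset.card_singleton] at h2
    omega
  have hroot : (minpoly K' y).aeval β = 0 := by
    have h3 := isRoot_of_mem_roots hβ
    rwa [IsRoot.def, eval_map_algebraMap] at h3
  have hmin : minpoly K' y = minpoly K' β :=
    minpoly.eq_of_irreducible_of_monic (minpoly.irreducible hyint') hroot (minpoly.monic hyint')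
  have hrootK : aeval β (minpoly K y) = 0 := by
    have h3 : eval β ((minpoly K y).map (algebraMap K Ω)) = 0 :=
      eval_eq_zero_of_dvd_of_eval_eq_zero hdvdΩ (by rw [eval_map_algebraMap]; exact hroot)
    rwa [eval_map_algebraMap] at h3
  have hlt := h β hrootK hβy
  have e1 : minpoly K' (y - y') = minpoly K' (β - y') := by
    have a1 := minpoly.sub_algebraMap (A := K') y ⟨y', hmem⟩
    have a2 := minpoly.sub_algebraMap (A := K') β ⟨y', hmem⟩
    rw [hmin] at a1
    exact a1.trans a2.symm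
  have halg : IsAlgebraic K' (y - y') :=
    (hyint'.sub (isIntegral_algebraMap (x := (⟨y', hmem⟩ : K')))).isAlgebraic
  have e2 := norm_eq_of_minpoly_eq hcomp hnt' halg e1
  have e3 : ‖y - β‖ ≤ ‖y - y'‖ := by
    have e4 : y - β = (y - y') + -(β - y') := by ring
    rw [e4]
    refine (IsUltrametricDist.norm_add_le_max _ _).trans ?_
    rw [norm_neg, ← e2, max_self]
  exact absurd hlt (not_lt.2 e3)

private theorem kr3_finset {S : Set Ω} {x : Ω} (hx : x ∈ Subfield.closure S) :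
    ∃ X : Finset Ω, (X : Set Ω) ⊆ S ∧ x ∈ Subfield.closure (X : Set Ω) := by
  classical
  induction hx using Subfield.closure_induction with
  | mem x hx => exact ⟨{x}, by simpa using hx, Subfield.subset_closure (by simp)⟩
  | one => exact ⟨∅, by simp, Subfield.one_mem _⟩
  | add x y _ _ hx hy =>
    obtain ⟨X, hX, hx⟩ := hx
    obtain ⟨Y, hY, hy⟩ := hy
    refine ⟨X ∪ Y, by rw [Finset.coe_union]; exact Set.union_subset hX hY, ?_⟩
    rw [Finset.coe_union]
    exact Subfield.add_mem _ (Subfield.closure_mono Set.subset_union_left hx)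
      (Subfield.closure_mono Set.subset_union_right hy)
  | neg x _ hx =>
    obtain ⟨X, hX, hx⟩ := hx
    exact ⟨X, hX, Subfield.neg_mem _ hx⟩
  | inv x _ hx =>
    obtain ⟨X, hX, hx⟩ := hx
    exact ⟨X, hX, Subfield.inv_mem _ hx⟩
  | mul x y _ _ hx hy =>
    obtain ⟨X, hX, hx⟩ := hx
    obtain ⟨Y, hY, hy⟩ := hy
    refine ⟨X ∪ Y, by rw [Finset.coe_union]; exact Set.union_subset hX hY, ?_⟩
    rw [Finset.coe_union]
    exact Subfield.mul_mem _ (Subfield.closure_mono Set.subset_union_left hx)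
      (Subfield.closure_mono Set.subset_union_right hy)

private theorem kr3_gap {s : Finset Ω} {w : Ω} (h : ∀ β ∈ s, β ≠ w) :
    ∃ ε : ℝ, 0 < ε ∧ ∀ β ∈ s, ε ≤ ‖w - β‖ := by
  classical
  induction s using Finset.induction_on with
  | empty => exact ⟨1, one_pos, by simp⟩
  | insert a s _ ih =>
    obtain ⟨ε, hε, h1⟩ := ih fun β hβ => h β (Finset.mem_insert_of_mem hβ)
    have ha : 0 < ‖w - a‖ := by
      rw [norm_pos_iff, sub_ne_zero]
      exact (h a (Finset.mem_insert_self a s)).symm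
    refine ⟨min ε ‖w - a‖, lt_min hε ha, fun β hβ => ?_⟩
    rcases Finset.mem_insert.1 hβ with rfl | hβ
    · exact min_le_right _ _
    · exact (min_le_left _ _).trans (h1 β hβ)

/-- KR3 (Krasner).  `M₁` complete, `w` algebraic over `M₁`, `w ∈ closure of adj C y`. Then `w ∈ M₁ ⊔ F₂` for
some finite extension `F₂` of `F₁` with an orthogonal basis.  Proof.  Choose `w' ∈ adj C y` with
`‖w - w'‖ < ‖w - v‖` for all conjugates `v ≠ w` of `w` over `M₁`. `w'` is a rational function of `y` with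
coefficients in a finite subset `X` of `C`; the elements of `C` are algebraic over `F ≤ F₁`, so
`stable` (for `F₁`) gives `F₂ ⊇ X`. `w' ∈ adj F₂ y ≤ M₁ ⊔ F₂` is algebraic over `M₁` (`F₂` is algebraic
over `F₁ ≤ M₁`). Krasner's lemma (`IsKrasner.krasner` with `K = M₁`, `L` the algebraic closure of `M₁` in
`Ω` (integral closure as intermediate field), `IsKrasner.of_completeSpace`) gives `w ∈ M₁(w')`. -/
theorem krasner_mem [IsUltrametricDist Ω] [IsAlgClosed Ω] [CharZero Ω] {p : ℕ} [Fact p.Prime]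
    (hp : ‖(p : Ω)‖ < 1) {k F F₁ M₁ C : Subfield Ω} {n : ℕ} {s : Fin n → Ω}
    (hF : TF k F₁ s) (hv : DenseVal F₁) (hFF : F ≤ F₁) (hC : ∀ x, x ∈ C ↔ IsAlgebraic F x)
    (hM : IsComplete (M₁ : Set Ω)) {y w : Ω} (hy : y ∈ M₁) (hFM : F₁ ≤ M₁)
    (hw : IsAlgebraic M₁ w)
    (hwd : ∀ ε : ℝ, 0 < ε → ∃ w' ∈ adj C y, ‖w - w'‖ < ε) :
    ∃ (F₂ : Subfield Ω) (d : ℕ) (θ : Fin (d + 1) → Ω), OrthBasis F₁ F₂ θ ∧ w ∈ M₁ ⊔ F₂ := by
  classical
  have hnt : ∃ x ∈ M₁, 1 < ‖x‖ := by
    obtain ⟨x, hx, h1, -⟩ := hv 1 2 one_pos one_lt_two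
    exact ⟨x, hFM hx, h1⟩
  have hwi : IsIntegral M₁ w := hw.isIntegral
  have hsep : IsSeparable M₁ w := (minpoly.irreducible hwi).separable
  set G := (minpoly M₁ w).map (algebraMap M₁ Ω) with hG
  have hG0 : G ≠ 0 := (Polynomial.map_ne_zero_iff (algebraMap M₁ Ω).injective).2
    (minpoly.ne_zero hwi)
  obtain ⟨ε, hε, hgap⟩ := kr3_gap (s := G.roots.toFinset.erase w) (w := w)
    (fun β hβ => Finset.ne_of_mem_erase hβ)
  obtain ⟨w', hw', hlt⟩ := hwd ε hε
  have hadj : adj C y = Subfield.closure ((C : Set Ω) ∪ {y}) := by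
    rw [Subfield.closure_union, Subfield.closure_eq]
    rfl
  rw [hadj] at hw'
  obtain ⟨X, hX, hw'X⟩ := kr3_finset hw'
  obtain ⟨F₂, d, θ, hθ, hXF⟩ := stable hp hF hv (X.filter fun x => x ∈ C) (by
    intro x hx
    have h1 := (hC x).1 (Finset.mem_filter.1 hx).2
    obtain ⟨P, hP0, hP⟩ := h1
    refine ⟨P.map (Subfield.inclusion hFF),
      (Polynomial.map_ne_zero_iff (Subfield.inclusion hFF).injective).2 hP0, ?_⟩
    rw [aeval_def, eval₂_map]
    exact hP)
  refine ⟨F₂, d, θ, hθ, ?_⟩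
  have hw'M : w' ∈ M₁ ⊔ F₂ := by
    have h1 : Subfield.closure (X : Set Ω) ≤ M₁ ⊔ F₂ := by
      rw [Subfield.closure_le]
      intro x hx
      rcases hX hx with h2 | h2
      · exact (le_sup_right : F₂ ≤ M₁ ⊔ F₂) (hXF x (Finset.mem_filter.2 ⟨hx, h2⟩))
      · rw [Set.mem_singleton_iff] at h2
        rw [h2]
        exact (le_sup_left : M₁ ≤ M₁ ⊔ F₂) hy
    exact h1 hw'X
  have hθalg : ∀ i, IsAlgebraic M₁ (θ i) := by
    intro i
    obtain ⟨P, hP0, hP⟩ := hθ.isAlgebraic (hθ.mem i)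
    refine ⟨P.map (Subfield.inclusion hFM),
      (Polynomial.map_ne_zero_iff (Subfield.inclusion hFM).injective).2 hP0, ?_⟩
    rw [aeval_def, eval₂_map]
    exact hP
  have hw'alg : IsAlgebraic M₁ w' := by
    obtain ⟨c, hc, rfl⟩ := (mem_sup_iff hFM hθ w').1 hw'M
    have h1 : ∀ i, IsIntegral M₁ (c i * θ i) := fun i =>
      (isIntegral_algebraMap (R := M₁) (A := Ω) (x := ⟨c i, hc i⟩)).mul (hθalg i).isIntegral
    exact (IsIntegral.sum _ fun i _ => h1 i).isAlgebraic
  have hkr : w ∈ adj M₁ w' := by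
    refine kr3_krasner hM hnt hsep hw'alg (IsAlgClosed.splits _) fun β hβ hne => ?_
    refine lt_of_lt_of_le hlt (hgap β ?_)
    rw [Finset.mem_erase, Multiset.mem_toFinset, mem_roots hG0, IsRoot.def, hG,
      eval_map_algebraMap]
    exact ⟨hne, hβ⟩
  exact adj_le le_sup_left hw'M hkr

end MP1a953e
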