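import Pool.Agent.Lib.MP_1a953e_ag.Kr2
import Pool.Agent.Lib.MP_1a953e_ag.Kr3

/-!
# Module Kr4: generation after a finite extension
-/

namespace MP1a953e

open Polynomial

variable {Ω : Type*} [NormedField Ω]

private theorem kr4_mono {A B : Subfield Ω} (h : A ≤ B) {x : Ω} (hx : IsAlgebraic A x) :
    IsAlgebraic B x := by
  obtain ⟨P, hP0, hP⟩ := hx
  refine ⟨P.map (Subfield.inclusion h), ?_, ?_⟩
  · exact (Polynomial.map_ne_zero_iff (Subfield.inclusion h).injective).2 hP0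
  · rw [aeval_def, eval₂_map]
    exact hP

private theorem kr4_complete {s t : Set Ω} (hs : IsComplete s) (ht : IsClosed t) (hts : t ⊆ s) :
    IsComplete t := by
  intro f hf hft
  obtain ⟨x, -, hx⟩ := hs f hf (hft.trans (Filter.principal_mono.2 hts))
  refine ⟨x, ?_, hx⟩
  rw [← ht.closure_eq, mem_closure_iff_clusterPt]
  have := hf.1
  exact (ClusterPt.of_le_nhds hx).mono hft

/-- KR4.  Proof.  `exists_algebraic_gen` gives `y'`; `mem_sup_finite` gives `F₁` with `y' ∈ K ⊔ F₁`. `y' ∉ C`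
(`TT C y'`), so by `isAlgebraic_exchange` `T` is algebraic over `adj F y' ≤ adj F₁ y'`. Let `M₁` be the
closure of `adj F₁ y'` (`Subfield.topologicalClosure`), contained in the complete field `K ⊔ F₁`, so complete. `exists_primitive_over_closure` gives
`w` with `adj M₁ w = K ⊔ F₁`, `w ∈ K ⊔ C`. `krasner_mem` gives `F₂` with
`w ∈ M₁ ⊔ F₂`, so `K ⊔ F₁ ≤ M₁ ⊔ F₂` and `K ⊔ F₂ = M₁ ⊔ F₂`. By `DenseIn.sup`,
`adj F₂ y'` is dense in `M₁ ⊔ F₂`. `OrthBasis F F₂` by `OrthBasis.trans`; `y' ∉ F₂` because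
`F₂ ≤ C`. -/
theorem krasner_step [IsUltrametricDist Ω] [IsAlgClosed Ω] [CharZero Ω] {p : ℕ} [Fact p.Prime]
    (hp : ‖(p : Ω)‖ < 1) {k F K P₀ C : Subfield Ω} {n : ℕ} {s : Fin n → Ω} (hF : TF k F s)
    (hv : DenseVal F) (hI : Imm F K) (hK : IsComplete (K : Set Ω)) {T : Ω} (hT : T ∈ K)
    (hTF : T ∉ F) (hPd : DenseIn (adj F T) P₀)
    (E : IntermediateField P₀ Ω) [FiniteDimensional P₀ E] (hE : E.toSubfield = K)
    (hC : ∀ x, x ∈ C ↔ IsAlgebraic F x)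
    (hL : ∀ x ∈ K, ∀ ε : ℝ, 0 < ε → ∃ x' ∈ K, IsAlgebraic (adj F T) x' ∧ ‖x - x'‖ < ε)
    {y : Ω} (hy : y ∈ K ⊔ C) (hyC : TT C y) (hyd : DenseIn (adj C y) (K ⊔ C)) :
    ∃ (F' : Subfield Ω) (d : ℕ) (θ : Fin (d + 1) → Ω), OrthBasis F F' θ ∧
      ∃ Y ∈ K ⊔ F', Y ∉ F' ∧ DenseIn (adj F' Y) (K ⊔ F') := by
  have _ := hTF
  obtain ⟨y', hy'KC, hy'alg, hy'TT, hy'd⟩ := exists_algebraic_gen hp hF hv hI hL hC hy hyC hyd
  obtain ⟨F₁, d₁, θ₁, hθ₁, hy'F₁⟩ := mem_sup_finite hp hF hv hC hy'KC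
  have hy'C : y' ∉ C := by
    intro h
    have h1 := hy'TT.pos
    rw [Metric.infDist_zero_of_mem (show y' ∈ (C : Set Ω) from h)] at h1
    exact lt_irrefl _ h1
  have hy'F : ¬ IsAlgebraic F y' := fun h => hy'C ((hC y').2 h)
  have hTy0 := isAlgebraic_exchange hy'alg hy'F
  have hle1 : adj F y' ≤ adj F₁ y' := sup_le_sup_right hθ₁.le _
  have hTy : IsAlgebraic (adj F₁ y') T := kr4_mono hle1 hTy0
  have hF₁C : F₁ ≤ C := fun x hx => (hC x).2 (hθ₁.isAlgebraic hx)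
  have hKF₁ : IsComplete ((K ⊔ F₁ : Subfield Ω) : Set Ω) := (hθ₁.sup hI).complete hK
  have hadjle : adj F₁ y' ≤ K ⊔ F₁ := adj_le le_sup_right hy'F₁
  set M₁ : Subfield Ω := (adj F₁ y').topologicalClosure with hM₁
  have hM₁le : M₁ ≤ K ⊔ F₁ := Subfield.topologicalClosure_minimal _ hadjle hKF₁.isClosed
  have hMc : IsComplete (M₁ : Set Ω) :=
    kr4_complete hKF₁ (Subfield.isClosed_topologicalClosure _) hM₁le
  have hMd : DenseIn (adj F₁ y') M₁ := by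
    refine ⟨Subfield.le_topologicalClosure _, fun x hx ε hε => ?_⟩
    have h1 : x ∈ closure ((adj F₁ y' : Subfield Ω) : Set Ω) := hx
    obtain ⟨a, ha, hxa⟩ := Metric.mem_closure_iff.1 h1 ε hε
    rw [dist_eq_norm] at hxa
    exact ⟨a, ha, hxa⟩
  have hnt : ∃ x ∈ F, 1 < ‖x‖ := by
    obtain ⟨x, hx, h1, -⟩ := hv 1 2 one_pos one_lt_two
    exact ⟨x, hx, h1⟩
  obtain ⟨-, w, hw, hwadj⟩ := exists_primitive_over_closure hI hK hnt hT hPd E hE hθ₁ hy'F₁ hTy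
    hMc hMd
  have hv₁ : DenseVal F₁ := by
    intro a b ha hab
    obtain ⟨x, hx, h1⟩ := hv a b ha hab
    exact ⟨x, hθ₁.le hx, h1⟩
  have hwKC : w ∈ K ⊔ C := by
    have h1 : w ∈ K ⊔ F₁ := by rw [← hwadj]; exact mem_adj_self M₁ w
    exact (sup_le_sup_left hF₁C K) h1
  obtain ⟨F₂, d₂, θ₂, hθ₂, hwF₂⟩ := krasner_mem hp (hF.ext hθ₁) hv₁ hθ₁.le hC hMc
    (Subfield.le_topologicalClosure _ (mem_adj_self F₁ y'))
    ((le_adj F₁ y').trans (Subfield.le_topologicalClosure _)) hw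
    (fun ε hε => hy'd.2 w hwKC ε hε)
  have hsup1 : K ⊔ F₁ ≤ M₁ ⊔ F₂ := by
    rw [← hwadj]
    exact adj_le le_sup_left hwF₂
  have hsup : K ⊔ F₂ = M₁ ⊔ F₂ := by
    apply le_antisymm
    · exact sup_le (le_sup_left.trans hsup1) le_sup_right
    · exact sup_le (hM₁le.trans (sup_le_sup_left hθ₂.le K)) le_sup_right
  have hdense : DenseIn (adj F₂ y') (K ⊔ F₂) := by
    rw [hsup]
    exact hMd.sup hθ₂
  obtain ⟨e, ω, hω⟩ := hθ₁.trans hθ₂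
  refine ⟨F₂, e, ω, hω, y', ?_, ?_, hdense⟩
  · exact (sup_le_sup_left hθ₂.le K) hy'F₁
  · intro h
    exact hy'F (hω.isAlgebraic h)

end MP1a953e
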