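import Pool.Agent.Lib.MP_1a953e_ag.Em6
import Pool.Agent.Lib.MP_1a953e_ag.Gs1

/-!
# Module LD1: orthonormality of powers
-/

namespace MP1a953e

open Polynomial

variable {Ω : Type*} [NormedField Ω] [IsUltrametricDist Ω]

private theorem norm_add_lt {x y : Ω} {r : ℝ} (hx : ‖x‖ < r) (hy : ‖y‖ < r) : ‖x + y‖ < r :=
  lt_of_le_of_lt (IsUltrametricDist.norm_add_le_max x y) (max_lt hx hy)

private theorem norm_pow_sub_pow {x a : Ω} (ha : ‖a‖ ≤ 1) (hx : ‖x‖ ≤ 1) (h : ‖x - a‖ < 1)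
    (i : ℕ) : ‖x ^ i - a ^ i‖ < 1 := by
  induction i with
  | zero => simp
  | succ i ih =>
    have : x ^ (i + 1) - a ^ (i + 1) = x * (x ^ i - a ^ i) + (x - a) * a ^ i := by ring
    rw [this]
    refine norm_add_lt ?_ ?_
    · rw [norm_mul]
      exact lt_of_le_of_lt (mul_le_of_le_one_left (norm_nonneg _) hx) ih
    · rw [norm_mul, norm_pow]
      exact lt_of_le_of_lt (mul_le_of_le_one_right (norm_nonneg _)
        (pow_le_one₀ (norm_nonneg _) ha)) h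

/-- LD1 (`1, x, ..., x ^ (d-1)` are orthonormal over `k'(κ0)`), `d = deg (minpoly κ0 a)`, `‖x - a‖ < 1`.
Proof.  By `exists_gs` for `κ0` there is `F₀ ⊇ k' ⊔ κ0` with `Gs k0 k' κ0 F₀`, so after scaling by an
element of `k'` (`Gs.approx`) we may assume `max ‖c i‖ = 1`; replace the `c i` by elements `e i` of
`κ0` (`Gs.res`), not all zero; `∑ e i * a ^ i ≠ 0` in `κ` by linear independence of the powers of
`a`, so its norm is `1`. (`κ0` is finitely generated over `k0`.) -/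
theorem orth_pow {k0 k' κ0 κ K : Subfield Ω} (hg : Ground k0 k') (h0 : k0 ≤ κ0)
    (hfg : ∃ s : Finset Ω, κ0 = k0 ⊔ Subfield.closure (s : Set Ω)) {a : Ω}
    (hκ : κ = adj κ0 a) (htriv : ∀ x ∈ κ, x ≠ 0 → ‖x‖ = 1) (hsep : IsSeparable κ0 a)
    (hK : IsComplete (K : Set Ω)) (hkK : k' ≤ K) (hκK : κ ≤ K) {x : Ω} (hx : ‖x - a‖ < 1)
    (c : Fin (minpoly κ0 a).natDegree → Ω) (hc : ∀ i, c i ∈ k' ⊔ κ0)
    (i : Fin (minpoly κ0 a).natDegree) : ‖c i‖ ≤ ‖∑ j, c j * x ^ (j : ℕ)‖ := by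
  classical
  have hκ0 : κ0 ≤ κ := hκ ▸ le_adj κ0 a
  have haκ : a ∈ κ := hκ ▸ mem_adj_self κ0 a
  obtain ⟨F, hG, hFK⟩ := exists_gs (κ := κ0) hg h0 (fun y hy => htriv y (hκ0 hy)) hfg hK hkK
    (hκ0.trans hκK)
  have hcF : ∀ i, c i ∈ F := fun i => (sup_le hG.k_le hG.κ_le : k' ⊔ κ0 ≤ F) (hc i)
  obtain ⟨i₀, -, hi₀⟩ := Finset.exists_max_image Finset.univ (fun i => ‖c i‖) ⟨i, Finset.mem_univ i⟩
  by_cases hci0 : c i₀ = 0
  · have := hi₀ i (Finset.mem_univ i)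
    rw [hci0, norm_zero] at this
    exact this.trans (norm_nonneg _)
  have ha1 : ‖a‖ ≤ 1 := by
    by_cases h : a = 0
    · rw [h, norm_zero]; exact zero_le_one
    · exact (htriv a haκ h).le
  have hx1 : ‖x‖ ≤ 1 := by
    have : x = (x - a) + a := by ring
    rw [this]
    exact (IsUltrametricDist.norm_add_le_max _ _).trans (max_le hx.le ha1)
  obtain ⟨b, hb, -, -, hbn, -, -⟩ := hG.approx (Imm.refl F) (hcF i₀) hci0
  have hpos : 0 < ‖c i₀‖ := norm_pos_iff.2 hci0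
  have hb0 : b ≠ 0 := by
    rw [← norm_pos_iff, hbn]; exact hpos
  have hres : ∀ i, ∃ e ∈ κ0, ‖c i / b - e‖ < 1 := by
    intro i
    refine hG.res (Imm.refl F) (div_mem (hcF i) (hG.k_le hb)) ?_
    rw [norm_div, hbn]
    exact div_le_one_of_le₀ (hi₀ i (Finset.mem_univ i)) (norm_nonneg _)
  choose e he hlt using hres
  have hei0 : e i₀ ≠ 0 := by
    intro h
    have := hlt i₀
    rw [h, sub_zero, norm_div, hbn, div_self hpos.ne'] at this
    exact lt_irrefl _ this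
  have he1 : ∀ i, ‖e i‖ ≤ 1 := by
    intro i
    by_cases h : e i = 0
    · rw [h, norm_zero]; exact zero_le_one
    · exact (htriv _ (hκ0 (he i)) h).le
  -- linear independence
  have hne : ∑ j, e j * a ^ (j : ℕ) ≠ 0 := by
    intro hzero
    have hli := linearIndependent_pow (K := κ0) a
    rw [Fintype.linearIndependent_iff] at hli
    have := hli (fun j => ⟨e j, he j⟩) (by
      rw [← hzero]
      refine Finset.sum_congr rfl fun j _ => ?_
      rfl) i₀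
    exact hei0 (congrArg Subtype.val this)
  have hnorm1 : ‖∑ j, e j * a ^ (j : ℕ)‖ = 1 :=
    htriv _ (sum_mem fun j _ => mul_mem (hκ0 (he j)) (pow_mem haκ _)) hne
  have hdiff : ‖∑ j, c j / b * x ^ (j : ℕ) - ∑ j, e j * a ^ (j : ℕ)‖ < 1 := by
    rw [← Finset.sum_sub_distrib]
    obtain ⟨i₁, -, hi₁⟩ := Finset.exists_max_image Finset.univ
      (fun i : Fin (minpoly κ0 a).natDegree => ‖c i / b * x ^ (i : ℕ) - e i * a ^ (i : ℕ)‖)
      ⟨i, Finset.mem_univ i⟩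
    refine lt_of_le_of_lt (IsUltrametricDist.norm_sum_le_of_forall_le_of_nonneg (norm_nonneg _)
      fun i _ => hi₁ i (Finset.mem_univ i)) ?_
    have : c i₁ / b * x ^ (i₁ : ℕ) - e i₁ * a ^ (i₁ : ℕ)
        = (c i₁ / b - e i₁) * x ^ (i₁ : ℕ) + e i₁ * (x ^ (i₁ : ℕ) - a ^ (i₁ : ℕ)) := by ring
    rw [this]
    refine norm_add_lt ?_ ?_
    · rw [norm_mul, norm_pow]
      exact lt_of_le_of_lt (mul_le_of_le_one_right (norm_nonneg _)
        (pow_le_one₀ (norm_nonneg _) hx1)) (hlt i₁)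
    · rw [norm_mul]
      exact lt_of_le_of_lt (mul_le_of_le_one_left (norm_nonneg _) (he1 i₁))
        (norm_pow_sub_pow ha1 hx1 hx _)
  have hone : ‖∑ j, c j / b * x ^ (j : ℕ)‖ = 1 := by
    have h := IsUltrametricDist.norm_eq_of_add_norm_lt_max (x := ∑ j, c j / b * x ^ (j : ℕ))
      (y := - ∑ j, e j * a ^ (j : ℕ)) ?_
    · rw [h, norm_neg, hnorm1]
    · rw [← sub_eq_add_neg, norm_neg, hnorm1]
      exact lt_of_lt_of_le hdiff (le_max_right _ _)
  have hscale : ∑ j, c j * x ^ (j : ℕ) = b * ∑ j, c j / b * x ^ (j : ℕ) := by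
    rw [Finset.mul_sum]
    refine Finset.sum_congr rfl fun j _ => ?_
    field_simp
  rw [hscale, norm_mul, hone, mul_one, hbn]
  exact hi₀ i (Finset.mem_univ i)

end MP1a953e
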