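import Pool.Agent.Lib.MP_1a953e_ag.LD1

/-!
# Module LD2: polynomial of an approximation
-/

namespace MP1a953e

open Polynomial

variable {Ω : Type*} [NormedField Ω] [IsUltrametricDist Ω]

/-- the unit ball as a subring -/
private def OO (Ω : Type*) [NormedField Ω] [IsUltrametricDist Ω] : Subring Ω where
  carrier := {z | ‖z‖ ≤ 1}
  mul_mem' := by
    intro a b ha hb
    simp only [Set.mem_ofPred_eq] at *
    rw [norm_mul]
    exact mul_le_one₀ ha (norm_nonneg _) hb
  one_mem' := by simp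
  add_mem' := by
    intro a b ha hb
    exact (IsUltrametricDist.norm_add_le_max a b).trans (max_le ha hb)
  zero_mem' := by simp
  neg_mem' := by
    intro a ha
    simpa using ha

private lemma lift_OO {f : Polynomial Ω} (hf1 : ∀ i, ‖f.coeff i‖ ≤ 1) :
    ∃ F : Polynomial (OO Ω), F.map (OO Ω).subtype = f := by
  have h : (↑f.coeffs : Set Ω) ⊆ (OO Ω : Set Ω) := by
    intro z hz
    have hz' : z ∈ f.coeffs := hz
    rw [Polynomial.mem_coeffs_iff] at hz'
    obtain ⟨n, _, rfl⟩ := hz'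
    exact hf1 n
  exact ⟨f.toSubring (OO Ω) h, Polynomial.map_toSubring f (OO Ω) h⟩

private lemma eval_OO (F : Polynomial (OO Ω)) (z : OO Ω) :
    (F.map (OO Ω).subtype).eval (z : Ω) = ((F.eval z : OO Ω) : Ω) := by
  rw [Polynomial.eval_map]
  exact Polynomial.eval₂_at_apply (OO Ω).subtype z

private lemma deriv_OO {f : Polynomial Ω} (hf1 : ∀ i, ‖f.coeff i‖ ≤ 1) :
    ∀ i, ‖f.derivative.coeff i‖ ≤ 1 := by
  intro i
  rw [Polynomial.coeff_derivative, norm_mul]
  refine mul_le_one₀ (hf1 _) (norm_nonneg _) ?_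
  have := IsUltrametricDist.norm_natCast_le_one Ω (i + 1)
  simpa using this

private lemma taylor1 {f : Polynomial Ω} (hf1 : ∀ i, ‖f.coeff i‖ ≤ 1) {y h : Ω} (hy : ‖y‖ ≤ 1)
    (hh : ‖h‖ ≤ 1) : ‖f.eval (y + h) - f.eval y‖ ≤ ‖h‖ := by
  obtain ⟨F, hF⟩ := lift_OO hf1
  let y' : OO Ω := ⟨y, hy⟩
  let h' : OO Ω := ⟨h, hh⟩
  obtain ⟨k, hk⟩ := Polynomial.evalSubFactor F (y' + h') y'
  have h1 := eval_OO F (y' + h')
  have h2 := eval_OO F y'
  rw [hF] at h1 h2
  have e1 : ((y' + h' : OO Ω) : Ω) = y + h := rfl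
  have e2 : ((y' : OO Ω) : Ω) = y := rfl
  rw [e1] at h1
  rw [e2] at h2
  have h4 : f.eval (y + h) - f.eval y = k * h := by
    rw [h1, h2]
    have := congrArg (fun z : OO Ω => (z : Ω)) hk
    simp only [add_sub_cancel_left] at this
    exact this
  rw [h4, norm_mul]
  calc ‖(k : Ω)‖ * ‖h‖ ≤ 1 * ‖h‖ := mul_le_mul_of_nonneg_right k.2 (norm_nonneg _)
    _ = ‖h‖ := one_mul _

private lemma eval_lt_one {f : Polynomial Ω} (hf : ∀ i, ‖f.coeff i‖ < 1) {x : Ω} (hx : ‖x‖ ≤ 1) :
    ‖f.eval x‖ < 1 := by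
  rw [eval_eq_sum_range]
  obtain ⟨i, -, hi⟩ := IsUltrametricDist.exists_norm_finsetSum_le_of_nonempty
    (t := Finset.range (f.natDegree + 1)) ⟨0, by simp⟩ (fun i => f.coeff i * x ^ i)
  refine hi.trans_lt ?_
  rw [norm_mul, norm_pow]
  calc ‖f.coeff i‖ * ‖x‖ ^ i ≤ ‖f.coeff i‖ * 1 :=
        mul_le_mul_of_nonneg_left (pow_le_one₀ (norm_nonneg _) hx) (norm_nonneg _)
    _ < 1 := by rw [mul_one]; exact hf i

private lemma deriv_lt_one {f : Polynomial Ω} (hf : ∀ i, ‖f.coeff i‖ < 1) :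
    ∀ i, ‖f.derivative.coeff i‖ < 1 := by
  intro i
  rw [coeff_derivative, norm_mul]
  have h := IsUltrametricDist.norm_natCast_le_one Ω (i + 1)
  have h' : ‖(i : Ω) + 1‖ ≤ 1 := by simpa using h
  calc ‖f.coeff (i + 1)‖ * ‖(i : Ω) + 1‖ ≤ ‖f.coeff (i + 1)‖ * 1 :=
        mul_le_mul_of_nonneg_left h' (norm_nonneg _)
    _ < 1 := by rw [mul_one]; exact hf _

/-- LD2 (the polynomial of an approximation).  Let `b ∈ adj (k' ⊔ κ0) a`, `‖b - a‖ < 1`. Then `b` is a root of a
monic polynomial `h` of degree `d` over `k' ⊔ κ0` with coefficients of norm `≤ 1` and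
`‖h' b‖ = 1`.  Proof: `b ^ d = ∑_{i<d} H i * b ^ i` since `adj (k' ⊔ κ0) a` has dimension `≤ d` over
`k' ⊔ κ0` and the `b ^ i`, `i < d`, are linearly independent (LD1); `‖H i‖ ≤ ‖b ^ d‖ ≤ 1` by LD1. The
reduction of `h` (coefficients replaced by elements of `κ0`) kills `a`, so it is `minpoly κ0 a` and
`‖h' b‖ = ‖(minpoly κ0 a)' a‖ = 1` (separable, `κ` trivially normed). -/
theorem exists_h {k0 k' κ0 κ K : Subfield Ω} (hg : Ground k0 k') (h0 : k0 ≤ κ0)
    (hfg : ∃ s : Finset Ω, κ0 = k0 ⊔ Subfield.closure (s : Set Ω)) {a : Ω}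
    (hκ : κ = adj κ0 a) (htriv : ∀ x ∈ κ, x ≠ 0 → ‖x‖ = 1) (hsep : IsSeparable κ0 a)
    (hK : IsComplete (K : Set Ω)) (hkK : k' ≤ K) (hκK : κ ≤ K) {b : Ω}
    (hb : b ∈ adj (k' ⊔ κ0) a) (hba : ‖b - a‖ < 1) :
    ∃ h : Polynomial Ω, Coeffs (k' ⊔ κ0) h ∧ h.Monic ∧
      h.natDegree = (minpoly κ0 a).natDegree ∧ (∀ i, ‖h.coeff i‖ ≤ 1) ∧ h.eval b = 0 ∧
      ‖h.derivative.eval b‖ = 1 := by
  classical
  have haκ : a ∈ κ := hκ ▸ mem_adj_self κ0 a
  have hκ0 : κ0 ≤ κ := hκ ▸ le_adj κ0 a
  have hnκ : ∀ x ∈ κ, ‖x‖ ≤ 1 := by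
    intro x hx
    by_cases h : x = 0
    · simp [h]
    · exact (htriv x hx h).le
  have ha1 : ‖a‖ ≤ 1 := hnκ a haκ
  have hb1 : ‖b‖ ≤ 1 := by
    have : b = (b - a) + a := by ring
    rw [this]
    exact (IsUltrametricDist.norm_add_le_max _ _).trans (max_le hba.le ha1)
  obtain ⟨F₀, hF₀, -⟩ := exists_gs hg h0 (fun x hx hx0 => htriv x (hκ0 hx) hx0) hfg hK hkK
    (hκ0.trans hκK)
  set M : Subfield Ω := k' ⊔ κ0 with hM
  have hMF : M ≤ F₀ := sup_le hF₀.k_le hF₀.κ_le
  have hκ0M : κ0 ≤ M := le_sup_right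
  have hres : ∀ x ∈ M, ‖x‖ ≤ 1 → ∃ e ∈ κ0, ‖x - e‖ < 1 := fun x hx hx1 =>
    hF₀.res (Imm.refl F₀) (hMF hx) hx1
  set d := (minpoly κ0 a).natDegree with hd
  have hint : IsIntegral κ0 a := hsep.isIntegral
  -- `a` is integral over `M`
  set pM : Polynomial M := (minpoly κ0 a).map (Subfield.inclusion hκ0M) with hpM
  have hpMm : pM.Monic := (minpoly.monic hint).map _
  have hpM0 : aeval a pM = 0 := by
    have h1 : aeval a pM = aeval a (minpoly κ0 a) := by
      rw [hpM, aeval_def, aeval_def, eval₂_map]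
      rfl
    rw [h1, minpoly.aeval]
  have hintM : IsIntegral M a := ⟨pM, hpMm, hpM0⟩
  have hdM : (minpoly M a).natDegree ≤ d := by
    have h1 := natDegree_le_of_dvd (minpoly.dvd M a hpM0) hpMm.ne_zero
    have h2 : pM.natDegree = d := by
      rw [hpM, natDegree_map]
    omega
  have hbE : b ∈ IntermediateField.adjoin M {a} := by
    have hle : adj M a ≤ (IntermediateField.adjoin M {a}).toSubfield := by
      refine adj_le ?_ ?_
      · intro x hx
        exact (IntermediateField.adjoin M {a}).algebraMap_mem ⟨x, hx⟩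
      · exact IntermediateField.mem_adjoin_simple_self M a
    exact hle hb
  have : FiniteDimensional M (IntermediateField.adjoin M {a}) :=
    IntermediateField.adjoin.finiteDimensional hintM
  have hintb : IsIntegral M b := by
    have h1 : IsIntegral M (⟨b, hbE⟩ : IntermediateField.adjoin M {a}) := IsIntegral.of_finite M _
    exact h1.map (IntermediateField.adjoin M {a}).val
  have hdb : (minpoly M b).natDegree ≤ d := by
    have h1 : (minpoly M (⟨b, hbE⟩ : IntermediateField.adjoin M {a})).natDegree ≤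
        Module.finrank M (IntermediateField.adjoin M {a}) := minpoly.natDegree_le _
    rw [IntermediateField.adjoin.finrank hintM] at h1
    have h2 : minpoly M (⟨b, hbE⟩ : IntermediateField.adjoin M {a}) = minpoly M b := by
      exact (minpoly.algebraMap_eq (algebraMap (IntermediateField.adjoin M {a}) Ω).injective
        (⟨b, hbE⟩ : IntermediateField.adjoin M {a})).symm
    rw [h2] at h1
    exact h1.trans hdM
  set h : Polynomial Ω := (minpoly M b).map (algebraMap M Ω) with hh
  have hhM : Coeffs M h := by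
    intro i
    rw [hh, coeff_map]
    exact ((minpoly M b).coeff i).2
  have hhm : h.Monic := (minpoly.monic hintb).map _
  have hh0 : h.eval b = 0 := by
    rw [hh, eval_map_algebraMap, minpoly.aeval]
  have hhn : h.natDegree = (minpoly M b).natDegree := by rw [hh, natDegree_map]
  have orth : ∀ i < d, ‖h.coeff i‖ ≤ ‖∑ j ∈ Finset.range d, h.coeff j * b ^ j‖ := by
    intro i hi
    have := orth_pow hg h0 hfg hκ htriv hsep hK hkK hκK hba (fun j => h.coeff (j : ℕ))
      (fun j => hhM _) ⟨i, hi⟩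
    rwa [Fin.sum_univ_eq_sum_range (fun j => h.coeff j * b ^ j) d] at this
  have hnd : h.natDegree = d := by
    rcases lt_or_eq_of_le (hhn ▸ hdb : h.natDegree ≤ d) with hlt | heq
    · exfalso
      have h1 := orth _ hlt
      have h2 : ∑ j ∈ Finset.range d, h.coeff j * b ^ j = h.eval b :=
        (eval_eq_sum_range' hlt b).symm
      rw [h2, hh0, norm_zero, hhm.coeff_natDegree, norm_one] at h1
      linarith
    · exact heq
  have hsum : ∑ j ∈ Finset.range d, h.coeff j * b ^ j = -b ^ d := by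
    have h1 := hh0
    rw [eval_eq_sum_range, hnd, Finset.sum_range_succ] at h1
    have h2 : h.coeff d = 1 := by rw [← hnd]; exact hhm.coeff_natDegree
    rw [h2, one_mul] at h1
    exact eq_neg_of_add_eq_zero_left h1
  have hh1 : ∀ i, ‖h.coeff i‖ ≤ 1 := by
    intro i
    rcases lt_trichotomy i d with hi | hi | hi
    · refine (orth i hi).trans ?_
      rw [hsum, norm_neg, norm_pow]
      exact pow_le_one₀ (norm_nonneg _) hb1
    · rw [hi, ← hnd, hhm.coeff_natDegree, norm_one]
    · rw [coeff_eq_zero_of_natDegree_lt (by omega), norm_zero]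
      exact zero_le_one
  choose e he0 he using fun i => hres (h.coeff i) (hhM i) (hh1 i)
  -- the reduction
  set r : Polynomial κ0 := ∑ i ∈ Finset.range d, C (⟨e i, he0 i⟩ : κ0) * X ^ i with hr
  have hrd : r.degree < d := by
    rw [degree_lt_iff_coeff_zero]
    intro m hm
    rw [hr, finsetSum_coeff]
    refine Finset.sum_eq_zero fun i hi => ?_
    have hne : m ≠ i := by
      have := Finset.mem_range.1 hi
      omega
    rw [coeff_C_mul, coeff_X_pow, if_neg hne, mul_zero]
  set g : Polynomial κ0 := X ^ d + r with hgdef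
  have hgm : g.Monic := monic_X_pow_add hrd
  have hgd : g.natDegree = d := by
    rw [hgdef, natDegree_add_eq_left_of_degree_lt (by rwa [degree_X_pow]), natDegree_X_pow]
  set gO : Polynomial Ω := g.map (algebraMap κ0 Ω) with hgO
  have hgOm : gO.Monic := hgm.map _
  have hgOd : gO.natDegree = d := by rw [hgO, natDegree_map, hgd]
  have hgO0 : ∀ i, gO.coeff i ∈ κ0 := by
    intro i
    rw [hgO, coeff_map]
    exact (g.coeff i).2
  have hgO1 : ∀ i, ‖gO.coeff i‖ ≤ 1 := fun i => hnκ _ (hκ0 (hgO0 i))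
  have hgOe : ∀ i < d, gO.coeff i = e i := by
    intro i hi
    rw [hgO, coeff_map, hgdef, coeff_add, coeff_X_pow, if_neg hi.ne, zero_add, hr,
      finsetSum_coeff]
    simp only [coeff_C_mul, coeff_X_pow, mul_ite, mul_one, mul_zero]
    rw [Finset.sum_ite_eq (Finset.range d) i, if_pos (Finset.mem_range.2 hi)]
    rfl
  have hdiff : ∀ i, ‖(h - gO).coeff i‖ < 1 := by
    intro i
    rw [coeff_sub]
    rcases lt_trichotomy i d with hi | hi | hi
    · rw [hgOe i hi]
      exact he i
    · have h1 : h.coeff i = 1 := by rw [hi, ← hnd]; exact hhm.coeff_natDegree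
      have h2 : gO.coeff i = 1 := by rw [hi, ← hgOd]; exact hgOm.coeff_natDegree
      rw [h1, h2, sub_self, norm_zero]
      exact zero_lt_one
    · rw [coeff_eq_zero_of_natDegree_lt (by omega : h.natDegree < i),
        coeff_eq_zero_of_natDegree_lt (by omega : gO.natDegree < i), sub_self, norm_zero]
      exact zero_lt_one
  have hab : a + (b - a) = b := by ring
  have hga : ‖gO.eval a‖ < 1 := by
    have h1 := eval_lt_one hdiff hb1
    have h2 := taylor1 hgO1 ha1 hba.le
    rw [hab] at h2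
    have h3 : gO.eval a = -((h - gO).eval b) + -(gO.eval b - gO.eval a) := by
      rw [eval_sub, hh0]
      ring
    rw [h3]
    refine (IsUltrametricDist.norm_add_le_max _ _).trans_lt (max_lt ?_ ?_)
    · rwa [norm_neg]
    · rw [norm_neg]
      exact h2.trans_lt hba
  have hmem : ∀ q : Polynomial Ω, (∀ i, q.coeff i ∈ κ0) → q.eval a ∈ κ := by
    intro q hq
    rw [eval_eq_sum_range]
    exact Subfield.sum_mem _ fun i _ => κ.mul_mem (hκ0 (hq i)) (κ.pow_mem haκ i)
  have hga0 : gO.eval a = 0 := by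
    by_contra hne
    have := htriv _ (hmem gO hgO0) hne
    linarith
  have hgmin : g = minpoly κ0 a := by
    have h1 : aeval a g = 0 := by
      rw [← eval_map_algebraMap]
      exact hga0
    exact eq_of_monic_of_dvd_of_natDegree_le (minpoly.monic hint) hgm (minpoly.dvd κ0 a h1)
      (by rw [hgd])
  have hgda : ‖gO.derivative.eval a‖ = 1 := by
    apply htriv
    · refine hmem _ fun i => ?_
      rw [coeff_derivative]
      refine κ0.mul_mem (hgO0 _) ?_
      have : ((i : Ω) + 1) = ((i + 1 : ℕ) : Ω) := by push_cast; ring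
      rw [this]
      exact natCast_mem κ0 (i + 1)
    · rw [hgO, derivative_map, eval_map_algebraMap, hgmin]
      exact hsep.aeval_derivative_ne_zero (minpoly.aeval κ0 a)
  have hfin : ‖h.derivative.eval b‖ = 1 := by
    have h1 := eval_lt_one (deriv_lt_one hdiff) hb1
    have h2 := taylor1 (deriv_OO hgO1) ha1 hba.le
    rw [hab] at h2
    have h3 : h.derivative.eval b = gO.derivative.eval a +
        ((h - gO).derivative.eval b + (gO.derivative.eval b - gO.derivative.eval a)) := by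
      rw [derivative_sub, eval_sub]
      ring
    have h4 : ‖(h - gO).derivative.eval b + (gO.derivative.eval b - gO.derivative.eval a)‖ <
        ‖gO.derivative.eval a‖ := by
      rw [hgda]
      exact (IsUltrametricDist.norm_add_le_max _ _).trans_lt (max_lt h1 (h2.trans_lt hba))
    rw [h3, IsUltrametricDist.norm_add_eq_max_of_norm_ne_norm h4.ne', max_eq_left h4.le, hgda]
  exact ⟨h, hhM, hhm, hnd, hh1, hh0, hfin⟩

end MP1a953e
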