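import Pool.Agent.Lib.MP_1a953e_ag.Defs

/-!
# Module LD3: good approximation of one polynomial
-/

namespace MP1a953e

open Polynomial

variable {Ω : Type*} [NormedField Ω] [IsUltrametricDist Ω]

private lemma bd_mul {A : ℝ} (hA : 0 ≤ A) {P Q : Polynomial Ω} (hP : ∀ i, ‖P.coeff i‖ ≤ A)
    (hQ : ∀ i, ‖Q.coeff i‖ ≤ 1) (n : ℕ) : ‖(P * Q).coeff n‖ ≤ A := by
  rw [coeff_mul]
  apply IsUltrametricDist.norm_sum_le_of_forall_le_of_nonneg hA
  intro x _
  rw [norm_mul]
  calc ‖P.coeff x.1‖ * ‖Q.coeff x.2‖ ≤ A * 1 :=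
        mul_le_mul (hP _) (hQ _) (norm_nonneg _) hA
    _ = A := mul_one A

private lemma bd_pow {Q : Polynomial Ω} (hQ : ∀ i, ‖Q.coeff i‖ ≤ 1) (m : ℕ) :
    ∀ n, ‖(Q ^ m).coeff n‖ ≤ 1 := by
  induction m with
  | zero =>
    intro n
    rw [pow_zero, coeff_one]
    split_ifs
    · rw [norm_one]
    · rw [norm_zero]; exact zero_le_one
  | succ m ih =>
    intro n
    rw [pow_succ]
    exact bd_mul zero_le_one ih hQ n

private lemma bd_taylor {A : ℝ} (hA : 0 ≤ A) {P : Polynomial Ω} (hP : ∀ i, ‖P.coeff i‖ ≤ A)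
    {b : Ω} (hb : ‖b‖ ≤ 1) (n : ℕ) : ‖(taylor b P).coeff n‖ ≤ A := by
  rw [taylor_coeff, hasseDeriv_apply, sum_def, eval_finsetSum]
  apply IsUltrametricDist.norm_sum_le_of_forall_le_of_nonneg hA
  intro i _
  rw [eval_monomial, norm_mul, norm_mul, norm_pow]
  have h1 : ‖((i.choose n : ℕ) : Ω)‖ ≤ 1 := IsUltrametricDist.norm_natCast_le_one Ω _
  have h2 : ‖b‖ ^ (i - n) ≤ 1 := pow_le_one₀ (norm_nonneg _) hb
  calc ‖((i.choose n : ℕ) : Ω)‖ * ‖P.coeff i‖ * ‖b‖ ^ (i - n) ≤ 1 * A * 1 := by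
        apply mul_le_mul (mul_le_mul h1 (hP i) (norm_nonneg _) zero_le_one) h2 (by positivity)
        rw [one_mul]; exact hA
    _ = A := by ring

private lemma bd_eval {A : ℝ} (hA : 0 ≤ A) {P : Polynomial Ω} (hP : ∀ i, ‖P.coeff i‖ ≤ A)
    {b : Ω} (hb : ‖b‖ ≤ 1) : ‖P.eval b‖ ≤ A := by
  have h := bd_taylor hA hP hb 0
  rwa [taylor_coeff_zero] at h

/-- iterated division by a monic polynomial -/
private lemma expansion {K : Type*} [Field K] {h : Polynomial K} (hmon : h.Monic)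
    (hdeg : 0 < h.natDegree) (n : ℕ) : ∀ G : Polynomial K, G.natDegree < n →
    ∃ (N : ℕ) (g : ℕ → Polynomial K), (∀ i, (g i).degree < h.degree) ∧
      G = ∑ i ∈ Finset.range (N + 1), g i * h ^ i := by
  have hne : h ≠ 0 := hmon.ne_zero
  have hd0 : (0 : Polynomial K).degree < h.degree := by
    rw [degree_zero, bot_lt_iff_ne_bot]
    exact fun h0 => hne (degree_eq_bot.1 h0)
  induction n with
  | zero => intro G hG; omega
  | succ n ih =>
    intro G hG
    by_cases hlt : G.degree < h.degree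
    · refine ⟨0, fun i => if i = 0 then G else 0, fun i => ?_, by simp⟩
      dsimp only
      split_ifs
      · exact hlt
      · exact hd0
    · have hGh : h.natDegree ≤ G.natDegree := natDegree_le_natDegree (not_lt.1 hlt)
      obtain ⟨N, g, hg, hsum⟩ := ih (G /ₘ h) (by
        rw [natDegree_divByMonic G hmon]; omega)
      refine ⟨N + 1, fun i => if i = 0 then G %ₘ h else g (i - 1), fun i => ?_, ?_⟩
      · dsimp only
        split_ifs
        · exact degree_modByMonic_lt G hmon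
        · exact hg _
      · rw [Finset.sum_range_succ']
        simp only [Nat.add_sub_cancel, pow_zero, mul_one]
        have h1 := modByMonic_add_div G h
        have h2 : ∀ i ∈ Finset.range (N + 1),
            (if i + 1 = 0 then G %ₘ h else g i) * h ^ (i + 1) = h * (g i * h ^ i) := by
          intro i _
          rw [if_neg (Nat.succ_ne_zero i), pow_succ]
          ring
        rw [Finset.sum_congr rfl h2, ← Finset.mul_sum, ← hsum, if_pos trivial, add_comm]
        exact h1.symm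

omit [IsUltrametricDist Ω] in
private lemma coeffs_map {M : Subfield Ω} (P : Polynomial M) : Coeffs M (P.map M.subtype) := by
  intro i
  rw [coeff_map]
  exact (P.coeff i).2

omit [IsUltrametricDist Ω] in
private lemma exists_lift {M : Subfield Ω} {P : Polynomial Ω} (hP : Coeffs M P) :
    ∃ P' : Polynomial M, P'.map M.subtype = P := by
  have h1 : P ∈ lifts M.subtype := by
    rw [lifts_iff_coeff_lifts]
    intro i
    exact ⟨⟨P.coeff i, hP i⟩, rfl⟩
  exact (mem_lifts P).1 h1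

/-- LD3 (good approximation of one polynomial).  `h` is as in LD2 for `b`, `‖α - b‖ < 1`, and
`‖(hasseDeriv i G) b‖ * ‖α - b‖ ^ i < ‖G b‖` for `i ≥ 1`. Then in the `h`-adic expansion
`G = ∑ g i * h ^ i` (`deg (g i) < d`, coefficients in `M`, by iterated division by the monic
polynomial `h`) the constant term dominates.
Proof.  `σ = ‖α - b‖ = ‖h α‖` (Taylor expansion at `b`, `‖h' b‖ = 1`, `σ < 1`). By `horth`, for
polynomials `g` over `M` of degree `< d` the norms of the coefficients are `≤ ‖g b‖` and `≤ ‖g α‖`, so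
`‖g b‖ = ‖g α‖ =: |g|` is the maximum of the norms of the coefficients, and all
`‖(hasseDeriv l g) b‖ ≤ |g|`. Let `μ = max |g i| σ ^ i` and suppose it is attained for some `n ≥ 1`.
The `n`-th Taylor coefficient of `G` at `b` is `g n (b) * h'(b) ^ n` plus terms from `i < n` of norm
`≤ |g i|` (terms with `i > n` do not contribute, `h` vanishes at `b`), and `|g i| σ ^ n < μ` for
`i < n` (`σ < 1`; if `σ = 0` then `n ≥ 1` is impossible unless `μ = 0`, i.e. `G = 0`), so
`‖(hasseDeriv n G) b‖ σ ^ n = μ ≥ |g 0| = ‖G b‖`, a contradiction. -/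
theorem good_of_taylor {M : Subfield Ω} {d : ℕ} {α b : Ω} {h G : Polynomial Ω}
    (horth : ∀ x : Ω, (x = α ∨ x = b) → ∀ c : Fin d → Ω, (∀ i, c i ∈ M) →
      ∀ i, ‖c i‖ ≤ ‖∑ j, c j * x ^ (j : ℕ)‖)
    (hb1 : ‖b‖ ≤ 1) (hα1 : ‖α‖ ≤ 1) (hh : Coeffs M h) (hmon : h.Monic) (hdeg : h.natDegree = d)
    (hd : 0 < d)
    (hh1 : ∀ i, ‖h.coeff i‖ ≤ 1) (hhb : h.eval b = 0) (hh' : ‖h.derivative.eval b‖ = 1)
    (hαb : ‖α - b‖ < 1) (hG : Coeffs M G) (hG0 : G ≠ 0)
    (ht : ∀ i, 1 ≤ i → ‖(hasseDeriv i G).eval b‖ * ‖α - b‖ ^ i < ‖G.eval b‖) :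
    ∃ (N : ℕ) (g : ℕ → Polynomial Ω), (∀ i, Coeffs M (g i)) ∧ (∀ i, (g i).degree < d) ∧
      G = ∑ i ∈ Finset.range (N + 1), g i * h ^ i ∧
      ∀ i, 1 ≤ i → i ≤ N → ‖(g i).eval α‖ * ‖h.eval α‖ ^ i < ‖(g 0).eval α‖ := by
  obtain ⟨G', rfl⟩ := exists_lift hG
  obtain ⟨h', rfl⟩ := exists_lift hh
  have hinj : Function.Injective M.subtype := M.subtype_injective
  have hmon' : h'.Monic := by
    exact (monic_map_iff).1 hmon
  have hdeg' : h'.natDegree = d := by rw [← hdeg, natDegree_map]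
  obtain ⟨N, g', hg', hsum'⟩ := expansion hmon' (by rw [hdeg']; exact hd) (G'.natDegree + 1) G'
    (Nat.lt_succ_self _)
  set G := G'.map M.subtype with hGdef
  set h := h'.map M.subtype with hhdef
  set g : ℕ → Polynomial Ω := fun i => (g' i).map M.subtype with hgdef
  have hgM : ∀ i, Coeffs M (g i) := fun i => coeffs_map (g' i)
  have hgd : ∀ i, (g i).degree < d := by
    intro i
    rw [hgdef]
    dsimp only
    rw [degree_map]
    have := hg' i
    rwa [degree_eq_natDegree hmon'.ne_zero, hdeg'] at this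
  have hsum : G = ∑ i ∈ Finset.range (N + 1), g i * h ^ i := by
    rw [hGdef, hsum', Polynomial.map_sum]
    apply Finset.sum_congr rfl
    intro i _
    rw [Polynomial.map_mul, Polynomial.map_pow]
  refine ⟨N, g, hgM, hgd, hsum, ?_⟩
  -- coefficients and values of polynomials of small degree
  have hcoef : ∀ i x, (x = α ∨ x = b) → ∀ j, ‖(g i).coeff j‖ ≤ ‖(g i).eval x‖ := by
    intro i x hx j
    have hnd : (g i).natDegree < d := by
      rcases eq_or_ne (g i) 0 with h0 | h0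
      · rw [h0, natDegree_zero]; exact hd
      · exact (natDegree_lt_iff_degree_lt h0).2 (hgd i)
    have hev : (g i).eval x = ∑ j : Fin d, (g i).coeff j * x ^ (j : ℕ) := by
      rw [eval_eq_sum_range' hnd, Finset.sum_range]
    rcases lt_or_ge j d with hj | hj
    · have := horth x hx (fun j : Fin d => (g i).coeff j) (fun j => hgM i j) ⟨j, hj⟩
      rw [hev]
      exact this
    · rw [coeff_eq_zero_of_natDegree_lt (hnd.trans_le hj), norm_zero]
      exact norm_nonneg _
  have hab : ∀ i, ‖(g i).eval α‖ = ‖(g i).eval b‖ := fun i =>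
    le_antisymm (bd_eval (norm_nonneg _) (hcoef i b (Or.inr rfl)) hα1)
      (bd_eval (norm_nonneg _) (hcoef i α (Or.inl rfl)) hb1)
  -- the Taylor expansion of `h`
  set σ : ℝ := ‖α - b‖ with hσ
  have hσ0 : 0 ≤ σ := norm_nonneg _
  set Q : Polynomial Ω := (taylor b h).divX with hQ
  have hTh : taylor b h = Q * X := by
    have h1 := divX_mul_X_add (taylor b h)
    rw [taylor_coeff_zero, hhb, C_0, add_zero] at h1
    exact h1.symm
  have hTb : ∀ i, ‖(taylor b h).coeff i‖ ≤ 1 := fun i => bd_taylor zero_le_one hh1 hb1 i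
  have hQb : ∀ i, ‖Q.coeff i‖ ≤ 1 := by
    intro i
    rw [hQ, coeff_divX]
    exact hTb _
  have hQ0 : ‖Q.coeff 0‖ = 1 := by
    rw [hQ, coeff_divX, zero_add, taylor_coeff_one]
    exact hh'
  have hσ1 : ‖α - b‖ ≤ 1 := hαb.le
  have hQe : ‖Q.eval (α - b)‖ = 1 := by
    have h1 := divX_mul_X_add Q
    have h2 : Q.eval (α - b) = Q.divX.eval (α - b) * (α - b) + Q.coeff 0 := by
      conv_lhs => rw [← h1]
      simp
    have h3 : ‖Q.divX.eval (α - b)‖ ≤ 1 := by
      apply bd_eval zero_le_one _ hσ1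
      intro i
      rw [coeff_divX]
      exact hQb _
    have h4 : ‖Q.divX.eval (α - b) * (α - b)‖ < ‖Q.coeff 0‖ := by
      rw [hQ0, norm_mul]
      calc ‖Q.divX.eval (α - b)‖ * ‖α - b‖ ≤ 1 * ‖α - b‖ :=
            mul_le_mul_of_nonneg_right h3 (norm_nonneg _)
        _ < 1 := by rw [one_mul]; exact hαb
    rw [h2, IsUltrametricDist.norm_add_eq_max_of_norm_ne_norm h4.ne, max_eq_right h4.le, hQ0]
  have hhα : ‖h.eval α‖ = σ := by
    have h1 : h.eval α = (taylor b h).eval (α - b) := by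
      rw [taylor_eval, sub_add_cancel]
    rw [h1, hTh, eval_mul, eval_X, norm_mul, hQe, one_mul]
  -- the value at `b`
  have hGb : G.eval b = (g 0).eval b := by
    rw [hsum, eval_finsetSum, Finset.sum_range_succ']
    have : ∑ k ∈ Finset.range N, (g (k + 1) * h ^ (k + 1)).eval b = 0 := by
      apply Finset.sum_eq_zero
      intro k _
      rw [eval_mul, eval_pow, hhb, zero_pow (Nat.succ_ne_zero k), mul_zero]
    rw [this, zero_add, pow_zero, mul_one]
  have hGpos : 0 < ‖G.eval b‖ := by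
    refine lt_of_le_of_lt ?_ (ht 1 le_rfl)
    positivity
  intro i hi1 hiN
  by_contra hcon
  rw [not_lt] at hcon
  obtain ⟨n, hn, hmax⟩ := Finset.exists_max_image (Finset.Icc 1 N)
    (fun i => ‖(g i).eval b‖ * σ ^ i) ⟨i, Finset.mem_Icc.2 ⟨hi1, hiN⟩⟩
  rw [Finset.mem_Icc] at hn
  have hv0 : ‖(g 0).eval b‖ ≤ ‖(g n).eval b‖ * σ ^ n := by
    refine le_trans ?_ (hmax i (Finset.mem_Icc.2 ⟨hi1, hiN⟩))
    rw [hab, hab, hhα] at hcon
    exact hcon
  have hμ : 0 < ‖(g n).eval b‖ * σ ^ n := by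
    refine lt_of_lt_of_le ?_ hv0
    rw [← hGb]
    exact hGpos
  have hgn : 0 < ‖(g n).eval b‖ := by
    rcases eq_or_lt_of_le (norm_nonneg ((g n).eval b)) with h0 | h0
    · rw [← h0, zero_mul] at hμ
      exact absurd hμ (lt_irrefl _)
    · exact h0
  have hσpos : 0 < σ := by
    rcases eq_or_lt_of_le hσ0 with h0 | h0
    · rw [← h0, zero_pow (by omega), mul_zero] at hμ
      exact absurd hμ (lt_irrefl _)
    · exact h0
  -- the terms
  set T : ℕ → Ω := fun i => (taylor b (g i) * (Q * X) ^ i).coeff n with hT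
  have hTi : ∀ i, T i = if i ≤ n then (taylor b (g i) * Q ^ i).coeff (n - i) else 0 := by
    intro i
    rw [hT]
    dsimp only
    rw [mul_pow, ← mul_assoc, coeff_mul_X_pow']
  have hTsum : (hasseDeriv n G).eval b = ∑ i ∈ Finset.range (N + 1), T i := by
    rw [← taylor_coeff, hsum, map_sum, finsetSum_coeff]
    apply Finset.sum_congr rfl
    intro i _
    rw [hT]
    dsimp only
    rw [taylor_mul, taylor_pow, hTh]
  have hTn : ‖T n‖ = ‖(g n).eval b‖ := by
    rw [hTi, if_pos le_rfl, Nat.sub_self, mul_coeff_zero, taylor_coeff_zero, norm_mul]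
    have : (Q ^ n).coeff 0 = Q.coeff 0 ^ n := by
      rw [coeff_zero_eq_eval_zero, coeff_zero_eq_eval_zero, eval_pow]
    rw [this, norm_pow, hQ0, one_pow, mul_one]
  have hTlt : ∀ i ∈ (Finset.range (N + 1)).erase n, ‖T i‖ < ‖T n‖ := by
    intro i hi
    rw [Finset.mem_erase, Finset.mem_range] at hi
    rw [hTn, hTi]
    split_ifs with hin
    · have hlt : i < n := lt_of_le_of_ne hin hi.1
      have h1 : ‖(taylor b (g i) * Q ^ i).coeff (n - i)‖ ≤ ‖(g i).eval b‖ :=
        bd_mul (norm_nonneg _)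
          (bd_taylor (norm_nonneg _) (hcoef i b (Or.inr rfl)) hb1) (bd_pow hQb i) _
      have h2 : ‖(g i).eval b‖ * σ ^ i ≤ ‖(g n).eval b‖ * σ ^ n := by
        rcases Nat.eq_zero_or_pos i with h0 | h0
        · rw [h0, pow_zero, mul_one]
          exact hv0
        · exact hmax i (Finset.mem_Icc.2 ⟨h0, by omega⟩)
      have h3 : ‖(g n).eval b‖ * σ ^ n < ‖(g n).eval b‖ * σ ^ i :=
        mul_lt_mul_of_pos_left (pow_lt_pow_right_of_lt_one₀ hσpos hαb hlt) hgn
      have h4 : ‖(g i).eval b‖ < ‖(g n).eval b‖ :=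
        lt_of_mul_lt_mul_right (h2.trans_lt h3) (by positivity)
      exact h1.trans_lt h4
    · rw [norm_zero]; exact hgn
  have hrest : ‖∑ i ∈ (Finset.range (N + 1)).erase n, T i‖ < ‖T n‖ := by
    rcases ((Finset.range (N + 1)).erase n).eq_empty_or_nonempty with h0 | h0
    · rw [h0, Finset.sum_empty, norm_zero, hTn]
      exact hgn
    · obtain ⟨j, hj, hle⟩ := IsUltrametricDist.exists_norm_finsetSum_le_of_nonempty h0 T
      exact hle.trans_lt (hTlt j hj)
  have hD : ‖(hasseDeriv n G).eval b‖ = ‖(g n).eval b‖ := by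
    rw [hTsum, ← Finset.add_sum_erase _ _ (Finset.mem_range.2 (by omega : n < N + 1)),
      IsUltrametricDist.norm_add_eq_max_of_norm_ne_norm hrest.ne', max_eq_left hrest.le, hTn]
  have hfin := ht n hn.1
  rw [hD, hGb] at hfin
  exact absurd hfin (not_lt.2 hv0)

end MP1a953e
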