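import Pool.Agent.Lib.MP_1a953e_ag.LD2
import Pool.Agent.Lib.MP_1a953e_ag.LD3
import Pool.Agent.Lib.MP_1a953e_ag.Calc1

/-!
# Module LD4: simultaneous approximation
-/

namespace MP1a953e

open Polynomial

variable {Ω : Type*} [NormedField Ω] [IsUltrametricDist Ω]

private theorem sub_le_max' (x y : Ω) : ‖x - y‖ ≤ max ‖x‖ ‖y‖ := by
  rw [sub_eq_add_neg, ← norm_neg y]
  exact IsUltrametricDist.norm_add_le_max _ _

/-- polynomials with integral coefficients are Lipschitz on the unit ball -/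
private theorem eval_sub_le {q : Polynomial Ω} (hq : ∀ i, ‖q.coeff i‖ ≤ 1) {x y : Ω}
    (hx : ‖x‖ ≤ 1) (hy : ‖y‖ ≤ 1) : ‖q.eval x - q.eval y‖ ≤ ‖x - y‖ := by
  have hpow : ∀ n : ℕ, ‖x ^ n - y ^ n‖ ≤ ‖x - y‖ := by
    intro n
    induction n with
    | zero => simp
    | succ n ih =>
      have e : x ^ (n + 1) - y ^ (n + 1) = x ^ n * (x - y) + (x ^ n - y ^ n) * y := by ring
      rw [e]
      refine (IsUltrametricDist.norm_add_le_max _ _).trans (max_le ?_ ?_)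
      · rw [norm_mul, norm_pow]
        exact mul_le_of_le_one_left (norm_nonneg _) (pow_le_one₀ (norm_nonneg _) hx)
      · rw [norm_mul]
        exact (mul_le_of_le_one_right (norm_nonneg _) hy).trans ih
  rw [eval_eq_sum_range, eval_eq_sum_range, ← Finset.sum_sub_distrib]
  refine IsUltrametricDist.norm_sum_le_of_forall_le_of_nonneg (norm_nonneg _) fun i _ => ?_
  rw [← mul_sub, norm_mul]
  exact (mul_le_of_le_one_left (norm_nonneg _) (hq i)).trans (hpow i)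

private theorem derivative_coeff_le {q : Polynomial Ω} (hq : ∀ i, ‖q.coeff i‖ ≤ 1) (i : ℕ) :
    ‖q.derivative.coeff i‖ ≤ 1 := by
  rw [coeff_derivative, norm_mul]
  have h1 : ‖((i : Ω) + 1)‖ ≤ 1 := by
    have h2 := IsUltrametricDist.norm_natCast_le_one Ω (i + 1)
    rwa [Nat.cast_add, Nat.cast_one] at h2
  exact mul_le_one₀ (hq _) (norm_nonneg _) h1

/-- LD4 (simultaneous approximation).  Proof: let `ρ` be the minimum of `1` and all `‖α - β‖` (`β` a root of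
some `G ∈ S`), so `ρ > infDist α F`; by density (`adj (k' ⊔ κ0) a` is dense in `F`, since it contains
`k'` and `κ`) choose `b ∈ adj (k' ⊔ κ0) a` with `‖α - b‖ < ρ`, `h` from LD2; use `taylor_lt` and
LD3 (`orth_pow` for `x = α` and `x = b`); `‖h' α‖ = ‖h' b‖` and `‖h α‖ = ‖α - b‖ < 1`. -/
theorem approx_omega [IsAlgClosed Ω] {k0 k' κ0 κ F K : Subfield Ω} (hG : Gs k0 k' κ F)
    (hFK : F ≤ K) (hK : IsComplete (K : Set Ω)) (h0 : k0 ≤ κ0)
    (hfg : ∃ s : Finset Ω, κ0 = k0 ⊔ Subfield.closure (s : Set Ω)) {a α : Ω}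
    (hκ : κ = adj κ0 a) (hsep : IsSeparable κ0 a) (hα : α ∈ K) (hαa : ‖α - a‖ < 1)
    (hdist : Metric.infDist α (F : Set Ω) < 1)
    (S : Finset (Polynomial Ω)) (hS : ∀ G ∈ S, G ≠ 0 ∧ Coeffs (k' ⊔ κ0) G)
    (hroots : ∀ G ∈ S, ∀ β ∈ G.roots, Metric.infDist α (F : Set Ω) < ‖α - β‖) :
    ∃ h : Polynomial Ω, Coeffs (k' ⊔ κ0) h ∧ h.Monic ∧
      h.natDegree = (minpoly κ0 a).natDegree ∧ (∀ i, ‖h.coeff i‖ ≤ 1) ∧
      ‖h.derivative.eval α‖ = 1 ∧ ‖h.eval α‖ < 1 ∧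
      ∀ G ∈ S, ∃ (N : ℕ) (g : ℕ → Polynomial Ω), (∀ i, Coeffs (k' ⊔ κ0) (g i)) ∧
        (∀ i, (g i).degree < (minpoly κ0 a).natDegree) ∧
        G = ∑ i ∈ Finset.range (N + 1), g i * h ^ i ∧
        ∀ i, 1 ≤ i → i ≤ N → ‖(g i).eval α‖ * ‖h.eval α‖ ^ i < ‖(g 0).eval α‖ := by
  classical
  -- the bound
  obtain ⟨ρ, hρd, hρ1, hρr⟩ : ∃ ρ : ℝ, Metric.infDist α (F : Set Ω) < ρ ∧ ρ ≤ 1 ∧
      ∀ G ∈ S, ∀ β ∈ G.roots, ρ ≤ ‖α - β‖ := by
    let R : Finset ℝ := insert 1 ((S.biUnion fun G => G.roots.toFinset).image fun β => ‖α - β‖)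
    have hR : R.Nonempty := ⟨1, Finset.mem_insert_self _ _⟩
    refine ⟨R.min' hR, ?_, Finset.min'_le _ _ (Finset.mem_insert_self _ _), ?_⟩
    · rw [Finset.lt_min'_iff]
      intro x hx
      rcases Finset.mem_insert.1 hx with rfl | hx
      · exact hdist
      · obtain ⟨β, hβ, rfl⟩ := Finset.mem_image.1 hx
        obtain ⟨G, hG', hβ'⟩ := Finset.mem_biUnion.1 hβ
        exact hroots G hG' β (Multiset.mem_toFinset.1 hβ')
    · intro G hG' β hβ
      refine Finset.min'_le _ _ (Finset.mem_insert_of_mem (Finset.mem_image.2 ⟨β, ?_, rfl⟩))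
      exact Finset.mem_biUnion.2 ⟨G, hG', Multiset.mem_toFinset.2 hβ⟩
  have hρ0 : 0 < ρ := Metric.infDist_nonneg.trans_lt hρd
  -- the approximation
  have hne : (F : Set Ω).Nonempty := ⟨0, F.zero_mem⟩
  obtain ⟨f, hf, hfρ⟩ := (Metric.infDist_lt_iff hne).1 hρd
  rw [dist_eq_norm] at hfρ
  obtain ⟨b, hbc, hbρ⟩ := hG.dense f hf ρ hρ0
  have hαb : ‖α - b‖ < ρ := by
    have e : α - b = (α - f) + (f - b) := by ring
    rw [e]
    exact (IsUltrametricDist.norm_add_le_max _ _).trans_lt (max_lt hfρ hbρ)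
  have hαb1 : ‖α - b‖ < 1 := hαb.trans_le hρ1
  have hkK : k' ≤ K := hG.k_le.trans hFK
  have hκK : κ ≤ K := hG.κ_le.trans hFK
  have hb : b ∈ adj (k' ⊔ κ0) a := by
    have h1 : Subring.closure ((k' : Set Ω) ∪ κ) ≤ (adj (k' ⊔ κ0) a).toSubring := by
      rw [Subring.closure_le]
      rintro x (hx | hx)
      · exact le_adj (k' ⊔ κ0) a ((le_sup_left : k' ≤ k' ⊔ κ0) hx)
      · have hx' : x ∈ κ := hx
        rw [hκ] at hx'
        exact adj_le ((le_sup_right : κ0 ≤ k' ⊔ κ0).trans (le_adj _ a)) (mem_adj_self _ a) hx'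
    exact h1 hbc
  have ha : a ∈ κ := by rw [hκ]; exact mem_adj_self _ a
  have ha1 : ‖a‖ ≤ 1 := by
    by_cases h : a = 0
    · rw [h, norm_zero]; exact zero_le_one
    · exact (hG.triv a ha h).le
  have hα1 : ‖α‖ ≤ 1 := by
    have e : α = (α - a) + a := by ring
    rw [e]
    exact (IsUltrametricDist.norm_add_le_max _ _).trans (max_le hαa.le ha1)
  have hba : ‖b - a‖ < 1 := by
    have e : b - a = (α - a) - (α - b) := by ring
    rw [e]
    exact (sub_le_max' _ _).trans_lt (max_lt hαa hαb1)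
  have hb1 : ‖b‖ ≤ 1 := by
    have e : b = (b - a) + a := by ring
    rw [e]
    exact (IsUltrametricDist.norm_add_le_max _ _).trans (max_le hba.le ha1)
  obtain ⟨h, hhM, hmon, hdeg, hh1, hhb, hh'⟩ := exists_h hG.ground h0 hfg hκ hG.triv hsep hK hkK
    hκK hb hba
  have hd : 0 < (minpoly κ0 a).natDegree := minpoly.natDegree_pos hsep.isIntegral
  refine ⟨h, hhM, hmon, hdeg, hh1, ?_, ?_, ?_⟩
  · have h1 := eval_sub_le (derivative_coeff_le hh1) hα1 hb1
    have h2 : ‖h.derivative.eval α - h.derivative.eval b‖ < 1 := h1.trans_lt hαb1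
    have e : h.derivative.eval α = (h.derivative.eval α - h.derivative.eval b) +
        h.derivative.eval b := by ring
    rw [e, IsUltrametricDist.norm_add_eq_max_of_norm_ne_norm (by rw [hh']; exact h2.ne), hh']
    exact max_eq_right h2.le
  · have h1 := eval_sub_le hh1 hα1 hb1
    rw [hhb, sub_zero] at h1
    exact h1.trans_lt hαb1
  · intro G hGS
    obtain ⟨hG0, hGM⟩ := hS G hGS
    refine good_of_taylor (M := k' ⊔ κ0) (d := (minpoly κ0 a).natDegree) (b := b) ?_ hb1 hα1 hhM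
      hmon hdeg hd hh1 hhb hh' hαb1 hGM hG0 ?_
    · intro x hx c hc i
      have hxa : ‖x - a‖ < 1 := by
        rcases hx with rfl | rfl
        · exact hαa
        · exact hba
      exact orth_pow hG.ground h0 hfg hκ hG.triv hsep hK hkK hκK hxa c hc i
    · intro i hi
      exact taylor_lt hG0 (hρr G hGS) hαb i hi


end MP1a953e
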