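import Pool.Agent.Lib.MP_1a953e_ag.LD4
import Pool.Agent.Lib.MP_1a953e_ag.EmbDefs

/-!
# Module LD5: transport to L
-/

namespace MP1a953e

open Polynomial IsLocalRing

universe v

private theorem ld5_map_adjoin {k L Ω : Type*} [NormedField k] [NormedField L]
    [NormedAlgebra k L] [NormedField Ω] (ι : L →+* Ω) (s : Set L) :
    (IntermediateField.adjoin k s).toSubfield.map ι =
      kO k ι ⊔ Subfield.closure (ι '' s) := by
  have h1 : (IntermediateField.adjoin k s).toSubfield =
      Subfield.closure (Set.range (algebraMap k L) ∪ s) := rfl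
  rw [h1, RingHom.map_field_closure, Set.image_union, Subfield.closure_union]
  congr 1
  rw [← Set.range_comp]
  apply le_antisymm
  · rw [Subfield.closure_le]
    rintro x ⟨c, rfl⟩
    exact ⟨c, rfl⟩
  · rintro x ⟨c, rfl⟩
    exact Subfield.subset_closure ⟨c, rfl⟩

private theorem ld5_kU {k L Ω : Type*} [NormedField k] [NormedField L]
    [NormedAlgebra k L] [NormedField Ω] (ι : L →+* Ω) {m : ℕ} (u : Fin m → L) :
    kO k ι ⊔ Subfield.closure (Set.range fun i => ι (u i)) =
      (IntermediateField.adjoin k (Set.range u)).toSubfield.map ι := by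
  rw [ld5_map_adjoin]
  congr 2
  ext x
  simp

private theorem ld5_adj {k L Ω : Type*} [NormedField k] [NormedField L]
    [NormedAlgebra k L] [NormedField Ω] (ι : L →+* Ω) {m : ℕ} (u : Fin m → L) (α : L) :
    adj (kO k ι ⊔ Subfield.closure (Set.range fun i => ι (u i))) (ι α) =
      (IntermediateField.adjoin k (Set.range u ∪ {α})).toSubfield.map ι := by
  rw [ld5_map_adjoin, adj, sup_assoc, ← Subfield.closure_union]
  congr 2
  ext x
  simp [eq_comm (a := x)]

/-- pulling back polynomials -/
private theorem ld5_pull {k L Ω : Type*} [NormedField k] [NormedField L]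
    [NormedAlgebra k L] [NormedField Ω] (ι : L →+* Ω) (M : IntermediateField k L)
    (P : Polynomial Ω) (hP : Coeffs (M.toSubfield.map ι) P) :
    ∃ Q : Polynomial L, CoeffsIn M Q ∧ Q.map ι = P := by
  have h1 : P ∈ Polynomial.lifts (ι.comp (algebraMap M L)) := by
    rw [Polynomial.lifts_iff_coeff_lifts]
    intro i
    obtain ⟨x, hx, hxi⟩ := Subfield.mem_map.1 (hP i)
    exact ⟨⟨x, hx⟩, hxi⟩
  obtain ⟨Q, hQ⟩ := (Polynomial.mem_lifts _).1 h1
  refine ⟨Q.map (algebraMap M L), fun i => ?_, ?_⟩
  · rw [coeff_map]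
    exact (Q.coeff i).2
  · rw [Polynomial.map_map, hQ]

/-- `α` is transcendental over `k(u)` -/
private theorem ld5_trans {k L : Type v} [NontriviallyNormedField k]
    [NormedField L] [NormedAlgebra k L] {m : ℕ} (u : Fin m → L)
    (hgauss : ∀ (P : MvPolynomial (Fin m) k) (s), ‖P.coeff s‖ ≤ ‖MvPolynomial.aeval u P‖)
    (htr : Algebra.trdeg k L = m + 1) (α : L)
    (hsepL : Algebra.IsSeparable (IntermediateField.adjoin k (Set.range u ∪ {α})) L) :
    Transcendental (IntermediateField.adjoin k (Set.range u)) α := by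
  intro hα
  have hu : AlgebraicIndependent k u := by
    rw [algebraicIndependent_iff]
    intro P hP
    ext t
    have := hgauss P t
    rw [hP, norm_zero] at this
    simpa using norm_le_zero_iff.1 this
  set M := IntermediateField.adjoin k (Set.range u) with hM
  have h1 : Algebra.IsAlgebraic M L := by
    have hN : Algebra.IsAlgebraic M (IntermediateField.adjoin M {α}) :=
      IntermediateField.isAlgebraic_adjoin_simple hα.isIntegral
    have hNL : Algebra.IsAlgebraic (IntermediateField.adjoin M {α}) L := by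
      constructor
      intro x
      have hx : IsAlgebraic (IntermediateField.adjoin k (Set.range u ∪ {α})) x :=
        (hsepL.isSeparable' x).isIntegral.isAlgebraic
      have heq : (IntermediateField.adjoin M {α}).restrictScalars k =
          IntermediateField.adjoin k (Set.range u ∪ {α}) :=
        IntermediateField.adjoin_adjoin_left _ _ _
      rw [← heq] at hx
      exact hx
    exact Algebra.IsAlgebraic.trans M (IntermediateField.adjoin M {α}) L
  have h2 : Algebra.IsAlgebraic (Algebra.adjoin k (Set.range u)) L :=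
    IntermediateField.isAlgebraic_adjoin_iff_top.1 h1
  have h3 : IsTranscendenceBasis k u := hu.isTranscendenceBasis_iff_isAlgebraic.2 h2
  have h4 := h3.lift_cardinalMk_eq_trdeg
  rw [htr] at h4
  simp only [Cardinal.mk_fin, Cardinal.lift_natCast, Cardinal.lift_add, Cardinal.lift_one] at h4
  have h5 : ((m : ℕ) : Cardinal.{v}) = ((m + 1 : ℕ) : Cardinal.{v}) := by
    push_cast
    exact h4
  have := Nat.cast_injective h5
  omega

/-- LD5 (transport to `L`).  The hypotheses collect everything about `α`; `κ0 = k0(ι u)`. Proof: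
`ι` maps `k(u)` onto `kO k ι ⊔ κ0` and `k(u, α)` onto `adj (kO k ι ⊔ κ0) (ι α)`.  `gauss`: given.
`orth`: `orth_pow` with `x = ι α`. `trans`: `trdeg (L/k) = m + 1`, `L` algebraic over `k(u, α)`. `fin`: `L` is
finitely generated and algebraic over `k(u, α)`. `approx`: `approx_omega`; the roots `β` of a nonzero
polynomial over `kO k ι ⊔ κ0` are algebraic over `F`, so in the case `TT F (ι α)` use `TT.nb`; in the
other case `infDist (ι α) F = 0` and `ι α` is not a root, by transcendence; `h` and the `g i` have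
coefficients in the image of `ι`. -/
theorem lu_data {k L Ω : Type v} [NontriviallyNormedField k] [IsUltrametricDist k]
    [NormedField L] [IsUltrametricDist L] [NormedAlgebra k L]
    [NormedField Ω] [IsUltrametricDist Ω] [IsAlgClosed Ω] {ι : L →+* Ω} {K F k0 : Subfield Ω}
    (hE : Emb ι K) {m : ℕ} (u : Fin m → L) (hu1 : ∀ i, ‖u i‖ ≤ 1) {a : Ω} {κ κ0 : Subfield Ω}
    (hκ0 : κ0 = k0 ⊔ Subfield.closure (Set.range fun i => ι (u i))) (hκ : κ = adj κ0 a)
    (hsep : IsSeparable κ0 a) (hG : Gs k0 (kO k ι) κ F) (hFK : F ≤ K)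
    (hgauss : ∀ (P : MvPolynomial (Fin m) k) (s), ‖P.coeff s‖ ≤ ‖MvPolynomial.aeval u P‖)
    (hfg : (⊤ : IntermediateField k L).FG) (htr : Algebra.trdeg k L = m + 1) (α : L)
    (hα : ‖ι α - a‖ < 1) (hdist : Metric.infDist (ι α) (F : Set Ω) < 1)
    (hsepL : Algebra.IsSeparable (IntermediateField.adjoin k (Set.range u ∪ {α})) L)
    (hdense : DenseIn (adj (kO k ι ⊔ κ0) (ι α)) K)
    (hcase : TT F (ι α) ∨ ι α ∈ F) :
    LUData k (minpoly κ0 a).natDegree u α := by
  have hk0 : k0 ≤ kO k ι := hG.ground.le
  have hkκ : kO k ι ⊔ κ0 = kO k ι ⊔ Subfield.closure (Set.range fun i => ι (u i)) := by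
    rw [hκ0, ← sup_assoc, sup_eq_left.2 hk0]
  have h0 : k0 ≤ κ0 := by
    rw [hκ0]
    exact le_sup_left
  have hfg0 : ∃ s : Finset Ω, κ0 = k0 ⊔ Subfield.closure (s : Set Ω) := by
    classical
    refine ⟨Finset.univ.image fun i => ι (u i), ?_⟩
    rw [hκ0]
    simp
  have haκ : a ∈ κ := hκ ▸ mem_adj_self κ0 a
  have hκ0κ : κ0 ≤ κ := hκ ▸ le_adj κ0 a
  have ha1 : ‖a‖ ≤ 1 := by
    rcases eq_or_ne a 0 with h | h
    · rw [h, norm_zero]
      exact zero_le_one
    · exact (hG.triv a haκ h).le
  have hUF : kO k ι ⊔ κ0 ≤ F := sup_le hG.k_le (hκ0κ.trans hG.κ_le)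
  have htrans := ld5_trans u hgauss htr α hsepL
  rw [hkκ] at hdense
  have hkU := ld5_kU (k := k) ι u
  have hkUα := ld5_adj (k := k) ι u α
  set M := IntermediateField.adjoin k (Set.range u) with hM
  have hmemU : ∀ x ∈ M, ι x ∈ kO k ι ⊔ κ0 := by
    intro x hx
    rw [hkκ, hkU]
    exact Subfield.mem_map.2 ⟨x, hx, rfl⟩
  refine ⟨hgauss, hu1, ?_, minpoly.natDegree_pos hsep.isIntegral, fun c hc i => ?_, htrans,
    hsepL, ?_, ?_, ?_⟩
  · have h1 : ι α = (ι α - a) + a := by ring
    rw [← hE.norm, h1]
    exact (IsUltrametricDist.norm_add_le_max _ _).trans (max_le hα.le ha1)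
  · have h1 := orth_pow hG.ground h0 hfg0 hκ hG.triv hsep hE.complete (hG.k_le.trans hFK)
      (hG.κ_le.trans hFK) hα (fun i => ι (c i)) (fun i => hmemU _ (hc i)) i
    rw [← hE.norm, ← hE.norm, map_sum]
    simp only [map_mul, map_pow]
    exact h1
  · have : Algebra.EssFiniteType k L := IntermediateField.fg_top_iff.1 hfg
    have : Algebra.EssFiniteType (IntermediateField.adjoin k (Set.range u ∪ {α})) L :=
      Algebra.EssFiniteType.of_comp k _ L
    exact Algebra.finite_of_essFiniteType_of_isAlgebraic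
  · intro x ε hε
    obtain ⟨y, hy, hxy⟩ := hdense.2 (ι x) (hE.mem x) ε hε
    rw [hkUα] at hy
    obtain ⟨z, hz, rfl⟩ := Subfield.mem_map.1 hy
    refine ⟨z, hz, ?_⟩
    rw [← hE.norm, map_sub]
    exact hxy
  · intro S hS
    classical
    have hinj : Function.Injective (Polynomial.map ι) := Polynomial.map_injective ι ι.injective
    obtain ⟨h', hh', hmon, hdeg, hnorm, hder, hev, hgood⟩ := approx_omega hG hFK hE.complete h0 hfg0 hκ hsep
      (hE.mem α) hα hdist (S.image (Polynomial.map ι))
      (by
        intro G hG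
        obtain ⟨G0, hG0, rfl⟩ := Finset.mem_image.1 hG
        refine ⟨(Polynomial.map_ne_zero_iff ι.injective).2 (hS G0 hG0).1, fun i => ?_⟩
        rw [coeff_map]
        exact hmemU _ ((hS G0 hG0).2 i))
      (by
        intro G hG β hβ
        obtain ⟨G0, hG0, rfl⟩ := Finset.mem_image.1 hG
        obtain ⟨hG00, hG0c⟩ := hS G0 hG0
        have hroot : (G0.map ι).eval β = 0 := (mem_roots'.1 hβ).2
        rcases hcase with hT | hF
        · refine hT.nb β ?_
          have hl : G0.map ι ∈ Polynomial.lifts (algebraMap F Ω) := by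
            rw [Polynomial.lifts_iff_coeff_lifts]
            intro i
            rw [coeff_map]
            exact ⟨⟨_, hUF (hmemU _ (hG0c i))⟩, rfl⟩
          obtain ⟨Q, hQ⟩ := (Polynomial.mem_lifts _).1 hl
          refine ⟨Q, ?_, ?_⟩
          · rintro rfl
            rw [Polynomial.map_zero] at hQ
            exact (Polynomial.map_ne_zero_iff ι.injective).2 hG00 hQ.symm
          · rw [aeval_def, ← eval_map, hQ, hroot]
        · rw [Metric.infDist_zero_of_mem hF, norm_pos_iff, sub_ne_zero]
          rintro rfl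
          rw [eval_map, eval₂_hom, map_eq_zero] at hroot
          apply htrans
          have hl : G0 ∈ Polynomial.lifts (algebraMap M L) := by
            rw [Polynomial.lifts_iff_coeff_lifts]
            intro i
            exact ⟨⟨_, hG0c i⟩, rfl⟩
          obtain ⟨Q, hQ⟩ := (Polynomial.mem_lifts _).1 hl
          refine ⟨Q, ?_, ?_⟩
          · rintro rfl
            rw [Polynomial.map_zero] at hQ
            exact hG00 hQ.symm
          · rw [aeval_def, ← eval_map, hQ, hroot])
    rw [hkκ, hkU] at hh'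
    obtain ⟨h, hh, rfl⟩ := ld5_pull ι M h' hh'
    have hnc : ∀ P : Polynomial L, ‖(P.map ι).eval (ι α)‖ = ‖P.eval α‖ := by
      intro P
      rw [eval_map, eval₂_hom, hE.norm]
    refine ⟨h, hh, ?_, ?_, fun i => ?_, ?_, ?_, fun G hG => ?_⟩
    · exact Polynomial.monic_of_injective ι.injective hmon
    · rw [← hdeg, natDegree_map_eq_of_injective ι.injective]
    · have := hnorm i
      rwa [coeff_map, hE.norm] at this
    · rw [derivative_map, hnc] at hder
      exact hder
    · rw [hnc] at hev
      exact hev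
    · obtain ⟨N, g', hg'c, hg'd, hGe, hg'n⟩ := hgood _ (Finset.mem_image_of_mem _ hG)
      rw [hkκ, hkU] at hg'c
      choose g hgc hg using fun i => ld5_pull ι M (g' i) (hg'c i)
      refine ⟨N, g, hgc, fun i => ?_, ?_, fun i h1 h2 => ?_⟩
      · have := hg'd i
        rwa [← hg i, degree_map_eq_of_injective ι.injective] at this
      · apply hinj
        rw [hGe, Polynomial.map_sum]
        refine Finset.sum_congr rfl fun i _ => ?_
        rw [Polynomial.map_mul, Polynomial.map_pow, hg]
      · have := hg'n i h1 h2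
        rwa [← hg i, ← hg 0, hnc, hnc, hnc] at this

end MP1a953e
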