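import Pool.Agent.Lib.MP_1a953e_ag.LD5
import Pool.Agent.Lib.MP_1a953e_ag.Desc4
import Pool.Agent.Lib.MP_1a953e_ag.GP7
import Pool.Agent.Lib.MP_1a953e_ag.Em1
import Pool.Agent.Lib.MP_1a953e_ag.Em2
import Pool.Agent.Lib.MP_1a953e_ag.Em3
import Pool.Agent.Lib.MP_1a953e_ag.Em4
import Pool.Agent.Lib.MP_1a953e_ag.Em5
import Pool.Agent.Lib.MP_1a953e_ag.Em6
import Pool.Agent.Lib.MP_1a953e_ag.Em7
import Pool.Agent.Lib.MP_1a953e_ag.Em8
import Pool.Agent.Lib.MP_1a953e_ag.Em9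
import Pool.Agent.Lib.MP_1a953e_ag.Em10

/-!
# Module LD6: henselian rationality
-/

namespace MP1a953e

open Polynomial IsLocalRing

universe v

private theorem ld6_closed_of_dense {Ω : Type*} [NormedField Ω] {F K : Subfield Ω}
    (hF : IsComplete (F : Set Ω)) (hd : DenseIn F K) : K ≤ F := by
  intro x hx
  have h2 : x ∈ closure (F : Set Ω) := by
    rw [Metric.mem_closure_iff]
    intro ε hε
    obtain ⟨a, ha, h3⟩ := hd.2 x hx ε hε
    exact ⟨a, ha, by rw [dist_eq_norm]; exact h3⟩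
  rw [hF.isClosed.closure_eq] at h2
  exact h2

private theorem ld6_small {k : Type*} [NontriviallyNormedField k] {B : ℝ} (hB : 0 < B) :
    ∃ c : k, c ≠ 0 ∧ ‖c‖ < B := by
  obtain ⟨c, h1, h2⟩ := NormedField.exists_norm_lt k hB
  exact ⟨c, norm_pos_iff.1 h1, h2⟩

/-- LD6 (henselian rationality).  Proof: `exists_emb` gives `Ω`, `ι`, `K`; `CharP Ω p`; `exists_ground`,
`exists_kappa`, `exists_gs`, `imm_of_gs`, `gauss_u`, `pindep_u`, `exists_T`, `exists_P₀`,
`gs_good`. If `ι T ∉ F`: `hr_class` gives `Y ∈ K`, `Y ∉ F`, `F(Y)` dense in `K`; choose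
`0 ≠ c ∈ k` small, `α₀ ∈ L` close to `a + c Y`, and `α` by `exists_alpha_sep`;
`dense_of_close`; `ι α ∉ F` (otherwise `F` would be dense in `K ∋ Y`), so `TT F (ι α)` by `tt_of_class`;
`infDist (ι α) F ≤ ‖ι α - a‖ < 1`. If `ι T ∈ F`, then `P₀ = F` (`F` is complete) and
every element of `K` is separable algebraic over `F`, so `K = F` by `am_sep` (or `am`); choose `α₀` close
to `a`. -/
theorem exists_luData {p : ℕ} [Fact p.Prime] {k L : Type v} [NontriviallyNormedField k]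
    [IsUltrametricDist k] [IsAlgClosed k] [CharP k p] [NormedField L] [IsUltrametricDist L]
    [NormedAlgebra k L] (hfg : (⊤ : IntermediateField k L).FG)
    (hval : ∀ x : L, ∃ c : k, ‖c‖ = ‖x‖) {m : ℕ} (htr : Algebra.trdeg k L = m + 1)
    (hres : Algebra.trdeg (ResidueField (O k)) (ResidueField (O L)) = m)
    (hess : Algebra.EssFiniteType (ResidueField (O k)) (ResidueField (O L))) :
    ∃ (d : ℕ) (u : Fin m → L) (α : L), LUData k d u α := by
  have hnt : ∃ x : L, 1 < ‖x‖ := by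
    obtain ⟨c, hc⟩ := NormedField.exists_one_lt_norm k
    exact ⟨algebraMap k L c, by rw [norm_algebraMap']; exact hc⟩
  obtain ⟨Ω, instΩ, hU, hA, ι, K, hE⟩ := exists_emb L hnt
  have hcharL : CharP L p := charP_of_injective_algebraMap (algebraMap k L).injective p
  have hchar : CharP Ω p := charP_of_injective_ringHom ι.injective p
  have hkc : IsAlgClosed (kO k ι) := by
    have e : k ≃+* (ι.comp (algebraMap k L)).fieldRange :=
      RingEquiv.ofBijective (ι.comp (algebraMap k L)).rangeRestrictField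
        ⟨(ι.comp (algebraMap k L)).rangeRestrictField.injective,
          (ι.comp (algebraMap k L)).rangeRestrictField_bijective.2⟩
    exact IsAlgClosed.of_ringEquiv k _ e
  have hmemk : ∀ c : k, ι (algebraMap k L c) ∈ kO k ι := fun c => ⟨c, rfl⟩
  have hknorm : ∀ c : k, ‖ι (algebraMap k L c)‖ = ‖c‖ := fun c => by
    rw [hE.norm, norm_algebraMap']
  have hknt : ∃ x ∈ kO k ι, 1 < ‖x‖ := by
    obtain ⟨c, hc⟩ := NormedField.exists_one_lt_norm k
    exact ⟨_, hmemk c, by rw [hknorm]; exact hc⟩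
  obtain ⟨k0, hg⟩ := exists_ground (p := p) (kO k ι) hkc hknt
  obtain ⟨u, a, hu1, haK, hai, hsep, htriv, hresK⟩ := exists_kappa hE hg hres hess
  obtain ⟨κ0, hκ0⟩ : ∃ κ0, κ0 = k0 ⊔ Subfield.closure (Set.range fun i => ι (u i)) := ⟨_, rfl⟩
  obtain ⟨κ, hκ⟩ : ∃ κ, κ = adj κ0 a := ⟨_, rfl⟩
  have hkK : kO k ι ≤ K := by
    rintro x ⟨c, rfl⟩
    exact hE.mem _
  have hk0κ0 : k0 ≤ κ0 := by rw [hκ0]; exact le_sup_left
  have hκ0κ : κ0 ≤ κ := by rw [hκ]; exact le_adj _ _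
  have hk0κ : k0 ≤ κ := hk0κ0.trans hκ0κ
  have huκ0 : ∀ i, ι (u i) ∈ κ0 := fun i => by
    rw [hκ0]
    exact (le_sup_right : Subfield.closure (Set.range fun i => ι (u i)) ≤ _)
      (Subfield.subset_closure ⟨i, rfl⟩)
  have hκ0K : κ0 ≤ K := by
    rw [hκ0]
    refine sup_le (hg.le.trans hkK) (Subfield.closure_le.2 ?_)
    rintro x ⟨i, rfl⟩
    exact hE.mem _
  have hκK : κ ≤ K := by rw [hκ]; exact adj_le hκ0K haK
  rw [← hκ0] at hsep htriv hresK
  rw [← hκ] at htriv hresK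
  have haκ : a ∈ κ := by rw [hκ]; exact mem_adj_self _ _
  have hfgκ0 : ∃ s : Finset Ω, κ0 = k0 ⊔ Subfield.closure (s : Set Ω) := by
    classical
    refine ⟨Finset.univ.image fun i => ι (u i), ?_⟩
    rw [hκ0]
    congr 2
    ext x
    simp
  have hfgκ : ∃ s : Finset Ω, κ = k0 ⊔ Subfield.closure (s : Set Ω) := by
    classical
    obtain ⟨s, hs⟩ := hfgκ0
    refine ⟨insert a s, ?_⟩
    rw [hκ, adj, hs, sup_assoc, ← Subfield.closure_union]
    congr 2
    ext x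
    simp
  obtain ⟨F, hG, hFK⟩ := exists_gs hg hk0κ htriv hfgκ hE.complete hkK hκK
  have hvalK : ∀ x ∈ K, ∃ c ∈ kO k ι, ‖c‖ = ‖x‖ := by
    intro x hx
    by_cases hx0 : x = 0
    · exact ⟨0, (kO k ι).zero_mem, by rw [hx0]⟩
    · obtain ⟨l, hl⟩ := hE.dense x hx ‖x‖ (norm_pos_iff.2 hx0)
      have h1 : ‖ι l‖ = ‖x‖ := by
        have h3 : ‖x - ι l‖ ≠ ‖x‖ := ne_of_lt hl
        have h4 : ι l = x + -(x - ι l) := by ring
        rw [h4, IsUltrametricDist.norm_add_eq_max_of_norm_ne_norm (by rw [norm_neg]; exact h3.symm),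
          norm_neg]
        exact max_eq_left hl.le
      obtain ⟨c, hc⟩ := hval l
      exact ⟨_, hmemk c, by rw [hknorm, hc, ← hE.norm, h1]⟩
  have hI : Imm F K := imm_of_gs hG hFK hvalK hresK
  have hgauss := fun (P : MvPolynomial (Fin m) k) (s : Fin m →₀ ℕ) =>
    gauss_u hE hg hk0κ htriv u (fun i => hκ0κ (huκ0 i)) hai P s
  have hpind := pindep_u (p := p) hE hval hg hk0κ htriv u (a := a) (by rw [hκ, hκ0])
    (by rw [← hκ0]; exact hsep) hai hresK
  obtain ⟨T, hT⟩ := exists_T (p := p) u hgauss hpind hfg htr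
  have hkF : kO k ι ≤ F := hG.k_le
  have huF : ∀ i, ι (u i) ∈ F := fun i => hG.κ_le (hκ0κ (huκ0 i))
  obtain ⟨P₀, hPc, hPd, hPK, E, hfinE, hsepE, hEK⟩ := exists_P₀ hE hkF hFK u huF T hT hfg
  have hgood : GoodClass p k0 (kO k ι) (Gs k0 (kO k ι)) := gs_good k0 (kO k ι)
  have haF : a ∈ F := hG.κ_le haκ
  have hclF : IsClosed (F : Set Ω) := hG.complete.isClosed
  by_cases hTF : ι T ∈ F
  · -- `K = F`
    have hadj : adj F (ι T) = F := le_antisymm (adj_le le_rfl hTF) (le_adj F _)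
    rw [hadj] at hPd
    have hPF : P₀ = F := le_antisymm (ld6_closed_of_dense hG.complete hPd) hPd.1
    subst hPF
    have hKF : K ≤ P₀ := by
      intro b hb
      have hbE : b ∈ E := by
        have : b ∈ E.toSubfield := by rw [hEK]; exact hb
        exact this
      have h1 : IsSeparable P₀ (⟨b, hbE⟩ : E) := hsepE.isSeparable' _
      have h2 : IsSeparable P₀ b := by
        unfold IsSeparable at h1 ⊢
        rw [← IntermediateField.minpoly_eq (⟨b, hbE⟩ : E)] 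
        exact h1
      exact am_sep hgood hG h2 (hI.mono (le_adj P₀ b) (adj_le hFK hb))
    obtain ⟨α₀, hα₀⟩ := hE.dense a haK 1 one_pos
    obtain ⟨α, hα, hsepα⟩ := exists_alpha_sep u htr T hT α₀ one_pos
    have hαa : ‖ι α - a‖ < 1 := by
      have h1 : ι α - a = ι (α - α₀) + -(a - ι α₀) := by rw [map_sub]; ring
      rw [h1]
      refine lt_of_le_of_lt (IsUltrametricDist.norm_add_le_max _ _) (max_lt ?_ ?_)
      · rw [hE.norm]; exact hα
      · rw [norm_neg]; exact hα₀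
    have hdense : DenseIn (adj (kO k ι ⊔ κ0) (ι α)) K :=
      dense_of_close (Y := 0) (c := 0) hG hI hE.complete hk0κ0 hκ hsep (hE.mem α)
        (Or.inl ⟨rfl, hKF, hαa⟩)
    have hαF : ι α ∈ P₀ := hKF (hE.mem α)
    refine ⟨_, u, α, lu_data hE u hu1 hκ0 hκ hsep hG hFK hgauss hfg htr α hαa ?_ hsepα hdense
      (Or.inr hαF)⟩
    rw [Metric.infDist_zero_of_mem hαF]
    exact one_pos
  · obtain ⟨Y, hYK, hYF, hYd⟩ := hr_class hgood hG hI hE.complete (hE.mem T) hTF hPc hPd E hEK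
    have hTY : TT F Y := tt_of_class hgood hG hI hYK hYF
    have hY0 : Y ≠ 0 := fun h => hYF (by rw [h]; exact F.zero_mem)
    obtain ⟨c, hc0, hc1⟩ := ld6_small (k := k) (B := 1 / ‖Y‖) (by positivity)
    set c' : Ω := ι (algebraMap k L c) with hc'
    have hcn : ‖c'‖ = ‖c‖ := hknorm c
    have hcpos : 0 < ‖c‖ := norm_pos_iff.2 hc0
    have hc'0 : c' ≠ 0 := norm_pos_iff.1 (by rw [hcn]; exact hcpos)
    have hcY : ‖c' * Y‖ < 1 := by
      rw [norm_mul, hcn]
      rwa [lt_div_iff₀ (norm_pos_iff.2 hY0)] at hc1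
    set δ : ℝ := min 1 (‖c'‖ * Metric.infDist Y (F : Set Ω)) with hδ
    have hδ0 : 0 < δ := lt_min one_pos (mul_pos (norm_pos_iff.2 hc'0) hTY.pos)
    have hacY : a + c' * Y ∈ K := K.add_mem haK (K.mul_mem (hkK (hmemk c)) hYK)
    obtain ⟨α₀, hα₀⟩ := hE.dense _ hacY δ hδ0
    obtain ⟨α, hα, hsepα⟩ := exists_alpha_sep u htr T hT α₀ hδ0
    have hα2 : ‖ι α - (a + c' * Y)‖ < δ := by
      have h1 : ι α - (a + c' * Y) = ι (α - α₀) + -(a + c' * Y - ι α₀) := by
        rw [map_sub]; ring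
      rw [h1]
      refine lt_of_le_of_lt (IsUltrametricDist.norm_add_le_max _ _) (max_lt ?_ ?_)
      · rw [hE.norm]; exact hα
      · rw [norm_neg]; exact hα₀
    have hαa : ‖ι α - a‖ < 1 := by
      have h1 : ι α - a = (ι α - (a + c' * Y)) + c' * Y := by ring
      rw [h1]
      exact lt_of_le_of_lt (IsUltrametricDist.norm_add_le_max _ _)
        (max_lt (lt_of_lt_of_le hα2 (min_le_left _ _)) hcY)
    have hdense : DenseIn (adj (kO k ι ⊔ κ0) (ι α)) K :=
      dense_of_close (Y := Y) (c := c') hG hI hE.complete hk0κ0 hκ hsep (hE.mem α)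
        (Or.inr ⟨hTY, hYd, hmemk c, hc'0, hcY, hαa, lt_of_lt_of_le hα2 (min_le_right _ _)⟩)
    have hαF : ι α ∉ F := by
      intro h1
      have h2 : adj (kO k ι ⊔ κ0) (ι α) ≤ F :=
        adj_le (sup_le hkF (hκ0κ.trans hG.κ_le)) h1
      have h3 : DenseIn F K := ⟨hFK, fun x hx ε hε => by
        obtain ⟨b, hb, h4⟩ := hdense.2 x hx ε hε
        exact ⟨b, h2 hb, h4⟩⟩
      exact hYF (ld6_closed_of_dense hG.complete h3 hYK)
    have hTα : TT F (ι α) := tt_of_class hgood hG hI (hE.mem α) hαF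
    refine ⟨_, u, α, lu_data hE u hu1 hκ0 hκ hsep hG hFK hgauss hfg htr α hαa ?_ hsepα hdense
      (Or.inl hTα)⟩
    refine lt_of_le_of_lt (Metric.infDist_le_dist_of_mem haF) ?_
    rw [dist_eq_norm]
    exact hαa

end MP1a953e
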