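import Pool.Agent.Lib.MP_1a953e_ag.LU4

/-!
# Module LU5: charts of admissible blow-ups
-/

namespace MP1a953e

open Polynomial

variable {k L : Type*} [NontriviallyNormedField k] [IsUltrametricDist k]
variable [NormedField L] [IsUltrametricDist L] [NormedAlgebra k L]

private theorem lu5_norm_unit {C : Subalgebra (O k) L} (hC : ∀ b ∈ C, ‖b‖ ≤ 1) {w : L}
    (hw : w ∈ C) (hw0 : w ≠ 0) (hwi : w⁻¹ ∈ C) : ‖w‖ = 1 := by
  refine le_antisymm (hC w hw) ?_
  have h2 := hC _ hwi
  rw [norm_inv] at h2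
  have h3 : 0 < ‖w‖ := norm_pos_iff.2 hw0
  exact (inv_le_one₀ h3).1 h2

private theorem lu5_mem_of_unit {C : Subalgebra (O k) L} (hC : ∀ b ∈ C, ‖b‖ ≤ 1) {z : L}
    (hz : UnitUpTo k C z) (hz1 : ‖z‖ ≤ 1) : z ∈ C := by
  obtain ⟨c, hc, w, hw, hw0, hwi, he⟩ := hz
  have h1 : ‖w‖ = 1 := lu5_norm_unit hC hw hw0 hwi
  have h4 : ‖c‖ ≤ 1 := by
    rw [he, norm_mul, norm_algebraMap', h1, mul_one] at hz1
    exact hz1
  rw [he]
  exact mul_mem (C.algebraMap_mem (⟨c, mem_O.2 h4⟩ : O k)) hw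

private theorem lu5_unit_mul {B : Subalgebra (O k) L} {z z' : L}
    (hz : UnitUpTo k B z) (hz' : UnitUpTo k B z') : UnitUpTo k B (z * z') := by
  obtain ⟨c, hc, w, hw, hw0, hwi, he⟩ := hz
  obtain ⟨c', hc', w', hw', hw0', hwi', he'⟩ := hz'
  refine ⟨c * c', mul_ne_zero hc hc', w * w', mul_mem hw hw', mul_ne_zero hw0 hw0', ?_, ?_⟩
  · rw [mul_inv]; exact mul_mem hwi hwi'
  · rw [he, he', map_mul]; ring

private theorem lu5_unit_const (B : Subalgebra (O k) L) {c : k} (hc : c ≠ 0) :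
    UnitUpTo k B (algebraMap k L c) :=
  ⟨c, hc, 1, one_mem _, one_ne_zero, by rw [inv_one]; exact one_mem B, by rw [mul_one]⟩

private theorem lu5_unit_pow {B : Subalgebra (O k) L} {z : L}
    (hz : UnitUpTo k B z) (n : ℕ) : UnitUpTo k B (z ^ n) := by
  induction n with
  | zero =>
    rw [pow_zero]
    have := lu5_unit_const (L := L) B (one_ne_zero (α := k))
    rwa [map_one] at this
  | succ n ih => rw [pow_succ]; exact lu5_unit_mul ih hz

/-- elements which are brought into `A` by a power of `w` and a constant -/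
private def lu5Den (A : Subalgebra (O k) L) (w : L) (hw : w ∈ A) : Subalgebra k L where
  carrier := {x | ∃ (M : ℕ) (μ : O k), μ ≠ 0 ∧ algebraMap (O k) L μ * w ^ M * x ∈ A}
  mul_mem' := by
    rintro x y ⟨M, μ, hμ, hx⟩ ⟨M', μ', hμ', hy⟩
    refine ⟨M + M', μ * μ', mul_ne_zero hμ hμ', ?_⟩
    have : algebraMap (O k) L (μ * μ') * w ^ (M + M') * (x * y) =
        (algebraMap (O k) L μ * w ^ M * x) * (algebraMap (O k) L μ' * w ^ M' * y) := by
      rw [map_mul, pow_add]; ring
    rw [this]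
    exact mul_mem hx hy
  add_mem' := by
    rintro x y ⟨M, μ, hμ, hx⟩ ⟨M', μ', hμ', hy⟩
    refine ⟨M + M', μ * μ', mul_ne_zero hμ hμ', ?_⟩
    have : algebraMap (O k) L (μ * μ') * w ^ (M + M') * (x + y) =
        (algebraMap (O k) L μ' * w ^ M') * (algebraMap (O k) L μ * w ^ M * x) +
        (algebraMap (O k) L μ * w ^ M) * (algebraMap (O k) L μ' * w ^ M' * y) := by
      rw [map_mul, pow_add]; ring
    rw [this]
    exact add_mem (mul_mem (mul_mem (A.algebraMap_mem _) (pow_mem hw _)) hx)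
      (mul_mem (mul_mem (A.algebraMap_mem _) (pow_mem hw _)) hy)
  algebraMap_mem' := by
    intro c
    by_cases hc : ‖c‖ ≤ 1
    · refine ⟨0, 1, one_ne_zero, ?_⟩
      rw [map_one, pow_zero, one_mul, one_mul]
      exact A.algebraMap_mem (⟨c, mem_O.2 hc⟩ : O k)
    · have h1 : ‖c⁻¹‖ ≤ 1 := by
        rw [norm_inv]
        exact inv_le_one_of_one_le₀ (le_of_not_ge hc)
      have hc0 : c ≠ 0 := by
        rintro rfl
        exact hc (by simp)
      refine ⟨0, ⟨c⁻¹, mem_O.2 h1⟩, ?_, ?_⟩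
      · intro h0
        exact inv_ne_zero hc0 (congrArg Subtype.val h0)
      · have h2 : algebraMap (O k) L ⟨c⁻¹, mem_O.2 h1⟩ = algebraMap k L c⁻¹ := rfl
        rw [h2, pow_zero, mul_one, ← map_mul, inv_mul_cancel₀ hc0, map_one]
        exact one_mem A

private theorem lu5_mem_den {A : Subalgebra (O k) L} {w : L} {hw : w ∈ A} {x : L} :
    x ∈ lu5Den A w hw ↔
      ∃ (M : ℕ) (μ : O k), μ ≠ 0 ∧ algebraMap (O k) L μ * w ^ M * x ∈ A := Iff.rfl

/-- a common denominator for a finite set of elements of `lu5Den` -/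
private theorem lu5_common {A : Subalgebra (O k) L} {w : L} {hw : w ∈ A} (t : Finset L)
    (ht : ∀ x ∈ t, x ∈ lu5Den A w hw) :
    ∃ (M : ℕ) (μ : O k), μ ≠ 0 ∧ ∀ x ∈ t, algebraMap (O k) L μ * w ^ M * x ∈ A := by
  classical
  induction t using Finset.induction_on with
  | empty => exact ⟨0, 1, one_ne_zero, by simp⟩
  | insert a t ha ih =>
    obtain ⟨M, μ, hμ, h⟩ := ih fun x hx => ht x (Finset.mem_insert_of_mem hx)
    obtain ⟨M', μ', hμ', h'⟩ := ht a (Finset.mem_insert_self a t)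
    refine ⟨M + M', μ * μ', mul_ne_zero hμ hμ', ?_⟩
    intro x hx
    rcases Finset.mem_insert.1 hx with rfl | hx
    · have : algebraMap (O k) L (μ * μ') * w ^ (M + M') * x =
          (algebraMap (O k) L μ * w ^ M) * (algebraMap (O k) L μ' * w ^ M' * x) := by
        rw [map_mul, pow_add]; ring
      rw [this]
      exact mul_mem (mul_mem (A.algebraMap_mem _) (pow_mem hw _)) h'
    · have : algebraMap (O k) L (μ * μ') * w ^ (M + M') * x =
          (algebraMap (O k) L μ' * w ^ M') * (algebraMap (O k) L μ * w ^ M * x) := by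
        rw [map_mul, pow_add]; ring
      rw [this]
      exact mul_mem (mul_mem (A.algebraMap_mem _) (pow_mem hw _)) (h x hx)

/-- a common denominator in `A` for finitely many elements of `L` -/
private theorem lu5_denom {A : Subalgebra (O k) L} (hAf : IsFractionRing A L) (t : Finset L) :
    ∃ w ∈ A, w ≠ 0 ∧ ∀ x ∈ t, w * x ∈ A := by
  classical
  induction t using Finset.induction_on with
  | empty => exact ⟨1, one_mem A, one_ne_zero, by simp⟩
  | insert a t ha ih =>
    obtain ⟨w, hw, hw0, h⟩ := ih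
    obtain ⟨x, y, hy, hxy⟩ := IsFractionRing.div_surjective (A := A) (K := L) a
    have hy0 : (y : L) ≠ 0 := by
      intro h0
      exact (nonZeroDivisors.ne_zero hy) (Subtype.ext h0)
    refine ⟨w * y, mul_mem hw y.2, mul_ne_zero hw0 hy0, ?_⟩
    intro z hz
    rcases Finset.mem_insert.1 hz with rfl | hz
    · have h1 : w * (y : L) * z = w * x := by
        rw [← hxy]
        change w * (y : L) * ((x : L) / (y : L)) = w * x
        field_simp
      rw [h1]
      exact mul_mem hw x.2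
    · have h1 : w * (y : L) * z = y * (w * z) := by ring
      rw [h1]
      exact mul_mem y.2 (h z hz)

/-- a common exponent -/
private theorem lu5_exponent {C₀ : Subalgebra k L} {D : L} (hDC : D ∈ C₀) (t : Finset L)
    (ht : ∀ b ∈ t, ∃ N : ℕ, b * D ^ N ∈ C₀) : ∃ N : ℕ, ∀ b ∈ t, b * D ^ N ∈ C₀ := by
  classical
  induction t using Finset.induction_on with
  | empty => exact ⟨0, by simp⟩
  | insert a t ha ih =>
    obtain ⟨N, h⟩ := ih fun x hx => ht x (Finset.mem_insert_of_mem hx)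
    obtain ⟨N', h'⟩ := ht a (Finset.mem_insert_self a t)
    refine ⟨N + N', fun b hb => ?_⟩
    rcases Finset.mem_insert.1 hb with rfl | hb
    · have : b * D ^ (N + N') = (b * D ^ N') * D ^ N := by rw [pow_add]; ring
      rw [this]
      exact mul_mem h' (pow_mem hDC _)
    · have : b * D ^ (N + N') = (b * D ^ N) * D ^ N' := by rw [pow_add]; ring
      rw [this]
      exact mul_mem (h b hb) (pow_mem hDC _)

/-- LU5 (charts of admissible blow-ups).  Proof.  Let `A = O k [a₁, …, a_r]`, and let `w ≠ 0` in `A` be a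
common denominator of generators `c_j` of `C₀`: `w c_j ∈ A`. Take `B` from `lu_units` for
`Z = {nonzero a_i} ∪ {w}`. `a_i` is a constant of norm `≤ 1` times a unit of `B`, so `A ≤ B`.
`B` is generated by finitely many `b₁, …, b_n` (smooth algebras are of finite type). For large `N, M`
and small `0 ≠ μ ∈ k`: `f 0 = μ w ^ M D ^ N ∈ A` and `f l = f 0 * b_l ∈ A`. `f 0` is a constant
`λ` times a unit of `B`; add `f (n+1) = c ∈ O k`, `c ≠ 0`, `‖c‖ ≤ ‖λ‖`, `‖c‖ ≤ 1`, so `c / f 0 ∈ B`. Then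
`A[f l / f 0] = B`. -/
theorem lu_blowup {m d : ℕ} {u : Fin m → L} {α : L} (hD : LUData k d u α)
    (hval : ∀ x : L, ∃ c : k, ‖c‖ = ‖x‖) (A : Subalgebra (O k) L) (hA : A.FG)
    (hA1 : ∀ a ∈ A, ‖a‖ ≤ 1) (hAf : IsFractionRing A L) :
    ∃ (n : ℕ) (f : Fin (n + 1) → L), (∀ i, f i ∈ A) ∧ f 0 ≠ 0 ∧
      (∃ i, ∃ c : O k, c ≠ 0 ∧ f i = algebraMap (O k) L c) ∧
      (∀ b ∈ A ⊔ Algebra.adjoin (O k) (Set.range fun i => f i / f 0), ‖b‖ ≤ 1) ∧
      Algebra.Smooth (O k) ↥(A ⊔ Algebra.adjoin (O k) (Set.range fun i => f i / f 0)) := by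
  classical
  obtain ⟨C₀, ⟨s₀, hs₀⟩, hlu⟩ := lu_units hD hval
  obtain ⟨sA, hsA⟩ := hA
  obtain ⟨w, hwA, hw0, hws⟩ := lu5_denom hAf s₀
  obtain ⟨B, hBs, hB1, -, hBZ, D, hDC₀, hDu, hDloc⟩ :=
    hlu (insert w (sA.filter fun a => a ≠ 0)) (by
      intro z hz
      rcases Finset.mem_insert.1 hz with rfl | hz
      · exact hw0
      · exact (Finset.mem_filter.1 hz).2)
  have hAB : A ≤ B := by
    rw [← hsA]
    refine Algebra.adjoin_le ?_
    intro a ha
    by_cases h0 : a = 0
    · rw [h0]; exact zero_mem B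
    · refine lu5_mem_of_unit hB1 (hBZ a ?_) (hA1 a ?_)
      · exact Finset.mem_insert_of_mem (Finset.mem_filter.2 ⟨ha, h0⟩)
      · rw [← hsA]; exact Algebra.subset_adjoin ha
  have hwB : UnitUpTo k B w := hBZ w (Finset.mem_insert_self _ _)
  have hBft : B.FG := by
    have h1 : Algebra.FiniteType (O k) B := inferInstance
    exact B.fg_iff_finiteType.2 h1
  obtain ⟨t, ht⟩ := hBft
  have htB : ∀ b ∈ t, b ∈ B := fun b hb => by rw [← ht]; exact Algebra.subset_adjoin hb
  obtain ⟨N, hN⟩ := lu5_exponent hDC₀ (insert 1 t) (by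
    intro b hb
    rcases Finset.mem_insert.1 hb with rfl | hb
    · exact ⟨0, by simp⟩
    · exact hDloc b (htB b hb))
  have hC₀den : C₀ ≤ lu5Den A w hwA := by
    rw [← hs₀]
    refine Algebra.adjoin_le ?_
    intro c hc
    refine ⟨1, 1, one_ne_zero, ?_⟩
    rw [map_one, one_mul, pow_one]
    exact hws c hc
  obtain ⟨M, μ, hμ0, hμ⟩ := lu5_common (A := A) (w := w) (hw := hwA)
    ((insert 1 t).image fun b => b * D ^ N) (by
      intro x hx
      obtain ⟨b, hb, rfl⟩ := Finset.mem_image.1 hx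
      exact hC₀den (hN b hb))
  have hμ' : ∀ b ∈ insert 1 t, algebraMap (O k) L μ * w ^ M * (b * D ^ N) ∈ A := fun b hb =>
    hμ _ (Finset.mem_image.2 ⟨b, hb, rfl⟩)
  set f0 : L := algebraMap (O k) L μ * w ^ M * D ^ N with hf0
  have hf0A : f0 ∈ A := by
    have := hμ' 1 (Finset.mem_insert_self _ _)
    rwa [one_mul] at this
  have hfbA : ∀ b ∈ t, f0 * b ∈ A := by
    intro b hb
    have := hμ' b (Finset.mem_insert_of_mem hb)
    have h1 : f0 * b = algebraMap (O k) L μ * w ^ M * (b * D ^ N) := by rw [hf0]; ring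
    rw [h1]; exact this
  have hμk : (μ : k) ≠ 0 := fun h0 => hμ0 (Subtype.ext h0)
  have hf0u : UnitUpTo k B f0 :=
    lu5_unit_mul (lu5_unit_mul (lu5_unit_const B hμk) (lu5_unit_pow hwB M)) (lu5_unit_pow hDu N)
  obtain ⟨c, hc0, v, hv, hv0, hvi, hf0v⟩ := hf0u
  have hv1 : ‖v‖ = 1 := lu5_norm_unit hB1 hv hv0 hvi
  have hc1 : ‖c‖ ≤ 1 := by
    have h1 := hA1 f0 hf0A
    rw [hf0v, norm_mul, norm_algebraMap', hv1, mul_one] at h1
    exact h1
  have hcL : algebraMap k L c ≠ 0 := by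
    rw [Ne, FaithfulSMul.algebraMap_eq_zero_iff]
    exact hc0
  have hf00 : f0 ≠ 0 := by
    rw [hf0v]
    exact mul_ne_zero hcL hv0
  set e : Fin t.card ≃ t := t.equivFin.symm with he
  set f : Fin (t.card + 1 + 1) → L :=
    Fin.cons f0 (Fin.cons (algebraMap k L c) (fun i => f0 * (e i : L))) with hf
  have hfz : f 0 = f0 := rfl
  have hfA : ∀ i, f i ∈ A := by
    intro i
    refine Fin.cases ?_ (fun i => ?_) i
    · exact hf0A
    · refine Fin.cases ?_ (fun i => ?_) i
      · exact A.algebraMap_mem (⟨c, mem_O.2 hc1⟩ : O k)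
      · exact hfbA _ (e i).2
  have hEq : A ⊔ Algebra.adjoin (O k) (Set.range fun i => f i / f 0) = B := by
    apply le_antisymm
    · refine sup_le hAB (Algebra.adjoin_le ?_)
      rintro _ ⟨i, rfl⟩
      refine Fin.cases ?_ (fun i => ?_) i
      · change f0 / f0 ∈ B
        rw [div_self hf00]; exact one_mem B
      · refine Fin.cases ?_ (fun i => ?_) i
        · change algebraMap k L c / f0 ∈ B
          have h1 : algebraMap k L c / f0 = v⁻¹ := by
            rw [hf0v]; field_simp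
          rw [h1]; exact hvi
        · change f0 * (e i : L) / f0 ∈ B
          rw [mul_div_cancel_left₀ _ hf00]
          exact htB _ (e i).2
    · refine le_trans ?_ le_sup_right
      rw [← ht]
      refine Algebra.adjoin_mono ?_
      intro b hb
      refine ⟨(e.symm ⟨b, hb⟩).succ.succ, ?_⟩
      change f0 * (e (e.symm ⟨b, hb⟩) : L) / f0 = b
      rw [Equiv.apply_symm_apply, mul_div_cancel_left₀ _ hf00]
  refine ⟨t.card + 1, f, hfA, hf00, ⟨1, ⟨c, mem_O.2 hc1⟩, ?_, rfl⟩, ?_, ?_⟩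
  · intro h0
    exact hc0 (congrArg Subtype.val h0)
  · rw [hEq]; exact hB1
  · rw [hEq]; exact hBs

end MP1a953e
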