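import Pool.Agent.Lib.MP_1a953e_ag.UDefs

/-!
# Module Sem1: semilinear operators and finite sums
-/

namespace MP1a953e

variable {Ω : Type*} [NormedField Ω]

theorem SemiOp.mono {p : ℕ} {F₀ F F' : Subfield Ω} {t : ℕ} {δ : ℝ} {T : Ω → Ω}
    (h : SemiOp p F F' t δ T) (hF : F₀ ≤ F) : SemiOp p F₀ F' t δ T :=
  ⟨h.map, h.norm, h.add, fun y hy x hx => h.lin y (hF hy) x hx⟩

private theorem Sem1_ne {p : ℕ} [Fact p.Prime] (t : ℕ) : p ^ t ≠ 0 :=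
  pow_ne_zero _ (Fact.out : p.Prime).ne_zero

private theorem Sem1_zero {p : ℕ} [Fact p.Prime] {F F' : Subfield Ω} {t : ℕ}
    {δ : ℝ} {T : Ω → Ω} (h : SemiOp p F F' t δ T) : T 0 = 0 := by
  have h1 := h.norm 0 (zero_mem _)
  rw [norm_zero] at h1
  have h2 : ‖T 0‖ ^ p ^ t = 0 := le_antisymm h1 (by positivity)
  exact norm_eq_zero.1 (eq_zero_of_pow_eq_zero h2)

private theorem Sem1_add [IsUltrametricDist Ω] {q : ℕ} {a b : Ω} {C : ℝ} (ha : ‖a‖ ^ q ≤ C)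
    (hb : ‖b‖ ^ q ≤ C) : ‖a + b‖ ^ q ≤ C := by
  have h := IsUltrametricDist.norm_add_le_max a b
  rcases le_total ‖a‖ ‖b‖ with h' | h'
  · rw [max_eq_right h'] at h
    exact (pow_le_pow_left₀ (norm_nonneg _) h q).trans hb
  · rw [max_eq_left h'] at h
    exact (pow_le_pow_left₀ (norm_nonneg _) h q).trans ha

/-- SEM1.  Induction on the finite set (`T 0 = 0` by `norm`), with the ultrametric inequality for
`‖ ‖ ^ (p ^ t)`. -/
theorem SemiOp.sum [IsUltrametricDist Ω] {p : ℕ} [Fact p.Prime] {F F' : Subfield Ω} {t : ℕ}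
    {δ : ℝ} {T : Ω → Ω} (h : SemiOp p F F' t δ T) (hδ : 0 ≤ δ) {ι : Type*} (S : Finset ι)
    (x : ι → Ω) (hx : ∀ i ∈ S, x i ∈ F') {M : ℝ} (hM : 0 ≤ M) (hxM : ∀ i ∈ S, ‖x i‖ ≤ M) :
    ‖T (∑ i ∈ S, x i) - ∑ i ∈ S, T (x i)‖ ^ p ^ t ≤ δ * M := by
  classical
  induction S using Finset.induction_on with
  | empty =>
    rw [Finset.sum_empty, Finset.sum_empty, Sem1_zero h, sub_zero, norm_zero,
      zero_pow (Sem1_ne t)]
    exact mul_nonneg hδ hM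
  | insert i S hi ih =>
    have hx1 : x i ∈ F' := hx i (Finset.mem_insert_self i S)
    have hx2 : ∀ j ∈ S, x j ∈ F' := fun j hj => hx j (Finset.mem_insert_of_mem hj)
    have hM1 : ‖x i‖ ≤ M := hxM i (Finset.mem_insert_self i S)
    have hM2 : ∀ j ∈ S, ‖x j‖ ≤ M := fun j hj => hxM j (Finset.mem_insert_of_mem hj)
    have hsum : ‖∑ j ∈ S, x j‖ ≤ M :=
      IsUltrametricDist.norm_sum_le_of_forall_le_of_nonneg hM hM2
    rw [Finset.sum_insert hi, Finset.sum_insert hi]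
    have h1 : ‖T (x i + ∑ j ∈ S, x j) - T (x i) - T (∑ j ∈ S, x j)‖ ^ p ^ t ≤ δ * M :=
      (h.add _ hx1 _ (sum_mem hx2)).trans (mul_le_mul_of_nonneg_left (max_le hM1 hsum) hδ)
    have h2 := ih hx2 hM2
    have h3 : T (x i + ∑ j ∈ S, x j) - (T (x i) + ∑ j ∈ S, T (x j)) =
        (T (x i + ∑ j ∈ S, x j) - T (x i) - T (∑ j ∈ S, x j)) +
          (T (∑ j ∈ S, x j) - ∑ j ∈ S, T (x j)) := by ring
    rw [h3]
    exact Sem1_add h1 h2

/-- SEM1b.  Small changes of the argument. -/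
theorem SemiOp.congr [IsUltrametricDist Ω] {p : ℕ} [Fact p.Prime] {F F' : Subfield Ω} {t : ℕ}
    {δ : ℝ} {T : Ω → Ω} (h : SemiOp p F F' t δ T) (hδ : 0 ≤ δ) {x y : Ω} (hx : x ∈ F')
    (hy : y ∈ F') {M : ℝ} (hxM : ‖x‖ ≤ M) (hxy : ‖x - y‖ ≤ δ * M) (hδ1 : δ ≤ 1) :
    ‖T x - T y‖ ^ p ^ t ≤ δ * M := by
  have hM : 0 ≤ M := (norm_nonneg _).trans hxM
  have hdM : δ * M ≤ M := by
    have := mul_le_mul_of_nonneg_right hδ1 hM
    rwa [one_mul] at this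
  have hyM : ‖y‖ ≤ M := by
    have h1 : y = x + (y - x) := by ring
    rw [h1]
    refine (IsUltrametricDist.norm_add_le_max x (y - x)).trans (max_le hxM ?_)
    rw [norm_sub_rev]
    exact hxy.trans hdM
  have h1 := h.add (x - y) (sub_mem hx hy) y hy
  rw [sub_add_cancel] at h1
  have h2 : ‖T x - T (x - y) - T y‖ ^ p ^ t ≤ δ * M :=
    h1.trans (mul_le_mul_of_nonneg_left (max_le (hxy.trans hdM) hyM) hδ)
  have h3 : ‖T (x - y)‖ ^ p ^ t ≤ δ * M := (h.norm _ (sub_mem hx hy)).trans hxy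
  have h4 : T x - T y = (T x - T (x - y) - T y) + T (x - y) := by ring
  rw [h4]
  exact Sem1_add h2 h3

end MP1a953e
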