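import Pool.Agent.Lib.MP_1a953e_ag.Gre2
import Pool.Agent.Lib.MP_1a953e_ag.Sem1

/-!
# Module Lam1: the projection Lambda
-/

namespace MP1a953e

variable {Ω : Type*} [NormedField Ω]

private theorem lam_unique [IsUltrametricDist Ω] {p : ℕ} [Fact p.Prime] (hp : ‖(p : Ω)‖ < 1)
    {F : Subfield Ω} {H r : ℕ} {e : Fin (r + 1) → Ω} (he0 : ‖e 0‖ = 1)
    (ho : QOrth (p ^ H) F e) {δ : ℝ} (hpδ : ‖(p : Ω)‖ ≤ δ) {M : ℝ} {x : Ω}
    {u v : Fin (r + 1) → Ω} (hu : ∀ i, u i ∈ F) (hv : ∀ i, v i ∈ F)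
    (hu1 : ∀ i, ‖u i ^ p ^ H * e i‖ ≤ M) (hv1 : ∀ i, ‖v i ^ p ^ H * e i‖ ≤ M)
    (hux : ‖x - ∑ i, u i ^ p ^ H * e i‖ ≤ δ * M) (hvx : ‖x - ∑ i, v i ^ p ^ H * e i‖ ≤ δ * M) :
    ‖u 0 - v 0‖ ^ p ^ H ≤ δ * M := by
  have hδM : 0 ≤ δ * M := (norm_nonneg _).trans hux
  have h1 : ∀ i, ‖((u i - v i) ^ p ^ H - (u i ^ p ^ H - v i ^ p ^ H)) * e i‖ ≤ δ * M := by
    intro i
    have h2 := norm_sub_pow_sub hp.le (le_max_left ‖u i‖ ‖v i‖) (le_max_right ‖u i‖ ‖v i‖) H
    rw [norm_mul]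
    refine (mul_le_mul_of_nonneg_right h2 (norm_nonneg _)).trans ?_
    rw [mul_assoc]
    have h3 : max ‖u i‖ ‖v i‖ ^ p ^ H * ‖e i‖ ≤ M := by
      rcases max_choice ‖u i‖ ‖v i‖ with h | h <;> rw [h, ← norm_pow, ← norm_mul]
      · exact hu1 i
      · exact hv1 i
    exact mul_le_mul hpδ h3 (by positivity) ((norm_nonneg _).trans hpδ)
  have h2 : ∑ i, (u i - v i) ^ p ^ H * e i =
      ∑ i, ((u i - v i) ^ p ^ H - (u i ^ p ^ H - v i ^ p ^ H)) * e i +
        ((x - ∑ i, v i ^ p ^ H * e i) - (x - ∑ i, u i ^ p ^ H * e i)) := by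
    have h3 : ∀ i, ((u i - v i) ^ p ^ H - (u i ^ p ^ H - v i ^ p ^ H)) * e i =
        (u i - v i) ^ p ^ H * e i - u i ^ p ^ H * e i + v i ^ p ^ H * e i := by
      intro i
      ring
    rw [Finset.sum_congr rfl fun i _ => h3 i, Finset.sum_add_distrib, Finset.sum_sub_distrib]
    ring
  have h3 : ‖∑ i, (u i - v i) ^ p ^ H * e i‖ ≤ δ * M := by
    rw [h2]
    refine (IsUltrametricDist.norm_add_le_max _ _).trans (max_le ?_ ?_)
    · exact IsUltrametricDist.norm_sum_le_of_forall_le_of_nonneg hδM fun i _ => h1 i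
    · rw [sub_eq_add_neg]
      refine (IsUltrametricDist.norm_add_le_max _ _).trans (max_le hvx ?_)
      rw [norm_neg]
      exact hux
  have h4 := ho (fun i => u i - v i) (fun i => F.sub_mem (hu i) (hv i)) 0
  rw [norm_mul, he0, mul_one, norm_pow] at h4
  exact h4.trans h3

private theorem lam_add_pow [IsUltrametricDist Ω] {p : ℕ} [Fact p.Prime] (hp : ‖(p : Ω)‖ ≤ 1)
    (a b : Ω) (H : ℕ) :
    ‖(a + b) ^ p ^ H - (a ^ p ^ H + b ^ p ^ H)‖ ≤ ‖(p : Ω)‖ * max ‖a‖ ‖b‖ ^ p ^ H := by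
  have h := norm_sum_pow_sub hp (Finset.univ : Finset (Fin 2)) ![a, b]
    (M := max ‖a‖ ‖b‖) (by positivity) (fun i _ => by
      fin_cases i
      · exact le_max_left _ _
      · exact le_max_right _ _) H
  simpa [Fin.sum_univ_two] using h

/-- LAM1.  `Λ x = y 0`, where `y` is chosen by `exists_frob` (`q = p ^ H`, `e 0 = c`).  Proof.
UNIQUENESS: if `y i, y' i ∈ F`, all `‖y i ^ q * e i‖, ‖y' i ^ q * e i‖ ≤ M` and
`‖∑ y i ^ q * e i - ∑ y' i ^ q * e i‖ ≤ δ * M`, then `‖∑ (y i - y' i) ^ q * e i‖ ≤ δ * M` by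
`norm_sub_pow_sub` (`‖p‖ ≤ δ`; apply it with the bound `(M / ‖e i‖) ^ (1/q)`, or in the form
`‖(x - y) ^ q - (x ^ q - y ^ q)‖ ≤ ‖p‖ * max (‖x‖ ^ q) (‖y‖ ^ q)`), so by `QOrth`
`‖y i - y' i‖ ^ q * ‖e i‖ ≤ δ * M`; for `i = 0`: `‖y 0 - y' 0‖ ^ q ≤ δ * M`.
`norm`: `‖y 0‖ ^ q = ‖y 0 ^ q * c‖ ≤ ‖x‖`. `add`: for `x, x'` and `x + x'` with expansions
`y, y', y''`: `∑ (y i + y' i) ^ q * e i` is `x + x'` up to `δ * max ‖x‖ ‖x'‖` (`norm_sum_pow_sub`), apply
uniqueness. `lin`: `a ^ q * x` has the approximate expansion `a * y i`. Last claim: `c * y ^ q` has the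
expansion `(y, 0, …, 0)`. -/
theorem exists_lambda [IsUltrametricDist Ω] {p : ℕ} [Fact p.Prime] (hp : ‖(p : Ω)‖ < 1)
    {k F : Subfield Ω} {n : ℕ} {s : Fin n → Ω} (hF : TF k F s) (H : ℕ) {c : Ω} (hc : c ∈ F)
    (hc1 : ‖c‖ = 1) :
    ∃ δ : ℝ, 0 < δ ∧ δ < 1 ∧ ‖(p : Ω)‖ ≤ δ ∧ ∃ Λ : Ω → Ω, SemiOp p F F H δ Λ ∧
      ∀ y ∈ F, ‖Λ (c * y ^ p ^ H) - y‖ ^ p ^ H ≤ δ * ‖y‖ ^ p ^ H := by
  classical
  have hc0 : c ≠ 0 := by
    intro h
    rw [h, norm_zero] at hc1
    exact zero_ne_one hc1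
  have hq0 : p ^ H ≠ 0 := pow_ne_zero H (Fact.out : p.Prime).ne_zero
  obtain ⟨δ, hδ0, hδ1, hpδ, r, e, he, heF, ho, hgen⟩ := exists_frob hp hF H hc hc0
  have he0 : ‖e 0‖ = 1 := by rw [he, hc1]
  choose! y hyF hy1 hy2 using hgen
  refine ⟨δ, hδ0, hδ1, hpδ, fun x => y x 0, ⟨?_, ?_, ?_, ?_⟩, ?_⟩
  · intro x hx
    exact hyF x hx 0
  · intro x hx
    have h1 := hy1 x hx 0
    rw [norm_mul, he0, mul_one, norm_pow] at h1
    exact h1
  · intro x hx x' hx'
    set M := max ‖x‖ ‖x'‖ with hM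
    have hM0 : 0 ≤ M := le_max_of_le_left (norm_nonneg _)
    have hxx : ‖x + x'‖ ≤ M := IsUltrametricDist.norm_add_le_max _ _
    have hxx' : x + x' ∈ F := F.add_mem hx hx'
    have hterm : ∀ i, max ‖y x i‖ ‖y x' i‖ ^ p ^ H * ‖e i‖ ≤ M := by
      intro i
      rcases max_choice ‖y x i‖ ‖y x' i‖ with h | h <;> rw [h, ← norm_pow, ← norm_mul]
      · exact (hy1 x hx i).trans (le_max_left _ _)
      · exact (hy1 x' hx' i).trans (le_max_right _ _)
    have h1 : ‖y (x + x') 0 - (y x 0 + y x' 0)‖ ^ p ^ H ≤ δ * M := by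
      refine lam_unique hp he0 ho hpδ (x := x + x') (u := y (x + x'))
        (v := fun i => y x i + y x' i) (hyF _ hxx')
        (fun i => F.add_mem (hyF x hx i) (hyF x' hx' i)) (fun i => (hy1 _ hxx' i).trans hxx)
        (fun i => ?_) ((hy2 _ hxx').trans (mul_le_mul_of_nonneg_left hxx hδ0.le)) ?_
      · rw [norm_mul, norm_pow]
        refine le_trans ?_ (hterm i)
        exact mul_le_mul_of_nonneg_right (pow_le_pow_left₀ (norm_nonneg _)
          (IsUltrametricDist.norm_add_le_max _ _) _) (norm_nonneg _)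
      · have h2 : x + x' - ∑ i, (y x i + y x' i) ^ p ^ H * e i =
            ((x - ∑ i, y x i ^ p ^ H * e i) + (x' - ∑ i, y x' i ^ p ^ H * e i)) +
              -∑ i, ((y x i + y x' i) ^ p ^ H - (y x i ^ p ^ H + y x' i ^ p ^ H)) * e i := by
          have h3 : ∀ i, ((y x i + y x' i) ^ p ^ H - (y x i ^ p ^ H + y x' i ^ p ^ H)) * e i =
              (y x i + y x' i) ^ p ^ H * e i - y x i ^ p ^ H * e i - y x' i ^ p ^ H * e i := by
            intro i
            ring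
          rw [Finset.sum_congr rfl fun i _ => h3 i, Finset.sum_sub_distrib,
            Finset.sum_sub_distrib]
          ring
        rw [h2]
        refine (IsUltrametricDist.norm_add_le_max _ _).trans (max_le ?_ ?_)
        · refine (IsUltrametricDist.norm_add_le_max _ _).trans (max_le ?_ ?_)
          · exact (hy2 x hx).trans (mul_le_mul_of_nonneg_left (le_max_left _ _) hδ0.le)
          · exact (hy2 x' hx').trans (mul_le_mul_of_nonneg_left (le_max_right _ _) hδ0.le)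
        · rw [norm_neg]
          refine IsUltrametricDist.norm_sum_le_of_forall_le_of_nonneg (by positivity) fun i _ => ?_
          rw [norm_mul]
          refine (mul_le_mul_of_nonneg_right (lam_add_pow hp.le _ _ H) (norm_nonneg _)).trans ?_
          rw [mul_assoc]
          exact mul_le_mul hpδ (hterm i) (by positivity) hδ0.le
    have h2 : y (x + x') 0 - y x 0 - y x' 0 = y (x + x') 0 - (y x 0 + y x' 0) := by ring
    change ‖y (x + x') 0 - y x 0 - y x' 0‖ ^ p ^ H ≤ δ * M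
    rw [h2]
    exact h1
  · intro a ha x hx
    have hax : a ^ p ^ H * x ∈ F := F.mul_mem (F.pow_mem ha _) hx
    refine lam_unique hp he0 ho hpδ (x := a ^ p ^ H * x)
      (u := y (a ^ p ^ H * x)) (v := fun i => a * y x i) (hyF _ hax)
      (fun i => F.mul_mem ha (hyF x hx i)) (hy1 _ hax) (fun i => ?_) (hy2 _ hax) ?_
    · have h1 : (a * y x i) ^ p ^ H * e i = a ^ p ^ H * (y x i ^ p ^ H * e i) := by
        rw [mul_pow, mul_assoc]
      rw [h1, norm_mul, norm_mul (a ^ p ^ H) x]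
      exact mul_le_mul_of_nonneg_left (hy1 x hx i) (norm_nonneg _)
    · have h1 : a ^ p ^ H * x - ∑ i, (a * y x i) ^ p ^ H * e i =
          a ^ p ^ H * (x - ∑ i, y x i ^ p ^ H * e i) := by
        rw [mul_sub, Finset.mul_sum]
        congr 1
        refine Finset.sum_congr rfl fun i _ => ?_
        rw [mul_pow, mul_assoc]
      rw [h1, norm_mul, norm_mul (a ^ p ^ H) x, mul_left_comm]
      exact mul_le_mul_of_nonneg_left (hy2 x hx) (norm_nonneg _)
  · intro z hz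
    have hcz : c * z ^ p ^ H ∈ F := F.mul_mem hc (F.pow_mem hz _)
    have hnorm : ‖c * z ^ p ^ H‖ = ‖z‖ ^ p ^ H := by rw [norm_mul, hc1, one_mul, norm_pow]
    have hterm : ∀ i : Fin (r + 1), (if i = 0 then z else 0) ^ p ^ H * e i =
        if i = 0 then c * z ^ p ^ H else 0 := by
      intro i
      by_cases hi : i = 0
      · rw [if_pos hi, if_pos hi, hi, he, mul_comm]
      · rw [if_neg hi, if_neg hi, zero_pow hq0, zero_mul]
    have h1 := lam_unique hp he0 ho hpδ (M := ‖c * z ^ p ^ H‖) (x := c * z ^ p ^ H)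
      (u := y (c * z ^ p ^ H)) (v := fun i => if i = 0 then z else 0) (hyF _ hcz)
      (fun i => by
        by_cases hi : i = 0
        · rw [if_pos hi]; exact hz
        · rw [if_neg hi]; exact F.zero_mem) (hy1 _ hcz)
      (fun i => by
        rw [hterm i]
        by_cases hi : i = 0
        · rw [if_pos hi]
        · rw [if_neg hi, norm_zero]; exact norm_nonneg _) (hy2 _ hcz)
      (by
        rw [Finset.sum_congr rfl fun i _ => hterm i, Finset.sum_ite_eq' Finset.univ (0 : Fin (r + 1)),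
          if_pos (Finset.mem_univ _), sub_self, norm_zero]
        positivity)
    rw [hnorm, if_pos rfl] at h1
    exact h1

end MP1a953e
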