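import Pool.Agent.Lib.MP_1a953e_ag.Gre2
import Pool.Agent.Lib.MP_1a953e_ag.Sem1

/-!
# Module Lam2: operators built from Lambda
-/

namespace MP1a953e

variable {Ω : Type*} [NormedField Ω]

/-- LAM2a.  Composition with an `F`-linear contraction. -/
theorem SemiOp.comp {p : ℕ} {F F' : Subfield Ω} {H : ℕ} {δ : ℝ} {Λ : Ω → Ω}
    (h : SemiOp p F' F' H δ Λ) (hle : F ≤ F') (hδ : 0 ≤ δ) {C : Ω → Ω}
    (hCF : ∀ x ∈ F', C x ∈ F')
    (hCadd : ∀ x ∈ F', ∀ y ∈ F', C (x + y) = C x + C y)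
    (hClin : ∀ y ∈ F, ∀ x ∈ F', C (y * x) = y * C x) (hCn : ∀ x ∈ F', ‖C x‖ ≤ ‖x‖) :
    SemiOp p F F' H δ (fun x => Λ (C x)) := by
  refine ⟨fun x hx => h.map _ (hCF x hx), fun x hx => (h.norm _ (hCF x hx)).trans (hCn x hx),
    fun x hx y hy => ?_, fun y hy x hx => ?_⟩
  · have h1 := h.add _ (hCF x hx) _ (hCF y hy)
    rw [hCadd x hx y hy]
    exact h1.trans (mul_le_mul_of_nonneg_left (max_le_max (hCn x hx) (hCn y hy)) hδ)
  · have h1 := h.lin _ (hle hy) _ (hCF x hx)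
    rw [hClin _ (F.pow_mem hy _) x hx]
    refine h1.trans (mul_le_mul_of_nonneg_left ?_ hδ)
    rw [norm_mul, norm_mul]
    exact mul_le_mul_of_nonneg_left (hCn x hx) (norm_nonneg _)

private theorem lam2_root {p H h : ℕ} (hp : 0 < p) (hh : h < H) {δ δ₁ E B : ℝ}
    (hδ₁ : 0 < δ₁) (hδ₁' : δ₁ ≤ 1) (hδδ : δ ≤ δ₁ ^ p ^ H) (hE : 0 ≤ E) (hB : 0 ≤ B)
    (h1 : E ^ p ^ H ≤ δ * B ^ p ^ h) : E ^ p ^ (H - h) ≤ δ₁ * B := by
  have hq : p ^ h ≠ 0 := (Nat.pow_pos hp).ne'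
  refine le_of_pow_le_pow_left₀ hq (by positivity) ?_
  rw [← pow_mul, ← pow_add, Nat.sub_add_cancel hh.le, mul_pow]
  refine h1.trans (mul_le_mul_of_nonneg_right ?_ (by positivity))
  exact hδδ.trans (pow_le_pow_of_le_one hδ₁.le hδ₁' (Nat.pow_le_pow_right hp hh.le))

private theorem lam2_add_pow [IsUltrametricDist Ω] {p : ℕ} [Fact p.Prime] (hp : ‖(p : Ω)‖ ≤ 1)
    (a b : Ω) (H : ℕ) :
    ‖(a + b) ^ p ^ H - (a ^ p ^ H + b ^ p ^ H)‖ ≤ ‖(p : Ω)‖ * max ‖a‖ ‖b‖ ^ p ^ H := by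
  have h := norm_sum_pow_sub hp (Finset.univ : Finset (Fin 2)) ![a, b]
    (M := max ‖a‖ ‖b‖) (by positivity) (fun i _ => by
      fin_cases i
      · exact le_max_left _ _
      · exact le_max_right _ _) H
  simpa [Fin.sum_univ_two] using h

/-- LAM2b.  `x ↦ Λ (c * x ^ (p ^ h))`, `h < H`, is `p ^ (H - h)`-semilinear.  Proof.
`norm`: `(‖Λ (c x ^ (p^h))‖ ^ p ^ (H-h)) ^ p ^ h ≤ ‖x‖ ^ p ^ h`. `add`: `c (x+y) ^ (p^h)` differs from
`c x ^ (p^h) + c y ^ (p^h)` by at most `‖p‖ * M ^ (p^h) ≤ δ * M ^ (p^h)`, `M = max ‖x‖ ‖y‖`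
(`norm_sum_pow_sub`), so the error `E` satisfies `‖E‖ ^ p ^ H ≤ δ * M ^ (p^h)` (`SemiOp.congr`,
`add`), and `(‖E‖ ^ p ^ (H-h)) ^ p ^ h ≤ δ₁ ^ p ^ H * M ^ (p^h) ≤ (δ₁ * M) ^ (p^h)`. `lin`: for
`a ∈ F'`, `c * (a ^ (p^(H-h)) * x) ^ (p^h) = a ^ (p^H) * (c * x ^ (p^h))`. -/
theorem SemiOp.pow [IsUltrametricDist Ω] {p : ℕ} [Fact p.Prime] {F' : Subfield Ω}
    {H h : ℕ} {δ δ₁ : ℝ} {Λ : Ω → Ω} (hΛ : SemiOp p F' F' H δ Λ) (hh : h < H) (hδ : 0 ≤ δ)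
    (hp : ‖(p : Ω)‖ ≤ δ) (hδ₁ : 0 < δ₁) (hδ₁' : δ₁ ≤ 1) (hδδ : δ ≤ δ₁ ^ p ^ H) {c : Ω}
    (hc : c ∈ F') (hc1 : ‖c‖ ≤ 1) :
    SemiOp p F' F' (H - h) δ₁ (fun x => Λ (c * x ^ p ^ h)) := by
  have hp0 : 0 < p := (Fact.out : p.Prime).pos
  have hδ1 : δ ≤ 1 := hδδ.trans (pow_le_one₀ hδ₁.le hδ₁')
  have hp1 : ‖(p : Ω)‖ ≤ 1 := hp.trans hδ1
  have hmem : ∀ x ∈ F', c * x ^ p ^ h ∈ F' := fun x hx => F'.mul_mem hc (F'.pow_mem hx _)
  have hcn : ∀ z : Ω, ‖c * z‖ ≤ ‖z‖ := fun z => by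
    rw [norm_mul]
    exact mul_le_of_le_one_left (norm_nonneg _) hc1
  refine ⟨fun x hx => hΛ.map _ (hmem x hx), fun x hx => ?_, fun x hx y hy => ?_,
    fun a ha x hx => ?_⟩
  · have h1 := hΛ.norm _ (hmem x hx)
    have h2 : ‖c * x ^ p ^ h‖ ≤ ‖x‖ ^ p ^ h := (hcn _).trans (by rw [norm_pow])
    have hq : p ^ h ≠ 0 := (Nat.pow_pos hp0).ne'
    refine le_of_pow_le_pow_left₀ hq (norm_nonneg _) ?_
    rw [← pow_mul, ← pow_add, Nat.sub_add_cancel hh.le]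
    exact h1.trans h2
  · set M := max ‖x‖ ‖y‖ with hM
    have hM0 : 0 ≤ M := le_max_of_le_left (norm_nonneg _)
    have hxy : x + y ∈ F' := F'.add_mem hx hy
    have hv : c * x ^ p ^ h + c * y ^ p ^ h ∈ F' := F'.add_mem (hmem x hx) (hmem y hy)
    have hu1 : ‖c * (x + y) ^ p ^ h‖ ≤ M ^ p ^ h := by
      refine (hcn _).trans ?_
      rw [norm_pow]
      exact pow_le_pow_left₀ (norm_nonneg _) (IsUltrametricDist.norm_add_le_max _ _) _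
    have huv : ‖c * (x + y) ^ p ^ h - (c * x ^ p ^ h + c * y ^ p ^ h)‖ ≤ δ * M ^ p ^ h := by
      have h3 : c * (x + y) ^ p ^ h - (c * x ^ p ^ h + c * y ^ p ^ h) =
          c * ((x + y) ^ p ^ h - (x ^ p ^ h + y ^ p ^ h)) := by ring
      rw [h3]
      refine (hcn _).trans ((lam2_add_pow hp1 x y h).trans ?_)
      exact mul_le_mul_of_nonneg_right hp (by positivity)
    have h4 := hΛ.congr hδ (hmem _ hxy) hv hu1 huv hδ1
    have h5 := hΛ.add _ (hmem x hx) _ (hmem y hy)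
    have h6 : max ‖c * x ^ p ^ h‖ ‖c * y ^ p ^ h‖ ≤ M ^ p ^ h := by
      refine max_le ?_ ?_
      · refine (hcn _).trans ?_
        rw [norm_pow]
        exact pow_le_pow_left₀ (norm_nonneg _) (le_max_left _ _) _
      · refine (hcn _).trans ?_
        rw [norm_pow]
        exact pow_le_pow_left₀ (norm_nonneg _) (le_max_right _ _) _
    have h7 := h5.trans (mul_le_mul_of_nonneg_left h6 hδ)
    refine lam2_root hp0 hh hδ₁ hδ₁' hδδ (norm_nonneg _) hM0 ?_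
    have h8 : Λ (c * (x + y) ^ p ^ h) - Λ (c * x ^ p ^ h) - Λ (c * y ^ p ^ h) =
        (Λ (c * (x + y) ^ p ^ h) - Λ (c * x ^ p ^ h + c * y ^ p ^ h)) +
          (Λ (c * x ^ p ^ h + c * y ^ p ^ h) - Λ (c * x ^ p ^ h) - Λ (c * y ^ p ^ h)) := by ring
    rw [h8]
    rcases max_choice ‖Λ (c * (x + y) ^ p ^ h) - Λ (c * x ^ p ^ h + c * y ^ p ^ h)‖
      ‖Λ (c * x ^ p ^ h + c * y ^ p ^ h) - Λ (c * x ^ p ^ h) - Λ (c * y ^ p ^ h)‖ with h9 | h9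
    · refine (pow_le_pow_left₀ (norm_nonneg _) ((IsUltrametricDist.norm_add_le_max _ _).trans
        (le_of_eq h9)) _).trans h4
    · refine (pow_le_pow_left₀ (norm_nonneg _) ((IsUltrametricDist.norm_add_le_max _ _).trans
        (le_of_eq h9)) _).trans h7
  · have h1 := hΛ.lin a ha _ (hmem x hx)
    have h2 : c * (a ^ p ^ (H - h) * x) ^ p ^ h = a ^ p ^ H * (c * x ^ p ^ h) := by
      rw [mul_pow, ← pow_mul, ← pow_add, Nat.sub_add_cancel hh.le]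
      ring
    rw [h2]
    refine lam2_root hp0 hh hδ₁ hδ₁' hδδ (norm_nonneg _) (norm_nonneg _) (h1.trans ?_)
    refine mul_le_mul_of_nonneg_left ?_ hδ
    rw [← h2]
    refine (hcn _).trans ?_
    rw [norm_pow]

/-- LAM2c.  Sign and weakening of the error. -/
theorem SemiOp.neg {p : ℕ} {F F' : Subfield Ω} {t : ℕ} {δ : ℝ} {T : Ω → Ω}
    (h : SemiOp p F F' t δ T) : SemiOp p F F' t δ (fun x => -T x) := by
  refine ⟨fun x hx => F'.neg_mem (h.map x hx), fun x hx => ?_, fun x hx y hy => ?_,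
    fun y hy x hx => ?_⟩
  · rw [norm_neg]
    exact h.norm x hx
  · have h1 : -T (x + y) - -T x - -T y = -(T (x + y) - T x - T y) := by ring
    rw [h1, norm_neg]
    exact h.add x hx y hy
  · have h1 : -T (y ^ p ^ t * x) - y * -T x = -(T (y ^ p ^ t * x) - y * T x) := by ring
    rw [h1, norm_neg]
    exact h.lin y hy x hx

theorem SemiOp.weaken {p : ℕ} {F F' : Subfield Ω} {t : ℕ} {δ δ' : ℝ} {T : Ω → Ω}
    (h : SemiOp p F F' t δ T) (hδ : δ ≤ δ') : SemiOp p F F' t δ' T :=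
  ⟨h.map, h.norm,
    fun x hx y hy => (h.add x hx y hy).trans
      (mul_le_mul_of_nonneg_right hδ (le_max_of_le_left (norm_nonneg _))),
    fun y hy x hx => (h.lin y hy x hx).trans (mul_le_mul_of_nonneg_right hδ (norm_nonneg _))⟩

end MP1a953e
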