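import Pool.Agent.Lib.MP_1a953e_ag.LD6
import Pool.Agent.Lib.MP_1a953e_ag.LU5

/-!
# Module Main: main theorem
-/

namespace MP1a953e

open Polynomial IsLocalRing

universe v

private theorem main_ai {k L : Type*} [NormedField k] [NormedField L] [NormedAlgebra k L]
    {m d : ℕ} {u : Fin m → L} {α : L} (hD : LUData k d u α) :
    AlgebraicIndependent k (fun i : Fin (m + 1) => (Fin.cons α u : Fin (m + 1) → L) i) := by
  have hu : AlgebraicIndependent k u := by
    rw [algebraicIndependent_iff_injective_aeval]
    refine (injective_iff_map_eq_zero _).2 ?_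
    intro P hP
    ext s
    have h := hD.gauss P s
    rw [hP, norm_zero] at h
    simpa using norm_le_zero_iff.1 h
  have h2 : AlgebraicIndependent k (fun o : Option (Fin m) => o.elim α u) := by
    rw [hu.option_iff_transcendental]
    have h3 := hD.trans
    have h4 : Algebra.adjoin k (Set.range u) ≤
        (IntermediateField.adjoin k (Set.range u)).toSubalgebra :=
      IntermediateField.algebra_adjoin_le_adjoin _ _
    intro h5
    apply h3
    obtain ⟨p, hp0, hp⟩ := h5
    refine ⟨p.map (Subalgebra.inclusion h4).toRingHom, ?_, ?_⟩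
    · rw [Polynomial.map_ne_zero_iff]
      · exact hp0
      · exact Subalgebra.inclusion_injective h4
    · rw [Polynomial.aeval_def] at hp ⊢
      rw [Polynomial.eval₂_map]
      exact hp
  have h6 := h2.comp (fun i : Fin (m + 1) => (Fin.cons none (fun j => some j) :
    Fin (m + 1) → Option (Fin m)) i) (by
      intro i j hij
      cases i using Fin.cases with
      | zero =>
        cases j using Fin.cases with
        | zero => rfl
        | succ j => simp at hij
      | succ i =>
        cases j using Fin.cases with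
        | zero => simp at hij
        | succ j => simpa using hij)
  convert h6 using 2 with i
  cases i using Fin.cases with
  | zero => simp
  | succ i => simp

/-- Main theorem. -/
theorem main {p : ℕ} [Fact p.Prime] {k L : Type v} [NontriviallyNormedField k]
    [IsUltrametricDist k] [IsAlgClosed k] [CharP k p] [NormedField L] [IsUltrametricDist L]
    [NormedAlgebra k L] (hfg : (⊤ : IntermediateField k L).FG)
    (hval : ∀ x : L, ∃ c : k, ‖c‖ = ‖x‖) {m : ℕ} (htr : Algebra.trdeg k L = m + 1)
    (hres : Algebra.trdeg (ResidueField (O k)) (ResidueField (O L)) = m)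
    (hess : Algebra.EssFiniteType (ResidueField (O k)) (ResidueField (O L))) :
    (∃ y : Fin (m + 1) → L, AlgebraicIndependent k y ∧
      ∀ x : L, ∀ ε : ℝ, 0 < ε → ∃ z ∈ IntermediateField.adjoin k (Set.range y), ‖x - z‖ < ε) ∧
    ∀ A : Subalgebra (O k) L, A.FG → (∀ a ∈ A, ‖a‖ ≤ 1) → IsFractionRing A L →
      ∃ (n : ℕ) (f : Fin (n + 1) → L), (∀ i, f i ∈ A) ∧ f 0 ≠ 0 ∧
        (∃ i, ∃ c : O k, c ≠ 0 ∧ f i = algebraMap (O k) L c) ∧
        (∀ b ∈ A ⊔ Algebra.adjoin (O k) (Set.range fun i => f i / f 0), ‖b‖ ≤ 1) ∧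
        Algebra.Smooth (O k) ↥(A ⊔ Algebra.adjoin (O k) (Set.range fun i => f i / f 0)) := by
  obtain ⟨d, u, α, hD⟩ := exists_luData (p := p) hfg hval htr hres hess
  refine ⟨⟨fun i => (Fin.cons α u : Fin (m + 1) → L) i, main_ai hD, ?_⟩, ?_⟩
  · intro x ε hε
    obtain ⟨y, hy, hxy⟩ := hD.dense x ε hε
    refine ⟨y, ?_, hxy⟩
    have hr : (Set.range fun i => (Fin.cons α u : Fin (m + 1) → L) i) = Set.range u ∪ {α} := by
      rw [Fin.range_cons]
      ext z
      simp
    rw [hr]
    exact hy
  · intro A hA hA1 hAf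
    exact lu_blowup hD hval A hA hA1 hAf

end MP1a953e
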