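import Pool.Agent.Lib.MP_1a953e_ag.Tr1
import Pool.Agent.Lib.MP_1a953e_ag.Tr5
import Pool.Agent.Lib.MP_1a953e_ag.Tr6
import Pool.Agent.Lib.MP_1a953e_ag.Tr7
import Pool.Agent.Lib.MP_1a953e_ag.Tr8
import Pool.Agent.Lib.MP_1a953e_ag.Tr10
import Pool.Agent.Lib.MP_1a953e_ag.HR2
import Pool.Agent.Lib.MP_1a953e_ag.Em8
import Pool.Agent.Lib.MP_1a953e_ag.Em9

/-!
# Module Tr11: henselian rationality in mixed characteristic
-/

namespace MP1a953e

open Polynomial IsLocalRing

universe v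

private theorem tr11_closed_of_dense {Ω : Type*} [NormedField Ω] {F K : Subfield Ω}
    (hF : IsComplete (F : Set Ω)) (hd : DenseIn F K) : K ≤ F := by
  intro x hx
  have h2 : x ∈ closure (F : Set Ω) := by
    rw [Metric.mem_closure_iff]
    intro ε hε
    obtain ⟨a, ha, h3⟩ := hd.2 x hx ε hε
    exact ⟨a, ha, by rw [dist_eq_norm]; exact h3⟩
  rw [hF.isClosed.closure_eq] at h2
  exact h2

private theorem tr11_small {k : Type*} [NontriviallyNormedField k] {B : ℝ} (hB : 0 < B) :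
    ∃ c : k, c ≠ 0 ∧ ‖c‖ < B := by
  obtain ⟨c, h1, h2⟩ := NormedField.exists_norm_lt k hB
  exact ⟨c, norm_pos_iff.1 h1, h2⟩

/-- TR11 (mixed characteristic).  As `exists_luData` in module LD6 (adapt that proof): `exists_emb2`,
`exists_rd`, `RD.exists_tf` (`F`), `imm_of_res`, `denseVal_of_closed` (and `DenseVal.mono`),
`exists_T2`, `exists_P₀`, `algebraic_dense`. If `ι T ∉ F`: `hr_tf`, choose `c`, `α₀`, `α` as in LD6
(`exists_alpha_sep`), `RD.dense_of_close`, `tt_of_stable`, `lu_data2`. If `ι T ∈ F`, then `P₀ = F` and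
`K` is algebraic over `F`, so `K = F`: an element `x ∈ K`, `x ∉ F` would satisfy `TT F x`
(`tt_of_stable`), but `x` is algebraic over `F`. -/
theorem exists_luData2 {p : ℕ} [Fact p.Prime] {k L : Type v} [NontriviallyNormedField k]
    [IsUltrametricDist k] [IsAlgClosed k] [CharZero k] (hp : ‖(p : k)‖ < 1) [NormedField L]
    [IsUltrametricDist L] [NormedAlgebra k L] (hfg : (⊤ : IntermediateField k L).FG)
    (hval : ∀ x : L, ∃ c : k, ‖c‖ = ‖x‖) {m : ℕ} (htr : Algebra.trdeg k L = m + 1)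
    (hres : Algebra.trdeg (ResidueField (O k)) (ResidueField (O L)) = m)
    (hess : Algebra.EssFiniteType (ResidueField (O k)) (ResidueField (O L))) :
    ∃ (d : ℕ) (u : Fin m → L) (α : L), LUData k d u α := by
  have hnt : ∃ x : L, 1 < ‖x‖ := by
    obtain ⟨c, hc⟩ := NormedField.exists_one_lt_norm k
    exact ⟨algebraMap k L c, by rw [norm_algebraMap']; exact hc⟩
  obtain ⟨Ω, instΩ, hU, hA, ι, K, hE, halgK⟩ := exists_emb2 L hnt
  have hcharL : CharZero L := charZero_of_injective_algebraMap (algebraMap k L).injective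
  have hchar : CharZero Ω := charZero_of_injective_ringHom ι.injective
  have hkc : IsAlgClosed (kO k ι) := by
    have e : k ≃+* (ι.comp (algebraMap k L)).fieldRange :=
      RingEquiv.ofBijective (ι.comp (algebraMap k L)).rangeRestrictField
        ⟨(ι.comp (algebraMap k L)).rangeRestrictField.injective,
          (ι.comp (algebraMap k L)).rangeRestrictField_bijective.2⟩
    exact IsAlgClosed.of_ringEquiv k _ e
  have hmemk : ∀ c : k, ι (algebraMap k L c) ∈ kO k ι := fun c => ⟨c, rfl⟩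
  have hknorm : ∀ c : k, ‖ι (algebraMap k L c)‖ = ‖c‖ := fun c => by
    rw [hE.norm, norm_algebraMap']
  have hpΩ : ‖(p : Ω)‖ < 1 := by
    have h1 := hknorm (p : k)
    rw [map_natCast, map_natCast] at h1
    rw [h1]
    exact hp
  have hknt : ∃ x ∈ kO k ι, 1 < ‖x‖ := by
    obtain ⟨c, hc⟩ := NormedField.exists_one_lt_norm k
    exact ⟨_, hmemk c, by rw [hknorm]; exact hc⟩
  obtain ⟨u, a, d, f, haK, hgauss, hRD, hresK⟩ := exists_rd hE hres hess
  have hkK : kO k ι ≤ K := by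
    rintro x ⟨c, rfl⟩
    exact hE.mem _
  obtain ⟨F, hFK, hFd, hTFF⟩ := hRD.exists_tf hkc hE.complete hkK (fun i => hE.mem _) haK
  have hkF : kO k ι ≤ F := hTFF.le
  have hkUF : kU (kO k ι) (fun i => ι (u i)) ≤ F := (le_adj _ _).trans hFd.1
  have huF : ∀ i, ι (u i) ∈ F := fun i => hkUF
    ((le_sup_right : Subfield.closure (Set.range fun i => ι (u i)) ≤ _)
      (Subfield.subset_closure ⟨i, rfl⟩))
  have haF : a ∈ F := hFd.1 (mem_adj_self _ _)
  have hvalK : ∀ x ∈ K, ∃ c ∈ kO k ι, ‖c‖ = ‖x‖ := by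
    intro x hx
    by_cases hx0 : x = 0
    · exact ⟨0, (kO k ι).zero_mem, by rw [hx0]⟩
    · obtain ⟨l, hl⟩ := hE.dense x hx ‖x‖ (norm_pos_iff.2 hx0)
      have h1 : ‖ι l‖ = ‖x‖ := by
        have h3 : ‖x - ι l‖ ≠ ‖x‖ := ne_of_lt hl
        have h4 : ι l = x + -(x - ι l) := by ring
        rw [h4, IsUltrametricDist.norm_add_eq_max_of_norm_ne_norm (by rw [norm_neg]; exact h3.symm),
          norm_neg]
        exact max_eq_left hl.le
      obtain ⟨c, hc⟩ := hval l
      exact ⟨_, hmemk c, by rw [hknorm, hc, ← hE.norm, h1]⟩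
  have hI : Imm F K := imm_of_res hFK hkF hvalK (fun x hx h1 => by
    obtain ⟨e, he, h2⟩ := hresK x hx h1
    exact ⟨e, hFd.1 he, h2⟩)
  have hv : DenseVal F := (denseVal_of_closed hkc hknt).mono hkF
  obtain ⟨T, hT⟩ := exists_T2 u hgauss htr
  obtain ⟨P₀, hPc, hPd, hPK, E, hfinE, hsepE, hEK⟩ := exists_P₀ hE hkF hFK u huF T hT hfg
  have hL := algebraic_dense hE hkF u huF T hT
  by_cases hTF : ι T ∈ F
  · -- `K = F`
    have hadj : adj F (ι T) = F := le_antisymm (adj_le le_rfl hTF) (le_adj F _)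
    rw [hadj] at hPd
    have hPF : P₀ = F := le_antisymm (tr11_closed_of_dense hTFF.complete hPd) hPd.1
    subst hPF
    have hKF : K ≤ P₀ := by
      intro b hb
      by_contra hbP
      have hbE : b ∈ E := by
        have : b ∈ E.toSubfield := by rw [hEK]; exact hb
        exact this
      have h1 : IsAlgebraic P₀ (⟨b, hbE⟩ : E) := Algebra.IsAlgebraic.isAlgebraic _
      have h2 : IsAlgebraic P₀ b := h1.algebraMap (A := Ω)
      have h3 : TT P₀ b := tt_of_stable hpΩ hTFF hv hI hb hbP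
      have h4 := h3.nb b h2
      rw [sub_self, norm_zero] at h4
      exact absurd h3.pos (not_lt.2 h4.le)
    obtain ⟨α₀, hα₀⟩ := hE.dense a haK 1 one_pos
    obtain ⟨α, hα, hsepα⟩ := exists_alpha_sep u htr T hT α₀ one_pos
    have hαa : ‖ι α - a‖ < 1 := by
      have h1 : ι α - a = ι (α - α₀) + -(a - ι α₀) := by rw [map_sub]; ring
      rw [h1]
      refine lt_of_le_of_lt (IsUltrametricDist.norm_add_le_max _ _) (max_lt ?_ ?_)
      · rw [hE.norm]; exact hα
      · rw [norm_neg]; exact hα₀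
    have hdense : DenseIn (adj (kU (kO k ι) (fun i => ι (u i))) (ι α)) K :=
      hRD.dense_of_close (Y := 0) (c := 0) hFd hFK hE.complete (hE.mem α)
        (Or.inl ⟨rfl, hKF, hαa⟩)
    have hαF : ι α ∈ P₀ := hKF (hE.mem α)
    refine ⟨d, u, α, lu_data2 hE u hRD hFd hgauss hfg htr α hαa ?_ hsepα hdense
      (Or.inr hαF)⟩
    rw [Metric.infDist_zero_of_mem hαF]
    exact one_pos
  · obtain ⟨Y, hYK, hYF, hYd⟩ := hr_tf hpΩ hTFF hv hI hE.complete halgK (hE.mem T) hTF hPc hPd E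
      hEK hL
    have hTY : TT F Y := tt_of_stable hpΩ hTFF hv hI hYK hYF
    have hY0 : Y ≠ 0 := fun h => hYF (by rw [h]; exact F.zero_mem)
    obtain ⟨c, hc0, hc1⟩ := tr11_small (k := k) (B := 1 / ‖Y‖) (by positivity)
    set c' : Ω := ι (algebraMap k L c) with hc'
    have hcn : ‖c'‖ = ‖c‖ := hknorm c
    have hcpos : 0 < ‖c‖ := norm_pos_iff.2 hc0
    have hc'0 : c' ≠ 0 := norm_pos_iff.1 (by rw [hcn]; exact hcpos)
    have hcY : ‖c' * Y‖ < 1 := by
      rw [norm_mul, hcn]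
      rwa [lt_div_iff₀ (norm_pos_iff.2 hY0)] at hc1
    set δ : ℝ := min 1 (‖c'‖ * Metric.infDist Y (F : Set Ω)) with hδ
    have hδ0 : 0 < δ := lt_min one_pos (mul_pos (norm_pos_iff.2 hc'0) hTY.pos)
    have hacY : a + c' * Y ∈ K := K.add_mem haK (K.mul_mem (hkK (hmemk c)) hYK)
    obtain ⟨α₀, hα₀⟩ := hE.dense _ hacY δ hδ0
    obtain ⟨α, hα, hsepα⟩ := exists_alpha_sep u htr T hT α₀ hδ0
    have hα2 : ‖ι α - (a + c' * Y)‖ < δ := by
      have h1 : ι α - (a + c' * Y) = ι (α - α₀) + -(a + c' * Y - ι α₀) := by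
        rw [map_sub]; ring
      rw [h1]
      refine lt_of_le_of_lt (IsUltrametricDist.norm_add_le_max _ _) (max_lt ?_ ?_)
      · rw [hE.norm]; exact hα
      · rw [norm_neg]; exact hα₀
    have hαa : ‖ι α - a‖ < 1 := by
      have h1 : ι α - a = (ι α - (a + c' * Y)) + c' * Y := by ring
      rw [h1]
      exact lt_of_le_of_lt (IsUltrametricDist.norm_add_le_max _ _)
        (max_lt (lt_of_lt_of_le hα2 (min_le_left _ _)) hcY)
    have hdense : DenseIn (adj (kU (kO k ι) (fun i => ι (u i))) (ι α)) K :=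
      hRD.dense_of_close (Y := Y) (c := c') hFd hFK hE.complete (hE.mem α)
        (Or.inr ⟨hTY, hYd, hmemk c, hc'0, hcY, hαa, lt_of_lt_of_le hα2 (min_le_right _ _)⟩)
    have hαF : ι α ∉ F := by
      intro h1
      have h2 : adj (kU (kO k ι) (fun i => ι (u i))) (ι α) ≤ F := adj_le hkUF h1
      have h3 : DenseIn F K := ⟨hFK, fun x hx ε hε => by
        obtain ⟨b, hb, h4⟩ := hdense.2 x hx ε hε
        exact ⟨b, h2 hb, h4⟩⟩
      exact hYF (tr11_closed_of_dense hTFF.complete h3 hYK)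
    have hTα : TT F (ι α) := tt_of_stable hpΩ hTFF hv hI (hE.mem α) hαF
    refine ⟨d, u, α, lu_data2 hE u hRD hFd hgauss hfg htr α hαa ?_ hsepα hdense
      (Or.inl hTα)⟩
    refine lt_of_le_of_lt (Metric.infDist_le_dist_of_mem haF) ?_
    rw [dist_eq_norm]
    exact hαa

end MP1a953e
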