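import Pool.Agent.Lib.MP_1a953e_ag.Defs

/-!
# Module NF1: root functionals
-/

namespace MP1a953e

open Polynomial

set_option linter.unusedSectionVars false

variable {Ω : Type*} [NormedField Ω] [IsUltrametricDist Ω] [IsAlgClosed Ω]
variable {p : ℕ} [Fact p.Prime] [CharP Ω p]

/-- NF1. -/
theorem rt_pow (t : ℕ) (x : Ω) : (rt p t x) ^ p ^ t = x := by
  have h : ∃ y : Ω, y ^ p ^ t = x :=
    IsAlgClosed.exists_pow_nat_eq x (pow_pos (Fact.out : p.Prime).pos t)
  unfold rt
  rw [dif_pos h]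
  exact h.choose_spec

theorem rt_unique {t : ℕ} {x y : Ω} (h : y ^ p ^ t = x) : rt p t x = y := by
  have h1 := rt_pow (p := p) t x
  rw [← h] at h1 ⊢
  have h2 := (iterateFrobenius Ω p t).injective
  apply h2
  rw [iterateFrobenius_def, iterateFrobenius_def]
  exact h1

theorem rt_zero (t : ℕ) : rt p t (0 : Ω) = 0 :=
  rt_unique (zero_pow (pow_pos (Fact.out : p.Prime).pos t).ne')

theorem rt_add (t : ℕ) (x y : Ω) : rt p t (x + y) = rt p t x + rt p t y := by
  apply rt_unique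
  rw [add_pow_char_pow, rt_pow, rt_pow]

theorem rt_neg (t : ℕ) (x : Ω) : rt p t (-x) = -rt p t x := by
  have h := rt_add (p := p) t x (-x)
  rw [add_neg_cancel, rt_zero] at h
  exact (neg_eq_of_add_eq_zero_right h.symm).symm

theorem rt_sub (t : ℕ) (x y : Ω) : rt p t (x - y) = rt p t x - rt p t y := by
  rw [sub_eq_add_neg, rt_add, rt_neg, sub_eq_add_neg]

theorem rt_succ (t : ℕ) (x : Ω) : rt p (t + 1) (x ^ p) = rt p t x := by
  apply rt_unique
  rw [pow_succ, pow_mul, rt_pow]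

/-- NF2.  `rt` and `lam` are additive. -/
theorem lam_add (m j : ℕ) (G G' : Polynomial Ω) :
    lam p m j (G + G') = lam p m j G + lam p m j G' := by
  unfold lam
  rw [← Finset.sum_add_distrib]
  exact Finset.sum_congr rfl fun t _ => by rw [coeff_add, rt_add]

theorem coeff_pow_p (h : Polynomial Ω) (n : ℕ) :
    (h ^ p).coeff n = if p ∣ n then (h.coeff (n / p)) ^ p else 0 := by
  have hp : 0 < p := (Fact.out : p.Prime).pos
  rw [← Polynomial.map_frobenius_expand, coeff_map, coeff_expand hp, frobenius_def]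
  split_ifs
  · rfl
  · exact zero_pow hp.ne'

/-- NF3.  `lam` kills `h ^ p - h` for `p ∤ j`, if `deg h < p ^ (m - 1)`: the coefficient of `h ^ p` at
`j * p ^ t` is `(h.coeff (j * p ^ (t - 1))) ^ p` for `t ≥ 1` and `0` for `t = 0`, so both `lam (h ^ p)`
and `lam h` are equal to the sum of the `rt p t (h.coeff (j * p ^ t))` over `t < m - 1`. -/
theorem lam_as (m j : ℕ) (hm : 1 ≤ m) (hj : ¬ p ∣ j) (h : Polynomial Ω)
    (hh : h.natDegree < p ^ (m - 1)) : lam p m j (h ^ p - h) = 0 := by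
  have hp : 0 < p := (Fact.out : p.Prime).pos
  obtain ⟨n, rfl⟩ : ∃ n, m = n + 1 := ⟨m - 1, by omega⟩
  rw [Nat.add_sub_cancel] at hh
  have hj0 : 1 ≤ j := by
    rcases Nat.eq_zero_or_pos j with h0 | h0
    · exact absurd (h0 ▸ dvd_zero p) hj
    · exact h0
  unfold lam
  have h1 : ∀ t, rt p t ((h ^ p - h).coeff (j * p ^ t)) =
      rt p t ((h ^ p).coeff (j * p ^ t)) - rt p t (h.coeff (j * p ^ t)) := by
    intro t
    rw [coeff_sub, rt_sub]
  simp only [h1]
  rw [Finset.sum_sub_distrib, Finset.sum_range_succ', Finset.sum_range_succ, pow_zero, mul_one,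
    coeff_pow_p, if_neg hj, rt_zero, add_zero]
  have h2 : h.coeff (j * p ^ n) = 0 := by
    apply coeff_eq_zero_of_natDegree_lt
    exact lt_of_lt_of_le hh (Nat.le_mul_of_pos_left _ hj0)
  rw [h2, rt_zero, add_zero, sub_eq_zero]
  refine Finset.sum_congr rfl fun t _ => ?_
  have h3 : j * p ^ (t + 1) = p * (j * p ^ t) := by ring
  rw [coeff_pow_p, h3, if_pos (Dvd.intro _ rfl), Nat.mul_div_cancel_left _ hp, rt_succ]

end MP1a953e
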