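import Pool.Agent.Lib.MP_1a953e_ag.NF1

/-!
# Module NF2: normal form
-/

namespace MP1a953e

open Polynomial

set_option linter.unusedSectionVars false

variable {Ω : Type*} [NormedField Ω] [IsUltrametricDist Ω] [IsAlgClosed Ω]
variable {p : ℕ} [Fact p.Prime] [CharP Ω p]

theorem rt_pow_mem {F : Subfield Ω} {m t s : ℕ} (ht : t ≤ m) {a : Ω} (ha : a ∈ F) :
    (rt p t a) ^ p ^ s ∈ rootField p m F := by
  rw [mem_rootField]
  have h : ((rt p t a) ^ p ^ s) ^ p ^ m = a ^ p ^ (s + (m - t)) := by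
    conv_rhs => rw [← rt_pow (p := p) t a]
    rw [← pow_mul, ← pow_mul, ← pow_add, ← pow_add]
    congr 2
    omega
  rw [h]
  exact pow_mem ha _

theorem lam_zero (m j : ℕ) : lam p m j (0 : Polynomial Ω) = 0 := by
  unfold lam
  refine Finset.sum_eq_zero fun t _ => ?_
  rw [coeff_zero, rt_zero]

theorem lam_C_mul_X_pow {m j i₀ t₀ : ℕ} (hj : ¬ p ∣ j) (hi : ¬ p ∣ i₀) (ht : t₀ < m) (a : Ω) :
    lam p m j (C a * X ^ (i₀ * p ^ t₀)) = if j = i₀ then rt p t₀ a else 0 := by
  have hp : p.Prime := Fact.out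
  unfold lam
  have key : ∀ t, j * p ^ t = i₀ * p ^ t₀ → j = i₀ ∧ t = t₀ := by
    intro t h
    have h1 : t = t₀ := by
      rcases lt_trichotomy t t₀ with h2 | h2 | h2
      · exfalso
        obtain ⟨k, rfl⟩ : ∃ k, t₀ = t + 1 + k := ⟨t₀ - t - 1, by omega⟩
        have h3 : j * p ^ t = (p * (i₀ * p ^ k)) * p ^ t := by
          rw [h]; ring
        have h4 := Nat.eq_of_mul_eq_mul_right (pow_pos hp.pos t) h3
        exact hj ⟨_, h4⟩
      · exact h2
      · exfalso
        obtain ⟨k, rfl⟩ : ∃ k, t = t₀ + 1 + k := ⟨t - t₀ - 1, by omega⟩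
        have h3 : i₀ * p ^ t₀ = (p * (j * p ^ k)) * p ^ t₀ := by
          rw [← h]; ring
        have h4 := Nat.eq_of_mul_eq_mul_right (pow_pos hp.pos t₀) h3
        exact hi ⟨_, h4⟩
    subst h1
    exact ⟨Nat.eq_of_mul_eq_mul_right (pow_pos hp.pos t) h, rfl⟩
  split_ifs with h
  · subst h
    rw [Finset.sum_eq_single t₀]
    · rw [coeff_C_mul_X_pow, if_pos rfl]
    · intro t _ hne
      rw [coeff_C_mul_X_pow, if_neg fun h => hne (key t h).2, rt_zero]
    · intro h
      exact absurd (Finset.mem_range.2 ht) h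
  · refine Finset.sum_eq_zero fun t _ => ?_
    rw [coeff_C_mul_X_pow, if_neg fun h' => h (key t h').1, rt_zero]

/-- The normal form of a monomial. -/
theorem nf_monomial {F : Subfield Ω} (m : ℕ) (hm : 1 ≤ m) {a : Ω} (ha : a ∈ F) (i : ℕ)
    (hi : i < p ^ m) :
    ∃ h : Polynomial Ω, Coeffs (rootField p m F) h ∧ h.natDegree < p ^ (m - 1) ∧
      C a * X ^ i = C ((C a * X ^ i : Polynomial Ω).coeff 0) +
        ∑ j ∈ J p m, C (lam p m j (C a * X ^ i)) * X ^ j + (h ^ p - h) := by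
  have hp : p.Prime := Fact.out
  have hpm : 0 < p ^ (m - 1) := pow_pos hp.pos _
  rcases Nat.eq_zero_or_pos i with rfl | hi0
  · refine ⟨0, fun i => by simp, by simpa using hpm, ?_⟩
    have h1 : ∀ j ∈ J p m, C (lam p m j (C a * X ^ 0 : Polynomial Ω)) * X ^ j =
        (0 : Polynomial Ω) := by
      intro j hj
      have hj1 : ¬ p ∣ j := (Finset.mem_filter.1 hj).2
      have hj0 : j ≠ 0 := fun h => hj1 (h ▸ dvd_zero p)
      have h2 : lam p m j (C a * X ^ 0 : Polynomial Ω) = 0 := by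
        unfold lam
        refine Finset.sum_eq_zero fun t _ => ?_
        rw [coeff_C_mul_X_pow, if_neg (Nat.mul_ne_zero hj0 (pow_pos hp.pos t).ne'), rt_zero]
      rw [h2, C_0, zero_mul]
    rw [Finset.sum_eq_zero h1, zero_pow hp.ne_zero]
    simp
  · obtain ⟨t₀, i₀, hi₀, rfl⟩ := Nat.exists_eq_pow_mul_and_not_dvd hi0.ne' p hp.ne_one
    have hcom : p ^ t₀ * i₀ = i₀ * p ^ t₀ := mul_comm _ _
    rw [hcom] at hi hi0 ⊢
    have hi₀0 : 0 < i₀ := by
      rcases Nat.eq_zero_or_pos i₀ with h | h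
      · rw [h, zero_mul] at hi0; exact absurd hi0 (lt_irrefl _)
      · exact h
    have ht₀ : t₀ < m := by
      by_contra hc
      have h1 : p ^ m ≤ p ^ t₀ := Nat.pow_le_pow_right hp.pos (by omega)
      have h2 : p ^ t₀ ≤ i₀ * p ^ t₀ := Nat.le_mul_of_pos_left _ hi₀0
      omega
    have hi₀J : i₀ ∈ J p m := by
      refine Finset.mem_filter.2 ⟨Finset.mem_range.2 ?_, hi₀⟩
      have h2 : i₀ ≤ i₀ * p ^ t₀ := Nat.le_mul_of_pos_right _ (pow_pos hp.pos _)
      omega
    have h1 : ∑ j ∈ J p m, C (lam p m j (C a * X ^ (i₀ * p ^ t₀) : Polynomial Ω)) * X ^ j =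
        C (rt p t₀ a) * X ^ i₀ := by
      rw [Finset.sum_eq_single i₀]
      · rw [lam_C_mul_X_pow hi₀ hi₀ ht₀, if_pos rfl]
      · intro j hj hne
        rw [lam_C_mul_X_pow (Finset.mem_filter.1 hj).2 hi₀ ht₀, if_neg hne, C_0, zero_mul]
      · intro h
        exact absurd hi₀J h
    rw [h1]
    have hc0 : (C a * X ^ (i₀ * p ^ t₀) : Polynomial Ω).coeff 0 = 0 := by
      rw [coeff_C_mul_X_pow, if_neg hi0.ne]
    rw [hc0, C_0, zero_add]
    set w : Polynomial Ω := C (rt p t₀ a) * X ^ i₀ with hw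
    have hwp : ∀ s, w ^ p ^ s = C ((rt p t₀ a) ^ p ^ s) * X ^ (i₀ * p ^ s) := by
      intro s
      rw [hw, mul_pow, ← C_pow, ← pow_mul]
    refine ⟨∑ s ∈ Finset.range t₀, w ^ p ^ s, ?_, ?_, ?_⟩
    · intro n
      rw [finsetSum_coeff]
      refine sum_mem fun s _ => ?_
      rw [hwp, coeff_C_mul_X_pow]
      split_ifs
      · exact rt_pow_mem ht₀.le ha
      · exact zero_mem _
    · refine lt_of_le_of_lt (natDegree_sum_le_of_forall_le (n := p ^ (m - 1) - 1) _ _ ?_)
        (by omega)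
      intro s hs
      rw [Finset.mem_range] at hs
      rw [hwp]
      refine (natDegree_C_mul_X_pow_le _ _).trans ?_
      have h2 : i₀ * p ^ s * p ≤ i₀ * p ^ t₀ := by
        rw [mul_assoc, ← pow_succ]
        exact Nat.mul_le_mul_left _ (Nat.pow_le_pow_right hp.pos hs)
      have h3 : p ^ m = p ^ (m - 1) * p := by
        rw [← pow_succ, Nat.sub_add_cancel hm]
      have h4 : i₀ * p ^ s * p < p ^ (m - 1) * p := by
        rw [← h3]; omega
      have h5 := lt_of_mul_lt_mul_right h4 (Nat.zero_le _)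
      omega
    · have h2 : (∑ s ∈ Finset.range t₀, w ^ p ^ s) ^ p = ∑ s ∈ Finset.range t₀, w ^ p ^ (s + 1) := by
        rw [sum_pow_char]
        refine Finset.sum_congr rfl fun s _ => ?_
        rw [← pow_mul, ← pow_succ]
      have h3 := Finset.sum_range_succ (fun s => w ^ p ^ s) t₀
      rw [Finset.sum_range_succ', pow_zero, pow_one] at h3
      rw [h2, eq_sub_of_add_eq h3]
      have h4 : w ^ p ^ t₀ = C a * X ^ (i₀ * p ^ t₀) := by
        rw [hwp, rt_pow]
      rw [h4]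
      ring

/-- NF4 (normal form).  For `i = j * p ^ t` (`p ∤ j`, `i < p ^ m`, `i ≥ 1`) let
`w = rt p t (G.coeff i) * X ^ j`; then `G.coeff i * X ^ i = w ^ (p ^ t)` and
`w ^ (p ^ t) - w = h ^ p - h` with `h = ∑_{s < t} w ^ (p ^ s)`, `deg h ≤ j p ^ (t-1) < p ^ (m - 1)`. Sum
over all `i`. The coefficients of `h` are sums of `(rt p t x) ^ (p ^ s)` with `x ∈ F`,
`t < m`, so they are in `rootField p m F`. -/
theorem nf {F : Subfield Ω} (m : ℕ) (hm : 1 ≤ m) {G : Polynomial Ω} (hG : Coeffs F G)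
    (hdeg : G.natDegree < p ^ m) :
    ∃ h : Polynomial Ω, Coeffs (rootField p m F) h ∧ h.natDegree < p ^ (m - 1) ∧
      G = C (G.coeff 0) + ∑ j ∈ J p m, C (lam p m j G) * X ^ j + (h ^ p - h) := by
  have hp : p.Prime := Fact.out
  have hpm : 0 < p ^ (m - 1) := pow_pos hp.pos _
  have key : ∀ S : Finset ℕ, (∀ i ∈ S, i < p ^ m) →
      ∃ h : Polynomial Ω, Coeffs (rootField p m F) h ∧ h.natDegree < p ^ (m - 1) ∧
      (∑ i ∈ S, C (G.coeff i) * X ^ i) = C ((∑ i ∈ S, C (G.coeff i) * X ^ i : Polynomial Ω).coeff 0)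
        + ∑ j ∈ J p m, C (lam p m j (∑ i ∈ S, C (G.coeff i) * X ^ i)) * X ^ j + (h ^ p - h) := by
    intro S
    induction S using Finset.induction_on with
    | empty =>
      intro _
      refine ⟨0, fun i => by simp, by simpa using hpm, ?_⟩
      simp only [Finset.sum_empty, coeff_zero, C_0, lam_zero, zero_mul, Finset.sum_const_zero,
        zero_pow hp.ne_zero, sub_zero, add_zero]
    | insert i S hi ih =>
      intro hS
      obtain ⟨h, h1, h2, h3⟩ := ih fun i hi => hS i (Finset.mem_insert_of_mem hi)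
      obtain ⟨h', h1', h2', h3'⟩ := nf_monomial (F := F) (p := p) m hm (hG i) i
        (hS i (Finset.mem_insert_self _ _))
      refine ⟨h' + h, fun n => ?_, lt_of_le_of_lt (natDegree_add_le _ _) (max_lt h2' h2), ?_⟩
      · rw [coeff_add]
        exact add_mem (h1' n) (h1 n)
      · rw [Finset.sum_insert hi]
        have e1 : ∑ j ∈ J p m, C (lam p m j (C (G.coeff i) * X ^ i +
            ∑ i ∈ S, C (G.coeff i) * X ^ i)) * X ^ j =
            ∑ j ∈ J p m, C (lam p m j (C (G.coeff i) * X ^ i)) * X ^ j +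
            ∑ j ∈ J p m, C (lam p m j (∑ i ∈ S, C (G.coeff i) * X ^ i)) * X ^ j := by
          rw [← Finset.sum_add_distrib]
          refine Finset.sum_congr rfl fun j _ => ?_
          rw [lam_add, C_add, add_mul]
        rw [e1, coeff_add, C_add, add_pow_char]
        conv_lhs => rw [h3, h3']
        ring
  have hsum : G = ∑ i ∈ Finset.range (p ^ m), C (G.coeff i) * X ^ i := by
    conv_lhs => rw [G.as_sum_range_C_mul_X_pow' hdeg]
  obtain ⟨h, h1, h2, h3⟩ := key (Finset.range (p ^ m)) fun i hi => Finset.mem_range.1 hi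
  rw [← hsum] at h3
  exact ⟨h, h1, h2, h3⟩

/-- NF5.  The coefficients of the normal form are in `rootField p m F`. -/
theorem lam_mem {F : Subfield Ω} (m j : ℕ) {G : Polynomial Ω} (hG : Coeffs F G) :
    lam p m j G ∈ rootField p m F := by
  unfold lam
  refine sum_mem fun t ht => ?_
  have h := rt_pow_mem (p := p) (s := 0) (Finset.mem_range.1 ht).le (hG (j * p ^ t))
  rwa [pow_zero, pow_one] at h

end MP1a953e
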