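import Pool.Agent.Lib.MP_1a953e_ag.NF2
import Pool.Agent.Lib.MP_1a953e_ag.Calc1

/-!
# Module NF3: lam of Taylor polynomials
-/

namespace MP1a953e

open Polynomial

set_option linter.unusedSectionVars false

variable {Ω : Type*} [NormedField Ω] [IsUltrametricDist Ω] [IsAlgClosed Ω]
variable {p : ℕ} [Fact p.Prime] [CharP Ω p]

private theorem nf3_coeffs_mul {F : Subfield Ω} {f g : Polynomial Ω} (hf : Coeffs F f)
    (hg : Coeffs F g) : Coeffs F (f * g) := by
  intro n
  rw [coeff_mul]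
  exact sum_mem fun x _ => mul_mem (hf _) (hg _)

private theorem nf3_coeffs_pow {F : Subfield Ω} {f : Polynomial Ω} (hf : Coeffs F f) (n : ℕ) :
    Coeffs F (f ^ n) := by
  induction n with
  | zero =>
    intro i
    rw [pow_zero, coeff_one]
    split_ifs
    · exact one_mem _
    · exact zero_mem _
  | succ n ih =>
    rw [pow_succ]
    exact nf3_coeffs_mul ih hf

private theorem nf3_coeffs_hasse {F : Subfield Ω} {f : Polynomial Ω} (hf : Coeffs F f) (k : ℕ) :
    Coeffs F (hasseDeriv k f) := by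
  intro n
  rw [hasseDeriv_coeff]
  exact mul_mem (natCast_mem _ _) (hf _)

/-- NF6.  `lam` of the Taylor polynomial has constant norm for `a ∈ F` close to `T`:
`(lam p m j (taylor a g)) ^ (p ^ m)` is the value at `a` of the polynomial
`∑_{t < m} (hasseDeriv (j * p ^ t) g) ^ (p ^ (m - t))` over `F`; apply `TT.ec`. -/
theorem lam_const {F : Subfield Ω} {T : Ω} (hT : TT F T) {g : Polynomial Ω} (hg : Coeffs F g)
    (m j : ℕ) :
    ∃ γ : ℝ, 0 ≤ γ ∧ ∃ ρ > Metric.infDist T (F : Set Ω), ∀ a : Ω, ‖T - a‖ < ρ →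
      ‖lam p m j (taylor a g)‖ = γ := by
  have hp : p.Prime := Fact.out
  have key : ∀ a : Ω, (lam p m j (taylor a g)) ^ p ^ m =
      (∑ t ∈ Finset.range m, (hasseDeriv (j * p ^ t) g) ^ p ^ (m - t)).eval a := by
    intro a
    unfold lam
    rw [sum_pow_char_pow, eval_finsetSum]
    refine Finset.sum_congr rfl fun t ht => ?_
    rw [Finset.mem_range] at ht
    have h1 : m = t + (m - t) := by omega
    conv_lhs => rw [h1]
    rw [pow_add, pow_mul, rt_pow, taylor_coeff, eval_pow]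
  obtain ⟨ρ, hρ, h⟩ := hT.ec (g := ∑ t ∈ Finset.range m,
    (hasseDeriv (j * p ^ t) g) ^ p ^ (m - t)) (by
      intro n
      rw [finsetSum_coeff]
      exact sum_mem fun t _ => nf3_coeffs_pow (nf3_coeffs_hasse hg _) _ n)
  refine ⟨‖lam p m j (taylor T g)‖, norm_nonneg _, ρ, hρ, fun a ha => ?_⟩
  have h1 := h a ha
  rw [← key, ← key, norm_pow, norm_pow] at h1
  exact (pow_left_inj₀ (norm_nonneg _) (norm_nonneg _) (pow_pos hp.pos m).ne').1 h1

private theorem nf3_lam_sum {ι : Type*} (m j : ℕ) (s : Finset ι) (f : ι → Polynomial Ω) :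
    lam p m j (∑ i ∈ s, f i) = ∑ t ∈ Finset.range m, rt p t (∑ i ∈ s, (f i).coeff (j * p ^ t)) := by
  unfold lam
  refine Finset.sum_congr rfl fun t _ => ?_
  rw [finsetSum_coeff]

/-- NF7 (effect of a translation).  Let `G` have degree `< p ^ m` and coefficients in `F`, `e : Ω`. Then
`lam 1 (taylor e G) = ∑_{t < m} rt t (∑_{j ∈ J} (j.choose (p ^ t)) * lam j G * e ^ (j - p ^ t))`.
Proof: by `nf`, `G = C _ + ∑ C (lam j G) * X ^ j + (h ^ p - h)`; `taylor e` is a ring homomorphism
preserving degrees, so by `lam_add`, `lam_as` only the middle term contributes, and the coefficient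
of `taylor e (X ^ j) = (X + C e) ^ j` at `p ^ t` is `(j.choose (p ^ t)) * e ^ (j - p ^ t)`
(zero if `p ^ t > j`). -/
theorem lam_taylor (m : ℕ) (hm : 1 ≤ m) {G : Polynomial Ω} (hdeg : G.natDegree < p ^ m) (e : Ω) :
    lam p m 1 (taylor e G) = ∑ t ∈ Finset.range m,
      rt p t (∑ j ∈ J p m, ((j.choose (p ^ t) : ℕ) : Ω) * lam p m j G * e ^ (j - p ^ t)) := by
  have hp : p.Prime := Fact.out
  obtain ⟨h, -, h2, h3⟩ := nf (F := ⊤) (p := p) m hm (G := G) (fun n => Subfield.mem_top _) hdeg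
  have h4 : taylor e G = C (G.coeff 0) + ∑ j ∈ J p m, C (lam p m j G) * (X + C e) ^ j +
      ((taylor e h) ^ p - taylor e h) := by
    conv_lhs => rw [h3]
    rw [map_add, map_add, map_sub, map_sum, taylor_C, taylor_pow]
    congr 2
    refine Finset.sum_congr rfl fun j _ => ?_
    rw [taylor_mul, taylor_C, taylor_X_pow]
  have h5 : lam p m 1 (C (G.coeff 0) : Polynomial Ω) = 0 := by
    unfold lam
    refine Finset.sum_eq_zero fun t _ => ?_
    rw [one_mul, coeff_C, if_neg (pow_pos hp.pos t).ne', rt_zero]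
  rw [h4, lam_add, lam_add, h5, zero_add, lam_as m 1 hm hp.not_dvd_one _
    (by rw [natDegree_taylor]; exact h2), add_zero, nf3_lam_sum]
  refine Finset.sum_congr rfl fun t _ => ?_
  congr 1
  refine Finset.sum_congr rfl fun j _ => ?_
  rw [one_mul, coeff_C_mul, coeff_X_add_C_pow]
  ring

end MP1a953e
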