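import Pool.Agent.Lib.MP_1a953e_ag.NF3
import Pool.Agent.Lib.MP_1a953e_ag.Calc2
import Pool.Agent.Lib.MP_1a953e_ag.Calc3

/-!
# Module NF4: key estimate
-/

namespace MP1a953e

open Polynomial

variable {Ω : Type*} [NormedField Ω] [IsUltrametricDist Ω] [IsAlgClosed Ω]
variable {p : ℕ} [Fact p.Prime] [CharP Ω p]

/-- a common right neighbourhood of `r` -/
private lemma nf4_common {r : ℝ} (s : Finset ℕ) (P : ℕ → ℝ → Prop)
    (h : ∀ j ∈ s, ∃ ρ > r, ∀ σ, r < σ → σ < ρ → P j σ) :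
    ∃ ρ > r, ∀ σ, r < σ → σ < ρ → ∀ j ∈ s, P j σ := by
  classical
  induction s using Finset.induction_on with
  | empty => exact ⟨r + 1, by linarith, by simp⟩
  | insert i s hi ih =>
    obtain ⟨ρ1, h1, h1'⟩ := ih fun j hj => h j (Finset.mem_insert_of_mem hj)
    obtain ⟨ρ2, h2, h2'⟩ := h i (Finset.mem_insert_self i s)
    refine ⟨min ρ1 ρ2, lt_min h1 h2, fun σ hσ hσ' j hj => ?_⟩
    rcases Finset.mem_insert.1 hj with rfl | hj
    · exact h2' σ hσ (lt_of_lt_of_le hσ' (min_le_right _ _))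
    · exact h1' σ hσ (lt_of_lt_of_le hσ' (min_le_left _ _)) j hj

omit [IsAlgClosed Ω] in
/-- natural numbers prime to `p` have norm one -/
private lemma nf4_norm_nat {n : ℕ} (h : ¬ p ∣ n) : ‖(n : Ω)‖ = 1 := by
  have hp : p.Prime := Fact.out
  have h1 : ∀ k : ℕ, ‖(k : Ω)‖ ≤ 1 := fun k => IsUltrametricDist.norm_natCast_le_one Ω k
  have hcop : Nat.Coprime n p := ((Nat.Prime.coprime_iff_not_dvd hp).2 h).symm
  obtain ⟨m, -, hm⟩ := Nat.exists_mul_mod_eq_one_of_coprime hcop hp.one_lt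
  have h2 : ((n * m : ℕ) : Ω) = 1 := by
    have h3 := Nat.div_add_mod (n * m) p
    rw [hm] at h3
    rw [← h3]
    push_cast
    rw [CharP.cast_eq_zero Ω p]
    simp
  have h3 : ‖(n : Ω)‖ * ‖(m : Ω)‖ = 1 := by
    rw [← norm_mul, ← Nat.cast_mul, h2, norm_one]
  have h4 := h1 n
  have h5 := h1 m
  nlinarith [norm_nonneg (n : Ω), norm_nonneg (m : Ω)]

omit [IsAlgClosed Ω] in
/-- bound for finite sums -/
private lemma nf4_sum_le {ι : Type*} (s : Finset ι) (f : ι → Ω) {c : ℝ} (hc : 0 ≤ c)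
    (h : ∀ i ∈ s, ‖f i‖ ≤ c) : ‖∑ i ∈ s, f i‖ ≤ c := by
  classical
  induction s using Finset.induction_on with
  | empty => simpa using hc
  | insert i s hi ih =>
    rw [Finset.sum_insert hi]
    exact (IsUltrametricDist.norm_add_le_max _ _).trans
      (max_le (h i (Finset.mem_insert_self i s))
        (ih fun j hj => h j (Finset.mem_insert_of_mem hj)))

omit [IsAlgClosed Ω] in
/-- strict bound for finite sums -/
private lemma nf4_sum_lt {ι : Type*} (s : Finset ι) (f : ι → Ω) {c : ℝ} (hc : 0 < c)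
    (h : ∀ i ∈ s, ‖f i‖ < c) : ‖∑ i ∈ s, f i‖ < c := by
  classical
  induction s using Finset.induction_on with
  | empty => simpa using hc
  | insert i s hi ih =>
    rw [Finset.sum_insert hi]
    exact lt_of_le_of_lt (IsUltrametricDist.norm_add_le_max _ _)
      (max_lt (h i (Finset.mem_insert_self i s))
        (ih fun j hj => h j (Finset.mem_insert_of_mem hj)))

omit [IsAlgClosed Ω] in
/-- a dominating term -/
private lemma nf4_add_eq {x y : Ω} (h : ‖y‖ < ‖x‖) : ‖x + y‖ = ‖x‖ := by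
  rw [IsUltrametricDist.norm_add_eq_max_of_norm_ne_norm (ne_of_gt h), max_eq_left h.le]

omit [IsAlgClosed Ω] in
private lemma nf4_sum_dom {ι : Type*} [DecidableEq ι] (s : Finset ι) (f : ι → Ω) {n : ι}
    (hn : n ∈ s) (h0 : 0 < ‖f n‖) (h : ∀ i ∈ s, i ≠ n → ‖f i‖ < ‖f n‖) :
    ‖∑ i ∈ s, f i‖ = ‖f n‖ := by
  rw [← Finset.add_sum_erase s f hn]
  refine nf4_add_eq (nf4_sum_lt _ _ h0 fun i hi => ?_)
  rw [Finset.mem_erase] at hi
  exact h i hi.2 hi.1

/-- NF8 (key estimate).  Proof.  Let `γ j` be the constants of `lam_const` (`j ∈ J p m`, note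
`1 ∈ J p m`), valid for `‖T - a‖ < ρ₀`. If all `γ j = 0`, the first alternative holds. Otherwise
`unique_dom` gives `n ∈ J` with `γ j σ ^ j < γ n σ ^ n` for `j ≠ n`, `σ ∈ (r, ρ₁)`, `ρ₁ ≤ ρ₀`.
Suppose the first alternative fails; then `γ n σ ^ n > 1` for all `σ = ‖T - a‖ < ρ₁`, `a ∈ F`.
Claim `n = 1`. Suppose `n ≠ 1`. Choose `a, a' ∈ F` with `r < ‖T - a'‖ < ‖T - a‖ = σ < ρ₁`
(`TT.exists_near` twice), `e = a' - a`, `‖e‖ = σ`. `taylor a' g = taylor e (taylor a g)`, so by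
`lam_taylor` `lam 1 (taylor a' g) = ∑_t rt t (∑_j (j.choose (p^t)) c j e ^ (j - p ^ t))` with
`c j = lam j (taylor a g)`, `‖c j‖ = γ j`. Term `t = 0`: the summand `j = n` has norm
`γ n σ ^ (n - 1)` (as `p ∤ n`), the others are smaller, so the term has norm `γ n σ ^ (n - 1)`.
Terms `t ≥ 1`: the norm is at most `(γ n σ ^ (n - p ^ t)) ^ (1 / p ^ t) = (γ n σ ^ n) ^ (1 / p ^ t) / σ
< γ n σ ^ n / σ` since `γ n σ ^ n > 1` (only `j ≥ p ^ t` contribute). Hence
`γ 1 = ‖lam 1 (taylor a' g)‖ = γ n σ ^ (n - 1)`, so `γ 1 σ = γ n σ ^ n`, contradicting the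
domination of `n ≠ 1`. So `n = 1`. Then `γ j σ ^ (j-1) < γ 1` on `(r, ρ₁)`, so `γ j r ^ j < γ 1 r` for
`1 ≠ j ∈ J` (strict, as `r < σ`), and by continuity `γ j ‖T - a‖ ^ j < γ 1 r` for some `a ∈ F`
close to `T`. -/
theorem key_est {F : Subfield Ω} {T : Ω} (hT : TT F T) {g : Polynomial Ω} (hg : Coeffs F g)
    (m : ℕ) (hm : 1 ≤ m) (hdeg : g.natDegree < p ^ m) :
    (∃ a ∈ F, ∀ j ∈ J p m, ‖lam p m j (taylor a g)‖ * ‖T - a‖ ^ j ≤ 1) ∨
    (∃ a ∈ F, lam p m 1 (taylor a g) ≠ 0 ∧ ∀ j ∈ J p m, j ≠ 1 →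
      ‖lam p m j (taylor a g)‖ * ‖T - a‖ ^ j <
        ‖lam p m 1 (taylor a g)‖ * Metric.infDist T (F : Set Ω)) := by
  classical
  have hp : p.Prime := Fact.out
  set r := Metric.infDist T (F : Set Ω) with hr
  have hr0 : 0 < r := hT.pos
  choose γ hγ0 ρc hρc hγ using fun j => lam_const hT hg (p := p) m j
  have hJ0 : ∀ j ∈ J p m, 1 ≤ j := by
    intro j hj
    rw [J, Finset.mem_filter] at hj
    rcases Nat.eq_zero_or_pos j with h | h
    · exact absurd (by rw [h]; exact dvd_zero p) hj.2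
    · exact h
  have hJp : ∀ j ∈ J p m, ¬ p ∣ j := fun j hj => (Finset.mem_filter.1 hj).2
  have h1J : 1 ∈ J p m := by
    rw [J, Finset.mem_filter, Finset.mem_range]
    exact ⟨Nat.one_lt_pow (by omega) hp.one_lt, fun h => hp.one_lt.ne' (Nat.dvd_one.1 h)⟩
  obtain ⟨ρ0, hρ0, hc0⟩ := nf4_common (r := r) (J p m)
    (fun j σ => ∀ a : Ω, ‖T - a‖ = σ → ‖lam p m j (taylor a g)‖ = γ j)
    (fun j _ => ⟨ρc j, hρc j, fun σ _ hσ a ha => hγ j a (by rw [ha]; exact hσ)⟩)
  by_cases hz : ∀ j ∈ J p m, γ j = 0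
  · left
    obtain ⟨a, haF, ha1, ha2⟩ := hT.exists_near hρ0
    refine ⟨a, haF, fun j hj => ?_⟩
    rw [hc0 _ ha2 ha1 j hj a rfl, hz j hj, zero_mul]
    exact zero_le_one
  push Not at hz
  obtain ⟨j0, hj0, hj0'⟩ := hz
  obtain ⟨n, hnJ, hn0, ρ1, hρ1, hdom⟩ := unique_dom (J p m) γ hγ0 r hr0
    ⟨j0, hj0, lt_of_le_of_ne (hγ0 j0) (Ne.symm hj0')⟩
  by_cases hfirst : ∃ a ∈ F, ∀ j ∈ J p m, ‖lam p m j (taylor a g)‖ * ‖T - a‖ ^ j ≤ 1
  · exact Or.inl hfirst
  right
  push Not at hfirst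
  have hnJ1 : 1 ≤ n := hJ0 n hnJ
  -- the maximal term is larger than one
  have hbig : ∀ a ∈ F, r < ‖T - a‖ → ‖T - a‖ < min ρ0 ρ1 → 1 < γ n * ‖T - a‖ ^ n := by
    intro a ha h1 h2
    obtain ⟨j, hj, hj'⟩ := hfirst a ha
    rw [hc0 _ h1 (lt_of_lt_of_le h2 (min_le_left _ _)) j hj a rfl] at hj'
    by_cases hjn : j = n
    · rw [← hjn]; exact hj'
    · exact hj'.trans (hdom _ h1 (lt_of_lt_of_le h2 (min_le_right _ _)) j hj hjn)
  have hn1 : n = 1 := by
    by_contra hne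
    obtain ⟨a, haF, ha1, ha2⟩ := hT.exists_near (lt_min hρ0 hρ1 : r < min ρ0 ρ1)
    obtain ⟨a', haF', ha1', ha2'⟩ := hT.exists_near ha2
    set σ := ‖T - a‖ with hσ
    have hσ0 : 0 < σ := hr0.trans ha2
    have hσρ0 : σ < ρ0 := lt_of_lt_of_le ha1 (min_le_left _ _)
    have hσρ1 : σ < ρ1 := lt_of_lt_of_le ha1 (min_le_right _ _)
    set e := a' - a with he
    have hen : ‖e‖ = σ := by
      have : e = (T - a) + (-(T - a')) := by rw [he]; ring
      rw [this, nf4_add_eq (by rw [norm_neg]; exact ha1')]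
    have htt : taylor a' g = taylor e (taylor a g) := by
      rw [taylor_taylor, he, sub_add_cancel]
    have hdeg' : (taylor a g).natDegree < p ^ m := by rw [natDegree_taylor]; exact hdeg
    have hlt := lam_taylor (p := p) m hm hdeg' e
    rw [← htt] at hlt
    have hcn : ∀ j ∈ J p m, ‖lam p m j (taylor a g)‖ = γ j := fun j hj =>
      hc0 σ ha2 hσρ0 j hj a rfl
    set c := fun j => lam p m j (taylor a g) with hc
    set Q := γ n * σ ^ n with hQ
    have hQ1 : 1 < Q := hbig a haF ha2 ha1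
    have hQ0 : 0 < Q := zero_lt_one.trans hQ1
    have hle : ∀ j ∈ J p m, γ j * σ ^ j ≤ Q := by
      intro j hj
      by_cases hjn : j = n
      · rw [hjn]
      · exact (hdom σ ha2 hσρ1 j hj hjn).le
    -- the term `t = 0`
    have hterm0 : ‖rt p 0 (∑ j ∈ J p m, ((j.choose (p ^ 0) : ℕ) : Ω) *
        lam p m j (taylor a g) * e ^ (j - p ^ 0))‖ = Q / σ := by
      have h0 := rt_pow (p := p) 0 (∑ j ∈ J p m, ((j.choose (p ^ 0) : ℕ) : Ω) *
        lam p m j (taylor a g) * e ^ (j - p ^ 0))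
      rw [pow_zero, pow_one] at h0
      simp only [pow_zero] at h0 ⊢
      rw [h0]
      have hnorm : ∀ j ∈ J p m, ‖((j.choose 1 : ℕ) : Ω) * lam p m j (taylor a g) *
          e ^ (j - 1)‖ = γ j * σ ^ j / σ := by
        intro j hj
        have h1j := hJ0 j hj
        rw [norm_mul, norm_mul, norm_pow, hen, hcn j hj, Nat.choose_one_right,
          nf4_norm_nat (hJp j hj), one_mul, mul_div_assoc]
        congr 1
        obtain ⟨i, rfl⟩ : ∃ i, j = i + 1 := ⟨j - 1, by omega⟩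
        rw [Nat.add_sub_cancel, pow_succ]
        field_simp
      rw [nf4_sum_dom (J p m) _ hnJ, hnorm n hnJ]
      · rw [hnorm n hnJ]; exact div_pos hQ0 hσ0
      · intro j hj hjn
        rw [hnorm n hnJ, hnorm j hj]
        exact div_lt_div_of_pos_right (hdom σ ha2 hσρ1 j hj hjn) hσ0
    -- the terms `t ≥ 1`
    have hterm : ∀ t ∈ (Finset.range m).erase 0, ‖rt p t (∑ j ∈ J p m,
        ((j.choose (p ^ t) : ℕ) : Ω) * lam p m j (taylor a g) * e ^ (j - p ^ t))‖ < Q / σ := by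
      intro t ht
      rw [Finset.mem_erase] at ht
      have hpt : 1 < p ^ t := Nat.one_lt_pow ht.1 hp.one_lt
      have h0 := rt_pow (p := p) t (∑ j ∈ J p m, ((j.choose (p ^ t) : ℕ) : Ω) *
        lam p m j (taylor a g) * e ^ (j - p ^ t))
      have h1 : ‖∑ j ∈ J p m, ((j.choose (p ^ t) : ℕ) : Ω) * lam p m j (taylor a g) *
          e ^ (j - p ^ t)‖ ≤ Q / σ ^ p ^ t := by
        refine nf4_sum_le _ _ (by positivity) fun j hj => ?_
        by_cases hjt : j < p ^ t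
        · rw [Nat.choose_eq_zero_of_lt hjt]
          simp only [Nat.cast_zero, zero_mul, norm_zero]
          positivity
        · push Not at hjt
          rw [norm_mul, norm_mul, norm_pow, hen, hcn j hj]
          have h2 : ‖((j.choose (p ^ t) : ℕ) : Ω)‖ ≤ 1 :=
            IsUltrametricDist.norm_natCast_le_one Ω _
          have h3 : σ ^ (j - p ^ t) = σ ^ j / σ ^ p ^ t := by
            rw [eq_div_iff (by positivity), ← pow_add, Nat.sub_add_cancel hjt]
          rw [h3]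
          calc ‖((j.choose (p ^ t) : ℕ) : Ω)‖ * γ j * (σ ^ j / σ ^ p ^ t)
              ≤ 1 * γ j * (σ ^ j / σ ^ p ^ t) := by
                refine mul_le_mul_of_nonneg_right ?_ (by positivity)
                exact mul_le_mul_of_nonneg_right h2 (hγ0 j)
            _ = γ j * σ ^ j / σ ^ p ^ t := by ring
            _ ≤ Q / σ ^ p ^ t := by
                refine div_le_div_of_nonneg_right (hle j hj) (by positivity)
      by_contra hcon
      push Not at hcon
      have h2 : (Q / σ) ^ p ^ t ≤ Q / σ ^ p ^ t := by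
        calc (Q / σ) ^ p ^ t ≤ ‖rt p t (∑ j ∈ J p m, ((j.choose (p ^ t) : ℕ) : Ω) *
              lam p m j (taylor a g) * e ^ (j - p ^ t))‖ ^ p ^ t :=
                pow_le_pow_left₀ (by positivity) hcon _
          _ = ‖∑ j ∈ J p m, ((j.choose (p ^ t) : ℕ) : Ω) * lam p m j (taylor a g) *
              e ^ (j - p ^ t)‖ := by rw [← norm_pow, h0]
          _ ≤ _ := h1
      rw [div_pow, div_le_div_iff_of_pos_right (by positivity)] at h2
      have h3 : Q < Q ^ p ^ t := by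
        calc Q = Q ^ 1 := (pow_one Q).symm
          _ < Q ^ p ^ t := pow_lt_pow_right₀ hQ1 hpt
      linarith
    have h0m : 0 ∈ Finset.range m := Finset.mem_range.2 (by omega)
    have htot : ‖lam p m 1 (taylor a' g)‖ = Q / σ := by
      rw [hlt, ← Finset.add_sum_erase _ _ h0m]
      rw [nf4_add_eq, hterm0]
      rw [hterm0]
      exact nf4_sum_lt _ _ (by positivity) hterm
    have hg1 : ‖lam p m 1 (taylor a' g)‖ = γ 1 :=
      hc0 _ ha2' (ha1'.trans hσρ0) 1 h1J a' rfl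
    have h5 : γ 1 * σ ^ 1 < Q := hdom σ ha2 hσρ1 1 h1J (Ne.symm hne)
    rw [hg1] at htot
    rw [htot, pow_one, div_mul_cancel₀ _ hσ0.ne'] at h5
    exact lt_irrefl _ h5
  subst hn1
  -- the second alternative
  obtain ⟨ρ2, hρ2, hc2⟩ := nf4_common (r := r) (J p m)
    (fun j σ => j ≠ 1 → γ j * σ ^ j < γ 1 * r) (by
      intro j hj
      by_cases hj1 : j = 1
      · exact ⟨r + 1, by linarith, fun σ _ _ h => absurd hj1 h⟩
      have hlt : γ j * r ^ j < γ 1 * r := by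
        rcases eq_or_lt_of_le (hγ0 j) with h | h
        · rw [← h, zero_mul]; positivity
        · obtain ⟨σ, hσ1, hσ2⟩ := exists_between hρ1
          have h1 := hdom σ hσ1 hσ2 j hj hj1
          have hσ0 : 0 < σ := hr0.trans hσ1
          obtain ⟨i, rfl⟩ : ∃ i, j = i + 1 := ⟨j - 1, by have := hJ0 j hj; omega⟩
          rw [pow_succ, ← mul_assoc, pow_one] at h1
          have h2 : γ (i + 1) * σ ^ i < γ 1 := lt_of_mul_lt_mul_right h1 hσ0.le
          have h3 : γ (i + 1) * r ^ i ≤ γ (i + 1) * σ ^ i :=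
            mul_le_mul_of_nonneg_left (pow_le_pow_left₀ hr0.le hσ1.le i) h.le
          rw [pow_succ, ← mul_assoc]
          exact mul_lt_mul_of_pos_right (lt_of_le_of_lt h3 h2) hr0
      have hcont : Filter.Tendsto (fun σ : ℝ => γ j * σ ^ j) (nhds r) (nhds (γ j * r ^ j)) :=
        (continuous_const.mul (continuous_pow j)).tendsto r
      have hev := hcont.eventually (gt_mem_nhds hlt)
      obtain ⟨δ, hδ, hδ'⟩ := Metric.eventually_nhds_iff.1 hev
      refine ⟨r + δ, by linarith, fun σ h1 h2 _ => hδ' ?_⟩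
      rw [Real.dist_eq, abs_lt]
      constructor <;> linarith)
  obtain ⟨a, haF, ha1, ha2⟩ := hT.exists_near (lt_min hρ0 hρ2 : r < min ρ0 ρ2)
  have hb1 : ‖T - a‖ < ρ0 := lt_of_lt_of_le ha1 (min_le_left _ _)
  have hb2 : ‖T - a‖ < ρ2 := lt_of_lt_of_le ha1 (min_le_right _ _)
  refine ⟨a, haF, ?_, fun j hj hj1 => ?_⟩
  · intro h0
    have := hc0 _ ha2 hb1 1 h1J a rfl
    rw [h0, norm_zero] at this
    rw [← this] at hn0
    exact lt_irrefl _ hn0
  · rw [hc0 _ ha2 hb1 1 h1J a rfl, hc0 _ ha2 hb1 j hj a rfl]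
    exact hc2 _ ha2 hb2 j hj hj1

end MP1a953e
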