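import Mathlib

/-!
# Module SolP: polynomial systems of finite type over an algebraically closed field
-/

namespace MP1a953e

open MvPolynomial

private lemma solp_span {k : Type*} [Field k] {σ : Type*} [Fintype σ] {Q : ℕ}
    (f : σ → MvPolynomial σ k) (hf : ∀ i, (f i).totalDegree < Q)
    (B : Subalgebra k (MvPolynomial σ k)) (hB : ∀ i, X i ^ Q - f i ∈ B) (n : ℕ) :
    ∀ P : MvPolynomial σ k, P.totalDegree < n → P ∈ Submodule.span B
      {m : MvPolynomial σ k | ∃ a : σ →₀ ℕ, (∀ i, a i < Q) ∧ m = monomial a 1} := by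
  induction n with
  | zero => intro P hP; omega
  | succ n ih =>
    intro P hP
    have key : ∀ a : σ →₀ ℕ, (a.sum fun _ e => e) ≤ n → monomial a (1 : k) ∈ Submodule.span B
        {m : MvPolynomial σ k | ∃ a : σ →₀ ℕ, (∀ i, a i < Q) ∧ m = monomial a 1} := by
      intro a ha
      by_cases hall : ∀ i, a i < Q
      · exact Submodule.subset_span ⟨a, hall, rfl⟩
      push Not at hall
      obtain ⟨i, hi⟩ := hall
      obtain ⟨a', ha'⟩ : ∃ a' : σ →₀ ℕ, a' + Finsupp.single i Q = a :=
        ⟨a - Finsupp.single i Q, tsub_add_cancel_of_le (by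
          rw [Finsupp.single_le_iff]
          exact hi)⟩
      have hdeg : (a'.sum fun _ e => e) + Q = a.sum fun _ e => e := by
        rw [← ha', Finsupp.sum_add_index' (fun _ => rfl) (fun _ _ _ => rfl),
          Finsupp.sum_single_index rfl]
      have hQ : 0 < Q := (Nat.zero_le _).trans_lt (hf i)
      have e1 : monomial a (1 : k) = (⟨X i ^ Q - f i, hB i⟩ : B) • monomial a' (1 : k) +
          monomial a' 1 * f i := by
        rw [← ha', Subalgebra.smul_def, smul_eq_mul, ← mul_one (1 : k), ← monomial_mul, mul_one,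
          ← X_pow_eq_monomial]
        ring
      rw [e1]
      have hd' : (monomial a' (1 : k)).totalDegree = a'.sum fun _ e => e :=
        totalDegree_monomial a' one_ne_zero
      refine Submodule.add_mem _ (Submodule.smul_mem _ _ (ih _ ?_)) (ih _ ?_)
      · rw [hd']
        omega
      · have h1 := totalDegree_mul (monomial a' (1 : k)) (f i)
        rw [hd'] at h1
        have h2 := hf i
        omega
    rw [P.as_sum]
    refine Submodule.sum_mem _ fun a ha => ?_
    have e2 : monomial a (coeff a P) = (algebraMap k B (coeff a P)) • monomial a (1 : k) := by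
      rw [Subalgebra.smul_def, smul_eq_mul]
      have : ((algebraMap k B (coeff a P) : B) : MvPolynomial σ k) = C (coeff a P) := rfl
      rw [this, C_mul_monomial, mul_one]
    rw [e2]
    refine Submodule.smul_mem _ _ (key a ?_)
    have := le_totalDegree ha
    omega

private lemma solp_fin {k : Type*} [Field k] {σ : Type*} [Fintype σ] {Q : ℕ}
    (f : σ → MvPolynomial σ k) (hf : ∀ i, (f i).totalDegree < Q)
    (B : Subalgebra k (MvPolynomial σ k)) (hB : ∀ i, X i ^ Q - f i ∈ B) :
    Module.Finite B (MvPolynomial σ k) := by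
  refine ⟨?_⟩
  have hfin : {m : MvPolynomial σ k | ∃ a : σ →₀ ℕ, (∀ i, a i < Q) ∧ m = monomial a 1}.Finite := by
    refine (Set.Finite.image (fun a : σ → Fin Q => (monomial (Finsupp.equivFunOnFinite.symm
      fun i => (a i : ℕ)) (1 : k))) Set.finite_univ).subset ?_
    rintro m ⟨a, ha, rfl⟩
    refine ⟨fun i => ⟨a i, ha i⟩, Set.mem_univ _, ?_⟩
    simp only
    congr 1
    ext i
    simp
  have h : Submodule.span B
      {m : MvPolynomial σ k | ∃ a : σ →₀ ℕ, (∀ i, a i < Q) ∧ m = monomial a 1} = ⊤ :=
    eq_top_iff.2 fun P _ => solp_span f hf B hB _ P (Nat.lt_succ_self _)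
  rw [← h]
  exact Submodule.fg_span hfin

/-- SOLP.  Over an algebraically closed field (any characteristic) the system `z i ^ Q = f i (z)`, with
polynomials `f i` of total degree `< Q`, has a solution.

Proof: let `h i = X i ^ Q - f i` in `A = k[X i : i ∈ σ]`, `B = k[h] ⊆ A` the subalgebra generated by the
`h i`. `A` is generated as a `B`-module by the finitely many monomials with all exponents `< Q`:
by strong induction on the degree every monomial is in this module `N` (if `X ^ a` has
`a i ≥ Q`, then `X ^ a = X ^ (a - Q e_i) * (h i + f i)`, where `X ^ (a - Q e_i) * f i` has smaller degree,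
and `X ^ (a - Q e_i) * h i ∈ B * N`). So `A` is integral over `B`, hence `trdeg B = card σ` and the `h i` are
algebraically independent (`card σ` elements generating an algebra over which `A` is algebraic). Therefore
the ideal `(h i : i)` of `B` is proper (`B` is a polynomial ring in the `h i`), contained in a maximal
ideal `m` with `h i ∈ m`; by lying over (`A` integral over `B`) there is a prime, hence a proper ideal, of
`A` containing all `h i`; the Nullstellensatz (`MvPolynomial.vanishingIdeal...`, every proper ideal of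
`MvPolynomial σ k` has a zero) gives the point. (Alternative: show that `1` is not in the ideal
`(h i)` by a direct argument on leading forms.) -/
theorem solve_poly {k : Type*} [Field k] [IsAlgClosed k] {σ : Type*} [Fintype σ] {Q : ℕ}
    (hQ : 0 < Q) (f : σ → MvPolynomial σ k) (hf : ∀ i, (f i).totalDegree < Q) :
    ∃ z : σ → k, ∀ i, z i ^ Q = eval z (f i) := by
  obtain ⟨h, hh⟩ : ∃ h : σ → MvPolynomial σ k, h = fun i => X i ^ Q - f i := ⟨_, rfl⟩
  have hmem : ∀ i, h i ∈ Algebra.adjoin k (Set.range h) := fun i =>
    Algebra.subset_adjoin ⟨i, rfl⟩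
  have hfin : Module.Finite (Algebra.adjoin k (Set.range h)) (MvPolynomial σ k) := by
    refine solp_fin f hf _ fun i => ?_
    have := hmem i
    rw [hh] at this ⊢
    exact this
  have hint : Algebra.IsIntegral (Algebra.adjoin k (Set.range h)) (MvPolynomial σ k) :=
    inferInstance
  have halg : Algebra.IsAlgebraic (Algebra.adjoin k (Set.range h)) (MvPolynomial σ k) :=
    inferInstance
  have htb : IsTranscendenceBasis k h := by
    refine Algebra.IsAlgebraic.isTranscendenceBasis_of_lift_le_trdeg_of_finite k h ?_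
    rw [MvPolynomial.trdeg_of_isDomain]
    simp
  have hai := htb.1
  -- evaluation at zero on the subalgebra
  obtain ⟨ψ, hψ⟩ : ∃ ψ : Algebra.adjoin k (Set.range h) →ₐ[k] k,
      ψ = (aeval (fun _ : σ => (0 : k))).comp hai.aevalEquiv.symm.toAlgHom := ⟨_, rfl⟩
  have hψh : ∀ i, ψ ⟨h i, hmem i⟩ = 0 := by
    intro i
    have h1 : hai.aevalEquiv (X i) = ⟨h i, hmem i⟩ :=
      Subtype.ext ((AlgebraicIndependent.algebraMap_aevalEquiv hai (X i)).trans (aeval_X _ _))
    rw [hψ, ← h1]
    simp
  have hsurj : Function.Surjective ψ := fun c => ⟨algebraMap k _ c, by simp⟩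
  have hmax : (RingHom.ker ψ).IsMaximal := RingHom.ker_isMaximal_of_surjective ψ hsurj
  obtain ⟨M, hM, hMc⟩ := Ideal.exists_ideal_over_maximal_of_isIntegral (S := MvPolynomial σ k)
    (RingHom.ker ψ) (by
      have : RingHom.ker (algebraMap (Algebra.adjoin k (Set.range h)) (MvPolynomial σ k)) = ⊥ :=
        (RingHom.injective_iff_ker_eq_bot _).1 Subtype.val_injective
      rw [this]
      exact bot_le)
  have hhM : ∀ i, h i ∈ M := by
    intro i
    have h1 : (⟨h i, hmem i⟩ : Algebra.adjoin k (Set.range h)) ∈ RingHom.ker ψ := hψh i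
    rw [← hMc] at h1
    exact h1
  obtain ⟨z, hz⟩ := MvPolynomial.isMaximal_iff_eq_vanishingIdeal_singleton.1 hM
  refine ⟨z, fun i => ?_⟩
  have h2 := hhM i
  rw [hz, MvPolynomial.mem_vanishingIdeal_singleton_iff, hh] at h2
  simp only [map_sub, map_pow, aeval_X] at h2
  exact sub_eq_zero.1 h2

end MP1a953e
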