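import Pool.Agent.Lib.MP_1a953e_ag.Sem2
import Pool.Agent.Lib.MP_1a953e_ag.SolP

/-!
# Module Sem3: surjectivity of 1 - Theta modulo norm one
-/

namespace MP1a953e

open MvPolynomial

variable {Ω : Type*} [NormedField Ω]

private theorem Sem3_lt [IsUltrametricDist Ω] {ι : Type*} (S : Finset ι) (f : ι → Ω) {M : ℝ}
    (hM : 0 < M) (hf : ∀ i ∈ S, ‖f i‖ < M) : ‖∑ i ∈ S, f i‖ < M := by
  rcases S.eq_empty_or_nonempty with rfl | hS
  · rw [Finset.sum_empty, norm_zero]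
    exact hM
  · obtain ⟨i, hi, hi'⟩ := IsUltrametricDist.exists_norm_finsetSum_le_of_nonempty hS f
    exact hi'.trans_lt (hf i hi)

private theorem Sem3_add [IsUltrametricDist Ω] {q : ℕ} {a b : Ω} {C : ℝ} (ha : ‖a‖ ^ q ≤ C)
    (hb : ‖b‖ ^ q ≤ C) : ‖a + b‖ ^ q ≤ C := by
  have h := IsUltrametricDist.norm_add_le_max a b
  rcases le_total ‖a‖ ‖b‖ with h' | h'
  · rw [max_eq_right h'] at h
    exact (pow_le_pow_left₀ (norm_nonneg _) h q).trans hb
  · rw [max_eq_left h'] at h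
    exact (pow_le_pow_left₀ (norm_nonneg _) h q).trans ha

private theorem Sem3_sum [IsUltrametricDist Ω] {ι : Type*} (S : Finset ι) (f : ι → Ω) {C : ℝ}
    {q : ℕ} (hq : q ≠ 0) (hC : 0 ≤ C) (hf : ∀ i ∈ S, ‖f i‖ ^ q ≤ C) :
    ‖∑ i ∈ S, f i‖ ^ q ≤ C := by
  rcases S.eq_empty_or_nonempty with rfl | hS
  · rw [Finset.sum_empty, norm_zero, zero_pow hq]
    exact hC
  · obtain ⟨i, hi, hi'⟩ := IsUltrametricDist.exists_norm_finsetSum_le_of_nonempty hS f
    exact (pow_le_pow_left₀ (norm_nonneg _) hi' q).trans (hf i hi)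

private theorem Sem3_solve {p : ℕ} [Fact p.Prime] {k : Subfield Ω} (hk : IsAlgClosed k)
    {ι σ : Type} [Fintype ι] [Fintype σ] (t : ι → ℕ) (ht : ∀ i, 1 ≤ t i)
    (B : ι → σ → σ → Ω) (e : σ → Ω) (hB : ∀ i j l, B i j l ∈ k) (he : ∀ l, e l ∈ k) (H : ℕ)
    (hH1 : 1 ≤ H) :
    ∃ w : σ → Ω, (∀ l, w l ∈ k) ∧ ∀ l, w l ^ p ^ H =
      ∑ i, ∑ j, B i j l * w j ^ p ^ (H - t i) + e l := by
  have hp : 1 < p := (Fact.out : p.Prime).one_lt
  have := hk
  obtain ⟨z, hz⟩ := solve_poly (k := k) (σ := σ) (Q := p ^ H) (by positivity)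
    (fun l => ∑ i, ∑ j, (C (⟨B i j l, hB i j l⟩ : k) * X j ^ p ^ (H - t i) : MvPolynomial σ k) +
      C (⟨e l, he l⟩ : k)) (by
      intro l
      have h1 : p ^ (H - 1) < p ^ H := Nat.pow_lt_pow_right hp (by omega)
      refine lt_of_le_of_lt ?_ h1
      refine (totalDegree_add _ _).trans (max_le ?_ ?_)
      · refine totalDegree_finsetSum_le fun i _ => totalDegree_finsetSum_le fun j _ => ?_
        refine (totalDegree_mul _ _).trans ?_
        rw [totalDegree_C, zero_add, totalDegree_X_pow]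
        have := ht i
        exact Nat.pow_le_pow_right (by omega) (by omega)
      · rw [totalDegree_C]
        exact Nat.zero_le _)
  refine ⟨fun l => (z l : Ω), fun l => (z l).2, fun l => ?_⟩
  have h := congrArg (fun x : k => (x : Ω)) (hz l)
  simp only [map_add, map_sum, map_mul, map_pow, eval_C, eval_X] at h
  push_cast at h
  exact h

/-- SEM3.  Proof.  If `‖ε‖ ≤ 1` take `S = 0` (`T i 0 = 0`). Otherwise take `σ, v, B, e` from
`exists_stable` with `η = 1 / R`. Let `H ≥ 1`, `H ≥ t i` for all `i`, `Q = p ^ H`. By `solve_poly` in `k` there are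
`w l ∈ k` with `w l ^ Q = ∑ i, ∑ j, B i j l * w j ^ p ^ (H - t i) + e l` for all `l` (degree
`≤ p ^ (H - 1) < Q`). Put `S = ∑ l, w l ^ Q * v l`. Bound: let `M` be the maximum of the
`‖w l ^ Q * v l‖`. From the equation times `v l`,
`‖B i j l * w j ^ p ^ (H - t i) * v l‖ ^ p ^ t i ≤ ‖w j ^ Q * v j‖ ≤ M` and `‖e l * v l‖ ≤ ‖ε‖ ≤ R`, so
`M ≤ R` or `M ^ p ^ t i ≤ M` for some `i`, hence `M ≤ max R 1 = R`. So `‖S‖ ≤ R`. By `SemiOp.sum`
and (5) of `exists_stable` with `z = w j ^ p ^ (H - t i)` (`z ^ p ^ t i = w j ^ Q`),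
`T i S = ∑ j, w j ^ p ^ (H - t i) * ∑ l, B i j l * v l` up to an error `E`,
`‖E‖ ^ p ^ t i ≤ δ * M ≤ δ * R ≤ 1`. So `S - ∑ i, T i S - ε` has norm `≤ 1`. -/
theorem solve_semi [IsUltrametricDist Ω] {p : ℕ} [Fact p.Prime] {k F F' : Subfield Ω} {n : ℕ}
    {s : Fin n → Ω} (hF : TF k F s) {d : ℕ} {θ : Fin (d + 1) → Ω} (hθ : OrthBasis F F' θ)
    {ι : Type} [Fintype ι] (t : ι → ℕ) (ht : ∀ i, 1 ≤ t i) (T : ι → Ω → Ω) {δ : ℝ} (hδ : 0 < δ)
    (hδ1 : δ < 1) (hT : ∀ i, SemiOp p F F' (t i) δ (T i)) {R : ℝ} (hR : 1 ≤ R)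
    (hδR : δ * R ≤ 1) {ε : Ω} (hε : ε ∈ F') (hεR : ‖ε‖ ≤ R) :
    ∃ S ∈ F', ‖S‖ ≤ R ∧ ‖S - ∑ i, T i S - ε‖ ≤ 1 := by
  classical
  have hp : 1 < p := (Fact.out : p.Prime).one_lt
  have hR0 : 0 < R := lt_of_lt_of_le one_pos hR
  obtain ⟨σ, _, v, B, e, hv, hB, he, hBn, hBT, hen, heps⟩ := exists_stable hF hθ t ht T hδ hδ1
    hT hε (η := 1 / R) (by positivity)
  set H : ℕ := ∑ i, t i + 1 with hH
  have hHt : ∀ i, t i ≤ H := fun i => by
    have := Finset.single_le_sum (f := t) (fun _ _ => Nat.zero_le _) (Finset.mem_univ i)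
    omega
  obtain ⟨w, hw, hwe⟩ := Sem3_solve (p := p) hF.closed t ht B e hB he H (by omega)
  have hpow : ∀ i j, (w j ^ p ^ (H - t i)) ^ p ^ t i = w j ^ p ^ H := fun i j => by
    rw [← pow_mul, ← pow_add, Nat.sub_add_cancel (hHt i)]
  have hbound : ∀ l, ‖w l ^ p ^ H * v l‖ ≤ R := by
    by_contra hcon
    push Not at hcon
    obtain ⟨l₁, hl₁⟩ := hcon
    obtain ⟨l, -, hl⟩ := Finset.exists_max_image Finset.univ (fun l => ‖w l ^ p ^ H * v l‖)
      ⟨l₁, Finset.mem_univ _⟩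
    have hM : R < ‖w l ^ p ^ H * v l‖ := hl₁.trans_le (hl l₁ (Finset.mem_univ _))
    set M := ‖w l ^ p ^ H * v l‖ with hMdef
    have hM1 : 1 < M := lt_of_le_of_lt hR hM
    have hM0 : 0 < M := by linarith
    have h1 : w l ^ p ^ H * v l = ∑ i, ∑ j, B i j l * w j ^ p ^ (H - t i) * v l + e l * v l := by
      rw [hwe l, add_mul, Finset.sum_mul]
      simp only [Finset.sum_mul]
    have h2 : ‖w l ^ p ^ H * v l‖ < M := by
      rw [h1]
      refine (IsUltrametricDist.norm_add_le_max _ _).trans_lt (max_lt ?_ ?_)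
      · refine Sem3_lt _ _ hM0 fun i _ => Sem3_lt _ _ hM0 fun j _ => ?_
        by_contra hx
        push Not at hx
        have h3 : ‖B i j l * w j ^ p ^ (H - t i) * v l‖ ^ p ^ t i ≤ M := by
          calc ‖B i j l * w j ^ p ^ (H - t i) * v l‖ ^ p ^ t i
              = ‖B i j l * v l‖ ^ p ^ t i * ‖(w j ^ p ^ (H - t i)) ^ p ^ t i‖ := by
                rw [norm_pow (w j ^ p ^ (H - t i)), ← mul_pow, ← norm_mul]
                congr 2
                ring
            _ ≤ ‖v j‖ * ‖w j ^ p ^ H‖ := by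
                rw [hpow]
                exact mul_le_mul_of_nonneg_right (hBn i j l) (norm_nonneg _)
            _ = ‖w j ^ p ^ H * v j‖ := by rw [norm_mul, mul_comm]
            _ ≤ M := hl j (Finset.mem_univ _)
        have h4 : M ^ p ^ t i ≤ M := (pow_le_pow_left₀ hM0.le hx _).trans h3
        have h5 : 1 < p ^ t i := Nat.one_lt_pow (by have := ht i; omega) hp
        have h6 : M ^ 1 < M ^ p ^ t i := pow_lt_pow_right₀ hM1 h5
        rw [pow_one] at h6
        linarith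
      · exact ((hen l).trans hεR).trans_lt hM
    exact lt_irrefl _ h2
  set S : Ω := ∑ l, w l ^ p ^ H * v l with hS
  have hkF : k ≤ F' := hF.le.trans hθ.le
  have hmem : ∀ l, w l ^ p ^ H * v l ∈ F' := fun l =>
    mul_mem (pow_mem (hkF (hw l)) _) (hv l)
  have hSmem : S ∈ F' := sum_mem fun l _ => hmem l
  refine ⟨S, hSmem, IsUltrametricDist.norm_sum_le_of_forall_le_of_nonneg hR0.le
    fun l _ => hbound l, ?_⟩
  have hE : ∀ i, ‖T i S - ∑ j, w j ^ p ^ (H - t i) * ∑ l, B i j l * v l‖ ≤ 1 := by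
    intro i
    have hq : p ^ t i ≠ 0 := pow_ne_zero _ (by omega)
    have h1 : ‖T i S - ∑ l, T i (w l ^ p ^ H * v l)‖ ^ p ^ t i ≤ δ * R :=
      (hT i).sum hδ.le Finset.univ _ (fun l _ => hmem l) hR0.le fun l _ => hbound l
    have h2 : ‖∑ j, (T i (w j ^ p ^ H * v j) - w j ^ p ^ (H - t i) * ∑ l, B i j l * v l)‖ ^
        p ^ t i ≤ δ * R := by
      refine Sem3_sum _ _ hq (by positivity) fun j _ => ?_
      have h3 := hBT i j (w j ^ p ^ (H - t i)) (pow_mem (hw j) _)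
      rw [hpow] at h3
      exact h3.trans (mul_le_mul_of_nonneg_left (hbound j) hδ.le)
    have h4 : T i S - ∑ j, w j ^ p ^ (H - t i) * ∑ l, B i j l * v l =
        (T i S - ∑ l, T i (w l ^ p ^ H * v l)) +
        ∑ j, (T i (w j ^ p ^ H * v j) - w j ^ p ^ (H - t i) * ∑ l, B i j l * v l) := by
      rw [Finset.sum_sub_distrib]
      ring
    have h5 := Sem3_add h1 h2
    rw [← h4] at h5
    exact (pow_le_one_iff_of_nonneg (norm_nonneg _) hq).1 (h5.trans hδR)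
  have hSe : S = ∑ i, ∑ j, w j ^ p ^ (H - t i) * ∑ l, B i j l * v l + ∑ l, e l * v l := by
    have h1 : S = ∑ l, (∑ i, ∑ j, B i j l * w j ^ p ^ (H - t i) + e l) * v l := by
      rw [hS]
      exact Finset.sum_congr rfl fun l _ => by rw [hwe l]
    rw [h1]
    simp only [add_mul, Finset.sum_add_distrib, Finset.sum_mul, Finset.mul_sum]
    congr 1
    rw [Finset.sum_comm]
    refine Finset.sum_congr rfl fun i _ => ?_
    rw [Finset.sum_comm]
    refine Finset.sum_congr rfl fun j _ => Finset.sum_congr rfl fun l _ => ?_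
    ring
  have hfin : S - ∑ i, T i S - ε =
      -(∑ i, (T i S - ∑ j, w j ^ p ^ (H - t i) * ∑ l, B i j l * v l)) +
        -(ε - ∑ l, e l * v l) := by
    rw [Finset.sum_sub_distrib]
    linear_combination hSe
  rw [hfin]
  refine (IsUltrametricDist.norm_add_le_max _ _).trans (max_le ?_ ?_)
  · rw [norm_neg]
    exact IsUltrametricDist.norm_sum_le_of_forall_le_of_nonneg zero_le_one fun i _ => hE i
  · rw [norm_neg]
    refine heps.trans ?_
    rw [one_div, inv_mul_le_iff₀ hR0, mul_one]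
    exact hεR

end MP1a953e
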