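import Pool.Agent.Lib.MP_1a953e_ag.WB3
import Pool.Agent.Lib.MP_1a953e_ag.Sem3
import Pool.Agent.Lib.MP_1a953e_ag.Lam1
import Pool.Agent.Lib.MP_1a953e_ag.Lam2

/-!
# Module PW4: universal approximate solutions
-/

namespace MP1a953e

variable {Ω : Type*} [NormedField Ω]

private theorem pw_le_one {x : Ω} {q : ℕ} (hq : q ≠ 0) (h : ‖x‖ ^ q ≤ 1) : ‖x‖ ≤ 1 := by
  by_contra hcon
  push Not at hcon
  exact absurd h (not_le.2 (one_lt_pow₀ hcon hq))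

private theorem pw_add [IsUltrametricDist Ω] {a b : Ω} {R : ℝ} (ha : ‖a‖ ≤ R) (hb : ‖b‖ ≤ R) :
    ‖a + b‖ ≤ R :=
  (IsUltrametricDist.norm_add_le_max a b).trans (max_le ha hb)

private theorem pw_sub [IsUltrametricDist Ω] {a b : Ω} {R : ℝ} (ha : ‖a‖ ≤ R) (hb : ‖b‖ ≤ R) :
    ‖a - b‖ ≤ R := by
  rw [sub_eq_add_neg]
  exact pw_add ha (by rwa [norm_neg])

private theorem pw_sum [IsUltrametricDist Ω] {ι : Type*} (S : Finset ι) (f : ι → Ω) {R : ℝ}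
    (hR : 0 ≤ R) (hf : ∀ i ∈ S, ‖f i‖ ≤ R) : ‖∑ i ∈ S, f i‖ ≤ R := by
  classical
  induction S using Finset.induction_on with
  | empty => simpa using hR
  | insert i s hi ih =>
    rw [Finset.sum_insert hi]
    exact pw_add (hf i (Finset.mem_insert_self _ _))
      (ih fun j hj => hf j (Finset.mem_insert_of_mem hj))

private theorem pw_sum_lt [IsUltrametricDist Ω] {ι : Type*} (S : Finset ι) (f : ι → Ω) {R : ℝ}
    (hR : 0 < R) (hf : ∀ i ∈ S, ‖f i‖ < R) : ‖∑ i ∈ S, f i‖ < R := by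
  classical
  induction S using Finset.induction_on with
  | empty => simpa using hR
  | insert i s hi ih =>
    rw [Finset.sum_insert hi]
    exact (IsUltrametricDist.norm_add_le_max _ _).trans_lt (max_lt
      (hf i (Finset.mem_insert_self _ _)) (ih fun j hj => hf j (Finset.mem_insert_of_mem hj)))

/-- PW4 (universal approximate solutions).  Write `q = p ^ H`, `G S = C S - ∑ c h * S ^ (p^h) - e`.
Proof.  Let `Λ, δ` be as in `exists_lambda` for `F'` (`TF.ext`) and `c H`; choose `δ₁ < 1` with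
`δ ≤ δ₁ ^ q`, `δ ≤ δ₁`. Operators (index type `Option (Fin H)`): `T none = Λ ∘ C` (`t = H`,
`SemiOp.comp`), `T (some h) x = - Λ (c h * x ^ (p^h))` (`t = H - h`, `SemiOp.pow`, `SemiOp.neg`,
`SemiOp.mono`), all with error `δ₁`. Choose `R₀ > 1` with `δ₁ * R₀ ^ q ≤ 1`. Let `e ∈ F'`,
`‖e‖ ≤ R₀`. Let `S₀` be a solution of `‖S₀ - ∑ T i S₀ - (- Λ e)‖ ≤ 1`, `‖S₀‖ ≤ R₀` (`solve_semi`).
Let `S ∈ F'`, `‖S‖ ≤ R₀`. All terms of `G S` have norm `≤ R₀ ^ q`, so by `SemiOp.sum` (with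
`δ * R₀ ^ q ≤ 1`; note `Λ (-x) = - Λ x` up to the error) modulo norm `≤ 1`:
`Λ (G S) = ∑ T i S - Λ (c H * S ^ q) - Λ e = ∑ T i S - S - Λ e`, and
`∑ T i S₀ - S₀ - Λ e = 0`; hence with `D = S - S₀` (`‖D‖ ≤ R₀`), again modulo norm `≤ 1`,
`∑ T i D - D = Λ (G S)`. If `‖D‖ > 1`, then `‖T i D‖ < ‖D‖` (`norm`, `t i ≥ 1`), so
`‖D‖ ≤ max 1 ‖Λ (G S)‖`, `‖D‖ ^ q ≤ max 1 ‖G S‖` (`norm` for `Λ`). -/
theorem pw [IsUltrametricDist Ω] {p : ℕ} [Fact p.Prime] (hp : ‖(p : Ω)‖ < 1)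
    {k F F' : Subfield Ω} {n : ℕ} {s : Fin n → Ω} (hF : TF k F s) {d : ℕ}
    {θ : Fin (d + 1) → Ω} (hθ : OrthBasis F F' θ) (C : Ω → Ω) (hCF : ∀ x ∈ F', C x ∈ F')
    (hCadd : ∀ x ∈ F', ∀ y ∈ F', C (x + y) = C x + C y)
    (hClin : ∀ y ∈ F, ∀ x ∈ F', C (y * x) = y * C x) (hCn : ∀ x ∈ F', ‖C x‖ ≤ ‖x‖)
    {H : ℕ} (hH : 1 ≤ H) (c : ℕ → Ω) (hc : ∀ h ≤ H, c h ∈ F') (hc1 : ∀ h ≤ H, ‖c h‖ ≤ 1)
    (hcH : ‖c H‖ = 1) :
    ∃ R₀ : ℝ, 1 < R₀ ∧ ∀ e ∈ F', ‖e‖ ≤ R₀ → ∃ S₀ ∈ F', ‖S₀‖ ≤ R₀ ∧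
      ∀ S ∈ F', ‖S‖ ≤ R₀ →
        ‖S - S₀‖ ^ p ^ H ≤
          max 1 ‖C S - ∑ h ∈ Finset.range (H + 1), c h * S ^ p ^ h - e‖ := by
  classical
  have hpp : p.Prime := Fact.out
  have hp0 : 0 < p := hpp.pos
  have hq0 : p ^ H ≠ 0 := pow_ne_zero _ hp0.ne'
  obtain ⟨δ, hδ, hδ1, hpδ, Λ, hΛ, hΛc⟩ := exists_lambda hp (hF.ext hθ) H (hc H le_rfl) hcH
  -- `δ₁`
  set δ₁ : ℝ := δ ^ (((p ^ H : ℕ) : ℝ)⁻¹) with hδ₁def
  have hδ₁q : δ₁ ^ p ^ H = δ := Real.rpow_inv_natCast_pow hδ.le hq0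
  have hδ₁ : 0 < δ₁ := Real.rpow_pos_of_pos hδ _
  have hδ₁1 : δ₁ < 1 := Real.rpow_lt_one hδ.le hδ1 (by positivity)
  have hδδ₁ : δ ≤ δ₁ := by
    rw [← hδ₁q]
    exact pow_le_of_le_one hδ₁.le hδ₁1.le hq0
  -- `R₀`
  set R₀ : ℝ := (1 / δ₁) ^ (((p ^ H : ℕ) : ℝ)⁻¹) with hR₀def
  have h1δ₁ : 1 < 1 / δ₁ := by rw [lt_div_iff₀ hδ₁]; linarith
  have hR₀q : R₀ ^ p ^ H = 1 / δ₁ := Real.rpow_inv_natCast_pow (by positivity) hq0
  have hR₀1 : 1 < R₀ := Real.one_lt_rpow h1δ₁ (by positivity)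
  have hR₀0 : 0 < R₀ := by linarith
  have hR₀le : R₀ ≤ R₀ ^ p ^ H := le_self_pow₀ hR₀1.le hq0
  have hδ₁R₀q : δ₁ * R₀ ^ p ^ H ≤ 1 := by rw [hR₀q]; exact (mul_one_div_cancel hδ₁.ne').le
  have hδ₁R₀ : δ₁ * R₀ ≤ 1 := (mul_le_mul_of_nonneg_left hR₀le hδ₁.le).trans hδ₁R₀q
  have hR₀q0 : 0 ≤ R₀ ^ p ^ H := by positivity
  have hδR₀q : δ * R₀ ^ p ^ H ≤ 1 := (mul_le_mul_of_nonneg_right hδδ₁ hR₀q0).trans hδ₁R₀q
  refine ⟨R₀, hR₀1, ?_⟩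
  -- operators
  let t : Option (Fin H) → ℕ := fun o => o.elim H (fun h => H - h)
  let T : Option (Fin H) → Ω → Ω := fun o => o.elim (fun x => Λ (C x))
    (fun h x => - Λ (c h * x ^ p ^ (h : ℕ)))
  have ht : ∀ i, 1 ≤ t i := by
    intro i
    cases i with
    | none => exact hH
    | some h =>
      show 1 ≤ H - (h : ℕ)
      have := h.2
      omega
  have hT : ∀ i, SemiOp p F F' (t i) δ₁ (T i) := by
    intro i
    cases i with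
    | none => exact (hΛ.comp hθ.le hδ.le hCF hCadd hClin hCn).weaken hδδ₁
    | some h =>
      exact ((hΛ.pow h.2 hδ.le hpδ hδ₁ hδ₁1.le hδ₁q.ge (hc h h.2.le) (hc1 h h.2.le)).neg).mono
        hθ.le
  have hTsum : ∀ x, ∑ i, T i x = Λ (C x) - ∑ h ∈ Finset.range H, Λ (c h * x ^ p ^ h) := by
    intro x
    rw [Fintype.sum_option, Finset.sum_range]
    show Λ (C x) + ∑ h : Fin H, - Λ (c h * x ^ p ^ (h : ℕ)) = _
    rw [Finset.sum_neg_distrib, sub_eq_add_neg]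
  intro e he heR
  have hΛe : ‖Λ e‖ ≤ R₀ := by
    have h1 := hΛ.norm e he
    have h2 : ‖Λ e‖ ^ p ^ H ≤ R₀ ^ p ^ H := h1.trans (heR.trans hR₀le)
    exact le_of_pow_le_pow_left₀ hq0 hR₀0.le h2
  obtain ⟨S₀, hS₀, hS₀R, hS₀e⟩ := solve_semi hF hθ t ht T hδ₁ hδ₁1 hT hR₀1.le hδ₁R₀
    (ε := -Λ e) (neg_mem (hΛ.map e he)) (by rwa [norm_neg])
  refine ⟨S₀, hS₀, hS₀R, ?_⟩
  intro S hS hSR
  -- notation
  set q := p ^ H with hq
  set G := C S - ∑ h ∈ Finset.range (H + 1), c h * S ^ p ^ h - e with hG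
  set B := ∑ h ∈ Finset.range (H + 1), c h * S ^ p ^ h with hB
  have hBm : ∀ h ∈ Finset.range (H + 1), c h * S ^ p ^ h ∈ F' := fun h hh =>
    mul_mem (hc h (Nat.lt_succ_iff.1 (Finset.mem_range.1 hh))) (pow_mem hS _)
  have hBn : ∀ h ∈ Finset.range (H + 1), ‖c h * S ^ p ^ h‖ ≤ R₀ ^ q := by
    intro h hh
    have hhH : h ≤ H := Nat.lt_succ_iff.1 (Finset.mem_range.1 hh)
    rw [norm_mul, norm_pow]
    calc ‖c h‖ * ‖S‖ ^ p ^ h ≤ 1 * R₀ ^ p ^ h :=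
          mul_le_mul (hc1 h hhH) (pow_le_pow_left₀ (norm_nonneg _) hSR _) (by positivity)
            (by norm_num)
      _ = R₀ ^ p ^ h := one_mul _
      _ ≤ R₀ ^ q := pow_le_pow_right₀ hR₀1.le (Nat.pow_le_pow_right hp0 hhH)
  have hBF : B ∈ F' := sum_mem hBm
  have hBR : ‖B‖ ≤ R₀ ^ q := pw_sum _ _ hR₀q0 hBn
  have hCS : C S ∈ F' := hCF S hS
  have hCSR : ‖C S‖ ≤ R₀ ^ q := (hCn S hS).trans (hSR.trans hR₀le)
  have heq : ‖e‖ ≤ R₀ ^ q := heR.trans hR₀le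
  have hGF : G ∈ F' := sub_mem (sub_mem hCS hBF) he
  have hGR : ‖G‖ ≤ R₀ ^ q := pw_sub (pw_sub hCSR hBR) heq
  have hY : B + e ∈ F' := add_mem hBF he
  have hYR : ‖B + e‖ ≤ R₀ ^ q := pw_add hBR heq
  have hadd : ∀ x ∈ F', ∀ y ∈ F', ‖x‖ ≤ R₀ ^ q → ‖y‖ ≤ R₀ ^ q →
      ‖Λ (x + y) - Λ x - Λ y‖ ≤ 1 := by
    intro x hx y hy hxR hyR
    apply pw_le_one hq0
    refine (hΛ.add x hx y hy).trans ?_
    exact (mul_le_mul_of_nonneg_left (max_le hxR hyR) hδ.le).trans hδR₀q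
  have e1 : ‖Λ (C S) - Λ G - Λ (B + e)‖ ≤ 1 := by
    have h1 := hadd G hGF (B + e) hY hGR hYR
    have h2 : G + (B + e) = C S := by rw [hG]; ring
    rwa [h2] at h1
  have e2 : ‖Λ (B + e) - Λ B - Λ e‖ ≤ 1 := hadd B hBF e he hBR heq
  have e3 : ‖Λ B - ∑ h ∈ Finset.range (H + 1), Λ (c h * S ^ p ^ h)‖ ≤ 1 := by
    apply pw_le_one hq0
    exact (hΛ.sum hδ.le _ _ hBm hR₀q0 hBn).trans hδR₀q
  have e4 : ‖Λ (c H * S ^ p ^ H) - S‖ ≤ 1 := by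
    apply pw_le_one hq0
    refine (hΛc S hS).trans ?_
    exact (mul_le_mul_of_nonneg_left (pow_le_pow_left₀ (norm_nonneg _) hSR _) hδ.le).trans hδR₀q
  have e5 : ‖∑ i, T i S - S - Λ e - Λ G‖ ≤ 1 := by
    have h1 : ∑ i, T i S - S - Λ e - Λ G =
        (Λ (C S) - Λ G - Λ (B + e)) + (Λ (B + e) - Λ B - Λ e) +
        (Λ B - ∑ h ∈ Finset.range (H + 1), Λ (c h * S ^ p ^ h)) +
        (Λ (c H * S ^ p ^ H) - S) := by
      rw [hTsum, Finset.sum_range_succ]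
      ring
    rw [h1]
    exact pw_add (pw_add (pw_add e1 e2) e3) e4
  set D := S - S₀ with hD
  have hDF : D ∈ F' := sub_mem hS hS₀
  have hDR : ‖D‖ ≤ R₀ := pw_sub hSR hS₀R
  have e6 : ∀ i ∈ (Finset.univ : Finset (Option (Fin H))), ‖T i S - T i S₀ - T i D‖ ≤ 1 := by
    intro i _
    have h1 := (hT i).add S₀ hS₀ D hDF
    have h2 : S₀ + D = S := by rw [hD]; ring
    rw [h2] at h1
    apply pw_le_one (pow_ne_zero (t i) hp0.ne')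
    refine h1.trans ?_
    exact (mul_le_mul_of_nonneg_left (max_le hS₀R hDR) hδ₁.le).trans hδ₁R₀
  have e7 : ‖∑ i, T i S - ∑ i, T i S₀ - ∑ i, T i D‖ ≤ 1 := by
    rw [← Finset.sum_sub_distrib, ← Finset.sum_sub_distrib]
    exact pw_sum _ _ zero_le_one e6
  have e8 : ‖∑ i, T i D - D - Λ G‖ ≤ 1 := by
    have h1 : ∑ i, T i D - D - Λ G = (∑ i, T i S - S - Λ e - Λ G) -
        (∑ i, T i S - ∑ i, T i S₀ - ∑ i, T i D) + (S₀ - ∑ i, T i S₀ - -Λ e) := by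
      rw [hD]; ring
    rw [h1]
    exact pw_add (pw_sub e5 e7) hS₀e
  rcases le_or_gt ‖D‖ 1 with hD1 | hD1
  · exact (pow_le_one₀ (norm_nonneg _) hD1).trans (le_max_left _ _)
  · have hTD : ∀ i ∈ (Finset.univ : Finset (Option (Fin H))), ‖T i D‖ < ‖D‖ := by
      intro i _
      by_contra hcon
      push Not at hcon
      have h1 := (hT i).norm D hDF
      have h2 : 1 < ‖T i D‖ := hD1.trans_le hcon
      have h3 : 1 < p ^ t i := Nat.one_lt_pow (by have := ht i; omega) hpp.one_lt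
      have h4 : ‖T i D‖ < ‖T i D‖ ^ p ^ t i := lt_self_pow₀ h2 h3
      linarith
    have hTs : ‖∑ i, T i D‖ < ‖D‖ := pw_sum_lt _ _ (by linarith) hTD
    have hDΛ : ‖D‖ ≤ max 1 ‖Λ G‖ := by
      by_contra hcon
      push Not at hcon
      have h1 : D = ∑ i, T i D - Λ G - (∑ i, T i D - D - Λ G) := by ring
      have h2 : ‖∑ i, T i D - Λ G - (∑ i, T i D - D - Λ G)‖ < ‖D‖ := by
        rw [sub_eq_add_neg, sub_eq_add_neg (∑ i, T i D)]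
        refine (IsUltrametricDist.norm_add_le_max _ _).trans_lt (max_lt ?_ ?_)
        · refine (IsUltrametricDist.norm_add_le_max _ _).trans_lt (max_lt hTs ?_)
          rw [norm_neg]
          exact (le_max_right _ _).trans_lt hcon
        · rw [norm_neg]
          exact e8.trans_lt ((le_max_left _ _).trans_lt hcon)
      rw [← h1] at h2
      exact lt_irrefl _ h2
    have hΛG := hΛ.norm G hGF
    rcases le_total 1 ‖Λ G‖ with h1 | h1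
    · rw [max_eq_right h1] at hDΛ
      exact ((pow_le_pow_left₀ (norm_nonneg _) hDΛ _).trans hΛG).trans (le_max_right _ _)
    · rw [max_eq_left h1] at hDΛ
      linarith

end MP1a953e
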