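import Pool.Agent.Lib.MP_1a953e_ag.DDefs
import Pool.Agent.Lib.MP_1a953e_ag.LUDefs

/-!
# Totally immediate points of the plane: definitions

`k` is the ground field, `Ω` an algebraically closed field with an absolute value extending the one of
`k`. The plane has the coordinates `Y` (`= X 0`) and `Z` (`= X 1`); its points are pairs of
elements of `Ω`. A point `ϑ` of the line with positive, not attained distance `rr k ϑ` to `k` is a point
of type 4; the map `B ↦ ‖B ϑ‖` on `k[X]` does not change when `ϑ` is moved by at most `rr k ϑ`.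
-/

namespace MP1a953e

open Polynomial

section

variable (k : Type*) {Ω : Type*} [NormedField k] [NormedField Ω] [NormedAlgebra k Ω]

/-- the image of `k` in `Ω` -/
noncomputable def kr (Ω : Type*) [NormedField Ω] [NormedAlgebra k Ω] : Subfield Ω :=
  (algebraMap k Ω).fieldRange

/-- the distance of `x` to `k` -/
noncomputable def rr (x : Ω) : ℝ := Metric.infDist x (kr k Ω : Set Ω)

/-- `Ω` is immediate over `k` -/
def Imk (Ω : Type*) [NormedField Ω] [NormedAlgebra k Ω] : Prop :=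
  ∀ x : Ω, x ≠ 0 → ∃ c : k, ‖x - algebraMap k Ω c‖ < ‖x‖

/-- the value of a polynomial in `Y`, `Z` at the point `(a, b)` -/
noncomputable def ev2 (a b : Ω) : MvPolynomial (Fin 2) k →ₐ[k] Ω := MvPolynomial.aeval ![a, b]

/-- the polynomial `P (a, b + X)` -/
noncomputable def vpol (a b : Ω) : MvPolynomial (Fin 2) k →ₐ[k] Polynomial Ω :=
  MvPolynomial.aeval ![Polynomial.C a, Polynomial.C b + Polynomial.X]

/-- `P` is bounded by `M` on the vertical disc with centre `(a, b)` and radius `s` -/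
def VB (a b : Ω) (s M : ℝ) (P : MvPolynomial (Fin 2) k) : Prop :=
  ∀ t : Ω, ‖t‖ ≤ s → ‖ev2 k a (b + t) P‖ ≤ M

/-- the `j`-th Taylor coefficient of `B` at `ϑ` -/
noncomputable def hd (ϑ : Ω) (B : Polynomial k) (j : ℕ) : Ω := aeval ϑ (hasseDeriv j B)

/-- `q` is the index of `B` at `ϑ` (the largest `j ≥ 1` for which `‖hd k ϑ B j‖ * r ^ j` is maximal,
`r = rr k ϑ`), and `A` is the maximum; `A` is the distance of `B ϑ` to `k` -/
structure IsInd (ϑ : Ω) (B : Polynomial k) (q : ℕ) (A : ℝ) : Prop where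
  pos : 0 < A
  one_le : 1 ≤ q
  eq : ‖hd k ϑ B q‖ * rr k ϑ ^ q = A
  le : ∀ j, 1 ≤ j → ‖hd k ϑ B j‖ * rr k ϑ ^ j ≤ A
  lt : ∀ j, q < j → ‖hd k ϑ B j‖ * rr k ϑ ^ j < A

/-- `σ` is the radius of the image of the disc with centre `ϑ` and radius `x` under `B` -/
def IsRad (ϑ : Ω) (B : Polynomial k) (x σ : ℝ) : Prop :=
  (∀ j, 1 ≤ j → ‖hd k ϑ B j‖ * x ^ j ≤ σ) ∧ ∃ j, 1 ≤ j ∧ ‖hd k ϑ B j‖ * x ^ j = σ

/-- the `j`-th Hasse derivative with respect to `X` of `∑ g i (y) X ^ i` (`i < q`) at `x` -/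
noncomputable def fam (y x : Ω) (g : ℕ → Polynomial k) (q j : ℕ) : Ω :=
  ∑ i ∈ Finset.range q, (i.choose j : Ω) * aeval y (g i) * x ^ (i - j)

/-- exchange of the two coordinates -/
noncomputable def swp (k : Type*) [NormedField k] :
    MvPolynomial (Fin 2) k ≃ₐ[k] MvPolynomial (Fin 2) k :=
  MvPolynomial.renameEquiv k (Equiv.swap 0 1)

/-- every finite set of nonzero polynomials is of the form constant times `1 +` small in suitable
coordinates of the plane near the point `(y, z)` -/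
def Coord (y z : Ω) : Prop :=
  ∀ S : Finset (MvPolynomial (Fin 2) k), (∀ g ∈ S, g ≠ 0) →
    ∃ (φ : MvPolynomial (Fin 2) k ≃ₐ[k] MvPolynomial (Fin 2) k) (a c₁ c₂ : k), c₁ ≠ 0 ∧ c₂ ≠ 0 ∧
      ‖ev2 k y z (φ (MvPolynomial.X 0)) - algebraMap k Ω a‖ ≤ ‖c₁‖ ∧
      ‖ev2 k y z (φ (MvPolynomial.X 1))‖ ≤ ‖c₂‖ ∧
      ∀ g ∈ S, ∃ c : k, c ≠ 0 ∧ ∃ Q : MvPolynomial (Fin 2) k, (∀ m, ‖Q.coeff m‖ < 1) ∧
        φ.symm g = MvPolynomial.C c * (1 + MvPolynomial.aeval
          ![MvPolynomial.C c₁⁻¹ * (MvPolynomial.X 0 - MvPolynomial.C a),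
            MvPolynomial.C c₂⁻¹ * MvPolynomial.X 1] Q)

/-- the vertical disc `{y} × D(ρ, ‖w‖)` is straightened by a polynomial automorphism `φ` of the plane
(`φ P = P (U (Y, Z), T (Y, Z))`): for polynomials in `U, T` its sup norm is
`max ‖P l (u)‖ * ‖w'‖ ^ l`, `P = ∑ P l (U) * T ^ l` -/
def Str (y ρ w : Ω) : Prop :=
  ∃ (φ : MvPolynomial (Fin 2) k ≃ₐ[k] MvPolynomial (Fin 2) k) (u w' : Ω), w' ≠ 0 ∧ 0 < rr k u ∧
    ∀ (P : MvPolynomial (Fin 2) k) (M : ℝ), VB k y ρ ‖w‖ M (φ P) ↔ VB k u 0 ‖w'‖ M P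

end

/-- the field `k(W)` has smooth charts in which given elements of `k[W]` are constants times units -/
def HasCharts (k : Type*) {L : Type*} [NormedField k] [IsUltrametricDist k] [NormedField L]
    [NormedAlgebra k L] (W : Set L) : Prop :=
  ∀ S : Finset L, (∀ g ∈ S, g ≠ 0 ∧ g ∈ Algebra.adjoin k W) →
    ∃ B : Subalgebra (O k) L, Algebra.Smooth (O k) B ∧ (∀ b ∈ B, ‖b‖ ≤ 1) ∧
      (∀ b ∈ B, b ∈ IntermediateField.adjoin k W) ∧ (∀ g ∈ S, UnitUpTo k B g) ∧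
      ∃ D ∈ Algebra.adjoin k W, UnitUpTo k B D ∧ ∀ b ∈ B, ∃ N : ℕ, b * D ^ N ∈ Algebra.adjoin k W

/-- `t` is the largest index with `‖H.coeff t‖ * r ^ t` maximal, and `A` is the maximum -/
structure Top {Ω : Type*} [NormedField Ω] (H : Polynomial Ω) (r : ℝ) (t : ℕ) (A : ℝ) : Prop where
  pos : 0 < A
  eq : ‖H.coeff t‖ * r ^ t = A
  le : ∀ j, ‖H.coeff j‖ * r ^ j ≤ A
  lt : ∀ j, t < j → ‖H.coeff j‖ * r ^ j < A

end MP1a953e
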