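import Pool.Agent.Lib.MP_1a953e_ag.PlTTB
import Pool.Agent.Lib.MP_1a953e_ag.DTop

/-!
# Module PlGen: generators of finite extensions (from the one-dimensional theory)
-/

namespace MP1a953e

open Polynomial

section GenAux

private theorem gen_alg_iff {Ω : Type*} [NormedField Ω] {F : Subfield Ω} {β : Ω} :
    IsAlgebraic F β ↔ ∃ g : Polynomial Ω, Coeffs F g ∧ g ≠ 0 ∧ g.eval β = 0 := by
  constructor
  · rintro ⟨q, hq0, hq⟩
    refine ⟨q.map (algebraMap F Ω), fun i => ?_, ?_, ?_⟩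
    · rw [coeff_map]; exact (q.coeff i).2
    · exact (Polynomial.map_ne_zero_iff (algebraMap F Ω).injective).mpr hq0
    · rw [eval_map_algebraMap]; exact hq
  · rintro ⟨g, hg, hg0, hβ⟩
    have hl : g ∈ lifts (algebraMap F Ω) := by
      rw [lifts_iff_coeff_lifts]
      intro n
      exact ⟨⟨g.coeff n, hg n⟩, rfl⟩
    obtain ⟨q, hq⟩ := (mem_lifts g).1 hl
    refine ⟨q, ?_, ?_⟩
    · rintro rfl
      rw [Polynomial.map_zero] at hq
      exact hg0 hq.symm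
    · rw [← eval_map_algebraMap, hq]
      exact hβ

private theorem gen_closed {K L : Type*} [Field K] [Field L] [IsAlgClosed K] (e : K ≃+* L) :
    IsAlgClosed L := by
  refine IsAlgClosed.of_exists_root L fun q _ hq => ?_
  have hdeg : (q.map (e.symm : L →+* K)).degree ≠ 0 := by
    rw [Polynomial.degree_map]
    exact (Polynomial.degree_pos_of_irreducible hq).ne'
  obtain ⟨c, hc⟩ := IsAlgClosed.exists_root _ hdeg
  refine ⟨e c, ?_⟩
  have h1 : (q.map (e.symm : L →+* K)).map (e : K →+* L) = q := by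
    rw [Polynomial.map_map]
    have : (e : K →+* L).comp (e.symm : L →+* K) = RingHom.id L := by
      ext x; simp
    rw [this, Polynomial.map_id]
  rw [← h1, eval_map]
  have h2 := eval₂_at_apply (p := q.map (e.symm : L →+* K)) (e : K →+* L) c
  have h3 : (e : K →+* L) c = e c := rfl
  rw [h3] at h2
  rw [h2, hc.eq_zero, map_zero]

private theorem gen_alg_mono {Ω : Type*} [NormedField Ω] {F F' : Subfield Ω} (h : F ≤ F') {β : Ω}
    (hβ : IsAlgebraic F β) : IsAlgebraic F' β := by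
  obtain ⟨g, hg, hg0, h0⟩ := gen_alg_iff.mp hβ
  exact gen_alg_iff.mpr ⟨g, fun i => h (hg i), hg0, h0⟩

/-- a polynomial over the ambient field with coefficients in a subfield lifts to an intermediate one -/
private theorem gen_lift {Ω : Type*} [NormedField Ω] {A F : Subfield Ω} (hFA : F ≤ A)
    {g : Polynomial Ω} (hg : Coeffs F g) :
    ∃ g' : Polynomial A, Coeffs (F.comap A.subtype) g' ∧ g'.map A.subtype = g := by
  have hl : g ∈ lifts A.subtype := by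
    rw [lifts_iff_coeff_lifts]
    intro n
    exact ⟨⟨g.coeff n, hFA (hg n)⟩, rfl⟩
  obtain ⟨q, hq⟩ := (mem_lifts g).1 hl
  refine ⟨q, fun i => ?_, hq⟩
  rw [Subfield.mem_comap]
  have : A.subtype (q.coeff i) = g.coeff i := by rw [← hq, coeff_map]
  rw [this]
  exact hg i

private theorem gen_alg_comap {Ω : Type*} [NormedField Ω] {A F : Subfield Ω} (hFA : F ≤ A)
    {x : A} (hx : IsAlgebraic F (x : Ω)) : IsAlgebraic (F.comap A.subtype) x := by
  obtain ⟨g, hg, hg0, h0⟩ := gen_alg_iff.mp hx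
  obtain ⟨g', hg', rfl⟩ := gen_lift hFA hg
  refine gen_alg_iff.mpr ⟨g', hg', ?_, ?_⟩
  · rintro rfl
    exact hg0 (Polynomial.map_zero _)
  · have h1 : A.subtype (g'.eval x) = 0 := by
      rw [← h0, eval_map]
      exact (eval₂_at_apply A.subtype x).symm
    exact A.subtype.injective (by rw [h1, map_zero])

variable {k Ω : Type*} [NontriviallyNormedField k] [NormedField Ω] [NormedAlgebra k Ω]

private theorem gen_poly {A : Subfield Ω} {g : Polynomial A}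
    (hg : Coeffs ((kr k Ω).comap A.subtype) g) (ϑ : A) :
    ∃ B : Polynomial k, aeval (ϑ : Ω) B = ((g.eval ϑ : A) : Ω) := by
  have hl : g.map A.subtype ∈ lifts (algebraMap k Ω) := by
    rw [lifts_iff_coeff_lifts]
    intro n
    have h1 : A.subtype (g.coeff n) ∈ kr k Ω := hg n
    rw [coeff_map]
    rw [kr, RingHom.mem_fieldRange] at h1
    exact h1
  obtain ⟨B, hB⟩ := (mem_lifts _).1 hl
  refine ⟨B, ?_⟩
  rw [← eval_map_algebraMap, hB, eval_map]
  exact eval₂_at_apply A.subtype ϑ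

/-- the statement inside an algebraically closed subfield `A` algebraic over `P₀` -/
private theorem gen_main [IsAlgClosed k] [IsUltrametricDist Ω] {p : ℕ} [Fact p.Prime]
    (hp : ‖(p : Ω)‖ < 1) (him : Imk k Ω) {P₀ A : Subfield Ω} (hPA : P₀ ≤ A)
    [hA : IsAlgClosed A] (hkP : kr k Ω ≤ P₀) (halg : ∀ x : A, IsAlgebraic P₀ (x : Ω))
    {y ρ : A} (hy : 0 < rr k (y : Ω)) (hyP : (y : Ω) ∈ P₀)
    (hP : IsComplete (P₀ : Set Ω)) (hPd : DenseIn (adj (kr k Ω) (y : Ω)) P₀) :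
    ∃ ϑ : Ω, 0 < rr k ϑ ∧ (∀ ε : ℝ, 0 < ε → ∃ B : Polynomial k, ‖(y : Ω) - aeval ϑ B‖ < ε) ∧
      ∀ ε : ℝ, 0 < ε → ∃ B : Polynomial k, ‖(ρ : Ω) - aeval ϑ B‖ < ε := by
  have hkA : kr k Ω ≤ A := hkP.trans hPA
  have hnorm : ∀ x : A, ‖x‖ = ‖(x : Ω)‖ := fun x => rfl
  set C₁ : Subfield A := (kr k Ω).comap A.subtype with hC₁
  set P₁ : Subfield A := P₀.comap A.subtype with hP₁
  have hC₁mem : ∀ x : A, x ∈ C₁ ↔ (x : Ω) ∈ kr k Ω := fun x => Iff.rfl
  have hP₁mem : ∀ x : A, x ∈ P₁ ↔ (x : Ω) ∈ P₀ := fun x => Iff.rfl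
  have hCP : C₁ ≤ P₁ := fun x hx => hkP hx
  -- C₁ is algebraically closed
  let e0 : k →+* C₁ :=
    { toFun := fun c => ⟨⟨algebraMap k Ω c, hkA ⟨c, rfl⟩⟩, (⟨c, rfl⟩ : algebraMap k Ω c ∈ kr k Ω)⟩
      map_one' := by ext; simp
      map_mul' := fun a b => by ext; simp
      map_zero' := by ext; simp
      map_add' := fun a b => by ext; simp }
  have he0 : Function.Bijective e0 := by
    refine ⟨e0.injective, ?_⟩
    rintro ⟨⟨x, hxA⟩, hx⟩
    have hx' : x ∈ kr k Ω := hx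
    rw [kr, RingHom.mem_fieldRange] at hx'
    obtain ⟨c, rfl⟩ := hx'
    exact ⟨c, rfl⟩
  have hC₁c : IsAlgClosed C₁ := gen_closed (RingEquiv.ofBijective e0 he0)
  have himA : ImmAll C₁ := by
    intro x hx
    have hx' : (x : Ω) ≠ 0 := fun h => hx (Subtype.ext h)
    obtain ⟨c, hc⟩ := him x hx'
    exact ⟨⟨algebraMap k Ω c, hkA ⟨c, rfl⟩⟩, (⟨c, rfl⟩ : algebraMap k Ω c ∈ kr k Ω), hc⟩
  have himg : (fun x : A => (x : Ω)) '' (C₁ : Set A) = (kr k Ω : Set Ω) := by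
    ext x
    constructor
    · rintro ⟨x, hx, rfl⟩
      exact hx
    · intro hx
      exact ⟨⟨x, hkA hx⟩, hx, rfl⟩
  have hdist : ∀ x : A, Metric.infDist x (C₁ : Set A) = rr k (x : Ω) := by
    intro x
    rw [rr, ← himg]
    exact (Metric.infDist_image (Φ := fun x : A => (x : Ω)) isometry_subtype_coe).symm
  have hT : TT C₁ y := tt_of_immAll hC₁c himA (by rw [hdist]; exact hy)
  have hPc : IsComplete (P₁ : Set A) := by
    have himg2 : (fun x : A => (x : Ω)) '' (P₁ : Set A) = (P₀ : Set Ω) := by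
      ext x
      constructor
      · rintro ⟨x, hx, rfl⟩
        exact hx
      · intro hx
        exact ⟨⟨x, hPA hx⟩, hx, rfl⟩
    have h1 : IsUniformInducing (fun x : A => (x : Ω)) :=
      isometry_subtype_coe.isUniformInducing
    rw [← h1.isComplete_iff, himg2]
    exact hP
  have hnt : ∃ x ∈ P₁, 1 < ‖x‖ := by
    obtain ⟨c, hc⟩ := NormedField.exists_one_lt_norm k
    refine ⟨⟨algebraMap k Ω c, hkA ⟨c, rfl⟩⟩, hkP ⟨c, rfl⟩, ?_⟩
    rw [hnorm]
    show 1 < ‖algebraMap k Ω c‖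
    rwa [norm_algebraMap']
  have halg1 : ∀ x : A, IsAlgebraic P₁ x := fun x => gen_alg_comap hPA (halg x)
  have hPd1 : ∀ x ∈ P₁, ∀ ε : ℝ, 0 < ε → ∃ z ∈ adj C₁ y, ‖x - z‖ < ε := by
    intro x hx ε hε
    obtain ⟨a, ha, hax⟩ := hPd.2 x hx ε hε
    have hle : adj (kr k Ω) (y : Ω) ≤ (adj C₁ y).map A.subtype := by
      refine adj_le (fun c hc => ?_) ?_
      · exact Subfield.mem_map.mpr ⟨⟨c, hkA hc⟩, le_adj _ _ hc, rfl⟩
      · exact Subfield.mem_map.mpr ⟨y, mem_adj_self _ _, rfl⟩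
    obtain ⟨z, hz, hza⟩ := Subfield.mem_map.mp (hle ha)
    refine ⟨z, hz, ?_⟩
    rw [hnorm]
    have : ((x - z : A) : Ω) = (x : Ω) - a := by rw [← hza]; rfl
    rw [this]
    exact hax
  have hpA : ‖((p : ℕ) : A)‖ < 1 := by
    rw [hnorm]
    exact hp
  -- the finite extension
  have hρint : IsIntegral ↥(P₁ ⊔ C₁) ρ :=
    (gen_alg_mono (le_sup_left : P₁ ≤ P₁ ⊔ C₁) (halg1 ρ)).isIntegral
  have hfd : FiniteDimensional ↥(P₁ ⊔ C₁) (IntermediateField.adjoin ↥(P₁ ⊔ C₁) ({ρ} : Set A)) :=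
    IntermediateField.adjoin.finiteDimensional hρint
  obtain ⟨ϑ, hϑE, hϑT, hϑd⟩ := dim_one hpA hC₁c himA hT hPc hnt halg1 hyP hPd1
    (IntermediateField.adjoin ↥(P₁ ⊔ C₁) ({ρ} : Set A))
  have hϑpos : 0 < rr k (ϑ : Ω) := by
    rw [← hdist]; exact hϑT.pos
  have happ : ∀ x ∈ (IntermediateField.adjoin ↥(P₁ ⊔ C₁) ({ρ} : Set A)).toSubfield,
      ∀ ε : ℝ, 0 < ε → ∃ B : Polynomial k, ‖(x : Ω) - aeval (ϑ : Ω) B‖ < ε := by
    intro x hx ε hε
    obtain ⟨a, ha, hxa⟩ := hϑd.2 x hx ε hε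
    obtain ⟨g, hg, hag⟩ := hϑT.poly_dense ha hε
    obtain ⟨B, hB⟩ := gen_poly hg ϑ
    refine ⟨B, ?_⟩
    have e : (x : Ω) - aeval (ϑ : Ω) B = (((x - a) + (a - g.eval ϑ) : A) : Ω) := by
      rw [hB]
      push_cast
      ring
    rw [e, ← hnorm]
    exact (IsUltrametricDist.norm_add_le_max _ _).trans_lt (max_lt hxa hag)
  refine ⟨ϑ, hϑpos, happ y ?_, happ ρ ?_⟩
  · exact (IntermediateField.adjoin ↥(P₁ ⊔ C₁) ({ρ} : Set A)).algebraMap_mem
      ⟨y, (le_sup_left : P₁ ≤ P₁ ⊔ C₁) hyP⟩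
  · exact IntermediateField.mem_adjoin_simple_self _ ρ

end GenAux

variable {k Ω : Type*} [NontriviallyNormedField k] [IsAlgClosed k] [NormedField Ω]
  [IsUltrametricDist Ω] [NormedAlgebra k Ω] [IsAlgClosed Ω]

/-- GE1.  `P₀` is the closure of `k(y)`, `ρ` is algebraic over `P₀`: there is `ϑ` of type 4 such that `y` and
`ρ` are limits of polynomials in `ϑ`.

Proof.  Let `Ω₁` be the algebraic closure of `P₀` in `Ω` (`algebraicClosure P₀ Ω`, an intermediate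
field, algebraically closed since `Ω` is), with the induced norm, `C₁, P₁` the subfields of `Ω₁` corresponding to
`kr k Ω`, `P₀` (`Subfield.comap` under the inclusion). Apply `dim_one` (DTop) in `Ω₁` with `C = C₁`,
`T = y`, `P₀ = P₁` and `E = (P₁ ⊔ C₁) (ρ)`, which is finite dimensional (`ρ` is algebraic). `TT C₁ y`:
`tt_of_immAll` (`ImmAll C₁` from `Imk`; the distance of `y` to `C₁` in `Ω₁` is `rr k y > 0`). It gives
`ϑ ∈ E` with `TT C₁ ϑ` and `adj C₁ ϑ` dense in `E ∋ y, ρ`; so `rr k ϑ > 0`, and every element of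
`adj (kr k Ω) ϑ` is a limit of polynomials in `ϑ` over `k` (`TT.poly_dense`, Calc3). -/
theorem exists_gen {p : ℕ} [Fact p.Prime] (hp : ‖(p : Ω)‖ < 1) (him : Imk k Ω) {y ρ : Ω}
    (hy : 0 < rr k y) {P₀ : Subfield Ω} (hP : IsComplete (P₀ : Set Ω))
    (hPd : DenseIn (adj (kr k Ω) y) P₀) (hρ : IsAlgebraic P₀ ρ) :
    ∃ ϑ : Ω, 0 < rr k ϑ ∧ (∀ ε : ℝ, 0 < ε → ∃ B : Polynomial k, ‖y - aeval ϑ B‖ < ε) ∧
      ∀ ε : ℝ, 0 < ε → ∃ B : Polynomial k, ‖ρ - aeval ϑ B‖ < ε := by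
  have hyP : y ∈ P₀ := hPd.1 (mem_adj_self _ _)
  have hkP : kr k Ω ≤ P₀ := (le_adj _ _).trans hPd.1
  have hmem : ∀ x : Ω, x ∈ (algebraicClosure P₀ Ω).toSubfield ↔ IsAlgebraic P₀ x := fun x =>
    mem_algebraicClosure_iff
  have hPA : P₀ ≤ (algebraicClosure P₀ Ω).toSubfield := fun x hx =>
    (hmem x).mpr (isAlgebraic_algebraMap (⟨x, hx⟩ : P₀))
  have hA : IsAlgClosed (algebraicClosure P₀ Ω).toSubfield :=
    (IsAlgClosure.isAlgClosed P₀ : IsAlgClosed (algebraicClosure P₀ Ω))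
  exact gen_main hp him hPA (hA := hA) hkP (fun x => (hmem x).mp x.2)
    (y := ⟨y, hPA hyP⟩) (ρ := ⟨ρ, (hmem ρ).mpr hρ⟩) hy hyP hP hPd

end MP1a953e
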