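import Pool.Agent.Lib.MP_1a953e_ag.PlStar

/-!
# Module PlIRA: index reduction, first part
-/

namespace MP1a953e

open Polynomial

variable {k Ω : Type*} [NontriviallyNormedField k] [IsAlgClosed k] [NormedField Ω]
  [IsUltrametricDist Ω] [NormedAlgebra k Ω] [IsAlgClosed Ω]

omit [IsAlgClosed k] [IsUltrametricDist Ω] [IsAlgClosed Ω] in
/-- Taylor's formula for `fam`: `fam y (x + t) g q j = ∑_{i} (i + j choose j) fam y x g q (i + j) t ^ i`
(the sum over `i ≤ q`; `fam y x g q m = 0` for `m ≥ q`). -/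
theorem fam_taylor (y x t : Ω) (g : ℕ → Polynomial k) (q j : ℕ) :
    fam k y (x + t) g q j =
      ∑ i ∈ Finset.range q, ((i + j).choose j : Ω) * fam k y x g q (i + j) * t ^ i := by
  unfold fam
  simp only [Finset.mul_sum, Finset.sum_mul]
  rw [Finset.sum_comm]
  refine Finset.sum_congr rfl fun i hi => ?_
  rw [Finset.mem_range] at hi
  rcases Nat.lt_or_ge i j with hij | hij
  · rw [Nat.choose_eq_zero_of_lt hij, Nat.cast_zero, zero_mul, zero_mul]
    symm
    refine Finset.sum_eq_zero fun m _ => ?_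
    rw [Nat.choose_eq_zero_of_lt (show i < m + j by omega), Nat.cast_zero, zero_mul, zero_mul,
      mul_zero, zero_mul]
  · have hsub : Finset.range (i - j + 1) ⊆ Finset.range q :=
      Finset.range_subset_range.2 (by omega)
    rw [← Finset.sum_subset hsub]
    · rw [add_comm x t, add_pow, Finset.mul_sum]
      refine Finset.sum_congr rfl fun m hm => ?_
      rw [Finset.mem_range] at hm
      have h1 : i.choose (m + j) * (m + j).choose j = i.choose j * (i - j).choose m := by
        have h := Nat.choose_mul (n := i) (k := m + j) (s := j) (by omega)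
        rwa [Nat.add_sub_cancel] at h
      have h2 : i - (m + j) = i - j - m := by omega
      have h3 : ((i.choose (m + j) : ℕ) : Ω) * (((m + j).choose j : ℕ) : Ω) =
          ((i.choose j : ℕ) : Ω) * (((i - j).choose m : ℕ) : Ω) := by
        exact_mod_cast congrArg (fun n : ℕ => (n : Ω)) h1
      rw [h2]
      linear_combination (-(aeval y (g i) * x ^ (i - j - m) * t ^ m)) * h3
    · intro m _ hm
      rw [Finset.mem_range, not_lt] at hm
      rw [Nat.choose_eq_zero_of_lt (show i < m + j by omega), Nat.cast_zero, zero_mul, zero_mul,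
        mul_zero, zero_mul]

omit [IsAlgClosed k] [IsUltrametricDist Ω] [IsAlgClosed Ω] in
/-- the Hasse derivatives of order at least `q` vanish -/
theorem ira_fam_of_le (y x : Ω) (g : ℕ → Polynomial k) {q j : ℕ} (hj : q ≤ j) :
    fam k y x g q j = 0 := by
  unfold fam
  refine Finset.sum_eq_zero fun i hi => ?_
  rw [Finset.mem_range] at hi
  rw [Nat.choose_eq_zero_of_lt (show i < j by omega), Nat.cast_zero, zero_mul, zero_mul]

omit [IsAlgClosed k] [IsUltrametricDist Ω] [IsAlgClosed Ω] in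
/-- at the points of `k` the family is a polynomial in `y` -/
theorem ira_fam_alg (y : Ω) (m : k) (g : ℕ → Polynomial k) (q j : ℕ) :
    fam k y (algebraMap k Ω m) g q j =
      aeval y (∑ i ∈ Finset.range q, C ((i.choose j : k) * m ^ (i - j)) * g i) := by
  unfold fam
  rw [map_sum]
  refine Finset.sum_congr rfl fun i _ => ?_
  rw [map_mul, aeval_C, map_mul, map_natCast, map_pow]
  ring

omit [IsAlgClosed k] [NormedAlgebra k Ω] [IsAlgClosed Ω] in
/-- natural numbers have norm at most one -/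
theorem ira_norm_nat (n : ℕ) : ‖(n : Ω)‖ ≤ 1 :=
  IsUltrametricDist.norm_natCast_le_one Ω n

/-- powers of a number slightly bigger than `1` -/
theorem ira_exists_pow_lt {r M N : ℝ} (hr : 0 < r) (hMN : M < N) (hN : 0 < N) (q : ℕ) :
    ∃ ρ > r, ∀ x, r ≤ x → x ≤ ρ → M * (x / r) ^ q < N := by
  rcases lt_or_ge M 0 with hM | hM
  · refine ⟨r + 1, by linarith, fun x hx _ => ?_⟩
    have h1 : 0 < (x / r) ^ q := pow_pos (div_pos (hr.trans_le hx) hr) q
    nlinarith
  · have h1 : ∀ᶠ x in nhds r, M * (x / r) ^ q < N := by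
      have hc : Continuous fun x : ℝ => M * (x / r) ^ q := by fun_prop
      have h2 : M * (r / r) ^ q < N := by rwa [div_self hr.ne', one_pow, mul_one]
      exact hc.continuousAt.eventually_lt continuousAt_const h2
    obtain ⟨δ, hδ, hball⟩ := Metric.eventually_nhds_iff.1 h1
    refine ⟨r + δ / 2, by linarith, fun x hx hx' => hball ?_⟩
    rw [Real.dist_eq, abs_of_nonneg (by linarith)]
    linarith

/-- IR1.  Let `y = B₁ ϑ`, `F (X) = ∑_{i < q} g i (y) X ^ i`, `r = rr k ϑ`, and suppose that the Hasse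
derivatives satisfy `‖F^[j] (ϑ)‖ * r ^ j ≤ R₀` for `1 ≤ j < q`. Then, uniformly for `a ∈ k` close to
`ϑ`, the elements `F^[j] (a)`, `1 ≤ j < q`, are constants up to `κ * R₀ / r ^ j`, `κ < 1`.

Proof.  Descending induction on `j`: we show for `n ≤ q` that there are `κ < 1` and `R > r` which work for
all `j` with `n ≤ j < q`. Let `κ₁, R₁` work for all `j' > j` (`j ≥ 1`). Choose `m ∈ k` with
`‖ϑ - m‖ < R₁` and `κ₂ = κ₁ * (‖ϑ - m‖ / r) ^ q < 1`. Let `c j' ∈ k` with
`‖F^[j'] (m) - c j'‖ * r ^ j' ≤ κ₁ R₀`, `j < j' < q`. Put `G (X) = ∑_{i ≥ 1} (i + j choose j) c (i + j) (X - m) ^ i`,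
a polynomial over `k` of degree `< q`, and `e = F^[j] (m) = g' (y)` with `g' ∈ k[Y]`
(`g' = ∑ (i choose j) m ^ (i - j) g i`). By Taylor's formula (`fam_taylor`), for all `x` with
`‖x - m‖ ≤ ‖ϑ - m‖`: `‖F^[j] (x) - (e + G (x))‖ * r ^ j ≤ κ₂ * R₀`; this applies to `x = ϑ` and to all
`x = a ∈ k` with `‖ϑ - a‖ ≤ ‖ϑ - m‖`.
Claim: `rr k e * r ^ j < R₀`. If `rr k e = 0` this is clear (`R₀ > 0`). Otherwise, if
`rr k e * r ^ j ≥ R₀`, then `‖e + G ϑ‖ > rr k e` by `star`, so
`‖e + G ϑ‖ * r ^ j > R₀ > κ₂ R₀` and `‖F^[j] (ϑ)‖ = ‖e + G ϑ‖` contradicts `‖F^[j] (ϑ)‖ * r ^ j ≤ R₀`.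
So there is `c₀ ∈ k` with `‖e - c₀‖ * r ^ j < R₀`, say `≤ κ₃ R₀`, `κ₃ < 1`, and for `a` as above the constant
`c₀ + G (a)` works for `F^[j] (a)` with `max κ₂ κ₃`. -/
theorem fam_near (him : Imk k Ω) {ϑ : Ω} (h : 0 < rr k ϑ) {B₁ : Polynomial k} {q : ℕ} {A₁ : ℝ}
    (h1 : IsInd k ϑ B₁ q A₁) (g : ℕ → Polynomial k) {R₀ : ℝ} (hR₀ : 0 < R₀)
    (hF : ∀ j, 1 ≤ j → j < q → ‖fam k (aeval ϑ B₁) ϑ g q j‖ * rr k ϑ ^ j ≤ R₀) :
    ∃ κ : ℝ, 0 ≤ κ ∧ κ < 1 ∧ ∃ R > rr k ϑ, ∀ a : k, ‖ϑ - algebraMap k Ω a‖ < R →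
      ∀ j, 1 ≤ j → j < q → ∃ c : k,
        ‖fam k (aeval ϑ B₁) (algebraMap k Ω a) g q j - algebraMap k Ω c‖ * rr k ϑ ^ j ≤ κ * R₀ := by
  set y : Ω := aeval ϑ B₁ with hy
  set r : ℝ := rr k ϑ with hr
  have hq := h1.one_le
  have hr0 : r ≠ 0 := h.ne'
  suffices H : ∀ d n : ℕ, 1 ≤ n → q ≤ n + d → ∃ κ : ℝ, 0 ≤ κ ∧ κ < 1 ∧ ∃ R > r, ∀ a : k,
      ‖ϑ - algebraMap k Ω a‖ < R → ∀ j, n ≤ j → j < q → ∃ c : k,
        ‖fam k y (algebraMap k Ω a) g q j - algebraMap k Ω c‖ * r ^ j ≤ κ * R₀ by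
    exact H q 1 le_rfl (by omega)
  intro d
  induction d with
  | zero =>
    intro n _ hn
    exact ⟨0, le_rfl, zero_lt_one, r + 1, by linarith, fun a _ j h1 h2 => by omega⟩
  | succ d ih =>
    intro j hj1 hn
    rcases Nat.lt_or_ge j q with hjq | hjq
    swap
    · exact ⟨0, le_rfl, zero_lt_one, r + 1, by linarith, fun a _ i h1 h2 => by omega⟩
    obtain ⟨κ₁, hκ0, hκ1, R₁, hR₁, hc⟩ := ih (j + 1) (by omega) (by omega)
    -- the point `m`
    obtain ⟨ρ₀, hρ₀, hpow⟩ := ira_exists_pow_lt (M := κ₁) (N := 1) h hκ1 one_pos q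
    obtain ⟨m, hm⟩ := exists_lt_of_rr_lt (k := k) (x := ϑ) (R := min R₁ ρ₀)
      (lt_min hR₁ hρ₀)
    set ρ : ℝ := ‖ϑ - algebraMap k Ω m‖ with hρ
    have hrρ : r < ρ := rr_lt him h m
    have hρR : ρ < R₁ := hm.trans_le (min_le_left _ _)
    have hκ₂ : κ₁ * (ρ / r) ^ q < 1 := hpow ρ hrρ.le (hm.le.trans (min_le_right _ _))
    set κ₂ : ℝ := κ₁ * (ρ / r) ^ q with hκ₂d
    have hρr : 1 ≤ ρ / r := (one_le_div h).2 hrρ.le
    have hκ₂0 : 0 ≤ κ₂ := mul_nonneg hκ0 (pow_nonneg (by linarith) q)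
    have hcm := hc m (by rw [← hρ]; exact hρR)
    have hex : ∀ i : ℕ, ∃ c : k, j + 1 ≤ i → i < q →
        ‖fam k y (algebraMap k Ω m) g q i - algebraMap k Ω c‖ * r ^ i ≤ κ₁ * R₀ := by
      intro i
      by_cases hi : j + 1 ≤ i ∧ i < q
      · obtain ⟨c, hc⟩ := hcm i hi.1 hi.2
        exact ⟨c, fun _ _ => hc⟩
      · exact ⟨0, fun h1 h2 => absurd ⟨h1, h2⟩ hi⟩
    choose c hc' using hex
    -- the polynomial `G` and the element `e`
    let G : Polynomial k := ∑ i ∈ Finset.range q,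
      if 1 ≤ i ∧ i + j < q then C (((i + j).choose j : k) * c (i + j)) * (X - C m) ^ i else 0
    have hG : G.natDegree < q := by
      refine Nat.lt_of_le_pred hq (natDegree_sum_le_of_forall_le _ _ fun i hi => ?_)
      rw [Finset.mem_range] at hi
      split_ifs
      · refine (natDegree_C_mul_le _ _).trans ((natDegree_pow_le).trans ?_)
        rw [natDegree_X_sub_C]
        simp only [Nat.pred_eq_sub_one]
        omega
      · simp
    have hGx : ∀ x : Ω, aeval x G = ∑ i ∈ Finset.range q,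
        if 1 ≤ i ∧ i + j < q then
          ((i + j).choose j : Ω) * algebraMap k Ω (c (i + j)) * (x - algebraMap k Ω m) ^ i
        else 0 := by
      intro x
      simp only [G, map_sum]
      refine Finset.sum_congr rfl fun i _ => ?_
      split_ifs
      · rw [map_mul, aeval_C, map_mul, map_natCast, map_pow, map_sub, aeval_X, aeval_C]
      · rw [map_zero]
    set g' : Polynomial k := ∑ i ∈ Finset.range q, C ((i.choose j : k) * m ^ (i - j)) * g i
      with hg'
    have he : fam k y (algebraMap k Ω m) g q j = aeval y g' := ira_fam_alg y m g q j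
    set e : Ω := aeval y g' with hedef
    have hrj : 0 < r ^ j := pow_pos h j
    have hrj1 : r ^ j * (r ^ j)⁻¹ = 1 := mul_inv_cancel₀ hrj.ne'
    have key : ∀ x : Ω, ‖x - algebraMap k Ω m‖ ≤ ρ →
        ‖fam k y x g q j - (e + aeval x G)‖ * r ^ j ≤ κ₂ * R₀ := by
      intro x hx
      have h2 : fam k y x g q j - (e + aeval x G) = ∑ i ∈ Finset.range q,
          if 1 ≤ i ∧ i + j < q then ((i + j).choose j : Ω) *
            (fam k y (algebraMap k Ω m) g q (i + j) - algebraMap k Ω (c (i + j))) *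
              (x - algebraMap k Ω m) ^ i else 0 := by
        have h3 : e = ∑ i ∈ Finset.range q, if i = 0 then e else 0 := by
          rw [Finset.sum_ite_eq' (Finset.range q) 0 (fun _ => e),
            if_pos (Finset.mem_range.2 (by omega))]
        have h4 := fam_taylor (k := k) y (algebraMap k Ω m) (x - algebraMap k Ω m) g q j
        rw [add_sub_cancel] at h4
        rw [h4, h3, hGx, ← Finset.sum_add_distrib, ← Finset.sum_sub_distrib]
        refine Finset.sum_congr rfl fun i _ => ?_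
        rcases Nat.eq_zero_or_pos i with hi0 | hi0
        · subst hi0
          rw [if_pos rfl, if_neg (by omega), if_neg (by omega), Nat.zero_add, he,
            Nat.choose_self]
          simp
        · rw [if_neg (by omega : i ≠ 0), zero_add]
          by_cases hi : 1 ≤ i ∧ i + j < q
          · rw [if_pos hi, if_pos hi]
            ring
          · rw [if_neg hi, if_neg hi, ira_fam_of_le y _ g (by omega), mul_zero, zero_mul, sub_zero]
      rw [h2]
      have h5 : ‖∑ i ∈ Finset.range q,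
          if 1 ≤ i ∧ i + j < q then ((i + j).choose j : Ω) *
            (fam k y (algebraMap k Ω m) g q (i + j) - algebraMap k Ω (c (i + j))) *
              (x - algebraMap k Ω m) ^ i else 0‖ ≤ κ₂ * R₀ * (r ^ j)⁻¹ := by
        refine IsUltrametricDist.norm_sum_le_of_forall_le_of_nonneg (by positivity) fun i hi => ?_
        rw [Finset.mem_range] at hi
        split_ifs with hij
        · rw [norm_mul, norm_mul, norm_pow]
          have h6 := hc' (i + j) (by omega) hij.2
          have h7 : ‖x - algebraMap k Ω m‖ ^ i ≤ ρ ^ i :=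
            pow_le_pow_left₀ (norm_nonneg _) hx i
          have h8 : (ρ / r) ^ i ≤ (ρ / r) ^ q := pow_le_pow_right₀ hρr hi.le
          set D : ℝ := ‖fam k y (algebraMap k Ω m) g q (i + j) - algebraMap k Ω (c (i + j))‖
            with hD
          have hD0 : 0 ≤ D := norm_nonneg _
          have h9 : D ≤ κ₁ * R₀ * (r ^ (i + j))⁻¹ := by
            rw [← div_eq_mul_inv, le_div_iff₀ (pow_pos h _)]
            exact h6
          calc ‖(((i + j).choose j : ℕ) : Ω)‖ * D * ‖x - algebraMap k Ω m‖ ^ i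
              ≤ 1 * (κ₁ * R₀ * (r ^ (i + j))⁻¹) * ρ ^ i := by
                gcongr
                exact ira_norm_nat _
            _ = κ₁ * (ρ / r) ^ i * R₀ * (r ^ j)⁻¹ := by
                rw [div_pow, pow_add]
                field_simp
            _ ≤ κ₂ * R₀ * (r ^ j)⁻¹ := by
                rw [hκ₂d]
                gcongr
        · rw [norm_zero]
          positivity
      calc _ ≤ κ₂ * R₀ * (r ^ j)⁻¹ * r ^ j := mul_le_mul_of_nonneg_right h5 hrj.le
        _ = κ₂ * R₀ := by rw [mul_assoc, mul_comm ((r ^ j)⁻¹), hrj1, mul_one]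
    -- the distance of `e` to `k`
    have hclaim : rr k e * r ^ j < R₀ := by
      by_contra hcon
      rw [not_lt] at hcon
      have he0 : 0 < rr k e := by
        rcases (rr_nonneg (k := k) e).lt_or_eq with h2 | h2
        · exact h2
        · rw [← h2, zero_mul] at hcon
          exact absurd hR₀ (not_lt.2 hcon)
      have hst := star him h h1 g' G hG he0
      have h3 := key ϑ (le_of_eq hρ.symm)
      have h4 : R₀ < ‖e + aeval ϑ G‖ * r ^ j :=
        hcon.trans_lt (mul_lt_mul_of_pos_right hst hrj)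
      have h5 : ‖fam k y ϑ g q j - (e + aeval ϑ G)‖ < ‖e + aeval ϑ G‖ := by
        have h6 : ‖fam k y ϑ g q j - (e + aeval ϑ G)‖ * r ^ j < ‖e + aeval ϑ G‖ * r ^ j := by
          refine h3.trans_lt (lt_of_le_of_lt ?_ h4)
          nlinarith
        exact lt_of_mul_lt_mul_right h6 hrj.le
      have h6 : ‖fam k y ϑ g q j‖ = ‖e + aeval ϑ G‖ := by
        have h7 := IsUltrametricDist.norm_add_eq_max_of_norm_ne_norm h5.ne
        rw [sub_add_cancel, max_eq_right h5.le] at h7
        exact h7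
      have h7 := hF j hj1 hjq
      rw [h6] at h7
      exact absurd h4 (not_lt.2 h7)
    obtain ⟨c₀, hc₀⟩ := exists_lt_of_rr_lt (k := k) (x := e) (R := R₀ * (r ^ j)⁻¹) (by
      rw [← div_eq_mul_inv, lt_div_iff₀ hrj]
      exact hclaim)
    set κ₃ : ℝ := ‖e - algebraMap k Ω c₀‖ * r ^ j / R₀ with hκ₃
    have hκ₃0 : 0 ≤ κ₃ := by positivity
    have hκ₃1 : κ₃ < 1 := by
      rw [hκ₃, div_lt_one hR₀]
      rw [← div_eq_mul_inv, lt_div_iff₀ hrj] at hc₀
      exact hc₀
    refine ⟨max κ₁ (max κ₂ κ₃), le_max_of_le_left hκ0, max_lt hκ1 (max_lt hκ₂ hκ₃1), ρ, hrρ, ?_⟩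
    intro a ha i hji hiq
    rcases hji.lt_or_eq with hji | hji
    · obtain ⟨c, hc⟩ := hc a (ha.trans hρR) i (by omega) hiq
      exact ⟨c, hc.trans (mul_le_mul_of_nonneg_right (le_max_left _ _) hR₀.le)⟩
    · subst hji
      refine ⟨c₀ + G.eval a, ?_⟩
      have h2 : ‖algebraMap k Ω a - algebraMap k Ω m‖ ≤ ρ := by
        have h3 : algebraMap k Ω a - algebraMap k Ω m =
            (ϑ - algebraMap k Ω m) + -(ϑ - algebraMap k Ω a) := by ring
        rw [h3]
        exact (IsUltrametricDist.norm_add_le_max _ _).trans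
          (max_le le_rfl (by rw [norm_neg]; exact ha.le))
      have h3 := key _ h2
      have h4 : aeval (algebraMap k Ω a) G = algebraMap k Ω (G.eval a) :=
        aeval_algebraMap_apply_eq_algebraMap_eval a G
      rw [h4] at h3
      have h5 : fam k y (algebraMap k Ω a) g q j - algebraMap k Ω (c₀ + G.eval a) =
          (fam k y (algebraMap k Ω a) g q j - (e + algebraMap k Ω (G.eval a))) +
            (e - algebraMap k Ω c₀) := by
        rw [map_add]; ring
      have h6 : ‖e - algebraMap k Ω c₀‖ * r ^ j = κ₃ * R₀ := by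
        rw [hκ₃, div_mul_cancel₀ _ hR₀.ne']
      rw [h5]
      refine (mul_le_mul_of_nonneg_right (IsUltrametricDist.norm_add_le_max _ _) hrj.le).trans ?_
      rw [max_mul_of_nonneg _ _ hrj.le]
      refine max_le (h3.trans ?_) (h6.le.trans ?_)
      · exact mul_le_mul_of_nonneg_right (le_max_of_le_right (le_max_left _ _)) hR₀.le
      · exact mul_le_mul_of_nonneg_right (le_max_of_le_right (le_max_right _ _)) hR₀.le

end MP1a953e
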