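import Pool.Agent.Lib.MP_1a953e_ag.PlTT

/-!
# Module PlTTB: the index of a polynomial at a point of type 4
-/

namespace MP1a953e

open Polynomial

variable {k Ω : Type*} [NontriviallyNormedField k] [IsAlgClosed k] [NormedField Ω]
  [IsUltrametricDist Ω] [NormedAlgebra k Ω]

/-- `B (ϑ + t) = ∑ hd k ϑ B j * t ^ j` -/
theorem aeval_add (ϑ t : Ω) (B : Polynomial k) {N : ℕ} (hN : B.natDegree ≤ N) :
    aeval (ϑ + t) B = ∑ j ∈ Finset.range (N + 1), hd k ϑ B j * t ^ j := by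
  have h : ∀ j, hd k ϑ B j = (taylor ϑ (B.map (algebraMap k Ω))).coeff j := by
    intro j
    rw [hd_eq, taylor_coeff]
  have h2 : (aeval (ϑ + t) B : Ω) = (taylor ϑ (B.map (algebraMap k Ω))).eval t := by
    rw [taylor_eval, eval_map, ← aeval_def, add_comm]
  rw [h2, eval_eq_sum_range' (n := N + 1)]
  · exact Finset.sum_congr rfl fun j _ => by rw [h j]
  · rw [natDegree_taylor]
    exact Nat.lt_succ_of_le ((natDegree_map_le).trans hN)

/-- T2.  A nonconstant polynomial has an index. Proof: the numbers `‖hd k ϑ B j‖ * r ^ j`, `1 ≤ j ≤ natDegree`, have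
a maximum `A`, `A > 0` since `hd k ϑ B (natDegree) = leadingCoeff ≠ 0`; take the largest `j`
with value `A`. -/
theorem exists_isInd {ϑ : Ω} (h : 0 < rr k ϑ) {B : Polynomial k} (hB : 1 ≤ B.natDegree) :
    ∃ q A, IsInd k ϑ B q A := by
  classical
  set r := rr k ϑ with hr
  set d := B.natDegree with hd'
  let f : ℕ → ℝ := fun j => ‖hd k ϑ B j‖ * r ^ j
  obtain ⟨m, hm, hmax⟩ := Finset.exists_max_image (Finset.Icc 1 d) f ⟨1, Finset.mem_Icc.2 ⟨le_rfl, hB⟩⟩
  have hlead : hd k ϑ B d ≠ 0 := by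
    unfold hd
    rw [hd', hasseDeriv_natDegree_eq_C, aeval_C]
    intro h0
    rw [map_eq_zero, leadingCoeff_eq_zero] at h0
    rw [h0, natDegree_zero] at hd'
    omega
  have hpos : 0 < f m := by
    have h1 : 0 < f d := mul_pos (norm_pos_iff.2 hlead) (pow_pos h d)
    exact h1.trans_le (hmax d (Finset.mem_Icc.2 ⟨hB, le_rfl⟩))
  have hle : ∀ j, 1 ≤ j → f j ≤ f m := by
    intro j hj
    by_cases hjd : j ≤ d
    · exact hmax j (Finset.mem_Icc.2 ⟨hj, hjd⟩)
    · have : f j = 0 := by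
        show ‖hd k ϑ B j‖ * r ^ j = 0
        rw [hd_of_natDegree_lt ϑ (by omega), norm_zero, zero_mul]
      rw [this]; exact hpos.le
  -- the largest index
  let S := (Finset.Icc 1 d).filter fun j => f j = f m
  have hS : S.Nonempty := ⟨m, Finset.mem_filter.2 ⟨hm, rfl⟩⟩
  refine ⟨S.max' hS, f m, hpos, ?_, ?_, hle, ?_⟩
  · exact (Finset.mem_Icc.1 (Finset.mem_filter.1 (S.max'_mem hS)).1).1
  · exact (Finset.mem_filter.1 (S.max'_mem hS)).2
  · intro j hj
    have h1j : 1 ≤ j :=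
      (Finset.mem_Icc.1 (Finset.mem_filter.1 (S.max'_mem hS)).1).1.trans hj.le
    refine lt_of_le_of_ne (hle j h1j) fun he => ?_
    by_cases hjd : j ≤ d
    · exact absurd (S.le_max' j (Finset.mem_filter.2 ⟨Finset.mem_Icc.2 ⟨h1j, hjd⟩, he⟩))
        (not_le.2 hj)
    · have h0 : ‖hd k ϑ B j‖ * r ^ j = 0 := by
        rw [hd_of_natDegree_lt ϑ (by omega), norm_zero, zero_mul]
      rw [h0] at he
      exact hpos.ne he

/-- T3.  The distance of `B ϑ` to `k` is `A`.  Proof.  `≥`: for `c ∈ k`,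
`A = ‖hd k ϑ (B - c) q‖ * r ^ q ≤ ‖B ϑ - c‖` (`hd_le`). `≤`: for `a ∈ k` with `‖ϑ - a‖ = R'` close to `r`,
`‖B a - B ϑ‖ ≤ max_{j ≥ 1} ‖hd k ϑ B j‖ * R' ^ j ≤ A * (R' / r) ^ natDegree`, arbitrarily close to
`A`. -/
theorem IsInd.rr_eq [IsAlgClosed Ω] (him : Imk k Ω) {ϑ : Ω} (h : 0 < rr k ϑ) {B : Polynomial k}
    {q : ℕ} {A : ℝ} (hI : IsInd k ϑ B q A) : rr k (aeval ϑ B) = A := by
  refine le_antisymm ?_ ?_
  · -- `rr ≤ A`
    by_contra hc
    push Not at hc
    set r := rr k ϑ with hr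
    set d := B.natDegree with hd'
    -- choose `R' > r` with `A * (R' / r) ^ d < rr`
    have hA := hI.pos
    have hcont : Filter.Tendsto (fun x : ℝ => A * (x / r) ^ d) (nhds r) (nhds (A * (r / r) ^ d)) :=
      ((continuous_const.mul ((continuous_id.div_const r).pow d)).tendsto r)
    rw [div_self h.ne', one_pow, mul_one] at hcont
    have hev := (hcont.eventually (gt_mem_nhds hc))
    obtain ⟨ε, hε, hball⟩ := Metric.eventually_nhds_iff.1 hev
    obtain ⟨a, ha⟩ := exists_lt_of_rr_lt (k := k) (x := ϑ) (R := r + ε) (by linarith)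
    have har : r < ‖ϑ - algebraMap k Ω a‖ := rr_lt him h a
    set R' := ‖ϑ - algebraMap k Ω a‖ with hR'
    have hb : A * (R' / r) ^ d < rr k (aeval ϑ B) := by
      apply hball
      rw [Real.dist_eq, abs_of_pos (by linarith)]
      linarith
    have h1 : rr k (aeval ϑ B) ≤ ‖aeval ϑ B - algebraMap k Ω (B.eval a)‖ := rr_le _ _
    have h2 : algebraMap k Ω (B.eval a) = aeval (ϑ + (algebraMap k Ω a - ϑ)) B := by
      rw [add_sub_cancel, aeval_algebraMap_apply, coe_aeval_eq_eval]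
    have h3 : algebraMap k Ω (B.eval a) - aeval ϑ B =
        ∑ j ∈ Finset.range d, hd k ϑ B (j + 1) * (algebraMap k Ω a - ϑ) ^ (j + 1) := by
      rw [h2, aeval_add ϑ _ B le_rfl, Finset.sum_range_succ', pow_zero, mul_one, hd_zero,
        add_sub_cancel_right]
    have h4 : ‖aeval ϑ B - algebraMap k Ω (B.eval a)‖ ≤ A * (R' / r) ^ d := by
      rw [norm_sub_rev, h3]
      have hnn : 0 ≤ A * (R' / r) ^ d :=
        mul_nonneg hA.le (pow_nonneg (div_nonneg (norm_nonneg _) h.le) _)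
      refine IsUltrametricDist.norm_sum_le_of_forall_le_of_nonneg hnn fun j hj => ?_
      have hj' : j < d := Finset.mem_range.1 hj
      rw [norm_mul, norm_pow, norm_sub_rev]
      have h5 : ‖hd k ϑ B (j + 1)‖ * R' ^ (j + 1) =
          (‖hd k ϑ B (j + 1)‖ * r ^ (j + 1)) * (R' / r) ^ (j + 1) := by
        rw [div_pow, mul_assoc, mul_div_cancel₀ _ (pow_pos h _).ne']
      rw [← hR', h5]
      have h6 : 1 ≤ R' / r := by
        rw [one_le_div h]; exact har.le
      exact mul_le_mul (hI.le (j + 1) (by omega)) (pow_le_pow_right₀ h6 (by omega))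
        (pow_nonneg (zero_le_one.trans h6) _) hA.le
    linarith
  · refine (Metric.le_infDist ⟨0, (kr k Ω).zero_mem⟩).2 fun z hz => ?_
    obtain ⟨c, rfl⟩ := mem_kr.1 hz
    have h1 := hd_le him h (B - C c) q
    rw [hd_sub, hd_C ϑ c hI.one_le, sub_zero, hI.eq, map_sub, aeval_C] at h1
    rwa [dist_eq_norm]

/-- T4.  Perturbation.  Proof.  `‖hd k ϑ (B - B') j‖ * r ^ j ≤ ‖B ϑ - B' ϑ‖ < A` (`hd_le`). -/
theorem IsInd.congr [IsAlgClosed Ω] (him : Imk k Ω) {ϑ : Ω} (h : 0 < rr k ϑ) {B B' : Polynomial k}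
    {q : ℕ} {A : ℝ} (hI : IsInd k ϑ B q A) (hB : ‖aeval ϑ B - aeval ϑ B'‖ < A) :
    IsInd k ϑ B' q A := by
  have hle : ∀ j, ‖hd k ϑ B j - hd k ϑ B' j‖ * rr k ϑ ^ j < A := by
    intro j
    have h1 := hd_le him h (B - B') j
    rw [hd_sub, map_sub] at h1
    exact h1.trans_lt hB
  have hpow : ∀ j, 0 ≤ rr k ϑ ^ j := fun j => pow_nonneg h.le j
  -- comparison of the terms
  have hmax : ∀ j, ‖hd k ϑ B' j‖ * rr k ϑ ^ j ≤
      max (‖hd k ϑ B j‖ * rr k ϑ ^ j) (‖hd k ϑ B j - hd k ϑ B' j‖ * rr k ϑ ^ j) := by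
    intro j
    rw [← max_mul_of_nonneg _ _ (hpow j)]
    refine mul_le_mul_of_nonneg_right ?_ (hpow j)
    have : hd k ϑ B' j = hd k ϑ B j + -(hd k ϑ B j - hd k ϑ B' j) := by ring
    rw [this]
    refine (IsUltrametricDist.norm_add_le_max _ _).trans (le_of_eq ?_)
    rw [norm_neg]
    congr 2
    ring
  have hmax' : ∀ j, ‖hd k ϑ B j‖ * rr k ϑ ^ j ≤
      max (‖hd k ϑ B' j‖ * rr k ϑ ^ j) (‖hd k ϑ B j - hd k ϑ B' j‖ * rr k ϑ ^ j) := by
    intro j
    rw [← max_mul_of_nonneg _ _ (hpow j)]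
    refine mul_le_mul_of_nonneg_right ?_ (hpow j)
    have : hd k ϑ B j = hd k ϑ B' j + (hd k ϑ B j - hd k ϑ B' j) := by ring
    exact (congrArg norm this).le.trans (IsUltrametricDist.norm_add_le_max _ _)
  refine ⟨hI.pos, hI.one_le, ?_, ?_, ?_⟩
  · refine le_antisymm ((hmax q).trans (max_le hI.eq.le (hle q).le)) ?_
    have h1 := hmax' q
    rw [hI.eq] at h1
    rcases le_max_iff.1 h1 with h2 | h2
    · exact h2
    · exact absurd (hle q) (not_lt.2 h2)
  · exact fun j hj => (hmax j).trans (max_le (hI.le j hj) (hle j).le)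
  · exact fun j hj => (hmax j).trans_lt (max_lt (hI.lt j hj) (hle j))

end MP1a953e
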