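import Pool.Agent.Lib.MP_1a953e_ag.PlTop
import Pool.Agent.Lib.MP_1a953e_ag.PlTTB

/-!
# Module PlWD: approximate Weierstrass division
-/

namespace MP1a953e

open Polynomial

section WDaux

private theorem wd_sum_le {K ι : Type*} [NormedField K] [IsUltrametricDist K] (s : Finset ι)
    (f : ι → K) {C : ℝ} (hC : 0 ≤ C) (h : ∀ i ∈ s, ‖f i‖ ≤ C) : ‖∑ i ∈ s, f i‖ ≤ C :=
  IsUltrametricDist.norm_sum_le_of_forall_le_of_nonneg hC h

private theorem wd_gb_mul {K : Type*} [NormedField K] [IsUltrametricDist K] {R : ℝ} (hR : 0 < R)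
    {p p' : Polynomial K} {d d' : ℝ} (hd : 0 ≤ d) (hd' : 0 ≤ d')
    (h : ∀ n, ‖p.coeff n‖ * R ^ n ≤ d) (h' : ∀ n, ‖p'.coeff n‖ * R ^ n ≤ d') (n : ℕ) :
    ‖(p * p').coeff n‖ * R ^ n ≤ d * d' := by
  rw [Polynomial.coeff_mul]
  have hRn : 0 < R ^ n := pow_pos hR n
  rw [← le_div_iff₀ hRn]
  refine wd_sum_le _ _ (by positivity) ?_
  rintro ⟨i, j⟩ hij
  have hij' : i + j = n := by simpa using hij
  rw [le_div_iff₀ hRn, norm_mul, ← hij', pow_add]
  calc ‖p.coeff i‖ * ‖p'.coeff j‖ * (R ^ i * R ^ j)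
      = (‖p.coeff i‖ * R ^ i) * (‖p'.coeff j‖ * R ^ j) := by ring
    _ ≤ d * d' := mul_le_mul (h i) (h' j) (by positivity) hd

/-- decomposition of the difference -/
private theorem wd_key {K : Type*} [NormedField K] {β : Polynomial K} {q : ℕ} (hβ : β.coeff q ≠ 0)
    (l : ℕ) (m0 : Polynomial K) (mm : ℕ → Polynomial K) {c : K} (hc : c = (β.coeff q)⁻¹) :
    (X : Polynomial K) ^ (l + q) -
      (C c * (β * m0) - ∑ n ∈ Finset.range q, C (c * β.coeff n) * mm (n + l)) =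
      C c * (β * (X ^ l - m0)) -
        ∑ n ∈ Finset.range q, C (c * β.coeff n) * (X ^ (n + l) - mm (n + l)) -
        ∑ n ∈ Finset.Ico (q + 1) (q + 1 + β.natDegree), C (c * β.coeff n) * X ^ (n + l) := by
  have hexp : β = ∑ n ∈ Finset.range (q + 1 + β.natDegree), C (β.coeff n) * X ^ n :=
    β.as_sum_range_C_mul_X_pow' (by omega)
  have h3 : ∑ n ∈ Finset.range (q + 1 + β.natDegree), C (β.coeff n) * (X : Polynomial K) ^ n =
      ∑ n ∈ Finset.range q, C (β.coeff n) * X ^ n + C (β.coeff q) * X ^ q +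
        ∑ n ∈ Finset.Ico (q + 1) (q + 1 + β.natDegree), C (β.coeff n) * X ^ n := by
    rw [← Finset.sum_range_succ, Finset.sum_range_add_sum_Ico]
    omega
  have hT : ∀ s : Finset ℕ, C c * ((∑ n ∈ s, C (β.coeff n) * (X : Polynomial K) ^ n) * X ^ l) =
      ∑ n ∈ s, C (c * β.coeff n) * X ^ (n + l) := by
    intro s
    rw [Finset.sum_mul, Finset.mul_sum]
    refine Finset.sum_congr rfl fun n _ => ?_
    rw [C_mul, pow_add, mul_assoc, mul_assoc]
  have hT2 : C c * (C (β.coeff q) * (X : Polynomial K) ^ q * X ^ l) = X ^ (l + q) := by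
    have e : C c * C (β.coeff q) = 1 := by
      rw [← C_mul, hc, inv_mul_cancel₀ hβ, C_1]
    rw [pow_add, mul_assoc, ← mul_assoc (C c), e, one_mul, mul_comm]
  have h4 : C c * (β * X ^ l) = ∑ n ∈ Finset.range q, C (c * β.coeff n) * X ^ (n + l) +
      X ^ (l + q) +
      ∑ n ∈ Finset.Ico (q + 1) (q + 1 + β.natDegree), C (c * β.coeff n) * X ^ (n + l) := by
    have e1 : C c * (β * X ^ l) = C c * ((∑ n ∈ Finset.range q, C (β.coeff n) * X ^ n +
        C (β.coeff q) * X ^ q +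
        ∑ n ∈ Finset.Ico (q + 1) (q + 1 + β.natDegree), C (β.coeff n) * X ^ n) * X ^ l) := by
      rw [← h3, ← hexp]
    rw [e1, add_mul, add_mul, mul_add, mul_add, hT, hT, hT2]
  have h5 : ∑ n ∈ Finset.range q, C (c * β.coeff n) * (X ^ (n + l) - mm (n + l)) =
      ∑ n ∈ Finset.range q, C (c * β.coeff n) * X ^ (n + l) -
      ∑ n ∈ Finset.range q, C (c * β.coeff n) * mm (n + l) := by
    rw [← Finset.sum_sub_distrib]
    refine Finset.sum_congr rfl fun n _ => mul_sub _ _ _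
  rw [h5, mul_sub β, mul_sub (C c), h4]
  generalize ∑ n ∈ Finset.range q, C (c * β.coeff n) * (X : Polynomial K) ^ (n + l) = S1
  generalize ∑ n ∈ Finset.range q, C (c * β.coeff n) * mm (n + l) = S2
  generalize ∑ n ∈ Finset.Ico (q + 1) (q + 1 + β.natDegree),
    C (c * β.coeff n) * (X : Polynomial K) ^ (n + l) = S3
  abel

private theorem wd_sub_le {K : Type*} [NormedField K] [IsUltrametricDist K] (x y : K) :
    ‖x - y‖ ≤ max ‖x‖ ‖y‖ := by
  rw [sub_eq_add_neg, ← norm_neg y]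
  exact IsUltrametricDist.norm_add_le_max x (-y)

/-- the claim: every power of `X` is representable up to `κ * R ^ j` -/
private theorem wd_claim {K : Type*} [NormedField K] [IsUltrametricDist K] {R κ : ℝ} (hR : 0 < R)
    (hκ : 0 ≤ κ) {q : ℕ} (hq : 1 ≤ q) {β : Polynomial K} (hβ : β.coeff q ≠ 0)
    (h1 : ∀ n, ‖β.coeff n‖ * R ^ n ≤ ‖β.coeff q‖ * R ^ q)
    (h2 : ∀ n, q < n → ‖β.coeff n‖ * R ^ n ≤ κ * (‖β.coeff q‖ * R ^ q))
    (M : Submodule K (Polynomial K)) (hM : ∀ i < q, (X : Polynomial K) ^ i ∈ M)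
    (hMβ : ∀ p ∈ M, β * p ∈ M) (j : ℕ) :
    ∃ m ∈ M, ∀ n, ‖((X : Polynomial K) ^ j - m).coeff n‖ * R ^ n ≤ κ * R ^ j := by
  induction j using Nat.strong_induction_on with
  | _ j ih =>
    by_cases hjq : j < q
    · refine ⟨X ^ j, hM j hjq, fun n => ?_⟩
      simp only [sub_self, coeff_zero, norm_zero, zero_mul]
      positivity
    · push Not at hjq
      obtain ⟨l, rfl⟩ : ∃ l, j = l + q := ⟨j - q, by omega⟩
      -- the representative of `X ^ l`
      obtain ⟨m0, hm0, hm0'⟩ := ih l (by omega)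
      -- representatives of lower powers
      have hlow : ∀ n : ℕ, ∃ m ∈ M, n < l + q →
          ∀ i, ‖((X : Polynomial K) ^ n - m).coeff i‖ * R ^ i ≤ κ * R ^ n := by
        intro n
        by_cases hn : n < l + q
        · obtain ⟨m, hm, hm'⟩ := ih n hn
          exact ⟨m, hm, fun _ => hm'⟩
        · exact ⟨0, M.zero_mem, fun h => absurd h hn⟩
      choose mm hmm hmm' using hlow
      have hβn : 0 < ‖β.coeff q‖ := norm_pos_iff.mpr hβ
      set c : K := (β.coeff q)⁻¹ with hc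
      have hcn : ‖c‖ = ‖β.coeff q‖⁻¹ := by rw [hc, norm_inv]
      have hcq : ‖c‖ * ‖β.coeff q‖ = 1 := by
        rw [hcn]; exact inv_mul_cancel₀ hβn.ne'
      -- the candidate
      refine ⟨C c * (β * m0) - ∑ n ∈ Finset.range q, C (c * β.coeff n) * mm (n + l), ?_, ?_⟩
      · refine M.sub_mem ?_ (M.sum_mem fun n _ => ?_)
        · rw [← smul_eq_C_mul]; exact M.smul_mem _ (hMβ _ hm0)
        · rw [← smul_eq_C_mul]; exact M.smul_mem _ (hmm _)
      · have key := wd_key hβ l m0 mm hc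
        intro n
        rw [key, coeff_sub, coeff_sub]
        have hRn : 0 < R ^ n := pow_pos hR n
        rw [← le_div_iff₀ hRn]
        have hnn : 0 ≤ κ * R ^ (l + q) / R ^ n := by positivity
        have b1 : ‖(C c * (β * (X ^ l - m0))).coeff n‖ ≤ κ * R ^ (l + q) / R ^ n := by
          rw [coeff_C_mul, norm_mul, le_div_iff₀ hRn]
          have := wd_gb_mul hR (p := β) (p' := X ^ l - m0) (d := ‖β.coeff q‖ * R ^ q)
            (d' := κ * R ^ l) (by positivity) (by positivity) h1 hm0' n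
          calc ‖c‖ * ‖(β * (X ^ l - m0)).coeff n‖ * R ^ n
              = ‖c‖ * (‖(β * (X ^ l - m0)).coeff n‖ * R ^ n) := by ring
            _ ≤ ‖c‖ * (‖β.coeff q‖ * R ^ q * (κ * R ^ l)) := by gcongr
            _ = (‖c‖ * ‖β.coeff q‖) * (κ * R ^ (l + q)) := by rw [pow_add]; ring
            _ = κ * R ^ (l + q) := by rw [hcq, one_mul]
        have b2 : ‖(∑ n ∈ Finset.range q, C (c * β.coeff n) *
            (X ^ (n + l) - mm (n + l))).coeff n‖ ≤ κ * R ^ (l + q) / R ^ n := by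
          rw [finsetSum_coeff]
          refine wd_sum_le _ _ hnn fun i hi => ?_
          rw [Finset.mem_range] at hi
          rw [coeff_C_mul, norm_mul, le_div_iff₀ hRn, norm_mul]
          have h8 := hmm' (i + l) (by omega) n
          calc ‖c‖ * ‖β.coeff i‖ * ‖(X ^ (i + l) - mm (i + l)).coeff n‖ * R ^ n
              = ‖c‖ * ‖β.coeff i‖ * (‖(X ^ (i + l) - mm (i + l)).coeff n‖ * R ^ n) := by ring
            _ ≤ ‖c‖ * ‖β.coeff i‖ * (κ * R ^ (i + l)) := by gcongr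
            _ = ‖c‖ * κ * R ^ l * (‖β.coeff i‖ * R ^ i) := by rw [pow_add]; ring
            _ ≤ ‖c‖ * κ * R ^ l * (‖β.coeff q‖ * R ^ q) := by
                gcongr ?_ * ?_
                exact h1 i
            _ = (‖c‖ * ‖β.coeff q‖) * (κ * R ^ (l + q)) := by rw [pow_add]; ring
            _ = κ * R ^ (l + q) := by rw [hcq, one_mul]
        have b3 : ‖(∑ n ∈ Finset.Ico (q + 1) (q + 1 + β.natDegree), C (c * β.coeff n) *
            (X : Polynomial K) ^ (n + l)).coeff n‖ ≤ κ * R ^ (l + q) / R ^ n := by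
          rw [finsetSum_coeff]
          refine wd_sum_le _ _ hnn fun i hi => ?_
          rw [Finset.mem_Ico] at hi
          rw [coeff_C_mul, coeff_X_pow]
          split_ifs with hni
          · rw [mul_one, norm_mul, le_div_iff₀ hRn, hni]
            have h8 := h2 i (by omega)
            calc ‖c‖ * ‖β.coeff i‖ * R ^ (i + l)
                = ‖c‖ * R ^ l * (‖β.coeff i‖ * R ^ i) := by rw [pow_add]; ring
              _ ≤ ‖c‖ * R ^ l * (κ * (‖β.coeff q‖ * R ^ q)) := by gcongr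
              _ = (‖c‖ * ‖β.coeff q‖) * (κ * R ^ (l + q)) := by rw [pow_add]; ring
              _ = κ * R ^ (l + q) := by rw [hcq, one_mul]
          · rw [mul_zero, norm_zero]; exact hnn
        refine (wd_sub_le _ _).trans (max_le ((wd_sub_le _ _).trans
          (max_le b1 b2)) b3)

private theorem wd_iter {K : Type*} [NormedField K] [IsUltrametricDist K] {R κ : ℝ} (hR : 0 < R)
    (hκ : 0 ≤ κ) (M : Submodule K (Polynomial K))
    (hcl : ∀ j : ℕ, ∃ m ∈ M, ∀ n, ‖((X : Polynomial K) ^ j - m).coeff n‖ * R ^ n ≤ κ * R ^ j)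
    (s : ℕ) (b : Polynomial K) {d : ℝ} (hd : 0 ≤ d) (hb : ∀ n, ‖b.coeff n‖ * R ^ n ≤ d) :
    ∃ m ∈ M, ∀ n, ‖(b - m).coeff n‖ * R ^ n ≤ κ ^ s * d := by
  choose mm hmm hmm' using hcl
  induction s with
  | zero => exact ⟨0, M.zero_mem, fun n => by simpa using hb n⟩
  | succ s ih =>
    obtain ⟨m, hm, hm'⟩ := ih
    set p := b - m with hp
    refine ⟨m + ∑ j ∈ Finset.range (p.natDegree + 1), C (p.coeff j) * mm j, ?_, fun n => ?_⟩
    · refine M.add_mem hm (M.sum_mem fun j _ => ?_)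
      rw [← smul_eq_C_mul]; exact M.smul_mem _ (hmm _)
    · have e1 : b - (m + ∑ j ∈ Finset.range (p.natDegree + 1), C (p.coeff j) * mm j) =
          ∑ j ∈ Finset.range (p.natDegree + 1), C (p.coeff j) * (X ^ j - mm j) := by
        have : b - (m + ∑ j ∈ Finset.range (p.natDegree + 1), C (p.coeff j) * mm j) =
            p - ∑ j ∈ Finset.range (p.natDegree + 1), C (p.coeff j) * mm j := by
          rw [hp]; ring
        rw [this]
        have h7 : ∑ j ∈ Finset.range (p.natDegree + 1), C (p.coeff j) * (X ^ j - mm j) =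
            ∑ j ∈ Finset.range (p.natDegree + 1), C (p.coeff j) * X ^ j -
            ∑ j ∈ Finset.range (p.natDegree + 1), C (p.coeff j) * mm j := by
          rw [← Finset.sum_sub_distrib]
          exact Finset.sum_congr rfl fun n _ => mul_sub _ _ _
        rw [h7, ← p.as_sum_range_C_mul_X_pow]
      have hRn : 0 < R ^ n := pow_pos hR n
      rw [e1, finsetSum_coeff, ← le_div_iff₀ hRn]
      refine wd_sum_le _ _ (by positivity) fun j _ => ?_
      rw [coeff_C_mul, norm_mul, le_div_iff₀ hRn]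
      calc ‖p.coeff j‖ * ‖(X ^ j - mm j).coeff n‖ * R ^ n
          = ‖p.coeff j‖ * (‖(X ^ j - mm j).coeff n‖ * R ^ n) := by ring
        _ ≤ ‖p.coeff j‖ * (κ * R ^ j) := mul_le_mul_of_nonneg_left (hmm' j n) (norm_nonneg _)
        _ = κ * (‖p.coeff j‖ * R ^ j) := by ring
        _ ≤ κ * (κ ^ s * d) := mul_le_mul_of_nonneg_left (hm' j) hκ
        _ = κ ^ (s + 1) * d := by ring

private theorem wd_tay {K : Type*} [NormedField K] (H : Polynomial K) (t : K) (n : ℕ) :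
    (taylor t H).coeff n = ∑ j ∈ H.support, (j.choose n : K) * H.coeff j * t ^ (j - n) := by
  rw [taylor_coeff, hasseDeriv_apply, Polynomial.sum_def, eval_finsetSum]
  refine Finset.sum_congr rfl fun j _ => ?_
  rw [eval_monomial]

private theorem wd_max_lt (s : Finset ℕ) (f : ℕ → ℝ) (h : ∀ n ∈ s, f n < 1) :
    ∃ κ : ℝ, 0 ≤ κ ∧ κ < 1 ∧ ∀ n ∈ s, f n ≤ κ := by
  induction s using Finset.induction_on with
  | empty => exact ⟨0, le_refl _, by norm_num, by simp⟩
  | insert a s ha ih =>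
    obtain ⟨κ, h0, h1, h2⟩ := ih fun n hn => h n (Finset.mem_insert_of_mem hn)
    refine ⟨max κ (f a), le_max_of_le_left h0, max_lt h1 (h a (Finset.mem_insert_self _ _)),
      fun n hn => ?_⟩
    rcases Finset.mem_insert.mp hn with rfl | hn
    · exact le_max_right _ _
    · exact (h2 n hn).trans (le_max_left _ _)

private theorem wd_map_hasse {k Ω : Type*} [NormedField k] [NormedField Ω] [NormedAlgebra k Ω]
    (B : Polynomial k) (j : ℕ) :
    (hasseDeriv j B).map (algebraMap k Ω) = hasseDeriv j (B.map (algebraMap k Ω)) := by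
  ext n
  simp [hasseDeriv_coeff]

private theorem wd_tay_hd {k Ω : Type*} [NormedField k] [NormedField Ω] [NormedAlgebra k Ω]
    (ϑ : Ω) (B : Polynomial k) (j : ℕ) :
    (taylor ϑ (B.map (algebraMap k Ω))).coeff j = hd k ϑ B j := by
  rw [taylor_coeff, ← wd_map_hasse, eval_map_algebraMap, hd]

private theorem wd_choose {k Ω : Type*} [NormedField k] [NormedField Ω] [NormedAlgebra k Ω]
    {ϑ : Ω} (h : 0 < rr k ϑ) {B₁ : Polynomial k} {q : ℕ} {A₁ : ℝ} (h1 : IsInd k ϑ B₁ q A₁) :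
    ∃ a : k, 0 < ‖ϑ - algebraMap k Ω a‖ ∧
      (∀ j, 1 ≤ j → ‖hd k ϑ B₁ j‖ * ‖ϑ - algebraMap k Ω a‖ ^ j ≤
        ‖hd k ϑ B₁ q‖ * ‖ϑ - algebraMap k Ω a‖ ^ q) ∧
      (∀ j, q < j → ‖hd k ϑ B₁ j‖ * ‖ϑ - algebraMap k Ω a‖ ^ j <
        ‖hd k ϑ B₁ q‖ * ‖ϑ - algebraMap k Ω a‖ ^ q) := by
  set r := rr k ϑ with hr
  have hz : ∀ j, B₁.natDegree < j → hd k ϑ B₁ j = 0 := fun j hj => by
    rw [hd, hasseDeriv_eq_zero_of_lt_natDegree _ _ hj, map_zero]
  have hq0 : 0 < ‖hd k ϑ B₁ q‖ := by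
    rcases (norm_nonneg (hd k ϑ B₁ q)).eq_or_lt with h0 | h0
    · exact absurd h1.eq (by rw [← h0, zero_mul]; exact h1.pos.ne)
    · exact h0
  have hev : ∀ᶠ R in nhds r, ∀ j ∈ Finset.Icc (q + 1) B₁.natDegree,
      ‖hd k ϑ B₁ j‖ * R ^ j < ‖hd k ϑ B₁ q‖ * R ^ q := by
    rw [Filter.eventually_all_finset]
    intro j hj
    rw [Finset.mem_Icc] at hj
    refine ContinuousAt.eventually_lt (by fun_prop) (by fun_prop) ?_
    have := h1.lt j (by omega)
    rwa [← h1.eq] at this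
  obtain ⟨δ, hδ, hball⟩ := Metric.eventually_nhds_iff.mp hev
  have hne : ((kr k Ω : Subfield Ω) : Set Ω).Nonempty := ⟨0, (kr k Ω).zero_mem⟩
  obtain ⟨y, hy, hyd⟩ : ∃ y ∈ ((kr k Ω : Subfield Ω) : Set Ω), dist ϑ y < r + δ :=
    (Metric.infDist_lt_iff hne).mp (by rw [hr, rr]; linarith)
  have hle : r ≤ dist ϑ y := by rw [hr, rr]; exact Metric.infDist_le_dist_of_mem hy
  obtain ⟨a, rfl⟩ : ∃ a, algebraMap k Ω a = y := by
    have : y ∈ (kr k Ω : Subfield Ω) := hy
    rwa [kr, RingHom.mem_fieldRange] at this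
  rw [dist_eq_norm] at hyd hle
  have hR0 : 0 < ‖ϑ - algebraMap k Ω a‖ := lt_of_lt_of_le h hle
  have hb := hball (y := ‖ϑ - algebraMap k Ω a‖)
    (by rw [Real.dist_eq, abs_lt]; constructor <;> linarith)
  have hgt : ∀ j, q < j → ‖hd k ϑ B₁ j‖ * ‖ϑ - algebraMap k Ω a‖ ^ j <
      ‖hd k ϑ B₁ q‖ * ‖ϑ - algebraMap k Ω a‖ ^ q := by
    intro j hj
    by_cases hj2 : j ≤ B₁.natDegree
    · exact hb j (Finset.mem_Icc.mpr ⟨hj, hj2⟩)
    · rw [hz j (by omega), norm_zero, zero_mul]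
      positivity
  refine ⟨a, hR0, fun j hj => ?_, hgt⟩
  rcases lt_or_ge q j with hjq | hjq
  · exact (hgt j hjq).le
  · set R := ‖ϑ - algebraMap k Ω a‖ with hRdef
    have e1 : ∀ i : ℕ, R ^ i = r ^ i * (R / r) ^ i := fun i => by
      rw [div_pow, mul_div_cancel₀ _ (pow_pos h i).ne']
    have e2 : (R / r) ^ j ≤ (R / r) ^ q :=
      pow_le_pow_right₀ ((one_le_div h).mpr hle) hjq
    have e3 : ‖hd k ϑ B₁ j‖ * r ^ j ≤ ‖hd k ϑ B₁ q‖ * r ^ q := by
      rw [h1.eq]; exact h1.le j hj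
    rw [e1 j, e1 q, ← mul_assoc, ← mul_assoc]
    exact mul_le_mul e3 e2 (by positivity) (by positivity)

end WDaux

variable {k Ω : Type*} [NontriviallyNormedField k] [IsAlgClosed k] [NormedField Ω]
  [IsUltrametricDist Ω] [NormedAlgebra k Ω] [IsAlgClosed Ω]

omit [IsAlgClosed k] [IsAlgClosed Ω] in
/-- the bounds for the coefficients at `a` -/
private theorem wd_coeffs {ϑ : Ω} {B₁ : Polynomial k} {q : ℕ} (hq : 1 ≤ q) (a : k)
    (hR : 0 < ‖ϑ - algebraMap k Ω a‖)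
    (h1 : ∀ j, 1 ≤ j → ‖hd k ϑ B₁ j‖ * ‖ϑ - algebraMap k Ω a‖ ^ j ≤
        ‖hd k ϑ B₁ q‖ * ‖ϑ - algebraMap k Ω a‖ ^ q)
    (h2 : ∀ j, q < j → ‖hd k ϑ B₁ j‖ * ‖ϑ - algebraMap k Ω a‖ ^ j <
        ‖hd k ϑ B₁ q‖ * ‖ϑ - algebraMap k Ω a‖ ^ q) :
    ‖(taylor a B₁).coeff q‖ = ‖hd k ϑ B₁ q‖ ∧
    (∀ n, 1 ≤ n → ‖(taylor a B₁).coeff n‖ * ‖ϑ - algebraMap k Ω a‖ ^ n ≤
        ‖hd k ϑ B₁ q‖ * ‖ϑ - algebraMap k Ω a‖ ^ q) ∧
    (∀ n, q < n → ‖(taylor a B₁).coeff n‖ * ‖ϑ - algebraMap k Ω a‖ ^ n <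
        ‖hd k ϑ B₁ q‖ * ‖ϑ - algebraMap k Ω a‖ ^ q) := by
  set R := ‖ϑ - algebraMap k Ω a‖ with hRdef
  set t : Ω := algebraMap k Ω a - ϑ with ht
  have htR : ‖t‖ = R := by rw [ht, hRdef, norm_sub_rev]
  set H : Polynomial Ω := taylor ϑ (B₁.map (algebraMap k Ω)) with hH
  have hHc : ∀ j, H.coeff j = hd k ϑ B₁ j := fun j => by rw [hH, wd_tay_hd]
  have e1 : ∀ n, algebraMap k Ω ((taylor a B₁).coeff n) = (taylor t H).coeff n := by
    intro n
    have e2 : taylor t H = (taylor a B₁).map (algebraMap k Ω) := by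
      rw [hH, taylor_taylor, ht, sub_add_cancel, map_taylor]
    rw [e2, coeff_map]
  have e3 : ∀ n, ‖(taylor a B₁).coeff n‖ = ‖(taylor t H).coeff n‖ := fun n => by
    rw [← e1, norm_algebraMap']
  -- terms
  have hterm : ∀ n j, n ≤ j → ‖((j.choose n : ℕ) : Ω) * H.coeff j * t ^ (j - n)‖ * R ^ n ≤
      ‖hd k ϑ B₁ j‖ * R ^ j := by
    intro n j hnj
    rw [norm_mul, norm_mul, norm_pow, htR, hHc]
    calc ‖((j.choose n : ℕ) : Ω)‖ * ‖hd k ϑ B₁ j‖ * R ^ (j - n) * R ^ n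
        = ‖((j.choose n : ℕ) : Ω)‖ * (‖hd k ϑ B₁ j‖ * (R ^ (j - n) * R ^ n)) := by ring
      _ ≤ 1 * (‖hd k ϑ B₁ j‖ * (R ^ (j - n) * R ^ n)) :=
          mul_le_mul_of_nonneg_right (IsUltrametricDist.norm_natCast_le_one Ω _) (by positivity)
      _ = ‖hd k ϑ B₁ j‖ * R ^ j := by rw [one_mul, ← pow_add, Nat.sub_add_cancel hnj]
  have hterm0 : ∀ n j, j < n → ((j.choose n : ℕ) : Ω) * H.coeff j * t ^ (j - n) = 0 := by
    intro n j hnj
    rw [Nat.choose_eq_zero_of_lt hnj, Nat.cast_zero, zero_mul, zero_mul]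
  have hq0 : 0 ≤ ‖hd k ϑ B₁ q‖ * R ^ q := by positivity
  refine ⟨?_, fun n hn => ?_, fun n hn => ?_⟩
  · -- the dominant term
    rw [e3]
    by_cases hq00 : hd k ϑ B₁ q = 0
    · rw [hq00, norm_zero]
      rw [norm_eq_zero, wd_tay]
      refine Finset.sum_eq_zero fun j hj => ?_
      rcases lt_or_ge j q with hjq | hjq
      · exact hterm0 q j hjq
      · have h3 : ‖hd k ϑ B₁ j‖ * R ^ j ≤ 0 := by
          have := h1 j (by omega)
          rwa [hq00, norm_zero, zero_mul] at this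
        have h4 : ‖hd k ϑ B₁ j‖ = 0 := by
          have : 0 ≤ ‖hd k ϑ B₁ j‖ * R ^ j := by positivity
          have h5 : ‖hd k ϑ B₁ j‖ * R ^ j = 0 := le_antisymm h3 this
          rcases mul_eq_zero.mp h5 with h6 | h6
          · exact h6
          · exact absurd h6 (pow_pos hR j).ne'
        rw [hHc, norm_eq_zero.mp h4, mul_zero, zero_mul]
    have hpos : 0 < ‖hd k ϑ B₁ q‖ := norm_pos_iff.mpr hq00
    have hsplit : (taylor t H).coeff q = hd k ϑ B₁ q +
        ∑ j ∈ H.support.erase q, ((j.choose q : ℕ) : Ω) * H.coeff j * t ^ (j - q) := by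
      have hmem : q ∈ H.support := by
        rw [mem_support_iff, hHc]; exact hq00
      rw [wd_tay, ← Finset.add_sum_erase _ _ hmem]
      congr 1
      rw [Nat.choose_self, Nat.cast_one, one_mul, Nat.sub_self, pow_zero, mul_one, hHc]
    have hrest : ‖∑ j ∈ H.support.erase q, ((j.choose q : ℕ) : Ω) * H.coeff j * t ^ (j - q)‖ <
        ‖hd k ϑ B₁ q‖ := by
      rcases (H.support.erase q).eq_empty_or_nonempty with he | he
      · rw [he, Finset.sum_empty, norm_zero]; exact hpos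
      · obtain ⟨j, hj, hjle⟩ := IsUltrametricDist.exists_norm_finsetSum_le_of_nonempty he
          (fun j => ((j.choose q : ℕ) : Ω) * H.coeff j * t ^ (j - q))
        refine lt_of_le_of_lt hjle ?_
        have hjq : j ≠ q := Finset.ne_of_mem_erase hj
        rcases lt_or_gt_of_ne hjq with hlt | hgt
        · show ‖((j.choose q : ℕ) : Ω) * H.coeff j * t ^ (j - q)‖ < _
          rw [hterm0 q j hlt, norm_zero]; exact hpos
        · have h3 := (hterm q j hgt.le).trans_lt (h2 j hgt)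
          exact lt_of_mul_lt_mul_right h3 (pow_nonneg hR.le q)
    rw [hsplit]
    exact IsUltrametricDist.norm_add_eq_max_of_norm_ne_norm hrest.ne' |>.trans
      (max_eq_left hrest.le)
  · rw [e3, wd_tay, ← le_div_iff₀ (pow_pos hR n)]
    refine wd_sum_le _ _ (by positivity) fun j _ => ?_
    rcases lt_or_ge j n with hjn | hjn
    · rw [hterm0 n j hjn, norm_zero]; positivity
    · rw [le_div_iff₀ (pow_pos hR n)]
      exact (hterm n j hjn).trans (h1 j (by omega))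
  · rw [e3, wd_tay]
    rcases H.support.eq_empty_or_nonempty with he | he
    · rw [he, Finset.sum_empty, norm_zero, zero_mul]
      exact lt_of_le_of_lt (by positivity) (h2 n hn)
    · obtain ⟨j, hj, hjle⟩ := IsUltrametricDist.exists_norm_finsetSum_le_of_nonempty he
        (fun j => ((j.choose n : ℕ) : Ω) * H.coeff j * t ^ (j - n))
      refine lt_of_le_of_lt (mul_le_mul_of_nonneg_right hjle (pow_nonneg hR.le n)) ?_
      rcases lt_or_ge j n with hjn | hjn
      · show ‖((j.choose n : ℕ) : Ω) * H.coeff j * t ^ (j - n)‖ * R ^ n < _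
        rw [hterm0 n j hjn, norm_zero, zero_mul]
        exact lt_of_le_of_lt (by positivity) (h2 n hn)
      · exact (hterm n j hjn).trans_lt (h2 j (by omega))

/-- WD.  Every polynomial in `ϑ` is, up to `ε`, of the form `∑_{i < q} g i (y) * ϑ ^ i`, `y = B₁ ϑ`. -/
theorem wdiv (him : Imk k Ω) {ϑ : Ω} (h : 0 < rr k ϑ) {B₁ : Polynomial k} {q : ℕ} {A₁ : ℝ}
    (h1 : IsInd k ϑ B₁ q A₁) (b : Polynomial k) {ε : ℝ} (hε : 0 < ε) :
    ∃ g : ℕ → Polynomial k,
      ‖aeval ϑ b - ∑ i ∈ Finset.range q, aeval (aeval ϑ B₁) (g i) * ϑ ^ i‖ < ε := by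
  have : IsUltrametricDist k := IsUltrametricDist.isUltrametricDist_of_forall_norm_add_le_max_norm
    fun x y => by
      rw [← norm_algebraMap' Ω x, ← norm_algebraMap' Ω y, ← norm_algebraMap' Ω (x + y), map_add]
      exact IsUltrametricDist.norm_add_le_max _ _
  obtain ⟨a, hR, hc1, hc2⟩ := wd_choose h h1
  obtain ⟨hn1, hn2, hn3⟩ := wd_coeffs h1.one_le a hR hc1 hc2
  have hq := h1.one_le
  have hq0 : 0 < ‖hd k ϑ B₁ q‖ := by
    rcases (norm_nonneg (hd k ϑ B₁ q)).eq_or_lt with h0 | h0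
    · exact absurd h1.eq (by rw [← h0, zero_mul]; exact h1.pos.ne)
    · exact h0
  set R := ‖ϑ - algebraMap k Ω a‖ with hRdef
  set x : Ω := ϑ - algebraMap k Ω a with hx
  set y : Ω := aeval ϑ B₁ with hy
  set β : Polynomial k := taylor a B₁ - C (B₁.eval a) with hβ
  have hβ0 : β.coeff 0 = 0 := by
    rw [hβ, coeff_sub, taylor_coeff_zero, coeff_C_zero, sub_self]
  have hβn : ∀ n, 1 ≤ n → β.coeff n = (taylor a B₁).coeff n := fun n hn => by
    rw [hβ, coeff_sub, coeff_C_of_ne_zero (by omega), sub_zero]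
  have hβx : aeval x β = y - algebraMap k Ω (B₁.eval a) := by
    rw [hβ, map_sub, aeval_C, taylor_apply, aeval_comp, map_add, aeval_X, aeval_C, hx,
      sub_add_cancel]
  have hβq : ‖β.coeff q‖ = ‖hd k ϑ B₁ q‖ := by rw [hβn q hq, hn1]
  -- κ
  obtain ⟨κ, hκ0, hκ1, hκ⟩ := wd_max_lt (Finset.Icc (q + 1) β.natDegree)
    (fun n => ‖β.coeff n‖ * R ^ n / (‖β.coeff q‖ * R ^ q)) (fun n hn => by
      rw [Finset.mem_Icc] at hn
      rw [div_lt_one (by rw [hβq]; positivity), hβn n (by omega), hβq]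
      exact hn3 n (by omega))
  have hB1 : ∀ n, ‖β.coeff n‖ * R ^ n ≤ ‖β.coeff q‖ * R ^ q := by
    intro n
    rcases Nat.eq_zero_or_pos n with rfl | hn
    · rw [hβ0, norm_zero, zero_mul]; positivity
    · rw [hβn n hn, hβq]; exact hn2 n hn
  have hB2 : ∀ n, q < n → ‖β.coeff n‖ * R ^ n ≤ κ * (‖β.coeff q‖ * R ^ q) := by
    intro n hn
    by_cases hnd : n ≤ β.natDegree
    · have := hκ n (Finset.mem_Icc.mpr ⟨hn, hnd⟩)
      rwa [div_le_iff₀ (by rw [hβq]; positivity)] at this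
    · rw [coeff_eq_zero_of_natDegree_lt (by omega), norm_zero, zero_mul]; positivity
  have hβq0 : β.coeff q ≠ 0 := by
    rw [← norm_pos_iff, hβq]; exact hq0
  -- the module of representable elements
  let T : Submodule k Ω :=
    { carrier := {v | ∃ g : ℕ → Polynomial k, v = ∑ i ∈ Finset.range q, aeval y (g i) * ϑ ^ i}
      add_mem' := by
        rintro u v ⟨g, rfl⟩ ⟨g', rfl⟩
        refine ⟨fun i => g i + g' i, ?_⟩
        rw [← Finset.sum_add_distrib]
        refine Finset.sum_congr rfl fun i _ => ?_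
        rw [map_add, add_mul]
      zero_mem' := ⟨fun _ => 0, by simp⟩
      smul_mem' := by
        rintro c v ⟨g, rfl⟩
        refine ⟨fun i => C c * g i, ?_⟩
        rw [Finset.smul_sum]
        refine Finset.sum_congr rfl fun i _ => ?_
        rw [map_mul, aeval_C, Algebra.smul_def, mul_assoc] }
  have hTmul : ∀ (p : Polynomial k) (v : Ω), v ∈ T → aeval y p * v ∈ T := by
    rintro p v ⟨g, rfl⟩
    refine ⟨fun i => p * g i, ?_⟩
    rw [Finset.mul_sum]
    refine Finset.sum_congr rfl fun i _ => ?_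
    rw [map_mul, mul_assoc]
  have hTpow : ∀ i < q, ϑ ^ i ∈ T := by
    intro i hi
    refine ⟨fun j => if j = i then 1 else 0, ?_⟩
    rw [Finset.sum_eq_single i]
    · simp
    · intro j _ hj; simp [hj]
    · intro hh; exact absurd (Finset.mem_range.mpr hi) hh
  have hTx : ∀ i < q, x ^ i ∈ T := by
    intro i hi
    rw [hx, sub_eq_add_neg, add_pow]
    refine T.sum_mem fun m hm => ?_
    rw [Finset.mem_range] at hm
    have e : ϑ ^ m * (-algebraMap k Ω a) ^ (i - m) * ((i.choose m : ℕ) : Ω) =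
        ((-a) ^ (i - m) * ((i.choose m : ℕ) : k)) • ϑ ^ m := by
      rw [Algebra.smul_def, map_mul, map_pow, map_neg, map_natCast]; ring
    rw [e]
    exact T.smul_mem _ (hTpow m (by omega))
  -- the module of polynomials
  let M : Submodule k (Polynomial k) := T.comap (aeval x : Polynomial k →ₐ[k] Ω).toLinearMap
  have hMmem : ∀ p : Polynomial k, p ∈ M ↔ aeval x p ∈ T := fun p => Iff.rfl
  have hM : ∀ i < q, (X : Polynomial k) ^ i ∈ M := by
    intro i hi
    rw [hMmem, map_pow, aeval_X]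
    exact hTx i hi
  have hMβ : ∀ p ∈ M, β * p ∈ M := by
    intro p hp
    rw [hMmem] at hp ⊢
    rw [map_mul, hβx]
    have e : y - algebraMap k Ω (B₁.eval a) = aeval y (X - C (B₁.eval a)) := by
      rw [map_sub, aeval_X, aeval_C]
    rw [e]
    exact hTmul _ _ hp
  have hclaim := wd_claim hR hκ0 hq hβq0 hB1 hB2 M hM hMβ
  -- the given polynomial
  set b' : Polynomial k := taylor a b with hb'
  have hb'x : aeval x b' = aeval ϑ b := by
    rw [hb', taylor_apply, aeval_comp, map_add, aeval_X, aeval_C, hx, sub_add_cancel]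
  obtain ⟨d, hd0, hd1⟩ : ∃ d : ℝ, 0 ≤ d ∧ ∀ n, ‖b'.coeff n‖ * R ^ n ≤ d := by
    refine ⟨∑ n ∈ b'.support, ‖b'.coeff n‖ * R ^ n, by positivity, fun n => ?_⟩
    by_cases hn : n ∈ b'.support
    · exact Finset.single_le_sum (f := fun n => ‖b'.coeff n‖ * R ^ n)
        (fun i _ => by positivity) hn
    · rw [notMem_support_iff.mp hn, norm_zero, zero_mul]; positivity
  obtain ⟨s, hs⟩ : ∃ s : ℕ, κ ^ s * d < ε := by
    have h3 : Filter.Tendsto (fun s : ℕ => κ ^ s * d) Filter.atTop (nhds (0 * d)) :=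
      (tendsto_pow_atTop_nhds_zero_of_lt_one hκ0 hκ1).mul_const d
    rw [zero_mul] at h3
    exact (h3.eventually (gt_mem_nhds hε)).exists
  obtain ⟨m, hm, hm'⟩ := wd_iter hR hκ0 M hclaim s b' hd0 hd1
  obtain ⟨g, hg⟩ := (hMmem m).mp hm
  refine ⟨g, ?_⟩
  rw [← hg, ← hb'x, ← map_sub]
  refine lt_of_le_of_lt ?_ hs
  rw [aeval_eq_sum_range]
  refine wd_sum_le _ _ (by positivity) fun i _ => ?_
  rw [norm_smul, norm_pow]
  exact hm' i

end MP1a953e
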