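import Pool.Agent.Lib.MP_1a953e_ag.PlIRA
import Pool.Agent.Lib.MP_1a953e_ag.PlWD

/-!
# Module PlIRB: index reduction
-/

namespace MP1a953e

open Polynomial

variable {k Ω : Type*} [NontriviallyNormedField k] [IsAlgClosed k] [NormedField Ω]
  [IsUltrametricDist Ω] [NormedAlgebra k Ω] [IsAlgClosed Ω]

omit [IsAlgClosed Ω] in
private theorem hd_comp (ϑ : Ω) (a : k) (P : Polynomial k) (j : ℕ) :
    hd k ϑ (P.comp (X - C a)) j = hd k (ϑ - algebraMap k Ω a) P j := by
  rw [hd_eq, hd_eq, ← taylor_coeff, ← taylor_coeff, taylor_apply, taylor_apply,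
    Polynomial.map_comp, comp_assoc]
  congr 2
  rw [Polynomial.map_sub, map_X, map_C, sub_comp, X_comp, C_comp, C_sub]
  ring

omit [IsAlgClosed k] [IsUltrametricDist Ω] [IsAlgClosed Ω] in
private theorem hd_sum (x : Ω) (c : ℕ → k) (q j : ℕ) :
    hd k x (∑ i ∈ Finset.range q, monomial i (c i)) j =
      fam k (0 : Ω) x (fun i => C (c i)) q j := by
  unfold hd fam
  rw [map_sum, map_sum]
  refine Finset.sum_congr rfl fun i _ => ?_
  rw [hasseDeriv_monomial, aeval_monomial, map_mul, map_natCast, aeval_C]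

omit [IsAlgClosed k] [IsUltrametricDist Ω] [IsAlgClosed Ω] in
private theorem fam_zero (y : Ω) (g : ℕ → Polynomial k) {q m : ℕ} (hm : m < q) :
    fam k y 0 g q m = aeval y (g m) := by
  unfold fam
  rw [Finset.sum_eq_single m]
  · rw [Nat.choose_self, Nat.sub_self, pow_zero, Nat.cast_one, one_mul, mul_one]
  · intro i _ hi
    rcases lt_or_gt_of_ne hi with h | h
    · rw [Nat.choose_eq_zero_of_lt h, Nat.cast_zero, zero_mul, zero_mul]
    · rw [zero_pow (by omega), mul_zero]
  · intro h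
    exact absurd (Finset.mem_range.2 hm) h

/-- IR2 (index reduction).  Let `y = B₁ ϑ`. One can add a polynomial in `y` to `b ϑ` such that the result is
small or has an index smaller than the index `q` of `y`.

Proof.  Let `r = rr k ϑ`. By `wdiv` with `ε = s` there is `F (X) = ∑_{i < q} g i (y) X ^ i` with
`‖b ϑ - F ϑ‖ < s`. Let `R₀` be the maximum of `‖F^[j] (ϑ)‖ * r ^ j`, `1 ≤ j < q` (`0` if `q = 1`).
For `a ∈ k` let `h_a = - ∑ (g i) a ^ i ∈ k[Y]`, so `h_a (y) = - F (a)`. By Taylor,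
`F ϑ - F a = ∑_{j ≥ 1} F^[j] (ϑ) * (-1)^(j+1) (a - ϑ) ^ j`-like, so (center `ϑ`)
`‖F ϑ - F a‖ ≤ R₀ * (‖ϑ - a‖ / r) ^ q`.
If `R₀ < s`: take `a` close to `ϑ`, `‖b ϑ + h_a (y)‖ < s`.
If `R₀ ≥ s`: take `κ, R` from `fam_near` and `a ∈ k` with `‖ϑ - a‖ < R` and
`κ' = κ * (‖ϑ - a‖ / r) ^ q < 1`; `c j ∈ k` for `1 ≤ j < q`. `H (X) = ∑_{1 ≤ j < q} c j (X - a) ^ j`, a
polynomial over `k` of degree `≤ q - 1`. Taylor at `a`:
`F ϑ - F a = ∑_{j ≥ 1} F^[j] (a) (ϑ - a) ^ j = H ϑ + E`, `‖E‖ ≤ κ' R₀ < R₀`; and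
`F^[j] (ϑ) = ∑_i (i + j choose j) F^[i + j] (a) (ϑ - a) ^ i = hd k ϑ H j + O (κ' R₀ / r ^ j)`, so for the `j`
with `‖F^[j] (ϑ)‖ * r ^ j = R₀` also `‖hd k ϑ H j‖ * r ^ j = R₀`. Hence `H` is nonconstant, has an index
`q' ≤ natDegree H < q` with maximum `A' ≥ R₀` (`exists_isInd`; `q' ≤ natDegree` by `hd_of_natDegree_lt` since
`‖hd k ϑ H q'‖ * r ^ q' = A' > 0`). Finally
`(b + h_a.comp B₁) ϑ - H ϑ = (b ϑ - F ϑ) + E` has norm `< R₀ ≤ A'`, so `IsInd.congr` gives the claim. -/
theorem index_reduction (him : Imk k Ω) {ϑ : Ω} (h : 0 < rr k ϑ) {B₁ : Polynomial k} {q : ℕ}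
    {A₁ : ℝ} (h1 : IsInd k ϑ B₁ q A₁) (b : Polynomial k) {s : ℝ} (hs : 0 < s) :
    ∃ f : Polynomial k, ‖aeval ϑ b + aeval (aeval ϑ B₁) f‖ < s ∨
      ∃ q' A', q' < q ∧ IsInd k ϑ (b + f.comp B₁) q' A' := by
  set y : Ω := aeval ϑ B₁ with hy
  set r : ℝ := rr k ϑ with hr
  have hq := h1.one_le
  obtain ⟨g, hg⟩ := wdiv him h h1 b hs
  have hF0 : ∑ i ∈ Finset.range q, aeval y (g i) * ϑ ^ i = fam k y ϑ g q 0 := by
    unfold fam
    refine Finset.sum_congr rfl fun i _ => ?_
    rw [Nat.choose_zero_right, Nat.cast_one, one_mul, Nat.sub_zero]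
  rw [← hy, hF0] at hg
  let v : ℕ → ℝ := fun j => if 1 ≤ j then ‖fam k y ϑ g q j‖ * r ^ j else 0
  have hne : (Finset.range q).Nonempty := ⟨0, Finset.mem_range.2 (by omega)⟩
  obtain ⟨j₁, hj₁, hmax⟩ := Finset.exists_max_image (Finset.range q) v hne
  rw [Finset.mem_range] at hj₁
  set R₀ : ℝ := v j₁ with hR₀
  have hv0 : ∀ j, 0 ≤ v j := by
    intro j
    simp only [v]
    split_ifs
    · exact mul_nonneg (norm_nonneg _) (pow_nonneg h.le _)
    · exact le_rfl
  have hle : ∀ j, 1 ≤ j → j < q → ‖fam k y ϑ g q j‖ * r ^ j ≤ R₀ := by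
    intro j hj hjq
    have h2 := hmax j (Finset.mem_range.2 hjq)
    simp only [v] at h2
    rwa [if_pos hj] at h2
  -- the polynomial `h_a`
  let f : k → Polynomial k := fun a =>
    -∑ i ∈ Finset.range q, C (((i.choose 0 : ℕ) : k) * a ^ (i - 0)) * g i
  have hf : ∀ a, aeval y (f a) = -fam k y (algebraMap k Ω a) g q 0 := by
    intro a
    rw [ira_fam_alg, ← map_neg]
  rcases lt_or_ge R₀ s with hRs | hRs
  · -- small case
    obtain ⟨ρ₀, hρ₀, hpow⟩ := ira_exists_pow_lt (M := R₀) (N := s) h hRs hs q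
    obtain ⟨a, ha⟩ := exists_lt_of_rr_lt (k := k) (x := ϑ) (R := ρ₀) hρ₀
    set ρ : ℝ := ‖ϑ - algebraMap k Ω a‖ with hρ
    have hrρ : r < ρ := rr_lt him h a
    have hρr : 1 ≤ ρ / r := (one_le_div h).2 hrρ.le
    have h2 := hpow ρ hrρ.le ha.le
    refine ⟨f a, Or.inl ?_⟩
    have h3 : fam k y ϑ g q 0 - fam k y (algebraMap k Ω a) g q 0 =
        -∑ i ∈ Finset.range q, if 1 ≤ i then
          fam k y ϑ g q i * (algebraMap k Ω a - ϑ) ^ i else 0 := by
      have h4 := fam_taylor (k := k) y ϑ (algebraMap k Ω a - ϑ) g q 0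
      rw [add_sub_cancel] at h4
      have h5 : fam k y ϑ g q 0 = ∑ i ∈ Finset.range q, if i = 0 then fam k y ϑ g q 0 else 0 := by
        rw [Finset.sum_ite_eq' (Finset.range q) 0 (fun _ => fam k y ϑ g q 0),
          if_pos (Finset.mem_range.2 (by omega))]
      rw [h4, h5, ← Finset.sum_sub_distrib, ← Finset.sum_neg_distrib]
      refine Finset.sum_congr rfl fun i _ => ?_
      rcases Nat.eq_zero_or_pos i with hi | hi
      · subst hi
        rw [if_pos rfl, if_neg (by omega)]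
        simp
      · rw [if_neg (by omega : i ≠ 0), if_pos (by omega : 1 ≤ i), Nat.choose_zero_right,
          Nat.cast_one, one_mul, Nat.add_zero]
        ring
    have h4 : ‖fam k y ϑ g q 0 - fam k y (algebraMap k Ω a) g q 0‖ < s := by
      rw [h3, norm_neg]
      refine lt_of_le_of_lt
        (IsUltrametricDist.norm_sum_le_of_forall_le_of_nonneg
          (C := R₀ * (ρ / r) ^ q) (mul_nonneg (hv0 _) (pow_nonneg (by linarith) q))
          fun i hi => ?_) h2
      rw [Finset.mem_range] at hi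
      split_ifs with hi1
      · rw [norm_mul, norm_pow, norm_sub_rev, ← hρ]
        have h5 := hle i hi1 hi
        calc ‖fam k y ϑ g q i‖ * ρ ^ i = ‖fam k y ϑ g q i‖ * r ^ i * (ρ / r) ^ i := by
              have hr0 : r ≠ 0 := h.ne'
              rw [div_pow]
              field_simp
          _ ≤ R₀ * (ρ / r) ^ q :=
              mul_le_mul h5 (pow_le_pow_right₀ hρr hi.le) (by positivity) (hv0 _)
      · rw [norm_zero]
        exact mul_nonneg (hv0 _) (pow_nonneg (by linarith) q)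
    have h5 : aeval ϑ b + aeval y (f a) = (aeval ϑ b - fam k y ϑ g q 0) +
        (fam k y ϑ g q 0 - fam k y (algebraMap k Ω a) g q 0) := by
      rw [hf]; ring
    rw [h5]
    exact (IsUltrametricDist.norm_add_le_max _ _).trans_lt (max_lt hg h4)
  · -- large case
    have hR₀0 : 0 < R₀ := hs.trans_le hRs
    obtain ⟨κ, hκ0, hκ1, R, hR, hnear⟩ := fam_near him h h1 g hR₀0 hle
    rw [← hy] at hnear
    obtain ⟨ρ₀, hρ₀, hpow⟩ := ira_exists_pow_lt (M := κ) (N := 1) h hκ1 one_pos q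
    obtain ⟨a, ha⟩ := exists_lt_of_rr_lt (k := k) (x := ϑ) (R := min R ρ₀) (lt_min hR hρ₀)
    set ρ : ℝ := ‖ϑ - algebraMap k Ω a‖ with hρ
    have hrρ : r < ρ := rr_lt him h a
    have hρr : 1 ≤ ρ / r := (one_le_div h).2 hrρ.le
    have hκ' : κ * (ρ / r) ^ q < 1 := hpow ρ hrρ.le (ha.le.trans (min_le_right _ _))
    set κ' : ℝ := κ * (ρ / r) ^ q with hκ'd
    have hκ'0 : 0 ≤ κ' := mul_nonneg hκ0 (pow_nonneg (by linarith) q)
    have hex : ∀ i : ℕ, ∃ c : k, (1 ≤ i → i < q →
        ‖fam k y (algebraMap k Ω a) g q i - algebraMap k Ω c‖ * r ^ i ≤ κ * R₀) ∧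
          (i = 0 → c = 0) := by
      intro i
      by_cases hi : 1 ≤ i ∧ i < q
      · obtain ⟨c, hc⟩ := hnear a (ha.trans_le (min_le_left _ _)) i hi.1 hi.2
        exact ⟨c, fun _ _ => hc, fun h => by omega⟩
      · exact ⟨0, fun h1 h2 => absurd ⟨h1, h2⟩ hi, fun _ => rfl⟩
    choose c hc using hex
    set P : Polynomial k := ∑ i ∈ Finset.range q, monomial i (c i) with hP
    set H : Polynomial k := P.comp (X - C a) with hH
    -- the Hasse derivatives of `H`
    have hdH : ∀ j, hd k ϑ H j = ∑ i ∈ Finset.range q, ((i + j).choose j : Ω) *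
        (if i + j < q then algebraMap k Ω (c (i + j)) else 0) * (ϑ - algebraMap k Ω a) ^ i := by
      intro j
      rw [hH, hd_comp, hP, hd_sum]
      have h2 := fam_taylor (k := k) (0 : Ω) 0 (ϑ - algebraMap k Ω a) (fun i => C (c i)) q j
      rw [zero_add] at h2
      rw [h2]
      refine Finset.sum_congr rfl fun i _ => ?_
      split_ifs with hij
      · rw [fam_zero _ _ hij, aeval_C]
      · rw [ira_fam_of_le _ _ _ (by omega)]
    have hdF : ∀ j, fam k y ϑ g q j = ∑ i ∈ Finset.range q, ((i + j).choose j : Ω) *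
        fam k y (algebraMap k Ω a) g q (i + j) * (ϑ - algebraMap k Ω a) ^ i := by
      intro j
      have h2 := fam_taylor (k := k) y (algebraMap k Ω a) (ϑ - algebraMap k Ω a) g q j
      rwa [add_sub_cancel] at h2
    have hrp : ∀ j, 0 < r ^ j := fun j => pow_pos h j
    -- the terms of the difference
    have hterm : ∀ i j, 1 ≤ i + j → i < q →
        ‖((i + j).choose j : Ω) * (fam k y (algebraMap k Ω a) g q (i + j) -
          (if i + j < q then algebraMap k Ω (c (i + j)) else 0)) *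
            (ϑ - algebraMap k Ω a) ^ i‖ ≤ κ' * R₀ * (r ^ j)⁻¹ := by
      intro i j hij hi
      split_ifs with hijq
      · rw [norm_mul, norm_mul, norm_pow, ← hρ]
        have h6 := (hc (i + j)).1 hij hijq
        set D : ℝ := ‖fam k y (algebraMap k Ω a) g q (i + j) - algebraMap k Ω (c (i + j))‖
          with hD
        have hD0 : 0 ≤ D := norm_nonneg _
        have h8 : (ρ / r) ^ i ≤ (ρ / r) ^ q := pow_le_pow_right₀ hρr hi.le
        have h9 : D ≤ κ * R₀ * (r ^ (i + j))⁻¹ := by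
          rw [← div_eq_mul_inv, le_div_iff₀ (hrp _)]
          exact h6
        have hr0 : r ≠ 0 := h.ne'
        calc ‖(((i + j).choose j : ℕ) : Ω)‖ * D * ρ ^ i
            ≤ 1 * (κ * R₀ * (r ^ (i + j))⁻¹) * ρ ^ i := by
              gcongr
              exact ira_norm_nat _
          _ = κ * (ρ / r) ^ i * R₀ * (r ^ j)⁻¹ := by
              rw [div_pow, pow_add]
              field_simp
          _ ≤ κ' * R₀ * (r ^ j)⁻¹ := by
              rw [hκ'd]
              gcongr
      · rw [ira_fam_of_le _ _ _ (by omega), sub_zero, mul_zero, zero_mul, norm_zero]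
        exact mul_nonneg (mul_nonneg hκ'0 hR₀0.le) (inv_nonneg.2 (hrp j).le)
    have hdiff : ∀ j, 1 ≤ j → ‖fam k y ϑ g q j - hd k ϑ H j‖ * r ^ j < R₀ := by
      intro j hj
      have h2 : fam k y ϑ g q j - hd k ϑ H j = ∑ i ∈ Finset.range q, ((i + j).choose j : Ω) *
          (fam k y (algebraMap k Ω a) g q (i + j) -
            (if i + j < q then algebraMap k Ω (c (i + j)) else 0)) *
              (ϑ - algebraMap k Ω a) ^ i := by
        rw [hdF, hdH, ← Finset.sum_sub_distrib]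
        exact Finset.sum_congr rfl fun i _ => by ring
      have h3 : ‖fam k y ϑ g q j - hd k ϑ H j‖ ≤ κ' * R₀ * (r ^ j)⁻¹ := by
        rw [h2]
        refine IsUltrametricDist.norm_sum_le_of_forall_le_of_nonneg
          (mul_nonneg (mul_nonneg hκ'0 hR₀0.le) (inv_nonneg.2 (hrp j).le)) fun i hi => ?_
        exact hterm i j (by omega) (Finset.mem_range.1 hi)
      calc ‖fam k y ϑ g q j - hd k ϑ H j‖ * r ^ j ≤ κ' * R₀ * (r ^ j)⁻¹ * r ^ j :=
            mul_le_mul_of_nonneg_right h3 (hrp j).le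
        _ = κ' * R₀ := by rw [mul_assoc, inv_mul_cancel₀ (hrp j).ne', mul_one]
        _ < R₀ := by nlinarith
    have hdiff0 : ‖fam k y ϑ g q 0 - fam k y (algebraMap k Ω a) g q 0 - aeval ϑ H‖ < R₀ := by
      have h2 : fam k y ϑ g q 0 - fam k y (algebraMap k Ω a) g q 0 - aeval ϑ H =
          ∑ i ∈ Finset.range q, if 1 ≤ i then ((i + 0).choose 0 : Ω) *
          (fam k y (algebraMap k Ω a) g q (i + 0) -
            (if i + 0 < q then algebraMap k Ω (c (i + 0)) else 0)) *
              (ϑ - algebraMap k Ω a) ^ i else 0 := by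
        have h3 : fam k y (algebraMap k Ω a) g q 0 = ∑ i ∈ Finset.range q,
            if i = 0 then fam k y (algebraMap k Ω a) g q 0 else 0 := by
          rw [Finset.sum_ite_eq' (Finset.range q) 0 (fun _ => fam k y (algebraMap k Ω a) g q 0),
            if_pos (Finset.mem_range.2 (by omega))]
        rw [← hd_zero ϑ H, hdH 0, hdF 0]
        rw [h3, ← Finset.sum_sub_distrib, ← Finset.sum_sub_distrib]
        refine Finset.sum_congr rfl fun i _ => ?_
        rcases Nat.eq_zero_or_pos i with hi | hi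
        · subst hi
          have hq0 : 0 < q := by omega
          simp [(hc 0).2 rfl, hq0]
        · rw [if_neg (by omega : i ≠ 0), if_pos (by omega : 1 ≤ i)]
          ring
      have h3 : ‖fam k y ϑ g q 0 - fam k y (algebraMap k Ω a) g q 0 - aeval ϑ H‖ ≤
          κ' * R₀ * (r ^ 0)⁻¹ := by
        rw [h2]
        refine IsUltrametricDist.norm_sum_le_of_forall_le_of_nonneg
          (mul_nonneg (mul_nonneg hκ'0 hR₀0.le) (inv_nonneg.2 (hrp 0).le)) fun i hi => ?_
        by_cases hi1 : 1 ≤ i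
        · rw [if_pos hi1]
          exact hterm i 0 (by omega) (Finset.mem_range.1 hi)
        · rw [if_neg hi1, norm_zero]
          exact mul_nonneg (mul_nonneg hκ'0 hR₀0.le) (inv_nonneg.2 (hrp 0).le)
      refine h3.trans_lt ?_
      rw [pow_zero, inv_one, mul_one]
      nlinarith
    -- `H` is nonconstant
    have hj₁1 : 1 ≤ j₁ := by
      by_contra hcon
      have h2 : R₀ = 0 := by
        rw [hR₀]
        simp only [v]
        rw [if_neg hcon]
      linarith
    have hR₀e : R₀ = ‖fam k y ϑ g q j₁‖ * r ^ j₁ := by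
      rw [hR₀]
      simp only [v]
      rw [if_pos hj₁1]
    have hHj : ‖hd k ϑ H j₁‖ * r ^ j₁ = R₀ := by
      have h2 := hdiff j₁ hj₁1
      have h3 : ‖fam k y ϑ g q j₁ - hd k ϑ H j₁‖ < ‖fam k y ϑ g q j₁‖ := by
        rw [hR₀e] at h2
        exact lt_of_mul_lt_mul_right h2 (hrp j₁).le
      have h4 : ‖hd k ϑ H j₁‖ = ‖fam k y ϑ g q j₁‖ := by
        have h5 := IsUltrametricDist.norm_add_eq_max_of_norm_ne_norm
          (x := fam k y ϑ g q j₁) (y := -(fam k y ϑ g q j₁ - hd k ϑ H j₁))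
          (by rw [norm_neg]; exact h3.ne')
        rw [norm_neg, max_eq_left h3.le] at h5
        rw [← h5]
        congr 1
        ring
      rw [h4, hR₀e]
    have hdeg : 1 ≤ H.natDegree := by
      by_contra hcon
      have h2 : hd k ϑ H j₁ = 0 := hd_of_natDegree_lt ϑ (by omega)
      rw [h2, norm_zero, zero_mul] at hHj
      linarith
    have hdegq : H.natDegree < q := by
      have h2 : P.natDegree ≤ q - 1 := by
        refine natDegree_sum_le_of_forall_le _ _ fun i hi => ?_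
        rw [Finset.mem_range] at hi
        exact (natDegree_monomial_le _).trans (by omega)
      have h3 : H.natDegree ≤ P.natDegree * (X - C a).natDegree := natDegree_comp_le
      rw [natDegree_X_sub_C, mul_one] at h3
      omega
    obtain ⟨q', A', hI⟩ := exists_isInd (k := k) h hdeg
    have hA' : R₀ ≤ A' := by
      rw [← hHj]
      exact hI.le j₁ hj₁1
    have hq' : q' < q := by
      by_contra hcon
      have h2 : hd k ϑ H q' = 0 := hd_of_natDegree_lt ϑ (by omega)
      have h3 := hI.eq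
      rw [h2, norm_zero, zero_mul] at h3
      have := hI.pos
      linarith
    refine ⟨f a, Or.inr ⟨q', A', hq', hI.congr him h ?_⟩⟩
    have h2 : aeval ϑ H - aeval ϑ (b + (f a).comp B₁) =
        -((aeval ϑ b - fam k y ϑ g q 0) + (fam k y ϑ g q 0 -
          fam k y (algebraMap k Ω a) g q 0 - aeval ϑ H)) := by
      have h7 : aeval ϑ ((f a).comp B₁) = aeval y (f a) := by rw [hy]; exact aeval_comp ϑ
      rw [map_add, h7, hf]
      ring
    rw [h2, norm_neg]
    refine ((IsUltrametricDist.norm_add_le_max _ _).trans_lt (max_lt ?_ hdiff0)).trans_le hA'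
    exact hg.trans_le hRs

end MP1a953e
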