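import Pool.Agent.Lib.MP_1a953e_ag.PlMax

/-!
# Module PlMv: polynomials in two variables
-/

namespace MP1a953e

open Polynomial

variable {k Ω : Type*} [NontriviallyNormedField k] [NormedField Ω]
  [IsUltrametricDist Ω] [NormedAlgebra k Ω]

/-- MX3.  `P (a, b + t)` (both sides are algebra homomorphisms in `P`) -/
theorem eval_vpol (a b t : Ω) (P : MvPolynomial (Fin 2) k) :
    (vpol k a b P).eval t = ev2 k a (b + t) P := by
  have h : ((Polynomial.aeval t : Polynomial Ω →ₐ[Ω] Ω).restrictScalars k).comp (vpol k a b) =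
      ev2 k a (b + t) := by
    apply MvPolynomial.algHom_ext
    intro i
    fin_cases i
    · simp [vpol, ev2]
    · simp [vpol, ev2]
  have h2 := congrArg (fun φ : MvPolynomial (Fin 2) k →ₐ[k] Ω => φ P) h
  simp only [AlgHom.comp_apply, AlgHom.restrictScalars_apply, Polynomial.coe_aeval_eq_eval] at h2
  exact h2

/-- MX4.  The coefficients of `P (a, b + X)` are polynomials over `k` in `(a, b)` (induction on `P`:
constants, sums, multiplication by a variable). -/
theorem exists_vcoef (P : MvPolynomial (Fin 2) k) :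
    ∃ f : ℕ → MvPolynomial (Fin 2) k, ∀ (a b : Ω) (j : ℕ), (vpol k a b P).coeff j = ev2 k a b (f j) := by
  induction P using MvPolynomial.induction_on with
  | C c =>
    refine ⟨fun j => if j = 0 then MvPolynomial.C c else 0, fun a b j => ?_⟩
    have h1 : vpol k a b (MvPolynomial.C c) = Polynomial.C (algebraMap k Ω c) := by
      rw [vpol, MvPolynomial.aeval_C]
      rfl
    rw [h1, coeff_C]
    by_cases hj : j = 0
    · simp [hj, ev2]
    · simp [hj]
  | add p q hp hq =>
    obtain ⟨f, hf⟩ := hp
    obtain ⟨g, hg⟩ := hq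
    refine ⟨fun j => f j + g j, fun a b j => ?_⟩
    rw [map_add, coeff_add, hf, hg, map_add]
  | mul_X p i hp =>
    obtain ⟨f, hf⟩ := hp
    fin_cases i
    · refine ⟨fun j => f j * MvPolynomial.X 0, fun a b j => ?_⟩
      have h1 : vpol k a b (MvPolynomial.X 0) = Polynomial.C a := by simp [vpol]
      have h2 : ev2 k a b (MvPolynomial.X 0) = a := by simp [ev2]
      change (vpol k a b (p * MvPolynomial.X 0)).coeff j = ev2 k a b (f j * MvPolynomial.X 0)
      rw [map_mul, h1, coeff_mul_C, hf, map_mul, h2]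
    · refine ⟨fun j => f j * MvPolynomial.X 1 + (if j = 0 then 0 else f (j - 1)),
        fun a b j => ?_⟩
      have h1 : vpol k a b (MvPolynomial.X 1) = Polynomial.C b + Polynomial.X := by simp [vpol]
      have h2 : ev2 k a b (MvPolynomial.X 1) = b := by simp [ev2]
      change (vpol k a b (p * MvPolynomial.X 1)).coeff j =
        ev2 k a b (f j * MvPolynomial.X 1 + (if j = 0 then 0 else f (j - 1)))
      rw [map_mul, h1, mul_add, coeff_add, coeff_mul_C, hf, map_add, map_mul, h2]
      congr 1
      rcases j with _ | j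
      · simp
      · rw [coeff_mul_X, hf]
        simp

/-- MX5. -/
theorem vb_iff [IsAlgClosed Ω] {a b w : Ω} (hw : w ≠ 0) {M : ℝ} (P : MvPolynomial (Fin 2) k) :
    VB k a b ‖w‖ M P ↔ ∀ j, ‖(vpol k a b P).coeff j‖ * ‖w‖ ^ j ≤ M := by
  constructor
  · intro h j
    exact coeff_le_of_bound (vpol k a b P) hw (fun t ht => by rw [eval_vpol]; exact h t ht) j
  · intro h t ht
    rw [← eval_vpol]
    exact bound_of_coeff_le (vpol k a b P) h ht

private theorem vb_center_aux {a b b' : Ω} {s M : ℝ} (hb : ‖b - b'‖ ≤ s)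
    (P : MvPolynomial (Fin 2) k) (h : VB k a b' s M P) : VB k a b s M P := by
  intro t ht
  have h1 : b + t = b' + ((b - b') + t) := by ring
  rw [h1]
  exact h _ ((IsUltrametricDist.norm_add_le_max _ _).trans (max_le hb ht))

/-- MX6.  Change of the centre. -/
theorem vb_center {a b b' : Ω} {s M : ℝ} (hb : ‖b - b'‖ ≤ s) (P : MvPolynomial (Fin 2) k) :
    VB k a b s M P ↔ VB k a b' s M P :=
  ⟨vb_center_aux (by rw [norm_sub_rev]; exact hb) P, vb_center_aux hb P⟩

/-- MX7. -/
theorem ev2_swp (a b : Ω) (P : MvPolynomial (Fin 2) k) : ev2 k a b (swp k P) = ev2 k b a P := by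
  have h : (ev2 k a b).comp (swp k : MvPolynomial (Fin 2) k →ₐ[k] MvPolynomial (Fin 2) k) =
      ev2 k b a := by
    apply MvPolynomial.algHom_ext
    intro i
    fin_cases i
    · simp [swp, ev2]
    · simp [swp, ev2]
  have h2 := congrArg (fun φ : MvPolynomial (Fin 2) k →ₐ[k] Ω => φ P) h
  exact h2

/-- MX8.  The restriction of `P` to the curve `(B₁, B₂)`. -/
theorem exists_curve (P : MvPolynomial (Fin 2) k) (B₁ B₂ : Polynomial k) :
    ∃ G : Polynomial k, ∀ x : Ω, aeval x G = ev2 k (aeval x B₁) (aeval x B₂) P := by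
  refine ⟨MvPolynomial.aeval ![B₁, B₂] P, fun x => ?_⟩
  have h : (aeval x : Polynomial k →ₐ[k] Ω).comp
      (MvPolynomial.aeval ![B₁, B₂] : MvPolynomial (Fin 2) k →ₐ[k] Polynomial k) =
      ev2 k (aeval x B₁) (aeval x B₂) := by
    apply MvPolynomial.algHom_ext
    intro i
    fin_cases i
    · simp [ev2]
    · simp [ev2]
  have h2 := congrArg (fun φ : MvPolynomial (Fin 2) k →ₐ[k] Ω => φ P) h
  exact h2

private theorem exists_expand_aux (P : MvPolynomial (Fin 2) k) :
    ∃ (N : ℕ) (p : ℕ → Polynomial k), ∀ M, N ≤ M →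
      P = ∑ l ∈ Finset.range (M + 1), aeval (MvPolynomial.X 0 : MvPolynomial (Fin 2) k) (p l) *
        MvPolynomial.X 1 ^ l := by
  induction P using MvPolynomial.induction_on with
  | C c =>
    refine ⟨0, fun l => if l = 0 then Polynomial.C c else 0, fun M _ => ?_⟩
    rw [Finset.sum_eq_single 0]
    · simp [MvPolynomial.algebraMap_eq]
    · intro l _ hl
      simp [hl]
    · simp
  | add p q hp hq =>
    obtain ⟨N, f, hf⟩ := hp
    obtain ⟨N', g, hg⟩ := hq
    refine ⟨max N N', fun l => f l + g l, fun M hM => ?_⟩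
    have e1 := hf M ((le_max_left _ _).trans hM)
    have e2 := hg M ((le_max_right _ _).trans hM)
    calc p + q = _ := by rw [e1, e2, ← Finset.sum_add_distrib]
      _ = _ := by
        refine Finset.sum_congr rfl fun l _ => ?_
        rw [map_add, add_mul]
  | mul_X p i hp =>
    obtain ⟨N, f, hf⟩ := hp
    fin_cases i
    · refine ⟨N, fun l => f l * Polynomial.X, fun M hM => ?_⟩
      have e1 := hf M hM
      change p * MvPolynomial.X 0 = _
      calc p * MvPolynomial.X 0 = (∑ l ∈ Finset.range (M + 1),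
            aeval (MvPolynomial.X 0 : MvPolynomial (Fin 2) k) (f l) * MvPolynomial.X 1 ^ l) *
              MvPolynomial.X 0 := by rw [← e1]
        _ = _ := by
          rw [Finset.sum_mul]
          refine Finset.sum_congr rfl fun l _ => ?_
          rw [map_mul, aeval_X]
          ring
    · refine ⟨N + 1, fun l => if l = 0 then 0 else f (l - 1), fun M hM => ?_⟩
      obtain ⟨M', rfl⟩ : ∃ M', M = M' + 1 := ⟨M - 1, by omega⟩
      have e1 := hf M' (by omega)
      change p * MvPolynomial.X 1 = _
      rw [Finset.sum_range_succ']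
      simp only [Nat.succ_ne_zero, if_false, Nat.add_sub_cancel, if_true, map_zero, zero_mul,
        add_zero]
      calc p * MvPolynomial.X 1 = (∑ l ∈ Finset.range (M' + 1),
            aeval (MvPolynomial.X 0 : MvPolynomial (Fin 2) k) (f l) * MvPolynomial.X 1 ^ l) *
              MvPolynomial.X 1 := by rw [← e1]
        _ = _ := by
          rw [Finset.sum_mul]
          refine Finset.sum_congr rfl fun l _ => ?_
          rw [pow_succ]
          ring

/-- MX9.  Polynomials in two variables as polynomials in `X 1` whose coefficients are polynomials in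
`X 0`: there are `N` and `p l ∈ k[X]` with `P = ∑_{l ≤ N} p l (X 0) * (X 1) ^ l`. -/
theorem exists_expand (P : MvPolynomial (Fin 2) k) :
    ∃ (N : ℕ) (p : ℕ → Polynomial k),
      P = ∑ l ∈ Finset.range (N + 1), aeval (MvPolynomial.X 0 : MvPolynomial (Fin 2) k) (p l) *
        MvPolynomial.X 1 ^ l := by
  obtain ⟨N, p, h⟩ := exists_expand_aux P
  exact ⟨N, p, h N le_rfl⟩

end MP1a953e
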