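import Pool.Agent.Lib.MP_1a953e_ag.PlTTB
import Pool.Agent.Lib.MP_1a953e_ag.PlMv
import Pool.Agent.Lib.MP_1a953e_ag.Calc1

/-!
# Module PlLocA: a centre close to the point
-/

namespace MP1a953e

open Polynomial

section LocAaux

private theorem locA_root_algebraic {Ω : Type*} [NormedField Ω] {F : Subfield Ω}
    {g : Polynomial Ω} (hg : Coeffs F g) (hg0 : g ≠ 0) {β : Ω} (hβ : g.eval β = 0) :
    IsAlgebraic F β := by
  have hl : g ∈ lifts (algebraMap F Ω) := by
    rw [lifts_iff_coeff_lifts]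
    intro n
    exact ⟨⟨g.coeff n, hg n⟩, rfl⟩
  obtain ⟨q, hq⟩ := (mem_lifts g).1 hl
  refine ⟨q, ?_, ?_⟩
  · rintro rfl
    rw [Polynomial.map_zero] at hq
    exact hg0 hq.symm
  · rw [← eval_map_algebraMap, hq]
    exact hβ

variable {k Ω : Type*} [NormedField k] [NormedField Ω] [NormedAlgebra k Ω]

private theorem locA_ev2_mem {F : Subfield Ω} (hF : kr k Ω ≤ F) {a b : Ω} (ha : a ∈ F)
    (hb : b ∈ F) (P : MvPolynomial (Fin 2) k) : ev2 k a b P ∈ F := by
  induction P using MvPolynomial.induction_on with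
  | C c =>
    rw [ev2, MvPolynomial.aeval_C]
    exact hF ⟨c, rfl⟩
  | add p q hp hq =>
    rw [map_add]
    exact F.add_mem hp hq
  | mul_X p i hp =>
    rw [map_mul]
    refine F.mul_mem hp ?_
    fin_cases i
    · simpa [ev2] using ha
    · simpa [ev2] using hb

private theorem locA_vpol (a b : Ω) (P : MvPolynomial (Fin 2) k) :
    vpol k a b P = taylor b (vpol k a 0 P) := by
  have h : ((taylorAlgHom b : Polynomial Ω →ₐ[Ω] Polynomial Ω).restrictScalars k).comp
      (vpol k a 0) = vpol k a b := by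
    apply MvPolynomial.algHom_ext
    intro i
    fin_cases i
    · simp [vpol]
    · simp [vpol, add_comm]
  have h2 := congrArg (fun φ : MvPolynomial (Fin 2) k →ₐ[k] Polynomial Ω => φ P) h
  simp only [AlgHom.comp_apply, AlgHom.restrictScalars_apply] at h2
  rw [← h2]
  rfl

/-- translation of the second coordinate -/
private theorem locA_shift {y z : Ω} (hyz : AlgebraicIndependent k ![y, z])
    {g : MvPolynomial (Fin 2) k} (hg : g ≠ 0) (c : k) :
    ev2 k y (z - algebraMap k Ω c) g ≠ 0 := by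
  intro h0
  let φ : MvPolynomial (Fin 2) k →ₐ[k] MvPolynomial (Fin 2) k :=
    MvPolynomial.aeval ![MvPolynomial.X 0, MvPolynomial.X 1 - MvPolynomial.C c]
  let ψ : MvPolynomial (Fin 2) k →ₐ[k] MvPolynomial (Fin 2) k :=
    MvPolynomial.aeval ![MvPolynomial.X 0, MvPolynomial.X 1 + MvPolynomial.C c]
  have hψφ : ψ.comp φ = AlgHom.id k _ := by
    apply MvPolynomial.algHom_ext
    intro i
    fin_cases i
    · simp [φ, ψ]
    · simp [φ, ψ, MvPolynomial.algebraMap_eq]
  have h1 : (MvPolynomial.aeval ![y, z] : MvPolynomial (Fin 2) k →ₐ[k] Ω).comp φ =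
      ev2 k y (z - algebraMap k Ω c) := by
    apply MvPolynomial.algHom_ext
    intro i
    fin_cases i
    · simp [φ, ev2]
    · simp [φ, ev2]
  have h2 : MvPolynomial.aeval ![y, z] (φ g) = 0 := by
    have := congrArg (fun χ : MvPolynomial (Fin 2) k →ₐ[k] Ω => χ g) h1
    simp only [AlgHom.comp_apply] at this
    rw [this, h0]
  have h3 : φ g = 0 := hyz.eq_zero_of_aeval_eq_zero _ h2
  have h4 : ψ (φ g) = g := by
    have := congrArg (fun χ : MvPolynomial (Fin 2) k →ₐ[k] MvPolynomial (Fin 2) k => χ g) hψφ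
    simpa using this
  rw [h3, map_zero] at h4
  exact hg h4.symm

end LocAaux

variable {k Ω : Type*} [NontriviallyNormedField k] [IsAlgClosed k] [NormedField Ω]
  [IsUltrametricDist Ω] [NormedAlgebra k Ω] [IsAlgClosed Ω]

/-- LC1.  A centre `ρ` close to `z`, algebraic over `k(y)`.  Proof.  The polynomials
`g y = vpol k y 0 g ∈ Ω[X]` (coefficients in `k[y]`) are nonzero, since `y, z` are algebraically
independent (`(g y) (z) = g (y, z) ≠ 0`). Let `s₀ > 0` be the minimum of `‖z - β‖` over all roots `β` of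
all `g y`, `g ∈ S` (`z` is not a root), attained at `β₀`; by `Imk` there is `c ∈ k` with
`‖z - β₀ - c‖ < ‖z - β₀‖`; `ρ = β₀ + c` is algebraic over `k(y)`. (If there are no roots take `ρ = 0`; `z ≠ 0`.)
`z ≠ ρ` since `z` is not algebraic over `k(y)`. For all roots `‖ρ - β‖ = ‖z - β‖ ≥ s₀ > ‖z - ρ‖`, so the
coefficients of `g (y, ρ + X) = lc * ∏ (X + ρ - β)` satisfy the strict inequality. -/
theorem exists_center (him : Imk k Ω) {y z : Ω} (hyz : AlgebraicIndependent k ![y, z])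
    (S : Finset (MvPolynomial (Fin 2) k)) (hS : ∀ g ∈ S, g ≠ 0) :
    ∃ ρ : Ω, IsAlgebraic (adj (kr k Ω) y) ρ ∧ z - ρ ≠ 0 ∧ ∀ g ∈ S, ev2 k y ρ g ≠ 0 ∧
      ∀ j, 1 ≤ j → ‖(vpol k y ρ g).coeff j‖ * ‖z - ρ‖ ^ j < ‖ev2 k y ρ g‖ := by
  classical
  have hev : ∀ (g : MvPolynomial (Fin 2) k) (t : Ω), (vpol k y 0 g).eval t = ev2 k y t g :=
    fun g t => by rw [eval_vpol, zero_add]
  have hz : ∀ g ∈ S, ev2 k y z g ≠ 0 := fun g hg h0 =>
    hS g hg (hyz.eq_zero_of_aeval_eq_zero _ h0)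
  have hne : ∀ g ∈ S, vpol k y 0 g ≠ 0 := fun g hg h0 => hz g hg (by rw [← hev, h0, eval_zero])
  -- all roots
  set R : Finset Ω := S.biUnion fun g => (vpol k y 0 g).roots.toFinset with hR
  have hRmem : ∀ β, β ∈ R ↔ ∃ g ∈ S, (vpol k y 0 g).eval β = 0 := by
    intro β
    rw [hR, Finset.mem_biUnion]
    constructor
    · rintro ⟨g, hg, hβ⟩
      rw [Multiset.mem_toFinset, mem_roots (hne g hg)] at hβ
      exact ⟨g, hg, hβ⟩
    · rintro ⟨g, hg, hβ⟩
      refine ⟨g, hg, ?_⟩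
      rw [Multiset.mem_toFinset, mem_roots (hne g hg)]
      exact hβ
  have hco : ∀ g, Coeffs (adj (kr k Ω) y) (vpol k y 0 g) := by
    intro g j
    obtain ⟨f, hf⟩ := exists_vcoef (Ω := Ω) g
    rw [hf]
    exact locA_ev2_mem (le_adj _ _) (mem_adj_self _ _) (Subfield.zero_mem _) _
  -- the nearest root (or zero)
  obtain ⟨β₀, hβalg, hβle, hβsh⟩ : ∃ β₀ : Ω, IsAlgebraic (adj (kr k Ω) y) β₀ ∧
      (∀ β ∈ R, ‖z - β₀‖ ≤ ‖z - β‖) ∧ ∀ c : k, z - (β₀ + algebraMap k Ω c) ≠ 0 := by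
    rcases R.eq_empty_or_nonempty with he | he
    · refine ⟨0, isAlgebraic_zero, fun β hβ => ?_, fun c h0 => ?_⟩
      · rw [he] at hβ
        exact absurd hβ (Finset.notMem_empty _)
      · have h1 : Transcendental k (![y, z] 1) := hyz.transcendental 1
        have h2 : z = algebraMap k Ω c := by
          rw [zero_add] at h0
          exact sub_eq_zero.mp h0
        have h3 : (![y, z] : Fin 2 → Ω) 1 = algebraMap k Ω c := by simpa using h2
        rw [h3] at h1
        exact h1 (isAlgebraic_algebraMap c)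
    · obtain ⟨β₀, hβ₀, hmin⟩ := Finset.exists_min_image R (fun β => ‖z - β‖) he
      obtain ⟨g, hg, h0⟩ := (hRmem β₀).mp hβ₀
      refine ⟨β₀, locA_root_algebraic (hco g) (hne g hg) h0, hmin, fun c hc => ?_⟩
      have h1 : β₀ = z - algebraMap k Ω c := by
        have : z = β₀ + algebraMap k Ω c := sub_eq_zero.mp hc
        rw [this]; ring
      rw [hev, h1] at h0
      exact locA_shift hyz (hS g hg) c h0
  have hzβ : z - β₀ ≠ 0 := by
    have := hβsh 0
    rwa [map_zero, add_zero] at this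
  obtain ⟨c, hc⟩ := him (z - β₀) hzβ
  set ρ : Ω := β₀ + algebraMap k Ω c with hρ
  have hlt : ‖z - ρ‖ < ‖z - β₀‖ := by
    rw [hρ, ← sub_sub]; exact hc
  refine ⟨ρ, ?_, hβsh c, fun g hg => ?_⟩
  · refine hβalg.add ?_
    exact isAlgebraic_algebraMap (⟨algebraMap k Ω c, le_adj _ _ ⟨c, rfl⟩⟩ : adj (kr k Ω) y)
  · have hroots : ∀ β ∈ (vpol k y 0 g).roots, ‖z - β₀‖ ≤ ‖z - β‖ := by
      intro β hβ
      rw [mem_roots (hne g hg)] at hβ
      exact hβle β ((hRmem β).mpr ⟨g, hg, hβ⟩)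
    have key : ∀ i, 1 ≤ i → ‖(vpol k y ρ g).coeff i‖ * ‖z - ρ‖ ^ i < ‖ev2 k y ρ g‖ := by
      intro i hi
      have := taylor_lt (hne g hg) hroots hlt i hi
      rwa [hev, ← taylor_coeff, ← locA_vpol] at this
    refine ⟨fun h0 => ?_, key⟩
    have := key 1 le_rfl
    rw [h0, norm_zero] at this
    exact absurd this (not_lt.mpr (by positivity))

end MP1a953e
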