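import Pool.Agent.Lib.MP_1a953e_ag.PlDefs

/-!
# Module PlMax: maximum principle for polynomials on discs
-/

namespace MP1a953e

open Polynomial

variable {k Ω : Type*} [NontriviallyNormedField k] [NormedField Ω]
  [IsUltrametricDist Ω] [NormedAlgebra k Ω]

omit [IsUltrametricDist Ω] in
private theorem max_big (x : Ω) (s : Multiset Ω) (h : ∀ β ∈ s, 1 < ‖x - β‖) (hs : s ≠ 0) :
    1 < ‖(s.map (x - ·)).prod‖ := by
  induction s using Multiset.induction_on with
  | empty => exact absurd rfl hs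
  | cons a s ih =>
    rw [Multiset.map_cons, Multiset.prod_cons, norm_mul]
    have ha := h a (Multiset.mem_cons_self a s)
    by_cases h0 : s = 0
    · rw [h0, Multiset.map_zero, Multiset.prod_zero, norm_one, mul_one]
      exact ha
    · exact one_lt_mul_of_lt_of_le ha (ih (fun β hβ => h β (Multiset.mem_cons_of_mem hβ)) h0).le

omit [IsUltrametricDist Ω] in
private theorem max_small (x : Ω) (s : Multiset Ω) (h : ∀ β ∈ s, ‖x - β‖ ≤ 1) :
    ‖(s.map (x - ·)).prod‖ ≤ 1 ∧ (‖(s.map (x - ·)).prod‖ = 1 → ∀ β ∈ s, ‖x - β‖ = 1) := by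
  induction s using Multiset.induction_on with
  | empty => exact ⟨by simp, fun _ β hβ => absurd hβ (Multiset.notMem_zero β)⟩
  | cons a s ih =>
    obtain ⟨ih1, ih2⟩ := ih (fun β hβ => h β (Multiset.mem_cons_of_mem hβ))
    have ha := h a (Multiset.mem_cons_self a s)
    rw [Multiset.map_cons, Multiset.prod_cons, norm_mul]
    constructor
    · exact mul_le_one₀ ha (norm_nonneg _) ih1
    · intro h1
      have h2 : ‖x - a‖ = 1 := by
        refine le_antisymm ha ?_
        rw [← h1]
        exact mul_le_of_le_one_right (norm_nonneg _) ih1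
      have h3 : ‖(s.map (x - ·)).prod‖ = 1 := by
        rw [h2, one_mul] at h1
        exact h1
      intro β hβ
      rcases Multiset.mem_cons.1 hβ with rfl | hβ
      · exact h2
      · exact ih2 h3 β hβ

/-- a point of the unit disc far from given points -/
private theorem max_point [IsAlgClosed Ω] (s : Multiset Ω) :
    ∃ x : Ω, ‖x‖ ≤ 1 ∧ ∀ β ∈ s, ‖x - β‖ = max ‖β‖ 1 := by
  classical
  have key : ∃ x : Ω, ‖x‖ ≤ 1 ∧ ∀ β ∈ s.filter (fun β => ‖β‖ ≤ 1), ‖x - β‖ = 1 := by
    by_cases h0 : s.filter (fun β => ‖β‖ ≤ 1) = 0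
    · refine ⟨0, by simp, ?_⟩
      rw [h0]
      intro β hβ
      exact absurd hβ (Multiset.notMem_zero β)
    · set s₁ := s.filter (fun β => ‖β‖ ≤ 1) with hs₁
      have hmon : ((s₁.map (fun β => X - C β)).prod).Monic :=
        monic_multiset_prod_of_monic _ _ (fun β _ => monic_X_sub_C β)
      have hdeg : ((s₁.map (fun β => X - C β)).prod).natDegree = s₁.card := by
        rw [natDegree_multiset_prod_X_sub_C_eq_card]
      have hcard : 0 < s₁.card := Multiset.card_pos.2 h0
      have hnd : ((s₁.map (fun β => X - C β)).prod - 1).natDegree = s₁.card := by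
        rw [← C_1, natDegree_sub_C, hdeg]
      obtain ⟨x, hx⟩ := IsAlgClosed.exists_root ((s₁.map (fun β => X - C β)).prod - 1) (by
        intro h1
        have h2 := natDegree_eq_zero_iff_degree_le_zero.2 h1.le
        omega)
      have hx1 : (s₁.map (x - ·)).prod = 1 := by
        rw [IsRoot.def, eval_sub, eval_one, sub_eq_zero, eval_multiset_prod, Multiset.map_map] at hx
        rw [← hx]
        congr 1
        refine Multiset.map_congr rfl fun β _ => ?_
        simp
      have hle1 : ∀ β ∈ s₁, ‖β‖ ≤ 1 := fun β hβ => (Multiset.mem_filter.1 hβ).2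
      have hxle : ‖x‖ ≤ 1 := by
        by_contra hcon
        rw [not_le] at hcon
        have h2 : ∀ β ∈ s₁, 1 < ‖x - β‖ := by
          intro β hβ
          have h3 : ‖x‖ ≠ ‖-β‖ := by
            rw [norm_neg]
            have := hle1 β hβ
            intro h4
            linarith
          rw [sub_eq_add_neg, IsUltrametricDist.norm_add_eq_max_of_norm_ne_norm h3]
          exact lt_of_lt_of_le hcon (le_max_left _ _)
        have h4 := max_big x s₁ h2 h0
        rw [hx1, norm_one] at h4
        exact lt_irrefl _ h4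
      refine ⟨x, hxle, ?_⟩
      have h5 : ∀ β ∈ s₁, ‖x - β‖ ≤ 1 := by
        intro β hβ
        rw [sub_eq_add_neg]
        refine (IsUltrametricDist.norm_add_le_max _ _).trans (max_le hxle ?_)
        rw [norm_neg]
        exact hle1 β hβ
      exact (max_small x s₁ h5).2 (by rw [hx1, norm_one])
  obtain ⟨x, hx, hx1⟩ := key
  refine ⟨x, hx, fun β hβ => ?_⟩
  by_cases hb : ‖β‖ ≤ 1
  · rw [hx1 β (Multiset.mem_filter.2 ⟨hβ, hb⟩), max_eq_right hb]
  · rw [not_le] at hb
    have h3 : ‖x‖ ≠ ‖-β‖ := by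
      rw [norm_neg]
      intro h4
      linarith
    rw [sub_eq_add_neg, IsUltrametricDist.norm_add_eq_max_of_norm_ne_norm h3, norm_neg,
      max_eq_left hb.le, max_eq_right (by linarith)]

private theorem max_coeff (s : Multiset Ω) (j : ℕ) :
    ‖((s.map (fun β => X - C β)).prod).coeff j‖ ≤ (s.map (fun β => max ‖β‖ 1)).prod := by
  induction s using Multiset.induction_on generalizing j with
  | empty =>
    rw [Multiset.map_zero, Multiset.prod_zero, Multiset.map_zero, Multiset.prod_zero, coeff_one]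
    split_ifs <;> simp
  | cons a s ih =>
    rw [Multiset.map_cons, Multiset.prod_cons, Multiset.map_cons, Multiset.prod_cons]
    have hpos : 0 ≤ (s.map (fun β => max ‖β‖ 1)).prod := (norm_nonneg _).trans (ih 0)
    have h1 : (1 : ℝ) ≤ max ‖a‖ 1 := le_max_right _ _
    have h2 : ‖(C a * (s.map (fun β => X - C β)).prod).coeff j‖ ≤
        max ‖a‖ 1 * (s.map (fun β => max ‖β‖ 1)).prod := by
      rw [coeff_C_mul, norm_mul]
      exact mul_le_mul (le_max_left _ _) (ih j) (norm_nonneg _) (by linarith)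
    have h3 : ‖(X * (s.map (fun β => X - C β)).prod).coeff j‖ ≤
        max ‖a‖ 1 * (s.map (fun β => max ‖β‖ 1)).prod := by
      cases j with
      | zero =>
        rw [coeff_X_mul_zero, norm_zero]
        exact mul_nonneg (by linarith) hpos
      | succ j =>
        rw [coeff_X_mul]
        calc _ ≤ 1 * (s.map (fun β => max ‖β‖ 1)).prod := by
              rw [one_mul]
              exact ih j
          _ ≤ _ := mul_le_mul_of_nonneg_right h1 hpos
    rw [sub_mul, coeff_sub, sub_eq_add_neg]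
    refine (IsUltrametricDist.norm_add_le_max _ _).trans (max_le h3 ?_)
    rw [norm_neg]
    exact h2

omit [IsUltrametricDist Ω] in
private theorem max_eval (x : Ω) (s : Multiset Ω) (h : ∀ β ∈ s, ‖x - β‖ = max ‖β‖ 1) :
    ‖(s.map (x - ·)).prod‖ = (s.map (fun β => max ‖β‖ 1)).prod := by
  induction s using Multiset.induction_on with
  | empty => simp
  | cons a s ih =>
    rw [Multiset.map_cons, Multiset.prod_cons, norm_mul, Multiset.map_cons, Multiset.prod_cons,
      h a (Multiset.mem_cons_self a s), ih (fun β hβ => h β (Multiset.mem_cons_of_mem hβ))]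

private theorem max_unit [IsAlgClosed Ω] (Q : Polynomial Ω) {M : ℝ}
    (hM : ∀ t, ‖t‖ ≤ 1 → ‖Q.eval t‖ ≤ M) (j : ℕ) : ‖Q.coeff j‖ ≤ M := by
  obtain ⟨x, hx, hx1⟩ := max_point Q.roots
  refine le_trans ?_ (hM x hx)
  rw [(IsAlgClosed.splits Q).eval_eq_prod_roots, norm_mul, max_eval x _ hx1]
  have h1 := max_coeff Q.roots j
  calc ‖Q.coeff j‖ = ‖Q.leadingCoeff‖ * ‖((Q.roots.map (fun β => X - C β)).prod).coeff j‖ := by
        conv_lhs => rw [(IsAlgClosed.splits Q).eq_prod_roots, coeff_C_mul, norm_mul]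
    _ ≤ _ := mul_le_mul_of_nonneg_left h1 (norm_nonneg _)

/-- MX1 (maximum principle).  Proof.  Replacing `Q` by `Q.comp (C w * X)` (coefficients `Q.coeff j * w ^ j`) we may assume
`w = 1`. If `Q = 0` use `t = 0` for `0 ≤ M`. Otherwise `Q = lc * ∏ (X - β)`. Let `H = ∏_{‖β‖ ≤ 1} (X - β)` (product over the roots of
norm `≤ 1`, with multiplicity) if there are such roots, and let `x` be a root of `H - 1` (exists, degree `≥ 1`); otherwise `x = 0`. `x` is
integral: `‖x‖ ≤ 1` (if `‖x‖ > 1` then `‖x - β‖ = ‖x‖ > 1` for all factors, but `∏ (x - β) = 1`), all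
`‖x - β‖ ≤ 1` with product of norm `1`, so all are `= 1`. For the other roots `‖x - β‖ = ‖β‖`. So
`‖Q x‖ = ‖lc‖ * ∏ max ‖β‖ 1`, which is `≥` the norm of every coefficient of `lc * ∏ (X - β)`
(multiset induction on the factors: the coefficients of `G * (X - β)` are bounded by
`(max of the coefficients of G) * max ‖β‖ 1`). -/
theorem coeff_le_of_bound [IsAlgClosed Ω] (Q : Polynomial Ω) {w : Ω} (hw : w ≠ 0) {M : ℝ}
    (hM : ∀ t, ‖t‖ ≤ ‖w‖ → ‖Q.eval t‖ ≤ M) (j : ℕ) : ‖Q.coeff j‖ * ‖w‖ ^ j ≤ M := by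
  have h1 := max_unit (Q.comp (C w * X)) (M := M) (fun t ht => by
    rw [eval_comp, eval_mul, eval_C, eval_X]
    refine hM _ ?_
    rw [norm_mul]
    exact mul_le_of_le_one_right (norm_nonneg _) ht) j
  rw [comp_C_mul_X_coeff, norm_mul, norm_pow] at h1
  exact h1

/-- MX2.  The trivial direction. -/
theorem bound_of_coeff_le (Q : Polynomial Ω) {s : ℝ} {M : ℝ}
    (hM : ∀ j, ‖Q.coeff j‖ * s ^ j ≤ M) {t : Ω} (ht : ‖t‖ ≤ s) : ‖Q.eval t‖ ≤ M := by
  have h0 : 0 ≤ M := by
    refine le_trans ?_ (hM 0)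
    rw [pow_zero, mul_one]
    exact norm_nonneg _
  rw [eval_eq_sum_range]
  refine IsUltrametricDist.norm_sum_le_of_forall_le_of_nonneg h0 fun j _ => ?_
  rw [norm_mul, norm_pow]
  refine le_trans ?_ (hM j)
  exact mul_le_mul_of_nonneg_left (pow_le_pow_left₀ (norm_nonneg _) ht j) (norm_nonneg _)

end MP1a953e
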