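import Pool.Agent.Lib.MP_1a953e_ag.PlTTB

/-!
# Module PlTau: the radius for the swap
-/

namespace MP1a953e

open Polynomial

variable {k Ω : Type*} [NontriviallyNormedField k] [IsAlgClosed k] [NormedField Ω]
  [IsUltrametricDist Ω] [NormedAlgebra k Ω] [IsAlgClosed Ω]

omit [IsAlgClosed k] [IsUltrametricDist Ω] [IsAlgClosed Ω] in
private theorem tau_hd_ne {ϑ : Ω} {B : Polynomial k} {q : ℕ} {A : ℝ} (hI : IsInd k ϑ B q A) :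
    hd k ϑ B q ≠ 0 := by
  intro h0
  have h1 := hI.eq
  rw [h0, norm_zero, zero_mul] at h1
  have h2 := hI.pos
  linarith

omit [IsAlgClosed Ω] in
private theorem tau_le_deg {ϑ : Ω} {B : Polynomial k} {j : ℕ} (hj : hd k ϑ B j ≠ 0) :
    j ≤ B.natDegree := by
  by_contra hcon
  rw [not_le] at hcon
  exact hj (hd_of_natDegree_lt ϑ hcon)

/-- TA1.  Proof.  For `j` in the finite nonempty set of `j ∈ [1, natDegree B₂]` with `hd k ϑ B₂ j ≠ 0`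
let `x j ∈ Ω` be a root of `X ^ j = w₂ / hd k ϑ B₂ j`, and let `x = x j` with `‖x j‖` minimal. Then
`‖hd k ϑ B₂ i‖ * ‖x‖ ^ i ≤ ‖hd k ϑ B₂ i‖ * ‖x i‖ ^ i = ‖w₂‖` with equality for `i = j`. For
`i = q₂`: `‖x‖ ^ q₂ ≤ ‖x q₂‖ ^ q₂ = ‖w₂‖ / ‖hd k ϑ B₂ q₂‖ ≤ A₂ / ‖hd k ϑ B₂ q₂‖ = r ^ q₂`, so `‖x‖ ≤ r`.
For `B₁` let `j₁ ∈ [1, natDegree B₁]` be such that `‖hd k ϑ B₁ j‖ * ‖x‖ ^ j` is maximal, and
`w₁ = hd k ϑ B₁ j₁ * x ^ j₁`; it is `≠ 0` since `hd k ϑ B₁ q₁ ≠ 0`. -/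
theorem exists_tau {ϑ : Ω} (h : 0 < rr k ϑ) {B₁ B₂ : Polynomial k} {q₁ q₂ : ℕ} {A₁ A₂ : ℝ}
    (h1 : IsInd k ϑ B₁ q₁ A₁) (h2 : IsInd k ϑ B₂ q₂ A₂) {w₂ : Ω} (hw₂ : w₂ ≠ 0)
    (hA : ‖w₂‖ ≤ A₂) :
    ∃ x w₁ : Ω, ‖x‖ ≤ rr k ϑ ∧ w₁ ≠ 0 ∧ IsRad k ϑ B₁ ‖x‖ ‖w₁‖ ∧ IsRad k ϑ B₂ ‖x‖ ‖w₂‖ := by
  classical
  have hex : ∀ j : ℕ, ∃ z : Ω, 1 ≤ j → z ^ j = w₂ / hd k ϑ B₂ j := by
    intro j
    by_cases hj : 1 ≤ j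
    · obtain ⟨z, hz⟩ := IsAlgClosed.exists_pow_nat_eq (w₂ / hd k ϑ B₂ j) (n := j) (by omega)
      exact ⟨z, fun _ => hz⟩
    · exact ⟨0, fun h => absurd h hj⟩
  choose x hx using hex
  have hxn : ∀ j, 1 ≤ j → hd k ϑ B₂ j ≠ 0 → ‖hd k ϑ B₂ j‖ * ‖x j‖ ^ j = ‖w₂‖ := by
    intro j hj hne
    rw [← norm_pow, hx j hj, norm_div, mul_div_cancel₀ _ (norm_ne_zero_iff.2 hne)]
  set T := (Finset.Icc 1 B₂.natDegree).filter (fun j => hd k ϑ B₂ j ≠ 0) with hT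
  have hq₂ : hd k ϑ B₂ q₂ ≠ 0 := tau_hd_ne h2
  have hmemT : ∀ j, 1 ≤ j → hd k ϑ B₂ j ≠ 0 → j ∈ T := fun j hj hne =>
    Finset.mem_filter.2 ⟨Finset.mem_Icc.2 ⟨hj, tau_le_deg hne⟩, hne⟩
  obtain ⟨j₀, hj₀T, hj₀⟩ := Finset.exists_min_image T (fun j => ‖x j‖)
    ⟨q₂, hmemT q₂ h2.one_le hq₂⟩
  have hj₀1 : 1 ≤ j₀ := (Finset.mem_Icc.1 (Finset.mem_filter.1 hj₀T).1).1
  have hj₀ne : hd k ϑ B₂ j₀ ≠ 0 := (Finset.mem_filter.1 hj₀T).2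
  have hw₂pos : 0 < ‖w₂‖ := norm_pos_iff.2 hw₂
  have hxpos : 0 < ‖x j₀‖ := by
    rw [norm_pos_iff]
    intro h0
    have h3 := hxn j₀ hj₀1 hj₀ne
    rw [h0, norm_zero, zero_pow (by omega), mul_zero] at h3
    linarith
  have hrad2 : IsRad k ϑ B₂ ‖x j₀‖ ‖w₂‖ := by
    refine ⟨fun j hj => ?_, j₀, hj₀1, hxn j₀ hj₀1 hj₀ne⟩
    by_cases hne : hd k ϑ B₂ j = 0
    · rw [hne, norm_zero, zero_mul]
      exact hw₂pos.le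
    · rw [← hxn j hj hne]
      exact mul_le_mul_of_nonneg_left (pow_le_pow_left₀ (norm_nonneg _) (hj₀ j (hmemT j hj hne)) j)
        (norm_nonneg _)
  have hxr : ‖x j₀‖ ≤ rr k ϑ := by
    refine (hj₀ q₂ (hmemT q₂ h2.one_le hq₂)).trans ?_
    have h3 := hxn q₂ h2.one_le hq₂
    have h4 : ‖hd k ϑ B₂ q₂‖ * ‖x q₂‖ ^ q₂ ≤ ‖hd k ϑ B₂ q₂‖ * rr k ϑ ^ q₂ := by
      rw [h3, h2.eq]
      exact hA
    have h5 : ‖x q₂‖ ^ q₂ ≤ rr k ϑ ^ q₂ := le_of_mul_le_mul_left h4 (norm_pos_iff.2 hq₂)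
    exact le_of_pow_le_pow_left₀ (by have := h2.one_le; omega) h.le h5
  obtain ⟨j₁, hj₁, hmax⟩ := Finset.exists_max_image (Finset.Icc 1 B₁.natDegree)
    (fun j => ‖hd k ϑ B₁ j‖ * ‖x j₀‖ ^ j)
    ⟨q₁, Finset.mem_Icc.2 ⟨h1.one_le, tau_le_deg (tau_hd_ne h1)⟩⟩
  have hnw : ‖hd k ϑ B₁ j₁ * x j₀ ^ j₁‖ = ‖hd k ϑ B₁ j₁‖ * ‖x j₀‖ ^ j₁ := by
    rw [norm_mul, norm_pow]
  have hw₁pos : 0 < ‖hd k ϑ B₁ j₁ * x j₀ ^ j₁‖ := by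
    rw [hnw]
    refine lt_of_lt_of_le ?_ (hmax q₁ (Finset.mem_Icc.2 ⟨h1.one_le, tau_le_deg (tau_hd_ne h1)⟩))
    exact mul_pos (norm_pos_iff.2 (tau_hd_ne h1)) (pow_pos hxpos _)
  refine ⟨x j₀, hd k ϑ B₁ j₁ * x j₀ ^ j₁, hxr, norm_pos_iff.1 hw₁pos, ?_, hrad2⟩
  refine ⟨fun j hj => ?_, j₁, (Finset.mem_Icc.1 hj₁).1, hnw.symm⟩
  by_cases hne : hd k ϑ B₁ j = 0
  · rw [hne, norm_zero, zero_mul]
    exact norm_nonneg _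
  · rw [hnw]
    exact hmax j (Finset.mem_Icc.2 ⟨hj, tau_le_deg hne⟩)

/-- TA2.  A small radius: for every `B₂` and `w ≠ 0` there is `x ≠ 0` with `‖x‖ ≤ r` and
`‖hd k ϑ B₂ j‖ * ‖x‖ ^ j ≤ ‖w‖` for all `j ≥ 1` (take `‖x‖` small; `k` is nontrivially normed). -/
theorem exists_small {ϑ : Ω} (h : 0 < rr k ϑ) (B₂ : Polynomial k) {w : Ω} (hw : w ≠ 0) :
    ∃ x : Ω, x ≠ 0 ∧ ‖x‖ ≤ rr k ϑ ∧ ∀ j, 1 ≤ j → ‖hd k ϑ B₂ j‖ * ‖x‖ ^ j ≤ ‖w‖ := by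
  have hsum : 0 ≤ ∑ i ∈ Finset.range (B₂.natDegree + 1), ‖hd k ϑ B₂ i‖ :=
    Finset.sum_nonneg fun i _ => norm_nonneg _
  have hwpos : 0 < ‖w‖ := norm_pos_iff.2 hw
  have hC : 0 < 1 + ∑ i ∈ Finset.range (B₂.natDegree + 1), ‖hd k ϑ B₂ i‖ := by linarith
  obtain ⟨z, hz0, hz⟩ := NormedField.exists_norm_lt k
    (r := min (rr k ϑ) (min 1 (‖w‖ / (1 + ∑ i ∈ Finset.range (B₂.natDegree + 1), ‖hd k ϑ B₂ i‖))))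
    (lt_min h (lt_min one_pos (div_pos hwpos hC)))
  have hn : ‖algebraMap k Ω z‖ = ‖z‖ := norm_algebraMap' Ω z
  have hz1 : ‖z‖ ≤ rr k ϑ := hz.le.trans (min_le_left _ _)
  have hz2 : ‖z‖ ≤ 1 := (hz.le.trans (min_le_right _ _)).trans (min_le_left _ _)
  have hz3 : ‖z‖ ≤ ‖w‖ / (1 + ∑ i ∈ Finset.range (B₂.natDegree + 1), ‖hd k ϑ B₂ i‖) :=
    (hz.le.trans (min_le_right _ _)).trans (min_le_right _ _)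
  refine ⟨algebraMap k Ω z, ?_, ?_, fun j hj => ?_⟩
  · rw [← norm_pos_iff, hn]
    exact hz0
  · rw [hn]
    exact hz1
  · rw [hn]
    by_cases hne : hd k ϑ B₂ j = 0
    · rw [hne, norm_zero, zero_mul]
      exact hwpos.le
    · have h1 : ‖hd k ϑ B₂ j‖ ≤
          1 + ∑ i ∈ Finset.range (B₂.natDegree + 1), ‖hd k ϑ B₂ i‖ := by
        have := Finset.single_le_sum (f := fun i => ‖hd k ϑ B₂ i‖) (fun i _ => norm_nonneg _)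
          (Finset.mem_range.2 (Nat.lt_succ_of_le (tau_le_deg hne)))
        linarith
      have h2 : ‖z‖ ^ j ≤ ‖z‖ := by
        calc ‖z‖ ^ j ≤ ‖z‖ ^ 1 := pow_le_pow_of_le_one (norm_nonneg _) hz2 hj
          _ = ‖z‖ := pow_one _
      calc ‖hd k ϑ B₂ j‖ * ‖z‖ ^ j
          ≤ (1 + ∑ i ∈ Finset.range (B₂.natDegree + 1), ‖hd k ϑ B₂ i‖) *
            (‖w‖ / (1 + ∑ i ∈ Finset.range (B₂.natDegree + 1), ‖hd k ϑ B₂ i‖)) :=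
            mul_le_mul h1 (h2.trans hz3) (pow_nonneg (norm_nonneg _) _) hC.le
        _ = ‖w‖ := by
          field_simp

end MP1a953e
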