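import Pool.Agent.Lib.MP_1a953e_ag.PlSwap
import Pool.Agent.Lib.MP_1a953e_ag.PlTau

/-!
# Module PlRep: replacing the centre of a vertical disc by a polynomial one
-/

namespace MP1a953e

open Polynomial

variable {k Ω : Type*} [NontriviallyNormedField k] [IsAlgClosed k] [NormedField Ω]
  [IsUltrametricDist Ω] [NormedAlgebra k Ω] [IsAlgClosed Ω]

/-- RP1.  Proof.  Choose `B₂` with `‖ρ - B₂ ϑ‖ ≤ ‖w‖` and `B₀` with `‖y - B₀ ϑ‖ < rr k y`. Then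
`rr k (B₀ ϑ) = rr k y > 0` (`rr_congr`), so `B₀` is nonconstant, `IsInd k ϑ B₀ q A` with `A = rr k y`
(`exists_isInd`, `IsInd.rr_eq`). Let `x` be as in `exists_small` for `B₂`, `w`. Choose `B₁` with
`‖y - B₁ ϑ‖ < min A (‖hd k ϑ B₀ q‖ * ‖x‖ ^ q)`. Then `IsInd k ϑ B₁ q A` (`IsInd.congr`) and
`‖hd k ϑ B₁ q‖ = ‖hd k ϑ B₀ q‖` (both are `A / r ^ q`). By `exists_root_near` with `δ = y - B₁ ϑ` there is `ϑ'` with
`‖ϑ' - ϑ‖ ≤ ‖x‖ ≤ rr k ϑ` and `B₁ ϑ' = y`; `‖B₂ ϑ' - B₂ ϑ‖ ≤ ‖w‖` (`aeval_add`), so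
`‖ρ - B₂ ϑ'‖ ≤ ‖w‖`. Now `VB k y ρ ‖w‖ M P ↔ VB k y (B₂ ϑ') ‖w‖ M P` (`vb_center`) `↔ VB k (B₁ ϑ) (B₂ ϑ) ‖w‖ M P`
(`vb_iso`). -/
theorem exists_rep (him : Imk k Ω) {ϑ : Ω} (h : 0 < rr k ϑ) {y ρ w : Ω} (hy : 0 < rr k y)
    (hw : w ≠ 0) (hyd : ∀ ε : ℝ, 0 < ε → ∃ B : Polynomial k, ‖y - aeval ϑ B‖ < ε)
    (hρd : ∀ ε : ℝ, 0 < ε → ∃ B : Polynomial k, ‖ρ - aeval ϑ B‖ < ε) :
    ∃ (B₁ B₂ : Polynomial k) (q : ℕ) (A : ℝ), IsInd k ϑ B₁ q A ∧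
      ∀ (P : MvPolynomial (Fin 2) k) (M : ℝ),
        VB k y ρ ‖w‖ M P ↔ VB k (aeval ϑ B₁) (aeval ϑ B₂) ‖w‖ M P := by
  have hwpos : 0 < ‖w‖ := norm_pos_iff.2 hw
  obtain ⟨B₂, hB₂⟩ := hρd ‖w‖ hwpos
  obtain ⟨B₀, hB₀⟩ := hyd (rr k y) hy
  have hr0 : rr k (aeval ϑ B₀) = rr k y := rr_congr hB₀
  have hdeg : 1 ≤ B₀.natDegree := by
    by_contra hcon
    have hd0 : B₀.natDegree = 0 := by omega
    rw [Polynomial.eq_C_of_natDegree_eq_zero hd0, aeval_C] at hr0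
    have h1 := rr_le (algebraMap k Ω (B₀.coeff 0)) (B₀.coeff 0)
    rw [sub_self, norm_zero, hr0] at h1
    linarith
  obtain ⟨q, A, hI⟩ := exists_isInd h hdeg
  have hA : rr k y = A := by rw [← hr0]; exact hI.rr_eq him h
  obtain ⟨x, hx0, hx1, hx2⟩ := exists_small h B₂ hw
  have hrq : 0 < rr k ϑ ^ q := pow_pos h q
  have hhd : 0 < ‖hd k ϑ B₀ q‖ := by
    have h1 := hI.eq
    have h2 := hI.pos
    rw [← h1] at h2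
    exact (pos_iff_pos_of_mul_pos h2).2 hrq
  have hxq : 0 < ‖hd k ϑ B₀ q‖ * ‖x‖ ^ q := mul_pos hhd (pow_pos (norm_pos_iff.2 hx0) q)
  obtain ⟨B₁, hB₁⟩ := hyd (min A (‖hd k ϑ B₀ q‖ * ‖x‖ ^ q)) (lt_min hI.pos hxq)
  have hclose : ‖aeval ϑ B₀ - aeval ϑ B₁‖ < A := by
    have e1 : aeval ϑ B₀ - aeval ϑ B₁ = -(y - aeval ϑ B₀) + (y - aeval ϑ B₁) := by ring
    rw [e1]
    refine lt_of_le_of_lt (IsUltrametricDist.norm_add_le_max _ _) (max_lt ?_ ?_)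
    · rw [norm_neg, ← hA]
      exact hB₀
    · exact hB₁.trans_le (min_le_left _ _)
  have hI1 : IsInd k ϑ B₁ q A := hI.congr him h hclose
  have hhdeq : ‖hd k ϑ B₁ q‖ = ‖hd k ϑ B₀ q‖ :=
    mul_right_cancel₀ hrq.ne' (hI1.eq.trans hI.eq.symm)
  obtain ⟨ϑ', hϑ1, hϑ2⟩ := exists_root_near (B := B₁) (ϑ := ϑ) (x := x)
    (δ := y - aeval ϑ B₁) hI.one_le (by
      rw [hhdeq]
      exact (hB₁.trans_le (min_le_right _ _)).le)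
  have hy1 : aeval ϑ' B₁ = y := by rw [hϑ2]; ring
  have hB2 : ‖aeval ϑ' B₂ - aeval ϑ B₂‖ ≤ ‖w‖ := by
    have e1 : ϑ' = ϑ + (ϑ' - ϑ) := by ring
    have e2 : aeval ϑ' B₂ - aeval ϑ B₂ =
        ∑ i ∈ Finset.range B₂.natDegree, hd k ϑ B₂ (i + 1) * (ϑ' - ϑ) ^ (i + 1) := by
      conv_lhs => rw [e1, aeval_add ϑ (ϑ' - ϑ) B₂ le_rfl, Finset.sum_range_succ']
      rw [hd_zero, pow_zero, mul_one]
      ring
    rw [e2]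
    refine IsUltrametricDist.norm_sum_le_of_forall_le_of_nonneg (norm_nonneg _) fun i _ => ?_
    rw [norm_mul, norm_pow]
    exact (mul_le_mul_of_nonneg_left (pow_le_pow_left₀ (norm_nonneg _) hϑ1 _)
      (norm_nonneg _)).trans (hx2 (i + 1) (by omega))
  refine ⟨B₁, B₂, q, A, hI1, fun P M => ?_⟩
  have hc : ‖ρ - aeval ϑ' B₂‖ ≤ ‖w‖ := by
    have e1 : ρ - aeval ϑ' B₂ = (ρ - aeval ϑ B₂) + -(aeval ϑ' B₂ - aeval ϑ B₂) := by ring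
    rw [e1]
    refine (IsUltrametricDist.norm_add_le_max _ _).trans (max_le hB₂.le ?_)
    rw [norm_neg]
    exact hB2
  rw [vb_center hc P, ← vb_iso him h (hϑ1.trans hx1) B₁ B₂ hw M P, hy1]

end MP1a953e
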