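import Pool.Agent.Lib.MP_1a953e_ag.PlDefs

/-!
# Module PlRoot: a polynomial maps discs onto discs
-/

namespace MP1a953e

open Polynomial

section

variable {Ω : Type*} [NormedField Ω] [IsUltrametricDist Ω]

private theorem plroot_coeff_prod_le {ρ : ℝ} (hρ0 : 0 < ρ) (s : Multiset Ω)
    (hs : ∀ c ∈ s, ρ ≤ ‖c‖) :
    ∀ i : ℕ, ‖((s.map fun c => (X + C c : Polynomial Ω)).prod).coeff i‖ * ρ ^ i ≤ ‖s.prod‖ := by
  induction s using Multiset.induction with
  | empty =>
    intro i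
    simp only [Multiset.map_zero, Multiset.prod_zero, norm_one]
    rw [coeff_one]
    by_cases hi : i = 0
    · simp [hi]
    · simp [hi]
  | cons c s ih =>
    have ih' := ih (fun c hc => hs c (Multiset.mem_cons_of_mem hc))
    have hc : ρ ≤ ‖c‖ := hs c (Multiset.mem_cons_self c s)
    intro i
    simp only [Multiset.map_cons, Multiset.prod_cons, norm_mul]
    set P : Polynomial Ω := (s.map fun c => (X + C c : Polynomial Ω)).prod with hP
    have key : ‖((X + C c) * P).coeff i‖ ≤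
        max (if i = 0 then 0 else ‖P.coeff (i - 1)‖) (‖c‖ * ‖P.coeff i‖) := by
      rw [add_mul, coeff_add, coeff_C_mul]
      refine (IsUltrametricDist.norm_add_le_max _ _).trans (max_le_max ?_ (norm_mul _ _).le)
      rcases i with _ | i
      · simp
      · simp [coeff_X_mul]
    refine (mul_le_mul_of_nonneg_right key (pow_nonneg hρ0.le i)).trans ?_
    rw [max_mul_of_nonneg _ _ (pow_nonneg hρ0.le i)]
    refine max_le ?_ ?_
    · rcases i with _ | i
      · simp only [if_true, zero_mul]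
        positivity
      · simp only [Nat.succ_ne_zero, if_false, Nat.add_sub_cancel]
        calc ‖P.coeff i‖ * ρ ^ (i + 1) = (‖P.coeff i‖ * ρ ^ i) * ρ := by ring
          _ ≤ ‖s.prod‖ * ‖c‖ := mul_le_mul (ih' i) hc hρ0.le (norm_nonneg _)
          _ = ‖c‖ * ‖s.prod‖ := mul_comm _ _
    · calc ‖c‖ * ‖P.coeff i‖ * ρ ^ i = ‖c‖ * (‖P.coeff i‖ * ρ ^ i) := by ring
        _ ≤ ‖c‖ * ‖s.prod‖ := mul_le_mul_of_nonneg_left (ih' i) (norm_nonneg _)

private theorem plroot_exists_gap {ι : Type*} (s : Multiset ι) (f : ι → ℝ) (r : ℝ)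
    (h : ∀ x ∈ s, r < f x) : ∃ ρ > r, ∀ x ∈ s, ρ ≤ f x := by
  induction s using Multiset.induction with
  | empty => exact ⟨r + 1, by simp, by simp⟩
  | cons c s ih =>
    obtain ⟨ρ, hρ, h1⟩ := ih fun x hx => h x (Multiset.mem_cons_of_mem hx)
    refine ⟨min ρ (f c), lt_min hρ (h c (Multiset.mem_cons_self c s)), ?_⟩
    intro x hx
    rcases Multiset.mem_cons.1 hx with rfl | hx
    · exact min_le_right _ _
    · exact (min_le_left _ _).trans (h1 x hx)

private theorem plroot_taylor_le [IsAlgClosed Ω] {G : Polynomial Ω} {b : Ω} {ρ : ℝ} (hρ0 : 0 < ρ)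
    (hρ : ∀ β ∈ G.roots, ρ ≤ ‖b - β‖) (i : ℕ) :
    ‖(hasseDeriv i G).eval b‖ * ρ ^ i ≤ ‖G.eval b‖ := by
  have hfac : G = C G.leadingCoeff * (G.roots.map fun β => X - C β).prod :=
    (IsAlgClosed.splits G).eq_prod_roots
  have htay : taylor b G =
      C G.leadingCoeff * ((G.roots.map fun β => b - β).map fun c => (X + C c : Polynomial Ω)).prod := by
    conv_lhs => rw [hfac]
    rw [taylor_mul, taylor_C]
    congr 1
    rw [Multiset.map_map]
    have : ∀ s : Multiset Ω, taylor b ((s.map fun β => X - C β).prod) =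
        (s.map ((fun c => (X + C c : Polynomial Ω)) ∘ fun β => b - β)).prod := by
      intro s
      induction s using Multiset.induction with
      | empty => simp
      | cons c s ih =>
        rw [Multiset.map_cons, Multiset.prod_cons, taylor_mul, ih, Multiset.map_cons,
          Multiset.prod_cons]
        congr 1
        simp only [map_sub, taylor_X, taylor_C, Function.comp_apply]
        ring
    exact this _
  have hev : G.eval b = G.leadingCoeff * (G.roots.map fun β => b - β).prod := by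
    conv_lhs => rw [hfac]
    rw [eval_mul, eval_C, eval_multiset_prod, Multiset.map_map]
    congr 2
    refine Multiset.map_congr rfl fun β _ => ?_
    simp
  rw [← taylor_coeff, htay, coeff_C_mul, norm_mul, hev, norm_mul, mul_assoc]
  refine mul_le_mul_of_nonneg_left (plroot_coeff_prod_le hρ0 _ ?_ i) (norm_nonneg _)
  intro c hc
  obtain ⟨β, hβ, rfl⟩ := Multiset.mem_map.1 hc
  exact hρ β hβ

end

variable {k Ω : Type*} [NontriviallyNormedField k] [NormedField Ω]
  [IsUltrametricDist Ω] [NormedAlgebra k Ω] [IsAlgClosed Ω]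

omit [IsUltrametricDist Ω] [IsAlgClosed Ω] in
private theorem plroot_hd (ϑ : Ω) (B : Polynomial k) (j : ℕ) :
    hd k ϑ B j = (hasseDeriv j (B.map (algebraMap k Ω))).eval ϑ := by
  have h : hasseDeriv j (B.map (algebraMap k Ω)) = (hasseDeriv j B).map (algebraMap k Ω) := by
    ext n
    rw [hasseDeriv_coeff, coeff_map, coeff_map, hasseDeriv_coeff, map_mul, map_natCast]
  rw [h, hd, eval_map_algebraMap]

/-- RO1.  Proof.  If `δ = 0` take `ϑ' = ϑ`. Otherwise `hd k ϑ B j ≠ 0` and `x ≠ 0`. Let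
`Q = taylor ϑ B - C (B ϑ + δ)` (over `Ω`), so `Q.coeff 0 = - δ`, `Q.coeff j = hd k ϑ B j`. `Q` has degree
`≥ 1`. If all roots `β` of `Q` had `‖β‖ > ‖x‖`, then `‖Q.coeff j‖ * ‖x‖ ^ j < ‖Q.coeff 0‖ = ‖δ‖` (Vieta:
`Q = lc * ∏ (X - β)`; compare the private lemma `dcalc_taylor_le` in DCalc: with `ρ > ‖x‖` a lower bound of the `‖β‖`,
`‖Q.coeff j‖ * ρ ^ j ≤ ‖Q.coeff 0‖`), a contradiction. So there is a root `β` with `‖β‖ ≤ ‖x‖`, take
`ϑ' = ϑ + β`. -/
theorem exists_root_near {B : Polynomial k} {ϑ x δ : Ω} {j : ℕ} (hj : 1 ≤ j)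
    (hδ : ‖δ‖ ≤ ‖hd k ϑ B j‖ * ‖x‖ ^ j) :
    ∃ ϑ' : Ω, ‖ϑ' - ϑ‖ ≤ ‖x‖ ∧ aeval ϑ' B = aeval ϑ B + δ := by
  by_cases hδ0 : δ = 0
  · exact ⟨ϑ, by simp, by simp [hδ0]⟩
  have hδp : 0 < ‖δ‖ := norm_pos_iff.2 hδ0
  have hpos : 0 < ‖hd k ϑ B j‖ * ‖x‖ ^ j := lt_of_lt_of_le hδp hδ
  have hhd : 0 < ‖hd k ϑ B j‖ := by
    rcases (norm_nonneg (hd k ϑ B j)).eq_or_lt with h | h
    · rw [← h, zero_mul] at hpos
      exact absurd hpos (lt_irrefl _)
    · exact h
  set G : Polynomial Ω := B.map (algebraMap k Ω) - C (aeval ϑ B + δ) with hG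
  have hder : hasseDeriv j G = hasseDeriv j (B.map (algebraMap k Ω)) := by
    rw [hG, map_sub, hasseDeriv_C j _ (by omega), sub_zero]
  have hGev : G.eval ϑ = -δ := by
    rw [hG, eval_sub, eval_C, eval_map_algebraMap]
    ring
  have hG0 : G ≠ 0 := by
    intro h
    rw [h, eval_zero] at hGev
    exact hδ0 (neg_eq_zero.1 hGev.symm)
  by_contra hcon
  push Not at hcon
  have hroots : ∀ β ∈ G.roots, ‖x‖ < ‖ϑ - β‖ := by
    intro β hβ
    by_contra hle
    rw [not_lt] at hle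
    refine hcon β (by rw [norm_sub_rev]; exact hle) ?_
    have h0 : G.eval β = 0 := (mem_roots hG0).1 hβ
    rw [hG, eval_sub, eval_C, eval_map_algebraMap] at h0
    exact sub_eq_zero.1 h0
  obtain ⟨ρ, hρ, hρ1⟩ := plroot_exists_gap G.roots (fun β => ‖ϑ - β‖) ‖x‖ hroots
  have hρ0 : 0 < ρ := lt_of_le_of_lt (norm_nonneg x) hρ
  have h1 := plroot_taylor_le hρ0 hρ1 j
  rw [hder, ← plroot_hd, hGev, norm_neg] at h1
  have h2 : ‖hd k ϑ B j‖ * ‖x‖ ^ j < ‖hd k ϑ B j‖ * ρ ^ j :=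
    mul_lt_mul_of_pos_left (pow_lt_pow_left₀ hρ (norm_nonneg x) (by omega)) hhd
  exact absurd (h1.trans hδ) (not_le.2 h2)

end MP1a953e
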