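import Pool.Agent.Lib.MP_1a953e_ag.PlTop
import Pool.Agent.Lib.MP_1a953e_ag.PlTTB

/-!
# Module PlStar: polynomials in `y = B₁ ϑ` and polynomials of small degree in `ϑ`
-/

namespace MP1a953e

open Polynomial

variable {k Ω : Type*} [NontriviallyNormedField k] [IsAlgClosed k] [NormedField Ω]
  [IsUltrametricDist Ω] [NormedAlgebra k Ω] [IsAlgClosed Ω]

omit [IsAlgClosed k] [IsUltrametricDist Ω] [IsAlgClosed Ω] in
private theorem star_comp_eq (ϑ : Ω) (B₁ g : Polynomial k) :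
    (taylor (aeval ϑ B₁) (g.map (algebraMap k Ω)) - C (aeval (aeval ϑ B₁) g)).comp
      (taylor ϑ (B₁.map (algebraMap k Ω)) - C (aeval ϑ B₁)) =
    taylor ϑ ((g.comp B₁).map (algebraMap k Ω)) - C (aeval (aeval ϑ B₁) g) := by
  rw [sub_comp, C_comp, taylor_apply, taylor_apply, taylor_apply, comp_assoc, add_comp, X_comp,
    C_comp, sub_add_cancel, map_comp, comp_assoc]

/-- PS1.  The index of a composition is the product of the indices.  Proof.  `Top.comp` with `H = taylor ϑ B₁ - C (B₁ ϑ)`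
(`H.coeff 0 = 0`, `H.coeff j = hd k ϑ B₁ j`, `Top H r q A₁`) and `G = taylor y g - C (g y)`, `y = B₁ ϑ`
(over `Ω`; `rr k y = A₁` by `IsInd.rr_eq`, so `Top G A₁ J A`); `G.comp H = taylor ϑ (g.comp B₁) - C (g (y))`.
-/
theorem IsInd.comp (him : Imk k Ω) {ϑ : Ω} (h : 0 < rr k ϑ) {B₁ g : Polynomial k} {q J : ℕ}
    {A₁ A : ℝ} (h1 : IsInd k ϑ B₁ q A₁) (h2 : IsInd k (aeval ϑ B₁) g J A) :
    IsInd k ϑ (g.comp B₁) (J * q) A := by
  have hr1 : rr k (aeval ϑ B₁) = A₁ := h1.rr_eq him h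
  have hco : ∀ (x : Ω) (B : Polynomial k) (c : Ω) (j : ℕ), 1 ≤ j →
      (taylor x (B.map (algebraMap k Ω)) - C c).coeff j = hd k x B j := by
    intro x B c j hj
    rw [coeff_sub, taylor_coeff, coeff_C_of_ne_zero (by omega), sub_zero, hd_eq]
  have hco0 : ∀ (x : Ω) (B : Polynomial k),
      (taylor x (B.map (algebraMap k Ω)) - C (aeval x B)).coeff 0 = 0 := by
    intro x B
    rw [coeff_sub, taylor_coeff, coeff_C_zero, ← hd_eq, hd_zero, sub_self]
  have htop : ∀ (x : Ω) (B : Polynomial k) (s : ℕ) (D : ℝ), IsInd k x B s D →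
      Top (taylor x (B.map (algebraMap k Ω)) - C (aeval x B)) (rr k x) s D := by
    intro x B s D hI
    refine ⟨hI.pos, ?_, ?_, ?_⟩
    · rw [hco x B _ s hI.one_le]
      exact hI.eq
    · intro j
      rcases Nat.eq_zero_or_pos j with hj | hj
      · rw [hj, hco0, norm_zero, zero_mul]
        exact hI.pos.le
      · rw [hco x B _ j hj]
        exact hI.le j hj
    · intro j hj
      rw [hco x B _ j (by have := hI.one_le; omega)]
      exact hI.lt j hj
  have hG := htop _ _ _ _ h2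
  rw [hr1] at hG
  have hT := Top.comp h h1.one_le (htop _ _ _ _ h1) hG
  rw [star_comp_eq] at hT
  have h1q : 1 ≤ J * q := Nat.mul_pos h2.one_le h1.one_le
  refine ⟨hT.pos, h1q, ?_, ?_, ?_⟩
  · rw [← hT.eq, hco _ _ _ _ h1q]
  · intro j hj
    rw [← hco _ _ (aeval (aeval ϑ B₁) g) _ hj]
    exact hT.le j
  · intro j hj
    rw [← hco _ _ (aeval (aeval ϑ B₁) g) _ (by omega)]
    exact hT.lt j hj

/-- PS2.  Let `y = B₁ ϑ`. If `g y` is not (a limit of) constants and `G` has degree `< q`, then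
`‖g y + G ϑ‖` is larger than the distance of `g y` to `k`.  Proof.  `g` has degree `≥ 1` (otherwise `rr = 0`), so it has
an index `J ≥ 1` at `y` (`exists_isInd`; `rr k y = A₁ > 0`) and the maximum is `A = rr k (g y)`
(`IsInd.rr_eq`). By PS1 the coefficient `hd k ϑ (g.comp B₁) (J * q)` has
`‖·‖ * r ^ (J * q) = A`; `hd k ϑ G (J * q) = 0` since `natDegree G < q ≤ J * q`; so
`A = ‖hd k ϑ (g.comp B₁ + G) (J * q)‖ * r ^ (J * q) < ‖(g.comp B₁ + G) ϑ‖` by `hd_lt`. -/
theorem star (him : Imk k Ω) {ϑ : Ω} (h : 0 < rr k ϑ) {B₁ : Polynomial k} {q : ℕ} {A₁ : ℝ}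
    (h1 : IsInd k ϑ B₁ q A₁) (g G : Polynomial k) (hG : G.natDegree < q)
    (hg : 0 < rr k (aeval (aeval ϑ B₁) g)) :
    rr k (aeval (aeval ϑ B₁) g) < ‖aeval (aeval ϑ B₁) g + aeval ϑ G‖ := by
  have hr1 : rr k (aeval ϑ B₁) = A₁ := h1.rr_eq him h
  have hy : 0 < rr k (aeval ϑ B₁) := by
    rw [hr1]
    exact h1.pos
  have hdeg : 1 ≤ g.natDegree := by
    by_contra hcon
    have h0 : g.natDegree = 0 := by omega
    rw [eq_C_of_natDegree_eq_zero h0, aeval_C] at hg
    have := rr_le (k := k) (algebraMap k Ω (g.coeff 0)) (g.coeff 0)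
    rw [sub_self, norm_zero] at this
    linarith
  obtain ⟨J, A, hI⟩ := exists_isInd (k := k) hy hdeg
  have hrA : rr k (aeval (aeval ϑ B₁) g) = A := hI.rr_eq him hy
  have hc := IsInd.comp him h h1 hI
  have hJq : q ≤ J * q := Nat.le_mul_of_pos_left q hI.one_le
  have hsum : hd k ϑ (g.comp B₁ + G) (J * q) = hd k ϑ (g.comp B₁) (J * q) := by
    rw [hd_add, hd_of_natDegree_lt ϑ (lt_of_lt_of_le hG hJq), add_zero]
  have hne : hd k ϑ (g.comp B₁ + G) (J * q) ≠ 0 := by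
    rw [hsum]
    intro h0
    have h3 := hc.eq
    rw [h0, norm_zero, zero_mul] at h3
    have h4 := hc.pos
    linarith
  have hlt := hd_lt him h (g.comp B₁ + G) hc.one_le hne
  rw [hsum, hc.eq, map_add, aeval_comp] at hlt
  rw [hrA]
  exact hlt

end MP1a953e
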