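import Pool.Agent.Lib.MP_1a953e_ag.PlMv

/-!
# Module PlStrA: shears
-/

namespace MP1a953e

open Polynomial

variable {k Ω : Type*} [NontriviallyNormedField k] [IsAlgClosed k] [NormedField Ω]
  [IsUltrametricDist Ω] [NormedAlgebra k Ω] [IsAlgClosed Ω]

private theorem sh_comp {R : Type*} [CommRing R] (f g : Polynomial R) (h : g = - f) :
    (MvPolynomial.aeval ![(MvPolynomial.X 0 : MvPolynomial (Fin 2) R),
        MvPolynomial.X 1 + aeval (MvPolynomial.X 0 : MvPolynomial (Fin 2) R) f]).comp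
      (MvPolynomial.aeval ![(MvPolynomial.X 0 : MvPolynomial (Fin 2) R),
        MvPolynomial.X 1 + aeval (MvPolynomial.X 0 : MvPolynomial (Fin 2) R) g]) =
      AlgHom.id R _ := by
  subst h
  refine MvPolynomial.algHom_ext ?_
  intro i
  fin_cases i
  · simp
  · simp only [AlgHom.comp_apply, Fin.mk_one, MvPolynomial.aeval_X, Matrix.cons_val_one,
      Matrix.cons_val_zero, map_add, AlgHom.id_apply, map_neg]
    rw [← Polynomial.aeval_algHom_apply]
    simp

/-- ST1.  The automorphism `Y ↦ Y`, `Z ↦ Z + f (Y)` (inverse: `- f`). -/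
theorem exists_shear (f : Polynomial k) :
    ∃ τ : MvPolynomial (Fin 2) k ≃ₐ[k] MvPolynomial (Fin 2) k,
      ∀ (a b : Ω) (P : MvPolynomial (Fin 2) k), ev2 k a b (τ P) = ev2 k a (b + aeval a f) P := by
  refine ⟨AlgEquiv.ofAlgHom _ _ (sh_comp f (-f) rfl) (sh_comp (-f) f (by simp)), ?_⟩
  intro a b P
  rw [AlgEquiv.ofAlgHom_apply]
  have : (ev2 k a b).comp (MvPolynomial.aeval ![(MvPolynomial.X 0 : MvPolynomial (Fin 2) k),
        MvPolynomial.X 1 + aeval (MvPolynomial.X 0 : MvPolynomial (Fin 2) k) f]) =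
      ev2 k a (b + aeval a f) := by
    refine MvPolynomial.algHom_ext ?_
    intro i
    fin_cases i
    · simp [ev2]
    · simp only [AlgHom.comp_apply, Fin.mk_one, MvPolynomial.aeval_X, Matrix.cons_val_one,
        Matrix.cons_val_zero, map_add, ev2]
      rw [← Polynomial.aeval_algHom_apply]
      simp
  exact DFunLike.congr_fun this P

/-- ST2.  If the disc with centre `(y, ρ + f y)` can be straightened, so can the one with centre
`(y, ρ)`: compose with the shear. -/
theorem str_shear {y ρ w : Ω} (f : Polynomial k) (h : Str k y (ρ + aeval y f) w) :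
    Str k y ρ w := by
  obtain ⟨φ, u, w', hw', hu, H⟩ := h
  obtain ⟨τ, hτ⟩ := exists_shear (k := k) (Ω := Ω) f
  refine ⟨φ.trans τ, u, w', hw', hu, ?_⟩
  intro P M
  rw [← H P M]
  refine forall_congr' fun t => forall_congr' fun _ => ?_
  rw [AlgEquiv.trans_apply, hτ, add_right_comm]

/-- ST3.  If `‖ρ + f y‖ ≤ ‖w‖` with `f ∈ k[Y]` then the disc can be straightened (`str_shear`,
`vb_center`, `φ = refl`, `u = y`, `w' = w`). -/
theorem str_of_near {y ρ w : Ω} (hy : 0 < rr k y) (hw : w ≠ 0) (f : Polynomial k)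
    (h : ‖ρ + aeval y f‖ ≤ ‖w‖) : Str k y ρ w := by
  refine str_shear f ⟨AlgEquiv.refl, y, w, hw, hy, ?_⟩
  intro P M
  change VB k y (ρ + aeval y f) ‖w‖ M P ↔ VB k y 0 ‖w‖ M P
  exact vb_center (by rwa [sub_zero]) P

end MP1a953e
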