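import Pool.Agent.Lib.MP_1a953e_ag.PlStrA
import Pool.Agent.Lib.MP_1a953e_ag.PlIRB
import Pool.Agent.Lib.MP_1a953e_ag.PlRep
import Pool.Agent.Lib.MP_1a953e_ag.PlGen

/-!
# Module PlStrB: straightening of vertical discs
-/

namespace MP1a953e

open Polynomial

variable {k Ω : Type*} [NontriviallyNormedField k] [IsAlgClosed k] [NormedField Ω]
  [IsUltrametricDist Ω] [NormedAlgebra k Ω] [IsAlgClosed Ω]

private theorem strB_swp_swp (P : MvPolynomial (Fin 2) k) : swp k (swp k P) = P := by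
  have : ((swp k).trans (swp k)).toAlgHom = AlgHom.id k (MvPolynomial (Fin 2) k) := by
    refine MvPolynomial.algHom_ext ?_
    intro i
    simp [swp]
  exact DFunLike.congr_fun this P

/-- ST4.  Proof.  Strong induction on `q`. Apply `index_reduction` to `B₁`, `b = B₂`, `s = ‖w‖`, giving
`f`. If `‖B₂ ϑ + f (B₁ ϑ)‖ < ‖w‖` use `str_of_near` (`rr k (B₁ ϑ) = A > 0` by `IsInd.rr_eq`). Otherwise
`B₂' = B₂ + f.comp B₁` has an index `q' < q` with maximum `A'`; `B₂' ϑ = B₂ ϑ + f (B₁ ϑ)`, so by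
`str_shear` it suffices to straighten the disc with centre `(B₁ ϑ, B₂' ϑ)`. If `A' < ‖w‖`
there is a constant `c ∈ k` with `‖B₂' ϑ - c‖ < ‖w‖` (`IsInd.rr_eq`, `exists_lt_of_rr_lt`): `str_of_near`
with `f = C (-c)`. If `‖w‖ ≤ A'`: `exists_tau` (for `B₁`, `B₂'`) gives `x, w₁`, and `vb_swap` gives
`VB k (B₁ ϑ) (B₂' ϑ) ‖w‖ M P ↔ VB k (B₂' ϑ) (B₁ ϑ) ‖w₁‖ M (swp k P)`; by induction (index `q'` of the new
base `B₂'`) `Str k (B₂' ϑ) (B₁ ϑ) w₁` with some `φ`; take `φ' = φ.trans (swp k)`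
(`swp k (swp k (φ P)) = φ P`). -/
theorem str_poly (him : Imk k Ω) {ϑ : Ω} (h : 0 < rr k ϑ) (q : ℕ) :
    ∀ (B₁ B₂ : Polynomial k) (A : ℝ) (w : Ω), IsInd k ϑ B₁ q A → w ≠ 0 →
      Str k (aeval ϑ B₁) (aeval ϑ B₂) w := by
  induction q using Nat.strong_induction_on with
  | _ q ih =>
    intro B₁ B₂ A w hI hw
    have hy : 0 < rr k (aeval ϑ B₁) := by rw [hI.rr_eq him h]; exact hI.pos
    obtain ⟨f, hf⟩ := index_reduction him h hI B₂ (norm_pos_iff.2 hw)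
    rcases hf with hf | ⟨q', A', hq', hI'⟩
    · exact str_of_near hy hw f hf.le
    · have e : aeval ϑ (B₂ + f.comp B₁) = aeval ϑ B₂ + aeval (aeval ϑ B₁) f := by
        rw [map_add, aeval_comp]
      apply str_shear f
      rw [← e]
      rcases lt_or_ge A' ‖w‖ with hA | hA
      · have hr : rr k (aeval ϑ (B₂ + f.comp B₁)) < ‖w‖ := by
          rw [hI'.rr_eq him h]; exact hA
        obtain ⟨c, hc⟩ := exists_lt_of_rr_lt hr
        refine str_of_near hy hw (C (-c)) ?_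
        rw [aeval_C, map_neg, ← sub_eq_add_neg]
        exact hc.le
      · obtain ⟨x, w₁, hx, hw₁, h1, h2⟩ := exists_tau h hI hI' hw hA
        obtain ⟨φ, u, w', hw', hu, H⟩ := ih q' hq' (B₂ + f.comp B₁) B₁ A' w₁ hI' hw₁
        refine ⟨φ.trans (swp k), u, w', hw', hu, ?_⟩
        intro P M
        rw [← H P M, AlgEquiv.trans_apply, vb_swap him h hx hw₁ hw h1 h2, strB_swp_swp]

/-- ST5.  Straightening of all vertical discs whose centre is algebraic over `k(y)`.  From `exists_gen`,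
`exists_rep`, `str_poly`. -/
theorem str_of_algebraic {p : ℕ} [Fact p.Prime] (hp : ‖(p : Ω)‖ < 1) (him : Imk k Ω) {y ρ w : Ω}
    (hy : 0 < rr k y) (hw : w ≠ 0) {P₀ : Subfield Ω} (hP : IsComplete (P₀ : Set Ω))
    (hPd : DenseIn (adj (kr k Ω) y) P₀) (hρ : IsAlgebraic P₀ ρ) : Str k y ρ w := by
  obtain ⟨ϑ, hϑ, hyd, hρd⟩ := exists_gen hp him hy hP hPd hρ
  obtain ⟨B₁, B₂, q, A, hI, H⟩ := exists_rep him hϑ hy hw hyd hρd
  obtain ⟨φ, u, w', hw', hu, HS⟩ := str_poly him hϑ q B₁ B₂ A w hI hw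
  exact ⟨φ, u, w', hw', hu, fun P M => (H (φ P) M).trans (HS P M)⟩

end MP1a953e
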