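import Pool.Agent.Lib.MP_1a953e_ag.PlTTB
import Pool.Agent.Lib.MP_1a953e_ag.PlMv
import Pool.Agent.Lib.MP_1a953e_ag.PlRoot

/-!
# Module PlSwap: the swap lemma
-/

namespace MP1a953e

open Polynomial

variable {k Ω : Type*} [NontriviallyNormedField k] [IsAlgClosed k] [NormedField Ω]
  [IsUltrametricDist Ω] [NormedAlgebra k Ω] [IsAlgClosed Ω]

/-- SW1.  Isometry.  Proof.  `vb_iff`, `exists_vcoef`, `exists_curve`, `norm_aeval_eq`. -/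
theorem vb_iso (him : Imk k Ω) {ϑ ϑ' : Ω} (h : 0 < rr k ϑ) (h' : ‖ϑ' - ϑ‖ ≤ rr k ϑ)
    (B₁ B₂ : Polynomial k) {w : Ω} (hw : w ≠ 0) (M : ℝ) (P : MvPolynomial (Fin 2) k) :
    VB k (aeval ϑ' B₁) (aeval ϑ' B₂) ‖w‖ M P ↔ VB k (aeval ϑ B₁) (aeval ϑ B₂) ‖w‖ M P := by
  rw [vb_iff hw, vb_iff hw]
  refine forall_congr' fun j => ?_
  obtain ⟨f, hf⟩ := exists_vcoef (Ω := Ω) P
  obtain ⟨G, hG⟩ := exists_curve (Ω := Ω) (f j) B₁ B₂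
  rw [hf, hf, ← hG ϑ', ← hG ϑ, norm_aeval_eq him h h' G]

/-- SW2.  From the vertical disc to the bidisc.  Proof.  Let `‖δ‖ ≤ ‖w₁‖`, `‖e‖ ≤ ‖w₂‖`. By
`exists_root_near` (with the `j` for which `‖hd k ϑ B₁ j‖ * ‖x‖ ^ j = ‖w₁‖`) there is `ϑ'` with
`‖ϑ' - ϑ‖ ≤ ‖x‖ ≤ rr k ϑ` and `B₁ ϑ' = B₁ ϑ + δ`. By the first half of `IsRad` for `B₂` (`aeval_add`)
`‖B₂ ϑ' - B₂ ϑ‖ ≤ ‖w₂‖`. By `vb_iso`, `P` is bounded by `M` on the vertical disc with centre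
`(B₁ ϑ', B₂ ϑ')` and radius `‖w₂‖`, which contains `(B₁ ϑ + δ, B₂ ϑ + e)`. -/
theorem bidisc_of_vb (him : Imk k Ω) {ϑ : Ω} (h : 0 < rr k ϑ) {x w₁ w₂ : Ω}
    (hx : ‖x‖ ≤ rr k ϑ) (hw₂ : w₂ ≠ 0) {B₁ B₂ : Polynomial k}
    (h1 : IsRad k ϑ B₁ ‖x‖ ‖w₁‖) (h2 : IsRad k ϑ B₂ ‖x‖ ‖w₂‖) {P : MvPolynomial (Fin 2) k} {M : ℝ}
    (hP : VB k (aeval ϑ B₁) (aeval ϑ B₂) ‖w₂‖ M P) {δ e : Ω} (hδ : ‖δ‖ ≤ ‖w₁‖) (he : ‖e‖ ≤ ‖w₂‖) :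
    ‖ev2 k (aeval ϑ B₁ + δ) (aeval ϑ B₂ + e) P‖ ≤ M := by
  obtain ⟨j, hj, hj2⟩ := h1.2
  obtain ⟨ϑ', hϑ', hϑ2⟩ := exists_root_near (B := B₁) (ϑ := ϑ) (x := x) (δ := δ) hj
    (hδ.trans hj2.ge)
  -- the second coordinate moves little
  have hB2 : ‖aeval ϑ' B₂ - aeval ϑ B₂‖ ≤ ‖w₂‖ := by
    have e1 : ϑ' = ϑ + (ϑ' - ϑ) := by ring
    have e2 : aeval ϑ' B₂ - aeval ϑ B₂ =
        ∑ i ∈ Finset.range B₂.natDegree, hd k ϑ B₂ (i + 1) * (ϑ' - ϑ) ^ (i + 1) := by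
      conv_lhs => rw [e1, aeval_add ϑ (ϑ' - ϑ) B₂ le_rfl, Finset.sum_range_succ']
      rw [hd_zero, pow_zero, mul_one]
      ring
    rw [e2]
    refine IsUltrametricDist.norm_sum_le_of_forall_le_of_nonneg (norm_nonneg _) fun i _ => ?_
    rw [norm_mul, norm_pow]
    exact (mul_le_mul_of_nonneg_left (pow_le_pow_left₀ (norm_nonneg _) hϑ' _)
      (norm_nonneg _)).trans (h2.1 (i + 1) (by omega))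
  have hP' := (vb_iso him h (hϑ'.trans hx) B₁ B₂ hw₂ M P).2 hP
  have e3 : aeval ϑ B₂ + e = aeval ϑ' B₂ + ((aeval ϑ B₂ - aeval ϑ' B₂) + e) := by ring
  rw [← hϑ2, e3]
  refine hP' _ ((IsUltrametricDist.norm_add_le_max _ _).trans (max_le ?_ he))
  rw [norm_sub_rev]
  exact hB2

/-- SW3 (swap).  From SW2 twice (`ev2_swp`; `swp k (swp k P) = P`). -/
theorem vb_swap (him : Imk k Ω) {ϑ : Ω} (h : 0 < rr k ϑ) {x w₁ w₂ : Ω}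
    (hx : ‖x‖ ≤ rr k ϑ) (hw₁ : w₁ ≠ 0) (hw₂ : w₂ ≠ 0) {B₁ B₂ : Polynomial k}
    (h1 : IsRad k ϑ B₁ ‖x‖ ‖w₁‖) (h2 : IsRad k ϑ B₂ ‖x‖ ‖w₂‖) (P : MvPolynomial (Fin 2) k) (M : ℝ) :
    VB k (aeval ϑ B₁) (aeval ϑ B₂) ‖w₂‖ M P ↔
      VB k (aeval ϑ B₂) (aeval ϑ B₁) ‖w₁‖ M (swp k P) := by
  constructor
  · intro hP t ht
    rw [ev2_swp]
    have := bidisc_of_vb him h hx hw₂ h1 h2 hP (δ := t) (e := 0) ht (by simp)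
    rw [add_zero] at this
    exact this
  · intro hP t ht
    rw [← ev2_swp]
    have := bidisc_of_vb him h hx hw₁ h2 h1 hP (δ := t) (e := 0) ht (by simp)
    rw [add_zero] at this
    exact this

end MP1a953e
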