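import Pool.Agent.Lib.MP_1a953e_ag.PlDefs
import Pool.Agent.Lib.MP_1a953e_ag.DCalc
import Pool.Agent.Lib.MP_1a953e_ag.DImmA
import Pool.Agent.Lib.MP_1a953e_ag.Calc3

/-!
# Module PlTT: points of type 4 on the line

Versions over the field `k` of the lemmas for `TT (kr k Ω) ϑ` (`TT.unif`, `TT.ec`, `TT.exists_near`,
`TT.nb`, `TT.dist_le`, `TT.kaplansky` in DCalc, Calc1, Calc3; `tt_of_immAll` in DImmA).
-/

namespace MP1a953e

open Polynomial

variable {k Ω : Type*} [NontriviallyNormedField k] [IsAlgClosed k] [NormedField Ω]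
  [IsUltrametricDist Ω] [NormedAlgebra k Ω]

theorem mem_kr {x : Ω} : x ∈ kr k Ω ↔ ∃ c : k, algebraMap k Ω c = x := by
  exact RingHom.mem_fieldRange

/-- `k` is algebraically closed, so its image is (ring isomorphism `k ≃ kr k Ω`,
`IsAlgClosed.of_ringEquiv`). -/
theorem isAlgClosed_kr : IsAlgClosed (kr k Ω) := by
  let f : k →+* kr k Ω := (algebraMap k Ω).rangeRestrictField
  have hf : Function.Bijective f := by
    refine ⟨f.injective, ?_⟩
    rintro ⟨x, hx⟩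
    obtain ⟨c, hc⟩ := mem_kr.1 hx
    exact ⟨c, Subtype.ext hc⟩
  let e : k ≃+* kr k Ω := RingEquiv.ofBijective f hf
  refine IsAlgClosed.of_exists_root _ fun p hmp hp => ?_
  have hpe : degree (p.map e.symm.toRingHom) ≠ 0 := by
    rw [degree_map]
    exact (degree_pos_of_irreducible hp).ne'
  obtain ⟨x, hx⟩ := IsAlgClosed.exists_root (p.map e.symm.toRingHom) hpe
  refine ⟨e x, ?_⟩
  have h1 : (p.map e.symm.toRingHom).eval x = e.symm (p.eval (e x)) := by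
    rw [eval_map, ← e.symm_apply_apply x, RingEquiv.apply_symm_apply e,
      RingEquiv.toRingHom_eq_coe]
    exact eval₂_at_apply (e.symm : kr k Ω →+* k) (e x)
  rw [IsRoot, h1] at hx
  exact e.symm.injective (by rw [hx, map_zero])

theorem immAll_kr (him : Imk k Ω) : ImmAll (kr k Ω) := by
  intro x hx
  obtain ⟨c, hc⟩ := him x hx
  exact ⟨algebraMap k Ω c, mem_kr.2 ⟨c, rfl⟩, hc⟩

/-- `tt_of_immAll`. -/
theorem tt_kr (him : Imk k Ω) {ϑ : Ω} (h : 0 < rr k ϑ) : TT (kr k Ω) ϑ := by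
  exact tt_of_immAll isAlgClosed_kr (immAll_kr him) h

theorem coeffs_kr (B : Polynomial k) : Coeffs (kr k Ω) (B.map (algebraMap k Ω)) := by
  intro i
  rw [coeff_map]
  exact mem_kr.2 ⟨_, rfl⟩

theorem hd_eq (ϑ : Ω) (B : Polynomial k) (j : ℕ) :
    hd k ϑ B j = (hasseDeriv j (B.map (algebraMap k Ω))).eval ϑ := by
  have h : hasseDeriv j (B.map (algebraMap k Ω)) = (hasseDeriv j B).map (algebraMap k Ω) := by
    ext n
    rw [hasseDeriv_coeff, coeff_map, coeff_map, hasseDeriv_coeff, map_mul, map_natCast]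
  rw [h, eval_map, ← aeval_def]
  rfl

theorem hd_zero (ϑ : Ω) (B : Polynomial k) : hd k ϑ B 0 = aeval ϑ B := by
  unfold hd
  rw [hasseDeriv_zero']

theorem hd_add (ϑ : Ω) (B B' : Polynomial k) (j : ℕ) :
    hd k ϑ (B + B') j = hd k ϑ B j + hd k ϑ B' j := by
  unfold hd
  rw [map_add, map_add]

theorem hd_sub (ϑ : Ω) (B B' : Polynomial k) (j : ℕ) :
    hd k ϑ (B - B') j = hd k ϑ B j - hd k ϑ B' j := by
  unfold hd
  rw [map_sub, map_sub]

theorem hd_C (ϑ : Ω) (c : k) {j : ℕ} (hj : 1 ≤ j) : hd k ϑ (C c) j = 0 := by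
  unfold hd
  rw [hasseDeriv_C _ _ hj, map_zero]

theorem hd_of_natDegree_lt (ϑ : Ω) {B : Polynomial k} {j : ℕ} (hj : B.natDegree < j) :
    hd k ϑ B j = 0 := by
  unfold hd
  rw [hasseDeriv_eq_zero_of_lt_natDegree _ _ hj, map_zero]

theorem rr_le (x : Ω) (c : k) : rr k x ≤ ‖x - algebraMap k Ω c‖ := by
  have h := Metric.infDist_le_dist_of_mem (x := x) (s := (kr k Ω : Set Ω))
    (y := algebraMap k Ω c) (mem_kr.2 ⟨c, rfl⟩)
  rwa [dist_eq_norm] at h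

theorem rr_le_norm (x : Ω) : rr k x ≤ ‖x‖ := by
  have h := rr_le (k := k) x 0
  rwa [map_zero, sub_zero] at h

theorem rr_nonneg (x : Ω) : 0 ≤ rr k x := by
  exact Metric.infDist_nonneg

/-- translation by a constant -/
theorem rr_add_const (x : Ω) (c : k) : rr k (x + algebraMap k Ω c) = rr k x := by
  have key : ∀ (y : Ω) (d : k), rr k (y + algebraMap k Ω d) ≤ rr k y := by
    intro y d
    refine (Metric.le_infDist ⟨0, (kr k Ω).zero_mem⟩).2 fun z hz => ?_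
    obtain ⟨e, rfl⟩ := mem_kr.1 hz
    rw [dist_eq_norm]
    have h := rr_le (k := k) (y + algebraMap k Ω d) (e + d)
    rwa [map_add, add_sub_add_right_eq_sub] at h
  refine le_antisymm (key x c) ?_
  have h := key (x + algebraMap k Ω c) (-c)
  rwa [map_neg, add_neg_cancel_right] at h

/-- elements of `k` close to `x` -/
theorem exists_lt_of_rr_lt {x : Ω} {R : ℝ} (hR : rr k x < R) :
    ∃ c : k, ‖x - algebraMap k Ω c‖ < R := by
  obtain ⟨y, hy, hd⟩ := (Metric.infDist_lt_iff ⟨0, (kr k Ω).zero_mem⟩).1 hR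
  obtain ⟨c, rfl⟩ := mem_kr.1 hy
  rw [dist_eq_norm] at hd
  exact ⟨c, hd⟩

theorem rr_lt (him : Imk k Ω) {ϑ : Ω} (h : 0 < rr k ϑ) (a : k) :
    rr k ϑ < ‖ϑ - algebraMap k Ω a‖ := by
  exact (tt_kr him h).nb _ (isAlgebraic_algebraMap
    (⟨algebraMap k Ω a, mem_kr.2 ⟨a, rfl⟩⟩ : kr k Ω))

/-- the distance changes little: if `‖x - x'‖ < rr k x` then `rr k x' = rr k x` -/
theorem rr_congr {x x' : Ω} (h : ‖x - x'‖ < rr k x) : rr k x' = rr k x := by
  have hn : ∀ c : k, ‖x' - algebraMap k Ω c‖ = ‖x - algebraMap k Ω c‖ := by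
    intro c
    have h1 : ‖x - x'‖ < ‖x - algebraMap k Ω c‖ := h.trans_le (rr_le x c)
    have h2 : x' - algebraMap k Ω c = (x - algebraMap k Ω c) + -(x - x') := by ring
    rw [h2, IsUltrametricDist.norm_add_eq_max_of_norm_ne_norm (by rw [norm_neg]; exact h1.ne'),
      norm_neg, max_eq_left h1.le]
  refine le_antisymm ?_ ?_
  · refine (Metric.le_infDist ⟨0, (kr k Ω).zero_mem⟩).2 fun z hz => ?_
    obtain ⟨e, rfl⟩ := mem_kr.1 hz
    rw [dist_eq_norm, ← hn e]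
    exact rr_le x' e
  · refine (Metric.le_infDist ⟨0, (kr k Ω).zero_mem⟩).2 fun z hz => ?_
    obtain ⟨e, rfl⟩ := mem_kr.1 hz
    rw [dist_eq_norm, hn e]
    exact rr_le x e

/-- `TT.unif`. -/
theorem exists_unif [IsAlgClosed Ω] (him : Imk k Ω) {ϑ : Ω} (h : 0 < rr k ϑ) (B : Polynomial k) :
    ∃ R > rr k ϑ, ∀ j, ‖hd k ϑ B j‖ * R ^ j ≤ ‖aeval ϑ B‖ := by
  obtain ⟨R, hR, hu⟩ := (tt_kr him h).unif (coeffs_kr B)
  refine ⟨R, hR, fun j => ?_⟩
  have := hu j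
  rwa [← hd_eq, eval_map, ← aeval_def] at this

theorem hd_le [IsAlgClosed Ω] (him : Imk k Ω) {ϑ : Ω} (h : 0 < rr k ϑ) (B : Polynomial k) (j : ℕ) :
    ‖hd k ϑ B j‖ * rr k ϑ ^ j ≤ ‖aeval ϑ B‖ := by
  obtain ⟨R, hR, hu⟩ := exists_unif him h B
  refine le_trans ?_ (hu j)
  exact mul_le_mul_of_nonneg_left (pow_le_pow_left₀ h.le hR.le j) (norm_nonneg _)

theorem hd_lt [IsAlgClosed Ω] (him : Imk k Ω) {ϑ : Ω} (h : 0 < rr k ϑ) (B : Polynomial k) {j : ℕ}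
    (hj : 1 ≤ j) (hne : hd k ϑ B j ≠ 0) : ‖hd k ϑ B j‖ * rr k ϑ ^ j < ‖aeval ϑ B‖ := by
  obtain ⟨R, hR, hu⟩ := exists_unif him h B
  refine lt_of_lt_of_le ?_ (hu j)
  exact mul_lt_mul_of_pos_left (pow_lt_pow_left₀ hR h.le (by omega)) (norm_pos_iff.2 hne)

/-- isometry: `‖B ϑ'‖ = ‖B ϑ‖` for `‖ϑ' - ϑ‖ ≤ rr k ϑ` (`TT.ec`) -/
theorem norm_aeval_eq [IsAlgClosed Ω] (him : Imk k Ω) {ϑ ϑ' : Ω} (h : 0 < rr k ϑ)
    (h' : ‖ϑ' - ϑ‖ ≤ rr k ϑ) (B : Polynomial k) : ‖aeval ϑ' B‖ = ‖aeval ϑ B‖ := by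
  obtain ⟨ρ, hρ, he⟩ := (tt_kr him h).ec (coeffs_kr B)
  have h1 := he ϑ' (by rw [norm_sub_rev]; exact h'.trans_lt hρ)
  rwa [eval_map, eval_map, ← aeval_def, ← aeval_def] at h1

/-- `‖B a‖ = ‖B ϑ‖` for `a` close to `ϑ` (`TT.ec`), and the Taylor coefficients at `a ∈ k`: for `a` close
to `ϑ`, `‖(hasseDeriv j B) a‖ * ‖ϑ - a‖ ^ j ≤ ‖B ϑ‖`. Proof: `TT.ec` for all `hasseDeriv j B`, `j ≤ natDegree`,
and `exists_unif`. -/
theorem exists_near_unif [IsAlgClosed Ω] (him : Imk k Ω) {ϑ : Ω} (h : 0 < rr k ϑ)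
    (B : Polynomial k) :
    ∃ R > rr k ϑ, ∀ a : k, ‖ϑ - algebraMap k Ω a‖ < R →
      ∀ j, ‖(hasseDeriv j B).eval a‖ * ‖ϑ - algebraMap k Ω a‖ ^ j ≤ ‖aeval ϑ B‖ := by
  obtain ⟨R, hR, hu⟩ := exists_unif him h B
  -- common radius for the derivatives
  have hN : ∀ N : ℕ, ∃ ρ > rr k ϑ, ∀ a : k, ‖ϑ - algebraMap k Ω a‖ < ρ → ∀ j < N,
      ‖(hasseDeriv j B).eval a‖ = ‖hd k ϑ B j‖ := by
    intro N
    induction N with
    | zero => exact ⟨rr k ϑ + 1, by linarith, fun a _ j hj => absurd hj (Nat.not_lt_zero j)⟩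
    | succ N ih =>
      obtain ⟨ρ, hρ, he⟩ := ih
      obtain ⟨ρ', hρ', he'⟩ := (tt_kr him h).ec (coeffs_kr (hasseDeriv N B))
      refine ⟨min ρ ρ', lt_min hρ hρ', fun a ha j hj => ?_⟩
      rcases Nat.lt_succ_iff_lt_or_eq.1 hj with h1 | h1
      · exact he a (ha.trans_le (min_le_left _ _)) j h1
      · subst h1
        have h2 := he' (algebraMap k Ω a) (ha.trans_le (min_le_right _ _))
        rw [eval_map, eval_map, ← aeval_def, ← aeval_def, aeval_algebraMap_apply,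
          norm_algebraMap'] at h2
        rw [coe_aeval_eq_eval] at h2
        exact h2
  obtain ⟨ρ, hρ, he⟩ := hN (B.natDegree + 1)
  refine ⟨min R ρ, lt_min hR hρ, fun a ha j => ?_⟩
  by_cases hj : j < B.natDegree + 1
  · rw [he a (ha.trans_le (min_le_right _ _)) j hj]
    refine le_trans ?_ (hu j)
    exact mul_le_mul_of_nonneg_left
      (pow_le_pow_left₀ (norm_nonneg _) (ha.trans_le (min_le_left _ _)).le j) (norm_nonneg _)
  · rw [hasseDeriv_eq_zero_of_lt_natDegree _ _ (by omega), eval_zero, norm_zero, zero_mul]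
    exact norm_nonneg _

end MP1a953e
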