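import Pool.Agent.Lib.MP_1a953e_ag.PlDefs

/-!
# Module PlTop: the largest dominating index (pure polynomial algebra)
-/

namespace MP1a953e

open Polynomial

variable {Ω : Type*} [NormedField Ω] [IsUltrametricDist Ω]

private theorem pltop_sum_lt {ι : Type*} (s : Finset ι) (f : ι → Ω) {c : ℝ} (hc : 0 < c)
    (h : ∀ i ∈ s, ‖f i‖ < c) : ‖∑ i ∈ s, f i‖ < c := by
  classical
  induction s using Finset.induction_on with
  | empty => simpa using hc
  | insert a s ha ih =>
    rw [Finset.sum_insert ha]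
    refine (IsUltrametricDist.norm_add_le_max _ _).trans_lt (max_lt (h a (Finset.mem_insert_self a s)) ?_)
    exact ih fun i hi => h i (Finset.mem_insert_of_mem hi)

private theorem pltop_sum_eq {ι : Type*} (s : Finset ι) (f : ι → Ω) {c : ℝ} (hc : 0 < c) {i₀ : ι}
    (hi : i₀ ∈ s) (h0 : ‖f i₀‖ = c) (h : ∀ i ∈ s, i ≠ i₀ → ‖f i‖ < c) : ‖∑ i ∈ s, f i‖ = c := by
  classical
  rw [← Finset.add_sum_erase s f hi]
  have h1 : ‖∑ i ∈ s.erase i₀, f i‖ < c :=
    pltop_sum_lt _ _ hc fun i hi' => h i (Finset.mem_of_mem_erase hi') (Finset.ne_of_mem_erase hi')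
  rw [IsUltrametricDist.norm_add_eq_max_of_norm_ne_norm (by rw [h0]; exact h1.ne'), h0,
    max_eq_left h1.le]

private theorem pltop_term {H G : Polynomial Ω} {r : ℝ} {i j n : ℕ} (h : i + j = n) :
    ‖H.coeff i * G.coeff j‖ * r ^ n = (‖H.coeff i‖ * r ^ i) * (‖G.coeff j‖ * r ^ j) := by
  rw [← h, norm_mul, pow_add]
  ring

/-- PT1.  `Top` of a product.  Proof: `(H * G).coeff n = ∑ H.coeff i * G.coeff j` (`i + j = n`, `Finset.antidiagonal`). Each
term times `r ^ n` is `≤ A * B`; if `n > t + s` then `i > t` or `j > s`, so it is `< A * B`; if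
`n = t + s` all terms except `(t, s)` are `< A * B` and that one is `= A * B`, so the sum has norm
exactly `A * B` (ultrametric: a sum of one term of norm `c` and terms of norm `< c` has norm `c`). -/
theorem Top.mul {H G : Polynomial Ω} {r : ℝ} (hr : 0 < r) {t s : ℕ} {A B : ℝ} (hH : Top H r t A)
    (hG : Top G r s B) : Top (H * G) r (t + s) (A * B) := by
  have hA := hH.pos
  have hB := hG.pos
  have hAB : 0 < A * B := mul_pos hA hB
  have hrn : ∀ n : ℕ, 0 < r ^ n := fun n => pow_pos hr n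
  have hnn : ∀ (P : Polynomial Ω) (i : ℕ), 0 ≤ ‖P.coeff i‖ * r ^ i :=
    fun P i => mul_nonneg (norm_nonneg _) (hrn i).le
  have hlt : ∀ i j, (t < i ∨ s < j) →
      (‖H.coeff i‖ * r ^ i) * (‖G.coeff j‖ * r ^ j) < A * B := by
    intro i j hij
    rcases hij with h | h
    · exact (mul_le_mul_of_nonneg_left (hG.le j) (hnn H i)).trans_lt
        (mul_lt_mul_of_pos_right (hH.lt i h) hB)
    · exact (mul_le_mul_of_nonneg_right (hH.le i) (hnn G j)).trans_lt
        (mul_lt_mul_of_pos_left (hG.lt j h) hA)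
  refine ⟨hAB, ?_, fun n => ?_, fun n hn => ?_⟩
  · rw [coeff_mul, ← eq_div_iff (hrn _).ne']
    refine pltop_sum_eq _ _ (div_pos hAB (hrn _)) (i₀ := (t, s))
      (Finset.HasAntidiagonal.mem_antidiagonal.2 rfl) ?_ ?_
    · rw [eq_div_iff (hrn _).ne', pltop_term rfl, hH.eq, hG.eq]
    · rintro ⟨i, j⟩ hij hne
      rw [Finset.HasAntidiagonal.mem_antidiagonal] at hij
      rw [lt_div_iff₀ (hrn _), pltop_term hij]
      apply hlt
      by_contra hc
      push Not at hc
      have h1 : i = t := by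
        have := hij
        simp only at this
        omega
      have h2 : j = s := by
        have := hij
        simp only at this
        omega
      exact hne (by rw [h1, h2])
  · rw [coeff_mul, ← le_div_iff₀ (hrn _)]
    refine IsUltrametricDist.norm_sum_le_of_forall_le_of_nonneg (div_pos hAB (hrn _)).le ?_
    rintro ⟨i, j⟩ hij
    rw [Finset.HasAntidiagonal.mem_antidiagonal] at hij
    rw [le_div_iff₀ (hrn _), pltop_term hij]
    exact mul_le_mul (hH.le i) (hG.le j) (hnn G j) hA.le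
  · rw [coeff_mul, ← lt_div_iff₀ (hrn _)]
    refine pltop_sum_lt _ _ (div_pos hAB (hrn _)) ?_
    rintro ⟨i, j⟩ hij
    rw [Finset.HasAntidiagonal.mem_antidiagonal] at hij
    rw [lt_div_iff₀ (hrn _), pltop_term hij]
    apply hlt
    simp only at hij
    omega

/-- PT2.  Powers (induction with `Top.mul`; `Top 1 r 0 1`). -/
theorem Top.pow {H : Polynomial Ω} {r : ℝ} (hr : 0 < r) {t : ℕ} {A : ℝ} (hH : Top H r t A)
    (n : ℕ) : Top (H ^ n) r (n * t) (A ^ n) := by
  induction n with
  | zero =>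
    rw [pow_zero, pow_zero, Nat.zero_mul]
    refine ⟨one_pos, ?_, fun j => ?_, fun j hj => ?_⟩
    · rw [coeff_one_zero, norm_one, pow_zero, one_mul]
    · rw [coeff_one]
      split_ifs with h
      · rw [h, norm_one, pow_zero, one_mul]
      · rw [norm_zero, zero_mul]; exact zero_le_one
    · rw [coeff_one, if_neg (by omega), norm_zero, zero_mul]
      exact one_pos
  | succ n ih =>
    rw [pow_succ, pow_succ, Nat.succ_mul]
    exact Top.mul hr ih hH

/-- PT3.  Composition.  Proof: `G.comp H = ∑ C (G.coeff m) * H ^ m`. The term `m` has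
`‖G.coeff m * (H ^ m).coeff n‖ * r ^ n ≤ ‖G.coeff m‖ * A ^ m ≤ B` for all `n`. For `n = s * t` the
term `m = s` has exactly the norm `B`; the terms `m < s` are `< B` (then `n > m * t` by `1 ≤ t`: if
`G.coeff m = 0` the term is `0 < B`, otherwise it is `< ‖G.coeff m‖ * A ^ m ≤ B`), the terms `m > s` are
`≤ ‖G.coeff m‖ * A ^ m < B`. For `n > s * t` all terms are `< B`. -/
theorem Top.comp {H G : Polynomial Ω} {r : ℝ} (hr : 0 < r) {t s : ℕ} (ht : 1 ≤ t) {A B : ℝ}
    (hH : Top H r t A) (hG : Top G A s B) : Top (G.comp H) r (s * t) B := by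
  have hA := hH.pos
  have hB := hG.pos
  have hrn : ∀ n : ℕ, 0 < r ^ n := fun n => pow_pos hr n
  have hc : ∀ n, (G.comp H).coeff n =
      ∑ m ∈ Finset.range (G.natDegree + 1), G.coeff m * (H ^ m).coeff n := by
    intro n
    rw [Polynomial.comp, eval₂_eq_sum_range, finsetSum_coeff]
    exact Finset.sum_congr rfl fun m _ => by rw [coeff_C_mul]
  have hterm : ∀ m n, ‖G.coeff m * (H ^ m).coeff n‖ * r ^ n =
      ‖G.coeff m‖ * (‖(H ^ m).coeff n‖ * r ^ n) := by
    intro m n; rw [norm_mul, mul_assoc]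
  have hle : ∀ m n, ‖G.coeff m * (H ^ m).coeff n‖ * r ^ n ≤ ‖G.coeff m‖ * A ^ m := by
    intro m n
    rw [hterm]
    exact mul_le_mul_of_nonneg_left ((Top.pow hr hH m).le n) (norm_nonneg _)
  have hlt : ∀ m n, s * t < n ∨ (s * t = n ∧ m ≠ s) →
      ‖G.coeff m * (H ^ m).coeff n‖ * r ^ n < B := by
    intro m n hn
    by_cases hms : s < m
    · exact (hle m n).trans_lt (hG.lt m hms)
    · by_cases hG0 : G.coeff m = 0
      · rw [hG0, zero_mul, norm_zero, zero_mul]; exact hB
      · have h1 : m * t < n := by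
          rcases hn with h | ⟨h, h'⟩
          · exact (Nat.mul_le_mul_right t (not_lt.1 hms)).trans_lt h
          · rw [← h]
            exact Nat.mul_lt_mul_of_pos_right (by omega) ht
        rw [hterm]
        exact (mul_lt_mul_of_pos_left ((Top.pow hr hH m).lt n h1) (norm_pos_iff.2 hG0)).trans_le
          (hG.le m)
  have hs : s ∈ Finset.range (G.natDegree + 1) := by
    rw [Finset.mem_range]
    by_contra hcon
    have h0 : G.coeff s = 0 := coeff_eq_zero_of_natDegree_lt (by omega)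
    have h1 := hG.eq
    rw [h0, norm_zero, zero_mul] at h1
    exact hB.ne h1
  refine ⟨hB, ?_, fun n => ?_, fun n hn => ?_⟩
  · rw [hc, ← eq_div_iff (hrn _).ne']
    refine pltop_sum_eq _ _ (div_pos hB (hrn _)) hs ?_ ?_
    · rw [eq_div_iff (hrn _).ne', hterm, (Top.pow hr hH s).eq, hG.eq]
    · intro m _ hne
      rw [lt_div_iff₀ (hrn _)]
      exact hlt m _ (Or.inr ⟨rfl, hne⟩)
  · rw [hc, ← le_div_iff₀ (hrn _)]
    refine IsUltrametricDist.norm_sum_le_of_forall_le_of_nonneg (div_pos hB (hrn _)).le ?_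
    intro m _
    rw [le_div_iff₀ (hrn _)]
    exact (hle m n).trans (hG.le m)
  · rw [hc, ← lt_div_iff₀ (hrn _)]
    refine pltop_sum_lt _ _ (div_pos hB (hrn _)) ?_
    intro m _
    rw [lt_div_iff₀ (hrn _)]
    exact hlt m n (Or.inl hn)

end MP1a953e
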