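import Pool.Agent.Lib.MP_1a953e_ag.Sem1
import Pool.Agent.Lib.MP_1a953e_ag.WB2

/-!
# Module Sem2: finite dimensional stable spaces of semilinear operators
-/

namespace MP1a953e

open MvPolynomial

variable {Ω : Type*} [NormedField Ω]

/-- the exponents of all monomials of `P` are at most `N` -/
private def Sem2_BD {n : ℕ} (P : MvPolynomial (Fin n) Ω) (N : ℕ) : Prop :=
  ∀ a : Fin n →₀ ℕ, P.coeff a ≠ 0 → ∀ i, a i ≤ N

private theorem Sem2_BD_mono {n : ℕ} {P : MvPolynomial (Fin n) Ω} {M N : ℕ} (h : Sem2_BD P M)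
    (hMN : M ≤ N) : Sem2_BD P N := fun a ha i => (h a ha i).trans hMN

private theorem Sem2_BD_exists {n : ℕ} (P : MvPolynomial (Fin n) Ω) : ∃ N, Sem2_BD P N := by
  refine ⟨P.support.sup fun a => ∑ i, a i, fun a ha i => ?_⟩
  have h1 : a i ≤ ∑ j, a j := Finset.single_le_sum (f := fun j => a j)
    (fun _ _ => Nat.zero_le _) (Finset.mem_univ i)
  exact h1.trans (Finset.le_sup (f := fun a : Fin n →₀ ℕ => ∑ i, a i) (mem_support_iff.2 ha))

private theorem Sem2_BD_mul {n : ℕ} {P Q : MvPolynomial (Fin n) Ω} {M N : ℕ}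
    (hP : Sem2_BD P M) (hQ : Sem2_BD Q N) : Sem2_BD (P * Q) (M + N) := by
  classical
  intro a ha i
  rw [coeff_mul] at ha
  obtain ⟨r, hr, hr0⟩ := Finset.exists_ne_zero_of_sum_ne_zero ha
  have h1 := hP r.1 (left_ne_zero_of_mul hr0) i
  have h2 := hQ r.2 (right_ne_zero_of_mul hr0) i
  rw [← Finset.HasAntidiagonal.mem_antidiagonal.1 hr, Finsupp.add_apply]
  exact add_le_add h1 h2

private theorem Sem2_BD_one {n : ℕ} : Sem2_BD (1 : MvPolynomial (Fin n) Ω) 0 := by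
  classical
  intro a ha i
  rw [coeff_one] at ha
  by_cases h : (0 : Fin n →₀ ℕ) = a
  · rw [← h]; exact le_rfl
  · rw [if_neg h] at ha
    exact absurd rfl ha

private theorem Sem2_BD_pow {n : ℕ} {P : MvPolynomial (Fin n) Ω} {M : ℕ}
    (hP : Sem2_BD P M) (r : ℕ) : Sem2_BD (P ^ r) (r * M) := by
  induction r with
  | zero =>
    rw [pow_zero, zero_mul]
    exact Sem2_BD_one
  | succ r ih =>
    rw [pow_succ, Nat.succ_mul]
    exact Sem2_BD_mul ih hP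

private theorem Sem2_BD_sum {n : ℕ} {κ : Type*} (S : Finset κ) (P : κ → MvPolynomial (Fin n) Ω)
    {M : ℕ} (hP : ∀ i ∈ S, Sem2_BD (P i) M) : Sem2_BD (∑ i ∈ S, P i) M := by
  classical
  intro a ha i
  rw [coeff_sum] at ha
  obtain ⟨r, hr, hr0⟩ := Finset.exists_ne_zero_of_sum_ne_zero ha
  exact hP r hr a hr0 i

private theorem Sem2_BD_monomial {n : ℕ} (a : Fin n →₀ ℕ) (c : Ω) {M : ℕ}
    (ha : ∀ i, a i ≤ M) : Sem2_BD (monomial a c) M := by
  classical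
  intro b hb i
  rw [coeff_monomial] at hb
  by_cases h : a = b
  · rw [← h]; exact ha i
  · rw [if_neg h] at hb
    exact absurd rfl hb

private theorem Sem2_MC_monomial {k : Subfield Ω} {n : ℕ} (a : Fin n →₀ ℕ) {c : Ω}
    (hc : c ∈ k) : MC k (monomial a c) := by
  classical
  intro b
  rw [coeff_monomial]
  split_ifs
  · exact hc
  · exact zero_mem _

private theorem Sem2_WB_monomial {n : ℕ} (s : Fin n → Ω) (a : Fin n →₀ ℕ) (c : Ω) :
    WB s (monomial a c) (‖c‖ * ∏ i, ‖s i‖ ^ a i) := by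
  classical
  intro b
  rw [coeff_monomial]
  by_cases h : a = b
  · rw [if_pos h, h]
  · rw [if_neg h, norm_zero, zero_mul]
    exact mul_nonneg (norm_nonneg _) (Finset.prod_nonneg fun i _ => pow_nonneg (norm_nonneg _) _)

/-- the monomial `s ^ a` -/
private def Sem2_mon {n : ℕ} (s : Fin n → Ω) (a : Fin n →₀ ℕ) : Ω := ∏ i, s i ^ a i

private theorem Sem2_mon_norm {n : ℕ} (s : Fin n → Ω) (a : Fin n →₀ ℕ) :
    ‖Sem2_mon s a‖ = ∏ i, ‖s i‖ ^ a i := by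
  unfold Sem2_mon
  rw [norm_prod]
  exact Finset.prod_congr rfl fun i _ => norm_pow _ _

private theorem Sem2_mon_mem {n : ℕ} {F : Subfield Ω} {s : Fin n → Ω} (hs : ∀ i, s i ∈ F)
    (a : Fin n →₀ ℕ) : Sem2_mon s a ∈ F := prod_mem fun i _ => pow_mem (hs i) _

private theorem Sem2_eval_monomial {n : ℕ} (s : Fin n → Ω) (a : Fin n →₀ ℕ) (c : Ω) :
    eval s (monomial a c) = c * Sem2_mon s a := by
  rw [eval_monomial, Finsupp.prod_fintype _ _ fun i => pow_zero _]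
  rfl

private theorem Sem2_eval {n : ℕ} (s : Fin n → Ω) (P : MvPolynomial (Fin n) Ω) :
    eval s P = ∑ a ∈ P.support, P.coeff a * Sem2_mon s a := eval_eq' s P

private theorem Sem2_eval_box {n : ℕ} (s : Fin n → Ω) (P : MvPolynomial (Fin n) Ω)
    (S : Finset (Fin n →₀ ℕ)) (hS : ∀ a, P.coeff a ≠ 0 → a ∈ S) :
    eval s P = ∑ a ∈ S, P.coeff a * Sem2_mon s a := by
  rw [Sem2_eval]
  refine Finset.sum_subset (fun a ha => hS a (mem_support_iff.1 ha)) fun a _ ha => ?_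
  rw [notMem_support_iff.1 ha, zero_mul]

/-- the quotient of the exponents by `q` -/
private noncomputable def Sem2_quo {n : ℕ} (q : ℕ) (b : Fin n →₀ ℕ) : Fin n →₀ ℕ :=
  b.mapRange (fun x => x / q) (Nat.zero_div q)

/-- the remainder of the exponents modulo `q` -/
private def Sem2_rem {n : ℕ} {q : ℕ} (hq : 0 < q) (b : Fin n →₀ ℕ) : Fin n → Fin q :=
  fun i => ⟨b i % q, Nat.mod_lt _ hq⟩

private theorem Sem2_split {n : ℕ} (s : Fin n → Ω) {q : ℕ} (hq : 0 < q) (b : Fin n →₀ ℕ) :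
    Sem2_mon s b = Sem2_mon s (Sem2_quo q b) ^ q * ∏ i, s i ^ (Sem2_rem hq b i : ℕ) := by
  unfold Sem2_mon
  rw [← Finset.prod_pow, ← Finset.prod_mul_distrib]
  refine Finset.prod_congr rfl fun i _ => ?_
  rw [← pow_mul, ← pow_add]
  congr 1
  change b i = b i / q * q + b i % q
  exact (Nat.div_add_mod' _ _).symm

private theorem Sem2_add [IsUltrametricDist Ω] {q : ℕ} {a b : Ω} {C : ℝ} (ha : ‖a‖ ^ q ≤ C)
    (hb : ‖b‖ ^ q ≤ C) : ‖a + b‖ ^ q ≤ C := by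
  have h := IsUltrametricDist.norm_add_le_max a b
  rcases le_total ‖a‖ ‖b‖ with h' | h'
  · rw [max_eq_right h'] at h
    exact (pow_le_pow_left₀ (norm_nonneg _) h q).trans hb
  · rw [max_eq_left h'] at h
    exact (pow_le_pow_left₀ (norm_nonneg _) h q).trans ha

private theorem Sem2_sum [IsUltrametricDist Ω] {ι : Type*} (S : Finset ι) (f : ι → Ω) {C : ℝ}
    {q : ℕ} (hq : q ≠ 0) (hC : 0 ≤ C) (hf : ∀ i ∈ S, ‖f i‖ ^ q ≤ C) :
    ‖∑ i ∈ S, f i‖ ^ q ≤ C := by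
  rcases S.eq_empty_or_nonempty with rfl | hS
  · rw [Finset.sum_empty, norm_zero, zero_pow hq]
    exact hC
  · obtain ⟨i, hi, hi'⟩ := IsUltrametricDist.exists_norm_finsetSum_le_of_nonempty hS f
    exact (pow_le_pow_left₀ (norm_nonneg _) hi' q).trans (hf i hi)

private theorem Sem2_row [IsUltrametricDist Ω] {p : ℕ} [Fact p.Prime] {k F F' : Subfield Ω}
    {n : ℕ} {s : Fin n → Ω} (hk : IsAlgClosed k) (hkF : k ≤ F) (hs : ∀ i, s i ∈ F) {d : ℕ}
    {θ : Fin (d + 1) → Ω} (hFF : F ≤ F') (hθ : ∀ l, θ l ∈ F') {t : ℕ} (ht : 1 ≤ t) {T : Ω → Ω}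
    {δ δ' : ℝ} (hδ : 0 < δ) (hδ1 : δ < 1) (hδ'0 : 0 < δ') (hδδ : δ' ≤ δ)
    (hT : SemiOp p F F' t δ T) {g : MvPolynomial (Fin n) Ω} (hg : MC k g) (hgW : WB s g 1)
    (hgn : ‖eval s g‖ = 1) {q : ℕ} (hqe : p ^ t = q) (hq : 0 < q)
    (x : (Fin n → Fin q) → Fin (d + 1) → Fin (d + 1) → Ω)
    (P : (Fin n → Fin q) → Fin (d + 1) → Fin (d + 1) → MvPolynomial (Fin n) Ω)
    (hP : ∀ b l j, MC k (P b l j)) (hPW : ∀ b l j, WB s (P b l j) ‖x b l j‖)
    (hPx : ∀ b l j, ‖x b l j - eval s (P b l j) / eval s g‖ ≤ δ' * ‖x b l j‖)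
    (hxT : ∀ b l, T ((∏ i, s i ^ (b i : ℕ)) * θ l) = ∑ j, x b l j * θ j)
    (hxn : ∀ b l j, ‖x b l j * θ j‖ ≤ ‖T ((∏ i, s i ^ (b i : ℕ)) * θ l)‖) {D c N : ℕ}
    (hD : Sem2_BD g D) (hc : ∀ b l j, Sem2_BD (P b l j) c) (hN : N = 2 * (D + c))
    (a : Fin n →₀ ℕ) (ha : ∀ i, a i ≤ N) (l : Fin (d + 1)) :
    ∃ R : Fin (d + 1) → MvPolynomial (Fin n) Ω, (∀ j, MC k (R j)) ∧ (∀ j, Sem2_BD (R j) N) ∧
      (∀ j a', ‖(R j).coeff a' * (Sem2_mon s a' * θ j / eval s g ^ 2)‖ ^ q ≤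
        ‖Sem2_mon s a * θ l / eval s g ^ 2‖) ∧
      ∀ z ∈ k, ‖T (z ^ q * (Sem2_mon s a * θ l / eval s g ^ 2)) -
        z * ∑ j, eval s (R j) * θ j / eval s g ^ 2‖ ^ q ≤
          δ * ‖z ^ q * (Sem2_mon s a * θ l / eval s g ^ 2)‖ := by
  classical
  have hp : 1 < p := (Fact.out : p.Prime).one_lt
  have hq2 : 2 ≤ q := by
    rw [← hqe]
    exact Nat.one_lt_pow (by omega) hp
  have hqne : q ≠ 0 := by omega
  have hTn : ∀ y ∈ F', ‖T y‖ ^ q ≤ ‖y‖ := by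
    rw [← hqe]
    exact hT.norm
  have hTl : ∀ y ∈ F, ∀ x ∈ F', ‖T (y ^ q * x) - y * T x‖ ^ q ≤ δ * ‖y ^ q * x‖ := by
    rw [← hqe]
    exact hT.lin
  have hTs : ∀ (S : Finset (Fin n →₀ ℕ)) (x : (Fin n →₀ ℕ) → Ω), (∀ i ∈ S, x i ∈ F') →
      ∀ M : ℝ, 0 ≤ M → (∀ i ∈ S, ‖x i‖ ≤ M) →
      ‖T (∑ i ∈ S, x i) - ∑ i ∈ S, T (x i)‖ ^ q ≤ δ * M := by
    rw [← hqe]
    exact fun S x hx M hM hxM => hT.sum hδ.le S x hx hM hxM
  set G : Ω := eval s g with hG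
  have hG0 : G ≠ 0 := by
    intro h
    rw [h, norm_zero] at hgn
    exact zero_ne_one hgn
  have hGF : G ∈ F := MC.eval_mem hkF hs hg
  have hdiv : ∀ y : Ω, ‖y / G ^ 2‖ = ‖y‖ := fun y => by
    rw [norm_div, norm_pow, hgn, one_pow, div_one]
  set W : MvPolynomial (Fin n) Ω := monomial a 1 * g ^ (q - 2) with hW
  have hWM : MC k W := MC.mul (Sem2_MC_monomial a (one_mem k)) (MC.pow hg _)
  have hWW : ∀ b, ‖W.coeff b‖ * ‖Sem2_mon s b‖ ≤ ‖Sem2_mon s a‖ := by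
    intro b
    have h1 := WB.mul (A := ‖(1 : Ω)‖ * ∏ i, ‖s i‖ ^ a i) (B := 1)
      (mul_nonneg (norm_nonneg _) (Finset.prod_nonneg fun i _ => pow_nonneg (norm_nonneg _) _))
      (Sem2_WB_monomial s a 1) (WB.pow_one hgW (q - 2)) b
    rw [norm_one, one_mul, mul_one, ← Sem2_mon_norm, ← Sem2_mon_norm] at h1
    exact h1
  have hWD : ∀ b, W.coeff b ≠ 0 → ∀ i, b i ≤ N + (q - 2) * D :=
    Sem2_BD_mul (Sem2_BD_monomial a 1 ha) (Sem2_BD_pow hD (q - 2))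
  have hWe : eval s W = Sem2_mon s a * G ^ (q - 2) := by
    rw [hW, map_mul, Sem2_eval_monomial, one_mul, map_pow]
  have hroot : ∀ b, ∃ y ∈ k, y ^ q = W.coeff b := by
    intro b
    obtain ⟨z, hz⟩ := IsAlgClosed.exists_pow_nat_eq (⟨W.coeff b, hWM b⟩ : k) hq
    exact ⟨(z : Ω), z.2, congrArg Subtype.val hz⟩
  choose β hβk hβ using hroot
  set u : (Fin n →₀ ℕ) → Ω := fun b => β b * Sem2_mon s (Sem2_quo q b) with hu
  set y : (Fin n →₀ ℕ) → Ω := fun b => (∏ i, s i ^ (Sem2_rem hq b i : ℕ)) * θ l with hy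
  have huF : ∀ b, u b ∈ F := fun b => mul_mem (hkF (hβk b)) (Sem2_mon_mem hs _)
  have hyF : ∀ b, y b ∈ F' := fun b => mul_mem
    (prod_mem fun i _ => pow_mem (hFF (hs i)) _) (hθ l)
  have huy : ∀ b, u b ^ q * y b = W.coeff b * Sem2_mon s b * θ l := by
    intro b
    rw [Sem2_split s hq b, ← hβ b]
    simp only [hu, hy]
    ring
  have hterm : ∀ b, ‖u b ^ q * y b‖ ≤ ‖Sem2_mon s a * θ l‖ := by
    intro b
    rw [huy, norm_mul, norm_mul, norm_mul]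
    exact mul_le_mul_of_nonneg_right (hWW b) (norm_nonneg _)
  set R : Fin (d + 1) → MvPolynomial (Fin n) Ω := fun j =>
    ∑ b ∈ W.support, monomial (Sem2_quo q b) (β b) * P (Sem2_rem hq b) l j with hR
  refine ⟨R, fun j => ?_, fun j => ?_, fun j a' => ?_, fun z hz => ?_⟩
  · exact MC.sum _ fun b _ => MC.mul (Sem2_MC_monomial _ (hβk b)) (hP _ _ _)
  · refine Sem2_BD_sum _ _ fun b hb => ?_
    have h1 := hWD b (mem_support_iff.1 hb)
    have h2 : Sem2_BD (monomial (Sem2_quo q b) (β b)) (N - c) := by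
      refine Sem2_BD_monomial _ _ fun i => ?_
      change b i / q ≤ N - c
      refine Nat.div_le_of_le_mul ?_
      refine (h1 i).trans ?_
      obtain ⟨r, hr⟩ := Nat.exists_eq_add_of_le hq2
      rw [hr, hN]
      have e1 : 2 * (D + c) - c = 2 * D + c := by omega
      have e2 : 2 + r - 2 = r := by omega
      rw [e1, e2]
      nlinarith [Nat.zero_le (r * D), Nat.zero_le (r * c), Nat.zero_le D]
    have h3 := Sem2_BD_mul h2 (hc (Sem2_rem hq b) l j)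
    refine Sem2_BD_mono h3 ?_
    omega
  · rw [hR]
    simp only [coeff_sum]
    rw [Finset.sum_mul]
    refine Sem2_sum _ _ hqne (norm_nonneg _) fun b _ => ?_
    have h1 := WB.mul (A := ‖β b‖ * ∏ i, ‖s i‖ ^ (Sem2_quo q b) i)
      (mul_nonneg (norm_nonneg _) (Finset.prod_nonneg fun i _ => pow_nonneg (norm_nonneg _) _))
      (Sem2_WB_monomial s (Sem2_quo q b) (β b)) (hPW (Sem2_rem hq b) l j) a'
    rw [← Sem2_mon_norm, ← Sem2_mon_norm, ← norm_mul (β b), ← norm_mul, ← norm_mul] at h1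
    have h2 : ‖coeff a' (monomial (Sem2_quo q b) (β b) * P (Sem2_rem hq b) l j) *
        (Sem2_mon s a' * θ j / G ^ 2)‖ ≤ ‖u b‖ * ‖T (y b)‖ := by
      rw [← mul_div_assoc, hdiv, ← mul_assoc, norm_mul _ (θ j)]
      calc ‖coeff a' (monomial (Sem2_quo q b) (β b) * P (Sem2_rem hq b) l j) *
            Sem2_mon s a'‖ * ‖θ j‖
          ≤ ‖β b * Sem2_mon s (Sem2_quo q b) * x (Sem2_rem hq b) l j‖ * ‖θ j‖ :=
            mul_le_mul_of_nonneg_right h1 (norm_nonneg _)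
        _ = ‖u b‖ * ‖x (Sem2_rem hq b) l j * θ j‖ := by
            rw [norm_mul (β b * _), norm_mul (x _ _ _) (θ j), mul_assoc]
        _ ≤ ‖u b‖ * ‖T (y b)‖ :=
            mul_le_mul_of_nonneg_left (hxn _ _ _) (norm_nonneg _)
    calc ‖coeff a' (monomial (Sem2_quo q b) (β b) * P (Sem2_rem hq b) l j) *
          (Sem2_mon s a' * θ j / G ^ 2)‖ ^ q ≤ (‖u b‖ * ‖T (y b)‖) ^ q :=
          pow_le_pow_left₀ (norm_nonneg _) h2 q
      _ = ‖u b ^ q‖ * ‖T (y b)‖ ^ q := by rw [mul_pow, norm_pow]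
      _ ≤ ‖u b ^ q‖ * ‖y b‖ :=
          mul_le_mul_of_nonneg_left (hTn _ (hyF b)) (norm_nonneg _)
      _ = ‖u b ^ q * y b‖ := (norm_mul _ _).symm
      _ ≤ ‖Sem2_mon s a * θ l‖ := hterm b
      _ = _ := (hdiv _).symm
  · have hzF : z ∈ F := hkF hz
    set M₀ : ℝ := ‖z ^ q * (Sem2_mon s a * θ l / G ^ 2)‖ with hM₀
    have hM₀' : M₀ = ‖z ^ q‖ * ‖Sem2_mon s a * θ l‖ := by
      rw [hM₀, norm_mul, hdiv]
    have hM₀0 : 0 ≤ M₀ := norm_nonneg _
    have hδM : 0 ≤ δ * M₀ := mul_nonneg hδ.le hM₀0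
    set X : Ω := z ^ q * (Sem2_mon s a * G ^ (q - 2)) * θ l with hX
    have hXF : X ∈ F' := mul_mem (hFF (mul_mem (pow_mem hzF _)
      (mul_mem (Sem2_mon_mem hs _) (pow_mem hGF _)))) (hθ l)
    have hXsum : X = ∑ b ∈ W.support, (z * u b) ^ q * y b := by
      rw [hX, ← hWe, Sem2_eval, Finset.mul_sum, Finset.sum_mul]
      refine Finset.sum_congr rfl fun b _ => ?_
      rw [mul_pow, mul_assoc (z ^ q) (u b ^ q), huy]
      ring
    have hGq : G ^ (q - 2) * G ^ 2 = G ^ q := by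
      rw [← pow_add, Nat.sub_add_cancel hq2]
    have harg : z ^ q * (Sem2_mon s a * θ l / G ^ 2) = G⁻¹ ^ q * X := by
      rw [hX, inv_pow, ← hGq]
      field_simp
    have h1 : ‖T (z ^ q * (Sem2_mon s a * θ l / G ^ 2)) - G⁻¹ * T X‖ ^ q ≤ δ * M₀ := by
      have h2 := hTl G⁻¹ (inv_mem hGF) X hXF
      rw [← harg] at h2
      exact h2
    have htn : ∀ b, ‖(z * u b) ^ q * y b‖ ≤ M₀ := by
      intro b
      rw [mul_pow, mul_assoc, norm_mul, hM₀']
      exact mul_le_mul_of_nonneg_left (hterm b) (norm_nonneg _)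
    have h2 : ‖T X - ∑ b ∈ W.support, T ((z * u b) ^ q * y b)‖ ^ q ≤ δ * M₀ := by
      rw [hXsum]
      exact hTs _ _ (fun b _ => mul_mem (hFF (pow_mem (mul_mem hzF (huF b)) _))
        (hyF b)) _ hM₀0 fun b _ => htn b
    have h3 : ‖∑ b ∈ W.support, (T ((z * u b) ^ q * y b) - z * u b * T (y b))‖ ^ q ≤
        δ * M₀ := by
      refine Sem2_sum _ _ hqne hδM fun b _ => ?_
      exact (hTl (z * u b) (mul_mem hzF (huF b)) (y b) (hyF b)).trans
        (mul_le_mul_of_nonneg_left (htn b) hδ.le)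
    have h4 : ‖∑ b ∈ W.support, z * u b * (T (y b) - ∑ j,
        eval s (P (Sem2_rem hq b) l j) / G * θ j)‖ ^ q ≤ δ * M₀ := by
      refine Sem2_sum _ _ hqne hδM fun b _ => ?_
      have h5 : ‖T (y b) - ∑ j, eval s (P (Sem2_rem hq b) l j) / G * θ j‖ ≤
          δ' * ‖T (y b)‖ := by
        have h6 : T (y b) = ∑ j, x (Sem2_rem hq b) l j * θ j := hxT _ _
        have h7 : T (y b) - ∑ j, eval s (P (Sem2_rem hq b) l j) / G * θ j =
            ∑ j, (x (Sem2_rem hq b) l j - eval s (P (Sem2_rem hq b) l j) / G) * θ j := by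
          rw [h6, ← Finset.sum_sub_distrib]
          exact Finset.sum_congr rfl fun j _ => by ring
        rw [h7]
        refine IsUltrametricDist.norm_sum_le_of_forall_le_of_nonneg
          (mul_nonneg hδ'0.le (norm_nonneg _)) fun j _ => ?_
        rw [norm_mul]
        calc ‖x (Sem2_rem hq b) l j - eval s (P (Sem2_rem hq b) l j) / G‖ * ‖θ j‖
            ≤ δ' * ‖x (Sem2_rem hq b) l j‖ * ‖θ j‖ :=
              mul_le_mul_of_nonneg_right (hPx _ _ _) (norm_nonneg _)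
          _ = δ' * ‖x (Sem2_rem hq b) l j * θ j‖ := by rw [norm_mul, mul_assoc]
          _ ≤ δ' * ‖T (y b)‖ := mul_le_mul_of_nonneg_left (hxn _ _ _) hδ'0.le
      calc ‖z * u b * (T (y b) - ∑ j, eval s (P (Sem2_rem hq b) l j) / G * θ j)‖ ^ q
          ≤ (‖z * u b‖ * (δ' * ‖T (y b)‖)) ^ q := by
            refine pow_le_pow_left₀ (norm_nonneg _) ?_ q
            rw [norm_mul]
            exact mul_le_mul_of_nonneg_left h5 (norm_nonneg _)
        _ = δ' ^ q * (‖(z * u b) ^ q‖ * ‖T (y b)‖ ^ q) := by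
            rw [mul_pow, mul_pow, norm_pow]
            ring
        _ ≤ δ' ^ q * (‖(z * u b) ^ q‖ * ‖y b‖) := by
            refine mul_le_mul_of_nonneg_left ?_ (pow_nonneg hδ'0.le _)
            exact mul_le_mul_of_nonneg_left (hTn _ (hyF b)) (norm_nonneg _)
        _ = δ' ^ q * ‖(z * u b) ^ q * y b‖ := by rw [norm_mul ((z * u b) ^ q)]
        _ ≤ δ * M₀ := by
            refine mul_le_mul ?_ (htn b) (norm_nonneg _) hδ.le
            refine le_trans ?_ hδδ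
            have h8 : δ' ^ q ≤ δ' ^ 1 :=
              pow_le_pow_of_le_one hδ'0.le (hδδ.trans hδ1.le) (by omega)
            rwa [pow_one] at h8
    have h9 : ∑ b ∈ W.support, z * u b * ∑ j, eval s (P (Sem2_rem hq b) l j) / G * θ j =
        G * (z * ∑ j, eval s (R j) * θ j / G ^ 2) := by
      have h10 : ∀ j, eval s (R j) = ∑ b ∈ W.support, u b * eval s (P (Sem2_rem hq b) l j) := by
        intro j
        rw [hR, map_sum]
        refine Finset.sum_congr rfl fun b _ => ?_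
        rw [map_mul, Sem2_eval_monomial]
      simp only [h10, Finset.mul_sum, Finset.sum_mul, Finset.sum_div]
      rw [Finset.sum_comm]
      refine Finset.sum_congr rfl fun j _ => Finset.sum_congr rfl fun b _ => ?_
      field_simp
    have h11 : T (z ^ q * (Sem2_mon s a * θ l / G ^ 2)) - z * ∑ j, eval s (R j) * θ j / G ^ 2 =
        (T (z ^ q * (Sem2_mon s a * θ l / G ^ 2)) - G⁻¹ * T X) +
          G⁻¹ * ((T X - ∑ b ∈ W.support, T ((z * u b) ^ q * y b)) +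
          (∑ b ∈ W.support, (T ((z * u b) ^ q * y b) - z * u b * T (y b)) +
          ∑ b ∈ W.support, z * u b * (T (y b) - ∑ j,
            eval s (P (Sem2_rem hq b) l j) / G * θ j))) := by
      have h12 : ∑ b ∈ W.support, z * u b * (T (y b) - ∑ j,
          eval s (P (Sem2_rem hq b) l j) / G * θ j) = ∑ b ∈ W.support, z * u b * T (y b) -
            G * (z * ∑ j, eval s (R j) * θ j / G ^ 2) := by
        rw [← h9, ← Finset.sum_sub_distrib]
        exact Finset.sum_congr rfl fun b _ => mul_sub _ _ _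
      rw [h12, Finset.sum_sub_distrib]
      field_simp
      ring
    rw [h11]
    refine Sem2_add h1 ?_
    rw [norm_mul, norm_inv, hgn, inv_one, one_mul]
    exact Sem2_add h2 (Sem2_add h3 h4)

/-- SEM2 (stable spaces).  For finitely many operators `T i` (with `t i ≥ 1`) on `F'` and `ε ∈ F'` there is
a finite family `v` in `F'` such that `ε` is, up to `η * ‖ε‖`, a `k`-combination of `v`, and such that
`T i (z ^ q * v j)` is, up to the allowed error, `z` times a `k`-combination of `v`.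

Proof.  Write `q i = p ^ t i ≥ 2`. Choose `δ' ≤ min δ η`, `δ' > 0`. The finitely many elements
`T i (s ^ b * θ l)`, `b ∈ [0, q i)^n`, `l`, and `ε` are `∑ j, x j * θ j` with `x j ∈ F`,
`‖x j * θ j‖ ≤ ‖T i (s ^ b * θ l)‖` (resp. `≤ ‖ε‖`) (`hθ.span`, `hθ.orth`). By `TF.common`
all these `x j` are `P(s) / g(s)` up to `δ' * ‖x j‖`, with one `g`, `WB s P ‖x j‖`. Let `D` be the degree
of `g`, `c` a bound for the degrees of all `P`, `N ≥ 2 * (D + c)`; `G = eval s g`, `‖G‖ = 1`.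
`v (a, l) = s ^ a * θ l / G ^ 2` for `|a| ≤ N`, `l : Fin (d+1)` (`σ` = this finite index type).
`ε`: `∑ j, P j (s) / G * θ j = ∑ j, (P j * g)(s) * θ j / G ^ 2`, `e (a, j)` = coefficient of `X ^ a` in
`P j * g`; `‖e (a,j) * v (a,j)‖ ≤ ‖x j * θ j‖ ≤ ‖ε‖` (`WB.mul`).
Operators: fix `i`, `q = q i`, `(a, l)`, `z ∈ k`. `z ^ q * v (a,l) = (G⁻¹) ^ q * X`,
`X = z ^ q * s ^ a * G ^ (q-2) * θ l`; by `lin` `T (z ^ q v) = G⁻¹ * T X` up to the error `E`, where
`‖E‖ ^ q ≤ δ * ‖z ^ q * v‖` (all errors below are of this size; the allowed errors are closed under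
addition, by the ultrametric inequality, and under multiplication by elements of norm `≤ 1`). As
polynomial `X ^ a * g ^ (q-2) = ∑ b, β b * X ^ b`, `β b ∈ k`, `‖β b * s ^ b‖ ≤ ‖s ^ a‖` (WB); take
`β' b ∈ k` with `β' b ^ q = β b` (`k` algebraically closed), `b = q * b' + b''`, `b'' ∈ [0,q)^n`:
`X = ∑ b, (z * β' b * s ^ b') ^ q * (s ^ b'' * θ l)`, all terms of norm `≤ ‖z ^ q * v‖`. By
`SemiOp.sum` and `lin`, `T X = ∑ b, z * β' b * s ^ b' * T (s ^ b'' * θ l)` up to an allowed error, and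
`T (s ^ b'' * θ l) = ∑ j, P_{b'',j}(s) / G * θ j` up to `δ' * ‖T (s ^ b'' θ l)‖` with
`‖T (s ^ b'' θ l)‖ ^ q ≤ ‖s ^ b'' * θ l‖`. So `T (z ^ q v) = z * ∑ (a',j), B * v (a', j)`,
`B (a,l) (a',j)` = coefficient of `X ^ a'` in `∑ b, β' b * X ^ b' * P_{b'',j}` (here
`|b'| + c ≤ (N + (q-2) D)/q + c ≤ N/2 + D + c ≤ N`), and
`‖B * v (a',j)‖ ≤ max_b ‖β' b * s ^ b'‖ * ‖T (s ^ b'' θ l)‖`, whose `q`-th power is
`≤ ‖β b * s ^ b * θ l‖ ≤ ‖v (a,l)‖`. -/
theorem exists_stable [IsUltrametricDist Ω] {p : ℕ} [Fact p.Prime] {k F F' : Subfield Ω} {n : ℕ}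
    {s : Fin n → Ω} (hF : TF k F s) {d : ℕ} {θ : Fin (d + 1) → Ω} (hθ : OrthBasis F F' θ)
    {ι : Type} [Fintype ι] (t : ι → ℕ) (ht : ∀ i, 1 ≤ t i) (T : ι → Ω → Ω) {δ : ℝ} (hδ : 0 < δ)
    (hδ1 : δ < 1) (hT : ∀ i, SemiOp p F F' (t i) δ (T i)) {ε : Ω} (hε : ε ∈ F') {η : ℝ}
    (hη : 0 < η) :
    ∃ (σ : Type) (_ : Fintype σ) (v : σ → Ω) (B : ι → σ → σ → Ω) (e : σ → Ω),
      (∀ j, v j ∈ F') ∧ (∀ i j l, B i j l ∈ k) ∧ (∀ l, e l ∈ k) ∧
      (∀ i j l, ‖B i j l * v l‖ ^ p ^ t i ≤ ‖v j‖) ∧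
      (∀ i j, ∀ z ∈ k, ‖T i (z ^ p ^ t i * v j) - z * ∑ l, B i j l * v l‖ ^ p ^ t i ≤
        δ * ‖z ^ p ^ t i * v j‖) ∧
      (∀ l, ‖e l * v l‖ ≤ ‖ε‖) ∧ ‖ε - ∑ l, e l * v l‖ ≤ η * ‖ε‖ := by
  classical
  have hp : 1 < p := (Fact.out : p.Prime).one_lt
  have hkF := hF.le
  have hFF := hθ.le
  have hδ'0 : 0 < min δ η := lt_min hδ hη
  set Y : Type := Option (Σ i, (Fin n → Fin (p ^ t i)) × Fin (d + 1)) with hYdef
  set y : Y → Ω := fun o => o.elim ε fun r => T r.1 ((∏ i, s i ^ (r.2.1 i : ℕ)) * θ r.2.2) with hy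
  have hyF : ∀ o, y o ∈ F' := by
    rintro (_ | ⟨i, b, l⟩)
    · exact hε
    · exact (hT i).map _ (mul_mem (prod_mem fun j _ => pow_mem (hFF (hF.mem j)) _) (hθ.mem l))
  choose x hxF hx using fun o => hθ.span (y o) (hyF o)
  have hxn : ∀ o j, ‖x o j * θ j‖ ≤ ‖y o‖ := by
    intro o j
    have h1 := hθ.orth (x o) (hxF o) j
    rw [← hx o] at h1
    exact h1
  obtain ⟨g, P, hg, hgW, hgn, hP⟩ := hF.common (ι := Y × Fin (d + 1)) (fun r => x r.1 r.2)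
    (fun r => hxF r.1 r.2) hδ'0
  obtain ⟨D, hD⟩ := Sem2_BD_exists g
  choose cc hcc using fun r => Sem2_BD_exists (P r)
  set c : ℕ := Finset.univ.sup cc with hcdef
  have hc : ∀ r, Sem2_BD (P r) c := fun r =>
    Sem2_BD_mono (hcc r) (Finset.le_sup (f := cc) (Finset.mem_univ r))
  set N : ℕ := 2 * (D + c) with hN
  set Bx : Finset (Fin n →₀ ℕ) := Finset.Iic (Finsupp.equivFunOnFinite.symm fun _ => N) with hBx
  have hBxm : ∀ a : Fin n →₀ ℕ, a ∈ Bx ↔ ∀ i, a i ≤ N := by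
    intro a
    rw [hBx, Finset.mem_Iic]
    exact Iff.rfl
  set G : Ω := eval s g with hG
  have hG0 : G ≠ 0 := by
    intro h
    rw [h, norm_zero] at hgn
    exact zero_ne_one hgn
  have hGF : G ∈ F := MC.eval_mem hkF hF.mem hg
  have hdiv : ∀ y : Ω, ‖y / G ^ 2‖ = ‖y‖ := fun y => by
    rw [norm_div, norm_pow, hgn, one_pow, div_one]
  have hsum : ∀ R : Fin (d + 1) → MvPolynomial (Fin n) Ω, (∀ j, Sem2_BD (R j) N) →
      ∑ r : Bx × Fin (d + 1), (R r.2).coeff r.1.1 * (Sem2_mon s r.1.1 * θ r.2 / G ^ 2) =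
        ∑ j, eval s (R j) * θ j / G ^ 2 := by
    intro R hR
    rw [Fintype.sum_prod_type, Finset.sum_comm]
    refine Finset.sum_congr rfl fun j _ => ?_
    rw [Sem2_eval_box s (R j) Bx fun a ha => (hBxm a).2 (hR j a ha), Finset.sum_mul,
      Finset.sum_div, ← Finset.sum_coe_sort Bx]
    exact Finset.sum_congr rfl fun a _ => by ring
  have hrow : ∀ (i : ι) (r : Bx × Fin (d + 1)), ∃ R : Fin (d + 1) → MvPolynomial (Fin n) Ω,
      (∀ j, MC k (R j)) ∧ (∀ j, Sem2_BD (R j) N) ∧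
      (∀ j a', ‖(R j).coeff a' * (Sem2_mon s a' * θ j / G ^ 2)‖ ^ p ^ t i ≤
        ‖Sem2_mon s r.1.1 * θ r.2 / G ^ 2‖) ∧
      ∀ z ∈ k, ‖T i (z ^ p ^ t i * (Sem2_mon s r.1.1 * θ r.2 / G ^ 2)) -
        z * ∑ j, eval s (R j) * θ j / G ^ 2‖ ^ p ^ t i ≤
          δ * ‖z ^ p ^ t i * (Sem2_mon s r.1.1 * θ r.2 / G ^ 2)‖ := by
    intro i r
    refine Sem2_row hF.closed hkF hF.mem hFF hθ.mem (ht i) hδ hδ1 hδ'0 (min_le_left δ η) (hT i)
      hg hgW hgn rfl (pow_pos (by omega) _) (fun b l j => x (some ⟨i, b, l⟩) j)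
      (fun b l j => P (some ⟨i, b, l⟩, j)) (fun b l j => (hP _).1) (fun b l j => (hP _).2.1)
      (fun b l j => (hP (some ⟨i, b, l⟩, j)).2.2) (fun b l => hx (some ⟨i, b, l⟩))
      (fun b l j => hxn (some ⟨i, b, l⟩) j) hD (fun b l j => hc _) hN r.1.1
      ((hBxm _).1 r.1.2) r.2
  choose R hRk hRD hRn hRT using hrow
  refine ⟨Bx × Fin (d + 1), inferInstance, fun r => Sem2_mon s r.1.1 * θ r.2 / G ^ 2,
    fun i r r' => (R i r r'.2).coeff r'.1.1, fun r => (P (none, r.2) * g).coeff r.1.1,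
    fun r => ?_, fun i r r' => ?_, fun r => ?_, fun i r r' => ?_, fun i r z hz => ?_,
    fun r => ?_, ?_⟩
  · exact div_mem (mul_mem (hFF (Sem2_mon_mem hF.mem _)) (hθ.mem _)) (pow_mem (hFF hGF) _)
  · exact hRk i r r'.2 r'.1.1
  · exact MC.mul (hP (none, r.2)).1 hg r.1.1
  · exact hRn i r r'.2 r'.1.1
  · have h1 := hRT i r z hz
    rw [← hsum (R i r) (hRD i r)] at h1
    exact h1
  · have h1 := WB.mul (A := ‖x none r.2‖) (B := 1) (norm_nonneg _) (hP (none, r.2)).2.1 hgW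
      r.1.1
    rw [mul_one, ← Sem2_mon_norm, ← norm_mul] at h1
    change ‖(P (none, r.2) * g).coeff r.1.1 * (Sem2_mon s r.1.1 * θ r.2 / G ^ 2)‖ ≤ ‖ε‖
    rw [← mul_div_assoc, hdiv, ← mul_assoc, norm_mul _ (θ r.2)]
    calc ‖(P (none, r.2) * g).coeff r.1.1 * Sem2_mon s r.1.1‖ * ‖θ r.2‖
        ≤ ‖x none r.2‖ * ‖θ r.2‖ := mul_le_mul_of_nonneg_right h1 (norm_nonneg _)
      _ = ‖x none r.2 * θ r.2‖ := (norm_mul _ _).symm
      _ ≤ ‖ε‖ := hxn none r.2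
  · have h1 := hsum (fun j => P (none, j) * g) fun j => by
      have h2 := Sem2_BD_mul (hc (none, j)) hD
      exact Sem2_BD_mono h2 (by omega)
    rw [h1]
    have h3 : ε - ∑ j, eval s (P (none, j) * g) * θ j / G ^ 2 =
        ∑ j, (x none j - eval s (P (none, j)) / G) * θ j := by
      have h4 : ε = ∑ j, x none j * θ j := hx none
      conv_lhs => rw [h4]
      rw [← Finset.sum_sub_distrib]
      refine Finset.sum_congr rfl fun j _ => ?_
      rw [map_mul]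
      change x none j * θ j - eval s (P (none, j)) * G * θ j / G ^ 2 = _
      field_simp
    rw [h3]
    refine IsUltrametricDist.norm_sum_le_of_forall_le_of_nonneg
      (mul_nonneg hη.le (norm_nonneg _)) fun j _ => ?_
    rw [norm_mul]
    calc ‖x none j - eval s (P (none, j)) / G‖ * ‖θ j‖
        ≤ min δ η * ‖x none j‖ * ‖θ j‖ :=
          mul_le_mul_of_nonneg_right (hP (none, j)).2.2 (norm_nonneg _)
      _ = min δ η * ‖x none j * θ j‖ := by rw [norm_mul, mul_assoc]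
      _ ≤ η * ‖ε‖ := mul_le_mul (min_le_right _ _) (hxn none j) (norm_nonneg _) hη.le

end MP1a953e
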