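import Pool.Agent.Lib.MP_1a953e_ag.LUDefs

/-!
# Module Sm1: smooth subalgebras
-/

namespace MP1a953e

open Polynomial

variable {R L : Type*} [CommRing R] [Field L] [Algebra R L]

/-- SM0. -/
theorem smooth_bot (h : Function.Injective (algebraMap R L)) :
    Algebra.Smooth R (⊥ : Subalgebra R L) :=
  Algebra.Smooth.of_equiv (Algebra.botEquivOfInjective h).symm

/-- SM1.  Adjoining a transcendental element: `B[t]` is a polynomial ring over `B`; composition of smooth
maps (`Algebra.Smooth.comp` or `RingHom.Smooth.comp`), and transport along the isomorphism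
`B[X] ≃ B ⊔ adjoin R {t}`. -/
theorem smooth_adjoin_transcendental (B : Subalgebra R L) (hB : Algebra.Smooth R B) {t : L}
    (ht : Transcendental B t) : Algebra.Smooth R ↥(B ⊔ Algebra.adjoin R {t}) := by
  have htB : t ∈ B ⊔ Algebra.adjoin R {t} :=
    (le_sup_right : Algebra.adjoin R {t} ≤ B ⊔ Algebra.adjoin R {t}) (Algebra.subset_adjoin rfl)
  have hBB : B ≤ B ⊔ Algebra.adjoin R {t} := le_sup_left
  let φ₀ : B[X] →ₐ[R] L := (Polynomial.aeval t : B[X] →ₐ[B] L).restrictScalars R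
  have hmem : ∀ f : B[X], φ₀ f ∈ B ⊔ Algebra.adjoin R {t} := by
    intro f
    change Polynomial.aeval t f ∈ _
    rw [Polynomial.aeval_eq_sum_range]
    refine Subalgebra.sum_mem _ fun i _ => ?_
    rw [Algebra.smul_def]
    exact Subalgebra.mul_mem _ (hBB (f.coeff i).2) (Subalgebra.pow_mem _ htB i)
  let φ : B[X] →ₐ[R] ↥(B ⊔ Algebra.adjoin R {t}) := φ₀.codRestrict _ hmem
  have hinj : Function.Injective φ := by
    intro f g hfg
    have h1 : φ₀ f = φ₀ g := congrArg Subtype.val hfg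
    exact transcendental_iff_injective.1 ht h1
  have hsurj : Function.Surjective φ := by
    have hle : B ⊔ Algebra.adjoin R {t} ≤ φ₀.range := by
      refine sup_le ?_ (Algebra.adjoin_le ?_)
      · intro b hb
        refine ⟨C ⟨b, hb⟩, ?_⟩
        change Polynomial.aeval t (C (⟨b, hb⟩ : B)) = b
        rw [Polynomial.aeval_C]
        rfl
      · rintro x hx
        rw [Set.mem_singleton_iff] at hx
        refine ⟨X, ?_⟩
        change Polynomial.aeval t (X : B[X]) = x
        rw [Polynomial.aeval_X, hx]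
    rintro ⟨x, hx⟩
    obtain ⟨f, hf⟩ := hle hx
    exact ⟨f, Subtype.ext hf⟩
  have h0 : Algebra.FinitePresentation B B[X] :=
    Algebra.FinitePresentation.equiv (MvPolynomial.uniqueAlgEquiv.{_, 0} B PUnit)
  have h00 : Algebra.Smooth B B[X] := ⟨inferInstance, h0⟩
  have h1 : Algebra.Smooth R B[X] := Algebra.Smooth.comp R B B[X]
  exact Algebra.Smooth.of_equiv (AlgEquiv.ofBijective φ ⟨hinj, hsurj⟩)

/-- SM2.  Inverting an element: `B ⊔ adjoin R {s⁻¹}` is the localization `B[1/s]`. -/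
theorem smooth_adjoin_inv (B : Subalgebra R L) (hB : Algebra.Smooth R B) {s : L} (hs : s ∈ B)
    (hs0 : s ≠ 0) : Algebra.Smooth R ↥(B ⊔ Algebra.adjoin R {s⁻¹}) := by
  have hsB : s⁻¹ ∈ B ⊔ Algebra.adjoin R {s⁻¹} :=
    (le_sup_right : Algebra.adjoin R {s⁻¹} ≤ B ⊔ Algebra.adjoin R {s⁻¹})
      (Algebra.subset_adjoin rfl)
  have hBB : B ≤ B ⊔ Algebra.adjoin R {s⁻¹} := le_sup_left
  let _ : Algebra B ↥(B ⊔ Algebra.adjoin R {s⁻¹}) := (Subalgebra.inclusion hBB).toAlgebra
  have hval : ∀ b : B, ((algebraMap B ↥(B ⊔ Algebra.adjoin R {s⁻¹}) b :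
      ↥(B ⊔ Algebra.adjoin R {s⁻¹})) : L) = (b : L) := fun b => rfl
  have : IsScalarTower R B ↥(B ⊔ Algebra.adjoin R {s⁻¹}) := IsScalarTower.of_algebraMap_eq' rfl
  have : IsLocalization.Away (⟨s, hs⟩ : B) ↥(B ⊔ Algebra.adjoin R {s⁻¹}) := by
    refine ⟨⟨?_, ?_, ?_⟩⟩
    · rintro ⟨_, n, rfl⟩
      rw [map_pow]
      refine IsUnit.pow n ?_
      refine IsUnit.of_mul_eq_one (⟨s⁻¹, hsB⟩ : ↥(B ⊔ Algebra.adjoin R {s⁻¹})) ?_
      exact Subtype.ext (mul_inv_cancel₀ hs0)
    · let D : Subalgebra R L :=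
        { carrier := {z | ∃ n : ℕ, z * s ^ n ∈ B}
          mul_mem' := by
            rintro a b ⟨n, hn⟩ ⟨m, hm⟩
            refine ⟨n + m, ?_⟩
            have : a * b * s ^ (n + m) = (a * s ^ n) * (b * s ^ m) := by rw [pow_add]; ring
            rw [this]
            exact B.mul_mem hn hm
          add_mem' := by
            rintro a b ⟨n, hn⟩ ⟨m, hm⟩
            refine ⟨n + m, ?_⟩
            have : (a + b) * s ^ (n + m) = (a * s ^ n) * s ^ m + (b * s ^ m) * s ^ n := by
              rw [pow_add]; ring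
            rw [this]
            exact B.add_mem (B.mul_mem hn (B.pow_mem hs m)) (B.mul_mem hm (B.pow_mem hs n))
          algebraMap_mem' := by
            intro r
            refine ⟨0, ?_⟩
            rw [pow_zero, mul_one]
            exact B.algebraMap_mem r }
      have hle : B ⊔ Algebra.adjoin R {s⁻¹} ≤ D := by
        refine sup_le ?_ (Algebra.adjoin_le ?_)
        · intro b hb
          exact ⟨0, by rw [pow_zero, mul_one]; exact hb⟩
        · rintro x hx
          rw [Set.mem_singleton_iff] at hx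
          refine ⟨1, ?_⟩
          rw [hx, pow_one, inv_mul_cancel₀ hs0]
          exact B.one_mem
      rintro ⟨z, hz⟩
      obtain ⟨n, hn⟩ := hle hz
      refine ⟨(⟨z * s ^ n, hn⟩, ⟨(⟨s, hs⟩ : B) ^ n, n, rfl⟩), ?_⟩
      refine Subtype.ext ?_
      rfl
    · intro x y hxy
      refine ⟨1, ?_⟩
      have h1 : (x : L) = (y : L) := by
        rw [← hval x, ← hval y, hxy]
      have h2 : x = y := Subtype.ext h1
      rw [h2]
  have h1 : Algebra.Smooth B ↥(B ⊔ Algebra.adjoin R {s⁻¹}) :=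
    Algebra.Smooth.of_isLocalization_Away (⟨s, hs⟩ : B)
  exact Algebra.Smooth.comp R B ↥(B ⊔ Algebra.adjoin R {s⁻¹})

end MP1a953e
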