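import Pool.Agent.Lib.MP_1a953e_ag.UDefs
import Pool.Agent.Lib.MP_1a953e_ag.Lin4

/-!
# Module Sta1: orthogonality of powers
-/

namespace MP1a953e

open Polynomial

variable {Ω : Type*} [NormedField Ω]

private theorem sta1_mult [IsUltrametricDist Ω] {y : Ω} (s : Multiset Ω)
    (hs : ∀ β ∈ s, max ‖y‖ ‖β‖ ≤ ‖y - β‖) (i : ℕ) :
    ‖((s.map (fun β => (X - C β : Polynomial Ω))).prod).coeff i‖ * ‖y‖ ^ i ≤
      ‖((s.map (fun β => (X - C β : Polynomial Ω))).prod).eval y‖ := by
  induction s using Multiset.induction_on generalizing i with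
  | empty =>
    rw [Multiset.map_zero, Multiset.prod_zero, eval_one, norm_one, coeff_one]
    split_ifs with h
    · subst h; simp
    · simp
  | cons β s ih =>
    have ih' := ih (fun γ hγ => hs γ (Multiset.mem_cons_of_mem hγ))
    have hβ := hs β (Multiset.mem_cons_self β s)
    set g := (s.map (fun β => (X - C β : Polynomial Ω))).prod with hg
    rw [Multiset.map_cons, Multiset.prod_cons, ← hg, eval_mul, eval_sub, eval_X, eval_C, norm_mul]
    have h1 : ‖(C β * g).coeff i‖ * ‖y‖ ^ i ≤ ‖y - β‖ * ‖g.eval y‖ := by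
      rw [coeff_C_mul, norm_mul, mul_assoc]
      exact mul_le_mul ((le_max_right _ _).trans hβ) (ih' i) (by positivity) (norm_nonneg _)
    have h2 : ‖(X * g).coeff i‖ * ‖y‖ ^ i ≤ ‖y - β‖ * ‖g.eval y‖ := by
      rcases i with _ | i
      · rw [coeff_X_mul_zero, norm_zero, zero_mul]
        positivity
      · rw [coeff_X_mul, pow_succ]
        calc ‖g.coeff i‖ * (‖y‖ ^ i * ‖y‖) = ‖y‖ * (‖g.coeff i‖ * ‖y‖ ^ i) := by ring
          _ ≤ _ := mul_le_mul ((le_max_left _ _).trans hβ) (ih' i) (by positivity) (norm_nonneg _)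
    rw [sub_mul, coeff_sub]
    have h3 : ‖(X * g).coeff i - (C β * g).coeff i‖ ≤ max ‖(X * g).coeff i‖ ‖(C β * g).coeff i‖ := by
      have := IsUltrametricDist.norm_add_le_max ((X * g).coeff i) (-(C β * g).coeff i)
      rwa [← sub_eq_add_neg, norm_neg] at this
    calc ‖(X * g).coeff i - (C β * g).coeff i‖ * ‖y‖ ^ i ≤
        max ‖(X * g).coeff i‖ ‖(C β * g).coeff i‖ * ‖y‖ ^ i :=
          mul_le_mul_of_nonneg_right h3 (by positivity)
      _ = max (‖(X * g).coeff i‖ * ‖y‖ ^ i) (‖(C β * g).coeff i‖ * ‖y‖ ^ i) := by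
          rw [max_mul_of_nonneg _ _ (by positivity)]
      _ ≤ _ := max_le h2 h1

private theorem sta1_roots [IsUltrametricDist Ω] [IsAlgClosed Ω] {h : Polynomial Ω} (h0 : h ≠ 0) {y : Ω}
    (hr : ∀ β, h.eval β = 0 → max ‖y‖ ‖β‖ ≤ ‖y - β‖) (i : ℕ) :
    ‖h.coeff i‖ * ‖y‖ ^ i ≤ ‖h.eval y‖ := by
  have h1 := (IsAlgClosed.splits h).eq_prod_roots
  have h2 := sta1_mult (y := y) h.roots (fun β hβ => hr β (by
    rw [mem_roots h0] at hβ; exact hβ)) i
  have h3 : h.coeff i = h.leadingCoeff * ((h.roots.map (fun β => (X - C β : Polynomial Ω))).prod).coeff i := by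
    conv_lhs => rw [h1]
    rw [coeff_C_mul]
  have h4 : h.eval y = h.leadingCoeff * ((h.roots.map (fun β => (X - C β : Polynomial Ω))).prod).eval y := by
    conv_lhs => rw [h1]
    rw [eval_mul, eval_C]
  rw [h3, h4, norm_mul, norm_mul, mul_assoc]
  exact mul_le_mul_of_nonneg_left h2 (norm_nonneg _)

private theorem sta1_alg {E : Subfield Ω} {h : Polynomial Ω} (hh : Coeffs E h) (h0 : h ≠ 0) {β : Ω}
    (hβ : h.eval β = 0) : IsAlgebraic E β ∧ (minpoly E β).natDegree ≤ h.natDegree := by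
  have hl : h ∈ lifts (algebraMap E Ω) := by
    rw [lifts_iff_coeff_lifts]
    intro n
    exact ⟨⟨h.coeff n, hh n⟩, rfl⟩
  obtain ⟨h', hh'⟩ := hl
  have hmap : h'.map (algebraMap E Ω) = h := hh'
  have h1 : h' ≠ 0 := by rintro rfl; exact h0 (by rw [← hmap, Polynomial.map_zero])
  have h2 : aeval β h' = 0 := by rw [aeval_def, ← eval_map, hmap]; exact hβ
  refine ⟨⟨h', h1, h2⟩, ?_⟩
  rw [← hmap, natDegree_map]
  exact natDegree_le_of_dvd (minpoly.dvd E β h2) h1

/-- STA1.  Let `y` be algebraic of degree `d + 1` over `F`, and `‖y - β‖ = max ‖y‖ ‖β‖` for all `β` which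
are algebraic of smaller degree. Then `1, y, …, y ^ d` is an orthogonal basis of `F(y)`.
Proof.  Span: `adj F y = F[y]` is generated by these powers. Orthogonality: let
`g = ∑ c i X ^ i ≠ 0`, `c i ∈ F`, of degree `m ≤ d`; `g` splits in `Ω`, its roots `β j` are algebraic over
`F` of degree `≤ m < d + 1`; `‖g y‖ = ‖lead‖ * ∏ max ‖y‖ ‖β j‖`, and
`‖c i * y ^ i‖ ≤ ‖lead‖ * ∏ max ‖y‖ ‖β j‖`, because `c i` is `± lead` times the elementary symmetric
polynomial of degree `m - i` in the `β j` (or by induction on the number of factors). -/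
theorem orthBasis_powers [IsUltrametricDist Ω] [IsAlgClosed Ω] {F : Subfield Ω} {y : Ω}
    (hy : IsAlgebraic F y) {d : ℕ} (hd : (minpoly F y).natDegree = d + 1)
    (h : ∀ β : Ω, IsAlgebraic F β → (minpoly F β).natDegree < d + 1 → ‖y - β‖ = max ‖y‖ ‖β‖) :
    OrthBasis F (adj F y) (fun i : Fin (d + 1) => y ^ (i : ℕ)) where
  le := le_adj F y
  zero := by simp
  mem := fun i => (adj F y).pow_mem (mem_adj_self F y) _
  ne := by
    intro i
    by_cases h0 : y = 0
    · subst h0
      have h1 : (minpoly F (0 : Ω)).natDegree = 1 := by rw [minpoly.zero, natDegree_X]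
      have h2 : (i : ℕ) = 0 := by
        have := i.2
        omega
      rw [h2, pow_zero]
      exact one_ne_zero
    · exact pow_ne_zero _ h0
  span := by
    intro x hx
    rw [mem_adj_iff] at hx
    have h3 : x ∈ (IntermediateField.adjoin F {y}).toSubalgebra := hx
    rw [IntermediateField.adjoin_simple_toSubalgebra_of_isAlgebraic hy,
      Algebra.adjoin_singleton_eq_range_aeval] at h3
    obtain ⟨P, hP⟩ := h3
    have hP' : aeval y P = x := hP
    have hm : (minpoly F y).Monic := minpoly.monic hy.isIntegral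
    have hdeg : (P %ₘ minpoly F y).natDegree < d + 1 := by
      rw [← hd]
      refine natDegree_modByMonic_lt P hm ?_
      intro h1
      rw [h1, natDegree_one] at hd
      omega
    have hPe : aeval y (P %ₘ minpoly F y) = x := by
      have h4 := congrArg (aeval y) (modByMonic_add_div P (minpoly F y))
      rw [map_add, map_mul, minpoly.aeval, zero_mul, add_zero, hP'] at h4
      exact h4
    refine ⟨fun i => ((P %ₘ minpoly F y).coeff i : Ω), fun i => ((P %ₘ minpoly F y).coeff i).2, ?_⟩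
    rw [← hPe, aeval_eq_sum_range' hdeg, Finset.sum_range]
    rfl
  orth := by
    intro c hc i
    set g : Polynomial Ω := ∑ j : Fin (d + 1), C (c j) * X ^ (j : ℕ) with hg
    have hcoeff : ∀ m : ℕ, g.coeff m = ∑ j : Fin (d + 1), if m = (j : ℕ) then c j else 0 := by
      intro m
      rw [hg, finsetSum_coeff]
      refine Finset.sum_congr rfl fun j _ => ?_
      rw [coeff_C_mul_X_pow]
    have hE : Coeffs F g := by
      intro m
      rw [hcoeff m]
      refine F.sum_mem fun j _ => ?_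
      split_ifs
      · exact hc j
      · exact F.zero_mem
    have h2 : g.coeff i = c i := by
      rw [hcoeff, Finset.sum_eq_single i]
      · rw [if_pos rfl]
      · intro j _ hji
        rw [if_neg]
        intro hcon
        exact hji (Fin.ext hcon.symm)
      · intro hcon
        exact absurd (Finset.mem_univ i) hcon
    have h3 : g.eval y = ∑ j : Fin (d + 1), c j * y ^ (j : ℕ) := by
      rw [hg, eval_finsetSum]
      refine Finset.sum_congr rfl fun j _ => ?_
      rw [eval_mul, eval_C, eval_pow, eval_X]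
    rw [← h3, ← h2, norm_mul, norm_pow]
    by_cases h0 : g = 0
    · rw [h0, coeff_zero, norm_zero, zero_mul]; exact norm_nonneg _
    · have hdeg : g.natDegree < d + 1 := by
        rw [natDegree_lt_iff_degree_lt h0, hg]
        exact degree_sum_fin_lt _
      refine sta1_roots h0 (fun β hβ => ?_) i
      obtain ⟨h4, h5⟩ := sta1_alg hE h0 hβ
      exact (h β h4 (h5.trans_lt hdeg)).ge

/-- STA1b.  Minimal degree version: all algebraic `β` of smaller degree are `0` or can be approximated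
by `E`, and `y` cannot: `‖y‖ ≤ ‖y - c‖` for all `c ∈ E`. (Here `‖y - c‖ = max ‖y‖ ‖c‖`, and if
`‖β - c‖ < ‖β‖`, then `‖c‖ = ‖β‖` and `‖y - β‖ = ‖y - c‖`.) -/
theorem orthBasis_of_min [IsUltrametricDist Ω] [IsAlgClosed Ω] {E : Subfield Ω} {y : Ω}
    (hy : IsAlgebraic E y) (hna : ∀ c ∈ E, ‖y‖ ≤ ‖y - c‖) {d : ℕ}
    (hd : (minpoly E y).natDegree = d + 1)
    (h : ∀ β : Ω, IsAlgebraic E β → (minpoly E β).natDegree < d + 1 → β ≠ 0 →
      ∃ c ∈ E, ‖β - c‖ < ‖β‖) :
    OrthBasis E (adj E y) (fun i : Fin (d + 1) => y ^ (i : ℕ)) := by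
  refine orthBasis_powers hy hd fun β hβ hβd => ?_
  by_cases hβ0 : β = 0
  · rw [hβ0, sub_zero, norm_zero, max_eq_left (norm_nonneg _)]
  by_cases hne : ‖y‖ = ‖β‖
  · obtain ⟨c, hc, hc1⟩ := h β hβ hβd hβ0
    rw [← hne, max_self]
    apply le_antisymm
    · have h1 := IsUltrametricDist.norm_add_le_max y (-β)
      rwa [norm_neg, ← sub_eq_add_neg, ← hne, max_self] at h1
    · by_contra hcon
      have h1 := IsUltrametricDist.norm_add_le_max (y - β) (β - c)
      rw [sub_add_sub_cancel] at h1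
      have h2 : ‖y - c‖ < ‖y‖ :=
        h1.trans_lt (max_lt (not_le.1 hcon) (by rw [hne]; exact hc1))
      exact absurd (hna c hc) (not_le.2 h2)
  · have h1 := IsUltrametricDist.norm_add_eq_max_of_norm_ne_norm (x := y) (y := -β)
      (by rwa [norm_neg])
    rwa [norm_neg, ← sub_eq_add_neg] at h1

end MP1a953e
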