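import Pool.Agent.Lib.MP_1a953e_ag.Sta1
import Pool.Agent.Lib.MP_1a953e_ag.GP1
import Pool.Agent.Lib.MP_1a953e_ag.Lin4

/-!
# Module Sta2: degree p extensions which are not immediate
-/

namespace MP1a953e

open Polynomial

variable {Ω : Type*} [NormedField Ω]

private theorem st2_finrank {F : Subfield Ω} {y : Ω} (hy : IsAlgebraic F y)
    [Algebra F (adj F y)] [IsScalarTower F (adj F y) Ω] :
    FiniteDimensional F (adj F y) ∧
      Module.finrank F (adj F y) = (minpoly F y).natDegree := by
  have hsmul : ∀ (c : F) (x : adj F y), ((c • x : adj F y) : Ω) = c • (x : Ω) := by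
    intro c x
    have h := algebraMap_smul (R := F) (A := adj F y) (M := Ω) c (x : Ω)
    rw [← h, Algebra.smul_def c x]
    rfl
  let e : IntermediateField.adjoin F ({y} : Set Ω) ≃ₗ[F] adj F y :=
    { toFun := fun x => ⟨x.1, (mem_adj_iff F y x.1).2 x.2⟩
      invFun := fun x => ⟨x.1, (mem_adj_iff F y x.1).1 x.2⟩
      left_inv := fun x => rfl
      right_inv := fun x => rfl
      map_add' := fun x z => rfl
      map_smul' := fun c x => by
        apply Subtype.ext
        rw [RingHom.id_apply, hsmul]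
        rfl }
  have h1 : FiniteDimensional F (IntermediateField.adjoin F ({y} : Set Ω)) :=
    IntermediateField.adjoin.finiteDimensional hy.isIntegral
  refine ⟨Module.Finite.equiv e, ?_⟩
  rw [← e.finrank_eq]
  exact IntermediateField.adjoin.finrank hy.isIntegral

/-- coprime degrees: the minimal polynomial does not change -/
private theorem st2_minpoly {F : Subfield Ω} {y β : Ω} (hy : IsAlgebraic F y)
    (hβ : IsAlgebraic F β)
    (hco : ((minpoly F β).natDegree).Coprime (minpoly F y).natDegree) :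
    ∀ β' : Ω, aeval β' (minpoly F β) = 0 →
      minpoly (adj F y) β' = minpoly (adj F y) β := by
  let _ : Algebra F (adj F y) := (Subfield.inclusion (le_adj F y)).toAlgebra
  have : IsScalarTower F (adj F y) Ω := IsScalarTower.of_algebraMap_eq fun x => rfl
  obtain ⟨hfd, hrk⟩ := st2_finrank hy
  have hβi : IsIntegral F β := hβ.isIntegral
  have hβQ : IsIntegral (adj F y) β := hβi.tower_top
  set B := IntermediateField.adjoin (adj F y) ({β} : Set Ω) with hB
  have hfB : FiniteDimensional (adj F y) B := IntermediateField.adjoin.finiteDimensional hβQ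
  have hrB : Module.finrank (adj F y) B = (minpoly (adj F y) β).natDegree :=
    IntermediateField.adjoin.finrank hβQ
  have : Module.Finite F B := Module.Finite.trans (adj F y) B
  have hmul : Module.finrank F (adj F y) * Module.finrank (adj F y) B = Module.finrank F B :=
    Module.finrank_mul_finrank F (adj F y) B
  have hβB : β ∈ B := IntermediateField.mem_adjoin_simple_self _ β
  have htow : IsScalarTower F B Ω := IsScalarTower.of_algebraMap_eq fun x => rfl
  have hmB : minpoly F (⟨β, hβB⟩ : B) = minpoly F β :=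
    (minpoly.algebraMap_eq (B := B) (B' := Ω) (algebraMap B Ω).injective ⟨β, hβB⟩).symm
  have hdvd : (minpoly F β).natDegree ∣ Module.finrank F B := by
    rw [← hmB]
    exact minpoly.degree_dvd (Algebra.IsIntegral.isIntegral _)
  rw [← hmul, hrk, hrB] at hdvd
  have hdvd2 : (minpoly F β).natDegree ∣ (minpoly (adj F y) β).natDegree :=
    hco.dvd_of_dvd_mul_left hdvd
  have hpos : 0 < (minpoly (adj F y) β).natDegree := minpoly.natDegree_pos hβQ
  have hle : (minpoly F β).natDegree ≤ (minpoly (adj F y) β).natDegree :=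
    Nat.le_of_dvd hpos hdvd2
  have hdvd3 : minpoly (adj F y) β ∣ (minpoly F β).map (algebraMap F (adj F y)) :=
    minpoly.dvd_map_of_isScalarTower F (adj F y) β
  have hmonF : ((minpoly F β).map (algebraMap F (adj F y))).Monic := (minpoly.monic hβi).map _
  have heq : minpoly (adj F y) β = (minpoly F β).map (algebraMap F (adj F y)) := by
    refine (eq_of_monic_of_dvd_of_natDegree_le (minpoly.monic hβQ) hmonF hdvd3 ?_).symm
    rw [(minpoly.monic hβi).natDegree_map]
    exact hle
  intro β' hβ'
  have h1 : aeval β' (minpoly (adj F y) β) = 0 := by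
    rw [heq, aeval_map_algebraMap]
    exact hβ'
  exact (minpoly.eq_of_irreducible_of_monic (minpoly.irreducible hβQ) h1
    (minpoly.monic hβQ)).symm

private theorem st2_norm_natCast [IsUltrametricDist Ω] {p : ℕ} [Fact p.Prime]
    (hp : ‖(p : Ω)‖ < 1) {m : ℕ} (hm : m.Coprime p) : ‖(m : Ω)‖ = 1 := by
  refine le_antisymm (IsUltrametricDist.norm_natCast_le_one Ω m) ?_
  by_contra hlt
  push Not at hlt
  obtain ⟨a, b, hab⟩ := Nat.isCoprime_iff_coprime.2 hm
  have h1 : (a : Ω) * (m : Ω) + (b : Ω) * (p : Ω) = 1 := by exact_mod_cast congrArg (Int.cast : ℤ → Ω) hab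
  have h2 : ‖(a : Ω) * (m : Ω) + (b : Ω) * (p : Ω)‖ < 1 := by
    refine lt_of_le_of_lt (IsUltrametricDist.norm_add_le_max _ _) (max_lt ?_ ?_)
    · rw [norm_mul]
      exact lt_of_le_of_lt (mul_le_of_le_one_left (norm_nonneg _)
        (IsUltrametricDist.norm_intCast_le_one Ω a)) hlt
    · rw [norm_mul]
      exact lt_of_le_of_lt (mul_le_of_le_one_left (norm_nonneg _)
        (IsUltrametricDist.norm_intCast_le_one Ω b)) hp
  rw [h1, norm_one] at h2
  exact lt_irrefl _ h2

/-- STA2.  `F` complete, `‖p‖ < 1`, `y` of degree `p` over `F`, `‖y‖ ≤ ‖y - c‖` for all `c ∈ F`. Then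
`1, y, …, y ^ (p-1)` is an orthogonal basis of `F(y)`.
Proof.  We verify the hypothesis of `orthBasis_powers`. Let `β` be of degree `m < p` over `F`
and suppose `‖y - β‖ < max ‖y‖ ‖β‖`; then `‖y‖ = ‖β‖`, `‖y - β‖ < ‖y‖`. Let `Q = adj F y`
(complete, `complete_adj`). As `m` and `p` are coprime, the minimal polynomial of `β` over `Q` has
degree `m` (`[F(y, β) : F]` is divisible by `m` and by `p`, so it is `m * p`), so it is the
minimal polynomial `f` of `β` over `F`. For every root `β'` of `f`, `β' - y` and `β - y` have the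
same minimal polynomial over `Q`, hence the same norm (`norm_eq_of_minpoly_eq`). The sum of
the `m` roots of `f` (with multiplicity) is in `F` (a coefficient of `f`); `m * y - ∑ β'` has norm
`< ‖y‖`, and `‖(m : Ω)‖ = 1` (`p` does not divide `m`, `‖p‖ < 1`): `c = (∑ β') / m ∈ F` satisfies
`‖y - c‖ < ‖y‖`, a contradiction. -/
theorem orthBasis_degree_p [IsUltrametricDist Ω] [IsAlgClosed Ω] {p : ℕ} [Fact p.Prime]
    (hp : ‖(p : Ω)‖ < 1) {F : Subfield Ω} (hF : IsComplete (F : Set Ω))
    (hnt : ∃ x ∈ F, 1 < ‖x‖) {y : Ω} (hy : IsAlgebraic F y) {d : ℕ} (hpd : d + 1 = p)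
    (hd : (minpoly F y).natDegree = d + 1) (hna : ∀ c ∈ F, ‖y‖ ≤ ‖y - c‖) :
    OrthBasis F (adj F y) (fun i : Fin (d + 1) => y ^ (i : ℕ)) := by
  refine orthBasis_powers hy hd fun β hβ hβd => ?_
  by_contra hne
  have hyβ : ‖y‖ = ‖β‖ := by
    by_contra h
    apply hne
    have h1 : ‖y‖ ≠ ‖-β‖ := by rwa [norm_neg]
    have h2 := IsUltrametricDist.norm_add_eq_max_of_norm_ne_norm h1
    rw [norm_neg, ← sub_eq_add_neg] at h2
    exact h2
  have hle : ‖y - β‖ ≤ max ‖y‖ ‖β‖ := by
    have h1 := IsUltrametricDist.norm_add_le_max y (-β)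
    rwa [norm_neg, ← sub_eq_add_neg] at h1
  have hlt : ‖β - y‖ < ‖y‖ := by
    rw [norm_sub_rev]
    have h1 : max ‖y‖ ‖β‖ = ‖y‖ := by rw [← hyβ, max_self]
    rw [h1] at hle hne
    exact lt_of_le_of_ne hle hne
  have hy0 : 0 < ‖y‖ := lt_of_le_of_lt (norm_nonneg _) hlt
  set m := (minpoly F β).natDegree with hm
  have hβi : IsIntegral F β := hβ.isIntegral
  have hm0 : 0 < m := minpoly.natDegree_pos hβi
  have hco : m.Coprime p := by
    refine (Nat.Prime.coprime_iff_not_dvd Fact.out).2 ?_ |>.symm
    intro h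
    have h1 := Nat.le_of_dvd hm0 h
    omega
  have hmn : ‖(m : Ω)‖ = 1 := st2_norm_natCast hp hco
  have hmin := st2_minpoly hy hβ (by rw [hd, hpd]; exact hco)
  have hQ : IsComplete (adj F y : Set Ω) := complete_adj hF hnt hy
  have hntQ : ∃ x ∈ adj F y, 1 < ‖x‖ := by
    obtain ⟨x, hx, h1⟩ := hnt
    exact ⟨x, le_adj F y hx, h1⟩
  have hβQ : IsAlgebraic (adj F y) β := by
    let _ : Algebra F (adj F y) := (Subfield.inclusion (le_adj F y)).toAlgebra
    have : IsScalarTower F (adj F y) Ω := IsScalarTower.of_algebraMap_eq fun x => rfl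
    exact (hβi.tower_top (A := adj F y)).isAlgebraic
  set f := minpoly F β with hf
  have hmon : f.Monic := minpoly.monic hβi
  set G := f.map (algebraMap F Ω) with hG
  have hGmon : G.Monic := hmon.map _
  have hcard : G.roots.card = m := by
    rw [hm, ← hmon.natDegree_map (algebraMap F Ω)]
    exact (IsAlgClosed.splits G).natDegree_eq_card_roots.symm
  have hsum : G.roots.sum = -algebraMap F Ω f.nextCoeff := by
    have h1 := (IsAlgClosed.splits G).nextCoeff_eq_neg_sum_roots_of_monic hGmon
    have h2 : G.nextCoeff = algebraMap F Ω f.nextCoeff :=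
      nextCoeff_map (algebraMap F Ω).injective f
    rw [← h2, h1, neg_neg]
  have hroot : ∀ r ∈ G.roots, ‖r - y‖ < ‖y‖ := by
    intro r hr
    have h1 : aeval r f = 0 := by
      have h2 := (mem_roots hGmon.ne_zero).1 hr
      rwa [IsRoot.def, hG, eval_map_algebraMap] at h2
    have h2 := hmin r h1
    have h3 : minpoly (adj F y) (β - y) = minpoly (adj F y) (r - y) := by
      have h4 := minpoly.sub_algebraMap β (⟨y, mem_adj_self F y⟩ : adj F y)
      have h5 := minpoly.sub_algebraMap r (⟨y, mem_adj_self F y⟩ : adj F y)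
      have h6 : β - algebraMap (adj F y) Ω (⟨y, mem_adj_self F y⟩ : adj F y) = β - y := rfl
      have h7 : r - algebraMap (adj F y) Ω (⟨y, mem_adj_self F y⟩ : adj F y) = r - y := rfl
      rw [h6] at h4
      rw [h7] at h5
      rw [h4, h5, h2]
    have h8 : IsAlgebraic (adj F y) (β - y) := by
      have h9 := hβQ.isIntegral.sub
        (isIntegral_algebraMap (R := adj F y) (A := Ω) (x := ⟨y, mem_adj_self F y⟩))
      exact h9.isAlgebraic
    rw [← norm_eq_of_minpoly_eq hQ hntQ h8 h3]
    exact hlt
  have h1 : ∀ s : Multiset Ω, (∀ r ∈ s, ‖r - y‖ < ‖y‖) → ‖(s.map fun r => r - y).sum‖ < ‖y‖ := by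
    intro s hs
    induction s using Multiset.induction with
    | empty => simpa using hy0
    | cons a s ih =>
      rw [Multiset.map_cons, Multiset.sum_cons]
      refine lt_of_le_of_lt (IsUltrametricDist.norm_add_le_max _ _) (max_lt ?_ ?_)
      · exact hs a (Multiset.mem_cons_self a s)
      · exact ih fun r hr => hs r (Multiset.mem_cons_of_mem hr)
  have h2 := h1 G.roots hroot
  rw [Multiset.sum_map_sub, Multiset.map_id', hsum, Multiset.map_const', Multiset.sum_replicate,
    hcard, nsmul_eq_mul] at h2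
  have hm0' : (m : Ω) ≠ 0 := by
    intro h
    rw [h, norm_zero] at hmn
    exact zero_ne_one hmn
  have hmF : (m : Ω) ∈ F := natCast_mem F m
  have h3 := hna (-algebraMap F Ω f.nextCoeff / m)
    (F.div_mem (F.neg_mem f.nextCoeff.2) hmF)
  have h4 : y - -algebraMap F Ω f.nextCoeff / m =
      -((-algebraMap F Ω f.nextCoeff - m * y) / m) := by
    field_simp
    ring
  rw [h4, norm_neg, norm_div, hmn, div_one] at h3
  exact absurd h2 (not_lt.2 h3)

end MP1a953e
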