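import Pool.Agent.Lib.MP_1a953e_ag.PW4

/-!
# Module Sta3: approximate equations and distances
-/

namespace MP1a953e

open Polynomial

variable {Ω : Type*} [NormedField Ω]

private theorem sta3_basis (F : Subfield Ω) :
    OrthBasis F F (fun _ : Fin (0 + 1) => (1 : Ω)) where
  le := le_rfl
  zero := rfl
  mem := fun _ => F.one_mem
  ne := fun _ => one_ne_zero
  span := fun x hx => ⟨fun _ => x, fun _ => hx, by simp⟩
  orth := fun c _ i => by
    fin_cases i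
    simp

private theorem sta3_sub [IsUltrametricDist Ω] (x y : Ω) : ‖x - y‖ ≤ max ‖x‖ ‖y‖ := by
  have h := IsUltrametricDist.norm_add_le_max x (-y)
  rwa [norm_neg, ← sub_eq_add_neg] at h

private theorem sta3_radius {q R : ℝ} (p : ℕ) (hR : 1 < R) (hq : q < 1) :
    ∃ B : ℝ, 1 < B ∧ B ^ p ≤ R ∧ q * B ^ p ≤ 1 := by
  have h1 : ∀ᶠ b : ℝ in nhdsWithin 1 (Set.Ioi 1), b ^ p < R := by
    have h : Filter.Tendsto (fun b : ℝ => b ^ p) (nhdsWithin 1 (Set.Ioi 1)) (nhds (1 ^ p)) :=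
      ((continuous_pow p).tendsto 1).mono_left nhdsWithin_le_nhds
    rw [one_pow] at h
    exact h.eventually (gt_mem_nhds hR)
  have h2 : ∀ᶠ b : ℝ in nhdsWithin 1 (Set.Ioi 1), q * b ^ p < 1 := by
    have h : Filter.Tendsto (fun b : ℝ => q * b ^ p) (nhdsWithin 1 (Set.Ioi 1))
        (nhds (q * 1 ^ p)) :=
      ((continuous_const.mul (continuous_pow p)).tendsto 1).mono_left nhdsWithin_le_nhds
    rw [one_pow, mul_one] at h
    exact h.eventually (gt_mem_nhds hq)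
  have h3 : ∀ᶠ b : ℝ in nhdsWithin 1 (Set.Ioi 1), 1 < b := self_mem_nhdsWithin
  obtain ⟨b, hb1, hb2, hb3⟩ := (h1.and (h2.and h3)).exists
  exact ⟨b, hb3, hb1.le, hb2.le⟩

/-- STA3 (consequence of `pw`; `c0 = 0` or `c0 = 1`).  Let `‖z - g‖ > 1` for all `g ∈ F`. For `B > 1`
sufficiently close to `1` (depending only on `F`, `p`, `c0`) and every `a ∈ F`, the conditions `‖z‖ ≤ B`,
`‖a - (z ^ p - c0 * z)‖ ≤ 1` imply that some `S₀ ∈ F` is a best approximation of `z`.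
Proof.  Apply `pw` with `F' = F` (trivial basis, `d = 0`), `C = 0`, `H = 1`, `c 0 = -c0`, `c 1 = 1`: `R₀`.
Choose `B > 1` with `B ^ p ≤ R₀`, `‖p‖ * B ^ p ≤ 1`. Take `e = - a` (`‖a‖ ≤ B ^ p ≤ R₀`): `S₀ ∈ F`, and
for `S ∈ F`, `‖S‖ ≤ B`: `‖S - S₀‖ ^ p ≤ max 1 ‖a - (S ^ p - c0 * S)‖`. By `norm_sub_pow_sub`
(`H = 1`) `z ^ p - S ^ p = (z - S) ^ p` up to norm `≤ ‖p‖ * B ^ p ≤ 1`, so
`‖a - (S ^ p - c0 * S)‖ ≤ max 1 ‖z - S‖ ^ p = ‖z - S‖ ^ p` (as `‖z - S‖ > 1`). Hence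
`‖S - S₀‖ ≤ ‖z - S‖`, so `‖z - S₀‖ ≤ ‖z - S‖`. For `S = 0` this gives `‖z - S₀‖ ≤ ‖z‖ ≤ B`, and for `‖S‖ > B`
we have `‖z - S‖ = ‖S‖ > B`. -/
theorem best_approx [IsUltrametricDist Ω] {p : ℕ} [Fact p.Prime] (hp : ‖(p : Ω)‖ < 1)
    {k F : Subfield Ω} {n : ℕ} {s : Fin n → Ω} (hF : TF k F s) (c0 : Ω)
    (hc0 : c0 = 0 ∨ c0 = 1) :
    ∃ B : ℝ, 1 < B ∧ ∀ z : Ω, ‖z‖ ≤ B → (∀ g ∈ F, 1 < ‖z - g‖) → ∀ a ∈ F,
      ‖a - (z ^ p - c0 * z)‖ ≤ 1 → ∃ S₀ ∈ F, ∀ S ∈ F, ‖z - S₀‖ ≤ ‖z - S‖ := by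
  have hp1 : 1 < p := (Fact.out : p.Prime).one_lt
  have hc0F : c0 ∈ F := by
    rcases hc0 with rfl | rfl
    · exact F.zero_mem
    · exact F.one_mem
  have hc0n : ‖c0‖ ≤ 1 := by
    rcases hc0 with rfl | rfl
    · simp
    · simp
  obtain ⟨R, hR1, hR⟩ := pw hp hF (sta3_basis F) (fun _ => 0) (fun _ _ => F.zero_mem)
    (fun _ _ _ _ => (add_zero _).symm) (fun y _ _ _ => (mul_zero y).symm)
    (fun x _ => by rw [norm_zero]; exact norm_nonneg x) (le_refl 1)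
    (fun h : ℕ => if h = 0 then -c0 else 1)
    (fun h _ => by
      split_ifs
      · exact F.neg_mem hc0F
      · exact F.one_mem)
    (fun h _ => by
      split_ifs
      · rwa [norm_neg]
      · simp) (by simp)
  obtain ⟨B, hB1, hB2, hB3⟩ := sta3_radius p hR1 hp
  have hBp : B ≤ B ^ p := by
    calc B = B ^ 1 := (pow_one B).symm
      _ ≤ B ^ p := pow_le_pow_right₀ hB1.le hp1.le
  refine ⟨B, hB1, fun z hz hzg a ha haz => ?_⟩
  have hz1 : 1 < ‖z‖ := by simpa using hzg 0 F.zero_mem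
  have han : ‖-a‖ ≤ R := by
    rw [norm_neg]
    have h1 : a = (a - (z ^ p - c0 * z)) + (z ^ p - c0 * z) := by ring
    rw [h1]
    refine (IsUltrametricDist.norm_add_le_max _ _).trans (max_le (haz.trans hR1.le) ?_)
    refine (sta3_sub _ _).trans (max_le ?_ ?_)
    · rw [norm_pow]
      exact (by gcongr : ‖z‖ ^ p ≤ B ^ p).trans hB2
    · rw [norm_mul]
      calc ‖c0‖ * ‖z‖ ≤ 1 * B := by gcongr
        _ = B := one_mul B
        _ ≤ R := hBp.trans hB2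
  obtain ⟨S0, hS0, hS0R, hS⟩ := hR (-a) (F.neg_mem ha) han
  have key : ∀ S ∈ F, ‖S‖ ≤ B → ‖z - S0‖ ≤ ‖z - S‖ := by
    intro S hSF hSB
    have h1 := hS S hSF (hSB.trans (hBp.trans hB2))
    have h2 : (0 : Ω) - ∑ h ∈ Finset.range (1 + 1), (if h = 0 then -c0 else 1) * S ^ p ^ h - -a =
        a - (S ^ p - c0 * S) := by
      rw [Finset.sum_range_succ, Finset.sum_range_one]
      simp only [if_true, one_ne_zero, if_false, pow_zero, pow_one]
      ring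
    rw [h2, pow_one] at h1
    have hzS : 1 < ‖z - S‖ := hzg S hSF
    have hzSp : ‖z - S‖ ≤ ‖z - S‖ ^ p := by
      calc ‖z - S‖ = ‖z - S‖ ^ 1 := (pow_one _).symm
        _ ≤ ‖z - S‖ ^ p := pow_le_pow_right₀ hzS.le hp1.le
    have h3 := norm_sub_pow_sub hp.le hz hSB 1
    rw [pow_one] at h3
    have h4 : ‖a - (S ^ p - c0 * S)‖ ≤ ‖z - S‖ ^ p := by
      have h5 : a - (S ^ p - c0 * S) = (a - (z ^ p - c0 * z)) +
          ((z - S) ^ p - ((z - S) ^ p - (z ^ p - S ^ p)) - c0 * (z - S)) := by ring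
      rw [h5]
      refine (IsUltrametricDist.norm_add_le_max _ _).trans (max_le
        (haz.trans (hzS.le.trans hzSp)) ?_)
      refine (sta3_sub _ _).trans (max_le ?_ ?_)
      · refine (sta3_sub _ _).trans (max_le ?_ ?_)
        · rw [norm_pow]
        · exact h3.trans (hB3.trans (hzS.le.trans hzSp))
      · rw [norm_mul]
        calc ‖c0‖ * ‖z - S‖ ≤ 1 * ‖z - S‖ := by gcongr
          _ = ‖z - S‖ := one_mul _
          _ ≤ ‖z - S‖ ^ p := hzSp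
    have h6 : ‖S - S0‖ ^ p ≤ ‖z - S‖ ^ p := h1.trans (max_le (hzS.le.trans hzSp) h4)
    have h7 : ‖S - S0‖ ≤ ‖z - S‖ :=
      le_of_pow_le_pow_left₀ (by omega) (norm_nonneg _) h6
    have h8 : z - S0 = (z - S) + (S - S0) := by ring
    rw [h8]
    exact (IsUltrametricDist.norm_add_le_max _ _).trans (max_le le_rfl h7)
  refine ⟨S0, hS0, fun S hSF => ?_⟩
  rcases le_or_gt ‖S‖ B with h | h
  · exact key S hSF h
  · have h0 := key 0 F.zero_mem (by rw [norm_zero]; linarith)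
    rw [sub_zero] at h0
    have h1 : ‖S‖ ≤ ‖z - S‖ := by
      by_contra hcon
      push Not at hcon
      have h2 := sta3_sub z (z - S)
      rw [sub_sub_cancel] at h2
      have h3 := max_lt (hz.trans_lt h) hcon
      linarith
    linarith

end MP1a953e
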