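import Pool.Agent.Lib.MP_1a953e_ag.Sta3
import Pool.Agent.Lib.MP_1a953e_ag.GP1

/-!
# Module Sta4: immediate Galois extensions of degree p
-/

namespace MP1a953e

open Polynomial

variable {Ω : Type*} [NormedField Ω]

private theorem sta4_zmod (p : ℕ) [Fact p.Prime] :
    ∏ i ∈ Finset.range p, (X + C ((i : ℕ) : ZMod p)) = (X ^ p - X : (ZMod p)[X]) := by
  have h1 : (X ^ p - X : (ZMod p)[X]).Monic :=
    monic_X_pow_sub (by rw [degree_X]; exact_mod_cast (Fact.out : p.Prime).one_lt)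
  have h2 : roots (X ^ p - X : (ZMod p)[X]) = Finset.univ.val := by
    have := FiniteField.roots_X_pow_card_sub_X (ZMod p)
    rwa [ZMod.card] at this
  have h3 : Multiset.card (roots (X ^ p - X : (ZMod p)[X])) =
      (X ^ p - X : (ZMod p)[X]).natDegree := by
    rw [h2, FiniteField.X_pow_card_sub_X_natDegree_eq _ (Fact.out : p.Prime).one_lt]
    simp
  have h4 := prod_multiset_X_sub_C_of_monic_of_roots_card_eq h1 h3
  rw [h2] at h4
  rw [← h4]
  have h5 : (Multiset.map (fun a => X - C a) (Finset.univ : Finset (ZMod p)).val).prod =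
      ∏ a : ZMod p, (X - C a) := rfl
  rw [h5]
  refine Finset.prod_nbij' (fun i => -((i : ℕ) : ZMod p)) (fun a => (-a).val) ?_ ?_ ?_ ?_ ?_
  · intro i _; exact Finset.mem_univ _
  · intro a _; exact Finset.mem_range.2 (ZMod.val_lt _)
  · intro i hi
    simp only [neg_neg]
    exact ZMod.val_cast_of_lt (Finset.mem_range.1 hi)
  · intro a _
    simp
  · intro i _
    simp

private theorem sta4_dvd (p : ℕ) [Fact p.Prime] (j : ℕ) :
    (p : ℤ) ∣ (∏ i ∈ Finset.range p, (X + C ((i : ℕ) : ℤ)) - (X ^ p - X) : ℤ[X]).coeff j := by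
  rw [← ZMod.intCast_zmod_eq_zero_iff_dvd]
  have h1 : (∏ i ∈ Finset.range p, (X + C ((i : ℕ) : ℤ)) - (X ^ p - X) : ℤ[X]).map
      (Int.castRingHom (ZMod p)) = 0 := by
    rw [Polynomial.map_sub, Polynomial.map_prod, Polynomial.map_sub, Polynomial.map_pow, map_X]
    rw [sub_eq_zero, ← sta4_zmod p]
    refine Finset.prod_congr rfl fun i _ => ?_
    simp
  have h2 := congrArg (fun q => q.coeff j) h1
  rw [coeff_map, coeff_zero] at h2
  exact h2

private theorem sta4_eval [IsUltrametricDist Ω] (p : ℕ) [Fact p.Prime] (z : Ω) (hz : 1 ≤ ‖z‖) :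
    ‖∏ i ∈ Finset.range p, (z + (i : Ω)) - (z ^ p - z)‖ ≤ ‖(p : Ω)‖ * ‖z‖ ^ p := by
  set Q : ℤ[X] := ∏ i ∈ Finset.range p, (X + C ((i : ℕ) : ℤ)) - (X ^ p - X) with hQ
  have hp1 : 1 < p := (Fact.out : p.Prime).one_lt
  have hdeg : Q.natDegree ≤ p := by
    refine (natDegree_sub_le _ _).trans (max_le ?_ ?_)
    · refine (natDegree_prod_le _ _).trans ?_
      refine (Finset.sum_le_card_nsmul _ _ 1 fun i _ => ?_).trans ?_
      · exact (natDegree_X_add_C _).le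
      · simp
    · refine (natDegree_sub_le _ _).trans (max_le ?_ ?_)
      · simp
      · rw [natDegree_X]; exact hp1.le
  have h1 : ∏ i ∈ Finset.range p, (z + (i : Ω)) - (z ^ p - z) = aeval z Q := by
    simp [hQ, map_prod]
  rw [h1, aeval_eq_sum_range' (n := p + 1) (by omega)]
  refine IsUltrametricDist.norm_sum_le_of_forall_le_of_nonneg (by positivity) fun i hi => ?_
  obtain ⟨m, hm⟩ := sta4_dvd p i
  rw [← hQ] at hm
  rw [hm, zsmul_eq_mul]
  push_cast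
  rw [norm_mul, norm_mul, norm_pow, mul_assoc]
  have h2 : ‖(m : Ω)‖ ≤ 1 := IsUltrametricDist.norm_intCast_le_one Ω m
  have h3 : ‖z‖ ^ i ≤ ‖z‖ ^ p := pow_le_pow_right₀ hz (by simpa [Nat.lt_succ_iff] using Finset.mem_range.1 hi)
  have h4 : ‖(m : Ω)‖ * ‖z‖ ^ i ≤ 1 * ‖z‖ ^ p := by gcongr
  rw [one_mul] at h4
  gcongr

private theorem sta4_prod [IsUltrametricDist Ω] {ι : Type*} [DecidableEq ι] (s : Finset ι) (u v : ι → Ω) {M c : ℝ}
    (hM : 0 < M) (hc : 0 ≤ c) (hu : ∀ i ∈ s, ‖u i‖ ≤ M) (hv : ∀ i ∈ s, ‖v i‖ ≤ M)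
    (huv : ∀ i ∈ s, ‖u i - v i‖ ≤ c * M) :
    ‖∏ i ∈ s, u i - ∏ i ∈ s, v i‖ ≤ c * M ^ s.card := by
  induction s using Finset.induction_on with
  | empty => simp [hc]
  | insert a s ha ih =>
    rw [Finset.prod_insert ha, Finset.prod_insert ha, Finset.card_insert_of_notMem ha]
    have h1 : u a * ∏ i ∈ s, u i - v a * ∏ i ∈ s, v i =
        (u a - v a) * ∏ i ∈ s, u i + v a * (∏ i ∈ s, u i - ∏ i ∈ s, v i) := by ring
    rw [h1]
    refine (IsUltrametricDist.norm_add_le_max _ _).trans (max_le ?_ ?_)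
    · rw [norm_mul, norm_prod]
      have h2 : ∏ i ∈ s, ‖u i‖ ≤ M ^ s.card := by
        refine (Finset.prod_le_prod (fun i _ => norm_nonneg _)
          fun i hi => hu i (Finset.mem_insert_of_mem hi)).trans ?_
        simp
      calc ‖u a - v a‖ * ∏ i ∈ s, ‖u i‖ ≤ (c * M) * M ^ s.card := by
            refine mul_le_mul (huv a (Finset.mem_insert_self _ _)) h2
              (Finset.prod_nonneg fun i _ => norm_nonneg _) (by positivity)
        _ = c * M ^ (s.card + 1) := by ring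
    · rw [norm_mul]
      calc ‖v a‖ * ‖∏ i ∈ s, u i - ∏ i ∈ s, v i‖ ≤ M * (c * M ^ s.card) := by
            refine mul_le_mul (hv a (Finset.mem_insert_self _ _))
              (ih (fun i hi => hu i (Finset.mem_insert_of_mem hi))
                (fun i hi => hv i (Finset.mem_insert_of_mem hi))
                (fun i hi => huv i (Finset.mem_insert_of_mem hi))) (norm_nonneg _) hM.le
        _ = c * M ^ (s.card + 1) := by ring

private theorem sta4_small (e B : ℝ) (he1 : e < 1) (hB : 1 < B) (m n : ℕ) :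
    ∃ b : ℝ, 1 < b ∧ b ^ m ≤ B ∧ e * b ^ n ≤ 1 := by
  have h1 : ∀ᶠ b : ℝ in nhdsWithin 1 (Set.Ioi 1), b ^ m < B := by
    have h : Filter.Tendsto (fun b : ℝ => b ^ m) (nhdsWithin 1 (Set.Ioi 1)) (nhds (1 ^ m)) :=
      ((continuous_pow m).tendsto 1).mono_left nhdsWithin_le_nhds
    rw [one_pow] at h
    exact h.eventually (gt_mem_nhds hB)
  have h2 : ∀ᶠ b : ℝ in nhdsWithin 1 (Set.Ioi 1), e * b ^ n < 1 := by
    have h : Filter.Tendsto (fun b : ℝ => e * b ^ n) (nhdsWithin 1 (Set.Ioi 1))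
        (nhds (e * 1 ^ n)) :=
      ((continuous_const.mul (continuous_pow n)).tendsto 1).mono_left nhdsWithin_le_nhds
    rw [one_pow, mul_one] at h
    exact h.eventually (gt_mem_nhds he1)
  have h3 : ∀ᶠ b : ℝ in nhdsWithin 1 (Set.Ioi 1), 1 < b := self_mem_nhdsWithin
  obtain ⟨b, hb1, hb2, hb3⟩ := (h1.and (h2.and h3)).exists
  exact ⟨b, hb3, hb1.le, hb2.le⟩

/-- STA4a.  Galois conjugation is isometric (`norm_eq_of_minpoly_eq`). -/
theorem norm_galois [IsUltrametricDist Ω] {F : Subfield Ω} (hF : IsComplete (F : Set Ω))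
    (hnt : ∃ x ∈ F, 1 < ‖x‖) (E : IntermediateField F Ω) [FiniteDimensional F E]
    (σ : E ≃ₐ[F] E) (x : E) : ‖((σ x : E) : Ω)‖ = ‖(x : Ω)‖ := by
  have h0 : IsAlgebraic F x := Algebra.IsAlgebraic.isAlgebraic x
  have h1 : minpoly F ((σ x : E) : Ω) = minpoly F (x : Ω) := by
    have h2 : minpoly F ((σ x : E) : Ω) = minpoly F (σ x) :=
      minpoly.algebraMap_eq (algebraMap E Ω).injective (σ x)
    have h3 : minpoly F ((x : E) : Ω) = minpoly F x :=
      minpoly.algebraMap_eq (algebraMap E Ω).injective x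
    rw [h2, h3, minpoly.algEquiv_eq]
  have h4 : IsAlgebraic F ((σ x : E) : Ω) := by
    have h5 : IsAlgebraic F (σ x) := Algebra.IsAlgebraic.isAlgebraic _
    exact h5.algebraMap
  exact norm_eq_of_minpoly_eq hF hnt h4 h1

/-- STA4b (small differences).  `E/F` Galois of degree `p`, `z ∈ E`, all `‖σ z - z‖ ≤ D`, `D < r`, and `r` is the
distance of `z` to `F`, not attained. Contradiction.
Proof.  `r > 0`. Let `B` be as in `best_approx` for `c0 = 0`, and `ε = max (D / r) ‖p‖ < 1`; make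
`B > 1` smaller such that `ε * B ^ p ≤ 1`. Choose `g₀ ∈ F` with `‖z - g₀‖ < r * β`, where `β > 1`,
`β ^ 2 ≤ B`, and `c ∈ F` with `1 / r < ‖c‖ < β / r` (`DenseVal`). Put `z' = c * (z - g₀)`, so
`‖z'‖ ≤ B`, `‖z' - g‖ > 1` for all `g ∈ F` (`‖c‖ * r > 1`). Let `a = ∏ σ z'` (over all `σ`), an element of
`F`; `σ z' = z' + δ σ`, `‖δ σ‖ ≤ ‖c‖ * D ≤ ε * ‖c‖ * r ≤ ε * ‖z'‖`, so
`‖a - z' ^ p‖ ≤ ε * ‖z'‖ ^ p ≤ 1`. `best_approx` gives `S₀ ∈ F` with `‖z' - S₀‖ ≤ ‖z' - S‖` for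
all `S ∈ F`; so `g₀ + S₀ / c` is an element of `F` closest to `z`, a contradiction. -/
theorem no_immediate_small [IsUltrametricDist Ω] {p : ℕ} [Fact p.Prime] (hp : ‖(p : Ω)‖ < 1)
    {k F : Subfield Ω} {n : ℕ} {s : Fin n → Ω} (hF : TF k F s) (hv : DenseVal F)
    (E : IntermediateField F Ω) [FiniteDimensional F E] [IsGalois F E]
    (hdeg : Module.finrank F E = p) (z : E) {D r : ℝ} (hr : ∀ g ∈ F, r < ‖(z : Ω) - g‖)
    (hr' : ∀ r' : ℝ, r < r' → ∃ g ∈ F, ‖(z : Ω) - g‖ < r')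
    (hD : ∀ σ : E ≃ₐ[F] E, ‖((σ z : E) : Ω) - z‖ ≤ D) (hDr : D < r) : False := by
  classical
  have hD0 : 0 ≤ D := (norm_nonneg _).trans (hD 1)
  have hr0 : 0 < r := lt_of_le_of_lt hD0 hDr
  obtain ⟨B, hB1, hB⟩ := best_approx hp hF 0 (Or.inl rfl)
  set e : ℝ := D / r with he
  have he0 : 0 ≤ e := by positivity
  have he1 : e < 1 := (div_lt_one hr0).2 hDr
  obtain ⟨b, hb1, hb2, hb3⟩ := sta4_small e B he1 hB1 2 (2 * p)
  have hb0 : 0 < b := by linarith
  obtain ⟨g0, hg0, hg0'⟩ := hr' (r * b) (by nlinarith)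
  obtain ⟨c, hc, hc1, hc2⟩ := hv (1 / r) (b / r) (by positivity)
    (div_lt_div_of_pos_right hb1 hr0)
  have hc0 : 0 < ‖c‖ := lt_trans (by positivity) hc1
  have hc0' : c ≠ 0 := norm_pos_iff.1 hc0
  have hcr : 1 < ‖c‖ * r := by
    rwa [div_lt_iff₀ hr0] at hc1
  have hcr2 : ‖c‖ * r < b := by
    rwa [lt_div_iff₀ hr0] at hc2
  set z' : E := algebraMap F E ⟨c, hc⟩ * (z - algebraMap F E ⟨g0, hg0⟩) with hz'
  have hz'c : (z' : Ω) = c * ((z : Ω) - g0) := by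
    rw [hz']; rfl
  have hzlow : ∀ g ∈ F, 1 < ‖(z' : Ω) - g‖ := by
    intro g hg
    have h1 : (z' : Ω) - g = c * ((z : Ω) - (g0 + g / c)) := by
      rw [hz'c]; field_simp; ring
    rw [h1, norm_mul]
    have h2 := hr (g0 + g / c) (F.add_mem hg0 (F.div_mem hg hc))
    calc (1 : ℝ) < ‖c‖ * r := hcr
      _ < ‖c‖ * ‖(z : Ω) - (g0 + g / c)‖ := by gcongr
  have hz1 : ‖(z' : Ω)‖ ≤ b ^ 2 := by
    rw [hz'c, norm_mul]
    calc ‖c‖ * ‖(z : Ω) - g0‖ ≤ ‖c‖ * (r * b) := by gcongr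
      _ = (‖c‖ * r) * b := by ring
      _ ≤ b * b := by gcongr
      _ = b ^ 2 := by ring
  have hz2 : ‖c‖ * r ≤ ‖(z' : Ω)‖ := by
    rw [hz'c, norm_mul]
    have := (hr g0 hg0).le
    gcongr
  have hz3 : 0 < ‖(z' : Ω)‖ := by linarith
  have hσ : ∀ σ : E ≃ₐ[F] E, ‖((σ z' : E) : Ω) - z'‖ ≤ e * ‖(z' : Ω)‖ := by
    intro σ
    have h1 : ((σ z' : E) : Ω) - z' = c * (((σ z : E) : Ω) - z) := by
      have h2 : σ z' - z' = algebraMap F E ⟨c, hc⟩ * (σ z - z) := by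
        rw [hz', map_mul, map_sub, AlgEquiv.commutes, AlgEquiv.commutes]
        ring
      have h3 := congrArg (fun w : E => (w : Ω)) h2
      exact h3
    rw [h1, norm_mul]
    calc ‖c‖ * ‖((σ z : E) : Ω) - z‖ ≤ ‖c‖ * D := by gcongr; exact hD σ
      _ = e * (‖c‖ * r) := by rw [he]; field_simp
      _ ≤ e * ‖(z' : Ω)‖ := by gcongr
  have hσ2 : ∀ σ : E ≃ₐ[F] E, ‖((σ z' : E) : Ω)‖ ≤ ‖(z' : Ω)‖ := by
    intro σ
    have h1 : ((σ z' : E) : Ω) = (((σ z' : E) : Ω) - z') + z' := by ring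
    rw [h1]
    refine (IsUltrametricDist.norm_add_le_max _ _).trans (max_le ((hσ σ).trans ?_) le_rfl)
    nlinarith
  have hnorm : ((algebraMap F E (Algebra.norm F z') : E) : Ω) =
      ∏ σ : E ≃ₐ[F] E, ((σ z' : E) : Ω) := by
    rw [Algebra.norm_eq_prod_automorphisms]
    push_cast
    rfl
  have hcard : (Finset.univ : Finset (E ≃ₐ[F] E)).card = p := by
    rw [Finset.card_univ, ← Nat.card_eq_fintype_card, IsGalois.card_aut_eq_finrank, hdeg]
  have hprod : ‖∏ σ : E ≃ₐ[F] E, ((σ z' : E) : Ω) - (z' : Ω) ^ p‖ ≤ 1 := by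
    have h1 := sta4_prod (Finset.univ : Finset (E ≃ₐ[F] E)) (fun σ => ((σ z' : E) : Ω))
      (fun _ => (z' : Ω)) hz3 he0 (fun σ _ => hσ2 σ) (fun _ _ => le_rfl) (fun σ _ => hσ σ)
    rw [Finset.prod_const, hcard] at h1
    refine h1.trans ?_
    calc e * ‖(z' : Ω)‖ ^ p ≤ e * (b ^ 2) ^ p := by gcongr
      _ = e * b ^ (2 * p) := by rw [pow_mul]
      _ ≤ 1 := hb3
  obtain ⟨S0, hS0, hS⟩ := hB (z' : Ω) (hz1.trans hb2) hzlow
    ((algebraMap F E (Algebra.norm F z') : E) : Ω) (Algebra.norm F z').2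
    (by rw [zero_mul, sub_zero, hnorm]; exact hprod)
  have h1 := hr (g0 + S0 / c) (F.add_mem hg0 (F.div_mem hS0 hc))
  obtain ⟨g, hg, hg'⟩ := hr' _ h1
  have h2 := hS (c * (g - g0)) (F.mul_mem hc (F.sub_mem hg hg0))
  have h3 : (z' : Ω) - S0 = c * ((z : Ω) - (g0 + S0 / c)) := by
    rw [hz'c]; field_simp; ring
  have h4 : (z' : Ω) - c * (g - g0) = c * ((z : Ω) - g) := by
    rw [hz'c]; ring
  rw [h3, h4, norm_mul, norm_mul] at h2
  have h5 := le_of_mul_le_mul_left h2 hc0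
  exact absurd hg' (not_lt.2 h5)

/-- STA4c (differences equal to the distance, normalized to `1`).  `E/F` Galois of degree `p`,
`‖σ z - z - 1‖ < 1` for a `σ ≠ 1`, and `1` is the distance of `z` to `F`, not attained.
Contradiction. Proof.  Let `η = ‖σ z - z - 1‖ < 1`. As conjugation is isometric, `σ ^ i z - z - i =
∑_{j<i} σ ^ j (σ z - z - 1)` has norm `≤ η`; `σ` generates the group of order `p`, so the conjugates
of `z` are the `σ ^ i z`, `i < p`. Let `B` be as in `best_approx` for `c0 = 1`, made smaller such that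
`max η ‖p‖ * B ^ p ≤ 1`. Choose `g₀ ∈ F` with `‖z - g₀‖ ≤ B` and put `z' = z - g₀`. Then
`a = ∏_{i<p} σ ^ i z' ∈ F`, `σ ^ i z' = z' + i + η i`, `‖η i‖ ≤ η`, `‖z'‖ > 1`, so `a` is
`∏_{i<p} (z' + i)` up to norm `≤ η * B ^ (p-1)`, and this is `z' ^ p - z'` up to norm
`≤ ‖p‖ * B ^ p` (the polynomial `∏_{i<p} (X + i) - (X ^ p - X)` has coefficients divisible by `p`). So
`‖a - (z' ^ p - z')‖ ≤ 1` and `best_approx` gives a contradiction as in STA4b. -/
theorem no_immediate_large [IsUltrametricDist Ω] {p : ℕ} [Fact p.Prime] (hp : ‖(p : Ω)‖ < 1)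
    {k F : Subfield Ω} {n : ℕ} {s : Fin n → Ω} (hF : TF k F s) (hnt : ∃ x ∈ F, 1 < ‖x‖)
    (E : IntermediateField F Ω) [FiniteDimensional F E] [IsGalois F E]
    (hdeg : Module.finrank F E = p) (z : E) (hr : ∀ g ∈ F, 1 < ‖(z : Ω) - g‖)
    (hr' : ∀ r' : ℝ, 1 < r' → ∃ g ∈ F, ‖(z : Ω) - g‖ < r')
    (σ : E ≃ₐ[F] E) (hσ : ‖((σ z : E) : Ω) - z - 1‖ < 1) : False := by
  classical
  obtain ⟨B, hB1, hB⟩ := best_approx hp hF 1 (Or.inr rfl)
  set η : ℝ := max ‖((σ z : E) : Ω) - z - 1‖ ‖(p : Ω)‖ with hη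
  have hη0 : 0 ≤ η := le_max_of_le_left (norm_nonneg _)
  have hη1 : η < 1 := max_lt hσ hp
  obtain ⟨b, hb1, hb2, hb3⟩ := sta4_small η B hη1 hB1 1 p
  have hb0 : 0 < b := by linarith
  rw [pow_one] at hb2
  obtain ⟨g0, hg0, hg0'⟩ := hr' b hb1
  -- the powers of σ
  have hpow : ∀ i : ℕ, ‖(((σ ^ i) z : E) : Ω) - z - i‖ ≤ η := by
    intro i
    induction i with
    | zero => simpa using hη0
    | succ i ih =>
      have h1 : (((σ ^ (i + 1)) z : E) : Ω) - z - ((i + 1 : ℕ) : Ω) =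
          (((σ ^ i) (σ z - z - 1) : E) : Ω) + ((((σ ^ i) z : E) : Ω) - z - i) := by
        rw [pow_succ, AlgEquiv.mul_apply, map_sub, map_sub, map_one]
        push_cast
        ring
      rw [h1]
      refine (IsUltrametricDist.norm_add_le_max _ _).trans (max_le ?_ ih)
      rw [norm_galois hF.complete hnt E (σ ^ i)]
      exact le_max_left _ _
  have hσ1 : σ ≠ 1 := by
    rintro rfl
    simp at hσ
  have hcard : Fintype.card (E ≃ₐ[F] E) = p := by
    rw [← Nat.card_eq_fintype_card, IsGalois.card_aut_eq_finrank, hdeg]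
  have hord : orderOf σ = p := by
    have h1 : orderOf σ ∣ p := hcard ▸ orderOf_dvd_card
    rcases (Nat.dvd_prime (Fact.out : p.Prime)).1 h1 with h | h
    · exact absurd (orderOf_eq_one_iff.1 h) hσ1
    · exact h
  have hinj : Set.InjOn (fun i : ℕ => σ ^ i) (Finset.range p : Finset ℕ) := by
    intro i hi j hj hij
    have hi' : i < orderOf σ := by rw [hord]; simpa using hi
    have hj' : j < orderOf σ := by rw [hord]; simpa using hj
    exact pow_injOn_Iio_orderOf hi' hj' hij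
  have huniv : (Finset.range p).image (fun i : ℕ => σ ^ i) = Finset.univ := by
    apply Finset.eq_univ_of_card
    rw [Finset.card_image_of_injOn hinj, hcard, Finset.card_range]
  set z' : E := z - algebraMap F E ⟨g0, hg0⟩ with hz'
  have hz'c : (z' : Ω) = (z : Ω) - g0 := by rw [hz']; rfl
  have hzlow : ∀ g ∈ F, 1 < ‖(z' : Ω) - g‖ := by
    intro g hg
    have h1 : (z' : Ω) - g = (z : Ω) - (g0 + g) := by rw [hz'c]; ring
    rw [h1]
    exact hr _ (F.add_mem hg0 hg)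
  have hz1 : ‖(z' : Ω)‖ ≤ b := by rw [hz'c]; exact hg0'.le
  have hz2 : 1 < ‖(z' : Ω)‖ := by simpa using hzlow 0 F.zero_mem
  have hnorm : ((algebraMap F E (Algebra.norm F z') : E) : Ω) =
      ∏ i ∈ Finset.range p, (((σ ^ i) z' : E) : Ω) := by
    rw [Algebra.norm_eq_prod_automorphisms, ← huniv, Finset.prod_image hinj]
    push_cast
    rfl
  have hi1 : ∀ i : ℕ, ‖(i : Ω)‖ ≤ 1 := fun i => IsUltrametricDist.norm_natCast_le_one Ω i
  have hdiff : ∀ i : ℕ, ‖(((σ ^ i) z' : E) : Ω) - (z' + (i : Ω))‖ ≤ η * ‖(z' : Ω)‖ := by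
    intro i
    have h1 : (((σ ^ i) z' : E) : Ω) - (z' + (i : Ω)) = (((σ ^ i) z : E) : Ω) - z - i := by
      rw [hz', map_sub, AlgEquiv.commutes]
      push_cast
      ring
    rw [h1]
    refine (hpow i).trans ?_
    nlinarith
  have hv : ∀ i : ℕ, ‖(z' : Ω) + (i : Ω)‖ ≤ ‖(z' : Ω)‖ := by
    intro i
    exact (IsUltrametricDist.norm_add_le_max _ _).trans (max_le le_rfl ((hi1 i).trans hz2.le))
  have hu : ∀ i : ℕ, ‖(((σ ^ i) z' : E) : Ω)‖ ≤ ‖(z' : Ω)‖ := fun i =>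
    (norm_galois hF.complete hnt E (σ ^ i) z').le
  have hprod1 := sta4_prod (Finset.range p) (fun i => (((σ ^ i) z' : E) : Ω))
    (fun i => (z' : Ω) + (i : Ω)) (by linarith : (0 : ℝ) < ‖(z' : Ω)‖) hη0
    (fun i _ => hu i) (fun i _ => hv i) (fun i _ => hdiff i)
  rw [Finset.card_range] at hprod1
  have hprod2 := sta4_eval p (z' : Ω) hz2.le
  have hbound : η * ‖(z' : Ω)‖ ^ p ≤ 1 :=
    (by gcongr : η * ‖(z' : Ω)‖ ^ p ≤ η * b ^ p).trans hb3
  have hprod : ‖∏ i ∈ Finset.range p, (((σ ^ i) z' : E) : Ω) -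
      ((z' : Ω) ^ p - 1 * (z' : Ω))‖ ≤ 1 := by
    have h1 : ∏ i ∈ Finset.range p, (((σ ^ i) z' : E) : Ω) -
      ((z' : Ω) ^ p - 1 * (z' : Ω)) = (∏ i ∈ Finset.range p, (((σ ^ i) z' : E) : Ω) -
        ∏ i ∈ Finset.range p, ((z' : Ω) + (i : Ω))) +
        (∏ i ∈ Finset.range p, ((z' : Ω) + (i : Ω)) - ((z' : Ω) ^ p - z')) := by ring
    rw [h1]
    refine (IsUltrametricDist.norm_add_le_max _ _).trans (max_le (hprod1.trans hbound) ?_)
    refine hprod2.trans (le_trans ?_ hbound)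
    gcongr
    exact le_max_right _ _
  obtain ⟨S0, hS0, hS⟩ := hB (z' : Ω) (hz1.trans hb2) hzlow
    ((algebraMap F E (Algebra.norm F z') : E) : Ω) (Algebra.norm F z').2
    (by rw [hnorm]; exact hprod)
  have h1 := hr (g0 + S0) (F.add_mem hg0 hS0)
  obtain ⟨g, hg, hg'⟩ := hr' _ h1
  have h2 := hS (g - g0) (F.sub_mem hg hg0)
  have h3 : (z' : Ω) - S0 = (z : Ω) - (g0 + S0) := by rw [hz'c]; ring
  have h4 : (z' : Ω) - (g - g0) = (z : Ω) - g := by rw [hz'c]; ring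
  rw [h3, h4] at h2
  exact absurd hg' (not_lt.2 h2)

end MP1a953e
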