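import Pool.Agent.Lib.MP_1a953e_ag.Sta2
import Pool.Agent.Lib.MP_1a953e_ag.Sta4

/-!
# Module Sta5: Galois extensions of degree p have orthogonal bases
-/

namespace MP1a953e

open Polynomial

variable {Ω : Type*} [NormedField Ω]

private theorem sta5_adj {F : Subfield Ω} (E : IntermediateField F Ω) {y : Ω} (hy : y ∈ E)
    (hE : ∀ x ∈ E, x ∈ IntermediateField.adjoin F {y}) : E.toSubfield = adj F y := by
  apply le_antisymm
  · intro x hx
    have h1 := hE x hx
    have h2 : IntermediateField.adjoin F {y} ≤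
        (IntermediateField.adjoin F {y} : IntermediateField F Ω) := le_rfl
    have h3 : x ∈ (IntermediateField.adjoin F {y}).toSubfield := h1
    rw [IntermediateField.adjoin_toSubfield] at h3
    have h4 : (Subfield.closure (Set.range (algebraMap F Ω) ∪ {y})) ≤ adj F y := by
      rw [Subfield.closure_le]
      rintro w (⟨v, rfl⟩ | hw)
      · exact le_adj F y v.2
      · rw [Set.mem_singleton_iff] at hw
        subst hw
        exact mem_adj_self F _
    exact h4 h3
  · refine adj_le ?_ hy
    intro x hx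
    exact E.algebraMap_mem ⟨x, hx⟩

/-- STA5.  Proof.  Case 1: some `y ∈ E` satisfies `y ∉ F` and `‖y‖ ≤ ‖y - c‖` for all `c ∈ F`. `y` has
degree `p` over `F` (prime degree), `adj F y = E`, use `orthBasis_degree_p`.
Case 2: for every `y ∈ E`, `y ≠ 0`, there is `c ∈ F` with `‖y - c‖ < ‖y‖` (for `y ∈ F` take `c = y`). Let
`z ∈ E`, `z ∉ F`, `r = infDist z F > 0` (`F` is closed). No `g ∈ F` has `‖z - g‖ = r` (apply case 2 to
`z - g`). Let `σ` be a generator of the group, `D = ‖σ z - z‖ > 0`; all `‖τ z - z‖ ≤ D` (telescoping,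
isometry). `D ≤ r`: otherwise there is `g ∈ F` with `‖z - g‖ < D`, and
`‖σ z - g‖ = ‖σ (z - g)‖ < D`, `‖σ z - z‖ < D`. If `D < r` use `no_immediate_small`. If `D = r`,
choose `c ∈ F` with `‖σ z - z - c‖ < ‖σ z - z‖ = ‖c‖ = r` and apply `no_immediate_large` to `z / c`. -/
theorem orthBasis_galois_p [IsUltrametricDist Ω] [IsAlgClosed Ω] {p : ℕ} [Fact p.Prime]
    (hp : ‖(p : Ω)‖ < 1) {k F : Subfield Ω} {n : ℕ} {s : Fin n → Ω} (hF : TF k F s)
    (hv : DenseVal F) (E : IntermediateField F Ω) [FiniteDimensional F E] [IsGalois F E]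
    (hdeg : Module.finrank F E = p) :
    ∃ (d : ℕ) (θ : Fin (d + 1) → Ω), OrthBasis F E.toSubfield θ := by
  classical
  have hp1 : 1 < p := (Fact.out : p.Prime).one_lt
  have hnt : ∃ x ∈ F, 1 < ‖x‖ := by
    obtain ⟨x, hx, hx1, _⟩ := hv 1 2 one_pos (by norm_num)
    exact ⟨x, hx, hx1⟩
  by_cases hcase : ∃ y : E, (y : Ω) ∉ F ∧ ∀ c ∈ F, ‖(y : Ω)‖ ≤ ‖(y : Ω) - c‖
  · obtain ⟨y, hyF, hyc⟩ := hcase
    have hyint : IsIntegral F y := IsIntegral.of_finite F y
    have hydeg : (minpoly F y).natDegree = p := by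
      have h1 : (minpoly F y).natDegree ∣ Module.finrank F E := minpoly.degree_dvd hyint
      rw [hdeg] at h1
      rcases (Nat.dvd_prime (Fact.out : p.Prime)).1 h1 with h | h
      · exfalso
        apply hyF
        have h2 : (minpoly F y).degree = 1 := by
          rw [degree_eq_natDegree (minpoly.ne_zero hyint), h]; rfl
        obtain ⟨w, hw⟩ := (minpoly.mem_range_of_degree_eq_one F y h2)
        rw [← hw]
        exact w.2
      · exact h
    have hmin : minpoly F (y : Ω) = minpoly F y :=
      minpoly.algebraMap_eq (algebraMap E Ω).injective y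
    obtain ⟨d, hd⟩ : ∃ d, d + 1 = p := ⟨p - 1, by omega⟩
    have hB := orthBasis_degree_p hp hF.complete hnt (y := (y : Ω))
      (by
        have h5 : IsAlgebraic F y := Algebra.IsAlgebraic.isAlgebraic _
        exact h5.algebraMap) hd (by rw [hmin, hydeg, hd]) hyc
    refine ⟨d, fun i : Fin (d + 1) => (y : Ω) ^ (i : ℕ), ?_⟩
    rw [sta5_adj E y.2]
    · exact hB
    · -- adjoin F {y} = E by degree
      have h1 : IntermediateField.adjoin F {(y : Ω)} ≤ E := by
        rw [IntermediateField.adjoin_simple_le_iff]; exact y.2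
      have h2 : Module.finrank F (IntermediateField.adjoin F {(y : Ω)}) = p := by
        have h4 : IsIntegral F (y : Ω) := hyint.algebraMap
        rw [IntermediateField.adjoin.finrank h4, hmin, hydeg]
      have h3 : IntermediateField.adjoin F {(y : Ω)} = E :=
        IntermediateField.eq_of_le_of_finrank_eq h1 (by rw [h2, hdeg])
      intro x hx
      rw [h3]; exact hx
  · push Not at hcase
    -- everything has a better approximation
    have happ : ∀ y : E, y ≠ 0 → ∃ c ∈ F, ‖(y : Ω) - c‖ < ‖(y : Ω)‖ := by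
      intro y hy
      by_cases hyF : (y : Ω) ∈ F
      · refine ⟨y, hyF, ?_⟩
        rw [sub_self, norm_zero, norm_pos_iff]
        exact fun h => hy (Subtype.ext h)
      · exact hcase y hyF
    exfalso
    -- an element outside F
    obtain ⟨z, hz⟩ : ∃ z : E, (z : Ω) ∉ F := by
      by_contra hcon
      push Not at hcon
      have h1 : E = ⊥ := by
        rw [eq_bot_iff]
        intro x hx
        exact ⟨⟨x, hcon ⟨x, hx⟩⟩, rfl⟩
      have h2 : Module.finrank F E = 1 := by
        rw [h1]; exact IntermediateField.finrank_bot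
      omega
    set r : ℝ := Metric.infDist (z : Ω) (F : Set Ω) with hrdef
    have hFne : (F : Set Ω).Nonempty := ⟨0, F.zero_mem⟩
    have hclosed : IsClosed (F : Set Ω) := hF.complete.isClosed
    have hr0 : 0 < r := by
      rw [hrdef]
      exact (hclosed.notMem_iff_infDist_pos hFne).1 hz
    have hrle : ∀ g ∈ F, r ≤ ‖(z : Ω) - g‖ := by
      intro g hg
      rw [← dist_eq_norm]
      exact Metric.infDist_le_dist_of_mem hg
    have hr : ∀ g ∈ F, r < ‖(z : Ω) - g‖ := by
      intro g hg
      have h1 : z - algebraMap F E ⟨g, hg⟩ ≠ 0 := by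
        intro h
        apply hz
        rw [sub_eq_zero.1 h]
        exact hg
      obtain ⟨c, hc, hc'⟩ := happ _ h1
      have h2 : ((z - algebraMap F E ⟨g, hg⟩ : E) : Ω) = (z : Ω) - g := rfl
      rw [h2] at hc'
      have h3 := hrle (g + c) (F.add_mem hg hc)
      rw [← sub_sub] at h3
      exact h3.trans_lt hc'
    have hr' : ∀ r' : ℝ, r < r' → ∃ g ∈ F, ‖(z : Ω) - g‖ < r' := by
      intro r' hrr
      obtain ⟨g, hg, hg'⟩ := (Metric.infDist_lt_iff hFne).1 hrr
      exact ⟨g, hg, by rwa [dist_eq_norm] at hg'⟩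
    have hcardN : Nat.card (E ≃ₐ[F] E) = p := by
      rw [IsGalois.card_aut_eq_finrank, hdeg]
    have : IsCyclic (E ≃ₐ[F] E) := isCyclic_of_prime_card hcardN
    obtain ⟨σ, hσ⟩ := IsCyclic.exists_generator (α := E ≃ₐ[F] E)
    set D : ℝ := ‖((σ z : E) : Ω) - z‖ with hDdef
    have hDall : ∀ τ : E ≃ₐ[F] E, ‖((τ z : E) : Ω) - z‖ ≤ D := by
      intro τ
      obtain ⟨i, hi⟩ := (mem_powers_iff_mem_zpowers.2 (hσ τ))
      rw [← hi]
      dsimp only
      clear hi
      induction i with
      | zero => simp [hDdef]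
      | succ i ih =>
        have h1 : (((σ ^ (i + 1)) z : E) : Ω) - z =
            (((σ ^ i) (σ z - z) : E) : Ω) + ((((σ ^ i) z : E) : Ω) - z) := by
          rw [pow_succ, AlgEquiv.mul_apply, map_sub]
          push_cast
          ring
        rw [h1]
        refine (IsUltrametricDist.norm_add_le_max _ _).trans (max_le ?_ ih)
        rw [norm_galois hF.complete hnt E (σ ^ i)]
        rfl
    have hDr : D ≤ r := by
      by_contra hcon
      push Not at hcon
      obtain ⟨g, hg, hg'⟩ := hr' D hcon
      have h1 : ((σ z : E) : Ω) - z = (((σ (z - algebraMap F E ⟨g, hg⟩)) : E) : Ω) -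
          ((z - algebraMap F E ⟨g, hg⟩ : E) : Ω) := by
        rw [map_sub, AlgEquiv.commutes]
        push_cast
        ring
      have h2 : ((z - algebraMap F E ⟨g, hg⟩ : E) : Ω) = (z : Ω) - g := rfl
      have h3 : ‖((σ z : E) : Ω) - z‖ ≤ ‖(z : Ω) - g‖ := by
        rw [h1, sub_eq_add_neg]
        refine (IsUltrametricDist.norm_add_le_max _ _).trans (max_le ?_ ?_)
        · rw [norm_galois hF.complete hnt E σ, h2]
        · rw [norm_neg, h2]
      linarith
    rcases lt_or_eq_of_le hDr with hlt | heq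
    · exact no_immediate_small hp hF hv E hdeg z hr hr' hDall hlt
    · have hne : σ z - z ≠ 0 := by
        intro h
        have h1 : ((σ z : E) : Ω) - z = 0 := by
          have := congrArg (fun w : E => (w : Ω)) h
          exact this
        rw [hDdef, h1, norm_zero] at heq
        linarith
      obtain ⟨c, hc, hc'⟩ := happ _ hne
      have h2 : ((σ z - z : E) : Ω) = ((σ z : E) : Ω) - z := rfl
      rw [h2] at hc'
      have hcn : ‖c‖ = r := by
        rw [← heq, hDdef]
        apply le_antisymm
        · have h3 : c = (((σ z : E) : Ω) - z) + -((((σ z : E) : Ω) - z) - c) := by ring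
          calc ‖c‖ = ‖(((σ z : E) : Ω) - z) + -((((σ z : E) : Ω) - z) - c)‖ := by rw [← h3]
            _ ≤ _ := (IsUltrametricDist.norm_add_le_max _ _).trans
              (max_le le_rfl (by rw [norm_neg]; exact hc'.le))
        · by_contra hcon
          push Not at hcon
          have h3 : ((σ z : E) : Ω) - z = ((((σ z : E) : Ω) - z) - c) + c := by ring
          have h4 : ‖((σ z : E) : Ω) - z‖ ≤ max ‖(((σ z : E) : Ω) - z) - c‖ ‖c‖ := by
            conv_lhs => rw [h3]
            exact IsUltrametricDist.norm_add_le_max _ _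
          have h5 := max_lt hc' hcon
          linarith
      have hc0 : c ≠ 0 := by
        rintro rfl
        rw [norm_zero] at hcn
        linarith
      have hcpos : 0 < ‖c‖ := norm_pos_iff.2 hc0
      set z' : E := algebraMap F E ⟨c, hc⟩⁻¹ * z with hz'
      have hz'c : (z' : Ω) = c⁻¹ * z := by rw [hz']; rfl
      refine no_immediate_large hp hF hnt E hdeg z' ?_ ?_ σ ?_
      · intro g hg
        have h3 : (z' : Ω) - g = c⁻¹ * ((z : Ω) - c * g) := by
          rw [hz'c]; field_simp
        rw [h3, norm_mul, norm_inv, hcn]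
        have h4 := hr (c * g) (F.mul_mem hc hg)
        rw [← div_eq_inv_mul, one_lt_div hr0]
        exact h4
      · intro r' hr1
        obtain ⟨g, hg, hg'⟩ := hr' (r * r') (by nlinarith)
        refine ⟨c⁻¹ * g, F.mul_mem (F.inv_mem hc) hg, ?_⟩
        have h3 : (z' : Ω) - c⁻¹ * g = c⁻¹ * ((z : Ω) - g) := by
          rw [hz'c]; ring
        rw [h3, norm_mul, norm_inv, hcn, ← div_eq_inv_mul, div_lt_iff₀ hr0, mul_comm]
        exact hg'
      · have h3 : ((σ z' : E) : Ω) - z' - 1 = c⁻¹ * ((((σ z : E) : Ω) - z) - c) := by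
          have h4 : ((σ z' : E) : Ω) = c⁻¹ * ((σ z : E) : Ω) := by
            rw [hz', map_mul, AlgEquiv.commutes]; rfl
          rw [h4, hz'c]
          field_simp
        rw [h3, norm_mul, norm_inv, hcn, ← div_eq_inv_mul, div_lt_one hr0]
        rw [← hDdef, heq] at hc'
        exact hc'

end MP1a953e
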