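import Pool.Agent.Lib.MP_1a953e_ag.Gal2
import Pool.Agent.Lib.MP_1a953e_ag.PW3
import Pool.Agent.Lib.MP_1a953e_ag.Lin3

/-!
# Module Tow1: algebraic maximality
-/

namespace MP1a953e

open Polynomial

variable {Ω : Type*} [NormedField Ω] [IsUltrametricDist Ω] [IsAlgClosed Ω]
variable {p : ℕ} [Fact p.Prime] [CharP Ω p] {k0 k : Subfield Ω}
variable {Cl : Subfield Ω → Subfield Ω → Prop}

omit [IsUltrametricDist Ω] [IsAlgClosed Ω] in
private theorem tow1_le (Q : Subfield Ω) (E : IntermediateField Q Ω) : Q ≤ E.toSubfield :=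
  fun x hx => E.algebraMap_mem ⟨x, hx⟩

omit [IsUltrametricDist Ω] [IsAlgClosed Ω] in
private theorem tow1_sup (Q : Subfield Ω) (E E' : IntermediateField Q Ω) :
    (E ⊔ E').toSubfield = E.toSubfield ⊔ E'.toSubfield := by
  refine le_antisymm ?_ (sup_le ?_ ?_)
  · let S : IntermediateField Q Ω := Subfield.toIntermediateField (E.toSubfield ⊔ E'.toSubfield)
      fun x => (le_sup_left : E.toSubfield ≤ E.toSubfield ⊔ E'.toSubfield)
        (tow1_le Q E x.2)
    have h1 : E ⊔ E' ≤ S := sup_le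
      (fun x hx => (le_sup_left : E.toSubfield ≤ E.toSubfield ⊔ E'.toSubfield) hx)
      (fun x hx => (le_sup_right : E'.toSubfield ≤ E.toSubfield ⊔ E'.toSubfield) hx)
    exact fun x hx => h1 hx
  · exact fun x hx => (le_sup_left : E ≤ E ⊔ E') hx
  · exact fun x hx => (le_sup_right : E' ≤ E ⊔ E') hx

omit [IsUltrametricDist Ω] [IsAlgClosed Ω] in
private theorem tow1_adj (Q : Subfield Ω) (b : Ω) :
    (IntermediateField.adjoin Q {b}).toSubfield = adj Q b := by
  refine le_antisymm ?_ (adj_le (tow1_le Q _) (IntermediateField.mem_adjoin_simple_self Q b))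
  let S : IntermediateField Q Ω := Subfield.toIntermediateField (adj Q b)
    fun x => le_adj Q b x.2
  have h1 : IntermediateField.adjoin Q {b} ≤ S := by
    rw [IntermediateField.adjoin_simple_le_iff]
    exact mem_adj_self Q b
  exact fun x hx => h1 hx

/-- TOW1.  Proof: apply `galois_devissage` to `E/Q`; `E0` is `Q ⊔ F1` by `GoodClass.prime`. -/
theorem dev (hC : GoodClass p k0 k Cl) {A F : Subfield Ω} (hA : Cl A F) {Q : Subfield Ω}
    (hI : Imm F Q) (hQ : IsComplete (Q : Set Ω)) (E : IntermediateField Q Ω)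
    [FiniteDimensional Q E] [Algebra.IsSeparable Q E] :
    ∃ A1 F1, Cl A1 F1 ∧ Ext A F A1 F1 ∧ ∀ P : Subfield Ω → Prop, P (Q ⊔ F1) →
      (∀ (E' : Subfield Ω) (z : Ω), Q ⊔ F1 ≤ E' → E' ≤ E.toSubfield ⊔ F1 →
        z ∈ E.toSubfield ⊔ F1 → z ^ p - z ∈ E' → P E' → P (adj E' z)) →
      P (E.toSubfield ⊔ F1) := by
  obtain ⟨E0, hfd, hsep, hdeg, hind⟩ := galois_devissage (p := p) Q E
  obtain ⟨A1, F1, hA1, hext, hE0⟩ := hC.prime A F hA Q hI hQ E0 hfd hsep hdeg
  refine ⟨A1, F1, hA1, hext, fun P hP0 hstep => ?_⟩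
  have hsup : (E ⊔ E0).toSubfield = E.toSubfield ⊔ F1 := by
    rw [tow1_sup, hE0, ← sup_assoc, sup_eq_left.2 (tow1_le Q E)]
  have h1 := hind P (by rw [hE0]; exact hP0)
  rw [hsup, hE0] at h1
  exact h1 fun E' z h2 h3 h4 h5 h6 => hstep E' z h2 h3 h4 h5 h6

/-- TOW2.  `F` has no immediate separable algebraic extension `F(b)`.  Proof: `dev` with `Q = F`,
`E = F⟮b⟯`, `P E' : E' = F ⊔ F1` (`= F1`).  Step: `E' = F1`, `z ∈ E ⊔ F1`, `z ^ p - z ∈ F1`,
`adj F1 z ≤ E ⊔ F1` is immediate over `F1` (`Imm.sup`), so `z ∈ F1` by `as_stable`. Hence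
`b ∈ E ⊔ F1 = F1`, and `b ∈ F` by `mem_of_sup` (with `K = E`). -/
theorem am_sep (hC : GoodClass p k0 k Cl) {A F : Subfield Ω} (hA : Cl A F) {b : Ω}
    (hb : IsSeparable F b) (hI : Imm F (adj F b)) : b ∈ F := by
  have : FiniteDimensional F (IntermediateField.adjoin F {b}) :=
    IntermediateField.adjoin.finiteDimensional hb.isIntegral
  have : Algebra.IsSeparable F (IntermediateField.adjoin F {b}) :=
    (IntermediateField.isSeparable_adjoin_simple_iff_isSeparable F Ω).2 hb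
  obtain ⟨A1, F1, hA1, ⟨d, θ, -, hθ⟩, hP⟩ := dev hC hA (Imm.refl F) (hC.ab A F hA).complete
    (IntermediateField.adjoin F {b})
  rw [tow1_adj] at hP
  have hFF1 : F ⊔ F1 = F1 := sup_eq_right.2 hθ.le
  rw [hFF1] at hP
  have h1 : adj F b ⊔ F1 = F1 := by
    refine hP (fun E' => E' = F1) rfl fun E' z _ _ h4 h5 h6 => ?_
    rw [h6] at h5 ⊢
    have h7 : Imm F1 (adj F1 z) :=
      (Imm.sup hI hθ).mono (le_adj F1 z) (adj_le le_sup_right h4)
    have h8 : z ∈ F1 := as_stable (hC.ab A1 F1 hA1) h5 h7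
    exact le_antisymm (adj_le le_rfl h8) (le_adj F1 z)
  have h2 : b ∈ F1 := by
    have h3 : b ∈ adj F b ⊔ F1 :=
      (le_sup_left : adj F b ≤ adj F b ⊔ F1) (mem_adj_self F b)
    rwa [h1] at h3
  exact mem_of_sup hI hθ (mem_adj_self F b) h2

/-- TOW3 (`F` is algebraically maximal).  Proof: `b ^ (p ^ n)` is separable over `F` for some `n`;
it is in `adj F b`, so it is in `F` by `am_sep`; now descend with `am_insep`. -/
theorem am (hC : GoodClass p k0 k Cl) {A F : Subfield Ω} (hA : Cl A F) {b : Ω}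
    (hb : IsAlgebraic F b) (hI : Imm F (adj F b)) : b ∈ F := by
  have : CharP F p := (algebraMap F Ω).charP (algebraMap F Ω).injective p
  have : ExpChar F p := ExpChar.prime Fact.out
  have hpow : ∀ n : ℕ, Imm F (adj F (b ^ n)) := fun n =>
    hI.mono (le_adj F _) (adj_le (le_adj F b) ((adj F b).pow_mem (mem_adj_self F b) n))
  obtain ⟨g, hg1, n, hg2⟩ :=
    (minpoly.irreducible hb.isIntegral).hasSeparableContraction p
  have hsep : IsSeparable F (b ^ p ^ n) := by
    refine hg1.of_dvd (minpoly.dvd F _ ?_)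
    have h1 := congrArg (Polynomial.aeval b) hg2
    rwa [Polynomial.expand_aeval, minpoly.aeval] at h1
  have hmem : b ^ p ^ n ∈ F := am_sep hC hA hsep (hpow _)
  clear hsep hg2
  induction n with
  | zero => rwa [pow_zero, pow_one] at hmem
  | succ n ih =>
    refine ih ?_
    refine am_insep (hC.ab A F hA) ?_ (hpow _)
    rwa [← pow_mul, ← pow_succ]

end MP1a953e
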