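import Pool.Agent.Lib.MP_1a953e_ag.Tow1
import Pool.Agent.Lib.MP_1a953e_ag.Calc1
import Pool.Agent.Lib.MP_1a953e_ag.Lin4

/-!
# Module Tow2: distance is not attained algebraically
-/

namespace MP1a953e

open Polynomial

variable {Ω : Type*} [NormedField Ω] [IsUltrametricDist Ω] [IsAlgClosed Ω]
variable {p : ℕ} [Fact p.Prime] [CharP Ω p] {k0 k : Subfield Ω}
variable {Cl : Subfield Ω → Subfield Ω → Prop}

omit [IsAlgClosed Ω] in
private theorem tw2_norm_sub_eq_left {x y : Ω} (h : ‖y‖ < ‖x‖) : ‖x - y‖ = ‖x‖ := by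
  have h1 : ‖x‖ ≠ ‖-y‖ := by rw [norm_neg]; exact ne_of_gt h
  rw [sub_eq_add_neg, IsUltrametricDist.norm_add_eq_max_of_norm_ne_norm h1, norm_neg]
  exact max_eq_left h.le

omit [IsAlgClosed Ω] in
private theorem tw2_norm_shift {α b β : Ω} (h : ‖α - b‖ < ‖α - β‖) : ‖b - β‖ = ‖α - β‖ := by
  have h1 := tw2_norm_sub_eq_left h
  have h2 : α - β - (α - b) = b - β := by ring
  rw [h2] at h1
  exact h1

omit [IsUltrametricDist Ω] [IsAlgClosed Ω] in
private theorem tw2_gap {ι : Type*} (s : Multiset ι) (f : ι → ℝ) (r : ℝ) (h : ∀ x ∈ s, r < f x) :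
    ∃ ρ > r, ∀ x ∈ s, ρ ≤ f x := by
  induction s using Multiset.induction with
  | empty => exact ⟨r + 1, by simp, by simp⟩
  | cons c s ih =>
    obtain ⟨ρ, hρ, h1⟩ := ih fun x hx => h x (Multiset.mem_cons_of_mem hx)
    refine ⟨min ρ (f c), lt_min hρ (h c (Multiset.mem_cons_self c s)), ?_⟩
    intro x hx
    rcases Multiset.mem_cons.1 hx with rfl | hx
    · exact min_le_right _ _
    · exact (min_le_left _ _).trans (h1 x hx)

omit [IsAlgClosed Ω] in
private theorem tw2_prod_strict {T a : Ω} (s : Multiset Ω) (hs : ∀ β ∈ s, ‖T - a‖ < ‖T - β‖) :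
    ‖(s.map fun β => T - β).prod - (s.map fun β => a - β).prod‖ <
      ‖(s.map fun β => T - β).prod‖ := by
  induction s using Multiset.induction with
  | empty => simp
  | cons c s ih =>
    have ih' := ih fun x hx => hs x (Multiset.mem_cons_of_mem hx)
    have hc : ‖T - a‖ < ‖T - c‖ := hs c (Multiset.mem_cons_self c s)
    have hac : ‖a - c‖ = ‖T - c‖ := tw2_norm_shift hc
    simp only [Multiset.map_cons, Multiset.prod_cons]
    set P := (s.map fun β => T - β).prod
    set Q := (s.map fun β => a - β).prod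
    have hP : 0 < ‖P‖ := lt_of_le_of_lt (norm_nonneg _) ih'
    have e : (T - c) * P - (a - c) * Q = (a - c) * (P - Q) + (T - a) * P := by ring
    rw [e]
    refine lt_of_le_of_lt (IsUltrametricDist.norm_add_le_max _ _) (max_lt ?_ ?_)
    · rw [norm_mul, norm_mul, hac]
      exact mul_lt_mul_of_pos_left ih' (lt_of_le_of_lt (norm_nonneg _) hc)
    · rw [norm_mul, norm_mul]
      exact mul_lt_mul_of_pos_right hc hP

/-- TOW4.  Proof.  `0 < r = infDist T F` since `F` is closed. Suppose some `b` algebraic over `F` has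
`‖T - b‖ ≤ r`; choose such a `b` with `(minpoly F b).natDegree` minimal. Claim:
`adj F b` is immediate over `F`. Let `0 ≠ x = h b`, `h` over `F` with `deg h < deg b`. The roots
`β` of `h` have smaller degree over `F`, so `r < ‖T - β‖`. Choose `a ∈ F` with
`‖T - a‖ < ‖T - β‖` for all these `β`. If `‖T - a‖ ≤ r` then (as `T - a ∈ K`, immediacy) some element
of `F` would be at distance `< r` from `T`; so `‖T - b‖ ≤ r < ‖T - a‖ = ‖b - a‖ < ‖T - β‖ = ‖a - β‖`,
hence `‖(b - β) / (a - β) - 1‖ < 1` and `‖h b - h a‖ < ‖h b‖`. By `am` `b ∈ F`, and immediacy of `K`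
(applied to `T - b`) gives an element of `F` at distance `< r` from `T`, a contradiction. -/
theorem tt_of_class (hC : GoodClass p k0 k Cl) {A F K : Subfield Ω} (hA : Cl A F) (hI : Imm F K)
    {T : Ω} (hT : T ∈ K) (hTF : T ∉ F) : TT F T := by
  have hne : (F : Set Ω).Nonempty := ⟨0, F.zero_mem⟩
  have hcl : IsClosed (F : Set Ω) := (hC.ab A F hA).complete.isClosed
  have hpos : 0 < Metric.infDist T (F : Set Ω) := (hcl.notMem_iff_infDist_pos hne).1 hTF
  -- points of `F` have distance bigger than `r`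
  have hF : ∀ b ∈ F, Metric.infDist T (F : Set Ω) < ‖T - b‖ := by
    intro b hb
    by_contra hcon
    push Not at hcon
    have hTb : T - b ≠ 0 := by
      intro h
      exact hTF (by rw [sub_eq_zero.1 h]; exact hb)
    obtain ⟨f, hf, h1⟩ := hI.2 (T - b) (K.sub_mem hT (hI.1 hb)) hTb
    have h2 : Metric.infDist T (F : Set Ω) ≤ dist T (b + f) :=
      Metric.infDist_le_dist_of_mem (F.add_mem hb hf)
    rw [dist_eq_norm, ← sub_sub] at h2
    linarith
  refine ⟨hpos, ?_⟩
  have key : ∀ n : ℕ, ∀ b : Ω, IsAlgebraic F b → (minpoly F b).natDegree = n →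
      Metric.infDist T (F : Set Ω) < ‖T - b‖ := by
    intro n
    induction n using Nat.strong_induction_on with
    | _ n ih =>
    intro b hb hn
    by_contra hcon
    push Not at hcon
    have himm : Imm F (adj F b) := by
      refine ⟨le_adj F b, fun x hx hx0 => ?_⟩
      rw [mem_adj_iff, ← IntermediateField.mem_toSubalgebra,
        IntermediateField.adjoin_simple_toSubalgebra_of_isAlgebraic hb,
        Algebra.adjoin_singleton_eq_range_aeval] at hx
      obtain ⟨q, hq⟩ := hx
      have hq' : aeval b (q %ₘ minpoly F b) = x := by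
        rw [aeval_modByMonic_eq_self_of_root (minpoly.aeval F b)]
        exact hq
      set h : Polynomial F := q %ₘ minpoly F b with hh
      have hh0 : h ≠ 0 := by
        intro h0
        rw [h0, map_zero] at hq'
        exact hx0 hq'.symm
      have hdeg : h.natDegree < n := by
        rw [← hn]
        refine natDegree_lt_natDegree hh0 ?_
        exact degree_modByMonic_lt q (minpoly.monic hb.isIntegral)
      set G : Polynomial Ω := h.map (algebraMap F Ω) with hG
      have hG0 : G ≠ 0 := (Polynomial.map_ne_zero_iff (algebraMap F Ω).injective).2 hh0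
      have hroots : ∀ β ∈ G.roots, Metric.infDist T (F : Set Ω) < ‖T - β‖ := by
        intro β hβ
        have h1 : aeval β h = 0 := by
          have := (mem_roots hG0).1 hβ
          rwa [IsRoot.def, hG, eval_map_algebraMap] at this
        have h2 : IsAlgebraic F β := ⟨h, hh0, h1⟩
        have h3 : (minpoly F β).natDegree ≤ h.natDegree :=
          natDegree_le_of_dvd (minpoly.dvd F β h1) hh0
        exact ih _ (lt_of_le_of_lt h3 hdeg) β h2 rfl
      obtain ⟨ρ, hρ, hρ1⟩ := tw2_gap G.roots (fun β => ‖T - β‖) _ hroots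
      obtain ⟨a, ha, h1⟩ := (Metric.infDist_lt_iff hne).1 hρ
      rw [dist_eq_norm] at h1
      have h2 : ‖T - b‖ < ‖T - a‖ := lt_of_le_of_lt hcon (hF a ha)
      have h3 : ‖b - a‖ = ‖T - a‖ := tw2_norm_shift h2
      have h4 : ∀ β ∈ G.roots, ‖b - a‖ < ‖b - β‖ := by
        intro β hβ
        have h5 : ‖T - b‖ < ‖T - β‖ := h2.trans (lt_of_lt_of_le h1 (hρ1 β hβ))
        rw [tw2_norm_shift h5, h3]
        exact lt_of_lt_of_le h1 (hρ1 β hβ)
      have hev : ∀ c : Ω, G.eval c = G.leadingCoeff * (G.roots.map fun β => c - β).prod := by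
        intro c
        conv_lhs => rw [(IsAlgClosed.splits G).eq_prod_roots]
        rw [eval_mul, eval_C, eval_multiset_prod, Multiset.map_map]
        congr 2
        refine Multiset.map_congr rfl fun β _ => ?_
        simp
      have h6 : ‖G.eval b - G.eval a‖ < ‖G.eval b‖ := by
        rw [hev b, hev a, ← mul_sub, norm_mul, norm_mul]
        refine mul_lt_mul_of_pos_left (tw2_prod_strict _ h4) ?_
        rw [norm_pos_iff]
        exact leadingCoeff_ne_zero.2 hG0
      have h7 : G.eval b = x := by rw [hG, eval_map_algebraMap]; exact hq'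
      rw [h7] at h6
      refine ⟨G.eval a, ?_, h6⟩
      have h8 : G.eval a = algebraMap F Ω (h.eval ⟨a, ha⟩) := by
        rw [hG]
        exact eval_map_apply (algebraMap F Ω) (⟨a, ha⟩ : F)
      rw [h8]
      exact (h.eval ⟨a, ha⟩).2
    have hbF := am hC hA hb himm
    exact absurd (hF b hbF) (not_lt.2 hcon)
  intro b hb
  exact key _ b hb rfl

end MP1a953e
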