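import Pool.Agent.Lib.MP_1a953e_ag.Tow2
import Pool.Agent.Lib.MP_1a953e_ag.AS3
import Pool.Agent.Lib.MP_1a953e_ag.Lin2
import Pool.Agent.Lib.MP_1a953e_ag.Lin4

/-!
# Module Tow3: generation after a finite extension
-/

namespace MP1a953e

open Polynomial

variable {Ω : Type*} [NormedField Ω] [IsUltrametricDist Ω] [IsAlgClosed Ω]
variable {p : ℕ} [Fact p.Prime] [CharP Ω p] {k0 k : Subfield Ω}
variable {Cl : Subfield Ω → Subfield Ω → Prop}

omit [IsUltrametricDist Ω] [IsAlgClosed Ω] [CharP Ω p] in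
private theorem tow3_alg {K : Subfield Ω} {z : Ω} (hz : z ^ p - z ∈ K) : IsAlgebraic K z := by
  have hp : p.Prime := Fact.out
  refine ⟨X ^ p - X - C (⟨z ^ p - z, hz⟩ : K), fun h => ?_, ?_⟩
  · have h1 := congrArg (fun P : Polynomial K => P.coeff p) h
    simp only [Polynomial.coeff_sub, Polynomial.coeff_X_pow, if_true, Polynomial.coeff_X,
      Polynomial.coeff_C, Polynomial.coeff_zero, if_neg hp.one_lt.ne, if_neg hp.ne_zero,
      sub_zero] at h1
    exact one_ne_zero h1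
  · rw [map_sub, map_sub, map_pow, Polynomial.aeval_X, Polynomial.aeval_C]
    change z ^ p - z - (z ^ p - z) = 0
    exact sub_self _

/-- TOW5 (generation after a finite extension).  Proof: `dev` with `Q = P₀` gives `A1, F1`; prove by
induction the property
`P E' : ∃ A' F', Cl A' F' ∧ Ext A F A' F' ∧ F1 ≤ F' ∧ IsComplete (E' ⊔ F') ∧ ∃ Y ∈ E' ⊔ F',
Y ∉ F' ∧ DenseIn (adj F' Y) (E' ⊔ F')`.
Start: `A', F' = A1, F1`, `Y = T` (`DenseIn.sup`, `mem_of_sup`, `OrthBasis.sup`,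
`OrthBasis.complete`).  Step: apply `as_step` to `(A', F')`, `K' = E' ⊔ F'`, `T = Y`
(`tt_of_class` gives the `TT` hypotheses; `adj (E' ⊔ F') z ≤ K ⊔ F'` is immediate over `F'` by
`Imm.sup`); new pair `(rootField p m A', rootField p m F')` (`GoodClass.root`, `Ab.root_ext`,
`Ext.trans`), completeness by `complete_adj`, `OrthBasis.sup`, `OrthBasis.complete`. -/
theorem tower (hC : GoodClass p k0 k Cl) {A F K P₀ : Subfield Ω} (hA : Cl A F) (hI : Imm F K)
    (hK : IsComplete (K : Set Ω)) {T : Ω} (hT : T ∈ K) (hTF : T ∉ F)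
    (hP : IsComplete (P₀ : Set Ω)) (hPd : DenseIn (adj F T) P₀) (E : IntermediateField P₀ Ω)
    [FiniteDimensional P₀ E] [Algebra.IsSeparable P₀ E] (hE : E.toSubfield = K) :
    ∃ A' F', Cl A' F' ∧ Ext A F A' F' ∧ ∃ Y ∈ K ⊔ F', Y ∉ F' ∧ DenseIn (adj F' Y) (K ⊔ F') := by
  have hFP : F ≤ P₀ := (le_adj F T).trans hPd.1
  have hPK : P₀ ≤ K := by
    rw [← hE]
    exact fun x hx => E.algebraMap_mem ⟨x, hx⟩
  have hIP : Imm F P₀ := hI.mono hFP hPK
  obtain ⟨A1, F1, hA1, hE1, hind⟩ := dev hC hA hIP hP E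
  rw [hE] at hind
  have hfin := hind (fun E' => ∃ A' F', Cl A' F' ∧ Ext A F A' F' ∧ F1 ≤ F' ∧
    IsComplete ((E' ⊔ F' : Subfield Ω) : Set Ω) ∧ ∃ Y ∈ E' ⊔ F', Y ∉ F' ∧
      DenseIn (adj F' Y) (E' ⊔ F')) ?_ ?_
  · obtain ⟨A', F', h1, h2, h3, -, h4⟩ := hfin
    have h5 : K ⊔ F1 ⊔ F' = K ⊔ F' := by
      rw [sup_assoc, sup_eq_right.2 h3]
    rw [h5] at h4
    exact ⟨A', F', h1, h2, h4⟩
  · obtain ⟨d, θ, -, hθ⟩ := id hE1
    have h5 : P₀ ⊔ F1 ⊔ F1 = P₀ ⊔ F1 := by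
      rw [sup_assoc, sup_idem]
    refine ⟨A1, F1, hA1, hE1, le_rfl, ?_, T, ?_, ?_, ?_⟩
    · rw [h5]
      exact (OrthBasis.sup hIP hθ).complete hP
    · rw [h5]
      exact (le_sup_left : P₀ ≤ P₀ ⊔ F1) (hPd.1 (mem_adj_self F T))
    · exact fun h => hTF (mem_of_sup hIP hθ (hPd.1 (mem_adj_self F T)) h)
    · rw [h5]
      exact DenseIn.sup hPd hθ
  · rintro E' z h1 h2 h3 h4 ⟨A', F', hCl, hExt, hF1, hcomp, Y, hY, hYF, hYd⟩
    obtain ⟨d, θ, -, hθ⟩ := id hExt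
    have hIK : Imm F' (K ⊔ F') := Imm.sup hI hθ
    have hK1 : K ⊔ F1 ≤ K ⊔ F' := sup_le_sup_left hF1 K
    have hle : E' ⊔ F' ≤ K ⊔ F' := sup_le (h2.trans hK1) le_sup_right
    have hIK' : Imm F' (E' ⊔ F') := hIK.mono le_sup_right hle
    have hIz : Imm F' (adj (E' ⊔ F') z) :=
      hIK.mono (le_sup_right.trans (le_adj _ _)) (adj_le hle (hK1 h3))
    have hAb := hC.ab A' F' hCl
    have hzK : z ^ p - z ∈ E' ⊔ F' := (le_sup_left : E' ≤ E' ⊔ F') h4
    have hTm : ∀ m, TT (rootField p m F') Y := by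
      intro m
      obtain ⟨e, η, -, hη⟩ := hAb.root_ext m
      refine tt_of_class hC (hC.root A' F' hCl m) (Imm.sup hIK' hη)
        ((le_sup_left : E' ⊔ F' ≤ E' ⊔ F' ⊔ rootField p m F') hY) fun h => ?_
      exact hYF (mem_of_sup hIK' hη hY h)
    obtain ⟨m, Y', hY1, hY2, hY3⟩ := as_step hAb hcomp (tt_of_class hC hCl hIK' hY hYF) hTm hYd
      hzK hIz
    have hExtm := hAb.root_ext m
    obtain ⟨e, η, -, hη⟩ := id hExtm
    have hsup : adj E' z ⊔ rootField p m F' = adj (E' ⊔ F') z ⊔ rootField p m F' := by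
      refine le_antisymm (sup_le_sup_right (sup_le_sup_right le_sup_left _) _)
        (sup_le (adj_le (sup_le ?_ ?_) ?_) le_sup_right)
      · exact (le_adj E' z).trans le_sup_left
      · exact hη.le.trans le_sup_right
      · exact (le_sup_left : adj E' z ≤ adj E' z ⊔ rootField p m F') (mem_adj_self E' z)
    refine ⟨rootField p m A', rootField p m F', hC.root A' F' hCl m, hExt.trans hExtm,
      hF1.trans hη.le, ?_, Y', ?_, hY2, ?_⟩
    · rw [hsup]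
      refine (OrthBasis.sup hIz hη).complete (complete_adj hcomp ?_ (tow3_alg hzK))
      obtain ⟨x, hx, hx1⟩ := hAb.ground.nontriv
      exact ⟨x, (le_sup_right : F' ≤ E' ⊔ F') (hAb.k_le hx), hx1⟩
    · rw [hsup]
      exact hY1
    · rw [hsup]
      exact hY3

end MP1a953e
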