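import Pool.Agent.Lib.MP_1a953e_ag.Tr2

/-!
# Module Tr3: orthonormal powers
-/

namespace MP1a953e

open Polynomial IsLocalRing

variable {k L : Type*} [NontriviallyNormedField k] [IsUltrametricDist k] [NormedField L]
  [IsUltrametricDist L] [NormedAlgebra k L]

/-- TR3.  If the residue of `a` has degree `d` over `R_k(ũ)`, then `1, a, …, a ^ (d-1)` is orthonormal
over `k(u)`.  Proof: if not all `c i` are zero, divide by one of maximal norm (an element of `k(u)`);
the residues of the `c i` are in `R_k(ũ)` (TR2b), not all zero, so `∑ residue (c j) * ã ^ j ≠ 0`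
(degree of the minimal polynomial of `ã`), and the sum has norm `1`. -/
theorem orth_of_residues {m : ℕ} (u : Fin m → O L)
    (hai : AlgebraicIndependent (ResidueField (O k)) (fun i => residue (O L) (u i))) (a : O L)
    {d : ℕ}
    (hint : IsIntegral (IntermediateField.adjoin (ResidueField (O k))
      (Set.range fun i => residue (O L) (u i))) (residue (O L) a))
    (hd : (minpoly (IntermediateField.adjoin (ResidueField (O k))
      (Set.range fun i => residue (O L) (u i))) (residue (O L) a)).natDegree = d)
    (c : Fin d → L)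
    (hc : ∀ i, c i ∈ IntermediateField.adjoin k (Set.range fun i => (u i : L))) (i : Fin d) :
    ‖c i‖ ≤ ‖∑ j, c j * (a : L) ^ (j : ℕ)‖ := by
  classical
  have hne : (Finset.univ : Finset (Fin d)).Nonempty := ⟨i, Finset.mem_univ i⟩
  obtain ⟨i₀, -, hi₀⟩ := Finset.exists_max_image Finset.univ (fun j => ‖c j‖) hne
  have hmax : ∀ j, ‖c j‖ ≤ ‖c i₀‖ := fun j => hi₀ j (Finset.mem_univ j)
  refine (hmax i).trans ?_
  by_contra hlt
  rw [not_le] at hlt
  have hc0 : c i₀ ≠ 0 := by
    intro h0
    rw [h0, norm_zero] at hlt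
    exact absurd hlt (not_lt.2 (norm_nonneg _))
  have hpos : 0 < ‖c i₀‖ := norm_pos_iff.2 hc0
  set F := IntermediateField.adjoin (ResidueField (O k)) (Set.range fun i => residue (O L) (u i))
    with hF
  let e : Fin d → O L := fun j => ⟨c j / c i₀, by
    rw [mem_O, norm_div]
    exact (div_le_one hpos).2 (hmax j)⟩
  have he : ∀ j, ((e j : O L) : L) = c j / c i₀ := fun j => rfl
  have heF : ∀ j, residue (O L) (e j) ∈ F := fun j =>
    residue_mem_adjoin u hai (by
      rw [he]
      exact div_mem (hc j) (hc i₀))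
  set s : O L := ∑ j, e j * a ^ (j : ℕ) with hs
  have hsL : (s : L) = (∑ j, c j * (a : L) ^ (j : ℕ)) / c i₀ := by
    rw [hs]
    push_cast
    rw [Finset.sum_div]
    refine Finset.sum_congr rfl fun j _ => ?_
    rw [he]
    ring
  have hs1 : ‖(s : L)‖ < 1 := by
    rw [hsL, norm_div, div_lt_one hpos]
    exact hlt
  have hsres : residue (O L) s = 0 := by
    rw [residue_eq_zero_iff, mem_maximalIdeal, mem_nonunits_iff, isUnit_O_iff]
    exact hs1.ne
  let q : Polynomial F := ∑ j : Fin d, Polynomial.C (⟨residue (O L) (e j), heF j⟩ : F) * X ^ (j : ℕ)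
  have hqcoeff : q.coeff (i₀ : ℕ) = 1 := by
    simp only [q, finset_sum_coeff, coeff_C_mul_X_pow]
    rw [Finset.sum_eq_single i₀]
    · rw [if_pos rfl]
      apply Subtype.ext
      have h1 : e i₀ = 1 := Subtype.ext (by
        rw [he]
        exact div_self hc0)
      show residue (O L) (e i₀) = 1
      rw [h1, map_one]
    · intro j _ hj
      rw [if_neg]
      intro h
      exact hj (Fin.ext h.symm)
    · intro h
      exact absurd (Finset.mem_univ i₀) h
  have hq0 : q ≠ 0 := by
    intro h
    rw [h, coeff_zero] at hqcoeff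
    exact zero_ne_one hqcoeff
  have hqa : aeval (residue (O L) a) q = 0 := by
    simp only [q, map_sum, map_mul, aeval_C, map_pow, aeval_X]
    rw [← hsres, hs, map_sum]
    refine Finset.sum_congr rfl fun j _ => ?_
    rw [map_mul, map_pow]
    rfl
  have hqdeg : q.natDegree < d := by
    have hd0 : 0 < d := i.pos
    rw [natDegree_lt_iff_degree_lt hq0]
    rw [degree_lt_iff_coeff_zero]
    intro n hn
    simp only [q, finset_sum_coeff, coeff_C_mul_X_pow]
    refine Finset.sum_eq_zero fun j _ => ?_
    rw [if_neg]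
    have := j.2
    omega
  have h2 := natDegree_le_natDegree (minpoly.degree_le_of_ne_zero F (residue (O L) a) hq0 hqa)
  rw [hd] at h2
  omega

end MP1a953e
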