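import Pool.Agent.Lib.MP_1a953e_ag.RDefs
import Pool.Agent.Lib.MP_1a953e_ag.Tr6
import Pool.Agent.Lib.MP_1a953e_ag.LD3
import Pool.Agent.Lib.MP_1a953e_ag.Calc1

/-!
# Module Tr9: simultaneous approximation
-/

namespace MP1a953e

open Polynomial

variable {Ω : Type*} [NormedField Ω]

private theorem tr9_pow_sub_le [IsUltrametricDist Ω] {x y : Ω} (hx : ‖x‖ ≤ 1) (hy : ‖y‖ ≤ 1)
    (n : ℕ) : ‖x ^ n - y ^ n‖ ≤ ‖x - y‖ := by
  induction n with
  | zero => simp
  | succ n ih =>
    have e : x ^ (n + 1) - y ^ (n + 1) = x ^ n * (x - y) + (x ^ n - y ^ n) * y := by ring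
    rw [e]
    refine (IsUltrametricDist.norm_add_le_max _ _).trans (max_le ?_ ?_)
    · rw [norm_mul, norm_pow]
      exact mul_le_of_le_one_left (norm_nonneg _) (pow_le_one₀ (norm_nonneg _) hx)
    · rw [norm_mul]
      exact (mul_le_of_le_one_right (norm_nonneg _) hy).trans ih

private theorem tr9_sub_le_max (x y : Ω) [IsUltrametricDist Ω] : ‖x - y‖ ≤ max ‖x‖ ‖y‖ := by
  rw [sub_eq_add_neg, ← norm_neg y]
  exact IsUltrametricDist.norm_add_le_max _ _

/-- polynomials with integral coefficients are Lipschitz on the unit ball -/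
private theorem tr9_eval_sub_le [IsUltrametricDist Ω] {q : Polynomial Ω}
    (hq : ∀ i, ‖q.coeff i‖ ≤ 1) {x y : Ω}
    (hx : ‖x‖ ≤ 1) (hy : ‖y‖ ≤ 1) : ‖q.eval x - q.eval y‖ ≤ ‖x - y‖ := by
  rw [eval_eq_sum_range, eval_eq_sum_range, ← Finset.sum_sub_distrib]
  refine IsUltrametricDist.norm_sum_le_of_forall_le_of_nonneg (norm_nonneg _) fun i _ => ?_
  rw [← mul_sub, norm_mul]
  exact (mul_le_of_le_one_left (norm_nonneg _) (hq i)).trans (tr9_pow_sub_le hx hy i)

private theorem tr9_derivative_coeff_le [IsUltrametricDist Ω] {q : Polynomial Ω}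
    (hq : ∀ i, ‖q.coeff i‖ ≤ 1) (i : ℕ) :
    ‖q.derivative.coeff i‖ ≤ 1 := by
  rw [coeff_derivative, norm_mul]
  have h1 : ‖((i : Ω) + 1)‖ ≤ 1 := by
    have h2 := IsUltrametricDist.norm_natCast_le_one Ω (i + 1)
    rwa [Nat.cast_add, Nat.cast_one] at h2
  exact mul_le_one₀ (hq _) (norm_nonneg _) h1

private theorem tr9_eval_lt_one [IsUltrametricDist Ω] {f : Polynomial Ω}
    (hf : ∀ i, ‖f.coeff i‖ < 1) {x : Ω} (hx : ‖x‖ ≤ 1) :
    ‖f.eval x‖ < 1 := by
  rw [eval_eq_sum_range]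
  obtain ⟨i, -, hi⟩ := IsUltrametricDist.exists_norm_finsetSum_le_of_nonempty
    (t := Finset.range (f.natDegree + 1)) ⟨0, by simp⟩ (fun i => f.coeff i * x ^ i)
  refine hi.trans_lt ?_
  rw [norm_mul, norm_pow]
  calc ‖f.coeff i‖ * ‖x‖ ^ i ≤ ‖f.coeff i‖ * 1 :=
        mul_le_mul_of_nonneg_left (pow_le_one₀ (norm_nonneg _) hx) (norm_nonneg _)
    _ < 1 := by rw [mul_one]; exact hf i

private theorem tr9_deriv_lt_one [IsUltrametricDist Ω] {f : Polynomial Ω}
    (hf : ∀ i, ‖f.coeff i‖ < 1) :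
    ∀ i, ‖f.derivative.coeff i‖ < 1 := by
  intro i
  rw [coeff_derivative, norm_mul]
  have h := IsUltrametricDist.norm_natCast_le_one Ω (i + 1)
  have h' : ‖(i : Ω) + 1‖ ≤ 1 := by simpa using h
  calc ‖f.coeff (i + 1)‖ * ‖(i : Ω) + 1‖ ≤ ‖f.coeff (i + 1)‖ * 1 :=
        mul_le_mul_of_nonneg_left h' (norm_nonneg _)
    _ < 1 := by rw [mul_one]; exact hf _

/-- TR9a.  Perturbation: `‖∑ c j * (x ^ j - a ^ j)‖ < max ‖c j‖ ≤ ‖∑ c j * a ^ j‖`. -/
theorem RD.orth_near [IsUltrametricDist Ω] {k' : Subfield Ω} {m : ℕ} {U : Fin m → Ω} {d : ℕ}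
    {a : Ω} {f : Polynomial Ω} (h : RD k' U d a f) {x : Ω} (hx : ‖x - a‖ < 1) (c : Fin d → Ω)
    (hc : ∀ i, c i ∈ kU k' U) (i : Fin d) : ‖c i‖ ≤ ‖∑ j, c j * x ^ (j : ℕ)‖ := by
  have hx1 : ‖x‖ ≤ 1 := by
    have e : x = (x - a) + a := by ring
    rw [e]
    exact (IsUltrametricDist.norm_add_le_max _ _).trans (max_le hx.le h.norm_a)
  obtain ⟨j0, -, hj0⟩ := Finset.exists_max_image Finset.univ (fun j => ‖c j‖)
    ⟨i, Finset.mem_univ i⟩
  have hmax : ∀ j, ‖c j‖ ≤ ‖c j0‖ := fun j => hj0 j (Finset.mem_univ j)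
  refine (hmax i).trans ?_
  rcases eq_or_lt_of_le (norm_nonneg (c j0)) with h0 | h0
  · rw [← h0]
    exact norm_nonneg _
  · have hA : ‖c j0‖ ≤ ‖∑ j, c j * a ^ (j : ℕ)‖ := h.orth c hc j0
    have hD : ‖∑ j, c j * (x ^ (j : ℕ) - a ^ (j : ℕ))‖ < ‖c j0‖ := by
      obtain ⟨j, -, hj⟩ := IsUltrametricDist.exists_norm_finsetSum_le_of_nonempty
        (t := (Finset.univ : Finset (Fin d))) ⟨i, Finset.mem_univ i⟩
        (fun j => c j * (x ^ (j : ℕ) - a ^ (j : ℕ)))
      refine hj.trans_lt ?_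
      rw [norm_mul]
      calc ‖c j‖ * ‖x ^ (j : ℕ) - a ^ (j : ℕ)‖ ≤ ‖c j0‖ * ‖x - a‖ :=
            mul_le_mul (hmax j) (tr9_pow_sub_le hx1 h.norm_a _) (norm_nonneg _) h0.le
        _ < ‖c j0‖ * 1 := mul_lt_mul_of_pos_left hx h0
        _ = ‖c j0‖ := mul_one _
    have e : ∑ j, c j * x ^ (j : ℕ) = ∑ j, c j * a ^ (j : ℕ) +
        ∑ j, c j * (x ^ (j : ℕ) - a ^ (j : ℕ)) := by
      rw [← Finset.sum_add_distrib]
      refine Finset.sum_congr rfl fun j _ => ?_
      ring
    have h1 := hD.trans_le hA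
    rw [e, IsUltrametricDist.norm_add_eq_max_of_norm_ne_norm h1.ne', max_eq_left h1.le]
    exact hA

/-- TR9b (the polynomial of an approximation).  Proof.  `adj (kU k' U) a` has dimension `≤ d` over
`kU k' U` (TR6b), and the `b ^ i`, `i < d`, are linearly independent (TR9a), so
`b ^ d = ∑_{i<d} H i * b ^ i` with `H i ∈ kU k' U`, `‖H i‖ ≤ ‖b ^ d‖ ≤ 1` (TR9a). Let
`h = X ^ d - ∑ H i * X ^ i`. `h - f` has degree `< d` and `‖(h - f) a‖ = ‖h a - h b‖ < 1`, so by `orth`
all its coefficients have norm `< 1`; hence `‖h' b - f' b‖ < 1`, and `‖f' b - f' a‖ < 1`. -/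
theorem RD.exists_h [IsUltrametricDist Ω] {k' : Subfield Ω} {m : ℕ} {U : Fin m → Ω} {d : ℕ}
    {a : Ω} {f : Polynomial Ω} (h : RD k' U d a f) {b : Ω} (hb : b ∈ adj (kU k' U) a)
    (hba : ‖b - a‖ < 1) :
    ∃ g : Polynomial Ω, Coeffs (kU k' U) g ∧ g.Monic ∧ g.natDegree = d ∧
      (∀ i, ‖g.coeff i‖ ≤ 1) ∧ g.eval b = 0 ∧ ‖g.derivative.eval b‖ = 1 := by
  classical
  have ha1 : ‖a‖ ≤ 1 := h.norm_a
  have hb1 : ‖b‖ ≤ 1 := by
    have : b = (b - a) + a := by ring
    rw [this]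
    exact (IsUltrametricDist.norm_add_le_max _ _).trans (max_le hba.le ha1)
  set M : Subfield Ω := kU k' U with hM
  -- `a` is integral over `M`
  obtain ⟨pM, hpM⟩ : ∃ pM : Polynomial M, pM.map M.subtype = f := by
    have h1 : f ∈ lifts M.subtype := by
      rw [lifts_iff_coeff_lifts]
      intro i
      exact ⟨⟨f.coeff i, h.coeffs i⟩, rfl⟩
    exact (mem_lifts f).1 h1
  have hpMm : pM.Monic := (monic_map_iff).1 (by rw [hpM]; exact h.monic)
  have hpMd : pM.natDegree = d := by rw [← h.deg, ← hpM, natDegree_map]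
  have hpM0 : aeval a pM = 0 := by
    rw [← eval_map_algebraMap]
    have h1 : pM.map (algebraMap M Ω) = f := hpM
    rw [h1]
    exact h.root
  have hintM : IsIntegral M a := ⟨pM, hpMm, hpM0⟩
  have hdM : (minpoly M a).natDegree ≤ d := by
    have h1 := natDegree_le_of_dvd (minpoly.dvd M a hpM0) hpMm.ne_zero
    omega
  have hbE : b ∈ IntermediateField.adjoin M {a} := by
    have hle : adj M a ≤ (IntermediateField.adjoin M {a}).toSubfield := by
      refine adj_le ?_ ?_
      · intro x hx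
        exact (IntermediateField.adjoin M {a}).algebraMap_mem ⟨x, hx⟩
      · exact IntermediateField.mem_adjoin_simple_self M a
    exact hle hb
  have : FiniteDimensional M (IntermediateField.adjoin M {a}) :=
    IntermediateField.adjoin.finiteDimensional hintM
  have hintb : IsIntegral M b := by
    have h1 : IsIntegral M (⟨b, hbE⟩ : IntermediateField.adjoin M {a}) := IsIntegral.of_finite M _
    exact h1.map (IntermediateField.adjoin M {a}).val
  have hdb : (minpoly M b).natDegree ≤ d := by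
    have h1 : (minpoly M (⟨b, hbE⟩ : IntermediateField.adjoin M {a})).natDegree ≤
        Module.finrank M (IntermediateField.adjoin M {a}) := minpoly.natDegree_le _
    rw [IntermediateField.adjoin.finrank hintM] at h1
    have h2 : minpoly M (⟨b, hbE⟩ : IntermediateField.adjoin M {a}) = minpoly M b := by
      exact (minpoly.algebraMap_eq (algebraMap (IntermediateField.adjoin M {a}) Ω).injective
        (⟨b, hbE⟩ : IntermediateField.adjoin M {a})).symm
    rw [h2] at h1
    exact h1.trans hdM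
  set g : Polynomial Ω := (minpoly M b).map (algebraMap M Ω) with hg
  have hgM : Coeffs M g := by
    intro i
    rw [hg, coeff_map]
    exact ((minpoly M b).coeff i).2
  have hgm : g.Monic := (minpoly.monic hintb).map _
  have hg0 : g.eval b = 0 := by
    rw [hg, eval_map_algebraMap, minpoly.aeval]
  have hgn : g.natDegree = (minpoly M b).natDegree := by rw [hg, natDegree_map]
  have orth : ∀ i < d, ‖g.coeff i‖ ≤ ‖∑ j ∈ Finset.range d, g.coeff j * b ^ j‖ := by
    intro i hi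
    have h1 := h.orth_near hba (fun j => g.coeff (j : ℕ)) (fun j => hgM _) ⟨i, hi⟩
    rwa [Fin.sum_univ_eq_sum_range (fun j => g.coeff j * b ^ j) d] at h1
  have hnd : g.natDegree = d := by
    rcases lt_or_eq_of_le (hgn ▸ hdb : g.natDegree ≤ d) with hlt | heq
    · exfalso
      have h1 := orth _ hlt
      have h2 : ∑ j ∈ Finset.range d, g.coeff j * b ^ j = g.eval b :=
        (eval_eq_sum_range' hlt b).symm
      rw [h2, hg0, norm_zero, hgm.coeff_natDegree, norm_one] at h1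
      linarith
    · exact heq
  have hsum : ∑ j ∈ Finset.range d, g.coeff j * b ^ j = -b ^ d := by
    have h1 := hg0
    rw [eval_eq_sum_range, hnd, Finset.sum_range_succ] at h1
    have h2 : g.coeff d = 1 := by rw [← hnd]; exact hgm.coeff_natDegree
    rw [h2, one_mul] at h1
    exact eq_neg_of_add_eq_zero_left h1
  have hg1 : ∀ i, ‖g.coeff i‖ ≤ 1 := by
    intro i
    rcases lt_trichotomy i d with hi | hi | hi
    · refine (orth i hi).trans ?_
      rw [hsum, norm_neg, norm_pow]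
      exact pow_le_one₀ (norm_nonneg _) hb1
    · rw [hi, ← hnd, hgm.coeff_natDegree, norm_one]
    · rw [coeff_eq_zero_of_natDegree_lt (by omega), norm_zero]
      exact zero_le_one
  -- the difference
  have hga : ‖(g - f).eval a‖ < 1 := by
    rw [eval_sub, h.root, sub_zero]
    have h1 := tr9_eval_sub_le hg1 ha1 hb1
    rw [hg0, sub_zero] at h1
    refine h1.trans_lt ?_
    rw [← norm_neg, neg_sub]
    exact hba
  have hdeg0 : ∀ i, d ≤ i → (g - f).coeff i = 0 := by
    intro i hi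
    rw [coeff_sub]
    rcases eq_or_lt_of_le hi with hi | hi
    · have h1 : g.coeff i = 1 := by rw [← hi, ← hnd]; exact hgm.coeff_natDegree
      have h2 : f.coeff i = 1 := by rw [← hi, ← h.deg]; exact h.monic.coeff_natDegree
      rw [h1, h2, sub_self]
    · have h3 := h.deg
      rw [coeff_eq_zero_of_natDegree_lt (by omega : g.natDegree < i),
        coeff_eq_zero_of_natDegree_lt (by omega : f.natDegree < i), sub_self]
  have hdiff : ∀ i, ‖(g - f).coeff i‖ < 1 := by
    intro i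
    rcases lt_or_ge i d with hi | hi
    · have h1 := h.orth (fun j => (g - f).coeff (j : ℕ)) (fun j => by
        rw [coeff_sub]
        exact M.sub_mem (hgM _) (h.coeffs _)) ⟨i, hi⟩
      rw [Fin.sum_univ_eq_sum_range (fun j => (g - f).coeff j * a ^ j) d] at h1
      have h2 : ∑ j ∈ Finset.range d, (g - f).coeff j * a ^ j = (g - f).eval a := by
        have h3 : (g - f).natDegree < d ∨ (g - f) = 0 := by
          by_cases h4 : g - f = 0
          · exact Or.inr h4
          · left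
            by_contra h5
            rw [not_lt] at h5
            exact h4 (leadingCoeff_eq_zero.1 (hdeg0 _ h5))
        rcases h3 with h3 | h3
        · exact (eval_eq_sum_range' h3 a).symm
        · rw [h3]; simp
      rw [h2] at h1
      exact h1.trans_lt hga
    · rw [hdeg0 i hi, norm_zero]
      exact zero_lt_one
  have hfin : ‖g.derivative.eval b‖ = 1 := by
    have h1 := tr9_eval_lt_one (tr9_deriv_lt_one hdiff) hb1
    have h2 := tr9_eval_sub_le (tr9_derivative_coeff_le h.norm_f) hb1 ha1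
    have h3 : g.derivative.eval b = f.derivative.eval a +
        ((g - f).derivative.eval b + (f.derivative.eval b - f.derivative.eval a)) := by
      rw [derivative_sub, eval_sub]
      ring
    have h4 : ‖(g - f).derivative.eval b + (f.derivative.eval b - f.derivative.eval a)‖ <
        ‖f.derivative.eval a‖ := by
      rw [h.deriv]
      exact (IsUltrametricDist.norm_add_le_max _ _).trans_lt (max_lt h1 (h2.trans_lt hba))
    rw [h3, IsUltrametricDist.norm_add_eq_max_of_norm_ne_norm h4.ne', max_eq_left h4.le, h.deriv]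
  exact ⟨g, hgM, hgm, hnd, hg1, hg0, hfin⟩

/-- TR9c (simultaneous approximation).  As in module LD4.  Proof: let `ρ` be the minimum of `1` and all
`‖α - β‖` (`β` a root of some `G ∈ S`), so `ρ > infDist α F`; by density choose
`b ∈ adj (kU k' U) a` with `‖α - b‖ < ρ`, `h` from TR9b; use `taylor_lt` and `good_of_taylor` (TR9a for
`x = α` and `x = b`); `‖h' α‖ = ‖h' b‖` and `‖h α‖ = ‖α - b‖ < 1`. -/
theorem RD.approx [IsUltrametricDist Ω] [IsAlgClosed Ω] {k' F : Subfield Ω} {m : ℕ}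
    {U : Fin m → Ω} {d : ℕ} {a : Ω} {f : Polynomial Ω} (h : RD k' U d a f)
    (hFd : DenseIn (adj (kU k' U) a) F) {α : Ω} (hαa : ‖α - a‖ < 1)
    (hdist : Metric.infDist α (F : Set Ω) < 1)
    (S : Finset (Polynomial Ω)) (hS : ∀ G ∈ S, G ≠ 0 ∧ Coeffs (kU k' U) G)
    (hroots : ∀ G ∈ S, ∀ β ∈ G.roots, Metric.infDist α (F : Set Ω) < ‖α - β‖) :
    ∃ h : Polynomial Ω, Coeffs (kU k' U) h ∧ h.Monic ∧
      h.natDegree = d ∧ (∀ i, ‖h.coeff i‖ ≤ 1) ∧
      ‖h.derivative.eval α‖ = 1 ∧ ‖h.eval α‖ < 1 ∧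
      ∀ G ∈ S, ∃ (N : ℕ) (g : ℕ → Polynomial Ω), (∀ i, Coeffs (kU k' U) (g i)) ∧
        (∀ i, (g i).degree < d) ∧
        G = ∑ i ∈ Finset.range (N + 1), g i * h ^ i ∧
        ∀ i, 1 ≤ i → i ≤ N → ‖(g i).eval α‖ * ‖h.eval α‖ ^ i < ‖(g 0).eval α‖ := by
  classical
  -- the bound
  obtain ⟨ρ, hρd, hρ1, hρr⟩ : ∃ ρ : ℝ, Metric.infDist α (F : Set Ω) < ρ ∧ ρ ≤ 1 ∧
      ∀ G ∈ S, ∀ β ∈ G.roots, ρ ≤ ‖α - β‖ := by
    let R : Finset ℝ := insert 1 ((S.biUnion fun G => G.roots.toFinset).image fun β => ‖α - β‖)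
    have hR : R.Nonempty := ⟨1, Finset.mem_insert_self _ _⟩
    refine ⟨R.min' hR, ?_, Finset.min'_le _ _ (Finset.mem_insert_self _ _), ?_⟩
    · rw [Finset.lt_min'_iff]
      intro x hx
      rcases Finset.mem_insert.1 hx with rfl | hx
      · exact hdist
      · obtain ⟨β, hβ, rfl⟩ := Finset.mem_image.1 hx
        obtain ⟨G, hG', hβ'⟩ := Finset.mem_biUnion.1 hβ
        exact hroots G hG' β (Multiset.mem_toFinset.1 hβ')
    · intro G hG' β hβ
      refine Finset.min'_le _ _ (Finset.mem_insert_of_mem (Finset.mem_image.2 ⟨β, ?_, rfl⟩))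
      exact Finset.mem_biUnion.2 ⟨G, hG', Multiset.mem_toFinset.2 hβ⟩
  have hρ0 : 0 < ρ := Metric.infDist_nonneg.trans_lt hρd
  -- the approximation
  have hne : (F : Set Ω).Nonempty := ⟨0, F.zero_mem⟩
  obtain ⟨f0, hf0, hfρ⟩ := (Metric.infDist_lt_iff hne).1 hρd
  rw [dist_eq_norm] at hfρ
  obtain ⟨b, hb, hbρ⟩ := hFd.2 f0 hf0 ρ hρ0
  have hαb : ‖α - b‖ < ρ := by
    have e : α - b = (α - f0) + (f0 - b) := by ring
    rw [e]
    exact (IsUltrametricDist.norm_add_le_max _ _).trans_lt (max_lt hfρ hbρ)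
  have hαb1 : ‖α - b‖ < 1 := hαb.trans_le hρ1
  have ha1 : ‖a‖ ≤ 1 := h.norm_a
  have hα1 : ‖α‖ ≤ 1 := by
    have e : α = (α - a) + a := by ring
    rw [e]
    exact (IsUltrametricDist.norm_add_le_max _ _).trans (max_le hαa.le ha1)
  have hba : ‖b - a‖ < 1 := by
    have e : b - a = (α - a) - (α - b) := by ring
    rw [e]
    exact (tr9_sub_le_max _ _).trans_lt (max_lt hαa hαb1)
  have hb1 : ‖b‖ ≤ 1 := by
    have e : b = (b - a) + a := by ring
    rw [e]
    exact (IsUltrametricDist.norm_add_le_max _ _).trans (max_le hba.le ha1)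
  obtain ⟨g, hgM, hmon, hdeg, hg1, hgb, hg'⟩ := h.exists_h hb hba
  refine ⟨g, hgM, hmon, hdeg, hg1, ?_, ?_, ?_⟩
  · have h1 := tr9_eval_sub_le (tr9_derivative_coeff_le hg1) hα1 hb1
    have h2 : ‖g.derivative.eval α - g.derivative.eval b‖ < 1 := h1.trans_lt hαb1
    have e : g.derivative.eval α = (g.derivative.eval α - g.derivative.eval b) +
        g.derivative.eval b := by ring
    rw [e, IsUltrametricDist.norm_add_eq_max_of_norm_ne_norm (by rw [hg']; exact h2.ne), hg']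
    exact max_eq_right h2.le
  · have h1 := tr9_eval_sub_le hg1 hα1 hb1
    rw [hgb, sub_zero] at h1
    exact h1.trans_lt hαb1
  · intro G hGS
    obtain ⟨hG0, hGM⟩ := hS G hGS
    refine good_of_taylor (M := kU k' U) (d := d) (b := b) ?_ hb1 hα1 hgM
      hmon hdeg h.dpos hg1 hgb hg' hαb1 hGM hG0 ?_
    · intro x hx c hc i
      have hxa : ‖x - a‖ < 1 := by
        rcases hx with rfl | rfl
        · exact hαa
        · exact hba
      exact h.orth_near hxa c hc i
    · intro i hi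
      exact taylor_lt hG0 (hρr G hGS) hαb i hi

end MP1a953e
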