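import Pool.Agent.Lib.MP_1a953e_ag.WB2
import Pool.Agent.Lib.MP_1a953e_ag.Lin2

/-!
# Module WB3: finite extensions
-/

namespace MP1a953e

open MvPolynomial

variable {Ω : Type*} [NormedField Ω]

private theorem wb3_castAdd_inj (n m : ℕ) :
    Function.Injective (Fin.castAdd m : Fin n → Fin (n + m)) := Fin.castAdd_injective n m

private theorem wb3_coeff_cases {n m : ℕ} (q : MvPolynomial (Fin n) Ω)
    (a : Fin (n + m) →₀ ℕ) :
    (∃ u : Fin n →₀ ℕ, u.mapDomain (Fin.castAdd m) = a ∧
      coeff a (rename (Fin.castAdd m) q) = coeff u q) ∨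
      coeff a (rename (Fin.castAdd m) q) = 0 := by
  by_cases h : ∃ u : Fin n →₀ ℕ, u.mapDomain (Fin.castAdd m) = a
  · obtain ⟨u, hu⟩ := h
    refine Or.inl ⟨u, hu, ?_⟩
    rw [← hu, coeff_rename_mapDomain _ (wb3_castAdd_inj n m)]
  · refine Or.inr (coeff_rename_eq_zero _ _ _ fun u hu => ?_)
    exact absurd ⟨u, hu⟩ h

private theorem wb3_MC_rename {k : Subfield Ω} {n m : ℕ} {q : MvPolynomial (Fin n) Ω}
    (hq : MC k q) : MC k (rename (Fin.castAdd m) q) := by
  intro a
  rcases wb3_coeff_cases (m := m) q a with ⟨u, _, h⟩ | h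
  · rw [h]
    exact hq u
  · rw [h]
    exact k.zero_mem

private theorem wb3_WB_rename {n m : ℕ} {s : Fin n → Ω} {t : Fin m → Ω}
    {q : MvPolynomial (Fin n) Ω} {A : ℝ} (hA : 0 ≤ A) (hq : WB s q A) :
    WB (Fin.append s t) (rename (Fin.castAdd m) q) A := by
  intro a
  rcases wb3_coeff_cases (m := m) q a with ⟨u, hu, h⟩ | h
  · rw [h]
    refine le_trans (le_of_eq ?_) (hq u)
    congr 1
    rw [Fin.prod_univ_add]
    have h1 : ∀ i : Fin n, ‖Fin.append s t (Fin.castAdd m i)‖ ^ a (Fin.castAdd m i) =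
        ‖s i‖ ^ u i := by
      intro i
      rw [Fin.append_left, ← hu, Finsupp.mapDomain_apply (wb3_castAdd_inj n m)]
    have h2 : ∀ j : Fin m, ‖Fin.append s t (Fin.natAdd n j)‖ ^ a (Fin.natAdd n j) = 1 := by
      intro j
      rw [← hu, Finsupp.mapDomain_notin_range, pow_zero]
      rintro ⟨i, hi⟩
      have h3 := congrArg Fin.val hi
      simp only [Fin.val_castAdd, Fin.val_natAdd] at h3
      have h4 := i.2
      omega
    rw [Finset.prod_congr rfl fun i _ => h1 i, Finset.prod_congr rfl fun j _ => h2 j,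
      Finset.prod_const_one, mul_one]
  · rw [h, norm_zero, zero_mul]
    exact hA

private theorem wb3_WB_X {n : ℕ} {s : Fin n → Ω} (j : Fin n) :
    WB s (X j : MvPolynomial (Fin n) Ω) ‖s j‖ := by
  classical
  intro a
  rw [coeff_X']
  split_ifs with h
  · rw [norm_one, one_mul, ← h]
    rw [Finset.prod_eq_single j]
    · rw [Finsupp.single_eq_same, pow_one]
    · intro i _ hi
      rw [Finsupp.single_eq_of_ne hi, pow_zero]
    · intro hj
      exact absurd (Finset.mem_univ j) hj
  · rw [norm_zero, zero_mul]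
    exact norm_nonneg _

private theorem wb3_WB_mono {n : ℕ} {s : Fin n → Ω} {P : MvPolynomial (Fin n) Ω} {A B : ℝ}
    (h : WB s P A) (hAB : A ≤ B) : WB s P B := fun a => (h a).trans hAB

private theorem wb3_eval_rename {n m : ℕ} (s : Fin n → Ω) (t : Fin m → Ω)
    (q : MvPolynomial (Fin n) Ω) :
    eval (Fin.append s t) (rename (Fin.castAdd m) q) = eval s q := by
  rw [eval_rename]
  congr 1
  have h : Fin.append s t ∘ Fin.castAdd m = s := by
    funext i
    exact Fin.append_left s t i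
  rw [h]

/-- WB3.  Finite extensions with an orthogonal basis.  Proof: `x = ∑ c l * θ l` with
`‖c l * θ l‖ ≤ ‖x‖`; approximate the `c l` by `P l (s) / g (s)` (`TF.common`); take
`P = ∑ l, rename (Fin.castAdd _) (P l) * X (Fin.natAdd _ l)` and `rename (Fin.castAdd _) g`.
Completeness: `OrthBasis.complete`. -/
theorem TF.ext [IsUltrametricDist Ω] {k F F' : Subfield Ω} {n : ℕ} {s : Fin n → Ω}
    (h : TF k F s) {d : ℕ} {θ : Fin (d + 1) → Ω} (hθ : OrthBasis F F' θ) :
    TF k F' (Fin.append s θ) := by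
  refine ⟨h.closed, h.le.trans hθ.le, ?_, hθ.complete h.complete, ?_⟩
  · intro i
    refine Fin.addCases (fun i => ?_) (fun j => ?_) i
    · rw [Fin.append_left]
      exact hθ.le (h.mem i)
    · rw [Fin.append_right]
      exact hθ.mem j
  · intro x hx δ hδ
    obtain ⟨c, hc, hxc⟩ := hθ.span x hx
    have horth : ∀ i, ‖c i‖ * ‖θ i‖ ≤ ‖x‖ := by
      intro i
      rw [← norm_mul, hxc]
      exact hθ.orth c hc i
    obtain ⟨g, P, hg1, hg2, hg3, hP⟩ := h.common c hc hδ
    refine ⟨∑ l, rename (Fin.castAdd (d + 1)) (P l) * X (Fin.natAdd n l),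
      rename (Fin.castAdd (d + 1)) g, ?_, wb3_MC_rename hg1, ?_,
      wb3_WB_rename zero_le_one hg2, ?_, ?_⟩
    · exact MC.sum _ fun l _ => (wb3_MC_rename (hP l).1).mul (MC.X _)
    · refine WB.sum _ (norm_nonneg x) fun l _ => ?_
      have h1 : WB (Fin.append s θ) (X (Fin.natAdd n l) : MvPolynomial (Fin (n + (d + 1))) Ω)
          ‖θ l‖ := by
        have h2 := wb3_WB_X (s := Fin.append s θ) (Fin.natAdd n l)
        rwa [Fin.append_right] at h2
      exact wb3_WB_mono ((wb3_WB_rename (norm_nonneg _) (hP l).2.1).mul (norm_nonneg _) h1)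
        (horth l)
    · rw [wb3_eval_rename]
      exact hg3
    · have e1 : x - eval (Fin.append s θ) (∑ l, rename (Fin.castAdd (d + 1)) (P l) *
          X (Fin.natAdd n l)) / eval (Fin.append s θ) (rename (Fin.castAdd (d + 1)) g) =
          ∑ l, (c l - eval s (P l) / eval s g) * θ l := by
        rw [wb3_eval_rename, map_sum, Finset.sum_div]
        conv_lhs => rw [hxc]
        rw [← Finset.sum_sub_distrib]
        apply Finset.sum_congr rfl
        intro l _
        rw [map_mul, wb3_eval_rename, eval_X, Fin.append_right]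
        ring
      rw [e1]
      refine IsUltrametricDist.norm_sum_le_of_forall_le_of_nonneg (by positivity) fun l _ => ?_
      rw [norm_mul]
      calc ‖c l - eval s (P l) / eval s g‖ * ‖θ l‖ ≤ δ * ‖c l‖ * ‖θ l‖ :=
            mul_le_mul_of_nonneg_right (hP l).2.2 (norm_nonneg _)
        _ = δ * (‖c l‖ * ‖θ l‖) := by ring
        _ ≤ δ * ‖x‖ := mul_le_mul_of_nonneg_left (horth l) hδ.le

end MP1a953e
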